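import Pool.Agent.Helper984_CP.TB4

/-!
# Semigroups of forward invariant continua
-/

set_option autoImplicit false

open Set Filter Topology Complex

noncomputable section

namespace Pool.Agent.Helper984_CP

/-- a commuting pair with nonzero Euler number which fixes the origin -/
structure Sys (k : ℤ) (F G : ℂ ≃ₜ ℂ) : Prop where
  pk : PK k F G
  ne : k ≠ 0
  F0 : F 0 = 0
  G0 : G 0 = 0

/-- the action -/
def act (F G : ℂ ≃ₜ ℂ) (v : ℤ × ℤ) : ℂ ≃ₜ ℂ := F ^ v.1 * G ^ v.2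

/-- the determinant -/
def dt (v w : ℤ × ℤ) : ℤ := v.1 * w.2 - v.2 * w.1

variable {k : ℤ} {F G : ℂ ≃ₜ ℂ}

theorem Sys.cm (h : Sys k F G) : Commute F G := h.pk.comm

theorem Sys.add (h : Sys k F G) (v w : ℤ × ℤ) : act F G (v + w) = act F G v * act F G w :=
  mul_zpow_zpow h.cm v.1 v.2 w.1 w.2

theorem act_zero' (F G : ℂ ≃ₜ ℂ) : act F G 0 = 1 := by
  unfold act
  simp

theorem Sys.act_inv (h : Sys k F G) (v : ℤ × ℤ) : act F G (-v) = (act F G v)⁻¹ := by
  rw [eq_inv_iff_mul_eq_one, ← h.add, neg_add_cancel, act_zero']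

theorem Sys.act_nsmul (h : Sys k F G) (n : ℕ) (v : ℤ × ℤ) : act F G (n • v) = act F G v ^ n := by
  induction n with
  | zero => rw [zero_smul, act_zero', pow_zero]
  | succ n ih => rw [succ_nsmul, h.add, ih, pow_succ]

theorem Sys.act_comm (h : Sys k F G) (v w : ℤ × ℤ) : Commute (act F G v) (act F G w) := by
  change act F G v * act F G w = act F G w * act F G v
  rw [← h.add, ← h.add, add_comm]

theorem Sys.swap (h : Sys k F G) (v w : ℤ × ℤ) (x : ℂ) :
    act F G v (act F G w x) = act F G w (act F G v x) :=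
  congrArg (fun H : ℂ ≃ₜ ℂ => H x) (h.act_comm v w).eq

theorem Sys.add_apply (h : Sys k F G) (v w : ℤ × ℤ) (x : ℂ) :
    act F G (v + w) x = act F G v (act F G w x) := by
  rw [h.add]
  rfl

theorem Sys.act0 (h : Sys k F G) (v : ℤ × ℤ) : act F G v 0 = 0 := by
  unfold act
  rw [mul_apply', zpow_zero_fix h.G0, zpow_zero_fix h.F0]

theorem Sys.PK (h : Sys k F G) (v w : ℤ × ℤ) : PK (k * dt v w) (act F G v) (act F G w) :=
  h.pk.bilin v.1 v.2 w.1 w.2

theorem Sys.neg_cancel (h : Sys k F G) (v : ℤ × ℤ) (x : ℂ) :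
    act F G v (act F G (-v) x) = x := by
  rw [h.act_inv, apply_inv_self']

theorem Sys.neg_cancel' (h : Sys k F G) (v : ℤ × ℤ) (x : ℂ) :
    act F G (-v) (act F G v x) = x := by
  rw [h.act_inv, inv_apply_self']

/-- forward invariance -/
def Fwd (F G : ℂ ≃ₜ ℂ) (S : Set (ℤ × ℤ)) (M : Set ℂ) : Prop := ∀ v ∈ S, MapsTo (act F G v) M M

/-- there are small forward invariant continua -/
def Good (F G : ℂ ≃ₜ ℂ) (S : Set (ℤ × ℤ)) : Prop := ∀ ρ : ℝ, 0 < ρ → ∃ M : Set ℂ, FC M ∧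
  M ⊆ Metric.closedBall 0 ρ ∧ (∃ z ∈ M, z ≠ 0) ∧ Fwd F G S M

theorem Fwd.mono {S T : Set (ℤ × ℤ)} {M : Set ℂ} (h : Fwd F G T M) (hS : S ⊆ T) : Fwd F G S M :=
  fun v hv => h v (hS hv)

theorem Good.mono {S T : Set (ℤ × ℤ)} (h : Good F G T) (hS : S ⊆ T) : Good F G S := fun ρ hρ => by
  obtain ⟨M, h1, h2, h3, h4⟩ := h ρ hρ
  exact ⟨M, h1, h2, h3, h4.mono hS⟩

/-- the image of a forward invariant set -/
theorem Sys.fwd_image (h : Sys k F G) {S : Set (ℤ × ℤ)} {M : Set ℂ} (hM : Fwd F G S M)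
    (v : ℤ × ℤ) : Fwd F G S (act F G v '' M) := by
  rintro w hw _ ⟨x, hx, rfl⟩
  exact ⟨act F G w x, hM w hw hx, h.swap v w x⟩

/-- the largest forward invariant continuum in a compact set without holes -/
theorem Sys.exists_max (h : Sys k F G) {X : Set ℂ} (hX : IsCompact X) (hXc : IsPreconnected Xᶜ)
    (h0 : (0 : ℂ) ∈ X) (S : Set (ℤ × ℤ)) : ∃ M : Set ℂ, FC M ∧ M ⊆ X ∧ Fwd F G S M ∧
      ∀ P : Set ℂ, IsPreconnected P → (0 : ℂ) ∈ P → P ⊆ X → Fwd F G S P → P ⊆ M := by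
  obtain ⟨QQ, hQQ⟩ : ∃ QQ : Set (Set ℂ), QQ = {P | IsPreconnected P ∧ (0 : ℂ) ∈ P ∧ P ⊆ X ∧
    Fwd F G S P} := ⟨_, rfl⟩
  obtain ⟨U, hU⟩ : ∃ U, U = ⋃₀ QQ := ⟨_, rfl⟩
  have hmem : ∀ P ∈ QQ, IsPreconnected P ∧ (0 : ℂ) ∈ P ∧ P ⊆ X ∧ Fwd F G S P := by
    intro P hP
    rw [hQQ] at hP
    exact hP
  have h0U : (0 : ℂ) ∈ U := by
    rw [hU]
    refine ⟨{0}, ?_, rfl⟩
    rw [hQQ]
    refine ⟨isPreconnected_singleton, rfl, singleton_subset_iff.2 h0, ?_⟩
    rintro v - _ rfl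
    exact h.act0 v
  have hUp : IsPreconnected U := by
    rw [hU]
    exact isPreconnected_sUnion 0 QQ (fun P hP => (hmem P hP).2.1) fun P hP => (hmem P hP).1
  have hUX : U ⊆ X := by
    rw [hU]
    exact sUnion_subset fun P hP => (hmem P hP).2.2.1
  have hUf : Fwd F G S U := by
    intro v hv x hx
    rw [hU] at hx ⊢
    obtain ⟨P, hP, hxP⟩ := hx
    exact ⟨P, hP, (hmem P hP).2.2.2 v hv hxP⟩
  have hcX : closure U ⊆ X := closure_minimal hUX hX.isClosed
  have hcf : Fwd F G S (closure U) := fun v hv => (hUf v hv).closure (act F G v).continuous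
  obtain ⟨K, hK, hUK, hKD⟩ := exists_fillFC (hX.of_isClosed_subset isClosed_closure hcX)
    hUp.closure (subset_closure h0U)
  refine ⟨K, hK, hKD X hX hXc hcX, fun v hv => ?_, fun P hP hP0 hPX hPf => ?_⟩
  · have h1 := hKD ((act F G v) ⁻¹' K) (by
      rw [← (act F G v).image_symm]
      exact hK.cpt.image (act F G v).symm.continuous) (by
      rw [← preimage_compl, ← (act F G v).image_symm]
      exact hK.fil.image _ (act F G v).symm.continuous.continuousOn) (fun x hx =>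
        hUK (hcf v hv hx))
    exact h1
  · refine subset_trans ?_ (subset_closure.trans hUK)
    rw [hU]
    refine subset_sUnion_of_mem ?_
    rw [hQQ]
    exact ⟨hP, hP0, hPX, hPf⟩

/-- no nontrivial continuum is invariant under two independent elements -/
theorem Sys.no_inv (h : Sys k F G) {v w : ℤ × ℤ} (hd : dt v w ≠ 0) {M : Set ℂ} (hM : FC M)
    (h1 : MapsTo (act F G v) M M) (h1' : MapsTo (act F G (-v)) M M)
    (h2 : MapsTo (act F G w) M M) (h2' : MapsTo (act F G (-w)) M M) : ∀ z ∈ M, z = 0 := by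
  have key : ∀ u : ℤ × ℤ, MapsTo (act F G u) M M → MapsTo (act F G (-u)) M M →
      act F G u '' M = M := by
    intro u hu hu'
    apply subset_antisymm hu.image_subset
    intro x hx
    exact ⟨act F G (-u) x, hu' hx, h.neg_cancel u x⟩
  intro z hz
  exact no_cont (h.PK v w) (mul_ne_zero h.ne hd) hM.cpt hM.pre (key v h1 h1') (key w h2 h2') hz
    hM.zero

/-- a good set remains good after adding an element or its inverse -/
theorem Sys.good_or (h : Sys k F G) {S : Set (ℤ × ℤ)} (hS : Good F G S) (g : ℤ × ℤ) :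
    Good F G (insert g S) ∨ Good F G (insert (-g) S) := by
  by_contra hcon
  rw [not_or] at hcon
  obtain ⟨hc1, hc2⟩ := hcon
  unfold Good at hc1 hc2
  push Not at hc1 hc2
  obtain ⟨ρ1, hρ1, n1⟩ := hc1
  obtain ⟨ρ2, hρ2, n2⟩ := hc2
  obtain ⟨r, hr⟩ : ∃ r, r = min ρ1 ρ2 := ⟨_, rfl⟩
  have hr0 : 0 < r := by rw [hr]; exact lt_min hρ1 hρ2
  obtain ⟨D, hD⟩ : ∃ D, D = Metric.closedBall (0 : ℂ) r := ⟨_, rfl⟩
  have hD1 : D ⊆ Metric.closedBall 0 ρ1 := by
    rw [hD, hr]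
    exact Metric.closedBall_subset_closedBall (min_le_left _ _)
  have hD2 : D ⊆ Metric.closedBall 0 ρ2 := by
    rw [hD, hr]
    exact Metric.closedBall_subset_closedBall (min_le_right _ _)
  have hDc : IsCompact D := by rw [hD]; exact isCompact_closedBall 0 r
  have hDf : IsPreconnected Dᶜ := by rw [hD]; exact ball_compl_pre hr0
  have hDn : D ∈ 𝓝 (0 : ℂ) := by rw [hD]; exact Metric.closedBall_mem_nhds 0 hr0
  have h0D : (0 : ℂ) ∈ D := mem_of_mem_nhds hDn
  obtain ⟨u, hu⟩ : ∃ u, u = act F G g := ⟨_, rfl⟩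
  have hu0 : u 0 = 0 := by rw [hu]; exact h.act0 g
  let X : ℕ → Set ℂ := fun N => {z | ∀ n, (u ^ (min n N) : ℂ ≃ₜ ℂ) z ∈ D}
  have hX : ∀ N z, z ∈ X N ↔ ∀ i ≤ N, (u ^ i : ℂ ≃ₜ ℂ) z ∈ D := by
    intro N z
    constructor
    · intro h i hi
      have := h i
      rwa [min_eq_left hi] at this
    · intro h n
      exact h _ (min_le_right _ _)
  have hXD : ∀ N, X N ⊆ D := fun N z hz => by
    have := (hX N z).1 hz 0 (Nat.zero_le _)
    rwa [pow_zero] at this
  have hXe : ∀ N, X N = ⋂ i ∈ Finset.range (N + 1), (u ^ i : ℂ ≃ₜ ℂ) ⁻¹' D := by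
    intro N
    ext z
    simp only [hX, mem_iInter, Finset.mem_range, mem_preimage, Nat.lt_succ_iff]
  have hXcl : ∀ N, IsClosed (X N) := by
    intro N
    rw [hXe]
    exact isClosed_biInter fun i _ => hDc.isClosed.preimage (u ^ i).continuous
  have hXc : ∀ N, IsCompact (X N) := fun N => hDc.of_isClosed_subset (hXcl N) (hXD N)
  have hXn : ∀ N, X N ∈ 𝓝 (0 : ℂ) := by
    intro N
    rw [hXe]
    refine (Filter.biInter_finset_mem _).2 fun i _ => ?_
    apply (u ^ i).continuous.continuousAt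
    rw [pow_fix hu0]
    exact hDn
  have h0X : ∀ N, (0 : ℂ) ∈ X N := fun N => mem_of_mem_nhds (hXn N)
  have hXf : ∀ N, IsPreconnected (X N)ᶜ := fun N =>
    filled_seq (T := fun n => (u ^ (min n N) : ℂ ≃ₜ ℂ)) hDc hDf
  choose C hC hCX hCf hCm using fun N => h.exists_max (hXc N) (hXf N) (h0X N) S
  have hCa : Antitone C := by
    intro m n hmn
    refine hCm m _ (hC n).pre (hC n).zero (fun z hz => ?_) (hCf n)
    exact (hX m z).2 fun i hi => (hX n z).1 (hCX n hz) i (hi.trans hmn)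
  obtain ⟨Y, hY, hYX, hYf, hYm⟩ := h.exists_max (X := stays u D) (isCompact_stays hDc)
    (filled_stays hDc hDf) (zero_mem_stays hu0 h0D) S
  have hYg : MapsTo u Y Y := by
    have h1 : u '' Y ⊆ Y := by
      refine hYm _ (hY.pre.image _ u.continuous.continuousOn) ⟨0, hY.zero, hu0⟩ ?_ ?_
      · rintro _ ⟨z, hz, rfl⟩
        exact stays_self (hYX hz)
      · rw [hu]
        exact h.fwd_image hYf g
    exact fun x hx => h1 ⟨x, hx, rfl⟩
  have hY0 : Y ⊆ {0} := by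
    intro z hz
    by_contra hz0
    refine n1 Y hY ((hYX.trans stays_sub).trans hD1) ⟨z, hz, hz0⟩ fun v hv => ?_
    rcases hv with hv | hv
    · rw [hv, ← hu]
      exact hYg
    · exact hYf v hv
  have hinter : ⋂ n, C n ⊆ {0} := by
    refine subset_trans (hYm _ (preconn_iInter hCa (fun n => (hC n).cpt) fun n => (hC n).pre)
      (mem_iInter.2 fun n => (hC n).zero) ?_ ?_) hY0
    · intro z hz n
      exact (hX n z).1 (hCX n (mem_iInter.1 hz n)) n le_rfl
    · intro v hv z hz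
      exact mem_iInter.2 fun n => hCf n v hv (mem_iInter.1 hz n)
  have hui0 : act F G (-g) 0 = 0 := h.act0 (-g)
  obtain ⟨N, hN⟩ := exists_subset_nhds_of_isCompact hCa.directed_ge (fun n => (hC n).cpt)
    (U := (act F G (-g)) ⁻¹' D) (fun x hx => by
      have : x = 0 := hinter hx
      rw [this]
      apply (act F G (-g)).continuous.continuousAt
      rw [hui0]
      exact hDn)
  have hCg : act F G (-g) '' C N ⊆ C N := by
    refine hCm N _ ((hC N).pre.image _ (act F G (-g)).continuous.continuousOn)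
      ⟨0, (hC N).zero, hui0⟩ ?_ (h.fwd_image (hCf N) (-g))
    rintro _ ⟨z, hz, rfl⟩
    refine (hX N _).2 fun i hi => ?_
    rcases Nat.eq_zero_or_pos i with h' | h'
    · rw [h', pow_zero]
      exact hN hz
    · obtain ⟨j, rfl⟩ : ∃ j, i = j + 1 := ⟨i - 1, by omega⟩
      rw [pow_succ, mul_apply', hu, h.neg_cancel, ← hu]
      exact (hX N _).1 (hCX N hz) j (by omega)
  obtain ⟨ρ, hρ, hball⟩ := Metric.nhds_basis_closedBall.mem_iff.1 (hXn N)
  obtain ⟨M, hM, hMρ, ⟨z, hz, hz0⟩, hMf⟩ := hS ρ hρ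
  have hMC : M ⊆ C N := hCm N M hM.pre hM.zero (hMρ.trans hball) hMf
  refine n2 (C N) (hC N) (((hCX N).trans (hXD N)).trans hD2) ⟨z, hMC hz, hz0⟩ fun v hv => ?_
  rcases hv with hv | hv
  · rw [hv]
    exact fun x hx => hCg ⟨x, hx, rfl⟩
  · exact hCf N v hv

/-- the preimages of a forward invariant set -/
theorem Sys.back (h : Sys k F G) {S : Set (ℤ × ℤ)} {M : Set ℂ} (hM : FC M) (hMf : Fwd F G S M)
    (g : ℤ × ℤ) : (∃ P : Set ℂ, IsPreconnected P ∧ (0 : ℂ) ∈ P ∧ M ⊆ P ∧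
      Fwd F G (insert (-g) S) P ∧ P ⊆ Metric.closedBall 0 1) ∨
      ∃ j : ℕ, act F G (-(j • g)) '' M ⊆ Metric.closedBall 0 1 ∧
        ¬ act F G (-((j + 1) • g)) '' M ⊆ Metric.closedBall 0 1 ∨
        ¬ M ⊆ Metric.closedBall 0 1 := by
  by_cases hM1 : M ⊆ Metric.closedBall 0 1
  · by_cases hall : ∀ j : ℕ, act F G (-(j • g)) '' M ⊆ Metric.closedBall 0 1
    · left
      refine ⟨⋃ j : ℕ, act F G (-(j • g)) '' M, ?_, ?_, ?_, ?_, iUnion_subset hall⟩
      · exact isPreconnected_iUnion ⟨0, mem_iInter.2 fun j => ⟨0, hM.zero, h.act0 _⟩⟩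
          fun j => hM.pre.image _ (act F G _).continuous.continuousOn
      · exact mem_iUnion.2 ⟨0, 0, hM.zero, h.act0 _⟩
      · intro x hx
        refine mem_iUnion.2 ⟨0, x, hx, ?_⟩
        rw [zero_smul, neg_zero, act_zero']
        rfl
      · rintro v hv x hx
        obtain ⟨j, hj⟩ := mem_iUnion.1 hx
        rcases hv with hv | hv
        · refine mem_iUnion.2 ⟨j + 1, ?_⟩
          obtain ⟨y, hy, rfl⟩ := hj
          refine ⟨y, hy, ?_⟩
          rw [hv, ← h.add_apply]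
          congr 2
          rw [succ_nsmul, neg_add, add_comm]
        · exact mem_iUnion.2 ⟨j, h.fwd_image hMf _ v hv hj⟩
    · right
      have hex : ∃ j : ℕ, ¬ act F G (-(j • g)) '' M ⊆ Metric.closedBall 0 1 := not_forall.1 hall
      classical
      obtain ⟨j, hj, hmin⟩ : ∃ j : ℕ, ¬ act F G (-(j • g)) '' M ⊆ Metric.closedBall 0 1 ∧
          ∀ i < j, act F G (-(i • g)) '' M ⊆ Metric.closedBall 0 1 :=
        ⟨Nat.find hex, Nat.find_spec hex, fun i hi => not_not.1 (Nat.find_min hex hi)⟩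
      have hj0 : j ≠ 0 := by
        rintro rfl
        apply hj
        rw [zero_smul, neg_zero, act_zero']
        rintro _ ⟨x, hx, rfl⟩
        exact hM1 hx
      obtain ⟨i, rfl⟩ : ∃ i, j = i + 1 := ⟨j - 1, by omega⟩
      exact ⟨i, Or.inl ⟨hmin i (by omega), hj⟩⟩
  · exact Or.inr ⟨0, Or.inr hM1⟩

end Pool.Agent.Helper984_CP
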