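import Pool.Agent.Helper984_CP.AP1

/-!
# Continua which are forward invariant for a half plane of elements
-/

set_option autoImplicit false

open Set Filter Topology Complex

noncomputable section

namespace Pool.Agent.Helper984_CP

variable {k : ℤ} {F G : ℂ ≃ₜ ℂ}

theorem Sys.out (h : Sys k F G) {S : Set (ℤ × ℤ)} {M : Set ℂ} (hM : FC M) (hMf : Fwd F G S M)
    {g : ℤ × ℤ} {R : ℝ} (hR : ∀ z : ℂ, ‖z‖ ≤ 1 → ‖act F G (-g) z‖ ≤ R) (hM1 : M ⊆
      Metric.closedBall 0 1) (hb : ∃ j : ℕ, act F G (-(j • g)) '' M ⊆ Metric.closedBall 0 1 ∧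
        ¬ act F G (-((j + 1) • g)) '' M ⊆ Metric.closedBall 0 1 ∨ ¬ M ⊆ Metric.closedBall 0 1) :
    ∃ M' : Set ℂ, FC M' ∧ M' ⊆ Metric.closedBall 0 R ∧ (∃ z ∈ M', 1 < ‖z‖) ∧ Fwd F G S M' := by
  obtain ⟨j, ⟨h1, h2⟩ | h3⟩ := hb
  · refine ⟨act F G (-((j + 1) • g)) '' M, hM.image (h.act0 _), ?_, ?_, h.fwd_image hMf _⟩
    · rintro _ ⟨x, hx, rfl⟩
      have e : act F G (-((j + 1) • g)) x = act F G (-g) (act F G (-(j • g)) x) := by
        rw [← h.add_apply]
        congr 2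
        rw [succ_nsmul, neg_add, add_comm]
      rw [e, mem_closedBall_zero_iff]
      exact hR _ (mem_closedBall_zero_iff.1 (h1 ⟨x, hx, rfl⟩))
    · obtain ⟨z, hz, hz1⟩ := not_subset.1 h2
      refine ⟨z, hz, ?_⟩
      rw [mem_closedBall_zero_iff] at hz1
      exact not_le.1 hz1
  · exact absurd hM1 h3

/-- forward invariant continua of a definite size -/
theorem Sys.big (h : Sys k F G) {S : Set (ℤ × ℤ)} {v w : ℤ × ℤ} (hv : v ∈ S) (hw : w ∈ S)
    (hd : dt v w ≠ 0) (hS : Good F G S) {R : ℝ} (hRv : ∀ z : ℂ, ‖z‖ ≤ 1 → ‖act F G (-v) z‖ ≤ R)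
    (hRw : ∀ z : ℂ, ‖z‖ ≤ 1 → ‖act F G (-w) z‖ ≤ R) :
    ∃ M' : Set ℂ, FC M' ∧ M' ⊆ Metric.closedBall 0 R ∧ (∃ z ∈ M', 1 < ‖z‖) ∧ Fwd F G S M' := by
  obtain ⟨M, hM, hM1, ⟨z, hz, hz0⟩, hMf⟩ := hS 1 one_pos
  rcases h.back hM hMf v with ⟨P, hP, hP0, hMP, hPf, hP1⟩ | hb
  · obtain ⟨N, hN, hN1, hNf, hNm⟩ := h.exists_max (isCompact_closedBall (0 : ℂ) 1)
      (ball_compl_pre one_pos) (Metric.mem_closedBall_self zero_le_one) (insert (-v) S)
    have hPN := hNm P hP hP0 hP1 hPf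
    rcases h.back hN hNf w with ⟨P', hP', hP0', hNP', hPf', hP1'⟩ | hb
    · exfalso
      obtain ⟨L, hL, hL1, hLf, hLm⟩ := h.exists_max (isCompact_closedBall (0 : ℂ) 1)
        (ball_compl_pre one_pos) (Metric.mem_closedBall_self zero_le_one)
        (insert (-w) (insert (-v) S))
      have hPL := hLm P' hP' hP0' hP1' hPf'
      refine hz0 (h.no_inv hd hL (hLf v ?_) (hLf (-v) ?_) (hLf w ?_) (hLf (-w) ?_) z
        (hPL (hNP' (hPN (hMP hz)))))
      · exact Or.inr (Or.inr hv)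
      · exact Or.inr (Or.inl rfl)
      · exact Or.inr (Or.inr hw)
      · exact Or.inl rfl
    · exact h.out hN (hNf.mono (subset_insert _ _)) hRw hN1 hb
  · exact h.out hM hMf hRv hM1 hb

/-- the pairing of a direction and an element -/
def pr (n : ℂ) (v : ℤ × ℤ) : ℝ := n.re * v.1 + n.im * v.2

/-- the open half plane of a direction -/
def Hn (n : ℂ) : Set (ℤ × ℤ) := {v | 0 < pr n v}

theorem pr_add (n : ℂ) (v w : ℤ × ℤ) : pr n (v + w) = pr n v + pr n w := by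
  unfold pr
  push_cast [Prod.fst_add, Prod.snd_add]
  ring

theorem pr_neg (n : ℂ) (v : ℤ × ℤ) : pr n (-v) = -pr n v := by
  unfold pr
  push_cast [Prod.fst_neg, Prod.snd_neg]
  ring

theorem pr_neg' (n : ℂ) (v : ℤ × ℤ) : pr (-n) v = -pr n v := by
  unfold pr
  rw [Complex.neg_re, Complex.neg_im]
  ring

theorem pr_sub (n : ℂ) (v w : ℤ × ℤ) : pr n (v - w) = pr n v - pr n w := by
  rw [sub_eq_add_neg, pr_add, pr_neg]
  ring

theorem pr_nsmul (n : ℂ) (j : ℕ) (v : ℤ × ℤ) : pr n (j • v) = j * pr n v := by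
  unfold pr
  push_cast [Prod.smul_fst, Prod.smul_snd]
  simp only [nsmul_eq_mul, Int.cast_mul, Int.cast_natCast]
  ring

/-- two independent elements of the half plane -/
theorem exists_indep {n : ℂ} (hn : n ≠ 0) : ∃ v ∈ Hn n, ∃ w ∈ Hn n, dt v w ≠ 0 := by
  obtain ⟨v, u, hv, hd⟩ : ∃ v u : ℤ × ℤ, v ∈ Hn n ∧ dt v u ≠ 0 := by
    by_cases h1 : n.re = 0
    · have h2 : n.im ≠ 0 := fun h2 => hn (Complex.ext h1 h2)
      rcases lt_or_gt_of_ne h2 with h3 | h3
      · refine ⟨(0, -1), (1, 0), ?_, by simp [dt]⟩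
        change 0 < pr n (0, -1)
        simp [pr]
        exact h3
      · refine ⟨(0, 1), (1, 0), ?_, by simp [dt]⟩
        change 0 < pr n (0, 1)
        simp [pr]
        exact h3
    · rcases lt_or_gt_of_ne h1 with h3 | h3
      · refine ⟨(-1, 0), (0, 1), ?_, by simp [dt]⟩
        change 0 < pr n (-1, 0)
        simp [pr]
        exact h3
      · refine ⟨(1, 0), (0, 1), ?_, by simp [dt]⟩
        change 0 < pr n (1, 0)
        simp [pr]
        exact h3
  have hv' : 0 < pr n v := hv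
  rcases le_total 0 (pr n u) with h1 | h1
  · refine ⟨v, hv, v + u, ?_, ?_⟩
    · change 0 < pr n (v + u)
      rw [pr_add]
      linarith
    · intro h2
      apply hd
      unfold dt at h2 ⊢
      simp only [Prod.fst_add, Prod.snd_add] at h2
      linarith
  · refine ⟨v, hv, v + -u, ?_, ?_⟩
    · change 0 < pr n (v + -u)
      rw [pr_add, pr_neg]
      linarith
    · intro h2
      apply hd
      unfold dt at h2 ⊢
      simp only [Prod.fst_add, Prod.snd_add, Prod.fst_neg, Prod.snd_neg] at h2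
      linarith

theorem Sys.exists_bound (h : Sys k F G) (v w : ℤ × ℤ) : ∃ R : ℝ, 1 ≤ R ∧
    (∀ z : ℂ, ‖z‖ ≤ 1 → ‖act F G (-v) z‖ ≤ R) ∧ ∀ z : ℂ, ‖z‖ ≤ 1 → ‖act F G (-w) z‖ ≤ R := by
  obtain ⟨C1, h1⟩ := (isCompact_closedBall (0 : ℂ) 1).exists_bound_of_continuousOn
    (act F G (-v)).continuous.continuousOn
  obtain ⟨C2, h2⟩ := (isCompact_closedBall (0 : ℂ) 1).exists_bound_of_continuousOn
    (act F G (-w)).continuous.continuousOn
  refine ⟨max 1 (max C1 C2), le_max_left _ _, fun z hz => ?_, fun z hz => ?_⟩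
  · exact (h1 z (mem_closedBall_zero_iff.2 hz)).trans ((le_max_left _ _).trans (le_max_right _ _))
  · exact (h2 z (mem_closedBall_zero_iff.2 hz)).trans ((le_max_right _ _).trans (le_max_right _ _))

/-- a continuum which is forward invariant for the half plane -/
theorem Sys.exists_fwd (h : Sys k F G) {n : ℂ} (hn : n ≠ 0)
    (hg : ∀ S : Set (ℤ × ℤ), S.Finite → S ⊆ Hn n → Good F G S) :
    ∃ M : Set ℂ, FC M ∧ (∃ z ∈ M, z ≠ 0) ∧ Fwd F G (Hn n) M := by
  obtain ⟨v, hv, w, hw, hd⟩ := exists_indep hn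
  obtain ⟨R, hR1, hRv, hRw⟩ := h.exists_bound v w
  obtain ⟨e, he⟩ := exists_surjective_nat (ℤ × ℤ)
  let S : ℕ → Set (ℤ × ℤ) := fun j => {v, w} ∪ (e '' Iic j ∩ Hn n)
  have hSf : ∀ j, (S j).Finite := fun j =>
    ((Set.finite_singleton w).insert v).union (((Set.finite_Iic j).image e).inter_of_left _)
  have hSH : ∀ j, S j ⊆ Hn n := by
    rintro j x ((hx | hx) | hx)
    · rw [hx]; exact hv
    · rw [mem_singleton_iff.1 hx]; exact hw
    · exact hx.2
  have hR0 : 0 < R := by linarith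
  choose C hC hCR hCf hCm using fun j => h.exists_max (isCompact_closedBall (0 : ℂ) R)
    (ball_compl_pre hR0) (Metric.mem_closedBall_self hR0.le) (S j)
  have hSm : ∀ i j, i ≤ j → S i ⊆ S j := by
    rintro i j hij x (hx | ⟨⟨a, ha, hax⟩, hx⟩)
    · exact Or.inl hx
    · exact Or.inr ⟨⟨a, le_trans ha hij, hax⟩, hx⟩
  have hCa : Antitone C := fun i j hij =>
    hCm i (C j) (hC j).pre (hC j).zero (hCR j) ((hCf j).mono (hSm i j hij))
  have hbig : ∀ j, (C j ∩ {z : ℂ | 1 ≤ ‖z‖}).Nonempty := by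
    intro j
    obtain ⟨M, hM, hMR, ⟨z, hz, hz1⟩, hMf⟩ := h.big (Or.inl (Or.inl rfl)) (Or.inl (Or.inr rfl)) hd
      (hg (S j) (hSf j) (hSH j)) hRv hRw
    exact ⟨z, hCm j M hM.pre hM.zero hMR hMf hz, hz1.le⟩
  have hcl : IsClosed {z : ℂ | 1 ≤ ‖z‖} := isClosed_le continuous_const continuous_norm
  obtain ⟨z, hz⟩ := IsCompact.nonempty_iInter_of_sequence_nonempty_isCompact_isClosed
    (fun j => C j ∩ {z : ℂ | 1 ≤ ‖z‖}) (fun j => inter_subset_inter_left _ (hCa (Nat.le_succ j)))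
    hbig ((hC 0).cpt.inter_right hcl) (fun j => (hC j).cpt.isClosed.inter hcl)
  refine ⟨⋂ j, C j, FC.iInter hC hCa, ⟨z, mem_iInter.2 fun j => (mem_iInter.1 hz j).1, ?_⟩, ?_⟩
  · rintro rfl
    have := (mem_iInter.1 hz 0).2
    simp at this
    linarith
  · intro x hx y hy
    obtain ⟨i, hi⟩ := he x
    refine mem_iInter.2 fun j => hCa (le_max_left j i) ?_
    exact hCf (max j i) x (Or.inr ⟨⟨i, le_max_right j i, hi⟩, hx⟩) (mem_iInter.1 hy _)

/-- the images shrink to the origin -/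
theorem Sys.shrink (h : Sys k F G) {n : ℂ} {M : Set ℂ} (hM : FC M) (hMf : Fwd F G (Hn n) M)
    {w : ℤ × ℤ} (hw : w ∈ Hn n) {x : ℂ} (hx : ∀ j : ℕ, act F G (-(j • w)) x ∈ M) : x = 0 := by
  have hw' : 0 < pr n w := hw
  let C : ℕ → Set ℂ := fun j => act F G (j • w) '' M
  have hCmem : ∀ j y, y ∈ C j ↔ act F G (-(j • w)) y ∈ M := by
    intro j y
    constructor
    · rintro ⟨z, hz, rfl⟩
      rwa [h.neg_cancel']
    · intro hy
      exact ⟨_, hy, h.neg_cancel _ _⟩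
  have hCa : Antitone C := by
    refine antitone_nat_of_succ_le fun j => ?_
    intro y hy
    rw [hCmem] at hy ⊢
    have h1 := hMf w hw hy
    rw [← h.add_apply] at h1
    have e : w + -((j + 1) • w) = -(j • w) := by
      rw [succ_nsmul]
      abel
    rwa [e] at h1
  have hN : FC (⋂ j, C j) := FC.iInter (fun j => hM.image (h.act0 _)) hCa
  have hinv : ∀ u : ℤ × ℤ, MapsTo (act F G u) (⋂ j, C j) (⋂ j, C j) := by
    intro u y hy
    obtain ⟨i, hi⟩ := exists_nat_gt (-pr n u / pr n w)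
    refine mem_iInter.2 fun j => ?_
    rw [hCmem]
    have h1 := mem_iInter.1 hy (j + i)
    rw [hCmem] at h1
    have h2 : u + i • w ∈ Hn n := by
      change 0 < pr n (u + i • w)
      rw [pr_add, pr_nsmul]
      rw [div_lt_iff₀ hw'] at hi
      linarith
    have h3 := hMf _ h2 h1
    rw [← h.add_apply] at h3 ⊢
    have e : u + i • w + -((j + i) • w) = -(j • w) + u := by
      rw [add_nsmul]
      abel
    rwa [e] at h3
  refine h.no_inv (v := (1, 0)) (w := (0, 1)) (by simp [dt]) hN (hinv _) (hinv _) (hinv _) (hinv _)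
    x (mem_iInter.2 fun j => (hCmem j x).2 (hx j))

end Pool.Agent.Helper984_CP
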