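import Pool.Agent.Helper984_CP.AP2

/-!
# Two opposite half planes
-/

set_option autoImplicit false

open Set Filter Topology Complex

noncomputable section

namespace Pool.Agent.Helper984_CP

/-- the functional -/
def Jf (ℓV : C(Conf, ℂ)) (V : ℂ ≃ₜ ℂ) (A B : Set ℂ) (x y : ℂ) : ℝ :=
  (rot0 ℓV x).im - (th (V '' A) B (V x) y).im + (th A B x y).im

/-- the functional does not depend on the points, up to a bounded error -/
theorem Jf_indep {V : ℂ ≃ₜ ℂ} (hV0 : V 0 = 0) {ℓV : C(Conf, ℂ)} (hℓV : LogDiff (toC V) ℓV)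
    {A B : Set ℂ} (hA : FC A) (hB : FC B) (hVA : MapsTo V A A)
    (hVB : MapsTo (V⁻¹ : ℂ ≃ₜ ℂ) B B) {P1 P2 R1 R2 : ℂ ≃ₜ ℂ} {ℓP1 ℓP2 ℓR1 ℓR2 : C(Conf, ℂ)}
    {ξ1 ξ2 η1 η2 : ℂ} (fx1 : Flag (A ∪ B) P1 ℓP1 ξ1) (fx2 : Flag (A ∪ B) P2 ℓP2 ξ2)
    (fy1 : Flag (A ∪ B) R1 ℓR1 η1) (fy2 : Flag (A ∪ B) R2 ℓR2 η2)
    (x1A : P1 ξ1 ∈ A) (x1B : P1 ξ1 ∉ B) (x2A : P2 ξ2 ∈ A) (x2B : P2 ξ2 ∉ B)
    (y1B : R1 η1 ∈ B) (y1A : R1 η1 ∉ A) (y2B : R2 η2 ∈ B) (y2A : R2 η2 ∉ A) :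
    |Jf ℓV V A B (P1 ξ1) (R1 η1) - Jf ℓV V A B (P2 ξ2) (R2 η2)| < 28 * Real.pi := by
  obtain ⟨N, hN⟩ : ∃ N, N = V '' A := ⟨_, rfl⟩
  have hNF : FC N := by rw [hN]; exact hA.image hV0
  have hNM : N ⊆ A := by rw [hN]; exact hVA.image_subset
  have hM2V : B ⊆ V '' B := fun z hz => ⟨(V⁻¹ : ℂ ≃ₜ ℂ) z, hVB hz, apply_inv_self' V z⟩
  have hVM2 : ∀ z, z ∉ B → V z ∉ B := by
    intro z hz hVz
    apply hz
    have := hVB hVz
    rwa [inv_apply_self'] at this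
  have hsub : N ∪ B ⊆ V '' (A ∪ B) := by
    rw [image_union, ← hN]
    exact union_subset_union subset_rfl hM2V
  have hsub' : N ∪ B ⊆ A ∪ B := union_subset_union hNM subset_rfl
  have X1 : V (P1 ξ1) ∈ N := by rw [hN]; exact mem_image_of_mem _ x1A
  have X2 : V (P2 ξ2) ∈ N := by rw [hN]; exact mem_image_of_mem _ x2A
  have fX1 := (fx1.image hV0 hℓV).mono hsub (Or.inl X1)
  have fX2 := (fx2.image hV0 hℓV).mono hsub (Or.inl X2)
  have fY1 := fy1.mono hsub' (Or.inr y1B)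
  have fY2 := fy2.mono hsub' (Or.inr y2B)
  have a1 := tb (T1 := P1) (T2 := P2) (T3 := R1) hA hB fx1 fx2 fy1 x1A x1B x2A x2B y1B y1A
  have a2 := tb (A := B) (B := A) (T1 := R1) (T2 := R2) (T3 := P2) (ξ1 := η1) (ξ2 := η2)
    (ξ3 := ξ2) hB hA (by rw [union_comm]; exact fy1) (by rw [union_comm]; exact fy2)
    (by rw [union_comm]; exact fx2) y1B y1A y2B y2A x2A x2B
  have a3 := tb (T1 := V * P1) (T2 := V * P2) (T3 := R1) hNF hB fX1 fX2 fY1 X1 (hVM2 _ x1B) X2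
    (hVM2 _ x2B) y1B (fun e => y1A (hNM e))
  have a4 := tb (A := B) (B := N) (T1 := R1) (T2 := R2) (T3 := V * P2) (ξ1 := η1) (ξ2 := η2)
    (ξ3 := ξ2) hB hNF (by rw [union_comm]; exact fY1) (by rw [union_comm]; exact fY2)
    (by rw [union_comm]; exact fX2) y1B (fun e => y1A (hNM e)) y2B (fun e => y2A (hNM e)) X2
    (hVM2 _ x2B)
  have d1 := Phi_comp hℓV fx1.log fx2.log fx1.zero fx2.zero fx1.ne fx2.ne
  simp only [mul_apply'] at a1 a2 a3 a4 d1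
  rw [th_swap A B, th_swap A B] at a2
  rw [th_swap N B, th_swap N B] at a4
  rw [d1] at a3
  simp only [Complex.neg_im] at a2 a4
  rw [Jf, Jf, ← hN]
  rw [abs_lt] at *
  constructor <;> linarith

/-- behaviour of the functional under a commuting map -/
theorem Jf_equi {κ : ℤ} {G V : ℂ ≃ₜ ℂ} (h : PK κ G V) (hG0 : G 0 = 0)
    (hV0 : V 0 = 0) {ℓV : C(Conf, ℂ)} (hℓV : LogDiff (toC V) ℓV) {A B : Set ℂ} (hA : FC A)
    (hB : FC B) (hVA : MapsTo V A A) (hVB : MapsTo (V⁻¹ : ℂ ≃ₜ ℂ) B B) {x y : ℂ} (xA : x ∈ A)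
    (xB : x ∉ B) (yB : y ∈ B) (yA : y ∉ A) :
    Jf ℓV V (G '' A) (G '' B) (G x) (G y) = Jf ℓV V A B x y - 2 * Real.pi * κ := by
  obtain ⟨ℓG, hℓG⟩ := h.isoId_left.exists_logDiff
  have hc : Commute G V := h.comm
  have hGV : ∀ z, G (V z) = V (G z) := fun z => congrArg (fun H : ℂ ≃ₜ ℂ => H z) hc.eq
  have hVM2 : V x ∉ B := by
    intro hVz
    apply xB
    have := hVB hVz
    rwa [inv_apply_self'] at this
  have c1 := th_equi' hA hB hG0 hℓG xA xB yB yA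
  have c2 := th_equi' (hA.image hV0) hB hG0 hℓG (mem_image_of_mem V xA) hVM2 yB
    (fun e => yA (hVA.image_subset e))
  have e0 : G '' (V '' A) = V '' (G '' A) := by
    rw [image_image, image_image]
    exact image_congr fun z _ => hGV z
  rw [e0, hGV] at c2
  have e1 := rot0_euler' h hG0 hV0 hℓG hℓV (z := x) (hB.ne xB)
  rw [Jf, Jf, c1, c2]
  have e1' := congrArg Complex.im e1
  simp only [Complex.add_im, Complex.sub_im] at e1' ⊢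
  have e2 : (2 * Real.pi * Complex.I * (κ : ℂ) : ℂ).im = 2 * Real.pi * κ := by simp
  rw [e2] at e1'
  linarith

/-- the functional is bounded between two fixed pairs of continua -/
theorem Jf_bound {V : ℂ ≃ₜ ℂ} (hV0 : V 0 = 0) (ℓV : C(Conf, ℂ)) {A1 B1 : Set ℂ} (hA1 : FC A1)
    (hB1 : FC B1) (hVB1 : MapsTo (V⁻¹ : ℂ ≃ₜ ℂ) B1 B1) {a0 b0 : ℂ}
    (ha0 : a0 ∉ B1) (hb0 : b0 ∉ A1) :
    ∃ C0 : ℝ, ∀ A B : Set ℂ, FC A → FC B → A ⊆ A1 → B ⊆ B1 → a0 ∈ A → b0 ∈ B → MapsTo V A A →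
      MapsTo (V⁻¹ : ℂ ≃ₜ ℂ) B B → ∃ (P R : ℂ ≃ₜ ℂ) (ℓP ℓR : C(Conf, ℂ)) (ξ η : ℂ),
        Flag (A ∪ B) P ℓP ξ ∧ Flag (A ∪ B) R ℓR η ∧ P ξ ∈ A ∧ P ξ ∉ B ∧ R η ∈ B ∧ R η ∉ A ∧
          |Jf ℓV V A B (P ξ) (R η)| ≤ C0 := by
  obtain ⟨P, hP0, hPI, hPB, hPa, -, -⟩ := exists_tight hB1 ha0 ha0 ha0
  obtain ⟨R, hR0, hRI, hRA, hRb, -, -⟩ := exists_tight hA1 hb0 hb0 hb0
  obtain ⟨ℓP, hℓP⟩ := hPI.exists_logDiff
  obtain ⟨ℓR, hℓR⟩ := hRI.exists_logDiff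
  obtain ⟨X, hX⟩ : ∃ X, X = A1 ∩ {z : ℂ | ‖(P⁻¹ : ℂ ≃ₜ ℂ) a0‖ ≤ ‖(P⁻¹ : ℂ ≃ₜ ℂ) z‖} := ⟨_, rfl⟩
  obtain ⟨Y, hY⟩ : ∃ Y, Y = B1 ∩ {z : ℂ | ‖(R⁻¹ : ℂ ≃ₜ ℂ) b0‖ ≤ ‖(R⁻¹ : ℂ ≃ₜ ℂ) z‖} := ⟨_, rfl⟩
  have hXc : IsCompact X := by
    rw [hX]
    exact hA1.cpt.inter_right (isClosed_le continuous_const (P⁻¹ : ℂ ≃ₜ ℂ).continuous.norm)
  have hYc : IsCompact Y := by
    rw [hY]
    exact hB1.cpt.inter_right (isClosed_le continuous_const (R⁻¹ : ℂ ≃ₜ ℂ).continuous.norm)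
  have hXB : ∀ z ∈ X, z ∉ B1 := by
    intro z hz hzB
    rw [hX] at hz
    have h1 : ‖(P⁻¹ : ℂ ≃ₜ ℂ) a0‖ ≤ ‖(P⁻¹ : ℂ ≃ₜ ℂ) z‖ := hz.2
    linarith [hPB z hzB]
  have hYA : ∀ z ∈ Y, z ∉ A1 := by
    intro z hz hzA
    rw [hY] at hz
    have h1 : ‖(R⁻¹ : ℂ ≃ₜ ℂ) b0‖ ≤ ‖(R⁻¹ : ℂ ≃ₜ ℂ) z‖ := hz.2
    linarith [hRA z hzA]
  obtain ⟨C1, hC1⟩ := br_bdd hA1 hYc hYA
  obtain ⟨C2, hC2⟩ := br_bdd hB1 hXc hXB
  obtain ⟨C3, hC3⟩ := br_bdd hB1 (hXc.image V.continuous) (by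
    rintro _ ⟨z, hz, rfl⟩ hzB
    have := hVB1 hzB
    rw [inv_apply_self'] at this
    exact hXB z hz this)
  obtain ⟨C4, hC4⟩ := rot0_bdd (ℓ := ℓV) hXc (fun h => hXB 0 h hB1.zero)
  refine ⟨C4 + (C1 + C3) + (C1 + C2), fun A B hA hB hAA hBB ha hb hVA hVB => ?_⟩
  obtain ⟨x, hx, hxm⟩ := hA.cpt.exists_isMaxOn ⟨a0, ha⟩ (f := fun w => ‖(P⁻¹ : ℂ ≃ₜ ℂ) w‖)
    (P⁻¹ : ℂ ≃ₜ ℂ).continuous.norm.continuousOn
  obtain ⟨y, hy, hym⟩ := hB.cpt.exists_isMaxOn ⟨b0, hb⟩ (f := fun w => ‖(R⁻¹ : ℂ ≃ₜ ℂ) w‖)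
    (R⁻¹ : ℂ ≃ₜ ℂ).continuous.norm.continuousOn
  have hx1 : ‖(P⁻¹ : ℂ ≃ₜ ℂ) a0‖ ≤ ‖(P⁻¹ : ℂ ≃ₜ ℂ) x‖ := hxm ha
  have hy1 : ‖(R⁻¹ : ℂ ≃ₜ ℂ) b0‖ ≤ ‖(R⁻¹ : ℂ ≃ₜ ℂ) y‖ := hym hb
  have hxX : x ∈ X := by rw [hX]; exact ⟨hAA hx, hx1⟩
  have hyY : y ∈ Y := by rw [hY]; exact ⟨hBB hy, hy1⟩
  have hxB : x ∉ B := fun e => hXB x hxX (hBB e)
  have hyA : y ∉ A := fun e => hYA y hyY (hAA e)
  have hVxB : V x ∉ B1 := by
    intro hzB
    have := hVB1 hzB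
    rw [inv_apply_self'] at this
    exact hXB x hxX this
  refine ⟨P, R, ℓP, ℓR, (P⁻¹ : ℂ ≃ₜ ℂ) x, (R⁻¹ : ℂ ≃ₜ ℂ) y, ⟨hP0, hℓP, ?_, ?_, ?_⟩,
    ⟨hR0, hℓR, ?_, ?_, ?_⟩, ?_, ?_, ?_, ?_, ?_⟩
  · intro e
    rw [e, norm_zero] at hx1
    linarith
  · rintro z (hz | hz)
    · exact hxm hz
    · exact ((hPB z (hBB hz)).le.trans hPa.le).trans hx1
  · rw [apply_inv_self']
    exact Or.inl hx
  · intro e
    rw [e, norm_zero] at hy1
    linarith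
  · rintro z (hz | hz)
    · exact ((hRA z (hAA hz)).le.trans hRb.le).trans hy1
    · exact hym hz
  · rw [apply_inv_self']
    exact Or.inr hy
  · rwa [apply_inv_self']
  · rwa [apply_inv_self']
  · rwa [apply_inv_self']
  · rwa [apply_inv_self']
  · rw [apply_inv_self', apply_inv_self', Jf, th, th]
    have e1 : br A y x = br A1 y x := (br_mono hA1 hA (hYA y hyY) hAA hx).symm
    have e2 : br B x y = br B1 x y := (br_mono hB1 hB (hXB x hxX) hBB hy).symm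
    have hVA' : V '' A ⊆ A1 := hVA.image_subset.trans hAA
    have e3 : br (V '' A) y (V x) = br A1 y (V x) :=
      (br_mono hA1 (hA.image hV0) (hYA y hyY) hVA' (mem_image_of_mem V hx)).symm
    have e4 : br B (V x) y = br B1 (V x) y := (br_mono hB1 hB hVxB hBB hy).symm
    rw [e1, e2, e3, e4]
    have b1 := hC1 y hyY x (hAA hx)
    have b2 := hC1 y hyY (V x) (hVA' (mem_image_of_mem V hx))
    have b3 := hC2 x hxX y (hBB hy)
    have b4 := hC3 (V x) (mem_image_of_mem V hxX) y (hBB hy)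
    have b5 := hC4 x hxX
    simp only [Complex.sub_im]
    rw [abs_le] at *
    constructor <;> linarith

variable {k : ℤ} {F G : ℂ ≃ₜ ℂ}

theorem round_err (x : ℝ) : |(round x : ℝ) - x| ≤ 1 / 2 := by
  rw [abs_sub_comm]
  exact abs_sub_round x

/-- two opposite half planes are impossible -/
theorem Sys.no_antipodal (h : Sys k F G) {n : ℂ} (hn : n ≠ 0) {A B : Set ℂ} (hA : FC A)
    (hB : FC B) (nA : ∃ z ∈ A, z ≠ 0) (nB : ∃ z ∈ B, z ≠ 0) (fA : Fwd F G (Hn n) A)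
    (fB : Fwd F G (Hn (-n)) B) : False := by
  obtain ⟨v0, hv0, -⟩ := exists_indep hn
  have hv0' : 0 < pr n v0 := hv0
  obtain ⟨j, hj⟩ := exists_nat_gt ((|n.re| + |n.im|) / pr n v0)
  obtain ⟨v, hv⟩ : ∃ v, v = j • v0 := ⟨_, rfl⟩
  have hvp : |n.re| + |n.im| < pr n v := by
    rw [hv, pr_nsmul]
    rwa [div_lt_iff₀ hv0'] at hj
  have hvpos : 0 < pr n v := (add_nonneg (abs_nonneg _) (abs_nonneg _)).trans_lt hvp
  have hvH : v ∈ Hn n := hvpos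
  have hvH' : -v ∈ Hn (-n) := by
    change 0 < pr (-n) (-v)
    rw [pr_neg', pr_neg, neg_neg]
    exact hvpos
  -- the continua are not nested
  obtain ⟨a, haA, haB⟩ : ∃ a ∈ A, a ∉ B := by
    by_contra hcon
    push Not at hcon
    obtain ⟨x, hx, hx0⟩ := nA
    refine hx0 (h.shrink hB fB hvH' fun j => hcon _ ?_)
    have e : -(j • -v) = j • v := by rw [smul_neg, neg_neg]
    rw [e, h.act_nsmul]
    exact MapsTo.pow_mem (fA v hvH) j hx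
  obtain ⟨b, hbB, hbA⟩ : ∃ b ∈ B, b ∉ A := by
    by_contra hcon
    push Not at hcon
    obtain ⟨x, hx, hx0⟩ := nB
    refine hx0 (h.shrink hA fA hvH fun j => hcon _ ?_)
    have e : -(j • v) = j • -v := by rw [smul_neg]
    rw [e, h.act_nsmul]
    exact MapsTo.pow_mem (fB (-v) hvH') j hx
  obtain ⟨V, hV⟩ : ∃ V, V = act F G v := ⟨_, rfl⟩
  have hVi : (V⁻¹ : ℂ ≃ₜ ℂ) = act F G (-v) := by rw [hV, h.act_inv]
  have hV0 : V 0 = 0 := by rw [hV]; exact h.act0 v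
  have hVA : MapsTo V A A := by rw [hV]; exact fA v hvH
  have hVB : MapsTo (V⁻¹ : ℂ ≃ₜ ℂ) B B := by rw [hVi]; exact fB (-v) hvH'
  obtain ⟨ℓV, hℓV⟩ : ∃ ℓV, LogDiff (toC V) ℓV := by
    rw [hV]
    exact (h.PK v v).isoId_right.exists_logDiff
  obtain ⟨P, ℓP, ξ, fP, hP1, hP2⟩ := exists_flag hA hB haA haB
  obtain ⟨R, ℓR, η, fR, hR1, hR2⟩ := exists_flag hB hA hbB hbA
  rw [union_comm] at fR
  -- the sandwich
  obtain ⟨C0, hC0⟩ := Jf_bound hV0 ℓV (A1 := act F G (-v) '' A) (B1 := act F G v '' B)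
    (a0 := act F G v a) (b0 := act F G (-v) b) (hA.image (h.act0 _)) (hB.image (h.act0 _))
    (by
      rw [hVi]
      exact h.fwd_image fB v (-v) hvH')
    (by
      rintro ⟨z, hz, hza⟩
      rw [(act F G v).injective hza] at hz
      exact haB hz)
    (by
      rintro ⟨z, hz, hza⟩
      rw [(act F G (-v)).injective hza] at hz
      exact hbA hz)
  have key : ∀ g : ℤ × ℤ, |pr n g| < pr n v →
      |2 * Real.pi * ((k * dt g v : ℤ) : ℝ)| < C0 + 28 * Real.pi + |Jf ℓV V A B (P ξ) (R η)| := by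
    intro g hg
    rw [abs_lt] at hg
    obtain ⟨T, hT⟩ : ∃ T, T = act F G g := ⟨_, rfl⟩
    have hT0 : T 0 = 0 := by rw [hT]; exact h.act0 g
    have hPK := h.PK g v
    rw [← hT, ← hV] at hPK
    obtain ⟨ℓT, hℓT⟩ := hPK.isoId_left.exists_logDiff
    have hTA : FC (T '' A) := hA.image hT0
    have hTB : FC (T '' B) := hB.image hT0
    have hVTA : MapsTo V (T '' A) (T '' A) := by
      rw [hV, hT]
      exact h.fwd_image fA g v hvH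
    have hVTB : MapsTo (V⁻¹ : ℂ ≃ₜ ℂ) (T '' B) (T '' B) := by
      rw [hVi, hT]
      exact h.fwd_image fB g (-v) hvH'
    obtain ⟨P', R', ℓP', ℓR', ξ', η', fP', fR', x1, x2, y1, y2, hb⟩ := hC0 (T '' A) (T '' B) hTA
      hTB (by
        rintro _ ⟨z, hz, rfl⟩
        refine ⟨act F G (v + g) z, fA _ ?_ hz, ?_⟩
        · change 0 < pr n (v + g)
          rw [pr_add]
          linarith
        · rw [h.add_apply, h.neg_cancel', hT])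
      (by
        rintro _ ⟨z, hz, rfl⟩
        refine ⟨act F G (-v + g) z, fB _ ?_ hz, ?_⟩
        · change 0 < pr (-n) (-v + g)
          rw [pr_neg', pr_add, pr_neg]
          linarith
        · rw [h.add_apply, h.neg_cancel, hT])
      (by
        refine ⟨act F G (v + -g) a, fA _ ?_ haA, ?_⟩
        · change 0 < pr n (v + -g)
          rw [pr_add, pr_neg]
          linarith
        · rw [hT, h.add_apply, h.swap v (-g), h.neg_cancel])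
      (by
        refine ⟨act F G (-v + -g) b, fB _ ?_ hbB, ?_⟩
        · change 0 < pr (-n) (-v + -g)
          rw [pr_neg', pr_add, pr_neg, pr_neg]
          linarith
        · rw [hT, h.add_apply, h.swap (-v) (-g), h.neg_cancel])
      hVTA hVTB
    have fP1 := fP.image hT0 hℓT
    have fR1 := fR.image hT0 hℓT
    rw [image_union] at fP1 fR1
    have e1 := Jf_indep (P1 := T * P) (P2 := P') (R1 := T * R) (R2 := R') (ξ1 := ξ) (η1 := η) hV0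
      hℓV hTA hTB hVTA hVTB fP1 fP' fR1 fR' (mem_image_of_mem T hP1)
      (by
        rintro ⟨z, hz, hza⟩
        rw [T.injective hza] at hz
        exact hP2 hz) x1 x2 (mem_image_of_mem T hR1)
      (by
        rintro ⟨z, hz, hza⟩
        rw [T.injective hza] at hz
        exact hR2 hz) y1 y2
    have e2 := Jf_equi hPK hT0 hV0 hℓV hA hB hVA hVB hP1 hP2 hR1 hR2
    rw [mul_apply', mul_apply', e2] at e1
    have e3 := abs_le.1 hb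
    have e4 := le_abs_self (Jf ℓV V A B (P ξ) (R η))
    have e5 := neg_abs_le (Jf ℓV V A B (P ξ) (R η))
    rw [abs_lt] at e1 ⊢
    constructor <;> linarith
  -- elements close to the line
  obtain ⟨N, hN⟩ := exists_nat_gt ((C0 + 28 * Real.pi + |Jf ℓV V A B (P ξ) (R η)| +
    (|(v.1 : ℝ)| + |(v.2 : ℝ)|)) / pr n v)
  rw [div_lt_iff₀ hvpos] at hN
  have r1 := abs_le.1 (round_err (-(N * n.im)))
  have r2 := abs_le.1 (round_err (N * n.re))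
  obtain ⟨p, hp⟩ : ∃ p, p = round (-(N * n.im)) := ⟨_, rfl⟩
  obtain ⟨q, hq⟩ : ∃ q, q = round (N * n.re) := ⟨_, rfl⟩
  rw [← hp] at r1
  rw [← hq] at r2
  have hk1 : (1 : ℝ) ≤ |(k : ℝ)| := by exact_mod_cast Int.one_le_abs h.ne
  have hsmall : |pr n (p, q)| < pr n v := by
    refine lt_of_le_of_lt ?_ hvp
    have e : pr n (p, q) = n.re * ((p : ℝ) - -(N * n.im)) + n.im * ((q : ℝ) - N * n.re) := by
      unfold pr
      ring
    rw [e]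
    refine (abs_add_le _ _).trans ?_
    rw [abs_mul, abs_mul]
    have s1 : |(p : ℝ) - -(N * n.im)| ≤ 1 := by rw [abs_le]; constructor <;> linarith
    have s2 : |(q : ℝ) - N * n.re| ≤ 1 := by rw [abs_le]; constructor <;> linarith
    have s3 := mul_le_mul_of_nonneg_left s1 (abs_nonneg n.re)
    have s4 := mul_le_mul_of_nonneg_left s2 (abs_nonneg n.im)
    linarith
  have hk := key (p, q) hsmall
  have hdet : N * pr n v - (|(v.1 : ℝ)| + |(v.2 : ℝ)|) ≤ |((dt (p, q) v : ℤ) : ℝ)| := by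
    have e : ((dt (p, q) v : ℤ) : ℝ) = -(N * pr n v) + ((p : ℝ) - -(N * n.im)) * v.2 -
        ((q : ℝ) - N * n.re) * v.1 := by
      unfold dt pr
      push_cast
      ring
    have s1 : |((p : ℝ) - -(N * n.im)) * v.2| ≤ |(v.2 : ℝ)| := by
      rw [abs_mul]
      have : |(p : ℝ) - -(N * n.im)| ≤ 1 := by rw [abs_le]; constructor <;> linarith
      nlinarith [abs_nonneg (v.2 : ℝ)]
    have s2 : |((q : ℝ) - N * n.re) * v.1| ≤ |(v.1 : ℝ)| := by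
      rw [abs_mul]
      have : |(q : ℝ) - N * n.re| ≤ 1 := by rw [abs_le]; constructor <;> linarith
      nlinarith [abs_nonneg (v.1 : ℝ)]
    have s3 := neg_le_abs ((dt (p, q) v : ℤ) : ℝ)
    have t1 := abs_le.1 s1
    have t2 := abs_le.1 s2
    linarith
  have hpi := Real.pi_gt_three
  have hfin : |((dt (p, q) v : ℤ) : ℝ)| ≤ |2 * Real.pi * ((k * dt (p, q) v : ℤ) : ℝ)| := by
    push_cast
    rw [abs_mul (2 * Real.pi), abs_of_pos (by positivity : (0 : ℝ) < 2 * Real.pi), abs_mul]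
    have s1 := abs_nonneg ((dt (p, q) v : ℤ) : ℝ)
    have s2 : |((dt (p, q) v : ℤ) : ℝ)| ≤ |(k : ℝ)| * |((dt (p, q) v : ℤ) : ℝ)| := by nlinarith
    nlinarith
  linarith

end Pool.Agent.Helper984_CP
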