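import Pool.Agent.Helper984_CP.AP3

/-!
# Three half planes
-/

set_option autoImplicit false

open Set Filter Topology Complex

noncomputable section

namespace Pool.Agent.Helper984_CP

/-- a chosen logarithm of difference quotients -/
def el (T : ℂ ≃ₜ ℂ) : C(Conf, ℂ) := by
  classical
  exact if h : ∃ ℓ, LogDiff (toC T) ℓ then h.choose else 0

theorem el_spec {T : ℂ ≃ₜ ℂ} {ℓ : C(Conf, ℂ)} (h : LogDiff (toC T) ℓ) : LogDiff (toC T) (el T) := by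
  have hex : ∃ ℓ, LogDiff (toC T) ℓ := ⟨ℓ, h⟩
  have e : el T = hex.choose := by
    unfold el
    rw [dif_pos hex]
  rw [e]
  exact hex.choose_spec

theorem ld_const {T : ℂ ≃ₜ ℂ} {ℓ ℓ' : C(Conf, ℂ)} (h : LogDiff (toC T) ℓ)
    (h' : LogDiff (toC T) ℓ') : ∃ c : ℂ, ∀ z w : ℂ, z ≠ w → lp ℓ z w = lp ℓ' z w + c := by
  refine ⟨ℓ ⟨(1, 0), one_ne_zero⟩ - ℓ' ⟨(1, 0), one_ne_zero⟩, fun z w hzw => ?_⟩
  have := exp_rigid (A := Conf) ℓ.continuous ℓ'.continuous (fun a => by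
    have h1 := h a
    have h2 := h' a
    rw [← h2] at h1
    exact mul_right_cancel₀ (sub_ne_zero.2 a.2) h1) ⟨(z, w), hzw⟩ ⟨(1, 0), one_ne_zero⟩
  rw [lp_eq hzw, lp_eq hzw]
  linear_combination this

theorem Fl_congr {T : ℂ ≃ₜ ℂ} {ℓ ℓ' : C(Conf, ℂ)} (h : LogDiff (toC T) ℓ)
    (h' : LogDiff (toC T) ℓ') {ξ z : ℂ} (hξ : ξ ≠ 0) (hz : z ≠ T ξ) : Fl T ℓ ξ z = Fl T ℓ' ξ z := by
  obtain ⟨c, hc⟩ := ld_const h h'
  have hne : (T⁻¹ : ℂ ≃ₜ ℂ) z ≠ ξ := by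
    intro h
    apply hz
    rw [← h, apply_inv_self']
  unfold Fl
  rw [hc _ _ hne, hc _ _ hξ.symm]
  ring

/-- the canonical pairing -/
def Pc (T1 : ℂ ≃ₜ ℂ) (ξ1 : ℂ) (T2 : ℂ ≃ₜ ℂ) (ξ2 : ℂ) : ℝ := Phi T1 (el T1) ξ1 T2 (el T2) ξ2

theorem Pc_eq {T1 T2 : ℂ ≃ₜ ℂ} {ℓ1 ℓ2 : C(Conf, ℂ)} {ξ1 ξ2 : ℂ} (h1 : LogDiff (toC T1) ℓ1)
    (h2 : LogDiff (toC T2) ℓ2) (n1 : ξ1 ≠ 0) (n2 : ξ2 ≠ 0) :
    Phi T1 ℓ1 ξ1 T2 ℓ2 ξ2 = Pc T1 ξ1 T2 ξ2 := by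
  unfold Pc Phi
  by_cases h : T1 ξ1 = T2 ξ2
  · rw [if_pos h, if_pos h]
  · rw [if_neg h, if_neg h, Fl_congr h1 (el_spec h1) n1 (Ne.symm h),
      Fl_congr h2 (el_spec h2) n2 h]

theorem Pc_comp {S T T' : ℂ ≃ₜ ℂ} {ℓS ℓT ℓT' : C(Conf, ℂ)} (hS : LogDiff (toC S) ℓS)
    (hT : LogDiff (toC T) ℓT) (hT' : LogDiff (toC T') ℓT') (hT0 : T 0 = 0) (hT0' : T' 0 = 0)
    {ξ ξ' : ℂ} (hξ : ξ ≠ 0) (hξ' : ξ' ≠ 0) :
    Pc (S * T) ξ (S * T') ξ' =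
      Pc T ξ T' ξ' + (rot0 ℓS (T' ξ')).im - (rot0 ℓS (T ξ)).im := by
  have h1 := Phi_comp hS hT hT' hT0 hT0' hξ hξ'
  rw [Pc_eq hT hT' hξ hξ'] at h1
  rw [← h1]
  exact (Pc_eq (T1 := S * T) (T2 := S * T') (hS.comp hT) (hS.comp hT') hξ hξ').symm

/-- the triple bound for a continuum which may have holes -/
theorem triple' {K : Set ℂ} (hK : IsCompact K) (hKp : IsPreconnected K) (hK0 : (0 : ℂ) ∈ K)
    {T1 T2 T3 : ℂ ≃ₜ ℂ} {ℓ1 ℓ2 ℓ3 : C(Conf, ℂ)}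
    {ξ1 ξ2 ξ3 : ℂ} (h1 : Flag K T1 ℓ1 ξ1) (h2 : Flag K T2 ℓ2 ξ2) (h3 : Flag K T3 ℓ3 ξ3)
    (h12 : T1 ξ1 ≠ T2 ξ2) (h23 : T2 ξ2 ≠ T3 ξ3) (h31 : T3 ξ3 ≠ T1 ξ1) :
    |Pc T1 ξ1 T2 ξ2 + Pc T2 ξ2 T3 ξ3 - Pc T1 ξ1 T3 ξ3| < 7 * Real.pi := by
  obtain ⟨L, hL, hKL, hLD⟩ := exists_fillFC hK hKp hK0
  have h4 := triple hL (h1.fill hLD hKL) (h2.fill hLD hKL) (h3.fill hLD hKL) h12 h23 h31
  have e1 := Pc_eq h1.log h2.log h1.ne h2.ne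
  have e2 := Pc_eq h2.log h3.log h2.ne h3.ne
  have e3 := Pc_eq h1.log h3.log h1.ne h3.ne
  unfold Phi at e1 e2 e3
  rw [if_neg h12] at e1
  rw [if_neg h23] at e2
  rw [if_neg h31.symm] at e3
  rw [← e1, ← e2, ← e3]
  simp only [Complex.add_im, Complex.sub_im] at h4 ⊢
  rw [abs_lt] at *
  constructor <;> linarith

variable {k : ℤ} {F G : ℂ ≃ₜ ℂ}

theorem Sys.el (h : Sys k F G) (v : ℤ × ℤ) : LogDiff (toC (act F G v)) (el (act F G v)) := by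
  obtain ⟨ℓ, hℓ⟩ := (h.PK v v).isoId_right.exists_logDiff
  exact el_spec hℓ

/-- the rotation of an element -/
def rv (F G : ℂ ≃ₜ ℂ) (v : ℤ × ℤ) (z : ℂ) : ℝ := (rot0 (el (act F G v)) z).im

theorem Sys.rv_add (h : Sys k F G) (v w : ℤ × ℤ) {a b : ℂ} (ha : a ≠ 0) (hb : b ≠ 0) :
    rv F G (w + v) a - rv F G (w + v) b = rv F G w (act F G v a) - rv F G w (act F G v b) +
      (rv F G v a - rv F G v b) := by
  have h1 : LogDiff (toC (act F G (w + v))) (lc (Pool.Agent.Helper984_CP.el (act F G w)) (h.el v)) := by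
    have := (h.el w).comp (h.el v)
    rw [h.add]
    exact this
  obtain ⟨c, hc⟩ := ld_const (h.el (w + v)) h1
  have key : ∀ z : ℂ, z ≠ 0 → rot0 (Pool.Agent.Helper984_CP.el (act F G (w + v))) z =
      rot0 (Pool.Agent.Helper984_CP.el (act F G w)) (act F G v z) +
        rot0 (Pool.Agent.Helper984_CP.el (act F G v)) z + c := by
    intro z hz
    rw [← lp_rot0, hc z 0 hz, lc, lp_comp (h.el v) hz, h.act0, lp_rot0, lp_rot0]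
  unfold rv
  rw [key a ha, key b hb]
  simp only [Complex.add_im]
  ring

theorem Sys.rv_euler (h : Sys k F G) (p q : ℤ × ℤ) {z : ℂ} (hz : z ≠ 0) :
    rv F G p (act F G q z) + rv F G q z = rv F G p z + rv F G q (act F G p z) +
      2 * Real.pi * ((k * dt p q : ℤ) : ℝ) := by
  have h1 := rot0_euler' (h.PK p q) (h.act0 p) (h.act0 q) (h.el p) (h.el q) hz
  have h2 := congrArg Complex.im h1
  simp only [Complex.add_im] at h2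
  have e2 : (2 * Real.pi * Complex.I * ((k * dt p q : ℤ) : ℂ) : ℂ).im =
      2 * Real.pi * ((k * dt p q : ℤ) : ℝ) := by simp
  rw [e2] at h2
  exact h2

/-- the admissible pairs -/
def Adm (n1 n2 n3 : ℂ) (s t : ℤ × ℤ) : Prop :=
  s ∈ Hn n1 ∧ -s ∈ Hn n2 ∧ t ∈ Hn n2 ∧ -t ∈ Hn n3 ∧ s + t ∈ Hn n1 ∧ -(s + t) ∈ Hn n3

theorem Sys.rel (h : Sys k F G) {n1 n2 n3 : ℂ} {M1 M2 M3 : Set ℂ} (hM1 : FC M1) (hM2 : FC M2)
    (hM3 : FC M3) (f1 : Fwd F G (Hn n1) M1) (f2 : Fwd F G (Hn n2) M2) (f3 : Fwd F G (Hn n3) M3)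
    {P1 P2 P3 : ℂ ≃ₜ ℂ} {ℓ1 ℓ2 ℓ3 : C(Conf, ℂ)} {ξ1 ξ2 ξ3 : ℂ}
    (g1 : Flag (M1 ∪ (M2 ∪ M3)) P1 ℓ1 ξ1) (g2 : Flag (M1 ∪ (M2 ∪ M3)) P2 ℓ2 ξ2)
    (g3 : Flag (M1 ∪ (M2 ∪ M3)) P3 ℓ3 ξ3) (m1 : P1 ξ1 ∈ M1) (m2 : P2 ξ2 ∈ M2) (m3 : P3 ξ3 ∈ M3)
    (o21 : P2 ξ2 ∉ M1) (o31 : P3 ξ3 ∉ M1) (o32 : P3 ξ3 ∉ M2) {s t : ℤ × ℤ}
    (ha : Adm n1 n2 n3 s t) :
    |Pc (act F G s * P1) ξ1 P2 ξ2 + rv F G t (P2 ξ2) - rv F G t (act F G s (P1 ξ1)) +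
      Pc (act F G t * P2) ξ2 P3 ξ3 - Pc (act F G (s + t) * P1) ξ1 P3 ξ3| < 7 * Real.pi := by
  obtain ⟨a1, a2, a3, a4, a5, a6⟩ := ha
  obtain ⟨K, hKd⟩ : ∃ K, K = act F G (s + t) '' M1 ∪ (act F G t '' M2 ∪ M3) := ⟨_, rfl⟩
  have F1 : FC (act F G (s + t) '' M1) := hM1.image (h.act0 _)
  have F2 : FC (act F G t '' M2) := hM2.image (h.act0 _)
  have hKc : IsCompact K := by rw [hKd]; exact F1.cpt.union (F2.cpt.union hM3.cpt)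
  have hKp : IsPreconnected K := by
    rw [hKd]
    exact F1.pre.union 0 F1.zero (Or.inl F2.zero) (F2.pre.union 0 F2.zero hM3.zero hM3.pre)
  have hK0 : (0 : ℂ) ∈ K := by rw [hKd]; exact Or.inl F1.zero
  have b1 := (g1.image (h.act0 (s + t)) (h.el (s + t))).mono (K' := K) (by
    rw [hKd]
    rintro z (⟨x, hx, rfl⟩ | ⟨x, hx, rfl⟩ | hz)
    · exact ⟨x, Or.inl hx, rfl⟩
    · refine ⟨act F G (-s) x, Or.inr (Or.inl (f2 _ a2 hx)), ?_⟩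
      rw [← h.add_apply]
      congr 2
      abel
    · exact ⟨act F G (-(s + t)) z, Or.inr (Or.inr (f3 _ a6 hz)), h.neg_cancel _ _⟩) (by
    rw [hKd]
    exact Or.inl ⟨_, m1, rfl⟩)
  have b2 := (g2.image (h.act0 t) (h.el t)).mono (K' := K) (by
    rw [hKd]
    rintro z (⟨x, hx, rfl⟩ | ⟨x, hx, rfl⟩ | hz)
    · refine ⟨act F G s x, Or.inl (f1 _ a1 hx), ?_⟩
      rw [← h.add_apply, add_comm]
    · exact ⟨x, Or.inr (Or.inl hx), rfl⟩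
    · exact ⟨act F G (-t) z, Or.inr (Or.inr (f3 _ a4 hz)), h.neg_cancel _ _⟩) (by
    rw [hKd]
    exact Or.inr (Or.inl ⟨_, m2, rfl⟩))
  have b3 := g3.mono (K' := K) (by
    rw [hKd]
    rintro z (⟨x, hx, rfl⟩ | ⟨x, hx, rfl⟩ | hz)
    · exact Or.inl (f1 _ a5 hx)
    · exact Or.inr (Or.inl (f2 _ a3 hx))
    · exact Or.inr (Or.inr hz)) (by
    rw [hKd]
    exact Or.inr (Or.inr m3))
  have h12 : (act F G (s + t) * P1) ξ1 ≠ (act F G t * P2) ξ2 := by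
    rw [mul_apply', mul_apply', add_comm, h.add_apply]
    intro e
    apply o21
    rw [← (act F G t).injective e]
    exact f1 _ a1 m1
  have h23 : (act F G t * P2) ξ2 ≠ P3 ξ3 := by
    rw [mul_apply']
    intro e
    apply o32
    rw [← e]
    exact f2 _ a3 m2
  have h31 : P3 ξ3 ≠ (act F G (s + t) * P1) ξ1 := by
    rw [mul_apply']
    intro e
    apply o31
    rw [e]
    exact f1 _ a5 m1
  have h4 := triple' hKc hKp hK0 b1 b2 b3 h12 h23 h31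
  have e1 : act F G (s + t) * P1 = act F G t * (act F G s * P1) := by
    rw [← mul_assoc, ← h.add, add_comm]
  have g1' := g1.image (h.act0 s) (h.el s)
  have e2 := Pc_comp (S := act F G t) (h.el t) g1'.log g2.log g1'.zero g2.zero g1.ne g2.ne
  rw [← e1] at e2
  rw [e2, mul_apply'] at h4
  unfold rv
  rw [abs_lt] at *
  constructor <;> linarith

/-- the contradiction from three half planes -/
theorem Sys.no_three (h : Sys k F G) {n1 n2 n3 : ℂ} {M1 M2 M3 : Set ℂ} (hM1 : FC M1)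
    (hM2 : FC M2) (hM3 : FC M3) (f1 : Fwd F G (Hn n1) M1) (f2 : Fwd F G (Hn n2) M2)
    (f3 : Fwd F G (Hn n3) M3) {P1 P2 P3 : ℂ ≃ₜ ℂ} {ℓ1 ℓ2 ℓ3 : C(Conf, ℂ)} {ξ1 ξ2 ξ3 : ℂ}
    (g1 : Flag (M1 ∪ (M2 ∪ M3)) P1 ℓ1 ξ1) (g2 : Flag (M1 ∪ (M2 ∪ M3)) P2 ℓ2 ξ2)
    (g3 : Flag (M1 ∪ (M2 ∪ M3)) P3 ℓ3 ξ3) (m1 : P1 ξ1 ∈ M1) (m2 : P2 ξ2 ∈ M2) (m3 : P3 ξ3 ∈ M3)
    (o21 : P2 ξ2 ∉ M1) (o31 : P3 ξ3 ∉ M1) (o32 : P3 ξ3 ∉ M2) {s t p q : ℤ × ℤ}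
    (ha : ∀ s' t', (s' = s ∨ s' = s + p ∨ s' = s + q) → (t' = t ∨ t' = t + p ∨ t' = t + q) →
      Adm n1 n2 n3 s' t') (hpq : 28 ≤ |k * dt p q|) : False := by
  have R := fun (s' t' : ℤ × ℤ) hs ht => h.rel hM1 hM2 hM3 f1 f2 f3 g1 g2 g3 m1 m2 m3 o21 o31 o32
    (ha s' t' hs ht)
  have r1 := R (s + p) (t + q) (Or.inr (Or.inl rfl)) (Or.inr (Or.inr rfl))
  have r2 := R (s + p) t (Or.inr (Or.inl rfl)) (Or.inl rfl)
  have r3 := R s (t + q) (Or.inl rfl) (Or.inr (Or.inr rfl))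
  have r4 := R s t (Or.inl rfl) (Or.inl rfl)
  have r5 := R (s + q) (t + p) (Or.inr (Or.inr rfl)) (Or.inr (Or.inl rfl))
  have r6 := R (s + q) t (Or.inr (Or.inr rfl)) (Or.inl rfl)
  have r7 := R s (t + p) (Or.inl rfl) (Or.inr (Or.inl rfl))
  have x0 : P1 ξ1 ≠ 0 := by
    intro e
    have : ξ1 = 0 := P1.injective (e.trans g1.zero.symm)
    exact g1.ne this
  have xa : ∀ v : ℤ × ℤ, act F G v (P1 ξ1) ≠ 0 := fun v e =>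
    x0 ((act F G v).injective (e.trans (h.act0 v).symm))
  have c1 := h.rv_add t q (xa (s + p)) (xa s)
  have c2 := h.rv_add t p (xa (s + q)) (xa s)
  have e1 : s + p + (t + q) = s + q + (t + p) := by abel
  have e2 : s + p + t = s + (t + p) := by abel
  have e3 : s + (t + q) = s + q + t := by abel
  rw [e1] at r1
  rw [e2] at r2
  rw [e3] at r3
  have e4 : q + t = t + q := add_comm _ _
  have e5 : p + t = t + p := add_comm _ _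
  rw [e4] at c1
  rw [e5] at c2
  have e6 : act F G t (act F G (s + p) (P1 ξ1)) = act F G p (act F G (s + t) (P1 ξ1)) := by
    rw [← h.add_apply, ← h.add_apply]
    congr 2
    abel
  have e7 : act F G t (act F G (s + q) (P1 ξ1)) = act F G q (act F G (s + t) (P1 ξ1)) := by
    rw [← h.add_apply, ← h.add_apply]
    congr 2
    abel
  have e8 : act F G t (act F G s (P1 ξ1)) = act F G (s + t) (P1 ξ1) := by
    rw [← h.add_apply, add_comm]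
  rw [e6, e8] at c1
  rw [e7, e8] at c2
  have e9 := h.rv_euler p q (xa (s + t))
  have hk : (28 : ℝ) ≤ |((k * dt p q : ℤ) : ℝ)| := by exact_mod_cast hpq
  have hpi := Real.pi_pos
  have hlt : |2 * Real.pi * ((k * dt p q : ℤ) : ℝ)| < 56 * Real.pi := by
    rw [abs_lt] at *
    constructor <;> linarith
  rw [abs_mul, abs_of_pos (by positivity : (0 : ℝ) < 2 * Real.pi)] at hlt
  nlinarith

end Pool.Agent.Helper984_CP
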