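import Pool.Agent.Helper984_CP.AP4

/-!
# Three half planes whose directions positively span the plane
-/

set_option autoImplicit false

open Set Filter Topology Complex

noncomputable section

namespace Pool.Agent.Helper984_CP

/-- the scalar product -/
def ip (a b : ℂ) : ℝ := a.re * b.re + a.im * b.im

/-- the determinant -/
def dc (a b : ℂ) : ℝ := a.re * b.im - a.im * b.re

/-- rounding -/
def rd (d : ℂ) (N : ℕ) : ℤ × ℤ := (round (N * d.re), round (N * d.im))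

theorem pr_rd {n : ℂ} (hn : ‖n‖ = 1) (d : ℂ) (N : ℕ) : |pr n (rd d N) - N * ip n d| ≤ 1 := by
  have r1 := round_err (N * d.re)
  have r2 := round_err (N * d.im)
  have e : pr n (rd d N) - N * ip n d = n.re * ((round (N * d.re) : ℝ) - N * d.re) +
      n.im * ((round (N * d.im) : ℝ) - N * d.im) := by
    unfold pr rd ip
    ring
  have s1 : |n.re| ≤ 1 := hn ▸ Complex.abs_re_le_norm n
  have s2 : |n.im| ≤ 1 := hn ▸ Complex.abs_im_le_norm n
  rw [e]
  refine (abs_add_le _ _).trans ?_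
  rw [abs_mul, abs_mul]
  have t1 := mul_le_mul s1 r1 (abs_nonneg _) zero_le_one
  have t2 := mul_le_mul s2 r2 (abs_nonneg _) zero_le_one
  linarith

theorem ev_pos {n d : ℂ} (hn : ‖n‖ = 1) (h : 0 < ip n d) (C : ℝ) :
    ∀ᶠ N : ℕ in atTop, C < pr n (rd d N) := by
  obtain ⟨N0, hN0⟩ := exists_nat_gt ((C + 1) / ip n d)
  filter_upwards [eventually_ge_atTop N0] with N hN
  have h1 := abs_le.1 (pr_rd hn d N)
  rw [div_lt_iff₀ h] at hN0
  have h2 : (N0 : ℝ) * ip n d ≤ N * ip n d := by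
    have : (N0 : ℝ) ≤ N := by exact_mod_cast hN
    nlinarith
  linarith

theorem ev_neg {n d : ℂ} (hn : ‖n‖ = 1) (h : ip n d < 0) (C : ℝ) :
    ∀ᶠ N : ℕ in atTop, pr n (rd d N) < -C := by
  have h1 : 0 < ip (-n) d := by
    unfold ip at h ⊢
    simp only [Complex.neg_re, Complex.neg_im]
    linarith
  filter_upwards [ev_pos (n := -n) (by rwa [norm_neg]) h1 C] with N hN
  rw [pr_neg'] at hN
  linarith

theorem ev_pos2 {n d d' : ℂ} (hn : ‖n‖ = 1) (h : 0 < ip n d + ip n d') (C : ℝ) :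
    ∀ᶠ N : ℕ in atTop, C < pr n (rd d N) + pr n (rd d' N) := by
  obtain ⟨N0, hN0⟩ := exists_nat_gt ((C + 2) / (ip n d + ip n d'))
  filter_upwards [eventually_ge_atTop N0] with N hN
  have h1 := abs_le.1 (pr_rd hn d N)
  have h1' := abs_le.1 (pr_rd hn d' N)
  rw [div_lt_iff₀ h] at hN0
  have h2 : (N0 : ℝ) * (ip n d + ip n d') ≤ N * (ip n d + ip n d') := by
    have : (N0 : ℝ) ≤ N := by exact_mod_cast hN
    nlinarith
  linarith

theorem ev_neg2 {n d d' : ℂ} (hn : ‖n‖ = 1) (h : ip n d + ip n d' < 0) (C : ℝ) :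
    ∀ᶠ N : ℕ in atTop, pr n (rd d N) + pr n (rd d' N) < -C := by
  have h1 : 0 < ip (-n) d + ip (-n) d' := by
    unfold ip at h ⊢
    simp only [Complex.neg_re, Complex.neg_im]
    linarith
  filter_upwards [ev_pos2 (n := -n) (by rwa [norm_neg]) h1 C] with N hN
  rw [pr_neg', pr_neg'] at hN
  linarith

theorem unit_id {a b : ℂ} (ha : ‖a‖ = 1) (hb : ‖b‖ = 1) : ip a b ^ 2 + dc a b ^ 2 = 1 := by
  have h1 : a.re * a.re + a.im * a.im = 1 := by
    have := Complex.sq_norm a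
    rw [ha, Complex.normSq_apply] at this
    linarith
  have h2 : b.re * b.re + b.im * b.im = 1 := by
    have := Complex.sq_norm b
    rw [hb, Complex.normSq_apply] at this
    linarith
  unfold ip dc
  have e : (a.re * b.re + a.im * b.im) ^ 2 + (a.re * b.im - a.im * b.re) ^ 2 =
      (a.re * a.re + a.im * a.im) * (b.re * b.re + b.im * b.im) := by ring
  rw [e, h1, h2, one_mul]

theorem ip_self {a : ℂ} (ha : ‖a‖ = 1) : ip a a = 1 := by
  have := Complex.sq_norm a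
  rw [ha, Complex.normSq_apply] at this
  unfold ip
  linarith

theorem ip_lt {a b : ℂ} (ha : ‖a‖ = 1) (hb : ‖b‖ = 1) (h : dc a b ≠ 0) :
    ip a b < 1 ∧ -1 < ip a b := by
  have h1 := unit_id ha hb
  have h2 : 0 < dc a b ^ 2 := by positivity
  constructor <;> nlinarith

theorem ip_comm (a b : ℂ) : ip a b = ip b a := by unfold ip; ring

theorem dc_anti (a b : ℂ) : dc a b = -dc b a := by unfold dc; ring

theorem ip_sub (a b c : ℂ) : ip a (b - c) = ip a b - ip a c := by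
  unfold ip
  simp only [Complex.sub_re, Complex.sub_im]
  ring

theorem ip_neg_add (a b c : ℂ) : ip a (-(b + c)) = -(ip a b + ip a c) := by
  unfold ip
  simp only [Complex.neg_re, Complex.neg_im, Complex.add_re, Complex.add_im]
  ring

variable {k : ℤ} {F G : ℂ ≃ₜ ℂ}

/-- the images shrink to the origin -/
theorem Sys.shrink' (h : Sys k F G) {H : Set (ℤ × ℤ)} {M : Set ℂ} (hM : FC M) (hMf : Fwd F G H M)
    {w : ℤ × ℤ} (hw : w ∈ H) (hH : ∀ u : ℤ × ℤ, ∃ i : ℕ, u + i • w ∈ H)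
    {x : ℂ} (hx : ∀ j : ℕ, act F G (-(j • w)) x ∈ M) : x = 0 := by
  let C : ℕ → Set ℂ := fun j => act F G (j • w) '' M
  have hCmem : ∀ j y, y ∈ C j ↔ act F G (-(j • w)) y ∈ M := by
    intro j y
    constructor
    · rintro ⟨z, hz, rfl⟩
      rwa [h.neg_cancel']
    · intro hy
      exact ⟨_, hy, h.neg_cancel _ _⟩
  have hCa : Antitone C := by
    refine antitone_nat_of_succ_le fun j => ?_
    intro y hy
    rw [hCmem] at hy ⊢
    have h1 := hMf w hw hy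
    rw [← h.add_apply] at h1
    have e : w + -((j + 1) • w) = -(j • w) := by
      rw [succ_nsmul]
      abel
    rwa [e] at h1
  have hN : FC (⋂ j, C j) := FC.iInter (fun j => hM.image (h.act0 _)) hCa
  have hinv : ∀ u : ℤ × ℤ, MapsTo (act F G u) (⋂ j, C j) (⋂ j, C j) := by
    intro u y hy
    obtain ⟨i, hi⟩ := hH u
    refine mem_iInter.2 fun j => ?_
    rw [hCmem]
    have h1 := mem_iInter.1 hy (j + i)
    rw [hCmem] at h1
    have h3 := hMf _ hi h1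
    rw [← h.add_apply] at h3 ⊢
    have e : u + i • w + -((j + i) • w) = -(j • w) + u := by
      rw [add_nsmul]
      abel
    rwa [e] at h3
  refine h.no_inv (v := (1, 0)) (w := (0, 1)) (by simp [dt]) hN (hinv _) (hinv _) (hinv _) (hinv _)
    x (mem_iInter.2 fun j => (hCmem j x).2 (hx j))

theorem Sys.flag3 (h : Sys k F G) {n1 n2 n3 : ℂ} {M1 M2 M3 : Set ℂ} (hM1 : FC M1) (hM2 : FC M2)
    (hM3 : FC M3) (nM1 : ∃ z ∈ M1, z ≠ 0) (f1 : Fwd F G (Hn n1) M1) (f2 : Fwd F G (Hn n2) M2)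
    (f3 : Fwd F G (Hn n3) M3) {s : ℤ × ℤ} (hs1 : s ∈ Hn n1) (hs2 : -s ∈ Hn n2)
    (hs3 : -s ∈ Hn n3) : ∃ (P : ℂ ≃ₜ ℂ) (ℓ : C(Conf, ℂ)) (ξ : ℂ),
      Flag (M1 ∪ (M2 ∪ M3)) P ℓ ξ ∧ P ξ ∈ M1 ∧ P ξ ∉ M2 ∧ P ξ ∉ M3 := by
  obtain ⟨B, hB, hUB, hBD⟩ := exists_fillFC (hM2.cpt.union hM3.cpt)
    (hM2.pre.union 0 hM2.zero hM3.zero hM3.pre) (Or.inl hM2.zero)
  have hBf : Fwd F G (Hn n2 ∩ Hn n3) B := by
    intro v hv
    have h1 := hBD ((act F G v) ⁻¹' B) (by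
      rw [← (act F G v).image_symm]
      exact hB.cpt.image (act F G v).symm.continuous) (by
      rw [← preimage_compl, ← (act F G v).image_symm]
      exact hB.fil.image _ (act F G v).symm.continuous.continuousOn) (by
      rintro x (hx | hx)
      · exact hUB (Or.inl (f2 v hv.1 hx))
      · exact hUB (Or.inr (f3 v hv.2 hx)))
    exact h1
  have hs2' : 0 < pr n2 (-s) := hs2
  have hs3' : 0 < pr n3 (-s) := hs3
  obtain ⟨x0, hx0, hx0B⟩ : ∃ x ∈ M1, x ∉ B := by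
    by_contra hcon
    push Not at hcon
    obtain ⟨x, hx, hx0⟩ := nM1
    refine hx0 (h.shrink' hB hBf (w := -s) ⟨hs2, hs3⟩ (fun u => ?_) fun j => hcon _ ?_)
    · obtain ⟨i, hi⟩ := exists_nat_gt (-pr n2 u / pr n2 (-s))
      obtain ⟨i', hi'⟩ := exists_nat_gt (-pr n3 u / pr n3 (-s))
      refine ⟨max i i', ?_, ?_⟩
      · change 0 < pr n2 (u + max i i' • -s)
        rw [pr_add, pr_nsmul]
        rw [div_lt_iff₀ hs2'] at hi
        have : (i : ℝ) ≤ ((max i i' : ℕ) : ℝ) := by exact_mod_cast le_max_left i i'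
        nlinarith
      · change 0 < pr n3 (u + max i i' • -s)
        rw [pr_add, pr_nsmul]
        rw [div_lt_iff₀ hs3'] at hi'
        have : (i' : ℝ) ≤ ((max i i' : ℕ) : ℝ) := by exact_mod_cast le_max_right i i'
        nlinarith
    · have e : -(j • -s) = j • s := by rw [smul_neg, neg_neg]
      rw [e, h.act_nsmul]
      exact MapsTo.pow_mem (f1 s hs1) j hx
  obtain ⟨P, ℓ, ξ, f, h1, h2⟩ := exists_flag hM1 hB hx0 hx0B
  exact ⟨P, ℓ, ξ, f.mono (union_subset_union subset_rfl hUB) (Or.inl h1), h1,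
    fun e => h2 (hUB (Or.inl e)), fun e => h2 (hUB (Or.inr e))⟩

/-- an element on which the directions have prescribed signs -/
theorem exists_s {n1 n2 n3 : ℂ} (u1 : ‖n1‖ = 1) (u2 : ‖n2‖ = 1) (u3 : ‖n3‖ = 1)
    (d12 : 0 < dc n1 n2) (d23 : 0 < dc n2 n3) (d31 : 0 < dc n3 n1) :
    ∃ s : ℤ × ℤ, s ∈ Hn n1 ∧ -s ∈ Hn n2 ∧ -s ∈ Hn n3 := by
  have c23 := ip_lt u2 u3 d23.ne'
  have e2 := ip_self u2
  have e3 := ip_self u3
  have i2 : ip n2 (-(n2 + n3)) < 0 := by rw [ip_neg_add]; linarith [c23.2]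
  have i3 : ip n3 (-(n2 + n3)) < 0 := by rw [ip_neg_add, ip_comm n3 n2]; linarith [c23.2]
  have i1 : 0 < ip n1 (-(n2 + n3)) := by
    have key : dc n2 n3 * ip n1 (-(n2 + n3)) + dc n3 n1 * ip n2 (-(n2 + n3)) +
        dc n1 n2 * ip n3 (-(n2 + n3)) = 0 := by
      unfold dc ip
      simp only [Complex.neg_re, Complex.neg_im, Complex.add_re, Complex.add_im]
      ring
    have h1 : 0 < dc n2 n3 * ip n1 (-(n2 + n3)) := by nlinarith
    exact (mul_pos_iff_of_pos_left d23).1 h1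
  obtain ⟨N, h1, h2, h3⟩ := ((ev_pos u1 i1 0).and ((ev_neg u2 i2 0).and (ev_neg u3 i3 0))).exists
  refine ⟨rd (-(n2 + n3)) N, h1, ?_, ?_⟩
  · change 0 < pr n2 _
    rw [pr_neg]
    linarith
  · change 0 < pr n3 _
    rw [pr_neg]
    linarith

/-- three half planes whose directions positively span the plane are impossible -/
theorem Sys.no_triple (h : Sys k F G) {n1 n2 n3 : ℂ} (u1 : ‖n1‖ = 1) (u2 : ‖n2‖ = 1)
    (u3 : ‖n3‖ = 1) (d12 : 0 < dc n1 n2) (d23 : 0 < dc n2 n3) (d31 : 0 < dc n3 n1)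
    {M1 M2 M3 : Set ℂ} (hM1 : FC M1) (hM2 : FC M2) (hM3 : FC M3) (nM1 : ∃ z ∈ M1, z ≠ 0)
    (nM2 : ∃ z ∈ M2, z ≠ 0) (nM3 : ∃ z ∈ M3, z ≠ 0) (f1 : Fwd F G (Hn n1) M1)
    (f2 : Fwd F G (Hn n2) M2) (f3 : Fwd F G (Hn n3) M3) : False := by
  obtain ⟨s1, a1, a2, a3⟩ := exists_s u1 u2 u3 d12 d23 d31
  obtain ⟨s2, b1, b2, b3⟩ := exists_s u2 u3 u1 d23 d31 d12
  obtain ⟨s3, c1, c2, c3⟩ := exists_s u3 u1 u2 d31 d12 d23
  obtain ⟨P1, ℓ1, ξ1, g1, m1, o12, o13⟩ := h.flag3 hM1 hM2 hM3 nM1 f1 f2 f3 a1 a2 a3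
  obtain ⟨P2, ℓ2, ξ2, g2, m2, o23, o21⟩ := h.flag3 hM2 hM3 hM1 nM2 f2 f3 f1 b1 b2 b3
  obtain ⟨P3, ℓ3, ξ3, g3, m3, o31, o32⟩ := h.flag3 hM3 hM1 hM2 nM3 f3 f1 f2 c1 c2 c3
  have e2 : M2 ∪ (M3 ∪ M1) = M1 ∪ (M2 ∪ M3) := by
    rw [← union_assoc, union_comm]
  have e3 : M3 ∪ (M1 ∪ M2) = M1 ∪ (M2 ∪ M3) := by
    rw [union_comm, union_assoc]
  rw [e2] at g2
  rw [e3] at g3
  have k12 := ip_lt u1 u2 d12.ne'
  have k23 := ip_lt u2 u3 d23.ne'
  have k31 := ip_lt u3 u1 d31.ne'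
  have j1 := ip_self u1
  have j2 := ip_self u2
  have j3 := ip_self u3
  have x1 : 0 < ip n1 (n1 - n2) := by rw [ip_sub]; linarith [k12.1]
  have x2 : ip n2 (n1 - n2) < 0 := by rw [ip_sub, ip_comm n2 n1]; linarith [k12.1]
  have x3 : 0 < ip n2 (n2 - n3) := by rw [ip_sub]; linarith [k23.1]
  have x4 : ip n3 (n2 - n3) < 0 := by rw [ip_sub, ip_comm n3 n2]; linarith [k23.1]
  have x5 : 0 < ip n1 (n1 - n2) + ip n1 (n2 - n3) := by
    rw [ip_sub, ip_sub, ip_comm n1 n3]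
    linarith [k31.1]
  have x6 : ip n3 (n1 - n2) + ip n3 (n2 - n3) < 0 := by
    rw [ip_sub, ip_sub]
    linarith [k31.1]
  obtain ⟨N, y1, y2, y3, y4, y5, y6⟩ := ((ev_pos u1 x1 28).and ((ev_neg u2 x2 28).and
    ((ev_pos u2 x3 28).and ((ev_neg u3 x4 28).and ((ev_pos2 u1 x5 56).and
      (ev_neg2 u3 x6 56)))))).exists
  have hsm : ∀ n : ℂ, ‖n‖ = 1 → ∀ e : ℤ × ℤ, (e = 0 ∨ e = (28, 0) ∨ e = (0, 1)) →
      |pr n e| ≤ 28 := by
    rintro n hn e (he | he | he)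
    · rw [he]
      simp [pr]
    · rw [he]
      have s1 : |n.re| ≤ 1 := hn ▸ Complex.abs_re_le_norm n
      have e1 : pr n (28, 0) = 28 * n.re := by simp [pr]; ring
      rw [e1, abs_mul]
      norm_num
      linarith
    · rw [he]
      have s1 : |n.im| ≤ 1 := hn ▸ Complex.abs_im_le_norm n
      have e1 : pr n (0, 1) = n.im := by simp [pr]
      rw [e1]
      linarith
  refine h.no_three hM1 hM2 hM3 f1 f2 f3 g1 g2 g3 m1 m2 m3 o21 o31 o32 (s := rd (n1 - n2) N)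
    (t := rd (n2 - n3) N) (p := (28, 0)) (q := (0, 1)) ?_ ?_
  · intro s' t' hs ht
    obtain ⟨e, he, hse⟩ : ∃ e : ℤ × ℤ, (e = 0 ∨ e = (28, 0) ∨ e = (0, 1)) ∧
        s' = rd (n1 - n2) N + e := by
      rcases hs with hs | hs | hs
      · exact ⟨0, Or.inl rfl, by rw [hs, add_zero]⟩
      · exact ⟨(28, 0), Or.inr (Or.inl rfl), hs⟩
      · exact ⟨(0, 1), Or.inr (Or.inr rfl), hs⟩
    obtain ⟨e', he', hte⟩ : ∃ e : ℤ × ℤ, (e = 0 ∨ e = (28, 0) ∨ e = (0, 1)) ∧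
        t' = rd (n2 - n3) N + e := by
      rcases ht with ht | ht | ht
      · exact ⟨0, Or.inl rfl, by rw [ht, add_zero]⟩
      · exact ⟨(28, 0), Or.inr (Or.inl rfl), ht⟩
      · exact ⟨(0, 1), Or.inr (Or.inr rfl), ht⟩
    have z1 := abs_le.1 (hsm n1 u1 e he)
    have z2 := abs_le.1 (hsm n2 u2 e he)
    have z3 := abs_le.1 (hsm n3 u3 e he)
    have z1' := abs_le.1 (hsm n1 u1 e' he')
    have z2' := abs_le.1 (hsm n2 u2 e' he')
    have z3' := abs_le.1 (hsm n3 u3 e' he')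
    rw [hse, hte]
    refine ⟨?_, ?_, ?_, ?_, ?_, ?_⟩
    · change 0 < pr n1 _
      rw [pr_add]
      linarith
    · change 0 < pr n2 _
      rw [pr_neg, pr_add]
      linarith
    · change 0 < pr n2 _
      rw [pr_add]
      linarith
    · change 0 < pr n3 _
      rw [pr_neg, pr_add]
      linarith
    · change 0 < pr n1 _
      rw [pr_add, pr_add, pr_add]
      linarith
    · change 0 < pr n3 _
      rw [pr_neg, pr_add, pr_add, pr_add]
      linarith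
  · have h1 := Int.one_le_abs h.ne
    have h2 : dt (28, 0) (0, 1) = 28 := by simp [dt]
    rw [h2, abs_mul]
    simp only [Nat.abs_ofNat]
    omega

end Pool.Agent.Helper984_CP
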