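import Pool.Agent.Helper984_CP.AP5

/-!
# Compact sets of directions
-/

set_option autoImplicit false

open Set Filter Topology Complex

noncomputable section

namespace Pool.Agent.Helper984_CP

theorem dc_arg (a z w : ℂ) : dc (a * z) (a * w) =
    normSq a * (‖z‖ * ‖w‖ * Real.sin (w.arg - z.arg)) := by
  rw [Real.sin_sub]
  have h1 := Complex.norm_mul_cos_arg z
  have h2 := Complex.norm_mul_sin_arg z
  have h3 := Complex.norm_mul_cos_arg w
  have h4 := Complex.norm_mul_sin_arg w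
  have e : ‖z‖ * ‖w‖ * (Real.sin w.arg * Real.cos z.arg - Real.cos w.arg * Real.sin z.arg) =
      z.re * w.im - z.im * w.re := by
    rw [← h1, ← h2, ← h3, ← h4]
    ring
  rw [e, Complex.normSq_apply]
  unfold dc
  simp only [Complex.mul_re, Complex.mul_im]
  ring

theorem ip_arg (a z w : ℂ) : ip (a * z) (a * w) =
    normSq a * (‖z‖ * ‖w‖ * Real.cos (w.arg - z.arg)) := by
  rw [Real.cos_sub]
  have h1 := Complex.norm_mul_cos_arg z
  have h2 := Complex.norm_mul_sin_arg z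
  have h3 := Complex.norm_mul_cos_arg w
  have h4 := Complex.norm_mul_sin_arg w
  have e : ‖z‖ * ‖w‖ * (Real.cos w.arg * Real.cos z.arg + Real.sin w.arg * Real.sin z.arg) =
      z.re * w.re + z.im * w.im := by
    rw [← h1, ← h2, ← h3, ← h4]
    ring
  rw [e, Complex.normSq_apply]
  unfold ip
  simp only [Complex.mul_re, Complex.mul_im]
  ring

/-- a compact set of vectors contains two opposite vectors, or three vectors which positively span
the plane, or lies in an open half plane -/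
theorem det_lemma {E : Set ℂ} (hE : IsCompact E) (hne : E.Nonempty) (h0 : (0 : ℂ) ∉ E) :
    (∃ a ∈ E, ∃ b ∈ E, dc a b = 0 ∧ ip a b < 0) ∨
    (∃ a ∈ E, ∃ b ∈ E, ∃ c ∈ E, 0 < dc a b ∧ 0 < dc b c ∧ 0 < dc c a) ∨
    ∃ v : ℂ, ∀ s ∈ E, 0 < ip v s := by
  by_cases hi : ∃ a ∈ E, ∃ b ∈ E, dc a b = 0 ∧ ip a b < 0
  · exact Or.inl hi
  right
  push Not at hi
  obtain ⟨a, ha⟩ := hne
  have ha0 : a ≠ 0 := fun e => h0 (e ▸ ha)
  have hna : 0 < normSq a := Complex.normSq_pos.2 ha0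
  have hz0 : ∀ s ∈ E, s / a ≠ 0 := fun s hs => div_ne_zero (fun e => h0 (e ▸ hs)) ha0
  have hnz : ∀ s ∈ E, 0 < ‖s / a‖ := fun s hs => norm_pos_iff.2 (hz0 s hs)
  have hsa : ∀ s, a * (s / a) = s := fun s => by field_simp
  have hone : a * 1 = a := mul_one a
  have hd : ∀ s ∈ E, ∀ t ∈ E, dc s t = normSq a * (‖s / a‖ * ‖t / a‖ *
      Real.sin ((t / a).arg - (s / a).arg)) := by
    intro s _ t _
    rw [← dc_arg, hsa, hsa]
  have hp : ∀ s ∈ E, ∀ t ∈ E, ip s t = normSq a * (‖s / a‖ * ‖t / a‖ *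
      Real.cos ((t / a).arg - (s / a).arg)) := by
    intro s _ t _
    rw [← ip_arg, hsa, hsa]
  have haa : (a / a).arg = 0 := by rw [div_self ha0, Complex.arg_one]
  have hslit : ∀ s ∈ E, s / a ∈ slitPlane := by
    intro s hs
    rw [Complex.mem_slitPlane_iff_arg]
    refine ⟨fun hpi => ?_, hz0 s hs⟩
    have h1 := hd a ha s hs
    have h2 := hp a ha s hs
    rw [haa, hpi, sub_zero, Real.sin_pi] at h1
    rw [haa, hpi, sub_zero, Real.cos_pi] at h2
    have h3 : ip a s < 0 := by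
      rw [h2]
      have := mul_pos hna (mul_pos (hnz a ha) (hnz s hs))
      nlinarith
    exact absurd h3 (not_lt.2 (hi a ha s hs (by rw [h1]; ring)))
  have hcont : ContinuousOn (fun s : ℂ => (s / a).arg) E := by
    intro s hs
    exact (ContinuousAt.comp (f := fun s : ℂ => s / a) (continuousAt_arg (hslit s hs))
      (by fun_prop)).continuousWithinAt
  obtain ⟨b, hb, hbm⟩ := hE.exists_isMaxOn ⟨a, ha⟩ hcont
  obtain ⟨c, hc, hcm⟩ := hE.exists_isMinOn ⟨a, ha⟩ hcont
  have hbm' : ∀ s ∈ E, (s / a).arg ≤ (b / a).arg := fun s hs => hbm hs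
  have hcm' : ∀ s ∈ E, (c / a).arg ≤ (s / a).arg := fun s hs => hcm hs
  have hb0 : 0 ≤ (b / a).arg := haa ▸ hbm' a ha
  have hc0 : (c / a).arg ≤ 0 := haa ▸ hcm' a ha
  have hbpi : (b / a).arg < Real.pi := by
    refine lt_of_le_of_ne (Complex.arg_le_pi _) ?_
    exact (Complex.mem_slitPlane_iff_arg.1 (hslit b hb)).1
  have hcpi : -Real.pi < (c / a).arg := Complex.neg_pi_lt_arg _
  rcases lt_trichotomy ((b / a).arg - (c / a).arg) Real.pi with h1 | h1 | h1
  · right
    refine ⟨a * cexp ((((b / a).arg + (c / a).arg) / 2 : ℝ) * I), fun s hs => ?_⟩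
    have e1 := ip_arg a (cexp ((((b / a).arg + (c / a).arg) / 2 : ℝ) * I)) (s / a)
    rw [hsa] at e1
    rw [e1, Complex.norm_exp_ofReal_mul_I, Complex.arg_exp_mul_I, one_mul]
    rw [(toIocMod_eq_self _).2 ⟨by linarith, by linarith⟩]
    have h2 := hbm' s hs
    have h3 := hcm' s hs
    have h4 : 0 < Real.cos ((s / a).arg - ((b / a).arg + (c / a).arg) / 2) := by
      apply Real.cos_pos_of_mem_Ioo
      constructor <;> linarith
    exact mul_pos hna (mul_pos (hnz s hs) h4)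
  · exfalso
    have h2 := hd c hc b hb
    have h3 := hp c hc b hb
    rw [h1, Real.sin_pi] at h2
    rw [h1, Real.cos_pi] at h3
    have h4 : ip c b < 0 := by
      rw [h3]
      have := mul_pos hna (mul_pos (hnz c hc) (hnz b hb))
      nlinarith
    exact absurd h4 (not_lt.2 (hi c hc b hb (by rw [h2]; ring)))
  · left
    refine ⟨a, ha, b, hb, c, hc, ?_, ?_, ?_⟩
    · rw [hd a ha b hb, haa, sub_zero]
      exact mul_pos hna (mul_pos (mul_pos (hnz a ha) (hnz b hb))
        (Real.sin_pos_of_pos_of_lt_pi (by linarith) hbpi))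
    · rw [hd b hb c hc]
      have h2 : 0 < Real.sin ((c / a).arg - (b / a).arg) := by
        have e : (c / a).arg - (b / a).arg = (2 * Real.pi - ((b / a).arg - (c / a).arg)) -
          2 * Real.pi := by ring
        rw [e, Real.sin_sub_two_pi]
        exact Real.sin_pos_of_pos_of_lt_pi (by linarith) (by linarith)
      exact mul_pos hna (mul_pos (mul_pos (hnz b hb) (hnz c hc)) h2)
    · rw [hd c hc a ha, haa]
      exact mul_pos hna (mul_pos (mul_pos (hnz c hc) (hnz a ha))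
        (Real.sin_pos_of_pos_of_lt_pi (by linarith) (by linarith)))

/-- opposite primitive vectors -/
theorem opposite_prim {s t : ℤ × ℤ} (hs : IsCoprime s.1 s.2) (ht : IsCoprime t.1 t.2)
    (hd : s.1 * t.2 = s.2 * t.1) (hp : s.1 * t.1 + s.2 * t.2 < 0) : t = -s := by
  obtain ⟨u, v, huv⟩ := hs
  obtain ⟨u', v', huv'⟩ := ht
  obtain ⟨m, hm⟩ : ∃ m, m = u * t.1 + v * t.2 := ⟨_, rfl⟩
  have e1 : t.1 = m * s.1 := by
    rw [hm]
    linear_combination (-t.1) * huv - (v : ℤ) * hd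
  have e2 : t.2 = m * s.2 := by
    rw [hm]
    linear_combination (-t.2) * huv + (u : ℤ) * hd
  have h1 : m ∣ 1 := ⟨u' * s.1 + v' * s.2, by rw [← huv', e1, e2]; ring⟩
  have h2 : m * (s.1 * s.1 + s.2 * s.2) < 0 := by
    rw [e1, e2] at hp
    nlinarith
  rcases Int.isUnit_iff.1 (isUnit_of_dvd_one h1) with h3 | h3
  · exfalso
    rw [h3] at h2
    nlinarith [mul_self_nonneg s.1, mul_self_nonneg s.2]
  · rw [h3] at e1 e2
    apply Prod.ext
    · rw [e1, Prod.fst_neg]; ring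
    · rw [e2, Prod.snd_neg]; ring

variable {k : ℤ} {F G : ℂ ≃ₜ ℂ}

theorem Sys.fwd_nsmul (h : Sys k F G) {M : Set ℂ} {v : ℤ × ℤ} (hv : MapsTo (act F G v) M M)
    (j : ℕ) : MapsTo (act F G (j • v)) M M := by
  rw [h.act_nsmul]
  exact fun x hx => MapsTo.pow_mem hv j hx

theorem Sys.fwd_add (h : Sys k F G) {M : Set ℂ} {v w : ℤ × ℤ} (hv : MapsTo (act F G v) M M)
    (hw : MapsTo (act F G w) M M) : MapsTo (act F G (v + w)) M M := by
  intro x hx
  rw [h.add_apply]
  exact hv (hw hx)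

theorem nsmul_fst (x : ℕ) (a : ℤ × ℤ) : (x • a).1 = (x : ℤ) * a.1 := by
  rw [Prod.smul_fst, nsmul_eq_mul]

theorem nsmul_snd (x : ℕ) (a : ℤ × ℤ) : (x • a).2 = (x : ℤ) * a.2 := by
  rw [Prod.smul_snd, nsmul_eq_mul]

/-- a good set contains no three vectors which positively span the plane -/
theorem Sys.no_span (h : Sys k F G) {S : Set (ℤ × ℤ)} (hS : Good F G S) {a b c : ℤ × ℤ}
    (ha : a ∈ S) (hb : b ∈ S) (hc : c ∈ S) (h1 : 0 < dt a b) (h2 : 0 < dt b c) (h3 : 0 < dt c a) :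
    False := by
  obtain ⟨M, hM, -, ⟨z, hz, hz0⟩, hMf⟩ := hS 1 one_pos
  obtain ⟨x, hx⟩ := Int.eq_ofNat_of_zero_le h2.le
  obtain ⟨y, hy⟩ := Int.eq_ofNat_of_zero_le h3.le
  obtain ⟨w, hw⟩ := Int.eq_ofNat_of_zero_le h1.le
  have hrel : x • a + (y • b + w • c) = 0 := by
    have e1 : (x : ℤ) = dt b c := hx.symm
    have e2 : (y : ℤ) = dt c a := hy.symm
    have e3 : (w : ℤ) = dt a b := hw.symm
    apply Prod.ext
    · rw [Prod.fst_add, Prod.fst_add, nsmul_fst, nsmul_fst, nsmul_fst, Prod.fst_zero, e1, e2, e3]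
      unfold dt
      ring
    · rw [Prod.snd_add, Prod.snd_add, nsmul_snd, nsmul_snd, nsmul_snd, Prod.snd_zero, e1, e2, e3]
      unfold dt
      ring
  have fa := h.fwd_nsmul (hMf a ha) x
  have fb := h.fwd_nsmul (hMf b hb) y
  have fc := h.fwd_nsmul (hMf c hc) w
  have na : -(x • a) = y • b + w • c := by
    rw [neg_eq_iff_add_eq_zero]
    exact hrel
  have nb : -(y • b) = x • a + w • c := by
    rw [neg_eq_iff_add_eq_zero, ← hrel]
    abel
  have hd : dt (x • a) (y • b) ≠ 0 := by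
    have e : dt (x • a) (y • b) = x * y * dt a b := by
      unfold dt
      rw [nsmul_fst, nsmul_fst, nsmul_snd, nsmul_snd]
      ring
    rw [e, ← hx, ← hy]
    positivity
  exact hz0 (h.no_inv hd hM fa (by rw [na]; exact h.fwd_add fb fc) fb
    (by rw [nb]; exact h.fwd_add fa fc) z hz)

/-- the vector as a complex number -/
def cx (v : ℤ × ℤ) : ℂ := ⟨v.1, v.2⟩

theorem ip_cx (n : ℂ) (v : ℤ × ℤ) : ip n (cx v) = pr n v := rfl

theorem dc_cx (v w : ℤ × ℤ) : dc (cx v) (cx w) = ((dt v w : ℤ) : ℝ) := by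
  unfold dc dt cx
  push_cast
  rfl

/-- a good set of primitive vectors lies in a half plane -/
theorem Sys.half (h : Sys k F G) {S : Set (ℤ × ℤ)} (hSf : S.Finite) (hSn : S.Nonempty)
    (hS : Good F G S) (hc : ∀ s ∈ S, IsCoprime s.1 s.2) (ho : ∀ s ∈ S, -s ∉ S) :
    ∃ n : ℂ, ‖n‖ = 1 ∧ S ⊆ Hn n := by
  have h0 : (0 : ℂ) ∉ cx '' S := by
    rintro ⟨s, hs, hs0⟩
    have h1 := congrArg Complex.re hs0
    have h2 := congrArg Complex.im hs0
    simp only [cx, Complex.zero_re, Complex.zero_im, Int.cast_eq_zero] at h1 h2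
    have := hc s hs
    rw [h1, h2] at this
    exact not_isCoprime_zero_zero this
  rcases det_lemma (hSf.image cx).isCompact (hSn.image cx) h0 with
    ⟨_, ⟨s, hs, rfl⟩, _, ⟨t, ht, rfl⟩, h1, h2⟩ |
    ⟨_, ⟨s, hs, rfl⟩, _, ⟨t, ht, rfl⟩, _, ⟨u, hu, rfl⟩, h1, h2, h3⟩ | ⟨v, hv⟩
  · exfalso
    rw [dc_cx] at h1
    have h3 : s.1 * t.2 = s.2 * t.1 := by
      have : dt s t = 0 := by exact_mod_cast h1
      unfold dt at this
      linarith
    have h4 : s.1 * t.1 + s.2 * t.2 < 0 := by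
      simp only [ip, cx] at h2
      exact_mod_cast h2
    have h5 := opposite_prim (hc s hs) (hc t ht) h3 h4
    rw [h5] at ht
    exact ho s hs ht
  · exfalso
    rw [dc_cx] at h1 h2 h3
    exact h.no_span hS hs ht hu (by exact_mod_cast h1) (by exact_mod_cast h2)
      (by exact_mod_cast h3)
  · have hv0 : v ≠ 0 := by
      rintro rfl
      obtain ⟨s, hs⟩ := hSn
      have := hv _ ⟨s, hs, rfl⟩
      simp [ip] at this
    have hnv : 0 < ‖v‖ := norm_pos_iff.2 hv0
    refine ⟨v / ‖v‖, ?_, fun s hs => ?_⟩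
    · rw [norm_div, Complex.norm_real, Real.norm_of_nonneg hnv.le, div_self hnv.ne']
    · have h1 := hv _ ⟨s, hs, rfl⟩
      rw [ip_cx] at h1
      change 0 < pr (v / ‖v‖) s
      have e : pr (v / ‖v‖) s = pr v s / ‖v‖ := by
        unfold pr
        rw [Complex.div_ofReal_re, Complex.div_ofReal_im]
        ring
      rw [e]
      exact div_pos h1 hnv

end Pool.Agent.Helper984_CP
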