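import Pool.Agent.Helper984_CP.AP6

/-!
# Every pair with nonzero Euler number has a contraction
-/

set_option autoImplicit false

open Set Filter Topology Complex

noncomputable section

namespace Pool.Agent.Helper984_CP

variable {k : ℤ} {F G : ℂ ≃ₜ ℂ}

theorem neg_ne_self {v : ℤ × ℤ} (hv : IsCoprime v.1 v.2) : -v ≠ v := by
  intro e
  have h1 := congrArg Prod.fst e
  have h2 := congrArg Prod.snd e
  rw [Prod.fst_neg] at h1
  rw [Prod.snd_neg] at h2
  have h3 : v.1 = 0 := by omega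
  have h4 : v.2 = 0 := by omega
  rw [h3, h4] at hv
  exact not_isCoprime_zero_zero hv

theorem coprime_neg {v : ℤ × ℤ} (hv : IsCoprime v.1 v.2) : IsCoprime (-v).1 (-v).2 := by
  rw [Prod.fst_neg, Prod.snd_neg]
  exact hv.neg_neg

theorem Sys.extend (h : Sys k F G) {V : ℤ × ℤ} (hV : IsCoprime V.1 V.2) (hG : Good F G {V})
    (W : Finset (ℤ × ℤ)) (hW : ∀ v ∈ W, IsCoprime v.1 v.2) :
    ∃ S : Set (ℤ × ℤ), S.Finite ∧ Good F G S ∧ V ∈ S ∧ (∀ s ∈ S, IsCoprime s.1 s.2) ∧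
      (∀ s ∈ S, -s ∉ S) ∧ ∀ v ∈ W, v ∈ S ∨ -v ∈ S := by
  classical
  induction W using Finset.induction_on with
  | empty =>
    refine ⟨{V}, finite_singleton V, hG, rfl, ?_, ?_, ?_⟩
    · rintro s hs
      rw [mem_singleton_iff.1 hs]
      exact hV
    · rintro s hs hs'
      rw [mem_singleton_iff.1 hs] at hs'
      exact neg_ne_self hV (mem_singleton_iff.1 hs')
    · simp
  | insert a W _ ih =>
    obtain ⟨S, h1, h2, h3, h4, h5, h6⟩ := ih fun v hv => hW v (Finset.mem_insert_of_mem hv)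
    have ha : IsCoprime a.1 a.2 := hW a (Finset.mem_insert_self _ _)
    by_cases hcase : a ∈ S ∨ -a ∈ S
    · refine ⟨S, h1, h2, h3, h4, h5, fun v hv => ?_⟩
      rcases Finset.mem_insert.1 hv with hv | hv
      · rw [hv]
        exact hcase
      · exact h6 v hv
    · rw [not_or] at hcase
      have key : ∀ b : ℤ × ℤ, IsCoprime b.1 b.2 → b ∉ S → -b ∉ S → Good F G (insert b S) →
          (∀ v, v = a → v = b ∨ -v = b) →
          ∃ S : Set (ℤ × ℤ), S.Finite ∧ Good F G S ∧ V ∈ S ∧ (∀ s ∈ S, IsCoprime s.1 s.2) ∧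
            (∀ s ∈ S, -s ∉ S) ∧ ∀ v ∈ insert a W, v ∈ S ∨ -v ∈ S := by
        intro b hb hbS hbS' hg hab
        refine ⟨insert b S, h1.insert b, hg, Or.inr h3, ?_, ?_, ?_⟩
        · rintro s (hs | hs)
          · rw [hs]
            exact hb
          · exact h4 s hs
        · rintro s (hs | hs) (hs' | hs')
          · rw [hs] at hs'
            exact neg_ne_self hb hs'
          · rw [hs] at hs'
            exact hbS' hs'
          · exact hbS' (by rw [← hs', neg_neg]; exact hs)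
          · exact h5 s hs hs'
        · intro v hv
          rcases Finset.mem_insert.1 hv with hv | hv
          · rcases hab v hv with h7 | h7
            · exact Or.inl (Or.inl h7)
            · exact Or.inr (Or.inl h7)
          · rcases h6 v hv with h7 | h7
            · exact Or.inl (Or.inr h7)
            · exact Or.inr (Or.inr h7)
      rcases h.good_or h2 a with hg | hg
      · exact key a ha hcase.1 hcase.2 hg fun v hv => Or.inl hv
      · exact key (-a) (coprime_neg ha) hcase.2 (by rw [neg_neg]; exact hcase.1) hg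
          fun v hv => Or.inr (by rw [hv])

theorem exists_prim {s : ℤ × ℤ} (hs : s ≠ 0) : ∃ (e : ℕ) (v : ℤ × ℤ), 0 < e ∧ s = e • v ∧
    IsCoprime v.1 v.2 := by
  have h1 : s.1 ≠ 0 ∨ s.2 ≠ 0 := by
    by_contra hcon
    push Not at hcon
    exact hs (Prod.ext hcon.1 hcon.2)
  obtain ⟨e, a, b, c, d, he, ha, hb, hd⟩ := exists_basis h1
  refine ⟨e, (a, b), Nat.pos_of_ne_zero he, ?_, ⟨d, -c, by linarith⟩⟩
  apply Prod.ext
  · rw [nsmul_fst, ha]
    ring
  · rw [nsmul_snd, hb]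
    ring

theorem cont_pr (v : ℤ × ℤ) : Continuous fun n : ℂ => pr n v := by
  unfold pr
  fun_prop

/-- the good directions -/
def Dir (F G : ℂ ≃ₜ ℂ) : Set ℂ := {n | ‖n‖ = 1 ∧ ∀ S : Set (ℤ × ℤ), S.Finite → S ⊆ Hn n →
  Good F G S}

theorem isCompact_Dir (F G : ℂ ≃ₜ ℂ) : IsCompact (Dir F G) := by
  have e : Dir F G = Metric.sphere (0 : ℂ) 1 ∩ ⋂ (S : Set (ℤ × ℤ)) (_ : S.Finite)
      (_ : ¬ Good F G S), {n : ℂ | S ⊆ Hn n}ᶜ := by
    ext n
    simp only [Dir, mem_ofPred_eq, mem_inter_iff, mem_sphere_iff_norm, sub_zero, mem_iInter,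
      mem_compl_iff]
    constructor
    · rintro ⟨h1, h2⟩
      exact ⟨h1, fun S hS hg hn => hg (h2 S hS hn)⟩
    · rintro ⟨h1, h2⟩
      exact ⟨h1, fun S hS hn => by_contra fun hg => h2 S hS hg hn⟩
  rw [e]
  refine (isCompact_sphere 0 1).inter_right ?_
  refine isClosed_iInter fun S => isClosed_iInter fun hS => isClosed_iInter fun _ => ?_
  refine IsOpen.isClosed_compl ?_
  have e2 : {n : ℂ | S ⊆ Hn n} = ⋂ s ∈ S, {n : ℂ | 0 < pr n s} := by
    ext n
    simp only [mem_ofPred_eq, mem_iInter]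
    rfl
  rw [e2]
  exact hS.isOpen_biInter fun s _ => isOpen_lt continuous_const (cont_pr s)

/-- directions which are nonnegative on a given element -/
theorem Sys.exists_dir (h : Sys k F G) {V : ℤ × ℤ} (hV : IsCoprime V.1 V.2)
    (hG : Good F G {V}) : ∃ n ∈ Dir F G, 0 ≤ pr n V := by
  classical
  let W : ℕ → Finset (ℤ × ℤ) := fun m =>
    (Finset.Icc (-(m : ℤ)) m ×ˢ Finset.Icc (-(m : ℤ)) m).filter fun v => IsCoprime v.1 v.2
  have hWm : ∀ m v, v ∈ W m ↔ ((-(m : ℤ) ≤ v.1 ∧ v.1 ≤ m) ∧ (-(m : ℤ) ≤ v.2 ∧ v.2 ≤ m)) ∧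
      IsCoprime v.1 v.2 := by
    intro m v
    simp only [W, Finset.mem_filter, Finset.mem_product, Finset.mem_Icc]
  choose S hSf hSg hSV hSc hSo hSW using fun m => h.extend hV hG (W m)
    (fun v hv => ((hWm m v).1 hv).2)
  choose n hn hnS using fun m => h.half (hSf m) ⟨V, hSV m⟩ (hSg m) (hSc m) (hSo m)
  obtain ⟨n0, hn0, φ, hφ, hlim⟩ := (isCompact_sphere (0 : ℂ) 1).tendsto_subseq
    (x := n) (fun m => by rw [mem_sphere_iff_norm, sub_zero]; exact hn m)
  rw [mem_sphere_iff_norm, sub_zero] at hn0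
  have hpr : ∀ v : ℤ × ℤ, Tendsto (fun m => pr (n (φ m)) v) atTop (𝓝 (pr n0 v)) := fun v =>
    ((cont_pr v).tendsto n0).comp hlim
  refine ⟨n0, ⟨hn0, fun T hT hTn => ?_⟩, ?_⟩
  · have hev : ∀ s ∈ T, ∀ᶠ m in atTop, ∃ (e : ℕ) (v : ℤ × ℤ), s = e • v ∧ v ∈ S (φ m) := by
      intro s hs
      have hs' : 0 < pr n0 s := hTn hs
      have hs0 : s ≠ 0 := by
        rintro rfl
        simp [pr] at hs'
      obtain ⟨e, v, he, hev, hv⟩ := exists_prim hs0
      have hpv : 0 < pr n0 v := by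
        rw [hev, pr_nsmul] at hs'
        have : (0 : ℝ) < e := by exact_mod_cast he
        exact (mul_pos_iff_of_pos_left this).1 hs'
      filter_upwards [(hpr v).eventually (lt_mem_nhds hpv),
        eventually_ge_atTop (v.1.natAbs + v.2.natAbs)] with m h1 h2
      refine ⟨e, v, hev, ?_⟩
      have h3 : v.1.natAbs + v.2.natAbs ≤ φ m := h2.trans (hφ.id_le m)
      have h4 : v ∈ W (φ m) := by
        rw [hWm]
        refine ⟨⟨⟨?_, ?_⟩, ?_, ?_⟩, hv⟩ <;> omega
      rcases hSW (φ m) v h4 with h5 | h5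
      · exact h5
      · exfalso
        have h6 : 0 < pr (n (φ m)) (-v) := hnS (φ m) h5
        rw [pr_neg] at h6
        linarith
    obtain ⟨m, hm⟩ := ((eventually_all_finite hT).2 hev).exists
    intro ρ hρ
    obtain ⟨M, hM, hMρ, hMn, hMf⟩ := hSg (φ m) ρ hρ
    refine ⟨M, hM, hMρ, hMn, fun s hs => ?_⟩
    obtain ⟨e, v, hev, hv⟩ := hm s hs
    rw [hev]
    exact h.fwd_nsmul (hMf v hv) e
  · refine ge_of_tendsto' (hpr V) fun m => ?_
    have : 0 < pr (n (φ m)) V := hnS (φ m) (hSV (φ m))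
    exact this.le

theorem antipode {a b : ℂ} (ha : ‖a‖ = 1) (hb : ‖b‖ = 1) (hd : dc a b = 0) (hp : ip a b < 0) :
    b = -a := by
  have h1 := unit_id ha hb
  rw [hd] at h1
  have h2 : ip a b = -1 := by nlinarith
  have h3 := ip_self ha
  have h4 := ip_self hb
  have h5 : (a.re + b.re) ^ 2 + (a.im + b.im) ^ 2 = 0 := by
    unfold ip at h2 h3 h4
    nlinarith
  have h6 : a.re + b.re = 0 := by nlinarith [sq_nonneg (a.re + b.re), sq_nonneg (a.im + b.im)]
  have h7 : a.im + b.im = 0 := by nlinarith [sq_nonneg (a.re + b.re), sq_nonneg (a.im + b.im)]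
  apply Complex.ext
  · rw [Complex.neg_re]; linarith
  · rw [Complex.neg_im]; linarith

/-- small forward invariant continua cannot exist for all elements -/
theorem Sys.contra (h : Sys k F G) (hG : ∀ v : ℤ × ℤ, v ≠ 0 → Good F G {v}) : False := by
  have hcop : ∀ v : ℤ × ℤ, IsCoprime v.1 v.2 → v ≠ 0 := by
    rintro v hv rfl
    exact not_isCoprime_zero_zero hv
  obtain ⟨n1, hn1, -⟩ := h.exists_dir (V := (1, 0)) isCoprime_one_left
    (hG _ (hcop _ isCoprime_one_left))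
  have h0 : (0 : ℂ) ∉ Dir F G := by
    rintro ⟨h1, -⟩
    rw [norm_zero] at h1
    exact zero_ne_one h1
  have hfw : ∀ n ∈ Dir F G, ∃ M : Set ℂ, FC M ∧ (∃ z ∈ M, z ≠ 0) ∧ Fwd F G (Hn n) M :=
    fun n hn => h.exists_fwd (fun e => h0 (e ▸ hn)) hn.2
  rcases det_lemma (isCompact_Dir F G) ⟨n1, hn1⟩ h0 with
    ⟨a, ha, b, hb, hd, hp⟩ | ⟨a, ha, b, hb, c, hc, d1, d2, d3⟩ | ⟨v, hv⟩
  · obtain ⟨A, hA, nA, fA⟩ := hfw a ha
    obtain ⟨B, hB, nB, fB⟩ := hfw b hb
    rw [antipode ha.1 hb.1 hd hp] at fB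
    exact h.no_antipodal (fun e => h0 (e ▸ ha)) hA hB nA nB fA fB
  · obtain ⟨A, hA, nA, fA⟩ := hfw a ha
    obtain ⟨B, hB, nB, fB⟩ := hfw b hb
    obtain ⟨C, hC, nC, fC⟩ := hfw c hc
    exact h.no_triple ha.1 hb.1 hc.1 d1 d2 d3 hA hB hC nA nB nC fA fB fC
  · obtain ⟨n0, hn0, hmin⟩ := (isCompact_Dir F G).exists_isMinOn ⟨n1, hn1⟩
      (f := fun n => ip v n) (by
        unfold ip
        fun_prop)
    have hm0 : 0 < ip v n0 := hv n0 hn0
    have hmin' : ∀ n ∈ Dir F G, ip v n0 ≤ ip v n := fun n hn => hmin hn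
    obtain ⟨N, hN⟩ := exists_nat_gt (1 / ip v n0)
    rw [div_lt_iff₀ hm0] at hN
    have hneg : ∀ n ∈ Dir F G, pr n (rd (-v) N) < 0 := by
      intro n hn
      have h1 := abs_le.1 (pr_rd hn.1 (-v) N)
      have h2 : ip n (-v) = -ip v n := by
        unfold ip
        simp only [Complex.neg_re, Complex.neg_im]
        ring
      rw [h2] at h1
      have h3 := hmin' n hn
      have h4 : (N : ℝ) * ip v n0 ≤ N * ip v n := by
        have : (0 : ℝ) ≤ N := Nat.cast_nonneg N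
        nlinarith
      linarith
    have hV0 : rd (-v) N ≠ 0 := by
      intro e
      have := hneg n1 hn1
      rw [e] at this
      simp [pr] at this
    obtain ⟨e, V, he, hev, hV⟩ := exists_prim hV0
    obtain ⟨n, hn, hnV⟩ := h.exists_dir hV (hG _ (hcop _ hV))
    have h1 := hneg n hn
    rw [hev, pr_nsmul] at h1
    have h2 : (0 : ℝ) ≤ e := Nat.cast_nonneg e
    nlinarith

/-- some primitive element is conjugate to the contraction -/
theorem hasC_zero {k : ℤ} {F G : ℂ ≃ₜ ℂ} (h : PK k F G) (hk : k ≠ 0) (hF0 : F 0 = 0)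
    (hG0 : G 0 = 0) : HasC F G := by
  by_contra hno
  have hs : Sys k F G := ⟨h, hk, hF0, hG0⟩
  refine hs.contra fun v hv ρ hρ => ?_
  have hvv : v.1 ≠ 0 ∨ v.2 ≠ 0 := by
    by_contra hcon
    push Not at hcon
    exact hv (Prod.ext hcon.1 hcon.2)
  have hNT : ∃ z ∈ stab (act F G v) (Metric.closedBall 0 ρ), z ≠ 0 := by
    by_contra hcon
    push Not at hcon
    obtain ⟨D', hD', hD0', hm⟩ := trap_of_stab (hs.act0 v) (isCompact_closedBall 0 ρ)
      (Metric.closedBall_mem_nhds 0 hρ) (fun z hz => hcon z hz)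
    rw [← hs.act_inv] at hm
    exact hno (trap_zero h hk hF0 hG0 (a := (-v).1) (b := (-v).2) (by
      rw [Prod.fst_neg, Prod.snd_neg]
      omega) hD' hD0' hm)
  have h0 : (0 : ℂ) ∈ Metric.closedBall (0 : ℂ) ρ := Metric.mem_closedBall_self hρ.le
  refine ⟨stab (act F G v) (Metric.closedBall 0 ρ), FC_stab (hs.act0 v)
    (isCompact_closedBall 0 ρ) (ball_compl_pre hρ) h0, stab_sub_stays.trans stays_sub, hNT, ?_⟩
  intro w hw
  rw [mem_singleton_iff.1 hw]
  exact stab_maps (hs.act0 v) h0 (hs.act0 v) stays_self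

end Pool.Agent.Helper984_CP
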