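import Pool.Agent.Helper984_CP.AP7

/-!
# For nonzero `k` the space of pairs with Euler number `k` is path connected
-/

set_option autoImplicit false

open Set Filter Topology Complex

noncomputable section

namespace Pool.Agent.Helper984_CP

/-- every pair with nonzero Euler number has a primitive element which is a contraction -/
theorem hasC_all {k : ℤ} {F G : ℂ ≃ₜ ℂ} (h : PK k F G) (hk : k ≠ 0) : HasC F G := by
  obtain ⟨c, ⟨hFc, hGc⟩, -⟩ := existsUnique_common_fixed hk h
  have hFc' : F c = c := hFc
  have hGc' : G c = c := hGc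
  apply HasC.conj (H := trH c)
  refine hasC_zero (h.transl c) hk ?_ ?_
  · change F (0 + c) + -c = 0
    rw [zero_add, hFc', add_neg_cancel]
  · change G (0 + c) + -c = 0
    rw [zero_add, hGc', add_neg_cancel]

theorem HomK_pathConnected {k : ℤ} (hk : k ≠ 0) : IsPathConnected (HomK k) := by
  refine ⟨(toC (stdH lam 0), toC (stdH 0 (bk k))), PK_base k, fun {p} hp => ?_⟩
  obtain ⟨F, G, e⟩ := exists_homeos ⟨p, hp⟩
  simp only at e
  rw [e] at hp ⊢
  obtain ⟨a, b, hab, hc⟩ := hasC_all hp hk
  exact JoinedIn.symm (contr_joined hp hab hc)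

end Pool.Agent.Helper984_CP
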