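import Pool.Agent.Helper984_CP.Br

/-!
# The accessibility criterion
-/

set_option autoImplicit false

open Set Filter Topology Complex

noncomputable section

namespace Pool.Agent.Helper984_CP

theorem th_pull {K Γ K' : Set ℂ} (h : Pr K Γ) (hK' : FC K') {T : ℂ ≃ₜ ℂ} (hT : T 0 = 0)
    {ℓ : C(Conf, ℂ)} (hℓ : LogDiff (toC T) ℓ) (hm : MapsTo T K' K) :
    Pr K' (T.symm '' Γ) ∧ ∀ x ∈ K', x ≠ 0 → ∀ w ∈ Γ, w ≠ 0 → th K Γ (T x) w =
      th K' (T.symm '' Γ) x (T.symm w) + rot0 ℓ x - rot0 ℓ (T.symm w) := by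
  have hTs : T.symm 0 = 0 := symm_fix hT
  have hP : Pr K' (T.symm '' Γ) := by
    refine ⟨hK', h.right.image hTs, ?_⟩
    rintro x ⟨hx, y, hy, rfl⟩
    have h1 := hm hx
    rw [T.apply_symm_apply] at h1
    have h2 : y = 0 := h.inter ⟨h1, hy⟩
    rw [h2, hTs]
    exact mem_singleton _
  have hs0 : ∀ w, w ≠ 0 → T.symm w ≠ 0 := fun w hw e => hw (by
    rw [← T.apply_symm_apply w, e, hT])
  refine ⟨hP, fun x hx hx0 w hw hw0 => ?_⟩
  have hTx0 : T x ≠ 0 := fun e => hx0 (T.injective (e.trans hT.symm))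
  have e1 := th_equi hP hT hℓ hx hx0 (mem_image_of_mem _ hw) (hs0 w hw0)
  have e2 : T '' (T.symm '' Γ) = Γ := by
    rw [image_image]
    simp
  rw [e2, T.apply_symm_apply] at e1
  rw [← e1]
  refine th_mono h (hK'.image hT) h.right ?_ subset_rfl (mem_image_of_mem _ hx) hTx0 hw hw0
  rintro _ ⟨y, hy, rfl⟩
  exact hm hy

/-- the rotations about the origin of a pair with Euler number `κ` -/
theorem rot0_euler {κ : ℤ} {U V : ℂ ≃ₜ ℂ} (h : PK κ U V) (hU0 : U 0 = 0) (hV0 : V 0 = 0) :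
    ∃ ℓU ℓV : C(Conf, ℂ), LogDiff (toC U) ℓU ∧ LogDiff (toC V) ℓV ∧ ∀ z : ℂ, z ≠ 0 →
      rot0 ℓU (V z) + rot0 ℓV z = rot0 ℓU z + rot0 ℓV (U z) + 2 * Real.pi * Complex.I * κ := by
  obtain ⟨ℓU, hU⟩ := h.isoId_left.exists_logDiff
  obtain ⟨ℓV, hV⟩ := h.isoId_right.exists_logDiff
  refine ⟨ℓU, ℓV, hU, hV, fun z hz => ?_⟩
  have h1 := (mem_HomK_iff.1 h).2.2.2 ℓU ℓV hU hV ⟨(z, 0), hz⟩
  have hVz : V z ≠ 0 := fun e => hz (V.injective (e.trans hV0.symm))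
  have hUz : U z ≠ 0 := fun e => hz (U.injective (e.trans hU0.symm))
  have e1 : Conf.map (toC V) hV.inj ⟨(z, 0), hz⟩ = ⟨(V z, 0), hVz⟩ :=
    Subtype.ext (Prod.ext rfl hV0)
  have e2 : Conf.map (toC U) hU.inj ⟨(z, 0), hz⟩ = ⟨(U z, 0), hUz⟩ :=
    Subtype.ext (Prod.ext rfl hU0)
  rw [rot0_eq hVz, rot0_eq hz, rot0_eq hz, rot0_eq hUz]
  simp only at h1
  rw [e1, e2] at h1
  exact h1

/-- the contradiction -/
theorem acc_contra {κ : ℤ} {U V : ℂ ≃ₜ ℂ} (h : PK κ U V) (hκ : 4 ≤ |κ|) (hU0 : U 0 = 0)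
    (hV0 : V 0 = 0) {K K' Γ : Set ℂ} (hP : Pr K Γ) (hK' : FC K') (hKK : K' ⊆ K)
    (hU : MapsTo U K K) (hU' : MapsTo U K' K') (hV : MapsTo V K' K) {z w : ℂ} (hz : z ∈ K')
    (hz0 : z ≠ 0) (hw : w ∈ Γ) (hw0 : w ≠ 0) : False := by
  obtain ⟨ℓU, ℓV, hℓU, hℓV, hE⟩ := rot0_euler h hU0 hV0
  have hVz0 : V z ≠ 0 := fun e => hz0 (V.injective (e.trans hV0.symm))
  have hUz0 : U z ≠ 0 := fun e => hz0 (U.injective (e.trans hU0.symm))
  have hUs0 : U.symm w ≠ 0 := fun e => hw0 (by rw [← U.apply_symm_apply w, e, hU0])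
  have hVs0 : V.symm w ≠ 0 := fun e => hw0 (by rw [← V.apply_symm_apply w, e, hV0])
  have hUV : U (V z) = V (U z) := congrArg (fun H : ℂ ≃ₜ ℂ => H z) h.comm
  have hP' : Pr K' Γ := ⟨hK', hP.right, fun x hx => hP.inter ⟨hKK hx.1, hx.2⟩⟩
  obtain ⟨hP1, f1⟩ := th_pull hP hK' hV0 hℓV hV
  obtain ⟨hP2, f2⟩ := th_pull hP hP.left hU0 hℓU hU
  have a1 := f2 (V z) (hV hz) hVz0 w hw hw0
  have a2 := f2 z (hKK hz) hz0 w hw hw0
  have a3 := f1 (U z) (hU' hz) hUz0 w hw hw0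
  have a4 := f1 z hz hz0 w hw hw0
  have a5 := th_mono hP hK' hP.right hKK subset_rfl hz hz0 hw hw0
  have a6 := th_mono hP hK' hP.right hKK subset_rfl (hU' hz) hUz0 hw hw0
  have c1 := th_cross hP2 hP (hV hz) hVz0 (hKK hz) hz0 (mem_image_of_mem _ hw) hUs0 hw hw0
  have c2 := th_cross hP1 hP' (hU' hz) hUz0 hz hz0 (mem_image_of_mem _ hw) hVs0 hw hw0
  rw [hUV] at a1
  have e : ((th K' (V.symm '' Γ) (U z) (V.symm w) - th K' (V.symm '' Γ) z (V.symm w)) -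
      (th K' Γ (U z) w - th K' Γ z w)) -
      ((th K (U.symm '' Γ) (V z) (U.symm w) - th K (U.symm '' Γ) z (U.symm w)) -
      (th K Γ (V z) w - th K Γ z w)) = 2 * Real.pi * Complex.I * κ := by
    linear_combination a1 - a2 - a3 + a4 - a5 + a6 + hE z hz0
  have e' := congrArg Complex.im e
  rw [Complex.sub_im] at e'
  have e2 : (2 * Real.pi * Complex.I * κ : ℂ).im = 2 * Real.pi * κ := by simp
  rw [e2] at e'
  have hk : (4 : ℝ) ≤ |(κ : ℝ)| := by exact_mod_cast hκ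
  have hpi := Real.pi_pos
  rw [abs_lt] at c1 c2
  rcases abs_cases (κ : ℝ) with ⟨h1, -⟩ | ⟨h1, -⟩
  · rw [h1] at hk
    nlinarith
  · rw [h1] at hk
    nlinarith

theorem acc_zero {k : ℤ} {F G : ℂ ≃ₜ ℂ} (h : PK k F G) (hk : k ≠ 0) (hF0 : F 0 = 0)
    (hG0 : G 0 = 0) {a b : ℤ} (hab : a ≠ 0 ∨ b ≠ 0) {r : ℝ} (hr : 0 < r) {Γ : Set ℂ} (hΓ : FC Γ)
    {w : ℂ} (hw : w ∈ Γ) (hw0 : w ≠ 0)
    (hacc : stab (F ^ a * G ^ b) (Metric.closedBall 0 r) ∩ Γ ⊆ {0}) : HasC F G := by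
  have hcm : Commute F G := h.comm
  obtain ⟨e, a0, b0, c0, d0, he, ha, hb, hdet⟩ := exists_basis hab
  obtain ⟨u, hu⟩ : ∃ u, u = F ^ a0 * G ^ b0 := ⟨_, rfl⟩
  have hue : F ^ a * G ^ b = u ^ e := by
    rw [hu, ← zpow_natCast, (hcm.zpow_zpow a0 b0).mul_zpow, ← zpow_mul, ← zpow_mul, ← ha, ← hb]
  obtain ⟨V, hV⟩ : ∃ V, V = F ^ c0 * G ^ d0 := ⟨_, rfl⟩
  obtain ⟨g, hg⟩ : ∃ g, g = F ^ a * G ^ b := ⟨_, rfl⟩
  rw [← hg] at hacc hue
  have hg0 : g 0 = 0 := by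
    rw [hg, mul_apply', zpow_zero_fix hG0, zpow_zero_fix hF0]
  have hV0 : V 0 = 0 := by
    rw [hV, mul_apply', zpow_zero_fix hG0, zpow_zero_fix hF0]
  have hP := h.bilin a0 b0 c0 d0
  rw [hdet, mul_one, ← hu, ← hV] at hP
  have hPg : PK (k * e) g V := by
    have := hP.zpow_left (e : ℤ)
    rwa [zpow_natCast, ← hue] at this
  have hP4 : PK (k * e * 4) (g ^ 4) V := by
    have := hPg.zpow_left 4
    exact this
  have hcgV : Commute g V := hPg.comm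
  -- the second radius
  obtain ⟨r', hr', hr'r, hVr⟩ : ∃ r' > 0, r' ≤ r ∧
      MapsTo V (Metric.closedBall 0 r') (Metric.closedBall 0 r) := by
    have h1 : V ⁻¹' Metric.closedBall 0 r ∈ 𝓝 (0 : ℂ) :=
      V.continuous.continuousAt.preimage_mem_nhds (by
        rw [hV0]
        exact Metric.closedBall_mem_nhds 0 hr)
    obtain ⟨ε, hε, hball⟩ := Metric.nhds_basis_closedBall.mem_iff.1 h1
    exact ⟨min ε r, lt_min hε hr, min_le_right _ _, fun x hx =>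
      hball (Metric.closedBall_subset_closedBall (min_le_left _ _) hx)⟩
  have hD0 : (0 : ℂ) ∈ Metric.closedBall (0 : ℂ) r := Metric.mem_closedBall_self hr.le
  have hD0' : (0 : ℂ) ∈ Metric.closedBall (0 : ℂ) r' := Metric.mem_closedBall_self hr'.le
  by_cases hsm : stab g (Metric.closedBall 0 r') ⊆ {0}
  · obtain ⟨D', hD', hD0'', hm⟩ := trap_of_stab hg0 (isCompact_closedBall 0 r')
      (Metric.closedBall_mem_nhds 0 hr') hsm
    have e1 : (g⁻¹ : ℂ ≃ₜ ℂ) = F ^ (-a) * G ^ (-b) := by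
      rw [hg, mul_inv_rev, ← zpow_neg, ← zpow_neg]
      exact (hcm.symm.zpow_zpow (-b) (-a)).eq
    rw [e1] at hm
    exact trap_zero h hk hF0 hG0 (by omega) hD' hD0'' hm
  · exfalso
    obtain ⟨z, hz, hz0⟩ := not_subset.1 hsm
    have hcc : ∀ ρ : ℝ, 0 < ρ → IsPreconnected (Metric.closedBall (0 : ℂ) ρ)ᶜ := fun ρ h => by
      have e1 : (Metric.closedBall (0 : ℂ) ρ)ᶜ = {z : ℂ | ρ < ‖z‖} := by
        ext x
        simp
      rw [e1]
      exact (isPreconnected_gt_ball ρ h.le).isPreconnected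
    have hK : FC (stab g (Metric.closedBall 0 r)) :=
      ⟨isCompact_stab (isCompact_closedBall 0 r), stab_pre,
        filled_stab hg0 (isCompact_closedBall 0 r) (hcc r hr) hD0, zero_mem_stab hg0 hD0⟩
    have hK' : FC (stab g (Metric.closedBall 0 r')) :=
      ⟨isCompact_stab (isCompact_closedBall 0 r'), stab_pre,
        filled_stab hg0 (isCompact_closedBall 0 r') (hcc r' hr') hD0', zero_mem_stab hg0 hD0'⟩
    have hKK : stab g (Metric.closedBall 0 r') ⊆ stab g (Metric.closedBall 0 r) := by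
      refine connectedComponentIn_mono 0 fun x hx n => ?_
      exact Metric.closedBall_subset_closedBall hr'r (hx n)
    have hgm : ∀ {ρ : ℝ}, (0 : ℂ) ∈ Metric.closedBall (0 : ℂ) ρ →
        MapsTo g (stab g (Metric.closedBall 0 ρ)) (stab g (Metric.closedBall 0 ρ)) :=
      fun h0 => stab_maps hg0 h0 hg0 stays_self
    have hg4 : ∀ {S : Set ℂ}, MapsTo g S S → MapsTo (g ^ 4 : ℂ ≃ₜ ℂ) S S := by
      intro S hS x hx
      have e1 : (g ^ 4 : ℂ ≃ₜ ℂ) x = g (g (g (g x))) := by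
        rw [show (4 : ℕ) = 1 + 1 + 1 + 1 from rfl, pow_succ, pow_succ, pow_succ, pow_one]
        rfl
      rw [e1]
      exact hS (hS (hS (hS hx)))
    refine acc_contra hP4 ?_ ?_ hV0 (K := stab g (Metric.closedBall 0 r))
      (K' := stab g (Metric.closedBall 0 r')) (Γ := Γ) ⟨hK, hΓ, hacc⟩ hK' hKK (hg4 (hgm hD0))
      (hg4 (hgm hD0')) (stab_maps hg0 hD0' hV0 (stays_maps hcgV hVr)) hz hz0 hw hw0
    · have h1 : 1 ≤ |k * e| := Int.one_le_abs (mul_ne_zero hk (by exact_mod_cast he))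
      rw [abs_mul]
      have : |(4 : ℤ)| = 4 := rfl
      rw [this]
      linarith
    · exact pow_fix hg0 4

end Pool.Agent.Helper984_CP
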