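import Pool.Agent.Helper984_CP.Acc

/-!
# The accessibility criterion at a general fixed point, and openness of the contraction class
-/

set_option autoImplicit false

open Set Filter Topology Complex

noncomputable section

namespace Pool.Agent.Helper984_CP

/-- the accessibility criterion -/
theorem acc_contr {k : ℤ} {F G : ℂ ≃ₜ ℂ} (h : PK k F G) (hk : k ≠ 0) {c : ℂ} (hFc : F c = c)
    (hGc : G c = c) {a b : ℤ} (hab : a ≠ 0 ∨ b ≠ 0) {r : ℝ} (hr : 0 < r) {Γ : Set ℂ}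
    (hΓ : IsCompact Γ) (hΓp : IsPreconnected Γ) (hΓc : IsPreconnected Γᶜ) (hcΓ : c ∈ Γ) {w : ℂ}
    (hw : w ∈ Γ) (hwc : w ≠ c)
    (hacc : connectedComponentIn {z | ∀ n : ℕ, ((F ^ a * G ^ b) ^ n : ℂ ≃ₜ ℂ) z ∈
      Metric.closedBall c r} c ∩ Γ ⊆ {c}) : HasC F G := by
  apply HasC.conj (H := trH c)
  have hT : ∀ z, trH c z = z + c := fun z => rfl
  have hTi : ∀ z, ((trH c)⁻¹ : ℂ ≃ₜ ℂ) z = z - c := fun z => (sub_eq_add_neg z c).symm
  have hfixu : (F ^ a * G ^ b : ℂ ≃ₜ ℂ) c = c := by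
    have e1 : ∀ (F : ℂ ≃ₜ ℂ), F c = c → ∀ j : ℤ, (F ^ j : ℂ ≃ₜ ℂ) c = c := by
      intro F hF j
      have h1 : ((trH c)⁻¹ * F * trH c : ℂ ≃ₜ ℂ) 0 = 0 := by
        change ((trH c)⁻¹ : ℂ ≃ₜ ℂ) (F (trH c 0)) = 0
        rw [hT, zero_add, hF, hTi, sub_self]
      have h2 := zpow_zero_fix h1 j
      have h3 := transl_zpow (trH c) F 1 j 0
      rw [zpow_zero, mul_one, zpow_zero, mul_one] at h3
      rw [h3] at h2
      change ((trH c)⁻¹ : ℂ ≃ₜ ℂ) ((F ^ j) (trH c 0)) = 0 at h2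
      rw [hT, zero_add, hTi, sub_eq_zero] at h2
      exact h2
    rw [mul_apply', e1 G hGc, e1 F hFc]
  refine acc_zero (h.transl c) hk ?_ ?_ hab hr (Γ := ((trH c)⁻¹ : ℂ ≃ₜ ℂ) '' Γ) ?_
    (w := ((trH c)⁻¹ : ℂ ≃ₜ ℂ) w) (mem_image_of_mem _ hw) ?_ ?_
  · change ((trH c)⁻¹ : ℂ ≃ₜ ℂ) (F (trH c 0)) = 0
    rw [hT, zero_add, hFc, hTi, sub_self]
  · change ((trH c)⁻¹ : ℂ ≃ₜ ℂ) (G (trH c 0)) = 0
    rw [hT, zero_add, hGc, hTi, sub_self]
  · refine ⟨hΓ.image ((trH c)⁻¹ : ℂ ≃ₜ ℂ).continuous,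
      hΓp.image _ ((trH c)⁻¹ : ℂ ≃ₜ ℂ).continuous.continuousOn, ?_, ⟨c, hcΓ, by
        rw [hTi, sub_self]⟩⟩
    rw [← image_compl_eq ((trH c)⁻¹ : ℂ ≃ₜ ℂ).bijective]
    exact hΓc.image _ ((trH c)⁻¹ : ℂ ≃ₜ ℂ).continuous.continuousOn
  · rw [hTi]
    exact sub_ne_zero.2 hwc
  · rw [transl_zpow]
    rintro x ⟨hx, y, hy, rfl⟩
    obtain ⟨u, hu⟩ : ∃ u, u = F ^ a * G ^ b := ⟨_, rfl⟩
    rw [← hu] at hx hacc hfixu
    have hpow : ∀ (n : ℕ) (z : ℂ), (((trH c)⁻¹ * u * trH c) ^ n : ℂ ≃ₜ ℂ) z =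
        (u ^ n) (z + c) - c := by
      intro n z
      have e1 : ((trH c)⁻¹ * u * trH c) ^ n = (trH c)⁻¹ * u ^ n * trH c := by
        have := conj_pow (a := (trH c)⁻¹) (b := u) (i := n)
        rwa [inv_inv] at this
      rw [e1]
      change ((trH c)⁻¹ : ℂ ≃ₜ ℂ) ((u ^ n) (trH c z)) = _
      rw [hT, hTi]
    have h1 : trH c '' stab ((trH c)⁻¹ * u * trH c) (Metric.closedBall 0 r) ⊆
        connectedComponentIn {z | ∀ n : ℕ, (u ^ n : ℂ ≃ₜ ℂ) z ∈ Metric.closedBall c r} c := by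
      refine (stab_pre.image _ (trH c).continuous.continuousOn).subset_connectedComponentIn
        ⟨0, zero_mem_stab ?_ (Metric.mem_closedBall_self hr.le), by rw [hT, zero_add]⟩ ?_
      · change ((trH c)⁻¹ : ℂ ≃ₜ ℂ) (u (trH c 0)) = 0
        rw [hT, zero_add, hfixu, hTi, sub_self]
      · rintro _ ⟨z, hz, rfl⟩ n
        have h2 := stab_sub_stays hz n
        rw [hpow, mem_closedBall_zero_iff] at h2
        rw [hT, Metric.mem_closedBall, dist_eq_norm]
        exact h2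
    have h3 : y ∈ connectedComponentIn {z | ∀ n : ℕ, (u ^ n : ℂ ≃ₜ ℂ) z ∈
        Metric.closedBall c r} c := by
      refine h1 ⟨_, hx, ?_⟩
      rw [hT, hTi, sub_add_cancel]
    have h4 : y = c := hacc ⟨h3, hy⟩
    rw [mem_singleton_iff, hTi, h4, sub_self]

/-- powers of a continuous family of homeomorphisms -/
theorem cont_pow {Λ : Type*} [TopologicalSpace Λ] {E : Λ → ℂ ≃ₜ ℂ}
    (h : Continuous fun q : Λ × ℂ => E q.1 q.2) (n : ℕ) :
    Continuous fun q : Λ × ℂ => ((E q.1) ^ n) q.2 := by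
  induction n with
  | zero =>
    simp only [pow_zero]
    exact continuous_snd
  | succ n ih =>
    have e : (fun q : Λ × ℂ => ((E q.1) ^ (n + 1)) q.2) =
        fun q => ((E q.1) ^ n) (E q.1 q.2) := by
      funext q
      rw [pow_succ]
      rfl
    rw [e]
    exact ih.comp (continuous_fst.prodMk h)

theorem cont_inv {Λ : Type*} [TopologicalSpace Λ] {E : Λ → ℂ ≃ₜ ℂ}
    (h : Continuous fun q : Λ × ℂ => E q.1 q.2) :
    Continuous fun q : Λ × ℂ => ((E q.1)⁻¹ : ℂ ≃ₜ ℂ) q.2 := by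
  obtain ⟨Pi, hPi⟩ := continuous_inv_family ⟨_, h⟩ (fun s => ⟨toC (E s)⁻¹, fun x =>
    (E s).apply_symm_apply x, fun x => (E s).symm_apply_apply x⟩)
  have e : (fun q : Λ × ℂ => ((E q.1)⁻¹ : ℂ ≃ₜ ℂ) q.2) = Pi := by
    funext q
    apply (E q.1).injective
    have h1 := (hPi q.1 q.2).1
    rw [ContinuousMap.coe_mk] at h1
    simp only at h1
    rw [h1]
    exact (E q.1).apply_symm_apply q.2
  rw [e]
  exact Pi.continuous

theorem cont_zpow {Λ : Type*} [TopologicalSpace Λ] {E : Λ → ℂ ≃ₜ ℂ}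
    (h : Continuous fun q : Λ × ℂ => E q.1 q.2) (a : ℤ) :
    Continuous fun q : Λ × ℂ => ((E q.1) ^ a) q.2 := by
  cases a with
  | ofNat n =>
    simp only [Int.ofNat_eq_natCast, zpow_natCast]
    exact cont_pow h n
  | negSucc n =>
    simp only [zpow_negSucc, ← inv_pow]
    exact cont_pow (E := fun s => (E s)⁻¹) (cont_inv h) (n + 1)

/-- the pair of homeomorphisms given by an element of `HomK k` -/
theorem exists_homeos {k : ℤ} (p : HomK k) : ∃ F G : ℂ ≃ₜ ℂ, p.1 = (toC F, toC G) := by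
  obtain ⟨-, h1, h2, -⟩ := mem_HomK_iff.1 p.2
  obtain ⟨fi, hf1, hf2⟩ := h1.isHomeo
  obtain ⟨gi, hg1, hg2⟩ := h2.isHomeo
  refine ⟨⟨⟨p.1.1, fi, hf2, hf1⟩, p.1.1.continuous, fi.continuous⟩,
    ⟨⟨p.1.2, gi, hg2, hg1⟩, p.1.2.continuous, gi.continuous⟩, ?_⟩
  apply Prod.ext
  · ext z; rfl
  · ext z; rfl

/-- a contracting element fixes only the common fixed point -/
theorem contr_fix {F G H : ℂ ≃ₜ ℂ} (hcm : Commute F G) {a b : ℤ}
    (hH : ∀ z, (F ^ a * G ^ b) (H z) = H (z / 2)) : F (H 0) = H 0 ∧ G (H 0) = H 0 := by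
  have h0 : (F ^ a * G ^ b) (H 0) = H 0 := by rw [hH, zero_div]
  have key : ∀ T : ℂ ≃ₜ ℂ, Commute T (F ^ a * G ^ b) → T (H 0) = H 0 := by
    intro T hT
    have e1 : (F ^ a * G ^ b) (T (H 0)) = T (H 0) := by
      have := congrArg (fun S : ℂ ≃ₜ ℂ => S (H 0)) hT.eq
      simp only [mul_apply'] at this
      rw [mul_apply'] at h0 ⊢
      rw [← this, h0]
    obtain ⟨y, hy⟩ := H.surjective (T (H 0))
    rw [← hy, hH] at e1
    have e2 : y / 2 = y := H.injective e1
    have e3 : y = 0 := by linear_combination (-2 : ℂ) * e2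
    rw [← hy, e3]
  exact ⟨key F (((Commute.refl F).zpow_right a).mul_right (hcm.zpow_right b)),
    key G ((hcm.symm.zpow_right a).mul_right ((Commute.refl G).zpow_right b))⟩

/-- the contraction class is open -/
theorem isOpen_hasC {k : ℤ} (hk : k ≠ 0) :
    IsOpen {p : HomK k | ∃ F G : ℂ ≃ₜ ℂ, p.1 = (toC F, toC G) ∧ HasC F G} := by
  classical
  choose EF EG hE using fun p : HomK k => exists_homeos p
  have hEFc : Continuous fun q : HomK k × ℂ => EF q.1 q.2 := by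
    have e : (fun q : HomK k × ℂ => EF q.1 q.2) = fun q => q.1.1.1 q.2 := by
      funext q
      rw [hE q.1]
      rfl
    rw [e]
    exact ContinuousEval.continuous_eval.comp
      ((continuous_fst.comp (continuous_subtype_val.comp continuous_fst)).prodMk continuous_snd)
  have hEGc : Continuous fun q : HomK k × ℂ => EG q.1 q.2 := by
    have e : (fun q : HomK k × ℂ => EG q.1 q.2) = fun q => q.1.1.2 q.2 := by
      funext q
      rw [hE q.1]
      rfl
    rw [e]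
    exact ContinuousEval.continuous_eval.comp
      ((continuous_snd.comp (continuous_subtype_val.comp continuous_fst)).prodMk continuous_snd)
  rw [isOpen_iff_mem_nhds]
  rintro p ⟨F, G, hp, a, b, hab, H, hH⟩
  have hPK : PK k F G := by
    have := p.2
    rw [hp] at this
    exact this
  have hcm : Commute F G := hPK.comm
  have hFG : EF p = F ∧ EG p = G := by
    have h1 := hE p
    rw [hp] at h1
    have h2 := congrArg Prod.fst h1
    have h3 := congrArg Prod.snd h1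
    refine ⟨Homeomorph.ext fun z => ?_, Homeomorph.ext fun z => ?_⟩
    · exact (congrArg (fun f : C(ℂ, ℂ) => f z) h2).symm
    · exact (congrArg (fun f : C(ℂ, ℂ) => f z) h3).symm
  obtain ⟨hF0, hG0⟩ := contr_fix hcm hH
  have hc : H 0 = cfix hk p := by
    apply cfix_eq hk p
    rw [hp]
    exact ⟨hF0, hG0⟩
  obtain ⟨D, hD⟩ : ∃ D, D = H '' Metric.closedBall 0 1 := ⟨_, rfl⟩
  have hDc : IsCompact D := by
    rw [hD]
    exact (isCompact_closedBall 0 1).image H.continuous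
  have hDi : H '' Metric.ball 0 1 ⊆ interior D := by
    rw [hD]
    exact interior_maximal (image_mono Metric.ball_subset_closedBall)
      (H.isOpenMap _ Metric.isOpen_ball)
  let Q : C(HomK k × ℂ, ℂ) := ⟨fun q => (EF q.1 ^ a * EG q.1 ^ b) q.2, by
    have := (cont_zpow hEFc a).comp (continuous_fst.prodMk (cont_zpow hEGc b))
    exact this⟩
  have hW1 : {q : HomK k | MapsTo (Q.curry q) D (interior D)} ∈ 𝓝 p := by
    apply (Q.curry.continuous.isOpen_preimage _ (ContinuousMap.isOpen_setOfPred_mapsTo hDc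
      isOpen_interior)).mem_nhds
    change MapsTo (Q.curry p) D (interior D)
    intro x hx
    change (EF p ^ a * EG p ^ b) x ∈ interior D
    rw [hFG.1, hFG.2]
    rw [hD] at hx
    obtain ⟨y, hy, rfl⟩ := hx
    rw [hH]
    apply hDi
    refine mem_image_of_mem _ ?_
    rw [mem_closedBall_zero_iff] at hy
    rw [mem_ball_zero_iff, norm_div, Complex.norm_ofNat]
    linarith
  have hW2 : {q : HomK k | cfix hk q ∈ interior D} ∈ 𝓝 p := by
    apply (isOpen_interior.preimage (continuous_cfix hk)).mem_nhds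
    change cfix hk p ∈ interior D
    rw [← hc]
    exact hDi (mem_image_of_mem _ (Metric.mem_ball_self one_pos))
  filter_upwards [hW1, hW2] with q hq1 hq2
  refine ⟨EF q, EG q, hE q, ?_⟩
  have hPq : PK k (EF q) (EG q) := by
    have := q.2
    rw [hE q] at this
    exact this
  have hfix := cfix_spec hk q
  have hfix' : EF q (cfix hk q) = cfix hk q ∧ EG q (cfix hk q) = cfix hk q := by
    have h1 := hfix.1
    have h2 := hfix.2
    rw [hE q] at h1 h2
    exact ⟨h1, h2⟩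
  refine trap_contr hPq hk hfix'.1 hfix'.2 (a := a) (b := b) ?_ hDc
    (mem_interior_iff_mem_nhds.1 hq2) ?_
  · by_contra hcon
    push Not at hcon
    rw [hcon.1, hcon.2] at hab
    exact not_isCoprime_zero_zero hab
  · intro x hx
    exact interior_subset (hq1 hx)

end Pool.Agent.Helper984_CP
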