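import Pool.Agent.Helper984_CP.Ends

/-!
# Pairs with a primitive element conjugate to a complex affine map
-/

set_option autoImplicit false

open Set Filter Topology Complex ComplexConjugate

noncomputable section

namespace Pool.Agent.Helper984_CP

theorem id_case {k : ℤ} {g : C(ℂ, ℂ)} (h : (ContinuousMap.id ℂ, g) ∈ HomK k) :
    JoinedIn (HomK k) (ContinuousMap.id ℂ, g) (ContinuousMap.id ℂ, ContinuousMap.id ℂ) := by
  obtain ⟨-, -, hi2, -⟩ := mem_HomK_iff.1 h
  simp only at hi2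
  obtain ⟨Q, hQ, hQ0, hQ1⟩ := isoId_iff.1 hi2
  let P : C(unitInterval × ℂ, ℂ) := ⟨fun q => q.2, by fun_prop⟩
  have hPs : ∀ s, slice P s = ContinuousMap.id ℂ := fun s => rfl
  have e0 : slice Q 0 = ContinuousMap.id ℂ := by ext z; exact hQ0 z
  have e1 : slice Q 1 = g := by ext z; exact hQ1 z
  have j := HomK_joined_rev (k := k) P Q (fun s => by rw [hPs]; exact isHomeo_id) hQ
    (fun s x => rfl) (by rw [hPs, e1]; exact h)
  rwa [hPs, hPs, e0, e1] at j

theorem transl_case {k : ℤ} {f g : C(ℂ, ℂ)} (h : (f, g) ∈ HomK k) (hf : ∀ z, f z = z + tpi) :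
    JoinedIn (HomK k) (f, g) (ContinuousMap.id ℂ, ContinuousMap.id ℂ) := by
  obtain ⟨hc, -, hi2, -⟩ := mem_HomK_iff.1 h
  simp only at hc hi2
  have hp : ∀ w, g (w + tpi) = g w + tpi := fun w => by rw [← hf, ← hc, hf]
  obtain ⟨F, hF, hF0, hFg⟩ := expC_homeo hi2.isHomeo hp (leftP_of_isoId hi2 hp)
  obtain ⟨P0, N, n, -, -, -, -, hN, hN0, hN1, hNH⟩ := per_path hF hF0 hFg
  let P : C(unitInterval × ℂ, ℂ) := ⟨fun q => q.2 + tpi, by fun_prop⟩
  let Q : C(unitInterval × ℂ, ℂ) := ⟨fun q => N q - n * tpi, by fun_prop⟩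
  have hsub : ∀ a : ℂ, IsHomeo ⟨fun z => z + a, by fun_prop⟩ := fun a =>
    ⟨⟨fun z => z - a, by fun_prop⟩, fun x => sub_add_cancel x a, fun x => add_sub_cancel_right x a⟩
  have e1 : slice P 1 = f := by ext z; exact (hf z).symm
  have e1' : slice Q 1 = g := by
    ext z
    change N (1, z) - n * tpi = g z
    rw [hN1]
    ring
  have j := HomK_joined_rev (k := k) P Q (fun s => hsub tpi) (fun s => by
    have := (hsub (-(n * tpi))).comp (hNH s)
    have e : (⟨fun z => z + -(n * tpi), by fun_prop⟩ : C(ℂ, ℂ)).comp (slice N s) = slice Q s := by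
      ext z
      exact (sub_eq_add_neg _ _).symm
    rwa [e] at this) (fun s x => by
    change N (s, x) - n * tpi + tpi = N (s, x + tpi) - n * tpi
    have := (hN s).1 x
    simp only [slice_apply] at this
    rw [this]
    ring) (by rw [e1, e1']; exact h)
  rw [e1, e1'] at j
  -- second step
  let P2 : C(unitInterval × ℂ, ℂ) := ⟨fun q => q.2 + (q.1 : ℝ) * tpi, by fun_prop⟩
  let Q2 : C(unitInterval × ℂ, ℂ) := ⟨fun q => q.2 + -((q.1 : ℝ) * (n * tpi)), by fun_prop⟩
  have f1 : slice P2 1 = slice P 0 := by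
    ext z
    change z + ((1 : ℝ) : ℂ) * tpi = z + tpi
    rw [Complex.ofReal_one, one_mul]
  have f1' : slice Q2 1 = slice Q 0 := by
    ext z
    change z + -(((1 : ℝ) : ℂ) * (n * tpi)) = N (0, z) - n * tpi
    rw [hN0, Complex.ofReal_one, one_mul]
    ring
  have f0 : slice P2 0 = ContinuousMap.id ℂ := by
    ext z
    change z + ((0 : ℝ) : ℂ) * tpi = z
    rw [Complex.ofReal_zero, zero_mul, add_zero]
  have f0' : slice Q2 0 = ContinuousMap.id ℂ := by
    ext z
    change z + -(((0 : ℝ) : ℂ) * (n * tpi)) = z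
    rw [Complex.ofReal_zero, zero_mul, neg_zero, add_zero]
  have j2 := HomK_joined_rev (k := k) P2 Q2 (fun s => hsub ((s : ℝ) * tpi))
    (fun s => hsub (-((s : ℝ) * (n * tpi)))) (fun s x => by
    change x + -((s : ℝ) * (n * tpi)) + (s : ℝ) * tpi = x + (s : ℝ) * tpi + -((s : ℝ) * (n * tpi))
    ring) (by
      rw [f1, f1']
      exact j.target_mem)
  rw [f1, f1', f0, f0'] at j2
  exact j.trans j2

theorem conj_pair {k : ℤ} {f g h hi : C(ℂ, ℂ)} (hfg : (f, g) ∈ HomK k) (hh : IsoId h)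
    (h2 : ∀ x, hi (h x) = x) (hj : ∀ g' : C(ℂ, ℂ), (h.comp (f.comp hi), g') ∈ HomK k →
      JoinedIn (HomK k) (h.comp (f.comp hi), g') (ContinuousMap.id ℂ, ContinuousMap.id ℂ)) :
    JoinedIn (HomK k) (f, g) (ContinuousMap.id ℂ, ContinuousMap.id ℂ) := by
  have j := HomK_conj hfg hh h2
  exact j.trans (hj _ j.target_mem)

theorem transl_case' {k : ℤ} {f g : C(ℂ, ℂ)} (h : (f, g) ∈ HomK k) {μ : ℂ} (hμ : μ ≠ 0)
    (hf : ∀ z, f z = z + μ) :
    JoinedIn (HomK k) (f, g) (ContinuousMap.id ℂ, ContinuousMap.id ℂ) := by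
  have hc : tpi / μ ≠ 0 := div_ne_zero tpi_ne hμ
  refine conj_pair h (isoId_affine (c := tpi / μ) (d := 0) hc)
    (hi := ⟨fun z => z / (tpi / μ), by fun_prop⟩) (fun x => ?_) (fun g' hg' => ?_)
  · change (tpi / μ * x + 0) / (tpi / μ) = x
    rw [add_zero, mul_div_cancel_left₀ _ hc]
  · refine transl_case hg' fun z => ?_
    change tpi / μ * (f (z / (tpi / μ))) + 0 = z + tpi
    rw [hf, add_zero, mul_add, mul_div_cancel₀ _ hc, div_mul_cancel₀ _ hμ]

theorem expC_eq_of_lift {f : C(ℂ, ℂ)} (h0 : f 0 = 0) {M : C(ℂ, ℂ)} (hM : LiftOf f M) (z : ℂ) :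
    f z = expC M z := by
  by_cases hz : z = 0
  · rw [hz, h0, expC_zero]
  · have e := hM.2 (Complex.log z)
    rw [Complex.exp_log hz] at e
    rw [← e, expC, if_neg hz]

theorem leftP_family {P N : C(unitInterval × ℂ, ℂ)} (hP0 : ∀ s, P (s, 0) = 0)
    (hN : ∀ s, LiftOf (slice P s) (slice N s)) (s0 : unitInterval) (R : ℝ) :
    ∃ ρ : ℝ, ∀ᶠ s in 𝓝 s0, ∀ w : ℂ, w.re ≤ ρ → (N (s, w)).re ≤ R := by
  have hopen : IsOpen {q : unitInterval × ℂ | ‖P q‖ < Real.exp R} :=
    isOpen_lt (by fun_prop) continuous_const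
  have hmem : (s0, (0 : ℂ)) ∈ {q : unitInterval × ℂ | ‖P q‖ < Real.exp R} := by
    change ‖P (s0, 0)‖ < _
    rw [hP0, norm_zero]
    exact Real.exp_pos R
  obtain ⟨u, v, hu, hv, hsu, h0v, huv⟩ := isOpen_prod_iff.1 hopen s0 0 hmem
  obtain ⟨d, hd, hdv⟩ := Metric.mem_nhds_iff.1 (hv.mem_nhds h0v)
  refine ⟨Real.log d - 1, ?_⟩
  filter_upwards [hu.mem_nhds hsu] with s hs w hw
  have h1 : cexp w ∈ v := by
    apply hdv
    rw [mem_ball_zero_iff, Complex.norm_exp, ← Real.exp_log hd]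
    exact Real.exp_lt_exp.2 (by linarith)
  have h2 : ‖P (s, cexp w)‖ < Real.exp R := huv (mk_mem_prod hs h1)
  have h3 := (hN s).2 w
  simp only [slice_apply] at h3
  rw [← h3, Complex.norm_exp, Real.exp_lt_exp] at h2
  exact h2.le

theorem leftP_of_lift {f : C(ℂ, ℂ)} (h0 : f 0 = 0) {M : C(ℂ, ℂ)} (hM : LiftOf f M) : LeftP M := by
  intro R
  let P : C(unitInterval × ℂ, ℂ) := ⟨fun q => f q.2, by fun_prop⟩
  let N : C(unitInterval × ℂ, ℂ) := ⟨fun q => M q.2, by fun_prop⟩
  obtain ⟨ρ, hρ⟩ := leftP_family (P := P) (N := N) (fun s => h0) (fun s => hM) 0 R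
  exact ⟨ρ, hρ.self_of_nhds⟩

/-- commuting with a rotation -/
theorem rot_case {f g : C(ℂ, ℂ)} (h : (f, g) ∈ HomK 0) {θ : ℝ}
    (hf : ∀ z, f z = cexp (θ * I) * z) (hg0 : g 0 = 0) :
    JoinedIn (HomK 0) (f, g) (ContinuousMap.id ℂ, ContinuousMap.id ℂ) := by
  obtain ⟨hc, hi1, hi2, hE⟩ := mem_HomK_iff.1 h
  simp only at hc hi1 hi2 hE
  obtain ⟨ℓf, hℓf⟩ := hi1.exists_logDiff
  obtain ⟨ℓg, hℓg⟩ := hi2.exists_logDiff
  obtain ⟨M, hM1, hM2, -⟩ := exists_lift hℓg hg0
  have hf0 : f 0 = 0 := by rw [hf, mul_zero]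
  have hML : LiftOf g M := ⟨hM1, hM2⟩
  have hMθ : ∀ w, M (w + θ * I) = M w + θ * I := by
    intro w
    have := lift_comm hℓf hℓg hE hf0 hg0 (M := ⟨fun w => w + θ * I, by fun_prop⟩) (N := M)
      (fun w => by
        change cexp (w + θ * I) = _
        rw [hf, Complex.exp_add, mul_comm]) hM2 w
    simp only [ContinuousMap.coe_mk, Int.cast_zero, mul_zero, add_zero] at this
    exact this.symm
  let S : AddSubgroup ℝ :=
    { carrier := {t | ∀ w, M (w + t * I) = M w + t * I}
      zero_mem' := fun w => by simp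
      add_mem' := fun {a b} ha hb w => by
        have e : w + ((a + b : ℝ) : ℂ) * I = w + a * I + b * I := by push_cast; ring
        rw [e, hb, ha]
        push_cast
        ring
      neg_mem' := fun {a} ha w => by
        have h1 := ha (w + ((-a : ℝ) : ℂ) * I)
        have e : w + ((-a : ℝ) : ℂ) * I + a * I = w := by push_cast; ring
        rw [e] at h1
        rw [h1]
        push_cast
        ring }
  have hS : ∀ t, t ∈ S ↔ ∀ w, M (w + t * I) = M w + t * I := fun _ => Iff.rfl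
  have hθS : θ ∈ S := hMθ
  have hpS : 2 * Real.pi ∈ S := by
    rw [hS]
    intro w
    have := hM1 w
    rw [tpi_eq] at this
    exact this
  have hScl : IsClosed (S : Set ℝ) := by
    have : (S : Set ℝ) = ⋂ w : ℂ, {t : ℝ | M (w + t * I) = M w + t * I} := by
      ext t
      simp only [mem_iInter, mem_ofPred_eq, SetLike.mem_coe]
      exact hS t
    rw [this]
    exact isClosed_iInter fun w => isClosed_eq (by fun_prop) (by fun_prop)
  have hgS : ∀ t ∈ S, ∀ z, g (cexp (t * I) * z) = cexp (t * I) * g z := by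
    intro t ht z
    by_cases hz : z = 0
    · rw [hz, mul_zero, hg0, mul_zero]
    · obtain ⟨w, rfl⟩ : ∃ w, cexp w = z := ⟨Complex.log z, Complex.exp_log hz⟩
      rw [← hM2, ← Complex.exp_add, ← Complex.exp_add, ← hM2, add_comm (t * I : ℂ) w,
        (hS t).1 ht w, add_comm]
  have hrh : ∀ a : ℂ, a ≠ 0 → IsHomeo ⟨fun z : ℂ => a * z, by fun_prop⟩ := fun a ha =>
    ⟨⟨fun z => z / a, by fun_prop⟩, fun x => mul_div_cancel₀ x ha,
      fun x => mul_div_cancel_left₀ x ha⟩
  rcases S.dense_or_cyclic with hd | ⟨a, ha⟩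
  · have huniv : ∀ t, t ∈ S := by
      intro t
      have : (S : Set ℝ) = univ := by rw [← hScl.closure_eq]; exact hd.closure_eq
      have ht : t ∈ (S : Set ℝ) := by rw [this]; exact mem_univ t
      exact ht
    let P : C(unitInterval × ℂ, ℂ) := ⟨fun q => cexp (((q.1 : ℝ) * θ : ℝ) * I) * q.2, by fun_prop⟩
    let Q : C(unitInterval × ℂ, ℂ) := ⟨fun q => g q.2, by fun_prop⟩
    have e1 : slice P 1 = f := by
      ext z
      change cexp (((1 : ℝ) * θ : ℝ) * I) * z = f z
      rw [one_mul, hf]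
    have e0 : slice P 0 = ContinuousMap.id ℂ := by
      ext z
      change cexp (((0 : ℝ) * θ : ℝ) * I) * z = z
      simp
    have hQs : ∀ s, slice Q s = g := fun s => rfl
    have j := HomK_joined_rev (k := 0) P Q (fun s => hrh (cexp (((s : ℝ) * θ : ℝ) * I))
      (Complex.exp_ne_zero _))
      (fun s => hi2.isHomeo) (fun s x => (hgS _ (huniv _) x).symm) (by rw [e1, hQs]; exact h)
    rw [e1, e0, hQs, hQs] at j
    exact j.trans (id_case j.target_mem)
  · -- the cyclic case
    obtain ⟨q, b, hq, hqb, hbS, hgen⟩ : ∃ (q : ℕ) (b : ℝ), 0 < q ∧ q * b = 2 * Real.pi ∧ b ∈ S ∧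
        ∀ t ∈ S, ∃ m : ℤ, t = m * b := by
      have haS : a ∈ S := by rw [ha]; exact AddSubgroup.mem_closure_singleton_self a
      have hgen : ∀ t ∈ S, ∃ m : ℤ, t = m * a := by
        intro t ht
        rw [ha] at ht
        obtain ⟨m, hm⟩ := AddSubgroup.mem_closure_singleton.1 ht
        exact ⟨m, by rw [← hm, zsmul_eq_mul]⟩
      obtain ⟨m, hm⟩ := hgen _ hpS
      have hm0 : m ≠ 0 := by
        rintro rfl
        rw [Int.cast_zero, zero_mul] at hm
        linarith [Real.pi_pos]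
      rcases lt_or_gt_of_ne hm0 with hneg | hpos
      · refine ⟨m.natAbs, -a, Int.natAbs_pos.2 hm0, ?_, S.neg_mem haS, fun t ht => ?_⟩
        · have e : ((m.natAbs : ℕ) : ℝ) = -(m : ℝ) := by
            rw [Nat.cast_natAbs, abs_of_neg hneg]
            push_cast
            ring
          rw [e, hm]
          ring
        · obtain ⟨j, hj⟩ := hgen t ht
          exact ⟨-j, by rw [hj]; push_cast; ring⟩
      · refine ⟨m.natAbs, a, Int.natAbs_pos.2 hm0, ?_, haS, hgen⟩
        have e : ((m.natAbs : ℕ) : ℝ) = (m : ℝ) := by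
          rw [Nat.cast_natAbs, abs_of_pos hpos]
        rw [e, hm]
    have hqC : (q : ℂ) ≠ 0 := by exact_mod_cast hq.ne'
    have hqR : (0 : ℝ) < q := by exact_mod_cast hq
    have hbt : (tpi : ℂ) / q = b * I := by
      rw [div_eq_iff hqC, tpi_eq]
      have : ((q * b : ℝ) : ℂ) = ((2 * Real.pi : ℝ) : ℂ) := by rw [hqb]
      push_cast at this ⊢
      linear_combination (-I) * this
    have hMH := lift_homeo hi2.isHomeo hg0 hML
    have hMl := leftP_of_lift hg0 hML
    let M' : C(ℂ, ℂ) := ⟨fun w => q * M (w / q), by fun_prop⟩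
    have hM'e : ∀ w, M' w = q * M (w / q) := fun _ => rfl
    have hM'H : IsHomeo M' := by
      refine hMH.scale (c := (q : ℂ)⁻¹) (inv_ne_zero hqC) fun w => ?_
      rw [hM'e]
      field_simp
    have hM'p : ∀ w, M' (w + tpi) = M' w + tpi := by
      intro w
      rw [hM'e, hM'e, add_div, hbt, (hS b).1 hbS, ← hbt]
      field_simp
    have hM'l : LeftP M' := by
      intro R
      obtain ⟨ρ, hρ⟩ := hMl (R / q)
      refine ⟨ρ * q, fun w hw => ?_⟩
      have e1 : (w / q).re = w.re / q := by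
        have : (w / (q : ℂ)) = w / ((q : ℝ) : ℂ) := by push_cast; rfl
        rw [this, Complex.div_ofReal_re]
      have h1 := hρ (w / q) (by rw [e1, div_le_iff₀ hqR]; exact hw)
      rw [hM'e]
      have e2 : ((q : ℂ) * M (w / q)).re = q * (M (w / q)).re := by
        have : ((q : ℂ) * M (w / q)) = ((q : ℝ) : ℂ) * M (w / q) := by push_cast; rfl
        rw [this, Complex.re_ofReal_mul]
      rw [e2]
      rw [le_div_iff₀ hqR] at h1
      linarith
    obtain ⟨F, hF, hF0, hFM⟩ := expC_homeo hM'H hM'p hM'l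
    obtain ⟨P', N, n, hP'H, hP'0, -, -, hN, hN0, hN1, hNH⟩ := per_path hF hF0 hFM
    -- the root
    let K : C(unitInterval × ℂ, ℂ) := ⟨fun r => N (r.1, q * r.2) / q, by fun_prop⟩
    have hKe : ∀ s w, K (s, w) = N (s, q * w) / q := fun _ _ => rfl
    have hNs : ∀ s (m : ℤ) w, N (s, w + m * tpi) = N (s, w) + m * tpi := fun s m w =>
      int_shift (M := fun w => N (s, w)) (hN s).1 m w
    have hKb : ∀ s (m : ℤ) w, K (s, w + m * (b * I)) = K (s, w) + m * (b * I) := by
      intro s m w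
      rw [hKe, hKe, ← hbt]
      have e : (q : ℂ) * (w + m * (tpi / q)) = q * w + m * tpi := by field_simp
      rw [e, hNs]
      field_simp
    have hKp : ∀ s w, K (s, w + tpi) = K (s, w) + tpi := by
      intro s w
      have h1 := hKb s q w
      rw [← hbt] at h1
      have e : ((q : ℤ) : ℂ) * (tpi / q) = tpi := by
        push_cast
        field_simp
      rw [e] at h1
      exact h1
    have hKl : ∀ (s0 : unitInterval) (R : ℝ), ∃ ρ : ℝ, ∀ᶠ s in 𝓝 s0, ∀ w : ℂ, w.re ≤ ρ →
        (K (s, w)).re ≤ R := by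
      intro s0 R
      obtain ⟨ρ, hρ⟩ := leftP_family hP'0 hN s0 (q * R)
      refine ⟨ρ / q, ?_⟩
      filter_upwards [hρ] with s hs w hw
      have e1 : ((q : ℂ) * w).re = q * w.re := by
        have : ((q : ℂ) * w) = ((q : ℝ) : ℂ) * w := by push_cast; rfl
        rw [this, Complex.re_ofReal_mul]
      have h1 := hs (q * w) (by
        rw [e1]
        rw [le_div_iff₀ hqR] at hw
        linarith)
      rw [hKe]
      have e2 : (N (s, q * w) / q).re = (N (s, q * w)).re / q := by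
        have : (N (s, q * w) / (q : ℂ)) = N (s, q * w) / ((q : ℝ) : ℂ) := by push_cast; rfl
        rw [this, Complex.div_ofReal_re]
      rw [e2, div_le_iff₀ hqR]
      linarith
    have hKH : ∀ s, IsHomeo (slice K s) := by
      intro s
      refine (hNH s).scale hqC fun w => ?_
      rfl
    let E : C(unitInterval × ℂ, ℂ) := ⟨expMap K, continuous_expMap K.continuous hKp hKl⟩
    have hEe : ∀ s z, E (s, z) = expC (fun w => K (s, w)) z := fun s z => rfl
    have hEx : ∀ s w, E (s, cexp w) = cexp (K (s, w)) := fun s w => expMap_exp hKp s w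
    have hE0 : ∀ s, E (s, 0) = 0 := fun s => expMap_zero K s
    have hEH : ∀ s, IsHomeo (slice E s) := by
      intro s
      obtain ⟨u, hu, hu0, huK⟩ := expC_homeo (hKH s) (hKp s) (fun R => by
        obtain ⟨ρ, hρ⟩ := hKl s R
        exact ⟨ρ, hρ.self_of_nhds⟩)
      have e : slice E s = u := by
        ext z
        rw [expC_eq_of_lift hu0 huK]
        rfl
      rw [e]
      exact hu
    obtain ⟨η, hη⟩ : ∃ η : ℂ, η = cexp (n * tpi / q) := ⟨_, rfl⟩
    have hη0 : η ≠ 0 := by rw [hη]; exact Complex.exp_ne_zero _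
    have hEz : ∀ z, E (0, z) = z := by
      intro z
      by_cases hz : z = 0
      · rw [hz, hE0]
      · obtain ⟨w, rfl⟩ : ∃ w, cexp w = z := ⟨Complex.log z, Complex.exp_log hz⟩
        rw [hEx, hKe, hN0, mul_div_cancel_left₀ _ hqC]
    have hEo : ∀ z, E (1, z) = η * g z := by
      intro z
      by_cases hz : z = 0
      · rw [hz, hE0, hg0, mul_zero]
      · obtain ⟨w, rfl⟩ : ∃ w, cexp w = z := ⟨Complex.log z, Complex.exp_log hz⟩
        rw [hEx, hKe, hN1, hM'e, mul_div_cancel_left₀ _ hqC, ← hM2, hη, ← Complex.exp_add]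
        congr 1
        field_simp
        ring
    obtain ⟨m, hm⟩ := hgen θ hθS
    have hEθ : ∀ s z, E (s, cexp (θ * I) * z) = cexp (θ * I) * E (s, z) := by
      intro s z
      by_cases hz : z = 0
      · rw [hz, mul_zero, hE0, mul_zero]
      · obtain ⟨w, rfl⟩ : ∃ w, cexp w = z := ⟨Complex.log z, Complex.exp_log hz⟩
        rw [← Complex.exp_add, hEx, hEx, ← Complex.exp_add]
        congr 1
        have e : (θ : ℂ) * I + w = w + m * (b * I) := by
          rw [hm]
          push_cast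
          ring
        rw [e, hKb, hm]
        push_cast
        ring
    let P : C(unitInterval × ℂ, ℂ) := ⟨fun r => f r.2, by fun_prop⟩
    let Q : C(unitInterval × ℂ, ℂ) := ⟨fun r => η⁻¹ * E r, by fun_prop⟩
    have hPs : ∀ s, slice P s = f := fun s => rfl
    have e1 : slice Q 1 = g := by
      ext z
      change η⁻¹ * E (1, z) = g z
      rw [hEo, inv_mul_cancel_left₀ hη0]
    have e0 : slice Q 0 = linC η⁻¹ 0 := by
      ext z
      change η⁻¹ * E (0, z) = _
      rw [hEz, linC_apply, zero_mul, add_zero]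
    have ef : f = linC (cexp (θ * I)) 0 := by
      ext z
      rw [hf, linC_apply, zero_mul, add_zero]
    have j := HomK_joined_rev (k := 0) P Q (fun s => hi1.isHomeo) (fun s => by
      have := (hrh η⁻¹ (inv_ne_zero hη0)).comp (hEH s)
      exact this) (fun s x => by
      change f (η⁻¹ * E (s, x)) = η⁻¹ * E (s, f x)
      rw [hf, hf, hEθ]
      ring) (by rw [hPs, e1]; exact h)
    rw [hPs, hPs, e0, e1] at j
    have j2 := j.target_mem
    rw [ef] at j2
    have j3 := lin_joined j2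
    rw [← ef] at j3
    exact j.trans j3

end Pool.Agent.Helper984_CP
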