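import Pool.Agent.Helper984_CP.AffC
import Pool.Agent.Helper984_CP.AccC

/-!
# Pairs with a primitive element conjugate to a complex affine map, second part
-/

set_option autoImplicit false

open Set Filter Topology Complex ComplexConjugate

noncomputable section

namespace Pool.Agent.Helper984_CP

/-- linear contractions are conjugate to `z ↦ z / 2` -/
theorem contr_conj {l : ℂ} (h0 : l ≠ 0) (h1 : ‖l‖ < 1) {F : ℂ ≃ₜ ℂ} (hF : ∀ z, F z = l * z) :
    ConjContr F := by
  have hlog2 : 0 < Real.log 2 := Real.log_pos (by norm_num)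
  have hl2 : ((Real.log 2 : ℝ) : ℂ) ≠ 0 := by exact_mod_cast hlog2.ne'
  obtain ⟨c, hc⟩ : ∃ c : ℂ, c = -1 - Complex.log l / (Real.log 2 : ℝ) := ⟨_, rfl⟩
  have hcre : 0 < 1 + c.re := by
    rw [hc, Complex.sub_re, Complex.neg_re, Complex.one_re, Complex.div_ofReal_re, Complex.log_re]
    have h2 : Real.log ‖l‖ < 0 := Real.log_neg (norm_pos_iff.2 h0) h1
    have h3 : Real.log ‖l‖ / Real.log 2 < 0 := div_neg_of_neg_of_pos h2 hlog2
    linarith
  have hcC : ((1 + c.re : ℝ) : ℂ) ≠ 0 := by exact_mod_cast hcre.ne'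
  let M : C(ℂ, ℂ) := ⟨fun w => w + c * (w.re : ℝ), by fun_prop⟩
  have hMe : ∀ w, M w = w + c * (w.re : ℝ) := fun _ => rfl
  have hMre : ∀ w, (M w).re = (1 + c.re) * w.re := by
    intro w
    rw [hMe, Complex.add_re, Complex.re_mul_ofReal]
    ring
  let Mi : C(ℂ, ℂ) := ⟨fun v => v - c * ((v.re / (1 + c.re) : ℝ) : ℂ), by fun_prop⟩
  have hMie : ∀ w, Mi w = w - c * ((w.re / (1 + c.re) : ℝ) : ℂ) := fun _ => rfl
  have hMire : ∀ v, (Mi v).re = v.re / (1 + c.re) := by
    intro v
    rw [hMie, Complex.sub_re, Complex.re_mul_ofReal]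
    field_simp
    ring
  have hM : IsHomeo M := by
    refine ⟨Mi, fun x => ?_, fun x => ?_⟩
    · rw [hMe, hMire, hMie]
      ring
    · rw [hMie, hMre, mul_div_cancel_left₀ _ hcre.ne', hMe]
      ring
  have hp : ∀ w, M (w + tpi) = M w + tpi := by
    intro w
    rw [hMe, hMe, Complex.add_re, tpi_re, add_zero]
    ring
  have hl : LeftP M := by
    intro R
    refine ⟨R / (1 + c.re), fun w hw => ?_⟩
    rw [hMre]
    rw [le_div_iff₀ hcre] at hw
    linarith
  obtain ⟨f, ⟨fi, f1, f2⟩, hf0, hfM⟩ := expC_homeo hM hp hl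
  refine ⟨⟨⟨f, fi, f2, f1⟩, f.continuous, fi.continuous⟩, fun z => ?_⟩
  change F (f z) = f (z / 2)
  rw [hF]
  by_cases hz : z = 0
  · rw [hz, zero_div, hf0, mul_zero]
  · obtain ⟨w, rfl⟩ : ∃ w, cexp w = z := ⟨Complex.log z, Complex.exp_log hz⟩
    have e1 : cexp w / 2 = cexp (w - (Real.log 2 : ℝ)) := by
      rw [Complex.exp_sub, ← Complex.ofReal_exp, Real.exp_log (by norm_num)]
      norm_num
    have e2 : cexp (Complex.log l) = l := Complex.exp_log h0
    rw [e1, ← hfM.2, ← hfM.2, ← e2, ← Complex.exp_add]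
    congr 1
    have e3 : Complex.log l = -(1 + c) * (Real.log 2 : ℝ) := by
      rw [hc]
      field_simp
      ring
    rw [hMe, hMe, Complex.sub_re, Complex.ofReal_re, e3]
    push_cast
    ring

/-- the case of a complex affine first element -/
theorem affine_case {f g : C(ℂ, ℂ)} (h : (f, g) ∈ HomK 0) {l m : ℂ} (hl : l ≠ 0)
    (hf : ∀ z, f z = l * z + m) :
    JoinedIn (HomK 0) (f, g) (ContinuousMap.id ℂ, ContinuousMap.id ℂ) := by
  by_cases hl1 : l = 1
  · by_cases hm : m = 0
    · have e : f = ContinuousMap.id ℂ := by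
        ext z
        rw [hf, hl1, hm, one_mul, add_zero]
        rfl
      rw [e] at h ⊢
      exact id_case h
    · exact transl_case' h hm fun z => by rw [hf, hl1, one_mul]
  · have h1l : 1 - l ≠ 0 := sub_ne_zero.2 (Ne.symm hl1)
    obtain ⟨c, hc⟩ : ∃ c : ℂ, c = m / (1 - l) := ⟨_, rfl⟩
    refine conj_pair h (h := ⟨fun z => 1 * z + -c, by fun_prop⟩) (isoId_affine one_ne_zero)
      (hi := ⟨fun z => z + c, by fun_prop⟩) (fun x => ?_) (fun g' hg' => ?_)
    · change 1 * x + -c + c = x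
      ring
    · obtain ⟨f', hf'⟩ : ∃ f' : C(ℂ, ℂ), f' = (⟨fun z => 1 * z + -c, by fun_prop⟩ : C(ℂ, ℂ)).comp
          (f.comp ⟨fun z => z + c, by fun_prop⟩) := ⟨_, rfl⟩
      rw [← hf'] at hg' ⊢
      have hf'e : ∀ z, f' z = l * z := by
        intro z
        rw [hf']
        change 1 * f (z + c) + -c = l * z
        rw [hf, hc]
        field_simp
        ring
      have hg'0 : g' 0 = 0 := by
        have h1 := (mem_HomK_iff.1 hg').1 0
        simp only at h1
        rw [hf'e, hf'e, mul_zero] at h1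
        have h2 : (1 - l) * g' 0 = 0 := by linear_combination -h1
        rcases mul_eq_zero.1 h2 with h3 | h3
        · exact (h1l h3).elim
        · exact h3
      rcases lt_trichotomy ‖l‖ 1 with hlt | heq | hgt
      · obtain ⟨F, G, hFG⟩ := exists_homeos ⟨(f', g'), hg'⟩
        simp only at hFG
        have hFe : ∀ z, F z = l * z := fun z => by
          rw [← hf'e]
          exact (congrArg (fun p : C(ℂ, ℂ) × C(ℂ, ℂ) => p.1 z) hFG).symm
        rw [hFG] at hg' ⊢
        refine JoinedIn.trans (contr_joined hg' (a := 1) (b := 0) isCoprime_one_left ?_) std_zero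
        rw [zpow_one, zpow_zero, mul_one]
        exact contr_conj hl hlt hFe
      · refine rot_case hg' (θ := Complex.arg l) (fun z => ?_) hg'0
        rw [hf'e]
        congr 1
        have := Complex.norm_mul_exp_arg_mul_I l
        rw [heq, Complex.ofReal_one, one_mul] at this
        exact this.symm
      · obtain ⟨F, G, hFG⟩ := exists_homeos ⟨(f', g'), hg'⟩
        simp only at hFG
        have hFe : ∀ z, F z = l * z := fun z => by
          rw [← hf'e]
          exact (congrArg (fun p : C(ℂ, ℂ) × C(ℂ, ℂ) => p.1 z) hFG).symm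
        rw [hFG] at hg' ⊢
        refine JoinedIn.trans (contr_joined hg' (a := -1) (b := 0) ⟨-1, 0, by ring⟩ ?_) std_zero
        rw [zpow_neg_one, zpow_zero, mul_one]
        refine contr_conj (inv_ne_zero hl) (by
          rw [norm_inv]
          exact inv_lt_one_of_one_lt₀ hgt) fun z => ?_
        apply F.injective
        rw [apply_inv_self', hFe, mul_inv_cancel_left₀ hl]

/-- a homeomorphism topologically conjugate to a complex affine map -/
def ConjAff (F : ℂ ≃ₜ ℂ) : Prop :=
  ∃ (H : ℂ ≃ₜ ℂ) (l m : ℂ), l ≠ 0 ∧ ∀ z, F (H z) = H (l * z + m)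

theorem aff_base {F G : ℂ ≃ₜ ℂ} (h : PK 0 F G) (hF : ConjAff F) : JK 0 F G 1 1 := by
  obtain ⟨H, l, m, hI, hl, hH⟩ : ∃ (H : ℂ ≃ₜ ℂ) (l m : ℂ), IsoId (toC H) ∧ l ≠ 0 ∧
      ∀ z, F (H z) = H (l * z + m) := by
    obtain ⟨H, l, m, hl, hH⟩ := hF
    rcases kneser (isHomeo_toC H) with h1 | h1
    · exact ⟨H, l, m, h1, hl, hH⟩
    · let J : ℂ ≃ₜ ℂ := ⟨⟨fun z => conj z, fun z => conj z, fun z => Complex.conj_conj z,
        fun z => Complex.conj_conj z⟩, Complex.continuous_conj, Complex.continuous_conj⟩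
      refine ⟨H * J, conj l, conj m, h1, fun h => hl ((map_eq_zero _).1 h), fun z => ?_⟩
      change F (H (conj z)) = H (conj (conj l * z + conj m))
      rw [hH, map_add (starRingEnd ℂ), map_mul (starRingEnd ℂ), Complex.conj_conj, Complex.conj_conj]
  have hHi : IsoId (toC H⁻¹) := hI.inv (apply_inv_self' H)
  refine conj_pair h hHi (hi := toC H) (apply_inv_self' H) (fun g' hg' => ?_)
  refine affine_case hg' hl (m := m) fun z => ?_
  change (H⁻¹ : ℂ ≃ₜ ℂ) (F (H z)) = _
  rw [hH, inv_apply_self']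

theorem aff_joined {F G : ℂ ≃ₜ ℂ} (h : PK 0 F G) {a b : ℤ} (hab : IsCoprime a b)
    (hc : ConjAff (F ^ a * G ^ b)) : JK 0 F G 1 1 := by
  refine primitive_induction (X := ConjAff) (fun _ _ h1 h2 => aff_base h1 h2) ?_ ?_ a b hab F G h hc
  · rw [one_mul]
    exact JoinedIn.refl id_mem
  · rw [inv_one]
    exact JoinedIn.refl id_mem

end Pool.Agent.Helper984_CP
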