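import Pool.Agent.Helper984_CP.Lin

/-!
# Pairs which are linear to first order at a common fixed point or at infinity
-/

set_option autoImplicit false

open Set Filter Topology Complex ComplexConjugate

noncomputable section

namespace Pool.Agent.Helper984_CP

theorem IsHomeo.scale {f : C(ℂ, ℂ)} (hf : IsHomeo f) {c : ℂ} (hc : c ≠ 0) {g : C(ℂ, ℂ)}
    (hg : ∀ z, g z = f (c * z) / c) : IsHomeo g := by
  obtain ⟨fi, h1, h2⟩ := hf
  refine ⟨⟨fun z => fi (c * z) / c, by fun_prop⟩, fun z => ?_, fun z => ?_⟩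
  · change g (fi (c * z) / c) = z
    rw [hg, mul_div_cancel₀ _ hc, h1, mul_div_cancel_left₀ _ hc]
  · change fi (c * g z) / c = z
    rw [hg, mul_div_cancel₀ _ hc, h2, mul_div_cancel_left₀ _ hc]

theorem scal_joined {k : ℤ} {f g A B : C(ℂ, ℂ)} (h : (f, g) ∈ HomK k) (hA : IsHomeo A)
    (hB : IsHomeo B) (P Q : C(unitInterval × ℂ, ℂ)) (hP0 : ∀ z, P (0, z) = A z)
    (hQ0 : ∀ z, Q (0, z) = B z) (hs : ∀ s : unitInterval, s ≠ 0 → ∃ c : ℂ, c ≠ 0 ∧
      (∀ z, P (s, z) = f (c * z) / c) ∧ ∀ z, Q (s, z) = g (c * z) / c)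
    (hP1 : ∀ z, P (1, z) = f z) (hQ1 : ∀ z, Q (1, z) = g z) :
    JoinedIn (HomK k) (f, g) (A, B) := by
  obtain ⟨hc, hi1, hi2, -⟩ := mem_HomK_iff.1 h
  simp only at hc hi1 hi2
  have e0 : slice P 0 = A := by ext z; exact hP0 z
  have e1 : slice P 1 = f := by ext z; exact hP1 z
  have e0' : slice Q 0 = B := by ext z; exact hQ0 z
  have e1' : slice Q 1 = g := by ext z; exact hQ1 z
  have hcs : ∀ s : unitInterval, s ≠ 0 → ∀ x, P (s, Q (s, x)) = Q (s, P (s, x)) := by
    intro s hs0 x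
    obtain ⟨c, hc0, h1, h2⟩ := hs s hs0
    rw [h1, h2, h2, h1, mul_div_cancel₀ _ hc0, mul_div_cancel₀ _ hc0, hc]
  have hc0 : ∀ x, P (0, Q (0, x)) = Q (0, P (0, x)) := by
    intro x
    let u : ℕ → unitInterval := fun n => ⟨1 / ((n : ℝ) + 1), by positivity, by
      rw [div_le_one (by positivity)]
      have : (0 : ℝ) ≤ n := Nat.cast_nonneg n
      linarith⟩
    have hu : Tendsto u atTop (𝓝 0) := by
      rw [tendsto_subtype_rng]
      exact tendsto_one_div_add_atTop_nhds_zero_nat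
    have hu0 : ∀ n, u n ≠ 0 := fun n h => by
      have h1 := congrArg Subtype.val h
      have h2 : (0 : ℝ) < 1 / ((n : ℝ) + 1) := by positivity
      exact h2.ne' h1
    have t1 : Tendsto (fun n => P (u n, Q (u n, x))) atTop (𝓝 (P (0, Q (0, x)))) := by
      have : Continuous fun s : unitInterval => P (s, Q (s, x)) := by fun_prop
      exact (this.tendsto 0).comp hu
    have t2 : Tendsto (fun n => Q (u n, P (u n, x))) atTop (𝓝 (Q (0, P (0, x)))) := by
      have : Continuous fun s : unitInterval => Q (s, P (s, x)) := by fun_prop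
      exact (this.tendsto 0).comp hu
    refine tendsto_nhds_unique t1 (t2.congr fun n => ?_)
    exact (hcs _ (hu0 n) x).symm
  have j := HomK_joined_rev (k := k) P Q (fun s => by
      by_cases h0 : s = 0
      · rw [h0, e0]; exact hA
      · obtain ⟨c, hc0, h1, -⟩ := hs s h0
        exact hi1.isHomeo.scale hc0 h1) (fun s => by
      by_cases h0 : s = 0
      · rw [h0, e0']; exact hB
      · obtain ⟨c, hc0, -, h2⟩ := hs s h0
        exact hi2.isHomeo.scale hc0 h2) (fun s x => by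
      by_cases h0 : s = 0
      · rw [h0]; exact hc0 x
      · exact hcs s h0 x) (by rw [e1, e1']; exact h)
  rwa [e0, e0', e1, e1'] at j

theorem norm_linC_le (α β z : ℂ) : ‖linC α β z‖ ≤ (‖α‖ + ‖β‖) * ‖z‖ := by
  rw [linC_apply]
  refine (norm_add_le _ _).trans ?_
  rw [norm_mul, norm_mul, Complex.norm_conj]
  linarith

/-- the blow up at the origin -/
theorem exists_zoom {f : C(ℂ, ℂ)} {α β : ℂ}
    (hf : ∀ ε > 0, ∃ d > 0, ∀ z : ℂ, ‖z‖ < d → ‖f z - linC α β z‖ ≤ ε * ‖z‖) :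
    ∃ P : C(unitInterval × ℂ, ℂ), (∀ z, P (0, z) = linC α β z) ∧
      ∀ s : unitInterval, s ≠ 0 → ∀ z, P (s, z) = f (((s : ℝ) : ℂ) * z) / ((s : ℝ) : ℂ) := by
  classical
  have hcont : Continuous fun q : unitInterval × ℂ =>
      if (q.1 : ℝ) = 0 then linC α β q.2 else f ((q.1 : ℝ) * q.2) / (q.1 : ℝ) := by
    rw [continuous_iff_continuousAt]
    rintro ⟨t0, z0⟩
    by_cases ht0 : (t0 : ℝ) = 0
    · rw [ContinuousAt, Metric.tendsto_nhds]
      intro ε hε
      simp only [if_pos ht0]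
      obtain ⟨d, hd, hfd⟩ := hf (ε / (2 * (‖z0‖ + 1))) (by positivity)
      have c1 : Continuous fun q : unitInterval × ℂ => ‖((q.1 : ℝ) : ℂ) * q.2‖ := by fun_prop
      have c2 : Continuous fun q : unitInterval × ℂ => ‖q.2‖ := by fun_prop
      have c3 : Continuous fun q : unitInterval × ℂ => linC α β q.2 := by fun_prop
      have t1 := c1.tendsto (t0, z0)
      have t2 := c2.tendsto (t0, z0)
      have t3 := c3.tendsto (t0, z0)
      simp only [ht0, Complex.ofReal_zero, zero_mul, norm_zero] at t1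
      filter_upwards [t1.eventually (gt_mem_nhds hd),
        t2.eventually (gt_mem_nhds (lt_add_one ‖z0‖)), (Metric.tendsto_nhds.1 t3) (ε / 2)
        (by positivity)] with q h1 h2 h3
      split_ifs with hq0
      · exact h3.trans (by linarith)
      · have hq : ((q.1 : ℝ) : ℂ) ≠ 0 := by exact_mod_cast hq0
        have h4 := hfd _ h1
        have e1 : linC α β (((q.1 : ℝ) : ℂ) * q.2) = ((q.1 : ℝ) : ℂ) * linC α β q.2 := by
          have := linC_smul α β (q.1 : ℝ) 0 q.2 0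
          simpa using this
        have e2 : f (((q.1 : ℝ) : ℂ) * q.2) / ((q.1 : ℝ) : ℂ) - linC α β q.2 =
            (f (((q.1 : ℝ) : ℂ) * q.2) - linC α β (((q.1 : ℝ) : ℂ) * q.2)) / ((q.1 : ℝ) : ℂ) := by
          rw [e1]
          field_simp
        have hqn : 0 < ‖((q.1 : ℝ) : ℂ)‖ := norm_pos_iff.2 hq
        have h5 : ‖f (((q.1 : ℝ) : ℂ) * q.2) / ((q.1 : ℝ) : ℂ) - linC α β q.2‖ < ε / 2 := by
          rw [e2, norm_div, div_lt_iff₀ hqn]
          refine h4.trans_lt ?_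
          rw [norm_mul]
          have h6 : ε / (2 * (‖z0‖ + 1)) * ‖q.2‖ < ε / 2 := by
            have h7 : ‖q.2‖ / (‖z0‖ + 1) < 1 := (div_lt_one (by positivity)).2 h2
            have h8 : ε / (2 * (‖z0‖ + 1)) * ‖q.2‖ = ε / 2 * (‖q.2‖ / (‖z0‖ + 1)) := by
              field_simp
            rw [h8]
            nlinarith
          calc ε / (2 * (‖z0‖ + 1)) * (‖((q.1 : ℝ) : ℂ)‖ * ‖q.2‖)
              = ε / (2 * (‖z0‖ + 1)) * ‖q.2‖ * ‖((q.1 : ℝ) : ℂ)‖ := by ring
            _ < ε / 2 * ‖((q.1 : ℝ) : ℂ)‖ := mul_lt_mul_of_pos_right h6 hqn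
        have h9 := dist_triangle (f (((q.1 : ℝ) : ℂ) * q.2) / ((q.1 : ℝ) : ℂ)) (linC α β q.2)
          (linC α β z0)
        rw [dist_eq_norm] at h9
        rw [dist_eq_norm]
        rw [dist_eq_norm, dist_eq_norm] at h9
        rw [dist_eq_norm] at h3
        linarith
    · have hev : (fun q : unitInterval × ℂ =>
          if (q.1 : ℝ) = 0 then linC α β q.2 else f ((q.1 : ℝ) * q.2) / (q.1 : ℝ)) =ᶠ[𝓝 (t0, z0)]
          fun q => f ((q.1 : ℝ) * q.2) / (q.1 : ℝ) := by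
        have hc : Continuous fun q : unitInterval × ℂ => (q.1 : ℝ) := by fun_prop
        have h3 := hc.continuousAt (x := (t0, z0)) |>.eventually_ne ht0
        filter_upwards [h3] with q hq
        rw [if_neg hq]
      refine ContinuousAt.congr ?_ hev.symm
      have h4 : (((t0 : unitInterval) : ℝ) : ℂ) ≠ 0 := by exact_mod_cast ht0
      apply ContinuousAt.div
      · fun_prop
      · fun_prop
      · exact h4
  refine ⟨⟨_, hcont⟩, fun z => ?_, fun s hs z => ?_⟩
  · simp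
  · have : (s : ℝ) ≠ 0 := fun h => hs (Subtype.ext h)
    change ite _ _ _ = _
    rw [if_neg this]

/-- pairs which are differentiable at the origin -/
theorem diff_joined {k : ℤ} {f g : C(ℂ, ℂ)} (h : (f, g) ∈ HomK k) {α β γ δ : ℂ}
    (hne : normSq α ≠ normSq β) (hne' : normSq γ ≠ normSq δ)
    (hf : ∀ ε > 0, ∃ d > 0, ∀ z : ℂ, ‖z‖ < d → ‖f z - linC α β z‖ ≤ ε * ‖z‖)
    (hg : ∀ ε > 0, ∃ d > 0, ∀ z : ℂ, ‖z‖ < d → ‖g z - linC γ δ z‖ ≤ ε * ‖z‖) :
    JoinedIn (HomK k) (f, g) (ContinuousMap.id ℂ, ContinuousMap.id ℂ) := by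
  obtain ⟨P, hP0, hPs⟩ := exists_zoom hf
  obtain ⟨Q, hQ0, hQs⟩ := exists_zoom hg
  have j := scal_joined h (linC_homeo hne) (linC_homeo hne') P Q hP0 hQ0 (fun s hs =>
    ⟨((s : ℝ) : ℂ), by
      have : (s : ℝ) ≠ 0 := fun h => hs (Subtype.ext h)
      exact_mod_cast this, hPs s hs, hQs s hs⟩) (fun z => by
      rw [hPs 1 one_ne_zero]
      simp) (fun z => by
      rw [hQs 1 one_ne_zero]
      simp)
  exact j.trans (lin_joined j.target_mem)

/-- the blow down from infinity -/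
theorem exists_zoom_out {f : C(ℂ, ℂ)} {α β : ℂ}
    (hf : ∀ ε > 0, ∃ C : ℝ, ∀ z : ℂ, ‖f z - linC α β z‖ ≤ ε * ‖z‖ + C) :
    ∃ P : C(unitInterval × ℂ, ℂ), (∀ z, P (0, z) = linC α β z) ∧
      ∀ s : unitInterval, s ≠ 0 → ∀ z, P (s, z) =
        f ((((s : ℝ)⁻¹ : ℝ) : ℂ) * z) / (((s : ℝ)⁻¹ : ℝ) : ℂ) := by
  classical
  have hcont : Continuous fun q : unitInterval × ℂ =>
      if (q.1 : ℝ) = 0 then linC α β q.2 else
        f ((((q.1 : ℝ)⁻¹ : ℝ) : ℂ) * q.2) / (((q.1 : ℝ)⁻¹ : ℝ) : ℂ) := by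
    rw [continuous_iff_continuousAt]
    rintro ⟨t0, z0⟩
    by_cases ht0 : (t0 : ℝ) = 0
    · rw [ContinuousAt, Metric.tendsto_nhds]
      intro ε hε
      simp only [if_pos ht0]
      obtain ⟨C, hC⟩ := hf (ε / (4 * (‖z0‖ + 1))) (by positivity)
      have hC0 : 0 ≤ C := by
        have := (norm_nonneg _).trans (hC 0)
        simpa using this
      have c1 : Continuous fun q : unitInterval × ℂ => (q.1 : ℝ) * C := by fun_prop
      have c2 : Continuous fun q : unitInterval × ℂ => ‖q.2‖ := by fun_prop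
      have c3 : Continuous fun q : unitInterval × ℂ => linC α β q.2 := by fun_prop
      have t1 := c1.tendsto (t0, z0)
      have t2 := c2.tendsto (t0, z0)
      have t3 := c3.tendsto (t0, z0)
      simp only [ht0, zero_mul] at t1
      filter_upwards [t1.eventually (gt_mem_nhds (show (0 : ℝ) < ε / 4 by positivity)),
        t2.eventually (gt_mem_nhds (lt_add_one ‖z0‖)), (Metric.tendsto_nhds.1 t3) (ε / 2)
        (by positivity)] with q h1 h2 h3
      split_ifs with hq0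
      · exact h3.trans (by linarith)
      · have hqp : 0 < (q.1 : ℝ) := lt_of_le_of_ne q.1.2.1 (Ne.symm hq0)
        obtain ⟨c, hc⟩ : ∃ c : ℝ, c = (q.1 : ℝ)⁻¹ := ⟨_, rfl⟩
        have hcp : 0 < c := by rw [hc]; positivity
        have hcC : ((c : ℝ) : ℂ) ≠ 0 := by exact_mod_cast hcp.ne'
        rw [← hc]
        have h4 := hC ((c : ℂ) * q.2)
        have e1 : linC α β ((c : ℂ) * q.2) = (c : ℂ) * linC α β q.2 := by
          have := linC_smul α β c 0 q.2 0
          simpa using this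
        have e2 : f ((c : ℂ) * q.2) / (c : ℂ) - linC α β q.2 =
            (f ((c : ℂ) * q.2) - linC α β ((c : ℂ) * q.2)) / (c : ℂ) := by
          rw [e1]
          field_simp
        have hcn : ‖(c : ℂ)‖ = c := by
          rw [Complex.norm_real, Real.norm_of_nonneg hcp.le]
        have h6 : ε / (4 * (‖z0‖ + 1)) * ‖q.2‖ < ε / 4 := by
          have h7 : ‖q.2‖ / (‖z0‖ + 1) < 1 := (div_lt_one (by positivity)).2 h2
          have h8 : ε / (4 * (‖z0‖ + 1)) * ‖q.2‖ = ε / 4 * (‖q.2‖ / (‖z0‖ + 1)) := by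
            field_simp
          rw [h8]
          nlinarith
        have h5 : ‖f ((c : ℂ) * q.2) / (c : ℂ) - linC α β q.2‖ < ε / 2 := by
          rw [e2, norm_div, hcn, div_lt_iff₀ hcp]
          refine h4.trans_lt ?_
          rw [norm_mul, hcn]
          have h10 : C < ε / 4 * c := by
            have : (q.1 : ℝ) * c = 1 := by rw [hc]; exact mul_inv_cancel₀ hq0
            nlinarith
          nlinarith
        have h9 := dist_triangle (f ((c : ℂ) * q.2) / (c : ℂ)) (linC α β q.2) (linC α β z0)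
        rw [dist_eq_norm, dist_eq_norm, dist_eq_norm] at h9
        rw [dist_eq_norm] at h3 ⊢
        linarith
    · have hev : (fun q : unitInterval × ℂ =>
          if (q.1 : ℝ) = 0 then linC α β q.2 else
            f ((((q.1 : ℝ)⁻¹ : ℝ) : ℂ) * q.2) / (((q.1 : ℝ)⁻¹ : ℝ) : ℂ)) =ᶠ[𝓝 (t0, z0)]
          fun q => f ((((q.1 : ℝ)⁻¹ : ℝ) : ℂ) * q.2) / (((q.1 : ℝ)⁻¹ : ℝ) : ℂ) := by
        have hc : Continuous fun q : unitInterval × ℂ => (q.1 : ℝ) := by fun_prop
        have h3 := hc.continuousAt (x := (t0, z0)) |>.eventually_ne ht0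
        filter_upwards [h3] with q hq
        rw [if_neg hq]
      refine ContinuousAt.congr ?_ hev.symm
      have h4 : ((((t0 : unitInterval) : ℝ)⁻¹ : ℝ) : ℂ) ≠ 0 := by
        exact_mod_cast inv_ne_zero ht0
      have h5 : ContinuousAt (fun q : unitInterval × ℂ => ((((q.1 : ℝ)⁻¹ : ℝ) : ℂ))) (t0, z0) := by
        refine Complex.continuous_ofReal.continuousAt.comp ?_
        exact ContinuousAt.inv₀ (by fun_prop) ht0
      exact ContinuousAt.div (f.continuous.continuousAt.comp (h5.mul continuousAt_snd)) h5 h4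
  refine ⟨⟨_, hcont⟩, fun z => ?_, fun s hs z => ?_⟩
  · simp
  · have : (s : ℝ) ≠ 0 := fun h => hs (Subtype.ext h)
    change ite _ _ _ = _
    rw [if_neg this]

/-- pairs which are asymptotically linear at infinity -/
theorem asymp_joined {k : ℤ} {f g : C(ℂ, ℂ)} (h : (f, g) ∈ HomK k) {α β γ δ : ℂ}
    (hne : normSq α ≠ normSq β) (hne' : normSq γ ≠ normSq δ)
    (hf : ∀ ε > 0, ∃ C : ℝ, ∀ z : ℂ, ‖f z - linC α β z‖ ≤ ε * ‖z‖ + C)
    (hg : ∀ ε > 0, ∃ C : ℝ, ∀ z : ℂ, ‖g z - linC γ δ z‖ ≤ ε * ‖z‖ + C) :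
    JoinedIn (HomK k) (f, g) (ContinuousMap.id ℂ, ContinuousMap.id ℂ) := by
  obtain ⟨P, hP0, hPs⟩ := exists_zoom_out hf
  obtain ⟨Q, hQ0, hQs⟩ := exists_zoom_out hg
  have j := scal_joined h (linC_homeo hne) (linC_homeo hne') P Q hP0 hQ0 (fun s hs =>
    ⟨(((s : ℝ)⁻¹ : ℝ) : ℂ), by
      have : (s : ℝ) ≠ 0 := fun h => hs (Subtype.ext h)
      exact_mod_cast inv_ne_zero this, hPs s hs, hQs s hs⟩) (fun z => by
      rw [hPs 1 one_ne_zero]
      simp) (fun z => by
      rw [hQs 1 one_ne_zero]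
      simp)
  exact j.trans (lin_joined j.target_mem)

end Pool.Agent.Helper984_CP
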