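import Pool.Agent.Helper984_CP.AffD
import Pool.Agent.Helper984_CP.Scal

/-!
# Elementary pairs of Euler number zero
-/

set_option autoImplicit false

open Set Filter Topology Complex ComplexConjugate

noncomputable section

namespace Pool.Agent.Helper984_CP

/-- both members are homeomorphisms, and some primitive element is complex affine -/
def ElA (q : C(ℂ, ℂ) × C(ℂ, ℂ)) : Prop :=
  ∃ F G : ℂ ≃ₜ ℂ, (∀ z, F z = q.1 z) ∧ (∀ z, G z = q.2 z) ∧
    ∃ (a b : ℤ) (l m : ℂ), IsCoprime a b ∧ l ≠ 0 ∧ ∀ z, (F ^ a * G ^ b) z = l * z + m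

/-- both members are differentiable at the origin -/
def ElB (q : C(ℂ, ℂ) × C(ℂ, ℂ)) : Prop :=
  ∃ α β γ δ : ℂ, normSq α ≠ normSq β ∧ normSq γ ≠ normSq δ ∧
    (∀ ε > 0, ∃ d > 0, ∀ z : ℂ, ‖z‖ < d → ‖q.1 z - linC α β z‖ ≤ ε * ‖z‖) ∧
    ∀ ε > 0, ∃ d > 0, ∀ z : ℂ, ‖z‖ < d → ‖q.2 z - linC γ δ z‖ ≤ ε * ‖z‖

/-- both members are asymptotically linear -/
def ElC (q : C(ℂ, ℂ) × C(ℂ, ℂ)) : Prop :=
  ∃ α β γ δ : ℂ, normSq α ≠ normSq β ∧ normSq γ ≠ normSq δ ∧
    (∀ ε > 0, ∃ C : ℝ, ∀ z : ℂ, ‖q.1 z - linC α β z‖ ≤ ε * ‖z‖ + C) ∧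
    ∀ ε > 0, ∃ C : ℝ, ∀ z : ℂ, ‖q.2 z - linC γ δ z‖ ≤ ε * ‖z‖ + C

/-- complex conjugation -/
def conjH : ℂ ≃ₜ ℂ := ⟨⟨fun z => conj z, fun z => conj z, fun z => Complex.conj_conj z,
  fun z => Complex.conj_conj z⟩, Complex.continuous_conj, Complex.continuous_conj⟩

theorem conjH_apply (z : ℂ) : conjH z = conj z := rfl

theorem norm_conj_lin (f : ℂ → ℂ) (α β z : ℂ) :
    ‖conj (f (conj z)) - linC (conj α) (conj β) z‖ = ‖f (conj z) - linC α β (conj z)‖ := by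
  have e : conj (f (conj z)) - linC (conj α) (conj β) z =
      conj (f (conj z) - linC α β (conj z)) := by
    rw [linC_apply, linC_apply]
    simp only [map_sub, map_add, map_mul, Complex.conj_conj]
  rw [e, Complex.norm_conj]

theorem ElB.conj {q q' : C(ℂ, ℂ) × C(ℂ, ℂ)} (h : ElB q) (h1 : ∀ z, q'.1 z = conj (q.1 (conj z)))
    (h2 : ∀ z, q'.2 z = conj (q.2 (conj z))) : ElB q' := by
  obtain ⟨α, β, γ, δ, n1, n2, e1, e2⟩ := h
  refine ⟨conj α, conj β, conj γ, conj δ, by rwa [normSq_conj, normSq_conj],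
    by rwa [normSq_conj, normSq_conj], fun ε hε => ?_, fun ε hε => ?_⟩
  · obtain ⟨d, hd, H⟩ := e1 ε hε
    refine ⟨d, hd, fun z hz => ?_⟩
    rw [h1, norm_conj_lin]
    have := H (conj z) (by rwa [Complex.norm_conj])
    rwa [Complex.norm_conj] at this
  · obtain ⟨d, hd, H⟩ := e2 ε hε
    refine ⟨d, hd, fun z hz => ?_⟩
    rw [h2, norm_conj_lin]
    have := H (conj z) (by rwa [Complex.norm_conj])
    rwa [Complex.norm_conj] at this

theorem ElC.conj {q q' : C(ℂ, ℂ) × C(ℂ, ℂ)} (h : ElC q) (h1 : ∀ z, q'.1 z = conj (q.1 (conj z)))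
    (h2 : ∀ z, q'.2 z = conj (q.2 (conj z))) : ElC q' := by
  obtain ⟨α, β, γ, δ, n1, n2, e1, e2⟩ := h
  refine ⟨conj α, conj β, conj γ, conj δ, by rwa [normSq_conj, normSq_conj],
    by rwa [normSq_conj, normSq_conj], fun ε hε => ?_, fun ε hε => ?_⟩
  · obtain ⟨C, H⟩ := e1 ε hε
    refine ⟨C, fun z => ?_⟩
    rw [h1, norm_conj_lin]
    have := H (conj z)
    rwa [Complex.norm_conj] at this
  · obtain ⟨C, H⟩ := e2 ε hε
    refine ⟨C, fun z => ?_⟩
    rw [h2, norm_conj_lin]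
    have := H (conj z)
    rwa [Complex.norm_conj] at this

/-- orientation preserving conjugacy to an elementary pair -/
theorem el_oriented {k : ℤ} {p q : C(ℂ, ℂ) × C(ℂ, ℂ)} (hp : p ∈ HomK k) {H : ℂ ≃ₜ ℂ}
    (hI : IsoId (toC H)) (h1 : ∀ z, p.1 (H z) = H (q.1 z)) (h2 : ∀ z, p.2 (H z) = H (q.2 z))
    (hq : ElB q ∨ ElC q) : JoinedIn (HomK k) p (ContinuousMap.id ℂ, ContinuousMap.id ℂ) := by
  have hHi : IsoId (toC H⁻¹) := hI.inv (apply_inv_self' H)
  have j := HomK_conj hp hHi (hi := toC H) (apply_inv_self' H)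
  have e : ((toC H⁻¹).comp (p.1.comp (toC H)), (toC H⁻¹).comp (p.2.comp (toC H))) = q := by
    apply Prod.ext
    · ext z
      change (H⁻¹ : ℂ ≃ₜ ℂ) (p.1 (H z)) = q.1 z
      rw [h1, inv_apply_self']
    · ext z
      change (H⁻¹ : ℂ ≃ₜ ℂ) (p.2 (H z)) = q.2 z
      rw [h2, inv_apply_self']
  rw [e] at j
  have hq' : (q.1, q.2) ∈ HomK k := j.target_mem
  rcases hq with ⟨α, β, γ, δ, n1, n2, e1, e2⟩ | ⟨α, β, γ, δ, n1, n2, e1, e2⟩
  · exact j.trans (diff_joined hq' n1 n2 e1 e2)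
  · exact j.trans (asymp_joined hq' n1 n2 e1 e2)

/-- conjugacy to an elementary pair -/
theorem el_joined {k : ℤ} {p q : C(ℂ, ℂ) × C(ℂ, ℂ)} (hp : p ∈ HomK k) {H : ℂ ≃ₜ ℂ}
    (h1 : ∀ z, p.1 (H z) = H (q.1 z)) (h2 : ∀ z, p.2 (H z) = H (q.2 z))
    (hq : ElB q ∨ ElC q) : JoinedIn (HomK k) p (ContinuousMap.id ℂ, ContinuousMap.id ℂ) := by
  rcases kneser (isHomeo_toC H) with h | h
  · exact el_oriented hp h h1 h2 hq
  · let q' : C(ℂ, ℂ) × C(ℂ, ℂ) := ((toC conjH).comp (q.1.comp (toC conjH)),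
      (toC conjH).comp (q.2.comp (toC conjH)))
    have e1 : ∀ z, q'.1 z = conj (q.1 (conj z)) := fun _ => rfl
    have e2 : ∀ z, q'.2 z = conj (q.2 (conj z)) := fun _ => rfl
    refine el_oriented (q := q') hp (H := H * conjH) h (fun z => ?_) (fun z => ?_) ?_
    · change p.1 (H (conj z)) = H (conj (q'.1 z))
      rw [h1, e1, Complex.conj_conj]
    · change p.2 (H (conj z)) = H (conj (q'.2 z))
      rw [h2, e2, Complex.conj_conj]
    · rcases hq with h | h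
      · exact Or.inl (h.conj e1 e2)
      · exact Or.inr (h.conj e1 e2)

theorem elA_joined {p q : C(ℂ, ℂ) × C(ℂ, ℂ)} (hp : p ∈ HomK 0) {H : ℂ ≃ₜ ℂ}
    (h1 : ∀ z, p.1 (H z) = H (q.1 z)) (h2 : ∀ z, p.2 (H z) = H (q.2 z)) (hq : ElA q) :
    JoinedIn (HomK 0) p (ContinuousMap.id ℂ, ContinuousMap.id ℂ) := by
  obtain ⟨F, G, hF, hG, a, b, l, m, hab, hl, hFG⟩ := hq
  obtain ⟨F', hF'⟩ : ∃ F' : ℂ ≃ₜ ℂ, F' = H * F * H⁻¹ := ⟨_, rfl⟩
  obtain ⟨G', hG'⟩ : ∃ G' : ℂ ≃ₜ ℂ, G' = H * G * H⁻¹ := ⟨_, rfl⟩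
  have e : p = (toC F', toC G') := by
    apply Prod.ext
    · ext z
      rw [hF']
      change p.1 z = H (F ((H⁻¹ : ℂ ≃ₜ ℂ) z))
      rw [hF, ← h1, apply_inv_self']
    · ext z
      rw [hG']
      change p.2 z = H (G ((H⁻¹ : ℂ ≃ₜ ℂ) z))
      rw [hG, ← h2, apply_inv_self']
  rw [e] at hp ⊢
  have key := aff_joined (F := F') (G := G') hp hab ⟨H, l, m, hl, fun z => by
    rw [hF', hG', conj_zpow, conj_zpow]
    have e3 : H * F ^ a * H⁻¹ * (H * G ^ b * H⁻¹) = H * (F ^ a * G ^ b) * H⁻¹ := by group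
    rw [e3]
    change H ((F ^ a * G ^ b) ((H⁻¹ : ℂ ≃ₜ ℂ) (H z))) = _
    rw [inv_apply_self', hFG]⟩
  exact key

/-- a real linear isomorphism in complex coordinates -/
theorem exists_linC (A : ℂ ≃L[ℝ] ℂ) : ∃ α β : ℂ, normSq α ≠ normSq β ∧ ∀ z, A z = linC α β z := by
  have hA : ∀ z, A z = linC ((A 1 - I * A I) / 2) ((A 1 + I * A I) / 2) z := by
    intro z
    have e1 : A z = z.re * A 1 + z.im * A I := by
      have e2 : z = z.re • (1 : ℂ) + z.im • I := by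
        rw [Complex.real_smul, Complex.real_smul, mul_one]
        exact (Complex.re_add_im z).symm
      conv_lhs => rw [e2]
      rw [map_add, map_smul, map_smul, Complex.real_smul, Complex.real_smul]
    rw [e1, linC_apply]
    have e3 : conj z = z.re - z.im * I := by
      apply Complex.ext <;> simp
    have e4 : z = z.re + z.im * I := (Complex.re_add_im z).symm
    rw [e3]
    conv_rhs => rw [e4]
    simp only [Complex.add_re, Complex.ofReal_re, Complex.mul_re, Complex.I_re, mul_zero,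
      Complex.ofReal_im, Complex.I_im, mul_one, sub_self, add_zero, Complex.add_im,
      Complex.mul_im, zero_add]
    linear_combination ((z.im : ℂ) * A I) * Complex.I_sq
  refine ⟨_, _, fun hn => ?_, hA⟩
  obtain ⟨α, hα⟩ : ∃ α, α = (A 1 - I * A I) / 2 := ⟨_, rfl⟩
  obtain ⟨β, hβ⟩ : ∃ β, β = (A 1 + I * A I) / 2 := ⟨_, rfl⟩
  rw [← hα, ← hβ] at hn hA
  have hn' : α * conj α = β * conj β := by
    rw [Complex.mul_conj, Complex.mul_conj, hn]
  have key : ∀ z, α * z + β * conj z = 0 → z = 0 := by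
    intro z hz
    have e1 : A z = A 0 := by
      rw [hA, linC_apply, hz, map_zero]
    exact A.injective e1
  by_cases h : conj α = β
  · have e1 := key (I * conj α) (by
      rw [map_mul, Complex.conj_I, Complex.conj_conj, ← h]
      ring)
    have e2 : α = 0 := by
      rcases mul_eq_zero.1 e1 with h1 | h1
      · exact (Complex.I_ne_zero h1).elim
      · exact (map_eq_zero _).1 h1
    have e3 := key 1 (by rw [← h, e2, map_zero]; ring)
    exact one_ne_zero e3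
  · have e1 := key (conj α - β) (by
      rw [map_sub, Complex.conj_conj]
      linear_combination hn')
    exact h (sub_eq_zero.1 e1)

end Pool.Agent.Helper984_CP
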