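import Pool.Agent.Helper984_CP.Lat

/-!
# Tools for the annulus step
-/

set_option autoImplicit false

open Set Filter Topology Complex ComplexConjugate

noncomputable section

namespace Pool.Agent.Helper984_CP

/-- a continuous bijection with bounded displacement is a homeomorphism -/
theorem homeo_of_bdd {f : C(ℂ, ℂ)} (hf : Function.Bijective f) {B : ℝ}
    (hB : ∀ z, ‖f z - z‖ ≤ B) : IsHomeo f := by
  have hprop : IsProperMap f := by
    rw [isProperMap_iff_tendsto_cocompact]
    refine ⟨f.continuous, ?_⟩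
    rw [← Metric.cobounded_eq_cocompact, ← tendsto_norm_atTop_iff_cobounded]
    have h1 : Tendsto (fun z : ℂ => ‖z‖ + (-B)) (Bornology.cobounded ℂ) atTop :=
      tendsto_atTop_add_const_right _ _ tendsto_norm_cobounded_atTop
    refine tendsto_atTop_mono (fun z => ?_) h1
    have h2 := norm_sub_norm_le z (f z)
    rw [norm_sub_rev] at h2
    have := hB z
    linarith
  let e := (Equiv.ofBijective f hf).toHomeomorphOfContinuousClosed f.continuous hprop.isClosedMap
  exact ⟨⟨e.symm, e.symm.continuous⟩, fun x => e.apply_symm_apply x, fun x => e.symm_apply_apply x⟩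

/-- existence of a logarithmic lift -/
theorem exists_log_lift {A : C(ℂ, ℂ)} (hA : Function.Injective A) (h0 : A 0 = 0) :
    ∃ (M : C(ℂ, ℂ)) (d : ℤ), (∀ w, cexp (M w) = A (cexp w)) ∧ ∀ w, M (w + tpi) = M w + d * tpi := by
  have hne : ∀ w, A (cexp w) ≠ 0 := fun w h =>
    Complex.exp_ne_zero w (hA (h.trans h0.symm))
  let H : C(unitInterval × ℂ, ℂ) := ⟨fun q => A (cexp ((q.1 : ℝ) * q.2)) / A (cexp 0), by
    apply Continuous.div_const
    fun_prop⟩
  obtain ⟨L, hL0, hL⟩ := exists_log H (fun q => div_ne_zero (hne _) (hne _)) (fun a => by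
    change A (cexp (((0 : unitInterval) : ℝ) * a)) / A (cexp 0) = 1
    rw [Icc.coe_zero, Complex.ofReal_zero, zero_mul]
    exact div_self (hne 0))
  let M : C(ℂ, ℂ) := ⟨fun w => Complex.log (A (cexp 0)) + L (1, w), by fun_prop⟩
  have hM : ∀ w, cexp (M w) = A (cexp w) := by
    intro w
    change cexp (Complex.log (A (cexp 0)) + L (1, w)) = _
    rw [Complex.exp_add, Complex.exp_log (hne 0), hL]
    change A (cexp 0) * (A (cexp (((1 : unitInterval) : ℝ) * w)) / A (cexp 0)) = _
    rw [Icc.coe_one, Complex.ofReal_one, one_mul]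
    exact mul_div_cancel₀ _ (hne 0)
  let M' : C(ℂ, ℂ) := ⟨fun w => M (w + tpi), by fun_prop⟩
  obtain ⟨d, hd⟩ := LiftOf.unique (f := A) (M := M') (N := M) (fun w => by
    change cexp (M (w + tpi)) = _
    rw [hM, exp_add_tpi]) hM
  exact ⟨M, d, hM, hd⟩

/-- lifts of homeomorphisms are homeomorphisms -/
theorem lift_homeo {A : C(ℂ, ℂ)} (hA : IsHomeo A) (h0 : A 0 = 0) {M : C(ℂ, ℂ)}
    (hM : LiftOf A M) : IsHomeo M := by
  obtain ⟨Ai, h1, h2⟩ := hA
  have hi0 : Ai 0 = 0 := by rw [← h0, h2, h0]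
  obtain ⟨N, d, hN, -⟩ := exists_log_lift (Function.LeftInverse.injective h1) hi0
  obtain ⟨n, hn⟩ := LiftOf.unique (f := fun z => z) (M := N.comp M) (N := ContinuousMap.id ℂ)
    (fun w => by
      change cexp (N (M w)) = cexp w
      rw [hN, hM.2, h2]) (fun w => rfl)
  have hn' : ∀ w, N (M w) = w + n * tpi := hn
  let Mi : C(ℂ, ℂ) := ⟨fun w => N w - n * tpi, by fun_prop⟩
  have hMiM : ∀ w, Mi (M w) = w := fun w => by
    change N (M w) - n * tpi = w
    rw [hn']
    ring
  obtain ⟨n', hm⟩ := LiftOf.unique (f := fun z => z) (M := M.comp Mi) (N := ContinuousMap.id ℂ)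
    (fun w => by
      change cexp (M (N w - n * tpi)) = cexp w
      rw [hM.2, Complex.exp_sub, exp_int_tpi, div_one, hN, h1]) (fun w => rfl)
  have hm' : ∀ w, M (Mi w) = w + n' * tpi := hm
  have hz : (n' : ℂ) * tpi = 0 := by
    have h3 := hm' (M 0)
    rw [hMiM] at h3
    linear_combination (-1 : ℂ) * h3
  refine ⟨Mi, fun w => ?_, hMiM⟩
  rw [hm', hz, add_zero]

/-- continuity of a piecewise map -/
theorem piece_cont {X : Type*} [TopologicalSpace X] {s V : Set X} (hs : IsClosed s) (hV : IsOpen V)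
    (hVs : V ⊆ s) {f g : X → ℂ} (hf : Continuous f) (hg : Continuous g)
    (h : ∀ x ∈ s, x ∉ V → f x = g x) [∀ x, Decidable (x ∈ s)] :
    Continuous (s.piecewise f g) := by
  refine Continuous.piecewise (fun a ha => ?_) hf hg
  rw [frontier, hs.closure_eq] at ha
  exact h a ha.1 fun haV => ha.2 (interior_maximal hVs hV haV)

/-- doubling a homeomorphism of the closed upper half plane -/
def dblFun (g : ℂ → ℂ) (z : ℂ) : ℂ := if 0 ≤ z.im then g z else conj (g (conj z))

theorem dbl_upper {g : ℂ → ℂ} {z : ℂ} (hz : 0 ≤ z.im) : dblFun g z = g z := if_pos hz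

theorem dbl_lower {g : ℂ → ℂ} (hg : ∀ x : ℝ, g x = x) {z : ℂ} (hz : z.im ≤ 0) :
    dblFun g z = conj (g (conj z)) := by
  rcases hz.lt_or_eq with h | h
  · exact if_neg (not_le.2 h)
  · rw [dbl_upper h.ge]
    have e : z = ((z.re : ℝ) : ℂ) := Complex.ext (by simp) (by simp [h])
    rw [e, Complex.conj_ofReal, hg, Complex.conj_ofReal]

theorem continuous_dbl {g : ℂ → ℂ} (hgc : Continuous g) (hg : ∀ x : ℝ, g x = x) :
    Continuous (dblFun g) := by
  refine Continuous.if_le hgc (Complex.continuous_conj.comp (hgc.comp Complex.continuous_conj))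
    continuous_const Complex.continuous_im (fun z hz => ?_)
  have e : z = ((z.re : ℝ) : ℂ) := Complex.ext (by simp) (by simp [← hz])
  rw [e]
  simp [hg]

theorem dbl_inv {g gi : ℂ → ℂ} (hg : ∀ x : ℝ, g x = x) (hgi : ∀ x : ℝ, gi x = x)
    (h1 : ∀ z, g (gi z) = z) (hup : ∀ z : ℂ, 0 < z.im → 0 < (gi z).im) (z : ℂ) :
    dblFun g (dblFun gi z) = z := by
  have hup' : ∀ z : ℂ, 0 ≤ z.im → 0 ≤ (gi z).im := by
    intro z hz
    rcases hz.lt_or_eq with h | h
    · exact (hup z h).le
    · have e : z = ((z.re : ℝ) : ℂ) := Complex.ext (by simp) (by simp [← h])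
      rw [e, hgi]
      simp
  rcases le_total 0 z.im with h | h
  · rw [dbl_upper h, dbl_upper (hup' z h), h1]
  · rw [dbl_lower hgi h, dbl_lower hg, Complex.conj_conj, h1, Complex.conj_conj]
    rw [Complex.conj_im]
    have := hup' (conj z) (by rw [Complex.conj_im]; linarith)
    linarith

theorem dbl_conj {g : ℂ → ℂ} (hg : ∀ x : ℝ, g x = x) (z : ℂ) :
    dblFun g (conj z) = conj (dblFun g z) := by
  rcases le_total 0 z.im with h | h
  · rw [dbl_upper h, dbl_lower hg (by rw [Complex.conj_im]; linarith), Complex.conj_conj]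
  · rw [dbl_lower hg h, dbl_upper (by rw [Complex.conj_im]; linarith), Complex.conj_conj]

theorem dbl_mul {g : ℂ → ℂ} {l : ℝ} (hl : 0 < l) (hgl : ∀ z, g (l * z) = l * g z) (z : ℂ) :
    dblFun g (l * z) = l * dblFun g z := by
  have him : ((l : ℂ) * z).im = l * z.im := Complex.im_ofReal_mul _ _
  rcases le_or_gt 0 z.im with h | h
  · rw [dbl_upper h, dbl_upper (by rw [him]; positivity), hgl]
  · rw [dblFun, dblFun, if_neg (not_le.2 h), if_neg (not_le.2 (by
      rw [him]
      exact mul_neg_of_pos_of_neg hl h)), map_mul, Complex.conj_ofReal, hgl, map_mul,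
      Complex.conj_ofReal]

/-- homeomorphisms commuting with the lattice generated by `μ` and `π i` -/
def LL (μ : ℝ) : Set C(ℂ, ℂ) :=
  {M | IsHomeo M ∧ (∀ v, M (v + μ) = M v + μ) ∧ ∀ v, M (v + Real.pi * I) = M v + Real.pi * I}

theorem LL_tpi {μ : ℝ} {M : C(ℂ, ℂ)} (hM : M ∈ LL μ) (v : ℂ) : M (v + tpi) = M v + tpi := by
  have e : (tpi : ℂ) = Real.pi * I + Real.pi * I := by rw [tpi_eq]; push_cast; ring
  rw [e, ← add_assoc, hM.2.2, hM.2.2, ← add_assoc]

theorem LL.inv {μ : ℝ} {M Mi : C(ℂ, ℂ)} (hM : M ∈ LL μ) (h1 : ∀ x, M (Mi x) = x)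
    (h2 : ∀ x, Mi (M x) = x) : Mi ∈ LL μ := by
  have hinj : Function.Injective M := Function.LeftInverse.injective h2
  refine ⟨⟨M, h2, h1⟩, fun v => ?_, fun v => ?_⟩
  · apply hinj
    rw [h1, hM.2.1, h1]
  · apply hinj
    rw [h1, hM.2.2, h1]

/-- the open strip -/
def strip : Set ℂ := {v | 0 < v.im ∧ v.im < Real.pi}

theorem isPreconnected_strip : IsPreconnected strip := by
  have : strip = Complex.im ⁻¹' Ioo 0 Real.pi := rfl
  rw [this]
  apply Convex.isPreconnected
  exact (convex_Ioo 0 Real.pi).is_linear_preimage (f := Complex.im)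
    ⟨fun x y => Complex.add_im x y, fun c x => by simp⟩

theorem zero_mem_closure_strip : (0 : ℂ) ∈ closure strip := by
  have h : Tendsto (fun t : ℝ => (t : ℂ) * I) (𝓝[>] 0) (𝓝 0) := by
    have : Continuous fun t : ℝ => (t : ℂ) * I := by fun_prop
    have h1 := (this.tendsto 0).mono_left (nhdsWithin_le_nhds (s := Ioi 0))
    simpa using h1
  refine mem_closure_of_tendsto h ?_
  filter_upwards [Ioo_mem_nhdsGT Real.pi_pos] with t ht
  constructor
  · simpa using ht.1
  · simpa using ht.2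

theorem pi_mem_closure_strip : (Real.pi * I : ℂ) ∈ closure strip := by
  have h : Tendsto (fun t : ℝ => (t : ℂ) * I) (𝓝[<] Real.pi) (𝓝 (Real.pi * I)) := by
    have : Continuous fun t : ℝ => (t : ℂ) * I := by fun_prop
    exact (this.tendsto Real.pi).mono_left nhdsWithin_le_nhds
  refine mem_closure_of_tendsto h ?_
  filter_upwards [Ioo_mem_nhdsLT Real.pi_pos] with t ht
  constructor
  · simpa using ht.1
  · simpa using ht.2

/-- homeomorphisms which preserve both boundary lines preserve the strip -/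
theorem strip_maps {M Mi : C(ℂ, ℂ)} (h2 : ∀ x, Mi (M x) = x)
    (a0 : ∀ v : ℂ, v.im = 0 → (M v).im = 0) (api : ∀ v : ℂ, v.im = Real.pi → (M v).im = Real.pi)
    (b0 : ∀ v : ℂ, v.im = 0 → (Mi v).im = 0) (bpi : ∀ v : ℂ, v.im = Real.pi → (Mi v).im = Real.pi)
    {v : ℂ} (hv : v ∈ strip) : M v ∈ strip := by
  refine avoid_two isPreconnected_strip (f := fun v => (M v).im) (by fun_prop)
    (fun v hv hcon => ?_) (fun v hv hcon => ?_) zero_mem_closure_strip pi_mem_closure_strip ?_ ?_ hv
  · have := b0 _ hcon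
    rw [h2] at this
    exact hv.1.ne' this
  · have := bpi _ hcon
    rw [h2] at this
    exact hv.2.ne this
  · rw [a0 0 (by simp)]
    exact Real.pi_pos
  · rw [api _ (by simp)]
    exact Real.pi_pos

end Pool.Agent.Helper984_CP
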