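import Pool.Agent.Helper984_CP.Ann1

/-!
# The annulus step, first part: doubling
-/

set_option autoImplicit false

open Set Filter Topology Complex ComplexConjugate

noncomputable section

namespace Pool.Agent.Helper984_CP

theorem exp_im_pos {v : ℂ} (h : v ∈ strip) : 0 < (cexp v).im := by
  rw [Complex.exp_im]
  exact mul_pos (Real.exp_pos _) (Real.sin_pos_of_pos_of_lt_pi h.1 h.2)

theorem exp_im_nonneg {v : ℂ} (h0 : 0 ≤ v.im) (h1 : v.im ≤ Real.pi) : 0 ≤ (cexp v).im := by
  rw [Complex.exp_im]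
  exact mul_nonneg (Real.exp_pos _).le (Real.sin_nonneg_of_nonneg_of_le_pi h0 h1)

/-- the map of the punctured plane induced by a lattice map -/
theorem exists_desc {μ : ℝ} (hμ : μ ≠ 0) {N : C(ℂ, ℂ)} (hN : N ∈ LL μ) :
    ∃ g : C(ℂ, ℂ), g ∈ GG (Real.exp (-μ)) False ∧ ∀ w, g (cexp w) = cexp (N w) := by
  let P : C(unitInterval × ℂ, ℂ) := ⟨fun q => N q.2, by fun_prop⟩
  have hPs : ∀ s, slice P s = N := fun s => by ext z; rfl
  obtain ⟨G, hG1, hG2⟩ := exp_family P (fun s => by rw [hPs]; exact hN.1) (ρ := -μ)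
    (neg_ne_zero.2 hμ) (fun s w => LL_tpi hN w) (fun s w => by
      change N (w + ((-μ : ℝ) : ℂ)) = N w + ((-μ : ℝ) : ℂ)
      have := hN.2.1 (w + ((-μ : ℝ) : ℂ))
      have e : w + ((-μ : ℝ) : ℂ) + (μ : ℂ) = w := by push_cast; ring
      rw [e] at this
      rw [this]
      push_cast
      ring)
  exact ⟨slice G 0, hG1 0, fun w => hG2 0 w⟩

theorem desc_real {μ : ℝ} {N g : C(ℂ, ℂ)} (hN : N ∈ LL μ) (hN0 : ∀ x : ℝ, N x = x)
    (hg0 : g 0 = 0) (hg : ∀ w, g (cexp w) = cexp (N w)) (x : ℝ) : g x = x := by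
  rcases lt_trichotomy x 0 with h | h | h
  · have e : (x : ℂ) = cexp (((Real.log (-x) : ℝ) : ℂ) + Real.pi * I) := by
      rw [Complex.exp_add, Complex.exp_pi_mul_I, ← Complex.ofReal_exp, Real.exp_log (by linarith)]
      push_cast
      ring
    rw [e, hg, hN.2.2, hN0]
  · rw [h, Complex.ofReal_zero, hg0]
  · have e : (x : ℂ) = cexp ((Real.log x : ℝ) : ℂ) := by
      rw [← Complex.ofReal_exp, Real.exp_log h]
    rw [e, hg, hN0]

theorem lines_id {μ : ℝ} {N : C(ℂ, ℂ)} (hN : N ∈ LL μ) (hN0 : ∀ x : ℝ, N x = x) :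
    (∀ v : ℂ, v.im = 0 → N v = v) ∧ ∀ v : ℂ, v.im = Real.pi → N v = v := by
  constructor
  · intro v hv
    have e : v = ((v.re : ℝ) : ℂ) := Complex.ext (by simp) (by simp [hv])
    rw [e, hN0]
  · intro v hv
    have e : v = ((v.re : ℝ) : ℂ) + Real.pi * I := Complex.ext (by simp) (by simp [hv])
    rw [e, hN.2.2, hN0]

/-- the first part of the annulus step -/
theorem ann_one {μ : ℝ} (hμ : 0 < μ) (hexp : Real.exp (-μ) ≤ 1 / 2) {N : C(ℂ, ℂ)}
    (hN : N ∈ LL μ) (hN0 : ∀ x : ℝ, N x = x) :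
    ∃ M : C(unitInterval × ℂ, ℂ), (∀ s, IsHomeo (slice M s)) ∧
      (∀ s v, M (s, v + tpi) = M (s, v) + tpi) ∧ (∀ s v, M (s, v + μ) = M (s, v) + μ) ∧
      (∀ s v, M (s, conj v) = conj (M (s, v))) ∧
      (∀ v : ℂ, 0 ≤ v.im → v.im ≤ Real.pi → M (0, v) = N v) ∧
      ∀ y : ℝ, M (1, y * I) = y * I := by
  obtain ⟨Ni, n1, n2⟩ := hN.1
  have hNi : Ni ∈ LL μ := LL.inv hN n1 n2
  have hNi0 : ∀ x : ℝ, Ni x = x := by
    intro x
    have := congrArg Ni (hN0 x)
    rw [n2] at this
    exact this.symm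
  obtain ⟨g, hgG, hge⟩ := exists_desc hμ.ne' hN
  obtain ⟨gi, hgiG, hgie⟩ := exists_desc hμ.ne' hNi
  have hl : 0 < Real.exp (-μ) := Real.exp_pos _
  have hl1 : Real.exp (-μ) < 1 := by linarith
  have hg0 := GG.zero hl1 hgG
  have hgi0 := GG.zero hl1 hgiG
  have hggi : ∀ z, g (gi z) = z := by
    intro z
    by_cases hz : z = 0
    · rw [hz, hgi0, hg0]
    · obtain ⟨w, rfl⟩ : ∃ w, cexp w = z := ⟨Complex.log z, Complex.exp_log hz⟩
      rw [hgie, hge, n1]
  have hgig : ∀ z, gi (g z) = z := by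
    intro z
    by_cases hz : z = 0
    · rw [hz, hg0, hgi0]
    · obtain ⟨w, rfl⟩ : ∃ w, cexp w = z := ⟨Complex.log z, Complex.exp_log hz⟩
      rw [hge, hgie, n2]
  have hgr := desc_real hN hN0 hg0 hge
  have hgir := desc_real hNi hNi0 hgi0 hgie
  obtain ⟨a0, api⟩ := lines_id hN hN0
  obtain ⟨b0, bpi⟩ := lines_id hNi hNi0
  have hup : ∀ (N Ni g : C(ℂ, ℂ)), (∀ x, Ni (N x) = x) → (∀ v : ℂ, v.im = 0 → N v = v) →
      (∀ v : ℂ, v.im = Real.pi → N v = v) → (∀ v : ℂ, v.im = 0 → Ni v = v) →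
      (∀ v : ℂ, v.im = Real.pi → Ni v = v) → (∀ w, g (cexp w) = cexp (N w)) →
      ∀ z : ℂ, 0 < z.im → 0 < (g z).im := by
    intro N Ni g h1 h2 h3 h4 h5 h6 z hz
    have hz0 : z ≠ 0 := by
      intro h
      rw [h] at hz
      simp at hz
    have hlog : Complex.log z ∈ strip := by
      constructor
      · rw [Complex.log_im]
        exact lt_of_le_of_ne (Complex.arg_nonneg_iff.2 hz.le) (fun h => by
          have := (Complex.arg_eq_zero_iff.1 h.symm).2
          rw [this] at hz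
          exact lt_irrefl _ hz)
      · rw [Complex.log_im]
        exact Complex.arg_lt_pi_iff.2 (Or.inr hz.ne')
    rw [← Complex.exp_log hz0, h6]
    exact exp_im_pos (strip_maps h1 (fun v hv => by rw [h2 v hv, hv])
      (fun v hv => by rw [h3 v hv, hv]) (fun v hv => by rw [h4 v hv, hv])
      (fun v hv => by rw [h5 v hv, hv]) hlog)
  have hgup := hup N Ni g n2 a0 api b0 bpi hge
  have hgiup := hup Ni N gi n1 b0 bpi a0 api hgie
  -- the double
  obtain ⟨gh, hgh⟩ : ∃ gh : C(ℂ, ℂ), gh = ⟨dblFun g, continuous_dbl g.continuous hgr⟩ := ⟨_, rfl⟩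
  have hgha : ∀ z, gh z = dblFun g z := fun z => by rw [hgh]; rfl
  have hghG : gh ∈ GG (Real.exp (-μ)) True := by
    refine ⟨⟨⟨dblFun gi, continuous_dbl gi.continuous hgir⟩, fun z => ?_, fun z => ?_⟩,
      fun z => ?_, fun _ z => ?_⟩
    · rw [hgha]
      exact dbl_inv hgr hgir hggi hgiup z
    · rw [hgha]
      exact dbl_inv hgir hgr hgig hgup z
    · rw [hgha, hgha]
      exact dbl_mul hl hgG.2.1 z
    · rw [hgha, hgha]
      exact dbl_conj hgr z
  have hgh0 := GG.zero hl1 hghG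
  -- the lift of the double
  obtain ⟨M1, d, hM1, hM1d⟩ := exists_log_lift hghG.1.injective hgh0
  obtain ⟨M0, hM0def⟩ : ∃ M0 : C(ℂ, ℂ), M0 = ⟨fun w => M1 w - M1 0, by fun_prop⟩ := ⟨_, rfl⟩
  have hM0a : ∀ w, M0 w = M1 w - M1 0 := fun w => by rw [hM0def]; rfl
  have hM00 : M0 0 = 0 := by rw [hM0a, sub_self]
  have hexp0 : cexp (M1 0) = 1 := by
    rw [hM1, Complex.exp_zero, hgha]
    have := hgr 1
    rw [dbl_upper (by simp)]
    simpa using this
  have hM0e : ∀ w, cexp (M0 w) = gh (cexp w) := by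
    intro w
    rw [hM0a, Complex.exp_sub, hexp0, div_one, hM1]
  have hNz : N 0 = 0 := by
    have := hN0 0
    simpa using this
  have hM0N : ∀ v : ℂ, 0 ≤ v.im → v.im ≤ Real.pi → M0 v = N v := by
    intro v hv0 hv1
    have hS : IsPreconnected {v : ℂ | 0 ≤ v.im ∧ v.im ≤ Real.pi} := by
      have : {v : ℂ | 0 ≤ v.im ∧ v.im ≤ Real.pi} = Complex.im ⁻¹' Icc 0 Real.pi := rfl
      rw [this]
      apply Convex.isPreconnected
      exact (convex_Icc 0 Real.pi).is_linear_preimage (f := Complex.im)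
        ⟨fun x y => Complex.add_im x y, fun c x => by simp⟩
    have h1 := exp_rigid_on hS (u := M0) (v := N) M0.continuous.continuousOn
      N.continuous.continuousOn (fun a ha => by
        rw [hM0e, hgha, dbl_upper (exp_im_nonneg ha.1 ha.2), hge]) (a := v) (b := 0) ⟨hv0, hv1⟩
      ⟨by simp, by simp [Real.pi_pos.le]⟩
    rw [hM00, hNz, sub_zero] at h1
    exact sub_eq_zero.1 h1
  have hM0c : ∀ v : ℂ, M0 (conj v) = conj (M0 v) := by
    intro v
    have h1 := exp_rigid (A := ℂ) (u := fun v => M0 (conj v)) (v := fun v => conj (M0 v))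
      (by fun_prop) (by fun_prop) (fun a => by
        rw [hM0e, Complex.exp_conj, Complex.exp_conj, hM0e, hghG.2.2 trivial]) v 0
    simp only [map_zero, hM00, sub_zero] at h1
    exact sub_eq_zero.1 h1
  have hMpi : M0 (Real.pi * I) = Real.pi * I := by
    rw [hM0N _ (by simp [Real.pi_pos.le]) (by simp), api _ (by simp)]
  have hd1 : (d : ℂ) = 1 := by
    have e1 : conj (Real.pi * I : ℂ) = -(Real.pi * I) := by
      rw [map_mul, Complex.conj_ofReal, Complex.conj_I]
      ring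
    have h1 := hM0c (Real.pi * I)
    rw [hMpi, e1] at h1
    have h2 : M0 (-(Real.pi * I) + tpi) = M0 (-(Real.pi * I)) + d * tpi := by
      rw [hM0a, hM0a, hM1d]
      ring
    have e2 : -(Real.pi * I) + tpi = (Real.pi * I : ℂ) := by rw [tpi_eq]; push_cast; ring
    rw [e2, hMpi, h1] at h2
    have e3 : (Real.pi * I : ℂ) = tpi / 2 := by rw [tpi_eq]; push_cast; ring
    rw [e3] at h2
    have h3 : (d : ℂ) * tpi = 1 * tpi := by linear_combination -h2
    exact mul_right_cancel₀ tpi_ne h3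
  have hL0 : LiftOf gh M0 := ⟨fun w => by
    rw [hM0a, hM0a, hM1d, hd1]
    ring, hM0e⟩
  -- straightening
  obtain ⟨g', jg, hg'⟩ := straighten_id hl hexp (σ := True) hghG hL0 (fun _ => by
    rw [hgha, dbl_upper (by simp)]
    have := hgr 1
    rw [Complex.ofReal_one] at this
    rw [this]
    simp)
  obtain ⟨P, hP, hP0, hP1⟩ := family_of_joined jg
  obtain ⟨M, hMz, hML⟩ := lift_path P (fun s w => joined_ne_zero hl1 hP s (Complex.exp_ne_zero w))
    (M0 := M0) (by rw [hP0]; exact hL0)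
  have hMe : ∀ s w, cexp (M (s, w)) = P (s, cexp w) := fun s w => (hML s).2 w
  have hM0s : M (0, 0) = 0 := by rw [hMz, hM00]
  have hMc : ∀ s v, M (s, conj v) = conj (M (s, v)) := by
    intro s v
    have h1 := exp_rigid (A := unitInterval × ℂ) (u := fun q => M (q.1, conj q.2))
      (v := fun q => conj (M q)) (by fun_prop) (by fun_prop) (fun q => by
        rw [hMe, Complex.exp_conj, Complex.exp_conj, hMe]
        exact (hP q.1).2.2 trivial _) (s, v) (0, 0)
    simp only [map_zero, hM0s, sub_zero] at h1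
    exact sub_eq_zero.1 h1
  have hMμ' : ∀ s v, M (s, v - μ) = M (s, v) - μ := by
    intro s v
    have h1 := exp_rigid (A := unitInterval × ℂ) (u := fun q => M (q.1, q.2 - μ))
      (v := fun q => M q - μ) (by fun_prop) (by fun_prop) (fun q => by
        have e1 : ∀ z : ℂ, cexp (z - μ) = ((Real.exp (-μ) : ℝ) : ℂ) * cexp z := by
          intro z
          rw [sub_eq_add_neg, Complex.exp_add, mul_comm]
          push_cast
          ring
        rw [hMe, e1, e1, hMe]
        exact (hP q.1).2.1 _) (s, v) (0, 0)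
    have h2 : M (0, -μ) = -μ := by
      rw [hMz, hM0N _ (by simp) (by simp [Real.pi_pos.le])]
      have := hN0 (-μ)
      push_cast at this
      exact this
    simp only [hM0s, zero_sub, h2, sub_self] at h1
    exact sub_eq_zero.1 h1
  refine ⟨M, fun s => ?_, fun s v => (hML s).1 v, fun s v => ?_, hMc, fun v h0 h1 => ?_,
    fun y => ?_⟩
  · exact lift_homeo (hP s).1 (GG.zero hl1 (hP s)) (hML s)
  · have := hMμ' s (v + μ)
    rw [add_sub_cancel_right] at this
    rw [this]
    ring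
  · rw [hMz, hM0N v h0 h1]
  · have him : (M (1, 0)).im = 0 := by
      have h1 := hMc 1 0
      rw [map_zero] at h1
      exact Complex.conj_eq_iff_im.1 h1.symm
    have he : ∀ y : ℝ, cexp (M (1, y * I)) = cexp (y * I) := by
      intro y
      rw [hMe]
      have h2 := congrArg (fun f : C(ℂ, ℂ) => f (cexp (y * I))) hP1
      simp only [slice_apply] at h2
      rw [h2]
      exact hg' _ (Complex.norm_exp_ofReal_mul_I y)
    have h1 := exp_rigid (A := ℝ) (u := fun y : ℝ => M (1, y * I)) (v := fun y : ℝ => (y * I : ℂ))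
      (by fun_prop) (by fun_prop) he y 0
    simp only [Complex.ofReal_zero, zero_mul, sub_zero] at h1
    have h3 : M (1, 0) = 0 := by
      have h4 := he 0
      simp only [Complex.ofReal_zero, zero_mul] at h4
      obtain ⟨n, hn⟩ := Complex.exp_eq_exp_iff_exists_int.1 h4
      rw [zero_add] at hn
      have h5 := congrArg Complex.im hn
      rw [him] at h5
      have h6 : ((n : ℂ) * (2 * Real.pi * I)).im = n * (2 * Real.pi) := by simp
      rw [h6] at h5
      have h7 : (n : ℝ) = 0 := by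
        rcases mul_eq_zero.1 h5.symm with h8 | h8
        · exact h8
        · exact (two_pi_ne h8).elim
      rw [hn]
      have h8 : (n : ℂ) = 0 := by exact_mod_cast h7
      rw [h8, zero_mul]
    rw [h3] at h1
    exact sub_eq_zero.1 h1

end Pool.Agent.Helper984_CP
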