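import Pool.Agent.Helper984_CP.Ann2

/-!
# The annulus step, second part: correcting the boundary values
-/

set_option autoImplicit false

open Set Filter Topology Complex ComplexConjugate

noncomputable section

namespace Pool.Agent.Helper984_CP

theorem div_piI_re (v : ℂ) : (v / (Real.pi * I)).re = v.im / Real.pi := by
  have h : (Real.pi : ℂ) ≠ 0 := by exact_mod_cast Real.pi_ne_zero
  have e : v / (Real.pi * I) = -(v * I) / ((Real.pi : ℝ) : ℂ) := by
    rw [div_eq_div_iff (mul_ne_zero h I_ne_zero) h]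
    ring_nf
    rw [I_sq]
    ring
  rw [e, Complex.div_ofReal_re, Complex.neg_re, Complex.mul_I_re, neg_neg]

theorem piI_ne : (Real.pi * I : ℂ) ≠ 0 :=
  mul_ne_zero (by exact_mod_cast Real.pi_ne_zero) I_ne_zero

/-- maps commuting with conjugation and `2 π i` preserve the two lines -/
theorem line_pres {M : ℂ → ℂ} (h1 : ∀ v, M (v + tpi) = M v + tpi)
    (h2 : ∀ v, M (conj v) = conj (M v)) :
    (∀ v : ℂ, v.im = 0 → (M v).im = 0) ∧ ∀ v : ℂ, v.im = Real.pi → (M v).im = Real.pi := by
  constructor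
  · intro v hv
    have e : conj v = v := Complex.conj_eq_iff_im.2 hv
    have := h2 v
    rw [e] at this
    exact Complex.conj_eq_iff_im.1 this.symm
  · intro v hv
    have e : v = conj v + tpi := by
      apply Complex.ext
      · rw [Complex.add_re, Complex.conj_re, tpi_re, add_zero]
      · rw [Complex.add_im, Complex.conj_im, tpi_im, hv]
        ring
    have h3 := h1 (conj v)
    rw [← e, h2] at h3
    have h4 := congrArg Complex.im h3
    rw [Complex.add_im, Complex.conj_im, tpi_im] at h4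
    linarith

theorem ann_two {μ : ℝ} (hμ : 0 < μ) {N : C(ℂ, ℂ)} (hN : N ∈ LL μ) (hN0 : ∀ x : ℝ, N x = x)
    {M : C(unitInterval × ℂ, ℂ)} (hMH : ∀ s, IsHomeo (slice M s))
    (hMt : ∀ s v, M (s, v + tpi) = M (s, v) + tpi) (hMμ : ∀ s v, M (s, v + μ) = M (s, v) + μ)
    (hMc : ∀ s v, M (s, conj v) = conj (M (s, v)))
    (hM0 : ∀ v : ℂ, 0 ≤ v.im → v.im ≤ Real.pi → M (0, v) = N v)
    (hM1 : ∀ y : ℝ, M (1, y * I) = y * I) :
    ∃ N1 : C(ℂ, ℂ), JoinedIn (LL μ) N N1 ∧ (∀ x : ℝ, N1 x = x) ∧ ∀ y : ℝ, N1 (y * I) = y * I := by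
  have hpi := Real.pi_pos
  obtain ⟨Mi, hMi⟩ := continuous_inv_family M (fun s => hMH s)
  have hinj : ∀ s, Function.Injective fun w => M (s, w) := fun s =>
    Function.LeftInverse.injective (g := fun w => Mi (s, w)) (fun w => (hMi s w).2)
  have hMit : ∀ s w, Mi (s, w + tpi) = Mi (s, w) + tpi := by
    intro s w
    apply hinj s
    simp only
    rw [(hMi s _).1, hMt, (hMi s _).1]
  have hMic : ∀ s w, Mi (s, conj w) = conj (Mi (s, w)) := by
    intro s w
    apply hinj s
    simp only
    rw [(hMi s _).1, hMc, (hMi s _).1]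
  have hMiμ : ∀ s w, Mi (s, w + μ) = Mi (s, w) + μ := by
    intro s w
    apply hinj s
    simp only
    rw [(hMi s _).1, hMμ, (hMi s _).1]
  have hl := fun s => line_pres (M := fun v => M (s, v)) (hMt s) (hMc s)
  have hli := fun s => line_pres (M := fun v => Mi (s, v)) (hMit s) (hMic s)
  have hmaps : ∀ s (v : ℂ), 0 ≤ v.im → v.im ≤ Real.pi →
      0 ≤ (M (s, v)).im ∧ (M (s, v)).im ≤ Real.pi := by
    intro s v h0 h1
    rcases h0.eq_or_lt with h2 | h2
    · rw [(hl s).1 v h2.symm]
      exact ⟨le_rfl, hpi.le⟩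
    rcases h1.eq_or_lt with h3 | h3
    · rw [(hl s).2 v h3]
      exact ⟨hpi.le, le_rfl⟩
    have := strip_maps (M := slice M s) (Mi := slice Mi s) (fun x => (hMi s x).2) (hl s).1 (hl s).2
      (hli s).1 (hli s).2 (v := v) ⟨h2, h3⟩
    exact ⟨this.1.le, this.2.le⟩
  have hmapsi : ∀ s (v : ℂ), 0 ≤ v.im → v.im ≤ Real.pi →
      0 ≤ (Mi (s, v)).im ∧ (Mi (s, v)).im ≤ Real.pi := by
    intro s v h0 h1
    rcases h0.eq_or_lt with h2 | h2
    · rw [(hli s).1 v h2.symm]
      exact ⟨le_rfl, hpi.le⟩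
    rcases h1.eq_or_lt with h3 | h3
    · rw [(hli s).2 v h3]
      exact ⟨hpi.le, le_rfl⟩
    have := strip_maps (M := slice Mi s) (Mi := slice M s) (fun x => (hMi s x).1) (hli s).1
      (hli s).2 (hl s).1 (hl s).2 (v := v) ⟨h2, h3⟩
    exact ⟨this.1.le, this.2.le⟩
  obtain ⟨B, hB⟩ := bdd_disp M hμ.ne' hMt hMμ
  -- boundary values
  let v0 : unitInterval × ℝ → ℝ := fun q => (M (q.1, (q.2 : ℂ))).re
  let v1 : unitInterval × ℝ → ℝ := fun q => (M (q.1, (q.2 : ℂ) + Real.pi * I)).re
  have hv0c : Continuous v0 := by fun_prop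
  have hv1c : Continuous v1 := by fun_prop
  have hv0 : ∀ s (x : ℝ), M (s, (x : ℂ)) = ((v0 (s, x) : ℝ) : ℂ) := fun s x =>
    Complex.ext (by simp [v0]) (by
      rw [(hl s).1 _ (Complex.ofReal_im x)]
      simp)
  have hv1 : ∀ s (x : ℝ), M (s, (x : ℂ) + Real.pi * I) = ((v1 (s, x) : ℝ) : ℂ) + Real.pi * I :=
    fun s x => Complex.ext (by simp [v1]) (by
      rw [(hl s).2 _ (by simp)]
      simp)
  have hv0μ : ∀ s x, v0 (s, x + μ) = v0 (s, x) + μ := by
    intro s x
    simp only [v0]
    push_cast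
    rw [hMμ]
    simp
  have hv1μ : ∀ s x, v1 (s, x + μ) = v1 (s, x) + μ := by
    intro s x
    simp only [v1]
    have e : ((x + μ : ℝ) : ℂ) + Real.pi * I = ((x : ℂ) + Real.pi * I) + μ := by push_cast; ring
    rw [e, hMμ]
    simp
  have hmono : ∀ (h : ℝ → ℝ), Continuous h → Function.Injective h →
      (∀ x, h (x + μ) = h x + μ) → StrictMono h := by
    intro h hc hi hμ'
    rcases hc.strictMono_of_inj hi with h1 | h1
    · exact h1
    · exfalso
      have h2 := h1 (show (0 : ℝ) < 0 + μ by linarith)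
      rw [hμ'] at h2
      linarith
  have hv0m : ∀ s, StrictMono fun x => v0 (s, x) := by
    intro s
    refine hmono _ (hv0c.comp (by fun_prop)) (fun x y hxy => ?_) (hv0μ s)
    have h1 : M (s, (x : ℂ)) = M (s, (y : ℂ)) := by
      rw [hv0, hv0, hxy]
    exact_mod_cast hinj s h1
  have hv1m : ∀ s, StrictMono fun x => v1 (s, x) := by
    intro s
    refine hmono _ (hv1c.comp (by fun_prop)) (fun x y hxy => ?_) (hv1μ s)
    have h1 : M (s, (x : ℂ) + Real.pi * I) = M (s, (y : ℂ) + Real.pi * I) := by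
      rw [hv1, hv1, hxy]
    have h2 := hinj s h1
    exact_mod_cast add_right_cancel h2
  have hv0B : ∀ s x, |v0 (s, x) - x| ≤ B := by
    intro s x
    have h1 := (Complex.abs_re_le_norm _).trans (hB s x)
    simpa [v0] using h1
  have hv1B : ∀ s x, |v1 (s, x) - x| ≤ B := by
    intro s x
    have h1 := (Complex.abs_re_le_norm _).trans (hB s (x + Real.pi * I))
    simpa [v1] using h1
  -- the interpolation
  let c : ℝ → ℝ := fun y => max 0 (min y Real.pi) / Real.pi
  have hcc : Continuous c := by fun_prop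
  have hc0 : ∀ y, 0 ≤ c y := fun y => div_nonneg (le_max_left _ _) hpi.le
  have hc1 : ∀ y, c y ≤ 1 := fun y => (div_le_one hpi).2 (max_le hpi.le (min_le_right _ _))
  have hcz : c 0 = 0 := by simp only [c]; rw [min_eq_left hpi.le]; simp
  have hcp : c Real.pi = 1 := by
    simp only [c]
    rw [min_self, max_eq_right hpi.le, div_self hpi.ne']
  let hx : unitInterval × ℝ × ℝ → ℝ := fun q =>
    (1 - c q.2.1) * v0 (q.1, q.2.2) + c q.2.1 * v1 (q.1, q.2.2)
  have hxc : Continuous hx := by fun_prop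
  have hxm : ∀ s y, StrictMono fun x => hx (s, y, x) := by
    intro s y a b hab
    have h1 := hv0m s hab
    have h2 := hv1m s hab
    simp only [hx] at h1 h2 ⊢
    rcases (hc0 y).eq_or_lt with h | h
    · rw [← h]; simpa using h1
    · nlinarith [mul_pos h (sub_pos.2 h2), mul_nonneg (sub_nonneg.2 (hc1 y)) (sub_pos.2 h1).le]
  have hxB : ∀ s y x, |hx (s, y, x) - x| ≤ B := by
    intro s y x
    have e : hx (s, y, x) - x = (1 - c y) * (v0 (s, x) - x) + c y * (v1 (s, x) - x) := by
      simp only [hx]; ring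
    rw [e]
    refine (abs_add_le _ _).trans ?_
    rw [abs_mul, abs_mul, abs_of_nonneg (hc0 y), abs_of_nonneg (sub_nonneg.2 (hc1 y))]
    have h1 := mul_le_mul_of_nonneg_left (hv0B s x) (sub_nonneg.2 (hc1 y))
    have h2 := mul_le_mul_of_nonneg_left (hv1B s x) (hc0 y)
    linarith
  have hxμ : ∀ s y x, hx (s, y, x + μ) = hx (s, y, x) + μ := by
    intro s y x
    simp only [hx]
    rw [hv0μ, hv1μ]
    ring
  let X : C(unitInterval × ℂ, ℂ) := ⟨fun q => ((hx (q.1, q.2.im, q.2.re) : ℝ) : ℂ) +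
    ((q.2.im : ℝ) : ℂ) * I, by fun_prop⟩
  have hXa : ∀ s v, X (s, v) = ((hx (s, v.im, v.re) : ℝ) : ℂ) + ((v.im : ℝ) : ℂ) * I :=
    fun _ _ => rfl
  have hXim : ∀ s v, (X (s, v)).im = v.im := fun s v => by rw [hXa]; simp
  have hXre : ∀ s v, (X (s, v)).re = hx (s, v.im, v.re) := fun s v => by rw [hXa]; simp
  have hXH : ∀ s, IsHomeo (slice X s) := by
    intro s
    refine homeo_of_bdd (B := B) ⟨fun a b hab => ?_, fun b => ?_⟩ (fun z => ?_)
    · simp only [slice_apply] at hab
      have h1 := congrArg Complex.im hab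
      have h2 := congrArg Complex.re hab
      rw [hXim, hXim] at h1
      rw [hXre, hXre, h1] at h2
      exact Complex.ext ((hxm s b.im).injective h2) h1
    · have hc : Continuous fun x => hx (s, b.im, x) := hxc.comp (by fun_prop)
      have hs : Function.Surjective fun x => hx (s, b.im, x) := by
        refine hc.surjective ?_ ?_
        · refine tendsto_atTop_mono (f := fun x => x + (-B)) (fun x => ?_)
            (tendsto_atTop_add_const_right _ _ tendsto_id)
          have := (abs_le.1 (hxB s b.im x)).1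
          linarith
        · refine tendsto_atBot_mono (f := fun x => x + B) (fun x => ?_)
            (tendsto_atBot_add_const_right _ _ tendsto_id)
          have := (abs_le.1 (hxB s b.im x)).2
          linarith
      obtain ⟨x, hx'⟩ := hs b.re
      refine ⟨(x : ℂ) + (b.im : ℂ) * I, ?_⟩
      rw [slice_apply]
      apply Complex.ext
      · rw [hXre]
        simpa using hx'
      · rw [hXim]
        simp
    · rw [slice_apply]
      have e : X (s, z) - z = ((hx (s, z.im, z.re) - z.re : ℝ) : ℂ) := by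
        apply Complex.ext
        · rw [Complex.sub_re, hXre]; simp
        · rw [Complex.sub_im, hXim]; simp
      rw [e, Complex.norm_real]
      exact hxB s z.im z.re
  obtain ⟨Xi, hXi⟩ := continuous_inv_family X (fun s => hXH s)
  have hXinj : ∀ s, Function.Injective fun w => X (s, w) := fun s =>
    Function.LeftInverse.injective (g := fun w => Xi (s, w)) (fun w => (hXi s w).2)
  have hXiim : ∀ s v, (Xi (s, v)).im = v.im := by
    intro s v
    have := hXim s (Xi (s, v))
    rw [(hXi s v).1] at this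
    exact this.symm
  have hXμ : ∀ s v, X (s, v + μ) = X (s, v) + μ := by
    intro s v
    apply Complex.ext
    · rw [hXre, Complex.add_re (X (s, v)), hXre]
      simp only [Complex.add_im, Complex.ofReal_im, add_zero, Complex.add_re, Complex.ofReal_re]
      exact hxμ _ _ _
    · rw [hXim, Complex.add_im, Complex.add_im, hXim]
  have hXiμ : ∀ s v, Xi (s, v + μ) = Xi (s, v) + μ := by
    intro s w
    apply hXinj s
    simp only
    rw [(hXi s _).1, hXμ, (hXi s _).1]
  have hXM0 : ∀ s (v : ℂ), v.im = 0 → X (s, v) = M (s, v) := by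
    intro s v hv
    have e : v = ((v.re : ℝ) : ℂ) := Complex.ext (by simp) (by simp [hv])
    rw [hXa, hv]
    conv_rhs => rw [e, hv0]
    simp only [hx, hcz]
    simp
  have hXMp : ∀ s (v : ℂ), v.im = Real.pi → X (s, v) = M (s, v) := by
    intro s v hv
    have e : v = ((v.re : ℝ) : ℂ) + Real.pi * I := Complex.ext (by simp) (by simp [hv])
    rw [hXa, hv]
    conv_rhs => rw [e, hv1]
    simp only [hx, hcp]
    simp
  -- the corrected family
  classical
  let S : Set (unitInterval × ℂ) := {q | 0 ≤ q.2.im ∧ q.2.im ≤ Real.pi}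
  let V : Set (unitInterval × ℂ) := {q | 0 < q.2.im ∧ q.2.im < Real.pi}
  have himc : Continuous fun q : unitInterval × ℂ => q.2.im := by fun_prop
  have hSc : IsClosed S := (isClosed_le continuous_const himc).inter
    (isClosed_le himc continuous_const)
  have hVo : IsOpen V := (isOpen_lt continuous_const himc).inter (isOpen_lt himc continuous_const)
  have hVS : V ⊆ S := fun q hq => ⟨hq.1.le, hq.2.le⟩
  have hbd : ∀ q ∈ S, q ∉ V → q.2.im = 0 ∨ q.2.im = Real.pi := by
    intro q hq hqV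
    rcases hq.1.eq_or_lt with h | h
    · exact Or.inl h.symm
    rcases hq.2.eq_or_lt with h' | h'
    · exact Or.inr h'
    · exact (hqV ⟨h, h'⟩).elim
  let R : C(unitInterval × ℂ, ℂ) := ⟨S.piecewise (fun q => M (q.1, Xi q)) (fun q => q.2),
    piece_cont hSc hVo hVS (by fun_prop) (by fun_prop) (fun q hq hqV => by
      rcases hbd q hq hqV with h | h
      · rw [← hXM0 _ _ (by rw [hXiim]; exact h)]
        exact (hXi q.1 q.2).1
      · rw [← hXMp _ _ (by rw [hXiim]; exact h)]
        exact (hXi q.1 q.2).1)⟩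
  let Ri : C(unitInterval × ℂ, ℂ) := ⟨S.piecewise (fun q => X (q.1, Mi q)) (fun q => q.2),
    piece_cont hSc hVo hVS (by fun_prop) (by fun_prop) (fun q hq hqV => by
      rcases hbd q hq hqV with h | h
      · rw [hXM0 _ _ ((hli q.1).1 q.2 h)]
        exact (hMi q.1 q.2).1
      · rw [hXMp _ _ ((hli q.1).2 q.2 h)]
        exact (hMi q.1 q.2).1)⟩
  have hRin : ∀ s (v : ℂ), 0 ≤ v.im → v.im ≤ Real.pi → R (s, v) = M (s, Xi (s, v)) :=
    fun s v h0 h1 => Set.piecewise_eq_of_mem S (fun q => M (q.1, Xi q)) (fun q => q.2)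
      (show (s, v) ∈ S from ⟨h0, h1⟩)
  have hRout : ∀ s (v : ℂ), ¬ (0 ≤ v.im ∧ v.im ≤ Real.pi) → R (s, v) = v :=
    fun s v h => Set.piecewise_eq_of_notMem S (fun q => M (q.1, Xi q)) (fun q => q.2)
      (show (s, v) ∉ S from h)
  have hRiin : ∀ s (v : ℂ), 0 ≤ v.im → v.im ≤ Real.pi → Ri (s, v) = X (s, Mi (s, v)) :=
    fun s v h0 h1 => Set.piecewise_eq_of_mem S (fun q => X (q.1, Mi q)) (fun q => q.2)
      (show (s, v) ∈ S from ⟨h0, h1⟩)
  have hRiout : ∀ s (v : ℂ), ¬ (0 ≤ v.im ∧ v.im ≤ Real.pi) → Ri (s, v) = v :=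
    fun s v h => Set.piecewise_eq_of_notMem S (fun q => X (q.1, Mi q)) (fun q => q.2)
      (show (s, v) ∉ S from h)
  have hRline : ∀ s (v : ℂ), (v.im = 0 ∨ v.im = Real.pi) → R (s, v) = v := by
    intro s v h
    rcases h with h | h
    · rw [hRin s v h.ge (by rw [h]; exact hpi.le), ← hXM0 _ _ (by rw [hXiim]; exact h)]
      exact (hXi s v).1
    · rw [hRin s v (by rw [h]; exact hpi.le) h.le, ← hXMp _ _ (by rw [hXiim]; exact h)]
      exact (hXi s v).1
  have hRH : ∀ s, IsHomeo (slice R s) := by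
    intro s
    refine ⟨slice Ri s, fun v => ?_, fun v => ?_⟩
    · simp only [slice_apply]
      by_cases h : 0 ≤ v.im ∧ v.im ≤ Real.pi
      · have h3 := hmapsi s v h.1 h.2
        rw [hRiin s v h.1 h.2, hRin _ _ (by rw [hXim]; exact h3.1) (by rw [hXim]; exact h3.2),
          (hXi s _).2, (hMi s _).1]
      · rw [hRiout s v h, hRout s v h]
    · simp only [slice_apply]
      by_cases h : 0 ≤ v.im ∧ v.im ≤ Real.pi
      · have h3 := hmaps s (Xi (s, v)) (by rw [hXiim]; exact h.1) (by rw [hXiim]; exact h.2)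
        rw [hRin s v h.1 h.2, hRiin _ _ h3.1 h3.2, (hMi s _).2, (hXi s _).1]
      · rw [hRout s v h, hRiout s v h]
  have hRμ : ∀ s v, R (s, v + μ) = R (s, v) + μ := by
    intro s v
    have him : (v + μ).im = v.im := by simp
    by_cases h : 0 ≤ v.im ∧ v.im ≤ Real.pi
    · rw [hRin s v h.1 h.2, hRin s _ (by rw [him]; exact h.1) (by rw [him]; exact h.2), hXiμ, hMμ]
    · rw [hRout s v h, hRout s _ (by rw [him]; exact h)]
  obtain ⟨K, K1, K2, K3⟩ := add_ext piI_ne R hRH (fun s v hv => by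
    rw [div_piI_re] at hv
    by_cases h : 0 ≤ v.im ∧ v.im ≤ Real.pi
    · apply hRline
      rcases h.1.eq_or_lt with h1 | h1
      · exact Or.inl h1.symm
      rcases h.2.eq_or_lt with h2 | h2
      · exact Or.inr h2
      · exact (hv ⟨div_pos h1 hpi, (div_lt_one hpi).2 h2⟩).elim
    · exact hRout s v h)
  have hKG : ∀ s, slice K s ∈ LL μ := by
    intro s
    refine ⟨K1 s, fun v => ?_, fun v => K2 s v⟩
    simp only [slice_apply]
    rw [K3, K3]
    have e1 : ((v + μ) / (Real.pi * I)).re = (v / (Real.pi * I)).re := by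
      rw [div_piI_re, div_piI_re]
      simp
    rw [e1]
    have e2 : v + μ - ⌊(v / (Real.pi * I)).re⌋ * (Real.pi * I) =
        (v - ⌊(v / (Real.pi * I)).re⌋ * (Real.pi * I)) + μ := by ring
    rw [e2, hRμ]
    ring
  have hred : ∀ v : ℂ, 0 ≤ (v - ⌊(v / (Real.pi * I)).re⌋ * (Real.pi * I)).im ∧
      (v - ⌊(v / (Real.pi * I)).re⌋ * (Real.pi * I)).im ≤ Real.pi := by
    intro v
    have e : (v - ⌊(v / (Real.pi * I)).re⌋ * (Real.pi * I)).im =
        Real.pi * Int.fract (v.im / Real.pi) := by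
      rw [div_piI_re, Int.fract, mul_sub, mul_div_cancel₀ _ hpi.ne', Complex.sub_im]
      simp
      ring
    rw [e]
    have f1 := Int.fract_nonneg (v.im / Real.pi)
    have f2 := Int.fract_lt_one (v.im / Real.pi)
    constructor
    · positivity
    · nlinarith
  have hX0 : ∀ v, X (0, v) = v := by
    intro v
    have h1 : ∀ x, v0 (0, x) = x := by
      intro x
      simp only [v0]
      rw [hM0 _ (by simp) (by simp [hpi.le]), hN0]
      simp
    have h2 : ∀ x, v1 (0, x) = x := by
      intro x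
      simp only [v1]
      rw [hM0 _ (by simp [hpi.le]) (by simp), hN.2.2, hN0]
      simp
    apply Complex.ext
    · rw [hXre]
      simp only [hx, h1, h2]
      ring
    · rw [hXim]
  have hXi0 : ∀ v, Xi (0, v) = v := by
    intro v
    have := (hXi 0 v).1
    rwa [hX0] at this
  refine ⟨slice K 1, joined_of_family' K hKG (fun v => ?_) (fun _ => rfl), fun x => ?_,
    fun y => ?_⟩
  · rw [K3]
    obtain ⟨r1, r2⟩ := hred v
    rw [hRin _ _ r1 r2, hXi0, hM0 _ r1 r2]
    have h1 := int_shift' (M := N) hN.2.2 ⌊(v / (Real.pi * I)).re⌋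
      (v - ⌊(v / (Real.pi * I)).re⌋ * (Real.pi * I))
    rw [sub_add_cancel] at h1
    rw [h1]
  · rw [slice_apply, K3]
    have e : ((x : ℂ) / (Real.pi * I)).re = 0 := by rw [div_piI_re]; simp
    rw [e]
    simp only [Int.floor_zero, Int.cast_zero, zero_mul, sub_zero, add_zero]
    exact hRline 1 x (Or.inl (by simp))
  · rw [slice_apply, K3]
    obtain ⟨r1, r2⟩ := hred (y * I)
    have e : ∃ y' : ℝ, (y * I : ℂ) - ⌊((y * I : ℂ) / (Real.pi * I)).re⌋ * (Real.pi * I) = y' * I :=
      ⟨y - ⌊((y * I : ℂ) / (Real.pi * I)).re⌋ * Real.pi, by push_cast; ring⟩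
    obtain ⟨y', hy'⟩ := e
    rw [hRin _ _ r1 r2, hy']
    have h1 : X (1, y' * I) = y' * I := by
      have h3 : v0 (1, 0) = 0 := by
        simp only [v0]
        have := hM1 0
        simp only [Complex.ofReal_zero, zero_mul] at this
        rw [Complex.ofReal_zero, this]
        simp
      have h4 : v1 (1, 0) = 0 := by
        simp only [v1]
        rw [Complex.ofReal_zero, zero_add, hM1]
        simp
      apply Complex.ext
      · rw [hXre]
        have e3 : ((y' : ℂ) * I).re = 0 := by simp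
        rw [e3]
        simp only [hx, h3, h4]
        ring
      · rw [hXim]
    have h2 : Xi (1, y' * I) = y' * I := by
      have := (hXi 1 (y' * I)).2
      rwa [h1] at this
    rw [h2, hM1, ← hy']
    ring

end Pool.Agent.Helper984_CP
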