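import Pool.Agent.Helper984_CP.Ann3

/-!
# The annulus step, third part: the Alexander trick in a rectangle
-/

set_option autoImplicit false

open Set Filter Topology Complex ComplexConjugate

noncomputable section

namespace Pool.Agent.Helper984_CP

/-- the open rectangle -/
def rect (μ : ℝ) : Set ℂ := Ioo 0 μ ×ℂ Ioo 0 Real.pi

/-- the closed rectangle -/
def crect (μ : ℝ) : Set ℂ := Icc 0 μ ×ℂ Icc 0 Real.pi

theorem convex_rect (μ : ℝ) : Convex ℝ (rect μ) := by
  have h1 : Convex ℝ (Complex.re ⁻¹' Ioo 0 μ) :=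
    (convex_Ioo 0 μ).is_linear_preimage (f := Complex.re)
      ⟨fun x y => Complex.add_re x y, fun c x => by simp⟩
  have h2 : Convex ℝ (Complex.im ⁻¹' Ioo 0 Real.pi) :=
    (convex_Ioo 0 Real.pi).is_linear_preimage (f := Complex.im)
      ⟨fun x y => Complex.add_im x y, fun c x => by simp⟩
  exact h1.inter h2

theorem closure_rect {μ : ℝ} (hμ : 0 < μ) : closure (rect μ) = crect μ := by
  rw [rect, crect, Complex.closure_reProdIm, closure_Ioo hμ.ne, closure_Ioo Real.pi_pos.ne]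

theorem ann_three {μ : ℝ} (hμ : 0 < μ) {N : C(ℂ, ℂ)} (hN : N ∈ LL μ) (hN0 : ∀ x : ℝ, N x = x)
    (hNi : ∀ y : ℝ, N (y * I) = y * I) : JoinedIn (LL μ) (ContinuousMap.id ℂ) N := by
  classical
  have hpi := Real.pi_pos
  obtain ⟨a0, api⟩ := lines_id hN hN0
  have ar0 : ∀ v : ℂ, v.re = 0 → N v = v := by
    intro v hv
    have e : v = ((v.im : ℝ) : ℂ) * I := Complex.ext (by simp [hv]) (by simp)
    rw [e, hNi]
  have arμ : ∀ v : ℂ, v.re = μ → N v = v := by
    intro v hv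
    have e : v = (v - μ) + μ := by ring
    rw [e, hN.2.1, ar0 (v - μ) (by simp [hv])]
  obtain ⟨Ni, n1, n2⟩ := hN.1
  have hbdN : ∀ v ∈ crect μ, v ∉ rect μ → N v = v := by
    intro v hv hv'
    rw [crect, Complex.mem_reProdIm] at hv
    rw [rect, Complex.mem_reProdIm] at hv'
    obtain ⟨⟨h1, h2⟩, h3, h4⟩ := hv
    rcases h1.eq_or_lt with h | h1
    · exact ar0 v h.symm
    rcases h2.eq_or_lt with h | h2
    · exact arμ v h
    rcases h3.eq_or_lt with h | h3
    · exact a0 v h.symm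
    rcases h4.eq_or_lt with h | h4
    · exact api v h
    exact (hv' ⟨⟨h1, h2⟩, h3, h4⟩).elim
  have hinv : ∀ v, N v = v → Ni v = v := by
    intro v hv
    have := n2 v
    rwa [hv] at this
  have hmaps : ∀ (N Ni : C(ℂ, ℂ)), (∀ x, Ni (N x) = x) → (∀ v : ℂ, v.im = 0 → N v = v ∧ Ni v = v) →
      (∀ v : ℂ, v.im = Real.pi → N v = v ∧ Ni v = v) → (∀ v : ℂ, v.re = 0 → N v = v ∧ Ni v = v) →
      (∀ v : ℂ, v.re = μ → N v = v ∧ Ni v = v) → ∀ v ∈ rect μ, N v ∈ rect μ := by
    intro N Ni h h1 h2 h3 h4 v hv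
    have m0 : (0 : ℂ) ∈ closure (rect μ) := by
      rw [closure_rect hμ, crect, Complex.mem_reProdIm]
      simp [hμ.le, hpi.le]
    have m1 : (Real.pi * I : ℂ) ∈ closure (rect μ) := by
      rw [closure_rect hμ, crect, Complex.mem_reProdIm]
      simp [hμ.le, hpi.le]
    have m2 : ((μ : ℝ) : ℂ) ∈ closure (rect μ) := by
      rw [closure_rect hμ, crect, Complex.mem_reProdIm]
      simp [hμ.le, hpi.le]
    have key : ∀ v ∈ rect μ, (0 < v.re ∧ v.re < μ) ∧ (0 < v.im ∧ v.im < Real.pi) := by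
      intro v hv
      rw [rect, Complex.mem_reProdIm] at hv
      exact hv
    rw [rect, Complex.mem_reProdIm]
    constructor
    · refine avoid_two (convex_rect μ).isPreconnected (f := fun v => (N v).re) (by fun_prop)
        (fun v hv hcon => ?_) (fun v hv hcon => ?_) m0 m2 ?_ ?_ hv
      · have h5 := (h3 _ hcon).2
        rw [h] at h5
        rw [← h5] at hcon
        exact (key v hv).1.1.ne' hcon
      · have h5 := (h4 _ hcon).2
        rw [h] at h5
        rw [← h5] at hcon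
        exact (key v hv).1.2.ne hcon
      · rw [(h1 0 (by simp)).1]
        simpa using hμ
      · rw [(h4 _ (by simp)).1]
        simpa using hμ
    · refine avoid_two (convex_rect μ).isPreconnected (f := fun v => (N v).im) (by fun_prop)
        (fun v hv hcon => ?_) (fun v hv hcon => ?_) m0 m1 ?_ ?_ hv
      · have h5 := (h1 _ hcon).2
        rw [h] at h5
        rw [← h5] at hcon
        exact (key v hv).2.1.ne' hcon
      · have h5 := (h2 _ hcon).2
        rw [h] at h5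
        rw [← h5] at hcon
        exact (key v hv).2.2.ne hcon
      · rw [(h1 0 (by simp)).1]
        simpa using hpi
      · rw [(h2 _ (by simp)).1]
        simpa using hpi
  have q1 : ∀ v : ℂ, v.im = 0 → N v = v ∧ Ni v = v := fun v hv => ⟨a0 v hv, hinv v (a0 v hv)⟩
  have q2 : ∀ v : ℂ, v.im = Real.pi → N v = v ∧ Ni v = v :=
    fun v hv => ⟨api v hv, hinv v (api v hv)⟩
  have q3 : ∀ v : ℂ, v.re = 0 → N v = v ∧ Ni v = v := fun v hv => ⟨ar0 v hv, hinv v (ar0 v hv)⟩
  have q4 : ∀ v : ℂ, v.re = μ → N v = v ∧ Ni v = v := fun v hv => ⟨arμ v hv, hinv v (arμ v hv)⟩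
  have hm1 := hmaps N Ni n2 q1 q2 q3 q4
  have hm2 := hmaps Ni N n1 (fun v hv => (q1 v hv).symm) (fun v hv => (q2 v hv).symm)
    (fun v hv => (q3 v hv).symm) (fun v hv => (q4 v hv).symm)
  have hrc : rect μ ⊆ crect μ := by
    intro v hv
    rw [rect, Complex.mem_reProdIm] at hv
    rw [crect, Complex.mem_reProdIm]
    exact ⟨⟨hv.1.1.le, hv.1.2.le⟩, hv.2.1.le, hv.2.2.le⟩
  have hco : IsOpen (rect μ) := isOpen_Ioo.reProdIm isOpen_Ioo
  have hcc : IsClosed (crect μ) := by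
    rw [← closure_rect hμ]
    exact isClosed_closure
  have hc1 : ∀ v ∈ crect μ, N v ∈ crect μ := by
    intro v hv
    by_cases h : v ∈ rect μ
    · exact hrc (hm1 v h)
    · rw [hbdN v hv h]
      exact hv
  have hc2 : ∀ v ∈ crect μ, Ni v ∈ crect μ := by
    intro v hv
    by_cases h : v ∈ rect μ
    · exact hrc (hm2 v h)
    · rw [hinv v (hbdN v hv h)]
      exact hv
  let E : C(ℂ, ℂ) := ⟨(crect μ).piecewise N (fun v => v),
    piece_cont hcc hco hrc N.continuous continuous_id hbdN⟩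
  let Ei : C(ℂ, ℂ) := ⟨(crect μ).piecewise Ni (fun v => v),
    piece_cont hcc hco hrc Ni.continuous continuous_id (fun v hv hv' => hinv v (hbdN v hv hv'))⟩
  have hEin : ∀ v ∈ crect μ, E v = N v := fun v hv => Set.piecewise_eq_of_mem _ N (fun v => v) hv
  have hEout : ∀ v ∉ crect μ, E v = v := fun v hv =>
    Set.piecewise_eq_of_notMem _ N (fun v => v) hv
  have hEiin : ∀ v ∈ crect μ, Ei v = Ni v := fun v hv =>
    Set.piecewise_eq_of_mem _ Ni (fun v => v) hv
  have hEiout : ∀ v ∉ crect μ, Ei v = v := fun v hv =>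
    Set.piecewise_eq_of_notMem _ Ni (fun v => v) hv
  have hEH : IsHomeo E := by
    refine ⟨Ei, fun v => ?_, fun v => ?_⟩
    · by_cases h : v ∈ crect μ
      · rw [hEiin v h, hEin _ (hc2 v h), n1]
      · rw [hEiout v h, hEout v h]
    · by_cases h : v ∈ crect μ
      · rw [hEin v h, hEiin _ (hc1 v h), n2]
      · rw [hEout v h, hEiout v h]
  have hEid : ∀ v ∉ rect μ, E v = v := by
    intro v hv
    by_cases h : v ∈ crect μ
    · rw [hEin v h, hbdN v h hv]
    · exact hEout v h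
  obtain ⟨B, hB⟩ : ∃ B, ∀ v, ‖E v - v‖ ≤ B := by
    let P : C(unitInterval × ℂ, ℂ) := ⟨fun q => N q.2, by fun_prop⟩
    obtain ⟨B, hB⟩ := bdd_disp P hμ.ne' (fun s w => LL_tpi hN w) (fun s w => hN.2.1 w)
    refine ⟨B, fun v => ?_⟩
    by_cases h : v ∈ crect μ
    · rw [hEin v h]
      exact hB 0 v
    · rw [hEout v h, sub_self, norm_zero]
      exact (norm_nonneg _).trans (hB 0 0)
  obtain ⟨z0, hz0⟩ : ∃ z0 : ℂ, z0 = ((μ / 2 : ℝ) : ℂ) + ((Real.pi / 2 : ℝ) : ℂ) * I := ⟨_, rfl⟩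
  have hz0m : z0 ∈ rect μ := by
    rw [rect, Complex.mem_reProdIm, hz0]
    simp only [Complex.add_re, Complex.ofReal_re, Complex.mul_re, Complex.I_re, mul_zero,
      Complex.ofReal_im, Complex.I_im, mul_one, sub_self, add_zero, Complex.add_im,
      Complex.mul_im, zero_add, mem_Ioo]
    refine ⟨⟨by positivity, by linarith⟩, by positivity, by linarith⟩
  obtain ⟨A, A1, A2, A3, A4⟩ := alexander hEH hB (z0 := z0) (R := rect μ) (by
    intro z hz s hs hs1 hcon
    apply hz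
    have h1 := (convex_rect μ).add_smul_sub_mem hz0m hcon ⟨hs.le, hs1⟩
    have h' : ((s : ℝ) : ℂ) ≠ 0 := by exact_mod_cast hs.ne'
    have e : z0 + s • (z0 + (z - z0) / (s : ℂ) - z0) = z := by
      rw [Complex.real_smul]
      field_simp
      ring
    rwa [e] at h1) hEid
  have hμc : ((μ : ℝ) : ℂ) ≠ 0 := by exact_mod_cast hμ.ne'
  have hdμ : ∀ v : ℂ, (v / ((μ : ℝ) : ℂ)).re = v.re / μ := fun v => Complex.div_ofReal_re v μ
  obtain ⟨K2, B1, B2, B3⟩ := add_ext hμc A A1 (fun s v hv => by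
    apply A4
    intro hcon
    rw [rect, Complex.mem_reProdIm] at hcon
    rw [hdμ] at hv
    exact hv ⟨div_pos hcon.1.1 hμ, (div_lt_one hμ).2 hcon.1.2⟩)
  obtain ⟨K3, C1, C2, C3⟩ := add_ext piI_ne K2 B1 (fun s v hv => by
    rw [B3, A4, sub_add_cancel]
    intro hcon
    rw [rect, Complex.mem_reProdIm] at hcon
    rw [div_piI_re] at hv
    have e : (v - ⌊(v / ((μ : ℝ) : ℂ)).re⌋ * ((μ : ℝ) : ℂ)).im = v.im := by simp
    rw [e] at hcon
    exact hv ⟨div_pos hcon.2.1 hpi, (div_lt_one hpi).2 hcon.2.2⟩)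
  have hKG : ∀ s, slice K3 s ∈ LL μ := by
    intro s
    refine ⟨C1 s, fun v => ?_, fun v => C2 s v⟩
    simp only [slice_apply]
    rw [C3, C3]
    have e1 : ((v + μ) / (Real.pi * I)).re = (v / (Real.pi * I)).re := by
      rw [div_piI_re, div_piI_re]
      simp
    rw [e1]
    have e2 : v + μ - ⌊(v / (Real.pi * I)).re⌋ * (Real.pi * I) =
        (v - ⌊(v / (Real.pi * I)).re⌋ * (Real.pi * I)) + μ := by ring
    rw [e2, B2]
    ring
  refine joined_of_family' K3 hKG (fun v => ?_) (fun v => ?_)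
  · rw [C3, B3, A2]
    simp
  · rw [C3]
    obtain ⟨n, hn⟩ : ∃ n : ℤ, n = ⌊(v / (Real.pi * I)).re⌋ := ⟨_, rfl⟩
    rw [← hn]
    obtain ⟨v', hv'⟩ : ∃ v', v' = v - n * (Real.pi * I) := ⟨_, rfl⟩
    rw [← hv', B3, A3]
    obtain ⟨m, hm⟩ : ∃ m : ℤ, m = ⌊(v' / ((μ : ℝ) : ℂ)).re⌋ := ⟨_, rfl⟩
    rw [← hm]
    obtain ⟨v'', hv''⟩ : ∃ v'', v'' = v' - m * ((μ : ℝ) : ℂ) := ⟨_, rfl⟩
    rw [← hv'']
    have hmem : v'' ∈ crect μ := by
      rw [crect, Complex.mem_reProdIm]
      have e1 : v''.re = μ * Int.fract (v'.re / μ) := by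
        rw [Int.fract, ← hdμ, ← hm, hdμ, mul_sub, mul_div_cancel₀ _ hμ.ne', hv'']
        simp
        ring
      have e2 : v''.im = Real.pi * Int.fract (v.im / Real.pi) := by
        rw [Int.fract, ← div_piI_re, ← hn, div_piI_re, mul_sub, mul_div_cancel₀ _ hpi.ne', hv'',
          hv']
        simp
        ring
      rw [e1, e2]
      have f1 := Int.fract_nonneg (v'.re / μ)
      have f2 := Int.fract_lt_one (v'.re / μ)
      have f3 := Int.fract_nonneg (v.im / Real.pi)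
      have f4 := Int.fract_lt_one (v.im / Real.pi)
      refine ⟨⟨by positivity, by nlinarith⟩, by positivity, by nlinarith⟩
    rw [hEin _ hmem]
    have h1 := int_shift' (M := N) hN.2.1 m v''
    have h2 := int_shift' (M := N) hN.2.2 n v'
    have e3 : v'' + m * ((μ : ℝ) : ℂ) = v' := by rw [hv'']; ring
    have e4 : v' + n * (Real.pi * I) = v := by rw [hv']; ring
    rw [e3] at h1
    rw [e4] at h2
    rw [h2, h1]

/-- lattice homeomorphisms which are the identity on the real line can be deformed to the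
identity -/
theorem ann_all {μ : ℝ} (hμ : 0 < μ) (hexp : Real.exp (-μ) ≤ 1 / 2) {N : C(ℂ, ℂ)}
    (hN : N ∈ LL μ) (hN0 : ∀ x : ℝ, N x = x) : JoinedIn (LL μ) N (ContinuousMap.id ℂ) := by
  obtain ⟨M, h1, h2, h3, h4, h5, h6⟩ := ann_one hμ hexp hN hN0
  obtain ⟨N1, j, h7, h8⟩ := ann_two hμ hN hN0 h1 h2 h3 h4 h5 h6
  exact j.trans (ann_three hμ j.target_mem h7 h8).symm

end Pool.Agent.Helper984_CP
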