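import Mathlib

/-!
# Square averages of arrays with constant curvature
-/

set_option autoImplicit false

open Finset

noncomputable section

namespace Pool.Agent.Helper984_CP

/-- the sum over a square -/
def sqS (S : ℤ → ℤ → ℝ) (n : ℕ) (a b : ℤ) : ℝ :=
  ∑ i ∈ range n, ∑ j ∈ range n, S (a + i) (b + j)

theorem sqS_two (S : ℤ → ℤ → ℝ) (n : ℕ) (a b : ℤ) :
    sqS S n a (b + 1) - sqS S n a b = ∑ i ∈ range n, (S (a + i) (b + n) - S (a + i) b) := by
  rw [sqS, sqS, ← sum_sub_distrib]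
  refine sum_congr rfl fun i _ => ?_
  rw [← sum_sub_distrib]
  have h := sum_range_sub (fun j : ℕ => S (a + i) (b + j)) n
  rw [Nat.cast_zero, add_zero] at h
  rw [← h]
  refine sum_congr rfl fun j _ => ?_
  rw [Nat.cast_add, Nat.cast_one, add_assoc b 1, add_comm (1 : ℤ)]

theorem sqS_one (S : ℤ → ℤ → ℝ) (n : ℕ) (a b : ℤ) :
    sqS S n (a + 1) b - sqS S n a b = ∑ j ∈ range n, (S (a + n) (b + j) - S a (b + j)) := by
  rw [sqS, sqS, sum_comm, sum_comm (s := range n) (t := range n) (f := fun i j => S (a + i) (b + j)),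
    ← sum_sub_distrib]
  refine sum_congr rfl fun j _ => ?_
  rw [← sum_sub_distrib]
  have h := sum_range_sub (fun i : ℕ => S (a + i) (b + j)) n
  rw [Nat.cast_zero, add_zero] at h
  rw [← h]
  refine sum_congr rfl fun i _ => ?_
  rw [Nat.cast_add, Nat.cast_one, add_assoc a 1, add_comm (1 : ℤ)]

/-- the curvature identity on a square -/
theorem euler_square {P Q : ℤ → ℤ → ℝ} {K : ℝ}
    (h1 : ∀ a b, P a (b + 1) - P a b - (Q (a + 1) b - Q a b) = K) (n : ℕ) (a b : ℤ) :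
    ∑ i ∈ range n, (P (a + i) (b + n) - P (a + i) b) -
      ∑ j ∈ range n, (Q (a + n) (b + j) - Q a (b + j)) = n * (n * K) := by
  have e1 : ∀ i : ℕ, P (a + i) (b + n) - P (a + i) b =
      ∑ j ∈ range n, (P (a + i) (b + j + 1) - P (a + i) (b + j)) := by
    intro i
    have h := sum_range_sub (fun j : ℕ => P (a + i) (b + j)) n
    rw [Nat.cast_zero, add_zero] at h
    rw [← h]
    refine sum_congr rfl fun j _ => ?_
    rw [Nat.cast_add, Nat.cast_one, add_assoc]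
  have e2 : ∀ j : ℕ, Q (a + n) (b + j) - Q a (b + j) =
      ∑ i ∈ range n, (Q (a + i + 1) (b + j) - Q (a + i) (b + j)) := by
    intro j
    have h := sum_range_sub (fun i : ℕ => Q (a + i) (b + j)) n
    rw [Nat.cast_zero, add_zero] at h
    rw [← h]
    refine sum_congr rfl fun i _ => ?_
    rw [Nat.cast_add, Nat.cast_one, add_assoc]
  rw [sum_congr rfl fun i _ => e1 i, sum_congr rfl fun j _ => e2 j,
    sum_comm (s := range n) (t := range n)
      (f := fun j i => (Q (a + (i : ℕ) + 1) (b + (j : ℕ)) - Q (a + (i : ℕ)) (b + (j : ℕ)))),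
    ← sum_sub_distrib]
  have e3 : ∀ i ∈ range n, (∑ j ∈ range n, (P (a + i) (b + j + 1) - P (a + i) (b + j)) -
      ∑ j ∈ range n, (Q (a + i + 1) (b + j) - Q (a + i) (b + j))) = n * K := by
    intro i _
    rw [← sum_sub_distrib, sum_congr rfl (fun (j : ℕ) _ => h1 (a + i) (b + (j : ℤ))), sum_const,
      card_range, nsmul_eq_mul]
  rw [sum_congr rfl e3, sum_const, card_range, nsmul_eq_mul]

/-- sums of small terms -/
theorem abs_sum_le_mul {f : ℕ → ℝ} {n : ℕ} {c : ℝ} (h : ∀ i ∈ range n, |f i| ≤ c) :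
    |∑ i ∈ range n, f i| ≤ n * c := by
  refine (abs_sum_le_sum_abs _ _).trans ((sum_le_sum h).trans ?_)
  rw [sum_const, card_range, nsmul_eq_mul]

/-- functions on the line with nearly constant increments -/
theorem line_bound {ψ : ℤ → ℝ} {δ E : ℝ} {m : ℤ}
    (h : ∀ j : ℤ, |j| ≤ |m| → |ψ (j + 1) - ψ j - δ| ≤ E) :
    |ψ m - ψ 0 - m * δ| ≤ |(m : ℝ)| * E := by
  have key : ∀ (φ : ℤ → ℝ) (δ : ℝ) (m : ℕ), (∀ j : ℕ, j < m → |φ (j + 1) - φ j - δ| ≤ E) →
      |φ m - φ 0 - m * δ| ≤ m * E := by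
    intro φ δ m hφ
    induction m with
    | zero => simp
    | succ m ih =>
      have h1 := ih fun j hj => hφ j (by omega)
      have h2 := hφ m (by omega)
      have e : φ ((m + 1 : ℕ) : ℤ) - φ 0 - ((m + 1 : ℕ) : ℝ) * δ =
          (φ m - φ 0 - m * δ) + (φ (m + 1) - φ m - δ) := by
        push_cast
        ring
      rw [e]
      refine (abs_add_le _ _).trans ?_
      push_cast
      linarith
  rcases le_total 0 m with hm | hm
  · obtain ⟨n, rfl⟩ := Int.eq_ofNat_of_zero_le hm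
    have h1 := key ψ δ n fun j hj => h j (by
      rw [abs_of_nonneg (by positivity : (0 : ℤ) ≤ (j : ℤ)), abs_of_nonneg hm]
      exact_mod_cast hj.le)
    have e : |(((n : ℕ) : ℤ) : ℝ)| = n := by
      rw [Int.cast_natCast, Nat.abs_cast]
    rw [e]
    rwa [Int.cast_natCast]
  · obtain ⟨n, hn⟩ := Int.eq_ofNat_of_zero_le (neg_nonneg.2 hm)
    have hmn : m = -(n : ℤ) := by omega
    have h1 := key (fun j => ψ (-j)) (-δ) n fun j hj => by
      have h2 := h (-(j : ℤ) - 1) (by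
        rw [hmn, abs_neg, Nat.abs_cast, abs_le]
        constructor <;> omega)
      have e1 : -(j : ℤ) - 1 + 1 = -(j : ℤ) := by ring
      have e2 : -((j : ℤ) + 1) = -(j : ℤ) - 1 := by ring
      rw [e1] at h2
      simp only [e2]
      rw [abs_sub_comm] at h2
      have e3 : ψ (-(j : ℤ) - 1) - ψ (-(j : ℤ)) - -δ =
        δ - (ψ (-(j : ℤ)) - ψ (-(j : ℤ) - 1)) := by ring
      rw [e3]
      exact h2
    have e : |(m : ℝ)| = n := by
      rw [hmn]
      push_cast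
      rw [abs_neg, Nat.abs_cast]
    rw [e, hmn]
    simp only [neg_zero] at h1
    have e4 : ψ (-(n : ℤ)) - ψ 0 - ((-(n : ℤ) : ℤ) : ℝ) * δ =
      ψ (-(n : ℤ)) - ψ 0 - (n : ℝ) * -δ := by
      push_cast
      ring
    rw [e4]
    exact h1

/-- the hypotheses on the arrays: `P` and `Q` are nearly affine functions of `S`, and `S` is
Lipschitz, on a large box -/
structure ArrH (S P Q : ℤ → ℤ → ℝ) (K C0 η α β : ℝ) (N : ℤ) : Prop where
  c0 : 0 ≤ C0
  eul : ∀ a b, P a (b + 1) - P a b - (Q (a + 1) b - Q a b) = K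
  lip : ∀ a b a' b' : ℤ, |a| ≤ N → |b| ≤ N → |a'| ≤ N → |b'| ≤ N →
    |S a b - S a' b'| ≤ C0 * (|(a : ℝ) - a'| + |(b : ℝ) - b'|)
  hP : ∀ a b a' b' : ℤ, |a| ≤ N → |b| ≤ N → |a'| ≤ N → |b'| ≤ N →
    |P a b - P a' b' - α * (S a b - S a' b')| ≤ η
  hQ : ∀ a b a' b' : ℤ, |a| ≤ N → |b| ≤ N → |a'| ≤ N → |b'| ≤ N →
    |Q a b - Q a' b' - β * (S a b - S a' b')| ≤ η

theorem box_mem {a N : ℤ} {n i : ℕ} (h : |a| + n ≤ N) (hi : i ≤ n) : |a + i| ≤ N := by
  have h1 := abs_le.1 (le_refl |a|)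
  rw [abs_le]
  constructor <;> omega

theorem box_mem' {a N : ℤ} {n : ℕ} (h : |a| + n ≤ N) : |a| ≤ N := by omega

section
variable {S P Q : ℤ → ℤ → ℝ} {K C0 η α β : ℝ} {N : ℤ}

theorem ArrH.flux (h : ArrH S P Q K C0 η α β N) {n : ℕ} {a b : ℤ} (ha : |a| + n ≤ N)
    (hb : |b| + n ≤ N) :
    |α * (sqS S n a (b + 1) - sqS S n a b) - β * (sqS S n (a + 1) b - sqS S n a b) -
      n * (n * K)| ≤ 2 * (n * η) := by
  rw [sqS_two, sqS_one, ← euler_square h.eul n a b, mul_sum, mul_sum]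
  have e : ∑ i ∈ range n, α * (S (a + i) (b + n) - S (a + i) b) -
      ∑ j ∈ range n, β * (S (a + n) (b + j) - S a (b + j)) -
      (∑ i ∈ range n, (P (a + i) (b + n) - P (a + i) b) -
      ∑ j ∈ range n, (Q (a + n) (b + j) - Q a (b + j))) =
      ∑ j ∈ range n, (Q (a + n) (b + j) - Q a (b + j) - β * (S (a + n) (b + j) - S a (b + j))) -
      ∑ i ∈ range n, (P (a + i) (b + n) - P (a + i) b - α * (S (a + i) (b + n) - S (a + i) b)) := by
    simp only [sum_sub_distrib]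
    ring
  rw [e]
  refine (abs_sub _ _).trans ?_
  have b1 : |∑ j ∈ range n, (Q (a + n) (b + j) - Q a (b + j) -
      β * (S (a + n) (b + j) - S a (b + j)))| ≤ n * η :=
    abs_sum_le_mul fun j hj => h.hQ _ _ _ _ (box_mem ha le_rfl) (box_mem hb (mem_range.1 hj).le)
      (box_mem' ha) (box_mem hb (mem_range.1 hj).le)
  have b2 : |∑ i ∈ range n, (P (a + i) (b + n) - P (a + i) b -
      α * (S (a + i) (b + n) - S (a + i) b))| ≤ n * η :=
    abs_sum_le_mul fun i hi => h.hP _ _ _ _ (box_mem ha (mem_range.1 hi).le) (box_mem hb le_rfl)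
      (box_mem ha (mem_range.1 hi).le) (box_mem' hb)
  linarith

theorem ArrH.d2_bound (h : ArrH S P Q K C0 η α β N) {n : ℕ} {a b : ℤ} (ha : |a| + n ≤ N)
    (hb : |b| + n ≤ N) : |sqS S n a (b + 1) - sqS S n a b| ≤ n * (C0 * n) := by
  rw [sqS_two]
  refine abs_sum_le_mul fun i hi => ?_
  refine (h.lip _ _ _ _ (box_mem ha (mem_range.1 hi).le) (box_mem hb le_rfl)
    (box_mem ha (mem_range.1 hi).le) (box_mem' hb)).trans (le_of_eq ?_)
  push_cast
  rw [sub_self, abs_zero, zero_add, add_sub_cancel_left, Nat.abs_cast]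

theorem ArrH.d1_bound (h : ArrH S P Q K C0 η α β N) {n : ℕ} {a b : ℤ} (ha : |a| + n ≤ N)
    (hb : |b| + n ≤ N) : |sqS S n (a + 1) b - sqS S n a b| ≤ n * (C0 * n) := by
  rw [sqS_one]
  refine abs_sum_le_mul fun i hi => ?_
  refine (h.lip _ _ _ _ (box_mem ha le_rfl) (box_mem hb (mem_range.1 hi).le)
    (box_mem' ha) (box_mem hb (mem_range.1 hi).le)).trans (le_of_eq ?_)
  push_cast
  rw [sub_self, abs_zero, add_zero, add_sub_cancel_left, Nat.abs_cast]

theorem ArrH.d2_var (h : ArrH S P Q K C0 η α β N) {n : ℕ} {a b a' b' : ℤ} (ha : |a| + n ≤ N)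
    (hb : |b| + n ≤ N) (ha' : |a'| + n ≤ N) (hb' : |b'| + n ≤ N) :
    |(sqS S n a (b + 1) - sqS S n a b) - (sqS S n a' (b' + 1) - sqS S n a' b')| ≤
      n * (2 * (C0 * (|(a : ℝ) - a'| + |(b : ℝ) - b'|))) := by
  rw [sqS_two, sqS_two, ← sum_sub_distrib]
  refine abs_sum_le_mul fun i hi => ?_
  have h1 := h.lip (a + i) (b + n) (a' + i) (b' + n) (box_mem ha (mem_range.1 hi).le)
    (box_mem hb le_rfl) (box_mem ha' (mem_range.1 hi).le) (box_mem hb' le_rfl)
  have h2 := h.lip (a + i) b (a' + i) b' (box_mem ha (mem_range.1 hi).le)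
    (box_mem' hb) (box_mem ha' (mem_range.1 hi).le) (box_mem' hb')
  push_cast at h1 h2
  rw [add_sub_add_right_eq_sub] at h1 h2
  rw [add_sub_add_right_eq_sub] at h1
  have e : S (a + i) (b + n) - S (a + i) b - (S (a' + i) (b' + n) - S (a' + i) b') =
    (S (a + i) (b + n) - S (a' + i) (b' + n)) - (S (a + i) b - S (a' + i) b') := by ring
  rw [e]
  refine (abs_sub _ _).trans ?_
  linarith

theorem ArrH.d1_var (h : ArrH S P Q K C0 η α β N) {n : ℕ} {a b a' b' : ℤ} (ha : |a| + n ≤ N)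
    (hb : |b| + n ≤ N) (ha' : |a'| + n ≤ N) (hb' : |b'| + n ≤ N) :
    |(sqS S n (a + 1) b - sqS S n a b) - (sqS S n (a' + 1) b' - sqS S n a' b')| ≤
      n * (2 * (C0 * (|(a : ℝ) - a'| + |(b : ℝ) - b'|))) := by
  rw [sqS_one, sqS_one, ← sum_sub_distrib]
  refine abs_sum_le_mul fun i hi => ?_
  have h1 := h.lip (a + n) (b + i) (a' + n) (b' + i) (box_mem ha le_rfl)
    (box_mem hb (mem_range.1 hi).le) (box_mem ha' le_rfl) (box_mem hb' (mem_range.1 hi).le)
  have h2 := h.lip a (b + i) a' (b' + i) (box_mem' ha) (box_mem hb (mem_range.1 hi).le)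
    (box_mem' ha') (box_mem hb' (mem_range.1 hi).le)
  push_cast at h1 h2
  rw [add_sub_add_right_eq_sub] at h1 h2
  rw [add_sub_add_right_eq_sub] at h1
  have e : S (a + n) (b + i) - S a (b + i) - (S (a' + n) (b' + i) - S a' (b' + i)) =
    (S (a + n) (b + i) - S (a' + n) (b' + i)) - (S a (b + i) - S a' (b' + i)) := by ring
  rw [e]
  refine (abs_sub _ _).trans ?_
  linarith

/-- one long step -/
theorem ArrH.step (h : ArrH S P Q K C0 η α β N) {n : ℕ} {a b p q : ℤ} {l : ℝ}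
    (ha : |a| + |q| + n ≤ N) (hb : |b| + |p| + n ≤ N) (hp : |(p : ℝ) - l * α| ≤ 1)
    (hq : |(q : ℝ) - l * β| ≤ 1) :
    |sqS S n (a - q) (b + p) - sqS S n a b - l * (n * (n * K))| ≤
      2 * n * C0 * (|(p : ℝ)| + |(q : ℝ)|) ^ 2 + 2 * C0 * n ^ 2 + 2 * |l| * n * η := by
  have ha0 : |a| + n ≤ N := by have := abs_nonneg q; omega
  have hb0 : |b| + n ≤ N := by have := abs_nonneg p; omega
  obtain ⟨X, hX⟩ : ∃ X, X = sqS S n (a + 1) b - sqS S n a b := ⟨_, rfl⟩
  obtain ⟨Y, hY⟩ : ∃ Y, Y = sqS S n a (b + 1) - sqS S n a b := ⟨_, rfl⟩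
  obtain ⟨r, hr⟩ : ∃ r, r = |(p : ℝ)| + |(q : ℝ)| := ⟨_, rfl⟩
  have hc := h.c0
  have hn : (0 : ℝ) ≤ n := Nat.cast_nonneg n
  -- first direction
  have s1 : |sqS S n (a + (-q)) b - sqS S n (a + 0) b - ((-q : ℤ) : ℝ) * X| ≤
      |((-q : ℤ) : ℝ)| * (n * (2 * (C0 * r))) := by
    refine line_bound (ψ := fun j => sqS S n (a + j) b) fun j hj => ?_
    rw [abs_neg] at hj
    have h1 := h.d1_var (n := n) (a := a + j) (b := b) (a' := a) (b' := b)
      (by have := abs_add_le a j; omega) hb0 ha0 hb0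
    rw [add_assoc] at h1
    rw [hX]
    refine h1.trans ?_
    push_cast
    rw [sub_self, abs_zero, add_zero, add_sub_cancel_left]
    have h2 : |(j : ℝ)| ≤ r := by
      have h3 : |(j : ℝ)| ≤ |(q : ℝ)| := by exact_mod_cast hj
      rw [hr]
      have := abs_nonneg (p : ℝ)
      linarith
    have h4 : C0 * |(j : ℝ)| ≤ C0 * r := mul_le_mul_of_nonneg_left h2 hc
    nlinarith
  have s2 : |sqS S n (a - q) (b + p) - sqS S n (a - q) (b + 0) - (p : ℝ) * Y| ≤
      |(p : ℝ)| * (n * (2 * (C0 * r))) := by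
    refine line_bound (ψ := fun j => sqS S n (a - q) (b + j)) fun j hj => ?_
    have h1 := h.d2_var (n := n) (a := a - q) (b := b + j) (a' := a) (b' := b)
      (by have := abs_sub a q; omega) (by have := abs_add_le b j; omega) ha0 hb0
    rw [add_assoc] at h1
    rw [hY]
    refine h1.trans ?_
    push_cast
    rw [add_sub_cancel_left]
    have e1 : |(a : ℝ) - q - a| = |(q : ℝ)| := by
      rw [sub_right_comm, sub_self, zero_sub, abs_neg]
    rw [e1]
    have h2 : |(q : ℝ)| + |(j : ℝ)| ≤ r := by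
      have h3 : |(j : ℝ)| ≤ |(p : ℝ)| := by exact_mod_cast hj
      rw [hr]
      linarith
    have h4 : C0 * (|(q : ℝ)| + |(j : ℝ)|) ≤ C0 * r := mul_le_mul_of_nonneg_left h2 hc
    nlinarith
  have s3 := h.flux ha0 hb0
  rw [← hX, ← hY] at s3
  have s4 := h.d1_bound ha0 hb0
  have s5 := h.d2_bound ha0 hb0
  rw [← hX] at s4
  rw [← hY] at s5
  have e0 : sqS S n (a - q) (b + p) - sqS S n a b - l * (n * (n * K)) =
      (sqS S n (a - q) (b + p) - sqS S n (a - q) (b + 0) - (p : ℝ) * Y) +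
      (sqS S n (a + (-q)) b - sqS S n (a + 0) b - ((-q : ℤ) : ℝ) * X) +
      l * (α * Y - β * X - n * (n * K)) + ((p : ℝ) - l * α) * Y - ((q : ℝ) - l * β) * X := by
    rw [add_zero, add_zero, ← sub_eq_add_neg]
    push_cast
    ring
  have b1 : |l * (α * Y - β * X - n * (n * K))| ≤ |l| * (2 * (n * η)) := by
    rw [abs_mul]
    exact mul_le_mul_of_nonneg_left s3 (abs_nonneg _)
  have b2 : |((p : ℝ) - l * α) * Y| ≤ 1 * (n * (C0 * n)) := by
    rw [abs_mul]
    exact mul_le_mul hp s5 (abs_nonneg _) zero_le_one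
  have b3 : |((q : ℝ) - l * β) * X| ≤ 1 * (n * (C0 * n)) := by
    rw [abs_mul]
    exact mul_le_mul hq s4 (abs_nonneg _) zero_le_one
  have e2 : |((-q : ℤ) : ℝ)| = |(q : ℝ)| := by
    push_cast
    rw [abs_neg]
  rw [e2] at s1
  rw [e0, abs_le]
  rw [abs_le] at s1 s2 b1 b2 b3
  rw [← hr]
  have e3 : |(q : ℝ)| * (n * (2 * (C0 * r))) + |(p : ℝ)| * (n * (2 * (C0 * r))) =
      2 * n * C0 * r ^ 2 := by
    have : |(q : ℝ)| = r - |(p : ℝ)| := by rw [hr]; ring
    rw [this]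
    ring
  constructor
  · nlinarith [s1.1, s2.1, b1.1, b2.1, b3.2]
  · nlinarith [s1.2, s2.2, b1.2, b2.2, b3.1]

/-- the sum over a square is close to the value at the corner -/
theorem ArrH.near (h : ArrH S P Q K C0 η α β N) {n : ℕ} {a b : ℤ} (ha : |a| + n ≤ N)
    (hb : |b| + n ≤ N) : |sqS S n a b - n * (n * S a b)| ≤ n * (n * (C0 * (2 * n))) := by
  have e : sqS S n a b - n * (n * S a b) =
      ∑ i ∈ range n, ∑ j ∈ range n, (S (a + i) (b + j) - S a b) := by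
    rw [sqS]
    simp only [sum_sub_distrib, sum_const, card_range, nsmul_eq_mul]
  rw [e]
  refine abs_sum_le_mul fun i hi => abs_sum_le_mul fun j hj => ?_
  refine (h.lip _ _ _ _ (box_mem ha (mem_range.1 hi).le) (box_mem hb (mem_range.1 hj).le)
    (box_mem' ha) (box_mem' hb)).trans ?_
  push_cast
  rw [add_sub_cancel_left, add_sub_cancel_left, Nat.abs_cast, Nat.abs_cast]
  refine mul_le_mul_of_nonneg_left ?_ h.c0
  have h1 : (i : ℝ) ≤ n := by exact_mod_cast (mem_range.1 hi).le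
  have h2 : (j : ℝ) ≤ n := by exact_mod_cast (mem_range.1 hj).le
  linarith

/-- `S` grows linearly in one direction -/
theorem ArrH.growth (h : ArrH S P Q K C0 η α β N) {n : ℕ} (hn : 0 < n) {p q : ℤ} {l : ℝ}
    (hN : (n : ℤ) * (|p| + |q|) + |p| + |q| + n ≤ N) (hp : |(p : ℝ) - l * α| ≤ 1)
    (hq : |(q : ℝ) - l * β| ≤ 1) :
    |S (-(n * q)) (n * p) - S 0 0 - l * K * n| ≤
      2 * C0 * (|(p : ℝ)| + |(q : ℝ)|) ^ 2 + 6 * C0 * n + 2 * |l| * η := by
  obtain ⟨D, hD⟩ : ∃ D, D = 2 * n * C0 * (|(p : ℝ)| + |(q : ℝ)|) ^ 2 + 2 * C0 * n ^ 2 +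
    2 * |l| * n * η := ⟨_, rfl⟩
  have hp0 := abs_nonneg p
  have hq0 := abs_nonneg q
  have bd : ∀ m : ℕ, m ≤ n → |-((m : ℤ) * q)| ≤ n * (|p| + |q|) ∧
      |(m : ℤ) * p| ≤ n * (|p| + |q|) := by
    intro m hm
    have hm' : (m : ℤ) ≤ n := by exact_mod_cast hm
    have hm0 : (0 : ℤ) ≤ m := by positivity
    rw [abs_neg, abs_mul, abs_mul, abs_of_nonneg hm0]
    constructor <;> nlinarith
  have key : ∀ m : ℕ, m ≤ n → |sqS S n (-(m * q)) (m * p) - sqS S n 0 0 -
      m * (l * (n * (n * K)))| ≤ m * D := by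
    intro m hm
    induction m with
    | zero => simp
    | succ m ih =>
      have h1 := ih (by omega)
      obtain ⟨c1, c2⟩ := bd m (by omega)
      have h2 := h.step (n := n) (a := -(m * q)) (b := m * p) (p := p) (q := q) (l := l)
        (by omega) (by omega) hp hq
      rw [← hD] at h2
      have e1 : -(((m + 1 : ℕ) : ℤ) * q) = -(m * q) - q := by push_cast; ring
      have e2 : ((m + 1 : ℕ) : ℤ) * p = m * p + p := by push_cast; ring
      rw [e1, e2]
      have e3 : sqS S n (-(m * q) - q) (m * p + p) - sqS S n 0 0 -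
          ((m + 1 : ℕ) : ℝ) * (l * (n * (n * K))) =
          (sqS S n (-(m * q) - q) (m * p + p) - sqS S n (-(m * q)) (m * p) -
            l * (n * (n * K))) +
          (sqS S n (-(m * q)) (m * p) - sqS S n 0 0 - m * (l * (n * (n * K)))) := by
        push_cast
        ring
      rw [e3]
      refine (abs_add_le _ _).trans ?_
      push_cast
      linarith
  have k1 := key n le_rfl
  obtain ⟨c1, c2⟩ := bd n le_rfl
  have k2 := h.near (n := n) (a := -(n * q)) (b := n * p) (by omega) (by omega)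
  have k3 := h.near (n := n) (a := 0) (b := 0) (by rw [abs_zero]; nlinarith)
    (by rw [abs_zero]; nlinarith)
  have hn' : (0 : ℝ) < n := by exact_mod_cast hn
  obtain ⟨Δ, hΔ⟩ : ∃ Δ, Δ = S (-(n * q)) (n * p) - S 0 0 - l * K * n := ⟨_, rfl⟩
  rw [← hΔ]
  have e : n * (n * Δ) = (sqS S n (-(n * q)) (n * p) - sqS S n 0 0 - n * (l * (n * (n * K)))) -
      (sqS S n (-(n * q)) (n * p) - n * (n * S (-(n * q)) (n * p))) +
      (sqS S n 0 0 - n * (n * S 0 0)) := by
    rw [hΔ]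
    ring
  have b1 : |(n : ℝ) * (n * Δ)| ≤ n * D + 2 * (n * (n * (C0 * (2 * n)))) := by
    rw [e]
    refine (abs_add_le _ _).trans ?_
    have := abs_sub (sqS S n (-(n * q)) (n * p) - sqS S n 0 0 - n * (l * (n * (n * K))))
      (sqS S n (-(n * q)) (n * p) - n * (n * S (-(n * q)) (n * p)))
    linarith
  rw [abs_mul, abs_mul, abs_of_pos hn'] at b1
  have e2 : n * D + 2 * (n * (n * (C0 * (2 * n)))) = n * (n *
      (2 * C0 * (|(p : ℝ)| + |(q : ℝ)|) ^ 2 + 6 * C0 * n + 2 * |l| * η)) := by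
    rw [hD]
    ring
  rw [e2] at b1
  exact le_of_mul_le_mul_left (le_of_mul_le_mul_left b1 hn') hn'

end

end Pool.Agent.Helper984_CP
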