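import Pool.Agent.Helper984_CP.Second

/-!
# Conjugacy of attracting homeomorphisms to the contraction: the limit argument
-/

set_option autoImplicit false

open Set Filter Topology Complex

noncomputable section

namespace Pool.Agent.Helper984_CP

/-- limits of locally eventually constant sequences of homeomorphisms of the punctured plane -/
theorem limit_homeo {a : ℕ → ℂ ≃ₜ ℂ} {U : ℕ → Set ℂ} (hUo : ∀ n, IsOpen (U n))
    (hUm : Monotone U) (hae : ∀ n, ∀ z ∈ U n, a (n + 1) z = a n z) (h0 : ∀ n, (0 : ℂ) ∉ U n)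
    (ha0 : ∀ n, a n 0 = 0)
    (hc1 : ∀ z : ℂ, z ≠ 0 → ∃ n, z ∈ U n) (hc2 : ∀ w : ℂ, w ≠ 0 → ∃ n, (a n).symm w ∈ U n)
    (hs1 : ∀ ε : ℝ, 0 < ε → ∃ δ : Set ℂ, δ ∈ 𝓝 (0 : ℂ) ∧ ∀ n, ∀ z ∈ U n, z ∈ δ → ‖a n z‖ ≤ ε)
    (hs2 : ∀ ε : ℝ, 0 < ε → ∃ δ : Set ℂ, δ ∈ 𝓝 (0 : ℂ) ∧ ∀ n, ∀ z ∈ U n, a n z ∈ δ → ‖z‖ ≤ ε) :
    ∃ H : ℂ ≃ₜ ℂ, H 0 = 0 ∧ ∀ n, ∀ z ∈ U n, H z = a n z := by
  have hae' : ∀ n m, n ≤ m → ∀ z ∈ U n, a m z = a n z := by
    intro n m hnm
    induction m, hnm using Nat.le_induction with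
    | base => intro z _; rfl
    | succ m hnm ih =>
      intro z hz
      rw [hae m z (hUm hnm hz), ih z hz]
  classical
  choose N hN using hc1
  choose N' hN' using hc2
  let f : ℂ → ℂ := fun z => if h : z = 0 then 0 else a (N z h) z
  let g : ℂ → ℂ := fun w => if h : w = 0 then 0 else (a (N' w h)).symm w
  have hf0 : f 0 = 0 := dif_pos rfl
  have hg0 : g 0 = 0 := dif_pos rfl
  have hf : ∀ n, ∀ z ∈ U n, f z = a n z := by
    intro n z hz
    have hz0 : z ≠ 0 := fun h => h0 n (h ▸ hz)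
    change (if h : z = 0 then 0 else a (N z h) z) = _
    rw [dif_neg hz0]
    rcases le_total (N z hz0) n with h | h
    · exact (hae' _ _ h z (hN z hz0)).symm
    · exact hae' _ _ h z hz
  have hg : ∀ n w, (a n).symm w ∈ U n → g w = (a n).symm w := by
    intro n w hw
    have hw0 : w ≠ 0 := by
      intro h
      rw [h] at hw
      have : (a n).symm 0 = 0 := symm_fix (ha0 n)
      rw [this] at hw
      exact h0 n hw
    change (if h : w = 0 then 0 else (a (N' w h)).symm w) = _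
    rw [dif_neg hw0]
    have h1 := hN' w hw0
    obtain ⟨N0, hN0⟩ : ∃ N0, N0 = N' w hw0 := ⟨_, rfl⟩
    rw [← hN0] at h1 ⊢
    rcases le_total N0 n with h | h
    · have h2 := hae' _ _ h _ h1
      apply (a n).injective
      rw [h2, (a N0).apply_symm_apply, (a n).apply_symm_apply]
    · have h2 := hae' _ _ h _ hw
      apply (a N0).injective
      rw [h2, (a N0).apply_symm_apply, (a n).apply_symm_apply]
  have hfne : ∀ z, z ≠ 0 → f z ≠ 0 := by
    intro z hz h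
    obtain ⟨n, hn⟩ : ∃ n, z ∈ U n := ⟨_, hN z hz⟩
    rw [hf n z hn] at h
    exact hz ((a n).injective (h.trans (ha0 n).symm))
  have hgf : ∀ z, g (f z) = z := by
    intro z
    by_cases hz : z = 0
    · rw [hz, hf0, hg0]
    · have h1 := hN z hz
      have h2 := hf _ z h1
      have h3 := hg (N z hz) (f z) (by rw [h2, (a _).symm_apply_apply]; exact h1)
      rw [h3, h2, (a _).symm_apply_apply]
  have hfg : ∀ w, f (g w) = w := by
    intro w
    by_cases hw : w = 0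
    · rw [hw, hg0, hf0]
    · have h1 := hN' w hw
      rw [hg _ w h1, hf _ _ h1, (a _).apply_symm_apply]
  have hfc : Continuous f := by
    rw [continuous_iff_continuousAt]
    intro z
    by_cases hz : z = 0
    · subst hz
      rw [ContinuousAt, hf0, Metric.tendsto_nhds]
      intro ε hε
      obtain ⟨δ, hδ, hδ'⟩ := hs1 (ε / 2) (half_pos hε)
      filter_upwards [hδ] with x hx
      rw [dist_zero_right]
      by_cases hx0 : x = 0
      · rw [hx0, hf0, norm_zero]; exact hε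
      · have h1 := hN x hx0
        rw [hf _ x h1]
        have := hδ' _ x h1 hx
        linarith
    · have h1 := hN z hz
      refine ContinuousAt.congr (f := a (N z hz)) (a _).continuous.continuousAt ?_
      filter_upwards [(hUo _).mem_nhds h1] with x hx
      exact (hf _ x hx).symm
  have hgc : Continuous g := by
    rw [continuous_iff_continuousAt]
    intro w
    by_cases hw : w = 0
    · subst hw
      rw [ContinuousAt, hg0, Metric.tendsto_nhds]
      intro ε hε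
      obtain ⟨δ, hδ, hδ'⟩ := hs2 (ε / 2) (half_pos hε)
      filter_upwards [hδ] with x hx
      rw [dist_zero_right]
      by_cases hx0 : x = 0
      · rw [hx0, hg0, norm_zero]; exact hε
      · have h1 := hN' x hx0
        rw [hg _ x h1]
        have := hδ' _ _ h1 (by rw [(a _).apply_symm_apply]; exact hx)
        linarith
    · have h1 := hN' w hw
      refine ContinuousAt.congr (f := (a (N' w hw)).symm)
        (a _).symm.continuous.continuousAt ?_
      have h2 : (a (N' w hw)).symm ⁻¹' U (N' w hw) ∈ 𝓝 w :=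
        ((hUo _).preimage (a _).symm.continuous).mem_nhds h1
      filter_upwards [h2] with x hx
      exact (hg _ x hx).symm
  exact ⟨⟨⟨f, g, hgf, hfg⟩, hfc, hgc⟩, hf0, hf⟩

theorem mul_apply' (F G : ℂ ≃ₜ ℂ) (z : ℂ) : (F * G) z = F (G z) := rfl

/-- multiplication by a nonzero real number -/
def scaleH (r : ℝ) (hr : r ≠ 0) : ℂ ≃ₜ ℂ where
  toFun z := (r : ℂ) * z
  invFun z := (r : ℂ)⁻¹ * z
  left_inv z := by
    have : (r : ℂ) ≠ 0 := by exact_mod_cast hr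
    field_simp
  right_inv z := by
    have : (r : ℂ) ≠ 0 := by exact_mod_cast hr
    field_simp
  continuous_toFun := by fun_prop
  continuous_invFun := by fun_prop

/-- the conjugacy to the contraction from an identification of the fundamental annulus -/
theorem conj_of_push {v P : ℂ ≃ₜ ℂ} (hv0 : v 0 = 0) (hP : ∀ y, 1 ≤ ‖y‖ → P y = y)
    (hPv : ∀ z, ‖z‖ ≤ 1 → P (v z) = z / 2) (hv : ∀ z, ‖z‖ ≤ 1 → ‖v z‖ < 1)
    (hat : ∀ z, ∃ n : ℕ, ‖(v ^ n) z‖ < 1)
    (hsm : ∀ ε : ℝ, 0 < ε → ∃ n : ℕ, ∀ z, ‖z‖ ≤ 1 → ‖(v ^ n) z‖ ≤ ε) :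
    ConjContr v := by
  have h2 : (2 : ℂ) ≠ 0 := two_ne_zero
  obtain ⟨S, hS⟩ : ∃ S : ℂ ≃ₜ ℂ, S = P * v := ⟨_, rfl⟩
  have hSa : ∀ z, S z = P (v z) := fun z => by rw [hS]; rfl
  have hSb : ∀ z, ‖z‖ ≤ 1 → S z = z / 2 := fun z hz => by rw [hSa, hPv z hz]
  have hS0 : S 0 = 0 := by rw [hSb 0 (by simp), zero_div]
  have hSi0 : (S⁻¹ : ℂ ≃ₜ ℂ) 0 = 0 := symm_fix hS0
  -- `P` preserves the unit ball
  have hPb : ∀ y, ‖y‖ < 1 → ‖P y‖ < 1 := by
    intro y hy
    by_contra hcon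
    push Not at hcon
    have h1 := hP _ hcon
    have h3 := P.injective h1
    rw [h3] at hcon
    linarith
  have hPb' : ∀ y, ‖P y‖ < 1 → ‖y‖ < 1 := by
    intro y hy
    by_contra hcon
    push Not at hcon
    rw [hP y hcon] at hy
    linarith
  have hSout : ∀ z, 1 ≤ ‖v z‖ → S z = v z := fun z hz => by rw [hSa, hP _ hz]
  have hSout' : ∀ z, 1 ≤ ‖S z‖ → S z = v z := by
    intro z hz
    apply hSout
    by_contra hcon
    push Not at hcon
    have := hPb _ hcon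
    rw [← hSa] at this
    linarith
  have hSpow : ∀ (n : ℕ) z, ‖z‖ ≤ 1 → (S ^ n) z = z / 2 ^ n := by
    intro n
    induction n with
    | zero => intro z _; rw [pow_zero, pow_zero, div_one]; rfl
    | succ n ih =>
      intro z hz
      rw [pow_succ, mul_apply', hSb z hz, ih]
      · rw [div_div, pow_succ']
      · rw [norm_div, Complex.norm_ofNat]
        linarith [norm_nonneg z]
  have hSi : ∀ z, ‖S.symm z‖ ≤ 1 → ‖z‖ ≤ 1 / 2 := by
    intro z hz
    have := hSb _ hz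
    rw [S.apply_symm_apply] at this
    rw [this, norm_div, Complex.norm_ofNat]
    linarith
  -- `v ^ i S ^ (-i)` is the identity outside the ball
  have hvi : ∀ x, 1 ≤ ‖x‖ → 1 < ‖v.symm x‖ := by
    intro x hx
    by_contra hcon
    push Not at hcon
    have := hv _ hcon
    rw [v.apply_symm_apply] at this
    linarith
  have hSv : ∀ x, 1 ≤ ‖x‖ → S.symm x = v.symm x := by
    intro x hx
    rw [S.symm_apply_eq, hSa, v.apply_symm_apply, hP x hx]
  have hid : ∀ (i : ℕ) x, 1 ≤ ‖x‖ → 1 ≤ ‖((S⁻¹ : ℂ ≃ₜ ℂ) ^ i) x‖ ∧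
      (v ^ i) (((S⁻¹ : ℂ ≃ₜ ℂ) ^ i) x) = x := by
    intro i
    induction i with
    | zero => intro x hx; rw [pow_zero, pow_zero]; exact ⟨hx, rfl⟩
    | succ i ih =>
      intro x hx
      obtain ⟨h1, h3⟩ := ih x hx
      have e1 : ((S⁻¹ : ℂ ≃ₜ ℂ) ^ (i + 1)) x = v.symm (((S⁻¹ : ℂ ≃ₜ ℂ) ^ i) x) := by
        rw [pow_succ', mul_apply']
        exact hSv _ h1
      rw [e1, pow_succ, mul_apply', v.apply_symm_apply]
      exact ⟨(hvi _ h1).le, h3⟩
  have hball : ∀ (i : ℕ) x, ‖x‖ < 1 → ‖(v ^ i) (((S⁻¹ : ℂ ≃ₜ ℂ) ^ i) x)‖ < 1 := by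
    intro i x hx
    by_contra hcon
    push Not at hcon
    have h1 := (hid i _ hcon).2
    have h3 := ((S⁻¹ : ℂ ≃ₜ ℂ) ^ i).injective ((v ^ i).injective h1)
    rw [h3] at hcon
    linarith
  have hball' : ∀ (i : ℕ) x, ‖(v ^ i) (((S⁻¹ : ℂ ≃ₜ ℂ) ^ i) x)‖ < 1 → ‖x‖ < 1 := by
    intro i x hx
    by_contra hcon
    push Not at hcon
    rw [(hid i x hcon).2] at hx
    linarith
  -- the sequence
  let sc : ℕ → ℂ ≃ₜ ℂ := fun n => scaleH ((2 : ℝ) ^ n)⁻¹ (by positivity)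
  have hsc : ∀ n z, sc n z = z / 2 ^ n := by
    intro n z
    change ((((2 : ℝ) ^ n)⁻¹ : ℝ) : ℂ) * z = _
    push_cast
    rw [div_eq_inv_mul]
  let y : ℕ → ℂ → ℂ := fun n z => ((S⁻¹ : ℂ ≃ₜ ℂ) ^ (2 * n)) (z / 2 ^ n)
  have hydef : ∀ n z, y n z = ((S⁻¹ : ℂ ≃ₜ ℂ) ^ (2 * n)) (z / 2 ^ n) := fun _ _ => rfl
  let a : ℕ → ℂ ≃ₜ ℂ := fun n => v ^ n * ((S⁻¹ : ℂ ≃ₜ ℂ) ^ (2 * n) * sc n)
  have ha : ∀ n z, a n z = (v ^ n) (y n z) := by
    intro n z
    change (v ^ n) (((S⁻¹ : ℂ ≃ₜ ℂ) ^ (2 * n)) (sc n z)) = _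
    rw [hsc]
  have hyc : ∀ n, Continuous (y n) := by
    intro n
    have : Continuous fun z : ℂ => z / 2 ^ n := by fun_prop
    exact (Homeomorph.continuous _).comp this
  let U : ℕ → Set ℂ := fun n => {z | ‖z‖ < 2 ^ n ∧ 1 < ‖y n z‖}
  have hUo : ∀ n, IsOpen (U n) := fun n =>
    (isOpen_lt continuous_norm continuous_const).inter
      (isOpen_lt continuous_const (hyc n).norm)
  have hdiv : ∀ n z, ‖z‖ < 2 ^ n → ‖z / (2 : ℂ) ^ n‖ ≤ 1 := by
    intro n z hz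
    rw [norm_div, norm_pow, Complex.norm_ofNat, div_le_one (by positivity)]
    exact hz.le
  have hystep : ∀ n z, ‖z‖ < 2 ^ n → y (n + 1) z = S.symm (y n z) := by
    intro n z hz
    have e1 : (S⁻¹ : ℂ ≃ₜ ℂ) ^ (2 * (n + 1)) = S⁻¹ * ((S⁻¹ : ℂ ≃ₜ ℂ) ^ (2 * n) * S⁻¹) := by
      rw [← pow_succ, ← pow_succ']
      congr 1
    have e2 : z / 2 ^ (n + 1) = S (z / 2 ^ n) := by
      rw [hSb _ (hdiv n z hz), div_div, pow_succ]
    rw [hydef, hydef, e1, e2]
    change S.symm (((S⁻¹ : ℂ ≃ₜ ℂ) ^ (2 * n)) (S.symm (S (z / 2 ^ n)))) = _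
    rw [S.symm_apply_apply]
  have hUs : ∀ n, U n ⊆ U (n + 1) := by
    rintro n z ⟨h1, h3⟩
    refine ⟨h1.trans ?_, ?_⟩
    · exact pow_lt_pow_right₀ (by norm_num) (Nat.lt_succ_self n)
    · rw [hystep n z h1]
      by_contra hcon
      push Not at hcon
      have := hSi _ hcon
      linarith
  have hUm : Monotone U := monotone_nat_of_le_succ hUs
  have hae : ∀ n, ∀ z ∈ U n, a (n + 1) z = a n z := by
    rintro n z ⟨h1, h3⟩
    rw [ha, ha, hystep n z h1, hSv _ h3.le, pow_succ, mul_apply', v.apply_symm_apply]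
  have hy0 : ∀ n, y n 0 = 0 := by
    intro n
    rw [hydef, zero_div]
    exact pow_fix hSi0 _
  have h0U : ∀ n, (0 : ℂ) ∉ U n := by
    rintro n ⟨-, h3⟩
    rw [hy0, norm_zero] at h3
    linarith
  have ha0 : ∀ n, a n 0 = 0 := by
    intro n
    rw [ha, hy0]
    exact pow_fix hv0 n
  -- `y n z = S ^ (-(n - m)) (z')` when `z = z' / 2 ^ m`
  have hyz : ∀ (n m : ℕ) (z : ℂ), ‖z‖ ≤ 1 → m ≤ n →
      y n (z / 2 ^ m) = ((S⁻¹ : ℂ ≃ₜ ℂ) ^ (n - m)) z := by
    intro n m z hz hmn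
    have e1 : z / 2 ^ m / 2 ^ n = (S ^ (n + m)) z := by
      rw [hSpow _ z hz, div_div, pow_add, mul_comm]
    have e2 : (S⁻¹ : ℂ ≃ₜ ℂ) ^ (2 * n) = (S⁻¹ : ℂ ≃ₜ ℂ) ^ (n - m) * (S⁻¹ : ℂ ≃ₜ ℂ) ^ (n + m) := by
      rw [← pow_add]
      congr 1
      omega
    rw [hydef, e1, e2, mul_apply', inv_pow S (n + m), inv_apply_self']
  have hnm : ∀ (n m : ℕ) (z : ℂ), ‖z‖ ≤ 1 → z / 2 ^ m ∈ U n → m ≤ n := by
    intro n m z hz hU
    by_contra hcon
    push Not at hcon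
    have h3 := hU.2
    have e1 : z / 2 ^ m / 2 ^ n = (S ^ (n + m)) z := by
      rw [hSpow _ z hz, div_div, pow_add, mul_comm]
    have e2 : S ^ (n + m) = S ^ (2 * n) * S ^ (m - n) := by
      rw [← pow_add]
      congr 1
      omega
    rw [hydef, e1, e2, mul_apply', inv_pow S (2 * n), inv_apply_self', hSpow _ z hz, norm_div,
      norm_pow, Complex.norm_ofNat] at h3
    have h4 : (1 : ℝ) ≤ 2 ^ (m - n) := one_le_pow₀ (by norm_num)
    have h5 : ‖z‖ / 2 ^ (m - n) ≤ 1 := (div_le_one (by positivity)).2 (hz.trans h4)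
    linarith
  have hpow2 : ∀ x : ℝ, ∃ n : ℕ, x < 2 ^ n := fun x => pow_unbounded_of_one_lt x (by norm_num)
  have hcov : ∀ z : ℂ, z ≠ 0 → ∃ n, z ∈ U n := by
    intro z hz
    by_contra hcon
    push Not at hcon
    obtain ⟨N, hN⟩ := hpow2 ‖z‖
    have h3 : ∀ n, N ≤ n → ‖y n z‖ ≤ 1 := by
      intro n hn
      by_contra hcon2
      push Not at hcon2
      exact hcon n ⟨hN.trans_le (pow_le_pow_right₀ (by norm_num) hn), hcon2⟩
    have h4 : ∀ i : ℕ, y N z = y (N + i) z / 2 ^ i := by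
      intro i
      induction i with
      | zero => rw [add_zero, pow_zero, div_one]
      | succ i ih =>
        have h5 := hystep (N + i) z (hN.trans_le (pow_le_pow_right₀ (by norm_num) (by omega)))
        have h6 : y (N + i) z = y (N + i + 1) z / 2 := by
          rw [← hSb _ (h3 (N + i + 1) (by omega)), h5, S.apply_symm_apply]
        rw [ih, h6, div_div, pow_succ', add_assoc]
    have h5 : y N z = 0 := by
      rw [← norm_le_zero_iff]
      refine le_of_forall_pos_le_add fun ε hε => ?_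
      obtain ⟨i, hi⟩ := hpow2 (1 / ε)
      rw [zero_add, h4 i, norm_div, norm_pow, Complex.norm_ofNat,
        div_le_iff₀ (by positivity)]
      rw [div_lt_iff₀ hε] at hi
      have := h3 (N + i) (by omega)
      nlinarith
    have h6 : z / 2 ^ N = 0 := by
      have h7 : ((S⁻¹ : ℂ ≃ₜ ℂ) ^ (2 * N)) (z / 2 ^ N) = ((S⁻¹ : ℂ ≃ₜ ℂ) ^ (2 * N)) 0 := by
        rw [pow_fix hSi0]
        exact h5
      exact ((S⁻¹ : ℂ ≃ₜ ℂ) ^ (2 * N)).injective h7
    rw [div_eq_zero_iff] at h6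
    rcases h6 with h6 | h6
    · exact hz h6
    · exact pow_ne_zero N h2 h6
  have hvbig : ∀ (i : ℕ) w, 1 < ‖w‖ → 1 < ‖((v⁻¹ : ℂ ≃ₜ ℂ) ^ i) w‖ := by
    intro i
    induction i with
    | zero => intro w hw; rw [pow_zero]; exact hw
    | succ i ih =>
      intro w hw
      rw [pow_succ, mul_apply']
      exact ih _ (hvi w hw.le)
  -- `S ^ i v ^ (-i)` is the identity outside the ball
  have hid2 : ∀ (i : ℕ) x, 1 < ‖x‖ → (S ^ i) (((v⁻¹ : ℂ ≃ₜ ℂ) ^ i) x) = x := by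
    intro i
    induction i with
    | zero => intro x _; rw [pow_zero, pow_zero]; rfl
    | succ i ih =>
      intro x hx
      have h1 := hvbig i x hx
      have e1 : ((v⁻¹ : ℂ ≃ₜ ℂ) ^ (i + 1)) x = v.symm (((v⁻¹ : ℂ ≃ₜ ℂ) ^ i) x) := by
        rw [pow_succ', mul_apply']
        rfl
      rw [e1, pow_succ, mul_apply', hSa, v.apply_symm_apply, hP _ h1.le]
      exact ih x hx
  have hSball : ∀ (i : ℕ) x, ‖x‖ < 1 → ‖(S ^ i) x‖ < 1 := by
    intro i x hx
    rw [hSpow i x hx.le, norm_div, norm_pow, Complex.norm_ofNat, div_lt_one (by positivity)]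
    exact hx.trans_le (one_le_pow₀ (by norm_num))
  have hSat : ∀ x, ∃ k : ℕ, ‖(S ^ k) x‖ < 1 := by
    intro x
    by_contra hcon
    push Not at hcon
    have h1 : ∀ k : ℕ, (S ^ k) x = (v ^ k) x := by
      intro k
      induction k with
      | zero => rw [pow_zero, pow_zero]
      | succ k ih =>
        have h3 := hcon (k + 1)
        rw [pow_succ', mul_apply'] at h3
        rw [pow_succ', pow_succ', mul_apply', mul_apply', hSout' _ h3, ih]
    obtain ⟨k, hk⟩ := hat x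
    have h3 := hcon k
    rw [h1] at h3
    linarith
  have hcov2 : ∀ w : ℂ, w ≠ 0 → ∃ n, (a n).symm w ∈ U n := by
    intro w hw
    obtain ⟨m, hm⟩ := hsm (‖w‖ / 2) (by positivity)
    have hwp : 0 < ‖w‖ := norm_pos_iff.2 hw
    obtain ⟨x, hx⟩ : ∃ x, x = ((v⁻¹ : ℂ ≃ₜ ℂ) ^ m) w := ⟨_, rfl⟩
    have hx1 : 1 < ‖x‖ := by
      by_contra hcon
      push Not at hcon
      have h1 := hm x hcon
      rw [hx, inv_pow, apply_inv_self'] at h1
      linarith
    obtain ⟨k, hk⟩ := hSat x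
    obtain ⟨n, hn⟩ : ∃ n, n = m + k := ⟨_, rfl⟩
    have hasym : (a n).symm w = (sc n).symm ((S ^ (2 * n)) (((v⁻¹ : ℂ ≃ₜ ℂ) ^ n) w)) := by
      rw [(a n).symm_apply_eq]
      change w = (v ^ n) (((S⁻¹ : ℂ ≃ₜ ℂ) ^ (2 * n)) (sc n ((sc n).symm _)))
      rw [(sc n).apply_symm_apply, inv_pow S, inv_apply_self', inv_pow v, apply_inv_self']
    have hscale : (a n).symm w / 2 ^ n = (S ^ (2 * n)) (((v⁻¹ : ℂ ≃ₜ ℂ) ^ n) w) := by
      rw [← hsc, hasym, (sc n).apply_symm_apply]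
    have e1 : ((v⁻¹ : ℂ ≃ₜ ℂ) ^ n) w = ((v⁻¹ : ℂ ≃ₜ ℂ) ^ k) x := by
      rw [hx, ← mul_apply', ← pow_add, hn, add_comm k m]
    have e2 : (S ^ (2 * n)) (((v⁻¹ : ℂ ≃ₜ ℂ) ^ n) w) = (S ^ (2 * m)) ((S ^ k) x) := by
      have e3 : 2 * n = 2 * m + k + k := by omega
      rw [e1, e3, pow_add, mul_apply', hid2 k x hx1, pow_add, mul_apply']
    refine ⟨n, ?_, ?_⟩
    · have h1 : ‖(a n).symm w / 2 ^ n‖ < 1 := by
        rw [hscale, e2]
        exact hSball _ _ hk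
      rw [norm_div, norm_pow, Complex.norm_ofNat, div_lt_one (by positivity)] at h1
      exact h1
    · rw [hydef, hscale, inv_pow S, inv_apply_self', e1]
      exact hvbig k x hx1
  have hs1 : ∀ ε : ℝ, 0 < ε → ∃ δ : Set ℂ, δ ∈ 𝓝 (0 : ℂ) ∧
      ∀ n, ∀ z ∈ U n, z ∈ δ → ‖a n z‖ ≤ ε := by
    intro ε hε
    obtain ⟨m, hm⟩ := hsm ε hε
    refine ⟨Metric.closedBall 0 ((2 : ℝ) ^ m)⁻¹, Metric.closedBall_mem_nhds _ (by positivity),
      fun n z hz hzm => ?_⟩
    rw [mem_closedBall_zero_iff] at hzm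
    obtain ⟨z', hz'⟩ : ∃ z', z' = z * 2 ^ m := ⟨_, rfl⟩
    have e : z = z' / 2 ^ m := by rw [hz', mul_div_assoc, div_self (pow_ne_zero m h2), mul_one]
    have hz1 : ‖z'‖ ≤ 1 := by
      rw [hz', norm_mul, norm_pow, Complex.norm_ofNat]
      calc ‖z‖ * 2 ^ m ≤ ((2 : ℝ) ^ m)⁻¹ * 2 ^ m := by gcongr
        _ = 1 := inv_mul_cancel₀ (by positivity)
    rw [e] at hz ⊢
    have hmn := hnm n m z' hz1 hz
    rw [ha, hyz n m z' hz1 hmn]
    have e2 : v ^ n = v ^ m * v ^ (n - m) := by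
      rw [← pow_add]
      congr 1
      omega
    rw [e2, mul_apply']
    apply hm
    rcases lt_or_eq_of_le hz1 with h | h
    · exact (hball _ _ h).le
    · rw [(hid _ _ h.ge).2]
      exact hz1
  have hs2 : ∀ ε : ℝ, 0 < ε → ∃ δ : Set ℂ, δ ∈ 𝓝 (0 : ℂ) ∧
      ∀ n, ∀ z ∈ U n, a n z ∈ δ → ‖z‖ ≤ ε := by
    intro ε hε
    obtain ⟨m, hm⟩ := hpow2 (1 / ε)
    refine ⟨(v ^ m) '' Metric.ball 0 1, ?_, fun n z hz hzm => ?_⟩
    · have h1 : Metric.ball (0 : ℂ) 1 ∈ 𝓝 (0 : ℂ) := Metric.ball_mem_nhds 0 one_pos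
      have h3 := (v ^ m).isOpenMap.image_mem_nhds h1
      rwa [pow_fix hv0] at h3
    · obtain ⟨x, hx, hxz⟩ := hzm
      rw [mem_ball_zero_iff] at hx
      rw [ha] at hxz
      have hmn : m ≤ n := by
        by_contra hcon
        push Not at hcon
        have e2 : v ^ m = v ^ n * v ^ (m - n) := by
          rw [← pow_add]
          congr 1
          omega
        rw [e2, mul_apply'] at hxz
        have h3 := (v ^ n).injective hxz
        have h4 : x = ((v⁻¹ : ℂ ≃ₜ ℂ) ^ (m - n)) (y n z) := by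
          rw [← h3, inv_pow, inv_apply_self']
        have h5 := hvbig (m - n) _ hz.2
        rw [← h4] at h5
        linarith
      have e2 : v ^ n = v ^ m * v ^ (n - m) := by
        rw [← pow_add]
        congr 1
        omega
      rw [e2, mul_apply'] at hxz
      have h3 := (v ^ m).injective hxz
      -- `x = v ^ (n - m) y` is in the ball
      have h4 : y n z = ((S⁻¹ : ℂ ≃ₜ ℂ) ^ (n - m)) ((S ^ (n - m)) (y n z)) := by
        rw [inv_pow, inv_apply_self']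
      rw [h3, h4] at hx
      have h5 := hball' _ _ hx
      have h6 : z / 2 ^ n = (S ^ (n + m)) ((S ^ (n - m)) (y n z)) := by
        rw [← mul_apply', ← pow_add, hydef, ← mul_apply']
        have : S ^ (n + m + (n - m)) * (S⁻¹ : ℂ ≃ₜ ℂ) ^ (2 * n) = 1 := by
          have e5 : n + m + (n - m) = 2 * n := by omega
          rw [e5, inv_pow, mul_inv_cancel]
        rw [this]
        rfl
      rw [hSpow _ _ h5.le] at h6
      have h7 : z = (S ^ (n - m)) (y n z) / 2 ^ m := by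
        rw [div_eq_div_iff (pow_ne_zero _ h2) (pow_ne_zero _ h2), pow_add] at h6
        rw [eq_div_iff (pow_ne_zero _ h2)]
        have h8 : (2 : ℂ) ^ n ≠ 0 := pow_ne_zero n h2
        apply mul_right_cancel₀ h8
        linear_combination h6
      rw [h7, norm_div, norm_pow, Complex.norm_ofNat, div_le_iff₀ (by positivity)]
      rw [div_lt_iff₀ hε] at hm
      nlinarith
  obtain ⟨H, hH0, hH⟩ :=
    limit_homeo (a := a) (U := U) hUo hUm hae h0U ha0 hcov hcov2 hs1 hs2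
  refine ⟨H, fun z => ?_⟩
  by_cases hz : z = 0
  · rw [hz, zero_div, hH0, hv0]
  obtain ⟨n1, hn1⟩ := hcov z hz
  obtain ⟨n2, hn2⟩ := hcov (z / 2) (div_ne_zero hz h2)
  obtain ⟨n, hn⟩ : ∃ n, n = max n1 n2 := ⟨_, rfl⟩
  have hzn : z ∈ U n := hUm (by rw [hn]; exact le_max_left _ _) hn1
  have hzn' : z / 2 ∈ U n := hUm (by rw [hn]; exact le_max_right _ _) hn2
  rw [hH n z hzn, hH n _ hzn', ha, ha]
  have e1 : y n (z / 2) = S (y n z) := by
    have e3 : z / 2 / 2 ^ n = S (z / 2 ^ n) := by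
      rw [hSb _ (hdiv n z hzn.1)]
      ring
    have e4 : Commute ((S⁻¹ : ℂ ≃ₜ ℂ) ^ (2 * n)) S :=
      ((Commute.refl S).inv_left).pow_left _
    rw [hydef, hydef, e3]
    exact congrArg (fun T : ℂ ≃ₜ ℂ => T (z / 2 ^ n)) e4.eq
  have e2 : S (y n z) = v (y n z) := by
    apply hSout'
    rw [← e1]
    exact hzn'.2.le
  have e3 : v * v ^ n = v ^ n * v := (Commute.refl v).pow_right n |>.eq
  rw [e1, e2]
  exact congrArg (fun T : ℂ ≃ₜ ℂ => T (y n z)) e3

end Pool.Agent.Helper984_CP
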