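import Mathlib

/-!
# Abel averages of commuting circle homeomorphisms
-/

set_option autoImplicit false

open Set Filter Topology

noncomputable section

namespace Pool.Agent.Helper984_CP

open CircleDeg1Lift

theorem abs_sub_translationNumber_le (f : CircleDeg1Lift) (x : ℝ) :
    |f x - x - translationNumber f| ≤ 1 := by
  have h1 := f.map_lt_add_translationNumber_add_one x
  have h2 := f.translationNumber_le_ceil_sub x
  have h3 := Int.ceil_lt_add_one (f x - x)
  rw [abs_le]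
  constructor <;> linarith

/-- normalized displacement of `a ^ i * b ^ j` -/
def dd (a b : CircleDeg1Lift) (p : ℕ × ℕ) (y : ℝ) : ℝ :=
  (a ^ p.1 * b ^ p.2) y - y - (p.1 * translationNumber a + p.2 * translationNumber b)

theorem abs_dd_le {a b : CircleDeg1Lift} (hab : Commute a b) (p : ℕ × ℕ) (y : ℝ) :
    |dd a b p y| ≤ 1 := by
  have h1 := abs_sub_translationNumber_le (a ^ p.1 * b ^ p.2) y
  rw [translationNumber_mul_of_commute (hab.pow_pow p.1 p.2), translationNumber_pow,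
    translationNumber_pow] at h1
  exact h1

theorem dd_swap {a b : CircleDeg1Lift} (hab : Commute a b) (p : ℕ × ℕ) (y : ℝ) :
    dd a b p y = dd b a p.swap y := by
  rw [dd, dd, (hab.pow_pow p.1 p.2).eq]
  simp only [Prod.fst_swap, Prod.snd_swap]
  ring

theorem dd_shift {a b : CircleDeg1Lift} (hab : Commute a b) (i j : ℕ) (y : ℝ) :
    dd a b (i, j) (a y) = dd a b (i + 1, j) y + (y + translationNumber a - a y) := by
  have h1 : (a ^ i * b ^ j) (a y) = (a ^ (i + 1) * b ^ j) y := by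
    rw [← CircleDeg1Lift.mul_apply, mul_assoc, ← (hab.pow_right j).eq, ← mul_assoc, pow_succ]
  simp only [dd]
  rw [h1]
  push_cast
  ring

theorem dd_add_one {a b : CircleDeg1Lift} (p : ℕ × ℕ) (y : ℝ) :
    dd a b p (y + 1) = dd a b p y := by
  simp only [dd]
  rw [CircleDeg1Lift.map_add_one]
  ring

theorem dd_zero {a b : CircleDeg1Lift} (y : ℝ) : dd a b (0, 0) y = 0 := by
  simp [dd]

theorem continuous_dd {a b : CircleDeg1Lift} (ha : Continuous a) (hb : Continuous b) (p : ℕ × ℕ) :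
    Continuous (dd a b p) := by
  have h1 : Continuous (a ^ p.1 : CircleDeg1Lift) := a.continuous_pow ha p.1
  have h2 : Continuous (b ^ p.2 : CircleDeg1Lift) := b.continuous_pow hb p.2
  have h3 : Continuous (a ^ p.1 * b ^ p.2 : CircleDeg1Lift) := by
    rw [CircleDeg1Lift.coe_mul]
    exact h1.comp h2
  exact (h3.sub continuous_id).sub continuous_const

theorem summable_geom2 {s : ℝ} (h0 : 0 ≤ s) (h1 : s < 1) :
    Summable fun p : ℕ × ℕ => s ^ (p.1 + p.2) := by
  have h2 := (summable_geometric_of_lt_one h0 h1).mul_of_nonneg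
    (summable_geometric_of_lt_one h0 h1) (fun i => pow_nonneg h0 i) (fun i => pow_nonneg h0 i)
  simpa only [pow_add] using h2

theorem tsum_geom2 {s : ℝ} (h0 : 0 ≤ s) (h1 : s < 1) :
    (1 - s) ^ 2 * ∑' p : ℕ × ℕ, s ^ (p.1 + p.2) = 1 := by
  have h2 := tsum_mul_tsum_of_summable_norm (f := fun i : ℕ => s ^ i) (g := fun i : ℕ => s ^ i)
    (by simpa [abs_of_nonneg h0] using summable_geometric_of_lt_one h0 h1)
    (by simpa [abs_of_nonneg h0] using summable_geometric_of_lt_one h0 h1)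
  rw [tsum_geometric_of_lt_one h0 h1] at h2
  simp only [pow_add]
  rw [← h2]
  have h3 : 1 - s ≠ 0 := by linarith
  field_simp

theorem summable_dd {a b : CircleDeg1Lift} (hab : Commute a b) {s : ℝ} (h0 : 0 ≤ s) (h1 : s < 1)
    (e : ℕ × ℕ → ℕ × ℕ) (y : ℝ) : Summable fun p : ℕ × ℕ => s ^ (p.1 + p.2) * dd a b (e p) y := by
  refine Summable.of_norm_bounded (summable_geom2 h0 h1) (fun p => ?_)
  rw [norm_mul, Real.norm_eq_abs, Real.norm_eq_abs, abs_of_nonneg (pow_nonneg h0 _)]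
  exact mul_le_of_le_one_right (pow_nonneg h0 _) (abs_dd_le hab _ _)

/-- the Abel average -/
def hh (a b : CircleDeg1Lift) (s y : ℝ) : ℝ :=
  y + (1 - s) ^ 2 * ∑' p : ℕ × ℕ, s ^ (p.1 + p.2) * dd a b p y

theorem hh_add_one {a b : CircleDeg1Lift} (s y : ℝ) : hh a b s (y + 1) = hh a b s y + 1 := by
  simp only [hh, dd_add_one]
  ring

theorem hh_zero {a b : CircleDeg1Lift} (y : ℝ) : hh a b 0 y = y := by
  have h1 : ∑' p : ℕ × ℕ, (0 : ℝ) ^ (p.1 + p.2) * dd a b p y = 0 := by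
    rw [tsum_eq_single (0, 0)]
    · simp [dd_zero]
    · intro p hp
      have : p.1 + p.2 ≠ 0 := by
        intro h
        apply hp
        apply Prod.ext
        · change p.1 = 0; omega
        · change p.2 = 0; omega
      rw [zero_pow this, zero_mul]
  simp [hh, h1]

theorem hh_swap {a b : CircleDeg1Lift} (hab : Commute a b) (s y : ℝ) :
    hh a b s y = hh b a s y := by
  simp only [hh]
  congr 2
  rw [← (Equiv.prodComm ℕ ℕ).tsum_eq]
  refine tsum_congr fun p => ?_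
  rw [dd_swap hab]
  simp only [Equiv.prodComm_apply, Prod.swap_swap, Prod.fst_swap, Prod.snd_swap]
  rw [add_comm]

theorem strictMono_hh {a b : CircleDeg1Lift} (hab : Commute a b) {s : ℝ} (h0 : 0 ≤ s)
    (h1 : s < 1) : StrictMono (hh a b s) := by
  intro y y' hy
  have hS := summable_dd hab h0 h1 id y
  have hS' := summable_dd hab h0 h1 id y'
  simp only [id] at hS hS'
  have hG := summable_geom2 h0 h1
  have e1 : hh a b s y' - hh a b s y =
      (1 - s) ^ 2 * ∑' p : ℕ × ℕ, s ^ (p.1 + p.2) *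
        ((a ^ p.1 * b ^ p.2) y' - (a ^ p.1 * b ^ p.2) y) := by
    have e2 : ∑' p : ℕ × ℕ, s ^ (p.1 + p.2) * ((a ^ p.1 * b ^ p.2) y' - (a ^ p.1 * b ^ p.2) y) =
        (∑' p : ℕ × ℕ, s ^ (p.1 + p.2) * dd a b p y') - (∑' p : ℕ × ℕ, s ^ (p.1 + p.2) * dd a b p y)
          + (∑' p : ℕ × ℕ, s ^ (p.1 + p.2)) * (y' - y) := by
      rw [← hS'.tsum_sub hS, ← tsum_mul_right, ← (hS'.sub hS).tsum_add (hG.mul_right _)]
      refine tsum_congr fun p => ?_
      simp only [dd]
      ring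
    rw [e2]
    simp only [hh]
    have := tsum_geom2 h0 h1
    linear_combination (-(y' - y)) * this
  have h2 : y' - y ≤ ∑' p : ℕ × ℕ, s ^ (p.1 + p.2) *
        ((a ^ p.1 * b ^ p.2) y' - (a ^ p.1 * b ^ p.2) y) := by
    have hsum : Summable fun p : ℕ × ℕ => s ^ (p.1 + p.2) *
        ((a ^ p.1 * b ^ p.2) y' - (a ^ p.1 * b ^ p.2) y) := by
      have := (hS'.sub hS).add (hG.mul_right (y' - y))
      refine this.congr fun p => ?_
      simp only [dd]
      ring
    have h3 := hsum.le_tsum (0, 0) (fun p _ => mul_nonneg (pow_nonneg h0 _)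
      (sub_nonneg.2 ((a ^ p.1 * b ^ p.2).monotone hy.le)))
    simpa using h3
  have h3 : 0 < (1 - s) ^ 2 := by
    have : 0 < 1 - s := by linarith
    positivity
  have h4 : 0 < hh a b s y' - hh a b s y := by
    rw [e1]
    apply mul_pos h3
    linarith
  linarith

theorem continuousOn_hh {a b : CircleDeg1Lift} (hab : Commute a b) (ha : Continuous a)
    (hb : Continuous b) : ContinuousOn (fun q : ℝ × ℝ => hh a b q.1 q.2) (Ico 0 1 ×ˢ univ) := by
  have h1 : ContinuousOn (fun q : ℝ × ℝ => ∑' p : ℕ × ℕ, q.1 ^ (p.1 + p.2) * dd a b p q.2)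
      (Ico 0 1 ×ˢ univ) := by
    rintro ⟨s0, y0⟩ hq
    obtain ⟨hs0, -⟩ := hq
    simp only at hs0
    obtain ⟨Λ, hΛ1, hΛ2⟩ := exists_between hs0.2
    have hΛ0 : 0 ≤ Λ := hs0.1.trans hΛ1.le
    have h2 : ContinuousOn (fun q : ℝ × ℝ => ∑' p : ℕ × ℕ, q.1 ^ (p.1 + p.2) * dd a b p q.2)
        (Icc 0 Λ ×ˢ univ) := by
      refine continuousOn_tsum (u := fun p : ℕ × ℕ => Λ ^ (p.1 + p.2)) (fun p => ?_)
        (summable_geom2 hΛ0 hΛ2) (fun p q hq => ?_)
      · exact ((continuous_fst.pow _).mul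
          ((continuous_dd ha hb p).comp continuous_snd)).continuousOn
      · rw [norm_mul, Real.norm_eq_abs, Real.norm_eq_abs, abs_of_nonneg (pow_nonneg hq.1.1 _)]
        calc q.1 ^ (p.1 + p.2) * |dd a b p q.2| ≤ Λ ^ (p.1 + p.2) * 1 := by
              gcongr
              · exact hq.1.1
              · exact hq.1.2
              · exact abs_dd_le hab _ _
          _ = Λ ^ (p.1 + p.2) := mul_one _
    have h3 := h2 (s0, y0) ⟨⟨hs0.1, hΛ1.le⟩, mem_univ _⟩
    refine h3.mono_of_mem_nhdsWithin ?_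
    have h4 : (Iio Λ ×ˢ (univ : Set ℝ)) ∈ 𝓝 (s0, y0) :=
      (isOpen_Iio.prod isOpen_univ).mem_nhds ⟨hΛ1, mem_univ _⟩
    filter_upwards [mem_nhdsWithin_of_mem_nhds h4, self_mem_nhdsWithin] with q hq1 hq2
    exact ⟨⟨hq2.1.1, le_of_lt hq1.1⟩, mem_univ _⟩
  have h2 : (fun q : ℝ × ℝ => hh a b q.1 q.2) = fun q => q.2 + (1 - q.1) ^ 2 *
      ∑' p : ℕ × ℕ, q.1 ^ (p.1 + p.2) * dd a b p q.2 := rfl
  rw [h2]
  exact continuousOn_snd.add (((continuousOn_const.sub continuousOn_fst).pow 2).mul h1)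

theorem hh_left {a b : CircleDeg1Lift} (hab : Commute a b) {s : ℝ} (h0 : 0 ≤ s) (h1 : s < 1)
    (y : ℝ) : |hh a b s (a y) - hh a b s y - translationNumber a| ≤ 2 * (1 - s) := by
  have hG := summable_geom2 h0 h1
  have hD := summable_dd hab h0 h1 id y
  have hD' := summable_dd hab h0 h1 (fun p => (p.1 + 1, p.2)) y
  simp only [id] at hD
  obtain ⟨D, hDe⟩ : ∃ D, D = ∑' p : ℕ × ℕ, s ^ (p.1 + p.2) * dd a b p y := ⟨_, rfl⟩
  obtain ⟨D', hDe'⟩ : ∃ D', D' = ∑' p : ℕ × ℕ, s ^ (p.1 + p.2) * dd a b (p.1 + 1, p.2) y :=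
    ⟨_, rfl⟩
  obtain ⟨D0, hDe0⟩ : ∃ D0, D0 = ∑' j : ℕ, s ^ j * dd a b (0, j) y := ⟨_, rfl⟩
  have e1 : hh a b s (a y) = y + translationNumber a + (1 - s) ^ 2 * D' := by
    have e2 : ∑' p : ℕ × ℕ, s ^ (p.1 + p.2) * dd a b p (a y) =
        D' + (∑' p : ℕ × ℕ, s ^ (p.1 + p.2)) * (y + translationNumber a - a y) := by
      rw [hDe', ← tsum_mul_right, ← hD'.tsum_add (hG.mul_right _)]
      refine tsum_congr fun p => ?_
      have := dd_shift hab p.1 p.2 y
      simp only [Prod.mk.eta] at this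
      rw [this]
      ring
    simp only [hh]
    rw [e2]
    have := tsum_geom2 h0 h1
    linear_combination (y + translationNumber a - a y) * this
  have e3 : D = D0 + s * D' := by
    rw [hDe, hDe', hDe0, hD.tsum_prod, hD'.tsum_prod]
    rw [(hD.prod).tsum_eq_zero_add]
    congr 1
    · simp
    · rw [← tsum_mul_left]
      refine tsum_congr fun i => ?_
      rw [← tsum_mul_left]
      refine tsum_congr fun j => ?_
      simp only
      rw [show i + 1 + j = (i + j) + 1 by ring, pow_succ]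
      ring
  have e4 : hh a b s (a y) - hh a b s y - translationNumber a =
      (1 - s) ^ 2 * ((1 - s) * D' - D0) := by
    rw [e1]
    simp only [hh]
    rw [← hDe]
    linear_combination (-(1 - s) ^ 2) * e3
  have h2 : 0 < 1 - s := by linarith
  have b1 : (1 - s) ^ 2 * |D'| ≤ 1 := by
    have h3 : |D'| ≤ ∑' p : ℕ × ℕ, s ^ (p.1 + p.2) := by
      rw [hDe', ← Real.norm_eq_abs]
      refine tsum_of_norm_bounded hG.hasSum (fun p => ?_)
      rw [norm_mul, Real.norm_eq_abs, Real.norm_eq_abs, abs_of_nonneg (pow_nonneg h0 _)]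
      exact mul_le_of_le_one_right (pow_nonneg h0 _) (abs_dd_le hab _ _)
    calc (1 - s) ^ 2 * |D'| ≤ (1 - s) ^ 2 * ∑' p : ℕ × ℕ, s ^ (p.1 + p.2) := by gcongr
      _ = 1 := tsum_geom2 h0 h1
  have b2 : (1 - s) * |D0| ≤ 1 := by
    have hg := summable_geometric_of_lt_one h0 h1
    have h3 : |D0| ≤ ∑' j : ℕ, s ^ j := by
      rw [hDe0, ← Real.norm_eq_abs]
      refine tsum_of_norm_bounded hg.hasSum (fun p => ?_)
      rw [norm_mul, Real.norm_eq_abs, Real.norm_eq_abs, abs_of_nonneg (pow_nonneg h0 _)]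
      exact mul_le_of_le_one_right (pow_nonneg h0 _) (abs_dd_le hab _ _)
    rw [tsum_geometric_of_lt_one h0 h1] at h3
    calc (1 - s) * |D0| ≤ (1 - s) * (1 - s)⁻¹ := by gcongr
      _ = 1 := mul_inv_cancel₀ h2.ne'
  rw [e4, abs_mul, abs_of_pos (by positivity : 0 < (1 - s) ^ 2)]
  have h5 : |(1 - s) * D' - D0| ≤ (1 - s) * |D'| + |D0| := by
    refine (abs_sub _ _).trans ?_
    rw [abs_mul, abs_of_pos h2]
  calc (1 - s) ^ 2 * |(1 - s) * D' - D0| ≤ (1 - s) ^ 2 * ((1 - s) * |D'| + |D0|) := by gcongr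
    _ = (1 - s) * ((1 - s) ^ 2 * |D'|) + (1 - s) * ((1 - s) * |D0|) := by ring
    _ ≤ (1 - s) * 1 + (1 - s) * 1 := by gcongr
    _ = 2 * (1 - s) := by ring

theorem hh_right {a b : CircleDeg1Lift} (hab : Commute a b) {s : ℝ} (h0 : 0 ≤ s) (h1 : s < 1)
    (y : ℝ) : |hh a b s (b y) - hh a b s y - translationNumber b| ≤ 2 * (1 - s) := by
  rw [hh_swap hab, hh_swap hab]
  exact hh_left hab.symm h0 h1 y

/-- inverse of a lift of a circle homeomorphism -/
theorem exists_circle_inv {α : ℝ → ℝ} (hc : Continuous α) (hm : StrictMono α)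
    (hp : ∀ x, α (x + 1) = α x + 1) : ∃ β : ℝ → ℝ, Continuous β ∧ StrictMono β ∧
      (∀ x, β (x + 1) = β x + 1) ∧ (∀ x, α (β x) = x) ∧ ∀ x, β (α x) = x := by
  let f : CircleDeg1Lift := ⟨⟨α, hm.monotone⟩, hp⟩
  have hf : ∀ x, f x = α x := fun x => rfl
  have hsurj : Function.Surjective α := by
    have : Function.Surjective f := (f.continuous_iff_surjective).1 hc
    exact this
  let e := hm.orderIsoOfSurjective α hsurj
  have he : ∀ x, e x = α x := fun x => rfl
  refine ⟨e.symm, e.symm.continuous, e.symm.strictMono, fun x => ?_, fun x => ?_, fun x => ?_⟩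
  · apply hm.injective
    rw [hp, ← he, ← he, e.apply_symm_apply, e.apply_symm_apply]
  · rw [← he, e.apply_symm_apply]
  · rw [← he, e.symm_apply_apply]

end Pool.Agent.Helper984_CP
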