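import Pool.Agent.Helper984_CP.PushP

/-!
# Trapping discs and basins
-/

set_option autoImplicit false

open Set Filter Topology Complex

noncomputable section

namespace Pool.Agent.Helper984_CP

/-- decreasing intersections of compact connected sets are connected -/
theorem preconn_iInter' {X : Type*} [TopologicalSpace X] [T2Space X] {V : ℕ → Set X}
    (hV : Antitone V) (hc : ∀ n, IsCompact (V n))
    (hp : ∀ n, IsPreconnected (V n)) : IsPreconnected (⋂ n, V n) := by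
  rw [isPreconnected_iff_subset_of_disjoint_closed]
  intro A B hA hB hcov hdis
  by_contra hcon
  push Not at hcon
  obtain ⟨h1, h2⟩ := hcon
  obtain ⟨b, hbV, hbA⟩ := not_subset.1 h1
  obtain ⟨a, haV, haB⟩ := not_subset.1 h2
  have hKc : IsCompact (⋂ n, V n) :=
    (hc 0).of_isClosed_subset (isClosed_iInter fun n => (hc n).isClosed) (iInter_subset _ 0)
  have hKA : IsCompact ((⋂ n, V n) ∩ A) := hKc.inter_right hA
  have hKB : IsCompact ((⋂ n, V n) ∩ B) := hKc.inter_right hB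
  have hd : Disjoint ((⋂ n, V n) ∩ A) ((⋂ n, V n) ∩ B) := by
    rw [Set.disjoint_left]
    rintro x ⟨hx, hxA⟩ ⟨-, hxB⟩
    have : x ∈ (⋂ n, V n) ∩ (A ∩ B) := ⟨hx, hxA, hxB⟩
    rw [hdis] at this
    exact this
  obtain ⟨U1, U2, hU1, hU2, hs1, hs2, hUd⟩ := SeparatedNhds.of_isCompact_isCompact hKA hKB hd
  have hsub : ⋂ n, V n ⊆ U1 ∪ U2 := by
    intro x hx
    rcases hcov hx with h | h
    · exact Or.inl (hs1 ⟨hx, h⟩)
    · exact Or.inr (hs2 ⟨hx, h⟩)
  obtain ⟨n, hn⟩ := exists_subset_nhds_of_isCompact hV.directed_ge hc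
    (fun x hx => (hU1.union hU2).mem_nhds (hsub hx))
  have haA : a ∈ A := (hcov haV).resolve_right haB
  have hbB : b ∈ B := (hcov hbV).resolve_left hbA
  have haU : a ∈ U1 := hs1 ⟨haV, haA⟩
  have hbU : b ∈ U2 := hs2 ⟨hbV, hbB⟩
  have h3 := (hp n).subset_left_of_subset_union hU1 hU2 hUd hn ⟨a, mem_iInter.1 haV n, haU⟩
  exact Set.disjoint_left.1 hUd (h3 (mem_iInter.1 hbV n)) hbU

/-- the complement in the sphere of the interior of a filled compact set -/
theorem sphere_compl_interior {E : Set ℂ} (hE : IsCompact E) (hc : IsPreconnected Eᶜ) :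
    IsPreconnected ((fun z : ℂ => (z : OnePoint ℂ)) '' interior E)ᶜ := by
  obtain ⟨i, hi⟩ : ∃ i : ℂ → OnePoint ℂ, i = fun z : ℂ => (z : OnePoint ℂ) := ⟨_, rfl⟩
  rw [← hi]
  have hio : IsOpenEmbedding i := by rw [hi]; exact OnePoint.isOpenEmbedding_coe
  have e : (i '' interior E)ᶜ = closure (i '' Eᶜ) := by
    apply subset_antisymm
    · intro x hx
      induction x using OnePoint.rec with
      | infty =>
        rw [mem_closure_iff]
        intro o ho hxo
        have h1 : IsOpen (o ∩ (i '' E)ᶜ) :=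
          ho.inter (hE.image hio.continuous).isClosed.isOpen_compl
        have h2 : OnePoint.infty ∈ o ∩ (i '' E)ᶜ := by
          refine ⟨hxo, ?_⟩
          rintro ⟨z, -, hz⟩
          rw [hi] at hz
          exact OnePoint.coe_ne_infty z hz
        obtain ⟨z, hz1, hz2⟩ := (OnePoint.denseRange_coe (X := ℂ)).exists_mem_open h1 ⟨_, h2⟩
        refine ⟨i z, by rw [hi]; exact hz1, z, fun hzE => hz2 ⟨z, hzE, by rw [hi]⟩, rfl⟩
      | coe z =>
        have h1 : z ∈ closure Eᶜ := by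
          rw [closure_compl]
          intro h
          exact hx ⟨z, h, by rw [hi]⟩
        have h2 := image_closure_subset_closure_image hio.continuous ⟨z, h1, rfl⟩
        rw [hi] at h2 ⊢
        exact h2
    · apply closure_minimal
      · rintro _ ⟨z, hz, rfl⟩ ⟨y, hy, hyz⟩
        rw [hio.injective hyz] at hy
        exact hz (interior_subset hy)
      · exact (hio.isOpenMap _ isOpen_interior).isClosed_compl
  rw [e]
  exact (hc.image _ hio.continuous.continuousOn).closure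

/-- the component of the interior of a filled compact set -/
theorem sphere_compl_comp {E : Set ℂ} (hE : IsCompact E) (hc : IsPreconnected Eᶜ) {x : ℂ}
    (hx : x ∈ interior E) :
    IsPreconnected ((fun z : ℂ => (z : OnePoint ℂ)) '' connectedComponentIn (interior E) x)ᶜ := by
  have h1 := sphere_compl_interior hE hc
  obtain ⟨i, hi⟩ : ∃ i : ℂ → OnePoint ℂ, i = fun z : ℂ => (z : OnePoint ℂ) := ⟨_, rfl⟩
  rw [← hi] at h1 ⊢
  have hio : IsOpenEmbedding i := by rw [hi]; exact OnePoint.isOpenEmbedding_coe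
  have hx' : i x ∉ (i '' interior E)ᶜ := fun h => h ⟨x, hx, rfl⟩
  have e : connectedComponentIn (i '' interior E)ᶜᶜ (i x) =
      i '' connectedComponentIn (interior E) x := by
    rw [compl_compl]
    apply subset_antisymm
    · have hsub : connectedComponentIn (i '' interior E) (i x) ⊆ i '' interior E :=
        connectedComponentIn_subset _ _
      have hr : connectedComponentIn (i '' interior E) (i x) ⊆ range i :=
        hsub.trans (image_subset_range _ _)
      have h2 : IsPreconnected (i ⁻¹' connectedComponentIn (i '' interior E) (i x)) :=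
        isPreconnected_connectedComponentIn.preimage_of_isOpenMap hio.injective hio.isOpenMap hr
      have h3 : i ⁻¹' connectedComponentIn (i '' interior E) (i x) ⊆
          connectedComponentIn (interior E) x := by
        refine h2.subset_connectedComponentIn (mem_connectedComponentIn ⟨x, hx, rfl⟩) ?_
        intro y hy
        obtain ⟨z, hz, hzy⟩ := hsub hy
        rwa [← hio.injective hzy]
      intro y hy
      obtain ⟨z, hz⟩ := hr hy
      rw [← hz] at hy ⊢
      exact ⟨z, h3 hy, rfl⟩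
    · refine (isPreconnected_connectedComponentIn.image _
        hio.continuous.continuousOn).subset_connectedComponentIn
        ⟨x, mem_connectedComponentIn hx, rfl⟩ (image_mono (connectedComponentIn_subset _ _))
  have h4 := compl_component_preconnected h1 hx' (by
    rw [e]
    exact hio.isOpenMap _ isOpen_interior.connectedComponentIn)
  rwa [e] at h4

/-- a trapping disc -/
theorem exists_disc {v : ℂ ≃ₜ ℂ} (hv0 : v 0 = 0) {E : Set ℂ} (hE : IsCompact E)
    (hEc : IsPreconnected E) (hEcc : IsPreconnected Eᶜ) (hE0 : E ∈ 𝓝 (0 : ℂ))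
    (hm : MapsTo v E (interior E)) :
    ∃ Q : ℂ ≃ₜ ℂ, Q 0 = 0 ∧ IsoId (toC Q) ∧ (∀ z, ‖z‖ ≤ 1 → Q z ∈ E) ∧
      ∀ z, ‖z‖ ≤ 1 → ∃ y, ‖y‖ < 1 ∧ v (Q z) = Q y := by
  have h0 : (0 : ℂ) ∈ interior E := mem_interior_iff_mem_nhds.2 hE0
  obtain ⟨U, hU⟩ : ∃ U, U = connectedComponentIn (interior E) 0 := ⟨_, rfl⟩
  have hUo : IsOpen U := by rw [hU]; exact isOpen_interior.connectedComponentIn
  have hUc : IsConnected U := by rw [hU]; exact isConnected_connectedComponentIn_iff.2 h0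
  have h0U : (0 : ℂ) ∈ U := by rw [hU]; exact mem_connectedComponentIn h0
  have hUE : U ⊆ E := by
    rw [hU]
    exact (connectedComponentIn_subset _ _).trans interior_subset
  have hUne : U ≠ univ := by
    intro h
    rw [h] at hUE
    have h1 : IsCompact (univ : Set ℂ) := by
      rw [← univ_subset_iff.1 hUE]
      exact hE
    exact noncompact_univ ℂ h1
  have hvE : v '' E ⊆ U := by
    rw [hU]
    refine (hEc.image _ v.continuous.continuousOn).subset_connectedComponentIn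
      ⟨0, mem_of_mem_nhds hE0, hv0⟩ hm.image_subset
  obtain ⟨φ, ψ, hR, hd, hφ0, hψ⟩ := exists_riem_hull' hUo hUc hUne
    (hull_of_compl (by rw [hU]; exact sphere_compl_comp hE hEcc h0)) h0U
  -- the image is well inside
  obtain ⟨ρ, hρ0, hρ1, hρ⟩ : ∃ ρ : ℝ, 0 ≤ ρ ∧ ρ < 1 ∧ ∀ w ∈ v '' E, ‖ψ w‖ ≤ ρ := by
    have hc : IsCompact (v '' E) := hE.image v.continuous
    obtain ⟨x, hx, hmax⟩ := hc.exists_isMaxOn ⟨_, ⟨0, mem_of_mem_nhds hE0, rfl⟩⟩
      (f := fun w => ‖ψ w‖) ((hR.cont.mono hvE).norm)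
    exact ⟨‖ψ x‖, norm_nonneg _, hR.mapsInv _ (hvE hx), fun w hw => hmax hw⟩
  obtain ⟨R, hRdef⟩ : ∃ R, R = (1 + ρ) / (1 - ρ) := ⟨_, rfl⟩
  have hρ2 : 0 < 1 - ρ := by linarith
  have hR0 : 0 < R := by rw [hRdef]; positivity
  obtain ⟨H, hH, hHe⟩ := exists_H hR hd R
  obtain ⟨Hi, hH1, hH2⟩ := hH.isHomeo
  let Q : ℂ ≃ₜ ℂ := (scaleH R hR0.ne').trans
    ⟨⟨H, Hi, hH2, hH1⟩, H.continuous, Hi.continuous⟩
  have hQ : ∀ z, Q z = H (R * z) := fun z => rfl
  have hQd : ∀ z, ‖z‖ ≤ 1 → Q z = φ (toDisc (R * z)) := by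
    intro z hz
    rw [hQ, hHe]
    rw [norm_mul, Complex.norm_real, Real.norm_of_nonneg hR0.le]
    nlinarith
  refine ⟨Q, ?_, ?_, fun z hz => ?_, fun z hz => ?_⟩
  · rw [hQd 0 (by simp), mul_zero]
    have : toDisc 0 = 0 := by simp [toDisc]
    rw [this, hφ0]
  · have h1 : IsoId (⟨fun z => (R : ℂ) * z + 0, by fun_prop⟩ : C(ℂ, ℂ)) :=
      isoId_affine (d := 0) (by exact_mod_cast hR0.ne')
    have h2 := hH.comp h1
    have e : H.comp (⟨fun z => (R : ℂ) * z + 0, by fun_prop⟩ : C(ℂ, ℂ)) = toC Q := by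
      ext z
      simp [hQ]
    rwa [e] at h2
  · rw [hQd z hz]
    exact hUE (hR.maps _ (norm_toDisc_lt _))
  · have hzE : Q z ∈ E := by
      rw [hQd z hz]
      exact hUE (hR.maps _ (norm_toDisc_lt _))
    obtain ⟨w, hw⟩ : ∃ w, w = ψ (v (Q z)) := ⟨_, rfl⟩
    have hwρ : ‖w‖ ≤ ρ := by rw [hw]; exact hρ _ ⟨_, hzE, rfl⟩
    have hw1 : ‖w‖ < 1 := by linarith
    obtain ⟨y, hy⟩ : ∃ y, y = ofDisc w / R := ⟨_, rfl⟩
    have hRne : (R : ℂ) ≠ 0 := by exact_mod_cast hR0.ne'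
    have hRy : (R : ℂ) * y = ofDisc w := by rw [hy]; field_simp
    have hyn : ‖y‖ < 1 := by
      rw [hy, norm_div, Complex.norm_real, Real.norm_of_nonneg hR0.le, div_lt_one hR0]
      have e1 : ‖ofDisc w‖ = ‖w‖ / (1 - ‖w‖) := by
        rw [ofDisc, norm_div, Complex.norm_real, Real.norm_of_nonneg (by linarith)]
      rw [e1, hRdef, div_lt_div_iff₀ (by linarith) hρ2]
      nlinarith [norm_nonneg w]
    refine ⟨y, hyn, ?_⟩
    rw [hQd y hyn.le, hRy, toDisc_ofDisc hw1, hw, hR.right _ (hvE ⟨_, hzE, rfl⟩)]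

theorem pow_image_anti {v : ℂ ≃ₜ ℂ} {E : Set ℂ} (hm : MapsTo v E E) :
    Antitone fun n : ℕ => (v ^ n) '' E := by
  apply antitone_nat_of_succ_le
  rintro n _ ⟨x, hx, rfl⟩
  exact ⟨v x, hm hx, by rw [pow_succ]; rfl⟩

/-- an attracting element is conjugate to the contraction -/
theorem conj_of_attr {k : ℤ} {F G : ℂ ≃ₜ ℂ} (h : PK k F G) (hk : k ≠ 0) (hF0 : F 0 = 0)
    (hG0 : G 0 = 0) {v : ℂ ≃ₜ ℂ} (hvI : IsoId (toC v)) (hFv : Commute v F) (hGv : Commute v G)
    (hv0 : v 0 = 0) {E : Set ℂ} (hE : IsCompact E)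
    (hEc : IsPreconnected E) (hEcc : IsPreconnected Eᶜ) (hE0 : E ∈ 𝓝 (0 : ℂ))
    (hm : MapsTo v E (interior E)) (hz : ⋂ n : ℕ, (v ^ n) '' E ⊆ {0}) : ConjContr v := by
  have hm' : MapsTo v E E := fun x hx => interior_subset (hm hx)
  have hanti := pow_image_anti hm'
  have hcomp : ∀ n : ℕ, IsCompact ((v ^ n) '' E) := fun n => hE.image (v ^ n).continuous
  -- the images shrink to the origin
  have hshrink : ∀ N ∈ 𝓝 (0 : ℂ), ∃ n : ℕ, (v ^ n) '' E ⊆ N := by
    intro N hN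
    exact exists_subset_nhds_of_isCompact hanti.directed_ge hcomp (fun x hx => by
      have : x = 0 := hz hx
      rwa [this])
  -- the basin
  obtain ⟨B, hB⟩ : ∃ B : Set ℂ, B = {z | ∃ n : ℕ, (v ^ n) z ∈ E} := ⟨_, rfl⟩
  have hBU : B = ⋃ n : ℕ, (v ^ n) ⁻¹' interior E := by
    rw [hB]
    ext z
    simp only [mem_ofPred_eq, mem_iUnion, mem_preimage]
    constructor
    · rintro ⟨n, hn⟩
      refine ⟨n + 1, ?_⟩
      rw [pow_succ', mul_apply']
      exact hm hn
    · rintro ⟨n, hn⟩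
      exact ⟨n, interior_subset hn⟩
  have hBU' : B = ⋃ n : ℕ, (v ^ n) ⁻¹' E := by
    rw [hB]
    ext z
    simp only [mem_ofPred_eq, mem_iUnion, mem_preimage]
  have hBo : IsOpen B := by
    rw [hBU]
    exact isOpen_iUnion fun n => isOpen_interior.preimage (v ^ n).continuous
  have h0B : (0 : ℂ) ∈ B := by
    rw [hB]
    exact ⟨0, mem_of_mem_nhds hE0⟩
  have hBc : IsConnected B := by
    refine ⟨⟨0, h0B⟩, ?_⟩
    rw [hBU']
    refine isPreconnected_iUnion ⟨0, mem_iInter.2 fun n => ?_⟩ fun n => ?_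
    · rw [mem_preimage, pow_fix hv0]
      exact mem_of_mem_nhds hE0
    · rw [← (v ^ n).image_symm]
      exact hEc.image _ (v ^ n).symm.continuous.continuousOn
  have hBinv : ∀ T : ℂ ≃ₜ ℂ, T 0 = 0 → Commute v T → ∀ z ∈ B, T z ∈ B := by
    intro T hT hc z hz
    rw [hB] at hz ⊢
    obtain ⟨n, hn⟩ := hz
    obtain ⟨N, hN⟩ := hshrink (T ⁻¹' E) (T.continuous.continuousAt (by rw [hT]; exact hE0))
    refine ⟨N + n, ?_⟩
    have e : (v ^ (N + n)) (T z) = T ((v ^ N) ((v ^ n) z)) := by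
      rw [← mul_apply' (v ^ N), ← pow_add]
      exact congrArg (fun H : ℂ ≃ₜ ℂ => H z) (hc.pow_left (N + n)).eq
    rw [e]
    exact hN ⟨_, hn, rfl⟩
  have hBimg : ∀ T : ℂ ≃ₜ ℂ, T 0 = 0 → Commute v T → T '' B = B := by
    intro T hT hc
    apply subset_antisymm
    · rintro _ ⟨z, hz, rfl⟩
      exact hBinv T hT hc z hz
    · intro z hz
      have hTi : (T⁻¹ : ℂ ≃ₜ ℂ) 0 = 0 := symm_fix hT
      exact ⟨T⁻¹ z, hBinv T⁻¹ hTi hc.inv_right z hz, apply_inv_self' T z⟩
  have hBall : B = univ := by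
    by_contra hne
    let i : ℂ → OnePoint ℂ := fun z => (z : OnePoint ℂ)
    have hio : IsOpenEmbedding i := OnePoint.isOpenEmbedding_coe
    have himg : ∀ T : ℂ ≃ₜ ℂ, T '' B = B → OnePoint.map (toC T) '' (i '' B) = i '' B := by
      intro T hT
      rw [image_image]
      have : (fun x => OnePoint.map (toC T) (i x)) = fun x => i (T x) := rfl
      rw [this, ← image_image (g := i) (f := T), hT]
    have hcompl : (i '' B)ᶜ = ⋂ n : ℕ, (i '' interior ((v ^ n) ⁻¹' E))ᶜ := by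
      rw [hBU, image_iUnion, compl_iUnion]
      congr 1
      ext1 n
      rw [(v ^ n).preimage_interior]
    have hpre : IsPreconnected (i '' B)ᶜ := by
      rw [hcompl]
      refine preconn_iInter' ?_ (fun n => ?_) (fun n => ?_)
      · apply antitone_nat_of_succ_le
        intro n
        apply compl_subset_compl.2
        apply image_mono
        apply interior_mono
        intro z hz
        rw [mem_preimage] at hz ⊢
        rw [pow_succ', mul_apply']
        exact hm' hz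
      · exact (hio.isOpenMap _ isOpen_interior).isClosed_compl.isCompact
      · apply sphere_compl_interior
        · rw [← (v ^ n).image_symm]
          exact hE.image (v ^ n).symm.continuous
        · rw [← preimage_compl, ← (v ^ n).image_symm]
          exact hEcc.image _ (v ^ n).symm.continuous.continuousOn
    have hnt : ((i '' B)ᶜ).Nontrivial := by
      obtain ⟨z, hz⟩ := (ne_univ_iff_exists_notMem B).1 hne
      refine ⟨OnePoint.infty, ?_, i z, ?_, (OnePoint.coe_ne_infty z).symm⟩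
      · rintro ⟨w, -, hw⟩
        exact OnePoint.coe_ne_infty w hw
      · rintro ⟨w, hw, hwz⟩
        rw [hio.injective hwz] at hw
        exact hz hw
    have := sphere_inv h (W := i '' B) (hio.isOpenMap _ hBo)
      (hBc.image _ hio.continuous.continuousOn) hpre hnt
      (himg F (hBimg F hF0 hFv)) (himg G (hBimg G hG0 hGv))
    exact hk this.1
  -- the disc
  obtain ⟨Q, hQ0, hQI, hQE, hQv⟩ := exists_disc hv0 hE hEc hEcc hE0 hm
  obtain ⟨v', hv'⟩ : ∃ v' : ℂ ≃ₜ ℂ, v' = Q⁻¹ * v * Q := ⟨_, rfl⟩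
  have hQi0 : (Q⁻¹ : ℂ ≃ₜ ℂ) 0 = 0 := symm_fix hQ0
  have hpow : ∀ n : ℕ, v' ^ n = Q⁻¹ * v ^ n * Q := by
    intro n
    induction n with
    | zero => rw [pow_zero, pow_zero, mul_one, inv_mul_cancel]
    | succ n ih => rw [pow_succ, ih, hv', pow_succ]; group
  have hpowa : ∀ (n : ℕ) z, (v' ^ n) z = Q⁻¹ ((v ^ n) (Q z)) := by
    intro n z
    rw [hpow]
    rfl
  have hv'a : ∀ z, v' z = Q⁻¹ (v (Q z)) := fun z => by rw [hv']; rfl
  have hv'0 : v' 0 = 0 := by rw [hv'a, hQ0, hv0, hQi0]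
  have hv'1 : ∀ z, ‖z‖ ≤ 1 → ‖v' z‖ < 1 := by
    intro z hz
    obtain ⟨y, hy, hyz⟩ := hQv z hz
    rw [hv'a, hyz, inv_apply_self']
    exact hy
  have hv'I : IsoId (toC v') := by
    have := hvI.conj (h := toC Q⁻¹) (hi := toC Q) (inv_apply_self' Q) (apply_inv_self' Q)
    have e : (toC Q⁻¹).comp ((toC v).comp (toC Q)) = toC v' := by
      ext z
      exact (hv'a z).symm
    rwa [e] at this
  obtain ⟨P, hP1, hP2⟩ := exists_P hv'0 hv'I hv'1
  have hsm : ∀ ε : ℝ, 0 < ε → ∃ n : ℕ, ∀ z, ‖z‖ ≤ 1 → ‖(v' ^ n) z‖ ≤ ε := by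
    intro ε hε
    have h1 : (Q⁻¹ : ℂ ≃ₜ ℂ) ⁻¹' Metric.closedBall 0 ε ∈ 𝓝 (0 : ℂ) := by
      apply (Q⁻¹ : ℂ ≃ₜ ℂ).continuous.continuousAt
      rw [hQi0]
      exact Metric.closedBall_mem_nhds 0 hε
    obtain ⟨n, hn⟩ := hshrink _ h1
    refine ⟨n, fun z hz => ?_⟩
    rw [hpowa]
    exact mem_closedBall_zero_iff.1 (hn ⟨_, hQE z hz, rfl⟩)
  have hat : ∀ z, ∃ n : ℕ, ‖(v' ^ n) z‖ < 1 := by
    intro z
    have h1 : Q z ∈ B := by rw [hBall]; exact mem_univ _
    rw [hB] at h1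
    obtain ⟨n, hn⟩ := h1
    have h2 : (Q⁻¹ : ℂ ≃ₜ ℂ) ⁻¹' Metric.ball 0 1 ∈ 𝓝 (0 : ℂ) := by
      apply (Q⁻¹ : ℂ ≃ₜ ℂ).continuous.continuousAt
      rw [hQi0]
      exact Metric.ball_mem_nhds 0 one_pos
    obtain ⟨N, hN⟩ := hshrink _ h2
    refine ⟨N + n, ?_⟩
    rw [hpowa, pow_add, mul_apply']
    exact mem_ball_zero_iff.1 (hN ⟨_, hn, rfl⟩)
  obtain ⟨H, hH⟩ := conj_of_push hv'0 hP1 hP2 hv'1 hat hsm
  refine ⟨Q * H, fun z => ?_⟩
  rw [mul_apply', mul_apply', ← hH, hv'a, apply_inv_self']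

end Pool.Agent.Helper984_CP
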