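import Pool.Agent.Helper984_CP.Bump

/-!
# Branches of the logarithm along continua through the origin
-/

set_option autoImplicit false

open Set Filter Topology Complex

noncomputable section

namespace Pool.Agent.Helper984_CP

/-- a continuum through the origin which does not separate the plane -/
structure FC (K : Set ℂ) : Prop where
  cpt : IsCompact K
  pre : IsPreconnected K
  fil : IsPreconnected Kᶜ
  zero : (0 : ℂ) ∈ K

theorem FC.image {K : Set ℂ} (hK : FC K) {T : ℂ ≃ₜ ℂ} (hT : T 0 = 0) : FC (T '' K) := by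
  refine ⟨hK.cpt.image T.continuous, hK.pre.image _ T.continuous.continuousOn, ?_,
    ⟨0, hK.zero, hT⟩⟩
  rw [← image_compl_eq T.bijective]
  exact hK.fil.image _ T.continuous.continuousOn

theorem FC.ne {K : Set ℂ} (hK : FC K) {w : ℂ} (hw : w ∉ K) : w ≠ 0 := fun h => hw (h ▸ hK.zero)

/-- `φ` is a branch on `K` of the logarithm of `(w - x) / w` vanishing at the origin -/
def IsBr (K : Set ℂ) (w : ℂ) (φ : ℂ → ℂ) : Prop :=
  ContinuousOn φ K ∧ φ 0 = 0 ∧ ∀ x ∈ K, cexp (φ x) * w = w - x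

theorem exists_isBr {K : Set ℂ} (hK : FC K) {w : ℂ} (hw : w ∉ K) : ∃ φ, IsBr K w φ := by
  classical
  obtain ⟨R, hR⟩ := hK.cpt.isBounded.subset_closedBall (0 : ℂ)
  have hR0 : 0 ≤ R := by
    have := hR hK.zero
    rwa [mem_closedBall_zero_iff, norm_zero] at this
  obtain ⟨p, hp⟩ : ∃ p : ℂ, p = ((R + 1 : ℝ) : ℂ) := ⟨_, rfl⟩
  have hpn : ‖p‖ = R + 1 := by
    rw [hp, Complex.norm_real, Real.norm_eq_abs, abs_of_pos (by linarith)]
  have hpK : p ∈ Kᶜ := fun h => by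
    have := hR h
    rw [mem_closedBall_zero_iff] at this
    linarith
  have hp0 : p ≠ 0 := hK.ne hpK
  have hpc : IsPathConnected Kᶜ :=
    (hK.cpt.isClosed.isOpen_compl.isConnected_iff_isPathConnected).1 ⟨⟨p, hpK⟩, hK.fil⟩
  obtain ⟨γ, hγ⟩ := hpc.joinedIn p hpK w hw
  have hγ0 : ∀ t, γ t ≠ 0 := fun t => hK.ne (hγ t)
  have hγx : ∀ t (x : K), γ t - x ≠ 0 := fun t x h => hγ t (by
    rw [sub_eq_zero.1 h]
    exact x.2)
  have hpx : ∀ x : K, p - x ≠ 0 := fun x h => hpK (by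
    rw [sub_eq_zero.1 h]
    exact x.2)
  let H : C(unitInterval × K, ℂ) := ⟨fun q => (γ q.1 - q.2) / γ q.1 * (p / (p - q.2)), by
    refine Continuous.mul (Continuous.div (by fun_prop) (by fun_prop) fun q => hγ0 q.1)
      (Continuous.div (by fun_prop) (by fun_prop) fun q => hpx q.2)⟩
  obtain ⟨L, hL0, hL⟩ := exists_log H (fun q => mul_ne_zero (div_ne_zero (hγx _ _) (hγ0 _))
    (div_ne_zero hp0 (hpx _))) (fun x => by
      change (γ 0 - x) / γ 0 * (p / (p - x)) = 1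
      rw [γ.source]
      field_simp [hpx x])
  have hsl : ∀ x : K, 1 - (x : ℂ) / p ∈ slitPlane := by
    intro x
    have h1 : ‖(x : ℂ) / p‖ < 1 := by
      rw [norm_div, hpn, div_lt_one (by linarith)]
      have := hR x.2
      rw [mem_closedBall_zero_iff] at this
      linarith
    left
    have h2 := (Complex.re_le_norm ((x : ℂ) / p)).trans_lt h1
    rw [Complex.sub_re, Complex.one_re]
    linarith
  let ψ : K → ℂ := fun x => L (1, x) + Complex.log (1 - x / p) - L (1, ⟨0, hK.zero⟩)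
  have hψ : Continuous ψ := by
    refine ((L.continuous.comp (continuous_const.prodMk continuous_id)).add ?_).sub continuous_const
    rw [continuous_iff_continuousAt]
    intro x
    exact ContinuousAt.clog (by fun_prop) (hsl x)
  refine ⟨fun x => if h : x ∈ K then ψ ⟨x, h⟩ else 0, ?_, ?_, ?_⟩
  · rw [continuousOn_iff_continuous_domRestrict]
    refine hψ.congr fun x => ?_
    change ψ x = dite _ _ _
    rw [dif_pos x.2]
  · change dite _ _ _ = _
    rw [dif_pos hK.zero]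
    simp [ψ]
  · intro x hx
    change cexp (dite _ _ _) * w = _
    rw [dif_pos hx]
    have e1 : cexp (L (1, ⟨0, hK.zero⟩)) = 1 := by
      rw [hL]
      change (γ 1 - 0) / γ 1 * (p / (p - 0)) = 1
      rw [sub_zero, sub_zero, div_self (hγ0 1), div_self hp0, one_mul]
    have e2 : cexp (L (1, ⟨x, hx⟩)) = (w - x) / w * (p / (p - x)) := by
      rw [hL]
      change (γ 1 - x) / γ 1 * (p / (p - x)) = _
      rw [γ.target]
    change cexp (L (1, ⟨x, hx⟩) + Complex.log (1 - x / p) - L (1, ⟨0, hK.zero⟩)) * w = w - x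
    rw [Complex.exp_sub, Complex.exp_add, e1, e2, Complex.exp_log (slitPlane_ne_zero (hsl ⟨x, hx⟩))]
    have h1 := hpx ⟨x, hx⟩
    have h2 := hK.ne hw
    simp only at h1
    field_simp

/-- the branch -/
def br (K : Set ℂ) (w : ℂ) : ℂ → ℂ := by
  classical
  exact if h : ∃ φ, IsBr K w φ then h.choose else 0

theorem br_spec {K : Set ℂ} (hK : FC K) {w : ℂ} (hw : w ∉ K) : IsBr K w (br K w) := by
  have h := exists_isBr hK hw
  have e : br K w = h.choose := by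
    unfold br
    rw [dif_pos h]
  rw [e]
  exact h.choose_spec

theorem br_eq {K : Set ℂ} (hK : FC K) {w : ℂ} (hw : w ∉ K) {K1 : Set ℂ} (h1 : K1 ⊆ K)
    (h1p : IsPreconnected K1) (h10 : (0 : ℂ) ∈ K1) {φ : ℂ → ℂ} (hφ : IsBr K1 w φ) {x : ℂ}
    (hx : x ∈ K1) : br K w x = φ x := by
  have hs := br_spec hK hw
  have := exp_rigid_on h1p (hs.1.mono h1) hφ.1 (fun y hy => by
    have e1 := hs.2.2 y (h1 hy)
    rw [← hφ.2.2 y hy] at e1
    exact mul_right_cancel₀ (hK.ne hw) e1) hx h10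
  rw [hs.2.1, hφ.2.1, sub_self] at this
  exact sub_eq_zero.1 this

theorem br_mono {K K1 : Set ℂ} (hK : FC K) (hK1 : FC K1) {w : ℂ} (hw : w ∉ K) (h1 : K1 ⊆ K) {x : ℂ}
    (hx : x ∈ K1) : br K w x = br K1 w x :=
  br_eq hK hw h1 hK1.pre hK1.zero (br_spec hK1 fun h => hw (h1 h)) hx

/-- continuity in the base point -/
theorem br_cont {K : Set ℂ} (hK : FC K) {z : ℂ} (hz : z ∈ K) :
    ContinuousOn (fun w => br K w z) Kᶜ := by
  intro w0 hw0
  apply ContinuousAt.continuousWithinAt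
  obtain ⟨d, hd, hball⟩ := Metric.mem_nhds_iff.1 (hK.cpt.isClosed.isOpen_compl.mem_nhds hw0)
  have hd' : ∀ x ∈ K, d ≤ ‖w0 - x‖ := by
    intro x hx
    by_contra hcon
    push Not at hcon
    have hxb : x ∈ Metric.ball w0 d := by
      rw [Metric.mem_ball, dist_comm, dist_eq_norm]
      exact hcon
    exact hball hxb hx
  have hsl : ∀ w ∈ Metric.ball w0 d, ∀ x ∈ K, 1 + (w - w0) / (w0 - x) ∈ slitPlane := by
    intro w hw x hx
    have h0 : 0 < ‖w0 - x‖ := hd.trans_le (hd' x hx)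
    have h1 : ‖(w - w0) / (w0 - x)‖ < 1 := by
      rw [norm_div, div_lt_one h0]
      rw [Metric.mem_ball, dist_eq_norm] at hw
      exact hw.trans_le (hd' x hx)
    left
    have h2 := (Complex.abs_re_le_norm ((w - w0) / (w0 - x))).trans_lt h1
    rw [Complex.add_re, Complex.one_re]
    linarith [(abs_lt.1 h2).1]
  have hwx : ∀ x ∈ K, w0 - x ≠ 0 := fun x hx h => hw0 (by rwa [sub_eq_zero.1 h])
  have h0w : w0 ≠ 0 := hK.ne hw0
  have key : ∀ w ∈ Metric.ball w0 d, br K w z = br K w0 z + Complex.log (1 + (w - w0) / (w0 - z)) -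
      Complex.log (1 + (w - w0) / (w0 - 0)) := by
    intro w hw
    have hwK : w ∉ K := hball hw
    have hw0' : w ≠ 0 := hK.ne hwK
    refine br_eq hK hwK (K1 := K) subset_rfl hK.pre hK.zero (φ := fun x => br K w0 x +
      Complex.log (1 + (w - w0) / (w0 - x)) - Complex.log (1 + (w - w0) / (w0 - 0))) ⟨?_, ?_, ?_⟩ hz
    · refine ((br_spec hK hw0).1.add ?_).sub continuousOn_const
      intro x hx
      refine ContinuousWithinAt.clog ?_ (hsl w hw x hx)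
      exact (continuousWithinAt_const.add (continuousWithinAt_const.div
        (continuousWithinAt_const.sub continuousWithinAt_id) (hwx x hx)))
    · change br K w0 0 + _ - _ = 0
      rw [(br_spec hK hw0).2.1]
      ring
    · intro x hx
      change cexp (br K w0 x + Complex.log (1 + (w - w0) / (w0 - x)) -
        Complex.log (1 + (w - w0) / (w0 - 0))) * w = w - x
      rw [Complex.exp_sub, Complex.exp_add, Complex.exp_log (slitPlane_ne_zero (hsl w hw x hx)),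
        Complex.exp_log (slitPlane_ne_zero (hsl w hw 0 hK.zero))]
      have e1 : cexp (br K w0 x) = (w0 - x) / w0 := by
        rw [eq_div_iff h0w]
        exact (br_spec hK hw0).2.2 x hx
      have e2 : 1 + (w - w0) / (w0 - x) = (w - x) / (w0 - x) := by
        field_simp [hwx x hx]
        ring
      have e3 : 1 + (w - w0) / (w0 - 0) = w / w0 := by
        rw [sub_zero]
        field_simp
        ring
      rw [e1, e2, e3]
      have := hwx x hx
      field_simp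
  have hc : ContinuousAt (fun w => br K w0 z + Complex.log (1 + (w - w0) / (w0 - z)) -
      Complex.log (1 + (w - w0) / (w0 - 0))) w0 := by
    have h1 := hsl w0 (Metric.mem_ball_self hd)
    refine ((continuousAt_const.add ?_).sub ?_)
    · exact ContinuousAt.clog (by fun_prop) (h1 z hz)
    · exact ContinuousAt.clog (by fun_prop) (h1 0 hK.zero)
  exact hc.congr (Filter.eventually_of_mem (Metric.ball_mem_nhds w0 hd) fun w hw => (key w hw).symm)

/-- the pairing of two continua meeting only at the origin -/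
def th (K Γ : Set ℂ) (z w : ℂ) : ℂ := br K w z - br Γ z w

theorem th_anti (K Γ : Set ℂ) (z w : ℂ) : th Γ K w z = -th K Γ z w := by
  unfold th
  ring

/-- the hypotheses on a pair of continua -/
structure Pr (K Γ : Set ℂ) : Prop where
  left : FC K
  right : FC Γ
  inter : K ∩ Γ ⊆ {0}

theorem Pr.symm {K Γ : Set ℂ} (h : Pr K Γ) : Pr Γ K :=
  ⟨h.right, h.left, by rw [inter_comm]; exact h.inter⟩

theorem Pr.not_left {K Γ : Set ℂ} (h : Pr K Γ) {w : ℂ} (hw : w ∈ Γ) (hw0 : w ≠ 0) : w ∉ K :=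
  fun hK => hw0 (h.inter ⟨hK, hw⟩)

theorem Pr.not_right {K Γ : Set ℂ} (h : Pr K Γ) {z : ℂ} (hz : z ∈ K) (hz0 : z ≠ 0) : z ∉ Γ :=
  fun hK => hz0 (h.inter ⟨hz, hK⟩)

theorem exp_th {K Γ : Set ℂ} (h : Pr K Γ) {z w : ℂ} (hz : z ∈ K) (hz0 : z ≠ 0) (hw : w ∈ Γ)
    (hw0 : w ≠ 0) : cexp (th K Γ z w) * w = -z := by
  have h1 := (br_spec h.left (h.not_left hw hw0)).2.2 z hz
  have h2 := (br_spec h.right (h.not_right hz hz0)).2.2 w hw
  have hne : w - z ≠ 0 := fun e => h.not_left hw hw0 (by rwa [sub_eq_zero.1 e])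
  have hne' : z - w ≠ 0 := fun e => hne (by rw [← neg_sub, e, neg_zero])
  have e1 : cexp (br K w z) = (w - z) / w := by rw [eq_div_iff hw0, h1]
  have e2 : cexp (br Γ z w) = (z - w) / z := by rw [eq_div_iff hz0, h2]
  rw [th, Complex.exp_sub, e1, e2]
  field_simp
  ring

theorem th_mono {K Γ K1 Γ1 : Set ℂ} (h : Pr K Γ) (hK : FC K1) (hΓ : FC Γ1) (hK1 : K1 ⊆ K)
    (hΓ1 : Γ1 ⊆ Γ) {z w : ℂ} (hz : z ∈ K1) (hz0 : z ≠ 0) (hw : w ∈ Γ1) (hw0 : w ≠ 0) :
    th K Γ z w = th K1 Γ1 z w := by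
  unfold th
  rw [br_mono h.left hK (h.not_left (hΓ1 hw) hw0) hK1 hz,
    br_mono h.right hΓ (h.not_right (hK1 hz) hz0) hΓ1 hw]

theorem th_contOn {K Γ : Set ℂ} (h : Pr K Γ) {w : ℂ} (hw : w ∈ Γ) (hw0 : w ≠ 0) :
    ContinuousOn (fun z => th K Γ z w) (K \ {0}) := by
  refine ((br_spec h.left (h.not_left hw hw0)).1.mono sdiff_subset).sub ?_
  exact (br_cont h.right hw).mono fun z hz => h.not_right hz.1 hz.2

/-- the difference of two pairings is constant along connected sets -/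
theorem th_const {K Γ Γ' : Set ℂ} (h : Pr K Γ) (h' : Pr K Γ') {w w' : ℂ} (hw : w ∈ Γ)
    (hw0 : w ≠ 0) (hw' : w' ∈ Γ') (hw0' : w' ≠ 0) {C : Set ℂ} (hC : IsPreconnected C)
    (hCK : C ⊆ K \ {0}) {z1 z2 : ℂ} (hz1 : z1 ∈ C) (hz2 : z2 ∈ C) :
    th K Γ z1 w - th K Γ' z1 w' = th K Γ z2 w - th K Γ' z2 w' := by
  have h1 := exp_rigid_on hC ((th_contOn h hw hw0).mono hCK)
    (v := fun z => th K Γ' z w' + Complex.log (w' / w))
    (((th_contOn h' hw' hw0').mono hCK).add continuousOn_const) (fun z hz => by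
      have e1 := exp_th h (hCK hz).1 (hCK hz).2 hw hw0
      have e2 := exp_th h' (hCK hz).1 (hCK hz).2 hw' hw0'
      rw [Complex.exp_add, Complex.exp_log (div_ne_zero hw0' hw0), mul_div_assoc', e2,
        eq_div_iff hw0, e1]) hz1 hz2
  linear_combination h1

theorem th_const' {K K' Γ : Set ℂ} (h : Pr K Γ) (h' : Pr K' Γ) {z z' : ℂ} (hz : z ∈ K)
    (hz0 : z ≠ 0) (hz' : z' ∈ K') (hz0' : z' ≠ 0) {C : Set ℂ} (hC : IsPreconnected C)
    (hCΓ : C ⊆ Γ \ {0}) {w1 w2 : ℂ} (hw1 : w1 ∈ C) (hw2 : w2 ∈ C) :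
    th K Γ z w1 - th K' Γ z' w1 = th K Γ z w2 - th K' Γ z' w2 := by
  have h1 := th_const h.symm h'.symm hz hz0 hz' hz0' hC hCΓ hw1 hw2
  rw [th_anti K Γ, th_anti K' Γ, th_anti K Γ, th_anti K' Γ] at h1
  linear_combination -h1

theorem half_log {K : Set ℂ} (hK : FC K) {w : ℂ} (hw : w ∉ K) {Y : Set ℂ} (hY : Y ⊆ K)
    (hYp : IsPreconnected Y) (hY0 : (0 : ℂ) ∈ Y) (hYw : ∀ x ∈ Y, ‖x‖ ≤ ‖w‖) {z : ℂ} (hz : z ∈ Y) :
    |(br K w z).im| < Real.pi / 2 := by
  have hw0 : w ≠ 0 := hK.ne hw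
  have hre : ∀ x ∈ Y, 0 < (1 - x / w).re := by
    intro x hx
    have h1 : ‖x / w‖ ≤ 1 := by
      rw [norm_div, div_le_one (norm_pos_iff.2 hw0)]
      exact hYw x hx
    rw [Complex.sub_re, Complex.one_re, sub_pos]
    refine lt_of_le_of_ne ((Complex.re_le_norm _).trans h1) fun h => ?_
    have h2 : (x / w).im = 0 := by
      have h3 := Complex.sq_norm (x / w)
      rw [Complex.normSq_apply, h] at h3
      nlinarith [norm_nonneg (x / w)]
    have h4 : x / w = 1 := Complex.ext h h2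
    rw [div_eq_one_iff_eq hw0] at h4
    exact hw (h4 ▸ hY hx)
  have e : br K w z = Complex.log (1 - z / w) := by
    refine br_eq hK hw hY hYp hY0 (φ := fun x => Complex.log (1 - x / w)) ⟨?_, ?_, ?_⟩ hz
    · intro x hx
      refine ContinuousWithinAt.clog ?_ (Or.inl (hre x hx))
      exact continuousWithinAt_const.sub (continuousWithinAt_id.div_const w)
    · simp
    · intro x hx
      change cexp (Complex.log (1 - x / w)) * w = w - x
      rw [Complex.exp_log (slitPlane_ne_zero (Or.inl (hre x hx)))]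
      field_simp
  rw [e, Complex.log_im]
  exact Complex.abs_arg_lt_pi_div_two_iff.2 (Or.inl (hre z hz))

theorem th_small {K Γ : Set ℂ} (h : Pr K Γ) {ρ : ℝ} (hρ : 0 < ρ) {Y Z : Set ℂ} (hY : Y ⊆ K)
    (hZ : Z ⊆ Γ) (hYρ : Y ⊆ Metric.closedBall 0 ρ) (hZρ : Z ⊆ Metric.closedBall 0 ρ)
    (hYp : IsPreconnected Y) (hZp : IsPreconnected Z) (hY0 : (0 : ℂ) ∈ Y) (hZ0 : (0 : ℂ) ∈ Z)
    {z w : ℂ} (hz : z ∈ Y) (hw : w ∈ Z) (hzρ : ‖z‖ = ρ) (hwρ : ‖w‖ = ρ) :
    |(th K Γ z w).im| < Real.pi := by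
  have hz0 : z ≠ 0 := norm_pos_iff.1 (by rw [hzρ]; exact hρ)
  have hw0 : w ≠ 0 := norm_pos_iff.1 (by rw [hwρ]; exact hρ)
  have h1 := half_log h.left (h.not_left (hZ hw) hw0) hY hYp hY0 (fun x hx => by
    rw [hwρ]
    exact mem_closedBall_zero_iff.1 (hYρ hx)) hz
  have h2 := half_log h.right (h.not_right (hY hz) hz0) hZ hZp hZ0 (fun x hx => by
    rw [hzρ]
    exact mem_closedBall_zero_iff.1 (hZρ hx)) hw
  rw [th, Complex.sub_im]
  have := abs_sub (br K w z).im (br Γ z w).im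
  linarith

theorem th_cross {K Γ Γ' : Set ℂ} (h : Pr K Γ) (h' : Pr K Γ') {z z' w w' : ℂ} (hz : z ∈ K)
    (hz0 : z ≠ 0) (hz' : z' ∈ K) (hz0' : z' ≠ 0) (hw : w ∈ Γ) (hw0 : w ≠ 0) (hw' : w' ∈ Γ')
    (hw0' : w' ≠ 0) : |((th K Γ z w - th K Γ z' w) - (th K Γ' z w' - th K Γ' z' w')).im| <
      4 * Real.pi := by
  obtain ⟨A, hAK, hA, hAp, hA0, hzA, hAd⟩ := exists_arm h.left.cpt h.left.pre h.left.zero hz hz0
  obtain ⟨A', hAK', hA', hAp', hA0', hzA', hAd'⟩ :=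
    exists_arm h.left.cpt h.left.pre h.left.zero hz' hz0'
  obtain ⟨B, hBΓ, hB, hBp, hB0, hwB, hBd⟩ := exists_arm h.right.cpt h.right.pre h.right.zero hw hw0
  obtain ⟨B', hBΓ', hB', hBp', hB0', hwB', hBd'⟩ :=
    exists_arm h'.right.cpt h'.right.pre h'.right.zero hw' hw0'
  obtain ⟨ρ, hρ⟩ : ∃ ρ, ρ = min (min ‖z‖ ‖z'‖) (min ‖w‖ ‖w'‖) := ⟨_, rfl⟩
  have hρ0 : 0 < ρ := by
    rw [hρ]
    exact lt_min (lt_min (norm_pos_iff.2 hz0) (norm_pos_iff.2 hz0'))
      (lt_min (norm_pos_iff.2 hw0) (norm_pos_iff.2 hw0'))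
  have r1 : ρ ≤ ‖z‖ := hρ ▸ (min_le_left _ _).trans (min_le_left _ _)
  have r2 : ρ ≤ ‖z'‖ := hρ ▸ (min_le_left _ _).trans (min_le_right _ _)
  have r3 : ρ ≤ ‖w‖ := hρ ▸ (min_le_right _ _).trans (min_le_left _ _)
  have r4 : ρ ≤ ‖w'‖ := hρ ▸ (min_le_right _ _).trans (min_le_right _ _)
  obtain ⟨Y, hY1, hY2, hY3, hY4, y, hyY, hy⟩ := bump_ball hA hAp hA0 hzA hρ0 r1
  obtain ⟨Y', hY1', hY2', hY3', hY4', y', hyY', hy'⟩ := bump_ball hA' hAp' hA0' hzA' hρ0 r2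
  obtain ⟨Z, hZ1, hZ2, hZ3, hZ4, v, hvZ, hv⟩ := bump_ball hB hBp hB0 hwB hρ0 r3
  obtain ⟨Z', hZ1', hZ2', hZ3', hZ4', v', hvZ', hv'⟩ := bump_ball hB' hBp' hB0' hwB' hρ0 r4
  have ne0 : ∀ {x : ℂ}, ‖x‖ = ρ → x ≠ 0 := fun hx => norm_pos_iff.1 (by rw [hx]; exact hρ0)
  -- move the first two points
  have m1 := th_const h h' hw hw0 hw' hw0' hAd (sdiff_subset_sdiff_left hAK)
    (z1 := z) (z2 := y) ⟨hzA, hz0⟩ ⟨hY1 hyY, ne0 hy⟩
  have m2 := th_const h h' hw hw0 hw' hw0' hAd' (sdiff_subset_sdiff_left hAK')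
    (z1 := z') (z2 := y') ⟨hzA', hz0'⟩ ⟨hY1' hyY', ne0 hy'⟩
  -- move the last two points
  have m3 := th_const' h h (hAK (hY1 hyY)) (ne0 hy) (hAK' (hY1' hyY')) (ne0 hy') hBd
    (sdiff_subset_sdiff_left hBΓ) (w1 := w) (w2 := v) ⟨hwB, hw0⟩ ⟨hZ1 hvZ, ne0 hv⟩
  have m4 := th_const' h' h' (hAK (hY1 hyY)) (ne0 hy) (hAK' (hY1' hyY')) (ne0 hy') hBd'
    (sdiff_subset_sdiff_left hBΓ') (w1 := w') (w2 := v') ⟨hwB', hw0'⟩ ⟨hZ1' hvZ', ne0 hv'⟩
  have e : (th K Γ z w - th K Γ z' w) - (th K Γ' z w' - th K Γ' z' w') =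
      (th K Γ y v - th K Γ y' v) - (th K Γ' y v' - th K Γ' y' v') := by
    linear_combination m1 - m2 + m3 - m4
  have b1 := th_small h hρ0 (hY1.trans hAK) (hZ1.trans hBΓ) hY2 hZ2 hY3 hZ3 hY4 hZ4 hyY hvZ hy hv
  have b2 := th_small h hρ0 (hY1'.trans hAK') (hZ1.trans hBΓ) hY2' hZ2 hY3' hZ3 hY4' hZ4 hyY' hvZ
    hy' hv
  have b3 := th_small h' hρ0 (hY1.trans hAK) (hZ1'.trans hBΓ') hY2 hZ2' hY3 hZ3' hY4 hZ4' hyY hvZ'
    hy hv'
  have b4 := th_small h' hρ0 (hY1'.trans hAK') (hZ1'.trans hBΓ') hY2' hZ2' hY3' hZ3' hY4' hZ4' hyY'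
    hvZ' hy' hv'
  rw [e]
  simp only [Complex.sub_im]
  rw [abs_lt] at *
  constructor <;> linarith

/-- behaviour under a homeomorphism -/
theorem br_equi {K : Set ℂ} (hK : FC K) {w : ℂ} (hw : w ∉ K) {T : ℂ ≃ₜ ℂ} (hT : T 0 = 0)
    {ℓ : C(Conf, ℂ)} (hℓ : LogDiff T ℓ) {z : ℂ} (hz : z ∈ K) (hzw : z ≠ w) :
    br (T '' K) (T w) (T z) = br K w z + ℓ ⟨(z, w), hzw⟩ - ℓ ⟨(0, w), (hK.ne hw).symm⟩ := by
  have hTK : FC (T '' K) := hK.image hT
  have hTw : T w ∉ T '' K := fun h => by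
    obtain ⟨x, hx, hxw⟩ := h
    exact hw (T.injective hxw ▸ hx)
  have hne : ∀ x : K, (x : ℂ) ≠ w := fun x h => hw (h ▸ x.2)
  have : PreconnectedSpace K := Subtype.preconnectedSpace hK.pre
  have hs := br_spec hTK hTw
  have hs' := br_spec hK hw
  have h0w := hK.ne hw
  have h1 := exp_rigid (A := K) (u := fun x => br (T '' K) (T w) (T x))
    (v := fun x => br K w x + ℓ ⟨(x, w), hne x⟩ - ℓ ⟨(0, w), h0w.symm⟩)
    (by
      have h2 := continuousOn_iff_continuous_domRestrict.1 hs.1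
      exact h2.comp (f := fun x : K => (⟨T x, mem_image_of_mem T x.2⟩ : T '' K)) (by fun_prop))
    (by
      have h2 := continuousOn_iff_continuous_domRestrict.1 hs'.1
      refine (h2.add (ℓ.continuous.comp ?_)).sub continuous_const
      exact (continuous_subtype_val.prodMk continuous_const).subtype_mk _)
    (fun x => by
      have e1 := hs.2.2 (T x) (mem_image_of_mem T x.2)
      have e2 := hs'.2.2 x x.2
      have e3 := hℓ ⟨(x, w), hne x⟩
      have e4 := hℓ ⟨(0, w), h0w.symm⟩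
      simp only [hT] at e3 e4
      have hTw0 : T w ≠ 0 := hTK.ne hTw
      apply mul_right_cancel₀ hTw0
      rw [e1, Complex.exp_sub, Complex.exp_add]
      have e5 : T w = cexp (ℓ ⟨(0, w), h0w.symm⟩) * w := by linear_combination e4
      have e6 : T w - T x = cexp (ℓ ⟨(x, w), hne x⟩) * (w - x) := by linear_combination e3
      rw [e6, ← e2]
      conv_rhs => rw [e5]
      have := Complex.exp_ne_zero (ℓ ⟨(0, w), h0w.symm⟩)
      field_simp) ⟨z, hz⟩ ⟨0, hK.zero⟩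
  simp only [hT, hs.2.1, hs'.2.1] at h1
  linear_combination h1

/-- rotation about the origin -/
def rot0 (ℓ : C(Conf, ℂ)) (z : ℂ) : ℂ := by
  classical
  exact if h : z ≠ 0 then ℓ ⟨(z, 0), h⟩ else 0

theorem rot0_eq {ℓ : C(Conf, ℂ)} {z : ℂ} (h : z ≠ 0) : rot0 ℓ z = ℓ ⟨(z, 0), h⟩ := by
  unfold rot0
  rw [dif_pos h]

theorem th_equi {K Γ : Set ℂ} (h : Pr K Γ) {T : ℂ ≃ₜ ℂ} (hT : T 0 = 0) {ℓ : C(Conf, ℂ)}
    (hℓ : LogDiff (toC T) ℓ) {z w : ℂ} (hz : z ∈ K) (hz0 : z ≠ 0) (hw : w ∈ Γ) (hw0 : w ≠ 0) :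
    th (T '' K) (T '' Γ) (T z) (T w) = th K Γ z w + rot0 ℓ z - rot0 ℓ w := by
  have hzw : z ≠ w := fun e => h.not_left hw hw0 (e ▸ hz)
  have e1 := br_equi h.left (h.not_left hw hw0) hT hℓ hz hzw
  have e2 := br_equi h.right (h.not_right hz hz0) hT hℓ hw hzw.symm
  have s1 := hℓ.symm hzw
  have s2 := hℓ.symm hz0
  have s3 := hℓ.symm hw0
  rw [th, th, e1, e2, rot0_eq hz0, rot0_eq hw0]
  linear_combination s1 - s2 + s3

end Pool.Agent.Helper984_CP
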