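import Pool.Agent.Helper984_CP.Prim

/-!
# Boundary bumping, and the stable continuum of a fixed point
-/

set_option autoImplicit false

open Set Filter Topology Complex

noncomputable section

namespace Pool.Agent.Helper984_CP

/-- boundary bumping -/
theorem bump {E D : Set ℂ} (hE : IsCompact E) (hEp : IsPreconnected E) (hD : IsClosed D) {c : ℂ}
    (hcE : c ∈ E) (hcD : c ∈ D) (hne : ¬ E ⊆ interior D) :
    ∃ y ∈ connectedComponentIn (E ∩ D) c, y ∉ interior D := by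
  by_contra hcon
  push Not at hcon
  have hc : c ∈ E ∩ D := ⟨hcE, hcD⟩
  have : CompactSpace ↥(E ∩ D) := isCompact_iff_compactSpace.1 (hE.inter_right hD)
  have h1 : connectedComponent (⟨c, hc⟩ : ↥(E ∩ D)) ⊆ Subtype.val ⁻¹' interior D := by
    intro x hx
    apply hcon
    rw [connectedComponentIn_eq_image hc]
    exact ⟨x, hx, rfl⟩
  rw [connectedComponent_eq_iInter_isClopen] at h1
  have hne2 : Nonempty {s : Set ↥(E ∩ D) // IsClopen s ∧ (⟨c, hc⟩ : ↥(E ∩ D)) ∈ s} :=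
    ⟨⟨univ, isClopen_univ, mem_univ _⟩⟩
  obtain ⟨⟨V, hV, hcV⟩, hVs⟩ := exists_subset_nhds_of_isCompact'
    (V := fun s : {s : Set ↥(E ∩ D) // IsClopen s ∧ (⟨c, hc⟩ : ↥(E ∩ D)) ∈ s} => (s : Set ↥(E ∩ D)))
    (fun a b => ⟨⟨a.1 ∩ b.1, a.2.1.inter b.2.1, a.2.2, b.2.2⟩, inter_subset_left,
      inter_subset_right⟩) (fun s => s.2.1.isClosed.isCompact) (fun s => s.2.1.isClosed)
    (U := Subtype.val ⁻¹' interior D)
    (fun x hx => (isOpen_interior.preimage continuous_subtype_val).mem_nhds (h1 hx))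
  simp only at hVs
  -- the clopen set is relatively open and closed in `E`
  obtain ⟨O, hO, hOV⟩ := isOpen_induced_iff.1 hV.isOpen
  have hW : IsCompact (Subtype.val '' V : Set ℂ) := hV.isClosed.isCompact.image continuous_subtype_val
  have hWe : (Subtype.val '' V : Set ℂ) = E ∩ (interior D ∩ O) := by
    ext x
    constructor
    · rintro ⟨y, hy, rfl⟩
      refine ⟨y.2.1, hVs hy, ?_⟩
      rw [← hOV] at hy
      exact hy
    · rintro ⟨hx1, hx2, hx3⟩
      refine ⟨⟨x, hx1, interior_subset hx2⟩, ?_, rfl⟩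
      rw [← hOV]
      exact hx3
  have hcW : c ∈ (Subtype.val '' V : Set ℂ) := ⟨⟨c, hc⟩, hcV, rfl⟩
  rcases isPreconnected_iff_subset_of_disjoint.1 hEp _ _ (isOpen_interior.inter hO)
    hW.isClosed.isOpen_compl (fun x hx => by
      by_cases h : x ∈ (Subtype.val '' V : Set ℂ)
      · left
        rw [hWe] at h
        exact h.2
      · exact Or.inr h) (by
      rw [← inter_assoc, ← hWe, inter_compl_self]) with h | h
  · exact hne fun x hx => (h hx).1
  · exact h hcE hcW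

/-- a piece of a continuum which stays in a disc and reaches its boundary -/
theorem bump_ball {Γ : Set ℂ} (hΓ : IsCompact Γ) (hΓp : IsPreconnected Γ) (h0 : (0 : ℂ) ∈ Γ)
    {w : ℂ} (hw : w ∈ Γ) {ρ : ℝ} (hρ : 0 < ρ) (hρw : ρ ≤ ‖w‖) :
    ∃ Y ⊆ Γ, Y ⊆ Metric.closedBall 0 ρ ∧ IsPreconnected Y ∧ (0 : ℂ) ∈ Y ∧ ∃ y ∈ Y, ‖y‖ = ρ := by
  have h0' : (0 : ℂ) ∈ Γ ∩ Metric.closedBall 0 ρ := ⟨h0, Metric.mem_closedBall_self hρ.le⟩
  obtain ⟨y, hy, hy'⟩ := bump hΓ hΓp Metric.isClosed_closedBall h0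
    (Metric.mem_closedBall_self hρ.le) (fun h => by
      have := h hw
      rw [interior_closedBall _ hρ.ne', mem_ball_zero_iff] at this
      linarith)
  have hs := connectedComponentIn_subset (Γ ∩ Metric.closedBall 0 ρ) (0 : ℂ)
  refine ⟨connectedComponentIn (Γ ∩ Metric.closedBall 0 ρ) 0, fun x hx => (hs hx).1,
    fun x hx => (hs hx).2, isPreconnected_connectedComponentIn, mem_connectedComponentIn h0', y,
    hy, ?_⟩
  have h1 := (hs hy).2
  rw [mem_closedBall_zero_iff] at h1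
  rw [interior_closedBall _ hρ.ne', mem_ball_zero_iff, not_lt] at hy'
  exact le_antisymm h1 hy'

/-- a subcontinuum which stays connected after removing the origin -/
theorem exists_arm {Γ : Set ℂ} (hΓ : IsCompact Γ) (hΓp : IsPreconnected Γ) (h0 : (0 : ℂ) ∈ Γ)
    {w : ℂ} (hw : w ∈ Γ) (hw0 : w ≠ 0) :
    ∃ Γ' ⊆ Γ, IsCompact Γ' ∧ IsPreconnected Γ' ∧ (0 : ℂ) ∈ Γ' ∧ w ∈ Γ' ∧
      IsPreconnected (Γ' \ {0}) := by
  have hwp : 0 < ‖w‖ := norm_pos_iff.2 hw0
  let r : ℕ → ℝ := fun n => ‖w‖ / (n + 1)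
  have hr : ∀ n, 0 < r n := fun n => by positivity
  have hrw : ∀ n, r n ≤ ‖w‖ := fun n => div_le_self hwp.le (by
    have : (0 : ℝ) ≤ n := Nat.cast_nonneg n
    linarith)
  let E : ℕ → Set ℂ := fun n => connectedComponentIn (Γ ∩ (Metric.ball 0 (r n))ᶜ) w
  have hwE : ∀ n, w ∈ Γ ∩ (Metric.ball 0 (r n))ᶜ := fun n => ⟨hw, by
    rw [mem_compl_iff, mem_ball_zero_iff, not_lt]
    exact hrw n⟩
  have hEs : ∀ n, E n ⊆ Γ ∩ (Metric.ball 0 (r n))ᶜ := fun n => connectedComponentIn_subset _ _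
  have hEy : ∀ n, ∃ y ∈ E n, ‖y‖ ≤ r n := by
    intro n
    obtain ⟨y, hy, hy'⟩ := bump hΓ hΓp Metric.isOpen_ball.isClosed_compl hw (hwE n).2
      (fun h => by
        have h1 := interior_subset (h h0)
        exact h1 (Metric.mem_ball_self (hr n)))
    refine ⟨y, hy, ?_⟩
    rw [interior_compl, closure_ball _ (hr n).ne', mem_compl_iff, not_not,
      mem_closedBall_zero_iff] at hy'
    exact hy'
  obtain ⟨C, hC⟩ : ∃ C, C = ⋃ n, E n := ⟨_, rfl⟩
  have hCp : IsPreconnected C := by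
    rw [hC]
    exact isPreconnected_iUnion ⟨w, mem_iInter.2 fun n => mem_connectedComponentIn (hwE n)⟩
      fun n => isPreconnected_connectedComponentIn
  have hwC : w ∈ C := by
    rw [hC]
    exact mem_iUnion.2 ⟨0, mem_connectedComponentIn (hwE 0)⟩
  have hCΓ : C ⊆ Γ := by
    rw [hC]
    exact iUnion_subset fun n => (hEs n).trans inter_subset_left
  have h0C : (0 : ℂ) ∉ C := by
    rw [hC, mem_iUnion]
    rintro ⟨n, hn⟩
    exact (hEs n hn).2 (Metric.mem_ball_self (hr n))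
  have h0cl : (0 : ℂ) ∈ closure C := by
    rw [Metric.mem_closure_iff]
    intro ε hε
    obtain ⟨n, hn⟩ := exists_nat_gt (‖w‖ / ε)
    obtain ⟨y, hy, hy'⟩ := hEy n
    refine ⟨y, by rw [hC]; exact mem_iUnion.2 ⟨n, hy⟩, ?_⟩
    rw [dist_zero_left]
    refine hy'.trans_lt ?_
    rw [div_lt_iff₀ hε] at hn
    change ‖w‖ / (n + 1) < ε
    rw [div_lt_iff₀ (by positivity)]
    nlinarith
  have hclΓ : closure C ⊆ Γ := closure_minimal hCΓ hΓ.isClosed
  refine ⟨closure C, hclΓ, hΓ.of_isClosed_subset isClosed_closure hclΓ, hCp.closure, h0cl,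
    subset_closure hwC, ?_⟩
  exact hCp.subset_closure (fun x hx => ⟨subset_closure hx, fun h => h0C (h ▸ hx)⟩) sdiff_subset

/-- the component of the origin of a filled compact set is filled -/
theorem filled_component {X : Set ℂ} (hX : IsCompact X) (hXc : IsPreconnected Xᶜ) (h0 : (0 : ℂ) ∈ X) :
    IsPreconnected (connectedComponentIn X 0)ᶜ := by
  obtain ⟨K, hK⟩ : ∃ K, K = connectedComponentIn X 0 := ⟨_, rfl⟩
  rw [← hK]
  have hKX : K ⊆ X := by rw [hK]; exact connectedComponentIn_subset _ _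
  have hKcl : IsClosed K := by rw [hK]; exact isClosed_compIn hX.isClosed 0
  have hKp : IsPreconnected K := by rw [hK]; exact isPreconnected_connectedComponentIn
  have h0K : (0 : ℂ) ∈ K := by rw [hK]; exact mem_connectedComponentIn h0
  obtain ⟨p, hp⟩ : ∃ p, p ∉ X := by
    by_contra hcon
    push Not at hcon
    have : X = univ := eq_univ_of_forall hcon
    rw [this] at hX
    exact noncompact_univ ℂ hX
  have hpK : p ∉ K := fun h => hp (hKX h)
  obtain ⟨W, hW⟩ : ∃ W, W = connectedComponentIn Kᶜ p := ⟨_, rfl⟩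
  have hWo : IsOpen W := by rw [hW]; exact hKcl.isOpen_compl.connectedComponentIn
  have hXW : Xᶜ ⊆ W := by
    rw [hW]
    exact hXc.subset_connectedComponentIn hp (compl_subset_compl.2 hKX)
  have hWK : W ⊆ Kᶜ := by rw [hW]; exact connectedComponentIn_subset _ _
  have hWc : IsPreconnected Wᶜ := by
    have := compl_component_preconnected hKp hpK (by rw [← hW]; exact hWo)
    rwa [← hW] at this
  have h1 : Wᶜ ⊆ K := by
    rw [hK]
    exact hWc.subset_connectedComponentIn (fun h => hWK h h0K) (compl_subset_comm.1 hXW)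
  have h2 : Kᶜ = W := subset_antisymm (compl_subset_comm.1 h1) hWK
  rw [h2, hW]
  exact isPreconnected_connectedComponentIn

/-- the points whose forward orbit stays in a set -/
def stays (u : ℂ ≃ₜ ℂ) (D : Set ℂ) : Set ℂ := {z | ∀ n : ℕ, (u ^ n) z ∈ D}

/-- the stable continuum of the origin -/
def stab (u : ℂ ≃ₜ ℂ) (D : Set ℂ) : Set ℂ := connectedComponentIn (stays u D) 0

theorem stays_sub {u : ℂ ≃ₜ ℂ} {D : Set ℂ} : stays u D ⊆ D := fun z hz => by
  have := hz 0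
  rwa [pow_zero] at this

theorem stays_maps {u v : ℂ ≃ₜ ℂ} {D D' : Set ℂ} (hc : Commute u v) (hm : MapsTo v D D') :
    MapsTo v (stays u D) (stays u D') := by
  intro z hz n
  have e : (u ^ n) (v z) = v ((u ^ n) z) :=
    congrArg (fun H : ℂ ≃ₜ ℂ => H z) (hc.pow_left n).eq
  rw [e]
  exact hm (hz n)

theorem stays_self {u : ℂ ≃ₜ ℂ} {D : Set ℂ} : MapsTo u (stays u D) (stays u D) := by
  intro z hz n
  have := hz (n + 1)
  rwa [pow_succ] at this

theorem zero_mem_stays {u : ℂ ≃ₜ ℂ} (hu0 : u 0 = 0) {D : Set ℂ} (h0 : (0 : ℂ) ∈ D) :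
    (0 : ℂ) ∈ stays u D := fun n => by rw [pow_fix hu0]; exact h0

theorem isCompact_stays {u : ℂ ≃ₜ ℂ} {D : Set ℂ} (hD : IsCompact D) : IsCompact (stays u D) := by
  refine hD.of_isClosed_subset ?_ stays_sub
  have : stays u D = ⋂ n : ℕ, (u ^ n) ⁻¹' D := by
    ext z
    simp only [stays, mem_iInter, mem_preimage, mem_ofPred_eq]
  rw [this]
  exact isClosed_iInter fun n => hD.isClosed.preimage (u ^ n).continuous

theorem filled_stays {u : ℂ ≃ₜ ℂ} {D : Set ℂ} (hD : IsCompact D) (hDc : IsPreconnected Dᶜ) :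
    IsPreconnected (stays u D)ᶜ := by
  have : (stays u D)ᶜ = ⋃ n : ℕ, (u ^ n) ⁻¹' Dᶜ := by
    ext z
    simp only [stays, mem_compl_iff, mem_iUnion, mem_preimage, mem_ofPred_eq, not_forall]
  rw [this]
  refine IsPreconnected.iUnion_of_chain (fun n => ?_) (fun n => ?_)
  · rw [← (u ^ n).image_symm]
    exact hDc.image _ (u ^ n).symm.continuous.continuousOn
  · have h1 : IsCompact ((u ^ n) ⁻¹' D ∪ (u ^ (n + 1)) ⁻¹' D) := by
      rw [← (u ^ n).image_symm, ← (u ^ (n + 1)).image_symm]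
      exact (hD.image (u ^ n).symm.continuous).union (hD.image (u ^ (n + 1)).symm.continuous)
    by_contra hcon
    rw [not_nonempty_iff_eq_empty] at hcon
    apply noncompact_univ ℂ
    have : (univ : Set ℂ) = (u ^ n) ⁻¹' D ∪ (u ^ (n + 1)) ⁻¹' D := by
      symm
      apply eq_univ_of_forall
      intro z
      by_contra hz
      rw [mem_union, not_or] at hz
      have : z ∈ (u ^ n) ⁻¹' Dᶜ ∩ (u ^ (Order.succ n)) ⁻¹' Dᶜ := ⟨hz.1, hz.2⟩
      rw [hcon] at this
      exact this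
    rw [this]
    exact h1

theorem stab_sub_stays {u : ℂ ≃ₜ ℂ} {D : Set ℂ} : stab u D ⊆ stays u D :=
  connectedComponentIn_subset _ _

theorem isCompact_stab {u : ℂ ≃ₜ ℂ} {D : Set ℂ} (hD : IsCompact D) : IsCompact (stab u D) :=
  (isCompact_stays hD).of_isClosed_subset (isClosed_compIn (isCompact_stays hD).isClosed 0)
    stab_sub_stays

theorem stab_pre {u : ℂ ≃ₜ ℂ} {D : Set ℂ} : IsPreconnected (stab u D) :=
  isPreconnected_connectedComponentIn

theorem zero_mem_stab {u : ℂ ≃ₜ ℂ} (hu0 : u 0 = 0) {D : Set ℂ} (h0 : (0 : ℂ) ∈ D) :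
    (0 : ℂ) ∈ stab u D := mem_connectedComponentIn (zero_mem_stays hu0 h0)

theorem stab_maps {u v : ℂ ≃ₜ ℂ} {D D' : Set ℂ} (hu0 : u 0 = 0) (h0 : (0 : ℂ) ∈ D)
    (hv0 : v 0 = 0) (hm : MapsTo v (stays u D) (stays u D')) : MapsTo v (stab u D) (stab u D') := by
  have h1 : v '' stab u D ⊆ stab u D' := by
    refine (stab_pre.image _ v.continuous.continuousOn).subset_connectedComponentIn
      ⟨0, zero_mem_stab hu0 h0, hv0⟩ ?_
    rintro _ ⟨x, hx, rfl⟩
    exact hm (stab_sub_stays hx)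
  exact fun x hx => h1 ⟨x, hx, rfl⟩

theorem filled_stab {u : ℂ ≃ₜ ℂ} (hu0 : u 0 = 0) {D : Set ℂ} (hD : IsCompact D)
    (hDc : IsPreconnected Dᶜ) (h0 : (0 : ℂ) ∈ D) : IsPreconnected (stab u D)ᶜ :=
  filled_component (isCompact_stays hD) (filled_stays hD hDc) (zero_mem_stays hu0 h0)

/-- if the stable continuum is trivial then the inverse has a trapping neighbourhood -/
theorem trap_of_stab {u : ℂ ≃ₜ ℂ} (hu0 : u 0 = 0) {D : Set ℂ} (hD : IsCompact D)
    (hD0 : D ∈ 𝓝 (0 : ℂ)) (hs : stab u D ⊆ {0}) :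
    ∃ D' : Set ℂ, IsCompact D' ∧ D' ∈ 𝓝 (0 : ℂ) ∧ MapsTo (u⁻¹ : ℂ ≃ₜ ℂ) D' D' := by
  let X : ℕ → Set ℂ := fun n => {z | ∀ i ≤ n, (u ^ i) z ∈ D}
  have hX : ∀ n z, z ∈ X n ↔ ∀ i ≤ n, (u ^ i) z ∈ D := fun _ _ => Iff.rfl
  have hXe : ∀ n, X n = ⋂ i ∈ Finset.range (n + 1), (u ^ i) ⁻¹' D := by
    intro n
    ext z
    simp only [hX, mem_iInter, Finset.mem_range, mem_preimage, Nat.lt_succ_iff]
  have hXcl : ∀ n, IsClosed (X n) := by
    intro n
    rw [hXe]
    exact isClosed_biInter fun i _ => hD.isClosed.preimage (u ^ i).continuous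
  have hXD : ∀ n, X n ⊆ D := fun n z hz => by
    have := hz 0 (Nat.zero_le _)
    rwa [pow_zero] at this
  have hXn : ∀ n, X n ∈ 𝓝 (0 : ℂ) := by
    intro n
    rw [hXe]
    refine (Filter.biInter_finset_mem _).2 fun i _ => ?_
    apply (u ^ i).continuous.continuousAt
    rw [pow_fix hu0]
    exact hD0
  have h0X : ∀ n, (0 : ℂ) ∈ X n := fun n => mem_of_mem_nhds (hXn n)
  let C : ℕ → Set ℂ := fun n => connectedComponentIn (X n) 0
  have hCs : ∀ n, C n ⊆ X n := fun n => connectedComponentIn_subset _ _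
  have h0C : ∀ n, (0 : ℂ) ∈ C n := fun n => mem_connectedComponentIn (h0X n)
  have hCc : ∀ n, IsCompact (C n) := fun n =>
    hD.of_isClosed_subset (isClosed_compIn (hXcl n) 0) ((hCs n).trans (hXD n))
  have hCp : ∀ n, IsPreconnected (C n) := fun n => isPreconnected_connectedComponentIn
  have hCa : Antitone C := fun m n hmn => connectedComponentIn_mono _ fun z hz i hi =>
    hz i (hi.trans hmn)
  have hinter : ⋂ n, C n ⊆ {0} := by
    refine subset_trans ?_ hs
    refine (preconn_iInter hCa hCc hCp).subset_connectedComponentIn (mem_iInter.2 h0C) ?_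
    intro z hz n
    exact hCs n (mem_iInter.1 hz n) n le_rfl
  obtain ⟨n, hn⟩ := exists_subset_nhds_of_isCompact hCa.directed_ge hCc
    (U := interior D) (fun x hx => by
      have : x = 0 := hinter hx
      rw [this]
      exact interior_mem_nhds.2 hD0)
  have hn1 : C (n + 1) ⊆ interior D := (hCa (Nat.le_succ n)).trans hn
  have hui0 : (u⁻¹ : ℂ ≃ₜ ℂ) 0 = 0 := symm_fix hu0
  obtain ⟨E, hE⟩ : ∃ E, E = (u⁻¹ : ℂ ≃ₜ ℂ) '' C n := ⟨_, rfl⟩
  have hEc : IsCompact E := by rw [hE]; exact (hCc n).image (u⁻¹ : ℂ ≃ₜ ℂ).continuous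
  have hEp : IsPreconnected E := by
    rw [hE]
    exact (hCp n).image _ (u⁻¹ : ℂ ≃ₜ ℂ).continuous.continuousOn
  have h0E : (0 : ℂ) ∈ E := by rw [hE]; exact ⟨0, h0C n, hui0⟩
  have hEX : E ∩ D ⊆ X (n + 1) := by
    rintro z ⟨hz, hzD⟩ i hi
    rw [hE] at hz
    obtain ⟨y, hy, rfl⟩ := hz
    rcases Nat.eq_zero_or_pos i with h | h
    · rw [h, pow_zero]
      exact hzD
    · obtain ⟨j, rfl⟩ : ∃ j, i = j + 1 := ⟨i - 1, by omega⟩
      rw [pow_succ, mul_apply', apply_inv_self']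
      exact hCs n hy j (by omega)
  have hED : E ⊆ interior D := by
    by_contra hcon
    obtain ⟨y, hy, hy'⟩ := bump hEc hEp hD.isClosed h0E (mem_of_mem_nhds hD0) hcon
    apply hy'
    apply hn1
    exact connectedComponentIn_mono _ hEX hy
  have hEC : E ⊆ C (n + 1) :=
    hEp.subset_connectedComponentIn h0E fun z hz => hEX ⟨hz, interior_subset (hED hz)⟩
  refine ⟨C n, hCc n, ?_, fun x hx => hCa (Nat.le_succ n) (hEC (by rw [hE]; exact ⟨x, hx, rfl⟩))⟩
  obtain ⟨δ, hδ, hball⟩ := Metric.mem_nhds_iff.1 (hXn n)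
  refine mem_of_superset (Metric.ball_mem_nhds 0 hδ) ?_
  exact (convex_ball (0 : ℂ) δ).isPreconnected.subset_connectedComponentIn
    (Metric.mem_ball_self hδ) hball

end Pool.Agent.Helper984_CP
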