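import Pool.Agent.Helper984_CP.Exp
import Pool.Agent.Helper984_CP.Avg

/-!
# Cones over commuting circle homeomorphisms
-/

set_option autoImplicit false

open Set Filter Topology Complex

noncomputable section

namespace Pool.Agent.Helper984_CP

/-- the lift in logarithmic coordinates of the cone over a circle map -/
def circM (α : ℝ → ℝ) (w : ℂ) : ℂ := (w.re : ℂ) + tpi * ((α (w.im / (2 * Real.pi)) : ℝ) : ℂ)

theorem tpi_eq : tpi = ((2 * Real.pi : ℝ) : ℂ) * Complex.I := by
  simp [tpi]

theorem tpi_re : (tpi : ℂ).re = 0 := by rw [tpi_eq]; simp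

theorem tpi_im : (tpi : ℂ).im = 2 * Real.pi := by rw [tpi_eq]; simp

theorem circM_re (α : ℝ → ℝ) (w : ℂ) : (circM α w).re = w.re := by
  rw [circM, tpi_eq]
  simp

theorem circM_im (α : ℝ → ℝ) (w : ℂ) : (circM α w).im = 2 * Real.pi * α (w.im / (2 * Real.pi)) := by
  rw [circM, tpi_eq]
  simp

theorem two_pi_ne : (2 * Real.pi : ℝ) ≠ 0 := by positivity

theorem circM_per {α : ℝ → ℝ} (hp : ∀ x, α (x + 1) = α x + 1) (w : ℂ) :
    circM α (w + tpi) = circM α w + tpi := by
  apply Complex.ext
  · rw [circM_re, Complex.add_re, Complex.add_re, circM_re]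
  · rw [circM_im, Complex.add_im, Complex.add_im, circM_im, tpi_im]
    have h1 := two_pi_ne
    have h2 : (w.im + 2 * Real.pi) / (2 * Real.pi) = w.im / (2 * Real.pi) + 1 := by
      field_simp
    rw [h2, hp]
    ring

theorem circM_comp (α β : ℝ → ℝ) (w : ℂ) : circM α (circM β w) = circM (fun x => α (β x)) w := by
  apply Complex.ext
  · rw [circM_re, circM_re, circM_re]
  · rw [circM_im, circM_im, circM_im]
    have h1 := two_pi_ne
    congr 2
    field_simp

theorem circM_id (w : ℂ) : circM (fun x => x) w = w := by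
  apply Complex.ext
  · rw [circM_re]
  · rw [circM_im]
    have h1 := two_pi_ne
    field_simp

/-- the cone over a circle map -/
def cone (α : ℝ → ℝ) (z : ℂ) : ℂ := expC (circM α) z

theorem cone_exp {α : ℝ → ℝ} (hp : ∀ x, α (x + 1) = α x + 1) (w : ℂ) :
    cone α (cexp w) = cexp (circM α w) := expC_exp (circM_per hp) w

theorem cone_zero (α : ℝ → ℝ) : cone α 0 = 0 := expC_zero _

theorem cone_comp {α : ℝ → ℝ} (hp : ∀ x, α (x + 1) = α x + 1) (β : ℝ → ℝ) (z : ℂ) :
    cone α (cone β z) = cone (fun x => α (β x)) z := by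
  rw [cone, cone, expC_comp (circM_per hp)]
  simp only [circM_comp]
  rfl

theorem cone_id (z : ℂ) : cone (fun x => x) z = z := by
  rw [cone]
  simp only [funext circM_id]
  exact expC_id z

theorem norm_cone (α : ℝ → ℝ) (z : ℂ) : ‖cone α z‖ = ‖z‖ := by
  rw [cone, expC]
  split_ifs with h
  · rw [h]
  · rw [Complex.norm_exp, circM_re, Complex.log_re, Real.exp_log (norm_pos_iff.2 h)]

theorem continuous_circM {Λ : Type*} [TopologicalSpace Λ] {α : Λ × ℝ → ℝ} (hα : Continuous α) :
    Continuous fun q : Λ × ℂ => circM (fun x => α (q.1, x)) q.2 := by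
  unfold circM
  apply Continuous.add
  · fun_prop
  · apply Continuous.mul continuous_const
    apply Complex.continuous_ofReal.comp
    apply hα.comp
    apply Continuous.prodMk
    · exact continuous_fst
    · exact (Complex.continuous_im.comp continuous_snd).div_const _

/-- continuity of a family of cones -/
theorem continuous_cone_family {Λ : Type*} [TopologicalSpace Λ] {α : Λ × ℝ → ℝ}
    (hα : Continuous α) (hp : ∀ s x, α (s, x + 1) = α (s, x) + 1) :
    Continuous fun q : Λ × ℂ => cone (fun x => α (q.1, x)) q.2 := by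
  have h := continuous_expMap (Λ := Λ) (M := fun q => circM (fun x => α (q.1, x)) q.2)
    (continuous_circM hα) (fun s w => circM_per (hp s) w) (fun s0 R =>
      ⟨R, Eventually.of_forall fun s w hw => by rw [circM_re]; exact hw⟩)
  exact h

theorem continuous_cone {α : ℝ → ℝ} (hα : Continuous α) (hp : ∀ x, α (x + 1) = α x + 1) :
    Continuous (cone α) := by
  have h := continuous_cone_family (Λ := Unit) (α := fun q => α q.2) (hα.comp continuous_snd)
    (fun _ x => hp x)
  exact h.comp (f := fun z : ℂ => ((), z)) (continuous_const.prodMk continuous_id)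

/-- the cone as a continuous map -/
def coneC (α : ℝ → ℝ) (hα : Continuous α) (hp : ∀ x, α (x + 1) = α x + 1) : C(ℂ, ℂ) :=
  ⟨cone α, continuous_cone hα hp⟩

theorem cone_homeo {α : ℝ → ℝ} (hα : Continuous α) (hm : StrictMono α)
    (hp : ∀ x, α (x + 1) = α x + 1) : ∃ fi : C(ℂ, ℂ), (∀ x, cone α (fi x) = x) ∧
      ∀ x, fi (cone α x) = x := by
  obtain ⟨β, hβ, -, hβp, h1, h2⟩ := exists_circle_inv hα hm hp
  refine ⟨coneC β hβ hβp, fun x => ?_, fun x => ?_⟩
  · change cone α (cone β x) = x
    rw [cone_comp hp]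
    simp only [h1]
    exact cone_id x
  · change cone β (cone α x) = x
    rw [cone_comp hβp]
    simp only [h2]
    exact cone_id x

theorem norm_exp_tpi_sub_one (x : ℝ) : ‖cexp (tpi * x) - 1‖ ≤ 2 * Real.pi * |x| := by
  have h := Real.norm_exp_I_mul_ofReal_sub_one_le (x := 2 * Real.pi * x)
  have e : tpi * x = Complex.I * ((2 * Real.pi * x : ℝ) : ℂ) := by
    rw [tpi_eq]; push_cast; ring
  rw [e]
  refine h.trans (le_of_eq ?_)
  rw [Real.norm_eq_abs, abs_mul, abs_of_pos (by positivity)]

/-- a path from a pair of commuting cones to a pair of rotations -/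
theorem circle_joined_rot {k : ℤ} (a b : CircleDeg1Lift) (ha : Continuous a) (hb : Continuous b)
    (ham : StrictMono a) (hbm : StrictMono b) (hab : Commute a b)
    {A B : C(ℂ, ℂ)} (hA : ∀ z, A z = cone a z) (hB : ∀ z, B z = cone b z)
    (hp : (A, B) ∈ HomK k) {A' B' : C(ℂ, ℂ)}
    (hA' : ∀ z, A' z = cexp (tpi * (a.translationNumber : ℝ)) * z)
    (hB' : ∀ z, B' z = cexp (tpi * (b.translationNumber : ℝ)) * z) :
    JoinedIn (HomK k) (A, B) (A', B') := by
  let Λ : Type := Ico (0 : ℝ) 1
  have hhc : Continuous fun q : Λ × ℝ => hh a b (q.1 : ℝ) q.2 := by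
    have h1 : Continuous fun q : Λ × ℝ => ((q.1 : ℝ), q.2) := by
      exact (continuous_subtype_val.comp continuous_fst).prodMk continuous_snd
    exact (continuousOn_hh hab ha hb).comp_continuous h1 (fun q => ⟨q.1.2, mem_univ _⟩)
  let H : C(Λ × ℂ, ℂ) := ⟨fun q => cone (fun x => hh a b (q.1 : ℝ) x) q.2,
    continuous_cone_family (α := fun q : Λ × ℝ => hh a b (q.1 : ℝ) q.2) hhc
      (fun s x => hh_add_one _ _)⟩
  have hH : ∀ s z, H (s, z) = cone (hh a b (s : ℝ)) z := fun s z => rfl
  have hHhomeo : ∀ s : Λ, ∃ fi : C(ℂ, ℂ), (∀ x, H (s, fi x) = x) ∧ ∀ x, fi (H (s, x)) = x := by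
    intro s
    exact cone_homeo (hhc.comp (continuous_const.prodMk continuous_id) :
      Continuous fun y : ℝ => hh a b (s : ℝ) y) (strictMono_hh hab s.2.1 s.2.2)
      (fun x => hh_add_one _ _)
  obtain ⟨Hi, hHi⟩ := continuous_inv_family H hHhomeo
  -- the general step
  have step : ∀ (c : CircleDeg1Lift) (hc : Continuous c) (hcm : StrictMono c) (C C' : C(ℂ, ℂ))
      (hC : ∀ z, C z = cone c z) (hC' : ∀ z, C' z = cexp (tpi * (c.translationNumber : ℝ)) * z)
      (hest : ∀ s y, 0 ≤ s → s < 1 →
        |hh a b s (c y) - hh a b s y - c.translationNumber| ≤ 2 * (1 - s)),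
      ∃ P : C(unitInterval × ℂ, ℂ), (∀ s, IsHomeo (slice P s)) ∧ (∀ z, P (0, z) = C z) ∧
        (∀ z, P (1, z) = C' z) ∧ ∀ (s : unitInterval) (h : (s : ℝ) < 1) (z : ℂ),
          P (s, z) = H (⟨s, s.2.1, h⟩, C (Hi (⟨s, s.2.1, h⟩, z))) := by
    intro c hc hcm C C' hC hC' hest
    classical
    let P0 : unitInterval × ℂ → ℂ := fun q =>
      if h : (q.1 : ℝ) < 1 then H (⟨q.1, q.1.2.1, h⟩, C (Hi (⟨q.1, q.1.2.1, h⟩, q.2)))
      else C' q.2
    have hP0a : ∀ (s : unitInterval) (h : (s : ℝ) < 1) (z : ℂ),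
        P0 (s, z) = H (⟨s, s.2.1, h⟩, C (Hi (⟨s, s.2.1, h⟩, z))) := by
      intro s h z
      simp only [P0]
      rw [dif_pos h]
    have hP0b : ∀ (s : unitInterval) (h : ¬ (s : ℝ) < 1) (z : ℂ), P0 (s, z) = C' z := by
      intro s h z
      simp only [P0]
      rw [dif_neg h]
    have hP0est : ∀ (s : unitInterval) (z : ℂ), ‖P0 (s, z) - C' z‖ ≤
        4 * Real.pi * (1 - s) * ‖z‖ := by
      intro s z
      by_cases h : (s : ℝ) < 1
      · rw [hP0a s h]
        obtain ⟨z', hz'⟩ : ∃ z', z' = Hi ((⟨s, s.2.1, h⟩ : Λ), z) := ⟨_, rfl⟩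
        have hz : z = H ((⟨s, s.2.1, h⟩ : Λ), z') := by rw [hz', (hHi _ _).1]
        rw [← hz']
        by_cases hz0 : z' = 0
        · rw [hz, hz0, hC, cone_zero, hH, cone_zero, hC']
          simp
        · obtain ⟨w, rfl⟩ : ∃ w, cexp w = z' := ⟨Complex.log z', Complex.exp_log hz0⟩
          have e1 : H ((⟨s, s.2.1, h⟩ : Λ), C (cexp w)) =
              cexp (circM (fun x => hh a b s (c x)) w) := by
            rw [hC, cone_exp c.map_add_one, hH, cone_exp (fun x => hh_add_one _ _), circM_comp]
          have e2 : z = cexp (circM (hh a b s) w) := by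
            rw [hz, hH, cone_exp (fun x => hh_add_one _ _)]
          rw [e1, hC', e2]
          obtain ⟨x, hx⟩ : ∃ x, x = w.im / (2 * Real.pi) := ⟨_, rfl⟩
          have e3 : circM (fun x => hh a b s (c x)) w = circM (hh a b s) w +
              tpi * (c.translationNumber : ℝ) +
              tpi * ((hh a b s (c x) - hh a b s x - c.translationNumber : ℝ) : ℂ) := by
            simp only [circM]
            rw [← hx]
            push_cast
            ring
          rw [e3, Complex.exp_add, Complex.exp_add]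
          have e4 : cexp (circM (hh a b s) w) * cexp (tpi * (c.translationNumber : ℝ)) *
              cexp (tpi * ((hh a b s (c x) - hh a b s x - c.translationNumber : ℝ) : ℂ)) -
              cexp (tpi * (c.translationNumber : ℝ)) * cexp (circM (hh a b s) w) =
              cexp (tpi * (c.translationNumber : ℝ)) * cexp (circM (hh a b s) w) *
              (cexp (tpi * ((hh a b s (c x) - hh a b s x - c.translationNumber : ℝ) : ℂ)) - 1) := by
            ring
          rw [e4, norm_mul, norm_mul]
          have e5 : ‖cexp (tpi * ((c.translationNumber : ℝ) : ℂ))‖ = 1 := by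
            rw [Complex.norm_exp]
            have : (tpi * ((c.translationNumber : ℝ) : ℂ)).re = 0 := by rw [tpi_eq]; simp
            rw [this, Real.exp_zero]
          rw [e5, one_mul]
          have e6 := norm_exp_tpi_sub_one (hh a b s (c x) - hh a b s x - c.translationNumber)
          have e7 := hest s x s.2.1 h
          have hpi := Real.pi_pos
          calc ‖cexp (circM (hh a b s) w)‖ *
              ‖cexp (tpi * ((hh a b s (c x) - hh a b s x - c.translationNumber : ℝ) : ℂ)) - 1‖
              ≤ ‖cexp (circM (hh a b s) w)‖ * (2 * Real.pi * (2 * (1 - s))) := by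
                gcongr
                exact e6.trans (by gcongr)
            _ = 4 * Real.pi * (1 - s) * ‖cexp (circM (hh a b s) w)‖ := by ring
      · rw [hP0b s h]
        have h1 : (s : ℝ) = 1 := le_antisymm s.2.2 (not_lt.1 h)
        simp [h1]
    have hcont : Continuous P0 := by
      rw [continuous_iff_continuousAt]
      rintro ⟨s0, z0⟩
      by_cases h0 : (s0 : ℝ) < 1
      · -- inside
        have hopen : IsOpen {q : unitInterval × ℂ | (q.1 : ℝ) < 1} :=
          isOpen_lt (by fun_prop) continuous_const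
        have hon : ContinuousOn P0 {q : unitInterval × ℂ | (q.1 : ℝ) < 1} := by
          rw [continuousOn_iff_continuous_domRestrict]
          have e : ({q : unitInterval × ℂ | (q.1 : ℝ) < 1}.domRestrict P0) =
              fun q => H (⟨q.1.1, q.1.1.2.1, q.2⟩, C (Hi (⟨q.1.1, q.1.1.2.1, q.2⟩, q.1.2))) := by
            ext q
            exact hP0a q.1.1 q.2 q.1.2
          rw [e]
          have c1 : Continuous fun q : {q : unitInterval × ℂ | (q.1 : ℝ) < 1} =>
              ((⟨q.1.1, q.1.1.2.1, q.2⟩ : Λ)) := by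
            apply Continuous.subtype_mk
            fun_prop
          have c2 : Continuous fun q : {q : unitInterval × ℂ | (q.1 : ℝ) < 1} => q.1.2 := by
            fun_prop
          exact H.continuous.comp (c1.prodMk (C.continuous.comp (Hi.continuous.comp
            (c1.prodMk c2))))
        exact (hon (s0, z0) h0).continuousAt (hopen.mem_nhds h0)
      · have h1 : (s0 : ℝ) = 1 := le_antisymm s0.2.2 (not_lt.1 h0)
        rw [ContinuousAt, hP0b s0 h0, tendsto_iff_norm_sub_tendsto_zero]
        have hb : Continuous fun q : unitInterval × ℂ =>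
            4 * Real.pi * (1 - (q.1 : ℝ)) * ‖q.2‖ + ‖C' q.2 - C' z0‖ := by fun_prop
        have h2 := hb.tendsto (s0, z0)
        simp only [h1, sub_self, mul_zero, zero_mul, norm_zero, add_zero] at h2
        refine squeeze_zero (fun q => norm_nonneg _) (fun q => ?_) h2
        have e : P0 q - C' z0 = (P0 (q.1, q.2) - C' q.2) + (C' q.2 - C' z0) := by
          simp
        rw [e]
        refine (norm_add_le _ _).trans ?_
        gcongr
        exact hP0est q.1 q.2
    refine ⟨⟨P0, hcont⟩, fun s => ?_, fun z => ?_, fun z => ?_, fun s h z => hP0a s h z⟩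
    · by_cases h : (s : ℝ) < 1
      · obtain ⟨Ci, hCi1, hCi2⟩ := cone_homeo hc hcm c.map_add_one
        refine ⟨⟨fun z => H (⟨s, s.2.1, h⟩, Ci (Hi (⟨s, s.2.1, h⟩, z))), ?_⟩, fun z => ?_,
          fun z => ?_⟩
        · exact H.continuous.comp (continuous_const.prodMk (Ci.continuous.comp
            (Hi.continuous.comp (continuous_const.prodMk continuous_id))))
        · simp only [slice_apply, ContinuousMap.coe_mk]
          rw [hP0a s h, (hHi _ _).2, hC, hCi1, (hHi _ _).1]
        · simp only [slice_apply, ContinuousMap.coe_mk]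
          rw [hP0a s h, (hHi _ _).2, hC, hCi2, (hHi _ _).1]
      · refine ⟨⟨fun z => cexp (-(tpi * (c.translationNumber : ℝ))) * z, by fun_prop⟩, fun z => ?_,
          fun z => ?_⟩
        · simp only [slice_apply, ContinuousMap.coe_mk]
          rw [hP0b s h, hC', ← mul_assoc, ← Complex.exp_add, add_neg_cancel, Complex.exp_zero,
            one_mul]
        · simp only [slice_apply, ContinuousMap.coe_mk]
          rw [hP0b s h, hC', ← mul_assoc, ← Complex.exp_add, neg_add_cancel, Complex.exp_zero,
            one_mul]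
    · have h : ((0 : unitInterval) : ℝ) < 1 := by simp
      simp only [ContinuousMap.coe_mk]
      rw [hP0a 0 h]
      have e0 : ∀ z, H ((⟨((0 : unitInterval) : ℝ), (0 : unitInterval).2.1, h⟩ : Λ), z) = z := by
        intro z
        rw [hH]
        have : (hh a b ((0 : unitInterval) : ℝ)) = fun x => x := by
          ext x
          rw [Icc.coe_zero, hh_zero]
        simp only [this]
        exact cone_id z
      have e1 : ∀ z, Hi ((⟨((0 : unitInterval) : ℝ), (0 : unitInterval).2.1, h⟩ : Λ), z) = z := by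
        intro z
        rw [← e0 (Hi _), (hHi _ _).1]
      rw [e1, e0]
    · have h : ¬ ((1 : unitInterval) : ℝ) < 1 := by simp
      simp only [ContinuousMap.coe_mk]
      exact hP0b 1 h z
  obtain ⟨P, hP1, hP2, hP3, hP4⟩ := step a ha ham A A' hA hA'
    (fun s y h0 h1 => hh_left hab h0 h1 y)
  obtain ⟨Q, hQ1, hQ2, hQ3, hQ4⟩ := step b hb hbm B B' hB hB'
    (fun s y h0 h1 => hh_right hab h0 h1 y)
  have hc := (mem_HomK_iff.1 hp).1
  simp only at hc
  have hcomm : ∀ s z, P (s, Q (s, z)) = Q (s, P (s, z)) := by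
    intro s z
    by_cases h : (s : ℝ) < 1
    · rw [hQ4 s h, hP4 s h, hP4 s h, hQ4 s h, (hHi _ _).2, (hHi _ _).2, hc]
    · have h1 : s = 1 := by
        apply Subtype.ext
        exact le_antisymm s.2.2 (not_lt.1 h)
      rw [h1, hQ3, hP3, hP3, hQ3, hA', hB', hB', hA']
      ring
  have e0 : (slice P 0, slice Q 0) = (A, B) := by
    apply Prod.ext
    · ext z; exact hP2 z
    · ext z; exact hQ2 z
  have e1 : (slice P 1, slice Q 1) = (A', B') := by
    apply Prod.ext
    · ext z; exact hP3 z
    · ext z; exact hQ3 z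
  have := HomK_joined (k := k) P Q hP1 hQ1 hcomm (by rw [e0]; exact hp)
  rwa [e0, e1] at this

/-- rotations can be undone -/
theorem rot_joined {k : ℤ} (α β : ℝ) {A' B' : C(ℂ, ℂ)} (hA' : ∀ z, A' z = cexp (tpi * α) * z)
    (hB' : ∀ z, B' z = cexp (tpi * β) * z) (hp : (A', B') ∈ HomK k) :
    JoinedIn (HomK k) (A', B') (ContinuousMap.id ℂ, ContinuousMap.id ℂ) := by
  let P : ℝ → C(unitInterval × ℂ, ℂ) := fun α =>
    ⟨fun q => cexp (tpi * ((α * (1 - (q.1 : ℝ)) : ℝ) : ℂ)) * q.2, by fun_prop⟩
  have hP : ∀ α s z, P α (s, z) = cexp (tpi * ((α * (1 - (s : ℝ)) : ℝ) : ℂ)) * z :=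
    fun _ _ _ => rfl
  have hh : ∀ α s, IsHomeo (slice (P α) s) := by
    intro α s
    refine ⟨⟨fun z => cexp (-(tpi * ((α * (1 - (s : ℝ)) : ℝ) : ℂ))) * z, by fun_prop⟩,
      fun z => ?_, fun z => ?_⟩
    · simp only [slice_apply, ContinuousMap.coe_mk]
      rw [hP, ← mul_assoc, ← Complex.exp_add, add_neg_cancel, Complex.exp_zero, one_mul]
    · simp only [slice_apply, ContinuousMap.coe_mk]
      rw [hP, ← mul_assoc, ← Complex.exp_add, neg_add_cancel, Complex.exp_zero, one_mul]
  have e0 : (slice (P α) 0, slice (P β) 0) = (A', B') := by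
    apply Prod.ext
    · ext z; simp [hP, hA']
    · ext z; simp [hP, hB']
  have e1 : (slice (P α) 1, slice (P β) 1) = (ContinuousMap.id ℂ, ContinuousMap.id ℂ) := by
    apply Prod.ext
    · ext z; simp [hP]
    · ext z; simp [hP]
  have := HomK_joined (k := k) (P α) (P β) (hh α) (hh β) (fun s z => by
    rw [hP, hP, hP, hP]; ring) (by rw [e0]; exact hp)
  rwa [e0, e1] at this

/-- pairs of cones over commuting circle homeomorphisms can be joined to the trivial pair -/
theorem cone_joined {k : ℤ} {A B : C(ℂ, ℂ)} (hA : ∀ z, ‖A z‖ = ‖z‖) (hB : ∀ z, ‖B z‖ = ‖z‖)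
    (hA' : ∀ (r : ℝ) (z : ℂ), 0 < r → A (r * z) = r * A z)
    (hB' : ∀ (r : ℝ) (z : ℂ), 0 < r → B (r * z) = r * B z) (hp : (A, B) ∈ HomK k) :
    JoinedIn (HomK k) (A, B) (ContinuousMap.id ℂ, ContinuousMap.id ℂ) := by
  obtain ⟨hc, hi1, hi2, hE⟩ := mem_HomK_iff.1 hp
  obtain ⟨ℓf, hf⟩ := hi1.exists_logDiff
  obtain ⟨ℓg, hg⟩ := hi2.exists_logDiff
  simp only at hc hi1 hi2 hE hf hg
  have hA0 : A 0 = 0 := by rw [← norm_eq_zero, hA, norm_zero]
  have hB0 : B 0 = 0 := by rw [← norm_eq_zero, hB, norm_zero]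
  obtain ⟨M, hM1, hM2, hM3⟩ := exists_lift hf hA0
  obtain ⟨N, hN1, hN2, hN3⟩ := exists_lift hg hB0
  have hcomm := lift_comm hf hg hE hA0 hB0 hM2 hN2
  -- circle lifts
  have key : ∀ (A : C(ℂ, ℂ)) (hA : ∀ z, ‖A z‖ = ‖z‖) (hinj : Function.Injective A)
      (hA' : ∀ (r : ℝ) (z : ℂ), 0 < r → A (r * z) = r * A z) (M : C(ℂ, ℂ))
      (hM1 : ∀ w, M (w + tpi) = M w + tpi) (hM2 : ∀ w, cexp (M w) = A (cexp w)),
      ∃ a : CircleDeg1Lift, Continuous a ∧ StrictMono a ∧ ∀ w, M w = circM a w := by
    intro A hA hinj hA' M hM1 hM2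
    have hre : ∀ w, (M w).re = w.re := by
      intro w
      have h1 := congrArg norm (hM2 w)
      rw [Complex.norm_exp, hA, Complex.norm_exp] at h1
      exact Real.exp_injective h1
    have hsh : ∀ (w : ℂ) (ρ : ℝ), M (w + ρ) = M w + ρ := by
      intro w ρ
      have h1 : ∀ ρ : ℝ, cexp (M (w + ρ)) = cexp (M w + ρ) := by
        intro ρ
        rw [hM2, Complex.exp_add, ← Complex.ofReal_exp, mul_comm, hA' _ _ (Real.exp_pos _),
          ← hM2, Complex.exp_add, Complex.ofReal_exp, mul_comm]
      have h2 := exp_rigid (A := ℝ) (u := fun ρ => M (w + ρ)) (v := fun ρ => M w + ρ)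
        (by fun_prop) (by fun_prop) h1 ρ 0
      simp only [Complex.ofReal_zero, add_zero, sub_self] at h2
      exact sub_eq_zero.1 h2
    let α : ℝ → ℝ := fun x => (M (tpi * x)).im / (2 * Real.pi)
    have hαc : Continuous α := by
      apply Continuous.div_const
      fun_prop
    have hαM : ∀ w, M w = circM α w := by
      intro w
      have e1 : w = tpi * ((w.im / (2 * Real.pi) : ℝ) : ℂ) + (w.re : ℂ) := by
        obtain ⟨x, hx⟩ : ∃ x : ℝ, w.im / (2 * Real.pi) = x := ⟨_, rfl⟩
        have hx' : w.im = 2 * Real.pi * x := by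
          rw [← hx]
          field_simp
        rw [hx]
        apply Complex.ext
        · rw [tpi_eq]; simp
        · rw [tpi_eq, hx']
          simp
      apply Complex.ext
      · rw [hre, circM_re]
      · rw [circM_im]
        conv_lhs => rw [e1, hsh]
        have h1 := two_pi_ne
        simp only [α, Complex.add_im, Complex.ofReal_im, add_zero]
        field_simp
    have hαp : ∀ x, α (x + 1) = α x + 1 := by
      intro x
      have e1 : tpi * ((x + 1 : ℝ) : ℂ) = tpi * (x : ℂ) + tpi := by push_cast; ring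
      simp only [α]
      rw [e1, hM1, Complex.add_im, tpi_im]
      have h1 := two_pi_ne
      field_simp
    have hαinj : Function.Injective α := by
      intro x y hxy
      have h1 : M (tpi * x) = M (tpi * y) := by
        apply Complex.ext
        · rw [hre, hre, tpi_eq]; simp
        · have h2 := two_pi_ne
          simp only [α] at hxy
          field_simp at hxy
          exact hxy
      have h2 : cexp (tpi * x) = cexp (tpi * y) := by
        apply hinj
        rw [← hM2, ← hM2, h1]
      obtain ⟨n, hn⟩ := Complex.exp_eq_exp_iff_exists_int.1 h2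
      have h3 := int_shift (M := M) hM1 n (tpi * y)
      rw [← hn, h1] at h3
      have h4 : (n : ℂ) * tpi = 0 := by linear_combination (-1 : ℂ) * h3
      rw [h4, add_zero] at hn
      have h5 : (tpi : ℂ) ≠ 0 := by rw [tpi_eq]; simp [Real.pi_ne_zero]
      exact_mod_cast mul_left_cancel₀ h5 hn
    have hαm : StrictMono α := by
      rcases hαc.strictMono_of_inj hαinj with h | h
      · exact h
      · exfalso
        have h1 := h (show (0 : ℝ) < 1 by norm_num)
        have h2 := hαp 0
        rw [zero_add] at h2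
        linarith
    exact ⟨⟨⟨α, hαm.monotone⟩, hαp⟩, hαc, hαm, hαM⟩
  obtain ⟨a, ha, ham, haM⟩ := key A hA hf.inj hA' M hM1 hM2
  obtain ⟨b, hb, hbm, hbN⟩ := key B hB hg.inj hB' N hN1 hN2
  have hAa : ∀ z, A z = cone a z := by
    intro z
    by_cases hz : z = 0
    · rw [hz, hA0, cone_zero]
    · obtain ⟨w, rfl⟩ : ∃ w, cexp w = z := ⟨Complex.log z, Complex.exp_log hz⟩
      rw [cone_exp a.map_add_one, ← haM, hM2]
  have hBb : ∀ z, B z = cone b z := by
    intro z
    by_cases hz : z = 0
    · rw [hz, hB0, cone_zero]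
    · obtain ⟨w, rfl⟩ : ∃ w, cexp w = z := ⟨Complex.log z, Complex.exp_log hz⟩
      rw [cone_exp b.map_add_one, ← hbN, hN2]
  -- the lifts commute up to an integer, and translation numbers show that it is zero
  have hcab : ∀ x, a (b x) = b (a x) + k := by
    intro x
    have h1 := hcomm (tpi * x)
    rw [haM (N _), hbN, hbN (M _), haM, circM_comp, circM_comp] at h1
    have h2 := congrArg Complex.im h1
    rw [Complex.add_im, circM_im, circM_im] at h2
    have e1 : (tpi * (x : ℂ)).im / (2 * Real.pi) = x := by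
      rw [tpi_eq]
      simp
    have e2 : (tpi * (k : ℂ)).im = 2 * Real.pi * k := by
      rw [tpi_eq]
      simp
    rw [e1, e2] at h2
    have h3 := two_pi_ne
    have h4 : (2 * Real.pi) * a (b x) = (2 * Real.pi) * (b (a x) + k) := by
      linear_combination h2
    exact mul_left_cancel₀ h3 h4
  have hk : (k : ℝ) = 0 := by
    -- `a` semiconjugates `b a` to `a b`
    have h1 : Function.Semiconj a (b * a : CircleDeg1Lift) (a * b : CircleDeg1Lift) := by
      intro x
      simp [CircleDeg1Lift.mul_apply]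
    have h2 := CircleDeg1Lift.translationNumber_eq_of_semiconj h1
    have h3 : (a * b : CircleDeg1Lift) =
        (CircleDeg1Lift.translate (Multiplicative.ofAdd (k : ℝ)) : CircleDeg1Lift) * (b * a) := by
      ext x
      rw [CircleDeg1Lift.mul_apply, CircleDeg1Lift.mul_apply, CircleDeg1Lift.translate_apply,
        CircleDeg1Lift.mul_apply, hcab]
      ring
    have h4 : Commute (CircleDeg1Lift.translate (Multiplicative.ofAdd (k : ℝ)) : CircleDeg1Lift)
        (b * a) := by
      rw [CircleDeg1Lift.commute_iff_commute]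
      intro x
      rw [CircleDeg1Lift.translate_apply, CircleDeg1Lift.translate_apply,
        CircleDeg1Lift.map_int_add]
    have h5 := CircleDeg1Lift.translationNumber_mul_of_commute h4
    rw [CircleDeg1Lift.translationNumber_translate, ← h3] at h5
    linarith
  have hab : Commute a b := by
    rw [CircleDeg1Lift.commute_iff_commute]
    intro x
    rw [hcab, hk, add_zero]
  let A' : C(ℂ, ℂ) := ⟨fun z => cexp (tpi * (a.translationNumber : ℝ)) * z, by fun_prop⟩
  let B' : C(ℂ, ℂ) := ⟨fun z => cexp (tpi * (b.translationNumber : ℝ)) * z, by fun_prop⟩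
  have j1 := circle_joined_rot a b ha hb ham hbm hab hAa hBb hp (A' := A') (B' := B')
    (fun z => rfl) (fun z => rfl)
  have j2 := rot_joined (k := k) a.translationNumber b.translationNumber (A' := A') (B' := B')
    (fun z => rfl) (fun z => rfl) j1.target_mem
  exact j1.trans j2

end Pool.Agent.Helper984_CP
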