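import Pool.Agent.Helper984_CP.Path

/-!
# Limits of conjugates
-/

set_option autoImplicit false

open Set Filter Topology Complex

noncomputable section

namespace Pool.Agent.Helper984_CP

/-- contraction of the plane into a ball, as a map of configurations -/
def shrinkC (R : ℝ) : C(ℂ, ℂ) := ⟨fun z => (R : ℂ) * (z / ((1 + ‖z‖ : ℝ) : ℂ)), by
  apply Continuous.mul continuous_const
  apply Continuous.div continuous_id
  · fun_prop
  · intro z
    have h : 0 < 1 + ‖z‖ := by positivity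
    exact_mod_cast h.ne'⟩

theorem shrinkC_apply (R : ℝ) (z : ℂ) : shrinkC R z = (R : ℂ) * (z / ((1 + ‖z‖ : ℝ) : ℂ)) := rfl

theorem norm_shrinkC {R : ℝ} (hR : 0 < R) (z : ℂ) : ‖shrinkC R z‖ = R * (‖z‖ / (1 + ‖z‖)) := by
  have h : 0 < 1 + ‖z‖ := by positivity
  rw [shrinkC_apply, norm_mul, norm_div, Complex.norm_real, Complex.norm_real,
    Real.norm_of_nonneg h.le, Real.norm_of_nonneg hR.le]

theorem shrinkC_surj {R : ℝ} (hR : 0 < R) {w : ℂ} (hw : ‖w‖ < R) : ∃ z, shrinkC R z = w := by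
  have hR' : (R : ℂ) ≠ 0 := by exact_mod_cast hR.ne'
  have hq : 0 < 1 - ‖w‖ / R := by rw [sub_pos, div_lt_one hR]; exact hw
  refine ⟨(w / R) / ((1 - ‖w‖ / R : ℝ) : ℂ), ?_⟩
  have hn : ‖(w / R) / ((1 - ‖w‖ / R : ℝ) : ℂ)‖ = (‖w‖ / R) / (1 - ‖w‖ / R) := by
    rw [norm_div, norm_div, Complex.norm_real, Complex.norm_real, Real.norm_of_nonneg hR.le,
      Real.norm_of_nonneg hq.le]
  rw [shrinkC_apply, hn]
  have e1 : 1 + (‖w‖ / R) / (1 - ‖w‖ / R) = 1 / (1 - ‖w‖ / R) := by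
    have := hq.ne'
    rw [eq_div_iff this, add_mul, div_mul_cancel₀ _ this]
    ring
  rw [e1]
  have hq' : ((1 - ‖w‖ / R : ℝ) : ℂ) ≠ 0 := by exact_mod_cast hq.ne'
  rw [Complex.ofReal_div 1 (1 - ‖w‖ / R), Complex.ofReal_one, div_div_eq_mul_div, div_one,
    div_mul_cancel₀ _ hq', mul_div_cancel₀ _ hR']

theorem shrinkC_inj {R : ℝ} (hR : 0 < R) : Function.Injective (shrinkC R) := by
  intro x y hxy
  have hR' : (R : ℂ) ≠ 0 := by exact_mod_cast hR.ne'
  have hn := congrArg norm hxy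
  rw [norm_shrinkC hR, norm_shrinkC hR] at hn
  have hx : 0 < 1 + ‖x‖ := by positivity
  have hy : 0 < 1 + ‖y‖ := by positivity
  have h1 := mul_left_cancel₀ hR.ne' hn
  rw [div_eq_div_iff hx.ne' hy.ne'] at h1
  have h2 : ‖x‖ = ‖y‖ := by nlinarith
  rw [shrinkC_apply, shrinkC_apply, h2] at hxy
  have h3 := mul_left_cancel₀ hR' hxy
  have hy' : ((1 + ‖y‖ : ℝ) : ℂ) ≠ 0 := by exact_mod_cast hy.ne'
  exact (div_left_inj' hy').1 h3

/-- rigidity of logarithms of maps which agree on a ball -/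
theorem logDiff_rigid_ball {f f' : ℂ → ℂ} {ℓ ℓ' : C(Conf, ℂ)} (h : LogDiff f ℓ)
    (h' : LogDiff f' ℓ') {R : ℝ} (hR : 0 < R) (heq : ∀ z, ‖z‖ < R → f z = f' z)
    {a b : Conf} (ha1 : ‖a.1.1‖ < R) (ha2 : ‖a.1.2‖ < R) (hb1 : ‖b.1.1‖ < R)
    (hb2 : ‖b.1.2‖ < R) : ℓ a - ℓ' a = ℓ b - ℓ' b := by
  have hpre : IsPreconnected (range (Conf.map (shrinkC R) (shrinkC_inj hR))) :=
    isPreconnected_range (Conf.map (shrinkC R) (shrinkC_inj hR)).continuous
  have hlt : ∀ z, ‖shrinkC R z‖ < R := by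
    intro z
    rw [norm_shrinkC hR]
    have h0 : 0 < 1 + ‖z‖ := by positivity
    have : ‖z‖ / (1 + ‖z‖) < 1 := by rw [div_lt_one h0]; linarith
    nlinarith
  have hmem : ∀ a : Conf, ‖a.1.1‖ < R → ‖a.1.2‖ < R →
      a ∈ range (Conf.map (shrinkC R) (shrinkC_inj hR)) := by
    intro a h1 h2
    obtain ⟨x, hx⟩ := shrinkC_surj hR h1
    obtain ⟨y, hy⟩ := shrinkC_surj hR h2
    refine ⟨⟨(x, y), fun hxy => a.2 ?_⟩, ?_⟩
    · rw [← hx, ← hy]
      simp only at hxy
      rw [hxy]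
    · apply Subtype.ext
      apply Prod.ext
      · exact hx
      · exact hy
  refine exp_rigid_on hpre ℓ.continuous.continuousOn ℓ'.continuous.continuousOn ?_
    (hmem a ha1 ha2) (hmem b hb1 hb2)
  rintro _ ⟨c, rfl⟩
  obtain ⟨d, hd⟩ : ∃ d, d = Conf.map (shrinkC R) (shrinkC_inj hR) c := ⟨_, rfl⟩
  have hd1 : ‖d.1.1‖ < R := by rw [hd]; exact hlt c.1.1
  have hd2 : ‖d.1.2‖ < R := by rw [hd]; exact hlt c.1.2
  rw [← hd]
  have h1 := h d
  have h2 := h' d
  rw [heq _ hd1, heq _ hd2, ← h2] at h1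
  exact mul_right_cancel₀ (sub_ne_zero.2 d.2) h1

/-- a pair of homeomorphisms which agrees on arbitrarily large balls with members of a path
component belongs to the closure of that component -/
theorem HomK_limit {k : ℤ} {p q : C(ℂ, ℂ) × C(ℂ, ℂ)} (hq1 : IsHomeo q.1) (hq2 : IsHomeo q.2)
    (H : ∀ R : ℝ, ∃ q' : C(ℂ, ℂ) × C(ℂ, ℂ), JoinedIn (HomK k) p q' ∧
      ∀ z, ‖z‖ ≤ R → q'.1 z = q.1 z ∧ q'.2 z = q.2 z) :
    q ∈ HomK k ∧ q ∈ closure (pathComponentIn (HomK k) p) := by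
  constructor
  · have hiso : ∀ (u v : C(ℂ, ℂ)), IsHomeo u → IsoId v → (∀ z, ‖z‖ < 1 → v z = u z) →
        IsoId u := by
      intro u v hu hv huv
      obtain ⟨ui, hu1, hu2⟩ := hu
      obtain ⟨vi, hv1, hv2⟩ := hv.isHomeo
      have h1 : IsoId (vi.comp u) := by
        refine isoId_of_eq_id_on_ball ?_ one_pos fun z hz => ?_
        · exact ⟨ui.comp v, fun x => by simp [hu1, hv2], fun x => by simp [hu2, hv1]⟩
        · rw [ContinuousMap.comp_apply, ← huv z hz, hv2]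
      have h2 := hv.comp h1
      have h3 : v.comp (vi.comp u) = u := by
        ext x
        simp [hv1]
      rwa [h3] at h2
    have hi1 : IsoId q.1 := by
      obtain ⟨q', hj, he⟩ := H 1
      exact hiso q.1 q'.1 hq1 (mem_HomK_iff.1 hj.target_mem).2.1 fun z hz => (he z hz.le).1
    have hi2 : IsoId q.2 := by
      obtain ⟨q', hj, he⟩ := H 1
      exact hiso q.2 q'.2 hq2 (mem_HomK_iff.1 hj.target_mem).2.2.1 fun z hz => (he z hz.le).2
    have hcomm : ∀ x, q.1 (q.2 x) = q.2 (q.1 x) := by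
      intro x
      obtain ⟨q', hj, he⟩ := H (max ‖x‖ (max ‖q.1 x‖ ‖q.2 x‖))
      have e1 := he x (le_max_left _ _)
      have e2 := he (q.1 x) ((le_max_left _ _).trans (le_max_right _ _))
      have e3 := he (q.2 x) ((le_max_right _ _).trans (le_max_right _ _))
      have hc := (mem_HomK_iff.1 hj.target_mem).1 x
      rw [e1.1, e1.2, e2.2, e3.1] at hc
      exact hc
    rw [mem_HomK_iff]
    refine ⟨hcomm, hi1, hi2, ?_⟩
    obtain ⟨R, hR⟩ : ∃ R : ℝ, R = 1 + (‖q.1 1‖ + ‖q.1 0‖ + ‖q.2 1‖ + ‖q.2 0‖) + 1 := ⟨_, rfl⟩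
    have n1 := norm_nonneg (q.1 1)
    have n2 := norm_nonneg (q.1 0)
    have n3 := norm_nonneg (q.2 1)
    have n4 := norm_nonneg (q.2 0)
    have hR1 : (1 : ℝ) < R := by linarith
    obtain ⟨q', hj, he⟩ := H R
    obtain ⟨-, hi1', hi2', hE⟩ := mem_HomK_iff.1 hj.target_mem
    obtain ⟨ℓf, hf⟩ := hi1.exists_logDiff
    obtain ⟨ℓg, hg⟩ := hi2.exists_logDiff
    obtain ⟨ℓf', hf'⟩ := hi1'.exists_logDiff
    obtain ⟨ℓg', hg'⟩ := hi2'.exists_logDiff
    let a : Conf := ⟨(1, 0), one_ne_zero⟩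
    have ha1 : ‖a.1.1‖ < R := by
      change ‖(1 : ℂ)‖ < R
      rw [norm_one]
      exact hR1
    have ha2 : ‖a.1.2‖ < R := by
      change ‖(0 : ℂ)‖ < R
      rw [norm_zero]
      linarith
    refine EulerEq.of_one hcomm hf hg (a := a) ?_
    have hE' := hE ℓf' ℓg' hf' hg' a
    have m1 : Conf.map q'.1 hf'.inj a = Conf.map q.1 hf.inj a := by
      apply Subtype.ext
      apply Prod.ext
      · exact (he 1 (by rw [norm_one]; exact hR1.le)).1
      · exact (he 0 (by rw [norm_zero]; linarith)).1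
    have m2 : Conf.map q'.2 hg'.inj a = Conf.map q.2 hg.inj a := by
      apply Subtype.ext
      apply Prod.ext
      · exact (he 1 (by rw [norm_one]; exact hR1.le)).2
      · exact (he 0 (by rw [norm_zero]; linarith)).2
    rw [m1, m2] at hE'
    have r1 := logDiff_rigid_ball hf hf' (by linarith : 0 < R) (fun z hz => ((he z hz.le).1).symm)
      (a := a) (b := Conf.map q.2 hg.inj a) ha1 ha2
      (by change ‖q.2 1‖ < R; linarith) (by change ‖q.2 0‖ < R; linarith)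
    have r2 := logDiff_rigid_ball hg hg' (by linarith : 0 < R) (fun z hz => ((he z hz.le).2).symm)
      (a := a) (b := Conf.map q.1 hf.inj a) ha1 ha2
      (by change ‖q.1 1‖ < R; linarith) (by change ‖q.1 0‖ < R; linarith)
    linear_combination hE' - r1 + r2
  · choose q' hj he using fun n : ℕ => H n
    have ht : Tendsto q' atTop (𝓝 q) := by
      have key : ∀ (u : ℕ → C(ℂ, ℂ)) (v : C(ℂ, ℂ)), (∀ n : ℕ, ∀ z, ‖z‖ ≤ n → u n z = v z) →
          Tendsto u atTop (𝓝 v) := by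
        intro u v huv
        rw [ContinuousMap.tendsto_iff_forall_isCompact_tendstoUniformlyOn]
        intro K hK
        rw [Metric.tendstoUniformlyOn_iff]
        intro ε hε
        obtain ⟨r, hr⟩ := hK.isBounded.subset_closedBall (0 : ℂ)
        obtain ⟨N, hN⟩ := exists_nat_ge r
        filter_upwards [eventually_ge_atTop N] with n hn z hz
        have h1 : ‖z‖ ≤ n := by
          have h2 := mem_closedBall_zero_iff.1 (hr hz)
          have h3 : (N : ℝ) ≤ n := by exact_mod_cast hn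
          linarith
        rw [huv n z h1, dist_self]
        exact hε
      rw [nhds_prod_eq]
      exact (key (fun n => (q' n).1) q.1 (fun n z hz => (he n z hz).1)).prodMk
        (key (fun n => (q' n).2) q.2 (fun n z hz => (he n z hz).2))
    exact mem_closure_of_tendsto ht (Eventually.of_forall fun n => hj n)

end Pool.Agent.Helper984_CP
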