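import Mathlib

/-!
# Large scale differentiability of coarsely Lipschitz curves
-/

set_option autoImplicit false

open Set Filter Topology

noncomputable section

namespace Pool.Agent.Helper984_CP

/-- the rescaled curve -/
def resc (E : ℝ → ℂ) (N : ℕ) (s : ℝ) : ℂ := ((N : ℝ)⁻¹) • E (N * (|s| + 1))

theorem resc_sub {E : ℝ → ℂ} {t0 C : ℝ} (hC : 0 ≤ C)
    (hE : ∀ s t, t0 ≤ s → t0 ≤ t → ‖E s - E t‖ ≤ C * (1 + |s - t|)) {N : ℕ} (hN : 0 < N)
    (hN' : t0 ≤ N) (s t : ℝ) : ‖resc E N s - resc E N t‖ ≤ C / N + C * |s - t| := by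
  have hNr : (0 : ℝ) < N := by exact_mod_cast hN
  have key : ∀ u : ℝ, t0 ≤ N * (|u| + 1) := fun u => by nlinarith [abs_nonneg u]
  have h1 := hE _ _ (key s) (key t)
  have h2 : |(N : ℝ) * (|s| + 1) - N * (|t| + 1)| ≤ N * |s - t| := by
    rw [← mul_sub, abs_mul, abs_of_pos hNr]
    have : |s| + 1 - (|t| + 1) = |s| - |t| := by ring
    rw [this]
    exact mul_le_mul_of_nonneg_left (abs_abs_sub_abs_le s t) hNr.le
  rw [resc, resc, ← smul_sub, norm_smul, norm_inv, Real.norm_of_nonneg hNr.le]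
  calc (N : ℝ)⁻¹ * ‖E (N * (|s| + 1)) - E (N * (|t| + 1))‖
      ≤ (N : ℝ)⁻¹ * (C * (1 + N * |s - t|)) := by
        refine mul_le_mul_of_nonneg_left (h1.trans ?_) (by positivity)
        exact mul_le_mul_of_nonneg_left (by linarith) hC
    _ = C / N + C * |s - t| := by
        field_simp

theorem resc_bound {E : ℝ → ℂ} {t0 C : ℝ} (hC : 0 ≤ C)
    (hE : ∀ s t, t0 ≤ s → t0 ≤ t → ‖E s - E t‖ ≤ C * (1 + |s - t|)) (s : ℝ) :
    ∃ R : ℝ, ∀ N : ℕ, 0 < N → t0 ≤ N → ‖resc E N s‖ ≤ R := by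
  refine ⟨‖E t0‖ + C * (1 + (|s| + 1) + |t0|), fun N hN hN' => ?_⟩
  have hNr : (1 : ℝ) ≤ N := by exact_mod_cast hN
  have hNr0 : (0 : ℝ) < N := by linarith
  have key : t0 ≤ N * (|s| + 1) := by nlinarith [abs_nonneg s]
  have h1 := hE _ _ key le_rfl
  have h2 : |(N : ℝ) * (|s| + 1) - t0| ≤ N * ((|s| + 1) + |t0|) := by
    refine (abs_sub _ _).trans ?_
    rw [abs_mul, abs_of_pos hNr0, abs_of_nonneg (by positivity : (0 : ℝ) ≤ |s| + 1)]
    nlinarith [abs_nonneg t0]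
  have h3 : ‖E (N * (|s| + 1))‖ ≤ ‖E t0‖ + C * (1 + N * ((|s| + 1) + |t0|)) := by
    have h4 := norm_sub_norm_le (E (N * (|s| + 1))) (E t0)
    have h5 : C * (1 + |(N : ℝ) * (|s| + 1) - t0|) ≤ C * (1 + N * ((|s| + 1) + |t0|)) :=
      mul_le_mul_of_nonneg_left (by linarith) hC
    linarith
  rw [resc, norm_smul, norm_inv, Real.norm_of_nonneg hNr0.le, inv_mul_le_iff₀ hNr0]
  refine h3.trans ?_
  have h6 : ‖E t0‖ ≤ N * ‖E t0‖ := le_mul_of_one_le_left (norm_nonneg _) hNr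
  have h7 : C * 1 ≤ N * (C * 1) := le_mul_of_one_le_left (by linarith) hNr
  nlinarith

/-- the limit curve -/
theorem exists_limit_curve {E : ℝ → ℂ} {t0 C : ℝ} (hC : 0 ≤ C)
    (hE : ∀ s t, t0 ≤ s → t0 ≤ t → ‖E s - E t‖ ≤ C * (1 + |s - t|)) :
    ∃ Γ : ℝ → ℂ, (∀ s, Tendsto (fun N => resc E N s) (hyperfilter ℕ : Filter ℕ) (𝓝 (Γ s))) ∧
      ∀ s t, ‖Γ s - Γ t‖ ≤ C * |s - t| := by
  obtain ⟨N0, hN0⟩ := exists_nat_ge t0
  have hev : ∀ᶠ N : ℕ in (hyperfilter ℕ : Filter ℕ), 0 < N ∧ t0 ≤ N := by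
    have h1 : ∀ᶠ N : ℕ in atTop, 0 < N ∧ t0 ≤ N := by
      filter_upwards [eventually_ge_atTop (N0 + 1)] with N hN
      refine ⟨by omega, hN0.trans ?_⟩
      exact_mod_cast (by omega : N0 ≤ N)
    exact Nat.hyperfilter_le_atTop h1
  have h1 : ∀ s, ∃ x, Tendsto (fun N => resc E N s) (hyperfilter ℕ : Filter ℕ) (𝓝 x) := by
    intro s
    obtain ⟨R, hR⟩ := resc_bound hC hE s
    have h2 : ((hyperfilter ℕ).map (fun N => resc E N s) : Filter ℂ) ≤
        𝓟 (Metric.closedBall 0 R) := by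
      rw [le_principal_iff]
      change ∀ᶠ N : ℕ in (hyperfilter ℕ : Filter ℕ), resc E N s ∈ Metric.closedBall (0 : ℂ) R
      filter_upwards [hev] with N hN
      exact mem_closedBall_zero_iff.2 (hR N hN.1 hN.2)
    obtain ⟨x, -, hx⟩ := (isCompact_closedBall (0 : ℂ) R).ultrafilter_le_nhds _ h2
    exact ⟨x, hx⟩
  choose Γ hΓ using h1
  refine ⟨Γ, hΓ, fun s t => ?_⟩
  have h2 : Tendsto (fun N : ℕ => C / (N : ℝ) + C * |s - t|) (hyperfilter ℕ : Filter ℕ)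
      (𝓝 (C * |s - t|)) := by
    have h3 : Tendsto (fun N : ℕ => C / (N : ℝ)) atTop (𝓝 0) :=
      tendsto_const_div_atTop_nhds_zero_nat C
    have h4 := (h3.mono_left Nat.hyperfilter_le_atTop).add_const (C * |s - t|)
    rwa [zero_add] at h4
  refine le_of_tendsto_of_tendsto ((hΓ s).sub (hΓ t)).norm h2 ?_
  filter_upwards [hev] with N hN
  exact resc_sub hC hE hN.1 hN.2 s t

/-- coarsely Lipschitz curves are nearly affine on some long intervals -/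
theorem window {E : ℝ → ℂ} {t0 C : ℝ} (hC : 0 ≤ C)
    (hE : ∀ s t, t0 ≤ s → t0 ≤ t → ‖E s - E t‖ ≤ C * (1 + |s - t|))
    {κ ε : ℝ} (hκ : 0 < κ) (hε : 0 < ε) (n0 : ℕ) :
    ∃ (n : ℕ) (τ : ℝ) (c : ℂ), n0 ≤ n ∧ ‖c‖ ≤ C ∧ t0 + κ * n ≤ τ ∧
      ∀ s t, |s - τ| ≤ κ * n → |t - τ| ≤ κ * n → ‖E s - E t - (s - t) • c‖ ≤ ε * n := by
  obtain ⟨Γ, hΓ, hL⟩ := exists_limit_curve hC hE
  have hLip : LipschitzWith (Real.toNNReal C) Γ := LipschitzWith.of_dist_le_mul fun s t => by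
    rw [dist_eq_norm, Real.dist_eq, Real.coe_toNNReal _ hC]
    exact hL s t
  obtain ⟨s0, hs0, hd⟩ : ∃ s0 ∈ Ioi (0 : ℝ), DifferentiableAt ℝ Γ s0 := by
    have h1 := MeasureTheory.Measure.dense_of_ae hLip.ae_differentiableAt_real
    obtain ⟨x, hx1, hx2⟩ := h1.inter_open_nonempty (Ioi 0) isOpen_Ioi
      ⟨1, mem_Ioi.2 one_pos⟩
    exact ⟨x, hx1, hx2⟩
  have hs0' : 0 < s0 := hs0
  obtain ⟨c, hc⟩ : ∃ c, c = deriv Γ s0 := ⟨_, rfl⟩
  have hcn : ‖c‖ ≤ C := by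
    rw [hc]
    have := norm_deriv_le_of_lipschitz (x₀ := s0) hLip
    rwa [Real.coe_toNNReal _ hC] at this
  obtain ⟨ε', hε'⟩ : ∃ ε', ε' = ε / (2 * κ * (4 * C + 6)) := ⟨_, rfl⟩
  have hε'0 : 0 < ε' := by rw [hε']; positivity
  have h1 := (hasDerivAt_iff_isLittleO.1 (hc ▸ hd.hasDerivAt)).bound hε'0
  obtain ⟨ρ1, hρ1, hB⟩ := Metric.eventually_nhds_iff.1 h1
  obtain ⟨ρ, hρ⟩ : ∃ ρ, ρ = min (ρ1 / 2) s0 := ⟨_, rfl⟩
  have hρ0 : 0 < ρ := by rw [hρ]; exact lt_min (half_pos hρ1) hs0'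
  have hρs : ρ ≤ s0 := by rw [hρ]; exact min_le_right _ _
  have hρ1' : ρ < ρ1 := by
    have : ρ ≤ ρ1 / 2 := by rw [hρ]; exact min_le_left _ _
    linarith
  have hder : ∀ s, |s - s0| ≤ ρ → ‖Γ s - Γ s0 - (s - s0) • c‖ ≤ ε' * ρ := by
    intro s hs
    have h2 := hB (y := s) (by rw [Real.dist_eq]; linarith)
    refine h2.trans (mul_le_mul_of_nonneg_left ?_ hε'0.le)
    rwa [Real.norm_eq_abs]
  -- a finite net
  obtain ⟨m, hm⟩ := exists_nat_gt (1 / ε')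
  have hm0 : (0 : ℝ) < m := lt_trans (by positivity) hm
  have hmε : ρ / m ≤ ε' * ρ := by
    rw [div_le_iff₀ hm0]
    have : 1 < m * ε' := by rwa [div_lt_iff₀ hε'0] at hm
    nlinarith
  have hev : ∀ᶠ N : ℕ in (hyperfilter ℕ : Filter ℕ), ∀ i ∈ Finset.Icc (-(m : ℤ)) m,
      ‖resc E N (s0 + ρ * (i : ℝ) / m) - Γ (s0 + ρ * (i : ℝ) / m)‖ < ε' * ρ := by
    rw [Filter.eventually_all_finset]
    intro i _
    have h2 := (hΓ (s0 + ρ * (i : ℝ) / m)).sub_const (Γ (s0 + ρ * (i : ℝ) / m))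
    rw [sub_self] at h2
    have h3 := h2.norm
    rw [norm_zero] at h3
    exact h3.eventually (gt_mem_nhds (by positivity))
  obtain ⟨N1, hN1⟩ := exists_nat_ge (max (max t0 1) (max (C / (ε' * ρ)) (κ * (n0 + 1) / ρ)))
  have hev2 : ∀ᶠ N : ℕ in (hyperfilter ℕ : Filter ℕ), N1 ≤ N :=
    Nat.hyperfilter_le_atTop (eventually_ge_atTop N1)
  obtain ⟨N, hN, hNN⟩ := (hev.and hev2).exists
  have hNr : max (max t0 1) (max (C / (ε' * ρ)) (κ * (n0 + 1) / ρ)) ≤ (N : ℝ) :=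
    hN1.trans (by exact_mod_cast hNN)
  have hNt : t0 ≤ N := (le_max_left _ _).trans ((le_max_left _ _).trans hNr)
  have hN1' : (1 : ℝ) ≤ N := (le_max_right _ _).trans ((le_max_left _ _).trans hNr)
  have hNC : C / (ε' * ρ) ≤ N := (le_max_left _ _).trans ((le_max_right _ _).trans hNr)
  have hNn : κ * (n0 + 1) / ρ ≤ N := (le_max_right _ _).trans ((le_max_right _ _).trans hNr)
  have hN0 : (0 : ℝ) < N := by linarith
  have hNC' : C / N ≤ ε' * ρ := by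
    rw [div_le_iff₀ hN0]
    rw [div_le_iff₀ (by positivity)] at hNC
    linarith
  have hclose : ∀ s, |s - s0| ≤ ρ → ‖resc E N s - Γ s‖ ≤ (2 * C + 2) * (ε' * ρ) := by
    intro s hs
    obtain ⟨i, hi⟩ : ∃ i : ℤ, i = round ((s - s0) * m / ρ) := ⟨_, rfl⟩
    have h2 := abs_sub_round ((s - s0) * m / ρ)
    rw [← hi] at h2
    have h3 : |(s - s0) * m / ρ| ≤ m := by
      rw [abs_div, abs_mul, abs_of_pos hm0, abs_of_pos hρ0, div_le_iff₀ hρ0]
      nlinarith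
    have h4 : i ∈ Finset.Icc (-(m : ℤ)) m := by
      rw [Finset.mem_Icc]
      rw [abs_le] at h2 h3
      constructor
      · have : (-(m : ℤ) : ℝ) - 1 < i := by
          push_cast
          linarith [h2.1, h2.2, h3.1, h3.2]
        have h5 : (-(m : ℤ)) - 1 < i := by exact_mod_cast this
        omega
      · have : (i : ℝ) < m + 1 := by linarith [h2.1, h2.2, h3.1, h3.2]
        have h5 : i < m + 1 := by exact_mod_cast this
        omega
    have h5 : |s - (s0 + ρ * (i : ℝ) / m)| ≤ ε' * ρ := by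
      have e1 : s - (s0 + ρ * (i : ℝ) / m) = ((s - s0) * m / ρ - i) * (ρ / m) := by
        field_simp
        ring
      rw [e1, abs_mul, abs_of_pos (div_pos hρ0 hm0)]
      calc |(s - s0) * m / ρ - i| * (ρ / m) ≤ 1 * (ρ / m) :=
            mul_le_mul_of_nonneg_right (by linarith) (by positivity)
        _ ≤ ε' * ρ := by rw [one_mul]; exact hmε
    have h6 := resc_sub hC hE (by exact_mod_cast hN0) hNt s (s0 + ρ * (i : ℝ) / m)
    have h7 := (hN i h4).le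
    have h8 := hL (s0 + ρ * (i : ℝ) / m) s
    rw [abs_sub_comm] at h8
    have h9 : C * |s - (s0 + ρ * (i : ℝ) / m)| ≤ C * (ε' * ρ) :=
      mul_le_mul_of_nonneg_left h5 hC
    have e2 : resc E N s - Γ s = (resc E N s - resc E N (s0 + ρ * (i : ℝ) / m)) +
        (resc E N (s0 + ρ * (i : ℝ) / m) - Γ (s0 + ρ * (i : ℝ) / m)) +
        (Γ (s0 + ρ * (i : ℝ) / m) - Γ s) := by ring
    rw [e2]
    refine (norm_add₃_le).trans ?_
    linarith
  -- the window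
  obtain ⟨n, hn⟩ : ∃ n : ℕ, n = ⌊N * ρ / κ⌋₊ := ⟨_, rfl⟩
  have hn1 : κ * n ≤ N * ρ := by
    have := Nat.floor_le (by positivity : (0 : ℝ) ≤ N * ρ / κ)
    rw [← hn, le_div_iff₀ hκ] at this
    linarith
  have hn2 : N * ρ < κ * (n + 1) := by
    have := Nat.lt_floor_add_one (N * ρ / κ)
    rw [← hn, div_lt_iff₀ hκ] at this
    linarith
  have hn3 : n0 + 1 ≤ n := by
    rw [hn]
    refine Nat.le_floor ?_
    rw [le_div_iff₀ hκ]
    rw [div_le_iff₀ hρ0] at hNn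
    push_cast
    linarith
  have hn4 : (1 : ℝ) ≤ n := by exact_mod_cast (by omega : 1 ≤ n)
  refine ⟨n, N * (s0 + 1), c, by omega, hcn, ?_, fun s t hs ht => ?_⟩
  · have : N * ρ ≤ N * s0 := mul_le_mul_of_nonneg_left hρs hN0.le
    linarith
  · have key : ∀ u : ℝ, |u - N * (s0 + 1)| ≤ κ * n → |(u / N - 1) - s0| ≤ ρ ∧
        E u = (N : ℝ) • resc E N (u / N - 1) := by
      intro u hu
      have e1 : u / N - 1 - s0 = (u - N * (s0 + 1)) / N := by
        field_simp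
        ring
      have h2 : |(u / N - 1) - s0| ≤ ρ := by
        rw [e1, abs_div, abs_of_pos hN0, div_le_iff₀ hN0]
        linarith
      refine ⟨h2, ?_⟩
      have h3 : 0 ≤ u / N - 1 := by
        have := (abs_le.1 h2).1
        linarith
      rw [resc, smul_smul, mul_inv_cancel₀ hN0.ne', one_smul, abs_of_nonneg h3]
      congr 1
      field_simp
      ring
    obtain ⟨a1, a2⟩ := key s hs
    obtain ⟨b1, b2⟩ := key t ht
    have h2 := hclose _ a1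
    have h3 := hclose _ b1
    have h4 := hder _ a1
    have h5 := hder _ b1
    obtain ⟨x, hx⟩ : ∃ x, x = s / N - 1 := ⟨_, rfl⟩
    obtain ⟨y, hy⟩ : ∃ y, y = t / N - 1 := ⟨_, rfl⟩
    rw [← hx] at h2 h4 a2
    rw [← hy] at h3 h5 b2
    have e3 : s - t = N * (x - y) := by
      rw [hx, hy]
      field_simp
      ring
    have e4 : E s - E t - (s - t) • c = (N : ℝ) • ((resc E N x - Γ x) - (resc E N y - Γ y) +
        ((Γ x - Γ s0 - (x - s0) • c) - (Γ y - Γ s0 - (y - s0) • c))) := by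
      rw [a2, b2, e3]
      simp only [Complex.real_smul]
      push_cast
      ring
    rw [e4, norm_smul, Real.norm_of_nonneg hN0.le]
    have h6 : ‖(resc E N x - Γ x) - (resc E N y - Γ y) +
        ((Γ x - Γ s0 - (x - s0) • c) - (Γ y - Γ s0 - (y - s0) • c))‖ ≤
        (4 * C + 6) * (ε' * ρ) := by
      refine (norm_add_le _ _).trans ?_
      have h7 := norm_sub_le (resc E N x - Γ x) (resc E N y - Γ y)
      have h8 := norm_sub_le (Γ x - Γ s0 - (x - s0) • c) (Γ y - Γ s0 - (y - s0) • c)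
      linarith
    calc (N : ℝ) * _ ≤ N * ((4 * C + 6) * (ε' * ρ)) := mul_le_mul_of_nonneg_left h6 hN0.le
      _ = (N * ρ) * ((4 * C + 6) * ε') := by ring
      _ ≤ (2 * κ * n) * ((4 * C + 6) * ε') := by
          refine mul_le_mul_of_nonneg_right ?_ (by positivity)
          nlinarith
      _ = ε * n := by
          rw [hε']
          field_simp

end Pool.Agent.Helper984_CP
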