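import Pool.Agent.Helper984_CP.AccC
import Pool.Agent.Helper984_CP.Win
import Pool.Agent.Helper984_CP.Arr

/-!
# Pairs which are coarsely Lipschitz in logarithmic coordinates
-/

set_option autoImplicit false

open Set Filter Topology Complex

noncomputable section

namespace Pool.Agent.Helper984_CP

/-- the logarithmic scale, with a sign -/
def sc (σ : ℝ) (y : ℂ) : ℝ := σ * Real.log ‖y‖

/-- `F` is coarsely Lipschitz near the origin (`σ = 1`) or near infinity (`σ = - 1`) in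
logarithmic coordinates -/
structure CoarseL (σ : ℝ) (F : ℂ ≃ₜ ℂ) (M : C(ℂ, ℂ)) (ρ0 C : ℝ) : Prop where
  disp : ∀ y : ℂ, y ≠ 0 → sc σ y ≤ ρ0 → |sc σ (F y) - sc σ y| ≤ C
  disp' : ∀ y : ℂ, y ≠ 0 → sc σ y ≤ ρ0 → |sc σ ((F⁻¹ : ℂ ≃ₜ ℂ) y) - sc σ y| ≤ C
  rot : ∀ w w' : ℂ, σ * w.re ≤ ρ0 → σ * w'.re ≤ ρ0 →
    |(M w - w).im - (M w' - w').im| ≤ C * (1 + |σ * w.re - σ * w'.re|)

/-- the rotation of a point -/
def rotF (M : C(ℂ, ℂ)) (y : ℂ) : ℝ := (M (Complex.log y) - Complex.log y).im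

theorem rotF_exp {M : C(ℂ, ℂ)} (hM : ∀ w, M (w + tpi) = M w + tpi) (w : ℂ) :
    rotF M (cexp w) = (M w - w).im := by
  obtain ⟨n, hn⟩ := Complex.exp_eq_exp_iff_exists_int.1
    (Complex.exp_log (Complex.exp_ne_zero w))
  have hn' : Complex.log (cexp w) = w + n * tpi := hn
  rw [rotF, hn', int_shift hM]
  congr 1
  ring

theorem CoarseL.rotF {σ : ℝ} {F : ℂ ≃ₜ ℂ} {M : C(ℂ, ℂ)} {ρ0 C : ℝ} (h : CoarseL σ F M ρ0 C)
    {y y' : ℂ} (hy : sc σ y ≤ ρ0) (hy' : sc σ y' ≤ ρ0) :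
    |rotF M y - rotF M y'| ≤ C * (1 + |sc σ y - sc σ y'|) := by
  have := h.rot (Complex.log y) (Complex.log y') (by rwa [Complex.log_re])
    (by rwa [Complex.log_re])
  rwa [Complex.log_re, Complex.log_re] at this

/-- the curvature identity -/
theorem rotF_euler {k : ℤ} {F G : ℂ ≃ₜ ℂ} (h : PK k F G) (hF0 : F 0 = 0) (hG0 : G 0 = 0)
    {M N : C(ℂ, ℂ)} (hM : LiftOf F M) (hN : LiftOf G N) {y : ℂ} (hy : y ≠ 0) :
    rotF M (G y) - rotF M y - (rotF N (F y) - rotF N y) = 2 * Real.pi * k := by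
  obtain ⟨-, hi1, hi2, hE⟩ := mem_HomK_iff.1 h
  obtain ⟨ℓf, hf⟩ := hi1.exists_logDiff
  obtain ⟨ℓg, hg⟩ := hi2.exists_logDiff
  obtain ⟨w, rfl⟩ : ∃ w, cexp w = y := ⟨Complex.log y, Complex.exp_log hy⟩
  have h1 := lift_comm hf hg hE hF0 hG0 hM.2 hN.2 w
  rw [← hM.2, ← hN.2, rotF_exp hM.1, rotF_exp hM.1, rotF_exp hN.1, rotF_exp hN.1, h1]
  have h2 : (tpi * (k : ℂ)).im = 2 * Real.pi * k := by
    rw [tpi_eq]
    simp
  simp only [Complex.sub_im, Complex.add_im, h2]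
  ring

/-- iterates move the scale at most linearly -/
theorem pow_disp {σ : ℝ} {F : ℂ ≃ₜ ℂ} {ρ0 C : ℝ} (hC : 0 ≤ C) (hF0 : F 0 = 0)
    (h1 : ∀ y : ℂ, y ≠ 0 → sc σ y ≤ ρ0 → |sc σ (F y) - sc σ y| ≤ C)
    (m : ℕ) {y : ℂ} (hy : y ≠ 0) (hy' : sc σ y + C * m ≤ ρ0) :
    |sc σ ((F ^ m : ℂ ≃ₜ ℂ) y) - sc σ y| ≤ C * m := by
  induction m with
  | zero => simp
  | succ m ih =>
    push_cast at hy'
    have h2 := ih (by linarith)
    have h3 : (F ^ m : ℂ ≃ₜ ℂ) y ≠ 0 := by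
      intro h
      have h4 : (F ^ m : ℂ ≃ₜ ℂ) 0 = 0 := pow_fix hF0 m
      exact hy ((F ^ m : ℂ ≃ₜ ℂ).injective (h.trans h4.symm))
    have h4 := h1 _ h3 (by
      have := (abs_le.1 h2).2
      linarith)
    have e : (F ^ (m + 1) : ℂ ≃ₜ ℂ) y = F ((F ^ m : ℂ ≃ₜ ℂ) y) := by
      rw [pow_succ']
      rfl
    rw [e]
    push_cast
    have e2 : sc σ (F ((F ^ m : ℂ ≃ₜ ℂ) y)) - sc σ y =
      (sc σ (F ((F ^ m : ℂ ≃ₜ ℂ) y)) - sc σ ((F ^ m : ℂ ≃ₜ ℂ) y)) +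
      (sc σ ((F ^ m : ℂ ≃ₜ ℂ) y) - sc σ y) := by ring
    rw [e2]
    refine (abs_add_le _ _).trans ?_
    linarith

theorem CoarseL.zpow {σ : ℝ} {F : ℂ ≃ₜ ℂ} {M : C(ℂ, ℂ)} {ρ0 C : ℝ} (h : CoarseL σ F M ρ0 C)
    (hC : 0 ≤ C) (hF0 : F 0 = 0) (a : ℤ) {y : ℂ} (hy : y ≠ 0)
    (hy' : sc σ y + C * |(a : ℝ)| ≤ ρ0) :
    |sc σ ((F ^ a : ℂ ≃ₜ ℂ) y) - sc σ y| ≤ C * |(a : ℝ)| := by
  rcases le_total 0 a with ha | ha
  · obtain ⟨m, rfl⟩ := Int.eq_ofNat_of_zero_le ha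
    rw [Int.cast_natCast, Nat.abs_cast] at hy' ⊢
    rw [zpow_natCast]
    exact pow_disp hC hF0 h.disp m hy hy'
  · obtain ⟨m, hm⟩ := Int.eq_ofNat_of_zero_le (neg_nonneg.2 ha)
    have hm' : a = -(m : ℤ) := by omega
    rw [hm'] at hy' ⊢
    rw [Int.cast_neg, Int.cast_natCast, abs_neg, Nat.abs_cast] at hy' ⊢
    rw [zpow_neg, zpow_natCast, ← inv_pow]
    exact pow_disp hC (symm_fix hF0) h.disp' m hy hy'

theorem zpow_ne {F : ℂ ≃ₜ ℂ} (hF0 : F 0 = 0) (a : ℤ) {y : ℂ} (hy : y ≠ 0) :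
    (F ^ a : ℂ ≃ₜ ℂ) y ≠ 0 := by
  intro h
  exact hy ((F ^ a : ℂ ≃ₜ ℂ).injective (h.trans (zpow_zero_fix hF0 a).symm))

theorem mul_zpow_zpow {F G : ℂ ≃ₜ ℂ} (hc : F * G = G * F) (a b a' b' : ℤ) :
    F ^ (a + a') * G ^ (b + b') = F ^ a * G ^ b * (F ^ a' * G ^ b') := by
  have h : Commute F G := hc
  have h1 : G ^ b * F ^ a' = F ^ a' * G ^ b := ((h.symm.zpow_right a').zpow_left b).eq
  rw [zpow_add, zpow_add, mul_assoc, mul_assoc, ← mul_assoc (G ^ b), h1, mul_assoc]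

/-- displacement of the scale under both maps -/
theorem CoarseL.two {σ : ℝ} {F G : ℂ ≃ₜ ℂ} {M N : C(ℂ, ℂ)} {ρ0 C : ℝ} (h : CoarseL σ F M ρ0 C)
    (h' : CoarseL σ G N ρ0 C) (hC : 0 ≤ C) (hF0 : F 0 = 0) (hG0 : G 0 = 0) (a b : ℤ) {y : ℂ}
    (hy : y ≠ 0) (hy' : sc σ y + C * (|(a : ℝ)| + |(b : ℝ)|) ≤ ρ0) :
    |sc σ ((F ^ a * G ^ b : ℂ ≃ₜ ℂ) y) - sc σ y| ≤ C * (|(a : ℝ)| + |(b : ℝ)|) := by
  have ha := mul_nonneg hC (abs_nonneg (a : ℝ))
  have hb := mul_nonneg hC (abs_nonneg (b : ℝ))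
  rw [mul_add] at hy'
  have h1 := h'.zpow hC hG0 b hy (by linarith)
  have h2 := h.zpow hC hF0 a (zpow_ne hG0 b hy) (by
    have := (abs_le.1 h1).2
    linarith)
  have e : (F ^ a * G ^ b : ℂ ≃ₜ ℂ) y = (F ^ a : ℂ ≃ₜ ℂ) ((G ^ b : ℂ ≃ₜ ℂ) y) := rfl
  rw [e]
  have e2 : sc σ ((F ^ a : ℂ ≃ₜ ℂ) ((G ^ b : ℂ ≃ₜ ℂ) y)) - sc σ y =
    (sc σ ((F ^ a : ℂ ≃ₜ ℂ) ((G ^ b : ℂ ≃ₜ ℂ) y)) - sc σ ((G ^ b : ℂ ≃ₜ ℂ) y)) +
    (sc σ ((G ^ b : ℂ ≃ₜ ℂ) y) - sc σ y) := by ring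
  rw [e2]
  refine (abs_add_le _ _).trans ?_
  linarith

/-- a circle is moved off itself by some element -/
theorem coarse_out {σ : ℝ} (hσ : σ * σ = 1) {k : ℤ} {F G : ℂ ≃ₜ ℂ} (h : PK k F G) (hk : k ≠ 0) (hF0 : F 0 = 0)
    (hG0 : G 0 = 0) {M N : C(ℂ, ℂ)} (hM : LiftOf F M) (hN : LiftOf G N) {ρ0 C : ℝ} (hC : 0 < C)
    (cF : CoarseL σ F M ρ0 C) (cG : CoarseL σ G N ρ0 C) :
    ∃ (a b : ℤ) (τ : ℝ), ∀ x : ℂ, x ≠ 0 → sc σ x = τ →
      τ < sc σ ((F ^ a * G ^ b : ℂ ≃ₜ ℂ) x) := by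
  obtain ⟨K, hK⟩ : ∃ K : ℝ, K = 2 * Real.pi * k := ⟨_, rfl⟩
  have hK0 : K ≠ 0 := by
    rw [hK]
    have : (k : ℝ) ≠ 0 := by exact_mod_cast hk
    positivity
  obtain ⟨l, hl⟩ : ∃ l : ℝ, l = 8 * (C + 1) / K := ⟨_, rfl⟩
  have hlK : l * K = 8 * (C + 1) := by rw [hl]; field_simp
  have hl0 : l ≠ 0 := by
    intro h0
    rw [h0, zero_mul] at hlK
    linarith
  have hla : 0 < |l| := abs_pos.2 hl0
  -- the curve
  obtain ⟨E, hE⟩ : ∃ E : ℝ → ℂ, E = fun t =>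
      ⟨rotF M (Real.exp (-(σ * t)) : ℝ), rotF N (Real.exp (-(σ * t)) : ℝ)⟩ :=
    ⟨_, rfl⟩
  have hlog : ∀ t : ℝ, sc σ ((Real.exp (-(σ * t)) : ℝ) : ℂ) = -t := by
    intro t
    rw [sc, Complex.norm_real, Real.norm_of_nonneg (Real.exp_pos _).le, Real.log_exp]
    linear_combination (-t) * hσ
  have hcoarse : ∀ s t : ℝ, -ρ0 ≤ s → -ρ0 ≤ t → ‖E s - E t‖ ≤ 2 * C * (1 + |s - t|) := by
    intro s t hs ht
    have a1 := cF.rotF (y := (Real.exp (-(σ * s)) : ℝ))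
      (y' := (Real.exp (-(σ * t)) : ℝ))
      (by rw [hlog]; linarith) (by rw [hlog]; linarith)
    have a2 := cG.rotF (y := (Real.exp (-(σ * s)) : ℝ))
      (y' := (Real.exp (-(σ * t)) : ℝ))
      (by rw [hlog]; linarith) (by rw [hlog]; linarith)
    rw [hlog, hlog] at a1 a2
    have e1 : |-s - -t| = |s - t| := by rw [← abs_neg]; congr 1; ring
    rw [e1] at a1 a2
    have h3 := Complex.norm_le_abs_re_add_abs_im (E s - E t)
    rw [Complex.sub_re, Complex.sub_im, hE] at h3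
    rw [hE]
    simp only at h3
    linarith
  obtain ⟨R0, hR0⟩ : ∃ R0 : ℝ, R0 = 2 * (|l| * (2 * C)) + 2 := ⟨_, rfl⟩
  have hR0' : 0 < R0 := by rw [hR0]; positivity
  obtain ⟨κ, hκ⟩ : ∃ κ : ℝ, κ = 6 * C * (2 * R0 + 1) := ⟨_, rfl⟩
  have hκ0 : 0 < κ := by rw [hκ]; positivity
  obtain ⟨ε, hε⟩ : ∃ ε : ℝ, ε = 1 / (2 * |l|) := ⟨_, rfl⟩
  have hε0 : 0 < ε := by rw [hε]; positivity
  obtain ⟨n0, hn0⟩ := exists_nat_gt (2 * C * R0 ^ 2 + 4 * C * |l|)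
  obtain ⟨n, τ, c, hn, hc, hτ, hw⟩ := window (by positivity) hcoarse hκ0 hε0 (n0 + 1)
  have hn1 : (1 : ℝ) ≤ n := by exact_mod_cast (by omega : 1 ≤ n)
  have hnn : 2 * C * R0 ^ 2 + 4 * C * |l| < n := by
    refine hn0.trans_le ?_
    exact_mod_cast (by omega : n0 ≤ n)
  obtain ⟨p, hp⟩ : ∃ p : ℤ, p = round (l * -c.re) := ⟨_, rfl⟩
  obtain ⟨q, hq⟩ : ∃ q : ℤ, q = round (l * -c.im) := ⟨_, rfl⟩
  have hp1 : |(p : ℝ) - l * -c.re| ≤ 1 := by
    have := abs_sub_round (l * -c.re)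
    rw [← hp, abs_sub_comm] at this
    linarith
  have hq1 : |(q : ℝ) - l * -c.im| ≤ 1 := by
    have := abs_sub_round (l * -c.im)
    rw [← hq, abs_sub_comm] at this
    linarith
  have hp2 : |(p : ℝ)| ≤ |l| * (2 * C) + 1 := by
    have e : (p : ℝ) = ((p : ℝ) - l * -c.re) + l * -c.re := by ring
    rw [e]
    refine (abs_add_le _ _).trans ?_
    rw [abs_mul, abs_neg]
    have := mul_le_mul_of_nonneg_left ((Complex.abs_re_le_norm c).trans hc) hla.le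
    linarith
  have hq2 : |(q : ℝ)| ≤ |l| * (2 * C) + 1 := by
    have e : (q : ℝ) = ((q : ℝ) - l * -c.im) + l * -c.im := by ring
    rw [e]
    refine (abs_add_le _ _).trans ?_
    rw [abs_mul, abs_neg]
    have := mul_le_mul_of_nonneg_left ((Complex.abs_im_le_norm c).trans hc) hla.le
    linarith
  have hr : |(p : ℝ)| + |(q : ℝ)| ≤ R0 := by rw [hR0]; linarith
  obtain ⟨B, hB⟩ : ∃ B : ℤ, B = (n : ℤ) * (|p| + |q|) + |p| + |q| + n := ⟨_, rfl⟩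
  have hB1 : (B : ℝ) ≤ n * (2 * R0 + 1) := by
    rw [hB]
    push_cast
    have h1 : (n : ℝ) * (|(p : ℝ)| + |(q : ℝ)|) ≤ n * R0 :=
      mul_le_mul_of_nonneg_left hr (by positivity)
    have h2 : |(p : ℝ)| + |(q : ℝ)| ≤ n * R0 := by nlinarith
    linarith
  have hB0 : (0 : ℝ) ≤ B := by
    rw [hB]
    push_cast
    positivity
  have hBκ : 6 * (C * B) ≤ κ * n := by
    rw [hκ]
    nlinarith
  have hCB : 0 ≤ C * B := by positivity
  refine ⟨-(n * q), n * p, -τ, fun x hx0 hxl => ?_⟩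
  obtain ⟨X, hX⟩ : ∃ X : ℤ → ℤ → ℂ, X = fun a b => (F ^ a * G ^ b : ℂ ≃ₜ ℂ) x := ⟨_, rfl⟩
  have hX0 : ∀ a b, X a b ≠ 0 := by
    intro a b
    rw [hX]
    exact zpow_ne hF0 a (zpow_ne hG0 b hx0)
  have hab : ∀ a : ℤ, |a| ≤ B → |(a : ℝ)| ≤ B := fun a ha => by exact_mod_cast ha
  have hS0 : ∀ a b : ℤ, |a| ≤ B → |b| ≤ B → |sc σ (X a b) + τ| ≤ 2 * (C * B) := by
    intro a b ha hb
    have ha' := mul_le_mul_of_nonneg_left (hab a ha) hC.le
    have hb' := mul_le_mul_of_nonneg_left (hab b hb) hC.le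
    have h1 := cF.two cG hC.le hF0 hG0 a b hx0 (by rw [hxl, mul_add]; linarith)
    rw [hxl, sub_neg_eq_add, mul_add] at h1
    rw [hX]
    linarith
  have hXX : ∀ a b a' b' : ℤ, X a b = (F ^ (a - a') * G ^ (b - b') : ℂ ≃ₜ ℂ) (X a' b') := by
    intro a b a' b'
    rw [hX]
    have h1 := mul_zpow_zpow h.comm (a - a') (b - b') a' b'
    rw [sub_add_cancel, sub_add_cancel] at h1
    change (F ^ a * G ^ b : ℂ ≃ₜ ℂ) x = _
    rw [h1]
    rfl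
  have hρ : ∀ a b : ℤ, |a| ≤ B → |b| ≤ B → sc σ (X a b) ≤ ρ0 := by
    intro a b ha hb
    have := (abs_le.1 (hS0 a b ha hb)).2
    linarith
  have hA : ∀ (L : C(ℂ, ℂ)) (H : ℂ ≃ₜ ℂ), CoarseL σ H L ρ0 C → ∀ a b : ℤ, |a| ≤ B → |b| ≤ B →
      |rotF L (X a b) - rotF L ((Real.exp (-(σ * -sc σ (X a b))) : ℝ) : ℂ)| ≤ C := by
    intro L H cL a b ha hb
    have h1 := cL.rotF (hρ a b ha hb) (y' := ((Real.exp (-(σ * -sc σ (X a b))) : ℝ) : ℂ))
      (by rw [hlog, neg_neg]; exact hρ a b ha hb)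
    rw [hlog, neg_neg, sub_self, abs_zero, add_zero, mul_one] at h1
    exact h1
  have arr : ArrH (fun a b => sc σ (X a b)) (fun a b => rotF M (X a b))
      (fun a b => rotF N (X a b)) K C (2 * C + ε * n) (-c.re) (-c.im) B := by
    refine ⟨hC.le, fun a b => ?_, fun a b a' b' ha hb ha' hb' => ?_,
      fun a b a' b' ha hb ha' hb' => ?_, fun a b a' b' ha hb ha' hb' => ?_⟩
    · have e1 : X a (b + 1) = G (X a b) := by
        rw [hXX a (b + 1) a b, sub_self, add_sub_cancel_left, zpow_zero, zpow_one, one_mul]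
      have e2 : X (a + 1) b = F (X a b) := by
        rw [hXX (a + 1) b a b, sub_self, add_sub_cancel_left, zpow_zero, zpow_one, mul_one]
      simp only [e1, e2]
      rw [hK]
      exact rotF_euler h hF0 hG0 hM hN (hX0 a b)
    · have ha1 := mul_le_mul_of_nonneg_left (hab a ha) hC.le
      have hb1 := mul_le_mul_of_nonneg_left (hab b hb) hC.le
      have ha2 := mul_le_mul_of_nonneg_left (hab a' ha') hC.le
      have hb2 := mul_le_mul_of_nonneg_left (hab b' hb') hC.le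
      have h1 := (abs_le.1 (hS0 a' b' ha' hb')).2
      have h2 := cF.two cG hC.le hF0 hG0 (a - a') (b - b') (hX0 a' b') (by
        push_cast
        have h3 := mul_le_mul_of_nonneg_left (abs_sub (a : ℝ) a') hC.le
        have h4 := mul_le_mul_of_nonneg_left (abs_sub (b : ℝ) b') hC.le
        rw [mul_add] at h3 h4
        rw [mul_add]
        linarith)
      rw [← hXX] at h2
      push_cast at h2
      exact h2
    · have h1 := hw (-sc σ (X a b)) (-sc σ (X a' b'))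
        (by
          have := hS0 a b ha hb
          rw [← abs_neg]
          have e : -(-sc σ (X a b) - τ) = sc σ (X a b) + τ := by ring
          rw [e]
          linarith)
        (by
          have := hS0 a' b' ha' hb'
          rw [← abs_neg]
          have e : -(-sc σ (X a' b') - τ) = sc σ (X a' b') + τ := by ring
          rw [e]
          linarith)
      have h2 := (Complex.abs_re_le_norm _).trans h1
      rw [hE] at h2
      simp only [Complex.sub_re, Complex.real_smul, Complex.re_ofReal_mul] at h2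
      have h3 := hA M F cF a b ha hb
      have h4 := hA M F cF a' b' ha' hb'
      rw [abs_le] at h2 h3 h4 ⊢
      constructor
      · nlinarith [h2.1, h3.1, h4.2]
      · nlinarith [h2.2, h3.2, h4.1]
    · have h1 := hw (-sc σ (X a b)) (-sc σ (X a' b'))
        (by
          have := hS0 a b ha hb
          rw [← abs_neg]
          have e : -(-sc σ (X a b) - τ) = sc σ (X a b) + τ := by ring
          rw [e]
          linarith)
        (by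
          have := hS0 a' b' ha' hb'
          rw [← abs_neg]
          have e : -(-sc σ (X a' b') - τ) = sc σ (X a' b') + τ := by ring
          rw [e]
          linarith)
      have h2 := (Complex.abs_im_le_norm _).trans h1
      rw [hE] at h2
      simp only [Complex.sub_im, Complex.real_smul, Complex.im_ofReal_mul] at h2
      have h3 := hA N G cG a b ha hb
      have h4 := hA N G cG a' b' ha' hb'
      rw [abs_le] at h2 h3 h4 ⊢
      constructor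
      · nlinarith [h2.1, h3.1, h4.2]
      · nlinarith [h2.2, h3.2, h4.1]
  have key := arr.growth (by omega : 0 < n) hB.ge hp1 hq1
  have e00 : X 0 0 = x := by
    rw [hX]
    change (F ^ (0 : ℤ) * G ^ (0 : ℤ) : ℂ ≃ₜ ℂ) x = x
    rw [zpow_zero, zpow_zero, mul_one]
    rfl
  rw [e00, hxl] at key
  have h1 := (abs_le.1 key).1
  have h2 : (|(p : ℝ)| + |(q : ℝ)|) ^ 2 ≤ R0 ^ 2 := by gcongr
  have h3 : 2 * |l| * (2 * C + ε * n) = 4 * C * |l| + n := by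
    rw [hε]
    field_simp
    ring
  rw [h3, hlK] at h1
  have h4 : 2 * C * (|(p : ℝ)| + |(q : ℝ)|) ^ 2 ≤ 2 * C * R0 ^ 2 :=
    mul_le_mul_of_nonneg_left h2 (by positivity)
  have h5 : -τ < sc σ (X (-(n * q)) (n * p)) := by
    have h6 : 0 ≤ C * n := by positivity
    nlinarith
  rw [hX] at h5
  exact h5


end Pool.Agent.Helper984_CP
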