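import Pool.Agent.Helper984_CP.Inv
import Pool.Agent.Helper240.ZFM.C2
import Pool.Agent.Helper240.ZFM.C4

/-!
# Riemann charts of domains with connected complement in the sphere, and inversion
-/

set_option autoImplicit false

open Set Filter Topology

noncomputable section

namespace Pool.Agent.Helper984_CP

/-- Riemann chart of a domain with the hull property -/
theorem exists_riem_hull {U : Set ℂ} (hU : IsOpen U) (hUc : IsConnected U) (hne : U ≠ univ)
    (hull : ∀ L ⊆ U, IsCompact L → ∃ L' ⊆ U, L ⊆ L' ∧ IsCompact L' ∧ IsConnected L'ᶜ)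
    {a : ℂ} (ha : a ∈ U) :
    ∃ φ ψ : ℂ → ℂ, Riem φ ψ U ∧ deriv φ 0 ≠ 0 ∧ φ 0 = a := by
  obtain ⟨g, φ, h1, h2, h3, h4, h5, h6, h7, h8⟩ :=
    ZFM.J_c4.riemann_inv hU hUc (fun f hf => ZFM.primitive_of_good hU hull f hf) hne ha
  exact ⟨g, φ, ⟨hU, h1, fun z hz => h2.mapsTo (mem_ball_zero_iff.2 hz), h5.continuousOn,
    fun w hw => mem_ball_zero_iff.1 (h6 hw), fun z hz => h8 z (mem_ball_zero_iff.2 hz), h7⟩,
    h3 0 (by simp), h4⟩

/-- the hull property from the connectedness of the complement in the sphere -/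
theorem hull_of_compl {U : Set ℂ} (hS : IsPreconnected ((fun z : ℂ => (z : OnePoint ℂ)) '' U)ᶜ) :
    ∀ L ⊆ U, IsCompact L → ∃ L' ⊆ U, L ⊆ L' ∧ IsCompact L' ∧ IsConnected L'ᶜ := by
  intro L hLU hL
  obtain ⟨R0, hR0⟩ := hL.isBounded.subset_closedBall (0 : ℂ)
  obtain ⟨R, hR⟩ : ∃ R, R = max R0 1 := ⟨_, rfl⟩
  have hRpos : 0 < R := by rw [hR]; positivity
  have hLR : ∀ z, R < ‖z‖ → z ∉ L := by
    intro z hz hzL
    have h1 := mem_closedBall_zero_iff.1 (hR0 hzL)
    have h2 : R0 ≤ R := by rw [hR]; exact le_max_left _ _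
    linarith
  have hLo : IsOpen Lᶜ := hL.isClosed.isOpen_compl
  obtain ⟨p, hp⟩ : ∃ p : ℂ, p = ((R + 1 : ℝ) : ℂ) := ⟨_, rfl⟩
  have hpn : ‖p‖ = R + 1 := by
    rw [hp, Complex.norm_real, Real.norm_of_nonneg (by linarith)]
  have hpL : p ∈ Lᶜ := hLR p (by rw [hpn]; linarith)
  obtain ⟨C, hC⟩ : ∃ C, C = connectedComponentIn Lᶜ p := ⟨_, rfl⟩
  have hpC : p ∈ C := by rw [hC]; exact mem_connectedComponentIn hpL
  have hCo : IsOpen C := by rw [hC]; exact hLo.connectedComponentIn
  have hCc : IsConnected C := by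
    rw [hC]
    exact isConnected_connectedComponentIn_iff.2 hpL
  have hCL : C ⊆ Lᶜ := by rw [hC]; exact connectedComponentIn_subset _ _
  have hout : {z : ℂ | R < ‖z‖} ⊆ C := by
    rw [hC]
    refine IsPreconnected.subset_connectedComponentIn ?_ (by rw [mem_ofPred_eq, hpn]; linarith)
      (fun z hz => hLR z hz)
    have : {z : ℂ | R < ‖z‖} = (fun q : ℝ × ℝ => ((q.1 : ℝ) : ℂ) * Complex.exp (q.2 * Complex.I)) ''
        (Ioi R ×ˢ univ) := by
      ext z
      simp only [mem_ofPred_eq, mem_image, mem_prod, mem_Ioi, mem_univ, and_true, Prod.exists]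
      constructor
      · intro hz
        exact ⟨‖z‖, z.arg, hz, Complex.norm_mul_exp_arg_mul_I z⟩
      · rintro ⟨r, t, hr, rfl⟩
        have h0 : 0 < r := hRpos.trans hr
        rw [norm_mul, Complex.norm_real, Real.norm_of_nonneg h0.le, Complex.norm_exp_ofReal_mul_I,
          mul_one]
        exact hr
    rw [this]
    refine (isPreconnected_Ioi.prod isPreconnected_univ).image _ ?_
    exact Continuous.continuousOn (by fun_prop)
  have hbound : Cᶜ ⊆ Metric.closedBall 0 R := by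
    intro z hz
    rw [mem_closedBall_zero_iff]
    by_contra hcon
    push Not at hcon
    exact hz (hout hcon)
  have hcomp : IsCompact Cᶜ :=
    (isCompact_closedBall (0 : ℂ) R).of_isClosed_subset hCo.isClosed_compl hbound
  refine ⟨Cᶜ, ?_, subset_compl_comm.1 hCL, hcomp, by rw [compl_compl]; exact hCc⟩
  intro z hz
  by_contra hzU
  -- the two relatively open pieces
  let i : ℂ → OnePoint ℂ := fun z => (z : OnePoint ℂ)
  have hio : IsOpenEmbedding i := OnePoint.isOpenEmbedding_coe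
  have hO1 : IsOpen (i '' Cᶜ)ᶜ := by
    apply IsClosed.isOpen_compl (self := ?_)
    exact (hcomp.image hio.continuous).isClosed
  have hO2 : IsOpen (i '' (Lᶜ \ C)) := by
    apply hio.isOpenMap
    rw [isOpen_iff_mem_nhds]
    intro y hy
    have h1 : connectedComponentIn Lᶜ y ∈ 𝓝 y :=
      hLo.connectedComponentIn.mem_nhds (mem_connectedComponentIn hy.1)
    refine mem_of_superset h1 fun w hw => ⟨connectedComponentIn_subset _ _ hw, fun hwC => ?_⟩
    apply hy.2
    rw [hC] at hwC ⊢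
    rw [connectedComponentIn_eq hwC, ← connectedComponentIn_eq hw]
    exact mem_connectedComponentIn hy.1
  have hcov : (i '' U)ᶜ ⊆ (i '' Cᶜ)ᶜ ∪ i '' (Lᶜ \ C) := by
    intro y hy
    by_cases h1 : y ∈ i '' Cᶜ
    · right
      obtain ⟨w, hw, rfl⟩ := h1
      refine ⟨w, ⟨fun hwL => hy ⟨w, hLU hwL, rfl⟩, hw⟩, rfl⟩
    · exact Or.inl h1
  have hdisj : Disjoint (i '' Cᶜ)ᶜ (i '' (Lᶜ \ C)) := by
    rw [Set.disjoint_left]
    rintro _ h1 ⟨w, hw, rfl⟩
    exact h1 ⟨w, hw.2, rfl⟩
  have hz1 : i z ∈ (i '' U)ᶜ := by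
    rintro ⟨w, hw, hwz⟩
    have : w = z := OnePoint.coe_injective hwz
    exact hzU (this ▸ hw)
  have hinf : (OnePoint.infty : OnePoint ℂ) ∈ (i '' U)ᶜ := by
    rintro ⟨w, hw, hwz⟩
    exact OnePoint.coe_ne_infty w hwz
  have hsub := hS.subset_left_of_subset_union hO1 hO2 hdisj hcov
    ⟨OnePoint.infty, hinf, fun ⟨w, _, hw⟩ => OnePoint.coe_ne_infty w hw⟩
  exact hsub hz1 ⟨z, hz, rfl⟩

open Classical in
/-- inversion of the sphere -/
def sinv (z : OnePoint ℂ) : OnePoint ℂ :=
  z.elim ((0 : ℂ) : OnePoint ℂ)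
    (fun w : ℂ => if w = 0 then OnePoint.infty else ((w⁻¹ : ℂ) : OnePoint ℂ))

theorem sinv_infty : sinv OnePoint.infty = ((0 : ℂ) : OnePoint ℂ) := rfl

theorem sinv_zero : sinv ((0 : ℂ) : OnePoint ℂ) = OnePoint.infty := if_pos rfl

theorem sinv_coe {w : ℂ} (hw : w ≠ 0) : sinv (w : OnePoint ℂ) = ((w⁻¹ : ℂ) : OnePoint ℂ) :=
  if_neg hw

theorem sinv_sinv (z : OnePoint ℂ) : sinv (sinv z) = z := by
  induction z using OnePoint.rec with
  | infty => rw [sinv_infty, sinv_zero]
  | coe w =>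
    by_cases hw : w = 0
    · rw [hw, sinv_zero, sinv_infty]
    · rw [sinv_coe hw, sinv_coe (inv_ne_zero hw), inv_inv]

theorem continuous_sinv : Continuous sinv := by
  rw [continuous_iff_continuousAt]
  intro z
  induction z using OnePoint.rec with
  | infty =>
    rw [OnePoint.continuousAt_infty', sinv_infty]
    have h1 : Tendsto (fun w : ℂ => w⁻¹) (coclosedCompact ℂ) (𝓝 0) := by
      rw [Filter.coclosedCompact_eq_cocompact, ← Metric.cobounded_eq_cocompact]
      exact tendsto_inv₀_cobounded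
    have h2 : Tendsto (fun w : ℂ => ((w⁻¹ : ℂ) : OnePoint ℂ)) (coclosedCompact ℂ)
        (𝓝 ((0 : ℂ) : OnePoint ℂ)) :=
      (OnePoint.continuous_coe.tendsto (0 : ℂ)).comp h1
    refine h2.congr' ?_
    have h3 : ∀ᶠ w : ℂ in coclosedCompact ℂ, w ≠ 0 := by
      rw [Filter.coclosedCompact_eq_cocompact]
      exact (isCompact_singleton (x := (0 : ℂ))).compl_mem_cocompact
    filter_upwards [h3] with w hw
    exact (sinv_coe hw).symm
  | coe w =>
    rw [OnePoint.continuousAt_coe]
    by_cases hw : w = 0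
    · subst hw
      rw [ContinuousAt]
      simp only [Function.comp_apply, sinv_zero]
      rw [← nhdsNE_sup_pure, tendsto_sup]
      constructor
      · have h1 : Tendsto (fun w : ℂ => w⁻¹) (𝓝[≠] 0) (coclosedCompact ℂ) := by
          rw [Filter.coclosedCompact_eq_cocompact, ← Metric.cobounded_eq_cocompact]
          exact tendsto_inv₀_nhdsNE_zero
        have h2 : Tendsto (fun w : ℂ => ((w⁻¹ : ℂ) : OnePoint ℂ)) (𝓝[≠] 0)
            (𝓝 OnePoint.infty) :=
          OnePoint.tendsto_coe_infty.comp h1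
        refine h2.congr' ?_
        filter_upwards [self_mem_nhdsWithin] with w hw
        exact (sinv_coe hw).symm
      · rw [tendsto_pure_left]
        intro s hs
        rw [Function.comp_apply, sinv_zero]
        exact mem_of_mem_nhds hs
    · have hev : (sinv ∘ fun w : ℂ => (w : OnePoint ℂ)) =ᶠ[𝓝 w]
          fun w => ((w⁻¹ : ℂ) : OnePoint ℂ) := by
        filter_upwards [isOpen_ne.mem_nhds hw] with y hy
        exact sinv_coe hy
      refine ContinuousAt.congr ?_ hev.symm
      exact OnePoint.continuous_coe.continuousAt.comp (continuousAt_inv₀ hw)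

/-- inversion as a homeomorphism of the sphere -/
def sinvHomeo : OnePoint ℂ ≃ₜ OnePoint ℂ where
  toFun := sinv
  invFun := sinv
  left_inv := sinv_sinv
  right_inv := sinv_sinv
  continuous_toFun := continuous_sinv
  continuous_invFun := continuous_sinv

end Pool.Agent.Helper984_CP
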