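import Pool.Agent.Helper984_CP.InvC
import Pool.Agent.Helper984_CP.Sph

/-!
# Commuting pairs which preserve an exterior domain
-/

set_option autoImplicit false

open Set Filter Topology

noncomputable section

namespace Pool.Agent.Helper984_CP

/-- paths of commuting homeomorphisms fixing the origin, conjugated by the inversion -/
theorem joined_inv0 {k : ℤ} (P Q : C(unitInterval × ℂ, ℂ)) (hP : ∀ s, IsHomeo (slice P s))
    (hQ : ∀ s, IsHomeo (slice Q s)) (hP0 : ∀ s, P (s, 0) = 0) (hQ0 : ∀ s, Q (s, 0) = 0)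
    (hc : ∀ s x, P (s, Q (s, x)) = Q (s, P (s, x)))
    (h0 : (slice (inv0C P hP hP0) 0, slice (inv0C Q hQ hQ0) 0) ∈ HomK k) :
    JoinedIn (HomK k) (slice (inv0C P hP hP0) 0, slice (inv0C Q hQ hQ0) 0)
      (slice (inv0C P hP hP0) 1, slice (inv0C Q hQ hQ0) 1) := by
  refine HomK_joined _ _ (slice_inv0C_homeo P hP hP0) (slice_inv0C_homeo Q hQ hQ0) ?_ h0
  intro s x
  rw [inv0C_apply, inv0C_apply, inv0C_apply, inv0C_apply, inv_inv, inv_inv, hc]

theorem squeezeC_slice_homeo {F Fi : ℂ → ℂ} (hF : DiscMap F) (hFi : DiscMap Fi)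
    (h1 : ∀ z, ‖z‖ ≤ 1 → F (Fi z) = z) (h2 : ∀ z, ‖z‖ ≤ 1 → Fi (F z) = z) (s : unitInterval) :
    IsHomeo (slice (squeezeC F hF) s) :=
  ⟨slice (squeezeC Fi hFi) s, fun z => by
      simp only [slice_apply, squeezeC_apply]
      exact squeeze_inv hFi h1 (unitInterval.symm s).2.1 (unitInterval.symm s).2.2 z, fun z => by
      simp only [slice_apply, squeezeC_apply]
      exact squeeze_inv hF h2 (unitInterval.symm s).2.1 (unitInterval.symm s).2.2 z⟩

theorem radialC_slice_homeo {F Fi : ℂ → ℂ} (hF : DiscMap F) (hFi : DiscMap Fi)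
    (h1 : ∀ z, ‖z‖ ≤ 1 → F (Fi z) = z) (h2 : ∀ z, ‖z‖ ≤ 1 → Fi (F z) = z) (s : unitInterval) :
    IsHomeo (slice (radialC F hF) s) :=
  ⟨slice (radialC Fi hFi) s, fun z => by
      simp only [slice_apply, radialC_apply]
      exact radial_inv hFi h1 (unitInterval.symm s).2.1 z, fun z => by
      simp only [slice_apply, radialC_apply]
      exact radial_inv hF h2 (unitInterval.symm s).2.1 z⟩

theorem radial_zero {F : ℂ → ℂ} (h0 : F 0 = 0) (τ : ℝ) : radial F τ 0 = 0 := by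
  simp [radial, h0]

theorem squeezeC_zero {F : ℂ → ℂ} (hF : DiscMap F) (h0 : F 0 = 0) (s : unitInterval) :
    squeezeC F hF (s, 0) = 0 := by
  rw [squeezeC_apply, squeeze, zero_div, radial_zero h0, zero_div]

theorem radialC_zero {F : ℂ → ℂ} (hF : DiscMap F) (h0 : F 0 = 0) (s : unitInterval) :
    radialC F hF (s, 0) = 0 := by
  rw [radialC_apply, radial_zero h0]

/-- inverted version of `disc_joined` -/
theorem disc_joined_inv {k : ℤ} {F Fi G Gi : ℂ → ℂ} (hF : DiscMap F) (hFi : DiscMap Fi)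
    (hG : DiscMap G) (hGi : DiscMap Gi) (h1 : ∀ z, ‖z‖ ≤ 1 → F (Fi z) = z)
    (h2 : ∀ z, ‖z‖ ≤ 1 → Fi (F z) = z) (h3 : ∀ z, ‖z‖ ≤ 1 → G (Gi z) = z)
    (h4 : ∀ z, ‖z‖ ≤ 1 → Gi (G z) = z) (hc : ∀ z, ‖z‖ ≤ 1 → F (G z) = G (F z))
    (hF0 : F 0 = 0) (hG0 : G 0 = 0)
    {A B : C(ℂ, ℂ)} (hA : ∀ z, A z = (ofDisc (F (toDisc z⁻¹)))⁻¹)
    (hB : ∀ z, B z = (ofDisc (G (toDisc z⁻¹)))⁻¹) (hp : (A, B) ∈ HomK k) :
    JoinedIn (HomK k) (A, B) (ContinuousMap.id ℂ, ContinuousMap.id ℂ) := by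
  have r1 : ∀ (F : ℂ → ℂ) (z : ℂ), ‖z‖ < 1 → radial F 1 z = F z := by
    intro F z hz
    rw [radial, max_eq_left hz.le]
    simp
  have e0 : ∀ (F : ℂ → ℂ) (hF : DiscMap F) (hP : ∀ s, IsHomeo (slice (squeezeC F hF) s))
      (h0 : ∀ s, squeezeC F hF (s, 0) = 0) (A : C(ℂ, ℂ)),
      (∀ z, A z = (ofDisc (F (toDisc z⁻¹)))⁻¹) → slice (inv0C (squeezeC F hF) hP h0) 0 = A := by
    intro F hF hP h0 A hA
    ext z
    rw [slice_apply, inv0C_apply, squeezeC_apply, hA]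
    simp only [unitInterval.symm_zero, Icc.coe_one, squeeze, one_mul]
    have := norm_toDisc_lt z⁻¹
    rw [toDisc] at this
    rw [r1 F _ this]
    rfl
  have hPF := squeezeC_slice_homeo hF hFi h1 h2
  have hPG := squeezeC_slice_homeo hG hGi h3 h4
  have j1 := joined_inv0 (k := k) (squeezeC F hF) (squeezeC G hG) hPF hPG
    (squeezeC_zero hF hF0) (squeezeC_zero hG hG0)
    (fun s z => by
      rw [squeezeC_apply, squeezeC_apply, squeezeC_apply, squeezeC_apply,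
        squeeze_comp hG (unitInterval.symm s).2.1 (unitInterval.symm s).2.2,
        squeeze_comp hF (unitInterval.symm s).2.1 (unitInterval.symm s).2.2,
        radial_comp F hG, radial_comp G hF, hc _ (norm_div_max_le zero_le_one _)])
    (by rw [e0 F hF _ _ A hA, e0 G hG _ _ B hB]; exact hp)
  rw [e0 F hF _ _ A hA, e0 G hG _ _ B hB] at j1
  -- second path
  have e1 : ∀ (F : ℂ → ℂ) (hF : DiscMap F) (hP : ∀ s, IsHomeo (slice (squeezeC F hF) s))
      (h0 : ∀ s, squeezeC F hF (s, 0) = 0) (hP' : ∀ s, IsHomeo (slice (radialC F hF) s))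
      (h0' : ∀ s, radialC F hF (s, 0) = 0),
      slice (inv0C (squeezeC F hF) hP h0) 1 = slice (inv0C (radialC F hF) hP' h0') 0 := by
    intro F hF hP h0 hP' h0'
    ext z
    rw [slice_apply, slice_apply, inv0C_apply, inv0C_apply, squeezeC_apply, radialC_apply]
    simp [squeeze]
  have hRF := radialC_slice_homeo hF hFi h1 h2
  have hRG := radialC_slice_homeo hG hGi h3 h4
  have j2 := joined_inv0 (k := k) (radialC F hF) (radialC G hG) hRF hRG
    (radialC_zero hF hF0) (radialC_zero hG hG0)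
    (fun s z => by
      rw [radialC_apply, radialC_apply, radialC_apply, radialC_apply, radial_comp F hG,
        radial_comp G hF,
        hc _ (norm_div_max_le (unitInterval.symm s).2.1 _)])
    (by
      rw [← e1 F hF hPF (squeezeC_zero hF hF0), ← e1 G hG hPG (squeezeC_zero hG hG0)]
      exact j1.target_mem)
  rw [← e1 F hF hPF (squeezeC_zero hF hF0), ← e1 G hG hPG (squeezeC_zero hG hG0)] at j2
  -- the endpoint is a pair of cones
  have hn : ∀ (F : ℂ → ℂ) (hF : DiscMap F) (hP' : ∀ s, IsHomeo (slice (radialC F hF) s))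
      (h0' : ∀ s, radialC F hF (s, 0) = 0) z, ‖slice (inv0C (radialC F hF) hP' h0') 1 z‖ = ‖z‖ := by
    intro F hF hP' h0' z
    rw [slice_apply, inv0C_apply, radialC_apply]
    simp only [unitInterval.symm_one, Icc.coe_zero]
    rw [norm_inv, norm_radial_eq hF (norm_nonneg _), norm_inv, inv_inv]
  have hhom : ∀ (F : ℂ → ℂ) (hF : DiscMap F) (hP' : ∀ s, IsHomeo (slice (radialC F hF) s))
      (h0' : ∀ s, radialC F hF (s, 0) = 0) (r : ℝ) (z : ℂ), 0 < r →
      slice (inv0C (radialC F hF) hP' h0') 1 (r * z) =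
        r * slice (inv0C (radialC F hF) hP' h0') 1 z := by
    intro F hF hP' h0' r z hr
    rw [slice_apply, slice_apply, inv0C_apply, inv0C_apply, radialC_apply, radialC_apply]
    simp only [unitInterval.symm_one, Icc.coe_zero, radial]
    have hr' : (r : ℂ) ≠ 0 := by exact_mod_cast hr.ne'
    have e4 : max 0 ‖((r : ℂ) * z)⁻¹‖ = r⁻¹ * ‖z‖⁻¹ := by
      rw [norm_inv, norm_mul, Complex.norm_real, Real.norm_of_nonneg hr.le, mul_inv]
      exact max_eq_right (by positivity)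
    have e5 : max 0 ‖z⁻¹‖ = ‖z‖⁻¹ := by
      rw [norm_inv]
      exact max_eq_right (by positivity)
    have e3 : (r : ℂ)⁻¹ * z⁻¹ / ((r⁻¹ * ‖z‖⁻¹ : ℝ) : ℂ) = z⁻¹ / ((‖z‖⁻¹ : ℝ) : ℂ) := by
      rw [Complex.ofReal_mul, Complex.ofReal_inv r]
      exact mul_div_mul_left _ _ (inv_ne_zero hr')
    rw [e4, e5, mul_inv (r : ℂ) z, e3]
    push_cast
    rw [mul_inv, mul_inv, mul_inv, inv_inv, inv_inv]
    ring
  have j3 := cone_joined (hn F hF hRF (radialC_zero hF hF0)) (hn G hG hRG (radialC_zero hG hG0))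
    (hhom F hF hRF (radialC_zero hF hF0)) (hhom G hG hRG (radialC_zero hG hG0))
    (by
      have := j2.target_mem
      exact this)
  exact (j1.trans j2).trans j3

open Classical in
/-- the inversion conjugate on the inverted domain -/
def hatF (f : ℂ → ℂ) (v : ℂ) : ℂ := if v = 0 then 0 else (f v⁻¹)⁻¹

theorem hatF_zero (f : ℂ → ℂ) : hatF f 0 = 0 := if_pos rfl

theorem hatF_of_ne (f : ℂ → ℂ) {v : ℂ} (hv : v ≠ 0) : hatF f v = (f v⁻¹)⁻¹ := if_neg hv

/-- the inverted domain -/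
def hatU (U : Set ℂ) : Set ℂ := {v : ℂ | v = 0 ∨ v⁻¹ ∈ U}

theorem zero_mem_hatU (U : Set ℂ) : (0 : ℂ) ∈ hatU U := Or.inl rfl

theorem hatU_of_ne {U : Set ℂ} {v : ℂ} (hv : v ≠ 0) : v ∈ hatU U ↔ v⁻¹ ∈ U :=
  ⟨fun h => h.resolve_left hv, fun h => Or.inr h⟩

theorem hatF_ne {f : ℂ → ℂ} {U : Set ℂ} (h0 : (0 : ℂ) ∉ U) (hf : ∀ x ∈ U, f x ∈ U) {v : ℂ}
    (hv : v ∈ hatU U) (hv0 : v ≠ 0) : hatF f v ≠ 0 := by
  rw [hatF_of_ne f hv0]
  have h1 := hf _ ((hatU_of_ne hv0).1 hv)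
  intro h
  rw [inv_eq_zero] at h
  exact h0 (h ▸ h1)

theorem hatF_maps {f : ℂ → ℂ} {U : Set ℂ} (hf : ∀ x ∈ U, f x ∈ U) {v : ℂ}
    (hv : v ∈ hatU U) : hatF f v ∈ hatU U := by
  by_cases hv0 : v = 0
  · rw [hv0, hatF_zero]; exact zero_mem_hatU U
  · rw [hatF_of_ne f hv0]
    right
    rw [inv_inv]
    exact hf _ ((hatU_of_ne hv0).1 hv)

theorem hatF_comp {f g : ℂ → ℂ} {U : Set ℂ} (h0 : (0 : ℂ) ∉ U) (hg : ∀ x ∈ U, g x ∈ U) {v : ℂ}
    (hv : v ∈ hatU U) : hatF f (hatF g v) = hatF (fun x => f (g x)) v := by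
  by_cases hv0 : v = 0
  · rw [hv0, hatF_zero, hatF_zero, hatF_zero]
  · rw [hatF_of_ne f (hatF_ne h0 hg hv hv0), hatF_of_ne g hv0, hatF_of_ne _ hv0, inv_inv]

theorem hatF_id {v : ℂ} : hatF (fun x => x) v = v := by
  by_cases hv0 : v = 0
  · rw [hv0, hatF_zero]
  · rw [hatF_of_ne _ hv0, inv_inv]

theorem hatF_congr {f g : ℂ → ℂ} (h : ∀ x, f x = g x) (v : ℂ) : hatF f v = hatF g v := by
  have : f = g := funext h
  rw [this]

theorem continuousOn_hatF {f fi : C(ℂ, ℂ)} (h2 : ∀ x, fi (f x) = x) {U : Set ℂ}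
    (h0 : (0 : ℂ) ∉ U) (hf : ∀ x ∈ U, f x ∈ U) : ContinuousOn (hatF f) (hatU U) := by
  intro v hv
  by_cases hv0 : v = 0
  · subst hv0
    apply ContinuousAt.continuousWithinAt
    rw [Metric.continuousAt_iff]
    intro ε hε
    obtain ⟨M, hM⟩ := (isCompact_closedBall (0 : ℂ) (1 / ε)).exists_bound_of_continuousOn
      fi.continuous.continuousOn
    have hM0 : 0 ≤ M := (norm_nonneg _).trans (hM 0 (by simp; positivity))
    refine ⟨1 / (M + 1), by positivity, fun z hz => ?_⟩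
    rw [dist_zero_right] at hz
    rw [hatF_zero, dist_zero_right]
    by_cases hz0 : z = 0
    · rw [hz0, hatF_zero, norm_zero]; exact hε
    · rw [hatF_of_ne _ hz0, norm_inv]
      have hzp : 0 < ‖z‖ := norm_pos_iff.2 hz0
      have hbig : M + 1 < ‖z⁻¹‖ := by
        rw [norm_inv, lt_inv_comm₀ (by positivity) hzp]
        rwa [one_div] at hz
      have h3 : 1 / ε < ‖f z⁻¹‖ := by
        by_contra hcon
        push Not at hcon
        have := hM (f z⁻¹) (mem_closedBall_zero_iff.2 hcon)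
        rw [h2] at this
        linarith
      rw [div_lt_iff₀ hε] at h3
      have h4 : 0 < ‖f z⁻¹‖ := by
        by_contra hcon
        push Not at hcon
        have : ‖f z⁻¹‖ = 0 := le_antisymm hcon (norm_nonneg _)
        rw [this] at h3
        linarith
      rw [inv_lt_iff_one_lt_mul₀ h4, mul_comm]
      exact h3
  · apply ContinuousAt.continuousWithinAt
    have hev : hatF f =ᶠ[𝓝 v] fun v => (f v⁻¹)⁻¹ := by
      filter_upwards [isOpen_ne.mem_nhds hv0] with y hy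
      exact hatF_of_ne f hy
    refine ContinuousAt.congr ?_ hev.symm
    apply ContinuousAt.inv₀
    · exact f.continuous.continuousAt.comp (continuousAt_inv₀ hv0)
    · intro h
      have h1 := hf _ ((hatU_of_ne hv0).1 hv)
      exact h0 (h ▸ h1)

theorem smallMap_hatF {f fi : C(ℂ, ℂ)} (h2 : ∀ x, fi (f x) = x) {U : Set ℂ}
    (h0 : (0 : ℂ) ∉ U) (hf : ∀ x ∈ U, f x ∈ U) : SmallMap (hatF f) (hatU U) := by
  refine SmallMap.insert_point ?_ ((continuousOn_hatF h2 h0 hf) 0 (zero_mem_hatU U))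
  have s1 : SmallMap (fun z : ℂ => z⁻¹) (hatU U \ {0}) := by
    intro ε hε
    obtain ⟨ε1, hε1, H⟩ := smallMap_inv ε hε
    exact ⟨ε1, hε1, fun A hA hs => H A (fun z hz => (hA hz).2) hs⟩
  have s2 : SmallMap f U := smallMap_of_homeo h2 U
  have s3 : SmallMap (fun z : ℂ => z⁻¹) U := by
    intro ε hε
    obtain ⟨ε1, hε1, H⟩ := smallMap_inv ε hε
    exact ⟨ε1, hε1, fun A hA hs => H A (fun z hz h => h0 (h ▸ hA hz)) hs⟩
  have m1 : MapsTo (fun z : ℂ => z⁻¹) (hatU U \ {0}) U := by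
    rintro z ⟨hz, hz0⟩
    exact (hatU_of_ne hz0).1 hz
  have s4 := (s3.comp s2 (fun z hz => hf z hz)).comp s1 m1
  intro ε hε
  obtain ⟨ε1, hε1, H⟩ := s4 ε hε
  refine ⟨ε1, hε1, fun A hA hs => ?_⟩
  have h5 := H A hA hs
  have h6 : hatF f '' A = (fun z => (f z⁻¹)⁻¹) '' A := by
    refine image_congr fun z hz => ?_
    exact hatF_of_ne f (hA hz).2
  rw [h6]
  exact h5

end Pool.Agent.Helper984_CP
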