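import Pool.Agent.Helper984_CP.SphInv

/-!
# Commuting pairs which preserve a complementary domain of a continuum of the sphere, second part
-/

set_option autoImplicit false

open Set Topology Filter

noncomputable section

namespace Pool.Agent.Helper984_CP

instance instLocConnSph : LocallyConnectedSpace (OnePoint ℂ) := by
  have hio : IsOpenEmbedding (fun z : ℂ => (z : OnePoint ℂ)) := OnePoint.isOpenEmbedding_coe
  rw [locallyConnectedSpace_iff_subsets_isOpen_isConnected]
  have key : ∀ (z : ℂ), ∀ U ∈ 𝓝 (z : OnePoint ℂ), ∃ V ⊆ U, IsOpen V ∧ (z : OnePoint ℂ) ∈ V ∧ IsConnected V := by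
    intro z U hU
    have h1 : (fun z : ℂ => (z : OnePoint ℂ)) ⁻¹' U ∈ 𝓝 z := hio.continuous.continuousAt hU
    obtain ⟨r, hr, hsub⟩ := Metric.mem_nhds_iff.1 h1
    refine ⟨(fun z : ℂ => (z : OnePoint ℂ)) '' Metric.ball z r, ?_, hio.isOpenMap _ Metric.isOpen_ball,
      ⟨z, Metric.mem_ball_self hr, rfl⟩, ?_⟩
    · rintro _ ⟨w, hw, rfl⟩
      exact hsub hw
    · refine ⟨⟨_, ⟨z, Metric.mem_ball_self hr, rfl⟩⟩, ?_⟩
      exact (convex_ball z r).isPreconnected.image _ hio.continuous.continuousOn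
  intro x U hU
  induction x using OnePoint.rec with
  | coe z => exact key z U hU
  | infty =>
    have h1 : sinvHomeo ⁻¹' U ∈ 𝓝 ((0 : ℂ) : OnePoint ℂ) := by
      apply sinvHomeo.continuous.continuousAt
      exact (show sinvHomeo ((0 : ℂ) : OnePoint ℂ) = OnePoint.infty from sinv_zero) ▸ hU
    obtain ⟨V, hVU, hVo, hV0, hVc⟩ := key 0 _ h1
    refine ⟨sinvHomeo '' V, ?_, sinvHomeo.isOpenMap _ hVo, ⟨_, hV0, sinv_zero⟩, ?_⟩
    · rintro _ ⟨w, hw, rfl⟩
      exact hVU hw
    · exact ⟨hVc.nonempty.image _, hVc.isPreconnected.image _ sinvHomeo.continuous.continuousOn⟩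

/-- the theorem for complementary domains of continua -/
theorem continuum_inv {k : ℤ} {p : C(ℂ, ℂ) × C(ℂ, ℂ)} (hp : p ∈ HomK k) {K : Set (OnePoint ℂ)}
    (hK : IsClosed K) (hKc : IsConnected K) (hKn : K.Nontrivial) {x : OnePoint ℂ} (hx : x ∉ K)
    (h1 : OnePoint.map p.1 '' connectedComponentIn Kᶜ x = connectedComponentIn Kᶜ x)
    (h2 : OnePoint.map p.2 '' connectedComponentIn Kᶜ x = connectedComponentIn Kᶜ x) :
    k = 0 ∧ p ∈ connectedComponentIn (HomK 0) (ContinuousMap.id ℂ, ContinuousMap.id ℂ) := by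
  have hWo : IsOpen (connectedComponentIn Kᶜ x) := hK.isOpen_compl.connectedComponentIn
  refine sphere_inv hp hWo (isConnected_connectedComponentIn_iff.2 hx)
    (compl_component_preconnected hKc.isPreconnected hx hWo) (hKn.mono ?_) h1 h2
  exact subset_compl_comm.1 (connectedComponentIn_subset _ _)

end Pool.Agent.Helper984_CP
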