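import Pool.Agent.Helper984_CP.Move

/-!
# Pairs one of whose primitive elements is conjugate to a contraction
-/

set_option autoImplicit false

open Set Filter Topology Complex ComplexConjugate

noncomputable section

namespace Pool.Agent.Helper984_CP

/-- the standard map as a homeomorphism -/
def stdH (α : ℂ) (a : ℝ) : ℂ ≃ₜ ℂ where
  toFun := stdC α a
  invFun := stdC (-α + I * ((a * α.re : ℝ) : ℂ)) (-a)
  left_inv := std_inv_left α a
  right_inv := std_inv_right α a
  continuous_toFun := (stdC α a).continuous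
  continuous_invFun := (stdC (-α + I * ((a * α.re : ℝ) : ℂ)) (-a)).continuous

theorem toC_stdH (α : ℂ) (a : ℝ) : toC (stdH α a) = stdC α a := rfl

/-- a homeomorphism topologically conjugate to `z ↦ z / 2` -/
def ConjContr (F : ℂ ≃ₜ ℂ) : Prop := ∃ H : ℂ ≃ₜ ℂ, ∀ z, F (H z) = H (z / 2)

theorem conj_isoId {F : ℂ ≃ₜ ℂ} (h : ConjContr F) :
    ∃ H : ℂ ≃ₜ ℂ, IsoId (toC H) ∧ ∀ z, F (H z) = H (z / 2) := by
  obtain ⟨H, hH⟩ := h
  rcases kneser (isHomeo_toC H) with h1 | h1
  · exact ⟨H, h1, hH⟩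
  · let J : ℂ ≃ₜ ℂ := ⟨⟨fun z => conj z, fun z => conj z, fun z => Complex.conj_conj z,
      fun z => Complex.conj_conj z⟩, Complex.continuous_conj, Complex.continuous_conj⟩
    refine ⟨H * J, h1, fun z => ?_⟩
    change F (H (conj z)) = H (conj (z / 2))
    have e : conj (z / 2) = conj z / 2 := by
      have h2 : ((2 : ℝ) : ℂ) = 2 := by norm_num
      rw [map_div₀ (starRingEnd ℂ), ← h2, Complex.conj_ofReal]
    rw [hH, e]

theorem PK_std {α β : ℂ} {a b : ℝ} {k : ℤ} (h : a * β.re - b * α.re = 2 * Real.pi * k) :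
    PK k (stdH α a) (stdH β b) := std_mem h

/-- the twist parameter of the standard pair -/
def bk (k : ℤ) : ℝ := -(2 * Real.pi * k / lam)

theorem bk_rel (k : ℤ) : -(bk k * lam) = 2 * Real.pi * k := by
  rw [bk, neg_mul, neg_neg, div_mul_cancel₀ _ lam_neg.ne]

theorem PK_base (k : ℤ) : PK k (stdH lam 0) (stdH 0 (bk k)) := by
  apply PK_std
  have := bk_rel k
  simp only [Complex.zero_re, mul_zero, Complex.ofReal_re]
  linarith

/-- every pair whose first element is conjugate to the contraction is joined to the standard pair -/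
theorem base_joined {k : ℤ} {F G : ℂ ≃ₜ ℂ} (h : PK k F G) (hF : ConjContr F) :
    JK k F G (stdH lam 0) (stdH 0 (bk k)) := by
  obtain ⟨H, hH, hc⟩ := conj_isoId hF
  have hHi : IsoId (toC H⁻¹) := hH.inv (apply_inv_self' H)
  have j := HomK_conj h hHi (hi := toC H) (apply_inv_self' H)
  have e1 : (toC H⁻¹).comp ((toC F).comp (toC H)) = Dc := by
    ext z
    simp only [ContinuousMap.comp_apply, toC_apply]
    rw [hc, inv_apply_self', Dc_apply]
    push_cast
    ring
  simp only at j
  rw [e1] at j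
  have j2 := torus_joined j.target_mem
  rw [Dc_eq] at j j2
  exact j.trans j2

theorem std_T (k : ℤ) :
    JK k (stdH lam 0) (stdH 0 (bk k) * stdH lam 0) (stdH lam 0) (stdH 0 (bk k)) := by
  apply base_joined (PK_base k).T
  refine ⟨1, fun z => ?_⟩
  change stdFun lam 0 z = z / 2
  have : stdC lam 0 z = Dc z := by rw [Dc_eq]
  rw [stdC_apply, Dc_apply] at this
  rw [this]
  push_cast
  ring

theorem std_S (k : ℤ) :
    JK k (stdH 0 (bk k))⁻¹ (stdH lam 0) (stdH lam 0) (stdH 0 (bk k)) := by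
  obtain ⟨b, hb⟩ : ∃ b, b = bk k := ⟨_, rfl⟩
  have hbk := bk_rel k
  rw [← hb] at hbk ⊢
  let th : C(unitInterval, ℝ) := ⟨fun s => (s : ℝ) * (Real.pi / 2), by fun_prop⟩
  have th0 : th 0 = 0 := by simp [th]
  have th1 : th 1 = Real.pi / 2 := by simp [th]
  let α : C(unitInterval, ℂ) := ⟨fun s => ((lam * Real.cos (th s) : ℝ) : ℂ), by fun_prop⟩
  let β : C(unitInterval, ℂ) := ⟨fun s => ((lam * Real.sin (th s) : ℝ) : ℂ), by fun_prop⟩
  let a : C(unitInterval, ℝ) := ⟨fun s => -(b * Real.sin (th s)), by fun_prop⟩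
  let b' : C(unitInterval, ℝ) := ⟨fun s => b * Real.cos (th s), by fun_prop⟩
  have j := std_joined (α := α) (β := β) (a := a) (b := b') (k := k) (fun s => by
    have h1 : (β s).re = lam * Real.sin (th s) := Complex.ofReal_re _
    have h2 : (α s).re = lam * Real.cos (th s) := Complex.ofReal_re _
    have h3 : a s = -(b * Real.sin (th s)) := rfl
    have h4 : b' s = b * Real.cos (th s) := rfl
    rw [h1, h2, h3, h4]
    have h5 := Real.sin_sq_add_cos_sq (th s)
    linear_combination (-(b * lam)) * h5 + hbk)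
  have a0 : α 0 = ((lam : ℝ) : ℂ) := by simp [α, th0]
  have a1 : α 1 = 0 := by simp [α, th1]
  have b0 : β 0 = 0 := by simp [β, th0]
  have b1 : β 1 = ((lam : ℝ) : ℂ) := by simp [β, th1]
  have c0 : a 0 = 0 := by simp [a, th0]
  have c1 : a 1 = -b := by simp [a, th1]
  have d0 : b' 0 = b := by simp [b', th0]
  have d1 : b' 1 = 0 := by simp [b', th1]
  rw [a0, a1, b0, b1, c0, c1, d0, d1] at j
  have e : toC (stdH 0 b)⁻¹ = stdC 0 (-b) := by
    ext z
    change stdFun (-0 + I * ((b * (0 : ℂ).re : ℝ) : ℂ)) (-b) z = stdFun 0 (-b) z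
    simp
  have j' := j.symm
  rw [← e] at j'
  exact j'

/-- all pairs with a primitive element conjugate to the contraction are joined to the standard
pair -/
theorem contr_joined {k : ℤ} {F G : ℂ ≃ₜ ℂ} (h : PK k F G) {a b : ℤ} (hab : IsCoprime a b)
    (hc : ConjContr (F ^ a * G ^ b)) : JK k F G (stdH lam 0) (stdH 0 (bk k)) :=
  primitive_induction (X := ConjContr) (fun _ _ h1 h2 => base_joined h1 h2) (std_T k) (std_S k)
    a b hab F G h hc

/-- for Euler number zero the standard pair is joined to the trivial pair -/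
theorem std_zero : JoinedIn (HomK 0) (toC (stdH lam 0), toC (stdH 0 (bk 0)))
    (ContinuousMap.id ℂ, ContinuousMap.id ℂ) := by
  have hb : bk 0 = 0 := by simp [bk]
  let α : C(unitInterval, ℂ) := ⟨fun s => ((lam * (1 - (s : ℝ)) : ℝ) : ℂ), by fun_prop⟩
  have j := std_joined (α := α) (β := 0) (a := 0) (b := 0) (k := 0) (fun s => by simp)
  have a0 : α 0 = ((lam : ℝ) : ℂ) := by simp [α]
  have a1 : α 1 = 0 := by simp [α]
  rw [a0, a1] at j
  have e : stdC 0 0 = ContinuousMap.id ℂ := by
    ext z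
    exact stdFun_id z
  rw [toC_stdH, toC_stdH, hb]
  simp only [ContinuousMap.zero_apply] at j
  rw [e] at j ⊢
  exact j

end Pool.Agent.Helper984_CP
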