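import Pool.Agent.Helper984_CP.Surf
import Pool.Agent.Helper984_CP.Closure

/-!
# Bounded winding of pairs near points of strict differentiability
-/

set_option autoImplicit false

open Set Filter Topology Complex MeasureTheory ComplexConjugate

noncomputable section

namespace Pool.Agent.Helper984_CP

theorem pre_ball (x₀ : ℂ) {R : ℝ} (hR : 0 < R) :
    IsPreconnected {a : Conf | a.1.1 ∈ Metric.ball x₀ R ∧ a.1.2 ∈ Metric.ball x₀ R} := by
  let s : C(ℂ, ℂ) := ⟨fun z => x₀ + shrinkC R z, by fun_prop⟩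
  have hs : Function.Injective s := fun x y h => shrinkC_inj hR (add_left_cancel h)
  have hlt : ∀ z, ‖shrinkC R z‖ < R := by
    intro z
    rw [norm_shrinkC hR]
    have h0 : 0 < 1 + ‖z‖ := by positivity
    have : ‖z‖ / (1 + ‖z‖) < 1 := by rw [div_lt_one h0]; linarith
    nlinarith
  have he : {a : Conf | a.1.1 ∈ Metric.ball x₀ R ∧ a.1.2 ∈ Metric.ball x₀ R} =
      range (Conf.map s hs) := by
    ext a
    constructor
    · rintro ⟨h1, h2⟩
      rw [mem_ball_iff_norm] at h1 h2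
      obtain ⟨x, hx⟩ := shrinkC_surj hR h1
      obtain ⟨y, hy⟩ := shrinkC_surj hR h2
      have ex : s x = a.1.1 := by
        change x₀ + shrinkC R x = _
        rw [hx]; ring
      have ey : s y = a.1.2 := by
        change x₀ + shrinkC R y = _
        rw [hy]; ring
      refine ⟨⟨(x, y), fun hxy => a.2 ?_⟩, ?_⟩
      · simp only at hxy
        rw [← ex, ← ey, hxy]
      · apply Subtype.ext
        apply Prod.ext
        · exact ex
        · exact ey
    · rintro ⟨b, rfl⟩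
      constructor
      · rw [mem_ball_iff_norm]
        change ‖x₀ + shrinkC R b.1.1 - x₀‖ < R
        rw [add_sub_cancel_left]
        exact hlt _
      · rw [mem_ball_iff_norm]
        change ‖x₀ + shrinkC R b.1.2 - x₀‖ < R
        rw [add_sub_cancel_left]
        exact hlt _
  rw [he]
  exact isPreconnected_range (Conf.map s hs).continuous

/-- the Jacobian determinant of a real linear map of the plane -/
def jac (A : ℂ →L[ℝ] ℂ) : ℝ := (A 1).re * (A Complex.I).im - (A 1).im * (A Complex.I).re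

theorem local_bound {f : ℂ → ℂ} {ℓ : C(Conf, ℂ)} (hℓ : LogDiff f ℓ) {x₀ : ℂ} {A : ℂ →L[ℝ] ℂ}
    (hA : HasStrictFDerivAt f A x₀) (hJ : 0 < jac A) :
    ∃ r > 0, ∃ C : ℝ, ∀ a : Conf, a.1.1 ∈ Metric.ball x₀ r → a.1.2 ∈ Metric.ball x₀ r →
      |(ℓ a).im| ≤ C := by
  obtain ⟨α, hα⟩ : ∃ α, α = (A 1 - I * A I) / 2 := ⟨_, rfl⟩
  obtain ⟨β, hβ⟩ : ∃ β, β = (A 1 + I * A I) / 2 := ⟨_, rfl⟩
  have hAv : ∀ v, A v = α * v + β * conj v := by
    intro v
    have h1 : A v = v.re • A 1 + v.im • A I := by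
      rw [← map_smul, ← map_smul, ← map_add]
      congr 1
      apply Complex.ext <;> simp
    rw [h1, hα, hβ]
    have h2 : v = (v.re : ℂ) + v.im * I := (Complex.re_add_im v).symm
    have h3 : conj v = (v.re : ℂ) - v.im * I := by
      apply Complex.ext <;> simp
    rw [h3]
    conv_rhs => rw [show v = (v.re : ℂ) + v.im * I from h2]
    simp only [Complex.real_smul, Complex.add_re, Complex.ofReal_re, Complex.mul_re, Complex.I_re,
      mul_zero, Complex.ofReal_im, Complex.I_im, mul_one, sub_self, add_zero, Complex.add_im,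
      Complex.mul_im, zero_add]
    have hI : I * I = -1 := Complex.I_mul_I
    linear_combination (v.im : ℂ) * A I * hI
  have hn : normSq β < normSq α := by
    have : normSq α - normSq β = jac A := by
      rw [hα, hβ, jac]
      simp only [Complex.normSq_apply, Complex.div_re, Complex.div_im, Complex.sub_re,
        Complex.sub_im, Complex.add_re, Complex.add_im, Complex.mul_re, Complex.mul_im,
        Complex.I_re, Complex.I_im]
      norm_num
      ring
    linarith
  have hn' : ‖β‖ < ‖α‖ := by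
    rw [Complex.normSq_eq_norm_sq, Complex.normSq_eq_norm_sq] at hn
    exact lt_of_pow_lt_pow_left₀ 2 (norm_nonneg _) hn
  have hα0 : 0 < ‖α‖ := (norm_nonneg _).trans_lt hn'
  have hα0' : α ≠ 0 := norm_pos_iff.1 hα0
  obtain ⟨ε, hε⟩ : ∃ ε, ε = (‖α‖ - ‖β‖) / 2 := ⟨_, rfl⟩
  have hε0 : 0 < ε := by rw [hε]; linarith
  have h1 := hA.isLittleO.def hε0
  obtain ⟨r, hr, hball⟩ := Metric.eventually_nhds_iff_ball.1 h1
  refine ⟨r, hr, ?_⟩
  have key : ∀ a : Conf, a.1.1 ∈ Metric.ball x₀ r ∧ a.1.2 ∈ Metric.ball x₀ r →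
      ‖cexp (ℓ a) / α - 1‖ < 1 := by
    rintro a ⟨ha1, ha2⟩
    have hv : a.1.1 - a.1.2 ≠ 0 := sub_ne_zero.2 a.2
    have h2 := hball (a.1.1, a.1.2) (by
      rw [← ball_prod_same]
      exact ⟨ha1, ha2⟩)
    simp only at h2
    rw [← hℓ a, hAv] at h2
    have h3 : ‖(cexp (ℓ a) - α) * (a.1.1 - a.1.2)‖ ≤ (‖β‖ + ε) * ‖a.1.1 - a.1.2‖ := by
      have e : (cexp (ℓ a) - α) * (a.1.1 - a.1.2) = (cexp (ℓ a) * (a.1.1 - a.1.2) -
          (α * (a.1.1 - a.1.2) + β * conj (a.1.1 - a.1.2))) + β * conj (a.1.1 - a.1.2) := by ring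
      rw [e]
      refine (norm_add_le _ _).trans ?_
      rw [norm_mul, Complex.norm_conj]
      linarith
    rw [norm_mul] at h3
    have h4 : ‖cexp (ℓ a) - α‖ ≤ ‖β‖ + ε := le_of_mul_le_mul_right h3 (norm_pos_iff.2 hv)
    have h5 : cexp (ℓ a) / α - 1 = (cexp (ℓ a) - α) / α := by field_simp
    rw [h5, norm_div, div_lt_one hα0]
    refine h4.trans_lt ?_
    rw [hε]
    linarith
  have hslit : ∀ a : Conf, a.1.1 ∈ Metric.ball x₀ r ∧ a.1.2 ∈ Metric.ball x₀ r →
      cexp (ℓ a) / α ∈ slitPlane := by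
    intro a ha
    have := Complex.mem_slitPlane_of_norm_lt_one (key a ha)
    rwa [add_sub_cancel] at this
  let w : Conf → ℂ := fun a => Complex.log (cexp (ℓ a) / α) + Complex.log α
  by_cases hne : ∃ b : Conf, b.1.1 ∈ Metric.ball x₀ r ∧ b.1.2 ∈ Metric.ball x₀ r
  · obtain ⟨b, hb⟩ := hne
    refine ⟨|(ℓ b - w b).im| + 2 * Real.pi, fun a ha1 ha2 => ?_⟩
    have h2 : ℓ a - w a = ℓ b - w b := by
      refine exp_rigid_on (pre_ball x₀ hr) ℓ.continuous.continuousOn ?_ ?_ ⟨ha1, ha2⟩ hb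
      · apply ContinuousOn.add _ continuousOn_const
        apply ContinuousOn.clog
        · fun_prop
        · intro c hc
          exact hslit c hc
      · intro c hc
        change _ = cexp (Complex.log (cexp (ℓ c) / α) + Complex.log α)
        rw [Complex.exp_add, Complex.exp_log hα0', Complex.exp_log
          (div_ne_zero (Complex.exp_ne_zero _) hα0'), div_mul_cancel₀ _ hα0']
    have h3 : (ℓ a).im = (ℓ b - w b).im + (w a).im := by
      rw [← h2, Complex.sub_im]
      ring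
    have h4 : |(w a).im| ≤ 2 * Real.pi := by
      change |(Complex.log (cexp (ℓ a) / α) + Complex.log α).im| ≤ _
      rw [Complex.add_im, Complex.log_im, Complex.log_im]
      refine (abs_add_le _ _).trans ?_
      have e1 := Complex.abs_arg_le_pi (cexp (ℓ a) / α)
      have e2 := Complex.abs_arg_le_pi α
      linarith
    rw [h3]
    exact (abs_add_le _ _).trans (by linarith)
  · push Not at hne
    exact ⟨0, fun a ha1 ha2 => (hne a ha1 ha2).elim⟩

theorem compact_bound {f : ℂ → ℂ} {ℓ : C(Conf, ℂ)} (hℓ : LogDiff f ℓ) {K : Set ℂ}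
    (hK : IsCompact K) (hd : ∀ x ∈ K, ∃ A : ℂ →L[ℝ] ℂ, HasStrictFDerivAt f A x ∧ 0 < jac A) :
    ∃ C : ℝ, ∀ a : Conf, a.1.1 ∈ K → a.1.2 ∈ K → |(ℓ a).im| ≤ C := by
  have h := IsCompact.induction_on (hK.prod hK)
    (p := fun s => ∃ C : ℝ, ∀ a : Conf, a.1 ∈ s → |(ℓ a).im| ≤ C)
    ⟨0, fun a ha => ha.elim⟩
    (fun s t hst ⟨C, hC⟩ => ⟨C, fun a ha => hC a (hst ha)⟩)
    (fun s t ⟨C, hC⟩ ⟨D, hD⟩ => ⟨max C D, fun a ha => by
      rcases ha with ha | ha
      · exact (hC a ha).trans (le_max_left _ _)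
      · exact (hD a ha).trans (le_max_right _ _)⟩) (by
    rintro ⟨x, y⟩ ⟨hx, hy⟩
    simp only at hx hy
    by_cases hxy : x = y
    · subst hxy
      obtain ⟨A, hA, hJ⟩ := hd x hx
      obtain ⟨r, hr, C, hC⟩ := local_bound hℓ hA hJ
      refine ⟨Metric.ball x r ×ˢ Metric.ball x r, mem_nhdsWithin_of_mem_nhds
        (prod_mem_nhds (Metric.ball_mem_nhds x hr) (Metric.ball_mem_nhds x hr)), C,
        fun a ha => hC a ha.1 ha.2⟩
    · have ho : IsOpen {q : ℂ × ℂ | q.1 ≠ q.2} := isOpen_ne_fun continuous_fst continuous_snd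
      let b : Conf := ⟨(x, y), hxy⟩
      have hU : {a : Conf | |(ℓ a).im| < |(ℓ b).im| + 1} ∈ 𝓝 b := by
        apply IsOpen.mem_nhds
        · apply isOpen_lt
          · fun_prop
          · exact continuous_const
        · change |(ℓ b).im| < |(ℓ b).im| + 1
          linarith
      refine ⟨Subtype.val '' {a : Conf | |(ℓ a).im| < |(ℓ b).im| + 1},
        mem_nhdsWithin_of_mem_nhds (ho.isOpenEmbedding_subtypeVal.isOpenMap.image_mem_nhds hU),
        |(ℓ b).im| + 1, ?_⟩
      rintro a ⟨c, hc, hca⟩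
      have : c = a := Subtype.ext hca
      rw [← this]
      exact hc.le)
  obtain ⟨C, hC⟩ := h
  exact ⟨C, fun a h1 h2 => hC a ⟨h1, h2⟩⟩

end Pool.Agent.Helper984_CP
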