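import Pool.Agent.Helper984_CP.Circle

/-!
# Commuting pairs which extend to the closed disc
-/

set_option autoImplicit false

open Set Filter Topology Complex

noncomputable section

namespace Pool.Agent.Helper984_CP

/-- a self map of the closed unit disc which preserves the open disc and the circle -/
structure DiscMap (F : ℂ → ℂ) : Prop where
  cont : ContinuousOn F (Metric.closedBall 0 1)
  inner : ∀ z, ‖z‖ < 1 → ‖F z‖ < 1
  bdry : ∀ z, ‖z‖ = 1 → ‖F z‖ = 1

theorem DiscMap.le {F : ℂ → ℂ} (h : DiscMap F) {z : ℂ} (hz : ‖z‖ ≤ 1) : ‖F z‖ ≤ 1 := by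
  rcases hz.lt_or_eq with h1 | h1
  · exact (h.inner z h1).le
  · exact (h.bdry z h1).le

/-- radial extension of `τ F (z / τ)` -/
def radial (F : ℂ → ℂ) (τ : ℝ) (z : ℂ) : ℂ :=
  ((max τ ‖z‖ : ℝ) : ℂ) * F (z / ((max τ ‖z‖ : ℝ) : ℂ))

theorem norm_div_max_le {τ : ℝ} (hτ : 0 ≤ τ) (z : ℂ) : ‖z / ((max τ ‖z‖ : ℝ) : ℂ)‖ ≤ 1 := by
  have h0 : 0 ≤ max τ ‖z‖ := hτ.trans (le_max_left _ _)
  rw [norm_div, Complex.norm_real, Real.norm_of_nonneg h0]
  exact div_le_one_of_le₀ (le_max_right _ _) h0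

theorem norm_radial_eq {F : ℂ → ℂ} (hF : DiscMap F) {τ : ℝ} {z : ℂ} (hz : τ ≤ ‖z‖) :
    ‖radial F τ z‖ = ‖z‖ := by
  rw [radial, max_eq_right hz, norm_mul, Complex.norm_real, norm_norm]
  by_cases h : ‖z‖ = 0
  · rw [h, zero_mul]
  · rw [hF.bdry, mul_one]
    rw [norm_div, Complex.norm_real, norm_norm, div_self h]

theorem norm_radial_lt {F : ℂ → ℂ} (hF : DiscMap F) {τ : ℝ} {z : ℂ} (hz : ‖z‖ < τ) :
    ‖radial F τ z‖ < τ := by
  have hτ : 0 < τ := (norm_nonneg z).trans_lt hz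
  rw [radial, max_eq_left hz.le, norm_mul, Complex.norm_real, Real.norm_of_nonneg hτ.le]
  have h1 : ‖F (z / (τ : ℂ))‖ < 1 := by
    apply hF.inner
    rw [norm_div, Complex.norm_real, Real.norm_of_nonneg hτ.le]
    exact (div_lt_one hτ).2 hz
  calc τ * ‖F (z / (τ : ℂ))‖ < τ * 1 := by gcongr
    _ = τ := mul_one τ

theorem max_radial {F : ℂ → ℂ} (hF : DiscMap F) (τ : ℝ) (z : ℂ) :
    max τ ‖radial F τ z‖ = max τ ‖z‖ := by
  rcases le_or_gt τ ‖z‖ with h | h
  · rw [norm_radial_eq hF h]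
  · rw [max_eq_left (norm_radial_lt hF h).le, max_eq_left h.le]

theorem radial_comp (F : ℂ → ℂ) {G : ℂ → ℂ} (hG : DiscMap G) (τ : ℝ) (z : ℂ) :
    radial F τ (radial G τ z) = ((max τ ‖z‖ : ℝ) : ℂ) * F (G (z / ((max τ ‖z‖ : ℝ) : ℂ))) := by
  rw [radial, max_radial hG]
  by_cases h : max τ ‖z‖ = 0
  · rw [h]; simp
  · have h' : ((max τ ‖z‖ : ℝ) : ℂ) ≠ 0 := by exact_mod_cast h
    congr 2
    rw [radial]
    field_simp

theorem radial_inv {F G : ℂ → ℂ} (hG : DiscMap G) (h : ∀ z, ‖z‖ ≤ 1 → F (G z) = z)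
    {τ : ℝ} (hτ : 0 ≤ τ) (z : ℂ) : radial F τ (radial G τ z) = z := by
  rw [radial_comp F hG, h _ (norm_div_max_le hτ z)]
  by_cases h : max τ ‖z‖ = 0
  · have : ‖z‖ = 0 := le_antisymm (h ▸ le_max_right _ _) (norm_nonneg _)
    rw [norm_eq_zero.1 this]
    simp
  · have h' : ((max τ ‖z‖ : ℝ) : ℂ) ≠ 0 := by exact_mod_cast h
    field_simp

theorem continuousAt_radial {F : ℂ → ℂ} (hF : DiscMap F) {τ0 : ℝ} (hτ0 : 0 ≤ τ0) (z0 : ℂ) :
    ContinuousWithinAt (fun q : ℝ × ℂ => radial F q.1 q.2) (Ici 0 ×ˢ univ) (τ0, z0) := by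
  by_cases h : max τ0 ‖z0‖ = 0
  · have h1 : ‖z0‖ = 0 := le_antisymm (h ▸ le_max_right _ _) (norm_nonneg _)
    have h2 : τ0 = 0 := le_antisymm (h ▸ le_max_left _ _) hτ0
    rw [norm_eq_zero] at h1
    subst h1
    subst h2
    rw [ContinuousWithinAt]
    have e : radial F 0 0 = 0 := by simp [radial]
    simp only
    rw [e, tendsto_zero_iff_norm_tendsto_zero]
    have hb : Continuous fun q : ℝ × ℂ => max q.1 ‖q.2‖ := by fun_prop
    have h2 := (hb.tendsto (0, 0)).mono_left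
      (nhdsWithin_le_nhds (s := (Ici (0 : ℝ) ×ˢ (univ : Set ℂ))))
    simp only [norm_zero, max_self] at h2
    refine squeeze_zero' (Eventually.of_forall fun q => norm_nonneg _) ?_ h2
    filter_upwards [self_mem_nhdsWithin] with q hq
    have h0 : 0 ≤ max q.1 ‖q.2‖ := (norm_nonneg _).trans (le_max_right _ _)
    rw [radial, norm_mul, Complex.norm_real, Real.norm_of_nonneg h0]
    exact mul_le_of_le_one_right h0 (hF.le (norm_div_max_le hq.1 _))
  · have h' : ((max τ0 ‖z0‖ : ℝ) : ℂ) ≠ 0 := by exact_mod_cast h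
    unfold radial
    apply ContinuousWithinAt.mul
    · exact Continuous.continuousWithinAt (by fun_prop)
    · have h1 : ContinuousWithinAt (fun q : ℝ × ℂ => q.2 / ((max q.1 ‖q.2‖ : ℝ) : ℂ))
          (Ici 0 ×ˢ univ) (τ0, z0) := by
        apply ContinuousAt.continuousWithinAt
        apply ContinuousAt.div
        · fun_prop
        · fun_prop
        · exact h'
      have h2 := hF.cont (z0 / ((max τ0 ‖z0‖ : ℝ) : ℂ))
        (mem_closedBall_zero_iff.2 (norm_div_max_le hτ0 z0))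
      refine ContinuousWithinAt.comp (t := Metric.closedBall 0 1) h2 h1 ?_
      intro q hq
      exact mem_closedBall_zero_iff.2 (norm_div_max_le hq.1 _)

theorem continuous_radial_family {F : ℂ → ℂ} (hF : DiscMap F) :
    Continuous fun q : unitInterval × ℂ => radial F q.1 q.2 := by
  have h : ContinuousOn (fun q : ℝ × ℂ => radial F q.1 q.2) (Ici 0 ×ˢ univ) := by
    rintro ⟨τ, z⟩ hq
    exact continuousAt_radial hF hq.1 z
  exact h.comp_continuous (f := fun q : unitInterval × ℂ => ((q.1 : ℝ), q.2)) (by fun_prop)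
    (fun q => ⟨q.1.2.1, mem_univ _⟩)

/-- the radial homeomorphism of the plane onto the open unit disc -/
def toDisc (z : ℂ) : ℂ := z / ((1 + ‖z‖ : ℝ) : ℂ)

/-- its inverse -/
def ofDisc (w : ℂ) : ℂ := w / ((1 - ‖w‖ : ℝ) : ℂ)

theorem norm_toDisc_lt (z : ℂ) : ‖toDisc z‖ < 1 := by
  have h : 0 < 1 + ‖z‖ := by positivity
  rw [toDisc, norm_div, Complex.norm_real, Real.norm_of_nonneg h.le, div_lt_one h]
  linarith

theorem sq_scale (τ : ℝ) (z : ℂ) (h : 0 < 1 + τ * ‖z‖) :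
    (1 : ℝ) - τ * ‖z / ((1 + τ * ‖z‖ : ℝ) : ℂ)‖ = 1 / (1 + τ * ‖z‖) := by
  rw [norm_div, Complex.norm_real, Real.norm_of_nonneg h.le]
  field_simp
  ring

theorem scale_left {τ : ℝ} (z : ℂ) (h : 0 < 1 + τ * ‖z‖) :
    (z / ((1 + τ * ‖z‖ : ℝ) : ℂ)) / ((1 - τ * ‖z / ((1 + τ * ‖z‖ : ℝ) : ℂ)‖ : ℝ) : ℂ) = z := by
  rw [sq_scale τ z h]
  have h' : ((1 + τ * ‖z‖ : ℝ) : ℂ) ≠ 0 := by exact_mod_cast h.ne'
  rw [Complex.ofReal_div, Complex.ofReal_one]
  field_simp

theorem scale_right {τ : ℝ} (w : ℂ) (h : 0 < 1 - τ * ‖w‖) :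
    (w / ((1 - τ * ‖w‖ : ℝ) : ℂ)) / ((1 + τ * ‖w / ((1 - τ * ‖w‖ : ℝ) : ℂ)‖ : ℝ) : ℂ) = w := by
  have e : (1 : ℝ) + τ * ‖w / ((1 - τ * ‖w‖ : ℝ) : ℂ)‖ = 1 / (1 - τ * ‖w‖) := by
    rw [norm_div, Complex.norm_real, Real.norm_of_nonneg h.le]
    field_simp
    ring
  rw [e]
  have h' : ((1 - τ * ‖w‖ : ℝ) : ℂ) ≠ 0 := by exact_mod_cast h.ne'
  rw [Complex.ofReal_div, Complex.ofReal_one]
  field_simp

theorem ofDisc_toDisc (z : ℂ) : ofDisc (toDisc z) = z := by
  have h := scale_left (τ := 1) z (by positivity)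
  simp only [one_mul] at h
  exact h

theorem toDisc_ofDisc {w : ℂ} (hw : ‖w‖ < 1) : toDisc (ofDisc w) = w := by
  have h := scale_right (τ := 1) w (by linarith)
  simp only [one_mul] at h
  exact h

theorem continuous_toDisc : Continuous toDisc := by
  unfold toDisc
  apply Continuous.div
  · exact continuous_id
  · fun_prop
  · intro z
    have h : 0 < 1 + ‖z‖ := by positivity
    exact_mod_cast h.ne'

theorem continuousOn_ofDisc : ContinuousOn ofDisc (Metric.ball 0 1) := by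
  unfold ofDisc
  apply ContinuousOn.div
  · exact continuousOn_id
  · fun_prop
  · intro z hz
    rw [mem_ball_zero_iff] at hz
    have h : 0 < 1 - ‖z‖ := by linarith
    exact_mod_cast h.ne'

/-- the family that connects the disc picture with the plane picture -/
def squeeze (F : ℂ → ℂ) (τ : ℝ) (z : ℂ) : ℂ :=
  radial F 1 (z / ((1 + τ * ‖z‖ : ℝ) : ℂ)) /
    ((1 - τ * ‖radial F 1 (z / ((1 + τ * ‖z‖ : ℝ) : ℂ))‖ : ℝ) : ℂ)

theorem squeeze_pos {F : ℂ → ℂ} (hF : DiscMap F) {τ : ℝ} (h0 : 0 ≤ τ) (h1 : τ ≤ 1) (z : ℂ) :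
    0 < 1 - τ * ‖radial F 1 (z / ((1 + τ * ‖z‖ : ℝ) : ℂ))‖ := by
  have hpos : 0 < 1 + τ * ‖z‖ := by positivity
  obtain ⟨w, hw⟩ : ∃ w, w = z / ((1 + τ * ‖z‖ : ℝ) : ℂ) := ⟨_, rfl⟩
  have hw1 : 0 < 1 - τ * ‖w‖ := by
    rw [hw, sq_scale τ z hpos]
    positivity
  rw [← hw]
  rcases lt_or_ge ‖w‖ 1 with h | h
  · have h2 := norm_radial_lt hF h
    rcases h0.lt_or_eq with h3 | h3
    · nlinarith
    · rw [← h3]; simp
  · rw [norm_radial_eq hF h]
    exact hw1

theorem continuous_squeeze_family {F : ℂ → ℂ} (hF : DiscMap F) :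
    Continuous fun q : unitInterval × ℂ => squeeze F q.1 q.2 := by
  have hr : Continuous fun z : ℂ => radial F 1 z := by
    have h := (continuous_radial_family hF).comp (f := fun z : ℂ => ((1 : unitInterval), z))
      (by fun_prop)
    have e : (fun z : ℂ => radial F 1 z) = (fun q : unitInterval × ℂ => radial F q.1 q.2) ∘
        (fun z : ℂ => ((1 : unitInterval), z)) := by
      ext z
      simp
    rw [e]
    exact h
  have hs : Continuous fun q : unitInterval × ℂ => q.2 / ((1 + (q.1 : ℝ) * ‖q.2‖ : ℝ) : ℂ) := by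
    apply Continuous.div
    · fun_prop
    · fun_prop
    · intro q
      have h : 0 < 1 + (q.1 : ℝ) * ‖q.2‖ := by
        have := q.1.2.1
        positivity
      exact_mod_cast h.ne'
  have h3 := hr.comp hs
  unfold squeeze
  apply Continuous.div h3
  · apply Complex.continuous_ofReal.comp
    apply continuous_const.sub
    exact (by fun_prop : Continuous fun q : unitInterval × ℂ => (q.1 : ℝ)).mul h3.norm
  · intro q
    have h := squeeze_pos hF q.1.2.1 q.1.2.2 q.2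
    exact_mod_cast h.ne'

theorem squeeze_comp {F G : ℂ → ℂ} (hG : DiscMap G) {τ : ℝ} (h0 : 0 ≤ τ)
    (h1 : τ ≤ 1) (z : ℂ) : squeeze F τ (squeeze G τ z) =
      radial F 1 (radial G 1 (z / ((1 + τ * ‖z‖ : ℝ) : ℂ))) /
      ((1 - τ * ‖radial F 1 (radial G 1 (z / ((1 + τ * ‖z‖ : ℝ) : ℂ)))‖ : ℝ) : ℂ) := by
  obtain ⟨w, hw⟩ : ∃ w, w = radial G 1 (z / ((1 + τ * ‖z‖ : ℝ) : ℂ)) := ⟨_, rfl⟩
  have e : squeeze G τ z = w / ((1 - τ * ‖w‖ : ℝ) : ℂ) := by rw [hw, squeeze]
  have hpos : 0 < 1 - τ * ‖w‖ := by rw [hw]; exact squeeze_pos hG h0 h1 z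
  rw [← hw, squeeze, e, scale_right w hpos]

theorem squeeze_inv {F G : ℂ → ℂ} (hG : DiscMap G)
    (h : ∀ z, ‖z‖ ≤ 1 → F (G z) = z) {τ : ℝ} (h0 : 0 ≤ τ) (h1 : τ ≤ 1) (z : ℂ) :
    squeeze F τ (squeeze G τ z) = z := by
  rw [squeeze_comp hG h0 h1, radial_inv hG h zero_le_one]
  exact scale_left z (by positivity)

/-- the first family, with reversed parameter -/
def squeezeC (F : ℂ → ℂ) (hF : DiscMap F) : C(unitInterval × ℂ, ℂ) :=
  ContinuousMap.comp ⟨fun q : unitInterval × ℂ => squeeze F (q.1 : ℝ) q.2,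
    continuous_squeeze_family hF⟩
    ⟨fun q : unitInterval × ℂ => (unitInterval.symm q.1, q.2), by fun_prop⟩

theorem squeezeC_apply (F : ℂ → ℂ) (hF : DiscMap F) (s : unitInterval) (z : ℂ) :
    squeezeC F hF (s, z) = squeeze F (unitInterval.symm s : ℝ) z := rfl

/-- the second family, with reversed parameter -/
def radialC (F : ℂ → ℂ) (hF : DiscMap F) : C(unitInterval × ℂ, ℂ) :=
  ContinuousMap.comp ⟨fun q : unitInterval × ℂ => radial F (q.1 : ℝ) q.2,
    continuous_radial_family hF⟩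
    ⟨fun q : unitInterval × ℂ => (unitInterval.symm q.1, q.2), by fun_prop⟩

theorem radialC_apply (F : ℂ → ℂ) (hF : DiscMap F) (s : unitInterval) (z : ℂ) :
    radialC F hF (s, z) = radial F (unitInterval.symm s : ℝ) z := rfl

/-- a commuting pair which extends to the closed disc can be joined to the trivial pair -/
theorem disc_joined {k : ℤ} {F Fi G Gi : ℂ → ℂ} (hF : DiscMap F) (hFi : DiscMap Fi)
    (hG : DiscMap G) (hGi : DiscMap Gi) (h1 : ∀ z, ‖z‖ ≤ 1 → F (Fi z) = z)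
    (h2 : ∀ z, ‖z‖ ≤ 1 → Fi (F z) = z) (h3 : ∀ z, ‖z‖ ≤ 1 → G (Gi z) = z)
    (h4 : ∀ z, ‖z‖ ≤ 1 → Gi (G z) = z) (hc : ∀ z, ‖z‖ ≤ 1 → F (G z) = G (F z))
    {A B : C(ℂ, ℂ)} (hA : ∀ z, A z = ofDisc (F (toDisc z))) (hB : ∀ z, B z = ofDisc (G (toDisc z)))
    (hp : (A, B) ∈ HomK k) :
    JoinedIn (HomK k) (A, B) (ContinuousMap.id ℂ, ContinuousMap.id ℂ) := by
  -- first path
  have r1 : ∀ (F : ℂ → ℂ) (z : ℂ), ‖z‖ < 1 → radial F 1 z = F z := by
    intro F z hz
    rw [radial, max_eq_left hz.le]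
    simp
  have e0 : ∀ (F : ℂ → ℂ) (hF : DiscMap F) (A : C(ℂ, ℂ)), (∀ z, A z = ofDisc (F (toDisc z))) →
      slice (squeezeC F hF) 0 = A := by
    intro F hF A hA
    ext z
    rw [slice_apply, squeezeC_apply, hA]
    simp only [unitInterval.symm_zero, Icc.coe_one, squeeze, one_mul]
    have := norm_toDisc_lt z
    rw [toDisc] at this
    rw [r1 F _ this]
    rfl
  have j1 := HomK_joined (k := k) (squeezeC F hF) (squeezeC G hG)
    (fun s => ⟨slice (squeezeC Fi hFi) s, fun z => by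
      simp only [slice_apply, squeezeC_apply]
      exact squeeze_inv hFi h1 (unitInterval.symm s).2.1 (unitInterval.symm s).2.2 z, fun z => by
      simp only [slice_apply, squeezeC_apply]
      exact squeeze_inv hF h2 (unitInterval.symm s).2.1 (unitInterval.symm s).2.2 z⟩)
    (fun s => ⟨slice (squeezeC Gi hGi) s, fun z => by
      simp only [slice_apply, squeezeC_apply]
      exact squeeze_inv hGi h3 (unitInterval.symm s).2.1 (unitInterval.symm s).2.2 z, fun z => by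
      simp only [slice_apply, squeezeC_apply]
      exact squeeze_inv hG h4 (unitInterval.symm s).2.1 (unitInterval.symm s).2.2 z⟩)
    (fun s z => by
      rw [squeezeC_apply, squeezeC_apply, squeezeC_apply, squeezeC_apply, squeeze_comp hG (unitInterval.symm s).2.1 (unitInterval.symm s).2.2,
        squeeze_comp hF (unitInterval.symm s).2.1 (unitInterval.symm s).2.2,
        radial_comp F hG, radial_comp G hF,
        hc _ (norm_div_max_le zero_le_one _)])
    (by rw [e0 F hF A hA, e0 G hG B hB]; exact hp)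
  rw [e0 F hF A hA, e0 G hG B hB] at j1
  -- second path
  have e1 : ∀ (F : ℂ → ℂ) (hF : DiscMap F), slice (squeezeC F hF) 1 = slice (radialC F hF) 0 := by
    intro F hF
    ext z
    rw [slice_apply, slice_apply, squeezeC_apply, radialC_apply]
    simp [squeeze]
  have j2 := HomK_joined (k := k) (radialC F hF) (radialC G hG)
    (fun s => ⟨slice (radialC Fi hFi) s, fun z => by
      simp only [slice_apply, radialC_apply]
      exact radial_inv hFi h1 (unitInterval.symm s).2.1 z, fun z => by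
      simp only [slice_apply, radialC_apply]
      exact radial_inv hF h2 (unitInterval.symm s).2.1 z⟩)
    (fun s => ⟨slice (radialC Gi hGi) s, fun z => by
      simp only [slice_apply, radialC_apply]
      exact radial_inv hGi h3 (unitInterval.symm s).2.1 z, fun z => by
      simp only [slice_apply, radialC_apply]
      exact radial_inv hG h4 (unitInterval.symm s).2.1 z⟩)
    (fun s z => by
      rw [radialC_apply, radialC_apply, radialC_apply, radialC_apply, radial_comp F hG,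
        radial_comp G hF,
        hc _ (norm_div_max_le (unitInterval.symm s).2.1 _)])
    (by rw [← e1, ← e1]; exact j1.target_mem)
  rw [← e1, ← e1] at j2
  -- the endpoint is a pair of cones
  have hn : ∀ (F : ℂ → ℂ) (hF : DiscMap F) z, ‖slice (radialC F hF) 1 z‖ = ‖z‖ := by
    intro F hF z
    rw [slice_apply, radialC_apply]
    simp only [unitInterval.symm_one, Icc.coe_zero]
    exact norm_radial_eq hF (norm_nonneg z)
  have hhom : ∀ (F : ℂ → ℂ) (hF : DiscMap F) (r : ℝ) (z : ℂ), 0 < r →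
      slice (radialC F hF) 1 (r * z) = r * slice (radialC F hF) 1 z := by
    intro F hF r z hr
    rw [slice_apply, slice_apply, radialC_apply, radialC_apply]
    simp only [unitInterval.symm_one, Icc.coe_zero, radial]
    rw [norm_mul, Complex.norm_real, Real.norm_of_nonneg hr.le, max_eq_right (by positivity),
      max_eq_right (norm_nonneg z)]
    have hr' : (r : ℂ) ≠ 0 := by exact_mod_cast hr.ne'
    have : (r : ℂ) * z / ((r * ‖z‖ : ℝ) : ℂ) = z / ((‖z‖ : ℝ) : ℂ) := by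
      rw [Complex.ofReal_mul]
      exact mul_div_mul_left _ _ hr'
    rw [this]
    push_cast
    ring
  have j3 := cone_joined (hn F hF) (hn G hG) (hhom F hF) (hhom G hG) j2.target_mem
  exact (j1.trans j2).trans j3

end Pool.Agent.Helper984_CP
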