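import Pool.Agent.Helper984_CP.RelFin

/-!
# Two commuting maps: the dichotomy for stable continua
-/

set_option autoImplicit false

open Set Filter Topology Complex

noncomputable section

namespace Pool.Agent.Helper984_CP

/-- the complement of the set of points whose images all lie in a disc is connected -/
theorem filled_seq {T : ℕ → ℂ ≃ₜ ℂ} {D : Set ℂ} (hD : IsCompact D) (hDc : IsPreconnected Dᶜ) :
    IsPreconnected {z : ℂ | ∀ n, T n z ∈ D}ᶜ := by
  have : {z : ℂ | ∀ n, T n z ∈ D}ᶜ = ⋃ n : ℕ, (T n) ⁻¹' Dᶜ := by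
    ext z
    simp only [mem_compl_iff, mem_iUnion, mem_preimage, mem_ofPred_eq, not_forall]
  rw [this]
  refine IsPreconnected.iUnion_of_chain (fun n => ?_) (fun n => ?_)
  · rw [← (T n).image_symm]
    exact hDc.image _ (T n).symm.continuous.continuousOn
  · have h1 : IsCompact ((T n) ⁻¹' D ∪ (T (n + 1)) ⁻¹' D) := by
      rw [← (T n).image_symm, ← (T (n + 1)).image_symm]
      exact (hD.image (T n).symm.continuous).union (hD.image (T (n + 1)).symm.continuous)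
    by_contra hcon
    rw [not_nonempty_iff_eq_empty] at hcon
    apply noncompact_univ ℂ
    have : (univ : Set ℂ) = (T n) ⁻¹' D ∪ (T (n + 1)) ⁻¹' D := by
      symm
      apply eq_univ_of_forall
      intro z
      by_contra hz
      rw [mem_union, not_or] at hz
      have : z ∈ (T n) ⁻¹' Dᶜ ∩ (T (Order.succ n)) ⁻¹' Dᶜ := ⟨hz.1, hz.2⟩
      rw [hcon] at this
      exact this
    rw [this]
    exact h1

theorem ball_compl_pre {r : ℝ} (hr : 0 < r) : IsPreconnected (Metric.closedBall (0 : ℂ) r)ᶜ := by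
  have e1 : (Metric.closedBall (0 : ℂ) r)ᶜ = {z : ℂ | r < ‖z‖} := by
    ext x
    simp
  rw [e1]
  exact (isPreconnected_gt_ball r hr.le).isPreconnected

theorem FC_stab {u : ℂ ≃ₜ ℂ} (hu0 : u 0 = 0) {D : Set ℂ} (hD : IsCompact D)
    (hDc : IsPreconnected Dᶜ) (h0 : (0 : ℂ) ∈ D) : FC (stab u D) :=
  ⟨isCompact_stab hD, stab_pre, filled_stab hu0 hD hDc h0, zero_mem_stab hu0 h0⟩

/-- the dichotomy -/
theorem dich {g V : ℂ ≃ₜ ℂ} (hc : Commute g V) (hg0 : g 0 = 0) (hV0 : V 0 = 0) {r : ℝ} (hr : 0 < r)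
    (hNT : ∀ ρ : ℝ, 0 < ρ → ∃ z ∈ stab V (Metric.closedBall 0 ρ), z ≠ 0) :
    ∃ M : Set ℂ, FC M ∧ M ⊆ Metric.closedBall 0 r ∧ MapsTo V M M ∧
      (MapsTo g M M ∨ MapsTo (g⁻¹ : ℂ ≃ₜ ℂ) M M) ∧ ∃ z ∈ M, z ≠ 0 := by
  obtain ⟨D, hD⟩ : ∃ D, D = Metric.closedBall (0 : ℂ) r := ⟨_, rfl⟩
  have hDc : IsCompact D := by rw [hD]; exact isCompact_closedBall 0 r
  have hDf : IsPreconnected Dᶜ := by rw [hD]; exact ball_compl_pre hr
  have hDn : D ∈ 𝓝 (0 : ℂ) := by rw [hD]; exact Metric.closedBall_mem_nhds 0 hr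
  have h0D : (0 : ℂ) ∈ D := mem_of_mem_nhds hDn
  rw [← hD]
  by_cases hsm : stab V (stays g D) ⊆ {0}
  · -- the truncated sets
    let X : ℕ → Set ℂ := fun N => {z | ∀ n, (g ^ (min n N) : ℂ ≃ₜ ℂ) z ∈ D}
    have hX : ∀ N z, z ∈ X N ↔ ∀ i ≤ N, (g ^ i : ℂ ≃ₜ ℂ) z ∈ D := by
      intro N z
      constructor
      · intro h i hi
        have := h i
        rwa [min_eq_left hi] at this
      · intro h n
        exact h _ (min_le_right _ _)
    have hXD : ∀ N, X N ⊆ D := fun N z hz => by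
      have := (hX N z).1 hz 0 (Nat.zero_le _)
      rwa [pow_zero] at this
    have hXe : ∀ N, X N = ⋂ i ∈ Finset.range (N + 1), (g ^ i : ℂ ≃ₜ ℂ) ⁻¹' D := by
      intro N
      ext z
      simp only [hX, mem_iInter, Finset.mem_range, mem_preimage, Nat.lt_succ_iff]
    have hXcl : ∀ N, IsClosed (X N) := by
      intro N
      rw [hXe]
      exact isClosed_biInter fun i _ => hDc.isClosed.preimage (g ^ i).continuous
    have hXc : ∀ N, IsCompact (X N) := fun N => hDc.of_isClosed_subset (hXcl N) (hXD N)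
    have hXn : ∀ N, X N ∈ 𝓝 (0 : ℂ) := by
      intro N
      rw [hXe]
      refine (Filter.biInter_finset_mem _).2 fun i _ => ?_
      apply (g ^ i).continuous.continuousAt
      rw [pow_fix hg0]
      exact hDn
    have h0X : ∀ N, (0 : ℂ) ∈ X N := fun N => mem_of_mem_nhds (hXn N)
    have hXf : ∀ N, IsPreconnected (X N)ᶜ := fun N =>
      filled_seq (T := fun n => (g ^ (min n N) : ℂ ≃ₜ ℂ)) hDc hDf
    let C : ℕ → Set ℂ := fun N => stab V (X N)
    have hC : ∀ N, FC (C N) := fun N => FC_stab hV0 (hXc N) (hXf N) (h0X N)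
    have hCa : Antitone C := fun m n hmn => connectedComponentIn_mono _ fun z hz i =>
      (hX m _).2 fun j hj => (hX n _).1 (hz i) j (hj.trans hmn)
    have hinter : ⋂ n, C n ⊆ {0} := by
      refine subset_trans ?_ hsm
      refine (preconn_iInter hCa (fun n => (hC n).cpt) fun n => (hC n).pre).subset_connectedComponentIn
        (mem_iInter.2 fun n => (hC n).zero) ?_
      intro z hz i n
      exact (hX n _).1 (stab_sub_stays (mem_iInter.1 hz n) i) n le_rfl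
    obtain ⟨N, hN⟩ := exists_subset_nhds_of_isCompact hCa.directed_ge (fun n => (hC n).cpt)
      (U := (g⁻¹ : ℂ ≃ₜ ℂ) ⁻¹' D) (fun x hx => by
        have : x = 0 := hinter hx
        rw [this]
        apply (g⁻¹ : ℂ ≃ₜ ℂ).continuous.continuousAt
        rw [show (g⁻¹ : ℂ ≃ₜ ℂ) 0 = 0 from symm_fix hg0]
        exact hDn)
    have hVC : MapsTo V (C N) (C N) := stab_maps hV0 (h0X N) hV0 stays_self
    have hCX : C N ⊆ X N := stab_sub_stays.trans stays_sub
    refine ⟨C N, hC N, hCX.trans (hXD N), hVC, Or.inr ?_, ?_⟩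
    · have hVg : Commute V g⁻¹ := hc.symm.inv_right
      have h1 : (g⁻¹ : ℂ ≃ₜ ℂ) '' C N ⊆ stab V (X N) := by
        refine ((hC N).pre.image _ (g⁻¹ : ℂ ≃ₜ ℂ).continuous.continuousOn).subset_connectedComponentIn
          ⟨0, (hC N).zero, symm_fix hg0⟩ ?_
        rintro _ ⟨z, hz, rfl⟩ m
        have e : (V ^ m : ℂ ≃ₜ ℂ) ((g⁻¹ : ℂ ≃ₜ ℂ) z) = (g⁻¹ : ℂ ≃ₜ ℂ) ((V ^ m : ℂ ≃ₜ ℂ) z) :=
          congrArg (fun H : ℂ ≃ₜ ℂ => H z) (hVg.pow_left m).eq
        have hzm : (V ^ m : ℂ ≃ₜ ℂ) z ∈ C N := MapsTo.pow_mem hVC m hz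
        rw [e]
        refine (hX N _).2 fun i hi => ?_
        rcases Nat.eq_zero_or_pos i with h | h
        · rw [h, pow_zero]
          exact hN hzm
        · obtain ⟨j, rfl⟩ : ∃ j, i = j + 1 := ⟨i - 1, by omega⟩
          rw [pow_succ, mul_apply', apply_inv_self']
          exact (hX N _).1 (hCX hzm) j (by omega)
      exact fun x hx => h1 ⟨x, hx, rfl⟩
    · obtain ⟨ρ, hρ, hball⟩ := Metric.nhds_basis_closedBall.mem_iff.1 (hXn N)
      obtain ⟨z, hz, hz0⟩ := hNT ρ hρ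
      exact ⟨z, connectedComponentIn_mono _ (fun x (hx : x ∈ stays V (Metric.closedBall 0 ρ)) i =>
        hball (hx i)) hz, hz0⟩
  · obtain ⟨z, hz, hz0⟩ := not_subset.1 hsm
    have hsc : IsCompact (stays g D) := isCompact_stays hDc
    have h0s : (0 : ℂ) ∈ stays g D := zero_mem_stays hg0 h0D
    refine ⟨stab V (stays g D), FC_stab hV0 hsc (filled_stays hDc hDf) h0s,
      (stab_sub_stays.trans stays_sub).trans stays_sub, stab_maps hV0 h0s hV0 stays_self,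
      Or.inl (stab_maps hV0 h0s hg0 (stays_maps hc.symm stays_self)), z, hz, hz0⟩

/-- decreasing intersections -/
theorem FC.iInter {C : ℕ → Set ℂ} (hC : ∀ n, FC (C n)) (hCa : Antitone C) : FC (⋂ n, C n) := by
  refine ⟨(hC 0).cpt.of_isClosed_subset (isClosed_iInter fun n => (hC n).cpt.isClosed)
    (iInter_subset _ 0), preconn_iInter hCa (fun n => (hC n).cpt) fun n => (hC n).pre, ?_,
    mem_iInter.2 fun n => (hC n).zero⟩
  rw [compl_iInter]
  obtain ⟨p, hp⟩ : ∃ p, p ∉ C 0 := by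
    by_contra hcon
    push Not at hcon
    have : C 0 = univ := eq_univ_of_forall hcon
    have h1 := (hC 0).cpt
    rw [this] at h1
    exact noncompact_univ ℂ h1
  exact isPreconnected_iUnion ⟨p, mem_iInter.2 fun n h => hp (hCa (Nat.zero_le n) h)⟩
    fun n => (hC n).fil

theorem image_pow_anti {g : ℂ ≃ₜ ℂ} {M : Set ℂ} (h : MapsTo g M M) :
    Antitone fun n : ℕ => (g ^ n : ℂ ≃ₜ ℂ) '' M := by
  refine antitone_nat_of_succ_le fun n => ?_
  rintro _ ⟨x, hx, rfl⟩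
  refine ⟨g x, h hx, ?_⟩
  rw [← mul_apply', ← pow_succ]

theorem image_iInter_pow {g : ℂ ≃ₜ ℂ} {M : Set ℂ} (h : MapsTo g M M) :
    g '' (⋂ n : ℕ, (g ^ n : ℂ ≃ₜ ℂ) '' M) = ⋂ n : ℕ, (g ^ n : ℂ ≃ₜ ℂ) '' M := by
  rw [image_iInter g.bijective]
  have e : ∀ n : ℕ, g '' ((g ^ n : ℂ ≃ₜ ℂ) '' M) = (g ^ (n + 1) : ℂ ≃ₜ ℂ) '' M := by
    intro n
    rw [image_image, pow_succ']
    rfl
  simp only [e]
  apply subset_antisymm
  · intro x hx
    refine mem_iInter.2 fun n => image_pow_anti h (Nat.le_succ n) (mem_iInter.1 hx n)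
  · intro x hx
    exact mem_iInter.2 fun n => mem_iInter.1 hx (n + 1)

/-- the invariant core of a forward invariant continuum -/
theorem core {g V : ℂ ≃ₜ ℂ} (hc : Commute g V) (hg0 : g 0 = 0) {M : Set ℂ} (hM : FC M)
    (hg : MapsTo g M M) (hV : MapsTo V M M) {z : ℂ} (hz : z ∈ M)
    (hzt : ¬ Tendsto (fun n : ℕ => (g ^ n : ℂ ≃ₜ ℂ) z) atTop (𝓝 0)) :
    ∃ M' ⊆ M, FC M' ∧ g '' M' = M' ∧ MapsTo V M' M' ∧ ∃ z ∈ M', z ≠ 0 := by
  have hfix : ∀ n : ℕ, (g ^ n : ℂ ≃ₜ ℂ) 0 = 0 := fun n => pow_fix hg0 n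
  have hFC : FC (⋂ n : ℕ, (g ^ n : ℂ ≃ₜ ℂ) '' M) :=
    FC.iInter (fun n => hM.image (hfix n)) (image_pow_anti hg)
  refine ⟨⋂ n : ℕ, (g ^ n : ℂ ≃ₜ ℂ) '' M, ?_, hFC, image_iInter_pow hg, ?_, ?_⟩
  · intro x hx
    have := mem_iInter.1 hx 0
    rw [pow_zero] at this
    obtain ⟨y, hy, rfl⟩ := this
    exact hy
  · intro x hx
    refine mem_iInter.2 fun n => ?_
    obtain ⟨y, hy, rfl⟩ := mem_iInter.1 hx n
    refine ⟨V y, hV hy, ?_⟩
    exact congrArg (fun H : ℂ ≃ₜ ℂ => H y) (hc.pow_left n).eq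
  · by_contra hcon
    push Not at hcon
    apply hzt
    rw [(nhds_basis_opens (0 : ℂ)).tendsto_right_iff]
    rintro U ⟨h0U, hU⟩
    obtain ⟨N, hN⟩ := exists_subset_nhds_of_isCompact (image_pow_anti hg).directed_ge
      (fun n => (hM.image (hfix n)).cpt) (U := U) (fun x hx => by
        rw [hcon x hx]
        exact hU.mem_nhds h0U)
    filter_upwards [eventually_ge_atTop N] with n hn
    exact hN (image_pow_anti hg hn ⟨z, hz, rfl⟩)

end Pool.Agent.Helper984_CP
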