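import Pool.Agent.Helper984_CP.Dst

/-!
# Bounded winding of separated invariant continua, against the Euler number
-/

set_option autoImplicit false

open Set Filter Topology Complex

noncomputable section

namespace Pool.Agent.Helper984_CP

/-- the branch for a nearby base point -/
theorem br_shift {K : Set ℂ} (hK : FC K) {w0 : ℂ} (hw0 : w0 ∉ K) {d : ℝ} (hd : 0 < d)
    (hd' : ∀ x ∈ K, d ≤ ‖w0 - x‖) {w : ℂ} (hw : w ∈ Metric.ball w0 d) {z : ℂ} (hz : z ∈ K) :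
    br K w z = br K w0 z + Complex.log (1 + (w - w0) / (w0 - z)) -
      Complex.log (1 + (w - w0) / (w0 - 0)) := by
  have hsl : ∀ w ∈ Metric.ball w0 d, ∀ x ∈ K, 1 + (w - w0) / (w0 - x) ∈ slitPlane := by
    intro w hw x hx
    have h0 : 0 < ‖w0 - x‖ := hd.trans_le (hd' x hx)
    have h1 : ‖(w - w0) / (w0 - x)‖ < 1 := by
      rw [norm_div, div_lt_one h0]
      rw [Metric.mem_ball, dist_eq_norm] at hw
      exact hw.trans_le (hd' x hx)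
    left
    have h2 := (Complex.abs_re_le_norm ((w - w0) / (w0 - x))).trans_lt h1
    rw [Complex.add_re, Complex.one_re]
    linarith [(abs_lt.1 h2).1]
  have hwx : ∀ x ∈ K, w0 - x ≠ 0 := fun x hx h => hw0 (by rwa [sub_eq_zero.1 h])
  have h0w : w0 ≠ 0 := hK.ne hw0
  have hwK : w ∉ K := by
    intro h
    have h1 := hd' w h
    rw [Metric.mem_ball, dist_comm, dist_eq_norm] at hw
    linarith
  have hw0' : w ≠ 0 := hK.ne hwK
  refine br_eq hK hwK (K1 := K) subset_rfl hK.pre hK.zero (φ := fun x => br K w0 x +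
    Complex.log (1 + (w - w0) / (w0 - x)) - Complex.log (1 + (w - w0) / (w0 - 0))) ⟨?_, ?_, ?_⟩ hz
  · refine ((br_spec hK hw0).1.add ?_).sub continuousOn_const
    intro x hx
    refine ContinuousWithinAt.clog ?_ (hsl w hw x hx)
    exact (continuousWithinAt_const.add (continuousWithinAt_const.div
      (continuousWithinAt_const.sub continuousWithinAt_id) (hwx x hx)))
  · change br K w0 0 + _ - _ = 0
    rw [(br_spec hK hw0).2.1]
    ring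
  · intro x hx
    change cexp (br K w0 x + Complex.log (1 + (w - w0) / (w0 - x)) -
      Complex.log (1 + (w - w0) / (w0 - 0))) * w = w - x
    rw [Complex.exp_sub, Complex.exp_add, Complex.exp_log (slitPlane_ne_zero (hsl w hw x hx)),
      Complex.exp_log (slitPlane_ne_zero (hsl w hw 0 hK.zero))]
    have e1 : cexp (br K w0 x) = (w0 - x) / w0 := by
      rw [eq_div_iff h0w]
      exact (br_spec hK hw0).2.2 x hx
    have e2 : 1 + (w - w0) / (w0 - x) = (w - x) / (w0 - x) := by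
      field_simp [hwx x hx]
      ring
    have e3 : 1 + (w - w0) / (w0 - 0) = w / w0 := by
      rw [sub_zero]
      field_simp
      ring
    rw [e1, e2, e3]
    have := hwx x hx
    field_simp

/-- the branches are bounded for base points in a compact set off the continuum -/
theorem br_bdd {K Y : Set ℂ} (hK : FC K) (hY : IsCompact Y) (hYK : ∀ w ∈ Y, w ∉ K) :
    ∃ C : ℝ, ∀ w ∈ Y, ∀ z ∈ K, |(br K w z).im| ≤ C := by
  refine hY.induction_on (p := fun S => ∃ C : ℝ, ∀ w ∈ S, ∀ z ∈ K, |(br K w z).im| ≤ C)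
    ⟨0, fun w hw => absurd hw (notMem_empty w)⟩ ?_ ?_ ?_
  · rintro S T hST ⟨C, hC⟩
    exact ⟨C, fun w hw => hC w (hST hw)⟩
  · rintro S T ⟨C, hC⟩ ⟨C', hC'⟩
    refine ⟨max C C', fun w hw z hz => ?_⟩
    rcases hw with hw | hw
    · exact (hC w hw z hz).trans (le_max_left _ _)
    · exact (hC' w hw z hz).trans (le_max_right _ _)
  · intro w0 hw0
    have hw0K := hYK w0 hw0
    obtain ⟨d, hd, hball⟩ := Metric.mem_nhds_iff.1 (hK.cpt.isClosed.isOpen_compl.mem_nhds hw0K)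
    have hd' : ∀ x ∈ K, d ≤ ‖w0 - x‖ := by
      intro x hx
      by_contra hcon
      push Not at hcon
      have hxb : x ∈ Metric.ball w0 d := by
        rw [Metric.mem_ball, dist_comm, dist_eq_norm]
        exact hcon
      exact hball hxb hx
    obtain ⟨B, hB⟩ := hK.cpt.exists_bound_of_continuousOn (br_spec hK hw0K).1
    refine ⟨Metric.ball w0 d, mem_nhdsWithin_of_mem_nhds (Metric.ball_mem_nhds w0 hd),
      B + 2 * Real.pi, fun w hw z hz => ?_⟩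
    rw [br_shift hK hw0K hd hd' hw hz, Complex.sub_im, Complex.add_im, Complex.log_im,
      Complex.log_im]
    have h1 := (Complex.abs_im_le_norm _).trans (hB z hz)
    have h2 := Complex.abs_arg_le_pi (1 + (w - w0) / (w0 - z))
    have h3 := Complex.abs_arg_le_pi (1 + (w - w0) / (w0 - 0))
    rw [abs_le] at *
    constructor <;> linarith

theorem rot0_bdd {ℓ : C(Conf, ℂ)} {R : Set ℂ} (hR : IsCompact R) (hR0 : (0 : ℂ) ∉ R) :
    ∃ M : ℝ, ∀ z ∈ R, |(rot0 ℓ z).im| ≤ M := by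
  have hne : ∀ u : R, (u : ℂ) ≠ 0 := fun u h => hR0 (h ▸ u.2)
  have : CompactSpace R := isCompact_iff_compactSpace.1 hR
  let P : C(R, Conf) := ⟨fun u => ⟨((u : ℂ), 0), hne u⟩, by fun_prop⟩
  obtain ⟨M, hM⟩ := (isCompact_univ (X := R)).exists_bound_of_continuousOn
    (f := fun u => ℓ (P u)) (by fun_prop)
  refine ⟨M, fun z hz => (Complex.abs_im_le_norm _).trans ?_⟩
  rw [rot0_eq (hne ⟨z, hz⟩)]
  exact hM ⟨z, hz⟩ (mem_univ _)

theorem rot0_euler' {κ : ℤ} {U V : ℂ ≃ₜ ℂ} (h : PK κ U V) (hU0 : U 0 = 0) (hV0 : V 0 = 0)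
    {ℓU ℓV : C(Conf, ℂ)} (hU : LogDiff (toC U) ℓU) (hV : LogDiff (toC V) ℓV) {z : ℂ} (hz : z ≠ 0) :
    rot0 ℓU (V z) + rot0 ℓV z = rot0 ℓU z + rot0 ℓV (U z) + 2 * Real.pi * Complex.I * κ := by
  have h1 := (mem_HomK_iff.1 h).2.2.2 ℓU ℓV hU hV ⟨(z, 0), hz⟩
  have hVz : V z ≠ 0 := fun e => hz (V.injective (e.trans hV0.symm))
  have hUz : U z ≠ 0 := fun e => hz (U.injective (e.trans hU0.symm))
  have e1 : Conf.map (toC V) hV.inj ⟨(z, 0), hz⟩ = ⟨(V z, 0), hVz⟩ :=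
    Subtype.ext (Prod.ext rfl hV0)
  have e2 : Conf.map (toC U) hU.inj ⟨(z, 0), hz⟩ = ⟨(U z, 0), hUz⟩ :=
    Subtype.ext (Prod.ext rfl hU0)
  rw [rot0_eq hVz, rot0_eq hz, rot0_eq hz, rot0_eq hUz]
  simp only at h1
  rw [e1, e2] at h1
  exact h1

/-- the pairing of separated points -/
theorem th_equi' {K Γ : Set ℂ} (hK : FC K) (hΓ : FC Γ) {T : ℂ ≃ₜ ℂ} (hT : T 0 = 0)
    {ℓ : C(Conf, ℂ)} (hℓ : LogDiff (toC T) ℓ) {z w : ℂ} (hz : z ∈ K) (hz' : z ∉ Γ) (hw : w ∈ Γ)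
    (hw' : w ∉ K) :
    th (T '' K) (T '' Γ) (T z) (T w) = th K Γ z w + rot0 ℓ z - rot0 ℓ w := by
  have hz0 : z ≠ 0 := hΓ.ne hz'
  have hw0 : w ≠ 0 := hK.ne hw'
  have hzw : z ≠ w := fun e => hw' (e ▸ hz)
  have e1 := br_equi hK hw' hT hℓ hz hzw
  have e2 := br_equi hΓ hz' hT hℓ hw hzw.symm
  have s1 := hℓ.symm hzw
  have s2 := hℓ.symm hz0
  have s3 := hℓ.symm hw0
  rw [th, th, e1, e2, rot0_eq hz0, rot0_eq hw0]
  linear_combination s1 - s2 + s3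

/-- the orbit closure -/
def orbC (g : ℂ ≃ₜ ℂ) (x : ℂ) : Set ℂ := closure (range fun n : ℤ => (g ^ n : ℂ ≃ₜ ℂ) x)

theorem orbC_sub {g : ℂ ≃ₜ ℂ} {M : Set ℂ} (hM : IsClosed M) (hg : g '' M = M) {x : ℂ} (hx : x ∈ M) :
    orbC g x ⊆ M := by
  refine closure_minimal ?_ hM
  rintro _ ⟨n, rfl⟩
  simp only
  have h1 : ∀ y ∈ M, g y ∈ M := fun y hy => hg ▸ mem_image_of_mem _ hy
  have h2 : ∀ y ∈ M, (g⁻¹ : ℂ ≃ₜ ℂ) y ∈ M := by
    intro y hy
    rw [← hg] at hy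
    obtain ⟨x, hx, rfl⟩ := hy
    rw [inv_apply_self']
    exact hx
  induction n using Int.induction_on with
  | zero => exact hx
  | succ i ih =>
    rw [add_comm, zpow_one_add]
    exact h1 _ ih
  | pred i ih =>
    rw [sub_eq_add_neg, add_comm, zpow_add, zpow_neg_one]
    exact h2 _ ih

theorem mem_orbC (g : ℂ ≃ₜ ℂ) (x : ℂ) (n : ℤ) : (g ^ n : ℂ ≃ₜ ℂ) x ∈ orbC g x :=
  subset_closure ⟨n, rfl⟩

theorem comm_apply_pow {g V : ℂ ≃ₜ ℂ} (hc : Commute g V) (m n : ℕ) (x : ℂ) :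
    (g ^ m : ℂ ≃ₜ ℂ) ((V ^ n : ℂ ≃ₜ ℂ) x) = (V ^ n : ℂ ≃ₜ ℂ) ((g ^ m : ℂ ≃ₜ ℂ) x) :=
  congrArg (fun H : ℂ ≃ₜ ℂ => H x) (hc.pow_pow m n).eq

theorem image_comm {g V : ℂ ≃ₜ ℂ} (hc : Commute g V) {M : Set ℂ} (hg : g '' M = M) (n : ℕ) :
    g '' ((V ^ n : ℂ ≃ₜ ℂ) '' M) = (V ^ n : ℂ ≃ₜ ℂ) '' M := by
  have e : (fun x => g ((V ^ n : ℂ ≃ₜ ℂ) x)) = fun x => (V ^ n : ℂ ≃ₜ ℂ) (g x) := by
    funext x
    exact congrArg (fun H : ℂ ≃ₜ ℂ => H x) (hc.pow_right n).eq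
  rw [image_image, e, ← image_image (g := (V ^ n : ℂ ≃ₜ ℂ)) (f := g), hg]

theorem image_pow_eq {g : ℂ ≃ₜ ℂ} {M : Set ℂ} (hg : g '' M = M) (n : ℕ) :
    (g ^ n : ℂ ≃ₜ ℂ) '' M = M := by
  induction n with
  | zero =>
    rw [pow_zero]
    exact image_id M
  | succ n ih =>
    have e : (fun x => g ((g ^ n : ℂ ≃ₜ ℂ) x)) = (g ^ (n + 1) : ℂ ≃ₜ ℂ) := by
      rw [pow_succ']
      rfl
    rw [← e, ← image_image (g := g) (f := (g ^ n : ℂ ≃ₜ ℂ)), ih, hg]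

/-- a translate of an invariant continuum avoids a given compact set -/
theorem exists_away {κ : ℤ} {g V : ℂ ≃ₜ ℂ} (h : PK κ g V) (hκ : κ ≠ 0) (hV0 : V 0 = 0) {M : Set ℂ}
    (hM : FC M) (hg : g '' M = M) (hV : MapsTo V M M) {Y : Set ℂ} (hY : IsClosed Y)
    (h0 : (0 : ℂ) ∉ Y) : ∃ N : ℕ, ∀ n ≥ N, ∀ w ∈ Y, w ∉ (V ^ n : ℂ ≃ₜ ℂ) '' M := by
  have hc : Commute g V := h.comm
  have hfix : ∀ n : ℕ, (V ^ n : ℂ ≃ₜ ℂ) 0 = 0 := fun n => pow_fix hV0 n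
  have hFC : FC (⋂ n : ℕ, (V ^ n : ℂ ≃ₜ ℂ) '' M) :=
    FC.iInter (fun n => hM.image (hfix n)) (image_pow_anti hV)
  have hgJ : g '' (⋂ n : ℕ, (V ^ n : ℂ ≃ₜ ℂ) '' M) = ⋂ n : ℕ, (V ^ n : ℂ ≃ₜ ℂ) '' M := by
    rw [image_iInter g.bijective]
    exact iInter_congr fun n => image_comm hc hg n
  have hs := no_cont h hκ hFC.cpt hFC.pre hgJ (image_iInter_pow hV)
  obtain ⟨N, hN⟩ := exists_subset_nhds_of_isCompact (image_pow_anti hV).directed_ge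
    (fun n => (hM.image (hfix n)).cpt) (U := Yᶜ) (fun x hx => by
      rw [hs hx hFC.zero]
      exact hY.isOpen_compl.mem_nhds h0)
  exact ⟨N, fun n hn w hw hw' => hN (image_pow_anti hV hn hw') hw⟩

/-- the contradiction -/
theorem two_sided {κ : ℤ} {g V : ℂ ≃ₜ ℂ} (h : PK κ g V) (hκ : κ ≠ 0) (hg0 : g 0 = 0) (hV0 : V 0 = 0)
    {M1 M2 : Set ℂ} (h1 : FC M1) (h2 : FC M2) (hg1 : g '' M1 = M1) (hg2 : g '' M2 = M2)
    (hV1 : MapsTo V M1 M1) (hV2 : MapsTo (V⁻¹ : ℂ ≃ₜ ℂ) M2 M2) {x y : ℂ} (hx : x ∈ M1)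
    (hx0 : (0 : ℂ) ∉ orbC g x) (hy : y ∈ M2) (hy0 : (0 : ℂ) ∉ orbC g y) : False := by
  have hc : Commute g V := h.comm
  have hXM := orbC_sub h1.cpt.isClosed hg1 hx
  have hYM := orbC_sub h2.cpt.isClosed hg2 hy
  have hXc : IsCompact (orbC g x) := h1.cpt.of_isClosed_subset isClosed_closure hXM
  have hYc : IsCompact (orbC g y) := h2.cpt.of_isClosed_subset isClosed_closure hYM
  have hVi0 : (V⁻¹ : ℂ ≃ₜ ℂ) 0 = 0 := symm_fix hV0
  obtain ⟨N1, hN1⟩ := exists_away h hκ hV0 h1 hg1 hV1 hYc.isClosed hy0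
  obtain ⟨N2, hN2⟩ := exists_away h.inv_right (neg_ne_zero.2 hκ) hVi0 h2 hg2 hV2 hXc.isClosed hx0
  obtain ⟨N, hN⟩ : ∃ N, N = max N1 N2 := ⟨_, rfl⟩
  have hfix : ∀ n : ℕ, (V ^ n : ℂ ≃ₜ ℂ) 0 = 0 := fun n => pow_fix hV0 n
  obtain ⟨A, hA⟩ : ∃ A, A = (V ^ N : ℂ ≃ₜ ℂ) '' M1 := ⟨_, rfl⟩
  have hAF : FC A := by rw [hA]; exact h1.image (hfix N)
  have hgA : g '' A = A := by rw [hA]; exact image_comm hc hg1 N
  have hYA : ∀ w ∈ orbC g y, w ∉ A := fun w hw => by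
    rw [hA]
    exact hN1 N (by omega) w hw
  -- the two translates of the first orbit closure
  obtain ⟨X0, hX0⟩ : ∃ X0, X0 = (V ^ N : ℂ ≃ₜ ℂ) '' orbC g x := ⟨_, rfl⟩
  obtain ⟨X1, hX1⟩ : ∃ X1, X1 = (V ^ (N + 1) : ℂ ≃ₜ ℂ) '' orbC g x := ⟨_, rfl⟩
  have hX0c : IsCompact X0 := by rw [hX0]; exact hXc.image (V ^ N).continuous
  have hX1c : IsCompact X1 := by rw [hX1]; exact hXc.image (V ^ (N + 1)).continuous
  have hX0A : X0 ⊆ A := by rw [hX0, hA]; exact image_mono hXM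
  have hX1A : X1 ⊆ A := by
    rw [hX1, hA]
    exact (image_mono hXM).trans (image_pow_anti hV1 (Nat.le_succ N))
  have hoff : ∀ n ≥ N2, ∀ z ∈ (V ^ n : ℂ ≃ₜ ℂ) '' orbC g x, z ∉ M2 := by
    rintro n hn _ ⟨x', hx', rfl⟩ hM
    apply hN2 n hn x' hx'
    refine ⟨_, hM, ?_⟩
    rw [inv_pow, inv_apply_self']
  have hX0M : ∀ z ∈ X0, z ∉ M2 := fun z hz => hoff N (by omega) z (hX0 ▸ hz)
  have hX1M : ∀ z ∈ X1, z ∉ M2 := fun z hz => hoff (N + 1) (by omega) z (hX1 ▸ hz)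
  obtain ⟨C1, hC1⟩ := br_bdd hAF hYc hYA
  obtain ⟨C2, hC2⟩ := br_bdd h2 hX0c hX0M
  obtain ⟨C3, hC3⟩ := br_bdd h2 hX1c hX1M
  obtain ⟨ℓV, hℓV⟩ := h.isoId_right.exists_logDiff
  obtain ⟨C4, hC4⟩ := rot0_bdd (ℓ := ℓV) hX0c (fun h => hX0M 0 h h2.zero)
  -- the comparison for the iterates
  have key : ∀ n : ℕ, 2 * Real.pi * |(κ : ℝ)| * n ≤ 4 * C1 + 2 * C2 + 2 * C3 + 2 * C4 := by
    intro n
    have hP := h.zpow_left n
    rw [zpow_natCast] at hP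
    obtain ⟨ℓn, hℓn⟩ := hP.isoId_left.exists_logDiff
    have hgn0 : (g ^ n : ℂ ≃ₜ ℂ) 0 = 0 := pow_fix hg0 n
    have hpow : ∀ m : ℕ, (g ^ n : ℂ ≃ₜ ℂ) ((V ^ m : ℂ ≃ₜ ℂ) x) ∈ (V ^ m : ℂ ≃ₜ ℂ) '' orbC g x := by
      intro m
      rw [comm_apply_pow hc]
      refine mem_image_of_mem _ ?_
      have := mem_orbC g x n
      rwa [zpow_natCast] at this
    have hx00 : (V ^ N : ℂ ≃ₜ ℂ) x ∈ X0 := by
      rw [hX0]
      refine mem_image_of_mem _ ?_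
      have := mem_orbC g x 0
      rwa [zpow_zero] at this
    have hx10 : (V ^ (N + 1) : ℂ ≃ₜ ℂ) x ∈ X1 := by
      rw [hX1]
      refine mem_image_of_mem _ ?_
      have := mem_orbC g x 0
      rwa [zpow_zero] at this
    have hx0n : (g ^ n : ℂ ≃ₜ ℂ) ((V ^ N : ℂ ≃ₜ ℂ) x) ∈ X0 := by rw [hX0]; exact hpow N
    have hx1n : (g ^ n : ℂ ≃ₜ ℂ) ((V ^ (N + 1) : ℂ ≃ₜ ℂ) x) ∈ X1 := by rw [hX1]; exact hpow (N + 1)
    have hy00 : y ∈ orbC g y := by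
      have := mem_orbC g y 0
      rwa [zpow_zero] at this
    have hyn : (g ^ n : ℂ ≃ₜ ℂ) y ∈ orbC g y := by
      have := mem_orbC g y n
      rwa [zpow_natCast] at this
    have bth : ∀ z w : ℂ, w ∈ orbC g y → z ∈ A → (z ∈ X0 → |(th A M2 z w).im| ≤ C1 + C2) ∧
        (z ∈ X1 → |(th A M2 z w).im| ≤ C1 + C3) := by
      intro z w hw hz
      have b1 := hC1 w hw z hz
      constructor
      · intro hz'
        have b2 := hC2 z hz' w (hYM hw)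
        rw [th, Complex.sub_im]
        have := abs_sub (br A w z).im (br M2 z w).im
        linarith
      · intro hz'
        have b2 := hC3 z hz' w (hYM hw)
        rw [th, Complex.sub_im]
        have := abs_sub (br A w z).im (br M2 z w).im
        linarith
    have e0 := th_equi' hAF h2 hgn0 hℓn (hX0A hx00) (hX0M _ hx00) (hYM hy00) (hYA _ hy00)
    have e1 := th_equi' hAF h2 hgn0 hℓn (hX1A hx10) (hX1M _ hx10) (hYM hy00) (hYA _ hy00)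
    rw [image_pow_eq hgA, image_pow_eq hg2] at e0 e1
    have a1 := (bth _ _ hy00 (hX0A hx00)).1 hx00
    have a2 := (bth _ _ hyn (hX0A hx0n)).1 hx0n
    have a3 := (bth _ _ hy00 (hX1A hx10)).2 hx10
    have a4 := (bth _ _ hyn (hX1A hx1n)).2 hx1n
    have hz0 : (V ^ N : ℂ ≃ₜ ℂ) x ≠ 0 := h2.ne (hX0M _ hx00)
    have e2 := rot0_euler' hP hgn0 hV0 hℓn hℓV hz0
    have e3 : V ((V ^ N : ℂ ≃ₜ ℂ) x) = (V ^ (N + 1) : ℂ ≃ₜ ℂ) x := by
      rw [pow_succ']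
      rfl
    rw [e3] at e2
    have a5 := hC4 _ hx00
    have a6 := hC4 _ hx0n
    have e0' := congrArg Complex.im e0
    have e1' := congrArg Complex.im e1
    have e2' := congrArg Complex.im e2
    simp only [Complex.add_im, Complex.sub_im] at e0' e1' e2'
    have e4 : (2 * Real.pi * Complex.I * ((κ * (n : ℤ) : ℤ) : ℂ) : ℂ).im = 2 * Real.pi * (κ * n) := by
      simp
    rw [e4] at e2'
    rw [abs_le] at a1 a2 a3 a4 a5 a6
    rcases abs_cases (κ : ℝ) with ⟨hk, -⟩ | ⟨hk, -⟩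
    · rw [hk]
      nlinarith
    · rw [hk]
      nlinarith
  obtain ⟨n, hn⟩ := exists_nat_gt (4 * C1 + 2 * C2 + 2 * C3 + 2 * C4)
  have hk1 : (1 : ℝ) ≤ |(κ : ℝ)| := by exact_mod_cast Int.one_le_abs hκ
  have hk2 := key n
  have hpi := Real.pi_gt_three
  have hn0 : (0 : ℝ) ≤ n := Nat.cast_nonneg n
  have : (n : ℝ) ≤ 2 * Real.pi * |(κ : ℝ)| * n := by
    have : 1 ≤ 2 * Real.pi * |(κ : ℝ)| := by nlinarith
    nlinarith
  linarith

end Pool.Agent.Helper984_CP
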