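import Pool.Agent.Helper984_CP.Dst2

/-!
# Elements without small orbits accumulating on the common fixed point, or on infinity
-/

set_option autoImplicit false

open Set Filter Topology Complex

noncomputable section

namespace Pool.Agent.Helper984_CP

/-- an invariant continuum inside the ball -/
theorem inv_pair {g V : ℂ ≃ₜ ℂ} (hc : Commute g V) (hg0 : g 0 = 0) (hV0 : V 0 = 0) {r : ℝ}
    (hr : 0 < r) (hNT : ∀ ρ : ℝ, 0 < ρ → ∃ z ∈ stab V (Metric.closedBall 0 ρ), z ≠ 0)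
    (h1 : ∀ Γ : Set ℂ, FC Γ → (∃ z ∈ Γ, z ≠ 0) →
      ∃ z ∈ stab g (Metric.closedBall 0 r) ∩ Γ, z ≠ 0)
    (h2 : ∀ Γ : Set ℂ, FC Γ → (∃ z ∈ Γ, z ≠ 0) →
      ∃ z ∈ stab (g⁻¹ : ℂ ≃ₜ ℂ) (Metric.closedBall 0 r) ∩ Γ, z ≠ 0)
    (hd : ∀ z : ℂ, z ≠ 0 → (∀ n : ℤ, (g ^ n : ℂ ≃ₜ ℂ) z ∈ Metric.closedBall 0 r) →
      (0 : ℂ) ∉ orbC g z) :
    ∃ M : Set ℂ, FC M ∧ g '' M = M ∧ MapsTo V M M ∧ ∃ z ∈ M, z ≠ 0 ∧ (0 : ℂ) ∉ orbC g z := by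
  obtain ⟨M, hM, hMr, hVM, hgM, hMn⟩ := dich hc hg0 hV0 hr hNT
  suffices h : ∃ M' ⊆ M, FC M' ∧ g '' M' = M' ∧ MapsTo V M' M' ∧ ∃ z ∈ M', z ≠ 0 by
    obtain ⟨M', hM'M, hM', hgM', hVM', z, hz, hz0⟩ := h
    refine ⟨M', hM', hgM', hVM', z, hz, hz0, hd z hz0 fun n => hMr (hM'M ?_)⟩
    exact orbC_sub hM'.cpt.isClosed hgM' hz (mem_orbC g z n)
  rcases hgM with hgM | hgM
  · obtain ⟨z, ⟨hz1, hz2⟩, hz0⟩ := h2 M hM hMn
    refine core hc hg0 hM hgM hVM hz2 fun ht => ?_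
    refine hd z hz0 (fun n => ?_) (mem_closure_of_tendsto ht (Eventually.of_forall fun n => ?_))
    · cases n with
      | ofNat n =>
        rw [Int.ofNat_eq_natCast, zpow_natCast]
        exact hMr (MapsTo.pow_mem hgM n hz2)
      | negSucc n =>
        rw [zpow_negSucc, ← inv_pow]
        exact stab_sub_stays hz1 (n + 1)
    · exact ⟨n, by simp only [zpow_natCast]⟩
  · obtain ⟨z, ⟨hz1, hz2⟩, hz0⟩ := h1 M hM hMn
    obtain ⟨M', hM'M, hM', hgM', hVM', hM'n⟩ := core (g := g⁻¹) hc.inv_left (symm_fix hg0) hM hgM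
      hVM hz2 fun ht => by
        refine hd z hz0 (fun n => ?_) (mem_closure_of_tendsto ht (Eventually.of_forall fun n => ?_))
        · cases n with
          | ofNat n =>
            rw [Int.ofNat_eq_natCast, zpow_natCast]
            exact stab_sub_stays hz1 n
          | negSucc n =>
            rw [zpow_negSucc, ← inv_pow]
            exact hMr (MapsTo.pow_mem hgM (n + 1) hz2)
        · refine ⟨-(n : ℤ), ?_⟩
          simp only [zpow_neg, zpow_natCast, inv_pow]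
    refine ⟨M', hM'M, hM', ?_, hVM', hM'n⟩
    conv_lhs => rw [← hgM']
    rw [image_image]
    have e : (fun x => g ((g⁻¹ : ℂ ≃ₜ ℂ) x)) = id := by
      funext x
      exact apply_inv_self' g x
    rw [e, image_id]

/-- no orbit in a small ball accumulates on the origin -/
theorem dst_zero {k : ℤ} {F G : ℂ ≃ₜ ℂ} (h : PK k F G) (hk : k ≠ 0) (hF0 : F 0 = 0)
    (hG0 : G 0 = 0) {a b : ℤ} (hab : a ≠ 0 ∨ b ≠ 0) {r : ℝ} (hr : 0 < r)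
    (hd : ∀ z : ℂ, z ≠ 0 →
      (∀ n : ℤ, ((F ^ a * G ^ b) ^ n : ℂ ≃ₜ ℂ) z ∈ Metric.closedBall 0 r) →
      (0 : ℂ) ∉ orbC (F ^ a * G ^ b) z) : HasC F G := by
  by_contra hno
  have hcm : Commute F G := h.comm
  have hfix : ∀ x y : ℤ, (F ^ x * G ^ y : ℂ ≃ₜ ℂ) 0 = 0 := fun x y => by
    rw [mul_apply', zpow_zero_fix hG0, zpow_zero_fix hF0]
  have hinv : ∀ x y : ℤ, ((F ^ x * G ^ y)⁻¹ : ℂ ≃ₜ ℂ) = F ^ (-x) * G ^ (-y) := fun x y => by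
    rw [mul_inv_rev, ← zpow_neg, ← zpow_neg]
    exact (hcm.symm.zpow_zpow (-y) (-x)).eq
  have hNT : ∀ x y : ℤ, (x ≠ 0 ∨ y ≠ 0) → ∀ ρ : ℝ, 0 < ρ →
      ∃ z ∈ stab (F ^ x * G ^ y) (Metric.closedBall 0 ρ), z ≠ 0 := by
    intro x y hxy ρ hρ
    by_contra hcon
    push Not at hcon
    obtain ⟨D', hD', hD0', hm⟩ := trap_of_stab (hfix x y) (isCompact_closedBall 0 ρ)
      (Metric.closedBall_mem_nhds 0 hρ) (fun z hz => hcon z hz)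
    rw [hinv] at hm
    exact hno (trap_zero h hk hF0 hG0 (by omega) hD' hD0' hm)
  have hAC : ∀ x y : ℤ, (x ≠ 0 ∨ y ≠ 0) → ∀ Γ : Set ℂ, FC Γ → (∃ z ∈ Γ, z ≠ 0) →
      ∃ z ∈ stab (F ^ x * G ^ y) (Metric.closedBall 0 r) ∩ Γ, z ≠ 0 := by
    rintro x y hxy Γ hΓ ⟨w, hw, hw0⟩
    by_contra hcon
    push Not at hcon
    exact hno (acc_zero h hk hF0 hG0 hxy hr hΓ hw hw0 fun z hz => hcon z hz)
  obtain ⟨e, a0, b0, c0, d0, he, ha, hb, hdet⟩ := exists_basis hab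
  obtain ⟨u, hu⟩ : ∃ u, u = F ^ a0 * G ^ b0 := ⟨_, rfl⟩
  have hue : F ^ a * G ^ b = u ^ e := by
    rw [hu, ← zpow_natCast, (hcm.zpow_zpow a0 b0).mul_zpow, ← zpow_mul, ← zpow_mul, ← ha, ← hb]
  obtain ⟨V, hV⟩ : ∃ V, V = F ^ c0 * G ^ d0 := ⟨_, rfl⟩
  obtain ⟨g, hg⟩ : ∃ g, g = F ^ a * G ^ b := ⟨_, rfl⟩
  have hcd : c0 ≠ 0 ∨ d0 ≠ 0 := by
    by_contra hcon
    push Not at hcon
    rw [hcon.1, hcon.2] at hdet
    simp at hdet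
  have hP := h.bilin a0 b0 c0 d0
  rw [hdet, mul_one, ← hu, ← hV] at hP
  have hPg : PK (k * e) g V := by
    have := hP.zpow_left (e : ℤ)
    rwa [zpow_natCast, ← hue, ← hg] at this
  have hκ : k * (e : ℤ) ≠ 0 := mul_ne_zero hk (by exact_mod_cast he)
  have hg0 : g 0 = 0 := by rw [hg]; exact hfix a b
  have hV0 : V 0 = 0 := by rw [hV]; exact hfix c0 d0
  have hgi : (g⁻¹ : ℂ ≃ₜ ℂ) = F ^ (-a) * G ^ (-b) := by rw [hg]; exact hinv a b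
  have hVi : (V⁻¹ : ℂ ≃ₜ ℂ) = F ^ (-c0) * G ^ (-d0) := by rw [hV]; exact hinv c0 d0
  have h1 := hAC a b hab
  have h2 := hAC (-a) (-b) (by omega)
  rw [← hg] at h1 hd
  rw [← hgi] at h2
  have n1 := hNT c0 d0 hcd
  have n2 := hNT (-c0) (-d0) (by omega)
  rw [← hV] at n1
  rw [← hVi] at n2
  have hcgV : Commute g V := hPg.comm
  obtain ⟨M1, hM1, hgM1, hVM1, x, hx, -, hx0⟩ := inv_pair hcgV hg0 hV0 hr n1 h1 h2 hd
  obtain ⟨M2, hM2, hgM2, hVM2, y, hy, -, hy0⟩ := inv_pair hcgV.inv_right hg0 (symm_fix hV0) hr n2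
    h1 h2 hd
  exact two_sided hPg hκ hg0 hV0 hM1 hM2 hgM1 hgM2 hVM1 hVM2 hx hx0 hy hy0

/-- the inversion conjugate of a homeomorphism fixing the origin -/
theorem exists_invH {F : ℂ ≃ₜ ℂ} (h0 : F 0 = 0) : ∃ F' : ℂ ≃ₜ ℂ, ∀ z, F' z = (F z⁻¹)⁻¹ := by
  obtain ⟨v, hv⟩ := exists_inv0 (isHomeo_toC F) h0
  obtain ⟨w, hw⟩ := exists_inv0 (isHomeo_toC F⁻¹) (symm_fix h0)
  have hv' : ∀ z, v z = (F z⁻¹)⁻¹ := hv
  have hw' : ∀ z, w z = ((F⁻¹ : ℂ ≃ₜ ℂ) z⁻¹)⁻¹ := hw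
  refine ⟨⟨⟨v, w, fun z => ?_, fun z => ?_⟩, v.continuous, w.continuous⟩, hv'⟩
  · rw [hv', hw', inv_inv, inv_apply_self', inv_inv]
  · rw [hv', hw', inv_inv, apply_inv_self', inv_inv]

theorem inv_zpow_rel {F F' : ℂ ≃ₜ ℂ} (hF : ∀ z, F' z = (F z⁻¹)⁻¹) (n : ℤ) :
    ∀ z, (F' ^ n : ℂ ≃ₜ ℂ) z = ((F ^ n : ℂ ≃ₜ ℂ) z⁻¹)⁻¹ := by
  have hi : ∀ z, (F'⁻¹ : ℂ ≃ₜ ℂ) z = ((F⁻¹ : ℂ ≃ₜ ℂ) z⁻¹)⁻¹ := by
    intro z
    apply F'.injective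
    rw [apply_inv_self', hF, inv_inv, apply_inv_self', inv_inv]
  induction n using Int.induction_on with
  | zero =>
    intro z
    change z = (z⁻¹)⁻¹
    rw [inv_inv]
  | succ i ih =>
    intro z
    rw [zpow_add_one, zpow_add_one, mul_apply', mul_apply', ih, hF, inv_inv]
  | pred i ih =>
    intro z
    rw [zpow_sub_one, zpow_sub_one, mul_apply', mul_apply', ih, hi, inv_inv]

theorem PK.inv0 {k : ℤ} {F G F' G' : ℂ ≃ₜ ℂ} (h : PK k F G) (hF0 : F 0 = 0) (hG0 : G 0 = 0)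
    (hF : ∀ z, F' z = (F z⁻¹)⁻¹) (hG : ∀ z, G' z = (G z⁻¹)⁻¹) : PK (-k) F' G' := by
  obtain ⟨ℓf, hℓf⟩ := h.isoId_left.exists_logDiff
  obtain ⟨ℓg, hℓg⟩ := h.isoId_right.exists_logDiff
  obtain ⟨M, -, hM, -⟩ := exists_lift hℓf hF0
  obtain ⟨N, -, hN, -⟩ := exists_lift hℓg hG0
  have hE := (mem_HomK_iff.1 h).2.2.2
  have h1 := lift_comm hℓf hℓg hE hF0 hG0 hM hN 0
  refine euler_of_lift (isoId_inv0 h.isoId_left hF0 hF) (isoId_inv0 h.isoId_right hG0 hG)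
    (fun x => ?_) ?_ ?_ (M := ⟨fun w => -M (-w), by fun_prop⟩) (N := ⟨fun w => -N (-w), by fun_prop⟩)
    (fun w => ?_) (fun w => ?_) ?_
  · change F' (G' x) = G' (F' x)
    rw [hF, hG, hG, hF, inv_inv, inv_inv]
    have := (mem_HomK_iff.1 h).1 x⁻¹
    change F (G x⁻¹) = G (F x⁻¹) at this
    rw [this]
  · change F' 0 = 0
    rw [hF, inv_zero, hF0, inv_zero]
  · change G' 0 = 0
    rw [hG, inv_zero, hG0, inv_zero]
  · change cexp (-M (-w)) = F' (cexp w)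
    rw [Complex.exp_neg, hM, Complex.exp_neg, hF]
    rfl
  · change cexp (-N (-w)) = G' (cexp w)
    rw [Complex.exp_neg, hN, Complex.exp_neg, hG]
    rfl
  · change -M (-(-N (-0))) = -N (-(-M (-0))) + tpi * ((-k : ℤ) : ℂ)
    rw [neg_zero, neg_neg, neg_neg, h1]
    push_cast
    ring

end Pool.Agent.Helper984_CP
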