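import Pool.Agent.Helper984_CP.Dst3

/-!
# The criterion for orbits near infinity, and general position
-/

set_option autoImplicit false

open Set Filter Topology Complex

noncomputable section

namespace Pool.Agent.Helper984_CP

/-- the contraction class is invariant under inversion -/
theorem HasC.of_inv0 {F G F' G' : ℂ ≃ₜ ℂ} (hcm : Commute F G) (hF0 : F 0 = 0) (hG0 : G 0 = 0)
    (hF : ∀ z, F' z = (F z⁻¹)⁻¹) (hG : ∀ z, G' z = (G z⁻¹)⁻¹) (h : HasC F' G') : HasC F G := by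
  obtain ⟨a, b, hab, H, hH⟩ := h
  have hrel : ∀ z, (F' ^ a * G' ^ b : ℂ ≃ₜ ℂ) z = ((F ^ a * G ^ b : ℂ ≃ₜ ℂ) z⁻¹)⁻¹ := by
    intro z
    rw [mul_apply', mul_apply', inv_zpow_rel hF, inv_zpow_rel hG, inv_inv]
  obtain ⟨u, hu⟩ : ∃ u, u = F ^ a * G ^ b := ⟨_, rfl⟩
  rw [← hu] at hrel
  have hu0 : u 0 = 0 := by rw [hu, mul_apply', zpow_zero_fix hG0, zpow_zero_fix hF0]
  have hH0 : H 0 = 0 := by
    obtain ⟨y, hy⟩ := H.surjective 0
    have h1 := hH y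
    rw [hy, hrel, inv_zero, hu0, inv_zero, ← hy] at h1
    have h2 : y = y / 2 := H.injective h1
    have h3 : y = 0 := by linear_combination (2 : ℂ) * h2
    rw [h3] at hy
    exact hy
  obtain ⟨H', hH'⟩ := exists_invH hH0
  have hui : ∀ z, u (H' z) = H' (2 * z) := by
    intro z
    have h1 := hH z⁻¹
    rw [hrel] at h1
    rw [hH', hH', ← inv_inj, h1, inv_inv, mul_inv]
    congr 1
    ring
  have e : F ^ (-a) * G ^ (-b) = u⁻¹ := by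
    rw [hu, mul_inv_rev, ← zpow_neg, ← zpow_neg]
    exact (hcm.zpow_zpow (-a) (-b)).eq
  refine ⟨-a, -b, hab.neg_neg, H', fun z => ?_⟩
  rw [e]
  apply u.injective
  rw [apply_inv_self', hui]
  congr 1
  ring

/-- every orbit which stays near infinity is bounded -/
theorem inf_zero {k : ℤ} {F G : ℂ ≃ₜ ℂ} (h : PK k F G) (hk : k ≠ 0) (hF0 : F 0 = 0)
    (hG0 : G 0 = 0) {a b : ℤ} (hab : a ≠ 0 ∨ b ≠ 0) {R : ℝ}
    (hd : ∀ z : ℂ, (∀ n : ℤ, R ≤ ‖((F ^ a * G ^ b) ^ n : ℂ ≃ₜ ℂ) z‖) →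
      ∃ B : ℝ, ∀ n : ℤ, ‖((F ^ a * G ^ b) ^ n : ℂ ≃ₜ ℂ) z‖ ≤ B) : HasC F G := by
  obtain ⟨F', hF'⟩ := exists_invH hF0
  obtain ⟨G', hG'⟩ := exists_invH hG0
  refine HasC.of_inv0 h.comm hF0 hG0 hF' hG' ?_
  have hR : 0 < |R| + 1 := by positivity
  have hu : ∀ z, (F' ^ a * G' ^ b : ℂ ≃ₜ ℂ) z = ((F ^ a * G ^ b : ℂ ≃ₜ ℂ) z⁻¹)⁻¹ := by
    intro z
    rw [mul_apply', mul_apply', inv_zpow_rel hF', inv_zpow_rel hG', inv_inv]
  have hun := inv_zpow_rel hu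
  have hfix : ∀ n : ℤ, ((F ^ a * G ^ b) ^ n : ℂ ≃ₜ ℂ) 0 = 0 := by
    intro n
    apply zpow_zero_fix
    rw [mul_apply', zpow_zero_fix hG0, zpow_zero_fix hF0]
  refine dst_zero (h.inv0 hF0 hG0 hF' hG') (neg_ne_zero.2 hk) ?_ ?_ hab (r := (|R| + 1)⁻¹)
    (inv_pos.2 hR) fun z hz hz1 => ?_
  · rw [hF', inv_zero, hF0, inv_zero]
  · rw [hG', inv_zero, hG0, inv_zero]
  have hne : ∀ n : ℤ, 0 < ‖((F ^ a * G ^ b) ^ n : ℂ ≃ₜ ℂ) z⁻¹‖ := by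
    intro n
    rw [norm_pos_iff]
    intro h0
    apply inv_ne_zero hz
    exact ((F ^ a * G ^ b) ^ n : ℂ ≃ₜ ℂ).injective (h0.trans (hfix n).symm)
  obtain ⟨B, hB⟩ := hd z⁻¹ (fun n => by
    have h1 := hz1 n
    rw [hun, mem_closedBall_zero_iff, norm_inv] at h1
    have h2 := (inv_le_inv₀ (hne n) hR).1 h1
    linarith [le_abs_self R])
  have hBp : 0 < B := (hne 0).trans_le (hB 0)
  intro hcl
  obtain ⟨y, ⟨n, hn⟩, hy⟩ := Metric.mem_closure_iff.1 hcl B⁻¹ (inv_pos.2 hBp)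
  simp only at hn
  rw [dist_zero_left, ← hn, hun, norm_inv, inv_lt_inv₀ (hne n) hBp] at hy
  exact absurd (hB n) (not_le.2 hy)

theorem transl_pow_apply (c : ℂ) (u : ℂ ≃ₜ ℂ) (n : ℤ) (z : ℂ) :
    (((trH c)⁻¹ * u * trH c) ^ n : ℂ ≃ₜ ℂ) z = (u ^ n : ℂ ≃ₜ ℂ) (z + c) - c := by
  have e1 : ((trH c)⁻¹ * u * trH c) ^ n = (trH c)⁻¹ * u ^ n * trH c := by
    have := conj_zpow (a := (trH c)⁻¹) (b := u) (i := n)
    rwa [inv_inv] at this
  rw [e1]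
  exact (sub_eq_add_neg _ _).symm

/-- an element without small orbits accumulating on the common fixed point -/
theorem dst_contr {k : ℤ} {F G : ℂ ≃ₜ ℂ} (h : PK k F G) (hk : k ≠ 0) {c : ℂ} (hFc : F c = c)
    (hGc : G c = c) {a b : ℤ} (hab : a ≠ 0 ∨ b ≠ 0) {r : ℝ} (hr : 0 < r)
    (hd : ∀ z : ℂ, z ≠ c →
      (∀ n : ℤ, ((F ^ a * G ^ b) ^ n : ℂ ≃ₜ ℂ) z ∈ Metric.closedBall c r) →
      c ∉ closure (range fun n : ℤ => ((F ^ a * G ^ b) ^ n : ℂ ≃ₜ ℂ) z)) : HasC F G := by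
  apply HasC.conj (H := trH c)
  refine dst_zero (h.transl c) hk ?_ ?_ hab hr fun z hz hz1 hcl => ?_
  · change F (0 + c) + -c = 0
    rw [zero_add, hFc, add_neg_cancel]
  · change G (0 + c) + -c = 0
    rw [zero_add, hGc, add_neg_cancel]
  rw [transl_zpow] at hz1 hcl
  refine hd (z + c) (fun h0 => hz (by linear_combination h0)) (fun n => ?_) ?_
  · have h1 := hz1 n
    rw [transl_pow_apply, mem_closedBall_zero_iff] at h1
    rw [Metric.mem_closedBall, dist_eq_norm]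
    exact h1
  · rw [Metric.mem_closure_iff]
    intro ε hε
    obtain ⟨y, ⟨n, hn⟩, hy⟩ := Metric.mem_closure_iff.1 hcl ε hε
    simp only at hn
    rw [transl_pow_apply] at hn
    refine ⟨_, ⟨n, rfl⟩, ?_⟩
    simp only
    rw [dist_comm, dist_eq_norm, hn, ← dist_zero_right, dist_comm]
    exact hy

/-- an element all of whose orbits near infinity are bounded -/
theorem inf_contr {k : ℤ} {F G : ℂ ≃ₜ ℂ} (h : PK k F G) (hk : k ≠ 0) {c : ℂ} (hFc : F c = c)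
    (hGc : G c = c) {a b : ℤ} (hab : a ≠ 0 ∨ b ≠ 0) {R : ℝ}
    (hd : ∀ z : ℂ, (∀ n : ℤ, R ≤ ‖((F ^ a * G ^ b) ^ n : ℂ ≃ₜ ℂ) z‖) →
      ∃ B : ℝ, ∀ n : ℤ, ‖((F ^ a * G ^ b) ^ n : ℂ ≃ₜ ℂ) z‖ ≤ B) : HasC F G := by
  apply HasC.conj (H := trH c)
  refine inf_zero (h.transl c) hk ?_ ?_ hab (R := R + ‖c‖) fun z hz => ?_
  · change F (0 + c) + -c = 0
    rw [zero_add, hFc, add_neg_cancel]
  · change G (0 + c) + -c = 0
    rw [zero_add, hGc, add_neg_cancel]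
  rw [transl_zpow] at hz ⊢
  obtain ⟨B, hB⟩ := hd (z + c) fun n => by
    have h1 := hz n
    rw [transl_pow_apply] at h1
    have h2 := norm_sub_le (((F ^ a * G ^ b) ^ n : ℂ ≃ₜ ℂ) (z + c)) c
    linarith
  refine ⟨B + ‖c‖, fun n => ?_⟩
  rw [transl_pow_apply]
  exact (norm_sub_le _ _).trans (by linarith [hB n])

end Pool.Agent.Helper984_CP
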