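import Pool.Agent.Helper984_CP.Scal

/-!
# Plane homeomorphisms which commute with a translation
-/

set_option autoImplicit false

open Set Filter Topology Complex ComplexConjugate

noncomputable section

namespace Pool.Agent.Helper984_CP

theorem inv_period {M Mi : C(ℂ, ℂ)} (h1 : ∀ x, M (Mi x) = x) (h2 : ∀ x, Mi (M x) = x)
    (hp : ∀ w, M (w + tpi) = M w + tpi) (w : ℂ) : Mi (w + tpi) = Mi w + tpi := by
  apply Function.LeftInverse.injective h2
  rw [h1, hp, h1]

theorem ends_bound {M : C(ℂ, ℂ)} (hM : IsHomeo M) (hp : ∀ w, M (w + tpi) = M w + tpi) (ρ : ℝ) :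
    ∃ R : ℝ, ∀ w : ℂ, |(M w).re| ≤ ρ → |w.re| ≤ R := by
  obtain ⟨Mi, h1, h2⟩ := hM
  have hpi := Real.pi_pos
  have hS : IsCompact (Icc (-ρ) ρ ×ℂ Icc 0 (2 * Real.pi)) := isCompact_Icc.reProdIm isCompact_Icc
  obtain ⟨R, hR⟩ := (hS.image Mi.continuous).isBounded.subset_closedBall (0 : ℂ)
  refine ⟨R, fun w hw => ?_⟩
  obtain ⟨n, hn⟩ : ∃ n : ℤ, n = ⌊(M w).im / (2 * Real.pi)⌋ := ⟨_, rfl⟩
  have e1 : Mi (M w + ((-n : ℤ) : ℂ) * tpi) = w + ((-n : ℤ) : ℂ) * tpi := by
    rw [int_shift (M := Mi) (inv_period h1 h2 hp), h2]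
  have him : (M w + ((-n : ℤ) : ℂ) * tpi).im = (M w).im - n * (2 * Real.pi) := by
    rw [Complex.add_im, Complex.mul_im]
    simp
    ring
  have hre : (M w + ((-n : ℤ) : ℂ) * tpi).re = (M w).re := by
    rw [Complex.add_re, Complex.mul_re]
    simp
  have hre' : (w + ((-n : ℤ) : ℂ) * tpi).re = w.re := by
    rw [Complex.add_re, Complex.mul_re]
    simp
  have hf1 := Int.floor_le ((M w).im / (2 * Real.pi))
  have hf2 := Int.lt_floor_add_one ((M w).im / (2 * Real.pi))
  rw [← hn] at hf1 hf2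
  rw [le_div_iff₀ (by positivity)] at hf1
  rw [div_lt_iff₀ (by positivity)] at hf2
  have hmem : M w + ((-n : ℤ) : ℂ) * tpi ∈ Icc (-ρ) ρ ×ℂ Icc 0 (2 * Real.pi) := by
    rw [Complex.mem_reProdIm, hre, him]
    refine ⟨abs_le.1 hw, ?_, ?_⟩ <;> linarith
  have h3 := hR (mem_image_of_mem Mi hmem)
  rw [e1, mem_closedBall_zero_iff] at h3
  rw [← hre']
  exact (Complex.abs_re_le_norm _).trans h3

/-- the left end goes to the left end -/
def LeftP (M : ℂ → ℂ) : Prop := ∀ R : ℝ, ∃ ρ : ℝ, ∀ w : ℂ, w.re ≤ ρ → (M w).re ≤ R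

theorem left_or {M : C(ℂ, ℂ)} (hM : IsHomeo M) (hp : ∀ w, M (w + tpi) = M w + tpi) :
    LeftP M ∨ LeftP (fun w => -conj (M w)) := by
  obtain ⟨R0, hR0⟩ := ends_bound hM hp 0
  have hconn : IsPreconnected {w : ℂ | w.re < -R0} := (convex_halfSpace_re_lt _).isPreconnected
  have hne : ∀ w ∈ {w : ℂ | w.re < -R0}, (M w).re ≠ 0 := by
    intro w hw h0
    have h1 := hR0 w (by rw [h0, abs_zero])
    have h2 : w.re < -R0 := hw
    have h3 := (abs_le.1 h1).1
    linarith
  have hcont : ContinuousOn (fun w => (M w).re) {w : ℂ | w.re < -R0} :=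
    (Complex.continuous_re.comp M.continuous).continuousOn
  by_cases hneg : ∀ w ∈ {w : ℂ | w.re < -R0}, (M w).re < 0
  · left
    intro R
    obtain ⟨R1, hR1⟩ := ends_bound hM hp |R|
    refine ⟨-max R0 R1 - 1, fun w hw => ?_⟩
    have h1 : w.re < -R0 := by linarith [le_max_left R0 R1]
    have h2 := hneg w h1
    by_contra hcon
    push Not at hcon
    have h3 : |(M w).re| ≤ |R| := by
      rw [abs_of_neg h2]
      have := neg_abs_le R
      linarith
    have h4 := hR1 w h3
    have h5 := (abs_le.1 h4).1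
    linarith [le_max_right R0 R1]
  · right
    push Not at hneg
    obtain ⟨w0, hw0, hw0'⟩ := hneg
    have hpos : ∀ w ∈ {w : ℂ | w.re < -R0}, 0 < (M w).re := by
      intro w hw
      by_contra hcon
      push Not at hcon
      obtain ⟨x, hx, hx'⟩ := hconn.intermediate_value₂ hw hw0 hcont continuousOn_const
        (g := fun _ => (0 : ℝ)) hcon hw0'
      exact hne x hx hx'
    intro R
    obtain ⟨R1, hR1⟩ := ends_bound hM hp |R|
    refine ⟨-max R0 R1 - 1, fun w hw => ?_⟩
    have h1 : w.re < -R0 := by linarith [le_max_left R0 R1]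
    have h2 := hpos w h1
    rw [Complex.neg_re, Complex.conj_re]
    by_contra hcon
    push Not at hcon
    have h3 : |(M w).re| ≤ |R| := by
      rw [abs_of_pos h2]
      have := neg_abs_le R
      linarith
    have h4 := hR1 w h3
    have h5 := (abs_le.1 h4).1
    linarith [le_max_right R0 R1]

theorem leftP_inv {M Mi : C(ℂ, ℂ)} (h1 : ∀ x, M (Mi x) = x) (h2 : ∀ x, Mi (M x) = x)
    (hp : ∀ w, M (w + tpi) = M w + tpi) (hl : LeftP M) : LeftP Mi := by
  have hM : IsHomeo M := ⟨Mi, h1, h2⟩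
  have hMi : IsHomeo Mi := ⟨M, h2, h1⟩
  have hpi := inv_period h1 h2 hp
  have hbd : ∀ ρ : ℝ, ∃ R : ℝ, ∀ w : ℂ, |w.re| ≤ ρ → |(M w).re| ≤ R := by
    intro ρ
    obtain ⟨R, hR⟩ := ends_bound hMi hpi ρ
    exact ⟨R, fun w hw => hR (M w) (by rwa [h2])⟩
  -- the map seen from the right
  let N : C(ℂ, ℂ) := ⟨fun w => -M (-w), by fun_prop⟩
  have hN : IsHomeo N := ⟨⟨fun w => -Mi (-w), by fun_prop⟩, fun x => by
      change -M (- -Mi (-x)) = x
      rw [neg_neg, h1, neg_neg], fun x => by
      change -Mi (- -M (-x)) = x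
      rw [neg_neg, h2, neg_neg]⟩
  have hNp : ∀ w, N (w + tpi) = N w + tpi := by
    intro w
    change -M (-(w + tpi)) = -M (-w) + tpi
    have h3 := hp (-(w + tpi))
    have e : -(w + tpi) + tpi = -w := by ring
    rw [e] at h3
    rw [h3]
    ring
  have hright : LeftP N := by
    rcases left_or hN hNp with h | h
    · exact h
    · exfalso
      obtain ⟨ρ1, hρ1⟩ := hl 0
      obtain ⟨ρ2, hρ2⟩ := h 0
      obtain ⟨R, hR⟩ := hbd (max |ρ1| |ρ2|)
      have hle : ∀ w, (M w).re ≤ |R| := by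
        intro w
        by_cases c1 : w.re ≤ ρ1
        · exact (hρ1 w c1).trans (abs_nonneg R)
        · by_cases c2 : (-w).re ≤ ρ2
          · have h3 := hρ2 (-w) c2
            have h4 : (-conj (N (-w))).re = (M w).re := by
              rw [Complex.neg_re, Complex.conj_re]
              change -(-M (- -w)).re = _
              rw [Complex.neg_re, neg_neg, neg_neg]
            rw [h4] at h3
            exact h3.trans (abs_nonneg R)
          · push Not at c1 c2
            rw [Complex.neg_re] at c2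
            have h3 : |w.re| ≤ max |ρ1| |ρ2| := by
              rw [abs_le]
              constructor
              · linarith [neg_abs_le ρ1, le_max_left |ρ1| |ρ2|]
              · linarith [neg_abs_le ρ2, le_max_right |ρ1| |ρ2|]
            exact (le_abs_self _).trans ((hR w h3).trans (le_abs_self R))
      have h5 := hle (Mi ((|R| + 1 : ℝ) : ℂ))
      rw [h1, Complex.ofReal_re] at h5
      linarith
  intro R
  obtain ⟨ρ1, hρ1⟩ := hright 0
  obtain ⟨R1, hR1⟩ := hbd (max |R| |ρ1|)
  refine ⟨-|R1| - 1, fun v hv => ?_⟩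
  by_contra hcon
  push Not at hcon
  by_cases c2 : (-(Mi v)).re ≤ ρ1
  · have h3 := hρ1 _ c2
    change (-M (- -Mi v)).re ≤ 0 at h3
    rw [neg_neg, h1, Complex.neg_re] at h3
    linarith [abs_nonneg R1]
  · push Not at c2
    rw [Complex.neg_re] at c2
    have h3 : |(Mi v).re| ≤ max |R| |ρ1| := by
      rw [abs_le]
      constructor
      · linarith [neg_abs_le R, le_max_left |R| |ρ1|]
      · linarith [neg_abs_le ρ1, le_max_right |R| |ρ1|]
    have h4 := hR1 _ h3
    rw [h1] at h4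
    have h5 := (abs_le.1 h4).1
    linarith [le_abs_self R1]

/-- the map of the punctured plane -/
theorem expC_homeo {M : C(ℂ, ℂ)} (hM : IsHomeo M) (hp : ∀ w, M (w + tpi) = M w + tpi)
    (hl : LeftP M) : ∃ f : C(ℂ, ℂ), IsHomeo f ∧ f 0 = 0 ∧ LiftOf f M := by
  obtain ⟨Mi, h1, h2⟩ := hM
  have hpi := inv_period h1 h2 hp
  have hli := leftP_inv h1 h2 hp hl
  refine ⟨⟨expC M, continuous_expC M.continuous hp hl⟩, ⟨⟨expC Mi, continuous_expC Mi.continuous
    hpi hli⟩, fun z => ?_, fun z => ?_⟩, expC_zero M, hp, fun w => ?_⟩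
  · change expC M (expC Mi z) = z
    rw [expC_comp hp]
    simp only [h1]
    exact expC_id z
  · change expC Mi (expC M z) = z
    rw [expC_comp hpi]
    simp only [h2]
    exact expC_id z
  · exact (expC_exp hp w).symm

/-- a homeomorphism with a periodic lift preserves the orientation -/
theorem isoId_of_lift {f M : C(ℂ, ℂ)} (hf : IsHomeo f) (h0 : f 0 = 0) (hM : LiftOf f M) :
    IsoId f := by
  rcases kneser hf with h | h
  · exact h
  · exfalso
    obtain ⟨N, hN1, hN2⟩ := isoId_lift h (by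
      change f (conj 0) = 0
      rw [map_zero, h0])
    have hr := exp_rigid (A := ℂ) (u := N) (v := fun w => M (conj w)) N.continuous
      (M.continuous.comp Complex.continuous_conj) (fun w => by
        rw [hN2, hM.2]
        change f (conj (cexp w)) = f (cexp (conj w))
        rw [← Complex.exp_conj]) (0 + tpi) 0
    have e1 : conj ((0 : ℂ) + tpi) = 0 - tpi := by
      rw [zero_add, zero_sub, map_mul, map_mul, Complex.conj_I, Complex.conj_ofReal, map_ofNat]
      ring
    have e2 : M (0 - tpi) = M 0 - tpi := by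
      have := hM.1 (0 - tpi)
      rw [sub_add_cancel] at this
      rw [this]
      ring
    rw [e1, e2, hN1, map_zero (starRingEnd ℂ)] at hr
    have e3 : tpi * 2 = 0 := by linear_combination hr
    rcases mul_eq_zero.1 e3 with h | h
    · exact tpi_ne h
    · norm_num at h

/-- a path of periodic homeomorphisms -/
theorem per_path {f M : C(ℂ, ℂ)} (hf : IsHomeo f) (h0 : f 0 = 0) (hM : LiftOf f M) :
    ∃ (P N : C(unitInterval × ℂ, ℂ)) (n : ℤ), (∀ s, IsHomeo (slice P s)) ∧ (∀ s, P (s, 0) = 0) ∧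
      (∀ z, P (0, z) = z) ∧ (∀ z, P (1, z) = f z) ∧ (∀ s, LiftOf (slice P s) (slice N s)) ∧
      (∀ w, N (0, w) = w) ∧ (∀ w, N (1, w) = M w + n * tpi) ∧ ∀ s, IsHomeo (slice N s) := by
  obtain ⟨R, hR, hR0, hR1⟩ := isoId_iff.1 (isoId_of_lift hf h0 hM)
  let P : C(unitInterval × ℂ, ℂ) := ⟨fun q => R q - R (q.1, 0), by fun_prop⟩
  have hPe : ∀ s z, P (s, z) = R (s, z) - R (s, 0) := fun _ _ => rfl
  have hP : ∀ s, IsHomeo (slice P s) := by
    intro s
    obtain ⟨Ri, h1, h2⟩ := hR s
    refine ⟨⟨fun z => Ri (z + R (s, 0)), by fun_prop⟩, fun z => ?_, fun z => ?_⟩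
    · change R (s, Ri (z + R (s, 0))) - R (s, 0) = z
      have := h1 (z + R (s, 0))
      rw [slice_apply] at this
      rw [this]
      ring
    · change Ri (R (s, z) - R (s, 0) + R (s, 0)) = z
      rw [sub_add_cancel]
      exact h2 z
  have hP0 : ∀ s, P (s, 0) = 0 := fun s => by rw [hPe, sub_self]
  have hP1 : ∀ z, P (0, z) = z := fun z => by rw [hPe, hR0, hR0, sub_zero]
  have hP2 : ∀ z, P (1, z) = f z := fun z => by rw [hPe, hR1, hR1, h0, sub_zero]
  obtain ⟨N, hN0, hN⟩ := lift_path P (fun s w h => by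
    exact Complex.exp_ne_zero w ((hP s).injective (h.trans (hP0 s).symm)))
    (M0 := ContinuousMap.id ℂ) ⟨fun w => rfl, fun w => (hP1 _).symm⟩
  obtain ⟨n, hn⟩ := LiftOf.unique (f := f) (M := slice N 1) (N := M) (fun w => by
    rw [(hN 1).2, slice_apply, hP2]) hM.2
  exact ⟨P, N, n, hP, hP0, hP1, hP2, hN, hN0, hn, fun s => lift_homeo (hP s) (hP0 s) (hN s)⟩

/-- the ends are not exchanged -/
theorem leftP_of_isoId {M : C(ℂ, ℂ)} (hM : IsoId M) (hp : ∀ w, M (w + tpi) = M w + tpi) :
    LeftP M := by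
  rcases left_or hM.isHomeo hp with h | h
  · exact h
  · exfalso
    obtain ⟨Mi, h1, h2⟩ := hM.isHomeo
    let N : C(ℂ, ℂ) := ⟨fun w => -conj (M w), by fun_prop⟩
    have hN : IsHomeo N := ⟨⟨fun w => Mi (-conj w), by fun_prop⟩, fun x => by
        change -conj (M (Mi (-conj x))) = x
        rw [h1, map_neg, Complex.conj_conj, neg_neg], fun x => by
        change Mi (-conj (-conj (M x))) = x
        have e : -conj (-conj (M x)) = M x := by
          rw [map_neg (starRingEnd ℂ), Complex.conj_conj, neg_neg]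
        rw [e, h2]⟩
    have hNp : ∀ w, N (w + tpi) = N w + tpi := by
      intro w
      change -conj (M (w + tpi)) = -conj (M w) + tpi
      rw [hp, map_add, map_mul, map_mul, Complex.conj_I, Complex.conj_ofReal, map_ofNat]
      ring
    obtain ⟨f, hf, hf0, hfN⟩ := expC_homeo hN hNp h
    obtain ⟨P, Q, n, -, -, -, -, -, q0, q1, q2⟩ := per_path hf hf0 hfN
    have hQ1 : IsoId (slice Q 1) := isoId_iff.2 ⟨Q, q2, q0, fun x => rfl⟩
    have hNI : IsoId N := by
      have h3 := (isoId_affine (c := 1) (d := -(n * tpi)) one_ne_zero).comp hQ1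
      have e : (⟨fun z => 1 * z + -(n * tpi), by fun_prop⟩ : C(ℂ, ℂ)).comp (slice Q 1) = N := by
        ext w
        change 1 * Q (1, w) + -(n * tpi) = N w
        rw [q1]
        ring
      rwa [e] at h3
    have hJ : IsoId (linC 0 (-1)) := by
      have h3 := hNI.comp (hM.inv h1)
      have e : N.comp Mi = linC 0 (-1) := by
        ext w
        change -conj (M (Mi w)) = 0 * w + -1 * conj w
        rw [h1]
        ring
      rwa [e] at h3
    have h4 := lin_orient hJ
    simp at h4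
    linarith

end Pool.Agent.Helper984_CP
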