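import Pool.Agent.Helper984_CP.Ext

/-!
# Plane homeomorphisms which agree with a Riemann chart on large balls
-/

set_option autoImplicit false

open Set Filter Topology
open scoped NNReal

noncomputable section

namespace Pool.Agent.Helper984_CP

theorem isoId_of_eq_id_on_ball' {u : C(ℂ, ℂ)} (hu : IsHomeo u) {x0 : ℂ} {r : ℝ} (hr : 0 < r)
    (h : ∀ z, ‖z - x0‖ < r → u z = z) : IsoId u := by
  obtain ⟨ui, hu1, hu2⟩ := hu
  let T : C(ℂ, ℂ) := ⟨fun z => z + x0, by fun_prop⟩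
  let Ti : C(ℂ, ℂ) := ⟨fun z => z - x0, by fun_prop⟩
  have hT1 : ∀ x, T (Ti x) = x := fun x => by simp [T, Ti]
  have hT2 : ∀ x, Ti (T x) = x := fun x => by simp [T, Ti]
  have h1 : IsoId (Ti.comp (u.comp T)) := by
    refine isoId_of_eq_id_on_ball ?_ hr ?_
    · exact ⟨Ti.comp (ui.comp T), fun x => by simp [hT1, hT2, hu1],
        fun x => by simp [hT1, hT2, hu2]⟩
    · intro z hz
      have h2 : u (z + x0) = z + x0 := h _ (by simpa using hz)
      change u (z + x0) - x0 = z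
      rw [h2]
      ring
  have h2 := h1.conj hT1 hT2
  have h3 : T.comp ((Ti.comp (u.comp T)).comp Ti) = u := by
    ext x
    simp [hT1]
  rwa [h3] at h2

/-- affine orientation preserving maps are isotopic to the identity -/
theorem isoId_affine {c d : ℂ} (hc : c ≠ 0) : IsoId ⟨fun z => c * z + d, by fun_prop⟩ := by
  rw [isoId_iff]
  refine ⟨⟨fun q => Complex.exp ((q.1 : ℝ) * Complex.log c) * q.2 + (q.1 : ℝ) * d, by fun_prop⟩,
    fun s => ?_, fun x => ?_, fun x => ?_⟩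
  · have he := Complex.exp_ne_zero (((s : ℝ) : ℂ) * Complex.log c)
    refine ⟨⟨fun z => (z - (s : ℝ) * d) / Complex.exp ((s : ℝ) * Complex.log c), by fun_prop⟩,
      fun x => ?_, fun x => ?_⟩
    · simp only [slice_apply, ContinuousMap.coe_mk]
      field_simp
      ring
    · simp only [slice_apply, ContinuousMap.coe_mk]
      field_simp
      ring
  · simp
  · simp [Complex.exp_log hc]

/-- explicit squashing homeomorphism -/
def squash (τ : ℝ) (l : ℝ) (z : ℂ) : ℂ :=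
  ((l / (1 + (l - 1) * min 1 (‖z‖ / τ)) : ℝ) : ℂ) * z

theorem squash_den {l : ℝ} (hl : 0 < l) {m : ℝ} (h0 : 0 ≤ m) (h1 : m ≤ 1) :
    0 < 1 + (l - 1) * m := by
  rcases h0.eq_or_lt with h | h
  · rw [← h]; simp
  · have := mul_pos hl h
    nlinarith

theorem squash_min {τ : ℝ} (hτ : 0 < τ) (z : ℂ) : 0 ≤ min 1 (‖z‖ / τ) := by positivity

theorem continuous_squash {τ l : ℝ} (hτ : 0 < τ) (hl : 0 < l) : Continuous (squash τ l) := by
  unfold squash
  apply Continuous.mul _ continuous_id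
  apply Complex.continuous_ofReal.comp
  apply Continuous.div
  · fun_prop
  · fun_prop
  · intro z
    exact (squash_den hl (squash_min hτ z) (min_le_left _ _)).ne'

theorem squash_of_ge {τ l : ℝ} (hτ : 0 < τ) (hl : 0 < l) {z : ℂ} (hz : τ ≤ ‖z‖) :
    squash τ l z = z := by
  rw [squash, min_eq_left ((one_le_div hτ).2 hz)]
  have : l / (1 + (l - 1) * 1) = 1 := by
    have : 1 + (l - 1) * 1 = l := by ring
    rw [this, div_self hl.ne']
  rw [this]
  simp

theorem norm_squash {τ l : ℝ} (hτ : 0 < τ) (hl : 0 < l) (z : ℂ) :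
    ‖squash τ l z‖ = l / (1 + (l - 1) * min 1 (‖z‖ / τ)) * ‖z‖ := by
  have := squash_den hl (squash_min hτ z) (min_le_left _ _)
  rw [squash, norm_mul, Complex.norm_real, Real.norm_of_nonneg (by positivity)]

theorem norm_squash_le {τ l : ℝ} (hτ : 0 < τ) (hl : 0 < l) {z : ℂ} (hz : ‖z‖ ≤ τ) :
    ‖squash τ l z‖ ≤ τ := by
  have h1 : ‖z‖ / τ ≤ 1 := (div_le_one hτ).2 hz
  have h2 := squash_den hl (by positivity : 0 ≤ ‖z‖ / τ) h1
  rw [norm_squash hτ hl, min_eq_right h1, div_mul_eq_mul_div, div_le_iff₀ h2]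
  have h3 : τ * (1 + (l - 1) * (‖z‖ / τ)) = τ + (l - 1) * ‖z‖ := by field_simp
  rw [h3]
  nlinarith

theorem squash_inv {τ l : ℝ} (hτ : 0 < τ) (hl : 0 < l) (z : ℂ) :
    squash τ l⁻¹ (squash τ l z) = z := by
  rcases le_or_gt τ ‖z‖ with h | h
  · rw [squash_of_ge hτ hl h, squash_of_ge hτ (inv_pos.2 hl) h]
  · have h1 : ‖z‖ / τ ≤ 1 := (div_le_one hτ).2 h.le
    have h2 := squash_den hl (by positivity : 0 ≤ ‖z‖ / τ) h1
    obtain ⟨r, hr⟩ : ∃ r, r = ‖z‖ / τ := ⟨_, rfl⟩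
    have h3 : ‖squash τ l z‖ / τ = l * r / (1 + (l - 1) * r) := by
      rw [norm_squash hτ hl, min_eq_right h1, hr]
      field_simp
    have h4 : ‖squash τ l z‖ / τ ≤ 1 := (div_le_one hτ).2 (norm_squash_le hτ hl h.le)
    rw [squash, min_eq_right h4, h3, squash, min_eq_right h1, ← hr, ← mul_assoc,
      ← Complex.ofReal_mul]
    rw [← hr] at h2
    have h5 : l⁻¹ / (1 + (l⁻¹ - 1) * (l * r / (1 + (l - 1) * r))) * (l / (1 + (l - 1) * r)) = 1 := by
      obtain ⟨D, hD⟩ : ∃ D, D = 1 + (l - 1) * r := ⟨_, rfl⟩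
      rw [← hD] at h2 ⊢
      have e1 : (1 + (l⁻¹ - 1) * (l * r / D)) = 1 / D := by
        have e2 : (1 + (l⁻¹ - 1) * (l * r / D)) = (D + (1 - l) * r) / D := by
          field_simp
        rw [e2, hD]
        congr 1
        ring
      rw [e1]
      field_simp
    rw [h5]
    simp

/-- local extension near the centre -/
theorem exists_local_ext {φ : ℂ → ℂ} (hd : DifferentiableOn ℂ φ (Metric.ball 0 1))
    (hc : deriv φ 0 ≠ 0) : ∃ s0 > 0, s0 < 1 ∧ ∃ Φ : C(ℂ, ℂ), IsoId Φ ∧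
      ∀ z, ‖z‖ ≤ s0 → Φ z = φ z := by
  obtain ⟨c, hcdef⟩ : ∃ c, c = deriv φ 0 := ⟨_, rfl⟩
  rw [← hcdef] at hc
  have hcn : 0 < ‖c‖ := norm_pos_iff.2 hc
  have hs : HasStrictDerivAt φ c 0 := by
    rw [hcdef]
    exact (hd.analyticAt (Metric.isOpen_ball.mem_nhds (by simp))).hasStrictDerivAt
  have h1 := hs.isLittleO.def (by positivity : 0 < ‖c‖ / 4)
  rw [nhds_prod_eq] at h1
  obtain ⟨s1, hs1, h2⟩ : ∃ s1 > 0, ∀ x y : ℂ, ‖x‖ < s1 → ‖y‖ < s1 →
      ‖φ x - φ y - (x - y) * c‖ ≤ ‖c‖ / 4 * ‖x - y‖ := by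
    obtain ⟨t, ht, h3⟩ := Filter.eventually_prod_self_iff'.1 h1
    obtain ⟨s1, hs1, h4⟩ := Metric.mem_nhds_iff.1 ht
    refine ⟨s1, hs1, fun x y hx hy => ?_⟩
    have := h3 x (h4 (mem_ball_zero_iff.2 hx)) y (h4 (mem_ball_zero_iff.2 hy))
    simpa using this
  obtain ⟨s0, hs0⟩ : ∃ s0, s0 = min (s1 / 2) (1 / 2) := ⟨_, rfl⟩
  have hs00 : 0 < s0 := by rw [hs0]; positivity
  have hs0s1 : s0 < s1 := by
    have : s0 ≤ s1 / 2 := by rw [hs0]; exact min_le_left _ _
    linarith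
  have hs01 : s0 < 1 := by
    have : s0 ≤ 1 / 2 := by rw [hs0]; exact min_le_right _ _
    linarith
  -- the radial retraction
  let m : ℂ → ℝ := fun z => max 1 (‖z‖ / s0)
  have hm1 : ∀ z, 1 ≤ m z := fun z => le_max_left _ _
  have hm0 : ∀ z, 0 < m z := fun z => one_pos.trans_le (hm1 z)
  have hmc : Continuous m := by fun_prop
  let ρ : ℂ → ℂ := fun z => z / ((m z : ℝ) : ℂ)
  have hρc : Continuous ρ := by
    apply Continuous.div continuous_id
    · exact Complex.continuous_ofReal.comp hmc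
    · intro z
      exact_mod_cast (hm0 z).ne'
  have hρn : ∀ z, ‖z‖ / m z ≤ s0 := by
    intro z
    rw [div_le_iff₀ (hm0 z)]
    have : ‖z‖ / s0 ≤ m z := le_max_right _ _
    rw [div_le_iff₀ hs00] at this
    linarith
  have hρn' : ∀ z, ‖ρ z‖ ≤ s0 := by
    intro z
    simp only [ρ]
    rw [norm_div, Complex.norm_real, Real.norm_of_nonneg (hm0 z).le]
    exact hρn z
  have hmL : ∀ x y, |m x - m y| ≤ ‖x - y‖ / s0 := by
    intro x y
    have a1 : |m x - m y| ≤ |‖x‖ / s0 - ‖y‖ / s0| := by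
      simp only [m]
      rw [max_comm 1, max_comm 1]
      exact abs_max_sub_max_le_abs _ _ _
    refine a1.trans ?_
    rw [← sub_div, abs_div, abs_of_pos hs00]
    gcongr
    exact abs_norm_sub_norm_le x y
  have hρL : ∀ x y, ‖ρ x - ρ y‖ ≤ 2 * ‖x - y‖ := by
    intro x y
    have hx : ((m x : ℝ) : ℂ) ≠ 0 := by exact_mod_cast (hm0 x).ne'
    have hy : ((m y : ℝ) : ℂ) ≠ 0 := by exact_mod_cast (hm0 y).ne'
    have e1 : ρ x - ρ y = (x - y) / ((m x : ℝ) : ℂ) +
        (y / ((m y : ℝ) : ℂ)) * (((m y - m x : ℝ) : ℂ) / ((m x : ℝ) : ℂ)) := by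
      simp only [ρ]
      push_cast
      field_simp
      ring
    rw [e1]
    have a1 : ‖(x - y) / ((m x : ℝ) : ℂ)‖ ≤ ‖x - y‖ := by
      rw [norm_div, Complex.norm_real, Real.norm_of_nonneg (hm0 x).le]
      exact div_le_self (norm_nonneg _) (hm1 x)
    have a2 : ‖(y / ((m y : ℝ) : ℂ)) * (((m y - m x : ℝ) : ℂ) / ((m x : ℝ) : ℂ))‖ ≤ ‖x - y‖ := by
      rw [norm_mul, norm_div, norm_div, Complex.norm_real, Complex.norm_real, Complex.norm_real,
        Real.norm_of_nonneg (hm0 x).le, Real.norm_of_nonneg (hm0 y).le, Real.norm_eq_abs,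
        abs_sub_comm]
      calc ‖y‖ / m y * (|m x - m y| / m x) ≤ s0 * (‖x - y‖ / s0) := by
            apply mul_le_mul (hρn y) _ (by have := hm0 x; positivity) hs00.le
            exact (div_le_self (abs_nonneg _) (hm1 x)).trans (hmL x y)
        _ = ‖x - y‖ := by field_simp
    linarith [norm_add_le ((x - y) / ((m x : ℝ) : ℂ))
      ((y / ((m y : ℝ) : ℂ)) * (((m y - m x : ℝ) : ℂ) / ((m x : ℝ) : ℂ)))]
  let e : ℂ → ℂ := fun z => (φ (ρ z) - φ 0) / c - ρ z
  have heL : ∀ x y, ‖e x - e y‖ ≤ 1 / 2 * ‖x - y‖ := by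
    intro x y
    have a1 := h2 (ρ x) (ρ y) ((hρn' x).trans_lt hs0s1) ((hρn' y).trans_lt hs0s1)
    have e1 : e x - e y = (φ (ρ x) - φ (ρ y) - (ρ x - ρ y) * c) / c := by
      simp only [e]
      field_simp
      ring
    rw [e1, norm_div, div_le_iff₀ hcn]
    have a2 := hρL x y
    nlinarith [norm_nonneg (x - y)]
  have hec : Continuous e := by
    have : LipschitzWith (1 / 2) e := by
      apply LipschitzWith.of_dist_le_mul
      intro x y
      rw [dist_eq_norm, dist_eq_norm]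
      simpa using heL x y
    exact this.continuous
  have hρid : ∀ z, ‖z‖ ≤ s0 → ρ z = z := by
    intro z hz
    have : m z = 1 := max_eq_left ((div_le_one hs00).2 hz)
    simp only [ρ]
    rw [this]
    simp
  let Θ : C(ℂ, ℂ) := ⟨fun z => z + e z, by fun_prop⟩
  have hΘ : IsoId Θ := by
    rw [isoId_iff]
    refine ⟨⟨fun q => q.2 + (q.1 : ℝ) * e q.2, by fun_prop⟩, fun s => ?_, fun x => ?_,
      fun x => ?_⟩
    · have happ : ApproximatesLinearOn (fun z : ℂ => z + ((s : ℝ) : ℂ) * e z)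
          ((ContinuousLinearEquiv.refl ℝ ℂ : ℂ ≃L[ℝ] ℂ) : ℂ →L[ℝ] ℂ) univ (1 / 2 : ℝ≥0) := by
        intro x _ y _
        have e1 : x + ((s : ℝ) : ℂ) * e x - (y + ((s : ℝ) : ℂ) * e y) -
            ((ContinuousLinearEquiv.refl ℝ ℂ : ℂ ≃L[ℝ] ℂ) : ℂ →L[ℝ] ℂ) (x - y) =
            ((s : ℝ) : ℂ) * (e x - e y) := by
          simp
          ring
        rw [e1, norm_mul, Complex.norm_real, Real.norm_of_nonneg s.2.1]
        have a1 := heL x y
        have a2 := s.2.2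
        have a3 := s.2.1
        have a4 : (((1 / 2 : ℝ≥0) : ℝ≥0) : ℝ) = 1 / 2 := by push_cast; ring
        rw [a4]
        nlinarith [norm_nonneg (e x - e y)]
      have hN : Subsingleton ℂ ∨ (1 / 2 : ℝ≥0) <
          ‖((ContinuousLinearEquiv.refl ℝ ℂ : ℂ ≃L[ℝ] ℂ).symm : ℂ →L[ℝ] ℂ)‖₊⁻¹ := by
        right
        have : ‖((ContinuousLinearEquiv.refl ℝ ℂ : ℂ ≃L[ℝ] ℂ).symm : ℂ →L[ℝ] ℂ)‖₊ = 1 := by
          apply NNReal.eq
          have : ((ContinuousLinearEquiv.refl ℝ ℂ : ℂ ≃L[ℝ] ℂ).symm : ℂ →L[ℝ] ℂ) =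
            ContinuousLinearMap.id ℝ ℂ := rfl
          rw [this]
          simp
        rw [this, inv_one]
        exact_mod_cast (by norm_num : (1 / 2 : ℝ) < 1)
      let Hm := ApproximatesLinearOn.toHomeomorph _ happ hN
      refine ⟨⟨Hm.symm, Hm.symm.continuous⟩, fun x => ?_, fun x => ?_⟩
      · exact Hm.apply_symm_apply x
      · exact Hm.symm_apply_apply x
    · simp
    · simp [Θ]
  refine ⟨s0, hs00, hs01, _, (isoId_affine (d := φ 0) hc).comp hΘ, fun z hz => ?_⟩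
  change c * (z + e z) + φ 0 = φ z
  simp only [e]
  rw [hρid z hz]
  field_simp
  ring

end Pool.Agent.Helper984_CP
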