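import Pool.Agent.Helper984_CP.Engulf

/-!
# Plane homeomorphisms which agree with a Riemann chart on large balls, second part
-/

set_option autoImplicit false

open Set Filter Topology

noncomputable section

namespace Pool.Agent.Helper984_CP

open Classical in
/-- conjugate the squashing map by the chart and extend by the identity -/
def pushFun (φ ψ : ℂ → ℂ) (U : Set ℂ) (τ l : ℝ) (x : ℂ) : ℂ :=
  if x ∈ U then φ (squash τ l (ψ x)) else x

theorem squash_lt {τ l : ℝ} (hτ : 0 < τ) (hτ1 : τ < 1) (hl : 0 < l) {z : ℂ} (hz : ‖z‖ < 1) :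
    ‖squash τ l z‖ < 1 := by
  rcases le_or_gt τ ‖z‖ with h | h
  · rwa [squash_of_ge hτ hl h]
  · exact (norm_squash_le hτ hl h.le).trans_lt hτ1

theorem pushFun_of_mem {φ ψ : ℂ → ℂ} {U : Set ℂ} {τ l : ℝ} {x : ℂ} (hx : x ∈ U) :
    pushFun φ ψ U τ l x = φ (squash τ l (ψ x)) := if_pos hx

theorem pushFun_of_notMem {φ ψ : ℂ → ℂ} {U : Set ℂ} {τ l : ℝ} {x : ℂ} (hx : x ∉ U) :
    pushFun φ ψ U τ l x = x := if_neg hx

theorem pushFun_inv {φ ψ : ℂ → ℂ} {U : Set ℂ} (h : Riem φ ψ U) {τ l : ℝ} (hτ : 0 < τ)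
    (hτ1 : τ < 1) (hl : 0 < l) (x : ℂ) :
    pushFun φ ψ U τ l⁻¹ (pushFun φ ψ U τ l x) = x := by
  by_cases hx : x ∈ U
  · have h1 : ‖squash τ l (ψ x)‖ < 1 := squash_lt hτ hτ1 hl (h.mapsInv x hx)
    rw [pushFun_of_mem hx, pushFun_of_mem (h.maps _ h1), h.left _ h1, squash_inv hτ hl,
      h.right x hx]
  · rw [pushFun_of_notMem hx, pushFun_of_notMem hx]

theorem pushFun_id {φ ψ : ℂ → ℂ} {U : Set ℂ} (h : Riem φ ψ U) {τ l : ℝ} (hτ : 0 < τ)
    (hl : 0 < l) {x : ℂ} (hx : x ∉ φ '' Metric.closedBall 0 τ) :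
    pushFun φ ψ U τ l x = x := by
  by_cases hxU : x ∈ U
  · have h1 : τ ≤ ‖ψ x‖ := by
      by_contra hcon
      push Not at hcon
      exact hx ⟨ψ x, mem_closedBall_zero_iff.2 hcon.le, h.right x hxU⟩
    rw [pushFun_of_mem hxU, squash_of_ge hτ hl h1, h.right x hxU]
  · exact pushFun_of_notMem hxU

theorem isCompact_chart_ball {φ ψ : ℂ → ℂ} {U : Set ℂ} (h : Riem φ ψ U) {τ : ℝ} (hτ1 : τ < 1) :
    IsCompact (φ '' Metric.closedBall 0 τ) :=
  (isCompact_closedBall _ _).image_of_continuousOn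
    (h.contOn.mono (Metric.closedBall_subset_ball hτ1))

theorem continuous_pushFun {φ ψ : ℂ → ℂ} {U : Set ℂ} (h : Riem φ ψ U) {τ l : ℝ} (hτ : 0 < τ)
    (hτ1 : τ < 1) (hl : 0 < l) : Continuous (pushFun φ ψ U τ l) := by
  rw [continuous_iff_continuousAt]
  intro x
  by_cases hx : x ∈ U
  · have hev : pushFun φ ψ U τ l =ᶠ[𝓝 x] fun x => φ (squash τ l (ψ x)) := by
      filter_upwards [h.isOpen.mem_nhds hx] with y hy
      exact pushFun_of_mem hy
    refine ContinuousAt.congr ?_ hev.symm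
    have h1 : ContinuousAt ψ x := h.cont.continuousAt (h.isOpen.mem_nhds hx)
    have h2 : ‖squash τ l (ψ x)‖ < 1 := squash_lt hτ hτ1 hl (h.mapsInv x hx)
    have h3 : ContinuousAt φ (squash τ l (ψ x)) :=
      h.contOn.continuousAt (Metric.isOpen_ball.mem_nhds (mem_ball_zero_iff.2 h2))
    have h4 : ContinuousAt (fun x => squash τ l (ψ x)) x :=
      (continuous_squash hτ hl).continuousAt.comp h1
    exact ContinuousAt.comp (f := fun x => squash τ l (ψ x)) h3 h4
  · have hx' : x ∉ φ '' Metric.closedBall 0 τ := by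
      rintro ⟨z, hz, rfl⟩
      exact hx (h.maps z ((mem_closedBall_zero_iff.1 hz).trans_lt hτ1))
    have hev : pushFun φ ψ U τ l =ᶠ[𝓝 x] fun x => x := by
      filter_upwards [(isCompact_chart_ball h hτ1).isClosed.isOpen_compl.mem_nhds hx'] with y hy
      exact pushFun_id h hτ hl hy
    exact continuousAt_id.congr hev.symm

theorem exists_push {φ ψ : ℂ → ℂ} {U : Set ℂ} (h : Riem φ ψ U) {τ l : ℝ} (hτ : 0 < τ)
    (hτ1 : τ < 1) (hl : 0 < l) : ∃ E : C(ℂ, ℂ), IsoId E ∧
      ∀ z, ‖z‖ < 1 → E (φ z) = φ (squash τ l z) := by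
  refine ⟨⟨_, continuous_pushFun h hτ hτ1 hl⟩, ?_, fun z hz => ?_⟩
  · have hH : IsHomeo ⟨_, continuous_pushFun h hτ hτ1 hl⟩ := by
      refine ⟨⟨_, continuous_pushFun h hτ hτ1 (inv_pos.2 hl)⟩, fun x => ?_, fun x => ?_⟩
      · have := pushFun_inv h hτ hτ1 (inv_pos.2 hl) x
        rw [inv_inv] at this
        exact this
      · exact pushFun_inv h hτ hτ1 hl x
    have hK := isCompact_chart_ball h hτ1
    obtain ⟨x0, hx0⟩ : ∃ x0, x0 ∉ φ '' Metric.closedBall (0 : ℂ) τ := by
      by_contra hcon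
      push Not at hcon
      have : (φ '' Metric.closedBall (0 : ℂ) τ) = univ := eq_univ_of_forall hcon
      rw [this] at hK
      exact noncompact_univ ℂ hK
    obtain ⟨r, hr, hsub⟩ := Metric.isOpen_iff.1 hK.isClosed.isOpen_compl x0 hx0
    refine isoId_of_eq_id_on_ball' hH hr (x0 := x0) fun z hz => ?_
    exact pushFun_id h hτ hl (hsub (mem_ball_iff_norm.2 hz))
  · change pushFun φ ψ U τ l (φ z) = _
    rw [pushFun_of_mem (h.maps z hz), h.left z hz]

theorem isoId_squash {τ l : ℝ} (hτ : 0 < τ) (hl : 0 < l) :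
    IsoId ⟨squash τ l, continuous_squash hτ hl⟩ := by
  have hH : IsHomeo ⟨squash τ l, continuous_squash hτ hl⟩ := by
    refine ⟨⟨_, continuous_squash hτ (inv_pos.2 hl)⟩, fun x => ?_, fun x => ?_⟩
    · have := squash_inv hτ (inv_pos.2 hl) x
      rw [inv_inv] at this
      exact this
    · exact squash_inv hτ hl x
  refine isoId_of_eq_id_on_ball' hH hτ (x0 := ((2 * τ : ℝ) : ℂ)) fun z hz => ?_
  apply squash_of_ge hτ hl
  have h1 : ‖((2 * τ : ℝ) : ℂ)‖ = 2 * τ := by
    rw [Complex.norm_real, Real.norm_of_nonneg (by positivity)]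
  have h2 := norm_sub_norm_le ((2 * τ : ℝ) : ℂ) z
  rw [norm_sub_rev] at hz
  linarith

/-- a homeomorphism of the plane which is the radial map to the disc on a large ball -/
theorem exists_toDisc_ext (R : ℝ) (hR : 0 < R) : ∃ b : C(ℂ, ℂ), IsoId b ∧
    ∀ z, ‖z‖ ≤ R → b z = toDisc z := by
  have hpos : ∀ (t : unitInterval) (z : ℂ), 0 < 1 + (t : ℝ) * min ‖z‖ R := by
    intro t z
    have := t.2.1
    have : 0 ≤ min ‖z‖ R := le_min (norm_nonneg _) hR.le
    positivity
  let P : C(unitInterval × ℂ, ℂ) := ⟨fun q => q.2 / ((1 + (q.1 : ℝ) * min ‖q.2‖ R : ℝ) : ℂ), by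
    apply Continuous.div
    · fun_prop
    · fun_prop
    · intro q
      exact_mod_cast (hpos q.1 q.2).ne'⟩
  have hP : ∀ s z, P (s, z) = z / ((1 + (s : ℝ) * min ‖z‖ R : ℝ) : ℂ) := fun s z => rfl
  refine ⟨slice P 1, ?_, fun z hz => ?_⟩
  · rw [isoId_iff]
    refine ⟨P, fun s => ?_, fun x => ?_, fun x => rfl⟩
    · obtain ⟨t, ht⟩ : ∃ t : ℝ, t = s := ⟨_, rfl⟩
      have ht0 : 0 ≤ t := by rw [ht]; exact s.2.1
      have hR' : 0 < 1 + t * R := by positivity
      have hpos' : ∀ w : ℂ, 0 < 1 - t * min ‖w‖ (R / (1 + t * R)) := by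
        intro w
        have h1 : t * min ‖w‖ (R / (1 + t * R)) ≤ t * (R / (1 + t * R)) := by
          gcongr
          exact min_le_right _ _
        have h2 : t * (R / (1 + t * R)) < 1 := by
          rw [mul_div_assoc', div_lt_one hR']
          linarith
        linarith
      refine ⟨⟨fun w => w / ((1 - t * min ‖w‖ (R / (1 + t * R)) : ℝ) : ℂ), ?_⟩,
        fun x => ?_, fun x => ?_⟩
      · apply Continuous.div
        · fun_prop
        · fun_prop
        · intro w
          exact_mod_cast (hpos' w).ne'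
      · simp only [slice_apply, ContinuousMap.coe_mk]
        rw [hP, ← ht]
        obtain ⟨m, hm⟩ : ∃ m, m = min ‖x‖ (R / (1 + t * R)) := ⟨_, rfl⟩
        have hd := hpos' x
        rw [← hm] at hd ⊢
        have hn : ‖x / ((1 - t * m : ℝ) : ℂ)‖ = ‖x‖ / (1 - t * m) := by
          rw [norm_div, Complex.norm_real, Real.norm_of_nonneg hd.le]
        have key : 1 + t * min (‖x‖ / (1 - t * m)) R = 1 / (1 - t * m) := by
          rcases le_total ‖x‖ (R / (1 + t * R)) with h | h
          · have hm' : m = ‖x‖ := by rw [hm, min_eq_left h]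
            rw [hm'] at hd ⊢
            have h1 : ‖x‖ / (1 - t * ‖x‖) ≤ R := by
              rw [div_le_iff₀ hd]
              rw [le_div_iff₀ hR'] at h
              nlinarith
            rw [min_eq_left h1]
            field_simp
            ring
          · have hm' : m = R / (1 + t * R) := by rw [hm, min_eq_right h]
            have h3 : 1 - t * m = 1 / (1 + t * R) := by
              rw [hm']
              field_simp
              ring
            rw [h3]
            have h1 : R ≤ ‖x‖ / (1 / (1 + t * R)) := by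
              rw [div_le_iff₀ hR'] at h
              rw [div_div_eq_mul_div, div_one]
              exact h
            rw [min_eq_right h1]
            field_simp
        rw [hn, key]
        have hd' : ((1 - t * m : ℝ) : ℂ) ≠ 0 := by exact_mod_cast hd.ne'
        rw [Complex.ofReal_div, Complex.ofReal_one]
        field_simp
      · simp only [slice_apply, ContinuousMap.coe_mk]
        rw [hP, ← ht]
        obtain ⟨m, hm⟩ : ∃ m, m = min ‖x‖ R := ⟨_, rfl⟩
        have hd := hpos s x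
        rw [← ht, ← hm] at hd
        rw [← hm]
        have hn : ‖x / ((1 + t * m : ℝ) : ℂ)‖ = ‖x‖ / (1 + t * m) := by
          rw [norm_div, Complex.norm_real, Real.norm_of_nonneg hd.le]
        have key : 1 - t * min (‖x‖ / (1 + t * m)) (R / (1 + t * R)) = 1 / (1 + t * m) := by
          rcases le_total ‖x‖ R with h | h
          · have hm' : m = ‖x‖ := by rw [hm, min_eq_left h]
            rw [hm'] at hd ⊢
            have h1 : ‖x‖ / (1 + t * ‖x‖) ≤ R / (1 + t * R) := by
              rw [div_le_div_iff₀ hd hR']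
              nlinarith
            rw [min_eq_left h1]
            field_simp
            ring
          · have hm' : m = R := by rw [hm, min_eq_right h]
            rw [hm']
            have h1 : R / (1 + t * R) ≤ ‖x‖ / (1 + t * R) := by gcongr
            rw [min_eq_right h1]
            field_simp
            ring
        rw [hn, key]
        have hd' : ((1 + t * m : ℝ) : ℂ) ≠ 0 := by exact_mod_cast hd.ne'
        rw [Complex.ofReal_div, Complex.ofReal_one]
        field_simp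
    · rw [hP]; simp
  · rw [slice_apply, hP, min_eq_left hz]
    simp [toDisc]

/-- a homeomorphism isotopic to the identity which agrees with the chart on a large ball -/
theorem exists_H {φ ψ : ℂ → ℂ} {U : Set ℂ} (h : Riem φ ψ U) (hc : deriv φ 0 ≠ 0) (R : ℝ) :
    ∃ H : C(ℂ, ℂ), IsoId H ∧ ∀ z, ‖z‖ ≤ R → H z = φ (toDisc z) := by
  wlog hR : 0 < R generalizing R
  · obtain ⟨H, h1, h2⟩ := this 1 one_pos
    exact ⟨H, h1, fun z hz => h2 z (by linarith)⟩
  obtain ⟨b, hb1, hb2⟩ := exists_toDisc_ext R hR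
  obtain ⟨s0, hs0, hs01, Φ, hΦ1, hΦ2⟩ := exists_local_ext h.diff hc
  obtain ⟨s, hs⟩ : ∃ s, s = R / (1 + R) := ⟨_, rfl⟩
  have hspos : 0 < s := by rw [hs]; positivity
  have hs1 : s < 1 := by rw [hs, div_lt_one (by positivity)]; linarith
  obtain ⟨τ, hτ⟩ : ∃ τ, τ = (1 + s) / 2 := ⟨_, rfl⟩
  have hτ0 : 0 < τ := by rw [hτ]; positivity
  have hτ1 : τ < 1 := by rw [hτ]; linarith
  have hsτ : s < τ := by rw [hτ]; linarith
  have hq : 0 < 1 - s / τ := by rw [sub_pos, div_lt_one hτ0]; exact hsτ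
  obtain ⟨l, hl⟩ : ∃ l, l = s0 * (1 - s / τ) := ⟨_, rfl⟩
  have hl0 : 0 < l := by rw [hl]; positivity
  obtain ⟨E, hE1, hE2⟩ := exists_push h hτ0 hτ1 (inv_pos.2 hl0)
  refine ⟨E.comp (Φ.comp ((⟨squash τ l, continuous_squash hτ0 hl0⟩ : C(ℂ, ℂ)).comp b)),
    hE1.comp (hΦ1.comp ((isoId_squash hτ0 hl0).comp hb1)), fun z hz => ?_⟩
  change E (Φ (squash τ l (b z))) = _
  rw [hb2 z hz]
  obtain ⟨w, hw⟩ : ∃ w, w = toDisc z := ⟨_, rfl⟩
  have hws : ‖w‖ ≤ s := by
    have h0 : 0 < 1 + ‖z‖ := by positivity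
    rw [hw, toDisc, norm_div, Complex.norm_real, Real.norm_of_nonneg h0.le, hs,
      div_le_div_iff₀ h0 (by positivity)]
    nlinarith
  rw [← hw]
  have h1 : ‖squash τ l w‖ ≤ s0 := by
    have h2 : ‖w‖ / τ ≤ s / τ := by gcongr
    have h3 : ‖w‖ / τ ≤ 1 := h2.trans (by linarith)
    have h4 : 0 ≤ ‖w‖ / τ := by positivity
    have h5 : 1 - s / τ ≤ 1 + (l - 1) * (‖w‖ / τ) := by nlinarith
    rw [norm_squash hτ0 hl0, min_eq_right h3]
    calc l / (1 + (l - 1) * (‖w‖ / τ)) * ‖w‖ ≤ l / (1 - s / τ) * 1 := by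
          gcongr
          linarith
      _ = s0 := by rw [hl, mul_one, mul_div_assoc, div_self hq.ne', mul_one]
  rw [hΦ2 _ h1, hE2 _ (h1.trans_lt hs01), squash_inv hτ0 hl0]

end Pool.Agent.Helper984_CP
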