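import Pool.Agent.Helper984_CP.Kneser

/-!
# Equivariant extension of compactly supported families
-/

set_option autoImplicit false

open Set Filter Topology ComplexConjugate

noncomputable section

namespace Pool.Agent.Helper984_CP

/-- the region between two circles meets only finitely many translates -/
theorem finite_zpow {l a b : ℝ} (hl : 0 < l) (hl1 : l < 1) (ha : 0 < a) :
    {n : ℤ | a ≤ l ^ n ∧ l ^ n ≤ b}.Finite := by
  obtain ⟨N, hN⟩ := exists_pow_lt_of_lt_one ha hl1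
  obtain ⟨N', hN'⟩ : ∃ N' : ℕ, b < l⁻¹ ^ N' := by
    have h1 : 1 < l⁻¹ := (one_lt_inv₀ hl).2 hl1
    exact pow_unbounded_of_one_lt b h1
  refine (Set.finite_Icc (-(N' : ℤ)) (N : ℤ)).subset ?_
  rintro n ⟨h1, h2⟩
  constructor
  · by_contra hcon
    push Not at hcon
    have h3 : l ^ (-(N' : ℤ)) ≤ l ^ n := (zpow_le_zpow_iff_right_of_lt_one₀ hl hl1).2 hcon.le
    have h4 : l ^ (-(N' : ℤ)) = l⁻¹ ^ N' := by rw [zpow_neg, zpow_natCast, inv_pow]
    rw [h4] at h3
    linarith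
  · by_contra hcon
    push Not at hcon
    have h3 : l ^ n ≤ l ^ (N : ℤ) := (zpow_le_zpow_iff_right_of_lt_one₀ hl hl1).2 hcon.le
    rw [zpow_natCast] at h3
    linarith

/-- the data for the equivariant extension -/
structure EqSupp (l : ℝ) (S : Set ℂ) (r1 r2 : ℝ) : Prop where
  lpos : 0 < l
  llt : l < 1
  rpos : 0 < r1
  lower : ∀ z ∈ S, r1 ≤ ‖z‖
  upper : ∀ z ∈ S, ‖z‖ ≤ r2
  disj : ∀ z ∈ S, ∀ n : ℕ, 0 < n → ((l : ℂ) ^ n * z) ∉ S

theorem EqSupp.lne {l : ℝ} {S : Set ℂ} {r1 r2 : ℝ} (h : EqSupp l S r1 r2) : (l : ℂ) ≠ 0 := by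
  exact_mod_cast h.lpos.ne'

theorem EqSupp.disj' {l : ℝ} {S : Set ℂ} {r1 r2 : ℝ} (h : EqSupp l S r1 r2) {z : ℂ} {n m : ℤ}
    (hn : (l : ℂ) ^ (-n) * z ∈ S) (hm : (l : ℂ) ^ (-m) * z ∈ S) : n = m := by
  have key : ∀ {n m : ℤ}, (l : ℂ) ^ (-n) * z ∈ S → (l : ℂ) ^ (-m) * z ∈ S → ¬ n < m := by
    intro n m hn hm hlt
    obtain ⟨d, hd⟩ := Int.eq_ofNat_of_zero_le (show 0 ≤ m - n by omega)
    have h1 : (l : ℂ) ^ d * ((l : ℂ) ^ (-m) * z) = (l : ℂ) ^ (-n) * z := by
      rw [← mul_assoc, ← zpow_natCast, ← hd, ← zpow_add₀ h.lne]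
      congr 2
      ring
    refine h.disj _ hm d (by omega) ?_
    rw [h1]
    exact hn
  have h1 := key hn hm
  have h2 := key hm hn
  omega

theorem norm_zpow_real {l : ℝ} (hl : 0 < l) (n : ℤ) : ‖(l : ℂ) ^ n‖ = l ^ n := by
  rw [norm_zpow, Complex.norm_real, Real.norm_of_nonneg hl.le]

/-- the terms of the equivariant extension -/
def eqTerm (l : ℝ) (κ : C(unitInterval × ℂ, ℂ)) (n : ℤ) (q : unitInterval × ℂ) : ℂ :=
  (l : ℂ) ^ n * κ (q.1, (l : ℂ) ^ (-n) * q.2) - q.2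

/-- the equivariant extension -/
def eqFun (l : ℝ) (κ : C(unitInterval × ℂ, ℂ)) (q : unitInterval × ℂ) : ℂ :=
  if q.2 = 0 then 0 else q.2 + ∑ᶠ n : ℤ, eqTerm l κ n q

theorem eqTerm_eq_zero {l : ℝ} (hl : (l : ℂ) ≠ 0) {S : Set ℂ} {κ : C(unitInterval × ℂ, ℂ)}
    (hκ : ∀ s z, z ∉ S → κ (s, z) = z) {n : ℤ} {q : unitInterval × ℂ}
    (h : (l : ℂ) ^ (-n) * q.2 ∉ S) : eqTerm l κ n q = 0 := by
  rw [eqTerm, hκ _ _ h, ← mul_assoc, ← zpow_add₀ hl, add_neg_cancel, zpow_zero, one_mul, sub_self]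

theorem eqFun_of_mem {l : ℝ} {S : Set ℂ} {r1 r2 : ℝ} (h : EqSupp l S r1 r2)
    {κ : C(unitInterval × ℂ, ℂ)} (hκ : ∀ s z, z ∉ S → κ (s, z) = z) {n : ℤ} {s : unitInterval}
    {z : ℂ} (hz : (l : ℂ) ^ (-n) * z ∈ S) :
    eqFun l κ (s, z) = (l : ℂ) ^ n * κ (s, (l : ℂ) ^ (-n) * z) := by
  have hz0 : z ≠ 0 := by
    intro h0
    rw [h0, mul_zero] at hz
    have := h.lower _ hz
    rw [norm_zero] at this
    linarith [h.rpos]
  rw [eqFun, if_neg hz0, finsum_eq_single _ n]
  · rw [eqTerm]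
    ring
  · intro m hm
    apply eqTerm_eq_zero h.lne hκ
    intro hmem
    exact hm (h.disj' hmem hz)

theorem eqFun_of_notMem {l : ℝ} {S : Set ℂ} {r1 r2 : ℝ} (h : EqSupp l S r1 r2)
    {κ : C(unitInterval × ℂ, ℂ)} (hκ : ∀ s z, z ∉ S → κ (s, z) = z) {s : unitInterval}
    {z : ℂ} (hz : ∀ n : ℤ, (l : ℂ) ^ (-n) * z ∉ S) : eqFun l κ (s, z) = z := by
  rw [eqFun]
  split_ifs with h0
  · exact h0.symm
  · have : (fun n : ℤ => eqTerm l κ n (s, z)) = fun _ => 0 := by
      ext n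
      exact eqTerm_eq_zero h.lne hκ (hz n)
    rw [this, finsum_zero, add_zero]

theorem continuous_eqFun {l : ℝ} {S : Set ℂ} {r1 r2 : ℝ} (h : EqSupp l S r1 r2)
    {κ : C(unitInterval × ℂ, ℂ)} (hκ : ∀ s z, z ∉ S → κ (s, z) = z) : Continuous (eqFun l κ) := by
  rw [continuous_iff_continuousAt]
  rintro ⟨s0, z0⟩
  by_cases hz0 : z0 = 0
  · -- at the origin
    subst hz0
    have hK : IsCompact ((univ : Set unitInterval) ×ˢ Metric.closedBall (0 : ℂ) r2) :=
      isCompact_univ.prod (isCompact_closedBall _ _)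
    obtain ⟨E, hE⟩ := hK.bddAbove_image (f := fun q : unitInterval × ℂ => ‖κ q‖)
      (Continuous.continuousOn (by fun_prop))
    have hE' : ∀ s, ∀ z ∈ S, ‖κ (s, z)‖ ≤ E := by
      intro s z hz
      exact hE ⟨(s, z), ⟨mem_univ _, mem_closedBall_zero_iff.2 (h.upper z hz)⟩, rfl⟩
    have hE0 : 0 ≤ max E 0 := le_max_right _ _
    have hbound : ∀ q : unitInterval × ℂ, ‖eqFun l κ q‖ ≤ (max E 0 / r1 + 1) * ‖q.2‖ := by
      rintro ⟨s, z⟩
      simp only
      by_cases hex : ∃ n : ℤ, (l : ℂ) ^ (-n) * z ∈ S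
      · obtain ⟨n, hn⟩ := hex
        rw [eqFun_of_mem h hκ hn, norm_mul, norm_zpow_real h.lpos]
        have h1 := h.lower _ hn
        rw [norm_mul, norm_zpow_real h.lpos] at h1
        have hln : 0 < l ^ n := zpow_pos h.lpos n
        have h2 : l ^ n ≤ ‖z‖ / r1 := by
          rw [le_div_iff₀ h.rpos]
          rw [zpow_neg] at h1
          calc l ^ n * r1 ≤ l ^ n * ((l ^ n)⁻¹ * ‖z‖) := by gcongr
            _ = ‖z‖ := by field_simp
        calc l ^ n * ‖κ (s, (l : ℂ) ^ (-n) * z)‖ ≤ (‖z‖ / r1) * max E 0 := by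
              gcongr
              · have := h.rpos; positivity
              · exact (hE' s _ hn).trans (le_max_left _ _)
          _ = max E 0 / r1 * ‖z‖ := by ring
          _ ≤ (max E 0 / r1 + 1) * ‖z‖ := by
              have := norm_nonneg z
              nlinarith
      · push Not at hex
        rw [eqFun_of_notMem h hκ hex]
        have h1 : 0 ≤ max E 0 / r1 := div_nonneg hE0 h.rpos.le
        have := norm_nonneg z
        nlinarith
    have e0 : eqFun l κ (s0, 0) = 0 := by simp [eqFun]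
    rw [ContinuousAt, e0, tendsto_zero_iff_norm_tendsto_zero]
    have h3 : Tendsto (fun q : unitInterval × ℂ => (max E 0 / r1 + 1) * ‖q.2‖) (𝓝 (s0, 0))
        (𝓝 0) := by
      have : Continuous fun q : unitInterval × ℂ => (max E 0 / r1 + 1) * ‖q.2‖ := by fun_prop
      have h4 := this.tendsto (s0, 0)
      simpa using h4
    exact squeeze_zero (fun q => norm_nonneg _) hbound h3
  · -- away from the origin
    have hX : Continuous fun x : unitInterval × {z : ℂ // z ≠ 0} =>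
        ∑ᶠ n : ℤ, eqTerm l κ n (x.1, x.2.1) := by
      apply continuous_finsum
      · intro n
        unfold eqTerm
        fun_prop
      · rintro ⟨s1, ⟨z1, hz1⟩⟩
        have hz1n : 0 < ‖z1‖ := norm_pos_iff.2 hz1
        have hcn : Continuous fun x : unitInterval × {z : ℂ // z ≠ 0} => ‖x.2.1‖ := by fun_prop
        refine ⟨{x | ‖z1‖ / 2 < ‖x.2.1‖ ∧ ‖x.2.1‖ < 2 * ‖z1‖}, ?_, ?_⟩
        · apply IsOpen.mem_nhds
          · apply IsOpen.inter
            · exact isOpen_lt continuous_const hcn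
            · exact isOpen_lt hcn continuous_const
          · constructor
            · change ‖z1‖ / 2 < ‖z1‖
              linarith
            · change ‖z1‖ < 2 * ‖z1‖
              linarith
        · rcases le_or_gt r2 0 with hr2 | hr2
          · refine Set.Finite.subset Set.finite_empty ?_
            rintro n ⟨x, hx1, hx2⟩
            exfalso
            apply hx1
            apply eqTerm_eq_zero h.lne hκ
            intro hmem
            have h1 := h.lower _ hmem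
            have h2 := h.upper _ hmem
            linarith [h.rpos]
          refine (finite_zpow (a := ‖z1‖ / 2 / r2) (b := 2 * ‖z1‖ / r1) h.lpos h.llt
            (by positivity)).subset ?_
          rintro n ⟨x, hx1, hx2, hx3⟩
          have hmem : (l : ℂ) ^ (-n) * x.2.1 ∈ S := by
            by_contra hcon
            exact hx1 (eqTerm_eq_zero h.lne hκ hcon)
          have h1 := h.lower _ hmem
          have h2 := h.upper _ hmem
          rw [norm_mul, norm_zpow_real h.lpos, zpow_neg] at h1 h2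
          have hln : 0 < l ^ n := zpow_pos h.lpos n
          have h1' : l ^ n * r1 ≤ ‖x.2.1‖ := by
            calc l ^ n * r1 ≤ l ^ n * ((l ^ n)⁻¹ * ‖x.2.1‖) := by gcongr
              _ = ‖x.2.1‖ := by field_simp
          have h2' : ‖x.2.1‖ ≤ l ^ n * r2 := by
            calc ‖x.2.1‖ = l ^ n * ((l ^ n)⁻¹ * ‖x.2.1‖) := by field_simp
              _ ≤ l ^ n * r2 := by gcongr
          constructor
          · rw [div_le_iff₀ hr2]
            linarith
          · rw [le_div_iff₀ h.rpos]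
            linarith
    have hX2 : ContinuousOn (eqFun l κ) {q : unitInterval × ℂ | q.2 ≠ 0} := by
      rw [continuousOn_iff_continuous_domRestrict]
      have hc : Continuous fun q : {q : unitInterval × ℂ | q.2 ≠ 0} =>
          (((q.1.1, ⟨q.1.2, q.2⟩) : unitInterval × {z : ℂ // z ≠ 0})) := by
        apply Continuous.prodMk
        · fun_prop
        · apply Continuous.subtype_mk
          fun_prop
      have h4 := hX.comp hc
      have h5 : Continuous fun q : {q : unitInterval × ℂ | q.2 ≠ 0} => q.1.2 := by fun_prop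
      refine (h5.add h4).congr fun q => ?_
      change q.1.2 + _ = eqFun l κ q.1
      rw [eqFun, if_neg q.2]
      rfl
    refine hX2.continuousAt (IsOpen.mem_nhds ?_ hz0)
    exact isOpen_ne_fun (by fun_prop) (by fun_prop)

/-- equivariant extension of a family of homeomorphisms with small support -/
theorem eq_ext {l : ℝ} {S : Set ℂ} {r1 r2 : ℝ} (h : EqSupp l S r1 r2)
    (κ : C(unitInterval × ℂ, ℂ)) (hH : ∀ s, IsHomeo (slice κ s))
    (hκ : ∀ s z, z ∉ S → κ (s, z) = z) :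
    ∃ K : C(unitInterval × ℂ, ℂ), (∀ s, IsHomeo (slice K s)) ∧
      (∀ s z, z ∈ S → K (s, z) = κ (s, z)) ∧ (∀ s z, K (s, l * z) = l * K (s, z)) ∧
      (∀ s z, (∀ n : ℤ, (l : ℂ) ^ (-n) * z ∉ S) → K (s, z) = z) ∧
      ((∀ z ∈ S, conj z ∈ S) → (∀ s z, κ (s, conj z) = conj (κ (s, z))) →
        ∀ s z, K (s, conj z) = conj (K (s, z))) := by
  obtain ⟨κi, hκi⟩ := continuous_inv_family κ (fun s => hH s)
  have hκi' : ∀ s z, z ∉ S → κi (s, z) = z := by
    intro s z hz
    have := (hκi s z).2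
    rwa [hκ s z hz] at this
  have hmaps : ∀ s z, z ∈ S → κ (s, z) ∈ S := by
    intro s z hz
    by_contra hcon
    have h1 := hκi' s _ hcon
    rw [(hκi s z).2] at h1
    rw [← h1] at hcon
    exact hcon hz
  have hmapsi : ∀ s z, z ∈ S → κi (s, z) ∈ S := by
    intro s z hz
    by_contra hcon
    have h1 := hκ s _ hcon
    rw [(hκi s z).1] at h1
    rw [← h1] at hcon
    exact hcon hz
  have hinv : ∀ (κ κi : C(unitInterval × ℂ, ℂ)), (∀ s z, z ∉ S → κ (s, z) = z) →
      (∀ s z, z ∉ S → κi (s, z) = z) → (∀ s z, z ∈ S → κ (s, z) ∈ S) →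
      (∀ s z, κi (s, κ (s, z)) = z) → ∀ s z, eqFun l κi (s, eqFun l κ (s, z)) = z := by
    intro κ κi h1 h2 h3 h4 s z
    by_cases hex : ∃ n : ℤ, (l : ℂ) ^ (-n) * z ∈ S
    · obtain ⟨n, hn⟩ := hex
      rw [eqFun_of_mem h h1 hn]
      have h5 : (l : ℂ) ^ (-n) * ((l : ℂ) ^ n * κ (s, (l : ℂ) ^ (-n) * z)) =
          κ (s, (l : ℂ) ^ (-n) * z) := by
        rw [← mul_assoc, ← zpow_add₀ h.lne, neg_add_cancel, zpow_zero, one_mul]
      have h6 : (l : ℂ) ^ (-n) * ((l : ℂ) ^ n * κ (s, (l : ℂ) ^ (-n) * z)) ∈ S := by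
        rw [h5]
        exact h3 s _ hn
      rw [eqFun_of_mem h h2 h6, h5, h4, ← mul_assoc, ← zpow_add₀ h.lne, add_neg_cancel, zpow_zero,
        one_mul]
    · push Not at hex
      rw [eqFun_of_notMem h h1 hex, eqFun_of_notMem h h2 hex]
  refine ⟨⟨eqFun l κ, continuous_eqFun h hκ⟩, fun s => ?_, fun s z hz => ?_, fun s z => ?_,
    fun s z hz => ?_, fun hS hs s z => ?_⟩
  · refine ⟨⟨fun z => eqFun l κi (s, z), (continuous_eqFun h hκi').comp (by fun_prop)⟩,
      fun z => ?_, fun z => ?_⟩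
    · exact hinv κi κ hκi' hκ hmapsi (fun s z => (hκi s z).1) s z
    · exact hinv κ κi hκ hκi' hmaps (fun s z => (hκi s z).2) s z
  · have hz' : (l : ℂ) ^ (-(0 : ℤ)) * z ∈ S := by simpa using hz
    change eqFun l κ (s, z) = _
    rw [eqFun_of_mem h hκ hz']
    simp
  · change eqFun l κ (s, l * z) = l * eqFun l κ (s, z)
    by_cases hex : ∃ n : ℤ, (l : ℂ) ^ (-n) * z ∈ S
    · obtain ⟨n, hn⟩ := hex
      have e1 : (l : ℂ) ^ (-(n + 1)) * (l * z) = (l : ℂ) ^ (-n) * z := by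
        rw [← mul_assoc, ← zpow_add_one₀ h.lne]
        congr 2
        ring
      rw [eqFun_of_mem h hκ hn, eqFun_of_mem (n := n + 1) h hκ (by rw [e1]; exact hn), e1,
        zpow_add_one₀ h.lne]
      ring
    · push Not at hex
      rw [eqFun_of_notMem h hκ hex, eqFun_of_notMem h hκ fun n => ?_]
      have e1 : (l : ℂ) ^ (-n) * (l * z) = (l : ℂ) ^ (-(n - 1)) * z := by
        rw [← mul_assoc, ← zpow_add_one₀ h.lne]
        congr 2
        ring
      rw [e1]
      exact hex _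
  · exact eqFun_of_notMem h hκ hz
  · change eqFun l κ (s, conj z) = conj (eqFun l κ (s, z))
    have hcz : ∀ n : ℤ, conj ((l : ℂ) ^ n) = (l : ℂ) ^ n := by
      intro n
      rw [map_zpow₀, Complex.conj_ofReal]
    by_cases hex : ∃ n : ℤ, (l : ℂ) ^ (-n) * z ∈ S
    · obtain ⟨n, hn⟩ := hex
      have e1 : (l : ℂ) ^ (-n) * conj z = conj ((l : ℂ) ^ (-n) * z) := by
        rw [map_mul, hcz]
      rw [eqFun_of_mem h hκ hn, eqFun_of_mem h hκ (by rw [e1]; exact hS _ hn), e1, hs, map_mul, hcz]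
    · push Not at hex
      rw [eqFun_of_notMem h hκ hex, eqFun_of_notMem h hκ fun n hmem => ?_]
      have h2 := hS _ hmem
      rw [map_mul, hcz, Complex.conj_conj] at h2
      exact hex n h2

end Pool.Agent.Helper984_CP
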