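import Pool.Agent.Helper984_CP.Path

/-!
# Maps of the punctured plane in logarithmic coordinates
-/

set_option autoImplicit false

open Set Filter Topology Complex

noncomputable section

namespace Pool.Agent.Helper984_CP

/-- the number `2 π i` -/
abbrev tpi : ℂ := 2 * Real.pi * Complex.I

theorem int_shift {M : ℂ → ℂ} (h : ∀ w, M (w + tpi) = M w + tpi) (n : ℤ) (w : ℂ) :
    M (w + n * tpi) = M w + n * tpi := by
  have hnat : ∀ (n : ℕ) (w : ℂ), M (w + n * tpi) = M w + n * tpi := by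
    intro n
    induction n with
    | zero => intro w; simp
    | succ n ih =>
      intro w
      have : w + ((n + 1 : ℕ) : ℂ) * tpi = (w + n * tpi) + tpi := by push_cast; ring
      rw [this, h, ih]
      push_cast
      ring
  obtain ⟨m, rfl | rfl⟩ := n.eq_nat_or_neg
  · exact_mod_cast hnat m w
  · have h1 := hnat m (w + ((-(m : ℤ) : ℤ) : ℂ) * tpi)
    have h2 : w + ((-(m : ℤ) : ℤ) : ℂ) * tpi + m * tpi = w := by push_cast; ring
    rw [h2] at h1
    push_cast at h1 ⊢
    linear_combination (-1 : ℂ) * h1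

/-- the map of the plane with lift `M` in logarithmic coordinates -/
def expMap {Λ : Type*} (M : Λ × ℂ → ℂ) (q : Λ × ℂ) : ℂ :=
  if q.2 = 0 then 0 else cexp (M (q.1, Complex.log q.2))

theorem expMap_zero {Λ : Type*} (M : Λ × ℂ → ℂ) (s : Λ) : expMap M (s, 0) = 0 := by
  simp [expMap]

theorem expMap_exp {Λ : Type*} {M : Λ × ℂ → ℂ} (h : ∀ s w, M (s, w + tpi) = M (s, w) + tpi)
    (s : Λ) (w : ℂ) : expMap M (s, cexp w) = cexp (M (s, w)) := by
  rw [expMap, if_neg (Complex.exp_ne_zero w)]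
  simp only
  have h1 : cexp (Complex.log (cexp w)) = cexp w := Complex.exp_log (Complex.exp_ne_zero w)
  obtain ⟨n, hn⟩ := Complex.exp_eq_exp_iff_exists_int.1 h1
  rw [hn, int_shift (M := fun w => M (s, w)) (h s), Complex.exp_add]
  have : cexp ((n : ℂ) * tpi) = 1 := Complex.exp_int_mul_two_pi_mul_I n
  rw [this, mul_one]

theorem continuous_expMap {Λ : Type*} [TopologicalSpace Λ] {M : Λ × ℂ → ℂ} (hM : Continuous M)
    (h : ∀ s w, M (s, w + tpi) = M (s, w) + tpi)
    (h0 : ∀ (s0 : Λ) (R : ℝ), ∃ ρ : ℝ, ∀ᶠ s in 𝓝 s0, ∀ w : ℂ, w.re ≤ ρ → (M (s, w)).re ≤ R) :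
    Continuous (expMap M) := by
  rw [continuous_iff_continuousAt]
  rintro ⟨s0, z0⟩
  by_cases hz0 : z0 = 0
  · rw [hz0, ContinuousAt, expMap_zero, Metric.tendsto_nhds]
    intro ε hε
    obtain ⟨ρ, hρ⟩ := h0 s0 (Real.log (ε / 2))
    have hnear : ∀ᶠ z : ℂ in 𝓝 0, ‖z‖ < Real.exp ρ := by
      have : Tendsto (fun z : ℂ => ‖z‖) (𝓝 0) (𝓝 ‖(0 : ℂ)‖) := continuous_norm.tendsto 0
      rw [norm_zero] at this
      exact this.eventually (gt_mem_nhds (Real.exp_pos ρ))
    filter_upwards [hρ.prod_nhds hnear] with q hq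
    obtain ⟨hq1, hq2⟩ := hq
    rw [dist_zero_right, expMap]
    split_ifs with hq0
    · rwa [norm_zero]
    · rw [Complex.norm_exp]
      have h1 : (Complex.log q.2).re ≤ ρ := by
        rw [Complex.log_re]
        have := Real.log_le_log (norm_pos_iff.2 hq0) hq2.le
        rwa [Real.log_exp] at this
      have h2 := hq1 _ h1
      have h3 := Real.exp_le_exp.2 h2
      rw [Real.exp_log (by positivity)] at h3
      linarith
  · -- local branch of the logarithm
    let ℓ : ℂ → ℂ := fun z => Complex.log (z / z0) + Complex.log z0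
    have hℓ : ContinuousAt ℓ z0 := by
      apply ContinuousAt.add _ continuousAt_const
      apply ContinuousAt.clog
      · fun_prop
      · rw [div_self hz0]
        exact Complex.one_mem_slitPlane
    have hev : expMap M =ᶠ[𝓝 (s0, z0)] fun q => cexp (M (q.1, ℓ q.2)) := by
      have h1 : ∀ᶠ q : Λ × ℂ in 𝓝 (s0, z0), q.2 ≠ 0 :=
        (continuous_snd.continuousAt (x := (s0, z0))).eventually_ne hz0
      filter_upwards [h1] with q hq
      have h2 : cexp (ℓ q.2) = q.2 := by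
        simp only [ℓ]
        rw [Complex.exp_add, Complex.exp_log (div_ne_zero hq hz0), Complex.exp_log hz0]
        field_simp
      have h3 := expMap_exp h q.1 (ℓ q.2)
      rw [h2] at h3
      exact h3
    refine ContinuousAt.congr ?_ hev.symm
    have h4 : ContinuousAt (fun q : Λ × ℂ => (q.1, ℓ q.2)) (s0, z0) :=
      continuousAt_fst.prodMk (hℓ.comp (x := (s0, z0)) continuousAt_snd)
    exact Complex.continuous_exp.continuousAt.comp (hM.continuousAt.comp h4)

theorem expMap_comp {Λ : Type*} {M N : Λ × ℂ → ℂ} (h : ∀ s w, M (s, w + tpi) = M (s, w) + tpi)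
    (s : Λ) (z : ℂ) :
    expMap M (s, expMap N (s, z)) = expMap (fun q => M (q.1, N q)) (s, z) := by
  by_cases hz : z = 0
  · rw [hz, expMap_zero, expMap_zero, expMap_zero]
  · have e1 : expMap N (s, z) = cexp (N (s, Complex.log z)) := by rw [expMap, if_neg hz]
    have e2 : expMap (fun q => M (q.1, N q)) (s, z) = cexp (M (s, N (s, Complex.log z))) := by
      rw [expMap, if_neg hz]
    rw [e1, expMap_exp h, e2]

theorem expMap_id {Λ : Type*} (s : Λ) (z : ℂ) : expMap (fun q : Λ × ℂ => q.2) (s, z) = z := by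
  by_cases hz : z = 0
  · rw [hz, expMap_zero]
  · rw [expMap, if_neg hz, Complex.exp_log hz]

/-- a single map, with trivial parameter -/
def expC (M : ℂ → ℂ) (z : ℂ) : ℂ := if z = 0 then 0 else cexp (M (Complex.log z))

theorem expC_eq (M : ℂ → ℂ) (z : ℂ) : expC M z = expMap (fun q : Unit × ℂ => M q.2) ((), z) := rfl

theorem expMap_eq {Λ : Type*} (M : Λ × ℂ → ℂ) (s : Λ) (z : ℂ) :
    expMap M (s, z) = expC (fun w => M (s, w)) z := rfl

theorem expC_zero (M : ℂ → ℂ) : expC M 0 = 0 := by simp [expC]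

theorem expC_exp {M : ℂ → ℂ} (h : ∀ w, M (w + tpi) = M w + tpi) (w : ℂ) :
    expC M (cexp w) = cexp (M w) := by
  rw [expC_eq]
  exact expMap_exp (M := fun q : Unit × ℂ => M q.2) (fun s w => h w) () w

theorem continuous_expC {M : ℂ → ℂ} (hM : Continuous M) (h : ∀ w, M (w + tpi) = M w + tpi)
    (h0 : ∀ R : ℝ, ∃ ρ : ℝ, ∀ w : ℂ, w.re ≤ ρ → (M w).re ≤ R) : Continuous (expC M) := by
  have h1 := continuous_expMap (Λ := Unit) (M := fun q : Unit × ℂ => M q.2)
    (hM.comp continuous_snd) (fun s w => h w) (fun s0 R => by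
      obtain ⟨ρ, hρ⟩ := h0 R
      exact ⟨ρ, Eventually.of_forall fun _ => hρ⟩)
  exact h1.comp (f := fun z : ℂ => ((), z)) (continuous_const.prodMk continuous_id)

theorem expC_comp {M N : ℂ → ℂ} (h : ∀ w, M (w + tpi) = M w + tpi) (z : ℂ) :
    expC M (expC N z) = expC (fun w => M (N w)) z :=
  expMap_comp (M := fun q : Unit × ℂ => M q.2) (N := fun q : Unit × ℂ => N q.2)
    (fun _ w => h w) () z

theorem expC_id (z : ℂ) : expC (fun w => w) z = z := expMap_id () z

/-- the lift of a homeomorphism fixing the origin -/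
theorem exists_lift {f : C(ℂ, ℂ)} {ℓ : C(Conf, ℂ)} (hf : LogDiff f ℓ) (h0 : f 0 = 0) :
    ∃ M : C(ℂ, ℂ), (∀ w, M (w + tpi) = M w + tpi) ∧ (∀ w, cexp (M w) = f (cexp w)) ∧
      ∀ w, M w = w + ℓ ⟨(cexp w, 0), Complex.exp_ne_zero w⟩ := by
  refine ⟨⟨fun w => w + ℓ ⟨(cexp w, 0), Complex.exp_ne_zero w⟩, ?_⟩, fun w => ?_, fun w => ?_,
    fun w => rfl⟩
  · exact continuous_id.add (ℓ.continuous.comp
      ((Complex.continuous_exp.prodMk continuous_const).subtype_mk _))
  · simp only [ContinuousMap.coe_mk]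
    have h1 : cexp (w + tpi) = cexp w := Complex.exp_periodic w
    have h2 : (⟨(cexp (w + tpi), 0), Complex.exp_ne_zero _⟩ : Conf) =
      ⟨(cexp w, 0), Complex.exp_ne_zero w⟩ := Subtype.ext (Prod.ext h1 rfl)
    rw [h2]
    ring
  · simp only [ContinuousMap.coe_mk]
    have h1 := hf ⟨(cexp w, 0), Complex.exp_ne_zero w⟩
    simp only [h0, sub_zero] at h1
    rw [Complex.exp_add, mul_comm]
    exact h1

/-- the Euler number in terms of lifts of maps fixing the origin -/
theorem lift_comm {k : ℤ} {f g : C(ℂ, ℂ)} {ℓf ℓg : C(Conf, ℂ)} (hf : LogDiff f ℓf)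
    (hg : LogDiff g ℓg) (hE : EulerEq k f g) (hf0 : f 0 = 0) (hg0 : g 0 = 0) {M N : C(ℂ, ℂ)}
    (hM : ∀ w, cexp (M w) = f (cexp w)) (hN : ∀ w, cexp (N w) = g (cexp w)) (w : ℂ) :
    M (N w) = N (M w) + tpi * k := by
  obtain ⟨M', hM1, hM2, hM3⟩ := exists_lift hf hf0
  obtain ⟨N', hN1, hN2, hN3⟩ := exists_lift hg hg0
  -- `M - M'` and `N - N'` are constants in `2 π i ℤ`
  have key : ∀ (M M' : C(ℂ, ℂ)), (∀ w, cexp (M w) = cexp (M' w)) → ∃ n : ℤ, ∀ w,
      M w = M' w + n * tpi := by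
    intro M M' h
    obtain ⟨n, hn⟩ := Complex.exp_eq_exp_iff_exists_int.1 (h 0)
    refine ⟨n, fun w => ?_⟩
    have := exp_rigid M.continuous M'.continuous h w 0
    rw [hn] at this
    linear_combination this
  obtain ⟨m, hm⟩ := key M M' (fun w => by rw [hM, hM2])
  obtain ⟨n, hn⟩ := key N N' (fun w => by rw [hN, hN2])
  have h1 := hE ℓf ℓg hf hg ⟨(cexp w, 0), Complex.exp_ne_zero w⟩
  have e1 : Conf.map g hg.inj ⟨(cexp w, 0), Complex.exp_ne_zero w⟩ =
      ⟨(cexp (N' w), 0), Complex.exp_ne_zero _⟩ := by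
    apply Subtype.ext
    apply Prod.ext
    · exact (hN2 w).symm
    · exact hg0
  have e2 : Conf.map f hf.inj ⟨(cexp w, 0), Complex.exp_ne_zero w⟩ =
      ⟨(cexp (M' w), 0), Complex.exp_ne_zero _⟩ := by
    apply Subtype.ext
    apply Prod.ext
    · exact (hM2 w).symm
    · exact hf0
  rw [e1, e2] at h1
  have a1 := hM3 (N' w)
  have a2 := hN3 (M' w)
  have a3 := hM3 w
  have a4 := hN3 w
  have b1 : M' (N' w) = N' (M' w) + tpi * k := by
    linear_combination h1 + a1 - a2 - a3 + a4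
  rw [hm (N w), hn w, int_shift hM1, b1, hn (M w), hm w, int_shift hN1]
  ring

end Pool.Agent.Helper984_CP
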