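import Pool.Agent.Helper984_CP.Lav
import Pool.Agent.Helper984_CP.Disc

/-!
# Boundary extension of plane homeomorphisms in a Riemann chart
-/

set_option autoImplicit false

open Set Filter Topology

noncomputable section

namespace Pool.Agent.Helper984_CP

/-- homeomorphisms of the plane respect smallness -/
theorem small_image {f fi : C(ℂ, ℂ)} (h2 : ∀ x, fi (f x) = x) {ε' : ℝ}
    (hε' : 0 < ε') : ∃ ε > 0, ∀ A : Set ℂ, Small ε A → Small ε' (f '' A) := by
  obtain ⟨R0, hR0, H⟩ : ∃ R0 > 0, ∀ z, ‖f z‖ ≤ 1 / ε' → ‖z‖ ≤ R0 := by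
    obtain ⟨M, hM⟩ := (isCompact_closedBall (0 : ℂ) (1 / ε')).exists_bound_of_continuousOn
      fi.continuous.continuousOn
    refine ⟨max M 1, by positivity, fun z hz => ?_⟩
    have := hM (f z) (mem_closedBall_zero_iff.2 hz)
    rw [h2] at this
    exact this.trans (le_max_left _ _)
  have hu := (isCompact_closedBall (0 : ℂ) R0).uniformContinuousAt_of_continuousAt f
    (fun a _ => f.continuous.continuousAt) (Metric.dist_mem_uniformity (half_pos hε'))
  obtain ⟨e, he, h3⟩ := Metric.mem_uniformity_dist.1 hu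
  obtain ⟨ε, hε⟩ : ∃ ε, ε = min (e / 2) (1 / (2 * R0)) := ⟨_, rfl⟩
  have hε0 : 0 < ε := by rw [hε]; positivity
  have hεe : ε < e := by
    have : ε ≤ e / 2 := by rw [hε]; exact min_le_left _ _
    linarith
  have hεR : R0 < 1 / ε := by
    have h4 : ε ≤ 1 / (2 * R0) := by rw [hε]; exact min_le_right _ _
    rw [lt_div_iff₀ hε0]
    rw [le_div_iff₀ (by positivity)] at h4
    nlinarith
  refine ⟨ε, hε0, fun A hA => ?_⟩
  by_cases hmeet : ∃ z0 ∈ A, ‖z0‖ ≤ R0
  · obtain ⟨z0, hz0, hz0R⟩ := hmeet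
    right
    rcases hA with hA | hA
    · have := hA z0 hz0
      linarith
    · have key : ∀ z ∈ A, ‖f z0 - f z‖ < ε' / 2 := by
        intro z hz
        have h5 := h3 (a := z0) (b := z) (by
          rw [dist_eq_norm]
          exact (hA z0 hz0 z hz).trans_lt hεe) (mem_closedBall_zero_iff.2 hz0R)
        have h6 : dist (f z0) (f z) < ε' / 2 := h5
        rwa [dist_eq_norm] at h6
      rintro _ ⟨z, hz, rfl⟩ _ ⟨z', hz', rfl⟩
      have a1 := key z hz
      have a2 := key z' hz'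
      have a3 : f z - f z' = (f z0 - f z') - (f z0 - f z) := by ring
      rw [a3]
      have := norm_sub_le (f z0 - f z') (f z0 - f z)
      linarith
  · push Not at hmeet
    left
    rintro _ ⟨z, hz, rfl⟩
    by_contra hcon
    push Not at hcon
    have := H z hcon.le
    have := hmeet z hz
    linarith

/-- circular arcs about a boundary point are connected -/
theorem arc_preconnected {ζ : ℂ} (hζ : ‖ζ‖ = 1) {r : ℝ} (hr : 0 < r) :
    IsPreconnected {z : ℂ | ‖z‖ < 1 ∧ ‖z - ζ‖ = r} := by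
  have hpi := Real.pi_pos
  have hζ0 : ζ ≠ 0 := norm_pos_iff.1 (by rw [hζ]; exact one_pos)
  obtain ⟨s, hs⟩ : ∃ s, Real.exp s = r := ⟨Real.log r, Real.exp_log hr⟩
  let T : Set ℝ := {t : ℝ | (-Real.pi < t ∧ t < Real.pi) ∧
    ‖1 - Complex.exp (s + t * Complex.I)‖ < 1}
  have hT : OrdConnected T := by
    rw [ordConnected_iff_uIcc_subset]
    intro t0 h0 t1 h1 t ht
    have b0 := h0.1
    have b1 := h1.1
    have c0 := (norm_one_sub_exp_lt s t0).1 h0.2
    have c1 := (norm_one_sub_exp_lt s t1).1 h1.2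
    have hbt : -Real.pi < t ∧ t < Real.pi := by
      rw [mem_uIcc] at ht
      rcases ht with ht | ht
      · exact ⟨by linarith [ht.1], by linarith [ht.2]⟩
      · exact ⟨by linarith [ht.1], by linarith [ht.2]⟩
    refine ⟨hbt, (norm_one_sub_exp_lt s t).2 ?_⟩
    have habs : |t| ≤ max |t0| |t1| := by
      rw [mem_uIcc] at ht
      rcases ht with ht | ht
      · exact abs_le_max_abs_abs ht.1 ht.2
      · have := abs_le_max_abs_abs ht.1 ht.2
        rwa [max_comm] at this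
    rw [← Real.cos_abs t]
    rcases le_max_iff.1 habs with h | h
    · have := Real.cos_le_cos_of_nonneg_of_le_pi (abs_nonneg t) (abs_le.2 ⟨b0.1.le, b0.2.le⟩) h
      rw [Real.cos_abs t0] at this
      linarith
    · have := Real.cos_le_cos_of_nonneg_of_le_pi (abs_nonneg t) (abs_le.2 ⟨b1.1.le, b1.2.le⟩) h
      rw [Real.cos_abs t1] at this
      linarith
  have himg : {z : ℂ | ‖z‖ < 1 ∧ ‖z - ζ‖ = r} =
      (fun t : ℝ => ζ * (1 - Complex.exp (s + t * Complex.I))) '' T := by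
    ext z
    constructor
    · rintro ⟨hz, hzs⟩
      obtain ⟨q, hq⟩ : ∃ q, q = 1 - z / ζ := ⟨_, rfl⟩
      have hzq : z = ζ * (1 - q) := by rw [hq]; field_simp; ring
      have hqn : ‖q‖ = Real.exp s := by
        rw [hs, ← hzs, hzq]
        have : ζ * (1 - q) - ζ = -(ζ * q) := by ring
        rw [this, norm_neg, norm_mul, hζ, one_mul]
      have h1q : ‖1 - q‖ < 1 := by
        rw [hzq, norm_mul, hζ, one_mul] at hz
        exact hz
      have hexp : Complex.exp (s + q.arg * Complex.I) = q := by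
        rw [Complex.exp_add, ← Complex.ofReal_exp, ← hqn]
        exact Complex.norm_mul_exp_arg_mul_I q
      have hre : 0 < q.re := by
        have h3 : ‖1 - q‖ ^ 2 < 1 := by nlinarith [norm_nonneg (1 - q)]
        rw [← Complex.normSq_eq_norm_sq, Complex.normSq_apply] at h3
        simp only [Complex.sub_re, Complex.one_re, Complex.sub_im, Complex.one_im] at h3
        nlinarith [mul_self_nonneg q.re, mul_self_nonneg q.im]
      have h4 : |q.arg| < Real.pi / 2 := Complex.abs_arg_lt_pi_div_two_iff.2 (Or.inl hre)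
      rw [abs_lt] at h4
      refine ⟨q.arg, ⟨⟨by linarith [h4.1], by linarith [h4.2]⟩, by rw [hexp]; exact h1q⟩, ?_⟩
      simp only
      rw [hexp, ← hzq]
    · rintro ⟨t, ⟨-, ht⟩, rfl⟩
      refine ⟨?_, ?_⟩
      · simp only
        rw [norm_mul, hζ, one_mul]
        exact ht
      · simp only
        have : ζ * (1 - Complex.exp (s + t * Complex.I)) - ζ =
            -(ζ * Complex.exp (s + t * Complex.I)) := by ring
        rw [this, norm_neg, norm_mul, hζ, one_mul, Complex.norm_exp, ← hs]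
        simp
  rw [himg]
  exact hT.isPreconnected.image _ (by fun_prop)

/-- homeomorphisms of the open disc with small images of arcs extend to the closed disc -/
theorem extend_disc {β βi : ℂ → ℂ} (h1 : ContinuousOn β (Metric.ball 0 1))
    (h2 : ContinuousOn βi (Metric.ball 0 1)) (m1 : ∀ z, ‖z‖ < 1 → ‖β z‖ < 1)
    (m2 : ∀ z, ‖z‖ < 1 → ‖βi z‖ < 1) (hl : ∀ z, ‖z‖ < 1 → βi (β z) = z)
    (hr : ∀ z, ‖z‖ < 1 → β (βi z) = z)
    (H : ∀ δ > 0, ∀ r1 > 0, ∃ r0, 0 < r0 ∧ r0 < r1 ∧ ∀ ζ : ℂ, ‖ζ‖ = 1 → ∃ r, r0 < r ∧ r < r1 ∧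
      ∀ z z', ‖z‖ < 1 → ‖z - ζ‖ = r → ‖z'‖ < 1 → ‖z' - ζ‖ = r → ‖β z - β z'‖ ≤ δ) :
    ∃ F : ℂ → ℂ, DiscMap F ∧ ∀ z, ‖z‖ < 1 → F z = β z := by
  -- properness
  have hprop : ∀ ρ < 1, ∃ r > 0, ∀ z, ‖z‖ < 1 → 1 - r < ‖z‖ → ρ < ‖β z‖ := by
    intro ρ hρ
    rcases lt_or_ge ρ 0 with h0 | h0
    · exact ⟨1, one_pos, fun z _ _ => h0.trans_le (norm_nonneg _)⟩
    have hsub : Metric.closedBall (0 : ℂ) ρ ⊆ Metric.ball 0 1 := Metric.closedBall_subset_ball hρ
    have hK : IsCompact (βi '' Metric.closedBall (0 : ℂ) ρ) :=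
      (isCompact_closedBall _ _).image_of_continuousOn (h2.mono hsub)
    obtain ⟨q, hq, hmax⟩ := hK.exists_isMaxOn (f := fun z => ‖z‖)
      ⟨βi 0, 0, mem_closedBall_zero_iff.2 (by simpa using h0), rfl⟩ (by fun_prop)
    have hq1 : ‖q‖ < 1 := by
      obtain ⟨z, hz, rfl⟩ := hq
      exact m2 z (mem_ball_zero_iff.1 (hsub hz))
    refine ⟨1 - ‖q‖, by linarith, fun z hz hz' => ?_⟩
    by_contra hcon
    push Not at hcon
    have h3 := hmax ⟨β z, mem_closedBall_zero_iff.2 hcon, rfl⟩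
    simp only [mem_ofPred_eq] at h3
    rw [hl z hz] at h3
    linarith
  have hβ0 : ‖β 0‖ < 1 := m1 0 (by simp)
  -- uniform smallness near the boundary
  have hunif : ∀ η > 0, ∃ r0 > 0, ∀ ζ : ℂ, ‖ζ‖ = 1 → ∀ z z', ‖z‖ < 1 → ‖z - ζ‖ < r0 →
      ‖z'‖ < 1 → ‖z' - ζ‖ < r0 → ‖β z - β z'‖ ≤ η := by
    intro η hη
    obtain ⟨δ, hδ⟩ : ∃ δ, δ = min ((1 - ‖β 0‖) / 2) (η ^ 2 / 16) := ⟨_, rfl⟩
    have hδ0 : 0 < δ := by
      rw [hδ]
      apply lt_min
      · linarith
      · positivity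
    have hδ1 : δ ≤ (1 - ‖β 0‖) / 2 := by rw [hδ]; exact min_le_left _ _
    have hδ2 : δ ≤ η ^ 2 / 16 := by rw [hδ]; exact min_le_right _ _
    obtain ⟨r', hr', hprop'⟩ := hprop (1 - δ) (by linarith)
    obtain ⟨r0, hr0, hr01, H'⟩ := H δ hδ0 (min r' 1) (by positivity)
    refine ⟨r0, hr0, fun ζ hζ => ?_⟩
    obtain ⟨r, hr1, hr2, H''⟩ := H' ζ hζ
    have hr2' : r < r' := hr2.trans_le (min_le_left _ _)
    have hr21 : r < 1 := hr2.trans_le (min_le_right _ _)
    have hrpos : 0 < r := hr0.trans hr1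
    -- a point of the arc
    obtain ⟨p, hp⟩ : ∃ p : ℂ, p = ((1 - r : ℝ) : ℂ) * ζ := ⟨_, rfl⟩
    have hp1 : ‖p‖ = 1 - r := by
      rw [hp, norm_mul, hζ, mul_one, Complex.norm_real, Real.norm_of_nonneg (by linarith)]
    have hp2 : ‖p - ζ‖ = r := by
      have : p - ζ = -((r : ℝ) : ℂ) * ζ := by rw [hp]; push_cast; ring
      rw [this, norm_mul, hζ, mul_one, norm_neg, Complex.norm_real, Real.norm_of_nonneg hrpos.le]
    have hq := hprop' p (by linarith) (by linarith)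
    obtain ⟨q, hqdef⟩ : ∃ q, q = β p := ⟨_, rfl⟩
    rw [← hqdef] at hq
    have hqn : 0 < ‖q‖ := by
      have : δ < 1 := by linarith [norm_nonneg (β 0)]
      linarith
    obtain ⟨u, hu⟩ : ∃ u : ℂ, u = q / (‖q‖ : ℝ) := ⟨_, rfl⟩
    have hun : ‖u‖ = 1 := by
      rw [hu, norm_div, Complex.norm_real, norm_norm, div_self hqn.ne']
    have hqu : (q * (starRingEnd ℂ) u).re = ‖q‖ := by
      have : q * (starRingEnd ℂ) u = ((‖q‖ : ℝ) : ℂ) := by
        rw [hu, map_div₀, Complex.conj_ofReal, mul_div_assoc', Complex.mul_conj,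
          Complex.normSq_eq_norm_sq]
        have : ((‖q‖ : ℝ) : ℂ) ≠ 0 := by exact_mod_cast hqn.ne'
        push_cast
        field_simp
      rw [this, Complex.ofReal_re]
    have hrele : ∀ z : ℂ, (z * (starRingEnd ℂ) u).re ≤ ‖z‖ := by
      intro z
      refine (Complex.re_le_norm _).trans ?_
      rw [norm_mul, Complex.norm_conj, hun, mul_one]
    -- the region cut off
    let Q : Set ℂ := Metric.ball 0 1 ∩ {w : ℂ | (w * (starRingEnd ℂ) u).re ≤ 1 - 2 * δ}
    have hQc : Convex ℝ Q := by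
      apply (convex_ball _ _).inter
      have : {w : ℂ | (w * (starRingEnd ℂ) u).re ≤ 1 - 2 * δ} =
          {w : ℂ | (fun w : ℂ => (w * (starRingEnd ℂ) u).re) w ≤ 1 - 2 * δ} := rfl
      rw [this]
      apply convex_halfSpace_le
      constructor
      · intro x y; simp only [add_mul, Complex.add_re]
      · intro c x
        simp only [Complex.real_smul, smul_eq_mul, mul_assoc, Complex.re_ofReal_mul]
    have hβ0Q : β 0 ∈ Q := by
      refine ⟨mem_ball_zero_iff.2 hβ0, ?_⟩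
      have := hrele (β 0)
      simp only [mem_ofPred_eq]
      linarith
    have hpre : IsPreconnected (βi '' Q) :=
      hQc.isPreconnected.image _ (h2.mono inter_subset_left)
    have havoid : ∀ z ∈ βi '' Q, ‖z - ζ‖ ≠ r := by
      rintro _ ⟨w, hw, rfl⟩ hcon
      have hw1 : ‖w‖ < 1 := mem_ball_zero_iff.1 hw.1
      have h3 := H'' (βi w) p (m2 w hw1) hcon (by linarith) hp2
      rw [hr w hw1, ← hqdef] at h3
      have h4 : (w * (starRingEnd ℂ) u).re ≤ 1 - 2 * δ := hw.2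
      have h5 := hrele (q - w)
      rw [sub_mul, Complex.sub_re, hqu, norm_sub_rev] at h5
      linarith
    have hfar : ∀ z ∈ βi '' Q, r < ‖z - ζ‖ := by
      intro z hz
      by_contra hcon
      push Not at hcon
      have h0 : (0 : ℂ) ∈ βi '' Q := ⟨β 0, hβ0Q, hl 0 (by simp)⟩
      have h3 := hpre.intermediate_value hz h0 (f := fun z => ‖z - ζ‖) (by fun_prop)
      obtain ⟨z', hz', h4⟩ := h3 (show r ∈ Icc (‖z - ζ‖) (‖0 - ζ‖) from
        ⟨hcon, by rw [zero_sub, norm_neg, hζ]; exact hr21.le⟩)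
      exact havoid z' hz' h4
    have hcap : ∀ z, ‖z‖ < 1 → ‖z - ζ‖ < r0 → ‖β z - u‖ ≤ η / 2 := by
      intro z hz hzr
      have h3 : β z ∉ Q := by
        intro hmem
        have := hfar z ⟨β z, hmem, hl z hz⟩
        linarith
      have h4 : 1 - 2 * δ < (β z * (starRingEnd ℂ) u).re := by
        by_contra hcon
        push Not at hcon
        exact h3 ⟨mem_ball_zero_iff.2 (m1 z hz), hcon⟩
      have h5 : ‖β z - u‖ ^ 2 ≤ (η / 2) ^ 2 := by
        have e1 : ‖β z - u‖ ^ 2 = ‖β z‖ ^ 2 - 2 * (β z * (starRingEnd ℂ) u).re + ‖u‖ ^ 2 := by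
          rw [← Complex.normSq_eq_norm_sq, ← Complex.normSq_eq_norm_sq,
            ← Complex.normSq_eq_norm_sq, Complex.normSq_sub]
          ring
        rw [e1, hun]
        have := m1 z hz
        nlinarith [norm_nonneg (β z)]
      exact abs_le_of_sq_le_sq' h5 (by positivity) |>.2
    intro z z' hz hzr hz' hzr'
    have a1 := hcap z hz hzr
    have a2 := hcap z' hz' hzr'
    have a3 : β z - β z' = (β z - u) - (β z' - u) := by ring
    rw [a3]
    have := norm_sub_le (β z - u) (β z' - u)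
    linarith
  -- limits at boundary points
  have hcl : Metric.closedBall (0 : ℂ) 1 ⊆ closure (Metric.ball 0 1) := by
    rw [closure_ball _ one_ne_zero]
  have hlim : ∀ ζ : ℂ, ‖ζ‖ = 1 → ∃ y, Tendsto β (𝓝[Metric.ball 0 1] ζ) (𝓝 y) := by
    intro ζ hζ
    have hne : (𝓝[Metric.ball (0 : ℂ) 1] ζ).NeBot := by
      rw [← mem_closure_iff_nhdsWithin_neBot]
      exact hcl (mem_closedBall_zero_iff.2 hζ.le)
    rw [← cauchy_map_iff_exists_tendsto]
    rw [Metric.cauchy_iff]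
    refine ⟨hne.map β, fun ε hε => ?_⟩
    obtain ⟨r0, hr0, h3⟩ := hunif (ε / 2) (half_pos hε)
    refine ⟨β '' (Metric.ball 0 1 ∩ Metric.ball ζ r0), ?_, ?_⟩
    · apply Filter.image_mem_map
      exact inter_mem self_mem_nhdsWithin (mem_nhdsWithin_of_mem_nhds (Metric.ball_mem_nhds ζ hr0))
    · rintro _ ⟨z, ⟨hz1, hz2⟩, rfl⟩ _ ⟨z', ⟨hz1', hz2'⟩, rfl⟩
      rw [dist_eq_norm]
      have := h3 ζ hζ z z' (mem_ball_zero_iff.1 hz1) (by rwa [mem_ball_iff_norm] at hz2)
        (mem_ball_zero_iff.1 hz1') (by rwa [mem_ball_iff_norm] at hz2')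
      linarith
  have hlim' : ∀ x ∈ Metric.closedBall (0 : ℂ) 1, ∃ y, Tendsto β (𝓝[Metric.ball 0 1] x) (𝓝 y) := by
    intro x hx
    rcases (mem_closedBall_zero_iff.1 hx).lt_or_eq with h | h
    · exact ⟨β x, h1 x (mem_ball_zero_iff.2 h)⟩
    · exact hlim x h
  refine ⟨extendFrom (Metric.ball 0 1) β, ⟨continuousOn_extendFrom hcl hlim', ?_, ?_⟩, ?_⟩
  · intro z hz
    rw [extendFrom_extends h1 z (mem_ball_zero_iff.2 hz)]
    exact m1 z hz
  · intro z hz
    obtain ⟨y, hy⟩ := hlim z hz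
    have hzc : z ∈ closure (Metric.ball (0 : ℂ) 1) := hcl (mem_closedBall_zero_iff.2 hz.le)
    have hne : (𝓝[Metric.ball (0 : ℂ) 1] z).NeBot := mem_closure_iff_nhdsWithin_neBot.1 hzc
    rw [extendFrom_eq hzc hy]
    apply le_antisymm
    · refine le_of_tendsto hy.norm ?_
      filter_upwards [self_mem_nhdsWithin] with x hx
      exact (m1 x (mem_ball_zero_iff.1 hx)).le
    · by_contra hcon
      push Not at hcon
      obtain ⟨r, hr, h3⟩ := hprop ((1 + ‖y‖) / 2) (by linarith)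
      have h4 : ∀ᶠ x in 𝓝[Metric.ball (0 : ℂ) 1] z, (1 + ‖y‖) / 2 < ‖β x‖ := by
        have h5 : ∀ᶠ x in 𝓝 z, 1 - r < ‖x‖ := by
          have : Tendsto (fun x : ℂ => ‖x‖) (𝓝 z) (𝓝 ‖z‖) := continuous_norm.tendsto z
          rw [hz] at this
          exact this.eventually (lt_mem_nhds (by linarith))
        filter_upwards [self_mem_nhdsWithin, mem_nhdsWithin_of_mem_nhds h5] with x hx hx'
        exact h3 x (mem_ball_zero_iff.1 hx) hx'
      have h6 := ge_of_tendsto hy.norm (h4.mono fun x hx => hx.le)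
      linarith
  · intro z hz
    exact extendFrom_extends h1 z (mem_ball_zero_iff.2 hz)

/-- a plane homeomorphism which preserves the domain extends to the prime end circle -/
theorem chart_extends {φ ψ : ℂ → ℂ} {U : Set ℂ} (h : Riem φ ψ U) {f fi : C(ℂ, ℂ)}
    (h1 : ∀ x, f (fi x) = x) (h2 : ∀ x, fi (f x) = x) (hU : ∀ x ∈ U, f x ∈ U)
    (hUi : ∀ x ∈ U, fi x ∈ U) :
    ∃ F : ℂ → ℂ, DiscMap F ∧ ∀ z, ‖z‖ < 1 → F z = ψ (f (φ z)) := by
  have key : ∀ g : C(ℂ, ℂ), (∀ x ∈ U, g x ∈ U) → ContinuousOn (fun z => ψ (g (φ z)))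
      (Metric.ball 0 1) ∧ ∀ z, ‖z‖ < 1 → ‖ψ (g (φ z))‖ < 1 := by
    intro g hg
    refine ⟨?_, fun z hz => h.mapsInv _ (hg _ (h.maps z hz))⟩
    refine h.cont.comp (g.continuous.comp_continuousOn h.contOn) ?_
    intro z hz
    exact hg _ (h.maps z (mem_ball_zero_iff.1 hz))
  refine extend_disc (β := fun z => ψ (f (φ z))) (βi := fun z => ψ (fi (φ z))) (key f hU).1
    (key fi hUi).1 (key f hU).2 (key fi hUi).2 ?_ ?_ ?_
  · intro z hz
    rw [h.right _ (hU _ (h.maps z hz)), h2, h.left z hz]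
  · intro z hz
    rw [h.right _ (hUi _ (h.maps z hz)), h1, h.left z hz]
  · intro δ hδ r1 hr1
    obtain ⟨ε', hε', L⟩ := lavrentiev h (δ := min δ 1) (by positivity) (min_le_right _ _)
    obtain ⟨ε, hε, S⟩ := small_image (f := f) (fi := fi) h2 hε'
    obtain ⟨r0, hr0, hr01, W⟩ := wolff h.diff h.inj (R := 1 / ε) (half_pos hε) hr1
    refine ⟨r0, hr0, hr01, fun ζ hζ => ?_⟩
    obtain ⟨r, hr, hr', hW⟩ := W ζ hζ
    refine ⟨r, hr, hr', ?_⟩
    obtain ⟨A, hA⟩ : ∃ A : Set ℂ, A = {z : ℂ | ‖z‖ < 1 ∧ ‖z - ζ‖ = r} := ⟨_, rfl⟩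
    have hsm : Small ε (φ '' A) := by
      rcases hW with hW | hW
      · left
        rintro _ ⟨z, hz, rfl⟩
        rw [hA] at hz
        exact hW z hz.1 hz.2
      · right
        rintro _ ⟨z, hz, rfl⟩ _ ⟨z', hz', rfl⟩
        rw [hA] at hz hz'
        have := hW z z' hz.1 hz.2 hz'.1 hz'.2
        linarith
    have hsm' := S _ hsm
    have hAp : IsPreconnected A := by
      rw [hA]
      exact arc_preconnected hζ (hr0.trans hr)
    have hA1 : A ⊆ Metric.ball 0 1 := by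
      intro z hz
      rw [hA] at hz
      exact mem_ball_zero_iff.2 hz.1
    have hE : IsPreconnected ((fun z => ψ (f (φ z))) '' A) := hAp.image _ ((key f hU).1.mono hA1)
    have hEimg : φ '' ((fun z => ψ (f (φ z))) '' A) = f '' (φ '' A) := by
      rw [image_image, image_image]
      refine image_congr fun z hz => ?_
      exact h.right _ (hU _ (h.maps z (mem_ball_zero_iff.1 (hA1 hz))))
    intro z z' hz hzr hz' hzr'
    have h3 := L _ hE (by
      rintro _ ⟨x, hx, rfl⟩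
      exact (key f hU).2 x (mem_ball_zero_iff.1 (hA1 hx))) (by rw [hEimg]; exact hsm')
      (ψ (f (φ z))) ⟨z, by rw [hA]; exact ⟨hz, hzr⟩, rfl⟩ (ψ (f (φ z')))
      ⟨z', by rw [hA]; exact ⟨hz', hzr'⟩, rfl⟩
    exact h3.trans (min_le_left _ _)

end Pool.Agent.Helper984_CP
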