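import Pool.Agent.Helper984_CP.Ext

/-!
# Boundary extension for homeomorphisms between domains, and inversion
-/

set_option autoImplicit false

open Set Filter Topology

noncomputable section

namespace Pool.Agent.Helper984_CP

/-- small sets have small images -/
def SmallMap (f : ℂ → ℂ) (U : Set ℂ) : Prop :=
  ∀ ε' > 0, ∃ ε > 0, ∀ A ⊆ U, Small ε A → Small ε' (f '' A)

theorem smallMap_of_homeo {f fi : C(ℂ, ℂ)} (h2 : ∀ x, fi (f x) = x) (U : Set ℂ) :
    SmallMap f U := by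
  intro ε' hε'
  obtain ⟨ε, hε, H⟩ := small_image h2 hε'
  exact ⟨ε, hε, fun A _ hA => H A hA⟩

theorem Small.mono {ε : ℝ} {A B : Set ℂ} (h : Small ε B) (hAB : A ⊆ B) : Small ε A := by
  rcases h with h | h
  · exact Or.inl fun z hz => h z (hAB hz)
  · exact Or.inr fun z hz z' hz' => h z (hAB hz) z' (hAB hz')

theorem SmallMap.comp {f g : ℂ → ℂ} {U V : Set ℂ} (hf : SmallMap f V) (hg : SmallMap g U)
    (hm : MapsTo g U V) : SmallMap (fun z => f (g z)) U := by
  intro ε hε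
  obtain ⟨ε1, hε1, H1⟩ := hf ε hε
  obtain ⟨ε2, hε2, H2⟩ := hg ε1 hε1
  refine ⟨ε2, hε2, fun A hA hs => ?_⟩
  have := H1 (g '' A) (by rintro _ ⟨x, hx, rfl⟩; exact hm (hA hx)) (H2 A hA hs)
  rwa [image_image] at this

/-- inversion respects smallness -/
theorem smallMap_inv : SmallMap (fun z => z⁻¹) {z : ℂ | z ≠ 0} := by
  intro ε' hε'
  obtain ⟨ε, hε⟩ : ∃ ε, ε = min (ε' / 2) (ε' ^ 3 / 4) := ⟨_, rfl⟩
  have hε0 : 0 < ε := by rw [hε]; positivity
  have hε1 : ε ≤ ε' / 2 := by rw [hε]; exact min_le_left _ _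
  have hε2 : ε ≤ ε' ^ 3 / 4 := by rw [hε]; exact min_le_right _ _
  refine ⟨ε, hε0, fun A hA hs => ?_⟩
  rcases hs with hs | hs
  · right
    have key : ∀ z ∈ A, ‖z⁻¹‖ ≤ ε := by
      intro z hz
      have h1 := hs z hz
      rw [norm_inv]
      have h2 : 0 < ‖z‖ := norm_pos_iff.2 (hA hz)
      rw [div_le_iff₀ hε0] at h1
      rw [inv_le_iff_one_le_mul₀ h2]
      linarith
    rintro _ ⟨z, hz, rfl⟩ _ ⟨z', hz', rfl⟩
    have h1 := key z hz
    have h2 := key z' hz'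
    have h3 := norm_sub_le (z⁻¹) (z'⁻¹)
    simp only
    linarith
  · by_cases hnear : ∃ z0 ∈ A, ‖z0‖ ≤ ε' / 2
    · obtain ⟨z0, hz0, hz0n⟩ := hnear
      left
      rintro _ ⟨z, hz, rfl⟩
      have h1 := hs z hz z0 hz0
      have h2 : ‖z‖ ≤ ε' := by
        have h3 := norm_sub_norm_le z z0
        linarith
      have h4 : 0 < ‖z‖ := norm_pos_iff.2 (hA hz)
      simp only
      rw [norm_inv, one_div]
      exact inv_anti₀ h4 h2
    · push Not at hnear
      right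
      rintro _ ⟨z, hz, rfl⟩ _ ⟨z', hz', rfl⟩
      have h1 := hs z hz z' hz'
      have h2 := hnear z hz
      have h3 := hnear z' hz'
      have hz0 : z ≠ 0 := hA hz
      have hz0' : z' ≠ 0 := hA hz'
      have hp : 0 < ‖z‖ := norm_pos_iff.2 hz0
      have hp' : 0 < ‖z'‖ := norm_pos_iff.2 hz0'
      have h4 : z⁻¹ - z'⁻¹ = (z' - z) / (z * z') := by field_simp
      simp only
      rw [h4, norm_div, norm_mul, norm_sub_rev, div_le_iff₀ (by positivity)]
      have h5 : (ε' / 2) * (ε' / 2) ≤ ‖z‖ * ‖z'‖ := by gcongr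
      calc ‖z - z'‖ ≤ ε := h1
        _ ≤ ε' ^ 3 / 4 := hε2
        _ = ε' * ((ε' / 2) * (ε' / 2)) := by ring
        _ ≤ ε' * (‖z‖ * ‖z'‖) := by gcongr

/-- add one interior point to the domain -/
theorem SmallMap.insert_point {f : ℂ → ℂ} {U : Set ℂ} (hf : SmallMap f (U \ {0}))
    (hc : ContinuousWithinAt f U 0) : SmallMap f U := by
  intro ε' hε'
  obtain ⟨ε1, hε1, H1⟩ := hf ε' hε'
  obtain ⟨ε2, hε2, H2⟩ := Metric.continuousWithinAt_iff.1 hc (ε' / 2) (half_pos hε')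
  obtain ⟨ε, hε⟩ : ∃ ε, ε = min ε1 (ε2 / 2) := ⟨_, rfl⟩
  have hε0 : 0 < ε := by rw [hε]; positivity
  have hle1 : ε ≤ ε1 := by rw [hε]; exact min_le_left _ _
  have hle2 : ε ≤ ε2 / 2 := by rw [hε]; exact min_le_right _ _
  refine ⟨ε, hε0, fun A hA hs => ?_⟩
  by_cases h0A : (0 : ℂ) ∈ A
  · right
    have hsm : ∀ z ∈ A, ‖f z - f 0‖ < ε' / 2 := by
      intro z hz
      have h1 : ‖z‖ ≤ ε := by
        rcases hs with hs | hs
        · have := hs 0 h0A
          rw [norm_zero] at this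
          have h2 : 0 < 1 / ε := by positivity
          linarith
        · have := hs z hz 0 h0A
          rwa [sub_zero] at this
      have h2 := H2 (hA hz) (by rw [dist_zero_right]; linarith)
      rwa [dist_eq_norm] at h2
    rintro _ ⟨z, hz, rfl⟩ _ ⟨z', hz', rfl⟩
    have h1 := hsm z hz
    have h2 := hsm z' hz'
    have h3 : f z - f z' = (f z - f 0) - (f z' - f 0) := by ring
    rw [h3]
    have := norm_sub_le (f z - f 0) (f z' - f 0)
    linarith
  · refine H1 A (fun z hz => ⟨hA hz, fun h => h0A (h ▸ hz)⟩) ?_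
    rcases hs with hs | hs
    · left
      intro z hz
      refine le_trans ?_ (hs z hz)
      gcongr
    · right
      intro z hz z' hz'
      exact (hs z hz z' hz').trans hle1

/-- boundary extension for a homeomorphism of the domain that respects smallness -/
theorem chart_extends' {φ ψ : ℂ → ℂ} {U : Set ℂ} (h : Riem φ ψ U) {f fi : ℂ → ℂ}
    (hf : ContinuousOn f U) (hfi : ContinuousOn fi U)
    (h1 : ∀ x ∈ U, f (fi x) = x) (h2 : ∀ x ∈ U, fi (f x) = x) (hU : ∀ x ∈ U, f x ∈ U)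
    (hUi : ∀ x ∈ U, fi x ∈ U) (hs : SmallMap f U) :
    ∃ F : ℂ → ℂ, DiscMap F ∧ ∀ z, ‖z‖ < 1 → F z = ψ (f (φ z)) := by
  have key : ∀ g : ℂ → ℂ, ContinuousOn g U → (∀ x ∈ U, g x ∈ U) →
      ContinuousOn (fun z => ψ (g (φ z))) (Metric.ball 0 1) ∧
      ∀ z, ‖z‖ < 1 → ‖ψ (g (φ z))‖ < 1 := by
    intro g hgc hg
    refine ⟨?_, fun z hz => h.mapsInv _ (hg _ (h.maps z hz))⟩
    have hm : MapsTo φ (Metric.ball 0 1) U := fun z hz => h.maps z (mem_ball_zero_iff.1 hz)
    refine h.cont.comp (hgc.comp h.contOn hm) ?_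
    intro z hz
    exact hg _ (hm hz)
  refine extend_disc (β := fun z => ψ (f (φ z))) (βi := fun z => ψ (fi (φ z))) (key f hf hU).1
    (key fi hfi hUi).1 (key f hf hU).2 (key fi hfi hUi).2 ?_ ?_ ?_
  · intro z hz
    rw [h.right _ (hU _ (h.maps z hz)), h2 _ (h.maps z hz), h.left z hz]
  · intro z hz
    rw [h.right _ (hUi _ (h.maps z hz)), h1 _ (h.maps z hz), h.left z hz]
  · intro δ hδ r1 hr1
    obtain ⟨ε', hε', L⟩ := lavrentiev h (δ := min δ 1) (by positivity) (min_le_right _ _)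
    obtain ⟨ε, hε, S⟩ := hs ε' hε'
    obtain ⟨r0, hr0, hr01, W⟩ := wolff h.diff h.inj (R := 1 / ε) (half_pos hε) hr1
    refine ⟨r0, hr0, hr01, fun ζ hζ => ?_⟩
    obtain ⟨r, hr, hr', hW⟩ := W ζ hζ
    refine ⟨r, hr, hr', ?_⟩
    obtain ⟨A, hA⟩ : ∃ A : Set ℂ, A = {z : ℂ | ‖z‖ < 1 ∧ ‖z - ζ‖ = r} := ⟨_, rfl⟩
    have hA1 : A ⊆ Metric.ball 0 1 := by
      intro z hz
      rw [hA] at hz
      exact mem_ball_zero_iff.2 hz.1
    have hsm : Small ε (φ '' A) := by
      rcases hW with hW | hW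
      · left
        rintro _ ⟨z, hz, rfl⟩
        rw [hA] at hz
        exact hW z hz.1 hz.2
      · right
        rintro _ ⟨z, hz, rfl⟩ _ ⟨z', hz', rfl⟩
        rw [hA] at hz hz'
        have := hW z z' hz.1 hz.2 hz'.1 hz'.2
        linarith
    have hsm' := S _ (by
      rintro _ ⟨z, hz, rfl⟩
      exact h.maps z (mem_ball_zero_iff.1 (hA1 hz))) hsm
    have hAp : IsPreconnected A := by
      rw [hA]
      exact arc_preconnected hζ (hr0.trans hr)
    have hE : IsPreconnected ((fun z => ψ (f (φ z))) '' A) :=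
      hAp.image _ ((key f hf hU).1.mono hA1)
    have hEimg : φ '' ((fun z => ψ (f (φ z))) '' A) = f '' (φ '' A) := by
      rw [image_image, image_image]
      refine image_congr fun z hz => ?_
      exact h.right _ (hU _ (h.maps z (mem_ball_zero_iff.1 (hA1 hz))))
    intro z z' hz hzr hz' hzr'
    have h3 := L _ hE (by
      rintro _ ⟨x, hx, rfl⟩
      exact (key f hf hU).2 x (mem_ball_zero_iff.1 (hA1 hx))) (by rw [hEimg]; exact hsm')
      (ψ (f (φ z))) ⟨z, by rw [hA]; exact ⟨hz, hzr⟩, rfl⟩ (ψ (f (φ z')))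
      ⟨z', by rw [hA]; exact ⟨hz', hzr'⟩, rfl⟩
    exact h3.trans (min_le_left _ _)

end Pool.Agent.Helper984_CP
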