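import Pool.Agent.Helper984_CP.HomK

/-!
# Commuting pairs with nonzero Euler number have exactly one common fixed point
-/

set_option autoImplicit false

open Set Filter Topology Complex

noncomputable section

namespace Pool.Agent.Helper984_CP

theorem exists_clog (h : C(ℂ, ℂ)) (hne : ∀ x, h x ≠ 0) : ∃ u : C(ℂ, ℂ), ∀ x, cexp (u x) = h x := by
  let H : C(unitInterval × ℂ, ℂ) := ⟨fun q => h ((q.1 : ℝ) * q.2) / h 0, by fun_prop⟩
  have hH : ∀ q, H q = h ((q.1 : ℝ) * q.2) / h 0 := fun q => rfl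
  obtain ⟨L, -, hL⟩ := exists_log H (fun q => by rw [hH]; exact div_ne_zero (hne _) (hne _))
    (fun a => by rw [hH]; simp [div_self (hne 0)])
  refine ⟨⟨fun x => L (1, x) + Complex.log (h 0), by fun_prop⟩, fun x => ?_⟩
  simp only [ContinuousMap.coe_mk]
  rw [Complex.exp_add, hL, Complex.exp_log (hne 0), hH]
  simp only [Icc.coe_one, Complex.ofReal_one, one_mul]
  exact div_mul_cancel₀ _ (hne 0)

/-- A fixed point free member forces the Euler number to vanish. -/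
theorem exists_fixed {k : ℤ} {f g : C(ℂ, ℂ)} (hc : ∀ x, f (g x) = g (f x))
    {ℓf ℓg : C(Conf, ℂ)} (hf : LogDiff f ℓf) (hg : LogDiff g ℓg) (hE : EulerEq k f g)
    (hk : k ≠ 0) : ∃ x, f x = x := by
  by_contra hno
  push Not at hno
  obtain ⟨u, hu⟩ := exists_clog ⟨fun x => f x - x, by fun_prop⟩ (fun x => sub_ne_zero.2 (hno x))
  simp only [ContinuousMap.coe_mk] at hu
  let P : C(ℂ, Conf) := ⟨fun x => ⟨(x, f x), (hno x).symm⟩, by fun_prop⟩
  have hP1 : ∀ x, (P x).1.1 = x := fun x => rfl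
  have hP2 : ∀ x, (P x).1.2 = f x := fun x => rfl
  have h1 : ∀ x y, ℓf (P x) - (u (f x) - u x) = ℓf (P y) - (u (f y) - u y) := by
    refine fun x y => exp_rigid (u := fun x => ℓf (P x)) (v := fun x => u (f x) - u x)
      (by fun_prop) (by fun_prop) ?_ x y
    intro x
    have e1 := hf (P x)
    rw [hP1, hP2] at e1
    rw [Complex.exp_sub, hu, hu, eq_div_iff (sub_ne_zero.2 (hno x))]
    linear_combination (-1 : ℂ) * e1
  have h2 : ∀ x y, ℓg (P x) - (u (g x) - u x) = ℓg (P y) - (u (g y) - u y) := by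
    refine fun x y => exp_rigid (u := fun x => ℓg (P x)) (v := fun x => u (g x) - u x)
      (by fun_prop) (by fun_prop) ?_ x y
    intro x
    have e1 := hg (P x)
    rw [hP1, hP2] at e1
    rw [Complex.exp_sub, hu, hu, eq_div_iff (sub_ne_zero.2 (hno x)), hc]
    linear_combination (-1 : ℂ) * e1
  have h3 := hE ℓf ℓg hf hg (P 0)
  have e1 : Conf.map g hg.inj (P 0) = P (g 0) := by
    apply Subtype.ext
    apply Prod.ext
    · rfl
    · change g (f 0) = f (g 0)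
      rw [hc]
  have e2 : Conf.map f hf.inj (P 0) = P (f 0) := rfl
  rw [e1, e2] at h3
  have h4 := h1 (g 0) 0
  have h5 := h2 (f 0) 0
  rw [hc] at h4
  have h6 : (2 * Real.pi * Complex.I : ℂ) * k = 0 := by
    linear_combination h4 - h5 - h3
  have h2pi : (2 * Real.pi * Complex.I : ℂ) ≠ 0 := by simp [Real.pi_ne_zero]
  rcases mul_eq_zero.1 h6 with h | h
  · exact h2pi h
  · exact hk (by exact_mod_cast h)

/-- the logarithm is symmetric -/
theorem LogDiff.symm {f : C(ℂ, ℂ)} {ℓf : C(Conf, ℂ)} (hf : LogDiff f ℓf) {x y : ℂ} (h : x ≠ y) :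
    ℓf ⟨(x, y), h⟩ = ℓf ⟨(y, x), h.symm⟩ := by
  let s : C(Conf, Conf) := ⟨fun a => ⟨(a.1.2, a.1.1), a.2.symm⟩, by fun_prop⟩
  have h1 : LogDiff f (ℓf.comp s) := by
    intro a
    have := hf (s a)
    have e1 : (s a).1.1 = a.1.2 := rfl
    have e2 : (s a).1.2 = a.1.1 := rfl
    rw [e1, e2] at this
    rw [ContinuousMap.comp_apply]
    linear_combination (-1 : ℂ) * this
  have h2 := hf.rigid h1 ⟨(x, y), h⟩ ⟨(y, x), h.symm⟩
  simp only [ContinuousMap.comp_apply] at h2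
  have e1 : s ⟨(x, y), h⟩ = ⟨(y, x), h.symm⟩ := rfl
  have e2 : s ⟨(y, x), h.symm⟩ = ⟨(x, y), h⟩ := rfl
  rw [e1, e2] at h2
  linear_combination (1 / 2 : ℂ) * h2

/-- the logarithm of the inverse -/
theorem LogDiff.inv {g gi : C(ℂ, ℂ)} {ℓg : C(Conf, ℂ)} (hg : LogDiff g ℓg)
    (hgi : ∀ x, g (gi x) = x) (hinj : Function.Injective gi) :
    LogDiff gi (-(ℓg.comp (Conf.map gi hinj))) := by
  intro a
  have := hg (Conf.map gi hinj a)
  simp only [Conf.map_fst, Conf.map_snd, hgi] at this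
  simp only [ContinuousMap.neg_apply, ContinuousMap.comp_apply, Complex.exp_neg]
  rw [← this, ← mul_assoc, inv_mul_cancel₀ (Complex.exp_ne_zero _), one_mul]

theorem EulerEq.inv_right {k : ℤ} {f g gi : C(ℂ, ℂ)} (hE : EulerEq k f g)
    (hc : ∀ x, f (g x) = g (f x)) (hgi : ∀ x, g (gi x) = x) (hig : ∀ x, gi (g x) = x)
    {ℓf ℓg : C(Conf, ℂ)} (hf : LogDiff f ℓf) (hg : LogDiff g ℓg) :
    EulerEq (-k) f gi := by
  have hinj : Function.Injective gi := fun x y h => by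
    have := congrArg g h
    rwa [hgi, hgi] at this
  have hc' : ∀ x, f (gi x) = gi (f x) := by
    intro x
    rw [← hig (f (gi x)), ← hc, hgi]
  let b : Conf := ⟨(1, 0), one_ne_zero⟩
  refine EulerEq.of_one hc' hf (hg.inv hgi hinj) (a := b) ?_
  have h1 := hE ℓf ℓg hf hg (Conf.map gi hinj b)
  have e1 : Conf.map g hg.inj (Conf.map gi hinj b) = b := by
    apply Subtype.ext
    apply Prod.ext
    · change g (gi 1) = 1; rw [hgi]
    · change g (gi 0) = 0; rw [hgi]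
  have e2 : Conf.map f hf.inj (Conf.map gi hinj b) = Conf.map gi hinj (Conf.map f hf.inj b) := by
    apply Subtype.ext
    apply Prod.ext
    · change f (gi 1) = gi (f 1); rw [hc']
    · change f (gi 0) = gi (f 0); rw [hc']
  have e3 : Conf.map gi (hg.inv hgi hinj).inj b = Conf.map gi hinj b := rfl
  rw [e1, e2] at h1
  simp only [ContinuousMap.neg_apply, ContinuousMap.comp_apply, e3]
  push_cast
  linear_combination (-1 : ℂ) * h1

theorem EulerEq.swap {k : ℤ} {f g : C(ℂ, ℂ)} (hE : EulerEq k f g) : EulerEq (-k) g f := by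
  intro ℓg ℓf hg hf a
  have := hE ℓf ℓg hf hg a
  push_cast
  linear_combination (-1 : ℂ) * this

/-- far away, the logarithm hardly depends on the near point -/
theorem far_small {f : C(ℂ, ℂ)} {ℓf : C(Conf, ℂ)} (hf : LogDiff f ℓf)
    (hp : Tendsto f (cocompact ℂ) (cocompact ℂ)) (R : ℝ) {ε : ℝ} (hε : 0 < ε) :
    ∃ R' : ℝ, R ≤ R' ∧ ∀ z y y' : ℂ, R' < ‖z‖ → ‖y‖ ≤ R → ‖y'‖ ≤ R →
      ∀ (h : z ≠ y) (h' : z ≠ y'), ‖ℓf ⟨(z, y), h⟩ - ℓf ⟨(z, y'), h'⟩‖ ≤ ε := by
  obtain ⟨M, hM⟩ := (isCompact_closedBall (0 : ℂ) R).exists_bound_of_continuousOn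
    f.continuous.continuousOn
  obtain ⟨δ, hδ0, hδ1, hδ2⟩ : ∃ δ : ℝ, 0 < δ ∧ δ ≤ 1 / 6 ∧ δ ≤ ε / 5 :=
    ⟨min (1 / 6) (ε / 5), by positivity, min_le_left _ _, min_le_right _ _⟩
  -- radius beyond which `f` is large
  have h1 : ∀ᶠ z in cocompact ℂ, M + 2 * |M| / δ + 1 < ‖f z‖ :=
    (tendsto_norm_cocompact_atTop.comp hp).eventually (eventually_gt_atTop _)
  obtain ⟨K, hK⟩ := (hasBasis_cocompact.eventually_iff).1 h1
  obtain ⟨R1, hR1⟩ := hK.1.isBounded.subset_closedBall 0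
  refine ⟨max R (max R1 (R + 2 * |R| / δ + 1)), le_max_left _ _, ?_⟩
  intro z y y' hz hy hy' h h'
  have hz1 : R < ‖z‖ := lt_of_le_of_lt (le_max_left _ _) hz
  have hz2 : R1 < ‖z‖ := lt_of_le_of_lt ((le_max_left _ _).trans (le_max_right _ _)) hz
  have hz3 : R + 2 * |R| / δ + 1 < ‖z‖ :=
    lt_of_le_of_lt ((le_max_right _ _).trans (le_max_right _ _)) hz
  have hz4 : M + 2 * |M| / δ + 1 < ‖f z‖ := by
    apply hK.2
    intro hzK
    have := hR1 hzK
    rw [mem_closedBall_zero_iff] at this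
    linarith
  have hzne : ∀ a : ℂ, ‖a‖ ≤ R → z ≠ a := fun a ha hza => by
    rw [hza] at hz1; linarith
  -- the quotient estimate
  have key : ∀ A B D D' : ℂ, ∀ N : ℝ, ‖A‖ ≤ N → ‖B‖ ≤ N → N + 2 * |N| / δ + 1 < ‖D‖ →
      D ≠ B ∧ ‖(D - A) / (D - B) - 1‖ ≤ δ := by
    intro A B D D' N hA hB hD
    have hN : 0 ≤ N := (norm_nonneg _).trans hA
    rw [abs_of_nonneg hN] at hD
    have h2 : 2 * N / δ < ‖D - B‖ := by
      have := norm_sub_norm_le D B
      linarith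
    have h3 : D - B ≠ 0 := by
      rw [← norm_pos_iff]
      exact lt_of_le_of_lt (by positivity) h2
    refine ⟨sub_ne_zero.1 h3, ?_⟩
    have h4 : (D - A) / (D - B) - 1 = (B - A) / (D - B) := by
      field_simp
      ring
    rw [h4, norm_div, div_le_iff₀ (norm_pos_iff.2 h3)]
    have h5 : ‖B - A‖ ≤ 2 * N := (norm_sub_le _ _).trans (by linarith)
    have h6 : 2 * N = δ * (2 * N / δ) := by field_simp
    calc ‖B - A‖ ≤ 2 * N := h5
      _ = δ * (2 * N / δ) := h6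
      _ ≤ δ * ‖D - B‖ := by gcongr
  let A := {a : ℂ // a ∈ Metric.closedBall (0 : ℂ) R}
  have : PreconnectedSpace A := Subtype.preconnectedSpace
    (convex_closedBall (0 : ℂ) R).isPreconnected
  have hA : ∀ a : A, ‖(a : ℂ)‖ ≤ R := fun a => mem_closedBall_zero_iff.1 a.2
  let v : A → ℂ := fun a => ℓf ⟨(z, a), hzne a (hA a)⟩
  have hv : Continuous v := by fun_prop
  have hest : ∀ a b : A, ‖cexp (v a - v b) - 1‖ ≤ 3 * δ := by
    intro a b
    have e1 := hf ⟨(z, a), hzne a (hA a)⟩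
    have e2 := hf ⟨(z, b), hzne b (hA b)⟩
    simp only at e1 e2
    have n1 : z - a ≠ 0 := sub_ne_zero.2 (hzne a (hA a))
    have n2 : z - b ≠ 0 := sub_ne_zero.2 (hzne b (hA b))
    obtain ⟨-, k1⟩ := key (b : ℂ) (a : ℂ) z 0 R (hA b) (hA a) hz3
    obtain ⟨n3, k2⟩ := key (f a) (f b) (f z) 0 M (hM a a.2) (hM b b.2) hz4
    have n3' : f z - f b ≠ 0 := sub_ne_zero.2 n3
    have e3 : cexp (v a - v b) = ((f z - f a) / (f z - f b)) * ((z - b) / (z - a)) := by
      rw [Complex.exp_sub, div_eq_iff (Complex.exp_ne_zero _)]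
      have e1' : cexp (v a) = (f z - f a) / (z - a) := by rw [eq_div_iff n1]; exact e1
      have e2' : cexp (v b) = (f z - f b) / (z - b) := by rw [eq_div_iff n2]; exact e2
      rw [e1', e2']
      field_simp
    rw [e3]
    obtain ⟨α, hα⟩ : ∃ α : ℂ, α = (f z - f a) / (f z - f b) - 1 := ⟨_, rfl⟩
    obtain ⟨β, hβ⟩ : ∃ β : ℂ, β = (z - b) / (z - a) - 1 := ⟨_, rfl⟩
    rw [← hα] at k2
    rw [← hβ] at k1
    have e4 : (f z - f a) / (f z - f b) = 1 + α := by rw [hα]; ring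
    have e5 : (z - b) / (z - a) = 1 + β := by rw [hβ]; ring
    rw [e4, e5]
    have e6 : (1 + α) * (1 + β) - 1 = α + β + α * β := by ring
    rw [e6]
    calc ‖α + β + α * β‖ ≤ ‖α‖ + ‖β‖ + ‖α‖ * ‖β‖ := by
          refine (norm_add_le _ _).trans ?_
          rw [norm_mul]
          gcongr
          exact norm_add_le _ _
      _ ≤ δ + δ + 1 * δ := by
          gcongr
          linarith
      _ = 3 * δ := by ring
  have hfin := small_var (A := A) (S := univ) isPreconnected_univ hv.continuousOn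
    (b := ⟨y', by simpa using hy'⟩) (mem_univ _) (fun a _ => (hest a _).trans (by linarith))
    (a := ⟨y, by simpa using hy⟩) (mem_univ _)
  calc ‖ℓf ⟨(z, y), h⟩ - ℓf ⟨(z, y'), h'⟩‖ ≤ 3 / 2 * ‖cexp (ℓf ⟨(z, y), h⟩ - ℓf ⟨(z, y'), h'⟩) - 1‖ :=
        hfin
    _ ≤ 3 / 2 * (3 * δ) := by
        gcongr
        exact hest ⟨y, by simpa using hy⟩ ⟨y', by simpa using hy'⟩
    _ ≤ ε := by linarith

end Pool.Agent.Helper984_CP
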