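import Pool.Agent.Helper984_CP.EqExt

/-!
# Homeomorphisms which commute with a contraction, and radial pushes
-/

set_option autoImplicit false

open Set Filter Topology ComplexConjugate

open scoped NNReal

noncomputable section

namespace Pool.Agent.Helper984_CP

/-- homeomorphisms commuting with multiplication by `l` (and with conjugation if `σ`) -/
def GG (l : ℝ) (σ : Prop) : Set C(ℂ, ℂ) :=
  {f | IsHomeo f ∧ (∀ z, f (l * z) = l * f z) ∧ (σ → ∀ z, f (conj z) = conj (f z))}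

theorem joined_of_family {X : Set C(ℂ, ℂ)} (P : C(unitInterval × ℂ, ℂ))
    (h : ∀ s, slice P s ∈ X) : JoinedIn X (slice P 0) (slice P 1) :=
  ⟨⟨⟨fun s => slice P s, continuous_slice P⟩, rfl, rfl⟩, h⟩

theorem joined_of_family' {X : Set C(ℂ, ℂ)} (P : C(unitInterval × ℂ, ℂ))
    (h : ∀ s, slice P s ∈ X) {f g : C(ℂ, ℂ)} (h0 : ∀ z, P (0, z) = f z) (h1 : ∀ z, P (1, z) = g z) :
    JoinedIn X f g := by
  have e0 : slice P 0 = f := by ext z; exact h0 z
  have e1 : slice P 1 = g := by ext z; exact h1 z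
  have := joined_of_family P h
  rwa [e0, e1] at this

theorem family_of_joined {X : Set C(ℂ, ℂ)} {f g : C(ℂ, ℂ)} (h : JoinedIn X f g) :
    ∃ P : C(unitInterval × ℂ, ℂ), (∀ s, slice P s ∈ X) ∧ slice P 0 = f ∧ slice P 1 = g := by
  obtain ⟨γ, hγ⟩ := h
  let P : C(unitInterval × ℂ, ℂ) := ContinuousMap.uncurry ⟨γ, γ.continuous⟩
  have hP : ∀ s, slice P s = γ s := fun s => by ext z; rfl
  exact ⟨P, fun s => by rw [hP]; exact hγ s, by rw [hP, γ.source], by rw [hP, γ.target]⟩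

theorem GG.comp {l : ℝ} {σ : Prop} {f g : C(ℂ, ℂ)} (hf : f ∈ GG l σ) (hg : g ∈ GG l σ) :
    f.comp g ∈ GG l σ := by
  refine ⟨hf.1.comp hg.1, fun z => ?_, fun s z => ?_⟩
  · simp only [ContinuousMap.comp_apply]
    rw [hg.2.1, hf.2.1]
  · simp only [ContinuousMap.comp_apply]
    rw [hg.2.2 s, hf.2.2 s]

theorem GG.inv {l : ℝ} {σ : Prop} {f fi : C(ℂ, ℂ)} (hf : f ∈ GG l σ) (h1 : ∀ x, f (fi x) = x)
    (h2 : ∀ x, fi (f x) = x) : fi ∈ GG l σ := by
  refine ⟨⟨f, h2, h1⟩, fun z => ?_, fun s z => ?_⟩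
  · have := hf.2.1 (fi z)
    rw [h1] at this
    rw [← this, h2]
  · have := hf.2.2 s (fi z)
    rw [h1] at this
    rw [← this, h2]

theorem GG.id (l : ℝ) (σ : Prop) : ContinuousMap.id ℂ ∈ GG l σ :=
  ⟨isHomeo_id, fun _ => rfl, fun _ _ => rfl⟩

theorem JoinedIn.compGG {l : ℝ} {σ : Prop} {f f' g g' : C(ℂ, ℂ)} (hf : JoinedIn (GG l σ) f f')
    (hg : JoinedIn (GG l σ) g g') : JoinedIn (GG l σ) (f.comp g) (f'.comp g') := by
  obtain ⟨γ, hγ⟩ := hf
  obtain ⟨δ, hδ⟩ := hg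
  refine ⟨⟨⟨fun s => (γ s).comp (δ s), ?_⟩, by simp, by simp⟩, fun s => GG.comp (hγ s) (hδ s)⟩
  exact γ.continuous.compCM δ.continuous

/-- radial maps -/
def rad (ρ : ℝ → ℝ) (z : ℂ) : ℂ := ((ρ ‖z‖ / ‖z‖ : ℝ) : ℂ) * z

theorem norm_rad {ρ : ℝ → ℝ} (h0 : ρ 0 = 0) (hp : ∀ x, 0 < x → 0 < ρ x) (z : ℂ) :
    ‖rad ρ z‖ = ρ ‖z‖ := by
  by_cases hz : z = 0
  · rw [hz, rad]; simp [h0]
  · have h1 : 0 < ‖z‖ := norm_pos_iff.2 hz
    have h2 := hp _ h1
    rw [rad, norm_mul, Complex.norm_real, Real.norm_of_nonneg (by positivity)]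
    field_simp

theorem rad_rad {ρ ρ' : ℝ → ℝ} (h0 : ρ 0 = 0) (hp : ∀ x, 0 < x → 0 < ρ x)
    (h : ∀ x, 0 ≤ x → ρ' (ρ x) = x) (z : ℂ) : rad ρ' (rad ρ z) = z := by
  rw [rad, norm_rad h0 hp, h _ (norm_nonneg z), rad]
  by_cases hz : z = 0
  · rw [hz]; simp
  · have h1 : 0 < ‖z‖ := norm_pos_iff.2 hz
    have h2 := hp _ h1
    have h3 : ((ρ ‖z‖ : ℝ) : ℂ) ≠ 0 := by exact_mod_cast h2.ne'
    have h4 : ((‖z‖ : ℝ) : ℂ) ≠ 0 := by exact_mod_cast h1.ne'
    rw [← mul_assoc, ← Complex.ofReal_mul]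
    have : ‖z‖ / ρ ‖z‖ * (ρ ‖z‖ / ‖z‖) = 1 := by field_simp
    rw [this, Complex.ofReal_one, one_mul]

theorem rad_conj (ρ : ℝ → ℝ) (z : ℂ) : rad ρ (conj z) = conj (rad ρ z) := by
  rw [rad, rad, Complex.norm_conj, map_mul, Complex.conj_ofReal]

theorem rad_of_eq {ρ : ℝ → ℝ} {z : ℂ} (h : ρ ‖z‖ = ‖z‖) : rad ρ z = z := by
  by_cases hz : z = 0
  · rw [hz, rad]; simp
  · have h1 : 0 < ‖z‖ := norm_pos_iff.2 hz
    rw [rad, h, div_self h1.ne', Complex.ofReal_one, one_mul]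

theorem continuous_rad_family {Λ : Type*} [TopologicalSpace Λ] {ρ : Λ × ℝ → ℝ} (hρ : Continuous ρ)
    {a : ℝ} (ha : 0 < a) (h : ∀ s x, x ≤ a → ρ (s, x) = x) :
    Continuous fun q : Λ × ℂ => rad (fun x => ρ (q.1, x)) q.2 := by
  rw [continuous_iff_continuousAt]
  rintro ⟨s0, z0⟩
  by_cases hz0 : z0 = 0
  · subst hz0
    have hev : (fun q : Λ × ℂ => rad (fun x => ρ (q.1, x)) q.2) =ᶠ[𝓝 (s0, 0)] fun q => q.2 := by
      have h1 : ∀ᶠ q : Λ × ℂ in 𝓝 (s0, 0), ‖q.2‖ < a := by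
        have : Continuous fun q : Λ × ℂ => ‖q.2‖ := by fun_prop
        have h2 := this.tendsto (s0, 0)
        simp only [norm_zero] at h2
        exact h2.eventually (gt_mem_nhds ha)
      filter_upwards [h1] with q hq
      exact rad_of_eq (h _ _ hq.le)
    refine ContinuousAt.congr ?_ hev.symm
    exact continuous_snd.continuousAt
  · unfold rad
    apply ContinuousAt.mul
    · apply Complex.continuous_ofReal.continuousAt.comp
      apply ContinuousAt.div
      · exact Continuous.continuousAt (by fun_prop)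
      · exact Continuous.continuousAt (by fun_prop)
      · exact norm_ne_zero_iff.2 hz0
    · exact continuous_snd.continuousAt

/-- a tent function -/
def tent (a b t x : ℝ) : ℝ := max 0 (min ((x - a) / (t - a)) ((b - x) / (b - t)))

/-- the piecewise linear map which moves `t` to `t'` -/
def pl (a b t t' x : ℝ) : ℝ := x + (t' - t) * tent a b t x

theorem tent_left {a b t x : ℝ} (h1 : a < t) (_ : t < b) (hx : x ≤ a) : tent a b t x = 0 := by
  rw [tent, max_eq_left]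
  refine (min_le_left _ _).trans ?_
  exact div_nonpos_of_nonpos_of_nonneg (by linarith) (by linarith)

theorem tent_right {a b t x : ℝ} (_ : a < t) (hb : t < b) (hx : b ≤ x) : tent a b t x = 0 := by
  rw [tent, max_eq_left]
  refine (min_le_right _ _).trans ?_
  exact div_nonpos_of_nonpos_of_nonneg (by linarith) (by linarith)

theorem tent_mid1 {a b t x : ℝ} (h1 : a < t) (hb : t < b) (hx : a ≤ x) (hx' : x ≤ t) :
    tent a b t x = (x - a) / (t - a) := by
  have h2 : 0 < t - a := by linarith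
  have h3 : 0 < b - t := by linarith
  have h4 : (x - a) / (t - a) ≤ (b - x) / (b - t) := by
    have h5 : (x - a) / (t - a) ≤ 1 := (div_le_one h2).2 (by linarith)
    have h6 : 1 ≤ (b - x) / (b - t) := (one_le_div h3).2 (by linarith)
    linarith
  rw [tent, min_eq_left h4, max_eq_right]
  exact div_nonneg (by linarith) h2.le

theorem tent_mid2 {a b t x : ℝ} (h1 : a < t) (hb : t < b) (hx : t ≤ x) (hx' : x ≤ b) :
    tent a b t x = (b - x) / (b - t) := by
  have h2 : 0 < t - a := by linarith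
  have h3 : 0 < b - t := by linarith
  have h4 : (b - x) / (b - t) ≤ (x - a) / (t - a) := by
    have h5 : (b - x) / (b - t) ≤ 1 := (div_le_one h3).2 (by linarith)
    have h6 : 1 ≤ (x - a) / (t - a) := (one_le_div h2).2 (by linarith)
    linarith
  rw [tent, min_eq_right h4, max_eq_right]
  exact div_nonneg (by linarith) h3.le

theorem pl_mid1 {a b t t' x : ℝ} (h1 : a < t) (hb : t < b) (hx : a ≤ x) (hx' : x ≤ t) :
    pl a b t t' x = a + (x - a) * (t' - a) / (t - a) := by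
  have h2 : t - a ≠ 0 := by
    have : 0 < t - a := by linarith
    exact this.ne'
  rw [pl, tent_mid1 h1 hb hx hx']
  field_simp
  ring

theorem pl_mid2 {a b t t' x : ℝ} (h1 : a < t) (hb : t < b) (hx : t ≤ x) (hx' : x ≤ b) :
    pl a b t t' x = b - (b - x) * (b - t') / (b - t) := by
  have h2 : b - t ≠ 0 := by
    have : 0 < b - t := by linarith
    exact this.ne'
  rw [pl, tent_mid2 h1 hb hx hx']
  field_simp
  ring

theorem pl_left {a b t t' x : ℝ} (h1 : a < t) (hb : t < b) (hx : x ≤ a) : pl a b t t' x = x := by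
  rw [pl, tent_left h1 hb hx, mul_zero, add_zero]

theorem pl_right {a b t t' x : ℝ} (h1 : a < t) (hb : t < b) (hx : b ≤ x) : pl a b t t' x = x := by
  rw [pl, tent_right h1 hb hx, mul_zero, add_zero]

theorem pl_self {a b t t' : ℝ} (h1 : a < t) (hb : t < b) : pl a b t t' t = t' := by
  have h2 : t - a ≠ 0 := by
    have : 0 < t - a := by linarith
    exact this.ne'
  rw [pl_mid1 h1 hb h1.le le_rfl]
  field_simp
  ring

theorem pl_inv {a b t t' : ℝ} (h1 : a < t) (hb : t < b) (h1' : a < t') (hb' : t' < b) (x : ℝ) :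
    pl a b t' t (pl a b t t' x) = x := by
  have h2 : 0 < t - a := by linarith
  have h3 : 0 < b - t := by linarith
  have h4 : 0 < t' - a := by linarith
  have h5 : 0 < b - t' := by linarith
  rcases le_or_gt x a with hx | hx
  · rw [pl_left h1 hb hx, pl_left h1' hb' hx]
  rcases le_or_gt b x with hx' | hx'
  · rw [pl_right h1 hb hx', pl_right h1' hb' hx']
  rcases le_total x t with ht | ht
  · rw [pl_mid1 h1 hb hx.le ht]
    have e1 : (x - a) / (t - a) ≤ 1 := (div_le_one h2).2 (by linarith)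
    have e2 : 0 ≤ (x - a) / (t - a) := div_nonneg (by linarith) h2.le
    have e3 : a + (x - a) * (t' - a) / (t - a) = a + (x - a) / (t - a) * (t' - a) := by ring
    rw [pl_mid1 h1' hb' (by rw [e3]; nlinarith) (by rw [e3]; nlinarith)]
    field_simp
    ring
  · rw [pl_mid2 h1 hb ht hx'.le]
    have e1 : (b - x) / (b - t) ≤ 1 := (div_le_one h3).2 (by linarith)
    have e2 : 0 ≤ (b - x) / (b - t) := div_nonneg (by linarith) h3.le
    have e3 : b - (b - x) * (b - t') / (b - t) = b - (b - x) / (b - t) * (b - t') := by ring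
    rw [pl_mid2 h1' hb' (by rw [e3]; nlinarith) (by rw [e3]; nlinarith)]
    field_simp
    ring

theorem pl_pos {a b t t' x : ℝ} (ha : 0 < a) (h1 : a < t) (hb : t < b) (h1' : a < t')
    (hb' : t' < b) (hx : 0 < x) : 0 < pl a b t t' x := by
  have h2 : 0 < t - a := by linarith
  have h3 : 0 < b - t := by linarith
  have h4 : 0 < t' - a := by linarith
  have h5 : 0 < b - t' := by linarith
  rcases le_or_gt x a with hx | hx
  · rwa [pl_left h1 hb hx]
  rcases le_or_gt b x with hx' | hx'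
  · rwa [pl_right h1 hb hx']
  rcases le_total x t with ht | ht
  · rw [pl_mid1 h1 hb hx.le ht]
    have h6 : 0 ≤ (x - a) * (t' - a) / (t - a) :=
      div_nonneg (mul_nonneg (by linarith) h4.le) h2.le
    linarith
  · rw [pl_mid2 h1 hb ht hx'.le]
    have e1 : (b - x) / (b - t) ≤ 1 := (div_le_one h3).2 (by linarith)
    have e3 : b - (b - x) * (b - t') / (b - t) = b - (b - x) / (b - t) * (b - t') := by ring
    rw [e3]
    nlinarith

/-- radial push -/
theorem radial_push {a b t1 t2 : ℝ} (ha : 0 < a) (h1 : a < t1) (h1' : t1 < b) (h2 : a < t2)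
    (h2' : t2 < b) : ∃ κ : C(unitInterval × ℂ, ℂ), (∀ s, IsHomeo (slice κ s)) ∧
      (∀ s z, ¬ (a ≤ ‖z‖ ∧ ‖z‖ ≤ b) → κ (s, z) = z) ∧ (∀ z, κ (0, z) = z) ∧
      (∀ u : ℂ, ‖u‖ = 1 → κ (1, (t1 : ℂ) * u) = (t2 : ℂ) * u) ∧
      (∀ s z, κ (s, conj z) = conj (κ (s, z))) := by
  let T : unitInterval → ℝ := fun s => t1 + (s : ℝ) * (t2 - t1)
  have hT : ∀ s, T s = (1 - (s : ℝ)) * t1 + (s : ℝ) * t2 := fun s => by simp only [T]; ring
  have hTa : ∀ s, a < T s := by
    intro s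
    rw [hT]
    have := s.2.1
    have := s.2.2
    rcases s.2.1.eq_or_lt with h | h
    · rw [← h]; simpa using h1
    · nlinarith [mul_pos h (sub_pos.2 h2), mul_nonneg (sub_nonneg.2 s.2.2) (sub_pos.2 h1).le]
  have hTb : ∀ s, T s < b := by
    intro s
    rw [hT]
    rcases s.2.1.eq_or_lt with h | h
    · rw [← h]; simpa using h1'
    · nlinarith [mul_pos h (sub_pos.2 h2'), mul_nonneg (sub_nonneg.2 s.2.2) (sub_pos.2 h1').le]
  have hTc : Continuous T := by fun_prop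
  let ρ : unitInterval × ℝ → ℝ := fun q => pl a b t1 (T q.1) q.2
  have hρc : Continuous ρ := by
    simp only [ρ, pl, tent]
    have h3 : (t1 - a) ≠ 0 := by
      have : 0 < t1 - a := by linarith
      exact this.ne'
    fun_prop
  let κ : C(unitInterval × ℂ, ℂ) := ⟨fun q => rad (fun x => ρ (q.1, x)) q.2,
    continuous_rad_family hρc ha (fun s x hx => pl_left h1 h1' hx)⟩
  have hκ : ∀ s z, κ (s, z) = rad (pl a b t1 (T s)) z := fun s z => rfl
  have hz0 : ∀ t t', a < t → t < b → pl a b t t' 0 = 0 := fun t t' h h' => pl_left h h' ha.le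
  refine ⟨κ, fun s => ?_, fun s z hz => ?_, fun z => ?_, fun u hu => ?_, fun s z => ?_⟩
  · let ρi : Unit × ℝ → ℝ := fun q => pl a b (T s) t1 q.2
    have hρi : Continuous ρi := by
      simp only [ρi, pl, tent]
      fun_prop
    refine ⟨⟨fun z => rad (pl a b (T s) t1) z, ?_⟩, fun z => ?_, fun z => ?_⟩
    · have := continuous_rad_family hρi ha (fun _ x hx => pl_left (hTa s) (hTb s) hx)
      exact this.comp (f := fun z : ℂ => ((), z)) (by fun_prop)
    · exact rad_rad (hz0 _ _ (hTa s) (hTb s))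
        (fun x hx => pl_pos ha (hTa s) (hTb s) h1 h1' hx)
        (fun x _ => pl_inv (hTa s) (hTb s) h1 h1' x) z
    · exact rad_rad (hz0 _ _ h1 h1') (fun x hx => pl_pos ha h1 h1' (hTa s) (hTb s) hx)
        (fun x _ => pl_inv h1 h1' (hTa s) (hTb s) x) z
  · rw [hκ]
    apply rad_of_eq
    rw [not_and_or, not_le, not_le] at hz
    rcases hz with hz | hz
    · exact pl_left h1 h1' hz.le
    · exact pl_right h1 h1' hz.le
  · rw [hκ]
    apply rad_of_eq
    have : T 0 = t1 := by simp [T]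
    rw [this, pl]
    ring
  · rw [hκ]
    have e1 : T 1 = t2 := by simp [T]
    have ht1 : 0 < t1 := ha.trans h1
    have e2 : ‖(t1 : ℂ) * u‖ = t1 := by
      rw [norm_mul, hu, mul_one, Complex.norm_real, Real.norm_of_nonneg ht1.le]
    rw [rad, e2, e1, pl_self h1 h1', ← mul_assoc, ← Complex.ofReal_mul]
    congr 2
    field_simp
  · rw [hκ, hκ, rad_conj]

/-- small Lipschitz perturbations of the identity are homeomorphisms -/
theorem lip_homeo {e : ℂ → ℂ} (heL : ∀ x y, ‖e x - e y‖ ≤ 1 / 2 * ‖x - y‖)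
    (P : C(unitInterval × ℂ, ℂ)) (hP : ∀ s z, P (s, z) = z + ((s : ℝ) : ℂ) * e z)
    (s : unitInterval) : IsHomeo (slice P s) := by
  have happ : ApproximatesLinearOn (fun z : ℂ => z + ((s : ℝ) : ℂ) * e z)
      ((ContinuousLinearEquiv.refl ℝ ℂ : ℂ ≃L[ℝ] ℂ) : ℂ →L[ℝ] ℂ) univ (1 / 2 : ℝ≥0) := by
    intro x _ y _
    have e1 : x + ((s : ℝ) : ℂ) * e x - (y + ((s : ℝ) : ℂ) * e y) -
        ((ContinuousLinearEquiv.refl ℝ ℂ : ℂ ≃L[ℝ] ℂ) : ℂ →L[ℝ] ℂ) (x - y) =
        ((s : ℝ) : ℂ) * (e x - e y) := by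
      simp
      ring
    rw [e1, norm_mul, Complex.norm_real, Real.norm_of_nonneg s.2.1]
    have a1 := heL x y
    have a2 := s.2.2
    have a3 := s.2.1
    have a4 : (((1 / 2 : ℝ≥0) : ℝ≥0) : ℝ) = 1 / 2 := by push_cast; ring
    rw [a4]
    nlinarith [norm_nonneg (e x - e y)]
  have hN : Subsingleton ℂ ∨ (1 / 2 : ℝ≥0) <
      ‖((ContinuousLinearEquiv.refl ℝ ℂ : ℂ ≃L[ℝ] ℂ).symm : ℂ →L[ℝ] ℂ)‖₊⁻¹ := by
    right
    have : ‖((ContinuousLinearEquiv.refl ℝ ℂ : ℂ ≃L[ℝ] ℂ).symm : ℂ →L[ℝ] ℂ)‖₊ = 1 := by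
      apply NNReal.eq
      have : ((ContinuousLinearEquiv.refl ℝ ℂ : ℂ ≃L[ℝ] ℂ).symm : ℂ →L[ℝ] ℂ) =
        ContinuousLinearMap.id ℝ ℂ := rfl
      rw [this]
      simp
    rw [this, inv_one]
    exact_mod_cast (by norm_num : (1 / 2 : ℝ) < 1)
  let Hm := ApproximatesLinearOn.toHomeomorph _ happ hN
  refine ⟨⟨Hm.symm, Hm.symm.continuous⟩, fun x => ?_, fun x => ?_⟩
  · rw [slice_apply, hP]
    exact Hm.apply_symm_apply x
  · rw [slice_apply, hP]
    exact Hm.symm_apply_apply x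

end Pool.Agent.Helper984_CP
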