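import Pool.Agent.Helper984_CP.Log

/-!
# The spaces of commuting pairs with a given Euler number
-/

set_option autoImplicit false

open Set Filter Topology Complex

noncomputable section

namespace Pool.Agent.Helper984_CP

/-- The space of commuting pairs of plane homeomorphisms isotopic to the identity with Euler
number `k`; it is word for word the set of the frozen statement. -/
def HomK (k : ℤ) : Set (C(ℂ, ℂ) × C(ℂ, ℂ)) :=
  {p : C(ℂ, ℂ) × C(ℂ, ℂ) |
        (∀ x : ℂ, p.1 (p.2 x) = p.2 (p.1 x)) ∧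
        ∃ F Fi G Gi : C(ℝ × ℂ, ℂ),
          (∀ t ∈ Set.Icc (0:ℝ) 1, ∀ x : ℂ,
            F (t, Fi (t, x)) = x ∧ Fi (t, F (t, x)) = x ∧
            G (t, Gi (t, x)) = x ∧ Gi (t, G (t, x)) = x) ∧
          (∀ x : ℂ, F (0, x) = x ∧ G (0, x) = x ∧
            F (1, x) = p.1 x ∧ G (1, x) = p.2 x) ∧
          ∃ θ : C(ℝ, ℝ), θ 1 - θ 0 = (k : ℝ) ∧
            ∀ t ∈ Set.Icc (0:ℝ) 1,
              F (t, G (t, Fi (t, Gi (t, 1)))) - F (t, G (t, Fi (t, Gi (t, 0)))) =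
                ((‖F (t, G (t, Fi (t, Gi (t, 1)))) - F (t, G (t, Fi (t, Gi (t, 0))))‖ : ℝ) : ℂ)
                  * Complex.exp (2 * (Real.pi : ℂ) * Complex.I * ((θ t : ℝ) : ℂ))}

/-- an injective map acts on the configuration space -/
def Conf.map (f : C(ℂ, ℂ)) (hf : Function.Injective f) : C(Conf, Conf) :=
  ⟨fun a => ⟨(f a.1.1, f a.1.2), fun h => a.2 (hf h)⟩, by fun_prop⟩

@[simp] theorem Conf.map_fst (f : C(ℂ, ℂ)) (hf : Function.Injective f) (a : Conf) :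
    (Conf.map f hf a).1.1 = f a.1.1 := rfl

@[simp] theorem Conf.map_snd (f : C(ℂ, ℂ)) (hf : Function.Injective f) (a : Conf) :
    (Conf.map f hf a).1.2 = f a.1.2 := rfl

theorem LogDiff.comp {f g : C(ℂ, ℂ)} {ℓf ℓg : C(Conf, ℂ)} (hf : LogDiff f ℓf)
    (hg : LogDiff g ℓg) : LogDiff (f.comp g) (ℓf.comp (Conf.map g hg.inj) + ℓg) := by
  intro a
  have h1 := hf (Conf.map g hg.inj a)
  have h2 := hg a
  simp only [Conf.map_fst, Conf.map_snd] at h1
  simp only [ContinuousMap.add_apply, ContinuousMap.comp_apply, Complex.exp_add]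
  rw [← h1, ← h2]
  ring

/-- two continuous logarithms of the same difference quotient differ by a constant -/
theorem LogDiff.rigid {f : ℂ → ℂ} {ℓ ℓ' : C(Conf, ℂ)} (h : LogDiff f ℓ) (h' : LogDiff f ℓ')
    (a b : Conf) : ℓ a - ℓ' a = ℓ b - ℓ' b := by
  refine exp_rigid ℓ.continuous ℓ'.continuous (fun a => ?_) a b
  have h1 := h a
  rw [← h' a] at h1
  exact mul_right_cancel₀ (sub_ne_zero.2 a.2) h1

/-- the defining identity of the Euler number, in terms of logarithms -/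
def EulerEq (k : ℤ) (f g : C(ℂ, ℂ)) : Prop :=
  ∀ (ℓf ℓg : C(Conf, ℂ)) (hf : LogDiff f ℓf) (hg : LogDiff g ℓg) (a : Conf),
    ℓf (Conf.map g hg.inj a) + ℓg a = ℓf a + ℓg (Conf.map f hf.inj a) + 2 * Real.pi * Complex.I * k

/-- if the identity of the Euler number holds for one choice at one point it always holds -/
theorem EulerEq.of_one {k : ℤ} {f g : C(ℂ, ℂ)} (hc : ∀ x, f (g x) = g (f x))
    {ℓf ℓg : C(Conf, ℂ)} (hf : LogDiff f ℓf) (hg : LogDiff g ℓg) {a : Conf}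
    (h : ℓf (Conf.map g hg.inj a) + ℓg a =
      ℓf a + ℓg (Conf.map f hf.inj a) + 2 * Real.pi * Complex.I * k) : EulerEq k f g := by
  intro ℓf' ℓg' hf' hg' b
  have e1 := hf.comp hg
  have e2 := hg.comp hf
  have e3 : ((f.comp g : C(ℂ, ℂ)) : ℂ → ℂ) = (g.comp f : C(ℂ, ℂ)) := by
    ext x
    simp [hc]
  rw [e3] at e1
  have h1 := e1.rigid e2 a b
  simp only [ContinuousMap.add_apply, ContinuousMap.comp_apply] at h1
  have h2 := hf.rigid hf' b (Conf.map g hg.inj b)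
  have h3 := hg.rigid hg' b (Conf.map f hf.inj b)
  linear_combination h + h2 - h3 - h1

theorem exists_interp {f g : C(ℂ, ℂ)} {F Fi G Gi : C(ℝ × ℂ, ℂ)}
    (hi : ∀ t ∈ Set.Icc (0:ℝ) 1, ∀ x : ℂ,
            F (t, Fi (t, x)) = x ∧ Fi (t, F (t, x)) = x ∧
            G (t, Gi (t, x)) = x ∧ Gi (t, G (t, x)) = x)
    (he : ∀ x : ℂ, F (0, x) = x ∧ G (0, x) = x ∧
            F (1, x) = f x ∧ G (1, x) = g x) (hc : ∀ x, f (g x) = g (f x)) :
    ∃ (E : C(unitInterval, ℂ)) (ℓf ℓg : C(Conf, ℂ)) (hf : LogDiff f ℓf) (hg : LogDiff g ℓg) (a : Conf),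
      E 0 = 0 ∧
      E 1 = ℓf (Conf.map g hg.inj a) + ℓg a - ℓg (Conf.map f hf.inj a) - ℓf a ∧
      (∀ t : unitInterval, cexp (E t) =
        F (t, G (t, Fi (t, Gi (t, 1)))) - F (t, G (t, Fi (t, Gi (t, 0))))) ∧
      cexp (E 1) = 1 := by
  obtain ⟨LF, hLF0, hLF⟩ := exists_wind F Fi (fun t ht x => ⟨(hi t ht x).1, (hi t ht x).2.1⟩)
    (fun x => (he x).1)
  obtain ⟨LG, hLG0, hLG⟩ := exists_wind G Gi (fun t ht x => (hi t ht x).2.2)
    (fun x => (he x).2.1)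
  have Finj : ∀ (t : unitInterval) (x y : ℂ), F (t, x) = F (t, y) → x = y := by
    intro t x y h
    have := congrArg (fun z => Fi ((t : ℝ), z)) h
    simpa only [(hi t t.2 _).2.1] using this
  have Ginj : ∀ (t : unitInterval) (x y : ℂ), G (t, x) = G (t, y) → x = y := by
    intro t x y h
    have := congrArg (fun z => Gi ((t : ℝ), z)) h
    simpa only [(hi t t.2 _).2.2.2] using this
  have Fiinj : ∀ (t : unitInterval) (x y : ℂ), Fi (t, x) = Fi (t, y) → x = y := by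
    intro t x y h
    have := congrArg (fun z => F ((t : ℝ), z)) h
    simpa only [(hi t t.2 _).1] using this
  have Giinj : ∀ (t : unitInterval) (x y : ℂ), Gi (t, x) = Gi (t, y) → x = y := by
    intro t x y h
    have := congrArg (fun z => G ((t : ℝ), z)) h
    simpa only [(hi t t.2 _).2.2.1] using this
  -- the relevant paths of configurations
  let P : C(unitInterval, Conf) := ⟨fun t => ⟨(Fi (t, Gi (t, 1)), Fi (t, Gi (t, 0))), fun h =>
    one_ne_zero (Giinj t _ _ (Fiinj t _ _ h))⟩, by fun_prop⟩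
  let Q : C(unitInterval, Conf) := ⟨fun t => ⟨(G (t, Fi (t, Gi (t, 1))), G (t, Fi (t, Gi (t, 0)))), fun h =>
    one_ne_zero (Giinj t _ _ (Fiinj t _ _ (Ginj t _ _ h)))⟩, by fun_prop⟩
  let R : C(unitInterval, Conf) := ⟨fun t => ⟨(Gi (t, 1), Gi (t, 0)), fun h =>
    one_ne_zero (Giinj t _ _ h)⟩, by fun_prop⟩
  let E : C(unitInterval, ℂ) := ⟨fun t => LF (t, Q t) + LG (t, P t) - LG (t, R t) - LF (t, P t), by
    fun_prop⟩
  have hE : ∀ t, E t = LF (t, Q t) + LG (t, P t) - LG (t, R t) - LF (t, P t) := fun t => rfl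
  have hexp : ∀ t : unitInterval, cexp (E t) =
        F (t, G (t, Fi (t, Gi (t, 1)))) - F (t, G (t, Fi (t, Gi (t, 0)))) := by
    intro t
    have h1 := hLF t (Q t)
    have h2 := hLG t (P t)
    have h3 := hLG t (R t)
    have h4 := hLF t (P t)
    have hP1 : (P t).1.1 = Fi (t, Gi (t, 1)) := rfl
    have hP2 : (P t).1.2 = Fi (t, Gi (t, 0)) := rfl
    have hQ1 : (Q t).1.1 = G (t, Fi (t, Gi (t, 1))) := rfl
    have hQ2 : (Q t).1.2 = G (t, Fi (t, Gi (t, 0))) := rfl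
    have hR1 : (R t).1.1 = Gi (t, 1) := rfl
    have hR2 : (R t).1.2 = Gi (t, 0) := rfl
    rw [hQ1, hQ2] at h1
    rw [hP1, hP2] at h2
    rw [hR1, hR2, (hi t t.2 _).2.2.1, (hi t t.2 _).2.2.1] at h3
    rw [hP1, hP2, (hi t t.2 _).1, (hi t t.2 _).1] at h4
    have hR : Gi (t, 1) - Gi (t, 0) ≠ 0 := sub_ne_zero.2 (R t).2
    have hPn : Fi (t, Gi (t, 1)) - Fi (t, Gi (t, 0)) ≠ 0 := sub_ne_zero.2 (P t).2
    rw [hE, Complex.exp_sub, Complex.exp_sub, Complex.exp_add, ← h1, ← h2]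
    rw [div_div, div_eq_iff (mul_ne_zero (Complex.exp_ne_zero _) (Complex.exp_ne_zero _))]
    have h5 : cexp (LG (t, R t)) * cexp (LF (t, P t)) *
        (Fi (t, Gi (t, 1)) - Fi (t, Gi (t, 0))) = 1 := by
      rw [mul_assoc, h4, h3]; ring
    linear_combination (-(cexp (LF (t, Q t)) * cexp (LG (t, P t)))) * h5
  let ℓf : C(Conf, ℂ) := ⟨fun a => LF (1, a), by fun_prop⟩
  let ℓg : C(Conf, ℂ) := ⟨fun a => LG (1, a), by fun_prop⟩
  have hf : LogDiff f ℓf := by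
    intro a
    have := hLF 1 a
    simp only [Icc.coe_one, (he _).2.2.1] at this
    exact this
  have hg : LogDiff g ℓg := by
    intro a
    have := hLG 1 a
    simp only [Icc.coe_one, (he _).2.2.2] at this
    exact this
  refine ⟨E, ℓf, ℓg, hf, hg, P 1, ?_, ?_, hexp, ?_⟩
  · rw [hE]
    simp [hLF0, hLG0]
  · have e1 : Q 1 = Conf.map g hg.inj (P 1) := by
      apply Subtype.ext
      apply Prod.ext
      · change G (((1 : unitInterval) : ℝ), Fi (((1 : unitInterval) : ℝ), Gi (((1 : unitInterval) : ℝ), 1))) =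
          g (Fi (((1 : unitInterval) : ℝ), Gi (((1 : unitInterval) : ℝ), 1)))
        rw [Icc.coe_one, (he _).2.2.2]
      · change G (((1 : unitInterval) : ℝ), Fi (((1 : unitInterval) : ℝ), Gi (((1 : unitInterval) : ℝ), 0))) =
          g (Fi (((1 : unitInterval) : ℝ), Gi (((1 : unitInterval) : ℝ), 0)))
        rw [Icc.coe_one, (he _).2.2.2]
    have e2 : R 1 = Conf.map f hf.inj (P 1) := by
      apply Subtype.ext
      apply Prod.ext
      · change Gi (((1 : unitInterval) : ℝ), 1) = f (Fi (((1 : unitInterval) : ℝ), Gi (((1 : unitInterval) : ℝ), 1)))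
        rw [Icc.coe_one, ← (he _).2.2.1, (hi 1 (by simp) _).1]
      · change Gi (((1 : unitInterval) : ℝ), 0) = f (Fi (((1 : unitInterval) : ℝ), Gi (((1 : unitInterval) : ℝ), 0)))
        rw [Icc.coe_one, ← (he _).2.2.1, (hi 1 (by simp) _).1]
    rw [hE, e1, e2]
    rfl
  · rw [hexp]
    rw [Icc.coe_one]
    have key : ∀ x : ℂ, F (1, G (1, Fi (1, Gi (1, x)))) = x := by
      intro x
      rw [(he _).2.2.1, (he _).2.2.2, hc, ← (he _).2.2.1, ← (he _).2.2.2,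
        (hi 1 (by simp) _).1, (hi 1 (by simp) _).2.2.1]
    rw [key, key, sub_zero]

theorem mem_HomK_iff {k : ℤ} {p : C(ℂ, ℂ) × C(ℂ, ℂ)} :
    p ∈ HomK k ↔ (∀ x, p.1 (p.2 x) = p.2 (p.1 x)) ∧ IsoId p.1 ∧ IsoId p.2 ∧
      EulerEq k p.1 p.2 := by
  have h2pi : (2 * Real.pi * Complex.I : ℂ) ≠ 0 := by simp [Real.pi_ne_zero]
  constructor
  · rintro ⟨hc, F, Fi, G, Gi, hi, he, θ, hθ, hC⟩
    refine ⟨hc, ⟨F, Fi, fun t ht x => ⟨(hi t ht x).1, (hi t ht x).2.1⟩,
      fun x => ⟨(he x).1, (he x).2.2.1⟩⟩, ⟨G, Gi, fun t ht x => (hi t ht x).2.2,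
      fun x => ⟨(he x).2.1, (he x).2.2.2⟩⟩, ?_⟩
    obtain ⟨E, ℓf, ℓg, hf, hg, a, hE0, hE1, hexp, hE1'⟩ := exists_interp hi he hc
    have hnorm : ∀ t : unitInterval, (0 : ℝ) < ‖cexp (E t)‖ := fun t => norm_pos_iff.2 (Complex.exp_ne_zero _)
    have h1 := exp_rigid (A := unitInterval) (u := E)
      (v := fun t => ((Real.log ‖cexp (E t)‖ : ℝ) : ℂ) + 2 * Real.pi * Complex.I * ((θ t : ℝ) : ℂ))
      E.continuous (by
        apply Continuous.add
        · apply Complex.continuous_ofReal.comp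
          apply Continuous.log
          · fun_prop
          · intro t; exact (hnorm t).ne'
        · fun_prop) (by
        intro t
        rw [Complex.exp_add, ← Complex.ofReal_exp, Real.exp_log (hnorm t), hexp t]
        exact hC t t.2) 1 0
    rw [hE0] at h1
    have h2 : ‖cexp (E 1)‖ = 1 := by rw [hE1']; simp
    have h3 : ‖cexp (0 : ℂ)‖ = 1 := by simp
    simp only [h2, h3, Real.log_one, Complex.ofReal_zero, zero_add, Icc.coe_one,
      Icc.coe_zero, zero_sub] at h1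
    have h4 : ((θ 1 - θ 0 : ℝ) : ℂ) = (k : ℂ) := by rw [hθ]; simp
    rw [Complex.ofReal_sub] at h4
    refine EulerEq.of_one hc hf hg (a := a) ?_
    linear_combination (-1 : ℂ) * hE1 + h1 + 2 * Real.pi * Complex.I * h4
  · rintro ⟨hc, ⟨F, Fi, hi1, he1⟩, ⟨G, Gi, hi2, he2⟩, hE⟩
    have hi : ∀ t ∈ Set.Icc (0:ℝ) 1, ∀ x : ℂ,
            F (t, Fi (t, x)) = x ∧ Fi (t, F (t, x)) = x ∧
            G (t, Gi (t, x)) = x ∧ Gi (t, G (t, x)) = x := fun t ht x =>
      ⟨(hi1 t ht x).1, (hi1 t ht x).2, (hi2 t ht x).1, (hi2 t ht x).2⟩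
    have he : ∀ x : ℂ, F (0, x) = x ∧ G (0, x) = x ∧
            F (1, x) = p.1 x ∧ G (1, x) = p.2 x := fun x =>
      ⟨(he1 x).1, (he2 x).1, (he1 x).2, (he2 x).2⟩
    refine ⟨hc, F, Fi, G, Gi, hi, he, ?_⟩
    obtain ⟨E, ℓf, ℓg, hf, hg, a, hE0, hE1, hexp, hE1'⟩ := exists_interp hi he hc
    have hk := hE ℓf ℓg hf hg a
    have hE1k : E 1 = 2 * Real.pi * Complex.I * k := by rw [hE1]; linear_combination hk
    let θ : C(ℝ, ℝ) := ⟨fun t => (E (projIcc 0 1 zero_le_one t)).im / (2 * Real.pi), by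
      apply Continuous.div_const
      exact Complex.continuous_im.comp (E.continuous.comp continuous_projIcc)⟩
    have hθ : ∀ t, θ t = (E (projIcc 0 1 zero_le_one t)).im / (2 * Real.pi) := fun t => rfl
    refine ⟨θ, ?_, ?_⟩
    · rw [hθ, hθ, projIcc_right, projIcc_left]
      change (E 1).im / _ - (E 0).im / _ = _
      rw [hE0, hE1k]
      have : ((2 * Real.pi * Complex.I * k : ℂ)).im = 2 * Real.pi * k := by simp
      rw [this]
      simp only [Complex.zero_im, zero_div, sub_zero]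
      field_simp
    · intro t ht
      have h1 := hexp ⟨t, ht⟩
      simp only at h1
      rw [← h1, hθ, projIcc_of_mem zero_le_one ht, Complex.norm_exp]
      rw [Complex.ofReal_exp, ← Complex.exp_add]
      congr 1
      have hpi : (Real.pi : ℝ) ≠ 0 := Real.pi_ne_zero
      obtain ⟨r, hr⟩ : ∃ r : ℝ, (E ⟨t, ht⟩).im / (2 * Real.pi) = r := ⟨_, rfl⟩
      rw [hr]
      have hr' : (E ⟨t, ht⟩).im = 2 * Real.pi * r := by rw [← hr]; field_simp
      apply Complex.ext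
      · simp
      · simp [hr']

/-- The spaces for different Euler numbers are disjoint. -/
theorem HomK_unique {k l : ℤ} {p : C(ℂ, ℂ) × C(ℂ, ℂ)} (h : p ∈ HomK k) (h' : p ∈ HomK l) :
    k = l := by
  obtain ⟨-, h1, h2, h3⟩ := mem_HomK_iff.1 h
  obtain ⟨-, -, -, h4⟩ := mem_HomK_iff.1 h'
  obtain ⟨ℓf, hf⟩ := h1.exists_logDiff
  obtain ⟨ℓg, hg⟩ := h2.exists_logDiff
  let a : Conf := ⟨(1, 0), one_ne_zero⟩
  have e1 := h3 ℓf ℓg hf hg a
  have e2 := h4 ℓf ℓg hf hg a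
  have h2pi : (2 * Real.pi * Complex.I : ℂ) ≠ 0 := by simp [Real.pi_ne_zero]
  have e3 : (2 * Real.pi * Complex.I : ℂ) * k = 2 * Real.pi * Complex.I * l := by linear_combination e2 - e1
  exact_mod_cast mul_left_cancel₀ h2pi e3

theorem isoId_id : IsoId (ContinuousMap.id ℂ) :=
  ⟨⟨fun q => q.2, by fun_prop⟩, ⟨fun q => q.2, by fun_prop⟩, fun t ht x => ⟨rfl, rfl⟩,
    fun x => ⟨rfl, rfl⟩⟩

theorem id_mem : ((ContinuousMap.id ℂ, ContinuousMap.id ℂ) : C(ℂ, ℂ) × C(ℂ, ℂ)) ∈ HomK 0 := by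
  rw [mem_HomK_iff]
  refine ⟨fun x => rfl, isoId_id, isoId_id, ?_⟩
  have h0 : LogDiff (ContinuousMap.id ℂ) 0 := fun a => by simp
  refine EulerEq.of_one (fun x => rfl) h0 h0 (a := ⟨(1, 0), one_ne_zero⟩) ?_
  simp

end Pool.Agent.Helper984_CP
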