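import Pool.Agent.Helper984_CP.Engulf2
import Pool.Agent.Helper984_CP.Closure
import Pool.Agent.Helper506.ArcRM

/-!
# Commuting pairs which preserve a simply connected domain
-/

set_option autoImplicit false

open Set Filter Topology

noncomputable section

namespace Pool.Agent.Helper984_CP

/-- two continuous functions on the closed disc which agree on the open disc -/
theorem eq_on_closed {F G : ℂ → ℂ} (hF : ContinuousOn F (Metric.closedBall 0 1))
    (hG : ContinuousOn G (Metric.closedBall 0 1)) (h : ∀ z, ‖z‖ < 1 → F z = G z) {z : ℂ}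
    (hz : ‖z‖ ≤ 1) : F z = G z := by
  have h1 : EqOn F G (Metric.ball 0 1) := fun z hz => h z (mem_ball_zero_iff.1 hz)
  exact h1.of_subset_closure hF hG Metric.ball_subset_closedBall
    (by rw [closure_ball _ one_ne_zero]) (mem_closedBall_zero_iff.2 hz)

theorem DiscMap.comp {F G : ℂ → ℂ} (hF : DiscMap F) (hG : DiscMap G) :
    ContinuousOn (fun z => F (G z)) (Metric.closedBall 0 1) :=
  hF.cont.comp hG.cont fun _ hz => mem_closedBall_zero_iff.2 (hG.le (mem_closedBall_zero_iff.1 hz))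

/-- the plane version of a homeomorphism preserving the domain -/
theorem exists_plane {F : ℂ → ℂ} (hF : DiscMap F) :
    ∃ A : C(ℂ, ℂ), ∀ z, A z = ofDisc (F (toDisc z)) := by
  refine ⟨⟨fun z => ofDisc (F (toDisc z)), ?_⟩, fun z => rfl⟩
  have h1 : Continuous fun z => F (toDisc z) :=
    hF.cont.comp_continuous continuous_toDisc fun z =>
      mem_closedBall_zero_iff.2 (norm_toDisc_lt z).le
  exact continuousOn_ofDisc.comp_continuous h1 fun z =>
    mem_ball_zero_iff.2 (hF.inner _ (norm_toDisc_lt z))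

theorem inv_chart {k : ℤ} {p : C(ℂ, ℂ) × C(ℂ, ℂ)} (hp : p ∈ HomK k) {φ ψ : ℂ → ℂ} {U : Set ℂ}
    (h : Riem φ ψ U) (hc : deriv φ 0 ≠ 0) (h1 : p.1 '' U = U) (h2 : p.2 '' U = U) :
    ∃ q, q ∈ closure (pathComponentIn (HomK k) p) ∧
      JoinedIn (HomK k) q (ContinuousMap.id ℂ, ContinuousMap.id ℂ) := by
  obtain ⟨hcomm, hi1, hi2, -⟩ := mem_HomK_iff.1 hp
  obtain ⟨fi, hf1, hf2⟩ := hi1.isHomeo
  obtain ⟨gi, hg1, hg2⟩ := hi2.isHomeo
  have mf : ∀ x ∈ U, p.1 x ∈ U := fun x hx => h1 ▸ mem_image_of_mem _ hx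
  have mg : ∀ x ∈ U, p.2 x ∈ U := fun x hx => h2 ▸ mem_image_of_mem _ hx
  have mfi : ∀ x ∈ U, fi x ∈ U := by
    intro x hx
    rw [← h1] at hx
    obtain ⟨y, hy, rfl⟩ := hx
    rwa [hf2]
  have mgi : ∀ x ∈ U, gi x ∈ U := by
    intro x hx
    rw [← h2] at hx
    obtain ⟨y, hy, rfl⟩ := hx
    rwa [hg2]
  obtain ⟨F, hF, eF⟩ := chart_extends h hf1 hf2 mf mfi
  obtain ⟨Fi, hFi, eFi⟩ := chart_extends h hf2 hf1 mfi mf
  obtain ⟨G, hG, eG⟩ := chart_extends h hg1 hg2 mg mgi
  obtain ⟨Gi, hGi, eGi⟩ := chart_extends h hg2 hg1 mgi mg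
  have c1 : ∀ z, ‖z‖ ≤ 1 → F (Fi z) = z := fun z hz => by
    refine eq_on_closed (hF.comp hFi) continuousOn_id (fun z hz => ?_) hz
    rw [eF _ (hFi.inner z hz), eFi z hz, h.right _ (mfi _ (h.maps z hz)), hf1, h.left z hz]
    rfl
  have c2 : ∀ z, ‖z‖ ≤ 1 → Fi (F z) = z := fun z hz => by
    refine eq_on_closed (hFi.comp hF) continuousOn_id (fun z hz => ?_) hz
    rw [eFi _ (hF.inner z hz), eF z hz, h.right _ (mf _ (h.maps z hz)), hf2, h.left z hz]
    rfl
  have c3 : ∀ z, ‖z‖ ≤ 1 → G (Gi z) = z := fun z hz => by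
    refine eq_on_closed (hG.comp hGi) continuousOn_id (fun z hz => ?_) hz
    rw [eG _ (hGi.inner z hz), eGi z hz, h.right _ (mgi _ (h.maps z hz)), hg1, h.left z hz]
    rfl
  have c4 : ∀ z, ‖z‖ ≤ 1 → Gi (G z) = z := fun z hz => by
    refine eq_on_closed (hGi.comp hG) continuousOn_id (fun z hz => ?_) hz
    rw [eGi _ (hG.inner z hz), eG z hz, h.right _ (mg _ (h.maps z hz)), hg2, h.left z hz]
    rfl
  have c5 : ∀ z, ‖z‖ ≤ 1 → F (G z) = G (F z) := fun z hz => by
    refine eq_on_closed (hF.comp hG) (hG.comp hF) (fun z hz => ?_) hz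
    rw [eF _ (hG.inner z hz), eG z hz, h.right _ (mg _ (h.maps z hz)), eG _ (hF.inner z hz),
      eF z hz, h.right _ (mf _ (h.maps z hz)), hcomm]
  obtain ⟨A, hA⟩ := exists_plane hF
  obtain ⟨B, hB⟩ := exists_plane hG
  obtain ⟨Ai, hAi⟩ := exists_plane hFi
  obtain ⟨Bi, hBi⟩ := exists_plane hGi
  have hAh : IsHomeo A := ⟨Ai, fun x => by
    rw [hA, hAi, toDisc_ofDisc (hFi.inner _ (norm_toDisc_lt x)), c1 _ (norm_toDisc_lt x).le,
      ofDisc_toDisc], fun x => by
    rw [hA, hAi, toDisc_ofDisc (hF.inner _ (norm_toDisc_lt x)), c2 _ (norm_toDisc_lt x).le,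
      ofDisc_toDisc]⟩
  have hBh : IsHomeo B := ⟨Bi, fun x => by
    rw [hB, hBi, toDisc_ofDisc (hGi.inner _ (norm_toDisc_lt x)), c3 _ (norm_toDisc_lt x).le,
      ofDisc_toDisc], fun x => by
    rw [hB, hBi, toDisc_ofDisc (hG.inner _ (norm_toDisc_lt x)), c4 _ (norm_toDisc_lt x).le,
      ofDisc_toDisc]⟩
  -- the chart conjugates the plane version to the restriction
  have kA : ∀ z, p.1 (φ (toDisc z)) = φ (toDisc (A z)) := by
    intro z
    rw [hA, toDisc_ofDisc (hF.inner _ (norm_toDisc_lt z)), eF _ (norm_toDisc_lt z),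
      h.right _ (mf _ (h.maps _ (norm_toDisc_lt z)))]
  have kB : ∀ z, p.2 (φ (toDisc z)) = φ (toDisc (B z)) := by
    intro z
    rw [hB, toDisc_ofDisc (hG.inner _ (norm_toDisc_lt z)), eG _ (norm_toDisc_lt z),
      h.right _ (mg _ (h.maps _ (norm_toDisc_lt z)))]
  obtain ⟨hq, hq'⟩ := HomK_limit (k := k) (p := p) (q := (A, B)) hAh hBh (by
    intro R
    obtain ⟨M1, hM1⟩ := (isCompact_closedBall (0 : ℂ) R).exists_bound_of_continuousOn
      A.continuous.continuousOn
    obtain ⟨M2, hM2⟩ := (isCompact_closedBall (0 : ℂ) R).exists_bound_of_continuousOn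
      B.continuous.continuousOn
    obtain ⟨H, hH1, hH2⟩ := exists_H h hc (max R (max M1 M2))
    obtain ⟨Hi, hHi1, hHi2⟩ := hH1.isHomeo
    refine ⟨_, HomK_conj hp (hH1.inv hHi1) (hi := H) hHi1, fun z hz => ⟨?_, ?_⟩⟩
    · change Hi (p.1 (H z)) = A z
      rw [hH2 z (hz.trans (le_max_left _ _)), kA, ← hH2 (A z) ?_, hHi2]
      exact (hM1 z (mem_closedBall_zero_iff.2 hz)).trans
        ((le_max_left _ _).trans (le_max_right _ _))
    · change Hi (p.2 (H z)) = B z
      rw [hH2 z (hz.trans (le_max_left _ _)), kB, ← hH2 (B z) ?_, hHi2]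
      exact (hM2 z (mem_closedBall_zero_iff.2 hz)).trans
        ((le_max_right _ _).trans (le_max_right _ _)))
  exact ⟨(A, B), hq', disc_joined hF hFi hG hGi c1 c2 c3 c4 c5 hA hB hq⟩

/-- membership in the component of the trivial pair from a limit -/
theorem mem_component_of_limit {k : ℤ} {p q e : C(ℂ, ℂ) × C(ℂ, ℂ)} (hp : p ∈ HomK k)
    (hq : q ∈ closure (pathComponentIn (HomK k) p)) (hj : JoinedIn (HomK k) q e) :
    p ∈ connectedComponentIn (HomK k) e := by
  have hqk : q ∈ HomK k := hj.source_mem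
  obtain ⟨S, hS⟩ : ∃ S, S = pathComponentIn (HomK k) p ∪ {q} := ⟨_, rfl⟩
  have hS1 : IsPreconnected S := by
    refine (isPathConnected_pathComponentIn hp).isConnected.isPreconnected.subset_closure
      (t := S) ?_ ?_
    · rw [hS]; exact subset_union_left
    · rw [hS]
      exact union_subset subset_closure (singleton_subset_iff.2 hq)
  have hT : IsPreconnected (pathComponentIn (HomK k) q) :=
    (isPathConnected_pathComponentIn hqk).isConnected.isPreconnected
  have hST : IsPreconnected (S ∪ pathComponentIn (HomK k) q) := by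
    refine hS1.union q ?_ (mem_pathComponentIn_self hqk) hT
    rw [hS]; exact mem_union_right _ rfl
  have hsub : S ∪ pathComponentIn (HomK k) q ⊆ HomK k := by
    refine union_subset ?_ pathComponentIn_subset
    rw [hS]
    exact union_subset pathComponentIn_subset (singleton_subset_iff.2 hqk)
  refine hST.subset_connectedComponentIn (x := e) (mem_union_right _ hj) hsub ?_
  left
  rw [hS]
  exact mem_union_left _ (mem_pathComponentIn_self hp)

theorem exists_riem {U : Set ℂ} (hU : IsOpen U) (hUc : IsSimplyConnected U) (hne : U ≠ univ) :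
    ∃ φ ψ : ℂ → ℂ, Riem φ ψ U ∧ deriv φ 0 ≠ 0 := by
  obtain ⟨a, ha⟩ := hUc.nonempty
  obtain ⟨g, φ, h1, h2, h3, h4, h5, h6, h7, h8⟩ :=
    Pool.Agent.Helper506.ArcRM.riemann_inv hU hUc hne ha
  refine ⟨g, φ, ⟨hU, h1, fun z hz => h2.mapsTo (mem_ball_zero_iff.2 hz), h5.continuousOn,
    fun w hw => mem_ball_zero_iff.1 (h6 hw), fun z hz => h8 z (mem_ball_zero_iff.2 hz), h7⟩,
    h3 0 (by simp)⟩

/-- a commuting pair which preserves a simply connected plane domain has Euler number zero and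
lies in the component of the trivial pair -/
theorem inv_domain {k : ℤ} {p : C(ℂ, ℂ) × C(ℂ, ℂ)} (hp : p ∈ HomK k) {U : Set ℂ}
    (hU : IsOpen U) (hUc : IsSimplyConnected U) (hne : U ≠ univ) (h1 : p.1 '' U = U)
    (h2 : p.2 '' U = U) :
    k = 0 ∧ p ∈ connectedComponentIn (HomK 0) (ContinuousMap.id ℂ, ContinuousMap.id ℂ) := by
  obtain ⟨φ, ψ, h, hc⟩ := exists_riem hU hUc hne
  obtain ⟨q, hq, hj⟩ := inv_chart hp h hc h1 h2
  have hk : k = 0 := HomK_unique hj.target_mem id_mem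
  subst hk
  exact ⟨rfl, mem_component_of_limit hp hq hj⟩

end Pool.Agent.Helper984_CP
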