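import Pool.Agent.Helper984_CP.Engulf2
import Pool.Agent.Helper984_CP.Closure
import Pool.Agent.Helper984_CP.Ext2

/-!
# Conjugation by the inversion
-/

set_option autoImplicit false

open Set Filter Topology

noncomputable section

namespace Pool.Agent.Helper984_CP

theorem fixes_inv {u ui : ℂ → ℂ} (h2 : ∀ x, ui (u x) = x) (h0 : u 0 = 0) : ui 0 = 0 := by
  rw [← h0, h2, h0]

/-- the inversion conjugate of a family of homeomorphisms fixing the origin -/
theorem continuous_inv0_family (P : C(unitInterval × ℂ, ℂ)) (hP : ∀ s, IsHomeo (slice P s))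
    (h0 : ∀ s, P (s, 0) = 0) : Continuous fun q : unitInterval × ℂ => (P (q.1, q.2⁻¹))⁻¹ := by
  obtain ⟨Pi, hPi⟩ := continuous_inv_family P (fun s => hP s)
  rw [continuous_iff_continuousAt]
  rintro ⟨s0, z0⟩
  by_cases hz0 : z0 = 0
  · subst hz0
    rw [Metric.continuousAt_iff]
    intro ε hε
    have hcomp : IsCompact ((univ : Set unitInterval) ×ˢ Metric.closedBall (0 : ℂ) (1 / ε)) :=
      isCompact_univ.prod (isCompact_closedBall _ _)
    obtain ⟨M, hM⟩ := hcomp.exists_bound_of_continuousOn Pi.continuous.continuousOn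
    have hM0 : 0 ≤ M := by
      have := hM (s0, 0) ⟨mem_univ _, by simp; positivity⟩
      exact (norm_nonneg _).trans this
    refine ⟨1 / (M + 1), by positivity, ?_⟩
    rintro ⟨s, z⟩ hq
    simp only
    rw [inv_zero, h0, inv_zero, dist_zero_right]
    by_cases hz : z = 0
    · rw [hz, inv_zero, h0, inv_zero, norm_zero]
      exact hε
    · have hzn : ‖z‖ < 1 / (M + 1) := by
        have h1 := (dist_comm (s, z) (s0, 0)) ▸ hq
        have h2 : dist z 0 ≤ dist (s, z) (s0, (0 : ℂ)) := by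
          rw [Prod.dist_eq]
          exact le_max_right _ _
        rw [dist_zero_right] at h2
        exact h2.trans_lt hq
      have hzp : 0 < ‖z‖ := norm_pos_iff.2 hz
      have hbig : M + 1 < ‖z⁻¹‖ := by
        rw [norm_inv, lt_inv_comm₀ (by positivity) hzp]
        rwa [one_div] at hzn
      have h3 : 1 / ε < ‖P (s, z⁻¹)‖ := by
        by_contra hcon
        push Not at hcon
        have := hM (s, P (s, z⁻¹)) ⟨mem_univ _, mem_closedBall_zero_iff.2 hcon⟩
        rw [(hPi s _).2] at this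
        linarith
      rw [norm_inv]
      rw [div_lt_iff₀ hε] at h3
      have h4 : 0 < ‖P (s, z⁻¹)‖ := by
        by_contra hcon
        push Not at hcon
        have : ‖P (s, z⁻¹)‖ = 0 := le_antisymm hcon (norm_nonneg _)
        rw [this] at h3
        linarith
      rw [inv_lt_iff_one_lt_mul₀ h4, mul_comm]
      exact h3
  · have hne : P (s0, z0⁻¹) ≠ 0 := by
      intro h
      have h1 : slice P s0 z0⁻¹ = slice P s0 0 := by
        rw [slice_apply, slice_apply, h, h0]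
      exact inv_ne_zero hz0 ((hP s0).injective h1)
    apply ContinuousAt.inv₀
    · have h1 : ContinuousAt (fun q : unitInterval × ℂ => (q.1, q.2⁻¹)) (s0, z0) := by
        apply ContinuousAt.prodMk continuousAt_fst
        exact ContinuousAt.inv₀ continuousAt_snd hz0
      exact P.continuous.continuousAt.comp h1
    · exact hne

def inv0C (P : C(unitInterval × ℂ, ℂ)) (hP : ∀ s, IsHomeo (slice P s))
    (h0 : ∀ s, P (s, 0) = 0) : C(unitInterval × ℂ, ℂ) := ⟨_, continuous_inv0_family P hP h0⟩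

theorem inv0C_apply (P : C(unitInterval × ℂ, ℂ)) (hP : ∀ s, IsHomeo (slice P s))
    (h0 : ∀ s, P (s, 0) = 0) (s : unitInterval) (z : ℂ) :
    inv0C P hP h0 (s, z) = (P (s, z⁻¹))⁻¹ := rfl

/-- the inversion conjugate of one homeomorphism -/
theorem exists_inv0 {u : C(ℂ, ℂ)} (hu : IsHomeo u) (h0 : u 0 = 0) :
    ∃ v : C(ℂ, ℂ), ∀ z, v z = (u z⁻¹)⁻¹ := by
  let P : C(unitInterval × ℂ, ℂ) := ⟨fun q => u q.2, by fun_prop⟩
  have hP : ∀ s, slice P s = u := fun s => by ext x; rfl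
  have h := continuous_inv0_family P (fun s => by rw [hP]; exact hu) (fun s => h0)
  refine ⟨⟨fun z => (u z⁻¹)⁻¹, ?_⟩, fun z => rfl⟩
  exact h.comp (f := fun z : ℂ => ((0 : unitInterval), z)) (by fun_prop)

theorem isHomeo_inv0 {u v : C(ℂ, ℂ)} (hu : IsHomeo u) (h0 : u 0 = 0)
    (hv : ∀ z, v z = (u z⁻¹)⁻¹) : IsHomeo v := by
  obtain ⟨ui, h1, h2⟩ := hu
  obtain ⟨w, hw⟩ := exists_inv0 (u := ui) ⟨u, h2, h1⟩ (fixes_inv h2 h0)
  exact ⟨w, fun x => by rw [hv, hw, inv_inv, h1, inv_inv],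
    fun x => by rw [hv, hw, inv_inv, h2, inv_inv]⟩

theorem slice_inv0C_homeo (P : C(unitInterval × ℂ, ℂ)) (hP : ∀ s, IsHomeo (slice P s))
    (h0 : ∀ s, P (s, 0) = 0) (s : unitInterval) : IsHomeo (slice (inv0C P hP h0) s) :=
  isHomeo_inv0 (hP s) (h0 s) fun _ => rfl

theorem isoId_inv0 {u v : C(ℂ, ℂ)} (hu : IsoId u) (h0 : u 0 = 0) (hv : ∀ z, v z = (u z⁻¹)⁻¹) :
    IsoId v := by
  rw [isoId_iff] at hu
  obtain ⟨P, h1, h2, h3⟩ := hu
  let Q : C(unitInterval × ℂ, ℂ) := ⟨fun q => P (q.1, q.2) - P (q.1, 0), by fun_prop⟩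
  have hQ : ∀ s, IsHomeo (slice Q s) := by
    intro s
    obtain ⟨w, hw1, hw2⟩ := h1 s
    refine ⟨⟨fun z => w (z + P (s, 0)), by fun_prop⟩, fun x => ?_, fun x => ?_⟩
    · change P (s, w (x + P (s, 0))) - P (s, 0) = x
      have := hw1 (x + P (s, 0))
      rw [slice_apply] at this
      rw [this]; ring
    · change w (P (s, x) - P (s, 0) + P (s, 0)) = x
      rw [sub_add_cancel]
      exact hw2 x
  have hQ0 : ∀ s, Q (s, 0) = 0 := fun s => sub_self _
  rw [isoId_iff]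
  refine ⟨inv0C Q hQ hQ0, slice_inv0C_homeo Q hQ hQ0, fun x => ?_, fun x => ?_⟩
  · rw [inv0C_apply]
    change (P (0, x⁻¹) - P (0, 0))⁻¹ = x
    rw [h2, h2, sub_zero, inv_inv]
  · rw [inv0C_apply, hv]
    change (P (1, x⁻¹) - P (1, 0))⁻¹ = _
    rw [h3, h3, h0, sub_zero]

/-- exterior configurations -/
theorem isPreconnected_ext {ρ : ℝ} (hρ : 0 < ρ) :
    IsPreconnected {a : Conf | ρ < ‖a.1.1‖ ∧ ρ < ‖a.1.2‖} := by
  -- the radial map
  let r : ℂ → ℂ := fun z => z * ((1 + ρ / ‖z‖ : ℝ) : ℂ)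
  have hrn : ∀ z, z ≠ 0 → ‖r z‖ = ‖z‖ + ρ := by
    intro z hz
    have hp : 0 < ‖z‖ := norm_pos_iff.2 hz
    simp only [r]
    rw [norm_mul, Complex.norm_real, Real.norm_of_nonneg (by positivity)]
    field_simp
  have hrinj : ∀ z w, z ≠ 0 → w ≠ 0 → r z = r w → z = w := by
    intro z w hz hw h
    have h1 := congrArg norm h
    rw [hrn z hz, hrn w hw] at h1
    have h2 : ‖z‖ = ‖w‖ := by linarith
    have hp : 0 < ‖w‖ := norm_pos_iff.2 hw
    simp only [r] at h
    rw [h2] at h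
    have h3 : ((1 + ρ / ‖w‖ : ℝ) : ℂ) ≠ 0 := by
      have : 0 < 1 + ρ / ‖w‖ := by positivity
      exact_mod_cast this.ne'
    exact mul_right_cancel₀ h3 h
  have hrsurj : ∀ w, ρ < ‖w‖ → ∃ z, z ≠ 0 ∧ r z = w := by
    intro w hw
    have hp : 0 < ‖w‖ := hρ.trans hw
    have hq : 0 < 1 - ρ / ‖w‖ := by rw [sub_pos, div_lt_one hp]; exact hw
    have hw0 : w ≠ 0 := norm_pos_iff.1 hp
    have hq' : ((1 - ρ / ‖w‖ : ℝ) : ℂ) ≠ 0 := by exact_mod_cast hq.ne'
    refine ⟨w * ((1 - ρ / ‖w‖ : ℝ) : ℂ), mul_ne_zero hw0 hq', ?_⟩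
    have hn : ‖w * ((1 - ρ / ‖w‖ : ℝ) : ℂ)‖ = ‖w‖ - ρ := by
      rw [norm_mul, Complex.norm_real, Real.norm_of_nonneg hq.le]
      field_simp
    simp only [r]
    rw [hn, mul_assoc, ← Complex.ofReal_mul]
    have h4 : (1 - ρ / ‖w‖) * (1 + ρ / (‖w‖ - ρ)) = 1 := by
      have h5 : ‖w‖ - ρ ≠ 0 := by linarith
      field_simp
      ring
    rw [h4]
    simp
  have hrc : ContinuousOn r {z | z ≠ 0} := by
    apply ContinuousOn.mul continuousOn_id
    apply Complex.continuous_ofReal.comp_continuousOn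
    apply ContinuousOn.add continuousOn_const
    apply ContinuousOn.div continuousOn_const continuous_norm.continuousOn
    intro z hz
    exact (norm_pos_iff.2 hz).ne'
  -- the parameter space
  have hA1 : IsPreconnected ({0}ᶜ : Set ℂ) :=
    (isConnected_compl_singleton_of_one_lt_rank (by simp) (0 : ℂ)).isPreconnected
  have hA2 : IsPreconnected (({0, 1} : Set ℂ)ᶜ) :=
    ((Set.toFinite ({0, 1} : Set ℂ)).countable.isConnected_compl_of_one_lt_rank
      (by simp)).isPreconnected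
  have hA : IsPreconnected (({0}ᶜ : Set ℂ) ×ˢ (({0, 1} : Set ℂ)ᶜ)) := hA1.prod hA2
  let A := {q : ℂ × ℂ // q ∈ (({0}ᶜ : Set ℂ) ×ˢ (({0, 1} : Set ℂ)ᶜ))}
  have hAs : PreconnectedSpace A := Subtype.preconnectedSpace hA
  have hq : ∀ q : A, q.1.1 ≠ 0 ∧ q.1.2 * q.1.1 ≠ 0 ∧ q.1.1 ≠ q.1.2 * q.1.1 := by
    rintro ⟨⟨x, t⟩, hx, ht⟩
    simp only [mem_compl_iff, mem_singleton_iff, mem_insert_iff, not_or] at hx ht
    refine ⟨hx, mul_ne_zero ht.1 hx, fun h => ht.2 ?_⟩
    simp only at h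
    exact mul_right_cancel₀ hx (by rw [← h, one_mul])
  let Ψ : A → Conf := fun q => ⟨(r q.1.1, r (q.1.2 * q.1.1)), fun h =>
    (hq q).2.2 (hrinj _ _ (hq q).1 (hq q).2.1 h)⟩
  have hΨ : Continuous Ψ := by
    apply Continuous.subtype_mk
    apply Continuous.prodMk
    · exact hrc.comp_continuous (by fun_prop) (fun q => (hq q).1)
    · exact hrc.comp_continuous (by fun_prop) (fun q => (hq q).2.1)
  have himg : {a : Conf | ρ < ‖a.1.1‖ ∧ ρ < ‖a.1.2‖} = range Ψ := by
    ext a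
    constructor
    · rintro ⟨h1, h2⟩
      obtain ⟨x, hx, hx'⟩ := hrsurj _ h1
      obtain ⟨y, hy, hy'⟩ := hrsurj _ h2
      have hxy : x ≠ y := by
        intro h
        apply a.2
        rw [← hx', ← hy', h]
      refine ⟨⟨(x, y / x), ?_⟩, ?_⟩
      · simp only [mem_prod, mem_compl_iff, mem_singleton_iff, mem_insert_iff, not_or]
        refine ⟨hx, div_ne_zero hy hx, fun h => hxy ?_⟩
        rw [div_eq_one_iff_eq hx] at h
        exact h.symm
      · apply Subtype.ext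
        apply Prod.ext
        · exact hx'
        · change r (y / x * x) = a.1.2
          rw [div_mul_cancel₀ _ hx, hy']
    · rintro ⟨q, rfl⟩
      constructor
      · change ρ < ‖r q.1.1‖
        rw [hrn _ (hq q).1]
        have := norm_pos_iff.2 (hq q).1
        linarith
      · change ρ < ‖r (q.1.2 * q.1.1)‖
        rw [hrn _ (hq q).2.1]
        have := norm_pos_iff.2 (hq q).2.1
        linarith
  rw [himg]
  exact isPreconnected_range hΨ

/-- rigidity of logarithms of maps which agree outside a ball -/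
theorem logDiff_rigid_ext {f f' : ℂ → ℂ} {ℓ ℓ' : C(Conf, ℂ)} (h : LogDiff f ℓ)
    (h' : LogDiff f' ℓ') {ρ : ℝ} (hρ : 0 < ρ) (heq : ∀ z, ρ < ‖z‖ → f z = f' z)
    {a b : Conf} (ha1 : ρ < ‖a.1.1‖) (ha2 : ρ < ‖a.1.2‖) (hb1 : ρ < ‖b.1.1‖)
    (hb2 : ρ < ‖b.1.2‖) : ℓ a - ℓ' a = ℓ b - ℓ' b := by
  refine exp_rigid_on (isPreconnected_ext hρ) ℓ.continuous.continuousOn
    ℓ'.continuous.continuousOn ?_ (show a ∈ {a : Conf | ρ < ‖a.1.1‖ ∧ ρ < ‖a.1.2‖} from
      ⟨ha1, ha2⟩) (show b ∈ {a : Conf | ρ < ‖a.1.1‖ ∧ ρ < ‖a.1.2‖} from ⟨hb1, hb2⟩)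
  intro d hd
  have h1 := h d
  have h2 := h' d
  rw [heq _ hd.1, heq _ hd.2, ← h2] at h1
  exact mul_right_cancel₀ (sub_ne_zero.2 d.2) h1

/-- a pair which agrees outside arbitrarily small balls with members of a path component belongs
to the closure of that component -/
theorem HomK_limit' {k : ℤ} {p q : C(ℂ, ℂ) × C(ℂ, ℂ)} (hq1 : IsHomeo q.1) (hq2 : IsHomeo q.2)
    (hcomm : ∀ x, q.1 (q.2 x) = q.2 (q.1 x)) (hz1 : q.1 0 = 0) (hz2 : q.2 0 = 0)
    (H : ∀ ρ > 0, ∃ q' : C(ℂ, ℂ) × C(ℂ, ℂ), JoinedIn (HomK k) p q' ∧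
      ∀ z, ρ ≤ ‖z‖ → q'.1 z = q.1 z ∧ q'.2 z = q.2 z) :
    q ∈ HomK k ∧ q ∈ closure (pathComponentIn (HomK k) p) := by
  constructor
  · have hiso : ∀ (u v : C(ℂ, ℂ)), IsHomeo u → IsoId v → (∀ z, 1 ≤ ‖z‖ → v z = u z) →
        IsoId u := by
      intro u v hu hv huv
      obtain ⟨ui, hu1, hu2⟩ := hu
      obtain ⟨vi, hv1, hv2⟩ := hv.isHomeo
      have h1 : IsoId (vi.comp u) := by
        refine isoId_of_eq_id_on_ball' (x0 := 3) ?_ one_pos fun z hz => ?_
        · exact ⟨ui.comp v, fun x => by simp [hu1, hv2], fun x => by simp [hu2, hv1]⟩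
        · have h3 : ‖(3 : ℂ)‖ = 3 := by simp
          have h4 := norm_sub_norm_le (3 : ℂ) z
          rw [norm_sub_rev, h3] at h4
          rw [ContinuousMap.comp_apply, ← huv z (by linarith), hv2]
      have h2 := hv.comp h1
      have h3 : v.comp (vi.comp u) = u := by
        ext x
        simp [hv1]
      rwa [h3] at h2
    obtain ⟨q'', hj'', he''⟩ := H 1 one_pos
    have hi1 : IsoId q.1 :=
      hiso q.1 q''.1 hq1 (mem_HomK_iff.1 hj''.target_mem).2.1 fun z hz => (he'' z hz).1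
    have hi2 : IsoId q.2 :=
      hiso q.2 q''.2 hq2 (mem_HomK_iff.1 hj''.target_mem).2.2.1 fun z hz => (he'' z hz).2
    rw [mem_HomK_iff]
    refine ⟨hcomm, hi1, hi2, ?_⟩
    have hpos : ∀ (u : C(ℂ, ℂ)), IsHomeo u → u 0 = 0 → ∀ z, z ≠ 0 → 0 < ‖u z‖ := by
      intro u hu hu0 z hz
      rw [norm_pos_iff]
      intro h
      rw [← hu0] at h
      exact hz (hu.injective h)
    have n1 := hpos q.1 hq1 hz1 1 one_ne_zero
    have n2 := hpos q.1 hq1 hz1 2 two_ne_zero
    have n3 := hpos q.2 hq2 hz2 1 one_ne_zero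
    have n4 := hpos q.2 hq2 hz2 2 two_ne_zero
    obtain ⟨m, hm⟩ : ∃ m, m = min (min ‖q.1 1‖ ‖q.1 2‖) (min ‖q.2 1‖ ‖q.2 2‖) := ⟨_, rfl⟩
    have hm0 : 0 < m := by
      rw [hm]
      exact lt_min (lt_min n1 n2) (lt_min n3 n4)
    have m1 : m ≤ ‖q.1 1‖ := by rw [hm]; exact (min_le_left _ _).trans (min_le_left _ _)
    have m2 : m ≤ ‖q.1 2‖ := by rw [hm]; exact (min_le_left _ _).trans (min_le_right _ _)
    have m3 : m ≤ ‖q.2 1‖ := by rw [hm]; exact (min_le_right _ _).trans (min_le_left _ _)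
    have m4 : m ≤ ‖q.2 2‖ := by rw [hm]; exact (min_le_right _ _).trans (min_le_right _ _)
    obtain ⟨ρ, hρ⟩ : ∃ ρ, ρ = min (m / 2) (1 / 2) := ⟨_, rfl⟩
    have hρ0 : 0 < ρ := by rw [hρ]; positivity
    have hρ1 : ρ ≤ m / 2 := by rw [hρ]; exact min_le_left _ _
    have hρ2 : ρ ≤ 1 / 2 := by rw [hρ]; exact min_le_right _ _
    obtain ⟨q', hj, he⟩ := H ρ hρ0
    obtain ⟨-, hi1', hi2', hE⟩ := mem_HomK_iff.1 hj.target_mem
    obtain ⟨ℓf, hf⟩ := hi1.exists_logDiff
    obtain ⟨ℓg, hg⟩ := hi2.exists_logDiff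
    obtain ⟨ℓf', hf'⟩ := hi1'.exists_logDiff
    obtain ⟨ℓg', hg'⟩ := hi2'.exists_logDiff
    let a : Conf := ⟨(1, 2), by norm_num⟩
    have e1 : ‖(1 : ℂ)‖ = 1 := norm_one
    have e2 : ‖(2 : ℂ)‖ = 2 := by simp
    have ha1 : ρ < ‖a.1.1‖ := by
      change ρ < ‖(1 : ℂ)‖
      rw [e1]; linarith
    have ha2 : ρ < ‖a.1.2‖ := by
      change ρ < ‖(2 : ℂ)‖
      rw [e2]; linarith
    refine EulerEq.of_one hcomm hf hg (a := a) ?_
    have hE' := hE ℓf' ℓg' hf' hg' a
    have k1 : Conf.map q'.1 hf'.inj a = Conf.map q.1 hf.inj a := by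
      apply Subtype.ext
      apply Prod.ext
      · exact (he 1 (by rw [e1]; linarith)).1
      · exact (he 2 (by rw [e2]; linarith)).1
    have k2 : Conf.map q'.2 hg'.inj a = Conf.map q.2 hg.inj a := by
      apply Subtype.ext
      apply Prod.ext
      · exact (he 1 (by rw [e1]; linarith)).2
      · exact (he 2 (by rw [e2]; linarith)).2
    rw [k1, k2] at hE'
    have r1 := logDiff_rigid_ext hf hf' hρ0 (fun z hz => ((he z hz.le).1).symm)
      (a := a) (b := Conf.map q.2 hg.inj a) ha1 ha2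
      (by change ρ < ‖q.2 1‖; linarith) (by change ρ < ‖q.2 2‖; linarith)
    have r2 := logDiff_rigid_ext hg hg' hρ0 (fun z hz => ((he z hz.le).2).symm)
      (a := a) (b := Conf.map q.1 hf.inj a) ha1 ha2
      (by change ρ < ‖q.1 1‖; linarith) (by change ρ < ‖q.1 2‖; linarith)
    linear_combination hE' - r1 + r2
  · choose q' hj he using fun n : ℕ => H (1 / ((n : ℝ) + 1)) (by positivity)
    have ht : Tendsto q' atTop (𝓝 q) := by
      have key : ∀ (u : ℕ → C(ℂ, ℂ)) (v : C(ℂ, ℂ)), IsHomeo v → (∀ n, IsHomeo (u n)) → v 0 = 0 →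
          (∀ n : ℕ, ∀ z, 1 / ((n : ℝ) + 1) ≤ ‖z‖ → u n z = v z) → Tendsto u atTop (𝓝 v) := by
        intro u v hv hun hv0 huv
        obtain ⟨vi, hv1, hv2⟩ := hv
        rw [ContinuousMap.tendsto_iff_forall_isCompact_tendstoUniformlyOn]
        intro K hK
        rw [Metric.tendstoUniformlyOn_iff]
        intro ε hε
        obtain ⟨δ, hδ, hvδ⟩ := Metric.continuousAt_iff.1 (v.continuous.continuousAt (x := 0))
          (ε / 2) (half_pos hε)
        obtain ⟨N, hN⟩ := exists_nat_gt (1 / δ)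
        filter_upwards [eventually_ge_atTop N] with n hn z hz
        have hnδ : 1 / ((n : ℝ) + 1) < δ := by
          have h3 : (N : ℝ) ≤ n := by exact_mod_cast hn
          rw [div_lt_iff₀ (by positivity)]
          rw [div_lt_iff₀ hδ] at hN
          nlinarith
        have hsm : ∀ w, ‖w‖ < 1 / ((n : ℝ) + 1) → ‖v w‖ < ε / 2 := by
          intro w hw
          have := hvδ (x := w) (by rw [dist_zero_right]; linarith)
          rwa [hv0, dist_zero_right] at this
        rcases le_or_gt (1 / ((n : ℝ) + 1)) ‖z‖ with h | h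
        · rw [huv n z h, dist_self]
          exact hε
        · have h1 := hsm z h
          have h2 : ‖u n z‖ < ε / 2 := by
            obtain ⟨w, hw⟩ : ∃ w, w = vi (u n z) := ⟨_, rfl⟩
            have hvw : v w = u n z := by rw [hw, hv1]
            rw [← hvw]
            apply hsm
            by_contra hcon
            push Not at hcon
            have h3 := huv n w hcon
            rw [hvw] at h3
            have h4 := (hun n).injective h3
            rw [h4] at hcon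
            linarith
          rw [dist_eq_norm]
          have := norm_sub_le (v z) (u n z)
          linarith
      rw [nhds_prod_eq]
      exact (key (fun n => (q' n).1) q.1 hq1
        (fun n => (mem_HomK_iff.1 (hj n).target_mem).2.1.isHomeo) hz1
        (fun n z hz => (he n z hz).1)).prodMk
        (key (fun n => (q' n).2) q.2 hq2
        (fun n => (mem_HomK_iff.1 (hj n).target_mem).2.2.1.isHomeo) hz2
        (fun n z hz => (he n z hz).2))
    exact mem_closure_of_tendsto ht (Eventually.of_forall fun n => hj n)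

end Pool.Agent.Helper984_CP
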