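import Pool.Agent.Helper984_CP.LiftP

/-!
# Every plane homeomorphism is isotopic to the identity or to complex conjugation
-/

set_option autoImplicit false

open Set Filter Topology ComplexConjugate

noncomputable section

namespace Pool.Agent.Helper984_CP

/-- complex conjugation -/
def conjC : C(ℂ, ℂ) := ⟨fun z => conj z, Complex.continuous_conj⟩

@[simp] theorem conjC_apply (z : ℂ) : conjC z = conj z := rfl

theorem isHomeo_conjC : IsHomeo conjC :=
  ⟨conjC, fun x => Complex.conj_conj x, fun x => Complex.conj_conj x⟩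

theorem IsoId.trans_path_rev (P : C(unitInterval × ℂ, ℂ)) (hP : ∀ s, IsHomeo (slice P s))
    (h1 : IsoId (slice P 1)) : IsoId (slice P 0) := by
  let P' : C(unitInterval × ℂ, ℂ) := ⟨fun q => P (unitInterval.symm q.1, q.2), by fun_prop⟩
  have hs : ∀ s, slice P' s = slice P (unitInterval.symm s) := fun s => rfl
  have := IsoId.trans_path P' (fun s => by rw [hs]; exact hP _)
    (by rw [hs, unitInterval.symm_zero]; exact h1) 1
  rwa [hs, unitInterval.symm_one] at this

theorem isoId_of_eq_chart {φ ψ : ℂ → ℂ} {U : Set ℂ} (h : Riem φ ψ U) (hc : deriv φ 0 ≠ 0)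
    {Φ : C(ℂ, ℂ)} (hΦ : IsHomeo Φ) (he : ∀ z, ‖z‖ < 1 → Φ z = φ z) : IsoId Φ := by
  obtain ⟨H, hH, hHe⟩ := exists_H h hc 1
  obtain ⟨b, hb, hbe⟩ := exists_toDisc_ext 1 one_pos
  obtain ⟨Hi, hHi1, hHi2⟩ := hH.isHomeo
  obtain ⟨bi, hbi1, hbi2⟩ := hb.isHomeo
  have hu : IsoId (Hi.comp (Φ.comp b)) := by
    refine isoId_of_eq_id_on_ball ?_ one_pos (fun z hz => ?_)
    · exact IsHomeo.comp ⟨H, hHi2, hHi1⟩ (hΦ.comp hb.isHomeo)
    · simp only [ContinuousMap.comp_apply]
      rw [hbe z hz.le, he _ (norm_toDisc_lt z), ← hHe z hz.le, hHi2]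
  have h3 := (hH.comp hu).comp (hb.inv hbi1)
  have e : (H.comp (Hi.comp (Φ.comp b))).comp bi = Φ := by
    ext z
    simp only [ContinuousMap.comp_apply]
    rw [hHi1, hbi1]
  rwa [e] at h3

/-- the path from the radial extension of a disc map to a norm preserving map -/
theorem isHomeo_radial_path {F Fi : ℂ → ℂ} (hF : DiscMap F) (hFi : DiscMap Fi)
    (r1 : ∀ z, ‖z‖ ≤ 1 → F (Fi z) = z) (r2 : ∀ z, ‖z‖ ≤ 1 → Fi (F z) = z) (s : unitInterval) :
    IsHomeo (slice (radialC F hF) s) :=
  ⟨slice (radialC Fi hFi) s, fun z => by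
      simp only [slice_apply, radialC_apply]
      exact radial_inv hFi r1 (unitInterval.symm s).2.1 z, fun z => by
      simp only [slice_apply, radialC_apply]
      exact radial_inv hF r2 (unitInterval.symm s).2.1 z⟩

theorem radial_one_norm {F : ℂ → ℂ} (hF : DiscMap F) (z : ℂ) :
    ‖slice (radialC F hF) 1 z‖ = ‖z‖ := by
  rw [slice_apply, radialC_apply]
  simp only [unitInterval.symm_one, Icc.coe_zero]
  exact norm_radial_eq hF (norm_nonneg z)

theorem radial_one_hom {F : ℂ → ℂ} (hF : DiscMap F) (r : ℝ) (z : ℂ) (hr : 0 < r) :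
    slice (radialC F hF) 1 (r * z) = r * slice (radialC F hF) 1 z := by
  rw [slice_apply, slice_apply, radialC_apply, radialC_apply]
  simp only [unitInterval.symm_one, Icc.coe_zero, radial]
  rw [norm_mul, Complex.norm_real, Real.norm_of_nonneg hr.le, max_eq_right (by positivity),
    max_eq_right (norm_nonneg z)]
  have hr' : (r : ℂ) ≠ 0 := by exact_mod_cast hr.ne'
  have : (r : ℂ) * z / ((r * ‖z‖ : ℝ) : ℂ) = z / ((‖z‖ : ℝ) : ℂ) := by
    rw [Complex.ofReal_mul]
    exact mul_div_mul_left _ _ hr'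
  rw [this]
  push_cast
  ring

/-- Kneser: a plane homeomorphism is isotopic to the identity or to complex conjugation -/
theorem kneser {h : C(ℂ, ℂ)} (hh : IsHomeo h) : IsoId h ∨ IsoId (h.comp conjC) := by
  obtain ⟨hi, e1, e2⟩ := hh
  obtain ⟨φ, ψ, c, F, Fi, Q, Qi, Φ, Φi, hR, -, hc, hder, -, hF, hFi, r1, r2, hQ, hQi, q1, q2, p1,
    p2, hd, hΦ, -⟩ := exists_straight e1 e2 (σ := False) (fun h => h.elim)
  have hΦI : IsoId Φ := isoId_of_eq_chart hR (by
    rw [hder.deriv]
    exact_mod_cast hc.ne') ⟨Φi, p1, p2⟩ hΦ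
  have hhe : h = Φ.comp Q := by ext z; exact hd z
  have hQe : slice (radialC F hF) 0 = Q := by
    ext z
    rw [slice_apply, radialC_apply, hQ]
    simp
  have hpath := isHomeo_radial_path hF hFi r1 r2
  have hA : IsHomeo (slice (radialC F hF) 1) := hpath 1
  have hcone : ∀ A : C(ℂ, ℂ), IsHomeo A → (∀ z, ‖A z‖ = ‖z‖) →
      (∀ (r : ℝ) (z : ℂ), 0 < r → A (r * z) = r * A z) → (∃ M, LiftOf A M) → IsoId A := by
    rintro A hA hn hh ⟨M, hM⟩
    obtain ⟨P, hP1, hP2, hP3, -, -⟩ := cone_path hn hA.injective hh hM (σ := False)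
      (fun h => h.elim)
    have e1 : slice P 1 = ContinuousMap.id ℂ := by ext z; exact hP3 z
    have e0 : slice P 0 = A := by ext z; exact hP2 z
    have := IsoId.trans_path_rev P hP1 (by rw [e1]; exact isoId_id)
    rwa [e0] at this
  rcases lift_or hA (by
    rw [← norm_eq_zero, radial_one_norm hF, norm_zero]) with hM | ⟨M, hM⟩
  · left
    have h1 := hcone _ hA (radial_one_norm hF) (radial_one_hom hF) hM
    have h2 := IsoId.trans_path_rev _ hpath h1
    rw [hQe] at h2
    rw [hhe]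
    exact hΦI.comp h2
  · right
    have h1 := hcone ((slice (radialC F hF) 1).comp conjC) (hA.comp isHomeo_conjC) (fun z => by
      simp only [ContinuousMap.comp_apply, conjC_apply]
      rw [radial_one_norm hF, Complex.norm_conj]) (fun r z hr => by
      simp only [ContinuousMap.comp_apply, conjC_apply]
      rw [map_mul, Complex.conj_ofReal, radial_one_hom hF r _ hr]) ⟨M, hM⟩
    let P : C(unitInterval × ℂ, ℂ) := ⟨fun q => radialC F hF (q.1, conj q.2), by fun_prop⟩
    have hPs : ∀ s, slice P s = (slice (radialC F hF) s).comp conjC := fun s => rfl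
    have h2 := IsoId.trans_path_rev P (fun s => by rw [hPs]; exact (hpath s).comp isHomeo_conjC)
      (by rw [hPs]; exact h1)
    rw [hPs, hQe] at h2
    have h3 := hΦI.comp h2
    rw [hhe]
    exact h3

end Pool.Agent.Helper984_CP
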