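import Mathlib

/-!
# The length-area method
-/

set_option autoImplicit false

open Set Filter Topology MeasureTheory
open scoped ENNReal

noncomputable section

namespace Pool.Agent.Helper984_CP

theorem det_smul_clm (c : ℂ) :
    ((ContinuousLinearMap.toSpanSingleton ℂ c).restrictScalars ℝ : ℂ →L[ℝ] ℂ).det = ‖c‖ ^ 2 := by
  simp [ContinuousLinearMap.det, LinearMap.det_restrictScalars,
      Algebra.norm_complex_eq, Complex.normSq_eq_norm_sq]

theorem area_change {V : Set ℂ} (hV : MeasurableSet V) {Φ Φ' : ℂ → ℂ}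
    (hd : ∀ z ∈ V, HasDerivAt Φ (Φ' z) z) (hinj : InjOn Φ V) (G : ℂ → ℝ≥0∞) :
    ∫⁻ w in Φ '' V, G w = ∫⁻ z in V, ENNReal.ofReal (‖Φ' z‖ ^ 2) * G (Φ z) := by
  have key := lintegral_image_eq_lintegral_abs_det_fderiv_mul (volume : Measure ℂ) hV
    (f := Φ)
    (f' := fun w => ((ContinuousLinearMap.toSpanSingleton ℂ (Φ' w)).restrictScalars ℝ))
    (fun w hw => ((hd w hw).hasFDerivAt.restrictScalars ℝ).hasFDerivWithinAt)
    hinj G
  rw [key]
  refine lintegral_congr fun w => ?_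
  rw [det_smul_clm, abs_of_nonneg (by positivity)]

theorem volume_rect (a b : ℝ) : volume {w : ℂ | (a < w.re ∧ w.re < b) ∧ (-Real.pi < w.im ∧
    w.im ≤ Real.pi)} ≤ ENNReal.ofReal (b - a) * ENNReal.ofReal (2 * Real.pi) := by
  have h1 : {w : ℂ | (a < w.re ∧ w.re < b) ∧ (-Real.pi < w.im ∧ w.im ≤ Real.pi)} =
      Complex.measurableEquivRealProd ⁻¹' (Ioo a b ×ˢ Ioc (-Real.pi) Real.pi) := by
    ext w
    simp [Complex.measurableEquivRealProd]
  rw [h1, Complex.volume_preserving_equiv_real_prod.measure_preimage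
    (measurableSet_Ioo.prod measurableSet_Ioc).nullMeasurableSet, Measure.volume_eq_prod,
    Measure.prod_prod, Real.volume_Ioo, Real.volume_Ioc]
  have : Real.pi - -Real.pi = 2 * Real.pi := by ring
  rw [this]

theorem log_annulus {a b : ℝ} (ha : 0 < a) (hab : a ≤ b) :
    ∫⁻ ζ in {ζ : ℂ | a < ‖ζ‖ ∧ ‖ζ‖ < b}, ENNReal.ofReal ((1 / ‖ζ‖) ^ 2) ≤
      ENNReal.ofReal (2 * Real.pi * Real.log (b / a)) := by
  have hb : 0 < b := ha.trans_le hab
  let V : Set ℂ := {w : ℂ | (Real.log a < w.re ∧ w.re < Real.log b) ∧ (-Real.pi < w.im ∧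
    w.im ≤ Real.pi)}
  have hV : MeasurableSet V := by
    apply MeasurableSet.inter
    · exact (measurableSet_lt measurable_const Complex.measurable_re).inter
        (measurableSet_lt Complex.measurable_re measurable_const)
    · exact (measurableSet_lt measurable_const Complex.measurable_im).inter
        (measurableSet_le Complex.measurable_im measurable_const)
  have himg : Complex.exp '' V = {ζ : ℂ | a < ‖ζ‖ ∧ ‖ζ‖ < b} := by
    ext ζ
    constructor
    · rintro ⟨w, hw, rfl⟩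
      rw [mem_ofPred_eq, Complex.norm_exp]
      refine ⟨?_, ?_⟩
      · rw [← Real.log_lt_iff_lt_exp ha]; exact hw.1.1
      · rw [← Real.lt_log_iff_exp_lt hb]; exact hw.1.2
    · rintro ⟨h1, h2⟩
      have h0 : ζ ≠ 0 := by
        intro h
        rw [h, norm_zero] at h1
        linarith
      refine ⟨Complex.log ζ, ⟨⟨?_, ?_⟩, Complex.neg_pi_lt_log_im ζ, Complex.log_im_le_pi ζ⟩,
        Complex.exp_log h0⟩
      · rw [Complex.log_re]
        exact Real.log_lt_log ha h1
      · rw [Complex.log_re]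
        exact Real.log_lt_log (norm_pos_iff.2 h0) h2
  rw [← himg, area_change hV (fun z _ => Complex.hasDerivAt_exp z) ?_]
  · have h1 : ∀ z : ℂ, ENNReal.ofReal (‖Complex.exp z‖ ^ 2) *
        ENNReal.ofReal ((1 / ‖Complex.exp z‖) ^ 2) = 1 := by
      intro z
      have h2 : ‖Complex.exp z‖ ≠ 0 := norm_ne_zero_iff.2 (Complex.exp_ne_zero z)
      rw [← ENNReal.ofReal_mul (by positivity), ← mul_pow, mul_one_div_cancel h2]
      simp
    simp only [h1]
    rw [lintegral_one, Measure.restrict_apply_univ]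
    refine (volume_rect _ _).trans ?_
    have h3 : 0 ≤ Real.log b - Real.log a := sub_nonneg.2 (Real.log_le_log ha hab)
    rw [← ENNReal.ofReal_mul h3, Real.log_div hb.ne' ha.ne']
    apply le_of_eq
    congr 1
    ring
  · intro z hz w hw h
    exact Complex.exp_inj_of_neg_pi_lt_of_le_pi hz.2.1 hz.2.2 hw.2.1 hw.2.2 h

/-- slices of a planar set -/
def sl (V : Set ℂ) (s : ℝ) : Set ℝ := {t : ℝ | (s : ℂ) + t * Complex.I ∈ V}

theorem length_area {V : Set ℂ} (hV : IsOpen V) {Φ Φ' : ℂ → ℂ}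
    (hd : ∀ z ∈ V, HasDerivAt Φ (Φ' z) z) (hc : ContinuousOn Φ' V) (hinj : InjOn Φ V)
    {g : ℂ → ℝ} (hg : Measurable g) {S : Set ℝ} (hS : MeasurableSet S)
    {ℓ ε : ℝ} (hℓ : 0 < ℓ) (hε : 0 < ε) (hVs : ∀ s ∈ S, volume (sl V s) ≤ ENNReal.ofReal ℓ)
    (hL : ∀ s ∈ S, ENNReal.ofReal ε ≤ ∫⁻ t in sl V s,
      ENNReal.ofReal (‖Φ' (s + t * Complex.I)‖ * g (Φ (s + t * Complex.I)))) :
    volume S * ENNReal.ofReal (ε ^ 2 / ℓ) ≤ ∫⁻ ζ in Φ '' V, ENNReal.ofReal (g ζ ^ 2) := by
  classical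
  rw [area_change hV.measurableSet hd hinj]
  have hΦc : ContinuousOn Φ V := fun z hz => (hd z hz).continuousAt.continuousWithinAt
  -- a globally measurable version of the integrand
  let Ψ : ℂ → ℂ := V.piecewise Φ (fun _ => 0)
  let Ψ' : ℂ → ℂ := V.piecewise Φ' (fun _ => 0)
  have hΨm : Measurable Ψ := by
    apply ContinuousOn.measurable_piecewise hΦc continuousOn_const hV.measurableSet
  have hΨm' : Measurable Ψ' := by
    apply ContinuousOn.measurable_piecewise hc continuousOn_const hV.measurableSet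
  have hΨ : ∀ z ∈ V, Ψ z = Φ z := fun z hz => piecewise_eq_of_mem _ _ _ hz
  have hΨ' : ∀ z ∈ V, Ψ' z = Φ' z := fun z hz => piecewise_eq_of_mem _ _ _ hz
  let K : ℂ → ℝ≥0∞ := V.indicator fun z => ENNReal.ofReal ((‖Ψ' z‖ * g (Ψ z)) ^ 2)
  have hKm : Measurable K := by
    apply Measurable.indicator _ hV.measurableSet
    exact (((hΨm'.norm).mul (hg.comp hΨm)).pow_const 2).ennreal_ofReal
  have e1 : ∫⁻ z in V, ENNReal.ofReal (‖Φ' z‖ ^ 2) * ENNReal.ofReal (g (Φ z) ^ 2) = ∫⁻ z, K z := by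
    rw [← lintegral_indicator hV.measurableSet]
    refine lintegral_congr fun z => ?_
    by_cases hz : z ∈ V
    · simp only [K]
      rw [indicator_of_mem hz, indicator_of_mem hz, hΨ z hz, hΨ' z hz,
        ← ENNReal.ofReal_mul (by positivity), mul_pow]
    · simp only [K]
      rw [indicator_of_notMem hz, indicator_of_notMem hz]
  rw [e1]
  have e2 : ∫⁻ z, K z = ∫⁻ p : ℝ × ℝ, K ((p.1 : ℂ) + p.2 * Complex.I) := by
    rw [← Complex.volume_preserving_equiv_real_prod.symm.lintegral_comp hKm]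
    refine lintegral_congr fun p => ?_
    rw [Complex.measurableEquivRealProd_symm_apply]
    congr 1
    apply Complex.ext <;> simp
  have hmap : Measurable fun p : ℝ × ℝ => (p.1 : ℂ) + p.2 * Complex.I := by
    have : Continuous fun p : ℝ × ℝ => (p.1 : ℂ) + p.2 * Complex.I := by fun_prop
    exact this.measurable
  have e2' : ∫⁻ p : ℝ × ℝ, K ((p.1 : ℂ) + p.2 * Complex.I) =
      ∫⁻ s : ℝ, ∫⁻ t : ℝ, K ((s : ℂ) + t * Complex.I) := by
    rw [Measure.volume_eq_prod]
    exact lintegral_prod (fun p : ℝ × ℝ => K ((p.1 : ℂ) + p.2 * Complex.I))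
      (hKm.comp hmap).aemeasurable
  rw [e2, e2']
  -- the estimate on each slice
  have hslice : ∀ s ∈ S, ENNReal.ofReal (ε ^ 2 / ℓ) ≤
      ∫⁻ t : ℝ, K ((s : ℂ) + t * Complex.I) := by
    intro s hs
    have hsm : MeasurableSet (sl V s) := by
      have : Continuous fun t : ℝ => (s : ℂ) + t * Complex.I := by fun_prop
      exact (hV.preimage this).measurableSet
    have e3 : ∫⁻ t : ℝ, K ((s : ℂ) + t * Complex.I) = ∫⁻ t in sl V s,
        ENNReal.ofReal ((‖Φ' (s + t * Complex.I)‖ * g (Φ (s + t * Complex.I))) ^ 2) := by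
      rw [← lintegral_indicator hsm]
      refine lintegral_congr fun t => ?_
      by_cases ht : t ∈ sl V s
      · have ht' : (s : ℂ) + t * Complex.I ∈ V := ht
        simp only [K]
        rw [indicator_of_mem ht, indicator_of_mem ht', hΨ _ ht', hΨ' _ ht']
      · have ht' : (s : ℂ) + t * Complex.I ∉ V := ht
        simp only [K]
        rw [indicator_of_notMem ht, indicator_of_notMem ht']
    rw [e3]
    obtain ⟨c, hc⟩ : ∃ c, c = ε / ℓ := ⟨_, rfl⟩
    have hc0 : 0 < c := by rw [hc]; positivity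
    have h1 : ENNReal.ofReal (2 * c) * ENNReal.ofReal ε ≤
        (∫⁻ t in sl V s, ENNReal.ofReal ((‖Φ' (s + t * Complex.I)‖ *
          g (Φ (s + t * Complex.I))) ^ 2)) + ENNReal.ofReal (c ^ 2 * ℓ) := by
      calc ENNReal.ofReal (2 * c) * ENNReal.ofReal ε
          ≤ ENNReal.ofReal (2 * c) * ∫⁻ t in sl V s,
            ENNReal.ofReal (‖Φ' (s + t * Complex.I)‖ * g (Φ (s + t * Complex.I))) := by
            gcongr
            exact hL s hs
        _ = ∫⁻ t in sl V s, ENNReal.ofReal (2 * c) *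
            ENNReal.ofReal (‖Φ' (s + t * Complex.I)‖ * g (Φ (s + t * Complex.I))) := by
            rw [lintegral_const_mul' _ _ ENNReal.ofReal_ne_top]
        _ ≤ ∫⁻ t in sl V s, (ENNReal.ofReal ((‖Φ' (s + t * Complex.I)‖ *
          g (Φ (s + t * Complex.I))) ^ 2) + ENNReal.ofReal (c ^ 2)) := by
            refine lintegral_mono fun t => ?_
            rw [← ENNReal.ofReal_mul (by positivity), ← ENNReal.ofReal_add (by positivity)
              (by positivity)]
            apply ENNReal.ofReal_le_ofReal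
            nlinarith [sq_nonneg (‖Φ' (s + t * Complex.I)‖ * g (Φ (s + t * Complex.I)) - c)]
        _ = (∫⁻ t in sl V s, ENNReal.ofReal ((‖Φ' (s + t * Complex.I)‖ *
          g (Φ (s + t * Complex.I))) ^ 2)) + ENNReal.ofReal (c ^ 2) * volume (sl V s) := by
            rw [lintegral_add_right _ measurable_const, setLIntegral_const]
        _ ≤ _ := by
            rw [ENNReal.ofReal_mul (by positivity : 0 ≤ c ^ 2)]
            gcongr
            exact hVs s hs
    have h2 : ENNReal.ofReal (ε ^ 2 / ℓ) = ENNReal.ofReal (2 * c) * ENNReal.ofReal ε -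
        ENNReal.ofReal (c ^ 2 * ℓ) := by
      rw [← ENNReal.ofReal_mul (by positivity), ← ENNReal.ofReal_sub _ (by positivity), hc]
      congr 1
      field_simp
      ring
    rw [h2]
    exact tsub_le_iff_right.2 h1
  calc volume S * ENNReal.ofReal (ε ^ 2 / ℓ) = ∫⁻ _ in S, ENNReal.ofReal (ε ^ 2 / ℓ) := by
        rw [setLIntegral_const, mul_comm]
    _ ≤ ∫⁻ s in S, ∫⁻ t : ℝ, K ((s : ℂ) + t * Complex.I) := by
        exact setLIntegral_mono' hS hslice
    _ ≤ ∫⁻ s : ℝ, ∫⁻ t : ℝ, K ((s : ℂ) + t * Complex.I) := setLIntegral_le_lintegral _ _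

theorem cross_inc {v v' m : ℝ → ℝ} {a b lo hi : ℝ} (hab : a ≤ b) (hlh : lo < hi)
    (hv : ContinuousOn v (Icc a b)) (h1 : v a ≤ lo) (h2 : hi ≤ v b)
    (hd : ∀ t ∈ Ioo a b, lo < v t → v t < hi → HasDerivAt v (v' t) t)
    (hm : ∀ t ∈ Ioo a b, lo < v t → v t < hi → v' t ≤ m t)
    (hm0 : ∀ t, 0 ≤ m t)
    (hmc : ContinuousOn m {t | t ∈ Ioo a b ∧ lo < v t ∧ v t < hi}) :
    ENNReal.ofReal (hi - lo) ≤ ∫⁻ t in {t | t ∈ Ioo a b ∧ lo < v t ∧ v t < hi},
      ENNReal.ofReal (m t) := by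
  -- first time at level `hi`
  obtain ⟨q, hq1, hq2, hq3⟩ : ∃ q ∈ Icc a b, hi ≤ v q ∧ ∀ t ∈ Icc a b, t < q → v t < hi := by
    let T := {t | t ∈ Icc a b ∧ hi ≤ v t}
    have hT : IsCompact T := by
      have : T = Icc a b ∩ v ⁻¹' (Ici hi) := by ext t; simp [T]
      rw [this]
      exact isCompact_Icc.of_isClosed_subset (hv.preimage_isClosed_of_isClosed isClosed_Icc
        isClosed_Ici) inter_subset_left
    have hTne : T.Nonempty := ⟨b, ⟨hab, le_rfl⟩, h2⟩
    obtain ⟨q, hq⟩ := hT.exists_isLeast hTne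
    refine ⟨q, hq.1.1, hq.1.2, fun t ht htq => ?_⟩
    by_contra hcon
    push Not at hcon
    exact absurd (hq.2 ⟨ht, hcon⟩) (not_le.2 htq)
  -- last time at level `lo` before
  obtain ⟨p, hp1, hp2, hp3⟩ : ∃ p ∈ Icc a q, v p ≤ lo ∧ ∀ t ∈ Icc a q, p < t → lo < v t := by
    let T := {t | t ∈ Icc a q ∧ v t ≤ lo}
    have hvq : ContinuousOn v (Icc a q) := hv.mono (Icc_subset_Icc le_rfl hq1.2)
    have hT : IsCompact T := by
      have : T = Icc a q ∩ v ⁻¹' (Iic lo) := by ext t; simp [T]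
      rw [this]
      exact isCompact_Icc.of_isClosed_subset (hvq.preimage_isClosed_of_isClosed isClosed_Icc
        isClosed_Iic) inter_subset_left
    have hTne : T.Nonempty := ⟨a, ⟨le_rfl, hq1.1⟩, h1⟩
    obtain ⟨p, hp⟩ := hT.exists_isGreatest hTne
    refine ⟨p, hp.1.1, hp.1.2, fun t ht htq => ?_⟩
    by_contra hcon
    push Not at hcon
    exact absurd (hp.2 ⟨ht, hcon⟩) (not_le.2 htq)
  have hpq : p < q := by
    rcases hp1.2.lt_or_eq with h | h
    · exact h
    · exfalso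
      rw [h] at hp2
      linarith
  have hsub : Ioo p q ⊆ {t | t ∈ Ioo a b ∧ lo < v t ∧ v t < hi} := by
    intro t ht
    refine ⟨⟨hp1.1.trans_lt ht.1, ht.2.trans_le hq1.2⟩,
      hp3 t ⟨hp1.1.trans ht.1.le, ht.2.le⟩ ht.1,
      hq3 t ⟨hp1.1.trans ht.1.le, ht.2.le.trans hq1.2⟩ ht.2⟩
  refine le_trans ?_ (lintegral_mono_set hsub)
  by_cases hfin : ∫⁻ t in Ioo p q, ENNReal.ofReal (m t) = ∞
  · rw [hfin]; exact le_top
  have hint : IntegrableOn m (Ioo p q) := by
    refine ⟨(hmc.mono hsub).aestronglyMeasurable measurableSet_Ioo, ?_⟩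
    rw [hasFiniteIntegral_iff_ofReal (Eventually.of_forall hm0)]
    exact lt_top_iff_ne_top.2 hfin
  have hint' : IntegrableOn m (Icc p q) := by
    rw [integrableOn_Icc_iff_integrableOn_Ioo]
    exact hint
  have h3 := intervalIntegral.sub_le_integral_of_hasDeriv_right_of_le (g := v) (g' := v')
    (φ := m) hpq.le (hv.mono (Icc_subset_Icc hp1.1 hq1.2))
    (fun t ht => (hd t (hsub ht).1 (hsub ht).2.1 (hsub ht).2.2).hasDerivWithinAt) hint'
    (fun t ht => hm t (hsub ht).1 (hsub ht).2.1 (hsub ht).2.2)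
  rw [intervalIntegral.integral_of_le hpq.le, integral_Ioc_eq_integral_Ioo] at h3
  rw [← ofReal_integral_eq_lintegral_ofReal hint (Eventually.of_forall hm0)]
  apply ENNReal.ofReal_le_ofReal
  linarith

theorem cross {v v' m : ℝ → ℝ} {a b lo hi : ℝ} (hab : a ≤ b) (hlh : lo < hi)
    (hv : ContinuousOn v (Icc a b)) (h12 : (v a ≤ lo ∧ hi ≤ v b) ∨ (v b ≤ lo ∧ hi ≤ v a))
    (hd : ∀ t ∈ Ioo a b, lo < v t → v t < hi → HasDerivAt v (v' t) t)
    (hm : ∀ t ∈ Ioo a b, lo < v t → v t < hi → |v' t| ≤ m t)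
    (hm0 : ∀ t, 0 ≤ m t)
    (hmc : ContinuousOn m {t | t ∈ Ioo a b ∧ lo < v t ∧ v t < hi}) :
    ENNReal.ofReal (hi - lo) ≤ ∫⁻ t in {t | t ∈ Ioo a b ∧ lo < v t ∧ v t < hi},
      ENNReal.ofReal (m t) := by
  rcases h12 with ⟨h1, h2⟩ | ⟨h1, h2⟩
  · exact cross_inc hab hlh hv h1 h2 hd (fun t ht h3 h4 => (le_abs_self _).trans (hm t ht h3 h4))
      hm0 hmc
  · have e : {t | t ∈ Ioo a b ∧ lo < v t ∧ v t < hi} =
        {t | t ∈ Ioo a b ∧ -hi < -v t ∧ -v t < -lo} := by
      ext t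
      simp only [mem_ofPred_eq]
      constructor
      · rintro ⟨h3, h4, h5⟩
        exact ⟨h3, by linarith, by linarith⟩
      · rintro ⟨h3, h4, h5⟩
        exact ⟨h3, by linarith, by linarith⟩
    have h3 := cross_inc (v := fun t => -v t) (v' := fun t => -v' t) (m := m) (lo := -hi)
      (hi := -lo) hab (by linarith) hv.neg (by linarith) (by linarith)
      (fun t ht h3 h4 => (hd t ht (by linarith) (by linarith)).neg)
      (fun t ht h3 h4 => (neg_le_abs _).trans (hm t ht (by linarith) (by linarith))) hm0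
      (by rw [← e]; exact hmc)
    rw [e]
    have e2 : hi - lo = -lo - -hi := by ring
    rw [e2]
    exact h3

end Pool.Agent.Helper984_CP
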