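import Pool.Agent.Helper984_CP.LA

/-!
# Crossing estimates on slices
-/

set_option autoImplicit false

open Set Filter Topology MeasureTheory
open scoped ENNReal

noncomputable section

namespace Pool.Agent.Helper984_CP

theorem hasDerivAt_vert (s t : ℝ) :
    HasDerivAt (fun t : ℝ => (s : ℂ) + t * Complex.I) Complex.I t := by
  have h := ((Complex.ofRealCLM.hasDerivAt (x := t)).mul_const Complex.I).const_add (s : ℂ)
  simpa using h

theorem slice_cross {V : Set ℂ} {Φ Φ' : ℂ → ℂ}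
    (hd : ∀ z ∈ V, HasDerivAt Φ (Φ' z) z) (hc : ContinuousOn Φ' V) {s t0 t1 : ℝ}
    (hseg : uIcc t0 t1 ⊆ sl V s) {u g : ℂ → ℝ} (huc : Continuous u) (hg0 : ∀ z, 0 ≤ g z)
    {lo hi : ℝ} (hlh : lo < hi)
    (hug : ∀ z, lo < u z → u z < hi →
      (∃ D : ℂ →L[ℝ] ℝ, HasFDerivAt u D z ∧ ‖D‖ ≤ g z) ∧ ContinuousAt g z)
    (h0 : u (Φ (s + t0 * Complex.I)) ≤ lo) (h1 : hi ≤ u (Φ (s + t1 * Complex.I))) :
    ENNReal.ofReal (hi - lo) ≤ ∫⁻ t in sl V s,
      ENNReal.ofReal (‖Φ' (s + t * Complex.I)‖ * g (Φ (s + t * Complex.I))) := by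
  classical
  let v : ℝ → ℝ := fun t => u (Φ (s + t * Complex.I))
  let m : ℝ → ℝ := fun t => ‖Φ' (s + t * Complex.I)‖ * g (Φ (s + t * Complex.I))
  have hΦc : ContinuousOn Φ V := fun z hz => (hd z hz).continuousAt.continuousWithinAt
  have hline : Continuous fun t : ℝ => (s : ℂ) + t * Complex.I := by fun_prop
  have hvc : ContinuousOn v (uIcc t0 t1) := by
    apply huc.comp_continuousOn
    exact hΦc.comp hline.continuousOn (fun t ht => hseg ht)
  choose! D hD1 hD2 using fun z (h : lo < u z ∧ u z < hi) => (hug z h.1 h.2).1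
  let v' : ℝ → ℝ := fun t => D (Φ (s + t * Complex.I)) (Φ' (s + t * Complex.I) * Complex.I)
  obtain ⟨a, ha⟩ : ∃ a, a = min t0 t1 := ⟨_, rfl⟩
  obtain ⟨b, hb⟩ : ∃ b, b = max t0 t1 := ⟨_, rfl⟩
  have hI : uIcc t0 t1 = Icc a b := by rw [ha, hb]; rfl
  have hab : a ≤ b := by rw [ha, hb]; exact min_le_max
  rw [hI] at hseg hvc
  have h12 : (v a ≤ lo ∧ hi ≤ v b) ∨ (v b ≤ lo ∧ hi ≤ v a) := by
    rcases le_total t0 t1 with h | h
    · left
      rw [ha, hb, min_eq_left h, max_eq_right h]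
      exact ⟨h0, h1⟩
    · right
      rw [ha, hb, min_eq_right h, max_eq_left h]
      exact ⟨h0, h1⟩
  have key := cross (v := v) (v' := v') (m := m) hab hlh hvc h12 ?_ ?_ ?_ ?_
  · refine key.trans (lintegral_mono_set ?_)
    intro t ht
    exact hseg (Ioo_subset_Icc_self ht.1)
  · intro t ht hlt htl
    have e1 : HasDerivAt (fun t : ℝ => Φ (s + t * Complex.I))
        (Φ' (s + t * Complex.I) * Complex.I) t :=
      HasDerivAt.comp (𝕜' := ℂ) t (hd _ (hseg (Ioo_subset_Icc_self ht))) (hasDerivAt_vert s t)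
    exact (hD1 _ ⟨hlt, htl⟩).comp_hasDerivAt t e1
  · intro t ht hlt htl
    calc |v' t| = ‖v' t‖ := (Real.norm_eq_abs _).symm
      _ ≤ ‖D (Φ (s + t * Complex.I))‖ * ‖Φ' (s + t * Complex.I) * Complex.I‖ :=
        ContinuousLinearMap.le_opNorm _ _
      _ ≤ g (Φ (s + t * Complex.I)) * ‖Φ' (s + t * Complex.I) * Complex.I‖ := by
        gcongr
        exact hD2 _ ⟨hlt, htl⟩
      _ = m t := by
        simp only [m]
        rw [norm_mul, Complex.norm_I, mul_one, mul_comm]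
  · intro t
    exact mul_nonneg (norm_nonneg _) (hg0 _)
  · intro t ht
    have htV : (s : ℂ) + t * Complex.I ∈ V := hseg (Ioo_subset_Icc_self ht.1)
    apply ContinuousWithinAt.mul
    · apply ContinuousWithinAt.norm
      refine ContinuousWithinAt.comp (t := V) (hc _ htV) hline.continuousWithinAt ?_
      intro t' ht'
      exact hseg (Ioo_subset_Icc_self ht'.1)
    · have e1 : ContinuousAt g (Φ (s + t * Complex.I)) := (hug _ ht.2.1 ht.2.2).2
      refine ContinuousAt.comp_continuousWithinAt e1 ?_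
      refine ContinuousWithinAt.comp (t := V) (hΦc _ htV) hline.continuousWithinAt ?_
      intro t' ht'
      exact hseg (Ioo_subset_Icc_self ht'.1)

/-- the distance function as a gauge -/
theorem gauge_dist (x : ℂ) {R η : ℝ} (hx : ‖x‖ < R) (z : ℂ) (h0 : 0 < ‖z - x‖)
    (h1 : ‖z - x‖ < η) :
    (∃ D : ℂ →L[ℝ] ℝ, HasFDerivAt (fun z => ‖z - x‖) D z ∧
      ‖D‖ ≤ (Metric.ball (0 : ℂ) (R + η)).indicator (fun _ => (1 : ℝ)) z) ∧
      ContinuousAt ((Metric.ball (0 : ℂ) (R + η)).indicator (fun _ => (1 : ℝ))) z := by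
  have hz : z ∈ Metric.ball (0 : ℂ) (R + η) := by
    rw [mem_ball_zero_iff]
    calc ‖z‖ = ‖x + (z - x)‖ := by congr 1; ring
      _ ≤ ‖x‖ + ‖z - x‖ := norm_add_le _ _
      _ < R + η := by linarith
  have hne : z - x ≠ 0 := norm_pos_iff.1 h0
  have hdiff : DifferentiableAt ℝ (fun z : ℂ => ‖z - x‖) z :=
    DifferentiableAt.norm ℝ (by fun_prop) hne
  refine ⟨⟨fderiv ℝ (fun z : ℂ => ‖z - x‖) z, hdiff.hasFDerivAt, ?_⟩, ?_⟩
  · rw [indicator_of_mem hz]
    have hL : LipschitzWith 1 (fun z : ℂ => ‖z - x‖) := by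
      apply LipschitzWith.of_dist_le_mul
      intro a b
      rw [Real.dist_eq, dist_eq_norm, NNReal.coe_one, one_mul]
      have := abs_norm_sub_norm_le (a - x) (b - x)
      rwa [sub_sub_sub_cancel_right] at this
    have := norm_fderiv_le_of_lipschitz ℝ hL (x₀ := z)
    simpa using this
  · have hev : (Metric.ball (0 : ℂ) (R + η)).indicator (fun _ => (1 : ℝ)) =ᶠ[𝓝 z] fun _ => 1 := by
      filter_upwards [Metric.isOpen_ball.mem_nhds hz] with y hy
      rw [indicator_of_mem hy]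
    exact continuousAt_const.congr hev.symm

/-- the logarithmic gauge -/
theorem gauge_log (w : ℂ) {a b : ℝ} (ha : 0 < a) (hb : 0 < b) (z : ℂ)
    (h0 : Real.log a < Real.log (max a ‖z - w‖)) (h1 : Real.log (max a ‖z - w‖) < Real.log b) :
    (∃ D : ℂ →L[ℝ] ℝ, HasFDerivAt (fun z => Real.log (max a ‖z - w‖)) D z ∧
      ‖D‖ ≤ {z : ℂ | a < ‖z - w‖ ∧ ‖z - w‖ < b}.indicator (fun z => 1 / ‖z - w‖) z) ∧
      ContinuousAt ({z : ℂ | a < ‖z - w‖ ∧ ‖z - w‖ < b}.indicator (fun z => 1 / ‖z - w‖)) z := by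
  have hmax : 0 < max a ‖z - w‖ := lt_max_of_lt_left ha
  have h2 : a < max a ‖z - w‖ := (Real.log_lt_log_iff ha hmax).1 h0
  have h3 : max a ‖z - w‖ < b := (Real.log_lt_log_iff hmax hb).1 h1
  have h4 : a < ‖z - w‖ := by
    rcases lt_max_iff.1 h2 with h | h
    · exact absurd h (lt_irrefl _)
    · exact h
  rw [max_eq_right h4.le] at h3
  have hpos : 0 < ‖z - w‖ := ha.trans h4
  have hne : z - w ≠ 0 := norm_pos_iff.1 hpos
  have hopen : IsOpen {z : ℂ | a < ‖z - w‖ ∧ ‖z - w‖ < b} := by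
    have c1 : Continuous fun z : ℂ => ‖z - w‖ := by fun_prop
    exact (isOpen_lt continuous_const c1).inter (isOpen_lt c1 continuous_const)
  have hz : z ∈ {z : ℂ | a < ‖z - w‖ ∧ ‖z - w‖ < b} := ⟨h4, h3⟩
  have hdiff : DifferentiableAt ℝ (fun z : ℂ => ‖z - w‖) z :=
    DifferentiableAt.norm ℝ (by fun_prop) hne
  have hL : LipschitzWith 1 (fun z : ℂ => ‖z - w‖) := by
    apply LipschitzWith.of_dist_le_mul
    intro a b
    rw [Real.dist_eq, dist_eq_norm, NNReal.coe_one, one_mul]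
    have := abs_norm_sub_norm_le (a - w) (b - w)
    rwa [sub_sub_sub_cancel_right] at this
  have hD : ‖fderiv ℝ (fun z : ℂ => ‖z - w‖) z‖ ≤ 1 := by
    have := norm_fderiv_le_of_lipschitz ℝ hL (x₀ := z)
    simpa using this
  refine ⟨⟨(‖z - w‖)⁻¹ • fderiv ℝ (fun z : ℂ => ‖z - w‖) z, ?_, ?_⟩, ?_⟩
  · have h5 := hdiff.hasFDerivAt.log hpos.ne'
    refine h5.congr_of_eventuallyEq ?_
    filter_upwards [hopen.mem_nhds hz] with y hy
    rw [max_eq_right hy.1.le]
  · rw [indicator_of_mem hz, norm_smul, norm_inv, norm_norm, one_div]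
    exact mul_le_of_le_one_right (by positivity) hD
  · have hev : {z : ℂ | a < ‖z - w‖ ∧ ‖z - w‖ < b}.indicator (fun z => 1 / ‖z - w‖) =ᶠ[𝓝 z]
        fun z => 1 / ‖z - w‖ := by
      filter_upwards [hopen.mem_nhds hz] with y hy
      exact indicator_of_mem (s := {z : ℂ | a < ‖z - w‖ ∧ ‖z - w‖ < b}) hy _
    refine ContinuousAt.congr ?_ hev.symm
    apply ContinuousAt.div
    · fun_prop
    · fun_prop
    · exact hpos.ne'

theorem continuous_log_gauge (w : ℂ) {a : ℝ} (ha : 0 < a) :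
    Continuous fun z : ℂ => Real.log (max a ‖z - w‖) := by
  apply Continuous.log
  · fun_prop
  · intro z
    exact (lt_max_of_lt_left ha).ne'

end Pool.Agent.Helper984_CP
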