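import Pool.Agent.Helper984_CP.Strt2

/-!
# Families commuting with translations
-/

set_option autoImplicit false

open Set Filter Topology Complex ComplexConjugate

noncomputable section

namespace Pool.Agent.Helper984_CP

/-- a continuous function which avoids two values on a connected set -/
theorem avoid_two {V : Set ℂ} (hV : IsPreconnected V) {f : ℂ → ℝ} (hf : Continuous f) {a b : ℝ}
    (ha : ∀ v ∈ V, f v ≠ a) (hb : ∀ v ∈ V, f v ≠ b) {p q : ℂ} (hp : p ∈ closure V)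
    (hq : q ∈ closure V) (hfp : f p < b) (hfq : a < f q) {v : ℂ} (hv : v ∈ V) :
    a < f v ∧ f v < b := by
  obtain ⟨p', hp', hpV⟩ := mem_closure_iff.1 hp _ (isOpen_Iio.preimage hf) hfp
  obtain ⟨q', hq', hqV⟩ := mem_closure_iff.1 hq _ (isOpen_Ioi.preimage hf) hfq
  constructor
  · by_contra hcon
    push Not at hcon
    obtain ⟨x, hx, hx'⟩ := hV.intermediate_value hv hqV hf.continuousOn
      (show a ∈ Icc (f v) (f q') from ⟨hcon, (mem_Ioi.1 hq').le⟩)
    exact ha x hx hx'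
  · by_contra hcon
    push Not at hcon
    obtain ⟨x, hx, hx'⟩ := hV.intermediate_value hpV hv hf.continuousOn
      (show b ∈ Icc (f p') (f v) from ⟨(mem_Iio.1 hp').le, hcon⟩)
    exact hb x hx hx'

theorem int_shift' {M : ℂ → ℂ} {τ : ℂ} (h : ∀ w, M (w + τ) = M w + τ) (n : ℤ) (w : ℂ) :
    M (w + n * τ) = M w + n * τ := by
  induction n using Int.induction_on generalizing w with
  | zero => simp
  | succ n ih =>
    have e1 : w + ((n : ℤ) + 1 : ℤ) * τ = (w + (n : ℤ) * τ) + τ := by push_cast; ring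
    rw [e1, h, ih]
    push_cast
    ring
  | pred n ih =>
    have e1 : w + (-(n : ℤ) : ℤ) * τ = (w + (-(n : ℤ) - 1 : ℤ) * τ) + τ := by
      push_cast; ring
    have h3 := ih w
    rw [e1, h] at h3
    have h4 : M (w + (-(n : ℤ) - 1 : ℤ) * τ) = M w + (-(n : ℤ) : ℤ) * τ - τ := by
      linear_combination h3
    rw [h4]
    push_cast
    ring

/-- families commuting with a lattice have bounded displacement -/
theorem bdd_disp (P : C(unitInterval × ℂ, ℂ)) {ρ : ℝ} (hρ : ρ ≠ 0)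
    (h1 : ∀ s w, P (s, w + tpi) = P (s, w) + tpi) (h2 : ∀ s w, P (s, w + ρ) = P (s, w) + ρ) :
    ∃ B : ℝ, ∀ s w, ‖P (s, w) - w‖ ≤ B := by
  obtain ⟨R, hR⟩ : ∃ R : ℝ, R = |ρ| + 2 * Real.pi := ⟨_, rfl⟩
  have hK : IsCompact ((univ : Set unitInterval) ×ˢ Metric.closedBall (0 : ℂ) R) :=
    isCompact_univ.prod (isCompact_closedBall _ _)
  obtain ⟨B, hB⟩ := hK.bddAbove_image (f := fun q : unitInterval × ℂ => ‖P q - q.2‖)
    (Continuous.continuousOn (by fun_prop))
  refine ⟨B, fun s w => ?_⟩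
  obtain ⟨m, hm⟩ : ∃ m : ℤ, m = ⌊w.re / ρ⌋ := ⟨_, rfl⟩
  obtain ⟨n, hn⟩ : ∃ n : ℤ, n = ⌊w.im / (2 * Real.pi)⌋ := ⟨_, rfl⟩
  obtain ⟨w0, hw0⟩ : ∃ w0 : ℂ, w0 = w + (-m : ℤ) * ((ρ : ℝ) : ℂ) + (-n : ℤ) * tpi := ⟨_, rfl⟩
  have e1 : P (s, w0) - w0 = P (s, w) - w := by
    rw [hw0, int_shift' (M := fun w => P (s, w)) (h1 s), int_shift' (M := fun w => P (s, w)) (h2 s)]
    ring
  rw [← e1]
  refine hB ⟨(s, w0), ⟨mem_univ _, mem_closedBall_zero_iff.2 ?_⟩, rfl⟩
  refine (Complex.norm_le_abs_re_add_abs_im w0).trans ?_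
  rw [hR]
  have hre : w0.re = ρ * Int.fract (w.re / ρ) := by
    rw [hw0, Int.fract, ← hm, mul_sub, mul_div_cancel₀ _ hρ]
    rw [Complex.add_re, Complex.add_re, Complex.mul_re, Complex.mul_re, tpi_re, tpi_im]
    simp only [Complex.intCast_re, Complex.intCast_im, Complex.ofReal_re, Complex.ofReal_im,
      mul_zero, sub_zero, zero_mul, add_zero]
    push_cast
    ring
  have him : w0.im = 2 * Real.pi * Int.fract (w.im / (2 * Real.pi)) := by
    rw [hw0, Int.fract, ← hn, mul_sub, mul_div_cancel₀ _ two_pi_ne]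
    rw [Complex.add_im, Complex.add_im, Complex.mul_im, Complex.mul_im, tpi_re, tpi_im]
    simp only [Complex.intCast_re, Complex.intCast_im, Complex.ofReal_re, Complex.ofReal_im,
      mul_zero, zero_mul, add_zero]
    push_cast
    ring
  have hpi := Real.pi_pos
  have f1 := Int.fract_nonneg (w.re / ρ)
  have f2 := Int.fract_lt_one (w.re / ρ)
  have f3 := Int.fract_nonneg (w.im / (2 * Real.pi))
  have f4 := Int.fract_lt_one (w.im / (2 * Real.pi))
  rw [hre, him, abs_mul, abs_mul, abs_of_nonneg f1, abs_of_nonneg f3,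
    abs_of_pos (show 0 < 2 * Real.pi by positivity)]
  have g1 : |ρ| * Int.fract (w.re / ρ) ≤ |ρ| * 1 := by gcongr
  have g2 : 2 * Real.pi * Int.fract (w.im / (2 * Real.pi)) ≤ 2 * Real.pi * 1 := by gcongr
  linarith

/-- from lattice families to families commuting with a contraction -/
theorem exp_family (P : C(unitInterval × ℂ, ℂ)) (hP : ∀ s, IsHomeo (slice P s)) {ρ : ℝ}
    (hρ : ρ ≠ 0) (h1 : ∀ s w, P (s, w + tpi) = P (s, w) + tpi)
    (h2 : ∀ s w, P (s, w + ρ) = P (s, w) + ρ) :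
    ∃ G : C(unitInterval × ℂ, ℂ), (∀ s, slice G s ∈ GG (Real.exp ρ) False) ∧
      ∀ s w, G (s, cexp w) = cexp (P (s, w)) := by
  obtain ⟨Pi, hPi⟩ := continuous_inv_family P (fun s => hP s)
  have hinj : ∀ s, Function.Injective fun w => P (s, w) := fun s =>
    Function.LeftInverse.injective (g := fun w => Pi (s, w)) (fun w => (hPi s w).2)
  have h1' : ∀ s w, Pi (s, w + tpi) = Pi (s, w) + tpi := by
    intro s w
    apply hinj s
    simp only
    rw [(hPi s _).1, h1, (hPi s _).1]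
  have h2' : ∀ s w, Pi (s, w + ρ) = Pi (s, w) + ρ := by
    intro s w
    apply hinj s
    simp only
    rw [(hPi s _).1, h2, (hPi s _).1]
  have hc : ∀ (P : C(unitInterval × ℂ, ℂ)), (∀ s w, P (s, w + tpi) = P (s, w) + tpi) →
      (∀ s w, P (s, w + ρ) = P (s, w) + ρ) → Continuous (expMap P) := by
    intro P h1 h2
    obtain ⟨B, hB⟩ := bdd_disp P hρ h1 h2
    refine continuous_expMap P.continuous h1 fun s0 R => ⟨R - B, Eventually.of_forall fun s w hw => ?_⟩
    have h3 := (Complex.abs_re_le_norm (P (s, w) - w)).trans (hB s w)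
    rw [Complex.sub_re] at h3
    have := (abs_le.1 h3).2
    linarith
  refine ⟨⟨expMap P, hc P h1 h2⟩, fun s => ⟨?_, fun z => ?_, fun h => h.elim⟩, fun s w => ?_⟩
  · refine ⟨⟨fun z => expMap Pi (s, z), (hc Pi h1' h2').comp (by fun_prop)⟩, fun z => ?_, fun z => ?_⟩
    · change expMap P (s, expMap Pi (s, z)) = z
      rw [expMap_comp h1]
      have : expMap (fun q => P (q.1, Pi q)) (s, z) = expMap (fun q : unitInterval × ℂ => q.2) (s, z) := by
        simp only [expMap]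
        rw [(hPi s _).1]
      rw [this, expMap_id]
    · change expMap Pi (s, expMap P (s, z)) = z
      rw [expMap_comp h1']
      have : expMap (fun q => Pi (q.1, P q)) (s, z) = expMap (fun q : unitInterval × ℂ => q.2) (s, z) := by
        simp only [expMap]
        rw [(hPi s _).2]
      rw [this, expMap_id]
  · change expMap P (s, ((Real.exp ρ : ℝ) : ℂ) * z) = ((Real.exp ρ : ℝ) : ℂ) * expMap P (s, z)
    by_cases hz : z = 0
    · rw [hz, mul_zero, expMap_zero, mul_zero]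
    · obtain ⟨w, rfl⟩ : ∃ w, cexp w = z := ⟨Complex.log z, Complex.exp_log hz⟩
      have e1 : ((Real.exp ρ : ℝ) : ℂ) * cexp w = cexp (w + ρ) := by
        rw [Complex.exp_add, Complex.ofReal_exp, mul_comm]
      rw [e1, expMap_exp h1, expMap_exp h1, h2, Complex.exp_add, Complex.ofReal_exp, mul_comm]
  · exact expMap_exp h1 s w

/-- periodic extension in the direction `τ` -/
theorem add_ext {τ : ℂ} (hτ : τ ≠ 0) (κ : C(unitInterval × ℂ, ℂ)) (hκ : ∀ s, IsHomeo (slice κ s))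
    (hS : ∀ s v, ¬ (0 < (v / τ).re ∧ (v / τ).re < 1) → κ (s, v) = v) :
    ∃ K : C(unitInterval × ℂ, ℂ), (∀ s, IsHomeo (slice K s)) ∧
      (∀ s v, K (s, v + τ) = K (s, v) + τ) ∧
      (∀ s v, K (s, v) = κ (s, v - ⌊(v / τ).re⌋ * τ) + ⌊(v / τ).re⌋ * τ) := by
  have hφ : ∀ (v : ℂ) (n : ℤ), ((v + n * τ) / τ).re = (v / τ).re + n := by
    intro v n
    rw [add_div, mul_div_assoc, div_self hτ, mul_one, Complex.add_re, Complex.intCast_re]
  have hφ' : ∀ (v : ℂ) (n : ℤ), ((v - n * τ) / τ).re = (v / τ).re - n := by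
    intro v n
    rw [sub_div, mul_div_assoc, div_self hτ, mul_one, Complex.sub_re, Complex.intCast_re]
  have hcont : ∀ κ : C(unitInterval × ℂ, ℂ),
      (∀ s v, ¬ (0 < (v / τ).re ∧ (v / τ).re < 1) → κ (s, v) = v) →
      Continuous fun q : unitInterval × ℂ =>
        κ (q.1, q.2 - ⌊(q.2 / τ).re⌋ * τ) + ⌊(q.2 / τ).re⌋ * τ := by
    intro κ hS
    rw [continuous_iff_continuousAt]
    rintro ⟨s0, v0⟩
    have hφc : Continuous fun q : unitInterval × ℂ => (q.2 / τ).re := by fun_prop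
    obtain ⟨n, hn⟩ : ∃ n : ℤ, n = ⌊(v0 / τ).re⌋ := ⟨_, rfl⟩
    have hle : (n : ℝ) ≤ (v0 / τ).re := by rw [hn]; exact Int.floor_le _
    have hlt : (v0 / τ).re < n + 1 := by rw [hn]; exact Int.lt_floor_add_one _
    have hup : ∀ᶠ q : unitInterval × ℂ in 𝓝 (s0, v0), (q.2 / τ).re < n + 1 :=
      (hφc.tendsto (s0, v0)).eventually (gt_mem_nhds hlt)
    rcases hle.lt_or_eq with h | h
    · -- interior
      have hdn : ∀ᶠ q : unitInterval × ℂ in 𝓝 (s0, v0), (n : ℝ) < (q.2 / τ).re :=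
        (hφc.tendsto (s0, v0)).eventually (lt_mem_nhds h)
      have hev : (fun q : unitInterval × ℂ =>
          κ (q.1, q.2 - ⌊(q.2 / τ).re⌋ * τ) + ⌊(q.2 / τ).re⌋ * τ) =ᶠ[𝓝 (s0, v0)]
          fun q => κ (q.1, q.2 - n * τ) + n * τ := by
        filter_upwards [hup, hdn] with q h1 h2
        have : ⌊(q.2 / τ).re⌋ = n := Int.floor_eq_iff.2 ⟨h2.le, h1⟩
        rw [this]
      refine ContinuousAt.congr ?_ hev.symm
      exact Continuous.continuousAt (by fun_prop)
    · -- boundary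
      have hdn : ∀ᶠ q : unitInterval × ℂ in 𝓝 (s0, v0), (n : ℝ) - 1 < (q.2 / τ).re :=
        (hφc.tendsto (s0, v0)).eventually (lt_mem_nhds (by linarith))
      have v1 : κ (s0, v0 - n * τ) + n * τ = v0 := by
        rw [hS _ _ (by
          rw [hφ', ← h]
          simp)]
        ring
      have v2 : κ (s0, v0 - (n - 1 : ℤ) * τ) + (n - 1 : ℤ) * τ = v0 := by
        rw [hS _ _ (by
          rw [hφ', ← h]
          push_cast
          simp)]
        ring
      have val : κ (s0, v0 - ⌊(v0 / τ).re⌋ * τ) + ⌊(v0 / τ).re⌋ * τ = v0 := by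
        rw [← hn]
        exact v1
      rw [ContinuousAt, tendsto_iff_norm_sub_tendsto_zero]
      simp only
      rw [val]
      have c1 : Continuous fun q : unitInterval × ℂ => κ (q.1, q.2 - n * τ) + n * τ := by fun_prop
      have c2 : Continuous fun q : unitInterval × ℂ =>
          κ (q.1, q.2 - (n - 1 : ℤ) * τ) + (n - 1 : ℤ) * τ := by fun_prop
      have t1 := (c1.tendsto (s0, v0)).sub_const v0
      have t2 := (c2.tendsto (s0, v0)).sub_const v0
      simp only [v1, v2, sub_self] at t1 t2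
      have t3 := t1.norm.add t2.norm
      simp only [norm_zero, add_zero] at t3
      refine squeeze_zero' (Eventually.of_forall fun q => norm_nonneg _) ?_ t3
      filter_upwards [hup, hdn] with q h1 h2
      have hfl : ⌊(q.2 / τ).re⌋ = n ∨ ⌊(q.2 / τ).re⌋ = n - 1 := by
        rcases le_or_gt (n : ℝ) (q.2 / τ).re with h3 | h3
        · left
          exact Int.floor_eq_iff.2 ⟨h3, h1⟩
        · right
          refine Int.floor_eq_iff.2 ⟨?_, ?_⟩
          · push_cast; exact h2.le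
          · push_cast; linarith
      rcases hfl with h3 | h3
      · rw [h3]
        exact le_add_of_nonneg_right (norm_nonneg _)
      · rw [h3]
        exact le_add_of_nonneg_left (norm_nonneg _)
  obtain ⟨κi, hκi⟩ := continuous_inv_family κ (fun s => hκ s)
  have hSi : ∀ s v, ¬ (0 < (v / τ).re ∧ (v / τ).re < 1) → κi (s, v) = v := by
    intro s v hv
    have := (hκi s v).2
    rwa [hS s v hv] at this
  have hmaps : ∀ (κ κi : C(unitInterval × ℂ, ℂ)),
      (∀ s v, ¬ (0 < (v / τ).re ∧ (v / τ).re < 1) → κ (s, v) = v) →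
      (∀ s v, ¬ (0 < (v / τ).re ∧ (v / τ).re < 1) → κi (s, v) = v) →
      (∀ s z, κi (s, κ (s, z)) = z) → ∀ s v, 0 ≤ (v / τ).re → (v / τ).re < 1 →
      0 ≤ (κ (s, v) / τ).re ∧ (κ (s, v) / τ).re < 1 := by
    intro κ κi h1 h2 h3 s v h4 h5
    by_cases h6 : 0 < (κ (s, v) / τ).re ∧ (κ (s, v) / τ).re < 1
    · exact ⟨h6.1.le, h6.2⟩
    · have h7 := h2 s _ h6
      rw [h3] at h7
      rw [← h7]
      exact ⟨h4, h5⟩
  have hinv : ∀ (κ κi : C(unitInterval × ℂ, ℂ)),
      (∀ s v, ¬ (0 < (v / τ).re ∧ (v / τ).re < 1) → κ (s, v) = v) →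
      (∀ s v, ¬ (0 < (v / τ).re ∧ (v / τ).re < 1) → κi (s, v) = v) →
      (∀ s z, κi (s, κ (s, z)) = z) → ∀ (s : unitInterval) (v w : ℂ),
      w = κ (s, v - ⌊(v / τ).re⌋ * τ) + ⌊(v / τ).re⌋ * τ →
      κi (s, w - ⌊(w / τ).re⌋ * τ) + ⌊(w / τ).re⌋ * τ = v := by
    intro κ κi h1 h2 h3 s v w hw
    obtain ⟨n, hn⟩ : ∃ n : ℤ, n = ⌊(v / τ).re⌋ := ⟨_, rfl⟩
    rw [← hn] at hw
    have hle : (n : ℝ) ≤ (v / τ).re := by rw [hn]; exact Int.floor_le _
    have hlt : (v / τ).re < n + 1 := by rw [hn]; exact Int.lt_floor_add_one _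
    have h4 := hmaps κ κi h1 h2 h3 s (v - n * τ) (by rw [hφ']; linarith) (by rw [hφ']; linarith)
    have hfl : ⌊(w / τ).re⌋ = n := by
      rw [hw, hφ, Int.floor_add_intCast]
      have : ⌊(κ (s, v - n * τ) / τ).re⌋ = 0 := Int.floor_eq_iff.2 ⟨by simpa using h4.1, by
        simpa using h4.2⟩
      rw [this, zero_add]
    rw [hfl, hw, add_sub_cancel_right, h3]
    ring
  refine ⟨⟨_, hcont κ hS⟩, fun s => ⟨⟨fun v => κi (s, v - ⌊(v / τ).re⌋ * τ) + ⌊(v / τ).re⌋ * τ,
    (hcont κi hSi).comp (by fun_prop : Continuous fun v : ℂ => (s, v))⟩, fun v => ?_, fun v => ?_⟩,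
    fun s v => ?_, fun s v => rfl⟩
  · exact hinv κi κ hSi hS (fun s z => (hκi s z).1) s v _ rfl
  · exact hinv κ κi hS hSi (fun s z => (hκi s z).2) s v _ rfl
  · change κ (s, v + τ - ⌊((v + τ) / τ).re⌋ * τ) + ⌊((v + τ) / τ).re⌋ * τ =
      κ (s, v - ⌊(v / τ).re⌋ * τ) + ⌊(v / τ).re⌋ * τ + τ
    have e1 : ((v + τ) / τ).re = (v / τ).re + 1 := by
      have := hφ v 1
      simpa using this
    rw [e1, Int.floor_add_one]
    push_cast
    have e2 : v + τ - (⌊(v / τ).re⌋ + 1) * τ = v - ⌊(v / τ).re⌋ * τ := by ring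
    rw [e2]
    ring

/-- the Alexander trick -/
theorem alexander {E : C(ℂ, ℂ)} (hE : IsHomeo E) {B : ℝ} (hB : ∀ z, ‖E z - z‖ ≤ B) {z0 : ℂ}
    {R : Set ℂ} (hR : ∀ z ∉ R, ∀ s : ℝ, 0 < s → s ≤ 1 → z0 + (z - z0) / s ∉ R)
    (hER : ∀ z ∉ R, E z = z) :
    ∃ A : C(unitInterval × ℂ, ℂ), (∀ s, IsHomeo (slice A s)) ∧ (∀ z, A (0, z) = z) ∧
      (∀ z, A (1, z) = E z) ∧ ∀ s, ∀ z ∉ R, A (s, z) = z := by
  have hB0 : 0 ≤ B := (norm_nonneg _).trans (hB 0)
  let f : (ℂ → ℂ) → unitInterval × ℂ → ℂ := fun E q =>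
    if (q.1 : ℝ) = 0 then q.2 else z0 + (q.1 : ℝ) * (E (z0 + (q.2 - z0) / (q.1 : ℝ)) - z0)
  have hbound : ∀ (E : ℂ → ℂ), (∀ z, ‖E z - z‖ ≤ B) → ∀ q, ‖f E q - q.2‖ ≤ (q.1 : ℝ) * B := by
    intro E hB q
    simp only [f]
    split_ifs with h
    · rw [h]; simp
    · have h' : ((q.1 : ℝ) : ℂ) ≠ 0 := by exact_mod_cast h
      have e1 : z0 + (q.1 : ℝ) * (E (z0 + (q.2 - z0) / (q.1 : ℝ)) - z0) - q.2 =
          (q.1 : ℝ) * (E (z0 + (q.2 - z0) / (q.1 : ℝ)) - (z0 + (q.2 - z0) / (q.1 : ℝ))) := by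
        field_simp
        ring
      rw [e1, norm_mul, Complex.norm_real, Real.norm_of_nonneg q.1.2.1]
      exact mul_le_mul_of_nonneg_left (hB _) q.1.2.1
  have hcont : ∀ (E : C(ℂ, ℂ)), (∀ z, ‖E z - z‖ ≤ B) → Continuous (f E) := by
    intro E hB
    rw [continuous_iff_continuousAt]
    rintro ⟨s0, z1⟩
    by_cases h0 : (s0 : ℝ) = 0
    · have e0 : f E (s0, z1) = z1 := by simp only [f]; rw [if_pos h0]
      rw [ContinuousAt, e0]
      have t1 : Tendsto (fun q : unitInterval × ℂ => (q.1 : ℝ) * B) (𝓝 (s0, z1)) (𝓝 0) := by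
        have : Continuous fun q : unitInterval × ℂ => (q.1 : ℝ) * B := by fun_prop
        have h3 := this.tendsto (s0, z1)
        simp only [h0, zero_mul] at h3
        exact h3
      have t2 := squeeze_zero_norm (hbound E hB) t1
      have t3 : Tendsto (fun q : unitInterval × ℂ => q.2) (𝓝 (s0, z1)) (𝓝 z1) :=
        continuous_snd.tendsto _
      have t4 := t2.add t3
      simp only [sub_add_cancel, zero_add] at t4
      exact t4
    · have hev : f E =ᶠ[𝓝 (s0, z1)] fun q =>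
          z0 + (q.1 : ℝ) * (E (z0 + (q.2 - z0) / (q.1 : ℝ)) - z0) := by
        have : ∀ᶠ q : unitInterval × ℂ in 𝓝 (s0, z1), (q.1 : ℝ) ≠ 0 := by
          have hc : Continuous fun q : unitInterval × ℂ => (q.1 : ℝ) := by fun_prop
          exact hc.continuousAt.eventually_ne h0
        filter_upwards [this] with q hq
        simp only [f]
        rw [if_neg hq]
      refine ContinuousAt.congr ?_ hev.symm
      have h0' : ((s0 : ℝ) : ℂ) ≠ 0 := by exact_mod_cast h0
      apply ContinuousAt.add continuousAt_const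
      apply ContinuousAt.mul
      · exact Continuous.continuousAt (by fun_prop)
      · apply ContinuousAt.sub _ continuousAt_const
        apply E.continuous.continuousAt.comp
        apply ContinuousAt.add continuousAt_const
        apply ContinuousAt.div
        · exact Continuous.continuousAt (by fun_prop)
        · exact Continuous.continuousAt (by fun_prop)
        · exact h0'
  obtain ⟨Ei, h1, h2⟩ := hE
  have hBi : ∀ z, ‖Ei z - z‖ ≤ B := by
    intro z
    have := hB (Ei z)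
    rw [h1] at this
    rwa [norm_sub_rev]
  have hinv : ∀ (E Ei : C(ℂ, ℂ)), (∀ z, E (Ei z) = z) → ∀ (s : unitInterval) z,
      f E (s, f Ei (s, z)) = z := by
    intro E Ei h1 s z
    simp only [f]
    split_ifs with h
    · rfl
    · have h' : ((s : ℝ) : ℂ) ≠ 0 := by exact_mod_cast h
      have e1 : z0 + (z0 + (s : ℝ) * (Ei (z0 + (z - z0) / (s : ℝ)) - z0) - z0) / (s : ℝ) =
          Ei (z0 + (z - z0) / (s : ℝ)) := by
        field_simp
        ring
      rw [e1, h1]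
      field_simp
      ring
  refine ⟨⟨f E, hcont E hB⟩, fun s => ⟨⟨fun z => f Ei (s, z), (hcont Ei hBi).comp (by fun_prop)⟩,
    fun z => hinv E Ei h1 s z, fun z => hinv Ei E h2 s z⟩, fun z => ?_, fun z => ?_,
    fun s z hz => ?_⟩
  · change f E (0, z) = z
    simp [f]
  · change f E (1, z) = E z
    simp [f]
  · change f E (s, z) = z
    simp only [f]
    split_ifs with h
    · rfl
    · have hs : 0 < (s : ℝ) := lt_of_le_of_ne s.2.1 (Ne.symm h)
      have h' : ((s : ℝ) : ℂ) ≠ 0 := by exact_mod_cast h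
      rw [hER _ (hR z hz s hs s.2.2)]
      field_simp
      ring

end Pool.Agent.Helper984_CP
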