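import Pool.Agent.Helper984_CP.Wolff

/-!
# Connected sets of small conformal image
-/

set_option autoImplicit false

open Set Filter Topology MeasureTheory
open scoped ENNReal

noncomputable section

namespace Pool.Agent.Helper984_CP

theorem norm_vert_sq (s t : ℝ) : ‖(s : ℂ) + t * Complex.I‖ ^ 2 = s ^ 2 + t ^ 2 := by
  rw [← Complex.normSq_eq_norm_sq, Complex.normSq_apply]
  simp
  ring

theorem vert_lt_iff (s t : ℝ) : ‖(s : ℂ) + t * Complex.I‖ < 1 ↔ s ^ 2 + t ^ 2 < 1 := by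
  rw [← norm_vert_sq, sq_lt_one_iff₀ (norm_nonneg _)]

theorem chord {φ : ℂ → ℂ} (hd : DifferentiableOn ℂ φ (Metric.ball 0 1))
    (hinj : InjOn φ (Metric.ball 0 1)) {w : ℂ} {a b α β : ℝ} (ha : 0 < a) (hab : a < b)
    (hαβ : α ≤ β) (h : ∀ s : ℝ, α < s → s < β → ∃ t : ℝ, ‖(s : ℂ)‖ < 1 ∧
      ‖(s : ℂ) + t * Complex.I‖ < 1 ∧ ((‖φ s - w‖ ≤ a ∧ b ≤ ‖φ (s + t * Complex.I) - w‖) ∨
        (‖φ (s + t * Complex.I) - w‖ ≤ a ∧ b ≤ ‖φ s - w‖))) :
    (β - α) * Real.log (b / a) ≤ 4 * Real.pi := by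
  classical
  have hb : 0 < b := ha.trans hab
  have hlog : 0 < Real.log (b / a) := Real.log_pos ((one_lt_div ha).2 hab)
  let V : Set ℂ := Metric.ball 0 1
  have hV : IsOpen V := Metric.isOpen_ball
  have hder : ∀ z ∈ V, HasDerivAt φ (deriv φ z) z := fun z hz =>
    (hd.differentiableAt (hV.mem_nhds hz)).hasDerivAt
  have hdc : ContinuousOn (deriv φ) V := (hd.deriv Metric.isOpen_ball).continuousOn
  let T : Set ℂ := {z : ℂ | a < ‖z - w‖ ∧ ‖z - w‖ < b}
  have hT : MeasurableSet T := by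
    have c1 : Continuous fun z : ℂ => ‖z - w‖ := by fun_prop
    exact ((isOpen_lt continuous_const c1).inter (isOpen_lt c1 continuous_const)).measurableSet
  let g : ℂ → ℝ := T.indicator (fun z => 1 / ‖z - w‖)
  have hg : Measurable g := by
    apply Measurable.indicator _ hT
    exact measurable_const.div (by fun_prop)
  have hg0 : ∀ z, 0 ≤ g z := fun z => indicator_nonneg (fun _ _ => by positivity) z
  have hmemV : ∀ s t : ℝ, (s : ℂ) + t * Complex.I ∈ V ↔ s ^ 2 + t ^ 2 < 1 := by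
    intro s t
    rw [← vert_lt_iff]
    exact mem_ball_zero_iff
  have hseg : ∀ (s t0 t1 : ℝ), (s : ℂ) + t0 * Complex.I ∈ V → (s : ℂ) + t1 * Complex.I ∈ V →
      uIcc t0 t1 ⊆ sl V s := by
    intro s t0 t1 h0 h1 t ht
    rw [hmemV] at h0 h1
    change (s : ℂ) + t * Complex.I ∈ V
    rw [hmemV]
    have habs : |t| ≤ max |t0| |t1| := by
      rw [mem_uIcc] at ht
      rcases ht with ht | ht
      · exact abs_le_max_abs_abs ht.1 ht.2
      · have := abs_le_max_abs_abs ht.1 ht.2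
        rwa [max_comm] at this
    rcases le_max_iff.1 habs with h | h
    · have := sq_le_sq.2 h
      linarith
    · have := sq_le_sq.2 h
      linarith
  have hVs : ∀ s ∈ Ioo α β, volume (sl V s) ≤ ENNReal.ofReal 2 := by
    intro s _
    have h1 : sl V s ⊆ Ioo (-1) 1 := by
      intro t ht
      have h2 : s ^ 2 + t ^ 2 < 1 := (hmemV s t).1 ht
      have h3 : t ^ 2 < 1 := by nlinarith [sq_nonneg s]
      exact abs_lt.1 ((sq_lt_one_iff_abs_lt_one t).1 h3)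
    refine (measure_mono h1).trans ?_
    rw [Real.volume_Ioo]
    norm_num
  have hu := continuous_log_gauge w ha
  have hlogab : Real.log a < Real.log b := Real.log_lt_log ha hab
  have e0 : Real.log b - Real.log a = Real.log (b / a) := (Real.log_div hb.ne' ha.ne').symm
  have hL : ∀ s ∈ Ioo α β, ENNReal.ofReal (Real.log (b / a)) ≤ ∫⁻ t in sl V s,
      ENNReal.ofReal (‖deriv φ (s + t * Complex.I)‖ * g (φ (s + t * Complex.I))) := by
    intro s hs
    obtain ⟨t, h1, h2, h3⟩ := h s hs.1 hs.2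
    have m1 : (s : ℂ) + t * Complex.I ∈ V := mem_ball_zero_iff.2 h2
    have es : (s : ℂ) + (0 : ℝ) * Complex.I = s := by simp
    have m0 : (s : ℂ) + (0 : ℝ) * Complex.I ∈ V := by
      rw [es]
      exact mem_ball_zero_iff.2 h1
    rw [← e0]
    rcases h3 with ⟨h3, h4⟩ | ⟨h3, h4⟩
    · refine slice_cross (V := V) (Φ := φ) (Φ' := deriv φ) hder hdc (hseg s 0 t m0 m1)
        (u := fun z => Real.log (max a ‖z - w‖)) (g := g) hu hg0 hlogab
        (fun z h5 h6 => gauge_log w ha hb z h5 h6) ?_ ?_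
      · rw [es, max_eq_left h3]
      · exact Real.log_le_log hb (h4.trans (le_max_right _ _))
    · refine slice_cross (V := V) (Φ := φ) (Φ' := deriv φ) hder hdc (hseg s t 0 m1 m0)
        (u := fun z => Real.log (max a ‖z - w‖)) (g := g) hu hg0 hlogab
        (fun z h5 h6 => gauge_log w ha hb z h5 h6) ?_ ?_
      · rw [max_eq_left h3]
      · rw [es]
        exact Real.log_le_log hb (h4.trans (le_max_right _ _))
  have hfinal := length_area hV hder hdc hinj hg measurableSet_Ioo (by norm_num : (0 : ℝ) < 2) hlog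
    hVs hL
  have hle : ∫⁻ ζ in φ '' V, ENNReal.ofReal (g ζ ^ 2) ≤
      ENNReal.ofReal (2 * Real.pi * Real.log (b / a)) := by
    calc ∫⁻ ζ in φ '' V, ENNReal.ofReal (g ζ ^ 2) ≤ ∫⁻ ζ, ENNReal.ofReal (g ζ ^ 2) :=
          setLIntegral_le_lintegral _ _
      _ = ∫⁻ ζ, {ζ : ℂ | a < ‖ζ‖ ∧ ‖ζ‖ < b}.indicator
            (fun ζ => ENNReal.ofReal ((1 / ‖ζ‖) ^ 2)) (ζ - w) := by
          refine lintegral_congr fun z => ?_
          by_cases hz : z ∈ T
          · have hz' : z - w ∈ {ζ : ℂ | a < ‖ζ‖ ∧ ‖ζ‖ < b} := hz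
            simp only [g]
            rw [indicator_of_mem hz, indicator_of_mem hz']
          · have hz' : z - w ∉ {ζ : ℂ | a < ‖ζ‖ ∧ ‖ζ‖ < b} := hz
            simp only [g]
            rw [indicator_of_notMem hz, indicator_of_notMem hz']
            simp
      _ = ∫⁻ ζ, {ζ : ℂ | a < ‖ζ‖ ∧ ‖ζ‖ < b}.indicator
            (fun ζ => ENNReal.ofReal ((1 / ‖ζ‖) ^ 2)) ζ :=
          lintegral_sub_right_eq_self (fun ζ => {ζ : ℂ | a < ‖ζ‖ ∧ ‖ζ‖ < b}.indicator
            (fun ζ => ENNReal.ofReal ((1 / ‖ζ‖) ^ 2)) ζ) w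
      _ ≤ _ := by
          have hm : MeasurableSet {ζ : ℂ | a < ‖ζ‖ ∧ ‖ζ‖ < b} := by
            have c1 : Continuous fun z : ℂ => ‖z‖ := by fun_prop
            exact ((isOpen_lt continuous_const c1).inter
              (isOpen_lt c1 continuous_const)).measurableSet
          rw [lintegral_indicator hm]
          exact log_annulus ha hab.le
  have h1 := hfinal.trans hle
  rw [Real.volume_Ioo, ← ENNReal.ofReal_mul (by linarith),
    ENNReal.ofReal_le_ofReal_iff (by positivity)] at h1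
  have h2 : (β - α) * (Real.log (b / a) ^ 2 / 2) =
      ((β - α) * Real.log (b / a)) * (Real.log (b / a) / 2) := by ring
  have h3 : 2 * Real.pi * Real.log (b / a) = (4 * Real.pi) * (Real.log (b / a) / 2) := by ring
  rw [h2, h3] at h1
  exact le_of_mul_le_mul_right h1 (by positivity)

/-- a Riemann map together with its inverse -/
structure Riem (φ ψ : ℂ → ℂ) (U : Set ℂ) : Prop where
  isOpen : IsOpen U
  diff : DifferentiableOn ℂ φ (Metric.ball 0 1)
  maps : ∀ z, ‖z‖ < 1 → φ z ∈ U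
  cont : ContinuousOn ψ U
  mapsInv : ∀ w ∈ U, ‖ψ w‖ < 1
  left : ∀ z, ‖z‖ < 1 → ψ (φ z) = z
  right : ∀ w ∈ U, φ (ψ w) = w

theorem Riem.inj {φ ψ : ℂ → ℂ} {U : Set ℂ} (h : Riem φ ψ U) : InjOn φ (Metric.ball 0 1) := by
  intro x hx y hy hxy
  rw [← h.left x (mem_ball_zero_iff.1 hx), ← h.left y (mem_ball_zero_iff.1 hy), hxy]

theorem Riem.contOn {φ ψ : ℂ → ℂ} {U : Set ℂ} (h : Riem φ ψ U) :
    ContinuousOn φ (Metric.ball 0 1) := h.diff.continuousOn

/-- uniform continuity of the inverse map near compact sets -/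
theorem Riem.unif_inv {φ ψ : ℂ → ℂ} {U : Set ℂ} (h : Riem φ ψ U) {r η : ℝ} (hr : r < 1)
    (hη : 0 < η) : ∃ e > 0, ∀ z z', ‖z‖ ≤ r → ‖z'‖ < 1 → ‖φ z - φ z'‖ < e → ‖z - z'‖ < η := by
  have hsub : Metric.closedBall (0 : ℂ) r ⊆ Metric.ball 0 1 := Metric.closedBall_subset_ball hr
  have hK : IsCompact (φ '' Metric.closedBall (0 : ℂ) r) :=
    (isCompact_closedBall _ _).image_of_continuousOn (h.contOn.mono hsub)
  have hcont : ∀ a ∈ φ '' Metric.closedBall (0 : ℂ) r, ContinuousAt ψ a := by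
    rintro _ ⟨z, hz, rfl⟩
    exact h.cont.continuousAt (h.isOpen.mem_nhds (h.maps z (mem_ball_zero_iff.1 (hsub hz))))
  have h1 := hK.uniformContinuousAt_of_continuousAt ψ hcont (Metric.dist_mem_uniformity hη)
  obtain ⟨e, he, h2⟩ := Metric.mem_uniformity_dist.1 h1
  refine ⟨e, he, fun z z' hz hz' hlt => ?_⟩
  have h3 := h2 (a := φ z) (b := φ z') (by rw [dist_eq_norm]; exact hlt)
    ⟨z, mem_closedBall_zero_iff.2 hz, rfl⟩
  have h4 : ‖z‖ < 1 := hz.trans_lt hr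
  simp only [mem_ofPred_eq] at h3
  rwa [h.left z h4, h.left z' hz', dist_eq_norm] at h3

/-- smallness in the sphere, up to scale -/
def Small (ε : ℝ) (A : Set ℂ) : Prop :=
  (∀ z ∈ A, 1 / ε ≤ ‖z‖) ∨ ∀ z ∈ A, ∀ z' ∈ A, ‖z - z'‖ ≤ ε

theorem lavrentiev {φ ψ : ℂ → ℂ} {U : Set ℂ} (h : Riem φ ψ U) {δ : ℝ} (hδ : 0 < δ)
    (hδ1 : δ ≤ 1) : ∃ ε > 0, ∀ E : Set ℂ, IsPreconnected E → (∀ z ∈ E, ‖z‖ < 1) →
      Small ε (φ '' E) → ∀ x ∈ E, ∀ y ∈ E, ‖x - y‖ ≤ δ := by
  obtain ⟨ρ, hρ⟩ : ∃ ρ, ρ = 1 - δ / 4 := ⟨_, rfl⟩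
  obtain ⟨ρ', hρ'⟩ : ∃ ρ', ρ' = 1 - δ / 8 := ⟨_, rfl⟩
  have hρ1 : ρ < 1 := by rw [hρ]; linarith
  have hρ'1 : ρ' < 1 := by rw [hρ']; linarith
  obtain ⟨e1, he1, H1⟩ := h.unif_inv hρ'1 (half_pos hδ)
  obtain ⟨b, hb, H2⟩ := h.unif_inv hρ1 (by positivity : 0 < δ / 8)
  obtain ⟨M, hM, H3⟩ : ∃ M > 0, ∀ z, ‖z‖ ≤ ρ' → ‖φ z‖ ≤ M := by
    have hsub : Metric.closedBall (0 : ℂ) ρ' ⊆ Metric.ball 0 1 :=
      Metric.closedBall_subset_ball hρ'1
    obtain ⟨M, hM⟩ := (isCompact_closedBall (0 : ℂ) ρ').exists_bound_of_continuousOn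
      (h.contOn.mono hsub)
    exact ⟨max M 1, by positivity, fun z hz =>
      (hM z (mem_closedBall_zero_iff.2 hz)).trans (le_max_left _ _)⟩
  obtain ⟨q, hq⟩ : ∃ q, q = Real.exp (-(8 * Real.pi / δ)) := ⟨_, rfl⟩
  have hpi := Real.pi_pos
  have hq0 : 0 < q := by rw [hq]; exact Real.exp_pos _
  have hq1 : q < 1 := by
    rw [hq, Real.exp_lt_one_iff]
    have : 0 < 8 * Real.pi / δ := by positivity
    linarith
  have hlogq : Real.log (1 / q) = 8 * Real.pi / δ := by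
    rw [one_div, Real.log_inv, hq, Real.log_exp]
    ring
  obtain ⟨ε, hε⟩ : ∃ ε, ε = min (e1 / 2) (min (b * q / 2) (q / (2 * M))) := ⟨_, rfl⟩
  have hε0 : 0 < ε := by rw [hε]; positivity
  have hεe1 : ε < e1 := by
    have : ε ≤ e1 / 2 := by rw [hε]; exact min_le_left _ _
    linarith
  have hεb : ε < b * q := by
    have : ε ≤ b * q / 2 := by rw [hε]; exact (min_le_right _ _).trans (min_le_left _ _)
    have h0 : 0 < b * q := by positivity
    linarith
  have hεM : ε < q / M := by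
    have h1 : ε ≤ q / (2 * M) := by rw [hε]; exact (min_le_right _ _).trans (min_le_right _ _)
    have h2 : q / (2 * M) = (q / M) / 2 := by field_simp
    have h0 : 0 < q / M := by positivity
    rw [h2] at h1
    linarith
  have hMε : M / q < 1 / ε := by
    rw [lt_div_iff₀ hε0, div_mul_eq_mul_div, div_lt_one hq0]
    rw [lt_div_iff₀ hM] at hεM
    linarith
  have hMlt : M < 1 / ε := by
    refine lt_trans ?_ hMε
    rw [lt_div_iff₀ hq0]
    nlinarith
  refine ⟨ε, hε0, fun E hE hE1 hsmall x hx y hy => ?_⟩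
  by_contra hcon
  push Not at hcon
  -- the set stays near the boundary
  have hfar : ∀ z ∈ E, ρ' < ‖z‖ := by
    intro z hz
    by_contra hle
    push Not at hle
    rcases hsmall with hs | hs
    · have a1 := hs _ ⟨z, hz, rfl⟩
      have a2 := H3 z hle
      linarith
    · have a1 : ∀ z' ∈ E, ‖z - z'‖ < δ / 2 := fun z' hz' =>
        H1 z z' hle (hE1 z' hz') ((hs _ ⟨z, hz, rfl⟩ _ ⟨z', hz', rfl⟩).trans_lt hεe1)
      have a2 := a1 x hx
      have a3 := a1 y hy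
      have a4 : x - y = (z - y) - (z - x) := by ring
      rw [a4] at hcon
      have a5 := norm_sub_le (z - y) (z - x)
      linarith
  have hxy : y - x ≠ 0 := by
    intro h0
    rw [norm_sub_rev, h0, norm_zero] at hcon
    linarith
  have hxyn : 0 < ‖y - x‖ := norm_pos_iff.2 hxy
  obtain ⟨ω, hω⟩ : ∃ ω : ℂ, ω = (y - x) / (‖y - x‖ : ℝ) := ⟨_, rfl⟩
  have hωn : ‖ω‖ = 1 := by
    rw [hω, norm_div, Complex.norm_real, norm_norm, div_self hxyn.ne']
  have hω0 : ω ≠ 0 := norm_pos_iff.1 (by rw [hωn]; exact one_pos)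
  have hωinv : ‖ω⁻¹‖ = 1 := by rw [norm_inv, hωn, inv_one]
  have hre : (ω⁻¹ * y).re - (ω⁻¹ * x).re = ‖y - x‖ := by
    rw [← Complex.sub_re, ← mul_sub]
    have : ω⁻¹ * (y - x) = ((‖y - x‖ : ℝ) : ℂ) := by
      rw [hω, inv_div]
      field_simp
    rw [this, Complex.ofReal_re]
  obtain ⟨X, hX⟩ : ∃ X, X = (ω⁻¹ * x).re := ⟨_, rfl⟩
  obtain ⟨Y, hY⟩ : ∃ Y, Y = (ω⁻¹ * y).re := ⟨_, rfl⟩
  have hX1 : -1 < X := by
    have a1 : |(ω⁻¹ * x).re| ≤ ‖ω⁻¹ * x‖ := Complex.abs_re_le_norm _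
    rw [norm_mul, hωinv, one_mul, ← hX] at a1
    have := hE1 x hx
    linarith [neg_abs_le X]
  have hY1 : Y < 1 := by
    have a1 : |(ω⁻¹ * y).re| ≤ ‖ω⁻¹ * y‖ := Complex.abs_re_le_norm _
    rw [norm_mul, hωinv, one_mul, ← hY] at a1
    have := hE1 y hy
    linarith [le_abs_self Y]
  rw [← hX, ← hY] at hre
  rw [norm_sub_rev] at hcon
  obtain ⟨α, hα⟩ : ∃ α, α = max X (-ρ) := ⟨_, rfl⟩
  obtain ⟨β, hβ⟩ : ∃ β, β = min Y ρ := ⟨_, rfl⟩
  have hαβ : δ / 2 ≤ β - α := by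
    have b1 : δ / 2 + α ≤ Y := by
      rw [← le_sub_iff_add_le', hα]
      apply max_le
      · linarith
      · rw [hρ]; linarith
    have b2 : δ / 2 + α ≤ ρ := by
      rw [← le_sub_iff_add_le', hα]
      apply max_le
      · rw [hρ]; linarith
      · rw [hρ]; linarith
    have : δ / 2 + α ≤ β := by rw [hβ]; exact le_min b1 b2
    linarith
  -- points of the set on the vertical lines
  have hline : ∀ s : ℝ, α < s → s < β → ∃ p ∈ E, (ω⁻¹ * p).re = s ∧ |s| ≤ ρ := by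
    intro s hs1 hs2
    have c1 : ContinuousOn (fun p : ℂ => (ω⁻¹ * p).re) E :=
      (Complex.continuous_re.comp (continuous_const.mul continuous_id)).continuousOn
    have c2 := hE.intermediate_value hx hy c1
    have hXs : X ≤ s := by
      have : X ≤ α := by rw [hα]; exact le_max_left _ _
      linarith
    have hsY : s ≤ Y := by
      have : β ≤ Y := by rw [hβ]; exact min_le_left _ _
      linarith
    obtain ⟨p, hp, hps⟩ := c2 (show s ∈ Icc ((ω⁻¹ * x).re) ((ω⁻¹ * y).re) from by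
      rw [← hX, ← hY]; exact ⟨hXs, hsY⟩)
    refine ⟨p, hp, hps, abs_le.2 ⟨?_, ?_⟩⟩
    · have : -ρ ≤ α := by rw [hα]; exact le_max_right _ _
      linarith
    · have : β ≤ ρ := by rw [hβ]; exact min_le_right _ _
      linarith
  -- the rotated map
  have hrot : ∀ z : ℂ, ‖z‖ < 1 → ‖ω * z‖ < 1 := by
    intro z hz
    rw [norm_mul, hωn, one_mul]
    exact hz
  have hd1 : DifferentiableOn ℂ (fun z => φ (ω * z)) (Metric.ball 0 1) := by
    refine h.diff.comp (by fun_prop) ?_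
    intro z hz
    exact mem_ball_zero_iff.2 (hrot z (mem_ball_zero_iff.1 hz))
  have hinj1 : InjOn (fun z => φ (ω * z)) (Metric.ball 0 1) := by
    intro u hu v hv huv
    have := h.inj (mem_ball_zero_iff.2 (hrot u (mem_ball_zero_iff.1 hu)))
      (mem_ball_zero_iff.2 (hrot v (mem_ball_zero_iff.1 hv))) huv
    exact mul_left_cancel₀ hω0 this
  have hsn : ∀ s : ℝ, |s| ≤ ρ → ‖(s : ℂ)‖ < 1 ∧ ‖ω * (s : ℂ)‖ ≤ ρ := by
    intro s hs
    rw [norm_mul, hωn, one_mul, Complex.norm_real, Real.norm_eq_abs]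
    exact ⟨by linarith, hs⟩
  have hpt : ∀ (s : ℝ) (p : ℂ), (ω⁻¹ * p).re = s →
      (s : ℂ) + ((ω⁻¹ * p).im : ℝ) * Complex.I = ω⁻¹ * p := by
    intro s p hp
    rw [← hp]
    exact Complex.re_add_im _
  have hlogbig : ∀ c d : ℝ, 0 < c → c / q < d → 8 * Real.pi / δ < Real.log (d / c) := by
    intro c d hc hcd
    rw [← hlogq]
    apply Real.log_lt_log (by positivity)
    rw [lt_div_iff₀ hc]
    calc 1 / q * c = c / q := by ring
      _ < d := hcd
  have hfin : ∀ c d : ℝ, 0 < c → c / q < d → ¬ (β - α) * Real.log (d / c) ≤ 4 * Real.pi := by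
    intro c d hc hcd hle
    have a1 := hlogbig c d hc hcd
    have a2 : δ / 2 * (8 * Real.pi / δ) = 4 * Real.pi := by field_simp; ring
    have a3 : 0 < 8 * Real.pi / δ := by positivity
    have a4 : δ / 2 * (8 * Real.pi / δ) < (β - α) * Real.log (d / c) :=
      mul_lt_mul_of_le_of_lt_of_pos_of_nonneg hαβ a1 (by positivity) (by linarith)
    linarith
  rcases hsmall with hs | hs
  · refine hfin M (1 / ε) hM hMε (chord hd1 hinj1 (w := 0) hM hMlt (by linarith) ?_)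
    intro s hs1 hs2
    obtain ⟨p, hp, hps, hsρ⟩ := hline s hs1 hs2
    refine ⟨(ω⁻¹ * p).im, (hsn s hsρ).1, ?_, Or.inl ⟨?_, ?_⟩⟩
    · rw [hpt s p hps, norm_mul, hωinv, one_mul]
      exact hE1 p hp
    · rw [sub_zero]
      exact H3 _ ((hsn s hsρ).2.trans (by rw [hρ, hρ']; linarith))
    · rw [sub_zero, hpt s p hps, mul_inv_cancel_left₀ hω0]
      exact hs _ ⟨p, hp, rfl⟩
  · have hεb' : ε < b := by nlinarith
    refine hfin ε b hε0 (by rw [div_lt_iff₀ hq0]; exact hεb) (chord hd1 hinj1 (w := φ x) hε0 hεb'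
      (by linarith) ?_)
    intro s hs1 hs2
    obtain ⟨p, hp, hps, hsρ⟩ := hline s hs1 hs2
    refine ⟨(ω⁻¹ * p).im, (hsn s hsρ).1, ?_, Or.inr ⟨?_, ?_⟩⟩
    · rw [hpt s p hps, norm_mul, hωinv, one_mul]
      exact hE1 p hp
    · rw [hpt s p hps, mul_inv_cancel_left₀ hω0]
      exact hs _ ⟨p, hp, rfl⟩ _ ⟨x, hx, rfl⟩
    · by_contra hlt
      push Not at hlt
      have a1 := H2 _ _ (hsn s hsρ).2 (hE1 x hx) hlt
      have a2 := hfar x hx
      have a3 := norm_sub_norm_le x (ω * s)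
      rw [norm_sub_rev] at a3
      have a4 := (hsn s hsρ).2
      rw [hρ] at a4
      rw [hρ'] at a2
      linarith

end Pool.Agent.Helper984_CP
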