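import Pool.Agent.Helper984_CP.Sym

/-!
# Lifts to the logarithmic plane, for paths, and conical homeomorphisms
-/

set_option autoImplicit false

open Set Filter Topology Complex ComplexConjugate

noncomputable section

namespace Pool.Agent.Helper984_CP

theorem tpi_ne : (tpi : ℂ) ≠ 0 := by rw [tpi_eq]; simp [Real.pi_ne_zero]

theorem exp_int_tpi (n : ℤ) : cexp ((n : ℂ) * tpi) = 1 := Complex.exp_int_mul_two_pi_mul_I n

theorem exp_tpi' : cexp tpi = 1 := by
  have := exp_int_tpi 1
  rwa [Int.cast_one, one_mul] at this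

theorem exp_add_tpi (w : ℂ) : cexp (w + tpi) = cexp w := by
  rw [Complex.exp_add, exp_tpi', mul_one]

/-- `M` is a lift of `f` to the logarithmic plane -/
def LiftOf (f : ℂ → ℂ) (M : C(ℂ, ℂ)) : Prop :=
  (∀ w, M (w + tpi) = M w + tpi) ∧ ∀ w, cexp (M w) = f (cexp w)

/-- lifting a path -/
theorem lift_path (P : C(unitInterval × ℂ, ℂ)) (hP : ∀ s w, P (s, cexp w) ≠ 0)
    {M0 : C(ℂ, ℂ)} (hM0 : LiftOf (slice P 0) M0) :
    ∃ M : C(unitInterval × ℂ, ℂ), (∀ w, M (0, w) = M0 w) ∧ ∀ s, LiftOf (slice P s) (slice M s) := by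
  let H : C(unitInterval × ℂ, ℂ) := ⟨fun q => P (q.1, cexp q.2) / P (0, cexp q.2), by
    apply Continuous.div
    · fun_prop
    · fun_prop
    · intro q; exact hP 0 q.2⟩
  obtain ⟨L, hL0, hL⟩ := exists_log H (fun q => div_ne_zero (hP _ _) (hP _ _))
    (fun a => div_self (hP 0 a))
  refine ⟨⟨fun q => M0 q.2 + L (q.1, q.2), by fun_prop⟩, fun w => ?_, fun s => ⟨fun w => ?_,
    fun w => ?_⟩⟩
  · simp [hL0]
  · simp only [slice_apply, ContinuousMap.coe_mk]
    rw [hM0.1]
    have h1 := exp_rigid (A := unitInterval) (u := fun s => L (s, w + tpi)) (v := fun s => L (s, w))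
      (by fun_prop) (by fun_prop) (fun s => by
        rw [hL, hL]
        change P (s, cexp (w + tpi)) / P (0, cexp (w + tpi)) = P (s, cexp w) / P (0, cexp w)
        rw [exp_add_tpi]) s 0
    simp only [hL0, sub_zero] at h1
    linear_combination h1
  · simp only [slice_apply, ContinuousMap.coe_mk]
    rw [Complex.exp_add, hL, hM0.2]
    change P (0, cexp w) * (P (s, cexp w) / P (0, cexp w)) = P (s, cexp w)
    exact mul_div_cancel₀ _ (hP 0 w)

theorem LiftOf.unique {f : ℂ → ℂ} {M N : C(ℂ, ℂ)} (hM : ∀ w, cexp (M w) = f (cexp w))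
    (hN : ∀ w, cexp (N w) = f (cexp w)) : ∃ n : ℤ, ∀ w, M w = N w + n * tpi := by
  obtain ⟨n, hn⟩ := Complex.exp_eq_exp_iff_exists_int.1 ((hM 0).trans (hN 0).symm)
  refine ⟨n, fun w => ?_⟩
  have h1 := exp_rigid (A := ℂ) (u := M) (v := N) M.continuous N.continuous
    (fun w => (hM w).trans (hN w).symm) w 0
  have h2 : M 0 = N 0 + n * tpi := hn
  linear_combination h1 + h2

/-- every homeomorphism fixing the origin lifts, up to orientation -/
theorem lift_or {A : C(ℂ, ℂ)} (hA : IsHomeo A) (h0 : A 0 = 0) :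
    (∃ M, LiftOf A M) ∨ ∃ M, LiftOf (fun z => A (conj z)) M := by
  have key : ∀ A : C(ℂ, ℂ), Function.Injective A → A 0 = 0 → ∃ (M : C(ℂ, ℂ)) (d : ℤ),
      (∀ w, cexp (M w) = A (cexp w)) ∧ ∀ w, M (w + tpi) = M w + d * tpi := by
    intro A hA h0
    have hne : ∀ w, A (cexp w) ≠ 0 := fun w h =>
      Complex.exp_ne_zero w (hA (h.trans h0.symm))
    let H : C(unitInterval × ℂ, ℂ) := ⟨fun q => A (cexp ((q.1 : ℝ) * q.2)) / A (cexp 0), by
      apply Continuous.div_const
      fun_prop⟩
    obtain ⟨L, hL0, hL⟩ := exists_log H (fun q => div_ne_zero (hne _) (hne _)) (fun a => by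
      change A (cexp (((0 : unitInterval) : ℝ) * a)) / A (cexp 0) = 1
      rw [Icc.coe_zero, Complex.ofReal_zero, zero_mul]
      exact div_self (hne 0))
    let M : C(ℂ, ℂ) := ⟨fun w => Complex.log (A (cexp 0)) + L (1, w), by fun_prop⟩
    have hM : ∀ w, cexp (M w) = A (cexp w) := by
      intro w
      change cexp (Complex.log (A (cexp 0)) + L (1, w)) = _
      rw [Complex.exp_add, Complex.exp_log (hne 0), hL]
      change A (cexp 0) * (A (cexp (((1 : unitInterval) : ℝ) * w)) / A (cexp 0)) = _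
      rw [Icc.coe_one, Complex.ofReal_one, one_mul]
      exact mul_div_cancel₀ _ (hne 0)
    let M' : C(ℂ, ℂ) := ⟨fun w => M (w + tpi), by fun_prop⟩
    obtain ⟨d, hd⟩ := LiftOf.unique (f := A) (M := M') (N := M) (fun w => by
      change cexp (M (w + tpi)) = _
      rw [hM, exp_add_tpi]) hM
    exact ⟨M, d, hM, hd⟩
  obtain ⟨Ai, h1, h2⟩ := hA
  have hi0 : Ai 0 = 0 := by rw [← h0, h2, h0]
  obtain ⟨M, d, hM, hMd⟩ := key A (Function.LeftInverse.injective h2) h0
  obtain ⟨N, e, hN, hNe⟩ := key Ai (Function.LeftInverse.injective h1) hi0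
  have hit : ∀ (N : C(ℂ, ℂ)) (e : ℤ), (∀ w, N (w + tpi) = N w + e * tpi) → ∀ (n : ℤ) w,
      N (w + n * tpi) = N w + n * (e * tpi) := by
    intro N e hNe n
    induction n using Int.induction_on with
    | zero => intro w; simp
    | succ n ih =>
      intro w
      have e1 : w + ((n : ℤ) + 1 : ℤ) * tpi = (w + (n : ℤ) * tpi) + tpi := by push_cast; ring
      rw [e1, hNe, ih]
      push_cast
      ring
    | pred n ih =>
      intro w
      have e1 : w + (-(n : ℤ) : ℤ) * tpi = (w + (-(n : ℤ) - 1 : ℤ) * tpi) + tpi := by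
        push_cast; ring
      have h3 := ih w
      rw [e1, hNe] at h3
      have h4 : N (w + (-(n : ℤ) - 1 : ℤ) * tpi) = N w + (-(n : ℤ) : ℤ) * (e * tpi) - e * tpi := by
        linear_combination h3
      rw [h4]
      push_cast
      ring
  have hde : (d : ℂ) * e = 1 := by
    let K : C(ℂ, ℂ) := N.comp M
    obtain ⟨n, hn⟩ := LiftOf.unique (f := fun z => z) (M := K) (N := ContinuousMap.id ℂ)
      (fun w => by
        change cexp (N (M w)) = cexp w
        rw [hN, hM, h2]) (fun w => rfl)
    have h3 : N (M (0 + tpi)) = (0 + tpi) + n * tpi := hn (0 + tpi)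
    have h4 : N (M 0) = 0 + n * tpi := hn 0
    rw [hMd, hit N e hNe d, h4] at h3
    have h5 : ((d : ℂ) * e) * tpi = 1 * tpi := by linear_combination h3
    exact mul_right_cancel₀ tpi_ne h5
  have hde' : d * e = 1 := by exact_mod_cast hde
  rcases Int.eq_one_or_neg_one_of_mul_eq_one hde' with h | h
  · left
    exact ⟨M, fun w => by rw [hMd, h]; simp, hM⟩
  · right
    refine ⟨⟨fun w => M (conj w), by fun_prop⟩, fun w => ?_, fun w => ?_⟩
    · simp only [ContinuousMap.coe_mk]
      have e1 : conj (w + tpi) = conj w + ((-1 : ℤ) : ℂ) * tpi := by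
        rw [map_add, tpi_eq, map_mul, Complex.conj_ofReal, Complex.conj_I]
        push_cast
        ring
      rw [e1, hit M d hMd, h]
      push_cast
      ring
    · simp only [ContinuousMap.coe_mk]
      rw [hM, Complex.exp_conj]

/-- a norm preserving homogeneous homeomorphism with a lift is a cone -/
theorem exists_cone {A : C(ℂ, ℂ)} (hA : ∀ z, ‖A z‖ = ‖z‖) (hinj : Function.Injective A)
    (hA' : ∀ (r : ℝ) (z : ℂ), 0 < r → A (r * z) = r * A z) {M : C(ℂ, ℂ)} (hM : LiftOf A M) :
    ∃ α : ℝ → ℝ, Continuous α ∧ StrictMono α ∧ (∀ x, α (x + 1) = α x + 1) ∧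
      (∀ z, A z = cone α z) := by
  obtain ⟨hM1, hM2⟩ := hM
  have hre : ∀ w, (M w).re = w.re := by
    intro w
    have h1 := congrArg norm (hM2 w)
    rw [Complex.norm_exp, hA, Complex.norm_exp] at h1
    exact Real.exp_injective h1
  have hsh : ∀ (w : ℂ) (ρ : ℝ), M (w + ρ) = M w + ρ := by
    intro w ρ
    have h1 : ∀ ρ : ℝ, cexp (M (w + ρ)) = cexp (M w + ρ) := by
      intro ρ
      rw [hM2, Complex.exp_add, ← Complex.ofReal_exp, mul_comm, hA' _ _ (Real.exp_pos _),
        ← hM2, Complex.exp_add, Complex.ofReal_exp, mul_comm]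
    have h2 := exp_rigid (A := ℝ) (u := fun ρ => M (w + ρ)) (v := fun ρ => M w + ρ)
      (by fun_prop) (by fun_prop) h1 ρ 0
    simp only [Complex.ofReal_zero, add_zero, sub_self] at h2
    exact sub_eq_zero.1 h2
  let α : ℝ → ℝ := fun x => (M (tpi * x)).im / (2 * Real.pi)
  have hαc : Continuous α := by
    apply Continuous.div_const
    fun_prop
  have hαM : ∀ w, M w = circM α w := by
    intro w
    have e1 : w = tpi * ((w.im / (2 * Real.pi) : ℝ) : ℂ) + (w.re : ℂ) := by
      obtain ⟨x, hx⟩ : ∃ x : ℝ, w.im / (2 * Real.pi) = x := ⟨_, rfl⟩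
      have hx' : w.im = 2 * Real.pi * x := by
        rw [← hx]
        field_simp
      rw [hx]
      apply Complex.ext
      · rw [tpi_eq]; simp
      · rw [tpi_eq, hx']
        simp
    apply Complex.ext
    · rw [hre, circM_re]
    · rw [circM_im]
      conv_lhs => rw [e1, hsh]
      have h1 := two_pi_ne
      simp only [α, Complex.add_im, Complex.ofReal_im, add_zero]
      field_simp
  have hαp : ∀ x, α (x + 1) = α x + 1 := by
    intro x
    have e1 : tpi * ((x + 1 : ℝ) : ℂ) = tpi * (x : ℂ) + tpi := by push_cast; ring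
    simp only [α]
    rw [e1, hM1, Complex.add_im, tpi_im]
    have h1 := two_pi_ne
    field_simp
  have hαinj : Function.Injective α := by
    intro x y hxy
    have h1 : M (tpi * x) = M (tpi * y) := by
      apply Complex.ext
      · rw [hre, hre, tpi_eq]; simp
      · have h2 := two_pi_ne
        simp only [α] at hxy
        field_simp at hxy
        exact hxy
    have h2 : cexp (tpi * x) = cexp (tpi * y) := by
      apply hinj
      rw [← hM2, ← hM2, h1]
    obtain ⟨n, hn⟩ := Complex.exp_eq_exp_iff_exists_int.1 h2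
    have h3 := int_shift (M := M) hM1 n (tpi * y)
    rw [← hn, h1] at h3
    have h4 : (n : ℂ) * tpi = 0 := by linear_combination (-1 : ℂ) * h3
    rw [h4, add_zero] at hn
    exact_mod_cast mul_left_cancel₀ tpi_ne hn
  have hαm : StrictMono α := by
    rcases hαc.strictMono_of_inj hαinj with h | h
    · exact h
    · exfalso
      have h1 := h (show (0 : ℝ) < 1 by norm_num)
      have h2 := hαp 0
      rw [zero_add] at h2
      linarith
  refine ⟨α, hαc, hαm, hαp, fun z => ?_⟩
  by_cases hz : z = 0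
  · rw [hz, cone_zero, ← norm_eq_zero, hA, norm_zero]
  · obtain ⟨w, rfl⟩ : ∃ w, cexp w = z := ⟨Complex.log z, Complex.exp_log hz⟩
    rw [cone_exp hαp, ← hαM, hM2]

theorem cone_hom {α : ℝ → ℝ} (hp : ∀ x, α (x + 1) = α x + 1) (r : ℝ) (z : ℂ) (hr : 0 < r) :
    cone α (r * z) = r * cone α z := by
  by_cases hz : z = 0
  · rw [hz, mul_zero, cone_zero, mul_zero]
  · obtain ⟨w, rfl⟩ : ∃ w, cexp w = z := ⟨Complex.log z, Complex.exp_log hz⟩
    have e1 : (r : ℂ) * cexp w = cexp (w + (Real.log r : ℝ)) := by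
      rw [Complex.exp_add, ← Complex.ofReal_exp, Real.exp_log hr, mul_comm]
    rw [e1, cone_exp hp, cone_exp hp]
    have e2 : circM α (w + (Real.log r : ℝ)) = circM α w + (Real.log r : ℝ) := by
      simp only [circM, Complex.add_re, Complex.ofReal_re, Complex.add_im, Complex.ofReal_im,
        add_zero]
      push_cast
      ring
    rw [e2, Complex.exp_add, ← Complex.ofReal_exp, Real.exp_log hr, mul_comm]

theorem cone_conj {α : ℝ → ℝ} (hp : ∀ x, α (x + 1) = α x + 1) (ho : ∀ x, α (-x) = -α x) (z : ℂ) :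
    cone α (conj z) = conj (cone α z) := by
  by_cases hz : z = 0
  · rw [hz, map_zero, cone_zero, map_zero]
  · obtain ⟨w, rfl⟩ : ∃ w, cexp w = z := ⟨Complex.log z, Complex.exp_log hz⟩
    rw [← Complex.exp_conj, cone_exp hp, cone_exp hp, ← Complex.exp_conj]
    congr 1
    apply Complex.ext
    · rw [circM_re, Complex.conj_re, Complex.conj_re, circM_re]
    · rw [circM_im, Complex.conj_im, Complex.conj_im, circM_im, neg_div, ho]
      ring

/-- the path from a cone to the identity -/
theorem cone_path {A : C(ℂ, ℂ)} (hA : ∀ z, ‖A z‖ = ‖z‖) (hinj : Function.Injective A)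
    (hA' : ∀ (r : ℝ) (z : ℂ), 0 < r → A (r * z) = r * A z) {M : C(ℂ, ℂ)} (hM : LiftOf A M)
    {σ : Prop} (hσ : σ → A 1 = 1 ∧ ∀ z, A (conj z) = conj (A z)) :
    ∃ P : C(unitInterval × ℂ, ℂ), (∀ s, IsHomeo (slice P s)) ∧ (∀ z, P (0, z) = A z) ∧
      (∀ z, P (1, z) = z) ∧ (∀ s (r : ℝ) z, 0 < r → P (s, r * z) = r * P (s, z)) ∧
      (σ → ∀ s z, P (s, conj z) = conj (P (s, z))) := by
  obtain ⟨α0, hα0c, hα0m, hα0p, hα0⟩ := exists_cone hA hinj hA' hM
  obtain ⟨α, hαc, hαm, hαp, hα, hαo⟩ : ∃ α : ℝ → ℝ, Continuous α ∧ StrictMono α ∧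
      (∀ x, α (x + 1) = α x + 1) ∧ (∀ z, A z = cone α z) ∧ (σ → ∀ x, α (-x) = -α x) := by
    by_cases hs : σ
    · obtain ⟨h1, h2⟩ := hσ hs
      have e1 : cexp (tpi * (α0 0 : ℝ)) = 1 := by
        have h3 := hα0 (cexp 0)
        rw [cone_exp hα0p, Complex.exp_zero, h1] at h3
        rw [h3]
        congr 1
        simp [circM]
      obtain ⟨n, hn⟩ := Complex.exp_eq_one_iff.1 e1
      have hn' : α0 0 = n := by
        have h3 : tpi * ((α0 0 : ℝ) : ℂ) = tpi * ((n : ℝ) : ℂ) := by
          rw [hn]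
          push_cast
          simp only [tpi]
          ring
        exact_mod_cast mul_left_cancel₀ tpi_ne h3
      have hcon : ∀ z, A z = cone (fun x => α0 x - n) z := by
        intro z
        rw [hα0]
        by_cases hz : z = 0
        · rw [hz, cone_zero, cone_zero]
        · obtain ⟨w, rfl⟩ : ∃ w, cexp w = z := ⟨Complex.log z, Complex.exp_log hz⟩
          rw [cone_exp hα0p, cone_exp (by intro x; rw [hα0p]; ring)]
          have e2 : circM α0 w = circM (fun x => α0 x - n) w + n * tpi := by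
            simp only [circM]
            push_cast
            ring
          rw [e2, Complex.exp_add, exp_int_tpi, mul_one]
      have hper : ∀ x, (fun x => α0 x - n) (x + 1) = (fun x => α0 x - n) x + 1 := by
        intro x
        simp only
        rw [hα0p]
        ring
      refine ⟨fun x => α0 x - n, hα0c.sub continuous_const, fun x y hxy => by
        have := hα0m hxy
        simp only
        linarith, hper, hcon, fun _ x => ?_⟩
      -- oddness
      have h3 : ∀ x : ℝ, cexp (tpi * ((-(α0 (-x) - n) : ℝ) : ℂ)) = cexp (tpi * ((α0 x - n : ℝ) : ℂ)) := by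
        intro x
        have h4 := h2 (cexp (tpi * ((-x : ℝ) : ℂ)))
        rw [hcon, hcon, cone_exp hper, ← Complex.exp_conj, ← Complex.exp_conj, cone_exp hper] at h4
        have e3 : ∀ y : ℝ, circM (fun x => α0 x - n) (tpi * (y : ℂ)) =
            tpi * ((α0 y - n : ℝ) : ℂ) := by
          intro y
          apply Complex.ext
          · rw [circM_re, tpi_eq]; simp
          · rw [circM_im]
            have : (tpi * (y : ℂ)).im / (2 * Real.pi) = y := by rw [tpi_eq]; simp
            rw [this, tpi_eq]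
            simp
        have e4 : conj (tpi * ((-x : ℝ) : ℂ)) = tpi * (x : ℂ) := by
          rw [map_mul, Complex.conj_ofReal, tpi_eq, map_mul, Complex.conj_ofReal, Complex.conj_I]
          push_cast
          ring
        rw [e4, e3, e3] at h4
        rw [h4]
        congr 1
        rw [map_mul, Complex.conj_ofReal, tpi_eq, map_mul, Complex.conj_ofReal, Complex.conj_I]
        push_cast
        ring
      have h5 := exp_rigid (A := ℝ) (u := fun x => tpi * ((-(α0 (-x) - n) : ℝ) : ℂ))
        (v := fun x => tpi * ((α0 x - n : ℝ) : ℂ)) (by fun_prop) (by fun_prop) h3 x 0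
      simp only [neg_zero, hn', sub_self, Complex.ofReal_zero, mul_zero] at h5
      have h6 : tpi * ((-(α0 (-x) - n) : ℝ) : ℂ) = tpi * ((α0 x - n : ℝ) : ℂ) := sub_eq_zero.1 h5
      have h7 : -(α0 (-x) - n) = α0 x - n := by exact_mod_cast mul_left_cancel₀ tpi_ne h6
      simp only
      linarith
    · exact ⟨α0, hα0c, hα0m, hα0p, hα0, fun h => (hs h).elim⟩
  let β : unitInterval × ℝ → ℝ := fun q => (1 - (q.1 : ℝ)) * α q.2 + (q.1 : ℝ) * q.2
  have hβc : Continuous β := by fun_prop
  have hβp : ∀ s x, β (s, x + 1) = β (s, x) + 1 := by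
    intro s x
    simp only [β]
    rw [hαp]
    ring
  have hβm : ∀ s, StrictMono fun x => β (s, x) := by
    intro s x y hxy
    simp only [β]
    have h1 := hαm hxy
    have h2 := s.2.1
    have h3 := s.2.2
    rcases h2.eq_or_lt with h | h
    · rw [← h]; simpa using h1
    · nlinarith [mul_nonneg (sub_nonneg.2 h3) (sub_nonneg.2 h1.le), mul_pos h (sub_pos.2 hxy)]
  let P : C(unitInterval × ℂ, ℂ) := ⟨fun q => cone (fun x => β (q.1, x)) q.2,
    continuous_cone_family hβc hβp⟩
  have hPdef : ∀ s z, P (s, z) = cone (fun x => β (s, x)) z := fun _ _ => rfl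
  refine ⟨P, fun s => ?_, fun z => ?_, fun z => ?_, fun s r z hr => ?_, fun hs s z => ?_⟩
  · exact cone_homeo (hβc.comp (by fun_prop : Continuous fun x : ℝ => (s, x))) (hβm s) (hβp s)
  · rw [hPdef, hα]
    simp [β]
  · rw [hPdef]
    simp only [β, Icc.coe_one, sub_self, zero_mul, one_mul, zero_add]
    exact cone_id z
  · rw [hPdef, hPdef]
    exact cone_hom (hβp s) r z hr
  · rw [hPdef, hPdef]
    refine cone_conj (hβp s) (fun x => ?_) z
    simp only [β]
    rw [hαo hs]
    ring

end Pool.Agent.Helper984_CP
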