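import Pool.Agent.Helper984_CP.Attr

/-!
# A homeomorphism which maps the unit disc into its interior: pushing to the half disc
-/

set_option autoImplicit false

open Set Filter Topology ComplexConjugate

noncomputable section

namespace Pool.Agent.Helper984_CP

/-- moving the image of a small circle to a round circle -/
theorem round_push {Φ : C(ℂ, ℂ)}
    {φ : ℂ → ℂ} (hd : DifferentiableOn ℂ φ (Metric.ball 0 1)) {c : ℝ} (hc : 0 < c)
    (hder : HasDerivAt φ (c : ℂ) 0) (hΦ : ∀ z, ‖z‖ < 1 → Φ z = φ z) (hΦ0 : Φ 0 = 0) :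
    ∃ t0 > 0, ∀ t : ℝ, 0 < t → t < t0 → ∃ K : C(ℂ, ℂ), IsHomeo K ∧
      (∀ z, ¬ (3 / 4 * (c * t) ≤ ‖z‖ ∧ ‖z‖ ≤ 5 / 4 * (c * t)) → K z = z) ∧
      ∀ u : ℂ, ‖u‖ = 1 → K (Φ (t * u)) = ((c * t : ℝ) : ℂ) * u := by
  have hs : HasStrictDerivAt φ (c : ℂ) 0 := by
    have h1 := (hd.analyticAt (Metric.ball_mem_nhds (0 : ℂ) one_pos)).hasStrictDerivAt
    rwa [hder.deriv] at h1
  have hcc : (c : ℂ) ≠ 0 := by exact_mod_cast hc.ne'
  have h1 := hs.isLittleO.def (by positivity : 0 < c / 18)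
  rw [nhds_prod_eq] at h1
  obtain ⟨s1, hs1, h2⟩ : ∃ s1 > 0, ∀ x y : ℂ, ‖x‖ < s1 → ‖y‖ < s1 →
      ‖φ x - φ y - (x - y) * c‖ ≤ c / 18 * ‖x - y‖ := by
    obtain ⟨t, ht, h3⟩ := Filter.eventually_prod_self_iff'.1 h1
    obtain ⟨s1, hs1, h4⟩ := Metric.mem_nhds_iff.1 ht
    refine ⟨s1, hs1, fun x y hx hy => ?_⟩
    have := h3 x (h4 (mem_ball_zero_iff.2 hx)) y (h4 (mem_ball_zero_iff.2 hy))
    simpa using this
  refine ⟨min (s1 / 2) (1 / 2), by positivity, fun t ht ht0 => ?_⟩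
  have ht1 : 2 * t < s1 := by
    have := ht0.trans_le (min_le_left _ _)
    linarith
  have ht2 : 2 * t < 1 := by
    have := ht0.trans_le (min_le_right _ _)
    linarith
  let e : ℂ → ℂ := fun z => Φ z / c - z
  have he0 : e 0 = 0 := by simp [e, hΦ0]
  have hec : Continuous e := by
    simp only [e]
    fun_prop
  have heL : ∀ x y, ‖x‖ ≤ 2 * t → ‖y‖ ≤ 2 * t → ‖e x - e y‖ ≤ 1 / 18 * ‖x - y‖ := by
    intro x y hx hy
    have a1 := h2 x y (hx.trans_lt ht1) (hy.trans_lt ht1)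
    have e1 : e x - e y = (φ x - φ y - (x - y) * c) / c := by
      simp only [e]
      rw [hΦ x (hx.trans_lt ht2), hΦ y (hy.trans_lt ht2)]
      field_simp
      ring
    rw [e1, norm_div, Complex.norm_real, Real.norm_of_nonneg hc.le, div_le_iff₀ hc]
    linarith
  have heN : ∀ x, ‖x‖ ≤ 2 * t → ‖e x‖ ≤ 1 / 18 * ‖x‖ := by
    intro x hx
    have := heL x 0 hx (by rw [norm_zero]; linarith)
    rwa [he0, sub_zero, sub_zero] at this
  let χ : ℂ → ℝ := fun z => max 0 (1 - 4 * |‖z‖ / t - 1|)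
  have hχ0 : ∀ z, 0 ≤ χ z := fun z => le_max_left _ _
  have hχ1 : ∀ z, χ z ≤ 1 := by
    intro z
    apply max_le zero_le_one
    have := abs_nonneg (‖z‖ / t - 1)
    linarith
  have hχout : ∀ z, ¬ (3 / 4 * t ≤ ‖z‖ ∧ ‖z‖ ≤ 5 / 4 * t) → χ z = 0 := by
    intro z hz
    apply max_eq_left
    rw [not_and_or, not_le, not_le] at hz
    rcases hz with hz | hz
    · have h3 : ‖z‖ / t < 3 / 4 := by rw [div_lt_iff₀ ht]; linarith
      have := neg_le_abs (‖z‖ / t - 1)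
      linarith
    · have h3 : 5 / 4 < ‖z‖ / t := by rw [lt_div_iff₀ ht]; linarith
      have := le_abs_self (‖z‖ / t - 1)
      linarith
  have hχL : ∀ x y, |χ x - χ y| ≤ 4 / t * ‖x - y‖ := by
    intro x y
    have a1 : |χ x - χ y| ≤ |(1 - 4 * |‖x‖ / t - 1|) - (1 - 4 * |‖y‖ / t - 1|)| := by
      simp only [χ]
      rw [max_comm 0, max_comm 0]
      exact abs_max_sub_max_le_abs _ _ _
    have a2 : |(1 - 4 * |‖x‖ / t - 1|) - (1 - 4 * |‖y‖ / t - 1|)| =
        4 * abs (abs (‖y‖ / t - 1) - abs (‖x‖ / t - 1)) := by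
      obtain ⟨p, hp⟩ : ∃ p, p = abs (‖x‖ / t - 1) := ⟨_, rfl⟩
      obtain ⟨q, hq⟩ : ∃ q, q = abs (‖y‖ / t - 1) := ⟨_, rfl⟩
      rw [← hp, ← hq]
      have e1 : 1 - 4 * p - (1 - 4 * q) = 4 * (q - p) := by ring
      rw [e1, abs_mul, abs_of_pos (show (0 : ℝ) < 4 by norm_num)]
    have a3 : abs (abs (‖y‖ / t - 1) - abs (‖x‖ / t - 1)) ≤ |(‖y‖ / t - 1) - (‖x‖ / t - 1)| :=
      abs_abs_sub_abs_le _ _
    have a4 : |(‖y‖ / t - 1) - (‖x‖ / t - 1)| ≤ ‖x - y‖ / t := by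
      have : (‖y‖ / t - 1) - (‖x‖ / t - 1) = (‖y‖ - ‖x‖) / t := by ring
      rw [this, abs_div, abs_of_pos ht]
      gcongr
      rw [abs_sub_comm]
      exact abs_norm_sub_norm_le x y
    calc |χ x - χ y| ≤ 4 * abs (abs (‖y‖ / t - 1) - abs (‖x‖ / t - 1)) := by rw [← a2]; exact a1
      _ ≤ 4 * (‖x - y‖ / t) := by linarith
      _ = 4 / t * ‖x - y‖ := by ring
  have hχc : Continuous χ := by
    simp only [χ]
    fun_prop
  let η : ℂ → ℂ := fun z => ((χ z : ℝ) : ℂ) * e z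
  have hηout : ∀ z, ¬ (3 / 4 * t ≤ ‖z‖ ∧ ‖z‖ ≤ 5 / 4 * t) → η z = 0 := by
    intro z hz
    simp only [η]
    rw [hχout z hz]
    simp
  have hηc : Continuous η := by
    simp only [η]
    fun_prop
  have hηL : ∀ x y, ‖η x - η y‖ ≤ 1 / 2 * ‖x - y‖ := by
    -- the case of a far point
    have hfar : ∀ x y, 2 * t < ‖y‖ → ‖η x - η y‖ ≤ 1 / 2 * ‖x - y‖ := by
      intro x y hy
      rw [hηout y (by rintro ⟨-, h3⟩; linarith), sub_zero]
      by_cases hx : 3 / 4 * t ≤ ‖x‖ ∧ ‖x‖ ≤ 5 / 4 * t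
      · have a1 : ‖η x‖ ≤ 1 / 18 * ‖x‖ := by
          simp only [η]
          rw [norm_mul, Complex.norm_real, Real.norm_of_nonneg (hχ0 x)]
          have := heN x (by linarith [hx.2])
          nlinarith [hχ1 x, hχ0 x, norm_nonneg (e x)]
        have a2 : ‖y‖ - ‖x‖ ≤ ‖x - y‖ := by
          rw [norm_sub_rev]
          exact norm_sub_norm_le y x
        linarith [hx.2]
      · rw [hηout x hx, norm_zero]
        positivity
    intro x y
    rcases lt_or_ge (2 * t) ‖y‖ with hy | hy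
    · exact hfar x y hy
    rcases lt_or_ge (2 * t) ‖x‖ with hx | hx
    · rw [norm_sub_rev, norm_sub_rev x y]
      exact hfar y x hx
    have e1 : η x - η y = ((χ x : ℝ) : ℂ) * (e x - e y) + ((χ x - χ y : ℝ) : ℂ) * e y := by
      simp only [η]
      push_cast
      ring
    rw [e1]
    refine (norm_add_le _ _).trans ?_
    rw [norm_mul, norm_mul, Complex.norm_real, Complex.norm_real, Real.norm_of_nonneg (hχ0 x),
      Real.norm_eq_abs]
    have a1 : χ x * ‖e x - e y‖ ≤ 1 / 18 * ‖x - y‖ := by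
      have := heL x y hx hy
      nlinarith [hχ1 x, hχ0 x, norm_nonneg (e x - e y)]
    have a2 : |χ x - χ y| * ‖e y‖ ≤ (4 / t * ‖x - y‖) * (1 / 18 * (2 * t)) := by
      apply mul_le_mul (hχL x y) _ (norm_nonneg _) (by positivity)
      have := heN y hy
      linarith
    have a3 : (4 / t * ‖x - y‖) * (1 / 18 * (2 * t)) = 8 / 18 * ‖x - y‖ := by
      field_simp
      ring
    rw [a3] at a2
    linarith
  -- the family
  let e' : ℂ → ℂ := fun z => c * η (z / c)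
  have he'L : ∀ x y, ‖e' x - e' y‖ ≤ 1 / 2 * ‖x - y‖ := by
    intro x y
    have e1 : e' x - e' y = c * (η (x / c) - η (y / c)) := by simp only [e']; ring
    rw [e1, norm_mul, Complex.norm_real, Real.norm_of_nonneg hc.le]
    have a1 := hηL (x / c) (y / c)
    rw [← sub_div, norm_div, Complex.norm_real, Real.norm_of_nonneg hc.le] at a1
    calc c * ‖η (x / c) - η (y / c)‖ ≤ c * (1 / 2 * (‖x - y‖ / c)) := by gcongr
      _ = 1 / 2 * ‖x - y‖ := by field_simp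
  let κ : C(unitInterval × ℂ, ℂ) := ⟨fun q => q.2 + ((q.1 : ℝ) : ℂ) * e' q.2, by
    simp only [e']
    fun_prop⟩
  have hκ : ∀ s z, κ (s, z) = z + ((s : ℝ) : ℂ) * e' z := fun _ _ => rfl
  have hκH := lip_homeo he'L κ hκ
  obtain ⟨S, hSdef⟩ : ∃ S : Set ℂ, S = {z | 3 / 4 * (c * t) ≤ ‖z‖ ∧ ‖z‖ ≤ 5 / 4 * (c * t)} :=
    ⟨_, rfl⟩
  have hct : 0 < c * t := by positivity
  have hout : ∀ s z, z ∉ S → κ (s, z) = z := by
    intro s z hz
    rw [hκ]
    simp only [e']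
    rw [hηout, mul_zero, mul_zero, add_zero]
    rintro ⟨h3, h4⟩
    apply hz
    rw [norm_div, Complex.norm_real, Real.norm_of_nonneg hc.le] at h3 h4
    rw [le_div_iff₀ hc] at h3
    rw [div_le_iff₀ hc] at h4
    rw [hSdef]
    constructor
    · linarith
    · linarith
  obtain ⟨Ki, hKi1, hKi2⟩ := hκH 1
  refine ⟨Ki, ⟨slice κ 1, hKi2, hKi1⟩, fun z hz => ?_, fun u hu => ?_⟩
  · have h3 : slice κ 1 z = z := hout 1 z (by rw [hSdef]; exact hz)
    rw [← h3, hKi2, h3]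
  have h3 : slice κ 1 (((c * t : ℝ) : ℂ) * u) = Φ (t * u) := by
    rw [slice_apply, hκ]
    simp only [e', η, χ, Icc.coe_one, Complex.ofReal_one, one_mul]
    have e1 : ((c * t : ℝ) : ℂ) * u / c = t * u := by
      push_cast
      field_simp
    have e2 : ‖(t : ℂ) * u‖ = t := by
      rw [norm_mul, hu, mul_one, Complex.norm_real, Real.norm_of_nonneg ht.le]
    rw [e1, e2, div_self ht.ne']
    simp only [sub_self, abs_zero, mul_zero, sub_zero]
    rw [max_eq_right zero_le_one]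
    simp only [e]
    push_cast
    field_simp
    ring
  rw [← h3, hKi2]

theorem isoId_lift {f : C(ℂ, ℂ)} (hf : IsoId f) (h0 : f 0 = 0) : ∃ M, LiftOf f M := by
  obtain ⟨P, hP, hP0, hP1⟩ := isoId_iff.1 hf
  let P' : C(unitInterval × ℂ, ℂ) := ⟨fun q => P q - P (q.1, 0), by fun_prop⟩
  have hP' : ∀ s z, P' (s, z) = P (s, z) - P (s, 0) := fun _ _ => rfl
  have hM0 : LiftOf (slice P' 0) (ContinuousMap.id ℂ) := by
    refine ⟨fun w => rfl, fun w => ?_⟩
    rw [slice_apply, hP', hP0, hP0, sub_zero]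
    rfl
  obtain ⟨M, hM1, hM2⟩ := lift_path P' (fun s w h => by
    rw [hP', sub_eq_zero] at h
    exact Complex.exp_ne_zero w ((hP s).injective h)) hM0
  refine ⟨slice M 1, (hM2 1).1, fun w => ?_⟩
  rw [(hM2 1).2 w, slice_apply, hP', hP1, hP1, h0, sub_zero]

/-- the path from a cone to the identity, with norms -/
theorem cone_path_norm {A : C(ℂ, ℂ)} (hA : ∀ z, ‖A z‖ = ‖z‖) (hinj : Function.Injective A)
    (hA' : ∀ (r : ℝ) (z : ℂ), 0 < r → A (r * z) = r * A z) {M : C(ℂ, ℂ)} (hM : LiftOf A M) :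
    ∃ P Pi : C(unitInterval × ℂ, ℂ), (∀ s z, P (s, Pi (s, z)) = z) ∧
      (∀ s z, Pi (s, P (s, z)) = z) ∧ (∀ z, P (0, z) = A z) ∧
      (∀ z, P (1, z) = z) ∧ (∀ s z, ‖P (s, z)‖ = ‖z‖) := by
  obtain ⟨α, hαc, hαm, hαp, hα⟩ := exists_cone hA hinj hA' hM
  let β : unitInterval × ℝ → ℝ := fun q => (1 - (q.1 : ℝ)) * α q.2 + (q.1 : ℝ) * q.2
  have hβc : Continuous β := by fun_prop
  have hβp : ∀ s x, β (s, x + 1) = β (s, x) + 1 := by
    intro s x
    simp only [β]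
    rw [hαp]
    ring
  have hβm : ∀ s, StrictMono fun x => β (s, x) := by
    intro s x y hxy
    simp only [β]
    have h1 := hαm hxy
    have h2 := s.2.1
    have h3 := s.2.2
    rcases h2.eq_or_lt with h | h
    · rw [← h]; simpa using h1
    · nlinarith [mul_nonneg (sub_nonneg.2 h3) (sub_nonneg.2 h1.le), mul_pos h (sub_pos.2 hxy)]
  let P : C(unitInterval × ℂ, ℂ) := ⟨fun q => cone (fun x => β (q.1, x)) q.2,
    continuous_cone_family hβc hβp⟩
  have hPdef : ∀ s z, P (s, z) = cone (fun x => β (s, x)) z := fun _ _ => rfl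
  obtain ⟨Pi, hPi⟩ := continuous_inv_family P (fun s =>
    cone_homeo (hβc.comp (by fun_prop : Continuous fun x : ℝ => (s, x))) (hβm s) (hβp s))
  refine ⟨P, Pi, fun s z => (hPi s z).1, fun s z => (hPi s z).2, fun z => ?_, fun z => ?_,
    fun s z => ?_⟩
  · rw [hPdef, hα]
    simp [β]
  · rw [hPdef]
    simp only [β, Icc.coe_one, sub_self, zero_mul, one_mul, zero_add]
    exact cone_id z
  · rw [hPdef]
    exact norm_cone _ z

theorem finish_push {S : C(ℂ, ℂ)} (hS : IsHomeo S) (hS0 : S 0 = 0) {A : C(ℂ, ℂ)}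
    (hA : ∀ z, ‖A z‖ = ‖z‖) (hAh : IsHomeo A)
    (hA' : ∀ (r : ℝ) (z : ℂ), 0 < r → A (r * z) = r * A z) {M : C(ℂ, ℂ)} (hM : LiftOf A M)
    (hSA : ∀ z, ‖z‖ = 1 → S z = A z / 2) :
    ∃ P' : C(ℂ, ℂ), IsHomeo P' ∧ (∀ y, 1 ≤ ‖y‖ → P' y = y) ∧
      ∀ z, ‖z‖ ≤ 1 → P' (S z) = z / 2 := by
  obtain ⟨P, Pi, p1, p2, p3, p4, p5⟩ := cone_path_norm hA hAh.injective hA' hM
  obtain ⟨Si, s1, s2⟩ := hS
  obtain ⟨Ai, a1, a2⟩ := hAh
  have h2 : (2 : ℂ) ≠ 0 := two_ne_zero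
  let h : C(ℂ, ℂ) := ⟨fun z => 2 * S z, by fun_prop⟩
  let hi : C(ℂ, ℂ) := ⟨fun z => Si (z / 2), by fun_prop⟩
  have hdef : ∀ z, h z = 2 * S z := fun _ => rfl
  have hidef : ∀ z, hi z = Si (z / 2) := fun _ => rfl
  have i1 : ∀ z, h (hi z) = z := by
    intro z
    rw [hdef, hidef, s1]
    field_simp
  have i2 : ∀ z, hi (h z) = z := by
    intro z
    rw [hdef, hidef, mul_div_cancel_left₀ _ h2, s2]
  have hinj : Function.Injective h := Function.LeftInverse.injective i2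
  have hhA : ∀ z, ‖z‖ = 1 → h z = A z := by
    intro z hz
    rw [hdef, hSA z hz]
    field_simp
  have hn : ∀ u, ‖h u‖ = 1 ↔ ‖u‖ = 1 := by
    intro u
    constructor
    · intro hu
      have e1 : ‖Ai (h u)‖ = 1 := by rw [← hA, a1, hu]
      have e2 := hhA _ e1
      rw [a1] at e2
      rw [← hinj e2]
      exact e1
    · intro hu
      rw [hhA u hu, hA, hu]
  have hD : DiscMap h := discMap_of_homeo (by rw [hdef, hS0, mul_zero]) hn
  have hDi : DiscMap hi := discMap_of_homeo (by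
    rw [hidef, zero_div]
    have := s2 0
    rwa [hS0] at this) (fun u => by rw [← hn, i1])
  have hrc : ∀ {F : ℂ → ℂ}, DiscMap F → Continuous fun z : ℂ => radial F 1 z := by
    intro F hF
    have h := (continuous_radial_family hF).comp (f := fun z : ℂ => ((1 : unitInterval), z))
      (by fun_prop)
    have e : (fun z : ℂ => radial F 1 z) = (fun q : unitInterval × ℂ => radial F q.1 q.2) ∘
        (fun z : ℂ => ((1 : unitInterval), z)) := by
      ext z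
      simp
    rw [e]
    exact h
  let J : C(ℂ, ℂ) := ⟨fun z => radial hi 1 (2 * z) / 2,
    ((hrc hDi).comp (continuous_const.mul continuous_id)).div_const _⟩
  let Ji : C(ℂ, ℂ) := ⟨fun z => radial h 1 (2 * z) / 2,
    ((hrc hD).comp (continuous_const.mul continuous_id)).div_const _⟩
  have hJdef : ∀ z, J z = radial hi 1 (2 * z) / 2 := fun _ => rfl
  have hJidef : ∀ z, Ji z = radial h 1 (2 * z) / 2 := fun _ => rfl
  have j1 : ∀ z, J (Ji z) = z := by
    intro z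
    rw [hJdef, hJidef, mul_div_cancel₀ _ h2, radial_inv hD (fun z _ => i2 z) zero_le_one]
    field_simp
  have j2 : ∀ z, Ji (J z) = z := by
    intro z
    rw [hJdef, hJidef, mul_div_cancel₀ _ h2, radial_inv hDi (fun z _ => i1 z) zero_le_one]
    field_simp
  have hn2 : ∀ z : ℂ, ‖2 * z‖ = 2 * ‖z‖ := fun z => by rw [norm_mul, Complex.norm_ofNat]
  have hJin : ∀ y, ‖y‖ ≤ 1 / 2 → J y = Si y / 2 := by
    intro y hy
    have e1 : max 1 ‖2 * y‖ = 1 := max_eq_left (by rw [hn2]; linarith)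
    rw [hJdef, radial, e1, Complex.ofReal_one, one_mul, div_one, hidef,
      mul_div_cancel_left₀ _ h2]
  have hJin' : ∀ y, ‖y‖ ≤ 1 / 2 → ‖J y‖ ≤ 1 / 2 := by
    intro y hy
    rw [hJin y hy]
    have e1 : Si y = hi (2 * y) := by rw [hidef, mul_div_cancel_left₀ _ h2]
    have e2 : ‖hi (2 * y)‖ ≤ 1 := hDi.le (by rw [hn2]; linarith)
    rw [e1, norm_div, Complex.norm_ofNat]
    linarith
  have hAJ : ∀ y, 1 / 2 ≤ ‖y‖ → A (J y) = y := by
    intro y hy
    have hy0 : ‖y‖ ≠ 0 := by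
      intro hcon
      rw [hcon] at hy
      linarith
    have hy0' : ((‖y‖ : ℝ) : ℂ) ≠ 0 := by exact_mod_cast hy0
    have e1 : max 1 ‖2 * y‖ = 2 * ‖y‖ := by
      rw [hn2]
      exact max_eq_right (by linarith)
    obtain ⟨u, hu⟩ : ∃ u, u = y / ((‖y‖ : ℝ) : ℂ) := ⟨_, rfl⟩
    have hu1 : ‖u‖ = 1 := by
      rw [hu, norm_div, Complex.norm_real, norm_norm, div_self hy0]
    have e2 : J y = ((‖y‖ : ℝ) : ℂ) * hi u := by
      rw [hJdef, radial, e1, hu]
      have e3 : 2 * y / ((2 * ‖y‖ : ℝ) : ℂ) = y / ((‖y‖ : ℝ) : ℂ) := by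
        push_cast
        exact mul_div_mul_left _ _ h2
      rw [e3]
      push_cast
      ring
    have e4 : ‖hi u‖ = 1 := hDi.bdry u hu1
    rw [e2, hA' _ _ (lt_of_le_of_ne (norm_nonneg y) (Ne.symm hy0)), ← hhA _ e4, i1, hu]
    field_simp
  -- the interpolation
  let τ : ℝ → unitInterval := fun x => projIcc 0 1 zero_le_one (2 * x - 1)
  have hτc : Continuous τ := continuous_projIcc.comp (by fun_prop)
  have hτ0 : ∀ x, x ≤ 1 / 2 → τ x = 0 := fun x hx => projIcc_of_le_left _ (by linarith)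
  have hτ1 : ∀ x, 1 ≤ x → τ x = 1 := fun x hx => projIcc_of_right_le _ (by linarith)
  have hPin : ∀ s z, ‖Pi (s, z)‖ = ‖z‖ := fun s z => by rw [← p5 s, p1]
  let R : C(ℂ, ℂ) := ⟨fun z => Pi (τ ‖z‖, z), Pi.continuous.comp
    ((hτc.comp continuous_norm).prodMk continuous_id)⟩
  let Ri : C(ℂ, ℂ) := ⟨fun z => P (τ ‖z‖, z), P.continuous.comp
    ((hτc.comp continuous_norm).prodMk continuous_id)⟩
  have hR : IsHomeo R := by
    refine ⟨Ri, fun z => ?_, fun z => ?_⟩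
    · change Pi (τ ‖P (τ ‖z‖, z)‖, P (τ ‖z‖, z)) = z
      rw [p5, p2]
    · change P (τ ‖Pi (τ ‖z‖, z)‖, Pi (τ ‖z‖, z)) = z
      rw [hPin, p1]
  refine ⟨R.comp (A.comp J), hR.comp (IsHomeo.comp ⟨Ai, a1, a2⟩ ⟨Ji, j1, j2⟩), fun y hy => ?_,
    fun z hz => ?_⟩
  · simp only [ContinuousMap.comp_apply]
    rw [hAJ y (by linarith)]
    change Pi (τ ‖y‖, y) = y
    rw [hτ1 _ hy]
    have := p2 1 y
    rwa [p4] at this
  · simp only [ContinuousMap.comp_apply]
    have e1 : ‖S z‖ ≤ 1 / 2 := by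
      have e2 := hD.le hz
      rw [hdef, hn2] at e2
      linarith
    have e3 : J (S z) = z / 2 := by rw [hJin _ e1, s2]
    rw [e3]
    change Pi (τ ‖A (z / 2)‖, A (z / 2)) = z / 2
    have e4 : ‖A (z / 2)‖ ≤ 1 / 2 := by
      rw [hA, norm_div, Complex.norm_ofNat]
      linarith
    rw [hτ0 _ e4, ← p3, p2]

/-- the fundamental annulus of a homeomorphism which maps the closed unit disc into the open unit
disc can be identified with the standard one -/
theorem exists_P {v : ℂ ≃ₜ ℂ} (hv0 : v 0 = 0) (hvI : IsoId (toC v))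
    (hv : ∀ z, ‖z‖ ≤ 1 → ‖v z‖ < 1) :
    ∃ P : ℂ ≃ₜ ℂ, (∀ y, 1 ≤ ‖y‖ → P y = y) ∧ ∀ z, ‖z‖ ≤ 1 → P (v z) = z / 2 := by
  obtain ⟨φ, ψ, c, F, Fi, Q, Qi, Φ, Φi, hR, -, hc, hder, hφ0, hF, hFi, r1, r2, hQ, hQi, q1, q2,
    p1, p2, hd, hΦ, -⟩ := exists_straight (h := toC v) (hi := toC v.symm)
      (fun x => v.apply_symm_apply x) (fun x => v.symm_apply_apply x) (σ := False)
      (fun h => h.elim)
  have hd' : ∀ z, v z = Φ (Q z) := hd
  have hΦI : IsoId Φ := isoId_of_eq_chart hR (by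
    rw [hder.deriv]
    exact_mod_cast hc.ne') ⟨Φi, p1, p2⟩ hΦ
  have hQI : IsoId Q := by
    have h1 := (hΦI.inv p1).comp hvI
    have e : Φi.comp (toC v) = Q := by
      ext z
      simp only [ContinuousMap.comp_apply, toC_apply]
      rw [hd', p2]
    rwa [e] at h1
  have hQe : slice (radialC F hF) 0 = Q := by
    ext z
    rw [slice_apply, radialC_apply, hQ]
    simp
  have hpath := isHomeo_radial_path hF hFi r1 r2
  obtain ⟨A, hAdef⟩ : ∃ A, A = slice (radialC F hF) 1 := ⟨_, rfl⟩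
  have hAI : IsoId A := by
    rw [hAdef]
    exact IsoId.trans_path _ hpath (by rw [hQe]; exact hQI) 1
  have hAn : ∀ z, ‖A z‖ = ‖z‖ := fun z => by rw [hAdef]; exact radial_one_norm hF z
  have hA0 : A 0 = 0 := by rw [← norm_eq_zero, hAn, norm_zero]
  obtain ⟨M, hM⟩ := isoId_lift hAI hA0
  have hAQ : ∀ u, ‖u‖ = 1 → Q u = A u := by
    intro u hu
    rw [hAdef, hQ, slice_apply, radialC_apply]
    simp only [unitInterval.symm_one, Icc.coe_zero, radial]
    rw [hu, max_self, max_eq_right zero_le_one]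
  have hΦ0 : Φ 0 = 0 := by
    rw [hΦ 0 (by simp), hφ0]
    exact hv0
  have hΦi0 : Φi 0 = 0 := by
    have := p2 0
    rwa [hΦ0] at this
  -- the image of a slightly larger disc
  have hsub : Metric.closedBall (0 : ℂ) 1 ⊆ {z | ‖Φ z‖ < 1} := by
    intro z hz
    rw [mem_closedBall_zero_iff] at hz
    have h1 : Φ z = v (Qi z) := by rw [hd', q1]
    rw [mem_ofPred_eq, h1]
    apply hv
    rw [hQi]
    rcases lt_or_eq_of_le hz with h | h
    · exact (norm_radial_lt hFi h).le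
    · rw [norm_radial_eq hFi h.ge, h]
  obtain ⟨δ, hδ, hδ'⟩ := (isCompact_closedBall (0 : ℂ) 1).exists_cthickening_subset_open
    (isOpen_lt Φ.continuous.norm continuous_const) hsub
  rw [cthickening_closedBall hδ.le zero_le_one] at hδ'
  obtain ⟨b, hb⟩ : ∃ b, b = δ + 1 := ⟨_, rfl⟩
  rw [← hb] at hδ'
  have hb1 : 1 < b := by rw [hb]; linarith
  have hΦb : ∀ z, ‖z‖ ≤ b → ‖Φ z‖ < 1 := fun z hz => hδ' (mem_closedBall_zero_iff.2 hz)
  obtain ⟨t0, ht0, hround⟩ := round_push hR.diff hc hder hΦ hΦ0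
  obtain ⟨t, ht, ht1, ht2, ht3⟩ : ∃ t, 0 < t ∧ t < t0 ∧ t < 1 ∧ 5 / 4 * (c * t) < 1 := by
    refine ⟨min (min (t0 / 2) (1 / 2)) (1 / (2 * c)), by positivity, ?_, ?_, ?_⟩
    · refine ((min_le_left _ _).trans (min_le_left _ _)).trans_lt ?_
      linarith
    · refine ((min_le_left _ _).trans (min_le_right _ _)).trans_lt ?_
      norm_num
    · have h1 : c * min (min (t0 / 2) (1 / 2)) (1 / (2 * c)) ≤ c * (1 / (2 * c)) :=
        mul_le_mul_of_nonneg_left (min_le_right _ _) hc.le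
      have h2 : c * (1 / (2 * c)) = 1 / 2 := by field_simp
      rw [h2] at h1
      linarith
  have hct : 0 < c * t := by positivity
  obtain ⟨K, hK1, hK2, hK3⟩ := hround t ht ht1
  obtain ⟨κ, k1, k2, k3, k4, -⟩ := radial_push (a := t / 2) (b := b) (t1 := 1) (t2 := t)
    (by linarith) (by linarith) hb1 (by linarith) (by linarith)
  obtain ⟨m, hm⟩ : ∃ m, m = min (c * t) (1 / 2) := ⟨_, rfl⟩
  obtain ⟨m', hm'⟩ : ∃ m', m' = max (c * t) (1 / 2) := ⟨_, rfl⟩
  have hm0 : 0 < m := by rw [hm]; positivity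
  have hm1 : m ≤ c * t := by rw [hm]; exact min_le_left _ _
  have hm2 : m ≤ 1 / 2 := by rw [hm]; exact min_le_right _ _
  have hm3 : c * t ≤ m' := by rw [hm']; exact le_max_left _ _
  have hm4 : 1 / 2 ≤ m' := by rw [hm']; exact le_max_right _ _
  have hm5 : m' < 1 := by rw [hm']; exact max_lt (by linarith) (by norm_num)
  obtain ⟨κ', k1', k2', k3', k4', -⟩ := radial_push (a := m / 2) (b := (1 + m') / 2)
    (t1 := c * t) (t2 := 1 / 2) (by linarith) (by linarith) (by linarith) (by linarith)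
    (by linarith)
  obtain ⟨P1, hP1⟩ : ∃ P1 : C(ℂ, ℂ), P1 = Φ.comp ((slice κ 1).comp Φi) := ⟨_, rfl⟩
  have hP1h : IsHomeo P1 := by
    rw [hP1]
    exact IsHomeo.comp ⟨Φi, p1, p2⟩ ((k1 1).comp ⟨Φ, p2, p1⟩)
  have hP1e : ∀ z, P1 z = Φ (κ (1, Φi z)) := fun z => by rw [hP1]; rfl
  have hP1o : ∀ y, 1 ≤ ‖y‖ → P1 y = y := by
    intro y hy
    rw [hP1e, k2, p1]
    rintro ⟨-, h3⟩
    have := hΦb _ h3
    rw [p1] at this
    linarith
  have hP10 : P1 0 = 0 := by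
    rw [hP1e, hΦi0, k2, hΦ0]
    rintro ⟨h3, -⟩
    rw [norm_zero] at h3
    linarith
  have hKo : ∀ y, 1 ≤ ‖y‖ → K y = y := by
    intro y hy
    apply hK2
    rintro ⟨-, h3⟩
    linarith
  have hK0 : K 0 = 0 := by
    apply hK2
    rintro ⟨h3, -⟩
    rw [norm_zero] at h3
    linarith
  have hκo : ∀ y, 1 ≤ ‖y‖ → slice κ' 1 y = y := by
    intro y hy
    apply k2'
    rintro ⟨-, h3⟩
    linarith
  have hκ0 : slice κ' 1 0 = 0 := by
    apply k2'
    rintro ⟨h3, -⟩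
    rw [norm_zero] at h3
    linarith
  obtain ⟨P0, hP0⟩ : ∃ P0 : C(ℂ, ℂ), P0 = (slice κ' 1).comp (K.comp P1) := ⟨_, rfl⟩
  have hP0h : IsHomeo P0 := by
    rw [hP0]
    exact (k1' 1).comp (hK1.comp hP1h)
  have hP0e : ∀ z, P0 z = slice κ' 1 (K (P1 z)) := fun z => by rw [hP0]; rfl
  obtain ⟨P', hP'1, hP'2, hP'3⟩ := finish_push (S := P0.comp (toC v)) (hP0h.comp (isHomeo_toC v))
    (by
      simp only [ContinuousMap.comp_apply, toC_apply]
      rw [hv0, hP0e, hP10, hK0, hκ0]) hAn hAI.isHomeo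
    (fun r z hr => by rw [hAdef]; exact radial_one_hom hF r z hr) hM (fun z hz => by
      simp only [ContinuousMap.comp_apply, toC_apply]
      have e1 : ‖A z‖ = 1 := by rw [hAn, hz]
      have e2 := k4 _ e1
      rw [Complex.ofReal_one, one_mul] at e2
      have e3 := k4' _ e1
      rw [hd', hAQ z hz, hP0e, hP1e, p2, e2, hK3 _ e1, slice_apply, e3]
      push_cast
      ring)
  obtain ⟨T, hT1, hT2⟩ := hP'1.comp hP0h
  refine ⟨⟨⟨P'.comp P0, T, fun z => hT2 z, fun z => hT1 z⟩, (P'.comp P0).continuous,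
    T.continuous⟩, fun y hy => ?_, fun z hz => ?_⟩
  · change P' (P0 y) = y
    rw [hP0e, hP1o y hy, hKo y hy, hκo y hy, hP'2 y hy]
  · exact hP'3 z hz

end Pool.Agent.Helper984_CP
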