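import Pool.Agent.Helper984_CP.ContrClass
import Pool.Agent.Helper984_CP.PushP

/-!
# Commuting pairs of real linear maps, and pairs which are linear to first order
-/

set_option autoImplicit false

open Set Filter Topology Complex ComplexConjugate

noncomputable section

namespace Pool.Agent.Helper984_CP

/-- a real linear map in complex coordinates -/
def linC (α β : ℂ) : C(ℂ, ℂ) := ⟨fun z => α * z + β * conj z, by fun_prop⟩

theorem linC_apply (α β z : ℂ) : linC α β z = α * z + β * conj z := rfl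

theorem linC_homeo {α β : ℂ} (h : normSq α ≠ normSq β) : IsHomeo (linC α β) := by
  have hD : ((normSq α - normSq β : ℝ) : ℂ) ≠ 0 := by
    exact_mod_cast sub_ne_zero.2 h
  have hD' : ((normSq α - normSq β : ℝ) : ℂ) = α * conj α - β * conj β := by
    rw [Complex.mul_conj, Complex.mul_conj]
    push_cast
    ring
  have hc : conj ((normSq α - normSq β : ℝ) : ℂ) = ((normSq α - normSq β : ℝ) : ℂ) :=
    Complex.conj_ofReal _
  refine ⟨⟨fun w => (conj α * w - β * conj w) / ((normSq α - normSq β : ℝ) : ℂ), by fun_prop⟩,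
    fun w => ?_, fun z => ?_⟩
  · change α * ((conj α * w - β * conj w) / _) + β * conj ((conj α * w - β * conj w) / _) = w
    rw [map_div₀, hc, map_sub, map_mul, map_mul, Complex.conj_conj, Complex.conj_conj]
    field_simp
    rw [hD']
    ring
  · change (conj α * (α * z + β * conj z) - β * conj (α * z + β * conj z)) / _ = z
    rw [map_add, map_mul, map_mul, Complex.conj_conj, div_eq_iff hD, hD']
    ring

/-- orientation -/
theorem lin_orient {α β : ℂ} (h : IsoId (linC α β)) : normSq β < normSq α := by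
  have hinj := h.isHomeo.injective
  have h0 : linC α β 0 = 0 := by simp [linC_apply]
  have hker : ∀ z, linC α β z = 0 → z = 0 := fun z hz => hinj (hz.trans h0.symm)
  have hne : normSq α ≠ normSq β := by
    intro he
    have hD : α * conj α - β * conj β = 0 := by
      rw [Complex.mul_conj, Complex.mul_conj, he, sub_self]
    have h1 : conj α - β = 0 := by
      apply hker
      rw [linC_apply, map_sub, Complex.conj_conj]
      linear_combination hD
    have h2 : I * (conj α + β) = 0 := by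
      apply hker
      rw [linC_apply, map_mul, map_add, Complex.conj_conj, Complex.conj_I]
      linear_combination I * hD
    have h3 : conj α + β = 0 := by
      rcases mul_eq_zero.1 h2 with h | h
      · exact (Complex.I_ne_zero h).elim
      · exact h
    have h4 : β = 0 := by linear_combination (1 / 2 : ℂ) * h3 - (1 / 2 : ℂ) * h1
    have h5 : α = 0 := by
      rw [h4, sub_zero] at h1
      exact (map_eq_zero _).1 h1
    have h6 : (1 : ℂ) = 0 := hker 1 (by rw [linC_apply, h4, h5]; simp)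
    exact one_ne_zero h6
  rcases lt_or_gt_of_ne hne with hlt | hgt
  · exfalso
    obtain ⟨M, hM1, hM2⟩ := isoId_lift h h0
    have hβ : β ≠ 0 := fun e => by
      rw [e, map_zero] at hlt
      exact absurd hlt (not_lt.2 (normSq_nonneg α))
    have hab : ‖α / β‖ < 1 := by
      rw [norm_div, div_lt_one (norm_pos_iff.2 hβ)]
      rw [Complex.normSq_eq_norm_sq, Complex.normSq_eq_norm_sq] at hlt
      exact lt_of_pow_lt_pow_left₀ 2 (norm_nonneg _) hlt
    have hsl : ∀ y : ℝ, 1 + α / β * cexp (2 * y * I) ∈ slitPlane := by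
      intro y
      left
      have h1 : ‖α / β * cexp (2 * y * I)‖ < 1 := by
        have e : (2 * y * I : ℂ) = ((2 * y : ℝ) : ℂ) * I := by push_cast; ring
        rw [norm_mul, e, Complex.norm_exp_ofReal_mul_I, mul_one]
        exact hab
      have h2 := (abs_lt.1 ((Complex.abs_re_le_norm _).trans_lt h1)).1
      rw [Complex.add_re, Complex.one_re]
      linarith
    have hr := exp_rigid (A := ℝ) (u := fun y => M (y * I))
      (v := fun y => -(y * I) + Complex.log β + Complex.log (1 + α / β * cexp (2 * y * I)))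
      (by fun_prop) (by
        refine Continuous.add (by fun_prop) ?_
        exact Continuous.clog (by fun_prop) hsl) (fun y => by
        rw [hM2, Complex.exp_add, Complex.exp_add, Complex.exp_log hβ,
          Complex.exp_log (slitPlane_ne_zero (hsl y)), linC_apply, ← Complex.exp_conj, map_mul,
          Complex.conj_ofReal, Complex.conj_I]
        have e : cexp (2 * y * I) = cexp (y * I) * cexp (y * I) := by
          rw [← Complex.exp_add]
          ring_nf
        have e2 : cexp (y * -I) = cexp (-(y * I)) := by ring_nf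
        rw [e, e2]
        have e3 : cexp (-(y * I)) * cexp (y * I) = 1 := by
          rw [← Complex.exp_add, neg_add_cancel, Complex.exp_zero]
        field_simp
        linear_combination (-α * cexp (y * I)) * e3) (2 * Real.pi) 0
    have e1 : cexp (2 * ((2 * Real.pi : ℝ) : ℂ) * I) = cexp (2 * ((0 : ℝ) : ℂ) * I) := by
      have h1 : (2 * ((2 * Real.pi : ℝ) : ℂ) * I) = ((2 : ℤ) : ℂ) * tpi := by
        push_cast
        ring
      rw [h1, exp_int_tpi]
      simp
    have e2 : M (((2 * Real.pi : ℝ) : ℂ) * I) = M (((0 : ℝ) : ℂ) * I) + tpi := by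
      rw [← hM1]
      congr 1
      push_cast
      ring
    rw [e1, e2] at hr
    have e3 : tpi * 2 = 0 := by
      push_cast at hr
      linear_combination hr
    rcases mul_eq_zero.1 e3 with h | h
    · exact tpi_ne h
    · norm_num at h
  · exact hgt

theorem HomK_joined_rev {k : ℤ} (P Q : C(unitInterval × ℂ, ℂ)) (hP : ∀ s, IsHomeo (slice P s))
    (hQ : ∀ s, IsHomeo (slice Q s)) (hc : ∀ s x, P (s, Q (s, x)) = Q (s, P (s, x)))
    (h1 : (slice P 1, slice Q 1) ∈ HomK k) :
    JoinedIn (HomK k) (slice P 1, slice Q 1) (slice P 0, slice Q 0) := by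
  let P' : C(unitInterval × ℂ, ℂ) := ⟨fun q => P (unitInterval.symm q.1, q.2), by fun_prop⟩
  let Q' : C(unitInterval × ℂ, ℂ) := ⟨fun q => Q (unitInterval.symm q.1, q.2), by fun_prop⟩
  have hP' : ∀ s, slice P' s = slice P (unitInterval.symm s) := fun s => rfl
  have hQ' : ∀ s, slice Q' s = slice Q (unitInterval.symm s) := fun s => rfl
  have h := HomK_joined P' Q' (fun s => by rw [hP']; exact hP _) (fun s => by rw [hQ']; exact hQ _)
    (fun s x => hc _ x) (k := k) (by
      rw [hP', hQ', unitInterval.symm_zero]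
      exact h1)
  rwa [hP', hQ', hP', hQ', unitInterval.symm_zero, unitInterval.symm_one] at h

theorem linC_smul (γ δ : ℂ) (a b : ℝ) (x y : ℂ) :
    linC γ δ (a * x + b * y) = a * linC γ δ x + b * linC γ δ y := by
  simp only [linC_apply, map_add, map_mul, Complex.conj_ofReal]
  ring

theorem exists_sign (a : ℝ) : ∃ c : ℝ, (c = 1 ∨ c = -1) ∧ 0 ≤ c * a := by
  rcases le_total 0 a with h | h
  · exact ⟨1, Or.inl rfl, by linarith⟩
  · exact ⟨-1, Or.inr rfl, by linarith⟩

theorem seg_normSq {α β : ℂ} (h : normSq β < normSq α) {c : ℝ} (hc : c = 1 ∨ c = -1)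
    (hca : 0 ≤ c * α.re) {s : ℝ} (h0 : 0 ≤ s) (h1 : s ≤ 1) :
    normSq (((1 - s : ℝ) : ℂ) * β) < normSq (((1 - s : ℝ) : ℂ) * α + ((s * c : ℝ) : ℂ)) := by
  have hc2 : c * c = 1 := by rcases hc with h | h <;> rw [h] <;> norm_num
  rw [Complex.normSq_apply, Complex.normSq_apply] at h
  rw [Complex.normSq_apply, Complex.normSq_apply]
  simp only [Complex.add_re, Complex.add_im, Complex.re_ofReal_mul, Complex.im_ofReal_mul,
    Complex.ofReal_re, Complex.ofReal_im, add_zero]
  have e : ((1 - s) * α.re + s * c) * ((1 - s) * α.re + s * c) + (1 - s) * α.im * ((1 - s) * α.im) -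
      ((1 - s) * β.re * ((1 - s) * β.re) + (1 - s) * β.im * ((1 - s) * β.im)) =
      (1 - s) ^ 2 * ((α.re * α.re + α.im * α.im) - (β.re * β.re + β.im * β.im)) +
      2 * (s * (1 - s) * (c * α.re)) + s ^ 2 := by
    linear_combination s ^ 2 * hc2
  have h2 : 0 ≤ s * (1 - s) * (c * α.re) := mul_nonneg (mul_nonneg h0 (sub_nonneg.2 h1)) hca
  rcases h1.lt_or_eq with h3 | h3
  · have h4 : 0 < (1 - s) ^ 2 * ((α.re * α.re + α.im * α.im) - (β.re * β.re + β.im * β.im)) :=
      mul_pos (pow_pos (sub_pos.2 h3) 2) (sub_pos.2 h)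
    nlinarith [sq_nonneg s]
  · rw [h3] at e h2 ⊢
    nlinarith

/-- commuting pairs of real linear maps are joined to the trivial pair -/
theorem lin_joined {k : ℤ} {α β γ δ : ℂ} (h : (linC α β, linC γ δ) ∈ HomK k) :
    JoinedIn (HomK k) (linC α β, linC γ δ) (ContinuousMap.id ℂ, ContinuousMap.id ℂ) := by
  obtain ⟨hc, hi1, hi2, -⟩ := mem_HomK_iff.1 h
  simp only at hc hi1 hi2
  have o1 := lin_orient hi1
  have o2 := lin_orient hi2
  obtain ⟨c, hc1, hca⟩ := exists_sign α.re
  obtain ⟨d, hd1, hda⟩ := exists_sign γ.re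
  -- first step
  let P : C(unitInterval × ℂ, ℂ) := ⟨fun q => (((1 - (q.1 : ℝ) : ℝ) : ℂ) * α +
    (((q.1 : ℝ) * c : ℝ) : ℂ)) * q.2 + (((1 - (q.1 : ℝ) : ℝ) : ℂ) * β) * conj q.2, by fun_prop⟩
  have hPs : ∀ s, slice P s = linC (((1 - (s : ℝ) : ℝ) : ℂ) * α + (((s : ℝ) * c : ℝ) : ℂ))
      (((1 - (s : ℝ) : ℝ) : ℂ) * β) := fun s => rfl
  have hPe : ∀ s z, P (s, z) = ((1 - (s : ℝ) : ℝ) : ℂ) * linC α β z + (((s : ℝ) * c : ℝ) : ℂ) * z := by
    intro s z
    change (_ * z + _ * conj z : ℂ) = _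
    rw [linC_apply]
    ring
  let Q : C(unitInterval × ℂ, ℂ) := ⟨fun q => linC γ δ q.2, by fun_prop⟩
  have hQs : ∀ s, slice Q s = linC γ δ := fun s => rfl
  have j1 := HomK_joined (k := k) P Q (fun s => by
      rw [hPs]
      exact linC_homeo (seg_normSq o1 hc1 hca s.2.1 s.2.2).ne') (fun s => by
      rw [hQs]
      exact linC_homeo o2.ne') (fun s x => by
      rw [hPe]
      change _ = linC γ δ (P (s, x))
      rw [hPe, linC_smul, ← hc]
      rfl) (by
      have e : slice P 0 = linC α β := by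
        ext z
        rw [slice_apply, hPe]
        simp
      rw [e]
      exact h)
  have e0 : slice P 0 = linC α β := by
    ext z
    rw [slice_apply, hPe]
    simp
  have e1 : slice P 1 = linC ((c : ℝ) : ℂ) 0 := by
    ext z
    rw [slice_apply, hPe]
    simp [linC_apply]
  rw [e0, e1, hQs, hQs] at j1
  -- second step
  let P2 : C(unitInterval × ℂ, ℂ) := ⟨fun q => linC ((c : ℝ) : ℂ) 0 q.2, by fun_prop⟩
  have hP2s : ∀ s, slice P2 s = linC ((c : ℝ) : ℂ) 0 := fun s => rfl
  let Q2 : C(unitInterval × ℂ, ℂ) := ⟨fun q => (((1 - (q.1 : ℝ) : ℝ) : ℂ) * γ +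
    (((q.1 : ℝ) * d : ℝ) : ℂ)) * q.2 + (((1 - (q.1 : ℝ) : ℝ) : ℂ) * δ) * conj q.2, by fun_prop⟩
  have hQ2s : ∀ s, slice Q2 s = linC (((1 - (s : ℝ) : ℝ) : ℂ) * γ + (((s : ℝ) * d : ℝ) : ℂ))
      (((1 - (s : ℝ) : ℝ) : ℂ) * δ) := fun s => rfl
  have hQ2e : ∀ s z, Q2 (s, z) = ((1 - (s : ℝ) : ℝ) : ℂ) * linC γ δ z +
      (((s : ℝ) * d : ℝ) : ℂ) * z := by
    intro s z
    change (_ * z + _ * conj z : ℂ) = _
    rw [linC_apply]
    ring
  have hcn : ∀ c : ℝ, (c = 1 ∨ c = -1) → normSq ((c : ℝ) : ℂ) ≠ normSq 0 := by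
    intro c hc
    rw [Complex.normSq_ofReal, map_zero]
    rcases hc with h | h <;> rw [h] <;> norm_num
  have f0 : slice Q2 0 = linC γ δ := by
    ext z
    rw [slice_apply, hQ2e]
    simp
  have f1 : slice Q2 1 = linC ((d : ℝ) : ℂ) 0 := by
    ext z
    rw [slice_apply, hQ2e]
    simp [linC_apply]
  have j2 := HomK_joined (k := k) P2 Q2 (fun s => linC_homeo (hcn c hc1)) (fun s => by
      rw [hQ2s]
      exact linC_homeo (seg_normSq o2 hd1 hda s.2.1 s.2.2).ne') (fun s x => by
      change linC ((c : ℝ) : ℂ) 0 (Q2 (s, x)) = Q2 (s, linC ((c : ℝ) : ℂ) 0 x)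
      rw [hQ2e, hQ2e]
      simp only [linC_apply, zero_mul, add_zero, map_mul, Complex.conj_ofReal]
      ring) (by
      rw [f0, hP2s]
      exact j1.target_mem)
  rw [f0, f1, hP2s, hP2s] at j2
  -- third step
  have hrot : ∀ c : ℝ, (c = 1 ∨ c = -1) → ∃ θ : ℝ, cexp (θ * I) = c := by
    rintro c (h | h)
    · exact ⟨0, by rw [h]; simp⟩
    · exact ⟨Real.pi, by rw [h, Complex.exp_pi_mul_I]; simp⟩
  obtain ⟨θ, hθ⟩ := hrot c hc1
  obtain ⟨η, hη⟩ := hrot d hd1
  let P3 : C(unitInterval × ℂ, ℂ) := ⟨fun q => cexp (((q.1 : ℝ) * θ : ℝ) * I) * q.2, by fun_prop⟩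
  let Q3 : C(unitInterval × ℂ, ℂ) := ⟨fun q => cexp (((q.1 : ℝ) * η : ℝ) * I) * q.2, by fun_prop⟩
  have hrh : ∀ a : ℝ, IsHomeo ⟨fun z : ℂ => cexp ((a : ℝ) * I) * z, by fun_prop⟩ := by
    intro a
    refine ⟨⟨fun z : ℂ => cexp (-((a : ℝ) * I)) * z, by fun_prop⟩, fun x => ?_, fun x => ?_⟩
    · change cexp ((a : ℝ) * I) * (cexp (-((a : ℝ) * I)) * x) = x
      rw [← mul_assoc, ← Complex.exp_add, add_neg_cancel, Complex.exp_zero, one_mul]
    · change cexp (-((a : ℝ) * I)) * (cexp ((a : ℝ) * I) * x) = x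
      rw [← mul_assoc, ← Complex.exp_add, neg_add_cancel, Complex.exp_zero, one_mul]
  have g1 : slice P3 1 = linC ((c : ℝ) : ℂ) 0 := by
    ext z
    change cexp (((1 : ℝ) * θ : ℝ) * I) * z = _
    rw [one_mul, hθ, linC_apply, zero_mul, add_zero]
  have g1' : slice Q3 1 = linC ((d : ℝ) : ℂ) 0 := by
    ext z
    change cexp (((1 : ℝ) * η : ℝ) * I) * z = _
    rw [one_mul, hη, linC_apply, zero_mul, add_zero]
  have g0 : slice P3 0 = ContinuousMap.id ℂ := by
    ext z
    change cexp (((0 : ℝ) * θ : ℝ) * I) * z = z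
    simp
  have g0' : slice Q3 0 = ContinuousMap.id ℂ := by
    ext z
    change cexp (((0 : ℝ) * η : ℝ) * I) * z = z
    simp
  have j3 := HomK_joined_rev (k := k) P3 Q3 (fun s => hrh ((s : ℝ) * θ)) (fun s => hrh ((s : ℝ) * η)) (fun s x => by
    change cexp _ * (cexp _ * x) = cexp _ * (cexp _ * x)
    ring) (by
      rw [g1, g1']
      exact j2.target_mem)
  rw [g1, g1', g0, g0'] at j3
  exact (j1.trans j2).trans j3

end Pool.Agent.Helper984_CP
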