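import Pool.Agent.Helper984_CP.Meas3

/-!
# Logarithmic bounds for the winding of pairs under bi-Lipschitz maps
-/

set_option autoImplicit false

open Set Filter Topology Complex MeasureTheory

noncomputable section

namespace Pool.Agent.Helper984_CP

/-- one step -/
theorem lip_step {f : C(ℂ, ℂ)} {ℓ : C(Conf, ℂ)} (hℓ : LogDiff f ℓ) {B : Set ℂ}
    (hB : Convex ℝ B) {Λ : ℝ} (hΛ : 1 ≤ Λ) (h1 : ∀ x ∈ B, ∀ y ∈ B, ‖f x - f y‖ ≤ Λ * ‖x - y‖)
    (h2 : ∀ x ∈ B, ∀ y ∈ B, ‖x - y‖ ≤ Λ * ‖f x - f y‖) {x y y' : ℂ} (hx : x ∈ B) (hy : y ∈ B)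
    (hy' : y' ∈ B) (hxy : x ≠ y) (hxy' : x ≠ y')
    (he : y' = x + ((1 + 1 / (2 * Λ ^ 2) : ℝ) : ℂ) * (y - x)) :
    |(ℓ ⟨(x, y'), hxy'⟩).im - (ℓ ⟨(x, y), hxy⟩).im| ≤ 2 * Real.pi := by
  obtain ⟨η, hη⟩ : ∃ η, η = 1 / (2 * Λ ^ 2) := ⟨_, rfl⟩
  have hη0 : 0 < η := by rw [hη]; positivity
  rw [← hη] at he
  have hp : ∀ s : unitInterval, 0 < 1 + (s : ℝ) * η := fun s => by
    have := mul_nonneg s.2.1 hη0.le
    linarith
  let Y : unitInterval → ℂ := fun s => x + ((1 + (s : ℝ) * η : ℝ) : ℂ) * (y - x)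
  have hYne : ∀ s, x ≠ Y s := by
    intro s h
    have h3 : ((1 + (s : ℝ) * η : ℝ) : ℂ) * (y - x) = 0 := by
      have : x = x + ((1 + (s : ℝ) * η : ℝ) : ℂ) * (y - x) := h
      linear_combination -this
    rcases mul_eq_zero.1 h3 with h4 | h4
    · exact (hp s).ne' (by exact_mod_cast h4)
    · exact hxy (sub_eq_zero.1 h4).symm
  have hYB : ∀ s, Y s ∈ B := by
    intro s
    have h3 := hB hy hy' (a := 1 - (s : ℝ)) (b := (s : ℝ)) (by linarith [s.2.2]) s.2.1 (by ring)
    have h4 : Y s = (1 - (s : ℝ)) • y + (s : ℝ) • y' := by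
      rw [he]
      simp only [Complex.real_smul, Y]
      push_cast
      ring
    rw [h4]
    exact h3
  let P : C(unitInterval, Conf) := ⟨fun s => ⟨(x, Y s), hYne s⟩, by fun_prop⟩
  have hc : f x - f y ≠ 0 := by
    intro h
    have := h2 x hx y hy
    rw [h, norm_zero, mul_zero] at this
    exact hxy (sub_eq_zero.1 (norm_le_zero_iff.1 this))
  have hsl : ∀ s, (f x - f (Y s)) / (f x - f y) ∈ slitPlane := by
    intro s
    have h3 : ‖f y - f (Y s)‖ ≤ 1 / 2 * ‖f x - f y‖ := by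
      have e1 := h1 y hy (Y s) (hYB s)
      have e2 : ‖y - Y s‖ = (s : ℝ) * η * ‖x - y‖ := by
        have : y - Y s = (((s : ℝ) * η : ℝ) : ℂ) * (x - y) := by
          simp only [Y]
          push_cast
          ring
        rw [this, norm_mul, Complex.norm_real, Real.norm_of_nonneg (mul_nonneg s.2.1 hη0.le)]
      have e3 := h2 x hx y hy
      have e4 : (s : ℝ) * η ≤ η := by nlinarith [s.2.2]
      have e5 : ‖f y - f (Y s)‖ ≤ Λ * (η * (Λ * ‖f x - f y‖)) := by
        refine e1.trans ?_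
        rw [e2]
        apply mul_le_mul_of_nonneg_left _ (by linarith)
        exact mul_le_mul e4 e3 (norm_nonneg _) hη0.le
      have e6 : Λ * (η * (Λ * ‖f x - f y‖)) = 1 / 2 * ‖f x - f y‖ := by
        rw [hη]
        have : Λ ≠ 0 := by linarith
        field_simp
      linarith
    have h4 : ‖(f x - f (Y s)) / (f x - f y) - 1‖ < 1 := by
      have e1 : (f x - f (Y s)) / (f x - f y) - 1 = (f y - f (Y s)) / (f x - f y) := by
        field_simp
        ring
      rw [e1, norm_div, div_lt_one (norm_pos_iff.2 hc)]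
      have := norm_pos_iff.2 hc
      linarith
    have := Complex.mem_slitPlane_of_norm_lt_one h4
    rwa [add_sub_cancel] at this
  have hsl2 : ∀ s : unitInterval, ((1 + (s : ℝ) * η : ℝ) : ℂ) ∈ slitPlane := fun s =>
    Complex.ofReal_mem_slitPlane.2 (hp s)
  have hr := exp_rigid (A := unitInterval) (u := fun s => ℓ (P s))
    (v := fun s => Complex.log ((f x - f (Y s)) / (f x - f y)) -
      Complex.log ((1 + (s : ℝ) * η : ℝ) : ℂ) + ℓ ⟨(x, y), hxy⟩) (by fun_prop) (by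
        apply Continuous.add _ continuous_const
        apply Continuous.sub
        · apply Continuous.clog
          · fun_prop
          · exact hsl
        · apply Continuous.clog
          · fun_prop
          · exact hsl2) (by
      intro s
      have e1 := hℓ (P s)
      have e2 := hℓ ⟨(x, y), hxy⟩
      have e3 : (P s).1.1 = x := rfl
      have e4 : (P s).1.2 = Y s := rfl
      rw [e3, e4] at e1
      simp only at e2
      rw [Complex.exp_add, Complex.exp_sub, Complex.exp_log (slitPlane_ne_zero (hsl s)),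
        Complex.exp_log (slitPlane_ne_zero (hsl2 s)), ← e1, ← e2]
      have e5 : x - Y s = ((1 + (s : ℝ) * η : ℝ) : ℂ) * (x - y) := by
        simp only [Y]
        ring
      rw [e5]
      have n1 : ((1 + (s : ℝ) * η : ℝ) : ℂ) ≠ 0 := by exact_mod_cast (hp s).ne'
      have n2 : x - y ≠ 0 := sub_ne_zero.2 hxy
      have n3 := Complex.exp_ne_zero (ℓ ⟨(x, y), hxy⟩)
      field_simp) 1 0
  have hP1 : P 1 = ⟨(x, y'), hxy'⟩ := by
    apply Subtype.ext
    change (x, Y 1) = (x, y')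
    rw [he]
    simp only [Y, Icc.coe_one, one_mul]
  have hP0 : P 0 = ⟨(x, y), hxy⟩ := by
    apply Subtype.ext
    change (x, Y 0) = (x, y)
    simp only [Y, Icc.coe_zero, zero_mul, add_zero, Complex.ofReal_one, one_mul]
    congr 1
    ring
  have hY0 : Y 0 = y := congrArg (fun a : Conf => a.1.2) hP0
  simp only [hP1, hP0, hY0, Icc.coe_zero, zero_mul, add_zero, Complex.ofReal_one,
    Complex.log_one, div_self hc, zero_add, sub_self] at hr
  have h5 : ℓ ⟨(x, y'), hxy'⟩ - ℓ ⟨(x, y), hxy⟩ =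
      Complex.log ((f x - f (Y 1)) / (f x - f y)) -
      Complex.log ((1 + ((1 : unitInterval) : ℝ) * η : ℝ) : ℂ) := by
    linear_combination hr
  have h6 := congrArg Complex.im h5
  rw [Complex.sub_im, Complex.sub_im, Complex.log_im, Complex.log_im] at h6
  rw [h6]
  have a1 := Complex.abs_arg_le_pi ((f x - f (Y 1)) / (f x - f y))
  have a2 := Complex.abs_arg_le_pi ((1 + ((1 : unitInterval) : ℝ) * η : ℝ) : ℂ)
  refine (abs_sub _ _).trans ?_
  linarith

theorem compact_bound' (ℓ : C(Conf, ℂ)) {T : Set (ℂ × ℂ)} (hT : IsCompact T)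
    (hne : ∀ q ∈ T, q.1 ≠ q.2) : ∃ C : ℝ, ∀ a : Conf, a.1 ∈ T → |(ℓ a).im| ≤ C := by
  have h := IsCompact.induction_on hT
    (p := fun s => ∃ C : ℝ, ∀ a : Conf, a.1 ∈ s → |(ℓ a).im| ≤ C)
    ⟨0, fun a ha => ha.elim⟩
    (fun s t hst ⟨C, hC⟩ => ⟨C, fun a ha => hC a (hst ha)⟩)
    (fun s t ⟨C, hC⟩ ⟨D, hD⟩ => ⟨max C D, fun a ha => by
      rcases ha with ha | ha
      · exact (hC a ha).trans (le_max_left _ _)
      · exact (hD a ha).trans (le_max_right _ _)⟩) (by
    intro q hq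
    have ho : IsOpen {q : ℂ × ℂ | q.1 ≠ q.2} := isOpen_ne_fun continuous_fst continuous_snd
    let b : Conf := ⟨q, hne q hq⟩
    have hU : {a : Conf | |(ℓ a).im| < |(ℓ b).im| + 1} ∈ 𝓝 b := by
      apply IsOpen.mem_nhds
      · apply isOpen_lt
        · fun_prop
        · exact continuous_const
      · change |(ℓ b).im| < |(ℓ b).im| + 1
        linarith
    refine ⟨Subtype.val '' {a : Conf | |(ℓ a).im| < |(ℓ b).im| + 1},
      mem_nhdsWithin_of_mem_nhds (ho.isOpenEmbedding_subtypeVal.isOpenMap.image_mem_nhds hU),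
      |(ℓ b).im| + 1, ?_⟩
    rintro a ⟨c, hc, hca⟩
    have : c = a := Subtype.ext hca
    rw [← this]
    exact hc.le)
  exact h

/-- the winding grows at most like the number of scales -/
theorem lip_scales {f : C(ℂ, ℂ)} {ℓ : C(Conf, ℂ)} (hℓ : LogDiff f ℓ) {R : ℝ} (hR : 0 < R)
    {Λ : ℝ} (hΛ : 1 ≤ Λ)
    (h1 : ∀ x ∈ Metric.closedBall (0 : ℂ) (3 * R), ∀ y ∈ Metric.closedBall (0 : ℂ) (3 * R),
      ‖f x - f y‖ ≤ Λ * ‖x - y‖)
    (h2 : ∀ x ∈ Metric.closedBall (0 : ℂ) (3 * R), ∀ y ∈ Metric.closedBall (0 : ℂ) (3 * R),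
      ‖x - y‖ ≤ Λ * ‖f x - f y‖) :
    ∃ (C : ℝ) (lam : ℝ), 0 ≤ C ∧ 1 < lam ∧ ∀ (n : ℕ) (a : Conf), ‖a.1.1‖ ≤ R →
      ‖a.1.2 - a.1.1‖ ≤ 2 * R → R ≤ lam ^ n * ‖a.1.2 - a.1.1‖ →
      |(ℓ a).im| ≤ C + 2 * Real.pi * n := by
  obtain ⟨C0, hC0⟩ := compact_bound' ℓ (T := {q : ℂ × ℂ | ‖q.1‖ ≤ R ∧ ‖q.2 - q.1‖ ≤ 2 * R ∧
    R ≤ ‖q.2 - q.1‖}) (by
      have c1 : IsClosed {q : ℂ × ℂ | ‖q.1‖ ≤ R} := isClosed_le (by fun_prop) continuous_const
      have c2 : IsClosed {q : ℂ × ℂ | ‖q.2 - q.1‖ ≤ 2 * R} :=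
        isClosed_le (by fun_prop) continuous_const
      have c3 : IsClosed {q : ℂ × ℂ | R ≤ ‖q.2 - q.1‖} :=
        isClosed_le continuous_const (by fun_prop)
      apply Metric.isCompact_of_isClosed_isBounded
      · exact c1.inter (c2.inter c3)
      · refine (Metric.isBounded_closedBall (x := (0 : ℂ × ℂ)) (r := 3 * R)).subset ?_
        rintro q ⟨e1, e2, -⟩
        rw [mem_closedBall_zero_iff, Prod.norm_def]
        apply max_le
        · linarith
        · have : q.2 = (q.2 - q.1) + q.1 := by ring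
          rw [this]
          exact (norm_add_le _ _).trans (by linarith)) (by
      rintro q ⟨-, -, e3⟩ h
      rw [h, sub_self, norm_zero] at e3
      linarith)
  obtain ⟨lam, hlam⟩ : ∃ lam, lam = 1 + 1 / (2 * Λ ^ 2) := ⟨_, rfl⟩
  have hη : 1 / (2 * Λ ^ 2) ≤ 1 / 2 := by
    apply one_div_le_one_div_of_le (by norm_num)
    nlinarith
  have hη0 : 0 < 1 / (2 * Λ ^ 2) := by positivity
  have hlam1 : 1 < lam := by rw [hlam]; linarith
  have hlam2 : lam ≤ 2 := by rw [hlam]; linarith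
  refine ⟨max C0 0, lam, le_max_right _ _, hlam1, ?_⟩
  intro n
  induction n with
  | zero =>
    intro a e1 e2 e3
    rw [pow_zero, one_mul] at e3
    have := hC0 a ⟨e1, e2, e3⟩
    simp only [Nat.cast_zero, mul_zero, add_zero]
    exact this.trans (le_max_left _ _)
  | succ n ih =>
    intro a e1 e2 e3
    have hpi := Real.pi_pos
    rcases le_or_gt R (lam ^ n * ‖a.1.2 - a.1.1‖) with h | h
    · have := ih a e1 e2 h
      push_cast
      linarith
    · have hpow : 1 ≤ lam ^ n := one_le_pow₀ hlam1.le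
      have e4 : ‖a.1.2 - a.1.1‖ < R := by
        have := norm_nonneg (a.1.2 - a.1.1)
        nlinarith
      obtain ⟨y', hy'⟩ : ∃ y', y' = a.1.1 + (lam : ℂ) * (a.1.2 - a.1.1) := ⟨_, rfl⟩
      have e5 : y' - a.1.1 = (lam : ℂ) * (a.1.2 - a.1.1) := by rw [hy']; ring
      have e6 : ‖y' - a.1.1‖ = lam * ‖a.1.2 - a.1.1‖ := by
        rw [e5, norm_mul, Complex.norm_real, Real.norm_of_nonneg (by linarith)]
      have hne : a.1.1 ≠ y' := by
        intro h5
        rw [← h5, sub_self, norm_zero] at e6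
        have : ‖a.1.2 - a.1.1‖ = 0 := by
          rcases mul_eq_zero.1 e6.symm with h7 | h7
          · linarith
          · exact h7
        exact a.2 (sub_eq_zero.1 (norm_eq_zero.1 this)).symm
      have e7 : ‖y' - a.1.1‖ ≤ 2 * R := by
        rw [e6]
        have := norm_nonneg (a.1.2 - a.1.1)
        nlinarith
      have e8 := ih ⟨(a.1.1, y'), hne⟩ e1 e7 (by
        simp only
        rw [e6, ← mul_assoc, ← pow_succ]
        exact e3)
      have m1 : a.1.1 ∈ Metric.closedBall (0 : ℂ) (3 * R) := by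
        rw [mem_closedBall_zero_iff]; linarith
      have m2 : a.1.2 ∈ Metric.closedBall (0 : ℂ) (3 * R) := by
        rw [mem_closedBall_zero_iff]
        have : a.1.2 = (a.1.2 - a.1.1) + a.1.1 := by ring
        rw [this]
        exact (norm_add_le _ _).trans (by linarith)
      have m3 : y' ∈ Metric.closedBall (0 : ℂ) (3 * R) := by
        rw [mem_closedBall_zero_iff]
        have : y' = (y' - a.1.1) + a.1.1 := by ring
        rw [this]
        exact (norm_add_le _ _).trans (by linarith)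
      have e9 := lip_step hℓ (convex_closedBall (0 : ℂ) (3 * R)) hΛ h1 h2 m1 m2 m3 a.2 hne
        (by rw [hy', hlam])
      have e10 : (ℓ ⟨(a.1.1, a.1.2), a.2⟩).im = (ℓ a).im := rfl
      rw [e10] at e9
      rw [abs_le] at e9 e8 ⊢
      push_cast
      constructor
      · linarith [e9.1, e9.2, e8.1, e8.2]
      · linarith [e9.1, e9.2, e8.1, e8.2]

theorem lip_int {f : C(ℂ, ℂ)} {ℓ : C(Conf, ℂ)} (hℓ : LogDiff f ℓ) {R : ℝ} (hR : 0 < R)
    {Λ : ℝ} (hΛ : 1 ≤ Λ)
    (h1 : ∀ x ∈ Metric.closedBall (0 : ℂ) (3 * R), ∀ y ∈ Metric.closedBall (0 : ℂ) (3 * R),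
      ‖f x - f y‖ ≤ Λ * ‖x - y‖)
    (h2 : ∀ x ∈ Metric.closedBall (0 : ℂ) (3 * R), ∀ y ∈ Metric.closedBall (0 : ℂ) (3 * R),
      ‖x - y‖ ≤ Λ * ‖f x - f y‖) {B : Set ℂ} (hB : MeasurableSet B)
    (hBR : B ⊆ Metric.closedBall 0 R) :
    Integrable (hat fun a => (ℓ a).im)
      (((volume : Measure ℂ).restrict B).prod ((volume : Measure ℂ).restrict B)) := by
  obtain ⟨C, lam, hC, hlam, H⟩ := lip_scales hℓ hR hΛ h1 h2
  obtain ⟨μ, hμ⟩ : ∃ μ : Measure ℂ, μ = (volume : Measure ℂ).restrict B := ⟨_, rfl⟩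
  rw [← hμ]
  have : IsFiniteMeasure μ := ⟨by
    rw [hμ, Measure.restrict_apply_univ]
    exact (measure_mono hBR).trans_lt measure_closedBall_lt_top⟩
  have hpi := Real.pi_pos
  let D : ℕ → Set (ℂ × ℂ) := fun n => {q | lam ^ n * ‖q.2 - q.1‖ < R}
  have hD : ∀ n, MeasurableSet (D n) := fun n =>
    (isOpen_lt (f := fun q : ℂ × ℂ => lam ^ n * ‖q.2 - q.1‖) (g := fun _ => R) (by fun_prop)
      continuous_const).measurableSet
  let G : ℂ × ℂ → ENNReal := fun q => ∑' n, (D n).indicator (fun _ => (1 : ENNReal)) q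
  have hG : ∫⁻ q, G q ∂(μ.prod μ) = ∑' n, (μ.prod μ) (D n) := by
    rw [lintegral_tsum (fun n => (measurable_const.indicator (hD n)).aemeasurable)]
    congr 1
    funext n
    rw [lintegral_indicator_const (hD n), one_mul]
  have hlam0 : 0 < lam := by linarith
  have hDn : ∀ n, (μ.prod μ) (D n) ≤ ENNReal.ofReal (R ^ 2) * ENNReal.ofReal ((1 / lam) ^ 2) ^ n *
      (NNReal.pi * μ univ) := by
    intro n
    rw [Measure.prod_apply (hD n)]
    have hb : ∀ x : ℂ, μ (Prod.mk x ⁻¹' (D n)) ≤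
        ENNReal.ofReal (R ^ 2) * ENNReal.ofReal ((1 / lam) ^ 2) ^ n * NNReal.pi := by
      intro x
      have hpow : 0 < lam ^ n := by positivity
      have e : Prod.mk x ⁻¹' (D n) = Metric.ball x (R / lam ^ n) := by
        ext y
        rw [mem_ball_iff_norm, lt_div_iff₀ hpow, mul_comm]
        rfl
      rw [e, hμ]
      refine (Measure.restrict_apply_le _ _).trans ?_
      rw [Complex.volume_ball]
      apply le_of_eq
      congr 1
      rw [← ENNReal.ofReal_pow (by positivity), ← ENNReal.ofReal_pow (by positivity),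
        ← ENNReal.ofReal_mul (by positivity)]
      congr 1
      rw [div_pow, one_div, inv_pow, inv_pow, ← pow_mul, ← pow_mul, mul_comm 2 n]
      rfl
    refine (lintegral_mono hb).trans ?_
    rw [lintegral_const, mul_assoc]
  have hsum : ∑' n, (μ.prod μ) (D n) < ⊤ := by
    refine (ENNReal.tsum_le_tsum hDn).trans_lt ?_
    rw [ENNReal.tsum_mul_right, ENNReal.tsum_mul_left, ENNReal.tsum_geometric]
    apply ENNReal.mul_lt_top
    · apply ENNReal.mul_lt_top ENNReal.ofReal_lt_top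
      rw [ENNReal.inv_lt_top, tsub_pos_iff_lt, ENNReal.ofReal_lt_one]
      rw [one_div, inv_pow]
      exact inv_lt_one_of_one_lt₀ (one_lt_pow₀ hlam (by norm_num))
    · exact ENNReal.mul_lt_top ENNReal.coe_lt_top (measure_lt_top _ _)
  refine ⟨(measurable_hat ℓ).aestronglyMeasurable, ?_⟩
  have hK' : ∀ᵐ x ∂μ, x ∈ B := by
    rw [hμ]
    exact ae_restrict_mem hB
  have g1 := Measure.quasiMeasurePreserving_fst (μ := μ) (ν := μ) |>.ae hK'
  have g2 := Measure.quasiMeasurePreserving_snd (μ := μ) (ν := μ) |>.ae hK'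
  have hpt : ∀ᵐ q ∂(μ.prod μ), ‖hat (fun a => (ℓ a).im) q‖ₑ ≤
      ENNReal.ofReal C + ENNReal.ofReal (2 * Real.pi) * G q := by
    filter_upwards [g1, g2] with q hq1 hq2
    by_cases hq : q.1 = q.2
    · rw [hat_diag _ hq, enorm_zero]
      exact bot_le
    · rw [hat_of _ ⟨q, hq⟩ rfl, Real.enorm_eq_ofReal_abs]
      have n1 : ‖q.1‖ ≤ R := mem_closedBall_zero_iff.1 (hBR hq1)
      have n2 : ‖q.2‖ ≤ R := mem_closedBall_zero_iff.1 (hBR hq2)
      have n3 : ‖q.2 - q.1‖ ≤ 2 * R := (norm_sub_le _ _).trans (by linarith)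
      have n4 : 0 < ‖q.2 - q.1‖ := norm_pos_iff.2 (sub_ne_zero.2 (Ne.symm hq))
      have hex : ∃ n : ℕ, R ≤ lam ^ n * ‖q.2 - q.1‖ := by
        obtain ⟨n, hn⟩ := pow_unbounded_of_one_lt (R / ‖q.2 - q.1‖) hlam
        refine ⟨n, ?_⟩
        rw [div_lt_iff₀ n4] at hn
        exact hn.le
      classical
      obtain ⟨n, hn1, hn2⟩ : ∃ n : ℕ, R ≤ lam ^ n * ‖q.2 - q.1‖ ∧
          ∀ j < n, ¬ R ≤ lam ^ j * ‖q.2 - q.1‖ :=
        ⟨Nat.find hex, Nat.find_spec hex, fun j hj => Nat.find_min hex hj⟩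
      have h5 := H n ⟨q, hq⟩ n1 n3 hn1
      have h6 : (n : ENNReal) ≤ G q := by
        calc (n : ENNReal) = ∑ j ∈ Finset.range n, (D j).indicator (fun _ => (1 : ENNReal)) q := by
              rw [Finset.sum_congr rfl (g := fun _ => (1 : ENNReal))]
              · simp
              · intro j hj
                rw [indicator_of_mem]
                exact not_le.1 (hn2 j (Finset.mem_range.1 hj))
          _ ≤ G q := ENNReal.sum_le_tsum _
      calc ENNReal.ofReal |(ℓ ⟨q, hq⟩).im| ≤ ENNReal.ofReal (C + 2 * Real.pi * n) :=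
            ENNReal.ofReal_le_ofReal h5
        _ = ENNReal.ofReal C + ENNReal.ofReal (2 * Real.pi) * n := by
            rw [ENNReal.ofReal_add hC (by positivity), ENNReal.ofReal_mul (by positivity),
              ENNReal.ofReal_natCast]
        _ ≤ _ := by gcongr
  refine (lintegral_mono_ae hpt).trans_lt ?_
  rw [lintegral_add_left measurable_const, lintegral_const,
    lintegral_const_mul' _ _ ENNReal.ofReal_ne_top, hG]
  exact ENNReal.add_lt_top.2 ⟨ENNReal.mul_lt_top ENNReal.ofReal_lt_top (measure_lt_top _ _),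
    ENNReal.mul_lt_top ENNReal.ofReal_lt_top hsum⟩

theorem lip_IntAng {f fi : C(ℂ, ℂ)} (i : IsoId f) (hl : ∀ x, fi (f x) = x)
    (hf : LocallyLipschitz f) (hfi : LocallyLipschitz fi) {B : Set ℂ} (hB : MeasurableSet B)
    (hb : Bornology.IsBounded B) : IntAng f ((volume : Measure ℂ).restrict B) := by
  obtain ⟨ℓ, hℓ⟩ := i.exists_logDiff
  obtain ⟨R0, hR0⟩ := hb.subset_closedBall (0 : ℂ)
  obtain ⟨R, hR⟩ : ∃ R, R = max R0 1 := ⟨_, rfl⟩
  have hRpos : 0 < R := by rw [hR]; positivity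
  have hBR : B ⊆ Metric.closedBall 0 R :=
    hR0.trans (Metric.closedBall_subset_closedBall (by rw [hR]; exact le_max_left _ _))
  have hK : IsCompact (Metric.closedBall (0 : ℂ) (3 * R)) := isCompact_closedBall _ _
  obtain ⟨K1, hK1⟩ := (hf.locallyLipschitzOn
    (s := Metric.closedBall (0 : ℂ) (3 * R))).exists_lipschitzOnWith_of_compact hK
  obtain ⟨K2, hK2⟩ := (hfi.locallyLipschitzOn
    (s := f '' Metric.closedBall (0 : ℂ) (3 * R))).exists_lipschitzOnWith_of_compact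
    (hK.image f.continuous)
  obtain ⟨Λ, hΛ⟩ : ∃ Λ : ℝ, Λ = max 1 (max K1 K2) := ⟨_, rfl⟩
  have e1 : (1 : ℝ) ≤ Λ := by rw [hΛ]; exact le_max_left _ _
  have e2 : (K1 : ℝ) ≤ Λ := by rw [hΛ]; exact (le_max_left _ _).trans (le_max_right _ _)
  have e3 : (K2 : ℝ) ≤ Λ := by rw [hΛ]; exact (le_max_right _ _).trans (le_max_right _ _)
  refine ⟨ℓ, hℓ, lip_int hℓ hRpos e1 (fun x hx y hy => ?_) (fun x hx y hy => ?_) hB hBR⟩
  · have := hK1.dist_le_mul x hx y hy
    rw [dist_eq_norm, dist_eq_norm] at this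
    exact this.trans (mul_le_mul_of_nonneg_right e2 (norm_nonneg _))
  · have := hK2.dist_le_mul (f x) (mem_image_of_mem _ hx) (f y) (mem_image_of_mem _ hy)
    rw [dist_eq_norm, dist_eq_norm, hl, hl] at this
    exact this.trans (mul_le_mul_of_nonneg_right e3 (norm_nonneg _))

/-- locally bi-Lipschitz area preserving actions of surface groups with a bounded invariant set of
positive area have Euler number zero -/
theorem euler_lip {L : List IsoPair} (hid : ∀ x, word L 1 x = x)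
    (hlip : ∀ I ∈ L, LocallyLipschitz (fun x => I.F (1, x)) ∧
      LocallyLipschitz (fun x => I.Fi (1, x)) ∧ LocallyLipschitz (fun x => I.G (1, x)) ∧
      LocallyLipschitz (fun x => I.Gi (1, x)))
    (hm : ∀ I ∈ L, MeasurePreserving (fun x => I.F (1, x)) ∧
      MeasurePreserving (fun x => I.G (1, x)))
    {B : Set ℂ} (hB : MeasurableSet B) (hb : Bornology.IsBounded B)
    (hpos : (volume : Measure ℂ) B ≠ 0)
    (hinv : ∀ I ∈ L, (fun x => I.F (1, x)) ⁻¹' B = B ∧ (fun x => I.G (1, x)) ⁻¹' B = B) (k : ℤ) :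
    EulerIs L k ↔ k = 0 := by
  obtain ⟨μ, hμ⟩ : ∃ μ : Measure ℂ, μ = (volume : Measure ℂ).restrict B := ⟨_, rfl⟩
  have : IsFiniteMeasure μ := ⟨by
    rw [hμ, Measure.restrict_apply_univ]
    exact hb.measure_lt_top⟩
  refine euler_int_iff (μ := μ) (fun c => ?_) hid (fun I hI => ?_) (fun I hI => ?_) k
  · rw [hμ, Measure.restrict_apply (measurableSet_singleton c).compl]
    have h1 : (volume : Measure ℂ) B ≤ volume ({c}ᶜ ∩ B) + volume {c} := by
      refine (measure_mono ?_).trans (measure_union_le _ _)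
      intro x hx
      by_cases hxc : x = c
      · exact Or.inr hxc
      · exact Or.inl ⟨hxc, hx⟩
    intro h0
    rw [h0, measure_singleton, add_zero] at h1
    exact hpos (le_antisymm h1 bot_le)
  · rw [hμ]
    have m1 := (hm I hI).1.restrict_preimage hB
    have m2 := (hm I hI).2.restrict_preimage hB
    rw [(hinv I hI).1] at m1
    rw [(hinv I hI).2] at m2
    exact ⟨m1, m2⟩
  · rw [hμ]
    obtain ⟨l1, l2, l3, l4⟩ := hlip I hI
    have i1 : IsoId I.ends.1 := ⟨I.F, I.Fi, fun t ht x => ⟨(I.inv t ht x).1, (I.inv t ht x).2.1⟩,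
      fun x => ⟨(I.zero x).1, rfl⟩⟩
    have i2 : IsoId I.ends.2 := ⟨I.G, I.Gi, fun t ht x => (I.inv t ht x).2.2,
      fun x => ⟨(I.zero x).2, rfl⟩⟩
    exact ⟨lip_IntAng (fi := ⟨fun x => I.Fi (1, x), by fun_prop⟩) i1
      (fun x => (I.inv 1 (by simp) x).2.1) l1 l2 hB hb,
      lip_IntAng (fi := ⟨fun x => I.Gi (1, x), by fun_prop⟩) i2
      (fun x => (I.inv 1 (by simp) x).2.2.2) l3 l4 hB hb⟩

end Pool.Agent.Helper984_CP
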