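import Mathlib

/-!
# Continuous logarithms and the winding cocycle of commuting plane homeomorphisms
-/

set_option autoImplicit false

open Set Filter Topology Complex
open scoped unitInterval

namespace Pool.Agent.Helper984_CP

/-- ordered pairs of distinct points of the plane -/
abbrev Conf : Type := {q : ℂ × ℂ // q.1 ≠ q.2}

theorem isPreconnected_conf : IsPreconnected {q : ℂ × ℂ | q.1 ≠ q.2} := by
  have h1 : IsPreconnected ({0}ᶜ : Set ℂ) :=
    (isConnected_compl_singleton_of_one_lt_rank (by simp) (0 : ℂ)).isPreconnected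
  have h2 : IsPreconnected (({0}ᶜ : Set ℂ) ×ˢ (univ : Set ℂ)) := h1.prod isPreconnected_univ
  have h3 : {q : ℂ × ℂ | q.1 ≠ q.2} = (fun p : ℂ × ℂ => (p.2 + p.1, p.2)) ''
      (({0}ᶜ : Set ℂ) ×ˢ (univ : Set ℂ)) := by
    ext ⟨x, y⟩
    simp only [ne_eq, mem_ofPred_eq, mem_image, mem_prod, mem_compl_iff, mem_singleton_iff,
      mem_univ, and_true, Prod.mk.injEq, Prod.exists]
    constructor
    · intro h
      exact ⟨x - y, y, sub_ne_zero.2 h, by ring, rfl⟩
    · rintro ⟨a, b, ha, h1, h2⟩ h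
      subst h2
      apply ha
      rw [h] at h1
      linear_combination h1
  rw [h3]
  exact h2.image _ (by fun_prop)

instance : PreconnectedSpace Conf := Subtype.preconnectedSpace isPreconnected_conf

/-- continuous logarithm of a family of nonvanishing paths starting at `1` -/
theorem exists_log {A : Type*} [TopologicalSpace A] (H : C(I × A, ℂ)) (hne : ∀ q, H q ≠ 0)
    (h0 : ∀ a, H (0, a) = 1) :
    ∃ L : C(I × A, ℂ), (∀ a, L (0, a) = 0) ∧ ∀ q, cexp (L q) = H q := by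
  let H' : C(I × A, {z : ℂ // z ≠ 0}) := ⟨fun q => ⟨H q, hne q⟩, by fun_prop⟩
  have h0' : ∀ a, H' (0, a) = (fun z : ℂ => (⟨_, z.exp_ne_zero⟩ : {z : ℂ // z ≠ 0}))
      ((0 : C(A, ℂ)) a) := by
    intro a
    apply Subtype.ext
    simp [H', h0]
  refine ⟨isCoveringMap_exp.liftHomotopy H' 0 h0', ?_, ?_⟩
  · intro a
    exact isCoveringMap_exp.liftHomotopy_zero H' 0 h0' a
  · intro q
    have := congr_fun (isCoveringMap_exp.liftHomotopy_lifts H' 0 h0') q
    exact congrArg Subtype.val this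

theorem exp_rigid_on {A : Type*} [TopologicalSpace A] {S : Set A} (hS : IsPreconnected S)
    {u v : A → ℂ} (hu : ContinuousOn u S) (hv : ContinuousOn v S)
    (h : ∀ a ∈ S, cexp (u a) = cexp (v a)) {a b : A} (ha : a ∈ S) (hb : b ∈ S) :
    u a - v a = u b - v b := by
  refine isCoveringMap_exp.constOn_of_comp (g := fun x => u x - v x) hS (hu.sub hv) ?_ ha hb
  intro x hx y hy
  apply Subtype.ext
  simp only [Complex.exp_sub, h x hx, h y hy]
  rw [div_self (Complex.exp_ne_zero _), div_self (Complex.exp_ne_zero _)]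

theorem exp_rigid {A : Type*} [TopologicalSpace A] [PreconnectedSpace A]
    {u v : A → ℂ} (hu : Continuous u) (hv : Continuous v)
    (h : ∀ a, cexp (u a) = cexp (v a)) (a b : A) :
    u a - v a = u b - v b :=
  exp_rigid_on isPreconnected_univ hu.continuousOn hv.continuousOn (fun x _ => h x)
    (mem_univ a) (mem_univ b)

/-- small variation of a continuous logarithm -/
theorem small_var {A : Type*} [TopologicalSpace A] {S : Set A} (hS : IsPreconnected S)
    {v : A → ℂ} (hv : ContinuousOn v S) {b : A} (hb : b ∈ S)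
    (h : ∀ a ∈ S, ‖cexp (v a - v b) - 1‖ ≤ 1 / 2) {a : A} (ha : a ∈ S) :
    ‖v a - v b‖ ≤ 3 / 2 * ‖cexp (v a - v b) - 1‖ := by
  have hslit : ∀ x ∈ S, cexp (v x - v b) ∈ slitPlane := by
    intro x hx
    have h1 := h x hx
    rw [Complex.mem_slitPlane_iff]
    left
    have h2 : |(cexp (v x - v b) - 1).re| ≤ 1 / 2 := (Complex.abs_re_le_norm _).trans h1
    rw [Complex.sub_re, Complex.one_re, abs_le] at h2
    linarith [h2.1]
  have hc : ContinuousOn (fun x => v x - v b) S := hv.sub continuousOn_const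
  have h2 : v a - v b - Complex.log (cexp (v a - v b))
      = v b - v b - Complex.log (cexp (v b - v b)) := by
    refine exp_rigid_on (u := fun x => v x - v b)
      (v := fun x => Complex.log (cexp (v x - v b))) hS hc ?_ ?_ ha hb
    · exact ContinuousOn.clog (Complex.continuous_exp.comp_continuousOn hc) hslit
    · intro x hx
      rw [Complex.exp_log (Complex.exp_ne_zero _)]
  rw [sub_self, Complex.exp_zero, Complex.log_one, sub_zero] at h2
  have h3 : v a - v b = Complex.log (1 + (cexp (v a - v b) - 1)) := by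
    rw [add_sub_cancel]
    linear_combination h2
  calc ‖v a - v b‖ = ‖Complex.log (1 + (cexp (v a - v b) - 1))‖ := by rw [← h3]
    _ ≤ 3 / 2 * ‖cexp (v a - v b) - 1‖ := Complex.norm_log_one_add_half_le_self (h a ha)

/-- `ℓ` is a continuous logarithm of the difference quotient of `f` -/
def LogDiff (f : ℂ → ℂ) (ℓ : C(Conf, ℂ)) : Prop :=
  ∀ a : Conf, cexp (ℓ a) * (a.1.1 - a.1.2) = f a.1.1 - f a.1.2

theorem LogDiff.inj {f : ℂ → ℂ} {ℓ : C(Conf, ℂ)} (h : LogDiff f ℓ) : Function.Injective f := by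
  intro x y hxy
  by_contra hne
  have := h ⟨(x, y), hne⟩
  simp only [hxy, sub_self, mul_eq_zero, Complex.exp_ne_zero, false_or] at this
  exact hne (sub_eq_zero.1 this)

/-- `f` is isotopic to the identity through homeomorphisms -/
def IsoId (f : C(ℂ, ℂ)) : Prop :=
  ∃ F Fi : C(ℝ × ℂ, ℂ), (∀ t ∈ Icc (0 : ℝ) 1, ∀ x : ℂ, F (t, Fi (t, x)) = x ∧
    Fi (t, F (t, x)) = x) ∧ ∀ x : ℂ, F (0, x) = x ∧ F (1, x) = f x

theorem exists_wind (F Fi : C(ℝ × ℂ, ℂ)) (h : ∀ t ∈ Icc (0 : ℝ) 1, ∀ x : ℂ,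
    F (t, Fi (t, x)) = x ∧ Fi (t, F (t, x)) = x) (h0 : ∀ x, F (0, x) = x) :
    ∃ L : C(I × Conf, ℂ), (∀ a, L (0, a) = 0) ∧ ∀ (t : I) (a : Conf),
      cexp (L (t, a)) * (a.1.1 - a.1.2) = F (t, a.1.1) - F (t, a.1.2) := by
  have hne' : ∀ a : Conf, a.1.1 - a.1.2 ≠ 0 := fun a => sub_ne_zero.2 a.2
  let H : C(I × Conf, ℂ) := ⟨fun q => (F ((q.1 : ℝ), q.2.1.1) - F ((q.1 : ℝ), q.2.1.2)) /
    (q.2.1.1 - q.2.1.2), by
      apply Continuous.div
      · fun_prop
      · fun_prop
      · intro q; exact hne' q.2⟩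
  have hH : ∀ q, H q = (F ((q.1 : ℝ), q.2.1.1) - F ((q.1 : ℝ), q.2.1.2)) /
    (q.2.1.1 - q.2.1.2) := fun q => rfl
  obtain ⟨L, hL0, hL⟩ := exists_log H (by
    intro q
    rw [hH]
    apply div_ne_zero _ (hne' q.2)
    intro h1
    have h2 := sub_eq_zero.1 h1
    have h3 := congrArg (fun y => Fi ((q.1 : ℝ), y)) h2
    simp only [(h _ q.1.2 _).2] at h3
    exact q.2.2 h3) (by
    intro a
    rw [hH]
    simp only [Icc.coe_zero, h0]
    exact div_self (hne' a))
  refine ⟨L, hL0, fun t a => ?_⟩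
  rw [hL, hH]
  exact div_mul_cancel₀ _ (hne' a)

theorem IsoId.exists_logDiff {f : C(ℂ, ℂ)} (h : IsoId f) : ∃ ℓ : C(Conf, ℂ), LogDiff f ℓ := by
  obtain ⟨F, Fi, h1, h2⟩ := h
  obtain ⟨L, -, hL⟩ := exists_wind F Fi h1 (fun x => (h2 x).1)
  refine ⟨⟨fun a => L (1, a), by fun_prop⟩, fun a => ?_⟩
  have := hL 1 a
  simp only [Icc.coe_one, (h2 _).2] at this
  exact this

end Pool.Agent.Helper984_CP
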