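import Pool.Agent.Helper984_CP.AP8

/-!
# Invariant measures
-/

set_option autoImplicit false

open Set Filter Topology Complex MeasureTheory

noncomputable section

namespace Pool.Agent.Helper984_CP

theorem mp_inv {μ : Measure ℂ} {F : ℂ ≃ₜ ℂ} (h : MeasurePreserving F μ μ) :
    MeasurePreserving (F⁻¹ : ℂ ≃ₜ ℂ) μ μ :=
  MeasurePreserving.symm F.toMeasurableEquiv h

theorem mp_pow {μ : Measure ℂ} {F : ℂ ≃ₜ ℂ} (h : MeasurePreserving F μ μ) (n : ℕ) :
    MeasurePreserving (F ^ n : ℂ ≃ₜ ℂ) μ μ := by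
  induction n with
  | zero =>
    rw [pow_zero]
    exact MeasurePreserving.id μ
  | succ n ih =>
    rw [pow_succ]
    exact ih.comp h

theorem mp_zpow {μ : Measure ℂ} {F : ℂ ≃ₜ ℂ} (h : MeasurePreserving F μ μ) (n : ℤ) :
    MeasurePreserving (F ^ n : ℂ ≃ₜ ℂ) μ μ := by
  cases n with
  | ofNat n =>
    rw [Int.ofNat_eq_natCast, zpow_natCast]
    exact mp_pow h n
  | negSucc n =>
    rw [zpow_negSucc]
    exact mp_inv (mp_pow h (n + 1))

/-- a locally finite measure which is invariant under a contraction is an atom -/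
theorem contraction_measure {μ : Measure ℂ} [IsLocallyFiniteMeasure μ] {u H : ℂ ≃ₜ ℂ}
    (hu : MeasurePreserving u μ μ) (hH : ∀ z, u (H z) = H (z / 2)) : μ {H 0}ᶜ = 0 := by
  have hstep : ∀ r : ℝ, μ (H '' Metric.closedBall 0 r \ H '' Metric.closedBall 0 (r / 2)) = 0 := by
    intro r
    have e1 : u '' (H '' Metric.closedBall 0 r) = H '' Metric.closedBall 0 (r / 2) := by
      rw [image_image]
      ext y
      constructor
      · rintro ⟨z, hz, rfl⟩
        refine ⟨z / 2, ?_, (hH z).symm⟩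
        rw [mem_closedBall_zero_iff] at hz ⊢
        rw [norm_div, Complex.norm_ofNat]
        linarith
      · rintro ⟨z, hz, rfl⟩
        refine ⟨2 * z, ?_, ?_⟩
        · rw [mem_closedBall_zero_iff] at hz ⊢
          rw [norm_mul, Complex.norm_ofNat]
          linarith
        · simp only
          rw [hH]
          congr 1
          ring
    have e2 : μ (u '' (H '' Metric.closedBall 0 r)) = μ (H '' Metric.closedBall 0 r) := by
      have h1 := (mp_inv hu).measure_preimage_emb (u⁻¹ : ℂ ≃ₜ ℂ).measurableEmbedding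
        (H '' Metric.closedBall 0 r)
      rw [← h1]
      congr 1
      ext y
      constructor
      · rintro ⟨x, hx, rfl⟩
        rw [mem_preimage, inv_apply_self']
        exact hx
      · intro hy
        exact ⟨(u⁻¹ : ℂ ≃ₜ ℂ) y, hy, apply_inv_self' u y⟩
    have hc : IsCompact (H '' Metric.closedBall 0 (r / 2)) :=
      (isCompact_closedBall 0 (r / 2)).image H.continuous
    have hsub : H '' Metric.closedBall 0 (r / 2) ⊆ H '' Metric.closedBall 0 r ∨ r < 0 := by
      rcases le_or_gt 0 r with h | h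
      · exact Or.inl (image_mono (Metric.closedBall_subset_closedBall (by linarith)))
      · exact Or.inr h
    rcases hsub with hsub | hr
    · rw [measure_sdiff hsub hc.measurableSet.nullMeasurableSet hc.measure_lt_top.ne, ← e1, e2,
        tsub_self]
    · rw [Metric.closedBall_eq_empty.2 hr]
      simp
  have hcov : ({H 0}ᶜ : Set ℂ) ⊆ ⋃ n : ℤ, (H '' Metric.closedBall 0 ((2 : ℝ) ^ (n + 1)) \
      H '' Metric.closedBall 0 ((2 : ℝ) ^ (n + 1) / 2)) := by
    intro y hy
    obtain ⟨w, rfl⟩ := H.surjective y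
    have hw : w ≠ 0 := by
      rintro rfl
      exact hy rfl
    obtain ⟨n, hn⟩ := exists_mem_Ioc_zpow (norm_pos_iff.2 hw) (one_lt_two)
    refine mem_iUnion.2 ⟨n, ⟨w, ?_, rfl⟩, ?_⟩
    · rw [mem_closedBall_zero_iff]
      exact hn.2
    · rintro ⟨v, hv, hvw⟩
      rw [H.injective hvw, mem_closedBall_zero_iff, zpow_add_one₀ (by norm_num)] at hv
      have := hn.1
      linarith
  exact measure_mono_null hcov (measure_iUnion_null fun n => hstep _)

/-- a pair with nonzero Euler number preserves only atomic measures -/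
theorem euler_measure {k : ℤ} {p : C(ℂ, ℂ) × C(ℂ, ℂ)} (hp : p ∈ HomK k) (μ : Measure ℂ)
    [IsLocallyFiniteMeasure μ] (h1 : MeasurePreserving p.1 μ μ) (h2 : MeasurePreserving p.2 μ μ)
    (hμ : ∀ c : ℂ, μ {c}ᶜ ≠ 0) : k = 0 := by
  by_contra hk
  obtain ⟨F, G, e⟩ := exists_homeos ⟨p, hp⟩
  simp only at e
  rw [e] at hp h1 h2
  obtain ⟨a, b, -, H, hH⟩ := hasC_all hp hk
  have hF : MeasurePreserving F μ μ := h1
  have hG : MeasurePreserving G μ μ := h2
  have hu : MeasurePreserving (F ^ a * G ^ b : ℂ ≃ₜ ℂ) μ μ := (mp_zpow hF a).comp (mp_zpow hG b)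
  exact hμ (H 0) (contraction_measure hu hH)

end Pool.Agent.Helper984_CP
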