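import Pool.Agent.Helper984_CP.Diff1

/-!
# Mean rotation of pairs, and Euler numbers of surface group actions
-/

set_option autoImplicit false

open Set Filter Topology Complex MeasureTheory

noncomputable section

namespace Pool.Agent.Helper984_CP

theorem IsoPair.comm_formula (I : IsoPair) {ℓf ℓg : C(Conf, ℂ)} (hf : LogDiff I.ends.1 ℓf)
    (hg : LogDiff I.ends.2 ℓg) :
    ∃ V : C(unitInterval × Conf, ℂ), (∀ a, V (0, a) = 0) ∧
      (∀ (t : unitInterval) (a : Conf),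
        cexp (V (t, a)) * (a.1.1 - a.1.2) = I.comm t a.1.1 - I.comm t a.1.2) ∧
      ∀ a : Conf, ∃ P Q R : Conf,
        P.1 = (I.Fi (1, I.Gi (1, a.1.1)), I.Fi (1, I.Gi (1, a.1.2))) ∧
        Q.1 = (I.G (1, I.Fi (1, I.Gi (1, a.1.1))), I.G (1, I.Fi (1, I.Gi (1, a.1.2)))) ∧
        R.1 = (I.Gi (1, a.1.1), I.Gi (1, a.1.2)) ∧
        V (1, a) = ℓf Q + ℓg P - ℓg R - ℓf P := by
  obtain ⟨V, hV0, hV⟩ := I.exists_wind
  obtain ⟨LF, hLF0, hLF⟩ := Pool.Agent.Helper984_CP.exists_wind I.F I.Fi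
    (fun t ht x => ⟨(I.inv t ht x).1, (I.inv t ht x).2.1⟩) (fun x => (I.zero x).1)
  obtain ⟨LG, hLG0, hLG⟩ := Pool.Agent.Helper984_CP.exists_wind I.G I.Gi
    (fun t ht x => (I.inv t ht x).2.2) (fun x => (I.zero x).2)
  refine ⟨V, hV0, hV, fun a => ?_⟩
  have Finj : ∀ (t : unitInterval) (x y : ℂ), I.F (t, x) = I.F (t, y) → x = y := by
    intro t x y h
    have := congrArg (fun z => I.Fi ((t : ℝ), z)) h
    simpa only [(I.inv t t.2 _).2.1] using this
  have Ginj : ∀ (t : unitInterval) (x y : ℂ), I.G (t, x) = I.G (t, y) → x = y := by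
    intro t x y h
    have := congrArg (fun z => I.Gi ((t : ℝ), z)) h
    simpa only [(I.inv t t.2 _).2.2.2] using this
  have Fiinj : ∀ (t : unitInterval) (x y : ℂ), I.Fi (t, x) = I.Fi (t, y) → x = y := by
    intro t x y h
    have := congrArg (fun z => I.F ((t : ℝ), z)) h
    simpa only [(I.inv t t.2 _).1] using this
  have Giinj : ∀ (t : unitInterval) (x y : ℂ), I.Gi (t, x) = I.Gi (t, y) → x = y := by
    intro t x y h
    have := congrArg (fun z => I.G ((t : ℝ), z)) h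
    simpa only [(I.inv t t.2 _).2.2.1] using this
  let P : C(unitInterval, Conf) := ⟨fun t => ⟨(I.Fi (t, I.Gi (t, a.1.1)), I.Fi (t, I.Gi (t, a.1.2))),
    fun h => a.2 (Giinj t _ _ (Fiinj t _ _ h))⟩, by fun_prop⟩
  let Q : C(unitInterval, Conf) := ⟨fun t => ⟨(I.G (t, I.Fi (t, I.Gi (t, a.1.1))),
    I.G (t, I.Fi (t, I.Gi (t, a.1.2)))), fun h =>
    a.2 (Giinj t _ _ (Fiinj t _ _ (Ginj t _ _ h)))⟩, by fun_prop⟩
  let R : C(unitInterval, Conf) := ⟨fun t => ⟨(I.Gi (t, a.1.1), I.Gi (t, a.1.2)), fun h =>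
    a.2 (Giinj t _ _ h)⟩, by fun_prop⟩
  let E : C(unitInterval, ℂ) := ⟨fun t => LF (t, Q t) + LG (t, P t) - LG (t, R t) - LF (t, P t), by
    fun_prop⟩
  have hE : ∀ t, E t = LF (t, Q t) + LG (t, P t) - LG (t, R t) - LF (t, P t) := fun t => rfl
  have hexp : ∀ t : unitInterval, cexp (E t) * (a.1.1 - a.1.2) =
        I.comm t a.1.1 - I.comm t a.1.2 := by
    intro t
    have h1 := hLF t (Q t)
    have h2 := hLG t (P t)
    have h3 := hLG t (R t)
    have h4 := hLF t (P t)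
    have hP1 : (P t).1.1 = I.Fi (t, I.Gi (t, a.1.1)) := rfl
    have hP2 : (P t).1.2 = I.Fi (t, I.Gi (t, a.1.2)) := rfl
    have hQ1 : (Q t).1.1 = I.G (t, I.Fi (t, I.Gi (t, a.1.1))) := rfl
    have hQ2 : (Q t).1.2 = I.G (t, I.Fi (t, I.Gi (t, a.1.2))) := rfl
    have hR1 : (R t).1.1 = I.Gi (t, a.1.1) := rfl
    have hR2 : (R t).1.2 = I.Gi (t, a.1.2) := rfl
    rw [hQ1, hQ2] at h1
    rw [hP1, hP2] at h2
    rw [hR1, hR2, (I.inv t t.2 _).2.2.1, (I.inv t t.2 _).2.2.1] at h3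
    rw [hP1, hP2, (I.inv t t.2 _).1, (I.inv t t.2 _).1] at h4
    have hR : I.Gi (t, a.1.1) - I.Gi (t, a.1.2) ≠ 0 := sub_ne_zero.2 (R t).2
    have hPn : I.Fi (t, I.Gi (t, a.1.1)) - I.Fi (t, I.Gi (t, a.1.2)) ≠ 0 := sub_ne_zero.2 (P t).2
    rw [hE, Complex.exp_sub, Complex.exp_sub, Complex.exp_add]
    change _ = I.F (t, I.G (t, I.Fi (t, I.Gi (t, a.1.1)))) -
      I.F (t, I.G (t, I.Fi (t, I.Gi (t, a.1.2))))
    rw [← h1, ← h2, ← h3, ← h4]
    have n1 := Complex.exp_ne_zero (LG (t, R t))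
    have n2 := Complex.exp_ne_zero (LF (t, P t))
    field_simp
  have hV1 : V (1, a) = E 1 := by
    have h1 := exp_rigid (A := unitInterval) (u := fun t => V (t, a)) (v := fun t => E t)
      (by fun_prop) (by fun_prop) (fun t => by
        have h2 := hV t a
        rw [← hexp t] at h2
        exact mul_right_cancel₀ (sub_ne_zero.2 a.2) h2) 1 0
    have hE0 : E 0 = 0 := by
      rw [hE]
      simp [hLF0, hLG0]
    rw [hV0, hE0, sub_self] at h1
    exact sub_eq_zero.1 h1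
  have hf1 : LogDiff I.ends.1 ⟨fun a => LF (1, a), by fun_prop⟩ := by
    intro b
    have := hLF 1 b
    rw [Icc.coe_one] at this
    exact this
  have hg1 : LogDiff I.ends.2 ⟨fun a => LG (1, a), by fun_prop⟩ := by
    intro b
    have := hLG 1 b
    rw [Icc.coe_one] at this
    exact this
  refine ⟨P 1, Q 1, R 1, ?_, ?_, ?_, ?_⟩
  · change (I.Fi (((1 : unitInterval) : ℝ), I.Gi (((1 : unitInterval) : ℝ), a.1.1)),
      I.Fi (((1 : unitInterval) : ℝ), I.Gi (((1 : unitInterval) : ℝ), a.1.2))) = _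
    rw [Icc.coe_one]
  · change (I.G (((1 : unitInterval) : ℝ), I.Fi (((1 : unitInterval) : ℝ),
      I.Gi (((1 : unitInterval) : ℝ), a.1.1))), I.G (((1 : unitInterval) : ℝ),
      I.Fi (((1 : unitInterval) : ℝ), I.Gi (((1 : unitInterval) : ℝ), a.1.2)))) = _
    rw [Icc.coe_one]
  · change (I.Gi (((1 : unitInterval) : ℝ), a.1.1), I.Gi (((1 : unitInterval) : ℝ), a.1.2)) = _
    rw [Icc.coe_one]
  · rw [hV1, hE]
    have e1 := hf1.rigid hf (Q 1) (P 1)
    have e2 := hg1.rigid hg (P 1) (R 1)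
    simp only [ContinuousMap.coe_mk] at e1 e2
    linear_combination e1 + e2

open Classical in
/-- extension by zero to the diagonal -/
def hat (u : Conf → ℝ) (q : ℂ × ℂ) : ℝ := if h : q.1 ≠ q.2 then u ⟨q, h⟩ else 0

theorem hat_of (u : Conf → ℝ) {q : ℂ × ℂ} (a : Conf) (h : a.1 = q) : hat u q = u a := by
  subst h
  rw [hat, dif_pos a.2]

theorem hat_diag (u : Conf → ℝ) {q : ℂ × ℂ} (h : q.1 = q.2) : hat u q = 0 := by
  rw [hat, dif_neg (not_not.2 h)]

theorem measurable_hat (ℓ : C(Conf, ℂ)) : Measurable (hat fun a => (ℓ a).im) := by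
  have hs : MeasurableSet {q : ℂ × ℂ | q.1 ≠ q.2} :=
    (isOpen_ne_fun continuous_fst continuous_snd).measurableSet
  have hf : Measurable fun a : {q : ℂ × ℂ | q.1 ≠ q.2} => (ℓ ⟨a.1, a.2⟩).im := by
    apply Continuous.measurable
    exact Complex.continuous_im.comp (ℓ.continuous.comp (continuous_subtype_val.subtype_mk _))
  unfold hat
  exact Measurable.dite (s := {q : ℂ × ℂ | q.1 ≠ q.2}) hf measurable_const hs

theorem hat_integrable {μ : Measure ℂ} [IsFiniteMeasure μ] {K : Set ℂ} (hμK : μ Kᶜ = 0)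
    (ℓ : C(Conf, ℂ)) {C : ℝ} (hC0 : 0 ≤ C)
    (hC : ∀ a : Conf, a.1.1 ∈ K → a.1.2 ∈ K → |(ℓ a).im| ≤ C) :
    Integrable (hat fun a => (ℓ a).im) (μ.prod μ) := by
  have hK' : ∀ᵐ x ∂μ, x ∈ K := by
    rw [ae_iff]
    exact hμK
  have h1 := Measure.quasiMeasurePreserving_fst (μ := μ) (ν := μ) |>.ae hK'
  have h2 := Measure.quasiMeasurePreserving_snd (μ := μ) (ν := μ) |>.ae hK'
  refine Integrable.of_bound (measurable_hat ℓ).aestronglyMeasurable C ?_
  filter_upwards [h1, h2] with q hq1 hq2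
  by_cases hq : q.1 = q.2
  · rw [hat_diag _ hq, norm_zero]
    exact hC0
  · rw [hat_of _ ⟨q, hq⟩ rfl, Real.norm_eq_abs]
    exact hC ⟨q, hq⟩ hq1 hq2

theorem mp_int {ν : Measure (ℂ × ℂ)} {h : ℂ × ℂ → ℂ × ℂ} (hh : MeasurePreserving h ν ν)
    {g : ℂ × ℂ → ℝ} (hg : Integrable g ν) :
    Integrable (fun q => g (h q)) ν ∧ ∫ q, g (h q) ∂ν = ∫ q, g q ∂ν := by
  refine ⟨(hh.integrable_comp hg.aestronglyMeasurable).2 hg, ?_⟩
  have h1 : AEStronglyMeasurable g (Measure.map h ν) := by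
    rw [hh.map_eq]
    exact hg.aestronglyMeasurable
  rw [← integral_map hh.measurable.aemeasurable h1, hh.map_eq]

theorem int4 {ν : Measure (ℂ × ℂ)} {u1 u2 u3 u4 : ℂ × ℂ → ℝ} (h1 : Integrable u1 ν)
    (h2 : Integrable u2 ν) (h3 : Integrable u3 ν) (h4 : Integrable u4 ν) :
    Integrable (fun q => u1 q + u2 q - u3 q - u4 q) ν ∧
    ∫ q, (u1 q + u2 q - u3 q - u4 q) ∂ν = ∫ q, u1 q ∂ν + ∫ q, u2 q ∂ν - ∫ q, u3 q ∂ν -
      ∫ q, u4 q ∂ν := by
  refine ⟨((h1.add h2).sub h3).sub h4, ?_⟩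
  rw [integral_sub (f := fun q => u1 q + u2 q - u3 q) (g := u4) ((h1.add h2).sub h3) h4,
    integral_sub (f := fun q => u1 q + u2 q) (g := u3) (h1.add h2) h3, integral_add h1 h2]

/-- `f` is strictly differentiable with positive Jacobian determinant at the points of `K` -/
def PosC1 (f : ℂ → ℂ) (K : Set ℂ) : Prop :=
  ∀ x ∈ K, ∃ A : ℂ →L[ℝ] ℂ, HasStrictFDerivAt f A x ∧ 0 < jac A

theorem IsoPair.hat_zero (I : IsoPair) {μ : Measure ℂ} [IsFiniteMeasure μ] {K : Set ℂ}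
    (hK : IsCompact K) (hμK : μ Kᶜ = 0)
    (m1 : MeasurePreserving (fun x => I.F (1, x)) μ μ)
    (m2 : MeasurePreserving (fun x => I.G (1, x)) μ μ)
    (d1 : PosC1 (fun x => I.F (1, x)) K) (d2 : PosC1 (fun x => I.G (1, x)) K) :
    MeasurePreserving (I.comm 1) μ μ ∧
    ∃ V : C(unitInterval × Conf, ℂ), (∀ a, V (0, a) = 0) ∧
      (∀ (t : unitInterval) (a : Conf),
        cexp (V (t, a)) * (a.1.1 - a.1.2) = I.comm t a.1.1 - I.comm t a.1.2) ∧
      Integrable (hat fun a => (V (1, a)).im) (μ.prod μ) ∧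
      ∫ q, hat (fun a => (V (1, a)).im) q ∂(μ.prod μ) = 0 := by
  have i1 : IsoId I.ends.1 := ⟨I.F, I.Fi, fun t ht x => ⟨(I.inv t ht x).1, (I.inv t ht x).2.1⟩,
    fun x => ⟨(I.zero x).1, rfl⟩⟩
  have i2 : IsoId I.ends.2 := ⟨I.G, I.Gi, fun t ht x => (I.inv t ht x).2.2,
    fun x => ⟨(I.zero x).2, rfl⟩⟩
  obtain ⟨ℓf, hf⟩ := i1.exists_logDiff
  obtain ⟨ℓg, hg⟩ := i2.exists_logDiff
  obtain ⟨V, hV0, hV, hV1⟩ := I.comm_formula hf hg
  obtain ⟨C1, hC1⟩ := compact_bound hf hK d1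
  obtain ⟨C2, hC2⟩ := compact_bound hg hK d2
  have if' := hat_integrable hμK ℓf (C := max C1 0) (le_max_right _ _)
    (fun a h1 h2 => (hC1 a h1 h2).trans (le_max_left _ _))
  have ig' := hat_integrable hμK ℓg (C := max C2 0) (le_max_right _ _)
    (fun a h1 h2 => (hC2 a h1 h2).trans (le_max_left _ _))
  have one : (1 : ℝ) ∈ Set.Icc (0 : ℝ) 1 := by simp
  let Φ : ℂ ≃ₜ ℂ := ⟨⟨fun x => I.F (1, x), fun x => I.Fi (1, x), fun x => (I.inv 1 one x).2.1,
    fun x => (I.inv 1 one x).1⟩, by fun_prop, by fun_prop⟩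
  let Ψ : ℂ ≃ₜ ℂ := ⟨⟨fun x => I.G (1, x), fun x => I.Gi (1, x), fun x => (I.inv 1 one x).2.2.2,
    fun x => (I.inv 1 one x).2.2.1⟩, by fun_prop, by fun_prop⟩
  have n1 : MeasurePreserving (fun x => I.Fi (1, x)) μ μ := mp_inv (F := Φ) m1
  have n2 : MeasurePreserving (fun x => I.Gi (1, x)) μ μ := mp_inv (F := Ψ) m2
  have nP : MeasurePreserving (fun x => I.Fi (1, I.Gi (1, x))) μ μ := n1.comp n2
  have nQ : MeasurePreserving (fun x => I.G (1, I.Fi (1, I.Gi (1, x)))) μ μ := m2.comp nP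
  have nC : MeasurePreserving (I.comm 1) μ μ := m1.comp nQ
  have pP := nP.prod nP
  have pQ := nQ.prod nQ
  have pR := n2.prod n2
  obtain ⟨a1, b1⟩ := mp_int pQ if'
  obtain ⟨a2, b2⟩ := mp_int pP ig'
  obtain ⟨a3, b3⟩ := mp_int pR ig'
  obtain ⟨a4, b4⟩ := mp_int pP if'
  have hEq : (hat fun a => (V (1, a)).im) = fun q =>
      (hat (fun a => (ℓf a).im) (Prod.map (fun x => I.G (1, I.Fi (1, I.Gi (1, x))))
        (fun x => I.G (1, I.Fi (1, I.Gi (1, x)))) q) +
      hat (fun a => (ℓg a).im) (Prod.map (fun x => I.Fi (1, I.Gi (1, x)))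
        (fun x => I.Fi (1, I.Gi (1, x))) q) -
      hat (fun a => (ℓg a).im) (Prod.map (fun x => I.Gi (1, x)) (fun x => I.Gi (1, x)) q)) -
      hat (fun a => (ℓf a).im) (Prod.map (fun x => I.Fi (1, I.Gi (1, x)))
        (fun x => I.Fi (1, I.Gi (1, x))) q) := by
    funext q
    by_cases hq : q.1 = q.2
    · rw [hat_diag _ hq, hat_diag _ (by simp [hq]), hat_diag _ (by simp [hq]),
        hat_diag _ (by simp [hq]), hat_diag _ (by simp [hq])]
      simp
    · obtain ⟨P, Q, R, eP, eQ, eR, e⟩ := hV1 ⟨q, hq⟩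
      have eP' : P.1 = Prod.map (fun x => I.Fi (1, I.Gi (1, x)))
        (fun x => I.Fi (1, I.Gi (1, x))) q := eP
      have eQ' : Q.1 = Prod.map (fun x => I.G (1, I.Fi (1, I.Gi (1, x))))
        (fun x => I.G (1, I.Fi (1, I.Gi (1, x)))) q := eQ
      have eR' : R.1 = Prod.map (fun x => I.Gi (1, x)) (fun x => I.Gi (1, x)) q := eR
      rw [hat_of _ ⟨q, hq⟩ rfl, hat_of _ Q eQ', hat_of _ P eP', hat_of _ R eR', hat_of _ P eP', e]
      simp only [Complex.sub_im, Complex.add_im]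
  obtain ⟨c1, c2⟩ := int4 a1 a2 a3 a4
  refine ⟨nC, V, hV0, hV, ?_, ?_⟩
  · rw [hEq]
    exact c1
  · rw [hEq]
    refine c2.trans ?_
    rw [b1, b2, b3, b4]
    ring

theorem word_int {μ : Measure ℂ} [IsFiniteMeasure μ] {K : Set ℂ}
    (hK : IsCompact K) (hμK : μ Kᶜ = 0) (L : List IsoPair)
    (m : ∀ I ∈ L, MeasurePreserving (fun x => I.F (1, x)) μ μ ∧
      MeasurePreserving (fun x => I.G (1, x)) μ μ)
    (d : ∀ I ∈ L, PosC1 (fun x => I.F (1, x)) K ∧ PosC1 (fun x => I.G (1, x)) K) :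
    ∃ W : C(unitInterval × Conf, ℂ), (∀ a, W (0, a) = 0) ∧
      (∀ (t : unitInterval) (a : Conf),
        cexp (W (t, a)) * (a.1.1 - a.1.2) = word L t a.1.1 - word L t a.1.2) ∧
      Integrable (hat fun a => (W (1, a)).im) (μ.prod μ) ∧
      ∫ q, hat (fun a => (W (1, a)).im) q ∂(μ.prod μ) = 0 ∧
      MeasurePreserving (word L 1) μ μ ∧ (∀ x, word L 0 x = x) ∧
      Continuous fun q : unitInterval × ℂ => word L q.1 q.2 := by
  induction L with
  | nil =>
    have h0 : (hat fun a : Conf => ((0 : C(unitInterval × Conf, ℂ)) (1, a)).im) = fun _ => 0 := by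
      funext q
      by_cases hq : q.1 = q.2
      · rw [hat_diag _ hq]
      · rw [hat_of _ ⟨q, hq⟩ rfl]
        simp
    refine ⟨0, fun _ => rfl, fun t a => ?_, ?_, ?_, MeasurePreserving.id μ, fun _ => rfl,
      continuous_snd⟩
    · simp only [ContinuousMap.zero_apply, Complex.exp_zero, one_mul]
      rfl
    · rw [h0]
      exact integrable_zero _ _ _
    · rw [h0]
      simp
  | cons I L ih =>
    obtain ⟨W, hW0, hW, hWi, hWz, hw1, hw0, hwc⟩ :=
      ih (fun J hJ => m J (List.mem_cons_of_mem _ hJ)) (fun J hJ => d J (List.mem_cons_of_mem _ hJ))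
    obtain ⟨hIc, V, hV0, hV, hVi, hVz⟩ := I.hat_zero hK hμK (m I List.mem_cons_self).1
      (m I List.mem_cons_self).2 (d I List.mem_cons_self).1 (d I List.mem_cons_self).2
    have hinj : ∀ (t : unitInterval) (a : Conf), word L t a.1.1 ≠ word L t a.1.2 := by
      intro t a h
      have h1 := hW t a
      rw [h, sub_self] at h1
      exact (mul_ne_zero (Complex.exp_ne_zero _) (sub_ne_zero.2 a.2)) h1
    let Q : C(unitInterval × Conf, Conf) := ⟨fun q =>
      ⟨(word L q.1 q.2.1.1, word L q.1 q.2.1.2), hinj q.1 q.2⟩, by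
        apply Continuous.subtype_mk
        apply Continuous.prodMk
        · exact hwc.comp (continuous_fst.prodMk
            (continuous_fst.comp (continuous_subtype_val.comp continuous_snd)))
        · exact hwc.comp (continuous_fst.prodMk
            (continuous_snd.comp (continuous_subtype_val.comp continuous_snd)))⟩
    obtain ⟨j1, j2⟩ := mp_int (hw1.prod hw1) hVi
    let W' : C(unitInterval × Conf, ℂ) := ⟨fun q => V (q.1, Q q) + W q, by fun_prop⟩
    have hEq : (hat fun a => (W' (1, a)).im) = fun q =>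
        hat (fun a => (V (1, a)).im) (Prod.map (word L 1) (word L 1) q) +
        hat (fun a => (W (1, a)).im) q := by
      funext q
      by_cases hq : q.1 = q.2
      · rw [hat_diag _ hq, hat_diag _ hq, hat_diag _ (by simp [hq])]
        simp
      · have e1 : (Q (1, ⟨q, hq⟩)).1 = Prod.map (word L 1) (word L 1) q := by
          change (word L ((1 : unitInterval) : ℝ) q.1, word L ((1 : unitInterval) : ℝ) q.2) = _
          rw [Icc.coe_one]
          rfl
        rw [hat_of _ ⟨q, hq⟩ rfl, hat_of _ ⟨q, hq⟩ rfl, hat_of _ _ e1]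
        change (V (1, Q (1, ⟨q, hq⟩)) + W (1, ⟨q, hq⟩)).im = _
        rw [Complex.add_im]
    refine ⟨W', ?_, ?_, ?_, ?_, ?_, ?_, ?_⟩
    · intro a
      change V (0, Q (0, a)) + W (0, a) = 0
      rw [hV0, hW0, add_zero]
    · intro t a
      change cexp (V (t, Q (t, a)) + W (t, a)) * (a.1.1 - a.1.2) =
        I.comm t (word L t a.1.1) - I.comm t (word L t a.1.2)
      rw [Complex.exp_add, mul_assoc, hW]
      exact hV t (Q (t, a))
    · rw [hEq]
      exact j1.add hWi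
    · rw [hEq, integral_add j1 hWi, j2, hVz, hWz, add_zero]
    · exact hIc.comp hw1
    · intro x
      change I.comm 0 (word L 0 x) = x
      rw [hw0, I.comm_zero]
    · change Continuous fun q : unitInterval × ℂ => I.F ((q.1 : ℝ), I.G ((q.1 : ℝ),
        I.Fi ((q.1 : ℝ), I.Gi ((q.1 : ℝ), word L q.1 q.2))))
      fun_prop

theorem EulerIs.const {L : List IsoPair} {k : ℤ} (h : EulerIs L k)
    {W : C(unitInterval × Conf, ℂ)} (hW0 : ∀ a, W (0, a) = 0)
    (hW : ∀ (t : unitInterval) (a : Conf),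
        cexp (W (t, a)) * (a.1.1 - a.1.2) = word L t a.1.1 - word L t a.1.2) (a : Conf) :
    W (1, a) = 2 * Real.pi * Complex.I * k := by
  obtain ⟨hid, θ, hθ, hC⟩ := h
  let a₀ : Conf := ⟨(1, 0), one_ne_zero⟩
  have hexp : ∀ t : unitInterval, cexp (W (t, a₀)) = word L t 1 - word L t 0 := by
    intro t
    have h1 := hW t a₀
    have e1 : a₀.1.1 = 1 := rfl
    have e2 : a₀.1.2 = 0 := rfl
    rw [e1, e2, sub_zero, mul_one] at h1
    exact h1
  have hexp1 : ∀ b : Conf, cexp (W (1, b)) = 1 := by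
    intro b
    have h1 := hW 1 b
    rw [Icc.coe_one, hid, hid] at h1
    exact mul_right_cancel₀ (sub_ne_zero.2 b.2) (by rw [h1, one_mul])
  have hconst : W (1, a) = W (1, a₀) := by
    have h1 := exp_rigid (A := Conf) (u := fun b => W (1, b)) (v := fun _ => (0 : ℂ))
      (by fun_prop) continuous_const (fun b => by rw [hexp1, Complex.exp_zero]) a a₀
    simpa only [sub_zero] using h1
  rw [hconst]
  have hnorm : ∀ t : unitInterval, (0 : ℝ) < ‖cexp (W (t, a₀))‖ :=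
    fun t => norm_pos_iff.2 (Complex.exp_ne_zero _)
  have h1 := exp_rigid (A := unitInterval) (u := fun t => W (t, a₀))
      (v := fun t => ((Real.log ‖cexp (W (t, a₀))‖ : ℝ) : ℂ) +
        2 * Real.pi * Complex.I * ((θ t : ℝ) : ℂ))
      (by fun_prop) (by
        apply Continuous.add
        · apply Complex.continuous_ofReal.comp
          apply Continuous.log
          · fun_prop
          · intro t; exact (hnorm t).ne'
        · fun_prop) (by
        intro t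
        rw [Complex.exp_add, ← Complex.ofReal_exp, Real.exp_log (hnorm t), hexp t]
        exact hC t t.2) 1 0
  simp only [hW0, hexp1, Complex.exp_zero, norm_one, Real.log_one, Complex.ofReal_zero, zero_add,
    zero_sub, Icc.coe_one, Icc.coe_zero] at h1
  have h4 : ((θ 1 - θ 0 : ℝ) : ℂ) = (k : ℂ) := by rw [hθ]; simp
  rw [Complex.ofReal_sub] at h4
  linear_combination h1 + 2 * Real.pi * Complex.I * h4

theorem exists_eulerIs {L : List IsoPair} (hid : ∀ x, word L 1 x = x)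
    {W : C(unitInterval × Conf, ℂ)} (hW0 : ∀ a, W (0, a) = 0)
    (hW : ∀ (t : unitInterval) (a : Conf),
        cexp (W (t, a)) * (a.1.1 - a.1.2) = word L t a.1.1 - word L t a.1.2) :
    ∃ k : ℤ, EulerIs L k := by
  let a₀ : Conf := ⟨(1, 0), one_ne_zero⟩
  have e1 : a₀.1.1 = 1 := rfl
  have e2 : a₀.1.2 = 0 := rfl
  have hexp1 : cexp (W (1, a₀)) = 1 := by
    have h1 := hW 1 a₀
    rw [Icc.coe_one, hid, hid] at h1
    exact mul_right_cancel₀ (sub_ne_zero.2 a₀.2) (by rw [h1, one_mul])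
  obtain ⟨k, hk⟩ := Complex.exp_eq_one_iff.1 hexp1
  refine ⟨k, hid, ?_⟩
  let θ : C(ℝ, ℝ) := ⟨fun t => (W (projIcc 0 1 zero_le_one t, a₀)).im / (2 * Real.pi), by
      apply Continuous.div_const
      exact Complex.continuous_im.comp (W.continuous.comp (continuous_projIcc.prodMk
        continuous_const))⟩
  have hθ : ∀ t, θ t = (W (projIcc 0 1 zero_le_one t, a₀)).im / (2 * Real.pi) := fun t => rfl
  refine ⟨θ, ?_, ?_⟩
  · rw [hθ, hθ, projIcc_right, projIcc_left]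
    change (W (1, a₀)).im / _ - (W (0, a₀)).im / _ = _
    rw [hW0, hk]
    have : ((k * (2 * Real.pi * Complex.I) : ℂ)).im = 2 * Real.pi * k := by
      simp
      ring
    rw [this]
    simp only [Complex.zero_im, zero_div, sub_zero]
    field_simp
  · intro t ht
    have h1 := hW ⟨t, ht⟩ a₀
    rw [e1, e2, sub_zero, mul_one] at h1
    simp only at h1
    rw [← h1, hθ, projIcc_of_mem zero_le_one ht, Complex.norm_exp]
    rw [Complex.ofReal_exp, ← Complex.exp_add]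
    congr 1
    have hpi : (Real.pi : ℝ) ≠ 0 := Real.pi_ne_zero
    obtain ⟨r, hr⟩ : ∃ r : ℝ, (W (⟨t, ht⟩, a₀)).im / (2 * Real.pi) = r := ⟨_, rfl⟩
    rw [hr]
    have hr' : (W (⟨t, ht⟩, a₀)).im = 2 * Real.pi * r := by rw [← hr]; field_simp
    apply Complex.ext
    · simp
    · simp [hr']

theorem offdiag_pos {μ : Measure ℂ} [IsFiniteMeasure μ] (hμ : ∀ c : ℂ, μ {c}ᶜ ≠ 0) :
    (μ.prod μ) {q : ℂ × ℂ | q.1 ≠ q.2} ≠ 0 := by
  intro h
  have hs : MeasurableSet {q : ℂ × ℂ | q.1 ≠ q.2} :=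
    (isOpen_ne_fun continuous_fst continuous_snd).measurableSet
  rw [Measure.measure_prod_null hs] at h
  have h1 : ∀ᵐ x ∂μ, False := by
    filter_upwards [h] with x hx
    apply hμ x
    have e : (Prod.mk x ⁻¹' {q : ℂ × ℂ | q.1 ≠ q.2}) = {x}ᶜ := by
      ext y
      simp [eq_comm]
    rw [e] at hx
    exact hx
  have h2 : μ univ = 0 := by
    rw [ae_iff] at h1
    simpa using h1
  exact hμ 0 (measure_mono_null (subset_univ _) h2)

/-- a surface group action by diffeomorphisms which preserves a compactly supported finite measure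
other than a point mass has Euler number zero -/
theorem euler_compact {μ : Measure ℂ} [IsFiniteMeasure μ] {K : Set ℂ}
    (hK : IsCompact K) (hμK : μ Kᶜ = 0) (hμ : ∀ c : ℂ, μ {c}ᶜ ≠ 0) {L : List IsoPair} {k : ℤ}
    (h : EulerIs L k)
    (m : ∀ I ∈ L, MeasurePreserving (fun x => I.F (1, x)) μ μ ∧
      MeasurePreserving (fun x => I.G (1, x)) μ μ)
    (d : ∀ I ∈ L, PosC1 (fun x => I.F (1, x)) K ∧ PosC1 (fun x => I.G (1, x)) K) : k = 0 := by
  obtain ⟨W, hW0, hW, hWi, hWz, -⟩ := word_int hK hμK L m d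
  have hs : MeasurableSet {q : ℂ × ℂ | q.1 ≠ q.2} :=
    (isOpen_ne_fun continuous_fst continuous_snd).measurableSet
  have hEq : (hat fun a => (W (1, a)).im) =
      {q : ℂ × ℂ | q.1 ≠ q.2}.indicator fun _ => 2 * Real.pi * (k : ℝ) := by
    funext q
    by_cases hq : q.1 = q.2
    · have hn : q ∉ {q : ℂ × ℂ | q.1 ≠ q.2} := fun h' => h' hq
      rw [hat_diag _ hq, indicator_of_notMem hn]
    · rw [hat_of _ ⟨q, hq⟩ rfl, h.const hW0 hW, indicator_of_mem (by exact hq)]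
      simp
  rw [hEq, integral_indicator_const _ hs, smul_eq_mul] at hWz
  have h1 : (μ.prod μ).real {q : ℂ × ℂ | q.1 ≠ q.2} ≠ 0 := by
    rw [Measure.real, ne_eq, ENNReal.toReal_eq_zero_iff]
    push Not
    exact ⟨offdiag_pos hμ, measure_ne_top _ _⟩
  have h2 := (mul_eq_zero.1 hWz).resolve_left h1
  have h3 : (k : ℝ) = 0 := by
    rcases mul_eq_zero.1 h2 with h | h
    · exact absurd h (by positivity)
    · exact h
  exact_mod_cast h3

theorem euler_compact_iff {μ : Measure ℂ} [IsFiniteMeasure μ] {K : Set ℂ}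
    (hK : IsCompact K) (hμK : μ Kᶜ = 0) (hμ : ∀ c : ℂ, μ {c}ᶜ ≠ 0) {L : List IsoPair}
    (hid : ∀ x, word L 1 x = x)
    (m : ∀ I ∈ L, MeasurePreserving (fun x => I.F (1, x)) μ μ ∧
      MeasurePreserving (fun x => I.G (1, x)) μ μ)
    (d : ∀ I ∈ L, PosC1 (fun x => I.F (1, x)) K ∧ PosC1 (fun x => I.G (1, x)) K) (k : ℤ) :
    EulerIs L k ↔ k = 0 := by
  refine ⟨fun h => euler_compact hK hμK hμ h m d, ?_⟩
  rintro rfl
  obtain ⟨W, hW0, hW, -⟩ := word_int hK hμK L m d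
  obtain ⟨n, hn⟩ := exists_eulerIs hid hW0 hW
  rwa [euler_compact hK hμK hμ hn m d] at hn

end Pool.Agent.Helper984_CP
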