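import Pool.Agent.Helper984_CP.Meas2

/-!
# Mean rotation of pairs under an integrability assumption
-/

set_option autoImplicit false

open Set Filter Topology Complex MeasureTheory

noncomputable section

namespace Pool.Agent.Helper984_CP

/-- the winding of pairs of points under `f` is integrable -/
def IntAng (f : ℂ → ℂ) (μ : Measure ℂ) : Prop :=
  ∃ ℓ : C(Conf, ℂ), LogDiff f ℓ ∧ Integrable (hat fun a => (ℓ a).im) (μ.prod μ)

theorem IsoPair.hat_zero' (I : IsoPair) {μ : Measure ℂ} [IsFiniteMeasure μ]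
    (m1 : MeasurePreserving (fun x => I.F (1, x)) μ μ)
    (m2 : MeasurePreserving (fun x => I.G (1, x)) μ μ)
    (d1 : IntAng I.ends.1 μ) (d2 : IntAng I.ends.2 μ) :
    MeasurePreserving (I.comm 1) μ μ ∧
    ∃ V : C(unitInterval × Conf, ℂ), (∀ a, V (0, a) = 0) ∧
      (∀ (t : unitInterval) (a : Conf),
        cexp (V (t, a)) * (a.1.1 - a.1.2) = I.comm t a.1.1 - I.comm t a.1.2) ∧
      Integrable (hat fun a => (V (1, a)).im) (μ.prod μ) ∧
      ∫ q, hat (fun a => (V (1, a)).im) q ∂(μ.prod μ) = 0 := by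
  obtain ⟨ℓf, hf, if'⟩ := d1
  obtain ⟨ℓg, hg, ig'⟩ := d2
  obtain ⟨V, hV0, hV, hV1⟩ := I.comm_formula hf hg
  have one : (1 : ℝ) ∈ Set.Icc (0 : ℝ) 1 := by simp
  let Φ : ℂ ≃ₜ ℂ := ⟨⟨fun x => I.F (1, x), fun x => I.Fi (1, x), fun x => (I.inv 1 one x).2.1,
    fun x => (I.inv 1 one x).1⟩, by fun_prop, by fun_prop⟩
  let Ψ : ℂ ≃ₜ ℂ := ⟨⟨fun x => I.G (1, x), fun x => I.Gi (1, x), fun x => (I.inv 1 one x).2.2.2,
    fun x => (I.inv 1 one x).2.2.1⟩, by fun_prop, by fun_prop⟩
  have n1 : MeasurePreserving (fun x => I.Fi (1, x)) μ μ := mp_inv (F := Φ) m1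
  have n2 : MeasurePreserving (fun x => I.Gi (1, x)) μ μ := mp_inv (F := Ψ) m2
  have nP : MeasurePreserving (fun x => I.Fi (1, I.Gi (1, x))) μ μ := n1.comp n2
  have nQ : MeasurePreserving (fun x => I.G (1, I.Fi (1, I.Gi (1, x)))) μ μ := m2.comp nP
  have nC : MeasurePreserving (I.comm 1) μ μ := m1.comp nQ
  have pP := nP.prod nP
  have pQ := nQ.prod nQ
  have pR := n2.prod n2
  obtain ⟨a1, b1⟩ := mp_int pQ if'
  obtain ⟨a2, b2⟩ := mp_int pP ig'
  obtain ⟨a3, b3⟩ := mp_int pR ig'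
  obtain ⟨a4, b4⟩ := mp_int pP if'
  have hEq : (hat fun a => (V (1, a)).im) = fun q =>
      (hat (fun a => (ℓf a).im) (Prod.map (fun x => I.G (1, I.Fi (1, I.Gi (1, x))))
        (fun x => I.G (1, I.Fi (1, I.Gi (1, x)))) q) +
      hat (fun a => (ℓg a).im) (Prod.map (fun x => I.Fi (1, I.Gi (1, x)))
        (fun x => I.Fi (1, I.Gi (1, x))) q) -
      hat (fun a => (ℓg a).im) (Prod.map (fun x => I.Gi (1, x)) (fun x => I.Gi (1, x)) q)) -
      hat (fun a => (ℓf a).im) (Prod.map (fun x => I.Fi (1, I.Gi (1, x)))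
        (fun x => I.Fi (1, I.Gi (1, x))) q) := by
    funext q
    by_cases hq : q.1 = q.2
    · rw [hat_diag _ hq, hat_diag _ (by simp [hq]), hat_diag _ (by simp [hq]),
        hat_diag _ (by simp [hq]), hat_diag _ (by simp [hq])]
      simp
    · obtain ⟨P, Q, R, eP, eQ, eR, e⟩ := hV1 ⟨q, hq⟩
      have eP' : P.1 = Prod.map (fun x => I.Fi (1, I.Gi (1, x)))
        (fun x => I.Fi (1, I.Gi (1, x))) q := eP
      have eQ' : Q.1 = Prod.map (fun x => I.G (1, I.Fi (1, I.Gi (1, x))))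
        (fun x => I.G (1, I.Fi (1, I.Gi (1, x)))) q := eQ
      have eR' : R.1 = Prod.map (fun x => I.Gi (1, x)) (fun x => I.Gi (1, x)) q := eR
      rw [hat_of _ ⟨q, hq⟩ rfl, hat_of _ Q eQ', hat_of _ P eP', hat_of _ R eR', hat_of _ P eP', e]
      simp only [Complex.sub_im, Complex.add_im]
  obtain ⟨c1, c2⟩ := int4 a1 a2 a3 a4
  refine ⟨nC, V, hV0, hV, ?_, ?_⟩
  · rw [hEq]
    exact c1
  · rw [hEq]
    refine c2.trans ?_
    rw [b1, b2, b3, b4]
    ring

theorem word_int' {μ : Measure ℂ} [IsFiniteMeasure μ] (L : List IsoPair)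
    (m : ∀ I ∈ L, MeasurePreserving (fun x => I.F (1, x)) μ μ ∧
      MeasurePreserving (fun x => I.G (1, x)) μ μ)
    (d : ∀ I ∈ L, IntAng I.ends.1 μ ∧ IntAng I.ends.2 μ) :
    ∃ W : C(unitInterval × Conf, ℂ), (∀ a, W (0, a) = 0) ∧
      (∀ (t : unitInterval) (a : Conf),
        cexp (W (t, a)) * (a.1.1 - a.1.2) = word L t a.1.1 - word L t a.1.2) ∧
      Integrable (hat fun a => (W (1, a)).im) (μ.prod μ) ∧
      ∫ q, hat (fun a => (W (1, a)).im) q ∂(μ.prod μ) = 0 ∧
      MeasurePreserving (word L 1) μ μ ∧ (∀ x, word L 0 x = x) ∧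
      Continuous fun q : unitInterval × ℂ => word L q.1 q.2 := by
  induction L with
  | nil =>
    have h0 : (hat fun a : Conf => ((0 : C(unitInterval × Conf, ℂ)) (1, a)).im) = fun _ => 0 := by
      funext q
      by_cases hq : q.1 = q.2
      · rw [hat_diag _ hq]
      · rw [hat_of _ ⟨q, hq⟩ rfl]
        simp
    refine ⟨0, fun _ => rfl, fun t a => ?_, ?_, ?_, MeasurePreserving.id μ, fun _ => rfl,
      continuous_snd⟩
    · simp only [ContinuousMap.zero_apply, Complex.exp_zero, one_mul]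
      rfl
    · rw [h0]
      exact integrable_zero _ _ _
    · rw [h0]
      simp
  | cons I L ih =>
    obtain ⟨W, hW0, hW, hWi, hWz, hw1, hw0, hwc⟩ :=
      ih (fun J hJ => m J (List.mem_cons_of_mem _ hJ)) (fun J hJ => d J (List.mem_cons_of_mem _ hJ))
    obtain ⟨hIc, V, hV0, hV, hVi, hVz⟩ := I.hat_zero' (m I List.mem_cons_self).1
      (m I List.mem_cons_self).2 (d I List.mem_cons_self).1 (d I List.mem_cons_self).2
    have hinj : ∀ (t : unitInterval) (a : Conf), word L t a.1.1 ≠ word L t a.1.2 := by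
      intro t a h
      have h1 := hW t a
      rw [h, sub_self] at h1
      exact (mul_ne_zero (Complex.exp_ne_zero _) (sub_ne_zero.2 a.2)) h1
    let Q : C(unitInterval × Conf, Conf) := ⟨fun q =>
      ⟨(word L q.1 q.2.1.1, word L q.1 q.2.1.2), hinj q.1 q.2⟩, by
        apply Continuous.subtype_mk
        apply Continuous.prodMk
        · exact hwc.comp (continuous_fst.prodMk
            (continuous_fst.comp (continuous_subtype_val.comp continuous_snd)))
        · exact hwc.comp (continuous_fst.prodMk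
            (continuous_snd.comp (continuous_subtype_val.comp continuous_snd)))⟩
    obtain ⟨j1, j2⟩ := mp_int (hw1.prod hw1) hVi
    let W' : C(unitInterval × Conf, ℂ) := ⟨fun q => V (q.1, Q q) + W q, by fun_prop⟩
    have hEq : (hat fun a => (W' (1, a)).im) = fun q =>
        hat (fun a => (V (1, a)).im) (Prod.map (word L 1) (word L 1) q) +
        hat (fun a => (W (1, a)).im) q := by
      funext q
      by_cases hq : q.1 = q.2
      · rw [hat_diag _ hq, hat_diag _ hq, hat_diag _ (by simp [hq])]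
        simp
      · have e1 : (Q (1, ⟨q, hq⟩)).1 = Prod.map (word L 1) (word L 1) q := by
          change (word L ((1 : unitInterval) : ℝ) q.1, word L ((1 : unitInterval) : ℝ) q.2) = _
          rw [Icc.coe_one]
          rfl
        rw [hat_of _ ⟨q, hq⟩ rfl, hat_of _ ⟨q, hq⟩ rfl, hat_of _ _ e1]
        change (V (1, Q (1, ⟨q, hq⟩)) + W (1, ⟨q, hq⟩)).im = _
        rw [Complex.add_im]
    refine ⟨W', ?_, ?_, ?_, ?_, ?_, ?_, ?_⟩
    · intro a
      change V (0, Q (0, a)) + W (0, a) = 0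
      rw [hV0, hW0, add_zero]
    · intro t a
      change cexp (V (t, Q (t, a)) + W (t, a)) * (a.1.1 - a.1.2) =
        I.comm t (word L t a.1.1) - I.comm t (word L t a.1.2)
      rw [Complex.exp_add, mul_assoc, hW]
      exact hV t (Q (t, a))
    · rw [hEq]
      exact j1.add hWi
    · rw [hEq, integral_add j1 hWi, j2, hVz, hWz, add_zero]
    · exact hIc.comp hw1
    · intro x
      change I.comm 0 (word L 0 x) = x
      rw [hw0, I.comm_zero]
    · change Continuous fun q : unitInterval × ℂ => I.F ((q.1 : ℝ), I.G ((q.1 : ℝ),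
        I.Fi ((q.1 : ℝ), I.Gi ((q.1 : ℝ), word L q.1 q.2))))
      fun_prop

/-- a surface group action with integrable winding which preserves a finite measure
other than a point mass has Euler number zero -/
theorem euler_int {μ : Measure ℂ} [IsFiniteMeasure μ] (hμ : ∀ c : ℂ, μ {c}ᶜ ≠ 0) {L : List IsoPair} {k : ℤ}
    (h : EulerIs L k)
    (m : ∀ I ∈ L, MeasurePreserving (fun x => I.F (1, x)) μ μ ∧
      MeasurePreserving (fun x => I.G (1, x)) μ μ)
    (d : ∀ I ∈ L, IntAng I.ends.1 μ ∧ IntAng I.ends.2 μ) : k = 0 := by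
  obtain ⟨W, hW0, hW, hWi, hWz, -⟩ := word_int' L m d
  have hs : MeasurableSet {q : ℂ × ℂ | q.1 ≠ q.2} :=
    (isOpen_ne_fun continuous_fst continuous_snd).measurableSet
  have hEq : (hat fun a => (W (1, a)).im) =
      {q : ℂ × ℂ | q.1 ≠ q.2}.indicator fun _ => 2 * Real.pi * (k : ℝ) := by
    funext q
    by_cases hq : q.1 = q.2
    · have hn : q ∉ {q : ℂ × ℂ | q.1 ≠ q.2} := fun h' => h' hq
      rw [hat_diag _ hq, indicator_of_notMem hn]
    · rw [hat_of _ ⟨q, hq⟩ rfl, h.const hW0 hW, indicator_of_mem (by exact hq)]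
      simp
  rw [hEq, integral_indicator_const _ hs, smul_eq_mul] at hWz
  have h1 : (μ.prod μ).real {q : ℂ × ℂ | q.1 ≠ q.2} ≠ 0 := by
    rw [Measure.real, ne_eq, ENNReal.toReal_eq_zero_iff]
    push Not
    exact ⟨offdiag_pos hμ, measure_ne_top _ _⟩
  have h2 := (mul_eq_zero.1 hWz).resolve_left h1
  have h3 : (k : ℝ) = 0 := by
    rcases mul_eq_zero.1 h2 with h | h
    · exact absurd h (by positivity)
    · exact h
  exact_mod_cast h3

theorem euler_int_iff {μ : Measure ℂ} [IsFiniteMeasure μ] (hμ : ∀ c : ℂ, μ {c}ᶜ ≠ 0) {L : List IsoPair}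
    (hid : ∀ x, word L 1 x = x)
    (m : ∀ I ∈ L, MeasurePreserving (fun x => I.F (1, x)) μ μ ∧
      MeasurePreserving (fun x => I.G (1, x)) μ μ)
    (d : ∀ I ∈ L, IntAng I.ends.1 μ ∧ IntAng I.ends.2 μ) (k : ℤ) :
    EulerIs L k ↔ k = 0 := by
  refine ⟨fun h => euler_int hμ h m d, ?_⟩
  rintro rfl
  obtain ⟨W, hW0, hW, -⟩ := word_int' L m d
  obtain ⟨n, hn⟩ := exists_eulerIs hid hW0 hW
  rwa [euler_int hμ hn m d] at hn

end Pool.Agent.Helper984_CP
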