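import Pool.Agent.Helper984_CP.Rot

/-!
# Minimal sets and forward invariant neighbourhoods of the common fixed point
-/

set_option autoImplicit false

open Set Filter Topology Complex

noncomputable section

namespace Pool.Agent.Helper984_CP

/-- decreasing intersections of compact connected sets are connected -/
theorem preconn_iInter {V : ℕ → Set ℂ} (hV : Antitone V) (hc : ∀ n, IsCompact (V n))
    (hp : ∀ n, IsPreconnected (V n)) : IsPreconnected (⋂ n, V n) := by
  rw [isPreconnected_iff_subset_of_disjoint_closed]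
  intro A B hA hB hcov hdis
  by_contra hcon
  push Not at hcon
  obtain ⟨h1, h2⟩ := hcon
  obtain ⟨b, hbV, hbA⟩ := not_subset.1 h1
  obtain ⟨a, haV, haB⟩ := not_subset.1 h2
  have hKc : IsCompact (⋂ n, V n) :=
    (hc 0).of_isClosed_subset (isClosed_iInter fun n => (hc n).isClosed) (iInter_subset _ 0)
  have hKA : IsCompact ((⋂ n, V n) ∩ A) := hKc.inter_right hA
  have hKB : IsCompact ((⋂ n, V n) ∩ B) := hKc.inter_right hB
  have hd : Disjoint ((⋂ n, V n) ∩ A) ((⋂ n, V n) ∩ B) := by
    rw [Set.disjoint_left]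
    rintro x ⟨hx, hxA⟩ ⟨-, hxB⟩
    have : x ∈ (⋂ n, V n) ∩ (A ∩ B) := ⟨hx, hxA, hxB⟩
    rw [hdis] at this
    exact this
  obtain ⟨U1, U2, hU1, hU2, hs1, hs2, hUd⟩ := SeparatedNhds.of_isCompact_isCompact hKA hKB hd
  have hsub : ⋂ n, V n ⊆ U1 ∪ U2 := by
    intro x hx
    rcases hcov hx with h | h
    · exact Or.inl (hs1 ⟨hx, h⟩)
    · exact Or.inr (hs2 ⟨hx, h⟩)
  obtain ⟨n, hn⟩ := exists_subset_nhds_of_isCompact hV.directed_ge hc
    (fun x hx => (hU1.union hU2).mem_nhds (hsub hx))
  have haA : a ∈ A := (hcov haV).resolve_right haB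
  have hbB : b ∈ B := (hcov hbV).resolve_left hbA
  have haU : a ∈ U1 := hs1 ⟨haV, haA⟩
  have hbU : b ∈ U2 := hs2 ⟨hbV, hbB⟩
  have h3 := (hp n).subset_left_of_subset_union hU1 hU2 hUd hn ⟨a, mem_iInter.1 haV n, haU⟩
  exact Set.disjoint_left.1 hUd (h3 (mem_iInter.1 hbV n)) hbU

theorem isClosed_compIn {K : Set ℂ} (hK : IsClosed K) (x : ℂ) :
    IsClosed (connectedComponentIn K x) := by
  by_cases hx : x ∈ K
  · apply isClosed_of_closure_subset
    exact (isPreconnected_connectedComponentIn.closure).subset_connectedComponentIn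
      (subset_closure (mem_connectedComponentIn hx))
      (closure_minimal (connectedComponentIn_subset _ _) hK)
  · rw [connectedComponentIn_eq_empty hx]
    exact isClosed_empty

/-- a minimal compact forward invariant set which does not contain the origin -/
structure MinSet (F : ℂ ≃ₜ ℂ) (S : Set ℂ) : Prop where
  compact : IsCompact S
  nonempty : S.Nonempty
  maps : MapsTo F S S
  zero : (0 : ℂ) ∉ S
  min : ∀ T ⊆ S, IsCompact T → T.Nonempty → MapsTo F T T → T = S

theorem exists_minSet {F : ℂ ≃ₜ ℂ} {K : Set ℂ} (hK : IsCompact K) (hn : K.Nonempty)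
    (hm : MapsTo F K K) (h0 : (0 : ℂ) ∉ K) : ∃ S ⊆ K, MinSet F S := by
  obtain ⟨S, hSK, hS⟩ := zorn_superset_nonempty
    {T : Set ℂ | IsCompact T ∧ T.Nonempty ∧ MapsTo F T T} (fun c hc hchain hcne => by
      refine ⟨⋂₀ c, ⟨?_, ?_, ?_⟩, fun s hs => sInter_subset_of_mem hs⟩
      · obtain ⟨s, hs⟩ := hcne
        exact (hc hs).1.of_isClosed_subset (isClosed_sInter fun t ht => (hc ht).1.isClosed)
          (sInter_subset_of_mem hs)
      · have : Nonempty c := hcne.to_subtype
        refine IsCompact.nonempty_sInter_of_directed_nonempty_isCompact_isClosed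
          (fun a ha b hb => ?_) (fun U hU => (hc hU).2.1) (fun U hU => (hc hU).1)
          (fun U hU => (hc hU).1.isClosed)
        rcases hchain.total ha hb with h | h
        · exact ⟨a, ha, subset_rfl, h⟩
        · exact ⟨b, hb, h, subset_rfl⟩
      · intro x hx
        rw [mem_sInter] at hx ⊢
        exact fun t ht => (hc ht).2.2 (hx t ht)) K ⟨hK, hn, hm⟩
  refine ⟨S, hSK, hS.prop.1, hS.prop.2.1, hS.prop.2.2, fun h => h0 (hSK h), fun T hT h1 h2 h3 => ?_⟩
  exact hT.antisymm (hS.2 ⟨h1, h2, h3⟩ hT)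

theorem MinSet.sub_or {F : ℂ ≃ₜ ℂ} {S E : Set ℂ} (h : MinSet F S) (hE : IsClosed E)
    (hm : MapsTo F E E) : S ⊆ E ∨ Disjoint S E := by
  by_cases hd : Disjoint S E
  · exact Or.inr hd
  · left
    rw [Set.not_disjoint_iff_nonempty_inter] at hd
    have := h.min (S ∩ E) inter_subset_left (h.compact.inter_right hE) hd
      (fun x hx => ⟨h.maps hx.1, hm hx.2⟩)
    rw [← this]
    exact inter_subset_right

theorem comm_apply {F G : ℂ ≃ₜ ℂ} (h : F * G = G * F) (z : ℂ) : F (G z) = G (F z) :=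
  congrArg (fun H : ℂ ≃ₜ ℂ => H z) h

theorem MinSet.image {F : ℂ ≃ₜ ℂ} {S : Set ℂ} (h : MinSet F S) {G : ℂ ≃ₜ ℂ} (hc : F * G = G * F)
    (hG0 : G 0 = 0) : MinSet F (G '' S) where
  compact := h.compact.image G.continuous
  nonempty := h.nonempty.image _
  maps := by
    rintro _ ⟨x, hx, rfl⟩
    exact ⟨F x, h.maps hx, (comm_apply hc x).symm⟩
  zero := by
    rintro ⟨x, hx, hx0⟩
    have : x = 0 := G.injective (hx0.trans hG0.symm)
    exact h.zero (this ▸ hx)
  min := by
    intro T hT h1 h2 h3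
    have e := h.min (G.symm '' T) (by
      rintro _ ⟨x, hx, rfl⟩
      obtain ⟨y, hy, rfl⟩ := hT hx
      rw [G.symm_apply_apply]
      exact hy) (h1.image G.symm.continuous) (h2.image _) (by
      rintro _ ⟨x, hx, rfl⟩
      refine ⟨F x, h3 hx, ?_⟩
      apply G.injective
      rw [G.apply_symm_apply, ← comm_apply hc, G.apply_symm_apply])
    rw [← e, image_image]
    simp

/-- compact connected neighbourhoods of the origin without holes which are mapped into
themselves -/
structure FNb (F : ℂ ≃ₜ ℂ) (E : Set ℂ) : Prop where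
  compact : IsCompact E
  conn : IsPreconnected E
  cconn : IsPreconnected Eᶜ
  nhds : E ∈ 𝓝 (0 : ℂ)
  maps : MapsTo F E E

theorem FNb.image {F : ℂ ≃ₜ ℂ} {E : Set ℂ} (h : FNb F E) {G : ℂ ≃ₜ ℂ} (hc : F * G = G * F)
    (hG0 : G 0 = 0) : FNb F (G '' E) where
  compact := h.compact.image G.continuous
  conn := h.conn.image _ G.continuous.continuousOn
  cconn := by
    rw [← image_compl_eq G.bijective]
    exact h.cconn.image _ G.continuous.continuousOn
  nhds := by
    have := G.isOpenMap.image_mem_nhds h.nhds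
    rwa [hG0] at this
  maps := by
    rintro _ ⟨x, hx, rfl⟩
    exact ⟨F x, h.maps hx, (comm_apply hc x).symm⟩

/-- filling of holes -/
theorem exists_fill {F : ℂ ≃ₜ ℂ} {K : Set ℂ} (hKc : IsPreconnected K)
    {r : ℝ} (hr : 0 ≤ r) (hKr : K ⊆ Metric.closedBall 0 r) (hKcl : IsClosed K)
    (hm : MapsTo F K K) :
    ∃ E : Set ℂ, K ⊆ E ∧ E ⊆ Metric.closedBall 0 r ∧ IsCompact E ∧ IsPreconnected E ∧
      IsPreconnected Eᶜ ∧ MapsTo F E E := by
  obtain ⟨p, hp⟩ : ∃ p : ℂ, p = ((r + 1 : ℝ) : ℂ) := ⟨_, rfl⟩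
  have hpn : ‖p‖ = r + 1 := by
    rw [hp, Complex.norm_real, Real.norm_of_nonneg (by linarith)]
  have hgt : {z : ℂ | r < ‖z‖} ⊆ Kᶜ := by
    intro z hz hzK
    have := mem_closedBall_zero_iff.1 (hKr hzK)
    exact absurd hz (not_lt.2 this)
  have hpK : p ∈ Kᶜ := hgt (by rw [mem_ofPred_eq, hpn]; linarith)
  obtain ⟨W, hW⟩ : ∃ W, W = connectedComponentIn Kᶜ p := ⟨_, rfl⟩
  have hWo : IsOpen W := by rw [hW]; exact hKcl.isOpen_compl.connectedComponentIn
  have hWc : IsPreconnected W := by rw [hW]; exact isPreconnected_connectedComponentIn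
  have hWK : W ⊆ Kᶜ := by rw [hW]; exact connectedComponentIn_subset _ _
  have hgW : {z : ℂ | r < ‖z‖} ⊆ W := by
    rw [hW]
    exact (isPreconnected_gt_ball r hr).isPreconnected.subset_connectedComponentIn
      (by rw [mem_ofPred_eq, hpn]; linarith) hgt
  have hWr : Wᶜ ⊆ Metric.closedBall 0 r := by
    intro z hz
    rw [mem_closedBall_zero_iff]
    by_contra hcon
    push Not at hcon
    exact hz (hgW hcon)
  refine ⟨Wᶜ, subset_compl_comm.1 hWK, hWr,
    (isCompact_closedBall (0 : ℂ) r).of_isClosed_subset hWo.isClosed_compl hWr, ?_, ?_, ?_⟩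
  · rw [hW]
    exact compl_component_preconnected hKc hpK (by rw [← hW]; exact hWo)
  · rw [compl_compl]
    exact hWc
  · intro z hz hFz
    apply hz
    -- the preimage of `W` is connected, misses `K` and is unbounded
    have hpre : IsPreconnected (F ⁻¹' W) := by
      rw [← F.image_symm]
      exact hWc.image _ F.symm.continuous.continuousOn
    have hpreK : F ⁻¹' W ⊆ Kᶜ := fun x hx hxK => hWK hx (hm hxK)
    have hunb : ∃ q ∈ F ⁻¹' W, r < ‖q‖ := by
      by_contra hcon
      push Not at hcon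
      obtain ⟨M, hM⟩ := (isCompact_closedBall (0 : ℂ) r).exists_bound_of_continuousOn
        F.continuous.continuousOn
      obtain ⟨w, hw⟩ : ∃ w : ℂ, w = ((max M r + 1 : ℝ) : ℂ) := ⟨_, rfl⟩
      have hwn : ‖w‖ = max M r + 1 := by
        rw [hw, Complex.norm_real, Real.norm_of_nonneg]
        have := hr.trans (le_max_right M r)
        linarith
      have h1 : w ∈ W := hgW (by
        rw [mem_ofPred_eq, hwn]
        linarith [le_max_right M r])
      have h2 : F.symm w ∈ F ⁻¹' W := by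
        rw [mem_preimage, F.apply_symm_apply]
        exact h1
      have h3 := hM _ (mem_closedBall_zero_iff.2 (hcon _ h2))
      rw [F.apply_symm_apply, hwn] at h3
      linarith [le_max_left M r]
    obtain ⟨q, hq, hqr⟩ := hunb
    have h4 : F ⁻¹' W ⊆ connectedComponentIn Kᶜ q := hpre.subset_connectedComponentIn hq hpreK
    have h5 : q ∈ connectedComponentIn Kᶜ p := by rw [← hW]; exact hgW hqr
    rw [← connectedComponentIn_eq h5, ← hW] at h4
    exact h4 hFz

end Pool.Agent.Helper984_CP
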