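import Pool.Agent.Helper984_CP.Torus

/-!
# Change of basis of the acting group
-/

set_option autoImplicit false

open Set Filter Topology Complex ComplexConjugate

noncomputable section

namespace Pool.Agent.Helper984_CP

/-- a self homeomorphism as a continuous map -/
def toC (F : ℂ ≃ₜ ℂ) : C(ℂ, ℂ) := ⟨F, F.continuous⟩

@[simp] theorem toC_apply (F : ℂ ≃ₜ ℂ) (z : ℂ) : toC F z = F z := rfl

theorem toC_mul (F G : ℂ ≃ₜ ℂ) : toC (F * G) = (toC F).comp (toC G) := rfl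

theorem inv_apply_self' (F : ℂ ≃ₜ ℂ) (z : ℂ) : F⁻¹ (F z) = z := F.symm_apply_apply z

theorem apply_inv_self' (F : ℂ ≃ₜ ℂ) (z : ℂ) : F (F⁻¹ z) = z := F.apply_symm_apply z

theorem isHomeo_toC (F : ℂ ≃ₜ ℂ) : IsHomeo (toC F) :=
  ⟨toC F⁻¹, apply_inv_self' F, inv_apply_self' F⟩

/-- pairs of commuting homeomorphisms of Euler number `k` -/
def PK (k : ℤ) (F G : ℂ ≃ₜ ℂ) : Prop := (toC F, toC G) ∈ HomK k

theorem PK.comm {k : ℤ} {F G : ℂ ≃ₜ ℂ} (h : PK k F G) : F * G = G * F := by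
  ext z
  exact (mem_HomK_iff.1 h).1 z

theorem LogDiff.ofInv {f fi : C(ℂ, ℂ)} {ℓ : C(Conf, ℂ)} (hf : LogDiff f ℓ)
    (h1 : ∀ x, f (fi x) = x) (hi : Function.Injective fi) :
    LogDiff fi (-(ℓ.comp (Conf.map fi hi))) := by
  intro a
  have h := hf (Conf.map fi hi a)
  simp only [Conf.map_fst, Conf.map_snd, h1] at h
  simp only [ContinuousMap.neg_apply, ContinuousMap.comp_apply, Complex.exp_neg]
  rw [← h, ← mul_assoc, inv_mul_cancel₀ (Complex.exp_ne_zero _), one_mul]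

/-- the move `(f, g) ↦ (f, g f)` -/
theorem HomK_T {k : ℤ} {f g : C(ℂ, ℂ)} (h : (f, g) ∈ HomK k) : (f, g.comp f) ∈ HomK k := by
  obtain ⟨hc, hi1, hi2, hE⟩ := mem_HomK_iff.1 h
  simp only at hc hi1 hi2 hE
  obtain ⟨ℓf, hf⟩ := hi1.exists_logDiff
  obtain ⟨ℓg, hg⟩ := hi2.exists_logDiff
  have hc' : ∀ x, f (g.comp f x) = g.comp f (f x) := fun x => by
    simp only [ContinuousMap.comp_apply]
    rw [hc]
  refine mem_HomK_iff.2 ⟨hc', hi1, hi2.comp hi1, EulerEq.of_one hc' hf (hg.comp hf)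
    (a := ⟨(1, 0), one_ne_zero⟩) ?_⟩
  have h1 := hE ℓf ℓg hf hg (Conf.map f hf.inj ⟨(1, 0), one_ne_zero⟩)
  simp only [ContinuousMap.add_apply, ContinuousMap.comp_apply]
  have e1 : Conf.map (g.comp f) (hg.comp hf).inj ⟨(1, 0), one_ne_zero⟩ =
      Conf.map g hg.inj (Conf.map f hf.inj ⟨(1, 0), one_ne_zero⟩) := rfl
  rw [e1]
  linear_combination h1

/-- the move `(f, g) ↦ (g⁻¹, f)` -/
theorem HomK_S {k : ℤ} {f g gi : C(ℂ, ℂ)} (h : (f, g) ∈ HomK k) (g1 : ∀ x, g (gi x) = x)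
    (g2 : ∀ x, gi (g x) = x) : (gi, f) ∈ HomK k := by
  obtain ⟨hc, hi1, hi2, hE⟩ := mem_HomK_iff.1 h
  simp only at hc hi1 hi2 hE
  obtain ⟨ℓf, hf⟩ := hi1.exists_logDiff
  obtain ⟨ℓg, hg⟩ := hi2.exists_logDiff
  have hgi : Function.Injective gi := Function.LeftInverse.injective g1
  have hc' : ∀ x, gi (f x) = f (gi x) := fun x => by
    have := hc (gi x)
    rw [g1] at this
    rw [this, g2]
  have hlg := hg.ofInv g1 hgi
  refine mem_HomK_iff.2 ⟨hc', hi2.inv g1, hi1, EulerEq.of_one hc' hlg hf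
    (a := Conf.map g hg.inj ⟨(1, 0), one_ne_zero⟩) ?_⟩
  have h1 := hE ℓf ℓg hf hg ⟨(1, 0), one_ne_zero⟩
  simp only [ContinuousMap.neg_apply, ContinuousMap.comp_apply]
  have e1 : Conf.map gi hgi (Conf.map g hg.inj ⟨(1, 0), one_ne_zero⟩) = ⟨(1, 0), one_ne_zero⟩ := by
    apply Subtype.ext
    apply Prod.ext
    · exact g2 1
    · exact g2 0
  have e2 : Conf.map gi hgi (Conf.map f hf.inj (Conf.map g hg.inj ⟨(1, 0), one_ne_zero⟩)) =
      Conf.map f hf.inj ⟨(1, 0), one_ne_zero⟩ := by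
    apply Subtype.ext
    apply Prod.ext
    · change gi (f (g 1)) = f 1
      rw [hc, g2]
    · change gi (f (g 0)) = f 0
      rw [hc, g2]
  rw [e2, e1]
  linear_combination h1

theorem PK.T {k : ℤ} {F G : ℂ ≃ₜ ℂ} (h : PK k F G) : PK k F (G * F) := HomK_T h

theorem PK.S {k : ℤ} {F G : ℂ ≃ₜ ℂ} (h : PK k F G) : PK k G⁻¹ F :=
  HomK_S h (apply_inv_self' G) (inv_apply_self' G)

theorem PK.S' {k : ℤ} {F G : ℂ ≃ₜ ℂ} (h : PK k F G) : PK k G F⁻¹ := by
  have h1 := h.S.S.S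
  rw [inv_inv] at h1
  exact h1

theorem PK.Ti {k : ℤ} {F G : ℂ ≃ₜ ℂ} (h : PK k F G) : PK k F (G * F⁻¹) := by
  -- `T⁻¹ = S T S T S` up to sign
  have h1 : PK k G⁻¹ F := h.S
  have h2 : PK k G⁻¹ (F * G⁻¹) := h1.T
  have h3 : PK k (F * G⁻¹)⁻¹ G⁻¹ := h2.S
  have h4 : PK k (F * G⁻¹)⁻¹ (G⁻¹ * (F * G⁻¹)⁻¹) := h3.T
  have h5 : PK k (G⁻¹ * (F * G⁻¹)⁻¹)⁻¹ (F * G⁻¹)⁻¹ := h4.S
  have e1 : (G⁻¹ * (F * G⁻¹)⁻¹)⁻¹ = F := by group
  have e2 : (F * G⁻¹)⁻¹ = G * F⁻¹ := by group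
  rw [e1, e2] at h5
  exact h5

/-- the relation of being in one path component -/
def JK (k : ℤ) (F G F' G' : ℂ ≃ₜ ℂ) : Prop :=
  JoinedIn (HomK k) (toC F, toC G) (toC F', toC G')

/-- families from paths of pairs -/
theorem families_of_joined {k : ℤ} {p q : C(ℂ, ℂ) × C(ℂ, ℂ)} (h : JoinedIn (HomK k) p q) :
    ∃ P Q : C(unitInterval × ℂ, ℂ), (∀ s, (slice P s, slice Q s) ∈ HomK k) ∧
      (slice P 0, slice Q 0) = p ∧ (slice P 1, slice Q 1) = q := by
  obtain ⟨γ, hγ⟩ := h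
  let P : C(unitInterval × ℂ, ℂ) := ContinuousMap.uncurry ⟨fun s => (γ s).1, by fun_prop⟩
  let Q : C(unitInterval × ℂ, ℂ) := ContinuousMap.uncurry ⟨fun s => (γ s).2, by fun_prop⟩
  have hP : ∀ s, slice P s = (γ s).1 := fun s => by ext z; rfl
  have hQ : ∀ s, slice Q s = (γ s).2 := fun s => by ext z; rfl
  refine ⟨P, Q, fun s => by rw [hP, hQ]; exact hγ s, ?_, ?_⟩
  · rw [hP, hQ, γ.source]
  · rw [hP, hQ, γ.target]

theorem JK.T {k : ℤ} {F G F' G' : ℂ ≃ₜ ℂ} (h : JK k F G F' G') : JK k F (G * F) F' (G' * F') := by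
  obtain ⟨P, Q, hPQ, h0, h1⟩ := families_of_joined h
  obtain ⟨hP0, hQ0⟩ := Prod.ext_iff.1 h0
  obtain ⟨hP1, hQ1⟩ := Prod.ext_iff.1 h1
  simp only at hP0 hQ0 hP1 hQ1
  let Q' : C(unitInterval × ℂ, ℂ) := ⟨fun q => Q (q.1, P (q.1, q.2)), by fun_prop⟩
  have hQ' : ∀ s, slice Q' s = (slice Q s).comp (slice P s) := fun s => rfl
  have hm := fun s => HomK_T (hPQ s)
  have j := HomK_joined (k := k) P Q' (fun s => (mem_HomK_iff.1 (hPQ s)).2.1.isHomeo)
    (fun s => by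
      rw [hQ']
      exact (mem_HomK_iff.1 (hm s)).2.2.1.isHomeo) (fun s x => (mem_HomK_iff.1 (hm s)).1 x)
    (by rw [hQ']; exact hm 0)
  rw [hQ', hQ', hP0, hQ0, hP1, hQ1] at j
  exact j

theorem JK.S {k : ℤ} {F G F' G' : ℂ ≃ₜ ℂ} (h : JK k F G F' G') : JK k G⁻¹ F G'⁻¹ F' := by
  obtain ⟨P, Q, hPQ, h0, h1⟩ := families_of_joined h
  obtain ⟨hP0, hQ0⟩ := Prod.ext_iff.1 h0
  obtain ⟨hP1, hQ1⟩ := Prod.ext_iff.1 h1
  simp only at hP0 hQ0 hP1 hQ1
  obtain ⟨Qi, hQi⟩ := continuous_inv_family Q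
    (fun s => (mem_HomK_iff.1 (hPQ s)).2.2.1.isHomeo)
  have hm : ∀ s, (slice Qi s, slice P s) ∈ HomK k := fun s =>
    HomK_S (hPQ s) (fun x => (hQi s x).1) (fun x => (hQi s x).2)
  have j := HomK_joined (k := k) Qi P (fun s => (mem_HomK_iff.1 (hm s)).2.1.isHomeo)
    (fun s => (mem_HomK_iff.1 (hm s)).2.2.1.isHomeo) (fun s x => (mem_HomK_iff.1 (hm s)).1 x)
    (hm 0)
  have e0 : slice Qi 0 = toC G⁻¹ := by
    ext z
    have h2 := (hQi 0 (G⁻¹ z)).2
    have h3 : Q (0, G⁻¹ z) = z := by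
      have := congrArg (fun f : C(ℂ, ℂ) => f (G⁻¹ z)) hQ0
      exact this.trans (apply_inv_self' G z)
    rw [h3] at h2
    exact h2
  have e1 : slice Qi 1 = toC G'⁻¹ := by
    ext z
    have h2 := (hQi 1 (G'⁻¹ z)).2
    have h3 : Q (1, G'⁻¹ z) = z := by
      have := congrArg (fun f : C(ℂ, ℂ) => f (G'⁻¹ z)) hQ1
      exact this.trans (apply_inv_self' G' z)
    rw [h3] at h2
    exact h2
  rw [e0, e1, hP0, hP1] at j
  exact j

theorem JK.S' {k : ℤ} {F G F' G' : ℂ ≃ₜ ℂ} (h : JK k F G F' G') : JK k G F⁻¹ G' F'⁻¹ := by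
  have h1 := h.S.S.S
  rw [inv_inv, inv_inv] at h1
  exact h1

theorem JK.Ti {k : ℤ} {F G F' G' : ℂ ≃ₜ ℂ} (h : JK k F G F' G') :
    JK k F (G * F⁻¹) F' (G' * F'⁻¹) := by
  have h5 := h.S.T.S.T.S
  have e1 : ∀ F G : ℂ ≃ₜ ℂ, (G⁻¹ * (F * G⁻¹)⁻¹)⁻¹ = F := fun F G => by group
  have e2 : ∀ F G : ℂ ≃ₜ ℂ, (F * G⁻¹)⁻¹ = G * F⁻¹ := fun F G => by group
  rw [e1, e1, e2, e2] at h5
  exact h5

theorem JK.trans {k : ℤ} {F G F' G' F'' G'' : ℂ ≃ₜ ℂ} (h : JK k F G F' G')
    (h' : JK k F' G' F'' G'') : JK k F G F'' G'' := JoinedIn.trans h h'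

theorem JK.symm {k : ℤ} {F G F' G' : ℂ ≃ₜ ℂ} (h : JK k F G F' G') : JK k F' G' F G :=
  JoinedIn.symm h

/-- reduction of primitive elements to the first element -/
theorem primitive_induction {k : ℤ} {X : (ℂ ≃ₜ ℂ) → Prop} {E1 E2 : ℂ ≃ₜ ℂ}
    (base : ∀ F G, PK k F G → X F → JK k F G E1 E2)
    (hT : JK k E1 (E2 * E1) E1 E2) (hS : JK k E2⁻¹ E1 E1 E2) :
    ∀ (a b : ℤ), IsCoprime a b → ∀ F G, PK k F G → X (F ^ a * G ^ b) → JK k F G E1 E2 := by
  have hTi : JK k E1 (E2 * E1⁻¹) E1 E2 := by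
    have h1 := hT.Ti
    have e : E2 * E1 * E1⁻¹ = E2 := by group
    rw [e] at h1
    exact h1.symm
  have hS' : JK k E2 E1⁻¹ E1 E2 := by
    have h1 := hS.S'
    rw [inv_inv] at h1
    exact h1.symm
  let P : ℤ → ℤ → Prop := fun a b => ∀ F G, PK k F G → X (F ^ a * G ^ b) → JK k F G E1 E2
  have stepT : ∀ a b, P (a + b) b → P a b := by
    intro a b h F G hFG hX
    have hcm := hFG.comm
    have hTi' := hFG.Ti
    have hC : Commute F G := hcm
    have e1 : F ^ (a + b) * (G * F⁻¹) ^ b = F ^ a * G ^ b := by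
      have hC2 : Commute G F⁻¹ := (hC.symm).inv_right
      rw [hC2.mul_zpow, zpow_add, inv_zpow]
      have hC3 : Commute (F ^ b) (G ^ b) := (hC.zpow_left b).zpow_right b
      rw [mul_assoc, ← mul_assoc (F ^ b), hC3.eq, mul_assoc (G ^ b), mul_inv_cancel, mul_one]
    have j := h F (G * F⁻¹) hTi' (by rw [e1]; exact hX)
    have j2 := j.T
    have e2 : G * F⁻¹ * F = G := by group
    rw [e2] at j2
    exact j2.trans hT
  have stepTi : ∀ a b, P (a - b) b → P a b := by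
    intro a b h F G hFG hX
    have hcm := hFG.comm
    have hC : Commute F G := hcm
    have e1 : F ^ (a - b) * (G * F) ^ b = F ^ a * G ^ b := by
      rw [hC.symm.mul_zpow, zpow_sub]
      have hC3 : Commute (F ^ b) (G ^ b) := (hC.zpow_left b).zpow_right b
      rw [← hC3.eq, mul_assoc, ← mul_assoc (F ^ b)⁻¹, inv_mul_cancel, one_mul]
    have j := h F (G * F) hFG.T (by rw [e1]; exact hX)
    have j2 := j.Ti
    have e2 : G * F * F⁻¹ = G := by group
    rw [e2] at j2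
    exact j2.trans hTi
  have stepS : ∀ a b, P (-b) a → P a b := by
    intro a b h F G hFG hX
    have hC : Commute F G := hFG.comm
    have e1 : (G⁻¹) ^ (-b) * F ^ a = F ^ a * G ^ b := by
      rw [inv_zpow', neg_neg]
      exact ((hC.zpow_left a).zpow_right b).eq.symm
    have j := h G⁻¹ F hFG.S (by rw [e1]; exact hX)
    have j2 := j.S'
    rw [inv_inv] at j2
    exact j2.trans hS'
  have stepn : ∀ (n : ℕ) (a b : ℤ), P (a + n * b) b → P a b := by
    intro n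
    induction n with
    | zero => intro a b h; simpa using h
    | succ n ih =>
      intro a b h
      apply stepT
      apply ih
      have e : a + b + (n : ℤ) * b = a + ((n + 1 : ℕ) : ℤ) * b := by push_cast; ring
      rw [e]
      exact h
  have stepm : ∀ (n : ℕ) (a b : ℤ), P (a - n * b) b → P a b := by
    intro n
    induction n with
    | zero => intro a b h; simpa using h
    | succ n ih =>
      intro a b h
      apply stepTi
      apply ih
      have e : a - b - (n : ℤ) * b = a - ((n + 1 : ℕ) : ℤ) * b := by push_cast; ring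
      rw [e]
      exact h
  have stepz : ∀ (n : ℤ) (a b : ℤ), P (a + n * b) b → P a b := by
    intro n a b h
    obtain ⟨m, rfl | rfl⟩ := n.eq_nat_or_neg
    · exact stepn m a b h
    · apply stepm m a b
      have e : a - (m : ℤ) * b = a + -(m : ℤ) * b := by ring
      rw [e]
      exact h
  have base1 : P 1 0 := by
    intro F G hFG hX
    rw [zpow_one, zpow_zero, mul_one] at hX
    exact base F G hFG hX
  have base2 : P (-1) 0 := by
    apply stepS
    apply stepS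
    simpa using base1
  have key : ∀ (n : ℕ) (a b : ℤ), b.natAbs ≤ n → IsCoprime a b → P a b := by
    intro n
    induction n with
    | zero =>
      intro a b hb hab
      have hb0 : b = 0 := by omega
      subst hb0
      rw [isCoprime_zero_right] at hab
      rcases Int.isUnit_iff.1 hab with h | h
      · rw [h]; exact base1
      · rw [h]; exact base2
    | succ n ih =>
      intro a b hb hab
      by_cases hb0 : b = 0
      · exact ih a b (by omega) hab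
      · apply stepz (-(a / b)) a b
        have e : a + -(a / b) * b = a % b := by
          have := Int.emod_add_mul_ediv a b
          linarith [mul_comm (a / b) b]
        rw [e]
        apply stepS
        apply ih
        · have h1 := Int.emod_nonneg a hb0
          have h2 := Int.emod_lt_abs a hb0
          rw [Int.abs_eq_natAbs] at h2
          omega
        · have h3 : IsCoprime (a % b) b := by
            rw [← e]
            exact (IsCoprime.add_mul_right_left_iff (z := -(a / b))).2 hab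
          exact (IsCoprime.neg_left h3.symm)
  intro a b hab
  exact key _ a b le_rfl hab

end Pool.Agent.Helper984_CP
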