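import Pool.Agent.Helper984_CP.Fix

/-!
# Existence and uniqueness of the common fixed point when the Euler number is nonzero
-/

set_option autoImplicit false

open Set Filter Topology Complex

noncomputable section

namespace Pool.Agent.Helper984_CP

theorem two_pi_I_mul_ne {k : ℤ} (hk : k ≠ 0) : (2 * Real.pi * Complex.I : ℂ) * k ≠ 0 := by
  have h2pi : (2 * Real.pi * Complex.I : ℂ) ≠ 0 := by simp [Real.pi_ne_zero]
  exact mul_ne_zero h2pi (by exact_mod_cast hk)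

theorem norm_two_pi_I_mul {k : ℤ} (hk : k ≠ 0) : 6 ≤ ‖(2 * Real.pi * Complex.I : ℂ) * k‖ := by
  rw [norm_mul, norm_mul, norm_mul, Complex.norm_I, Complex.norm_real, Complex.norm_intCast]
  have h1 : (1 : ℝ) ≤ |(k : ℝ)| := by
    exact_mod_cast Int.one_le_abs hk
  have h2 : ‖Real.pi‖ = Real.pi := Real.norm_of_nonneg Real.pi_pos.le
  rw [h2]
  have h3 := Real.pi_gt_three
  have h4 : ‖(2 : ℂ)‖ = 2 := by simp
  rw [h4]
  nlinarith

theorem iter_fixed {f g : C(ℂ, ℂ)} (hc : ∀ x, f (g x) = g (f x)) {x : ℂ} (hx : f x = x) (n : ℕ) :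
    f (g^[n] x) = g^[n] x := by
  induction n with
  | zero => simpa using hx
  | succ n ih => rw [Function.iterate_succ_apply', hc, ih]

/-- orbits in the fixed point set of `f` are not bounded in the future -/
theorem orbit_not_bounded {k : ℤ} {f g : C(ℂ, ℂ)} (hc : ∀ x, f (g x) = g (f x))
    {ℓf ℓg : C(Conf, ℂ)} (hf : LogDiff f ℓf) (hg : LogDiff g ℓg) (hE : EulerEq k f g)
    (hk : k ≠ 0) (hno : ∀ z, f z = z → g z ≠ z) {x : ℂ} (hx : f x = x) (R : ℝ) (n0 : ℕ) :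
    ∃ n, n0 ≤ n ∧ R < ‖g^[n] x‖ := by
  by_contra hcon
  push Not at hcon
  let K : Type := {u : ℂ // u ∈ Metric.closedBall (0 : ℂ) R ∩ {u | f u = u}}
  have hcomp : IsCompact (Metric.closedBall (0 : ℂ) R ∩ {u | f u = u}) :=
    (isCompact_closedBall 0 R).inter_right (isClosed_eq f.continuous continuous_id)
  have : CompactSpace K := isCompact_iff_compactSpace.1 hcomp
  let P : C(K, Conf) := ⟨fun u => ⟨(u.1, g u.1), fun h => hno u.1 u.2.2 h.symm⟩,
    ((continuous_subtype_val).prodMk (g.continuous.comp continuous_subtype_val)).subtype_mk _⟩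
  obtain ⟨M, hM⟩ := (isCompact_univ (X := K)).exists_bound_of_continuousOn
    (f := fun u => ℓf (P u)) (by fun_prop)
  have hX : ∀ n, f (g^[n] x) = g^[n] x := iter_fixed hc hx
  have hne : ∀ n, g^[n] x ≠ g^[n + 1] x := fun n h => by
    rw [Function.iterate_succ_apply'] at h
    exact hno _ (hX n) h.symm
  have hstep : ∀ n, ℓf ⟨(g^[n + 1] x, g^[n + 2] x), hne (n + 1)⟩ =
      ℓf ⟨(g^[n] x, g^[n + 1] x), hne n⟩ + 2 * Real.pi * Complex.I * k := by
    intro n
    have h1 := hE ℓf ℓg hf hg ⟨(g^[n] x, g^[n + 1] x), hne n⟩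
    have e1 : Conf.map g hg.inj ⟨(g^[n] x, g^[n + 1] x), hne n⟩ =
        ⟨(g^[n + 1] x, g^[n + 2] x), hne (n + 1)⟩ := by
      apply Subtype.ext
      apply Prod.ext
      · exact (Function.iterate_succ_apply' g n x).symm
      · exact (Function.iterate_succ_apply' g (n + 1) x).symm
    have e2 : Conf.map f hf.inj ⟨(g^[n] x, g^[n + 1] x), hne n⟩ =
        ⟨(g^[n] x, g^[n + 1] x), hne n⟩ := by
      apply Subtype.ext
      apply Prod.ext
      · exact hX n
      · exact hX (n + 1)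
    rw [e1, e2] at h1
    linear_combination h1
  have hval : ∀ n : ℕ, ℓf ⟨(g^[n] x, g^[n + 1] x), hne n⟩ =
      ℓf ⟨(g^[0] x, g^[0 + 1] x), hne 0⟩ + n * (2 * Real.pi * Complex.I * k) := by
    intro n
    induction n with
    | zero => simp
    | succ n ih => rw [hstep, ih]; push_cast; ring
  obtain ⟨N, hN⟩ := exists_nat_gt ((M + ‖ℓf ⟨(g^[0] x, g^[0 + 1] x), hne 0⟩‖))
  have h1 := hcon (max n0 N) (le_max_left _ _)
  have h2 := hM (⟨g^[max n0 N] x, ⟨mem_closedBall_zero_iff.2 h1, hX _⟩⟩ : K) (mem_univ _)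
  have e3 : P (⟨g^[max n0 N] x, ⟨mem_closedBall_zero_iff.2 h1, hX _⟩⟩ : K) =
      ⟨(g^[max n0 N] x, g^[max n0 N + 1] x), hne _⟩ := by
    apply Subtype.ext
    apply Prod.ext
    · rfl
    · exact (Function.iterate_succ_apply' g _ x).symm
  change ‖ℓf (P (⟨g^[max n0 N] x, ⟨mem_closedBall_zero_iff.2 h1, hX _⟩⟩ : K))‖ ≤ M at h2
  rw [e3, hval] at h2
  have h3 : ‖((max n0 N : ℕ) : ℂ) * (2 * Real.pi * Complex.I * k)‖ ≤
      M + ‖ℓf ⟨(g^[0] x, g^[0 + 1] x), hne 0⟩‖ := by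
    have := norm_sub_le (ℓf ⟨(g^[0] x, g^[0 + 1] x), hne 0⟩ +
      ((max n0 N : ℕ) : ℂ) * (2 * Real.pi * Complex.I * k)) (ℓf ⟨(g^[0] x, g^[0 + 1] x), hne 0⟩)
    rw [add_sub_cancel_left] at this
    linarith
  rw [norm_mul, Complex.norm_natCast] at h3
  have h4 := norm_two_pi_I_mul hk
  have h5 : (N : ℝ) ≤ ((max n0 N : ℕ) : ℝ) := by exact_mod_cast le_max_right _ _
  have h6 : (0 : ℝ) ≤ (N : ℝ) := Nat.cast_nonneg _
  nlinarith

/-- orbits in the fixed point set of `f` tend to infinity in the future -/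
theorem orbit_tendsto {k : ℤ} {f g : C(ℂ, ℂ)} (hc : ∀ x, f (g x) = g (f x))
    {ℓf ℓg : C(Conf, ℂ)} (hf : LogDiff f ℓf) (hg : LogDiff g ℓg) (hE : EulerEq k f g)
    (hk : k ≠ 0) (hno : ∀ z, f z = z → g z ≠ z) (hgp : Tendsto g (cocompact ℂ) (cocompact ℂ))
    {x y : ℂ} (hx : f x = x) (hy : g y = y) :
    Tendsto (fun n => ‖g^[n] x‖) atTop atTop := by
  have hX : ∀ n, f (g^[n] x) = g^[n] x := iter_fixed hc hx
  have hfy : f y ≠ y := fun h => hno y h hy
  have hney : ∀ z, f z = z → z ≠ y := fun z hz h => hfy (by rw [← h]; exact hz)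
  have hnefy : ∀ z, f z = z → z ≠ f y := fun z hz h => by
    have h1 : f z = f y := by rw [hz, h]
    exact hney z hz (hf.inj h1)
  obtain ⟨R0, -, hR0⟩ := far_small hg hgp (max ‖y‖ ‖f y‖) (ε := 1) one_pos
  rw [tendsto_atTop]
  intro R1
  obtain ⟨R, hRR0, hRR1⟩ : ∃ R, R0 ≤ R ∧ R1 ≤ R := ⟨max R0 R1, le_max_left _ _, le_max_right _ _⟩
  -- bounds on the compact part of the fixed point set
  let K : Type := {u : ℂ // u ∈ Metric.closedBall (0 : ℂ) R ∩ {u | f u = u}}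
  have hcomp : IsCompact (Metric.closedBall (0 : ℂ) R ∩ {u | f u = u}) :=
    (isCompact_closedBall 0 R).inter_right (isClosed_eq f.continuous continuous_id)
  have : CompactSpace K := isCompact_iff_compactSpace.1 hcomp
  let P : C(K, Conf) := ⟨fun u => ⟨((u : ℂ), y), hney u u.2.2⟩, by fun_prop⟩
  let Q : C(K, Conf) := ⟨fun u => ⟨((u : ℂ), f y), hnefy u u.2.2⟩, by fun_prop⟩
  obtain ⟨M1, hM1⟩ := (isCompact_univ (X := K)).exists_bound_of_continuousOn
    (f := fun u => ℓg (Q u) - ℓg (P u)) (by fun_prop)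
  obtain ⟨M2, hM2⟩ := (isCompact_univ (X := K)).exists_bound_of_continuousOn
    (f := fun u => ℓf (P u)) (by fun_prop)
  obtain ⟨κ, hκ⟩ : ∃ κ : ℂ, κ = 2 * Real.pi * Complex.I * k := ⟨_, rfl⟩
  have hκ6 : 6 ≤ ‖κ‖ := by rw [hκ]; exact norm_two_pi_I_mul hk
  let u : ℕ → ℂ := fun n => ℓf ⟨(g^[n] x, y), hney _ (hX n)⟩
  let D : ℕ → ℂ := fun n => ℓg ⟨(g^[n] x, f y), hnefy _ (hX n)⟩ - ℓg ⟨(g^[n] x, y), hney _ (hX n)⟩
  have hstep : ∀ n, u (n + 1) = u n + D n + κ := by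
    intro n
    have h1 := hE ℓf ℓg hf hg ⟨(g^[n] x, y), hney _ (hX n)⟩
    have e1 : Conf.map g hg.inj ⟨(g^[n] x, y), hney _ (hX n)⟩ =
        ⟨(g^[n + 1] x, y), hney _ (hX (n + 1))⟩ := by
      apply Subtype.ext
      apply Prod.ext
      · exact (Function.iterate_succ_apply' g n x).symm
      · exact hy
    have e2 : Conf.map f hf.inj ⟨(g^[n] x, y), hney _ (hX n)⟩ =
        ⟨(g^[n] x, f y), hnefy _ (hX n)⟩ := by
      apply Subtype.ext
      apply Prod.ext
      · exact hX n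
      · rfl
    rw [e1, e2, ← hκ] at h1
    simp only [u, D]
    linear_combination h1
  have hDfar : ∀ n, R < ‖g^[n] x‖ → ‖D n‖ ≤ 1 := by
    intro n hn
    exact hR0 _ _ _ (lt_of_le_of_lt hRR0 hn) (le_max_right _ _) (le_max_left _ _) _ _
  have hDnear : ∀ n, ‖g^[n] x‖ ≤ R → ‖D n‖ ≤ M1 := by
    intro n hn
    exact hM1 (⟨g^[n] x, ⟨mem_closedBall_zero_iff.2 hn, hX n⟩⟩ : K) (mem_univ _)
  have hunear : ∀ n, ‖g^[n] x‖ ≤ R → ‖u n‖ ≤ M2 := by
    intro n hn
    exact hM2 (⟨g^[n] x, ⟨mem_closedBall_zero_iff.2 hn, hX n⟩⟩ : K) (mem_univ _)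
  have hexc : ∀ m, ‖g^[m] x‖ ≤ R → ∀ l : ℕ, (∀ j, m < j → j ≤ m + l → R < ‖g^[j] x‖) →
      ‖u (m + l + 1) - u m - (l + 1) * κ‖ ≤ M1 + l := by
    intro m hm l
    induction l with
    | zero =>
      intro _
      rw [add_zero, hstep]
      have : u m + D m + κ - u m - (((0 : ℕ) : ℂ) + 1) * κ = D m := by push_cast; ring
      rw [this]
      simpa using hDnear m hm
    | succ l ih =>
      intro hfar
      have h1 := ih (fun j hj hj' => hfar j hj (by omega))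
      have h2 := hDfar (m + (l + 1)) (hfar _ (by omega) le_rfl)
      have h3 : u (m + (l + 1) + 1) - u m - (((l + 1 : ℕ) : ℂ) + 1) * κ =
          (u (m + l + 1) - u m - (l + 1) * κ) + D (m + (l + 1)) := by
        rw [hstep (m + (l + 1))]
        push_cast
        have : u (m + (l + 1)) = u (m + l + 1) := rfl
        rw [this]
        ring
      rw [h3]
      refine (norm_add_le _ _).trans ?_
      push_cast
      linarith
  obtain ⟨N0, hN0⟩ := exists_nat_gt (2 * M2 + M1 + 1)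
  have hM2' : 0 ≤ M2 ∨ ∀ n, R < ‖g^[n] x‖ := by
    by_cases h : ∃ n, ‖g^[n] x‖ ≤ R
    · obtain ⟨n, hn⟩ := h
      exact Or.inl ((norm_nonneg _).trans (hunear n hn))
    · push Not at h
      exact Or.inr h
  have hgap : ∀ m m', m < m' → ‖g^[m] x‖ ≤ R → ‖g^[m'] x‖ ≤ R →
      (∀ j, m < j → j < m' → R < ‖g^[j] x‖) → m' - m ≤ N0 := by
    intro m m' hmm hm hm' hj
    obtain ⟨l, rfl⟩ : ∃ l, m' = m + l + 1 := ⟨m' - m - 1, by omega⟩
    have h1 := hexc m hm l (fun j h1 h2 => hj j h1 (by omega))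
    have h2 := hunear _ hm
    have h3 := hunear _ hm'
    have h4 : ‖((l : ℂ) + 1) * κ‖ ≤ M1 + l + 2 * M2 := by
      have e : ((l : ℂ) + 1) * κ = (u (m + l + 1) - u m) - (u (m + l + 1) - u m - (l + 1) * κ) := by
        ring
      rw [e]
      refine (norm_sub_le _ _).trans ?_
      have := norm_sub_le (u (m + l + 1)) (u m)
      linarith
    rw [norm_mul] at h4
    have h5 : ‖(l : ℂ) + 1‖ = l + 1 := by
      have : ((l : ℂ) + 1) = ((l + 1 : ℕ) : ℂ) := by push_cast; ring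
      rw [this, Complex.norm_natCast]
      push_cast
      ring
    rw [h5] at h4
    have h6 : (l : ℝ) + 1 < N0 := by nlinarith [Nat.cast_nonneg (α := ℝ) l]
    have h7 : l + 1 < N0 := by exact_mod_cast h6
    omega
  -- if the orbit came back infinitely often it would be bounded
  by_contra hcon
  have hfreq : ∃ᶠ n in atTop, ‖g^[n] x‖ ≤ R := by
    rw [Filter.not_eventually] at hcon
    exact hcon.mono (fun n hn => by
      push Not at hn
      exact (hn.trans_le hRR1).le)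
  obtain ⟨n1, hn1⟩ := hfreq.exists
  -- a bound for the first iterates of the ball
  have hbd : ∃ B : ℝ, ∀ j, j ≤ N0 → ∀ z : ℂ, ‖z‖ ≤ R → ‖g^[j] z‖ ≤ B := by
    have h1 : ∀ j : ℕ, ∃ B : ℝ, ∀ z : ℂ, ‖z‖ ≤ R → ‖g^[j] z‖ ≤ B := by
      intro j
      obtain ⟨B, hB⟩ := (isCompact_closedBall (0 : ℂ) R).exists_bound_of_continuousOn
        (g.continuous.iterate j).continuousOn
      exact ⟨B, fun z hz => hB z (mem_closedBall_zero_iff.2 hz)⟩
    choose B hB using h1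
    refine ⟨∑ j ∈ Finset.range (N0 + 1), |B j|, fun j hj z hz => ?_⟩
    refine (hB j z hz).trans ((le_abs_self _).trans ?_)
    exact Finset.single_le_sum (f := fun j => |B j|) (fun i _ => abs_nonneg _)
      (Finset.mem_range.2 (by omega))
  obtain ⟨B, hB⟩ := hbd
  obtain ⟨n, hn, hn'⟩ := orbit_not_bounded hc hf hg hE hk hno hx B n1
  -- last visit before time `n`
  obtain ⟨v, hv1, hv2, hv3⟩ : ∃ v, v ≤ n ∧ ‖g^[v] x‖ ≤ R ∧
      ∀ j, v < j → j ≤ n → R < ‖g^[j] x‖ := by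
    classical
    refine ⟨Nat.findGreatest (fun j => ‖g^[j] x‖ ≤ R) n, Nat.findGreatest_le n,
      Nat.findGreatest_spec (P := fun j => ‖g^[j] x‖ ≤ R) hn hn1, fun j h1 h2 => ?_⟩
    have := Nat.findGreatest_is_greatest h1 h2
    push Not at this
    exact this
  -- next visit after time `n`
  obtain ⟨w, hw1, hw2, hw3⟩ : ∃ w, n < w ∧ ‖g^[w] x‖ ≤ R ∧
      ∀ j, n < j → j < w → R < ‖g^[j] x‖ := by
    classical
    have hex : ∃ w, n < w ∧ ‖g^[w] x‖ ≤ R := by
      obtain ⟨w, hw, hw'⟩ := (frequently_atTop.1 hfreq) (n + 1)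
      exact ⟨w, hw, hw'⟩
    refine ⟨Nat.find hex, (Nat.find_spec hex).1, (Nat.find_spec hex).2, fun j h1 h2 => ?_⟩
    have := Nat.find_min hex h2
    push Not at this
    exact this h1
  have hg1 := hgap v w (by omega) hv2 hw2 (fun j h1 h2 => by
    rcases le_or_gt j n with h | h
    · exact hv3 j h1 h
    · exact hw3 j h h2)
  have h8 := hB (n - v) (by omega) _ hv2
  rw [← Function.iterate_add_apply, Nat.sub_add_cancel hv1] at h8
  linarith

end Pool.Agent.Helper984_CP
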