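import Pool.Agent.Helper984_CP.Trans

/-!
# Paths of homeomorphisms and of commuting pairs
-/

set_option autoImplicit false

open Set Filter Topology Complex

noncomputable section

namespace Pool.Agent.Helper984_CP

/-- `f` is a homeomorphism of the plane -/
def IsHomeo (f : C(ℂ, ℂ)) : Prop := ∃ fi : C(ℂ, ℂ), (∀ x, f (fi x) = x) ∧ ∀ x, fi (f x) = x

theorem isHomeo_id : IsHomeo (ContinuousMap.id ℂ) := ⟨ContinuousMap.id ℂ, fun _ => rfl, fun _ => rfl⟩

theorem IsHomeo.comp {f g : C(ℂ, ℂ)} (hf : IsHomeo f) (hg : IsHomeo g) : IsHomeo (f.comp g) := by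
  obtain ⟨fi, h1, h2⟩ := hf
  obtain ⟨gi, h3, h4⟩ := hg
  exact ⟨gi.comp fi, fun x => by simp [h1, h3], fun x => by simp [h2, h4]⟩

theorem IsHomeo.injective {f : C(ℂ, ℂ)} (hf : IsHomeo f) : Function.Injective f := by
  obtain ⟨fi, h1, h2⟩ := hf
  exact Function.LeftInverse.injective h2

/-- joint continuity of the inverse of a continuous family of plane homeomorphisms -/
theorem continuous_inv_family {Λ : Type*} [TopologicalSpace Λ] (P : C(Λ × ℂ, ℂ))
    (hP : ∀ s, ∃ fi : C(ℂ, ℂ), (∀ x, P (s, fi x) = x) ∧ ∀ x, fi (P (s, x)) = x) :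
    ∃ Pi : C(Λ × ℂ, ℂ), ∀ s x, P (s, Pi (s, x)) = x ∧ Pi (s, P (s, x)) = x := by
  choose fi h1 h2 using hP
  have hcont : Continuous fun q : Λ × ℂ => fi q.1 q.2 := by
    rw [continuous_iff_continuousAt]
    rintro ⟨s0, y0⟩
    rw [ContinuousAt, Metric.tendsto_nhds]
    intro ε hε
    obtain ⟨x0, hx0⟩ : ∃ x0, x0 = fi s0 y0 := ⟨_, rfl⟩
    have hPx0 : P (s0, x0) = y0 := by rw [hx0, h1]
    simp only
    rw [← hx0]
    obtain ⟨δ, hδ, hδS⟩ : ∃ δ > 0, ∀ x ∈ Metric.sphere x0 (ε / 2), δ ≤ ‖P (s0, x) - y0‖ := by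
      have hcomp : IsCompact (Metric.sphere x0 (ε / 2)) := isCompact_sphere _ _
      rcases (Metric.sphere x0 (ε / 2)).eq_empty_or_nonempty with hem | hne
      · exact ⟨1, one_pos, fun x hx => by rw [hem] at hx; exact hx.elim⟩
      · obtain ⟨z, hz, hmin⟩ := hcomp.exists_isMinOn hne
          (f := fun x => ‖P (s0, x) - y0‖) (by fun_prop)
        refine ⟨‖P (s0, z) - y0‖, ?_, fun x hx => hmin hx⟩
        rw [gt_iff_lt, norm_pos_iff, sub_ne_zero]
        intro h
        have h3 : z = x0 := by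
          rw [hx0, ← h, h2]
        rw [h3, Metric.mem_sphere, dist_self] at hz
        linarith
    have hunif : ∀ᶠ s in 𝓝 s0, ∀ x ∈ Metric.closedBall x0 (ε / 2),
        ‖P (s, x) - P (s0, x)‖ < δ / 3 := by
      apply (isCompact_closedBall x0 (ε / 2)).eventually_forall_of_forall_eventually
      intro x _
      have hc : Continuous fun q : Λ × ℂ => ‖P (q.1, q.2) - P (s0, q.2)‖ :=
        (P.continuous.sub (P.continuous.comp
          (continuous_const.prodMk continuous_snd))).norm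
      have h3 := hc.tendsto (s0, x)
      simp only [sub_self, norm_zero] at h3
      exact h3.eventually (gt_mem_nhds (by positivity))
    have hnear : ∀ᶠ y in 𝓝 y0, y ∈ Metric.ball y0 (δ / 3) := Metric.ball_mem_nhds _ (by positivity)
    filter_upwards [hunif.prod_nhds hnear] with q hq
    obtain ⟨hq1, hq2⟩ := hq
    by_contra hcon
    push Not at hcon
    -- the preimage of the small ball is connected, meets the inside, and avoids the sphere
    have hconn : IsPreconnected (fi q.1 '' Metric.ball y0 (δ / 3)) :=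
      (convex_ball y0 (δ / 3)).isPreconnected.image _ (fi q.1).continuous.continuousOn
    have hin : x0 ∈ fi q.1 '' Metric.ball y0 (δ / 3) := by
      refine ⟨P (q.1, x0), ?_, h2 _ _⟩
      rw [mem_ball_iff_norm]
      have := hq1 x0 (Metric.mem_closedBall_self (by positivity))
      rwa [hPx0] at this
    have hout : fi q.1 q.2 ∈ fi q.1 '' Metric.ball y0 (δ / 3) := ⟨q.2, hq2, rfl⟩
    have himg : IsPreconnected ((fun x => dist x x0) '' (fi q.1 '' Metric.ball y0 (δ / 3))) :=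
      hconn.image _ (by fun_prop)
    have h0 : (0 : ℝ) ∈ (fun x => dist x x0) '' (fi q.1 '' Metric.ball y0 (δ / 3)) :=
      ⟨x0, hin, by simp⟩
    have h3 : dist (fi q.1 q.2) x0 ∈ (fun x => dist x x0) '' (fi q.1 '' Metric.ball y0 (δ / 3)) :=
      ⟨_, hout, rfl⟩
    have h4 := himg.Icc_subset h0 h3 (show ε / 2 ∈ Icc 0 (dist (fi q.1 q.2) x0) from
      ⟨by positivity, by linarith⟩)
    obtain ⟨x, ⟨y, hy, rfl⟩, hx⟩ := h4
    simp only at hx
    have h5 := hδS (fi q.1 y) hx
    have h6 := hq1 (fi q.1 y) (Metric.sphere_subset_closedBall hx)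
    rw [h1] at h6
    rw [mem_ball_iff_norm] at hy
    have h7 : P (s0, fi q.1 y) - y0 = (y - y0) - (y - P (s0, fi q.1 y)) := by ring
    rw [h7] at h5
    have h8 := norm_sub_le (y - y0) (y - P (s0, fi q.1 y))
    linarith
  exact ⟨⟨fun q => fi q.1 q.2, hcont⟩, fun s x => ⟨h1 s x, h2 s x⟩⟩

/-- the slice of a family -/
def slice (P : C(unitInterval × ℂ, ℂ)) (s : unitInterval) : C(ℂ, ℂ) := P.curry s

@[simp] theorem slice_apply (P : C(unitInterval × ℂ, ℂ)) (s : unitInterval) (x : ℂ) :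
    slice P s x = P (s, x) := rfl

theorem continuous_slice (P : C(unitInterval × ℂ, ℂ)) : Continuous (slice P) := P.curry.continuous

/-- isotopy to the identity in terms of families over the unit interval -/
theorem isoId_iff {f : C(ℂ, ℂ)} : IsoId f ↔ ∃ P : C(unitInterval × ℂ, ℂ),
    (∀ s, IsHomeo (slice P s)) ∧ (∀ x, P (0, x) = x) ∧ ∀ x, P (1, x) = f x := by
  constructor
  · rintro ⟨F, Fi, h1, h2⟩
    refine ⟨⟨fun q => F (q.1, q.2), by fun_prop⟩, fun s => ?_, fun x => ?_, fun x => ?_⟩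
    · exact ⟨⟨fun x => Fi (s, x), by fun_prop⟩, fun x => (h1 s s.2 x).1, fun x => (h1 s s.2 x).2⟩
    · simp [(h2 x).1]
    · simp [(h2 x).2]
  · rintro ⟨P, h1, h2, h3⟩
    obtain ⟨Pi, hPi⟩ := continuous_inv_family P (fun s => h1 s)
    refine ⟨⟨fun q => P (projIcc 0 1 zero_le_one q.1, q.2), ?_⟩,
      ⟨fun q => Pi (projIcc 0 1 zero_le_one q.1, q.2), ?_⟩, fun t _ x => ?_, fun x => ?_⟩
    · exact P.continuous.comp ((continuous_projIcc.comp continuous_fst).prodMk continuous_snd)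
    · exact Pi.continuous.comp ((continuous_projIcc.comp continuous_fst).prodMk continuous_snd)
    · exact hPi _ _
    · constructor
      · simp only [ContinuousMap.coe_mk]
        rw [projIcc_left]
        exact h2 x
      · simp only [ContinuousMap.coe_mk]
        rw [projIcc_right]
        exact h3 x

theorem IsoId.isHomeo {f : C(ℂ, ℂ)} (h : IsoId f) : IsHomeo f := h.exists_inv

theorem IsoId.comp {f g : C(ℂ, ℂ)} (hf : IsoId f) (hg : IsoId g) : IsoId (f.comp g) := by
  rw [isoId_iff] at *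
  obtain ⟨P, h1, h2, h3⟩ := hf
  obtain ⟨Q, h4, h5, h6⟩ := hg
  refine ⟨⟨fun q => P (q.1, Q (q.1, q.2)), by fun_prop⟩, fun s => ?_, fun x => ?_, fun x => ?_⟩
  · exact (h1 s).comp (h4 s)
  · simp [h2, h5]
  · simp [h3, h6]

theorem IsoId.inv {f fi : C(ℂ, ℂ)} (hf : IsoId f) (h : ∀ x, f (fi x) = x) : IsoId fi := by
  rw [isoId_iff] at *
  obtain ⟨P, h1, h2, h3⟩ := hf
  obtain ⟨Pi, hPi⟩ := continuous_inv_family P (fun s => h1 s)
  refine ⟨Pi, fun s => ⟨slice P s, fun x => (hPi s x).2, fun x => (hPi s x).1⟩, fun x => ?_,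
    fun x => ?_⟩
  · have := (hPi 0 x).1
    rwa [h2] at this
  · have := (hPi 1 x).1
    rw [h3] at this
    have hf' : Function.Injective f := by
      obtain ⟨fi', -, h5⟩ := h1 1
      intro a b hab
      rw [← h5 a, ← h5 b]
      simp only [slice_apply, h3, hab]
    exact hf' (by rw [this, h])

theorem IsoId.conj {f h hi : C(ℂ, ℂ)} (hf : IsoId f) (h1 : ∀ x, h (hi x) = x)
    (h2 : ∀ x, hi (h x) = x) : IsoId (h.comp (f.comp hi)) := by
  rw [isoId_iff] at *
  obtain ⟨P, h3, h4, h5⟩ := hf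
  refine ⟨⟨fun q => h (P (q.1, hi q.2)), by fun_prop⟩, fun s => ?_, fun x => ?_, fun x => ?_⟩
  · have e1 : IsHomeo h := ⟨hi, h1, h2⟩
    have e2 : IsHomeo hi := ⟨h, h2, h1⟩
    exact e1.comp ((h3 s).comp e2)
  · simp [h4, h1]
  · simp [h5]

/-- extend an isotopy to the identity along a path of homeomorphisms -/
theorem IsoId.trans_path (P : C(unitInterval × ℂ, ℂ)) (hP : ∀ s, IsHomeo (slice P s))
    (h0 : IsoId (slice P 0)) (s : unitInterval) : IsoId (slice P s) := by
  obtain ⟨fi, hfi, hif⟩ := hP 0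
  have h1 : IsoId ((slice P s).comp fi) := by
    rw [isoId_iff]
    refine ⟨⟨fun q => P (q.1 * s, fi q.2), by fun_prop⟩, fun t => ?_, fun x => ?_, fun x => ?_⟩
    · exact (hP (t * s)).comp ⟨slice P 0, hif, hfi⟩
    · have := hfi x
      simpa using this
    · simp
  have h2 := h1.comp h0
  have h3 : ((slice P s).comp fi).comp (slice P 0) = slice P s := by
    ext x
    simp only [ContinuousMap.comp_apply]
    rw [hif]
  rwa [h3] at h2

/-- a plane homeomorphism which is the identity on a ball around `0` is isotopic to the identity -/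
theorem isoId_of_eq_id_on_ball {u : C(ℂ, ℂ)} (hu : IsHomeo u) {r : ℝ} (hr : 0 < r)
    (h : ∀ z, ‖z‖ < r → u z = z) : IsoId u := by
  obtain ⟨ui, h1, h2⟩ := hu
  rw [isoId_iff]
  have hcont : Continuous fun q : unitInterval × ℂ =>
      if (q.1 : ℝ) = 0 then q.2 else u ((q.1 : ℝ) * q.2) / (q.1 : ℝ) := by
    rw [continuous_iff_continuousAt]
    rintro ⟨t0, z0⟩
    by_cases ht0 : (t0 : ℝ) = 0
    · have hev : (fun q : unitInterval × ℂ =>
          if (q.1 : ℝ) = 0 then q.2 else u ((q.1 : ℝ) * q.2) / (q.1 : ℝ)) =ᶠ[𝓝 (t0, z0)]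
          fun q => q.2 := by
        have hc : Continuous fun q : unitInterval × ℂ => ‖((q.1 : ℝ) : ℂ) * q.2‖ := by fun_prop
        have h3 := hc.tendsto (t0, z0)
        simp only [ht0, Complex.ofReal_zero, zero_mul, norm_zero] at h3
        filter_upwards [h3.eventually (gt_mem_nhds hr)] with q hq
        split_ifs with hq0
        · rfl
        · rw [h _ hq]
          have : ((q.1 : ℝ) : ℂ) ≠ 0 := by exact_mod_cast hq0
          field_simp
      exact (continuous_snd.continuousAt).congr hev.symm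
    · have hev : (fun q : unitInterval × ℂ =>
          if (q.1 : ℝ) = 0 then q.2 else u ((q.1 : ℝ) * q.2) / (q.1 : ℝ)) =ᶠ[𝓝 (t0, z0)]
          fun q => u ((q.1 : ℝ) * q.2) / (q.1 : ℝ) := by
        have hc : Continuous fun q : unitInterval × ℂ => (q.1 : ℝ) := by fun_prop
        have h3 := hc.continuousAt (x := (t0, z0)) |>.eventually_ne ht0
        filter_upwards [h3] with q hq
        rw [if_neg hq]
      refine ContinuousAt.congr ?_ hev.symm
      have h4 : (((t0 : unitInterval) : ℝ) : ℂ) ≠ 0 := by exact_mod_cast ht0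
      apply ContinuousAt.div
      · fun_prop
      · fun_prop
      · exact h4
  refine ⟨⟨_, hcont⟩, fun s => ?_, fun x => ?_, fun x => ?_⟩
  · by_cases hs : (s : ℝ) = 0
    · refine ⟨ContinuousMap.id ℂ, fun x => ?_, fun x => ?_⟩
      · simp only [slice_apply, ContinuousMap.coe_mk, if_pos hs, ContinuousMap.id_apply]
      · simp only [slice_apply, ContinuousMap.coe_mk, if_pos hs, ContinuousMap.id_apply]
    · have hs' : ((s : ℝ) : ℂ) ≠ 0 := by exact_mod_cast hs
      refine ⟨⟨fun x => ui ((s : ℝ) * x) / (s : ℝ), by fun_prop⟩, fun x => ?_, fun x => ?_⟩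
      · simp only [slice_apply, ContinuousMap.coe_mk, if_neg hs]
        rw [mul_div_cancel₀ _ hs', h1]
        field_simp
      · simp only [slice_apply, ContinuousMap.coe_mk, if_neg hs]
        rw [mul_div_cancel₀ _ hs', h2]
        field_simp
  · simp
  · simp

/-- the path lemma: a path of commuting pairs of homeomorphisms that starts in `HomK k` stays
there -/
theorem HomK_path {k : ℤ} (P Q : C(unitInterval × ℂ, ℂ)) (hP : ∀ s, IsHomeo (slice P s))
    (hQ : ∀ s, IsHomeo (slice Q s)) (hc : ∀ s x, P (s, Q (s, x)) = Q (s, P (s, x)))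
    (h0 : (slice P 0, slice Q 0) ∈ HomK k) (s : unitInterval) :
    (slice P s, slice Q s) ∈ HomK k := by
  obtain ⟨-, hi1, hi2, hE⟩ := mem_HomK_iff.1 h0
  obtain ⟨ℓf, hf⟩ := hi1.exists_logDiff
  obtain ⟨ℓg, hg⟩ := hi2.exists_logDiff
  -- logarithms along the path
  have key : ∀ (P : C(unitInterval × ℂ, ℂ)), (∀ s, IsHomeo (slice P s)) → ∀ ℓ : C(Conf, ℂ),
      LogDiff (slice P 0) ℓ → ∃ L : C(unitInterval × Conf, ℂ),
        ∀ t, LogDiff (slice P t) ⟨fun a => ℓ a + L (t, a), by fun_prop⟩ := by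
    intro P hP ℓ hℓ
    have hne : ∀ s (a : Conf), P (s, a.1.1) - P (s, a.1.2) ≠ 0 := fun s a h =>
      a.2 ((hP s).injective (sub_eq_zero.1 h))
    let H : C(unitInterval × Conf, ℂ) := ⟨fun q => (P (q.1, q.2.1.1) - P (q.1, q.2.1.2)) /
      (P (0, q.2.1.1) - P (0, q.2.1.2)), by
        apply Continuous.div
        · fun_prop
        · fun_prop
        · intro q; exact hne 0 q.2⟩
    have hH : ∀ q, H q = (P (q.1, q.2.1.1) - P (q.1, q.2.1.2)) /
      (P (0, q.2.1.1) - P (0, q.2.1.2)) := fun q => rfl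
    obtain ⟨L, -, hL⟩ := exists_log H (fun q => by rw [hH]; exact div_ne_zero (hne _ _) (hne _ _))
      (fun a => by rw [hH]; exact div_self (hne 0 a))
    refine ⟨L, fun t a => ?_⟩
    have e1 := hℓ a
    simp only [slice_apply] at e1
    simp only [ContinuousMap.coe_mk, slice_apply]
    rw [Complex.exp_add, hL, hH, mul_right_comm, e1]
    simp only
    rw [mul_comm]
    exact div_mul_cancel₀ _ (hne 0 a)
  obtain ⟨LP, hLP⟩ := key P hP ℓf hf
  obtain ⟨LQ, hLQ⟩ := key Q hQ ℓg hg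
  rw [mem_HomK_iff]
  refine ⟨fun x => hc s x, IsoId.trans_path P hP hi1 s, IsoId.trans_path Q hQ hi2 s, ?_⟩
  let b : Conf := ⟨(1, 0), one_ne_zero⟩
  refine EulerEq.of_one (fun x => hc s x) (hLP s) (hLQ s) (a := b) ?_
  -- the defect is continuous in the parameter and takes values in `2 π i ℤ`
  let Pb : C(unitInterval, Conf) := ⟨fun t => ⟨(P (t, 1), P (t, 0)), fun h =>
    one_ne_zero ((hP t).injective h)⟩, by fun_prop⟩
  let Qb : C(unitInterval, Conf) := ⟨fun t => ⟨(Q (t, 1), Q (t, 0)), fun h =>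
    one_ne_zero ((hQ t).injective h)⟩, by fun_prop⟩
  let E : unitInterval → ℂ := fun t => (ℓf (Qb t) + LP (t, Qb t)) + (ℓg b + LQ (t, b)) -
    (ℓf b + LP (t, b)) - (ℓg (Pb t) + LQ (t, Pb t))
  have hEc : Continuous E := by fun_prop
  have hE1 : ∀ t, cexp (E t) = 1 := by
    intro t
    have e1 := (hLP t) (Qb t)
    have e2 := (hLQ t) b
    have e3 := (hLP t) b
    have e4 := (hLQ t) (Pb t)
    simp only [ContinuousMap.coe_mk, slice_apply] at e1 e2 e3 e4
    have q1 : (Qb t).1.1 = Q (t, 1) := rfl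
    have q2 : (Qb t).1.2 = Q (t, 0) := rfl
    have p1 : (Pb t).1.1 = P (t, 1) := rfl
    have p2 : (Pb t).1.2 = P (t, 0) := rfl
    have b1 : b.1.1 = 1 := rfl
    have b2 : b.1.2 = 0 := rfl
    rw [q1, q2] at e1
    rw [p1, p2] at e4
    rw [b1, b2] at e2 e3
    simp only [E]
    rw [Complex.exp_sub, Complex.exp_sub, Complex.exp_add]
    have n1 : (Q (t, 1) - Q (t, 0)) ≠ 0 := sub_ne_zero.2 (Qb t).2
    have n2 : (P (t, 1) - P (t, 0)) ≠ 0 := sub_ne_zero.2 (Pb t).2
    rw [div_div, div_eq_one_iff_eq (mul_ne_zero (Complex.exp_ne_zero _) (Complex.exp_ne_zero _))]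
    rw [sub_zero, mul_one] at e2 e3
    rw [hc, hc, ← e4] at e1
    rw [e2, e3]
    linear_combination e1
  have hconst := exp_rigid (u := E) (v := fun _ => 0) hEc continuous_const
    (fun t => by rw [hE1]; simp) s 0
  simp only [sub_zero] at hconst
  have h00 := hE _ _ (hLP 0) (hLQ 0) b
  have c1 : ∀ t, Conf.map (slice Q t) (hLQ t).inj b = Qb t := fun t => rfl
  have c2 : ∀ t, Conf.map (slice P t) (hLP t).inj b = Pb t := fun t => rfl
  rw [c1, c2] at h00
  rw [c1, c2]
  simp only [ContinuousMap.coe_mk] at h00 ⊢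
  simp only [E] at hconst
  linear_combination hconst + h00

theorem HomK_joined {k : ℤ} (P Q : C(unitInterval × ℂ, ℂ)) (hP : ∀ s, IsHomeo (slice P s))
    (hQ : ∀ s, IsHomeo (slice Q s)) (hc : ∀ s x, P (s, Q (s, x)) = Q (s, P (s, x)))
    (h0 : (slice P 0, slice Q 0) ∈ HomK k) :
    JoinedIn (HomK k) (slice P 0, slice Q 0) (slice P 1, slice Q 1) := by
  refine ⟨⟨⟨fun s => (slice P s, slice Q s), ?_⟩, rfl, rfl⟩, fun s => ?_⟩
  · exact (continuous_slice P).prodMk (continuous_slice Q)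
  · exact HomK_path P Q hP hQ hc h0 s

/-- conjugation by a homeomorphism isotopic to the identity stays in the same path component -/
theorem HomK_conj {k : ℤ} {p : C(ℂ, ℂ) × C(ℂ, ℂ)} (hp : p ∈ HomK k) {h hi : C(ℂ, ℂ)}
    (hh : IsoId h) (h2 : ∀ x, hi (h x) = x) :
    JoinedIn (HomK k) p (h.comp (p.1.comp hi), h.comp (p.2.comp hi)) := by
  obtain ⟨hc, hi1, hi2, -⟩ := mem_HomK_iff.1 hp
  obtain ⟨H, e1, e2, e3⟩ := isoId_iff.1 hh
  obtain ⟨Hi, hHi⟩ := continuous_inv_family H (fun s => e1 s)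
  have e4 : ∀ x, Hi (0, x) = x := fun x => by
    have := (hHi 0 x).1
    rwa [e2] at this
  have e5 : ∀ x, Hi (1, x) = hi x := fun x => by
    have := (hHi 1 x).1
    rw [e3] at this
    rw [← this, h2, this]
  have e6 : ∀ s, IsHomeo (slice Hi s) := fun s =>
    ⟨slice H s, fun x => (hHi s x).2, fun x => (hHi s x).1⟩
  let P : C(unitInterval × ℂ, ℂ) := ⟨fun q => H (q.1, p.1 (Hi (q.1, q.2))), by fun_prop⟩
  let Q : C(unitInterval × ℂ, ℂ) := ⟨fun q => H (q.1, p.2 (Hi (q.1, q.2))), by fun_prop⟩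
  have s0 : (slice P 0, slice Q 0) = p := by
    apply Prod.ext
    · ext x
      change H (0, p.1 (Hi (0, x))) = p.1 x
      rw [e2, e4]
    · ext x
      change H (0, p.2 (Hi (0, x))) = p.2 x
      rw [e2, e4]
  have s1 : (slice P 1, slice Q 1) = (h.comp (p.1.comp hi), h.comp (p.2.comp hi)) := by
    apply Prod.ext
    · ext x
      change H (1, p.1 (Hi (1, x))) = h (p.1 (hi x))
      rw [e3, e5]
    · ext x
      change H (1, p.2 (Hi (1, x))) = h (p.2 (hi x))
      rw [e3, e5]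
  rw [← s1]
  conv_lhs => rfl
  have := HomK_joined (k := k) P Q (fun s => (e1 s).comp (hi1.isHomeo.comp (e6 s)))
    (fun s => (e1 s).comp (hi2.isHomeo.comp (e6 s))) (fun s x => by
      change H (s, p.1 (Hi (s, H (s, p.2 (Hi (s, x)))))) = H (s, p.2 (Hi (s, H (s, p.1 (Hi (s, x))))))
      rw [(hHi s _).2, (hHi s _).2, hc]) (by rw [s0]; exact hp)
  rwa [s0] at this

end Pool.Agent.Helper984_CP
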