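import Pool.Agent.Helper984_CP.Basin

/-!
# A trapping neighbourhood gives a primitive element conjugate to the contraction
-/

set_option autoImplicit false

open Set Filter Topology Complex

noncomputable section

namespace Pool.Agent.Helper984_CP

theorem PK.isoId_left {k : ℤ} {F G : ℂ ≃ₜ ℂ} (h : PK k F G) : IsoId (toC F) :=
  (mem_HomK_iff.1 h).2.1

theorem PK.isoId_right {k : ℤ} {F G : ℂ ≃ₜ ℂ} (h : PK k F G) : IsoId (toC G) :=
  (mem_HomK_iff.1 h).2.2.1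

theorem PK.self_left {k : ℤ} {F G : ℂ ≃ₜ ℂ} (h : PK k F G) : PK 0 F F := by
  have h1 := h.inv_right.mul_right h.T
  have e : G⁻¹ * (G * F) = F := by rw [← mul_assoc, inv_mul_cancel, one_mul]
  rw [e, neg_add_cancel] at h1
  exact h1

theorem PK.lin {k : ℤ} {F G : ℂ ≃ₜ ℂ} (h : PK k F G) (c d : ℤ) : PK (k * d) F (F ^ c * G ^ d) := by
  have h1 := (h.self_left.zpow_right c).mul_right (h.zpow_right d)
  rwa [zero_mul, zero_add] at h1

theorem PK.bilin {k : ℤ} {F G : ℂ ≃ₜ ℂ} (h : PK k F G) (a b c d : ℤ) :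
    PK (k * (a * d - b * c)) (F ^ a * G ^ b) (F ^ c * G ^ d) := by
  have hcm : Commute F G := h.comm
  have h1 : PK (-(k * d)) (F ^ c * G ^ d) F := (h.lin c d).symm
  have h2 : PK (-(-k * c)) (F ^ c * G ^ d) G := by
    have := (h.symm.lin d c).symm
    rwa [(hcm.zpow_zpow c d).eq]
  have h3 := ((h1.zpow_right a).mul_right (h2.zpow_right b)).symm
  have e : -(-(k * d) * a + -(-k * c) * b) = k * (a * d - b * c) := by ring
  rwa [e] at h3

/-- some primitive element is conjugate to the contraction -/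
def HasC (F G : ℂ ≃ₜ ℂ) : Prop := ∃ a b : ℤ, IsCoprime a b ∧ ConjContr (F ^ a * G ^ b)

theorem HasC.change {F G : ℂ ≃ₜ ℂ} (hcm : Commute F G) {a b c d : ℤ} (hdet : a * d - b * c = 1)
    (h : HasC (F ^ a * G ^ b) (F ^ c * G ^ d)) : HasC F G := by
  obtain ⟨m, j, hmj, hc⟩ := h
  refine ⟨a * m + c * j, b * m + d * j, ?_, ?_⟩
  · obtain ⟨s, t, hst⟩ := hmj
    refine ⟨s * d - t * b, -(s * c) + t * a, ?_⟩
    linear_combination hst + (s * m + t * j) * hdet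
  · have e : F ^ (a * m + c * j) * G ^ (b * m + d * j) =
        (F ^ a * G ^ b) ^ m * (F ^ c * G ^ d) ^ j := by
      rw [(hcm.zpow_zpow a b).mul_zpow, (hcm.zpow_zpow c d).mul_zpow, ← zpow_mul, ← zpow_mul,
        ← zpow_mul, ← zpow_mul, zpow_add, zpow_add]
      have h1 : Commute (F ^ (c * j)) (G ^ (b * m)) := hcm.zpow_zpow _ _
      rw [mul_assoc, mul_assoc]
      congr 1
      rw [← mul_assoc, ← mul_assoc, h1.eq]
    rw [e]
    exact hc

/-- conjugation -/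
theorem HasC.conj {F G H : ℂ ≃ₜ ℂ} (h : HasC (H⁻¹ * F * H) (H⁻¹ * G * H)) : HasC F G := by
  obtain ⟨a, b, hab, hc⟩ := h
  refine ⟨a, b, hab, ?_⟩
  have e : ∀ (F : ℂ ≃ₜ ℂ) (a : ℤ), (H⁻¹ * F * H) ^ a = H⁻¹ * F ^ a * H := by
    intro F a
    have := conj_zpow (a := H⁻¹) (b := F) (i := a)
    rwa [inv_inv] at this
  rw [e, e] at hc
  have e2 : H⁻¹ * F ^ a * H * (H⁻¹ * G ^ b * H) = H⁻¹ * (F ^ a * G ^ b) * H := by group
  rw [e2] at hc
  obtain ⟨L, hL⟩ := hc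
  refine ⟨H * L, fun z => ?_⟩
  have := congrArg H (hL z)
  change H (H⁻¹ ((F ^ a * G ^ b) (H (L z)))) = _ at this
  rw [apply_inv_self'] at this
  exact this

theorem trap_prim {k : ℤ} {F G : ℂ ≃ₜ ℂ} (h : PK k F G) (hk : k ≠ 0) (hF0 : F 0 = 0)
    (hG0 : G 0 = 0) {D : Set ℂ} (hD : IsCompact D) (hD0 : D ∈ 𝓝 (0 : ℂ)) (hm : MapsTo F D D) :
    HasC F G := by
  have hcm : Commute F G := h.comm
  have hsm : ∀ ε : ℝ, 0 < ε → ∃ E, FNb F E ∧ E ⊆ Metric.closedBall 0 ε := fun ε hε =>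
    exists_small h hk hF0 hG0 hD hD0 hm hε
  obtain ⟨E, hE, -⟩ := hsm 1 one_pos
  obtain ⟨n, j, hj, hnj⟩ := exists_second h hk hF0 hG0 hsm hE
  obtain ⟨m, hmdef⟩ : ∃ m : ℕ, m = (n + 1) * j.natAbs ^ 2 + 1 := ⟨_, rfl⟩
  have hcop : IsCoprime (m : ℤ) j := by
    refine ⟨1, -((n : ℤ) + 1) * j, ?_⟩
    have e1 : (m : ℤ) = (n + 1) * j ^ 2 + 1 := by
      rw [hmdef]
      push_cast
      rw [sq_abs]
    rw [e1]
    ring
  have hja : 1 ≤ j.natAbs := Int.natAbs_pos.2 hj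
  have hmn : n + 1 ≤ m := by
    rw [hmdef]
    have : 1 ≤ j.natAbs ^ 2 := Nat.one_le_pow _ _ hja
    nlinarith
  -- `F` preserves the interior
  have hFi : MapsTo F (interior E) (interior E) := by
    have h1 : F '' interior E ⊆ interior E := by
      apply interior_maximal
      · rintro _ ⟨x, hx, rfl⟩
        exact hE.maps (interior_subset hx)
      · exact F.isOpenMap _ isOpen_interior
    exact fun x hx => h1 ⟨x, hx, rfl⟩
  have hFpi : ∀ i : ℕ, MapsTo (F ^ i : ℂ ≃ₜ ℂ) (interior E) (interior E) := by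
    intro i
    induction i with
    | zero => exact fun x hx => hx
    | succ i ih =>
      intro x hx
      rw [pow_succ', mul_apply']
      exact hFi (ih hx)
  have hall : ∀ i : ℕ, n ≤ i → MapsTo (F ^ i * G ^ j : ℂ ≃ₜ ℂ) E (interior E) := by
    intro i hi x hx
    have e : F ^ i * G ^ j = F ^ (i - n) * (F ^ n * G ^ j) := by
      rw [← mul_assoc, ← pow_add]
      congr 2
      omega
    rw [e]
    exact hFpi _ (hnj hx)
  obtain ⟨v, hv⟩ : ∃ v, v = F ^ m * G ^ j := ⟨_, rfl⟩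
  have hvm : MapsTo v E (interior E) := by
    rw [hv]
    exact hall m (by omega)
  have hvm' : MapsTo v E E := fun x hx => interior_subset (hvm hx)
  have hvF : Commute v F := by
    rw [hv]
    exact ((Commute.refl F).pow_left m).mul_left (hcm.symm.zpow_left j)
  have hvG : Commute v G := by
    rw [hv]
    exact (hcm.pow_left m).mul_left ((Commute.refl G).zpow_left j)
  have hv0 : v 0 = 0 := by
    rw [hv, mul_apply', zpow_zero_fix hG0, pow_fix hF0]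
  have hvI : IsoId (toC v) := by
    have h1 := (h.bilin m j 0 1).isoId_left
    rw [zpow_natCast, ← hv] at h1
    exact h1
  -- the intersection
  have hanti := pow_image_anti hvm'
  obtain ⟨R, hR⟩ : ∃ R, R = ⋂ l : ℕ, (v ^ l) '' E := ⟨_, rfl⟩
  have hRc : IsCompact R := by
    rw [hR]
    exact (hE.compact.image (v ^ 0).continuous).of_isClosed_subset
      (isClosed_iInter fun l => (hE.compact.image (v ^ l).continuous).isClosed) (iInter_subset _ 0)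
  have hRp : IsPreconnected R := by
    rw [hR]
    exact preconn_iInter hanti (fun l => hE.compact.image (v ^ l).continuous)
      (fun l => hE.conn.image _ (v ^ l).continuous.continuousOn)
  have hmap : ∀ T : ℂ ≃ₜ ℂ, Commute v T → MapsTo T E E → T '' R ⊆ R := by
    intro T hT hTE
    rw [hR]
    rintro _ ⟨x, hx, rfl⟩
    rw [mem_iInter] at hx ⊢
    intro l
    obtain ⟨y, hy, hyx⟩ := hx l
    refine ⟨T y, hTE hy, ?_⟩
    rw [← hyx]
    exact congrArg (fun H : ℂ ≃ₜ ℂ => H y) (hT.pow_left l).eq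
  have hvR : v '' R = R := by
    apply subset_antisymm (hmap v (Commute.refl v) hvm')
    intro x hx
    refine ⟨v⁻¹ x, ?_, apply_inv_self' v x⟩
    rw [hR] at hx ⊢
    rw [mem_iInter] at hx ⊢
    intro l
    obtain ⟨y, hy, hyx⟩ := hx (l + 1)
    refine ⟨y, hy, ?_⟩
    rw [← hyx, pow_succ']
    exact (inv_apply_self' v _).symm
  have hFR : F '' R = R := by
    apply subset_antisymm (hmap F hvF hE.maps)
    have hw : MapsTo (F ^ (m - 1) * G ^ j : ℂ ≃ₜ ℂ) E E := fun x hx =>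
      interior_subset (hall (m - 1) (by omega) hx)
    have hvw : Commute v (F ^ (m - 1) * G ^ j) := (hvF.pow_right _).mul_right (hvG.zpow_right j)
    have h1 := hmap _ hvw hw
    have e : v = F * (F ^ (m - 1) * G ^ j) := by
      rw [← mul_assoc, ← pow_succ', hv]
      congr 2
      omega
    intro x hx
    rw [← hvR] at hx
    obtain ⟨y, hy, rfl⟩ := hx
    refine ⟨(F ^ (m - 1) * G ^ j) y, h1 ⟨y, hy, rfl⟩, ?_⟩
    rw [← mul_apply', ← e]
  have hFmR : ∀ i : ℕ, (F ^ i : ℂ ≃ₜ ℂ) '' R = R := by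
    intro i
    induction i with
    | zero =>
      rw [pow_zero]
      exact image_id R
    | succ i ih =>
      have : (fun x => (F ^ (i + 1)) x) = fun x => F ((F ^ i) x) := by
        funext x
        rw [pow_succ', mul_apply']
      rw [show ((F ^ (i + 1) : ℂ ≃ₜ ℂ) : ℂ → ℂ) = fun x => F ((F ^ i) x) from this,
        ← image_image (g := F) (f := (F ^ i : ℂ ≃ₜ ℂ)), ih, hFR]
  have hGR : (G ^ j : ℂ ≃ₜ ℂ) '' R = R := by
    have e : v = G ^ j * F ^ m := by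
      rw [hv]
      exact ((hcm.pow_left m).zpow_right j).eq
    have h1 : v '' R = (G ^ j : ℂ ≃ₜ ℂ) '' ((F ^ m : ℂ ≃ₜ ℂ) '' R) := by
      rw [image_image, e]
      rfl
    rw [hvR, hFmR] at h1
    exact h1.symm
  have hsub := no_cont (h.zpow_right j) (mul_ne_zero hk hj) hRc hRp hFR hGR
  have h0R : (0 : ℂ) ∈ R := by
    rw [hR, mem_iInter]
    intro l
    exact ⟨0, mem_of_mem_nhds hE.nhds, pow_fix hv0 l⟩
  have hz : ⋂ l : ℕ, (v ^ l) '' E ⊆ {0} := by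
    rw [← hR]
    intro x hx
    exact hsub hx h0R
  have hfin := conj_of_attr h hk hF0 hG0 hvI hvF hvG hv0 hE.compact hE.conn hE.cconn hE.nhds hvm hz
  refine ⟨m, j, hcop, ?_⟩
  rw [zpow_natCast, ← hv]
  exact hfin

/-- a primitive vector and a complement -/
theorem exists_basis {a b : ℤ} (hab : a ≠ 0 ∨ b ≠ 0) : ∃ (e : ℕ) (a0 b0 c0 d0 : ℤ), e ≠ 0 ∧
    a = a0 * e ∧ b = b0 * e ∧ a0 * d0 - b0 * c0 = 1 := by
  have hg : 0 < Int.gcd a b := Int.gcd_pos_iff.2 hab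
  obtain ⟨a0, b0, h1, h2, h3⟩ := Int.exists_gcd_one hg
  have h4 : IsCoprime a0 b0 := Int.isCoprime_iff_gcd_eq_one.2 h1
  obtain ⟨s, t, hst⟩ := h4
  exact ⟨Int.gcd a b, a0, b0, -t, s, hg.ne', h2, h3, by linear_combination hst⟩

theorem trap_zero {k : ℤ} {F G : ℂ ≃ₜ ℂ} (h : PK k F G) (hk : k ≠ 0) (hF0 : F 0 = 0)
    (hG0 : G 0 = 0) {a b : ℤ} (hab : a ≠ 0 ∨ b ≠ 0) {D : Set ℂ} (hD : IsCompact D)
    (hD0 : D ∈ 𝓝 (0 : ℂ)) (hm : MapsTo (F ^ a * G ^ b : ℂ ≃ₜ ℂ) D D) : HasC F G := by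
  have hcm : Commute F G := h.comm
  obtain ⟨e, a0, b0, c0, d0, he, ha, hb, hdet⟩ := exists_basis hab
  obtain ⟨u, hu⟩ : ∃ u, u = F ^ a0 * G ^ b0 := ⟨_, rfl⟩
  have hue : F ^ a * G ^ b = u ^ e := by
    rw [hu, ← zpow_natCast, (hcm.zpow_zpow a0 b0).mul_zpow, ← zpow_mul, ← zpow_mul, ← ha, ← hb]
  rw [hue] at hm
  have hu0 : u 0 = 0 := by
    rw [hu, mul_apply', zpow_zero_fix hG0, zpow_zero_fix hF0]
  have hw0 : (F ^ c0 * G ^ d0 : ℂ ≃ₜ ℂ) 0 = 0 := by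
    rw [mul_apply', zpow_zero_fix hG0, zpow_zero_fix hF0]
  have hP := h.bilin a0 b0 c0 d0
  rw [hdet, mul_one, ← hu] at hP
  have hD' : IsCompact (⋃ i ∈ Finset.range e, (u ^ i : ℂ ≃ₜ ℂ) '' D) :=
    (Finset.range e).isCompact_biUnion fun i _ => hD.image (u ^ i).continuous
  have hsub : D ⊆ ⋃ i ∈ Finset.range e, (u ^ i : ℂ ≃ₜ ℂ) '' D := by
    intro x hx
    simp only [mem_iUnion, Finset.mem_range]
    exact ⟨0, Nat.pos_of_ne_zero he, x, hx, by rw [pow_zero]; rfl⟩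
  have hfin := trap_prim hP hk hu0 hw0 hD' (mem_of_superset hD0 hsub) (by
    intro x hx
    simp only [mem_iUnion, Finset.mem_range] at hx ⊢
    obtain ⟨i, hi, y, hy, rfl⟩ := hx
    rcases (Nat.lt_or_ge (i + 1) e) with h1 | h1
    · exact ⟨i + 1, h1, y, hy, by rw [pow_succ']; rfl⟩
    · have h2 : i + 1 = e := by omega
      refine ⟨0, by omega, u ((u ^ i) y), ?_, by rw [pow_zero]; rfl⟩
      rw [← mul_apply', ← pow_succ', h2]
      exact hm hy)
  rw [hu] at hfin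
  exact hfin.change hcm hdet

/-- translation -/
def trH (c : ℂ) : ℂ ≃ₜ ℂ := Homeomorph.addRight c

theorem PK.transl {k : ℤ} {F G : ℂ ≃ₜ ℂ} (h : PK k F G) (c : ℂ) :
    PK k ((trH c)⁻¹ * F * trH c) ((trH c)⁻¹ * G * trH c) := by
  have h1 := HomK_tr h c
  have e : ∀ F : ℂ ≃ₜ ℂ, tr c (toC F) = toC ((trH c)⁻¹ * F * trH c) := by
    intro F
    ext z
    change F (z + c) - c = (trH c).symm (F (trH c z))
    change F (z + c) - c = F (z + c) + -c
    ring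
  simp only [e] at h1
  exact h1

theorem transl_zpow (H F G : ℂ ≃ₜ ℂ) (a b : ℤ) :
    (H⁻¹ * F * H) ^ a * (H⁻¹ * G * H) ^ b = H⁻¹ * (F ^ a * G ^ b) * H := by
  have e : ∀ (F : ℂ ≃ₜ ℂ) (a : ℤ), (H⁻¹ * F * H) ^ a = H⁻¹ * F ^ a * H := by
    intro F a
    have := conj_zpow (a := H⁻¹) (b := F) (i := a)
    rwa [inv_inv] at this
  rw [e, e]
  group

/-- a nontrivial element which maps a compact neighbourhood of the common fixed point into
itself -/
theorem trap_contr {k : ℤ} {F G : ℂ ≃ₜ ℂ} (h : PK k F G) (hk : k ≠ 0) {c : ℂ} (hFc : F c = c)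
    (hGc : G c = c) {a b : ℤ} (hab : a ≠ 0 ∨ b ≠ 0) {D : Set ℂ} (hD : IsCompact D)
    (hDc : D ∈ 𝓝 c) (hm : MapsTo (F ^ a * G ^ b : ℂ ≃ₜ ℂ) D D) : HasC F G := by
  apply HasC.conj (H := trH c)
  have hT : ∀ z, trH c z = z + c := fun z => rfl
  have hTi : ∀ z, ((trH c)⁻¹ : ℂ ≃ₜ ℂ) z = z - c := fun z => (sub_eq_add_neg z c).symm
  refine trap_zero (h.transl c) hk ?_ ?_ hab (hD.image ((trH c)⁻¹ : ℂ ≃ₜ ℂ).continuous) ?_ ?_
  · change ((trH c)⁻¹ : ℂ ≃ₜ ℂ) (F (trH c 0)) = 0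
    rw [hT, zero_add, hFc, hTi, sub_self]
  · change ((trH c)⁻¹ : ℂ ≃ₜ ℂ) (G (trH c 0)) = 0
    rw [hT, zero_add, hGc, hTi, sub_self]
  · have := ((trH c)⁻¹ : ℂ ≃ₜ ℂ).isOpenMap.image_mem_nhds hDc
    rwa [hTi, sub_self] at this
  · rw [transl_zpow]
    rintro _ ⟨x, hx, rfl⟩
    refine ⟨(F ^ a * G ^ b) x, hm hx, ?_⟩
    change _ = ((trH c)⁻¹ : ℂ ≃ₜ ℂ) ((F ^ a * G ^ b) (trH c (((trH c)⁻¹ : ℂ ≃ₜ ℂ) x)))
    rw [apply_inv_self']

end Pool.Agent.Helper984_CP
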