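import Pool.Agent.Helper984_CP.GG

/-!
# Straightening the image of the unit circle equivariantly
-/

set_option autoImplicit false

open Set Filter Topology ComplexConjugate

noncomputable section

namespace Pool.Agent.Helper984_CP

theorem joined_inv {l : ℝ} {σ : Prop} {K Ki : C(ℂ, ℂ)}
    (h : JoinedIn (GG l σ) (ContinuousMap.id ℂ) K) (h2 : ∀ x, K (Ki x) = x) :
    JoinedIn (GG l σ) (ContinuousMap.id ℂ) Ki := by
  obtain ⟨P, hP, hP0, hP1⟩ := family_of_joined h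
  obtain ⟨Pi, hPi⟩ := continuous_inv_family P (fun s => (hP s).1)
  refine joined_of_family' Pi (fun s => ?_) (fun z => ?_) (fun z => ?_)
  · exact GG.inv (hP s) (fun x => (hPi s x).1) (fun x => (hPi s x).2)
  · have h3 := (hPi 0 z).1
    have h4 : P (0, Pi (0, z)) = Pi (0, z) := by
      have := congrArg (fun f : C(ℂ, ℂ) => f (Pi (0, z))) hP0
      exact this
    rw [h4] at h3
    exact h3
  · have h3 : P (1, Ki z) = z := by
      have := congrArg (fun f : C(ℂ, ℂ) => f (Ki z)) hP1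
      exact this.trans (h2 z)
    rw [← h3, (hPi 1 _).2]
    have := congrArg (fun f : C(ℂ, ℂ) => Ki (f (Ki z))) hP1
    simp only [slice_apply] at this
    rw [this, h2]

/-- support in the image of a round annulus -/
theorem eqSupp_image {l : ℝ} (hl : 0 < l) (hl1 : l < 1) {Φ Φi : C(ℂ, ℂ)} (p1 : ∀ z, Φ (Φi z) = z)
    (p2 : ∀ z, Φi (Φ z) = z) (hΦ0 : Φ 0 = 0) {a b : ℝ} (ha : 0 < a) (hab : a < b)
    (hΘ : ∀ z, ‖z‖ ≤ b → ‖Φi (l * Φ z)‖ < a) :
    ∃ r1 r2, EqSupp l (Φ '' {z | a ≤ ‖z‖ ∧ ‖z‖ ≤ b}) r1 r2 := by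
  have hSc : IsCompact (Φ '' {z : ℂ | a ≤ ‖z‖ ∧ ‖z‖ ≤ b}) := by
    refine IsCompact.image ?_ Φ.continuous
    refine (isCompact_closedBall (0 : ℂ) b).of_isClosed_subset ?_ ?_
    · exact (isClosed_le continuous_const continuous_norm).inter
        (isClosed_le continuous_norm continuous_const)
    · rintro z ⟨-, hz⟩
      exact mem_closedBall_zero_iff.2 hz
  have hne : (Φ '' {z : ℂ | a ≤ ‖z‖ ∧ ‖z‖ ≤ b}).Nonempty := by
    refine ⟨_, (a : ℂ), ?_, rfl⟩
    rw [mem_ofPred_eq, Complex.norm_real, Real.norm_of_nonneg ha.le]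
    exact ⟨le_rfl, hab.le⟩
  obtain ⟨x, hx, hmin⟩ := hSc.exists_isMinOn hne (f := fun z => ‖z‖) (by fun_prop)
  obtain ⟨y, hy, hmax⟩ := hSc.exists_isMaxOn hne (f := fun z => ‖z‖) (by fun_prop)
  have hx0 : 0 < ‖x‖ := by
    obtain ⟨z, hz, rfl⟩ := hx
    rw [norm_pos_iff]
    intro h0
    have h1 : z = 0 := by
      have := congrArg Φi (h0.trans hΦ0.symm)
      rwa [p2, p2] at this
    rw [h1] at hz
    have := hz.1
    rw [norm_zero] at this
    linarith
  refine ⟨‖x‖, ‖y‖, hl, hl1, hx0, fun z hz => hmin hz, fun z hz => hmax hz, ?_⟩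
  rintro _ ⟨w, hw, rfl⟩ n hn
  have key : ∀ n : ℕ, ‖Φi ((l : ℂ) ^ (n + 1) * Φ w)‖ < a := by
    intro n
    induction n with
    | zero =>
      rw [zero_add, pow_one]
      exact hΘ w hw.2
    | succ n ih =>
      have h1 := hΘ _ (ih.le.trans hab.le)
      rw [p1] at h1
      have e : (l : ℂ) ^ (n + 1 + 1) * Φ w = l * ((l : ℂ) ^ (n + 1) * Φ w) := by ring
      rw [e]
      exact h1
  rintro ⟨v, hv, hv'⟩
  obtain ⟨m, rfl⟩ : ∃ m, n = m + 1 := ⟨n - 1, by omega⟩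
  have h1 := key m
  rw [← hv', p2] at h1
  linarith [hv.1]

/-- one radial push in the chart -/
theorem push_step {l : ℝ} (hl : 0 < l) (hl1 : l < 1) {σ : Prop} {Φ Φi : C(ℂ, ℂ)}
    (p1 : ∀ z, Φ (Φi z) = z) (p2 : ∀ z, Φi (Φ z) = z) (hΦ0 : Φ 0 = 0)
    (hσ : σ → ∀ z, Φ (conj z) = conj (Φ z)) {a b t1 t2 : ℝ} (ha : 0 < a) (h1 : a < t1)
    (h1' : t1 < b) (h2 : a < t2) (h2' : t2 < b) (hΘ : ∀ z, ‖z‖ ≤ b → ‖Φi (l * Φ z)‖ < a) :
    ∃ K : C(ℂ, ℂ), JoinedIn (GG l σ) (ContinuousMap.id ℂ) K ∧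
      ∀ u : ℂ, ‖u‖ = 1 → K (Φ (t1 * u)) = Φ (t2 * u) := by
  obtain ⟨κ, k1, k2, k3, k4, k5⟩ := radial_push ha h1 h1' h2 h2'
  obtain ⟨r1, r2, hS⟩ := eqSupp_image hl hl1 p1 p2 hΦ0 ha (h1.trans h1') hΘ
  let κ' : C(unitInterval × ℂ, ℂ) := ⟨fun q => Φ (κ (q.1, Φi q.2)), by fun_prop⟩
  have hκ' : ∀ s z, κ' (s, z) = Φ (κ (s, Φi z)) := fun _ _ => rfl
  obtain ⟨K, K1, K2, K3, K4, K5⟩ := eq_ext hS κ' (fun s => by
    have e : slice κ' s = Φ.comp ((slice κ s).comp Φi) := rfl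
    rw [e]
    exact IsHomeo.comp ⟨Φi, p1, p2⟩ ((k1 s).comp ⟨Φ, p2, p1⟩)) (fun s z hz => by
    rw [hκ', k2, p1]
    rintro hcon
    exact hz ⟨Φi z, hcon, p1 z⟩)
  refine ⟨slice K 1, joined_of_family' (X := GG l σ) K (fun s => ⟨K1 s, K3 s, fun hs => ?_⟩)
    (fun z => ?_) (fun z => rfl), fun u hu => ?_⟩
  · refine K5 ?_ ?_ s
    · rintro _ ⟨w, hw, rfl⟩
      refine ⟨conj w, ?_, hσ hs w⟩
      rw [mem_ofPred_eq, Complex.norm_conj]
      exact hw
    · intro s z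
      have hΦi : Φi (conj z) = conj (Φi z) := by
        have := hσ hs (Φi z)
        rw [p1] at this
        rw [← this, p2]
      rw [hκ', hκ', hΦi, k5, hσ hs]
  · by_cases hex : ∃ n : ℤ, (l : ℂ) ^ (-n) * z ∈ Φ '' {z | a ≤ ‖z‖ ∧ ‖z‖ ≤ b}
    · obtain ⟨n, hn⟩ := hex
      have hKz : ∀ (n : ℤ) (w : ℂ), K (0, (l : ℂ) ^ n * w) = (l : ℂ) ^ n * K (0, w) := by
        intro n
        induction n using Int.induction_on with
        | zero => intro w; simp
        | succ n ih =>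
          intro w
          rw [zpow_add_one₀ hS.lne, mul_assoc, ih, K3]
          ring
        | pred n ih =>
          intro w
          have h3 := ih ((l : ℂ)⁻¹ * w)
          have h4 : K (0, (l : ℂ)⁻¹ * w) = (l : ℂ)⁻¹ * K (0, w) := by
            have h5 := K3 0 ((l : ℂ)⁻¹ * w)
            rw [← mul_assoc, mul_inv_cancel₀ hS.lne, one_mul] at h5
            rw [h5, ← mul_assoc, inv_mul_cancel₀ hS.lne, one_mul]
          rw [zpow_sub_one₀ hS.lne, mul_assoc, h3, h4]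
          ring
      have h5 := K2 0 _ hn
      rw [hKz, hκ', k3, p1] at h5
      exact mul_left_cancel₀ (zpow_ne_zero _ hS.lne) h5
    · push Not at hex
      exact K4 0 z hex
  · rw [slice_apply, K2 1 _ ⟨_, ?_, rfl⟩, hκ', p2, k4 u hu]
    rw [mem_ofPred_eq, norm_mul, hu, mul_one, Complex.norm_real,
      Real.norm_of_nonneg (ha.trans h1).le]
    exact ⟨h1.le, h1'.le⟩

/-- the last step, to a round circle -/
theorem round_step {l : ℝ} (hl : 0 < l) (hl2 : l ≤ 1 / 2) {σ : Prop} {Φ : C(ℂ, ℂ)}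
    {φ : ℂ → ℂ} (hd : DifferentiableOn ℂ φ (Metric.ball 0 1)) {c : ℝ} (hc : 0 < c)
    (hder : HasDerivAt φ (c : ℂ) 0) (hΦ : ∀ z, ‖z‖ < 1 → Φ z = φ z) (hΦ0 : Φ 0 = 0)
    (hσ : σ → ∀ z, Φ (conj z) = conj (Φ z)) :
    ∃ t0 > 0, ∀ t : ℝ, 0 < t → t < t0 → ∃ K : C(ℂ, ℂ), JoinedIn (GG l σ) (ContinuousMap.id ℂ) K ∧
      ∀ u : ℂ, ‖u‖ = 1 → K (Φ (t * u)) = ((c * t : ℝ) : ℂ) * u := by
  have hs : HasStrictDerivAt φ (c : ℂ) 0 := by
    have h1 := (hd.analyticAt (Metric.ball_mem_nhds (0 : ℂ) one_pos)).hasStrictDerivAt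
    rwa [hder.deriv] at h1
  have hcc : (c : ℂ) ≠ 0 := by exact_mod_cast hc.ne'
  have h1 := hs.isLittleO.def (by positivity : 0 < c / 18)
  rw [nhds_prod_eq] at h1
  obtain ⟨s1, hs1, h2⟩ : ∃ s1 > 0, ∀ x y : ℂ, ‖x‖ < s1 → ‖y‖ < s1 →
      ‖φ x - φ y - (x - y) * c‖ ≤ c / 18 * ‖x - y‖ := by
    obtain ⟨t, ht, h3⟩ := Filter.eventually_prod_self_iff'.1 h1
    obtain ⟨s1, hs1, h4⟩ := Metric.mem_nhds_iff.1 ht
    refine ⟨s1, hs1, fun x y hx hy => ?_⟩
    have := h3 x (h4 (mem_ball_zero_iff.2 hx)) y (h4 (mem_ball_zero_iff.2 hy))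
    simpa using this
  refine ⟨min (s1 / 2) (1 / 2), by positivity, fun t ht ht0 => ?_⟩
  have ht1 : 2 * t < s1 := by
    have := ht0.trans_le (min_le_left _ _)
    linarith
  have ht2 : 2 * t < 1 := by
    have := ht0.trans_le (min_le_right _ _)
    linarith
  let e : ℂ → ℂ := fun z => Φ z / c - z
  have he0 : e 0 = 0 := by simp [e, hΦ0]
  have hec : Continuous e := by
    simp only [e]
    fun_prop
  have heL : ∀ x y, ‖x‖ ≤ 2 * t → ‖y‖ ≤ 2 * t → ‖e x - e y‖ ≤ 1 / 18 * ‖x - y‖ := by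
    intro x y hx hy
    have a1 := h2 x y (hx.trans_lt ht1) (hy.trans_lt ht1)
    have e1 : e x - e y = (φ x - φ y - (x - y) * c) / c := by
      simp only [e]
      rw [hΦ x (hx.trans_lt ht2), hΦ y (hy.trans_lt ht2)]
      field_simp
      ring
    rw [e1, norm_div, Complex.norm_real, Real.norm_of_nonneg hc.le, div_le_iff₀ hc]
    linarith
  have heN : ∀ x, ‖x‖ ≤ 2 * t → ‖e x‖ ≤ 1 / 18 * ‖x‖ := by
    intro x hx
    have := heL x 0 hx (by rw [norm_zero]; linarith)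
    rwa [he0, sub_zero, sub_zero] at this
  let χ : ℂ → ℝ := fun z => max 0 (1 - 4 * |‖z‖ / t - 1|)
  have hχ0 : ∀ z, 0 ≤ χ z := fun z => le_max_left _ _
  have hχ1 : ∀ z, χ z ≤ 1 := by
    intro z
    apply max_le zero_le_one
    have := abs_nonneg (‖z‖ / t - 1)
    linarith
  have hχout : ∀ z, ¬ (3 / 4 * t ≤ ‖z‖ ∧ ‖z‖ ≤ 5 / 4 * t) → χ z = 0 := by
    intro z hz
    apply max_eq_left
    rw [not_and_or, not_le, not_le] at hz
    rcases hz with hz | hz
    · have h3 : ‖z‖ / t < 3 / 4 := by rw [div_lt_iff₀ ht]; linarith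
      have := neg_le_abs (‖z‖ / t - 1)
      linarith
    · have h3 : 5 / 4 < ‖z‖ / t := by rw [lt_div_iff₀ ht]; linarith
      have := le_abs_self (‖z‖ / t - 1)
      linarith
  have hχL : ∀ x y, |χ x - χ y| ≤ 4 / t * ‖x - y‖ := by
    intro x y
    have a1 : |χ x - χ y| ≤ |(1 - 4 * |‖x‖ / t - 1|) - (1 - 4 * |‖y‖ / t - 1|)| := by
      simp only [χ]
      rw [max_comm 0, max_comm 0]
      exact abs_max_sub_max_le_abs _ _ _
    have a2 : |(1 - 4 * |‖x‖ / t - 1|) - (1 - 4 * |‖y‖ / t - 1|)| =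
        4 * abs (abs (‖y‖ / t - 1) - abs (‖x‖ / t - 1)) := by
      obtain ⟨p, hp⟩ : ∃ p, p = abs (‖x‖ / t - 1) := ⟨_, rfl⟩
      obtain ⟨q, hq⟩ : ∃ q, q = abs (‖y‖ / t - 1) := ⟨_, rfl⟩
      rw [← hp, ← hq]
      have e1 : 1 - 4 * p - (1 - 4 * q) = 4 * (q - p) := by ring
      rw [e1, abs_mul, abs_of_pos (show (0 : ℝ) < 4 by norm_num)]
    have a3 : abs (abs (‖y‖ / t - 1) - abs (‖x‖ / t - 1)) ≤ |(‖y‖ / t - 1) - (‖x‖ / t - 1)| :=
      abs_abs_sub_abs_le _ _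
    have a4 : |(‖y‖ / t - 1) - (‖x‖ / t - 1)| ≤ ‖x - y‖ / t := by
      have : (‖y‖ / t - 1) - (‖x‖ / t - 1) = (‖y‖ - ‖x‖) / t := by ring
      rw [this, abs_div, abs_of_pos ht]
      gcongr
      rw [abs_sub_comm]
      exact abs_norm_sub_norm_le x y
    calc |χ x - χ y| ≤ 4 * abs (abs (‖y‖ / t - 1) - abs (‖x‖ / t - 1)) := by rw [← a2]; exact a1
      _ ≤ 4 * (‖x - y‖ / t) := by linarith
      _ = 4 / t * ‖x - y‖ := by ring
  have hχc : Continuous χ := by
    simp only [χ]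
    fun_prop
  let η : ℂ → ℂ := fun z => ((χ z : ℝ) : ℂ) * e z
  have hηout : ∀ z, ¬ (3 / 4 * t ≤ ‖z‖ ∧ ‖z‖ ≤ 5 / 4 * t) → η z = 0 := by
    intro z hz
    simp only [η]
    rw [hχout z hz]
    simp
  have hηc : Continuous η := by
    simp only [η]
    fun_prop
  have hηL : ∀ x y, ‖η x - η y‖ ≤ 1 / 2 * ‖x - y‖ := by
    -- the case of a far point
    have hfar : ∀ x y, 2 * t < ‖y‖ → ‖η x - η y‖ ≤ 1 / 2 * ‖x - y‖ := by
      intro x y hy
      rw [hηout y (by rintro ⟨-, h3⟩; linarith), sub_zero]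
      by_cases hx : 3 / 4 * t ≤ ‖x‖ ∧ ‖x‖ ≤ 5 / 4 * t
      · have a1 : ‖η x‖ ≤ 1 / 18 * ‖x‖ := by
          simp only [η]
          rw [norm_mul, Complex.norm_real, Real.norm_of_nonneg (hχ0 x)]
          have := heN x (by linarith [hx.2])
          nlinarith [hχ1 x, hχ0 x, norm_nonneg (e x)]
        have a2 : ‖y‖ - ‖x‖ ≤ ‖x - y‖ := by
          rw [norm_sub_rev]
          exact norm_sub_norm_le y x
        linarith [hx.2]
      · rw [hηout x hx, norm_zero]
        positivity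
    intro x y
    rcases lt_or_ge (2 * t) ‖y‖ with hy | hy
    · exact hfar x y hy
    rcases lt_or_ge (2 * t) ‖x‖ with hx | hx
    · rw [norm_sub_rev, norm_sub_rev x y]
      exact hfar y x hx
    have e1 : η x - η y = ((χ x : ℝ) : ℂ) * (e x - e y) + ((χ x - χ y : ℝ) : ℂ) * e y := by
      simp only [η]
      push_cast
      ring
    rw [e1]
    refine (norm_add_le _ _).trans ?_
    rw [norm_mul, norm_mul, Complex.norm_real, Complex.norm_real, Real.norm_of_nonneg (hχ0 x),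
      Real.norm_eq_abs]
    have a1 : χ x * ‖e x - e y‖ ≤ 1 / 18 * ‖x - y‖ := by
      have := heL x y hx hy
      nlinarith [hχ1 x, hχ0 x, norm_nonneg (e x - e y)]
    have a2 : |χ x - χ y| * ‖e y‖ ≤ (4 / t * ‖x - y‖) * (1 / 18 * (2 * t)) := by
      apply mul_le_mul (hχL x y) _ (norm_nonneg _) (by positivity)
      have := heN y hy
      linarith
    have a3 : (4 / t * ‖x - y‖) * (1 / 18 * (2 * t)) = 8 / 18 * ‖x - y‖ := by
      field_simp
      ring
    rw [a3] at a2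
    linarith
  -- the family
  let e' : ℂ → ℂ := fun z => c * η (z / c)
  have he'L : ∀ x y, ‖e' x - e' y‖ ≤ 1 / 2 * ‖x - y‖ := by
    intro x y
    have e1 : e' x - e' y = c * (η (x / c) - η (y / c)) := by simp only [e']; ring
    rw [e1, norm_mul, Complex.norm_real, Real.norm_of_nonneg hc.le]
    have a1 := hηL (x / c) (y / c)
    rw [← sub_div, norm_div, Complex.norm_real, Real.norm_of_nonneg hc.le] at a1
    calc c * ‖η (x / c) - η (y / c)‖ ≤ c * (1 / 2 * (‖x - y‖ / c)) := by gcongr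
      _ = 1 / 2 * ‖x - y‖ := by field_simp
  let κ : C(unitInterval × ℂ, ℂ) := ⟨fun q => q.2 + ((q.1 : ℝ) : ℂ) * e' q.2, by
    simp only [e']
    fun_prop⟩
  have hκ : ∀ s z, κ (s, z) = z + ((s : ℝ) : ℂ) * e' z := fun _ _ => rfl
  have hκH := lip_homeo he'L κ hκ
  obtain ⟨S, hSdef⟩ : ∃ S : Set ℂ, S = {z | 3 / 4 * (c * t) ≤ ‖z‖ ∧ ‖z‖ ≤ 5 / 4 * (c * t)} :=
    ⟨_, rfl⟩
  have hct : 0 < c * t := by positivity
  have hS : EqSupp l S (3 / 4 * (c * t)) (5 / 4 * (c * t)) := by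
    refine ⟨hl, by linarith, by positivity, fun z hz => ?_, fun z hz => ?_, fun z hz n hn => ?_⟩
    · rw [hSdef] at hz; exact hz.1
    · rw [hSdef] at hz; exact hz.2
    · rw [hSdef] at hz ⊢
      rintro ⟨h3, -⟩
      rw [norm_mul, norm_pow, Complex.norm_real, Real.norm_of_nonneg hl.le] at h3
      have h4 : l ^ n ≤ l := by
        have : l ^ n ≤ l ^ 1 := pow_le_pow_of_le_one hl.le (by linarith) hn
        rwa [pow_one] at this
      have h5 : l ^ n * ‖z‖ ≤ 1 / 2 * (5 / 4 * (c * t)) := by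
        apply mul_le_mul (h4.trans hl2) hz.2 (norm_nonneg _) (by norm_num)
      linarith
  have hout : ∀ s z, z ∉ S → κ (s, z) = z := by
    intro s z hz
    rw [hκ]
    simp only [e']
    rw [hηout, mul_zero, mul_zero, add_zero]
    rintro ⟨h3, h4⟩
    apply hz
    rw [norm_div, Complex.norm_real, Real.norm_of_nonneg hc.le] at h3 h4
    rw [le_div_iff₀ hc] at h3
    rw [div_le_iff₀ hc] at h4
    rw [hSdef]
    constructor
    · linarith
    · linarith
  obtain ⟨K, K1, K2, K3, K4, K5⟩ := eq_ext hS κ hκH hout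
  have hKG : ∀ s, slice K s ∈ GG l σ := by
    intro s
    refine ⟨K1 s, K3 s, fun hs => ?_⟩
    refine K5 ?_ ?_ s
    · intro z hz
      rw [hSdef] at hz ⊢
      rw [mem_ofPred_eq, Complex.norm_conj]
      exact hz
    · intro s z
      have hec' : ∀ z, e (conj z) = conj (e z) := by
        intro z
        simp only [e]
        rw [hσ hs, map_sub, map_div₀, Complex.conj_ofReal]
      rw [hκ, hκ]
      simp only [e', η, χ]
      have : conj z / (c : ℂ) = conj (z / c) := by rw [map_div₀, Complex.conj_ofReal]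
      rw [this, hec', Complex.norm_conj, map_add, map_mul, map_mul, map_mul, Complex.conj_ofReal,
        Complex.conj_ofReal, Complex.conj_ofReal]
  have hK0 : ∀ z, K (0, z) = z := by
    intro z
    by_cases hex : ∃ n : ℤ, (l : ℂ) ^ (-n) * z ∈ S
    · obtain ⟨n, hn⟩ := hex
      have hKz : ∀ (n : ℤ) (w : ℂ), K (0, (l : ℂ) ^ n * w) = (l : ℂ) ^ n * K (0, w) := by
        intro n
        induction n using Int.induction_on with
        | zero => intro w; simp
        | succ n ih =>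
          intro w
          rw [zpow_add_one₀ hS.lne, mul_assoc, ih, K3]
          ring
        | pred n ih =>
          intro w
          have h3 := ih ((l : ℂ)⁻¹ * w)
          have h4 : K (0, (l : ℂ)⁻¹ * w) = (l : ℂ)⁻¹ * K (0, w) := by
            have h5 := K3 0 ((l : ℂ)⁻¹ * w)
            rw [← mul_assoc, mul_inv_cancel₀ hS.lne, one_mul] at h5
            rw [h5, ← mul_assoc, inv_mul_cancel₀ hS.lne, one_mul]
          rw [zpow_sub_one₀ hS.lne, mul_assoc, h3, h4]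
          ring
      have h5 := K2 0 _ hn
      rw [hKz, hκ] at h5
      simp only [Icc.coe_zero, Complex.ofReal_zero, zero_mul, add_zero] at h5
      exact mul_left_cancel₀ (zpow_ne_zero _ hS.lne) h5
    · push Not at hex
      exact K4 0 z hex
  have hj : JoinedIn (GG l σ) (ContinuousMap.id ℂ) (slice K 1) :=
    joined_of_family' K hKG hK0 (fun _ => rfl)
  obtain ⟨Ki, hKi1, hKi2⟩ := K1 1
  refine ⟨Ki, joined_inv hj hKi1, fun u hu => ?_⟩
  have h3 : slice K 1 (((c * t : ℝ) : ℂ) * u) = Φ (t * u) := by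
    rw [slice_apply, K2 1, hκ]
    · simp only [e', η, χ, Icc.coe_one, Complex.ofReal_one, one_mul]
      have e1 : ((c * t : ℝ) : ℂ) * u / c = t * u := by
        push_cast
        field_simp
      have e2 : ‖(t : ℂ) * u‖ = t := by
        rw [norm_mul, hu, mul_one, Complex.norm_real, Real.norm_of_nonneg ht.le]
      rw [e1, e2, div_self ht.ne']
      simp only [sub_self, abs_zero, mul_zero, sub_zero]
      rw [max_eq_right zero_le_one]
      simp only [e]
      push_cast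
      field_simp
      ring
    · rw [hSdef, mem_ofPred_eq, norm_mul, hu, mul_one, Complex.norm_real,
        Real.norm_of_nonneg hct.le]
      constructor <;> linarith
  rw [← h3, hKi2]

end Pool.Agent.Helper984_CP
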