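import Pool.Agent.Helper984_CP.Coarse
import Pool.Agent.Helper984_CP.AffE

/-!
# Pairs satisfying a relative continuity condition at the fixed point
-/

set_option autoImplicit false

open Set Filter Topology Complex

noncomputable section

namespace Pool.Agent.Helper984_CP

/-- relative continuity near the origin (`σ = 1`) or near infinity (`σ = - 1`) -/
def RelC (σ : ℝ) (f : ℂ → ℂ) : Prop :=
  ∃ ρ : ℝ, ∃ d > 0, ∀ x y : ℂ, x ≠ 0 → sc σ x < ρ → ‖x - y‖ ≤ d * ‖x‖ → ‖f x - f y‖ ≤ ‖f x‖ / 2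

theorem chain_bound {σ : ℝ} {f : ℂ → ℂ} {ρ δ : ℝ} (hδ : 0 < δ)
    (h : ∀ w w' : ℂ, σ * w.re < ρ → σ * w'.re < ρ → ‖w - w'‖ ≤ δ → ‖f w - f w'‖ ≤ 1) {w w' : ℂ}
    (hw : σ * w.re < ρ) (hw' : σ * w'.re < ρ) : ‖f w - f w'‖ ≤ ‖w - w'‖ / δ + 1 := by
  obtain ⟨m, hm⟩ : ∃ m : ℕ, m = ⌈‖w - w'‖ / δ⌉₊ := ⟨_, rfl⟩
  have hm1 : ‖w - w'‖ / δ ≤ m := by rw [hm]; exact Nat.le_ceil _
  have hm2 : (m : ℝ) < ‖w - w'‖ / δ + 1 := by
    rw [hm]
    exact Nat.ceil_lt_add_one (by positivity)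
  rcases Nat.eq_zero_or_pos m with h0 | h0
  · rw [h0, Nat.cast_zero] at hm1
    have h1 : ‖w - w'‖ ≤ 0 := by
      rw [div_le_iff₀ hδ, zero_mul] at hm1
      exact hm1
    have h2 : w = w' := sub_eq_zero.1 (norm_le_zero_iff.1 h1)
    rw [h2, sub_self, sub_self, norm_zero, zero_div]
    norm_num
  · have hm0 : (0 : ℝ) < m := by exact_mod_cast h0
    have hpt : ∀ t : ℝ, 0 ≤ t → t ≤ 1 → σ * (w' + (t : ℂ) * (w - w')).re < ρ := by
      intro t ht0 ht1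
      rw [Complex.add_re, Complex.re_ofReal_mul, Complex.sub_re]
      rcases ht0.eq_or_lt with h1 | h1
      · rw [← h1, zero_mul, add_zero]
        exact hw'
      · nlinarith [mul_pos h1 (sub_pos.2 hw), mul_nonneg (sub_nonneg.2 ht1) (sub_pos.2 hw').le]
    have key : ∀ i : ℕ, i ≤ m → ‖f (w' + ((i / m : ℝ) : ℂ) * (w - w')) - f w'‖ ≤ i := by
      intro i hi
      induction i with
      | zero => simp
      | succ i ih =>
        have h1 := ih (by omega)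
        have hi0 : (0 : ℝ) ≤ i := Nat.cast_nonneg i
        have hi1 : ((i : ℝ) + 1) ≤ m := by exact_mod_cast hi
        have h2 := h (w' + ((((i + 1 : ℕ) : ℝ) / m : ℝ) : ℂ) * (w - w'))
          (w' + ((i / m : ℝ) : ℂ) * (w - w'))
          (hpt _ (by positivity) (by rw [div_le_one hm0]; push_cast; exact hi1))
          (hpt _ (by positivity) (by rw [div_le_one hm0]; linarith)) (by
            have e1 : w' + ((((i + 1 : ℕ) : ℝ) / m : ℝ) : ℂ) * (w - w') -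
                (w' + ((i / m : ℝ) : ℂ) * (w - w')) = (((m : ℝ)⁻¹ : ℝ) : ℂ) * (w - w') := by
              push_cast
              ring
            rw [e1, norm_mul, Complex.norm_real, Real.norm_of_nonneg (by positivity),
              inv_mul_le_iff₀ hm0]
            rwa [div_le_iff₀ hδ] at hm1)
        have e2 : f (w' + ((((i + 1 : ℕ) : ℝ) / m : ℝ) : ℂ) * (w - w')) - f w' =
          (f (w' + ((((i + 1 : ℕ) : ℝ) / m : ℝ) : ℂ) * (w - w')) -
            f (w' + ((i / m : ℝ) : ℂ) * (w - w'))) +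
          (f (w' + ((i / m : ℝ) : ℂ) * (w - w')) - f w') := by ring
        rw [e2]
        refine (norm_add_le _ _).trans ((add_le_add h2 h1).trans (le_of_eq ?_))
        push_cast
        ring
    have h3 := key m le_rfl
    have e3 : w' + (((m : ℝ) / m : ℝ) : ℂ) * (w - w') = w := by
      rw [div_self hm0.ne']
      push_cast
      ring
    rw [e3] at h3
    linarith

/-- small exponent differences -/
theorem exp_small {ζ : ℂ} (h : ‖cexp ζ - 1‖ ≤ 1 / 2) : ‖ζ‖ ≠ 1 := by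
  intro hζ
  have h1 : ‖Complex.log (1 + (cexp ζ - 1))‖ ≤ 3 / 2 * ‖cexp ζ - 1‖ :=
    Complex.norm_log_one_add_half_le_self h
  rw [add_sub_cancel] at h1
  obtain ⟨n, hn⟩ := Complex.exp_eq_exp_iff_exists_int.1 (Complex.exp_log (Complex.exp_ne_zero ζ))
  by_cases hn0 : n = 0
  · rw [hn0, Int.cast_zero, zero_mul, add_zero] at hn
    rw [hn, hζ] at h1
    linarith
  · have h2 := norm_two_pi_I_mul hn0
    have h3 : (2 * Real.pi * Complex.I : ℂ) * n = Complex.log (cexp ζ) - ζ := by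
      rw [hn]
      ring
    rw [h3] at h2
    have h4 := norm_sub_le (Complex.log (cexp ζ)) ζ
    linarith

/-- the lift of a relatively continuous map -/
theorem rel_step {σ : ℝ} {F : ℂ → ℂ} {M : C(ℂ, ℂ)} (hM : ∀ w, cexp (M w) = F (cexp w))
    {ρ d : ℝ}
    (H : ∀ x y : ℂ, x ≠ 0 → sc σ x < ρ → ‖x - y‖ ≤ d * ‖x‖ → ‖F x - F y‖ ≤ ‖F x‖ / 2) {w w' : ℂ}
    (hw : σ * w.re < ρ) (hww : ‖w - w'‖ ≤ min 1 (d / 2)) : ‖M w - M w'‖ ≤ 1 := by
  by_contra hcon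
  rw [not_le] at hcon
  have hseg : ∀ t ∈ Icc (0 : ℝ) 1, ‖cexp (M (w + (t : ℂ) * (w' - w)) - M w) - 1‖ ≤ 1 / 2 := by
    intro t ht
    obtain ⟨v, hv⟩ : ∃ v, v = w + (t : ℂ) * (w' - w) := ⟨_, rfl⟩
    rw [← hv]
    have hvw : ‖v - w‖ ≤ min 1 (d / 2) := by
      rw [hv, add_sub_cancel_left, norm_mul, Complex.norm_real, Real.norm_of_nonneg ht.1,
        norm_sub_rev]
      exact (mul_le_of_le_one_left (norm_nonneg _) ht.2).trans hww
    have h1 : ‖v - w‖ ≤ 1 := hvw.trans (min_le_left _ _)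
    have h2 : ‖v - w‖ ≤ d / 2 := hvw.trans (min_le_right _ _)
    have h3 : ‖cexp w - cexp v‖ ≤ d * ‖cexp w‖ := by
      have e1 : cexp w - cexp v = -(cexp w * (cexp (v - w) - 1)) := by
        rw [mul_sub, ← Complex.exp_add, add_sub_cancel]
        ring
      rw [e1, norm_neg, norm_mul]
      have h4 := Complex.norm_exp_sub_one_le h1
      have h5 := norm_nonneg (cexp w)
      nlinarith
    have h4 : sc σ (cexp w) < ρ := by
      rw [sc, Complex.norm_exp, Real.log_exp]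
      exact hw
    have h5 := H _ _ (Complex.exp_ne_zero w) h4 h3
    rw [← hM, ← hM] at h5
    have e2 : cexp (M w) - cexp (M v) = -(cexp (M w) * (cexp (M v - M w) - 1)) := by
      rw [mul_sub, ← Complex.exp_add, add_sub_cancel]
      ring
    rw [e2, norm_neg, norm_mul] at h5
    have h6 : 0 < ‖cexp (M w)‖ := norm_pos_iff.2 (Complex.exp_ne_zero _)
    have h7 : ‖cexp (M w)‖ * ‖cexp (M v - M w) - 1‖ ≤ ‖cexp (M w)‖ * (1 / 2) := by linarith
    exact le_of_mul_le_mul_left h7 h6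
  have hcont : ContinuousOn (fun t : ℝ => ‖M (w + (t : ℂ) * (w' - w)) - M w‖) (Icc 0 1) :=
    Continuous.continuousOn (by fun_prop)
  obtain ⟨t, ht, hte⟩ := intermediate_value_Icc zero_le_one hcont (show (1 : ℝ) ∈ _ from by
    simp only [Complex.ofReal_zero, zero_mul, add_zero, sub_self, norm_zero, Complex.ofReal_one,
      one_mul, add_sub_cancel, mem_Icc, zero_le_one, true_and]
    rw [norm_sub_rev]
    exact hcon.le)
  exact exp_small (hseg t ht) hte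

/-- relatively continuous maps are coarsely Lipschitz in logarithmic coordinates -/
theorem rel_coarse {σ : ℝ} (hσ : σ = 1 ∨ σ = -1) {F : ℂ ≃ₜ ℂ} {M : C(ℂ, ℂ)} (hM : LiftOf F M)
    (h : RelC σ F) :
    ∃ ρ0 C : ℝ, 0 < C ∧ (∀ w w' : ℂ, σ * w.re ≤ ρ0 → σ * w'.re ≤ ρ0 →
        |(M w - w).im - (M w' - w').im| ≤ C * (1 + |σ * w.re - σ * w'.re|)) ∧
      ∀ x y : ℂ, x ≠ 0 → ‖x‖ = ‖y‖ → sc σ x ≤ ρ0 → |sc σ (F x) - sc σ (F y)| ≤ C := by
  obtain ⟨ρ, d, hd, H⟩ := h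
  have habs : ∀ a b : ℝ, |σ * a - σ * b| = |a - b| := by
    intro a b
    rcases hσ with rfl | rfl
    · rw [one_mul, one_mul]
    · rw [← abs_neg]
      congr 1
      ring
  obtain ⟨δ, hδ⟩ : ∃ δ, δ = min 1 (d / 2) := ⟨_, rfl⟩
  have hδ0 : 0 < δ := by rw [hδ]; exact lt_min one_pos (half_pos hd)
  have key : ∀ w w' : ℂ, σ * w.re < ρ → σ * w'.re < ρ →
      ‖M w - M w'‖ ≤ ‖w - w'‖ / δ + 1 := fun w w' hw hw' =>
    chain_bound hδ0 (fun w w' hw _ hww => rel_step hM.2 H hw (hδ ▸ hww)) hw hw'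
  obtain ⟨C, hC⟩ : ∃ C, C = (4 + 1) * (1 / δ + 1) + 1 := ⟨_, rfl⟩
  have hδi : 0 < 1 / δ := by positivity
  have hC0 : 0 < C := by rw [hC]; positivity
  -- adjusting the imaginary parts
  have adj : ∀ w w' : ℂ, σ * w.re ≤ ρ - 1 → σ * w'.re ≤ ρ - 1 →
      ∃ n : ℤ, ‖M w - M (w' + n * tpi)‖ + ‖w - (w' + n * tpi)‖ ≤
        C * (1 + |σ * w.re - σ * w'.re|) := by
    intro w w' hw hw'
    rw [habs]
    obtain ⟨n, hn⟩ : ∃ n : ℤ, n = round ((w.im - w'.im) / (2 * Real.pi)) := ⟨_, rfl⟩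
    refine ⟨n, ?_⟩
    have h1 := abs_sub_round ((w.im - w'.im) / (2 * Real.pi))
    rw [← hn] at h1
    have hre : (w' + n * tpi).re = w'.re := by
      rw [tpi_eq]
      simp
    have him : (w' + n * tpi).im = w'.im + n * (2 * Real.pi) := by
      rw [tpi_eq]
      simp
    have h2 : ‖w - (w' + n * tpi)‖ ≤ |w.re - w'.re| + 4 := by
      refine (Complex.norm_le_abs_re_add_abs_im _).trans ?_
      rw [Complex.sub_re, Complex.sub_im, hre, him]
      have e1 : w.im - (w'.im + n * (2 * Real.pi)) =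
          (2 * Real.pi) * ((w.im - w'.im) / (2 * Real.pi) - n) := by
        field_simp
        ring
      rw [e1, abs_mul, abs_of_pos (by positivity : (0 : ℝ) < 2 * Real.pi)]
      have h3 := Real.pi_lt_four
      have h4 : 2 * Real.pi * |(w.im - w'.im) / (2 * Real.pi) - n| ≤ 2 * Real.pi * (1 / 2) :=
        mul_le_mul_of_nonneg_left h1 (by positivity)
      linarith
    have h3 := key w (w' + n * tpi) (by linarith) (by rw [hre]; linarith)
    have h4 : ‖w - (w' + n * tpi)‖ / δ = (1 / δ) * ‖w - (w' + n * tpi)‖ := by ring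
    rw [h4] at h3
    have h5 : (1 / δ + 1) * ‖w - (w' + n * tpi)‖ ≤ (1 / δ + 1) * (|w.re - w'.re| + 4) :=
      mul_le_mul_of_nonneg_left h2 (by positivity)
    have h6 := abs_nonneg (w.re - w'.re)
    rw [hC]
    nlinarith [mul_nonneg hδi.le h6]
  refine ⟨ρ - 1, C, hC0, fun w w' hw hw' => ?_, fun x y hx hxy hlx => ?_⟩
  · obtain ⟨n, hn⟩ := adj w w' hw hw'
    have e1 : M w' - w' = M (w' + n * tpi) - (w' + n * tpi) := by
      rw [int_shift hM.1]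
      ring
    rw [e1, ← Complex.sub_im]
    refine (Complex.abs_im_le_norm _).trans (le_trans ?_ hn)
    have e2 : M w - w - (M (w' + n * tpi) - (w' + n * tpi)) =
      (M w - M (w' + n * tpi)) - (w - (w' + n * tpi)) := by ring
    rw [e2]
    exact norm_sub_le _ _
  · have hy : y ≠ 0 := by
      rw [← norm_pos_iff, ← hxy]
      exact norm_pos_iff.2 hx
    obtain ⟨w, rfl⟩ : ∃ w, cexp w = x := ⟨Complex.log x, Complex.exp_log hx⟩
    obtain ⟨w', rfl⟩ : ∃ w', cexp w' = y := ⟨Complex.log y, Complex.exp_log hy⟩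
    rw [Complex.norm_exp, Complex.norm_exp] at hxy
    have hre : w.re = w'.re := Real.exp_injective hxy
    rw [sc, Complex.norm_exp, Real.log_exp] at hlx
    obtain ⟨n, hn⟩ := adj w w' hlx (hre ▸ hlx)
    rw [hre, sub_self, abs_zero, add_zero, mul_one] at hn
    rw [sc, sc, habs, ← hM.2, ← hM.2, Complex.norm_exp, Complex.norm_exp, Real.log_exp,
      Real.log_exp]
    have e1 : (M w').re = (M (w' + n * tpi)).re := by
      rw [int_shift hM.1, tpi_eq]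
      simp
    rw [e1, ← Complex.sub_re]
    refine (Complex.abs_re_le_norm _).trans ?_
    have := norm_nonneg (w - (w' + n * tpi))
    linarith

/-- an inward moving circle -/
theorem circle_in {F : ℂ ≃ₜ ℂ} {R : ℝ} (hR : 0 < R) (H : ∀ x : ℂ, ‖x‖ = R → ‖F x‖ < R) :
    MapsTo F (Metric.closedBall 0 R) (Metric.closedBall 0 R) := by
  intro z hz
  by_contra hcon
  rw [mem_closedBall_zero_iff] at hz hcon
  rw [not_le] at hcon
  obtain ⟨E, hE⟩ : ∃ E : Set ℂ, E = {z : ℂ | R < ‖z‖} := ⟨_, rfl⟩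
  have hEc : IsPreconnected E := by
    rw [hE]
    exact (isPreconnected_gt_ball R hR.le).isPreconnected
  have hc : IsPreconnected ((F⁻¹ : ℂ ≃ₜ ℂ) '' E) :=
    hEc.image _ (F⁻¹ : ℂ ≃ₜ ℂ).continuous.continuousOn
  have ho : IsOpen {z : ℂ | R < ‖z‖} := isOpen_lt continuous_const continuous_norm
  have hsub : (F⁻¹ : ℂ ≃ₜ ℂ) '' E ⊆ Metric.ball 0 R ∪ {z : ℂ | R < ‖z‖} := by
    rintro _ ⟨y, hy, rfl⟩
    rw [hE] at hy
    rcases lt_trichotomy ‖(F⁻¹ : ℂ ≃ₜ ℂ) y‖ R with h1 | h1 | h1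
    · exact Or.inl (mem_ball_zero_iff.2 h1)
    · exfalso
      have h2 := H _ h1
      rw [apply_inv_self'] at h2
      exact lt_asymm h2 hy
    · exact Or.inr h1
  have hdis : Disjoint (Metric.ball (0 : ℂ) R) {z : ℂ | R < ‖z‖} := by
    rw [Set.disjoint_left]
    intro z hz hz'
    exact lt_asymm (mem_ball_zero_iff.1 hz) hz'
  have hzR : ‖z‖ < R := by
    rcases hz.lt_or_eq with h1 | h1
    · exact h1
    · exact absurd (H z h1) (not_lt.2 hcon.le)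
  have hfin := hc.subset_left_of_subset_union Metric.isOpen_ball ho hdis hsub
    ⟨z, ⟨F z, by rw [hE]; exact hcon, inv_apply_self' F z⟩, mem_ball_zero_iff.2 hzR⟩
  -- the exterior would be bounded
  obtain ⟨B, hB⟩ := (isCompact_closedBall (0 : ℂ) R).exists_bound_of_continuousOn
    F.continuous.continuousOn
  have h3 : ((max B R + 1 : ℝ) : ℂ) ∈ E := by
    rw [hE]
    change R < ‖((max B R + 1 : ℝ) : ℂ)‖
    rw [Complex.norm_real]
    exact lt_of_lt_of_le (by have := le_max_right B R; linarith) (Real.le_norm_self _)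
  have h4 := hfin ⟨_, h3, rfl⟩
  have h5 := hB _ (Metric.ball_subset_closedBall h4)
  rw [apply_inv_self', Complex.norm_real] at h5
  have h6 := Real.le_norm_self (max B R + 1)
  have h7 := le_max_left B R
  linarith

/-- an outward moving circle -/
theorem circle_out {F : ℂ ≃ₜ ℂ} (hF0 : F 0 = 0) {R : ℝ} (hR : 0 < R)
    (H : ∀ x : ℂ, ‖x‖ = R → R < ‖F x‖) :
    MapsTo (F⁻¹ : ℂ ≃ₜ ℂ) (Metric.closedBall 0 R) (Metric.closedBall 0 R) := by
  have hc : IsPreconnected ((F⁻¹ : ℂ ≃ₜ ℂ) '' Metric.closedBall 0 R) :=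
    (convex_closedBall (0 : ℂ) _).isPreconnected.image _ (F⁻¹ : ℂ ≃ₜ ℂ).continuous.continuousOn
  have ho : IsOpen {z : ℂ | R < ‖z‖} := isOpen_lt continuous_const continuous_norm
  have hsub : (F⁻¹ : ℂ ≃ₜ ℂ) '' Metric.closedBall 0 R ⊆
      Metric.ball 0 R ∪ {z : ℂ | R < ‖z‖} := by
    rintro _ ⟨z, hz, rfl⟩
    rcases lt_trichotomy ‖(F⁻¹ : ℂ ≃ₜ ℂ) z‖ R with h1 | h1 | h1
    · exact Or.inl (mem_ball_zero_iff.2 h1)
    · exfalso
      have h2 := H _ h1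
      rw [apply_inv_self'] at h2
      exact absurd (mem_closedBall_zero_iff.1 hz) (not_le.2 h2)
    · exact Or.inr h1
  have hdis : Disjoint (Metric.ball (0 : ℂ) R) {z : ℂ | R < ‖z‖} := by
    rw [Set.disjoint_left]
    intro z hz hz'
    exact lt_asymm (mem_ball_zero_iff.1 hz) hz'
  have hfin := hc.subset_left_of_subset_union Metric.isOpen_ball ho hdis hsub
    ⟨0, ⟨0, Metric.mem_closedBall_self hR.le, symm_fix hF0⟩, Metric.mem_ball_self hR⟩
  intro z hz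
  exact Metric.ball_subset_closedBall (hfin ⟨z, hz, rfl⟩)

/-- a circle which is moved off itself gives a trap -/
theorem sc_trap {σ : ℝ} (hσ : σ = 1 ∨ σ = -1) {U : ℂ ≃ₜ ℂ} (hU0 : U 0 = 0) {τ : ℝ}
    (H : (∀ x : ℂ, x ≠ 0 → sc σ x = τ → τ < sc σ (U x)) ∨
      ∀ x : ℂ, x ≠ 0 → sc σ x = τ → sc σ (U x) < τ) :
    ∃ R > 0, MapsTo U (Metric.closedBall 0 R) (Metric.closedBall 0 R) ∨
      MapsTo (U⁻¹ : ℂ ≃ₜ ℂ) (Metric.closedBall 0 R) (Metric.closedBall 0 R) := by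
  have hne : ∀ x : ℂ, x ≠ 0 → 0 < ‖U x‖ := by
    intro x hx
    rw [norm_pos_iff]
    intro h0
    exact hx (U.injective (h0.trans hU0.symm))
  have key : (∃ R > 0, ∀ x : ℂ, ‖x‖ = R → R < ‖U x‖) ∨ ∃ R > 0, ∀ x : ℂ, ‖x‖ = R → ‖U x‖ < R := by
    rcases hσ with rfl | rfl
    · rcases H with H | H
      · refine Or.inl ⟨Real.exp τ, Real.exp_pos _, fun x hx => ?_⟩
        have hx0 : x ≠ 0 := norm_pos_iff.1 (hx ▸ Real.exp_pos τ)
        have h1 := H x hx0 (by rw [sc, hx, Real.log_exp, one_mul])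
        rw [sc, one_mul] at h1
        exact (Real.lt_log_iff_exp_lt (hne x hx0)).1 h1
      · refine Or.inr ⟨Real.exp τ, Real.exp_pos _, fun x hx => ?_⟩
        have hx0 : x ≠ 0 := norm_pos_iff.1 (hx ▸ Real.exp_pos τ)
        have h1 := H x hx0 (by rw [sc, hx, Real.log_exp, one_mul])
        rw [sc, one_mul] at h1
        exact (Real.log_lt_iff_lt_exp (hne x hx0)).1 h1
    · rcases H with H | H
      · refine Or.inr ⟨Real.exp (-τ), Real.exp_pos _, fun x hx => ?_⟩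
        have hx0 : x ≠ 0 := norm_pos_iff.1 (hx ▸ Real.exp_pos (-τ))
        have h1 := H x hx0 (by rw [sc, hx, Real.log_exp]; ring)
        rw [sc] at h1
        exact (Real.log_lt_iff_lt_exp (hne x hx0)).1 (by linarith)
      · refine Or.inl ⟨Real.exp (-τ), Real.exp_pos _, fun x hx => ?_⟩
        have hx0 : x ≠ 0 := norm_pos_iff.1 (hx ▸ Real.exp_pos (-τ))
        have h1 := H x hx0 (by rw [sc, hx, Real.log_exp]; ring)
        rw [sc] at h1
        exact (Real.lt_log_iff_exp_lt (hne x hx0)).1 (by linarith)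
  rcases key with ⟨R, hR, H⟩ | ⟨R, hR, H⟩
  · exact ⟨R, hR, Or.inr (circle_out hU0 hR H)⟩
  · exact ⟨R, hR, Or.inl (circle_in hR H)⟩

theorem circle_contr {k : ℤ} {F G : ℂ ≃ₜ ℂ} (h : PK k F G) (hk : k ≠ 0) (hF0 : F 0 = 0)
    (hG0 : G 0 = 0) {σ : ℝ} (hσ : σ = 1 ∨ σ = -1) {a b : ℤ} {τ : ℝ}
    (H : (∀ x : ℂ, x ≠ 0 → sc σ x = τ → τ < sc σ ((F ^ a * G ^ b : ℂ ≃ₜ ℂ) x)) ∨
      ∀ x : ℂ, x ≠ 0 → sc σ x = τ → sc σ ((F ^ a * G ^ b : ℂ ≃ₜ ℂ) x) < τ) : HasC F G := by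
  have hab : a ≠ 0 ∨ b ≠ 0 := by
    by_contra hcon
    push Not at hcon
    rw [hcon.1, hcon.2, zpow_zero, zpow_zero, mul_one] at H
    have hx0 : ((Real.exp (σ * τ) : ℝ) : ℂ) ≠ 0 := by exact_mod_cast (Real.exp_pos _).ne'
    have hx : sc σ ((Real.exp (σ * τ) : ℝ) : ℂ) = τ := by
      rw [sc, Complex.norm_real, Real.norm_of_nonneg (Real.exp_pos _).le, Real.log_exp]
      rcases hσ with rfl | rfl <;> ring
    rcases H with H | H
    · have h1 := H _ hx0 hx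
      change τ < sc σ ((Real.exp (σ * τ) : ℝ) : ℂ) at h1
      rw [hx] at h1
      exact lt_irrefl _ h1
    · have h1 := H _ hx0 hx
      change sc σ ((Real.exp (σ * τ) : ℝ) : ℂ) < τ at h1
      rw [hx] at h1
      exact lt_irrefl _ h1
  obtain ⟨R, hR, hm | hm⟩ := sc_trap hσ (U := F ^ a * G ^ b) (by
    change (F ^ a : ℂ ≃ₜ ℂ) ((G ^ b : ℂ ≃ₜ ℂ) 0) = 0
    rw [zpow_zero_fix hG0, zpow_zero_fix hF0]) H
  · exact trap_contr h hk hF0 hG0 hab (isCompact_closedBall 0 R)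
      (Metric.closedBall_mem_nhds _ hR) hm
  · have e : (F ^ a * G ^ b)⁻¹ = F ^ (-a) * G ^ (-b) := by
      have hcm : Commute F G := h.comm
      rw [mul_inv_rev, ← zpow_neg, ← zpow_neg]
      exact ((hcm.zpow_left (-a)).zpow_right (-b)).eq.symm
    rw [e] at hm
    exact trap_contr h hk hF0 hG0 (a := -a) (b := -b) (by omega) (isCompact_closedBall 0 R)
      (Metric.closedBall_mem_nhds _ hR) hm

/-- either some circle is moved off itself or the displacement of the scale is bounded -/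
theorem disp_or {σ : ℝ} (hσ : σ = 1 ∨ σ = -1) {F : ℂ ≃ₜ ℂ} {ρ0 C : ℝ}
    (h : ∀ x y : ℂ, x ≠ 0 → ‖x‖ = ‖y‖ → sc σ x ≤ ρ0 → |sc σ (F x) - sc σ (F y)| ≤ C) :
    (∃ τ, (∀ x : ℂ, x ≠ 0 → sc σ x = τ → τ < sc σ (F x)) ∨
      ∀ x : ℂ, x ≠ 0 → sc σ x = τ → sc σ (F x) < τ) ∨
    ∀ x : ℂ, x ≠ 0 → sc σ x ≤ ρ0 → |sc σ (F x) - sc σ x| ≤ C := by
  rw [or_iff_not_imp_right]
  intro hcon
  push Not at hcon
  obtain ⟨x, hx, hxl, hd⟩ := hcon
  have hnorm : ∀ y : ℂ, y ≠ 0 → sc σ y = sc σ x → ‖x‖ = ‖y‖ := by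
    intro y hy hyx
    have h1 : Real.log ‖y‖ = Real.log ‖x‖ := by
      rcases hσ with rfl | rfl
      · rw [sc, sc, one_mul, one_mul] at hyx
        exact hyx
      · rw [sc, sc] at hyx
        linarith
    exact (Real.log_injOn_pos (mem_Ioi.2 (norm_pos_iff.2 hy)) (mem_Ioi.2 (norm_pos_iff.2 hx))
      h1).symm
  refine ⟨sc σ x, ?_⟩
  rw [lt_abs] at hd
  rcases hd with hd | hd
  · left
    intro y hy hyx
    have h1 := h x y hx (hnorm y hy hyx) hxl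
    rw [abs_le] at h1
    linarith [h1.2]
  · right
    intro y hy hyx
    have h1 := h x y hx (hnorm y hy hyx) hxl
    rw [abs_le] at h1
    linarith [h1.1]

/-- the inverse is small where it should be -/
theorem inv_region {σ : ℝ} (hσ : σ = 1 ∨ σ = -1) {F : ℂ ≃ₜ ℂ} (hF0 : F 0 = 0) (ρ0 : ℝ) :
    ∃ ρ1 ≤ ρ0, ∀ y : ℂ, y ≠ 0 → sc σ y ≤ ρ1 → sc σ ((F⁻¹ : ℂ ≃ₜ ℂ) y) ≤ ρ0 := by
  have h0 : (F⁻¹ : ℂ ≃ₜ ℂ) 0 = 0 := symm_fix hF0
  have hne : ∀ y : ℂ, y ≠ 0 → 0 < ‖(F⁻¹ : ℂ ≃ₜ ℂ) y‖ := by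
    intro y hy
    rw [norm_pos_iff]
    intro h4
    exact hy ((F⁻¹ : ℂ ≃ₜ ℂ).injective (h4.trans h0.symm))
  rcases hσ with rfl | rfl
  · have hc : ContinuousAt (F⁻¹ : ℂ ≃ₜ ℂ) 0 := (F⁻¹ : ℂ ≃ₜ ℂ).continuous.continuousAt
    rw [Metric.continuousAt_iff] at hc
    obtain ⟨ε, hε, H⟩ := hc (Real.exp ρ0) (Real.exp_pos _)
    rw [h0] at H
    refine ⟨min ρ0 (Real.log ε - 1), min_le_left _ _, fun y hy hyl => ?_⟩
    rw [sc, one_mul] at hyl ⊢
    have h1 : ‖y‖ < ε := by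
      have h2 : Real.log ‖y‖ ≤ Real.log ε - 1 := hyl.trans (min_le_right _ _)
      exact (Real.log_lt_log_iff (norm_pos_iff.2 hy) hε).1 (by linarith)
    have h2 := H (x := y) (by rwa [dist_zero_right])
    rw [dist_zero_right] at h2
    rw [← Real.log_exp ρ0]
    exact (Real.log_lt_log (hne y hy) h2).le
  · -- the preimage of a large ball is bounded
    obtain ⟨B, hB⟩ := (isCompact_closedBall (0 : ℂ) (Real.exp (-ρ0))).exists_bound_of_continuousOn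
      F.continuous.continuousOn
    refine ⟨min ρ0 (-Real.log (max B 1) - 1), min_le_left _ _, fun y hy hyl => ?_⟩
    rw [sc] at hyl ⊢
    by_contra hcon
    rw [not_le] at hcon
    have h1 : ‖(F⁻¹ : ℂ ≃ₜ ℂ) y‖ ≤ Real.exp (-ρ0) :=
      ((Real.log_lt_iff_lt_exp (hne y hy)).1 (by linarith)).le
    have h2 := hB _ (mem_closedBall_zero_iff.2 h1)
    rw [apply_inv_self'] at h2
    have h3 : Real.log ‖y‖ ≤ Real.log (max B 1) :=
      Real.log_le_log (norm_pos_iff.2 hy) (h2.trans (le_max_left _ _))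
    have h4 := hyl.trans (min_le_right _ _)
    linarith

theorem coarse_of {σ : ℝ} (hσ : σ = 1 ∨ σ = -1) {F : ℂ ≃ₜ ℂ} (hF0 : F 0 = 0) {M : C(ℂ, ℂ)}
    {ρ0 C : ℝ} (hrot : ∀ w w' : ℂ, σ * w.re ≤ ρ0 → σ * w'.re ≤ ρ0 →
      |(M w - w).im - (M w' - w').im| ≤ C * (1 + |σ * w.re - σ * w'.re|))
    (hdisp : ∀ x : ℂ, x ≠ 0 → sc σ x ≤ ρ0 → |sc σ (F x) - sc σ x| ≤ C) :
    ∃ ρ1 ≤ ρ0, CoarseL σ F M ρ1 C := by
  obtain ⟨ρ1, hρ, H⟩ := inv_region hσ hF0 ρ0
  refine ⟨ρ1, hρ, ⟨fun y hy hyl => hdisp y hy (hyl.trans hρ), fun y hy hyl => ?_,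
    fun w w' hw hw' => hrot w w' (hw.trans hρ) (hw'.trans hρ)⟩⟩
  have h3 : (F⁻¹ : ℂ ≃ₜ ℂ) y ≠ 0 := by
    intro h4
    exact hy ((F⁻¹ : ℂ ≃ₜ ℂ).injective (h4.trans (symm_fix hF0).symm))
  have h4 := hdisp _ h3 (H y hy hyl)
  rw [apply_inv_self'] at h4
  rwa [abs_sub_comm]

theorem CoarseL.mono {σ : ℝ} {F : ℂ ≃ₜ ℂ} {M : C(ℂ, ℂ)} {ρ0 C ρ1 C1 : ℝ}
    (h : CoarseL σ F M ρ0 C) (hρ : ρ1 ≤ ρ0) (hC : C ≤ C1) : CoarseL σ F M ρ1 C1 :=
  ⟨fun y hy hyl => (h.disp y hy (hyl.trans hρ)).trans hC,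
    fun y hy hyl => (h.disp' y hy (hyl.trans hρ)).trans hC,
    fun w w' hw hw' => (h.rot w w' (hw.trans hρ) (hw'.trans hρ)).trans
      (mul_le_mul_of_nonneg_right hC (by positivity))⟩

/-- relatively continuous pairs with nonzero Euler number -/
theorem rel_contr {k : ℤ} {F G : ℂ ≃ₜ ℂ} (h : PK k F G) (hk : k ≠ 0) (hF0 : F 0 = 0)
    (hG0 : G 0 = 0) {σ : ℝ} (hσ : σ = 1 ∨ σ = -1) (hF : RelC σ F) (hG : RelC σ G) :
    HasC F G := by
  obtain ⟨-, hi1, hi2, -⟩ := mem_HomK_iff.1 h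
  obtain ⟨ℓf, hf⟩ := hi1.exists_logDiff
  obtain ⟨ℓg, hg⟩ := hi2.exists_logDiff
  obtain ⟨M, hM1, hM2, -⟩ := exists_lift hf hF0
  obtain ⟨N, hN1, hN2, -⟩ := exists_lift hg hG0
  obtain ⟨ρ1, C1, hC1, r1, d1⟩ := rel_coarse hσ ⟨hM1, hM2⟩ hF
  obtain ⟨ρ2, C2, hC2, r2, d2⟩ := rel_coarse hσ ⟨hN1, hN2⟩ hG
  rcases disp_or hσ d1 with ⟨τ, H⟩ | e1
  · refine circle_contr h hk hF0 hG0 hσ (a := 1) (b := 0) (τ := τ) ?_
    rw [zpow_one, zpow_zero, mul_one]
    exact H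
  rcases disp_or hσ d2 with ⟨τ, H⟩ | e2
  · refine circle_contr h hk hF0 hG0 hσ (a := 0) (b := 1) (τ := τ) ?_
    rw [zpow_one, zpow_zero, one_mul]
    exact H
  obtain ⟨σ1, -, c1⟩ := coarse_of hσ hF0 r1 e1
  obtain ⟨σ2, -, c2⟩ := coarse_of hσ hG0 r2 e2
  have hσ2 : σ * σ = 1 := by rcases hσ with rfl | rfl <;> norm_num
  obtain ⟨a, b, τ, H⟩ := coarse_out hσ2 h hk hF0 hG0 ⟨hM1, hM2⟩ ⟨hN1, hN2⟩
    (lt_max_of_lt_left hC1 : 0 < max C1 C2) (c1.mono (min_le_left σ1 σ2) (le_max_left C1 C2))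
    (c2.mono (min_le_right σ1 σ2) (le_max_right C1 C2))
  exact circle_contr h hk hF0 hG0 hσ (Or.inl H)

/-- a contraction in a subgroup of finite index -/
theorem HasC.of_index {k : ℤ} {F G : ℂ ≃ₜ ℂ} (h : PK k F G) (hk : k ≠ 0) {a b c d : ℤ}
    (hdet : a * d - b * c ≠ 0) (hc : HasC (F ^ a * G ^ b) (F ^ c * G ^ d)) : HasC F G := by
  obtain ⟨m, j, hmj, H, hH⟩ := hc
  have hcm : Commute F G := h.comm
  have e : (F ^ a * G ^ b) ^ m * (F ^ c * G ^ d) ^ j =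
      F ^ (a * m + c * j) * G ^ (b * m + d * j) := by
    have c1 : Commute (F ^ a) (G ^ b) := (hcm.zpow_left a).zpow_right b
    have c2 : Commute (F ^ c) (G ^ d) := (hcm.zpow_left c).zpow_right d
    rw [c1.mul_zpow, c2.mul_zpow, mul_zpow_zpow h.comm, ← zpow_mul, ← zpow_mul, ← zpow_mul,
      ← zpow_mul]
  rw [e] at hH
  obtain ⟨h1, h2⟩ : F (H 0) = H 0 ∧ G (H 0) = H 0 := by
    refine contr_fix (a := a * m + c * j) (b := b * m + d * j) h.comm hH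
  refine trap_contr h hk h1 h2 (a := a * m + c * j) (b := b * m + d * j) ?_
    (D := H '' Metric.closedBall 0 1) ((isCompact_closedBall 0 1).image H.continuous)
    (H.isOpenMap.image_mem_nhds (Metric.closedBall_mem_nhds 0 one_pos)) ?_
  · by_contra hcon
    push Not at hcon
    obtain ⟨x1, x2⟩ := hcon
    have y1 : (a * d - b * c) * m = 0 := by linear_combination d * x1 - c * x2
    have y2 : (a * d - b * c) * j = 0 := by linear_combination a * x2 - b * x1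
    have hm : m = 0 := (mul_eq_zero.1 y1).resolve_left hdet
    have hj : j = 0 := (mul_eq_zero.1 y2).resolve_left hdet
    rw [hm, hj] at hmj
    exact not_isCoprime_zero_zero hmj
  · rintro _ ⟨y, hy, rfl⟩
    rw [hH]
    refine mem_image_of_mem _ ?_
    rw [mem_closedBall_zero_iff] at hy ⊢
    rw [norm_div, Complex.norm_ofNat]
    linarith

end Pool.Agent.Helper984_CP
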