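import Pool.Agent.Helper984_CP.Rel

/-!
# Pairs satisfying a relative continuity condition, general position
-/

set_option autoImplicit false

open Set Filter Topology Complex ComplexConjugate

noncomputable section

namespace Pool.Agent.Helper984_CP

theorem RelC.conj {σ : ℝ} {f g : ℂ → ℂ} (h : RelC σ f) (hg : ∀ z, g z = conj (f (conj z))) :
    RelC σ g := by
  obtain ⟨ρ, d, hd, H⟩ := h
  refine ⟨ρ, d, hd, fun x y hx hxr hxy => ?_⟩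
  rw [hg, hg, ← map_sub (starRingEnd ℂ), Complex.norm_conj, Complex.norm_conj]
  refine H _ _ (fun h0 => hx ((map_eq_zero _).1 h0)) ?_ ?_
  · rw [sc, Complex.norm_conj]
    exact hxr
  · rw [← map_sub (starRingEnd ℂ), Complex.norm_conj, Complex.norm_conj]
    exact hxy

theorem RelC.of_zero {f : ℂ → ℂ} {r d : ℝ} (hd : 0 < d)
    (H : ∀ x y : ℂ, ‖x‖ < r → ‖x - y‖ ≤ d * ‖x‖ → ‖f x - f y‖ ≤ ‖f x‖ / 2) (hr : 0 < r) :
    RelC 1 f := by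
  refine ⟨Real.log r, d, hd, fun x y hx hxr hxy => H x y ?_ hxy⟩
  rw [sc, one_mul] at hxr
  exact (Real.log_lt_log_iff (norm_pos_iff.2 hx) hr).1 hxr

theorem RelC.of_inf {f : ℂ → ℂ} {r d : ℝ} (hd : 0 < d)
    (H : ∀ x y : ℂ, r < ‖x‖ → ‖x - y‖ ≤ d * ‖x‖ → ‖f x - f y‖ ≤ ‖f x‖ / 2) :
    RelC (-1) f := by
  refine ⟨-Real.log (max r 1), d, hd, fun x y hx hxr hxy => H x y ?_ hxy⟩
  rw [sc] at hxr
  have h1 : Real.log (max r 1) < Real.log ‖x‖ := by linarith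
  have h2 : 0 < max r 1 := lt_of_lt_of_le one_pos (le_max_right _ _)
  exact (le_max_left r 1).trans_lt ((Real.log_lt_log_iff h2 (norm_pos_iff.2 hx)).1 h1)

theorem PK.conjH {k : ℤ} {F G H : ℂ ≃ₜ ℂ} (h : PK k F G) (hI : IsoId (toC H)) :
    PK k (H⁻¹ * F * H) (H⁻¹ * G * H) := by
  have hHi : IsoId (toC H⁻¹) := hI.inv (apply_inv_self' H)
  exact (HomK_conj h hHi (hi := toC H) (apply_inv_self' H)).target_mem

theorem reg_contr_aux {k : ℤ} {F G : ℂ ≃ₜ ℂ} (h : PK k F G) (hk : k ≠ 0) {c : ℂ} (hFc : F c = c)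
    (hGc : G c = c) {H : ℂ ≃ₜ ℂ} (hI : IsoId (toC H)) (hH0 : H 0 = c) {σ : ℝ}
    (hσ : σ = 1 ∨ σ = -1) (h1 : RelC σ (H⁻¹ * F * H : ℂ ≃ₜ ℂ)) (h2 : RelC σ (H⁻¹ * G * H : ℂ ≃ₜ ℂ)) :
    HasC F G := by
  refine HasC.conj (H := H) (rel_contr (h.conjH hI) hk ?_ ?_ hσ h1 h2)
  · change (H⁻¹ : ℂ ≃ₜ ℂ) (F (H 0)) = 0
    rw [hH0, hFc, ← hH0, inv_apply_self']
  · change (H⁻¹ : ℂ ≃ₜ ℂ) (G (H 0)) = 0
    rw [hH0, hGc, ← hH0, inv_apply_self']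

theorem reg_contr {k : ℤ} {F G : ℂ ≃ₜ ℂ} (h : PK k F G) (hk : k ≠ 0) {c : ℂ} (hFc : F c = c)
    (hGc : G c = c) {a b a' b' : ℤ} (hdet : a * b' - b * a' ≠ 0) {H : ℂ ≃ₜ ℂ} (hH0 : H 0 = c)
    {σ : ℝ} (hσ : σ = 1 ∨ σ = -1) (h1 : RelC σ (H⁻¹ * (F ^ a * G ^ b) * H : ℂ ≃ₜ ℂ))
    (h2 : RelC σ (H⁻¹ * (F ^ a' * G ^ b') * H : ℂ ≃ₜ ℂ)) : HasC F G := by
  have hfix : ∀ a b : ℤ, (F ^ a * G ^ b : ℂ ≃ₜ ℂ) c = c := by
    intro a b
    have key : ∀ (T : ℂ ≃ₜ ℂ) (n : ℤ), T c = c → (T ^ n : ℂ ≃ₜ ℂ) c = c := by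
      intro T n hT
      have h3 := zpow_zero_fix (G := (trH c)⁻¹ * T * trH c) (by
        change ((trH c)⁻¹ : ℂ ≃ₜ ℂ) (T (0 + c)) = 0
        rw [zero_add, hT]
        change c + -c = 0
        ring) n
      have h4 : ((trH c)⁻¹ * T * trH c) ^ n = (trH c)⁻¹ * T ^ n * trH c := by
        have := conj_zpow (a := (trH c)⁻¹) (b := T) (i := n)
        rwa [inv_inv] at this
      rw [h4] at h3
      have h5 : (T ^ n : ℂ ≃ₜ ℂ) (0 + c) + -c = 0 := h3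
      rw [zero_add] at h5
      linear_combination h5
    change (F ^ a : ℂ ≃ₜ ℂ) ((G ^ b : ℂ ≃ₜ ℂ) c) = c
    rw [key G b hGc, key F a hFc]
  refine HasC.of_index h hk hdet ?_
  have hPK := h.bilin a b a' b'
  have hk' : k * (a * b' - b * a') ≠ 0 := mul_ne_zero hk hdet
  rcases kneser (isHomeo_toC H) with hI | hI
  · exact reg_contr_aux hPK hk' (hfix a b) (hfix a' b') hI hH0 hσ h1 h2
  · refine reg_contr_aux (H := H * conjH) hPK hk' (hfix a b) (hfix a' b') hI ?_ hσ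
      (h1.conj fun z => ?_) (h2.conj fun z => ?_)
    · change H (conj 0) = c
      rw [map_zero (starRingEnd ℂ), hH0]
    · rfl
    · rfl

end Pool.Agent.Helper984_CP
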