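import Pool.Agent.Helper984_CP.ContrClass

/-!
# Rotation of orbits about the common fixed point
-/

set_option autoImplicit false

open Set Filter Topology Complex

noncomputable section

namespace Pool.Agent.Helper984_CP

theorem Conf.iter_fst {f : C(ℂ, ℂ)} (hf : Function.Injective f) (i : ℕ) (a : Conf) :
    ((Conf.map f hf)^[i] a).1.1 = f^[i] a.1.1 := by
  induction i generalizing a with
  | zero => rfl
  | succ i ih => rw [Function.iterate_succ_apply, ih, Conf.map_fst, ← Function.iterate_succ_apply]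

theorem Conf.iter_snd {f : C(ℂ, ℂ)} (hf : Function.Injective f) (i : ℕ) (a : Conf) :
    ((Conf.map f hf)^[i] a).1.2 = f^[i] a.1.2 := by
  induction i generalizing a with
  | zero => rfl
  | succ i ih => rw [Function.iterate_succ_apply, ih, Conf.map_snd, ← Function.iterate_succ_apply]

/-- sums of the logarithmic cocycle along orbits -/
def ellN {f : C(ℂ, ℂ)} {ℓ : C(Conf, ℂ)} (hf : LogDiff f ℓ) (n : ℕ) (a : Conf) : ℂ :=
  ∑ i ∈ Finset.range n, ℓ ((Conf.map f hf.inj)^[i] a)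

theorem continuous_ellN {f : C(ℂ, ℂ)} {ℓ : C(Conf, ℂ)} (hf : LogDiff f ℓ) (n : ℕ) :
    Continuous (ellN hf n) := by
  refine continuous_finsetSum _ fun i _ => ?_
  exact ℓ.continuous.comp ((Conf.map f hf.inj).continuous.iterate i)

theorem ellN_exp {f : C(ℂ, ℂ)} {ℓ : C(Conf, ℂ)} (hf : LogDiff f ℓ) (n : ℕ) (a : Conf) :
    cexp (ellN hf n a) * (a.1.1 - a.1.2) = f^[n] a.1.1 - f^[n] a.1.2 := by
  induction n with
  | zero => simp [ellN]
  | succ n ih =>
    have h1 := hf ((Conf.map f hf.inj)^[n] a)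
    rw [Conf.iter_fst, Conf.iter_snd, ← ih] at h1
    have e : ellN hf (n + 1) a = ellN hf n a + ℓ ((Conf.map f hf.inj)^[n] a) :=
      Finset.sum_range_succ _ _
    rw [e, Complex.exp_add, Function.iterate_succ_apply', Function.iterate_succ_apply', ← h1]
    ring

theorem ellN_symm {f : C(ℂ, ℂ)} {ℓ : C(Conf, ℂ)} (hf : LogDiff f ℓ) (n : ℕ) {x y : ℂ}
    (h : x ≠ y) : ellN hf n ⟨(x, y), h⟩ = ellN hf n ⟨(y, x), h.symm⟩ := by
  refine Finset.sum_congr rfl fun i _ => ?_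
  have e1 : (Conf.map f hf.inj)^[i] ⟨(x, y), h⟩ =
      ⟨(f^[i] x, f^[i] y), (hf.inj.iterate i).ne h⟩ := by
    apply Subtype.ext
    apply Prod.ext
    · exact Conf.iter_fst hf.inj i _
    · exact Conf.iter_snd hf.inj i _
  have e2 : (Conf.map f hf.inj)^[i] ⟨(y, x), h.symm⟩ =
      ⟨(f^[i] y, f^[i] x), ((hf.inj.iterate i).ne h).symm⟩ := by
    apply Subtype.ext
    apply Prod.ext
    · exact Conf.iter_fst hf.inj i _
    · exact Conf.iter_snd hf.inj i _
  rw [e1, e2]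
  exact hf.symm _

/-- a branch of the logarithm of `x - z` on `Y` whose argument varies by at most `C` -/
def Branch (Y : Set ℂ) (z : ℂ) (C : ℝ) : Prop :=
  ∃ u : C(Y, ℂ), (∀ x : Y, cexp (u x) = x - z) ∧ ∀ x y, |(u x).im - (u y).im| ≤ C

theorem Branch.mono {Y : Set ℂ} {z : ℂ} {C C' : ℝ} (h : Branch Y z C) (hC : C ≤ C') :
    Branch Y z C' := by
  obtain ⟨u, h1, h2⟩ := h
  exact ⟨u, h1, fun x y => (h2 x y).trans hC⟩

theorem abs_im_log_sub (a b : ℂ) : |(Complex.log a).im - (Complex.log b).im| ≤ 2 * Real.pi := by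
  have h1 := Complex.abs_arg_le_pi a
  have h2 := Complex.abs_arg_le_pi b
  rw [Complex.log_im, Complex.log_im]
  refine (abs_sub _ _).trans ?_
  linarith

theorem Branch.step {Y : Set ℂ} {z z' : ℂ} {C d : ℝ} (h : Branch Y z C)
    (hd : ∀ x ∈ Y, d ≤ ‖x - z‖) (hz : ‖z' - z‖ < d) : Branch Y z' (C + 2 * Real.pi) := by
  obtain ⟨u, h1, h2⟩ := h
  have hne : ∀ x : Y, (x : ℂ) - z ≠ 0 := by
    intro x hx
    have := hd x x.2
    rw [hx, norm_zero] at this
    linarith [norm_nonneg (z' - z)]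
  have hsl : ∀ x : Y, ((x : ℂ) - z') / (x - z) ∈ slitPlane := by
    intro x
    have e : ((x : ℂ) - z') / (x - z) = 1 + -((z' - z) / (x - z)) := by
      field_simp [hne x]
      ring
    rw [e]
    apply Complex.mem_slitPlane_of_norm_lt_one
    rw [norm_neg, norm_div, div_lt_one (norm_pos_iff.2 (hne x))]
    exact hz.trans_le (hd x x.2)
  refine ⟨⟨fun x => u x + Complex.log (((x : ℂ) - z') / (x - z)), ?_⟩, fun x => ?_, fun x y => ?_⟩
  · refine u.continuous.add ?_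
    refine Continuous.clog ?_ hsl
    exact Continuous.div (by fun_prop) (by fun_prop) hne
  · simp only [ContinuousMap.coe_mk]
    rw [Complex.exp_add, h1, Complex.exp_log (Complex.slitPlane_ne_zero (hsl x))]
    exact mul_div_cancel₀ _ (hne x)
  · simp only [ContinuousMap.coe_mk, Complex.add_im]
    have h3 := h2 x y
    have h4 := abs_im_log_sub (((x : ℂ) - z') / (x - z)) (((y : ℂ) - z') / (y - z))
    have e : (u x).im + (Complex.log (((x : ℂ) - z') / (x - z))).im -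
        ((u y).im + (Complex.log (((y : ℂ) - z') / (y - z))).im) =
        ((u x).im - (u y).im) + ((Complex.log (((x : ℂ) - z') / (x - z))).im -
        (Complex.log (((y : ℂ) - z') / (y - z))).im) := by ring
    rw [e]
    exact (abs_add_le _ _).trans (add_le_add h3 h4)

theorem Branch.far {Y : Set ℂ} {z : ℂ} (h : ∀ x ∈ Y, ‖x‖ < ‖z‖) : Branch Y z (2 * Real.pi) := by
  by_cases hz : z = 0
  · have hem : ∀ x : Y, False := fun x => by
      have := h x x.2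
      rw [hz, norm_zero] at this
      exact absurd this (not_lt.2 (norm_nonneg _))
    exact ⟨0, fun x => (hem x).elim, fun x => (hem x).elim⟩
  have hsl : ∀ x : Y, 1 + -((x : ℂ) / z) ∈ slitPlane := by
    intro x
    apply Complex.mem_slitPlane_of_norm_lt_one
    rw [norm_neg, norm_div, div_lt_one (norm_pos_iff.2 hz)]
    exact h x x.2
  refine ⟨⟨fun x => Complex.log (-z) + Complex.log (1 + -((x : ℂ) / z)), ?_⟩, fun x => ?_,
    fun x y => ?_⟩
  · refine continuous_const.add ?_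
    refine Continuous.clog ?_ hsl
    fun_prop
  · simp only [ContinuousMap.coe_mk]
    rw [Complex.exp_add, Complex.exp_log (neg_ne_zero.2 hz),
      Complex.exp_log (Complex.slitPlane_ne_zero (hsl x))]
    field_simp
    ring
  · simp only [ContinuousMap.coe_mk, Complex.add_im]
    have h4 := abs_im_log_sub (1 + -((x : ℂ) / z)) (1 + -((y : ℂ) / z))
    rw [add_sub_add_left_eq_sub]
    exact h4

theorem exists_dist {Y : Set ℂ} (hY : IsCompact Y) {z : ℂ} (hz : z ∉ Y) :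
    ∃ d : ℝ, 0 < d ∧ ∀ x ∈ Y, d ≤ ‖x - z‖ := by
  have h1 : Yᶜ ∈ 𝓝 z := hY.isClosed.isOpen_compl.mem_nhds hz
  obtain ⟨d, hd, hsub⟩ := Metric.mem_nhds_iff.1 h1
  refine ⟨d, hd, fun x hx => ?_⟩
  by_contra hcon
  push Not at hcon
  exact hsub (mem_ball_iff_norm.2 hcon) hx

/-- branches exist on compact sets with connected complement -/
theorem exists_branch {Y : Set ℂ} (hY : IsCompact Y) (hYc : IsPreconnected Yᶜ) {z : ℂ}
    (hz : z ∉ Y) : ∃ C, Branch Y z C := by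
  have hA : IsOpen {z | z ∉ Y ∧ ∃ C, Branch Y z C} := by
    rw [Metric.isOpen_iff]
    rintro z ⟨hz, C, hC⟩
    obtain ⟨d, hd, hdY⟩ := exists_dist hY hz
    refine ⟨d, hd, fun z' hz' => ⟨fun hz'Y => ?_, _, hC.step hdY (mem_ball_iff_norm.1 hz')⟩⟩
    have := hdY z' hz'Y
    exact absurd (mem_ball_iff_norm.1 hz') (not_lt.2 this)
  have hB : IsOpen {z | z ∉ Y ∧ ¬ ∃ C, Branch Y z C} := by
    rw [Metric.isOpen_iff]
    rintro z ⟨hz, hC⟩
    obtain ⟨d, hd, hdY⟩ := exists_dist hY hz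
    refine ⟨d / 2, half_pos hd, fun z' hz' => ?_⟩
    have hz'' := mem_ball_iff_norm.1 hz'
    refine ⟨fun hz'Y => ?_, fun ⟨C, h⟩ => hC ⟨_, h.step (d := d / 2) (z' := z) (fun x hx => ?_) ?_⟩⟩
    · have := hdY z' hz'Y
      linarith
    · have h1 := hdY x hx
      have h2 := norm_sub_le_norm_sub_add_norm_sub x z' z
      linarith
    · rw [norm_sub_rev]
      exact hz''
  obtain ⟨R, hR⟩ := hY.isBounded.subset_closedBall (0 : ℂ)
  obtain ⟨w, hw⟩ : ∃ w : ℂ, w = ((|R| + 1 : ℝ) : ℂ) := ⟨_, rfl⟩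
  have hwn : ‖w‖ = |R| + 1 := by
    rw [hw, Complex.norm_real, Real.norm_of_nonneg (by positivity)]
  have hwY : ∀ x ∈ Y, ‖x‖ < ‖w‖ := by
    intro x hx
    have h1 := mem_closedBall_zero_iff.1 (hR hx)
    rw [hwn]
    linarith [le_abs_self R]
  have hwA : w ∈ {z | z ∉ Y ∧ ∃ C, Branch Y z C} :=
    ⟨fun h => lt_irrefl _ (hwY w h), _, Branch.far hwY⟩
  have hdisj : Disjoint {z | z ∉ Y ∧ ∃ C, Branch Y z C} {z | z ∉ Y ∧ ¬ ∃ C, Branch Y z C} := by
    rw [Set.disjoint_left]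
    rintro x ⟨-, h1⟩ ⟨-, h2⟩
    exact h2 h1
  have hcov : Yᶜ ⊆ {z | z ∉ Y ∧ ∃ C, Branch Y z C} ∪ {z | z ∉ Y ∧ ¬ ∃ C, Branch Y z C} := by
    intro x hx
    by_cases h : ∃ C, Branch Y x C
    · exact Or.inl ⟨hx, h⟩
    · exact Or.inr ⟨hx, h⟩
  exact (hYc.subset_left_of_subset_union hA hB hdisj hcov ⟨w, hwA.1, hwA⟩ hz).2

theorem uniform_branch {Y S : Set ℂ} (hY : IsCompact Y) (hYc : IsPreconnected Yᶜ)
    (hS : IsCompact S) (hSY : Disjoint S Y) : ∃ C, ∀ z ∈ S, Branch Y z C := by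
  refine hS.induction_on (p := fun s => ∃ C, ∀ z ∈ s, Branch Y z C) ⟨0, fun z hz => hz.elim⟩
    ?_ ?_ ?_
  · rintro s t hst ⟨C, hC⟩
    exact ⟨C, fun z hz => hC z (hst hz)⟩
  · rintro s t ⟨C, hC⟩ ⟨C', hC'⟩
    refine ⟨max C C', fun z hz => ?_⟩
    rcases hz with hz | hz
    · exact (hC z hz).mono (le_max_left _ _)
    · exact (hC' z hz).mono (le_max_right _ _)
  · intro z hz
    have hzY : z ∉ Y := fun h => Set.disjoint_left.1 hSY hz h
    obtain ⟨C, hC⟩ := exists_branch hY hYc hzY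
    obtain ⟨d, hd, hdY⟩ := exists_dist hY hzY
    refine ⟨Metric.ball z d, mem_nhdsWithin_of_mem_nhds (Metric.ball_mem_nhds z hd), C + 2 * Real.pi,
      fun z' hz' => hC.step hdY (mem_ball_iff_norm.1 hz')⟩

/-- the rotation relative to a point which moves outside of an invariant continuum is the same for
all points of the continuum up to a bounded error -/
theorem var_bound {f : C(ℂ, ℂ)} {ℓ : C(Conf, ℂ)} (hf : LogDiff f ℓ) {Y S : Set ℂ}
    (hY : IsCompact Y) (hYp : IsPreconnected Y) (hYc : IsPreconnected Yᶜ) (hfY : MapsTo f Y Y)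
    (hS : IsCompact S) (hSY : Disjoint S Y) (hfS : MapsTo f S S) :
    ∃ C : ℝ, ∀ (n : ℕ) (x y z : ℂ) (_ : x ∈ Y) (_ : y ∈ Y) (_ : z ∈ S) (hxz : x ≠ z) (hyz : y ≠ z),
      |(ellN hf n ⟨(x, z), hxz⟩).im - (ellN hf n ⟨(y, z), hyz⟩).im| ≤ C := by
  obtain ⟨C, hC⟩ := uniform_branch hY hYc hS hSY
  refine ⟨C + C, fun n x y z hx hy hz hxz hyz => ?_⟩
  have hzn : f^[n] z ∈ S := hfS.iterate n hz
  obtain ⟨u0, hu0, hu0'⟩ := hC z hz
  obtain ⟨u1, hu1, hu1'⟩ := hC _ hzn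
  have : PreconnectedSpace Y := Subtype.preconnectedSpace hYp
  have hne : ∀ w : Y, (w : ℂ) ≠ z := fun w h => Set.disjoint_left.1 hSY hz (h ▸ w.2)
  have hfn : ∀ w : Y, f^[n] w ∈ Y := fun w => hfY.iterate n w.2
  have h1 := exp_rigid (A := Y) (u := fun w => ellN hf n ⟨((w : ℂ), z), hne w⟩ + u0 w)
    (v := fun w => u1 ⟨f^[n] w, hfn w⟩)
    (by
      refine Continuous.add ?_ u0.continuous
      exact (continuous_ellN hf n).comp (by fun_prop))
    (by
      refine u1.continuous.comp ?_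
      exact Continuous.subtype_mk ((f.continuous.iterate n).comp continuous_subtype_val) _)
    (fun w => by
      rw [Complex.exp_add, hu0, hu1, ellN_exp]) ⟨x, hx⟩ ⟨y, hy⟩
  simp only at h1
  have h2 := congrArg Complex.im h1
  simp only [Complex.sub_im, Complex.add_im] at h2
  have h3 := hu0' ⟨x, hx⟩ ⟨y, hy⟩
  have h4 := hu1' ⟨f^[n] x, hfn ⟨x, hx⟩⟩ ⟨f^[n] y, hfn ⟨y, hy⟩⟩
  have e : (ellN hf n ⟨(x, z), hxz⟩).im - (ellN hf n ⟨(y, z), hyz⟩).im =
      -((u0 ⟨x, hx⟩).im - (u0 ⟨y, hy⟩).im) +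
      ((u1 ⟨f^[n] x, hfn ⟨x, hx⟩⟩).im - (u1 ⟨f^[n] y, hfn ⟨y, hy⟩⟩).im) := by
    linarith
  rw [e]
  refine (abs_add_le _ _).trans (add_le_add ?_ h4)
  rw [abs_neg]
  exact h3

/-- two sets rotate about the origin at the same speed, up to a bounded error -/
def Near {f : C(ℂ, ℂ)} {ℓ : C(Conf, ℂ)} (hf : LogDiff f ℓ) (S T : Set ℂ) : Prop :=
  ∃ C : ℝ, ∀ (n : ℕ) (s t : ℂ) (_ : s ∈ S) (_ : t ∈ T) (hs : s ≠ 0) (ht : t ≠ 0),
    |(ellN hf n ⟨(s, 0), hs⟩).im - (ellN hf n ⟨(t, 0), ht⟩).im| ≤ C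

theorem Near.symm {f : C(ℂ, ℂ)} {ℓ : C(Conf, ℂ)} {hf : LogDiff f ℓ} {S T : Set ℂ}
    (h : Near hf S T) : Near hf T S := by
  obtain ⟨C, hC⟩ := h
  refine ⟨C, fun n s t hs ht hs0 ht0 => ?_⟩
  rw [abs_sub_comm]
  exact hC n t s ht hs ht0 hs0

theorem Near.trans {f : C(ℂ, ℂ)} {ℓ : C(Conf, ℂ)} {hf : LogDiff f ℓ} {S T U : Set ℂ}
    (h : Near hf S T) (h' : Near hf T U) (hT : T.Nonempty) (hT0 : (0 : ℂ) ∉ T) : Near hf S U := by
  obtain ⟨C, hC⟩ := h
  obtain ⟨C', hC'⟩ := h'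
  obtain ⟨t, ht⟩ := hT
  have ht0 : t ≠ 0 := fun h => hT0 (h ▸ ht)
  refine ⟨C + C', fun n s u hs hu hs0 hu0 => ?_⟩
  have h1 := hC n s t hs ht hs0 ht0
  have h2 := hC' n t u ht hu ht0 hu0
  exact (abs_sub_le _ _ _).trans (add_le_add h1 h2)

/-- invariant sets which are separated by forward invariant continua containing the origin rotate
at the same speed -/
theorem near_of_sep {f : C(ℂ, ℂ)} {ℓ : C(Conf, ℂ)} (hf : LogDiff f ℓ) {Y Y' S S' : Set ℂ}
    (hY : IsCompact Y) (hYp : IsPreconnected Y) (hYc : IsPreconnected Yᶜ) (hfY : MapsTo f Y Y)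
    (hY0 : (0 : ℂ) ∈ Y)
    (hY' : IsCompact Y') (hYp' : IsPreconnected Y') (hYc' : IsPreconnected Y'ᶜ)
    (hfY' : MapsTo f Y' Y') (hY0' : (0 : ℂ) ∈ Y')
    (hS : IsCompact S) (hfS : MapsTo f S S) (hSY : S ⊆ Y) (hSY' : Disjoint S Y')
    (hS' : IsCompact S') (hfS' : MapsTo f S' S') (hSY'' : S' ⊆ Y') (hSY''' : Disjoint S' Y) :
    Near hf S S' := by
  obtain ⟨C, hC⟩ := var_bound hf hY hYp hYc hfY hS' hSY''' hfS'
  obtain ⟨C', hC'⟩ := var_bound hf hY' hYp' hYc' hfY' hS hSY' hfS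
  refine ⟨C + C', fun n s t hs ht hs0 ht0 => ?_⟩
  have hst : s ≠ t := fun h => Set.disjoint_left.1 hSY''' ht (h ▸ hSY hs)
  have h1 := hC n s 0 t (hSY hs) hY0 ht hst ht0.symm
  have h2 := hC' n t 0 s (hSY'' ht) hY0' hs hst.symm hs0.symm
  rw [ellN_symm hf n ht0.symm] at h1
  rw [ellN_symm hf n hs0.symm, ellN_symm hf n hst.symm] at h2
  have e : (ellN hf n ⟨(s, 0), hs0⟩).im - (ellN hf n ⟨(t, 0), ht0⟩).im =
      ((ellN hf n ⟨(s, t), hst⟩).im - (ellN hf n ⟨(t, 0), ht0⟩).im) -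
      ((ellN hf n ⟨(s, t), hst⟩).im - (ellN hf n ⟨(s, 0), hs0⟩).im) := by ring
  rw [e]
  exact (abs_sub _ _).trans (add_le_add h1 h2)

/-- the rotation about the origin of the image under a commuting map -/
theorem ellN_shift {k : ℤ} {f g : C(ℂ, ℂ)} (hc : ∀ x, f (g x) = g (f x)) {ℓf ℓg : C(Conf, ℂ)}
    (hf : LogDiff f ℓf) (hg : LogDiff g ℓg) (hE : EulerEq k f g) (hf0 : f 0 = 0) (hg0 : g 0 = 0)
    (n : ℕ) {x : ℂ} (hx : x ≠ 0) (hgx : g x ≠ 0) (hfx : f^[n] x ≠ 0) :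
    ellN hf n ⟨(g x, 0), hgx⟩ = ellN hf n ⟨(x, 0), hx⟩ + ℓg ⟨(f^[n] x, 0), hfx⟩ -
      ℓg ⟨(x, 0), hx⟩ + n * (2 * Real.pi * Complex.I * k) := by
  induction n with
  | zero =>
    simp [ellN]
  | succ n ih =>
    have hfx' : f^[n] x ≠ 0 := by
      intro h
      apply hfx
      rw [Function.iterate_succ_apply', h, hf0]
    have h1 := ih hfx'
    have e1 : ∀ a, ellN hf (n + 1) a = ellN hf n a + ℓf ((Conf.map f hf.inj)^[n] a) := fun a =>
      Finset.sum_range_succ _ _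
    have hit0 : f^[n] 0 = 0 := Function.iterate_fixed hf0 n
    have hcn : ∀ y, f^[n] (g y) = g (f^[n] y) := by
      intro y
      exact ((Function.Commute.iterate_left (f := f) (g := g) hc n) y)
    have hgf : g (f^[n] x) ≠ 0 := fun h => hfx' (hg.inj (h.trans hg0.symm))
    have e2 : (Conf.map f hf.inj)^[n] ⟨(g x, 0), hgx⟩ =
        Conf.map g hg.inj ⟨(f^[n] x, 0), hfx'⟩ := by
      apply Subtype.ext
      apply Prod.ext
      · rw [Conf.iter_fst]
        exact hcn x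
      · rw [Conf.iter_snd]
        exact hit0.trans hg0.symm
    have e3 : (Conf.map f hf.inj)^[n] ⟨(x, 0), hx⟩ = ⟨(f^[n] x, 0), hfx'⟩ := by
      apply Subtype.ext
      apply Prod.ext
      · exact Conf.iter_fst hf.inj n _
      · rw [Conf.iter_snd]
        exact hit0
    have e4 : Conf.map f hf.inj ⟨(f^[n] x, 0), hfx'⟩ = ⟨(f^[n + 1] x, 0), hfx⟩ := by
      apply Subtype.ext
      apply Prod.ext
      · exact (Function.iterate_succ_apply' f n x).symm
      · exact hf0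
    have h2 := hE ℓf ℓg hf hg ⟨(f^[n] x, 0), hfx'⟩
    rw [e4] at h2
    rw [e1, e1, e2, e3]
    push_cast
    linear_combination h1 + h2

end Pool.Agent.Helper984_CP
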