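import Pool.Agent.Helper984_CP.Stable

/-!
# A second element with a forward invariant neighbourhood, conclusion
-/

set_option autoImplicit false

open Set Filter Topology Complex

noncomputable section

namespace Pool.Agent.Helper984_CP

/-- if `G` moves every minimal set inwards, then high powers of `G` followed by `F` contract -/
theorem second_of_type {k : ℤ} {F G : ℂ ≃ₜ ℂ} (h : PK k F G) (hk : k ≠ 0) (hF0 : F 0 = 0)
    (hG0 : G 0 = 0) (hsm : ∀ ε : ℝ, 0 < ε → ∃ E, FNb F E ∧ E ⊆ Metric.closedBall 0 ε)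
    (hc : ∀ S E, MinSet F S → FNb F E → S ⊆ E → Deep F (G '' S) S) {E : Set ℂ} (hE : FNb F E) :
    ∃ n j : ℕ, j ≠ 0 ∧ MapsTo (F ^ n * G ^ j : ℂ ≃ₜ ℂ) E (interior E) := by
  have hcm := h.comm
  have h0E : interior E ∈ 𝓝 (0 : ℂ) := interior_mem_nhds.2 hE.nhds
  obtain ⟨ε1, hε1, hb1⟩ := Metric.nhds_basis_closedBall.mem_iff.1 h0E
  obtain ⟨E1, hE1, hE1s⟩ := hsm ε1 hε1
  have h0E1 : interior E1 ∈ 𝓝 (0 : ℂ) := interior_mem_nhds.2 hE1.nhds
  obtain ⟨ε2, hε2, hb2⟩ := Metric.nhds_basis_closedBall.mem_iff.1 h0E1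
  obtain ⟨E2, hE2, hE2s⟩ := hsm ε2 hε2
  have hE1E : E1 ⊆ interior E := hE1s.trans hb1
  have hE2E1 : E2 ⊆ interior E1 := hE2s.trans hb2
  have hR : IsCompact (E \ interior E2) := hE.compact.diff isOpen_interior
  have h0 : (0 : ℂ) ∉ E \ interior E2 := fun h => h.2 (mem_interior_iff_mem_nhds.2 hE2.nhds)
  obtain ⟨J, hJ⟩ := bounded_stay h hk hF0 hG0 hR h0
  obtain ⟨j, hj⟩ : ∃ j, j = J + 1 := ⟨_, rfl⟩
  have hcj : F * G ^ j = G ^ j * F := comm_pow hcm j
  have hGj0 : (G ^ j) 0 = 0 := pow_fix hG0 j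
  -- first fact
  have fact1 : ∀ S, MinSet F S → S ⊆ E → (G ^ j) '' S ⊆ E2 := by
    intro S hS hSE
    by_contra hcon
    have hdeep : Deep F ((G ^ j) '' S) S := deep_pow hcm hG0 (hc S E hS hE hSE) j
    have hS2 : ¬ S ⊆ E2 := fun h' => hcon (hdeep E2 hE2 h')
    have d1 := (hS.sub_or hE2.compact.isClosed hE2.maps).resolve_left hS2
    have hSj := hS.image hcj hGj0
    have d2 := (hSj.sub_or hE2.compact.isClosed hE2.maps).resolve_left hcon
    have h3 := hJ j S hS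
      (fun x hx => ⟨hSE hx, fun hx' => Set.disjoint_left.1 d1 hx (interior_subset hx')⟩)
      (fun x hx => ⟨hdeep E hE hSE hx, fun hx' => Set.disjoint_left.1 d2 hx (interior_subset hx')⟩)
    omega
  -- the sets `G ^ j F ^ n E`
  let V : ℕ → Set ℂ := fun n => (G ^ j * F ^ n : ℂ ≃ₜ ℂ) '' E
  have hVc : ∀ n, IsCompact (V n) := fun n => hE.compact.image (Homeomorph.continuous _)
  have hVanti : Antitone V := by
    apply antitone_nat_of_succ_le
    rintro n _ ⟨x, hx, rfl⟩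
    refine ⟨F x, hE.maps hx, ?_⟩
    rw [pow_succ, ← mul_assoc]
    rfl
  have hVF : ∀ n, MapsTo (F⁻¹ : ℂ ≃ₜ ℂ) (V (n + 1)) (V n) := by
    rintro n _ ⟨x, hx, rfl⟩
    refine ⟨x, hx, ?_⟩
    have e : F⁻¹ * (G ^ j * F ^ (n + 1)) = G ^ j * F ^ n := by
      rw [pow_succ', ← mul_assoc (G ^ j), ← hcj]
      group
    exact (congrArg (fun H : ℂ ≃ₜ ℂ => H x) e).symm
  have hinter : MapsTo F (interior E1) (interior E1) := by
    have h1 : F '' interior E1 ⊆ interior E1 := by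
      apply interior_maximal
      · rintro _ ⟨x, hx, rfl⟩
        exact hE1.maps (interior_subset hx)
      · exact F.isOpenMap _ isOpen_interior
    exact fun x hx => h1 ⟨x, hx, rfl⟩
  have fact2 : ⋂ n, V n ⊆ interior E := by
    refine subset_trans ?_ hE1E
    by_contra hcon
    obtain ⟨y, hy, hyE1⟩ := not_subset.1 hcon
    let P : Set ℂ := (⋂ n, V n) \ interior E1
    have hPc : IsCompact P := ((hVc 0).of_isClosed_subset
      (isClosed_iInter fun n => (hVc n).isClosed) (iInter_subset _ 0)).diff isOpen_interior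
    have hPy : y ∈ P := ⟨hy, fun h => hyE1 (interior_subset h)⟩
    have hPF : MapsTo (F⁻¹ : ℂ ≃ₜ ℂ) P P := by
      rintro x ⟨hx, hx'⟩
      refine ⟨mem_iInter.2 fun n => hVF n (mem_iInter.1 hx (n + 1)), fun h' => hx' ?_⟩
      have := hinter h'
      rwa [apply_inv_self'] at this
    let Q : ℕ → Set ℂ := fun n => ((F⁻¹ : ℂ ≃ₜ ℂ) ^ n) '' P
    have hQc : ∀ n, IsCompact (Q n) := fun n => hPc.image (Homeomorph.continuous _)
    have hQs : ∀ n, Q (n + 1) ⊆ Q n := by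
      rintro n _ ⟨x, hx, rfl⟩
      refine ⟨F⁻¹ x, hPF hx, ?_⟩
      rw [pow_succ]
      rfl
    have hQne : (⋂ n, Q n).Nonempty :=
      IsCompact.nonempty_iInter_of_sequence_nonempty_isCompact_isClosed Q hQs
        (fun n => ⟨_, ⟨y, hPy, rfl⟩⟩) (hQc 0) (fun n => (hQc n).isClosed)
    have hQP : (⋂ n, Q n) ⊆ P := by
      intro x hx
      obtain ⟨z, hz, rfl⟩ := mem_iInter.1 hx 0
      rw [pow_zero]
      exact hz
    have hQm : MapsTo F (⋂ n, Q n) (⋂ n, Q n) := by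
      intro x hx
      rw [mem_iInter] at hx ⊢
      intro n
      obtain ⟨z, hz, hzx⟩ := hx (n + 1)
      refine ⟨z, hz, ?_⟩
      rw [← hzx, pow_succ']
      exact (apply_inv_self' F _).symm
    have hQ0 : (0 : ℂ) ∉ ⋂ n, Q n := fun h =>
      (hQP h).2 (mem_interior_iff_mem_nhds.2 hE1.nhds)
    obtain ⟨T, hTQ, hT⟩ := exists_minSet
      ((hQc 0).of_isClosed_subset (isClosed_iInter fun n => (hQc n).isClosed) (iInter_subset _ 0))
      hQne hQm hQ0
    have hT0 : MinSet F (((G ^ j)⁻¹ : ℂ ≃ₜ ℂ) '' T) := by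
      have hcj' := comm_symm hcj
      exact hT.image hcj' (symm_fix hGj0)
    have hT0E : ((G ^ j)⁻¹ : ℂ ≃ₜ ℂ) '' T ⊆ E := by
      rintro _ ⟨x, hx, rfl⟩
      obtain ⟨z, hz, hzx⟩ := mem_iInter.1 (hQP (hTQ hx)).1 0
      rw [← hzx, pow_zero, mul_one]
      change ((G ^ j)⁻¹ : ℂ ≃ₜ ℂ) ((G ^ j) z) ∈ E
      rw [inv_apply_self']
      exact hz
    have h4 := fact1 _ hT0 hT0E
    rw [image_image_inv] at h4
    obtain ⟨x, hx⟩ := hT.nonempty
    exact (hQP (hTQ hx)).2 (hE2E1 (h4 hx))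
  obtain ⟨n, hn⟩ := exists_subset_nhds_of_isCompact hVanti.directed_ge hVc
    (fun x hx => isOpen_interior.mem_nhds (fact2 hx))
  refine ⟨n, j, by omega, fun x hx => hn ⟨x, hx, ?_⟩⟩
  have h1 : Commute F (G ^ j) := hcj
  exact congrArg (fun H : ℂ ≃ₜ ℂ => H x) (h1.pow_left n).eq.symm

/-- there is an element, independent of `F`, which maps a given forward invariant neighbourhood
into its interior -/
theorem exists_second {k : ℤ} {F G : ℂ ≃ₜ ℂ} (h : PK k F G) (hk : k ≠ 0) (hF0 : F 0 = 0)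
    (hG0 : G 0 = 0) (hsm : ∀ ε : ℝ, 0 < ε → ∃ E, FNb F E ∧ E ⊆ Metric.closedBall 0 ε)
    {E : Set ℂ} (hE : FNb F E) :
    ∃ (n : ℕ) (j : ℤ), j ≠ 0 ∧ MapsTo (F ^ n * G ^ j : ℂ ≃ₜ ℂ) E (interior E) := by
  obtain ⟨ℓ, hf⟩ := (mem_HomK_iff.1 h).2.1.exists_logDiff
  simp only at hf
  have hcm := h.comm
  have hG0' : (G⁻¹ : ℂ ≃ₜ ℂ) 0 = 0 := symm_fix hG0
  have hcm' := comm_symm hcm
  by_cases hall : ∀ S E, MinSet F S → FNb F E → S ⊆ E → Deep F (G '' S) S
  · obtain ⟨n, j, hj, hm⟩ := second_of_type h hk hF0 hG0 hsm hall hE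
    refine ⟨n, j, by exact_mod_cast hj, ?_⟩
    rw [zpow_natCast]
    exact hm
  · simp only [not_forall] at hall
    obtain ⟨S0, E0, hS0, hE0, hSE0, hd⟩ := hall
    have hn0 := not_near h hk hF0 hG0 hf hS0.compact hS0.zero hS0.maps hS0.nonempty
    have e0 := (near_or_deep hf hS0 (hS0.image hcm hG0) hn0).resolve_right hd
    have hall' : ∀ S E, MinSet F S → FNb F E → S ⊆ E → Deep F ((G⁻¹ : ℂ ≃ₜ ℂ) '' S) S := by
      intro S E' hS hE' hSE'
      have hn := not_near h hk hF0 hG0 hf hS.compact hS.zero hS.maps hS.nonempty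
      rcases near_or_deep hf hS (hS.image hcm hG0) hn with h1 | h1
      · have := h1.image hcm' hG0'
        rwa [image_inv_image] at this
      · exact (same_type h hk hF0 hG0 hsm hS hS0 hE' hSE' hE0 hSE0 h1 e0).elim
    obtain ⟨n, j, hj, hm⟩ := second_of_type h.inv_right (neg_ne_zero.2 hk) hF0 hG0' hsm hall' hE
    refine ⟨n, -(j : ℤ), neg_ne_zero.2 (by exact_mod_cast hj), ?_⟩
    rw [zpow_neg, zpow_natCast, ← inv_pow]
    exact hm

end Pool.Agent.Helper984_CP
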