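import Pool.Agent.Helper984_CP.Min

/-!
# Small forward invariant neighbourhoods of the common fixed point
-/

set_option autoImplicit false

open Set Filter Topology Complex

noncomputable section

namespace Pool.Agent.Helper984_CP

theorem HomK_mul_right {k k' : ℤ} {f g g' : C(ℂ, ℂ)} (h : (f, g) ∈ HomK k)
    (h' : (f, g') ∈ HomK k') : (f, g.comp g') ∈ HomK (k + k') := by
  obtain ⟨hc, hi1, hi2, hE⟩ := mem_HomK_iff.1 h
  obtain ⟨hc', -, hi2', hE'⟩ := mem_HomK_iff.1 h'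
  simp only at hc hi1 hi2 hE hc' hi2' hE'
  obtain ⟨ℓf, hf⟩ := hi1.exists_logDiff
  obtain ⟨ℓg, hg⟩ := hi2.exists_logDiff
  obtain ⟨ℓg', hg'⟩ := hi2'.exists_logDiff
  have hcc : ∀ x, f (g.comp g' x) = g.comp g' (f x) := fun x => by
    simp only [ContinuousMap.comp_apply]
    rw [hc, hc']
  refine mem_HomK_iff.2 ⟨hcc, hi1, hi2.comp hi2', EulerEq.of_one hcc hf (hg.comp hg')
    (a := ⟨(1, 0), one_ne_zero⟩) ?_⟩
  have h1 := hE ℓf ℓg hf hg (Conf.map g' hg'.inj ⟨(1, 0), one_ne_zero⟩)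
  have h2 := hE' ℓf ℓg' hf hg' ⟨(1, 0), one_ne_zero⟩
  simp only [ContinuousMap.add_apply, ContinuousMap.comp_apply]
  have e1 : Conf.map (g.comp g') (hg.comp hg').inj ⟨(1, 0), one_ne_zero⟩ =
      Conf.map g hg.inj (Conf.map g' hg'.inj ⟨(1, 0), one_ne_zero⟩) := rfl
  have e2 : Conf.map g' hg'.inj (Conf.map f hf.inj ⟨(1, 0), one_ne_zero⟩) =
      Conf.map f hf.inj (Conf.map g' hg'.inj ⟨(1, 0), one_ne_zero⟩) := by
    apply Subtype.ext
    apply Prod.ext
    · exact (hc' 1).symm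
    · exact (hc' 0).symm
  rw [e1, e2]
  push_cast
  linear_combination h1 + h2

theorem PK.mul_right {k k' : ℤ} {F G G' : ℂ ≃ₜ ℂ} (h : PK k F G) (h' : PK k' F G') :
    PK (k + k') F (G * G') := HomK_mul_right h h'

theorem PK.inv_right {k : ℤ} {F G : ℂ ≃ₜ ℂ} (h : PK k F G) : PK (-k) F G⁻¹ := by
  obtain ⟨hc, hi1, hi2, hE⟩ := mem_HomK_iff.1 h
  simp only at hc hi1 hi2 hE
  obtain ⟨ℓf, hf⟩ := hi1.exists_logDiff
  obtain ⟨ℓg, hg⟩ := hi2.exists_logDiff
  have h1 : ∀ x, toC G (toC G⁻¹ x) = x := apply_inv_self' G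
  have h2 : ∀ x, toC G⁻¹ (toC G x) = x := inv_apply_self' G
  have hE' := hE.inv_right hc h1 h2 hf hg
  refine mem_HomK_iff.2 ⟨fun x => ?_, hi1, hi2.inv h1, hE'⟩
  have := hc (toC G⁻¹ x)
  simp only
  rw [h1] at this
  rw [this, h2]

theorem PK.symm {k : ℤ} {F G : ℂ ≃ₜ ℂ} (h : PK k F G) : PK (-k) G F := by
  obtain ⟨hc, hi1, hi2, hE⟩ := mem_HomK_iff.1 h
  exact mem_HomK_iff.2 ⟨fun x => (hc x).symm, hi2, hi1, hE.swap⟩

theorem PK.one_right {k : ℤ} {F G : ℂ ≃ₜ ℂ} (h : PK k F G) : PK 0 F 1 := by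
  have h1 := h.mul_right h.inv_right
  rw [add_neg_cancel, mul_inv_cancel] at h1
  exact h1

theorem PK.zpow_right {k : ℤ} {F G : ℂ ≃ₜ ℂ} (h : PK k F G) (j : ℤ) : PK (k * j) F (G ^ j) := by
  induction j using Int.induction_on with
  | zero =>
    rw [mul_zero, zpow_zero]
    exact h.one_right
  | succ i ih =>
    have h1 := ih.mul_right h
    rw [zpow_add_one]
    have e : k * ((i : ℤ) + 1) = k * (i : ℤ) + k := by ring
    rw [e]
    exact h1
  | pred i ih =>
    have h1 := ih.mul_right h.inv_right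
    rw [zpow_sub_one]
    have e : k * (-(i : ℤ) - 1) = k * -(i : ℤ) + -k := by ring
    rw [e]
    exact h1

theorem PK.zpow_left {k : ℤ} {F G : ℂ ≃ₜ ℂ} (h : PK k F G) (j : ℤ) : PK (k * j) (F ^ j) G := by
  have h1 := (h.symm.zpow_right j).symm
  have e : -(-k * j) = k * j := by ring
  rwa [e] at h1

/-- for a nonzero Euler number there is no invariant nondegenerate continuum -/
theorem no_cont {k : ℤ} {F G : ℂ ≃ₜ ℂ} (h : PK k F G) (hk : k ≠ 0) {K : Set ℂ} (hK : IsCompact K)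
    (hKc : IsPreconnected K) (h1 : F '' K = K) (h2 : G '' K = K) : K.Subsingleton := by
  by_contra hns
  rw [Set.not_subsingleton_iff] at hns
  let i : ℂ → OnePoint ℂ := fun z => (z : OnePoint ℂ)
  have hio : IsOpenEmbedding i := OnePoint.isOpenEmbedding_coe
  have hinf : OnePoint.infty ∉ i '' K := by
    rintro ⟨z, -, hz⟩
    exact OnePoint.coe_ne_infty z hz
  have hcomp : ∀ H : ℂ ≃ₜ ℂ, H '' K = K → OnePoint.map (toC H) ''
      connectedComponentIn (i '' K)ᶜ OnePoint.infty =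
      connectedComponentIn (i '' K)ᶜ OnePoint.infty := by
    intro H hH
    have h3 := H.onePointCongr.image_connectedComponentIn (s := (i '' K)ᶜ)
      (x := OnePoint.infty) hinf
    have h4 : (H.onePointCongr : OnePoint ℂ → OnePoint ℂ) '' (i '' K)ᶜ = (i '' K)ᶜ := by
      rw [image_compl_eq H.onePointCongr.bijective, image_image]
      congr 1
      have : (fun x => H.onePointCongr (i x)) = fun x => i (H x) := rfl
      rw [this, ← image_image (g := i) (f := H), hH]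
    rw [h4] at h3
    exact h3
  have := continuum_inv h (K := i '' K) (hK.image hio.continuous).isClosed
    ⟨hns.nonempty.image _, hKc.image _ hio.continuous.continuousOn⟩
    (hns.image hio.injective) hinf (hcomp F h1) (hcomp G h2)
  exact hk this.1

theorem zpow_zero_fix {G : ℂ ≃ₜ ℂ} (h : G 0 = 0) (j : ℤ) : (G ^ j) 0 = 0 := by
  induction j using Int.induction_on with
  | zero => rfl
  | succ i ih =>
    rw [zpow_add_one]
    change (G ^ (i : ℤ)) (G 0) = 0
    rw [h, ih]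
  | pred i ih =>
    rw [zpow_sub_one]
    change (G ^ (-(i : ℤ))) (G⁻¹ 0) = 0
    have : G⁻¹ 0 = 0 := by
      conv_lhs => rw [← h]
      exact inv_apply_self' G 0
    rw [this, ih]

/-- small forward invariant neighbourhoods -/
theorem exists_small {k : ℤ} {F G : ℂ ≃ₜ ℂ} (h : PK k F G) (hk : k ≠ 0) (hF0 : F 0 = 0)
    (hG0 : G 0 = 0) {D : Set ℂ} (hD : IsCompact D) (hD0 : D ∈ 𝓝 (0 : ℂ)) (hm : MapsTo F D D)
    {ε : ℝ} (hε : 0 < ε) : ∃ E, FNb F E ∧ E ⊆ Metric.closedBall 0 ε := by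
  have hcm := h.comm
  have hC : Commute F G := hcm
  -- the sets of points whose orbit segments stay in `D`
  let Q : ℕ → Set ℂ := fun m => {z | ∀ i ≤ m, ∀ j : ℤ, |j| ≤ m → (F ^ (-(i : ℤ)) * G ^ j) z ∈ D}
  have hQ : ∀ m z, z ∈ Q m ↔ ∀ i ≤ m, ∀ j : ℤ, |j| ≤ m → (F ^ (-(i : ℤ)) * G ^ j) z ∈ D :=
    fun m z => Iff.rfl
  have hQcl : ∀ m, IsClosed (Q m) := by
    intro m
    have : Q m = ⋂ (i : ℕ) (_ : i ≤ m) (j : ℤ) (_ : |j| ≤ m), (F ^ (-(i : ℤ)) * G ^ j) ⁻¹' D := by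
      ext z
      simp only [hQ, mem_iInter, mem_preimage]
    rw [this]
    exact isClosed_iInter fun i => isClosed_iInter fun _ => isClosed_iInter fun j =>
      isClosed_iInter fun _ => hD.isClosed.preimage (F ^ (-(i : ℤ)) * G ^ j).continuous
  have hQD : ∀ m, Q m ⊆ D := by
    intro m z hz
    have := hz 0 (Nat.zero_le _) 0 (by simp)
    simpa using this
  have hQnhds : ∀ m, Q m ∈ 𝓝 (0 : ℂ) := by
    intro m
    have : Q m = ⋂ i ∈ Finset.range (m + 1), ⋂ j ∈ Finset.Icc (-(m : ℤ)) m,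
        (F ^ (-(i : ℤ)) * G ^ j) ⁻¹' D := by
      ext z
      simp only [hQ, mem_iInter, mem_preimage, Finset.mem_range, Finset.mem_Icc, Nat.lt_succ_iff]
      constructor
      · intro hz i hi j hj
        exact hz i hi j (abs_le.2 hj)
      · intro hz i hi j hj
        exact hz i hi j (abs_le.1 hj)
    rw [this]
    refine (Filter.biInter_finset_mem _).2 fun i _ => (Filter.biInter_finset_mem _).2 fun j _ => ?_
    apply (F ^ (-(i : ℤ)) * G ^ j).continuous.continuousAt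
    have e : (F ^ (-(i : ℤ)) * G ^ j) 0 = 0 := by
      change (F ^ (-(i : ℤ))) ((G ^ j) 0) = 0
      rw [zpow_zero_fix hG0, zpow_zero_fix hF0]
    rw [e]
    exact hD0
  have hQF : ∀ m, MapsTo F (Q m) (Q m) := by
    intro m z hz i hi j hj
    have e : (F ^ (-(i : ℤ)) * G ^ j) (F z) = F ((F ^ (-(i : ℤ)) * G ^ j) z) := by
      have h1 : Commute (F ^ (-(i : ℤ)) * G ^ j) F :=
        ((Commute.refl F).zpow_left _).mul_left (hC.symm.zpow_left j)
      exact congrArg (fun H : ℂ ≃ₜ ℂ => H z) h1.eq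
    rw [e]
    exact hm (hz i hi j hj)
  have hQFi : ∀ m, MapsTo (F⁻¹ : ℂ ≃ₜ ℂ) (Q (m + 1)) (Q m) := by
    intro m z hz i hi j hj
    have e : (F ^ (-(i : ℤ)) * G ^ j) (F⁻¹ z) = (F ^ (-((i + 1 : ℕ) : ℤ)) * G ^ j) z := by
      have h1 : F ^ (-(i : ℤ)) * G ^ j * F⁻¹ = F ^ (-((i + 1 : ℕ) : ℤ)) * G ^ j := by
        have h2 : Commute F⁻¹ (G ^ j) := (hC.inv_left).zpow_right j
        rw [mul_assoc, ← h2.eq, ← mul_assoc, ← zpow_sub_one]
        congr 2
        push_cast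
        ring
      exact congrArg (fun H : ℂ ≃ₜ ℂ => H z) h1
    rw [e]
    exact hz (i + 1) (by omega) j (by push_cast; linarith)
  have hQG : ∀ m, MapsTo G (Q (m + 1)) (Q m) := by
    intro m z hz i hi j hj
    have e : (F ^ (-(i : ℤ)) * G ^ j) (G z) = (F ^ (-(i : ℤ)) * G ^ (j + 1)) z := by
      rw [zpow_add_one, ← mul_assoc]
      rfl
    rw [e]
    refine hz i (by omega) (j + 1) ?_
    have h3 := abs_add_le j 1
    rw [abs_one] at h3
    push_cast
    linarith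
  have hQGi : ∀ m, MapsTo (G⁻¹ : ℂ ≃ₜ ℂ) (Q (m + 1)) (Q m) := by
    intro m z hz i hi j hj
    have e : (F ^ (-(i : ℤ)) * G ^ j) (G⁻¹ z) = (F ^ (-(i : ℤ)) * G ^ (j - 1)) z := by
      rw [zpow_sub_one, ← mul_assoc]
      rfl
    rw [e]
    refine hz i (by omega) (j - 1) ?_
    have h3 := abs_sub j 1
    rw [abs_one] at h3
    push_cast
    linarith
  have hQanti : Antitone Q := by
    intro m m' hmm z hz i hi j hj
    exact hz i (hi.trans hmm) j (hj.trans (by exact_mod_cast hmm))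
  -- the components
  let V : ℕ → Set ℂ := fun m => connectedComponentIn (Q m) 0
  have h0Q : ∀ m, (0 : ℂ) ∈ Q m := fun m => mem_of_mem_nhds (hQnhds m)
  have h0V : ∀ m, (0 : ℂ) ∈ V m := fun m => mem_connectedComponentIn (h0Q m)
  have hVcl : ∀ m, IsClosed (V m) := fun m => isClosed_compIn (hQcl m) 0
  have hVc : ∀ m, IsCompact (V m) := fun m =>
    hD.of_isClosed_subset (hVcl m) ((connectedComponentIn_subset _ _).trans (hQD m))
  have hVp : ∀ m, IsPreconnected (V m) := fun m => isPreconnected_connectedComponentIn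
  have hVmap : ∀ (H : ℂ ≃ₜ ℂ) (m m' : ℕ), H 0 = 0 → MapsTo H (Q m) (Q m') →
      MapsTo H (V m) (V m') := by
    intro H m m' hH hmap
    have h1 : H '' V m ⊆ connectedComponentIn (Q m') 0 := by
      refine ((hVp m).image _ H.continuous.continuousOn).subset_connectedComponentIn
        ⟨0, h0V m, hH⟩ ?_
      rintro _ ⟨x, hx, rfl⟩
      exact hmap (connectedComponentIn_subset _ _ hx)
    exact fun x hx => h1 ⟨x, hx, rfl⟩
  have hVanti : Antitone V := fun m m' hmm => connectedComponentIn_mono _ (hQanti hmm)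
  have hF0' : F⁻¹ 0 = 0 := by
    conv_lhs => rw [← hF0]
    exact inv_apply_self' F 0
  have hG0' : G⁻¹ 0 = 0 := by
    conv_lhs => rw [← hG0]
    exact inv_apply_self' G 0
  have hinv : ∀ H : ℂ ≃ₜ ℂ, (∀ m, MapsTo H (V (m + 1)) (V m)) → MapsTo H (⋂ m, V m) (⋂ m, V m) := by
    intro H hH x hx
    rw [mem_iInter] at hx ⊢
    exact fun m => hH m (hx (m + 1))
  have himg : ∀ H : ℂ ≃ₜ ℂ, (∀ m, MapsTo H (V (m + 1)) (V m)) →
      (∀ m, MapsTo (H⁻¹ : ℂ ≃ₜ ℂ) (V (m + 1)) (V m)) → H '' (⋂ m, V m) = ⋂ m, V m := by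
    intro H h1 h2
    apply subset_antisymm
    · exact (hinv H h1).image_subset
    · intro x hx
      exact ⟨H⁻¹ x, hinv _ h2 hx, apply_inv_self' H x⟩
  have hsub : (⋂ m, V m).Subsingleton := by
    refine no_cont h hk ?_ (preconn_iInter hVanti hVc hVp) ?_ ?_
    · exact (hVc 0).of_isClosed_subset (isClosed_iInter hVcl) (iInter_subset _ 0)
    · refine himg F (fun m => ?_) (fun m => hVmap _ _ _ hF0' (hQFi m))
      exact (hVmap F (m + 1) (m + 1) hF0 (hQF _)).mono_right (hVanti (Nat.le_succ m))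
    · exact himg G (fun m => hVmap _ _ _ hG0 (hQG m)) (fun m => hVmap _ _ _ hG0' (hQGi m))
  obtain ⟨m, hmm⟩ := exists_subset_nhds_of_isCompact (U := Metric.closedBall (0 : ℂ) ε)
    hVanti.directed_ge hVc (fun x hx => by
      have : x = 0 := hsub hx (mem_iInter.2 h0V)
      rw [this]
      exact Metric.closedBall_mem_nhds 0 hε)
  obtain ⟨E, h1, h2, h3, h4, h5, h6⟩ := exists_fill (F := F) (hVp m) hε.le hmm (hVcl m)
    (hVmap F m m hF0 (hQF m))
  refine ⟨E, ⟨h3, h4, h5, ?_, h6⟩, h2⟩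
  -- the component is a neighbourhood
  obtain ⟨δ, hδ, hball⟩ := Metric.mem_nhds_iff.1 (hQnhds m)
  refine mem_of_superset (Metric.ball_mem_nhds 0 hδ) (subset_trans ?_ h1)
  exact (convex_ball (0 : ℂ) δ).isPreconnected.subset_connectedComponentIn
    (Metric.mem_ball_self hδ) hball

end Pool.Agent.Helper984_CP
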