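import Pool.Agent.Helper984_CP.Cont

/-!
# Commuting pairs which preserve a complementary domain of a continuum of the sphere
-/

set_option autoImplicit false

open Set Filter Topology

noncomputable section

namespace Pool.Agent.Helper984_CP

theorem toDisc_zero : toDisc 0 = 0 := by simp [toDisc]

theorem ofDisc_zero : ofDisc 0 = 0 := by simp [ofDisc]

theorem inv_chart_ext {k : ℤ} {p : C(ℂ, ℂ) × C(ℂ, ℂ)} (hp : p ∈ HomK k) {U : Set ℂ}
    (h0 : (0 : ℂ) ∉ U) {φ ψ : ℂ → ℂ} (h : Riem φ ψ (hatU U)) (hc : deriv φ 0 ≠ 0)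
    (hφ0 : φ 0 = 0) (h1 : p.1 '' U = U) (h2 : p.2 '' U = U) :
    ∃ q, q ∈ closure (pathComponentIn (HomK k) p) ∧
      JoinedIn (HomK k) q (ContinuousMap.id ℂ, ContinuousMap.id ℂ) := by
  obtain ⟨hcomm, hi1, hi2, -⟩ := mem_HomK_iff.1 hp
  have hinj0 : ∀ z, ‖z‖ < 1 → z ≠ 0 → φ z ≠ 0 := by
    intro z hz hz0 hz1
    apply hz0
    have e1 := h.left z hz
    have e2 := h.left 0 (by simp)
    rw [hz1] at e1
    rw [hφ0] at e2
    rw [← e1, e2]
  have hψ0 : ψ 0 = 0 := by
    have := h.left 0 (by simp)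
    rwa [hφ0] at this
  have tn0 : ∀ z, z ≠ 0 → toDisc z ≠ 0 := by
    intro z hz hz1
    apply hz
    rw [← ofDisc_toDisc z, hz1, ofDisc_zero]
  -- one factor at a time
  have key : ∀ f : C(ℂ, ℂ), IsHomeo f → f '' U = U → ∃ (F Fi : ℂ → ℂ) (_ : DiscMap F)
      (_ : DiscMap Fi) (A : C(ℂ, ℂ)), (∀ z, ‖z‖ ≤ 1 → F (Fi z) = z) ∧
      (∀ z, ‖z‖ ≤ 1 → Fi (F z) = z) ∧ F 0 = 0 ∧ IsHomeo A ∧
      (∀ z, A z = ofDisc (F (toDisc z))) ∧ (∀ z, ‖z‖ < 1 → F z = ψ (hatF f (φ z))) ∧
      (∀ z, hatF f (φ (toDisc z)) = φ (toDisc (A z))) ∧ A 0 = 0 := by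
    rintro f ⟨fi, hf1, hf2⟩ hU
    have mf : ∀ x ∈ U, f x ∈ U := fun x hx => hU ▸ mem_image_of_mem _ hx
    have mfi : ∀ x ∈ U, fi x ∈ U := by
      intro x hx
      rw [← hU] at hx
      obtain ⟨y, hy, rfl⟩ := hx
      rwa [hf2]
    have i1 : ∀ x ∈ hatU U, hatF f (hatF fi x) = x := fun x hx => by
      rw [hatF_comp h0 mfi hx, hatF_congr hf1, hatF_id]
    have i2 : ∀ x ∈ hatU U, hatF fi (hatF f x) = x := fun x hx => by
      rw [hatF_comp h0 mf hx, hatF_congr hf2, hatF_id]
    obtain ⟨F, hF, eF⟩ := chart_extends' h (continuousOn_hatF hf2 h0 mf)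
      (continuousOn_hatF hf1 h0 mfi) i1 i2 (fun x hx => hatF_maps mf hx)
      (fun x hx => hatF_maps mfi hx) (smallMap_hatF hf2 h0 mf)
    obtain ⟨Fi, hFi, eFi⟩ := chart_extends' h (continuousOn_hatF hf1 h0 mfi)
      (continuousOn_hatF hf2 h0 mf) i2 i1 (fun x hx => hatF_maps mfi hx)
      (fun x hx => hatF_maps mf hx) (smallMap_hatF hf1 h0 mfi)
    have c1 : ∀ z, ‖z‖ ≤ 1 → F (Fi z) = z := fun z hz => by
      refine eq_on_closed (hF.comp hFi) continuousOn_id (fun z hz => ?_) hz
      rw [eF _ (hFi.inner z hz), eFi z hz, h.right _ (hatF_maps mfi (h.maps z hz)),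
        i1 _ (h.maps z hz), h.left z hz]
      rfl
    have c2 : ∀ z, ‖z‖ ≤ 1 → Fi (F z) = z := fun z hz => by
      refine eq_on_closed (hFi.comp hF) continuousOn_id (fun z hz => ?_) hz
      rw [eFi _ (hF.inner z hz), eF z hz, h.right _ (hatF_maps mf (h.maps z hz)),
        i2 _ (h.maps z hz), h.left z hz]
      rfl
    obtain ⟨A, hA⟩ := exists_plane hF
    obtain ⟨Ai, hAi⟩ := exists_plane hFi
    have hF0 : F 0 = 0 := by rw [eF 0 (by simp), hφ0, hatF_zero, hψ0]
    refine ⟨F, Fi, hF, hFi, A, c1, c2, hF0, ?_, hA, eF, ?_, ?_⟩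
    · exact ⟨Ai, fun x => by
        rw [hA, hAi, toDisc_ofDisc (hFi.inner _ (norm_toDisc_lt x)), c1 _ (norm_toDisc_lt x).le,
          ofDisc_toDisc], fun x => by
        rw [hA, hAi, toDisc_ofDisc (hF.inner _ (norm_toDisc_lt x)), c2 _ (norm_toDisc_lt x).le,
          ofDisc_toDisc]⟩
    · intro z
      rw [hA, toDisc_ofDisc (hF.inner _ (norm_toDisc_lt z)), eF _ (norm_toDisc_lt z),
        h.right _ (hatF_maps mf (h.maps _ (norm_toDisc_lt z)))]
    · rw [hA, toDisc_zero, hF0, ofDisc_zero]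
  obtain ⟨F, Fi, hF, hFi, A, c1, c2, hF0, hAh, hA, eF, kA, hA0⟩ := key p.1 hi1.isHomeo h1
  obtain ⟨G, Gi, hG, hGi, B, c3, c4, hG0, hBh, hB, eG, kB, hB0⟩ := key p.2 hi2.isHomeo h2
  have mf : ∀ x ∈ U, p.1 x ∈ U := fun x hx => h1 ▸ mem_image_of_mem _ hx
  have mg : ∀ x ∈ U, p.2 x ∈ U := fun x hx => h2 ▸ mem_image_of_mem _ hx
  have c5 : ∀ z, ‖z‖ ≤ 1 → F (G z) = G (F z) := fun z hz => by
    refine eq_on_closed (hF.comp hG) (hG.comp hF) (fun z hz => ?_) hz
    rw [eF _ (hG.inner z hz), eG z hz, h.right _ (hatF_maps mg (h.maps z hz)),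
      eG _ (hF.inner z hz), eF z hz, h.right _ (hatF_maps mf (h.maps z hz)),
      hatF_comp h0 mg (h.maps z hz), hatF_comp h0 mf (h.maps z hz)]
    rw [hatF_congr (fun x => hcomm x)]
  obtain ⟨A', hA'⟩ := exists_inv0 hAh hA0
  obtain ⟨B', hB'⟩ := exists_inv0 hBh hB0
  have hAB : ∀ z, A (B z) = B (A z) := by
    intro z
    rw [hA, hB, toDisc_ofDisc (hG.inner _ (norm_toDisc_lt z)), c5 _ (norm_toDisc_lt z).le, hB, hA,
      toDisc_ofDisc (hF.inner _ (norm_toDisc_lt z))]
  obtain ⟨hq, hq'⟩ := HomK_limit' (k := k) (p := p) (q := (A', B')) (isHomeo_inv0 hAh hA0 hA')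
    (isHomeo_inv0 hBh hB0 hB') (by
      intro x
      simp only
      rw [hA', hB', inv_inv, hAB, hB' (A' x), hA', inv_inv])
    (by simp only; rw [hA', inv_zero, hA0, inv_zero])
    (by simp only; rw [hB', inv_zero, hB0, inv_zero]) (by
    intro ρ hρ
    obtain ⟨M1, hM1⟩ := (isCompact_closedBall (0 : ℂ) (1 / ρ)).exists_bound_of_continuousOn
      A.continuous.continuousOn
    obtain ⟨M2, hM2⟩ := (isCompact_closedBall (0 : ℂ) (1 / ρ)).exists_bound_of_continuousOn
      B.continuous.continuousOn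
    obtain ⟨H, hH1, hH2⟩ := exists_H h hc (max (1 / ρ) (max M1 M2))
    have hH0 : H 0 = 0 := by
      rw [hH2 0 (by rw [norm_zero]; positivity), toDisc_zero, hφ0]
    obtain ⟨Hv, hHv⟩ := exists_inv0 hH1.isHomeo hH0
    have hHvI : IsoId Hv := isoId_inv0 hH1 hH0 hHv
    obtain ⟨Hi, hHi1, hHi2⟩ := hHvI.isHomeo
    have main : ∀ (f A A' : C(ℂ, ℂ)) (M : ℝ), (∀ x ∈ U, f x ∈ U) →
        (∀ z, hatF f (φ (toDisc z)) = φ (toDisc (A z))) → (∀ z, A' z = (A z⁻¹)⁻¹) →
        (∀ z, ‖z‖ ≤ 1 / ρ → ‖A z‖ ≤ M) → M ≤ max (1 / ρ) (max M1 M2) →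
        ∀ z, ρ ≤ ‖z‖ → Hi (f (Hv z)) = A' z := by
      intro f A A' M hfU kA hA' hM hMle z hz
      have hz0 : z ≠ 0 := norm_pos_iff.1 (hρ.trans_le hz)
      have hzi : ‖z⁻¹‖ ≤ 1 / ρ := by
        rw [norm_inv, one_div]
        exact inv_anti₀ hρ hz
      have e1 : H z⁻¹ = φ (toDisc z⁻¹) := hH2 _ (hzi.trans (le_max_left _ _))
      have hv0 : φ (toDisc z⁻¹) ≠ 0 :=
        hinj0 _ (norm_toDisc_lt _) (tn0 _ (inv_ne_zero hz0))
      have e2 : f (Hv z) = (φ (toDisc (A z⁻¹)))⁻¹ := by
        rw [hHv, e1, ← kA, hatF_of_ne f hv0, inv_inv]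
      have e3 : f (Hv z) = Hv (A' z) := by
        rw [e2, hHv, hA', inv_inv, hH2 _ ((hM _ hzi).trans hMle)]
      rw [e3, hHi2]
    refine ⟨_, HomK_conj hp (hHvI.inv hHi1) (hi := Hv) hHi1, fun z hz => ⟨?_, ?_⟩⟩
    · exact main p.1 A A' M1 mf kA hA' (fun w hw => hM1 w (mem_closedBall_zero_iff.2 hw))
        ((le_max_left _ _).trans (le_max_right _ _)) z hz
    · exact main p.2 B B' M2 mg kB hB' (fun w hw => hM2 w (mem_closedBall_zero_iff.2 hw))
        ((le_max_right _ _).trans (le_max_right _ _)) z hz)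
  refine ⟨(A', B'), hq', disc_joined_inv hF hFi hG hGi c1 c2 c3 c4 c5 hF0 hG0 ?_ ?_ hq⟩
  · intro z; rw [hA', hA]
  · intro z; rw [hB', hB]

/-- the complement of a complementary component of a connected set is connected -/
theorem compl_component_preconnected {X : Type*} [TopologicalSpace X] [PreconnectedSpace X]
    {K : Set X} (hKc : IsPreconnected K) {x : X} (hx : x ∉ K)
    (hWo : IsOpen (connectedComponentIn Kᶜ x)) :
    IsPreconnected (connectedComponentIn Kᶜ x)ᶜ := by
  obtain ⟨W, hW⟩ : ∃ W, W = connectedComponentIn Kᶜ x := ⟨_, rfl⟩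
  rw [← hW] at hWo ⊢
  have hxW : x ∈ W := by rw [hW]; exact mem_connectedComponentIn hx
  have hWc : IsPreconnected W := by rw [hW]; exact isPreconnected_connectedComponentIn
  have hWK : W ⊆ Kᶜ := by rw [hW]; exact connectedComponentIn_subset _ _
  have hKW : K ⊆ Wᶜ := subset_compl_comm.1 hWK
  -- the symmetric key step
  have key : ∀ A B : Set X, IsClosed A → IsClosed B → Wᶜ ⊆ A ∪ B → Wᶜ ∩ (A ∩ B) = ∅ →
      K ⊆ A → Wᶜ ⊆ A := by
    intro A B hA hB hcov hdis hKA
    obtain ⟨A', hA'⟩ : ∃ A', A' = Wᶜ ∩ A := ⟨_, rfl⟩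
    obtain ⟨B', hB'⟩ : ∃ B', B' = Wᶜ ∩ B := ⟨_, rfl⟩
    have hA'c : IsClosed A' := by rw [hA']; exact hWo.isClosed_compl.inter hA
    have hB'c : IsClosed B' := by rw [hB']; exact hWo.isClosed_compl.inter hB
    have hAc : A'ᶜ = W ∪ B' := by
      ext y
      rw [hA', hB']
      constructor
      · intro hy
        by_cases hyW : y ∈ W
        · exact Or.inl hyW
        · right
          refine ⟨hyW, ?_⟩
          rcases hcov hyW with h | h
          · exact absurd ⟨hyW, h⟩ hy
          · exact h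
      · rintro (hy | hy) hy'
        · exact hy'.1 hy
        · have : y ∈ Wᶜ ∩ (A ∩ B) := ⟨hy.1, hy'.2, hy.2⟩
          rw [hdis] at this
          exact this
    have hWB : IsPreconnected (W ∪ B') := by
      rw [isPreconnected_iff_subset_of_disjoint]
      have half : ∀ u v : Set X, IsOpen u → IsOpen v → W ∪ B' ⊆ u ∪ v →
          (W ∪ B') ∩ (u ∩ v) = ∅ → W ⊆ u → W ∪ B' ⊆ u := by
        intro u v hu hv huv hd hWu
        obtain ⟨Q, hQ⟩ : ∃ Q, Q = B' ∩ uᶜ := ⟨_, rfl⟩
        have hQc : IsClosed Q := by rw [hQ]; exact hB'c.inter hu.isClosed_compl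
        have hQo : IsOpen Q := by
          have : Q = A'ᶜ ∩ v := by
            rw [hAc, hQ]
            ext y
            constructor
            · rintro ⟨h1, h2⟩
              refine ⟨Or.inr h1, ?_⟩
              rcases huv (Or.inr h1) with h | h
              · exact absurd h h2
              · exact h
            · rintro ⟨h1, h2⟩
              have h3 : y ∉ u := by
                intro h3
                have : y ∈ (W ∪ B') ∩ (u ∩ v) := ⟨h1, h3, h2⟩
                rw [hd] at this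
                exact this
              rcases h1 with h1 | h1
              · exact absurd (hWu h1) h3
              · exact ⟨h1, h3⟩
          rw [this]
          exact hA'c.isOpen_compl.inter hv
        have hQe : Q = ∅ := by
          rcases isClopen_iff.1 ⟨hQc, hQo⟩ with h | h
          · exact h
          · exfalso
            have : x ∈ Q := by rw [h]; exact mem_univ x
            rw [hQ, hB'] at this
            exact this.1.1 hxW
        intro y hy
        rcases hy with hy | hy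
        · exact hWu hy
        · by_contra hyu
          have : y ∈ Q := by rw [hQ]; exact ⟨hy, hyu⟩
          rw [hQe] at this
          exact this
      intro u v hu hv huv hd
      have hdW : W ∩ (u ∩ v) = ∅ := by
        rw [← subset_empty_iff, ← hd]
        exact inter_subset_inter_left _ subset_union_left
      rcases isPreconnected_iff_subset_of_disjoint.1 hWc u v hu hv
        (subset_union_left.trans huv) hdW with h | h
      · exact Or.inl (half u v hu hv huv hd h)
      · exact Or.inr (half v u hv hu (by rwa [union_comm v u]) (by rwa [inter_comm v u]) h)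
    have hsub : W ∪ B' ⊆ W := by
      conv_rhs => rw [hW]
      refine hWB.subset_connectedComponentIn (Or.inl hxW) ?_
      intro y hy hyK
      rcases hy with hy | hy
      · exact hWK hy hyK
      · rw [hB'] at hy
        have : y ∈ Wᶜ ∩ (A ∩ B) := ⟨hy.1, hKA hyK, hy.2⟩
        rw [hdis] at this
        exact this
    intro y hy
    rcases hcov hy with h | h
    · exact h
    · exact absurd (hsub (Or.inr (by rw [hB']; exact ⟨hy, h⟩))) hy
  rw [isPreconnected_iff_subset_of_disjoint_closed]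
  intro A B hA hB hcov hdis
  have hdK : K ∩ (A ∩ B) = ∅ := by
    rw [← subset_empty_iff, ← hdis]
    exact inter_subset_inter_left _ hKW
  rcases isPreconnected_iff_subset_of_disjoint_closed.1 hKc A B hA hB (hKW.trans hcov) hdK
    with h | h
  · exact Or.inl (key A B hA hB hcov hdis h)
  · exact Or.inr (key B A hB hA (by rwa [union_comm B A]) (by rwa [inter_comm B A]) h)

theorem HomK_component_joined {k : ℤ} {p p' e : C(ℂ, ℂ) × C(ℂ, ℂ)}
    (hj : JoinedIn (HomK k) p p') (h : p' ∈ connectedComponentIn (HomK k) e) :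
    p ∈ connectedComponentIn (HomK k) e := by
  have h1 : IsPreconnected (pathComponentIn (HomK k) p') :=
    (isPathConnected_pathComponentIn hj.target_mem).isConnected.isPreconnected
  rw [connectedComponentIn_eq h]
  exact h1.subset_connectedComponentIn (mem_pathComponentIn_self hj.target_mem)
    pathComponentIn_subset hj.symm

/-- the theorem for domains with connected complement in the sphere -/
theorem sphere_inv {k : ℤ} {p : C(ℂ, ℂ) × C(ℂ, ℂ)} (hp : p ∈ HomK k) {W : Set (OnePoint ℂ)}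
    (hWo : IsOpen W) (hWc : IsConnected W) (hWc' : IsPreconnected Wᶜ) (hWn : Wᶜ.Nontrivial)
    (h1 : OnePoint.map p.1 '' W = W) (h2 : OnePoint.map p.2 '' W = W) :
    k = 0 ∧ p ∈ connectedComponentIn (HomK 0) (ContinuousMap.id ℂ, ContinuousMap.id ℂ) := by
  let i : ℂ → OnePoint ℂ := fun z => (z : OnePoint ℂ)
  have hio : IsOpenEmbedding i := OnePoint.isOpenEmbedding_coe
  obtain ⟨U, hU⟩ : ∃ U, U = i ⁻¹' W := ⟨_, rfl⟩
  have hUo : IsOpen U := by rw [hU]; exact hWo.preimage hio.continuous
  have img : ∀ f : ℂ → ℂ, OnePoint.map f '' W = W → f '' U = U := by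
    intro f hf
    rw [hU]
    ext z
    constructor
    · rintro ⟨y, hy, rfl⟩
      have : OnePoint.map f (i y) ∈ W := hf ▸ mem_image_of_mem _ hy
      exact this
    · intro hz
      have hz' : i z ∈ OnePoint.map f '' W := by rw [hf]; exact hz
      obtain ⟨w, hw, hwz⟩ := hz'
      induction w using OnePoint.rec with
      | infty =>
        exfalso
        exact OnePoint.coe_ne_infty z hwz.symm
      | coe y =>
        exact ⟨y, hw, OnePoint.coe_injective hwz⟩
  have hU1 := img p.1 h1
  have hU2 := img p.2 h2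
  suffices hmain : ∃ p' q, JoinedIn (HomK k) p p' ∧ q ∈ closure (pathComponentIn (HomK k) p') ∧
      JoinedIn (HomK k) q (ContinuousMap.id ℂ, ContinuousMap.id ℂ) by
    obtain ⟨p', q, hj', hq, hj⟩ := hmain
    have hk : k = 0 := HomK_unique hj.target_mem id_mem
    subst hk
    exact ⟨rfl, HomK_component_joined hj' (mem_component_of_limit hj'.target_mem hq hj)⟩
  by_cases hinf : OnePoint.infty ∈ W
  · -- the exterior case
    obtain ⟨a, ha, b, hb, hab⟩ := hWn
    induction a using OnePoint.rec with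
    | infty => exact absurd hinf ha
    | coe a =>
    induction b using OnePoint.rec with
    | infty => exact absurd hinf hb
    | coe b =>
    have hab' : a ≠ b := fun h => hab (by rw [h])
    -- move the point to the origin
    have hT : IsoId (⟨fun z => (1 : ℂ) * z + -a, by fun_prop⟩ : C(ℂ, ℂ)) :=
      isoId_affine (d := -a) one_ne_zero
    let T : C(ℂ, ℂ) := ⟨fun z => (1 : ℂ) * z + -a, by fun_prop⟩
    let Ti : C(ℂ, ℂ) := ⟨fun z => z + a, by fun_prop⟩
    have hTi : ∀ x, Ti (T x) = x := fun x => by simp [T, Ti]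
    have hTi' : ∀ x, T (Ti x) = x := fun x => by simp [T, Ti]
    have hj := HomK_conj hp hT (hi := Ti) hTi
    obtain ⟨p', hp'⟩ : ∃ p', p' = (T.comp (p.1.comp Ti), T.comp (p.2.comp Ti)) := ⟨_, rfl⟩
    obtain ⟨U', hU'⟩ : ∃ U' : Set ℂ, U' = {z | z + a ∈ U} := ⟨_, rfl⟩
    have h0 : (0 : ℂ) ∉ U' := by
      rw [hU', mem_ofPred_eq, zero_add, hU]
      exact ha
    have imgT : ∀ f : C(ℂ, ℂ), f '' U = U → (T.comp (f.comp Ti)) '' U' = U' := by
      intro f hf
      rw [hU']
      ext z
      constructor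
      · rintro ⟨y, hy, rfl⟩
        have hy' : f (y + a) ∈ U := hf ▸ mem_image_of_mem _ hy
        change (1 : ℂ) * f (y + a) + -a + a ∈ U
        rw [one_mul, neg_add_cancel_right]
        exact hy'
      · intro hz
        have hz' : z + a ∈ U := hz
        rw [← hf] at hz'
        obtain ⟨y, hy, hyz⟩ := hz'
        refine ⟨y - a, ?_, ?_⟩
        · change y - a + a ∈ U
          rw [sub_add_cancel]
          exact hy
        · change (1 : ℂ) * f (y - a + a) + -a = z
          rw [sub_add_cancel, hyz]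
          ring
    -- the inverted domain
    let τ : OnePoint ℂ ≃ₜ OnePoint ℂ := (Homeomorph.addRight a).onePointCongr
    let M : OnePoint ℂ ≃ₜ OnePoint ℂ := sinvHomeo.trans τ
    have hM0 : ∀ v : ℂ, M (i v) ∈ W ↔ v ∈ hatU U' := by
      intro v
      by_cases hv : v = 0
      · subst hv
        have e1 : M (i 0) = OnePoint.infty := by
          change τ (sinv ((0 : ℂ) : OnePoint ℂ)) = _
          rw [sinv_zero]
          rfl
        rw [e1]
        exact ⟨fun _ => zero_mem_hatU U', fun _ => hinf⟩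
      · have e1 : M (i v) = i (v⁻¹ + a) := by
          change τ (sinv (v : OnePoint ℂ)) = _
          rw [sinv_coe hv]
          rfl
        rw [e1, hatU_of_ne hv, hU', mem_ofPred_eq, hU]
        rfl
    have hMinf : M OnePoint.infty ∉ W := by
      have e1 : M OnePoint.infty = i (0 + a) := by
        change τ (sinv OnePoint.infty) = _
        rw [sinv_infty]
        rfl
      rw [e1, zero_add]
      exact ha
    have hV : i '' (hatU U') = M ⁻¹' W := by
      ext y
      constructor
      · rintro ⟨v, hv, rfl⟩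
        exact (hM0 v).2 hv
      · intro hy
        induction y using OnePoint.rec with
        | infty => exact absurd hy hMinf
        | coe v => exact ⟨v, (hM0 v).1 hy, rfl⟩
    have hMsymm : ∀ S : Set (OnePoint ℂ), M ⁻¹' S = M.symm '' S := fun S =>
      (M.image_symm ▸ rfl : M ⁻¹' S = M.symm '' S)
    have hVo : IsOpen (hatU U') := by
      have e1 : hatU U' = i ⁻¹' (M ⁻¹' W) := by
        rw [← hV, preimage_image_eq _ hio.injective]
      rw [e1]
      exact (hWo.preimage M.continuous).preimage hio.continuous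
    have hVc : IsConnected (hatU U') := by
      refine ⟨⟨0, zero_mem_hatU U'⟩, ?_⟩
      rw [← hio.isInducing.isPreconnected_image, hV, hMsymm]
      exact hWc.isPreconnected.image _ M.symm.continuous.continuousOn
    have hVs : IsPreconnected (i '' (hatU U'))ᶜ := by
      rw [hV, ← preimage_compl, hMsymm]
      exact hWc'.image _ M.symm.continuous.continuousOn
    have hVne : hatU U' ≠ univ := by
      intro h
      have hba : b - a ≠ 0 := sub_ne_zero.2 (Ne.symm hab')
      have h3 : (b - a)⁻¹ ∈ hatU U' := by rw [h]; exact mem_univ _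
      rw [hatU_of_ne (inv_ne_zero hba), inv_inv, hU', mem_ofPred_eq, sub_add_cancel, hU] at h3
      exact hb h3
    obtain ⟨φ, ψ, hR, hc, hφ0⟩ := exists_riem_hull hVo hVc hVne (hull_of_compl hVs)
      (zero_mem_hatU U')
    obtain ⟨q, hq, hjq⟩ := inv_chart_ext (p := p') (by rw [hp']; exact hj.target_mem) h0 hR hc hφ0
      (by rw [hp']; exact imgT p.1 hU1) (by rw [hp']; exact imgT p.2 hU2)
    exact ⟨p', q, by rw [hp']; exact hj, hq, hjq⟩
  · -- the plane case
    have hUW : i '' U = W := by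
      rw [hU, image_preimage_eq_inter_range]
      apply inter_eq_left.2
      intro y hy
      induction y using OnePoint.rec with
      | infty => exact absurd hy hinf
      | coe v => exact ⟨v, rfl⟩
    have hUc : IsConnected U := by
      have h3 : IsPreconnected U := by
        rw [← hio.isInducing.isPreconnected_image, hUW]
        exact hWc.isPreconnected
      refine ⟨?_, h3⟩
      obtain ⟨y, hy⟩ := hWc.nonempty
      rw [← hUW] at hy
      obtain ⟨v, hv, -⟩ := hy
      exact ⟨v, hv⟩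
    have hUs : IsPreconnected (i '' U)ᶜ := by rw [hUW]; exact hWc'
    have hUne : U ≠ univ := by
      intro h
      obtain ⟨a, ha, b, hb, hab⟩ := hWn
      have all : ∀ y : OnePoint ℂ, y ∉ W → y = OnePoint.infty := by
        intro y hy
        induction y using OnePoint.rec with
        | infty => rfl
        | coe v =>
          exfalso
          apply hy
          rw [← hUW, h]
          exact ⟨v, mem_univ v, rfl⟩
      exact hab ((all a ha).trans (all b hb).symm)
    obtain ⟨c, hcU⟩ := hUc.nonempty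
    obtain ⟨φ, ψ, hR, hc, -⟩ := exists_riem_hull hUo hUc hUne (hull_of_compl hUs) hcU
    obtain ⟨q, hq, hjq⟩ := inv_chart hp hR hc hU1 hU2
    exact ⟨p, q, JoinedIn.refl hp, hq, hjq⟩

end Pool.Agent.Helper984_CP
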