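import Pool.Agent.Helper984_CP.Small

/-!
# A second element with a forward invariant neighbourhood
-/

set_option autoImplicit false

open Set Filter Topology Complex

noncomputable section

namespace Pool.Agent.Helper984_CP

/-- `S` is contained in every forward invariant neighbourhood which contains `T` -/
def Deep (F : ℂ ≃ₜ ℂ) (S T : Set ℂ) : Prop := ∀ E, FNb F E → T ⊆ E → S ⊆ E

theorem Deep.trans {F : ℂ ≃ₜ ℂ} {S T U : Set ℂ} (h : Deep F S T) (h' : Deep F T U) :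
    Deep F S U := fun E hE hU => h E hE (h' E hE hU)

theorem symm_fix {G : ℂ ≃ₜ ℂ} (h : G 0 = 0) : G.symm 0 = 0 := by
  conv_lhs => rw [← h]
  exact G.symm_apply_apply 0

theorem comm_symm {F G : ℂ ≃ₜ ℂ} (hc : F * G = G * F) : F * G⁻¹ = G⁻¹ * F := by
  have h : Commute F G := hc
  exact h.inv_right.eq

theorem comm_pow {F G : ℂ ≃ₜ ℂ} (hc : F * G = G * F) (n : ℕ) : F * G ^ n = G ^ n * F := by
  have h : Commute F G := hc
  exact (h.pow_right n).eq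

theorem pow_fix {G : ℂ ≃ₜ ℂ} (h : G 0 = 0) (n : ℕ) : (G ^ n) 0 = 0 := by
  have := zpow_zero_fix h n
  rwa [zpow_natCast] at this

theorem Deep.image {F : ℂ ≃ₜ ℂ} {S T : Set ℂ} (h : Deep F S T) {H : ℂ ≃ₜ ℂ}
    (hc : F * H = H * F) (h0 : H 0 = 0) : Deep F (H '' S) (H '' T) := by
  intro E hE hT
  have hE' : FNb F ((H⁻¹ : ℂ ≃ₜ ℂ) '' E) := hE.image (comm_symm hc) (symm_fix h0)
  have h1 := h _ hE' (fun x hx => ⟨H x, hT ⟨x, hx, rfl⟩, H.symm_apply_apply x⟩)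
  rintro _ ⟨x, hx, rfl⟩
  obtain ⟨y, hy, rfl⟩ := h1 hx
  change H (H.symm y) ∈ E
  rw [H.apply_symm_apply]
  exact hy

theorem near_or_deep {F : ℂ ≃ₜ ℂ} {ℓ : C(Conf, ℂ)} (hf : LogDiff (toC F) ℓ) {S T : Set ℂ}
    (hS : MinSet F S) (hT : MinSet F T) (hn : ¬ Near hf S T) : Deep F S T ∨ Deep F T S := by
  by_contra hcon
  rw [not_or] at hcon
  obtain ⟨h1, h2⟩ := hcon
  simp only [Deep, not_forall] at h1 h2
  obtain ⟨E, hE, hTE, hSE⟩ := h1
  obtain ⟨E', hE', hSE', hTE'⟩ := h2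
  have d1 := (hS.sub_or hE.compact.isClosed hE.maps).resolve_left hSE
  have d2 := (hT.sub_or hE'.compact.isClosed hE'.maps).resolve_left hTE'
  exact hn (near_of_sep hf hE'.compact hE'.conn hE'.cconn hE'.maps (mem_of_mem_nhds hE'.nhds)
    hE.compact hE.conn hE.cconn hE.maps (mem_of_mem_nhds hE.nhds) hS.compact hS.maps hSE' d1
    hT.compact hT.maps hTE d2)

theorem iter_toC (F : ℂ ≃ₜ ℂ) (n : ℕ) (x : ℂ) : (toC F)^[n] x = (F ^ n) x := by
  induction n generalizing x with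
  | zero => rfl
  | succ n ih =>
    rw [Function.iterate_succ_apply, ih, pow_succ]
    rfl

theorem shift_bound {k : ℤ} {F G : ℂ ≃ₜ ℂ} (h : PK k F G) (hF0 : F 0 = 0) (hG0 : G 0 = 0)
    {ℓ : C(Conf, ℂ)} (hf : LogDiff (toC F) ℓ) {S : Set ℂ} (hS : IsCompact S)
    (hS0 : (0 : ℂ) ∉ S) (hm : MapsTo F S S) :
    ∃ C : ℝ, ∀ (n : ℕ) (x : ℂ) (_ : x ∈ S) (hx : x ≠ 0) (hgx : G x ≠ 0),
      |(ellN hf n ⟨(G x, 0), hgx⟩).im - (ellN hf n ⟨(x, 0), hx⟩).im - n * (2 * Real.pi * k)| ≤ C := by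
  obtain ⟨hc, -, hi2, hE⟩ := mem_HomK_iff.1 h
  simp only at hc hi2 hE
  obtain ⟨ℓg, hg⟩ := hi2.exists_logDiff
  have hne : ∀ u : S, (u : ℂ) ≠ 0 := fun u h => hS0 (h ▸ u.2)
  have : CompactSpace S := isCompact_iff_compactSpace.1 hS
  let P : C(S, Conf) := ⟨fun u => ⟨((u : ℂ), 0), hne u⟩, by fun_prop⟩
  obtain ⟨M, hM⟩ := (isCompact_univ (X := S)).exists_bound_of_continuousOn
    (f := fun u => ℓg (P u)) (by fun_prop)
  refine ⟨M + M, fun n x hxS hx hgx => ?_⟩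
  have hFn : (toC F)^[n] x ∈ S := by
    have hm' : MapsTo (toC F) S S := hm
    exact hm'.iterate n hxS
  have hfx : (toC F)^[n] x ≠ 0 := fun h => hS0 (h ▸ hFn)
  have h1 := ellN_shift hc hf hg hE hF0 hG0 n hx hgx hfx
  have h2 := hM ⟨_, hFn⟩ (mem_univ _)
  have h3 := hM ⟨x, hxS⟩ (mem_univ _)
  have h4 : (ellN hf n ⟨(G x, 0), hgx⟩).im - (ellN hf n ⟨(x, 0), hx⟩).im - n * (2 * Real.pi * k) =
      (ℓg (P ⟨_, hFn⟩)).im - (ℓg (P ⟨x, hxS⟩)).im := by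
    have h5 := congrArg Complex.im h1
    simp only [Complex.add_im, Complex.sub_im] at h5
    have e : ((n : ℂ) * (2 * Real.pi * Complex.I * k)).im = n * (2 * Real.pi * k) := by
      have : ((n : ℂ) * (2 * Real.pi * Complex.I * k)) =
          (((n : ℝ) * (2 * Real.pi * (k : ℝ)) : ℝ) : ℂ) * Complex.I := by
        push_cast
        ring
      rw [this, Complex.im_ofReal_mul, Complex.I_im, mul_one]
    rw [e] at h5
    have h6 : (ellN hf n ⟨(G x, 0), hgx⟩).im = (ellN hf n ⟨(toC G x, 0), hgx⟩).im := rfl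
    rw [h6, h5]
    change _ = (ℓg ⟨((toC F)^[n] x, 0), hfx⟩).im - (ℓg ⟨(x, 0), hx⟩).im
    ring
  rw [h4]
  refine (abs_sub _ _).trans (add_le_add ?_ ?_)
  · exact (Complex.abs_im_le_norm _).trans h2
  · exact (Complex.abs_im_le_norm _).trans h3

theorem two_pi_mul_abs {k : ℤ} (hk : k ≠ 0) : 6 ≤ |2 * Real.pi * (k : ℝ)| := by
  rw [abs_mul, abs_of_pos (by positivity : (0 : ℝ) < 2 * Real.pi)]
  have h1 : (1 : ℝ) ≤ |(k : ℝ)| := by exact_mod_cast Int.one_le_abs hk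
  have h3 := Real.pi_gt_three
  nlinarith

theorem not_near {k : ℤ} {F G : ℂ ≃ₜ ℂ} (h : PK k F G) (hk : k ≠ 0) (hF0 : F 0 = 0)
    (hG0 : G 0 = 0) {ℓ : C(Conf, ℂ)} (hf : LogDiff (toC F) ℓ) {S : Set ℂ} (hS : IsCompact S)
    (hS0 : (0 : ℂ) ∉ S) (hm : MapsTo F S S) (hne : S.Nonempty) : ¬ Near hf S (G '' S) := by
  rintro ⟨C, hC⟩
  obtain ⟨C', hC'⟩ := shift_bound h hF0 hG0 hf hS hS0 hm
  obtain ⟨x, hx⟩ := hne
  have hx0 : x ≠ 0 := fun h => hS0 (h ▸ hx)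
  have hgx : G x ≠ 0 := fun h => hx0 (G.injective (h.trans hG0.symm))
  obtain ⟨n, hn⟩ := exists_nat_gt (C + C')
  have h1 := hC n x (G x) hx ⟨x, hx, rfl⟩ hx0 hgx
  have h2 := hC' n x hx hx0 hgx
  have h3 : |(n : ℝ) * (2 * Real.pi * k)| ≤ C + C' := by
    have e : (n : ℝ) * (2 * Real.pi * k) = -(((ellN hf n ⟨(x, 0), hx0⟩).im -
        (ellN hf n ⟨(G x, 0), hgx⟩).im)) - ((ellN hf n ⟨(G x, 0), hgx⟩).im -
        (ellN hf n ⟨(x, 0), hx0⟩).im - n * (2 * Real.pi * k)) := by ring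
    rw [e]
    refine (abs_sub _ _).trans (add_le_add ?_ h2)
    rw [abs_neg]
    exact h1
  rw [abs_mul, Nat.abs_cast] at h3
  have h4 := two_pi_mul_abs hk
  have h5 : (0 : ℝ) ≤ n := Nat.cast_nonneg n
  nlinarith

theorem rot_bound {F : ℂ ≃ₜ ℂ} (hF0 : F 0 = 0) {ℓ : C(Conf, ℂ)} (hf : LogDiff (toC F) ℓ)
    {R : Set ℂ} (hR : IsCompact R) (hR0 : (0 : ℂ) ∉ R) :
    ∃ M : ℝ, ∀ (n : ℕ) (x : ℂ) (_ : ∀ i : ℕ, (F ^ i) x ∈ R) (hx : x ≠ 0),
      |(ellN hf n ⟨(x, 0), hx⟩).im| ≤ n * M := by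
  have hne : ∀ u : R, (u : ℂ) ≠ 0 := fun u h => hR0 (h ▸ u.2)
  have : CompactSpace R := isCompact_iff_compactSpace.1 hR
  let P : C(R, Conf) := ⟨fun u => ⟨((u : ℂ), 0), hne u⟩, by fun_prop⟩
  obtain ⟨M, hM⟩ := (isCompact_univ (X := R)).exists_bound_of_continuousOn
    (f := fun u => ℓ (P u)) (by fun_prop)
  refine ⟨M, fun n x hi hx => ?_⟩
  refine (Complex.abs_im_le_norm _).trans ?_
  have h1 : ‖ellN hf n ⟨(x, 0), hx⟩‖ ≤ ∑ i ∈ Finset.range n, M := by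
    refine norm_sum_le_of_le _ fun i _ => ?_
    have e : (Conf.map (toC F) hf.inj)^[i] ⟨(x, 0), hx⟩ = P ⟨_, hi i⟩ := by
      apply Subtype.ext
      apply Prod.ext
      · rw [Conf.iter_fst]
        exact iter_toC F i x
      · rw [Conf.iter_snd]
        rw [iter_toC]
        exact pow_fix hF0 i
    rw [e]
    exact hM _ (mem_univ _)
  rw [Finset.sum_const, Finset.card_range, nsmul_eq_mul] at h1
  exact h1

theorem MapsTo.pow_mem {F : ℂ ≃ₜ ℂ} {S : Set ℂ} (h : MapsTo F S S) (i : ℕ) {x : ℂ} (hx : x ∈ S) :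
    (F ^ i) x ∈ S := by
  induction i generalizing x with
  | zero => exact hx
  | succ i ih =>
    rw [pow_succ]
    exact ih (h hx)

/-- only boundedly many translates stay in a compact set away from the fixed point -/
theorem bounded_stay {k : ℤ} {F G : ℂ ≃ₜ ℂ} (h : PK k F G) (hk : k ≠ 0) (hF0 : F 0 = 0)
    (hG0 : G 0 = 0) {R : Set ℂ} (hR : IsCompact R) (hR0 : (0 : ℂ) ∉ R) :
    ∃ J : ℕ, ∀ (j : ℕ) (S : Set ℂ), MinSet F S → S ⊆ R → (G ^ j) '' S ⊆ R → j ≤ J := by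
  obtain ⟨ℓ, hf⟩ := (mem_HomK_iff.1 h).2.1.exists_logDiff
  simp only at hf
  obtain ⟨M, hM⟩ := rot_bound hF0 hf hR hR0
  obtain ⟨J, hJ⟩ := exists_nat_gt M
  refine ⟨J, fun j S hS hSR hSR' => ?_⟩
  by_contra hcon
  push Not at hcon
  have hj0 : (j : ℤ) ≠ 0 := by
    intro h0
    have : j = 0 := by exact_mod_cast h0
    omega
  have hp := h.zpow_right (j : ℤ)
  rw [zpow_natCast] at hp
  obtain ⟨C, hC⟩ := shift_bound hp hF0 (pow_fix hG0 j) hf hS.compact hS.zero hS.maps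
  obtain ⟨x, hx⟩ := hS.nonempty
  have hx0 : x ≠ 0 := fun h => hS.zero (h ▸ hx)
  have hgx : (G ^ j) x ≠ 0 := fun h => hx0 ((G ^ j).injective (h.trans (pow_fix hG0 j).symm))
  have hcj : F * G ^ j = G ^ j * F := comm_pow h.comm j
  have hgS : MapsTo F ((G ^ j) '' S) ((G ^ j) '' S) := by
    rintro _ ⟨y, hy, rfl⟩
    exact ⟨F y, hS.maps hy, (comm_apply hcj y).symm⟩
  have key : ∀ n : ℕ, (n : ℝ) * |2 * Real.pi * ((k * j : ℤ) : ℝ)| ≤ C + n * (2 * M) := by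
    intro n
    have h1 := hC n x hx hx0 hgx
    have h2 := hM n x (fun i => hSR (MapsTo.pow_mem hS.maps i hx)) hx0
    have h3 := hM n ((G ^ j) x) (fun i => hSR' (MapsTo.pow_mem hgS i ⟨x, hx, rfl⟩)) hgx
    have e : (n : ℝ) * (2 * Real.pi * ((k * j : ℤ) : ℝ)) =
        -((ellN hf n ⟨((G ^ j) x, 0), hgx⟩).im -
        (ellN hf n ⟨(x, 0), hx0⟩).im - n * (2 * Real.pi * ((k * j : ℤ) : ℝ))) +
        ((ellN hf n ⟨((G ^ j) x, 0), hgx⟩).im - (ellN hf n ⟨(x, 0), hx0⟩).im) := by ring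
    have h4 : |(n : ℝ) * (2 * Real.pi * ((k * j : ℤ) : ℝ))| ≤ C + (n * M + n * M) := by
      rw [e]
      refine (abs_add_le _ _).trans (add_le_add ?_ ((abs_sub _ _).trans (add_le_add h3 h2)))
      rw [abs_neg]
      exact h1
    rw [abs_mul, Nat.abs_cast] at h4
    linarith
  have hbig : 2 * M + 1 ≤ |2 * Real.pi * ((k * j : ℤ) : ℝ)| := by
    push_cast
    rw [← mul_assoc, abs_mul, Nat.abs_cast]
    have h4 := two_pi_mul_abs hk
    have h5 : (J : ℝ) + 1 ≤ j := by exact_mod_cast hcon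
    have h6 : (0 : ℝ) ≤ J := Nat.cast_nonneg J
    nlinarith
  obtain ⟨n, hn⟩ := exists_nat_gt C
  have h7 := key n
  have h8 : (0 : ℝ) ≤ n := Nat.cast_nonneg n
  nlinarith

/-- minimal sets cannot stay forever in a compact set away from the fixed point -/
theorem no_chain {k : ℤ} {F G : ℂ ≃ₜ ℂ} (h : PK k F G) (hk : k ≠ 0) (hF0 : F 0 = 0)
    (hG0 : G 0 = 0) {S E Es : Set ℂ} (hS : MinSet F S) (hE : FNb F E) (hEs : FNb F Es)
    (h1 : ∀ m : ℕ, (G ^ m) '' S ⊆ E) (h2 : ∀ m : ℕ, ¬ (G ^ m) '' S ⊆ Es) : False := by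
  have hR : IsCompact (E \ interior Es) := hE.compact.diff isOpen_interior
  have h0 : (0 : ℂ) ∉ E \ interior Es := fun h => h.2 (mem_interior_iff_mem_nhds.2 hEs.nhds)
  obtain ⟨J, hJ⟩ := bounded_stay h hk hF0 hG0 hR h0
  have key : ∀ m : ℕ, (G ^ m) '' S ⊆ E \ interior Es := by
    intro m
    have hm := hS.image (comm_pow h.comm m) (pow_fix hG0 m)
    have hd := (hm.sub_or hEs.compact.isClosed hEs.maps).resolve_left (h2 m)
    exact fun x hx => ⟨h1 m hx, fun hx' => Set.disjoint_left.1 hd hx (interior_subset hx')⟩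
  have h3 := hJ (J + 1) S hS (fun x hx => by
    have := key 0 ⟨x, hx, rfl⟩
    rw [pow_zero] at this
    exact this) (key (J + 1))
  omega

theorem image_pow_succ (G : ℂ ≃ₜ ℂ) (m : ℕ) (S : Set ℂ) :
    (G ^ (m + 1)) '' S = G '' ((G ^ m) '' S) := by
  rw [image_image, pow_succ']
  rfl

theorem image_inv_image (G : ℂ ≃ₜ ℂ) (S : Set ℂ) : (G⁻¹ : ℂ ≃ₜ ℂ) '' (G '' S) = S := by
  rw [image_image]
  have : (fun x => (G⁻¹ : ℂ ≃ₜ ℂ) (G x)) = fun x => x := funext fun x => G.symm_apply_apply x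
  rw [this, image_id']

theorem image_image_inv (G : ℂ ≃ₜ ℂ) (S : Set ℂ) : G '' ((G⁻¹ : ℂ ≃ₜ ℂ) '' S) = S := by
  rw [image_image]
  have : (fun x => G ((G⁻¹ : ℂ ≃ₜ ℂ) x)) = fun x => x := funext fun x => G.apply_symm_apply x
  rw [this, image_id']

/-- chains of translates -/
theorem deep_pow {F G : ℂ ≃ₜ ℂ} (hc : F * G = G * F) (hG0 : G 0 = 0) {S : Set ℂ}
    (h : Deep F (G '' S) S) (m : ℕ) : Deep F ((G ^ m) '' S) S := by
  induction m with
  | zero =>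
    intro E _ hS
    rintro _ ⟨x, hx, rfl⟩
    rw [pow_zero]
    exact hS hx
  | succ m ih =>
    rw [image_pow_succ]
    exact (ih.image hc hG0).trans h

theorem deep_pow' {F G : ℂ ≃ₜ ℂ} (hc : F * G = G * F) (hG0 : G 0 = 0) {S : Set ℂ}
    (h : Deep F S (G '' S)) (m : ℕ) : Deep F S ((G ^ m) '' S) := by
  induction m with
  | zero =>
    intro E _ hS x hx
    have := hS ⟨x, hx, rfl⟩
    rw [pow_zero] at this
    exact this
  | succ m ih =>
    rw [image_pow_succ]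
    exact h.trans (ih.image hc hG0)

/-- a small neighbourhood which does not contain a given minimal set -/
theorem exists_notsub {F : ℂ ≃ₜ ℂ} (hsm : ∀ ε : ℝ, 0 < ε → ∃ E, FNb F E ∧ E ⊆ Metric.closedBall 0 ε)
    {S : Set ℂ} (hS : MinSet F S) : ∃ E, FNb F E ∧ ¬ S ⊆ E := by
  obtain ⟨x, hx⟩ := hS.nonempty
  have hx0 : x ≠ 0 := fun h => hS.zero (h ▸ hx)
  obtain ⟨E, hE, hEs⟩ := hsm (‖x‖ / 2) (half_pos (norm_pos_iff.2 hx0))
  refine ⟨E, hE, fun h => ?_⟩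
  have h1 := mem_closedBall_zero_iff.1 (hEs (h hx))
  have h2 := norm_pos_iff.2 hx0
  linarith

/-- all minimal sets have the same type -/
theorem same_type {k : ℤ} {F G : ℂ ≃ₜ ℂ} (h : PK k F G) (hk : k ≠ 0) (hF0 : F 0 = 0)
    (hG0 : G 0 = 0) (hsm : ∀ ε : ℝ, 0 < ε → ∃ E, FNb F E ∧ E ⊆ Metric.closedBall 0 ε)
    {S S' E E' : Set ℂ} (hS : MinSet F S) (hS' : MinSet F S') (hE : FNb F E) (hSE : S ⊆ E)
    (hE' : FNb F E') (hSE' : S' ⊆ E') (c : Deep F (G '' S) S) (e : Deep F S' (G '' S')) :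
    False := by
  obtain ⟨ℓ, hf⟩ := (mem_HomK_iff.1 h).2.1.exists_logDiff
  simp only at hf
  have hcm := h.comm
  -- a member of the orbit which is not near `S`
  obtain ⟨T, ET, hT, hET, hTET, eT, hTS⟩ : ∃ T ET, MinSet F T ∧ FNb F ET ∧ T ⊆ ET ∧
      Deep F T (G '' T) ∧ ¬ Near hf T S := by
    by_cases h1 : Near hf S' S
    · refine ⟨G '' S', G '' E', hS'.image hcm hG0, hE'.image hcm hG0, image_mono hSE',
        e.image hcm hG0, fun h2 => ?_⟩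
      exact not_near h hk hF0 hG0 hf hS'.compact hS'.zero hS'.maps hS'.nonempty
        (h1.trans h2.symm hS.nonempty hS.zero)
    · exact ⟨S', E', hS', hE', hSE', e, h1⟩
  rcases near_or_deep hf hT hS hTS with h1 | h1
  · -- the translates of `T` stay in `E`
    obtain ⟨Es, hEs, hTs⟩ := exists_notsub hsm hT
    refine no_chain h hk hF0 hG0 hT hE hEs (fun m => ?_) (fun m hm => ?_)
    · have h2 := (h1.image (comm_pow hcm m) (pow_fix hG0 m)).trans (deep_pow hcm hG0 c m)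
      exact h2 E hE hSE
    · exact hTs (deep_pow' hcm hG0 eT m Es hEs hm)
  · -- the backward translates of `S` stay in `ET`
    obtain ⟨Es, hEs, hSs⟩ := exists_notsub hsm hS
    have hcm' := comm_symm hcm
    have hG0' : (G⁻¹ : ℂ ≃ₜ ℂ) 0 = 0 := symm_fix hG0
    have c' : Deep F S ((G⁻¹ : ℂ ≃ₜ ℂ) '' S) := by
      have := c.image hcm' hG0'
      rwa [image_inv_image] at this
    have eT' : Deep F ((G⁻¹ : ℂ ≃ₜ ℂ) '' T) T := by
      have := eT.image hcm' hG0'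
      rwa [image_inv_image] at this
    refine no_chain h.inv_right (neg_ne_zero.2 hk) hF0 hG0' hS hET hEs (fun m => ?_)
      (fun m hm => ?_)
    · have h2 := (h1.image (comm_pow hcm' m) (pow_fix hG0' m)).trans (deep_pow hcm' hG0' eT' m)
      exact h2 ET hET hTET
    · exact hSs (deep_pow' hcm' hG0' c' m Es hEs hm)

end Pool.Agent.Helper984_CP
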