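import Pool.Agent.Helper984_CP.Ann4

/-!
# Standard maps and the centraliser of a contraction
-/

set_option autoImplicit false

open Set Filter Topology Complex ComplexConjugate

noncomputable section

namespace Pool.Agent.Helper984_CP

/-- the standard maps: in the logarithmic plane they are `w ↦ w + α + i a Re w` -/
def stdFun (α : ℂ) (a : ℝ) (z : ℂ) : ℂ := z * cexp (α + I * ((a * Real.log ‖z‖ : ℝ) : ℂ))

theorem norm_stdFun (α : ℂ) (a : ℝ) (z : ℂ) : ‖stdFun α a z‖ = ‖z‖ * Real.exp α.re := by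
  rw [stdFun, norm_mul, Complex.norm_exp]
  congr 2
  rw [Complex.add_re, Complex.mul_re, Complex.I_re, Complex.I_im, Complex.ofReal_im]
  ring

theorem continuous_std_family {Λ : Type*} [TopologicalSpace Λ] {α : Λ → ℂ} {a : Λ → ℝ}
    (hα : Continuous α) (ha : Continuous a) :
    Continuous fun q : Λ × ℂ => stdFun (α q.1) (a q.1) q.2 := by
  rw [continuous_iff_continuousAt]
  rintro ⟨s0, z0⟩
  by_cases hz0 : z0 = 0
  · subst hz0
    have e0 : stdFun (α s0) (a s0) 0 = 0 := by simp [stdFun]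
    rw [ContinuousAt]
    simp only
    rw [e0, tendsto_zero_iff_norm_tendsto_zero]
    simp only [norm_stdFun]
    have hc : Continuous fun q : Λ × ℂ => ‖q.2‖ * Real.exp (α q.1).re := by fun_prop
    have := hc.tendsto (s0, 0)
    simpa using this
  · unfold stdFun
    apply ContinuousAt.mul continuous_snd.continuousAt
    apply Complex.continuous_exp.continuousAt.comp
    apply ContinuousAt.add
    · exact (hα.comp continuous_fst).continuousAt
    · apply ContinuousAt.mul continuousAt_const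
      apply Complex.continuous_ofReal.continuousAt.comp
      apply ContinuousAt.mul
      · exact (ha.comp continuous_fst).continuousAt
      · apply ContinuousAt.log
        · exact Continuous.continuousAt (by fun_prop)
        · exact norm_ne_zero_iff.2 hz0

/-- the standard map as a continuous map -/
def stdC (α : ℂ) (a : ℝ) : C(ℂ, ℂ) := ⟨stdFun α a, by
  have h := continuous_std_family (Λ := Unit) (α := fun _ => α) (a := fun _ => a)
    continuous_const continuous_const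
  exact h.comp (f := fun z : ℂ => ((), z)) (continuous_const.prodMk continuous_id)⟩

theorem stdC_apply (α : ℂ) (a : ℝ) (z : ℂ) : stdC α a z = stdFun α a z := rfl

theorem stdFun_exp (α : ℂ) (a : ℝ) (w : ℂ) :
    stdFun α a (cexp w) = cexp (w + α + I * ((a * w.re : ℝ) : ℂ)) := by
  rw [stdFun, Complex.norm_exp, Real.log_exp, ← Complex.exp_add, add_assoc]

theorem stdFun_zero_arg (α : ℂ) (a : ℝ) : stdFun α a 0 = 0 := by simp [stdFun]

theorem stdFun_comp (α β : ℂ) (a b : ℝ) (z : ℂ) :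
    stdFun α a (stdFun β b z) = stdFun (α + β + I * ((a * β.re : ℝ) : ℂ)) (a + b) z := by
  by_cases hz : z = 0
  · rw [hz, stdFun_zero_arg, stdFun_zero_arg, stdFun_zero_arg]
  · obtain ⟨w, rfl⟩ : ∃ w, cexp w = z := ⟨Complex.log z, Complex.exp_log hz⟩
    rw [stdFun_exp, stdFun_exp, stdFun_exp]
    congr 1
    have e : (w + β + I * ((b * w.re : ℝ) : ℂ)).re = w.re + β.re := by
      rw [Complex.add_re, Complex.add_re, Complex.mul_re, Complex.I_re, Complex.I_im,
        Complex.ofReal_im]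
      ring
    rw [e]
    push_cast
    ring

theorem stdFun_id (z : ℂ) : stdFun 0 0 z = z := by simp [stdFun]

theorem std_inv_right (α : ℂ) (a : ℝ) (z : ℂ) :
    stdFun α a (stdFun (-α + I * ((a * α.re : ℝ) : ℂ)) (-a) z) = z := by
  rw [stdFun_comp]
  have e1 : (-α + I * ((a * α.re : ℝ) : ℂ)).re = -α.re := by
    rw [Complex.add_re, Complex.mul_re, Complex.I_re, Complex.I_im, Complex.ofReal_im,
      Complex.neg_re]
    ring
  rw [e1]
  have e2 : α + (-α + I * ((a * α.re : ℝ) : ℂ)) + I * ((a * -α.re : ℝ) : ℂ) = 0 := by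
    push_cast
    ring
  rw [e2, add_neg_cancel, stdFun_id]

theorem std_inv_left (α : ℂ) (a : ℝ) (z : ℂ) :
    stdFun (-α + I * ((a * α.re : ℝ) : ℂ)) (-a) (stdFun α a z) = z := by
  rw [stdFun_comp]
  have e2 : -α + I * ((a * α.re : ℝ) : ℂ) + α + I * ((-a * α.re : ℝ) : ℂ) = 0 := by
    push_cast
    ring
  rw [e2, neg_add_cancel, stdFun_id]

theorem isHomeo_stdC (α : ℂ) (a : ℝ) : IsHomeo (stdC α a) :=
  ⟨stdC (-α + I * ((a * α.re : ℝ) : ℂ)) (-a), std_inv_right α a, std_inv_left α a⟩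

/-- a family of standard maps -/
def stdFam (α : C(unitInterval, ℂ)) (a : C(unitInterval, ℝ)) : C(unitInterval × ℂ, ℂ) :=
  ⟨fun q => stdFun (α q.1) (a q.1) q.2, continuous_std_family α.continuous a.continuous⟩

theorem slice_stdFam (α : C(unitInterval, ℂ)) (a : C(unitInterval, ℝ)) (s : unitInterval) :
    slice (stdFam α a) s = stdC (α s) (a s) := rfl

theorem isoId_stdC (α : ℂ) (a : ℝ) : IsoId (stdC α a) := by
  rw [isoId_iff]
  refine ⟨stdFam ⟨fun s => ((s : ℝ) : ℂ) * α, by fun_prop⟩ ⟨fun s => (s : ℝ) * a, by fun_prop⟩,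
    fun s => ?_, fun x => ?_, fun x => ?_⟩
  · rw [slice_stdFam]
    exact isHomeo_stdC _ _
  · change stdFun (((0 : unitInterval) : ℝ) * α) (((0 : unitInterval) : ℝ) * a) x = x
    rw [Icc.coe_zero, Complex.ofReal_zero, zero_mul, zero_mul, stdFun_id]
  · change stdFun (((1 : unitInterval) : ℝ) * α) (((1 : unitInterval) : ℝ) * a) x = stdFun α a x
    rw [Icc.coe_one, Complex.ofReal_one, one_mul, one_mul]

/-- commuting pairs have an Euler number -/
theorem exists_euler {f g : C(ℂ, ℂ)} (hf : IsoId f) (hg : IsoId g)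
    (hc : ∀ x, f (g x) = g (f x)) : ∃ k : ℤ, (f, g) ∈ HomK k := by
  obtain ⟨ℓf, hℓf⟩ := hf.exists_logDiff
  obtain ⟨ℓg, hℓg⟩ := hg.exists_logDiff
  let a : Conf := ⟨(1, 0), one_ne_zero⟩
  have e1 := hℓf (Conf.map g hℓg.inj a)
  have e2 := hℓg a
  have e3 := hℓf a
  have e4 := hℓg (Conf.map f hℓf.inj a)
  simp only [Conf.map_fst, Conf.map_snd] at e1 e4
  have ha1 : a.1.1 = 1 := rfl
  have ha2 : a.1.2 = 0 := rfl
  rw [ha1, ha2] at e1 e2 e3 e4
  rw [sub_zero, mul_one] at e2 e3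
  rw [hc, hc, ← e4, ← e2, ← e3] at e1
  have h1 : cexp ((ℓf (Conf.map g hℓg.inj a) + ℓg a) - (ℓg (Conf.map f hℓf.inj a) + ℓf a)) = 1 := by
    rw [Complex.exp_sub, Complex.exp_add, Complex.exp_add, e1]
    exact div_self (mul_ne_zero (Complex.exp_ne_zero _) (Complex.exp_ne_zero _))
  obtain ⟨n, hn⟩ := Complex.exp_eq_one_iff.1 h1
  refine ⟨n, mem_HomK_iff.2 ⟨hc, hf, hg, EulerEq.of_one hc hℓf hℓg (a := a) ?_⟩⟩
  linear_combination hn

/-- the Euler number in terms of lifts -/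
theorem euler_of_lift {f g : C(ℂ, ℂ)} (hf : IsoId f) (hg : IsoId g)
    (hc : ∀ x, f (g x) = g (f x)) (hf0 : f 0 = 0) (hg0 : g 0 = 0) {M N : C(ℂ, ℂ)}
    (hM : ∀ w, cexp (M w) = f (cexp w)) (hN : ∀ w, cexp (N w) = g (cexp w)) {k : ℤ}
    (hMN : M (N 0) = N (M 0) + tpi * k) : (f, g) ∈ HomK k := by
  obtain ⟨k', hk'⟩ := exists_euler hf hg hc
  obtain ⟨-, -, -, hE⟩ := mem_HomK_iff.1 hk'
  obtain ⟨ℓf, hℓf⟩ := hf.exists_logDiff
  obtain ⟨ℓg, hℓg⟩ := hg.exists_logDiff
  have h1 := lift_comm hℓf hℓg hE hf0 hg0 hM hN 0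
  rw [hMN] at h1
  have h2 : tpi * (k : ℂ) = tpi * (k' : ℂ) := by linear_combination h1
  have h3 : (k : ℂ) = k' := mul_left_cancel₀ tpi_ne h2
  have h4 : k = k' := by exact_mod_cast h3
  rw [h4]
  exact hk'

/-- standard pairs -/
theorem std_mem {α β : ℂ} {a b : ℝ} {k : ℤ} (h : a * β.re - b * α.re = 2 * Real.pi * k) :
    (stdC α a, stdC β b) ∈ HomK k := by
  have hI : ∀ x : ℝ, cexp (I * (x : ℂ)) = cexp ((x : ℂ) * I) := fun x => by rw [mul_comm]
  have hc : ∀ x, stdC α a (stdC β b x) = stdC β b (stdC α a x) := by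
    intro x
    rw [stdC_apply, stdC_apply, stdC_apply, stdC_apply, stdFun_comp, stdFun_comp]
    have e1 : α + β + I * ((a * β.re : ℝ) : ℂ) =
        (β + α + I * ((b * α.re : ℝ) : ℂ)) + (k : ℂ) * (2 * Real.pi * I) := by
      have h' : ((a * β.re : ℝ) : ℂ) = ((b * α.re : ℝ) : ℂ) + 2 * Real.pi * k := by
        have : a * β.re = b * α.re + 2 * Real.pi * k := by linarith
        rw [this]
        push_cast
        ring
      rw [h']
      ring
    rw [e1, add_comm b a, stdFun, stdFun, add_right_comm, Complex.exp_add,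
      Complex.exp_int_mul_two_pi_mul_I, mul_one]
  let M : C(ℂ, ℂ) := ⟨fun w => w + α + I * ((a * w.re : ℝ) : ℂ), by fun_prop⟩
  let N : C(ℂ, ℂ) := ⟨fun w => w + β + I * ((b * w.re : ℝ) : ℂ), by fun_prop⟩
  refine euler_of_lift (isoId_stdC α a) (isoId_stdC β b) hc (stdFun_zero_arg _ _)
    (stdFun_zero_arg _ _) (M := M) (N := N) (fun w => (stdFun_exp α a w).symm)
    (fun w => (stdFun_exp β b w).symm) ?_
  change (0 + β + I * ((b * (0 : ℂ).re : ℝ) : ℂ)) + α +
      I * ((a * (0 + β + I * ((b * (0 : ℂ).re : ℝ) : ℂ)).re : ℝ) : ℂ) =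
    ((0 + α + I * ((a * (0 : ℂ).re : ℝ) : ℂ)) + β +
      I * ((b * (0 + α + I * ((a * (0 : ℂ).re : ℝ) : ℂ)).re : ℝ) : ℂ)) + tpi * k
  simp only [Complex.zero_re, mul_zero, Complex.ofReal_zero, add_zero, zero_add]
  have h' : ((a * β.re : ℝ) : ℂ) = ((b * α.re : ℝ) : ℂ) + 2 * Real.pi * k := by
    have : a * β.re = b * α.re + 2 * Real.pi * k := by linarith
    rw [this]
    push_cast
    ring
  rw [h', tpi_eq]
  push_cast
  ring

/-- paths of standard pairs -/
theorem std_joined {α β : C(unitInterval, ℂ)} {a b : C(unitInterval, ℝ)} {k : ℤ}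
    (h : ∀ s, a s * (β s).re - b s * (α s).re = 2 * Real.pi * k) :
    JoinedIn (HomK k) (stdC (α 0) (a 0), stdC (β 0) (b 0)) (stdC (α 1) (a 1), stdC (β 1) (b 1)) := by
  have hm := fun s => std_mem (h s)
  refine HomK_joined (stdFam α a) (stdFam β b) (fun s => by rw [slice_stdFam]; exact isHomeo_stdC _ _)
    (fun s => by rw [slice_stdFam]; exact isHomeo_stdC _ _) (fun s x => ?_) (hm 0)
  exact (mem_HomK_iff.1 (hm s)).1 x

end Pool.Agent.Helper984_CP
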