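import Pool.Agent.Helper984_CP.Push

/-!
# A homeomorphism commuting with a contraction can be deformed to preserve the unit circle
-/

set_option autoImplicit false

open Set Filter Topology ComplexConjugate

noncomputable section

namespace Pool.Agent.Helper984_CP

theorem GG.zero {l : ℝ} (hl1 : l < 1) {σ : Prop} {g : C(ℂ, ℂ)} (hg : g ∈ GG l σ) : g 0 = 0 := by
  have h := hg.2.1 0
  rw [mul_zero] at h
  have h1 : (1 - (l : ℂ)) * g 0 = 0 := by linear_combination h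
  rcases mul_eq_zero.1 h1 with h2 | h2
  · exfalso
    have : (1 - l : ℝ) ≠ 0 := by linarith
    apply this
    exact_mod_cast h2
  · exact h2

/-- multiplication by a positive number -/
theorem joined_scale {l : ℝ} {σ : Prop} {r : ℝ} (hr : 0 < r) :
    JoinedIn (GG l σ) (ContinuousMap.id ℂ) ⟨fun z => (r : ℂ) * z, by fun_prop⟩ := by
  let P : C(unitInterval × ℂ, ℂ) := ⟨fun q => ((Real.exp ((q.1 : ℝ) * Real.log r) : ℝ) : ℂ) * q.2,
    by fun_prop⟩
  have hP : ∀ s z, P (s, z) = ((Real.exp ((s : ℝ) * Real.log r) : ℝ) : ℂ) * z := fun _ _ => rfl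
  refine joined_of_family' (X := GG l σ) P (fun s => ⟨?_, fun z => ?_, fun _ z => ?_⟩)
    (fun z => ?_) (fun z => ?_)
  · have h1 : ((Real.exp ((s : ℝ) * Real.log r) : ℝ) : ℂ) ≠ 0 := by
      exact_mod_cast (Real.exp_pos _).ne'
    refine ⟨⟨fun z => (((Real.exp ((s : ℝ) * Real.log r) : ℝ) : ℂ))⁻¹ * z, by fun_prop⟩,
      fun z => ?_, fun z => ?_⟩
    · rw [slice_apply, hP]
      simp only [ContinuousMap.coe_mk]
      rw [← mul_assoc, mul_inv_cancel₀ h1, one_mul]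
    · rw [slice_apply, hP]
      simp only [ContinuousMap.coe_mk]
      rw [← mul_assoc, inv_mul_cancel₀ h1, one_mul]
  · rw [slice_apply, slice_apply, hP, hP]
    ring
  · rw [slice_apply, slice_apply, hP, hP, map_mul, Complex.conj_ofReal]
  · rw [hP]
    simp
  · rw [hP]
    simp [Real.exp_log hr]

theorem joined_mem_right {l : ℝ} {σ : Prop} {f g : C(ℂ, ℂ)} (h : JoinedIn (GG l σ) f g) :
    g ∈ GG l σ := h.target_mem

/-- the circle can be straightened -/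
theorem straighten {l : ℝ} (hl : 0 < l) (hl2 : l ≤ 1 / 2) {σ : Prop} {g : C(ℂ, ℂ)}
    (hg : g ∈ GG l σ) :
    ∃ g' : C(ℂ, ℂ), JoinedIn (GG l σ) g g' ∧ ∀ u : ℂ, ‖g' u‖ = 1 ↔ ‖u‖ = 1 := by
  have hl1 : l < 1 := by linarith
  have hg0 := GG.zero hl1 hg
  obtain ⟨gi, e1, e2⟩ := hg.1
  obtain ⟨φ, ψ, c, F, Fi, Q, Qi, Φ, Φi, hR, hψ, hc, hder, hφ0, hF, hFi, r1, r2, hQ, hQi, q1, q2,
    p1, p2, hd, hΦ, hs⟩ := exists_straight e1 e2 (σ := σ) hg.2.2
  have hΦ0 : Φ 0 = 0 := by rw [hΦ 0 (by simp), hφ0, hg0]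
  have hΦi0 : Φi 0 = 0 := by
    have := p2 0
    rwa [hΦ0] at this
  -- the conjugated contraction
  have hΘeq : ∀ z, Φi (l * Φ z) = Q (l * Qi z) := by
    intro z
    have h1 : Φ z = g (Qi z) := by rw [hd, q1]
    rw [h1, ← hg.2.1, hd, p2]
  have hQle : ∀ z, ‖z‖ < 1 → ‖Q z‖ < 1 := fun z hz => by
    rw [hQ]; exact norm_radial_lt hF hz
  have hQige : ∀ z, 1 ≤ ‖z‖ → ‖Qi z‖ = ‖z‖ := fun z hz => by
    rw [hQi]; exact norm_radial_eq hFi hz
  have hQilt : ∀ z, ‖z‖ < 1 → ‖Qi z‖ < 1 := fun z hz => by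
    rw [hQi]; exact norm_radial_lt hFi hz
  have hΘ1 : ∀ z, ‖z‖ ≤ 3 / 2 → ‖Φi (l * Φ z)‖ < 1 := by
    intro z hz
    rw [hΘeq]
    apply hQle
    rw [norm_mul, Complex.norm_real, Real.norm_of_nonneg hl.le]
    have h1 : ‖Qi z‖ ≤ 3 / 2 := by
      rcases le_or_gt 1 ‖z‖ with h | h
      · rwa [hQige z h]
      · exact (hQilt z h).le.trans (by norm_num)
    calc l * ‖Qi z‖ ≤ 1 / 2 * (3 / 2) := by gcongr
      _ < 1 := by norm_num
  obtain ⟨ρ, hρ0, hρ1, hρ⟩ : ∃ ρ : ℝ, 0 < ρ ∧ ρ < 1 ∧ ∀ z, ‖z‖ ≤ 3 / 2 →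
      ‖Φi (l * Φ z)‖ ≤ ρ := by
    obtain ⟨x, hx, hmax⟩ := (isCompact_closedBall (0 : ℂ) (3 / 2)).exists_isMaxOn
      ⟨0, Metric.mem_closedBall_self (by norm_num)⟩ (f := fun z => ‖Φi (l * Φ z)‖) (by fun_prop)
    refine ⟨max (‖Φi (l * Φ x)‖) (1 / 2), by positivity,
      max_lt (hΘ1 x (mem_closedBall_zero_iff.1 hx)) (by norm_num), fun z hz => ?_⟩
    exact (hmax (mem_closedBall_zero_iff.2 hz)).trans (le_max_left _ _)
  -- Schwarz
  have hsch : ∀ z, ‖z‖ ≤ 3 / 2 → ‖Φi (l * Φ z)‖ ≤ ρ * ‖z‖ := by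
    intro z hz
    rcases le_or_gt 1 ‖z‖ with h | h
    · have := hρ z hz
      nlinarith
    · have hmem : ∀ z, ‖z‖ < 1 → (l : ℂ) * φ z ∈ g '' Metric.ball 0 1 := by
        intro z hz
        rw [← hΦ z hz]
        have h1 : Φ z = g (Qi z) := by rw [hd, q1]
        refine ⟨l * Qi z, ?_, ?_⟩
        · rw [mem_ball_zero_iff, norm_mul, Complex.norm_real, Real.norm_of_nonneg hl.le]
          have := hQilt z hz
          nlinarith [norm_nonneg (Qi z)]
        · rw [hg.2.1, h1]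
      have hω : ∀ z, ‖z‖ < 1 → Φi (l * Φ z) = ψ (l * φ z) := by
        intro z hz
        have h1 := hmem z hz
        have h2 := hR.mapsInv _ h1
        have h3 : Φ (ψ (l * φ z)) = l * φ z := by
          rw [hΦ _ h2, hR.right _ h1]
        rw [hΦ z hz, ← h3, p2, h3]
      have hdω : DifferentiableOn ℂ (fun z => ψ (l * φ z)) (Metric.ball 0 1) := by
        refine hψ.comp ((differentiableOn_const _).mul hR.diff) ?_
        intro w hw
        exact hmem w (mem_ball_zero_iff.1 hw)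
      have h0 : ψ (l * φ 0) = 0 := by
        rw [← hω 0 (by simp), hΦ0, mul_zero, hΦi0]
      have h4 := Complex.dist_le_div_mul_dist_of_mapsTo_ball (c := 0) (z := z) (R₁ := 1) (R₂ := ρ)
        hdω (by
          intro w hw
          have hw' := mem_ball_zero_iff.1 hw
          simp only
          rw [h0, mem_closedBall_zero_iff, ← hω w hw']
          exact hρ w (hw'.le.trans (by norm_num))) (mem_ball_zero_iff.2 h)
      rw [h0, dist_zero_right, dist_zero_right, div_one, ← hω z h] at h4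
      exact h4
  -- the state
  let St : ℝ → Prop := fun t => ∃ g' : C(ℂ, ℂ), JoinedIn (GG l σ) g g' ∧
    (∀ u : ℂ, ‖u‖ = 1 → ∃ v : ℂ, ‖v‖ = 1 ∧ g' u = Φ (t * v)) ∧
    (∀ v : ℂ, ‖v‖ = 1 → ∃ u : ℂ, ‖u‖ = 1 ∧ g' u = Φ (t * v))
  have hSt1 : St 1 := by
    refine ⟨g, JoinedIn.refl hg, fun u hu => ⟨Q u, ?_, ?_⟩, fun v hv => ⟨Qi v, ?_, ?_⟩⟩
    · rw [hQ, norm_radial_eq hF hu.ge, hu]
    · rw [Complex.ofReal_one, one_mul, hd]
    · rw [hQige v hv.ge, hv]
    · rw [Complex.ofReal_one, one_mul, hd, q1]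
  have hstep : ∀ t1 t2, 0 < t1 → t1 ≤ 1 → ρ * t1 < t2 → t2 ≤ t1 → St t1 → St t2 := by
    rintro t1 t2 h0 h1 h2 h3 ⟨g', j, s1, s2⟩
    obtain ⟨b, hb⟩ : ∃ b, b = t1 + (t2 - ρ * t1) / 2 := ⟨_, rfl⟩
    obtain ⟨a, ha⟩ : ∃ a, a = (ρ * b + t2) / 2 := ⟨_, rfl⟩
    have hρt : 0 < ρ * t1 := by positivity
    have hb1 : t1 < b := by rw [hb]; linarith
    have hb2 : b ≤ 3 / 2 := by rw [hb]; linarith
    have hb3 : ρ * b < t2 := by
      rw [hb]
      nlinarith
    have ha1 : ρ * b < a := by rw [ha]; linarith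
    have ha2 : a < t2 := by rw [ha]; linarith
    have hb0 : 0 < b := h0.trans hb1
    obtain ⟨K, jK, hK⟩ := push_step hl hl1 p1 p2 hΦ0 (fun h => (hs h).2) (a := a) (b := b)
      (t1 := t1) (t2 := t2) (by have : 0 < ρ * b := by positivity
                                linarith) (by linarith) hb1 ha2 (by linarith) (fun z hz => by
        have := hsch z (hz.trans hb2)
        have h5 : ρ * ‖z‖ ≤ ρ * b := by gcongr
        linarith)
    refine ⟨K.comp g', ?_, fun u hu => ?_, fun v hv => ?_⟩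
    · refine j.trans ?_
      have := JoinedIn.compGG jK (JoinedIn.refl j.target_mem)
      rwa [ContinuousMap.id_comp] at this
    · obtain ⟨v, hv, hv'⟩ := s1 u hu
      exact ⟨v, hv, by rw [ContinuousMap.comp_apply, hv', hK v hv]⟩
    · obtain ⟨u, hu, hu'⟩ := s2 v hv
      exact ⟨u, hu, by rw [ContinuousMap.comp_apply, hu', hK v hv]⟩
  obtain ⟨q, hq⟩ : ∃ q, q = (1 + ρ) / 2 := ⟨_, rfl⟩
  have hq1 : q < 1 := by rw [hq]; linarith
  have hqρ : ρ < q := by rw [hq]; linarith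
  have hq0 : 0 < q := hρ0.trans hqρ
  have hall : ∀ n : ℕ, ∀ t, q ^ n ≤ t → t ≤ 1 → St t := by
    intro n
    induction n with
    | zero =>
      intro t h1 h2
      rw [pow_zero] at h1
      rw [le_antisymm h2 h1]
      exact hSt1
    | succ n ih =>
      intro t h1 h2
      have hqn : 0 < q ^ n := by positivity
      have hqn1 : q ^ n ≤ 1 := pow_le_one₀ hq0.le hq1.le
      rcases le_or_gt (q ^ n) t with h | h
      · exact ih t h h2
      · refine hstep (q ^ n) t hqn hqn1 ?_ h.le (ih _ le_rfl hqn1)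
        rw [pow_succ] at h1
        nlinarith
  obtain ⟨t0, ht0, hround⟩ := round_step hl hl2 (σ := σ) hR.diff hc hder hΦ hΦ0
    (fun h => (hs h).2)
  obtain ⟨t, ht, ht1, ht2⟩ : ∃ t, 0 < t ∧ t < t0 ∧ t ≤ 1 :=
    ⟨min (t0 / 2) 1, by positivity, (min_le_left _ _).trans_lt (by linarith), min_le_right _ _⟩
  obtain ⟨n, hn⟩ := exists_pow_lt_of_lt_one ht hq1
  obtain ⟨g1, j1, s1, s2⟩ := hall n t hn.le ht2
  obtain ⟨K, jK, hK⟩ := hround t ht ht1
  have hct : 0 < c * t := by positivity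
  obtain ⟨Rc, hRc⟩ : ∃ Rc : C(ℂ, ℂ), Rc = ⟨fun z => (((c * t)⁻¹ : ℝ) : ℂ) * z, by fun_prop⟩ :=
    ⟨_, rfl⟩
  have jR : JoinedIn (GG l σ) (ContinuousMap.id ℂ) Rc := by
    rw [hRc]
    exact joined_scale (inv_pos.2 hct)
  have hRcK : ∀ v : ℂ, ‖v‖ = 1 → Rc (K (Φ (t * v))) = v := by
    intro v hv
    rw [hK v hv, hRc]
    simp only [ContinuousMap.coe_mk]
    rw [← mul_assoc, ← Complex.ofReal_mul, inv_mul_cancel₀ hct.ne', Complex.ofReal_one, one_mul]
  have jfin : JoinedIn (GG l σ) g (Rc.comp (K.comp g1)) := by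
    refine j1.trans ?_
    have h1 := JoinedIn.compGG jK (JoinedIn.refl j1.target_mem)
    rw [ContinuousMap.id_comp] at h1
    have h2 := JoinedIn.compGG jR (JoinedIn.refl h1.target_mem)
    rw [ContinuousMap.id_comp] at h2
    exact h1.trans h2
  refine ⟨_, jfin, fun u => ⟨fun hu => ?_, fun hu => ?_⟩⟩
  · obtain ⟨u', hu', hu''⟩ := s2 _ hu
    have h1 : (Rc.comp (K.comp g1)) u' = (Rc.comp (K.comp g1)) u := by
      simp only [ContinuousMap.comp_apply]
      rw [hu'']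
      exact hRcK _ hu
    rw [← jfin.target_mem.1.injective h1]
    exact hu'
  · obtain ⟨v, hv, hv'⟩ := s1 u hu
    simp only [ContinuousMap.comp_apply]
    rw [hv', hRcK v hv, hv]

end Pool.Agent.Helper984_CP
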