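import Pool.Agent.Helper984_CP.Strt

/-!
# Deforming to a homeomorphism which is the identity on the unit circle
-/

set_option autoImplicit false

open Set Filter Topology ComplexConjugate

noncomputable section

namespace Pool.Agent.Helper984_CP

theorem discMap_of_homeo {h : C(ℂ, ℂ)} (h0 : h 0 = 0) (h1 : ∀ u, ‖h u‖ = 1 ↔ ‖u‖ = 1) :
    DiscMap h := by
  refine ⟨h.continuous.continuousOn, fun z hz => ?_, fun z hz => (h1 z).2 hz⟩
  by_contra hcon
  push Not at hcon
  have hc : Continuous fun t : ℝ => ‖h ((t : ℂ) * z)‖ := by fun_prop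
  have h2 := intermediate_value_Icc (zero_le_one (α := ℝ)) hc.continuousOn
  obtain ⟨t, ht, ht'⟩ := h2 (show (1 : ℝ) ∈ Icc _ _ from ⟨by simp [h0], by simpa using hcon⟩)
  simp only at ht'
  rw [h1, norm_mul, Complex.norm_real, Real.norm_of_nonneg ht.1] at ht'
  nlinarith [ht.2, ht.1, norm_nonneg z]

theorem continuous_radial_zero {F : ℂ → ℂ} (hF : DiscMap F) : Continuous fun z => radial F 0 z := by
  have h := (continuous_radial_family hF).comp (f := fun z : ℂ => ((0 : unitInterval), z))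
    (by fun_prop)
  have e : (fun z : ℂ => radial F 0 z) = (fun q : unitInterval × ℂ => radial F q.1 q.2) ∘
      (fun z : ℂ => ((0 : unitInterval), z)) := by
    ext z
    simp
  rw [e]
  exact h

theorem radial_zero_apply (F : ℂ → ℂ) (z : ℂ) :
    radial F 0 z = ((‖z‖ : ℝ) : ℂ) * F (z / ((‖z‖ : ℝ) : ℂ)) := by
  rw [radial, max_eq_right (norm_nonneg z)]

theorem joined_ne_zero {l : ℝ} (hl1 : l < 1) {σ : Prop} {P : C(unitInterval × ℂ, ℂ)}
    (hP : ∀ s, slice P s ∈ GG l σ) (s : unitInterval) {z : ℂ} (hz : z ≠ 0) : P (s, z) ≠ 0 := by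
  intro h
  apply hz
  apply (hP s).1.injective
  rw [GG.zero hl1 (hP s)]
  exact h

theorem joined_lift {l : ℝ} (hl1 : l < 1) {σ : Prop} {f g : C(ℂ, ℂ)}
    (h : JoinedIn (GG l σ) f g) {M : C(ℂ, ℂ)} (hM : LiftOf f M) : ∃ N, LiftOf g N := by
  obtain ⟨P, hP, hP0, hP1⟩ := family_of_joined h
  obtain ⟨N, hN0, hN⟩ := lift_path P (fun s w => joined_ne_zero hl1 hP s (Complex.exp_ne_zero w))
    (M0 := M) (by rw [hP0]; exact hM)
  exact ⟨slice N 1, by rw [← hP1]; exact hN 1⟩

theorem joined_pos {l : ℝ} (hl1 : l < 1) {σ : Prop} (hs : σ) {f g : C(ℂ, ℂ)}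
    (h : JoinedIn (GG l σ) f g) {x : ℝ} (hx : x ≠ 0) (h0 : 0 < (f x).re) : 0 < (g x).re := by
  obtain ⟨P, hP, hP0, hP1⟩ := family_of_joined h
  have him : ∀ s, (P (s, x)).im = 0 := by
    intro s
    have h1 := (hP s).2.2 hs x
    rw [Complex.conj_ofReal] at h1
    exact Complex.conj_eq_iff_im.1 h1.symm
  have hne : ∀ s, (P (s, x)).re ≠ 0 := by
    intro s hcon
    refine joined_ne_zero hl1 hP s (z := (x : ℂ)) (by exact_mod_cast hx) ?_
    exact Complex.ext hcon (him s)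
  by_contra hcon
  push Not at hcon
  have h0' : 0 < (P (0, x)).re := by
    have := congrArg (fun f : C(ℂ, ℂ) => (f x).re) hP0
    simp only [slice_apply] at this
    rwa [this]
  have h1' : (P (1, x)).re ≤ 0 := by
    have := congrArg (fun f : C(ℂ, ℂ) => (f x).re) hP1
    simp only [slice_apply] at this
    rwa [this]
  have hpre : IsPreconnected (range fun s : unitInterval => (P (s, x)).re) :=
    isPreconnected_range (by fun_prop)
  have := hpre.Icc_subset ⟨1, rfl⟩ ⟨0, rfl⟩ (show (0 : ℝ) ∈ Icc _ _ from ⟨h1', h0'.le⟩)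
  obtain ⟨s, hs'⟩ := this
  exact hne s hs'

/-- deformation to a map which is the identity on the circle -/
theorem straighten_id {l : ℝ} (hl : 0 < l) (hl2 : l ≤ 1 / 2) {σ : Prop} {g : C(ℂ, ℂ)}
    (hg : g ∈ GG l σ) {M : C(ℂ, ℂ)} (hM : LiftOf g M) (hpos : σ → 0 < (g 1).re) :
    ∃ g' : C(ℂ, ℂ), JoinedIn (GG l σ) g g' ∧ ∀ u : ℂ, ‖u‖ = 1 → g' u = u := by
  have hl1 : l < 1 := by linarith
  obtain ⟨g1, j1, h1⟩ := straighten hl hl2 hg
  have hg1 := j1.target_mem
  obtain ⟨N, hN⟩ := joined_lift hl1 j1 hM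
  obtain ⟨gi, e1, e2⟩ := hg1.1
  have hg10 := GG.zero hl1 hg1
  have hgi0 : gi 0 = 0 := by rw [← hg10, e2, hg10]
  have hD := discMap_of_homeo hg10 h1
  have hDi : DiscMap gi := discMap_of_homeo hgi0 (fun u => by
    have := h1 (gi u)
    rw [e1] at this
    exact this.symm)
  obtain ⟨A, hA⟩ : ∃ A : C(ℂ, ℂ), A = ⟨fun z => radial g1 0 z, continuous_radial_zero hD⟩ :=
    ⟨_, rfl⟩
  obtain ⟨Ai, hAi⟩ : ∃ A : C(ℂ, ℂ), A = ⟨fun z => radial gi 0 z, continuous_radial_zero hDi⟩ :=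
    ⟨_, rfl⟩
  have hAa : ∀ z, A z = radial g1 0 z := fun z => by rw [hA]; rfl
  have hAia : ∀ z, Ai z = radial gi 0 z := fun z => by rw [hAi]; rfl
  have hAAi : ∀ z, A (Ai z) = z := fun z => by
    rw [hAa, hAia]
    exact radial_inv hDi (fun z _ => e1 z) le_rfl z
  have hAiA : ∀ z, Ai (A z) = z := fun z => by
    rw [hAa, hAia]
    exact radial_inv hD (fun z _ => e2 z) le_rfl z
  have hAn : ∀ z, ‖A z‖ = ‖z‖ := fun z => by rw [hAa]; exact norm_radial_eq hD (norm_nonneg z)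
  have hAh : ∀ (r : ℝ) (z : ℂ), 0 < r → A (r * z) = r * A z := by
    intro r z hr
    rw [hAa, hAa, radial_zero_apply, radial_zero_apply, norm_mul, Complex.norm_real,
      Real.norm_of_nonneg hr.le]
    have hr' : (r : ℂ) ≠ 0 := by exact_mod_cast hr.ne'
    have : (r : ℂ) * z / ((r * ‖z‖ : ℝ) : ℂ) = z / ((‖z‖ : ℝ) : ℂ) := by
      rw [Complex.ofReal_mul]
      exact mul_div_mul_left _ _ hr'
    rw [this]
    push_cast
    ring
  -- the lift of A
  obtain ⟨MA, hMA⟩ : ∃ MA : C(ℂ, ℂ), MA = ⟨fun w => ((w.re : ℝ) : ℂ) +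
      N (((w.im : ℝ) : ℂ) * Complex.I), by fun_prop⟩ := ⟨_, rfl⟩
  have hMAa : ∀ w, MA w = ((w.re : ℝ) : ℂ) + N (((w.im : ℝ) : ℂ) * Complex.I) := fun w => by
    rw [hMA]; rfl
  have hLA : LiftOf A MA := by
    refine ⟨fun w => ?_, fun w => ?_⟩
    · rw [hMAa, hMAa]
      have e3 : (((w + tpi).im : ℝ) : ℂ) * Complex.I = ((w.im : ℝ) : ℂ) * Complex.I + tpi := by
        rw [Complex.add_im, tpi_im, tpi_eq]
        push_cast
        ring
      rw [e3, hN.1, Complex.add_re, tpi_re, add_zero]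
      ring
    · rw [hMAa, Complex.exp_add, hN.2, hAa, radial_zero_apply, Complex.norm_exp,
        ← Complex.ofReal_exp]
      congr 2
      have : ((Real.exp w.re : ℝ) : ℂ) ≠ 0 := by exact_mod_cast (Real.exp_pos _).ne'
      rw [eq_div_iff this, Complex.ofReal_exp, ← Complex.exp_add]
      congr 1
      rw [add_comm]
      exact Complex.re_add_im w
  have hAs : σ → A 1 = 1 ∧ ∀ z, A (conj z) = conj (A z) := by
    intro hs
    refine ⟨?_, fun z => ?_⟩
    · have h3 := joined_pos hl1 hs j1 (x := 1) one_ne_zero (by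
        rw [Complex.ofReal_one]
        exact hpos hs)
      rw [Complex.ofReal_one] at h3
      have h4 : (g1 1).im = 0 := by
        have h5 := hg1.2.2 hs 1
        rw [map_one] at h5
        exact Complex.conj_eq_iff_im.1 h5.symm
      have h6 : ‖g1 1‖ = 1 := (h1 1).2 (by simp)
      have h7 : g1 1 = ((g1 1).re : ℝ) := Complex.ext (by simp) (by simp [h4])
      rw [h7, Complex.norm_real, Real.norm_of_nonneg h3.le] at h6
      rw [hAa, radial_zero_apply, norm_one, Complex.ofReal_one, one_mul, div_one, h7, h6,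
        Complex.ofReal_one]
    · have h8 : conj z / ((‖z‖ : ℝ) : ℂ) = conj (z / ((‖z‖ : ℝ) : ℂ)) := by
        rw [map_div₀, Complex.conj_ofReal]
      rw [hAa, hAa, radial_zero_apply, radial_zero_apply, Complex.norm_conj, map_mul,
        Complex.conj_ofReal, ← hg1.2.2 hs, h8]
  have hAinj : Function.Injective A := Function.LeftInverse.injective hAiA
  obtain ⟨P, hP1, hP2, hP3, hP4, hP5⟩ := cone_path hAn hAinj hAh hLA (σ := σ) hAs
  have jA : JoinedIn (GG l σ) A (ContinuousMap.id ℂ) :=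
    joined_of_family' (X := GG l σ) P (fun s => ⟨hP1 s, fun z => hP4 s l z hl, fun hs z => hP5 hs s z⟩) hP2 hP3
  have hAiG : Ai ∈ GG l σ := GG.inv jA.source_mem hAAi hAiA
  have j2 := JoinedIn.compGG (JoinedIn.refl (GG.comp hg1 hAiG)) jA
  have e3 : (g1.comp Ai).comp A = g1 := by
    ext z
    simp only [ContinuousMap.comp_apply]
    rw [hAiA]
  rw [e3, ContinuousMap.comp_id] at j2
  refine ⟨g1.comp Ai, j1.trans j2, fun u hu => ?_⟩
  simp only [ContinuousMap.comp_apply]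
  rw [hAia, radial_zero_apply, hu, Complex.ofReal_one, one_mul, div_one, e1]

end Pool.Agent.Helper984_CP
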