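import Pool.Agent.Helper984_CP.Meas

/-!
# Euler numbers of flat plane bundles over surfaces
-/

set_option autoImplicit false

open Set Filter Topology Complex MeasureTheory

noncomputable section

namespace Pool.Agent.Helper984_CP

/-- two isotopies `F, G` of the plane through homeomorphisms, starting at the identity; `Fi, Gi`
are the inverse isotopies -/
structure IsoPair where
  F : C(ℝ × ℂ, ℂ)
  Fi : C(ℝ × ℂ, ℂ)
  G : C(ℝ × ℂ, ℂ)
  Gi : C(ℝ × ℂ, ℂ)
  inv : ∀ t ∈ Set.Icc (0:ℝ) 1, ∀ x : ℂ, F (t, Fi (t, x)) = x ∧ Fi (t, F (t, x)) = x ∧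
    G (t, Gi (t, x)) = x ∧ Gi (t, G (t, x)) = x
  zero : ∀ x : ℂ, F (0, x) = x ∧ G (0, x) = x

/-- the commutator `[F_t, G_t]` -/
def IsoPair.comm (I : IsoPair) (t : ℝ) (x : ℂ) : ℂ := I.F (t, I.G (t, I.Fi (t, I.Gi (t, x))))

/-- the product of the commutators `[F_t, G_t]` over a list of pairs of isotopies -/
def word : List IsoPair → ℝ → ℂ → ℂ
  | [], _, x => x
  | I :: L, t, x => I.comm t (word L t x)

/-- The endpoints of the isotopies of the list `L` satisfy the relation of the surface group of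
genus `L.length`, and the loop of plane homeomorphisms given by the product of the commutators of
the isotopies has winding number `k`: the Euler number of the action of the surface group is `k`. -/
def EulerIs (L : List IsoPair) (k : ℤ) : Prop :=
  (∀ x, word L 1 x = x) ∧ ∃ θ : C(ℝ, ℝ), θ 1 - θ 0 = (k : ℝ) ∧ ∀ t ∈ Set.Icc (0:ℝ) 1,
    word L t 1 - word L t 0 = ((‖word L t 1 - word L t 0‖ : ℝ) : ℂ) *
      Complex.exp (2 * (Real.pi : ℂ) * Complex.I * ((θ t : ℝ) : ℂ))

theorem IsoPair.zero' (I : IsoPair) (x : ℂ) : I.Fi (0, x) = x ∧ I.Gi (0, x) = x := by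
  have h := I.inv 0 (by simp) x
  rw [(I.zero _).1] at h
  rw [(I.zero _).2] at h
  exact ⟨h.1, h.2.2.1⟩

theorem IsoPair.comm_zero (I : IsoPair) (x : ℂ) : I.comm 0 x = x := by
  rw [IsoPair.comm, (I.zero _).1, (I.zero _).2, (I.zero' _).1, (I.zero' _).2]

theorem IsoPair.comm_one (I : IsoPair)
    (hc : ∀ x, I.F (1, I.G (1, x)) = I.G (1, I.F (1, x))) (x : ℂ) : I.comm 1 x = x := by
  rw [IsoPair.comm, hc, (I.inv 1 (by simp) _).1, (I.inv 1 (by simp) _).2.2.1]

theorem IsoPair.exists_wind (I : IsoPair) : ∃ L : C(unitInterval × Conf, ℂ), (∀ a, L (0, a) = 0) ∧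
    ∀ (t : unitInterval) (a : Conf),
      cexp (L (t, a)) * (a.1.1 - a.1.2) = I.comm t a.1.1 - I.comm t a.1.2 := by
  let C : C(ℝ × ℂ, ℂ) := ⟨fun q => I.F (q.1, I.G (q.1, I.Fi (q.1, I.Gi (q.1, q.2)))), by fun_prop⟩
  let Ci : C(ℝ × ℂ, ℂ) := ⟨fun q => I.G (q.1, I.F (q.1, I.Gi (q.1, I.Fi (q.1, q.2)))), by fun_prop⟩
  exact Pool.Agent.Helper984_CP.exists_wind C Ci (fun t ht x => by
    constructor
    · change I.F (t, I.G (t, I.Fi (t, I.Gi (t, I.G (t, I.F (t, I.Gi (t, I.Fi (t, x)))))))) = x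
      rw [(I.inv t ht _).2.2.2, (I.inv t ht _).2.1, (I.inv t ht _).2.2.1, (I.inv t ht _).1]
    · change I.G (t, I.F (t, I.Gi (t, I.Fi (t, I.F (t, I.G (t, I.Fi (t, I.Gi (t, x)))))))) = x
      rw [(I.inv t ht _).2.1, (I.inv t ht _).2.2.2, (I.inv t ht _).1, (I.inv t ht _).2.2.1])
    (fun x => I.comm_zero x)

/-- the endpoints of a pair of isotopies -/
def IsoPair.ends (I : IsoPair) : C(ℂ, ℂ) × C(ℂ, ℂ) :=
  (⟨fun x => I.F (1, x), by fun_prop⟩, ⟨fun x => I.G (1, x), by fun_prop⟩)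

theorem IsoPair.mem_HomK (I : IsoPair)
    (hc : ∀ x, I.F (1, I.G (1, x)) = I.G (1, I.F (1, x))) :
    ∃ (k : ℤ) (L : C(unitInterval × Conf, ℂ)), I.ends ∈ HomK k ∧ (∀ a, L (0, a) = 0) ∧
      (∀ (t : unitInterval) (a : Conf),
        cexp (L (t, a)) * (a.1.1 - a.1.2) = I.comm t a.1.1 - I.comm t a.1.2) ∧
      ∀ a, L (1, a) = 2 * Real.pi * Complex.I * k := by
  obtain ⟨L, h0, hL⟩ := I.exists_wind
  let a₀ : Conf := ⟨(1, 0), one_ne_zero⟩
  have hexp1 : ∀ a, cexp (L (1, a)) = 1 := by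
    intro a
    have h1 := hL 1 a
    rw [Icc.coe_one, I.comm_one hc, I.comm_one hc] at h1
    exact mul_right_cancel₀ (sub_ne_zero.2 a.2) (by rw [h1, one_mul])
  obtain ⟨k, hk⟩ := Complex.exp_eq_one_iff.1 (hexp1 a₀)
  have hk' : ∀ a, L (1, a) = 2 * Real.pi * Complex.I * k := by
    intro a
    have h1 := exp_rigid (A := Conf) (u := fun a => L (1, a)) (v := fun _ => (0 : ℂ))
      (by fun_prop) continuous_const (fun a => by rw [hexp1, Complex.exp_zero]) a a₀
    simp only [sub_zero] at h1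
    rw [h1, hk]
    ring
  refine ⟨k, L, ⟨hc, I.F, I.Fi, I.G, I.Gi, I.inv, fun x => ⟨(I.zero x).1, (I.zero x).2, rfl, rfl⟩,
    ?_⟩, h0, hL, hk'⟩
  let θ : C(ℝ, ℝ) := ⟨fun t => (L (projIcc 0 1 zero_le_one t, a₀)).im / (2 * Real.pi), by
      apply Continuous.div_const
      exact Complex.continuous_im.comp (L.continuous.comp (continuous_projIcc.prodMk
        continuous_const))⟩
  have hθ : ∀ t, θ t = (L (projIcc 0 1 zero_le_one t, a₀)).im / (2 * Real.pi) := fun t => rfl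
  refine ⟨θ, ?_, ?_⟩
  · rw [hθ, hθ, projIcc_right, projIcc_left]
    change (L (1, a₀)).im / _ - (L (0, a₀)).im / _ = _
    rw [h0, hk']
    have : ((2 * Real.pi * Complex.I * k : ℂ)).im = 2 * Real.pi * k := by simp
    rw [this]
    simp only [Complex.zero_im, zero_div, sub_zero]
    field_simp
  · intro t ht
    have h1 := hL ⟨t, ht⟩ a₀
    have e1 : a₀.1.1 = 1 := rfl
    have e2 : a₀.1.2 = 0 := rfl
    rw [e1, e2, sub_zero, mul_one] at h1
    change I.comm t 1 - I.comm t 0 = ((‖I.comm t 1 - I.comm t 0‖ : ℝ) : ℂ) * _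
    simp only at h1
    rw [← h1, hθ, projIcc_of_mem zero_le_one ht, Complex.norm_exp]
    rw [Complex.ofReal_exp, ← Complex.exp_add]
    congr 1
    have hpi : (Real.pi : ℝ) ≠ 0 := Real.pi_ne_zero
    obtain ⟨r, hr⟩ : ∃ r : ℝ, (L (⟨t, ht⟩, a₀)).im / (2 * Real.pi) = r := ⟨_, rfl⟩
    rw [hr]
    have hr' : (L (⟨t, ht⟩, a₀)).im = 2 * Real.pi * r := by rw [← hr]; field_simp
    apply Complex.ext
    · simp
    · simp [hr']

theorem word_props (L : List IsoPair)
    (hc : ∀ I ∈ L, ∀ x, I.F (1, I.G (1, x)) = I.G (1, I.F (1, x)))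
    (hk : ∀ I ∈ L, ∀ k, I.ends ∈ HomK k → k = 0) :
    ∃ W : C(unitInterval × Conf, ℂ), (∀ a, W (0, a) = 0) ∧ (∀ a, W (1, a) = 0) ∧
      (∀ (t : unitInterval) (a : Conf),
        cexp (W (t, a)) * (a.1.1 - a.1.2) = word L t a.1.1 - word L t a.1.2) ∧
      (∀ x, word L 1 x = x) ∧ (∀ x, word L 0 x = x) ∧
      Continuous fun q : unitInterval × ℂ => word L q.1 q.2 := by
  induction L with
  | nil =>
    refine ⟨0, fun _ => rfl, fun _ => rfl, fun t a => ?_, fun _ => rfl, fun _ => rfl,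
      continuous_snd⟩
    simp only [ContinuousMap.zero_apply, Complex.exp_zero, one_mul]
    rfl
  | cons I L ih =>
    obtain ⟨W, hW0, hW1, hW, hw1, hw0, hwc⟩ := ih (fun J hJ => hc J (List.mem_cons_of_mem _ hJ))
      (fun J hJ => hk J (List.mem_cons_of_mem _ hJ))
    obtain ⟨k, V, hk1, hV0, hV, hV1⟩ := I.mem_HomK (hc I List.mem_cons_self)
    have hk0 : k = 0 := hk I List.mem_cons_self k hk1
    have hinj : ∀ (t : unitInterval) (a : Conf), word L t a.1.1 ≠ word L t a.1.2 := by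
      intro t a h
      have h1 := hW t a
      rw [h, sub_self] at h1
      exact (mul_ne_zero (Complex.exp_ne_zero _) (sub_ne_zero.2 a.2)) h1
    let Q : C(unitInterval × Conf, Conf) := ⟨fun q =>
      ⟨(word L q.1 q.2.1.1, word L q.1 q.2.1.2), hinj q.1 q.2⟩, by
        apply Continuous.subtype_mk
        apply Continuous.prodMk
        · exact hwc.comp (continuous_fst.prodMk
            (continuous_fst.comp (continuous_subtype_val.comp continuous_snd)))
        · exact hwc.comp (continuous_fst.prodMk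
            (continuous_snd.comp (continuous_subtype_val.comp continuous_snd)))⟩
    refine ⟨⟨fun q => V (q.1, Q q) + W q, by fun_prop⟩, ?_, ?_, ?_, ?_, ?_, ?_⟩
    · intro a
      change V (0, Q (0, a)) + W (0, a) = 0
      rw [hV0, hW0, add_zero]
    · intro a
      change V (1, Q (1, a)) + W (1, a) = 0
      rw [hV1, hW1, hk0]
      simp
    · intro t a
      change cexp (V (t, Q (t, a)) + W (t, a)) * (a.1.1 - a.1.2) =
        I.comm t (word L t a.1.1) - I.comm t (word L t a.1.2)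
      rw [Complex.exp_add, mul_assoc, hW]
      exact hV t (Q (t, a))
    · intro x
      change I.comm 1 (word L 1 x) = x
      rw [hw1, I.comm_one (hc I List.mem_cons_self)]
    · intro x
      change I.comm 0 (word L 0 x) = x
      rw [hw0, I.comm_zero]
    · change Continuous fun q : unitInterval × ℂ => I.F ((q.1 : ℝ), I.G ((q.1 : ℝ),
        I.Fi ((q.1 : ℝ), I.Gi ((q.1 : ℝ), word L q.1 q.2))))
      fun_prop

theorem EulerIs.eq_zero {L : List IsoPair} {k : ℤ} (h : EulerIs L k)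
    (hc : ∀ I ∈ L, ∀ x, I.F (1, I.G (1, x)) = I.G (1, I.F (1, x)))
    (hk : ∀ I ∈ L, ∀ k, I.ends ∈ HomK k → k = 0) : k = 0 := by
  obtain ⟨W, hW0, hW1, hW, -⟩ := word_props L hc hk
  obtain ⟨-, θ, hθ, hC⟩ := h
  let a₀ : Conf := ⟨(1, 0), one_ne_zero⟩
  have hexp : ∀ t : unitInterval, cexp (W (t, a₀)) = word L t 1 - word L t 0 := by
    intro t
    have h1 := hW t a₀
    have e1 : a₀.1.1 = 1 := rfl
    have e2 : a₀.1.2 = 0 := rfl
    rw [e1, e2, sub_zero, mul_one] at h1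
    exact h1
  have hnorm : ∀ t : unitInterval, (0 : ℝ) < ‖cexp (W (t, a₀))‖ :=
    fun t => norm_pos_iff.2 (Complex.exp_ne_zero _)
  have h1 := exp_rigid (A := unitInterval) (u := fun t => W (t, a₀))
      (v := fun t => ((Real.log ‖cexp (W (t, a₀))‖ : ℝ) : ℂ) +
        2 * Real.pi * Complex.I * ((θ t : ℝ) : ℂ))
      (by fun_prop) (by
        apply Continuous.add
        · apply Complex.continuous_ofReal.comp
          apply Continuous.log
          · fun_prop
          · intro t; exact (hnorm t).ne'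
        · fun_prop) (by
        intro t
        rw [Complex.exp_add, ← Complex.ofReal_exp, Real.exp_log (hnorm t), hexp t]
        exact hC t t.2) 1 0
  simp only [hW0, hW1, Complex.exp_zero, norm_one, Real.log_one, Complex.ofReal_zero, zero_add,
    zero_sub, Icc.coe_one, Icc.coe_zero, neg_inj] at h1
  have h2pi : (2 * Real.pi * Complex.I : ℂ) ≠ 0 := by simp [Real.pi_ne_zero]
  have h2 := mul_left_cancel₀ h2pi h1
  have h3 : θ 1 = θ 0 := by exact_mod_cast h2
  rw [h3, sub_self] at hθ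
  exact_mod_cast hθ.symm

/-- flat plane bundles over surfaces whose handles act by commuting homeomorphisms that preserve
a measure have Euler number zero -/
theorem euler_surface {L : List IsoPair} {k : ℤ} (h : EulerIs L k)
    (hc : ∀ I ∈ L, ∀ x, I.F (1, I.G (1, x)) = I.G (1, I.F (1, x)))
    (hμ : ∀ I ∈ L, ∃ (μ : Measure ℂ) (_ : IsLocallyFiniteMeasure μ), (∀ c : ℂ, μ {c}ᶜ ≠ 0) ∧
      MeasurePreserving (fun x => I.F (1, x)) μ μ ∧ MeasurePreserving (fun x => I.G (1, x)) μ μ) :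
    k = 0 := by
  refine h.eq_zero hc fun I hI l hl => ?_
  obtain ⟨μ, hμ0, h1, h2, h3⟩ := hμ I hI
  exact euler_measure hl μ h2 h3 h1

theorem EulerIs.zero {L : List IsoPair}
    (hc : ∀ I ∈ L, ∀ x, I.F (1, I.G (1, x)) = I.G (1, I.F (1, x)))
    (hk : ∀ I ∈ L, ∀ k, I.ends ∈ HomK k → k = 0) : EulerIs L 0 := by
  obtain ⟨W, hW0, hW1, hW, hw1, -⟩ := word_props L hc hk
  let a₀ : Conf := ⟨(1, 0), one_ne_zero⟩
  refine ⟨hw1, ?_⟩
  let θ : C(ℝ, ℝ) := ⟨fun t => (W (projIcc 0 1 zero_le_one t, a₀)).im / (2 * Real.pi), by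
      apply Continuous.div_const
      exact Complex.continuous_im.comp (W.continuous.comp (continuous_projIcc.prodMk
        continuous_const))⟩
  have hθ : ∀ t, θ t = (W (projIcc 0 1 zero_le_one t, a₀)).im / (2 * Real.pi) := fun t => rfl
  refine ⟨θ, ?_, ?_⟩
  · rw [hθ, hθ, projIcc_right, projIcc_left]
    change (W (1, a₀)).im / _ - (W (0, a₀)).im / _ = _
    rw [hW0, hW1]
    simp
  · intro t ht
    have h1 := hW ⟨t, ht⟩ a₀
    have e1 : a₀.1.1 = 1 := rfl
    have e2 : a₀.1.2 = 0 := rfl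
    rw [e1, e2, sub_zero, mul_one] at h1
    simp only at h1
    rw [← h1, hθ, projIcc_of_mem zero_le_one ht, Complex.norm_exp]
    rw [Complex.ofReal_exp, ← Complex.exp_add]
    congr 1
    have hpi : (Real.pi : ℝ) ≠ 0 := Real.pi_ne_zero
    obtain ⟨r, hr⟩ : ∃ r : ℝ, (W (⟨t, ht⟩, a₀)).im / (2 * Real.pi) = r := ⟨_, rfl⟩
    rw [hr]
    have hr' : (W (⟨t, ht⟩, a₀)).im = 2 * Real.pi * r := by rw [← hr]; field_simp
    apply Complex.ext
    · simp
    · simp [hr']

/-- the Euler number of a flat plane bundle over a surface whose handles act by commuting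
homeomorphisms that preserve a measure is zero -/
theorem euler_surface_iff {L : List IsoPair}
    (hc : ∀ I ∈ L, ∀ x, I.F (1, I.G (1, x)) = I.G (1, I.F (1, x)))
    (hμ : ∀ I ∈ L, ∃ (μ : Measure ℂ) (_ : IsLocallyFiniteMeasure μ), (∀ c : ℂ, μ {c}ᶜ ≠ 0) ∧
      MeasurePreserving (fun x => I.F (1, x)) μ μ ∧ MeasurePreserving (fun x => I.G (1, x)) μ μ)
    (k : ℤ) : EulerIs L k ↔ k = 0 := by
  refine ⟨fun h => euler_surface h hc hμ, ?_⟩
  rintro rfl
  refine EulerIs.zero hc fun I hI l hl => ?_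
  obtain ⟨μ, hμ0, h1, h2, h3⟩ := hμ I hI
  exact euler_measure hl μ h2 h3 h1

theorem volume_compl_singleton (c : ℂ) : (volume : Measure ℂ) {c}ᶜ ≠ 0 := by
  have h : IsOpen ({c}ᶜ : Set ℂ) := isOpen_compl_singleton
  refine (h.measure_pos volume ⟨c + 1, ?_⟩).ne'
  simp

end Pool.Agent.Helper984_CP
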