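import Pool.Agent.Helper984_CP.Two

/-!
# Normalised and symmetric Riemann charts
-/

set_option autoImplicit false

open Set Filter Topology ComplexConjugate

noncomputable section

namespace Pool.Agent.Helper984_CP

/-- a self map of the disc with both it and its inverse holomorphic, fixing the centre, is a
rotation -/
theorem schwarz_rot {χ χi : ℂ → ℂ} (hd : DifferentiableOn ℂ χ (Metric.ball 0 1))
    (hdi : DifferentiableOn ℂ χi (Metric.ball 0 1)) (m : ∀ z, ‖z‖ < 1 → ‖χ z‖ < 1)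
    (mi : ∀ z, ‖z‖ < 1 → ‖χi z‖ < 1) (h0 : χ 0 = 0) (h1 : ∀ z, ‖z‖ < 1 → χi (χ z) = z) :
    ∃ a : ℂ, ∀ z, ‖z‖ < 1 → χ z = z * a := by
  have hi0 : χi 0 = 0 := by
    have := h1 0 (by simp)
    rwa [h0] at this
  have e1 : ∀ z, ‖z‖ < 1 → ‖χ z‖ ≤ ‖z‖ := fun z hz =>
    Complex.norm_le_norm_of_mapsTo_ball hd (fun w hw => mem_closedBall_zero_iff.2
      (m w (mem_ball_zero_iff.1 hw)).le) h0 hz
  have e2 : ∀ z, ‖z‖ < 1 → ‖χi z‖ ≤ ‖z‖ := fun z hz =>
    Complex.norm_le_norm_of_mapsTo_ball hdi (fun w hw => mem_closedBall_zero_iff.2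
      (mi w (mem_ball_zero_iff.1 hw)).le) hi0 hz
  have e3 : ∀ z, ‖z‖ < 1 → ‖χ z‖ = ‖z‖ := by
    intro z hz
    refine le_antisymm (e1 z hz) ?_
    have := e2 (χ z) (m z hz)
    rwa [h1 z hz] at this
  obtain ⟨z0, hz0⟩ : ∃ z0 : ℂ, z0 = ((1 / 2 : ℝ) : ℂ) := ⟨_, rfl⟩
  have hn : ‖z0‖ = 1 / 2 := by rw [hz0, Complex.norm_real]; norm_num
  have hz0' : z0 ≠ 0 := by
    intro h
    rw [h, norm_zero] at hn
    norm_num at hn
  have hb : z0 ∈ Metric.ball (0 : ℂ) 1 := by rw [mem_ball_zero_iff, hn]; norm_num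
  have key := Complex.affine_of_mapsTo_ball_of_norm_dslope_eq_div (R₂ := 1) hd
    (fun w hw => by
      rw [h0]
      exact mem_closedBall_zero_iff.2 (m w (mem_ball_zero_iff.1 hw)).le) hb (by
      rw [dslope_of_ne _ hz0', slope_def_module, h0, sub_zero, sub_zero, norm_smul, norm_inv,
        e3 z0 (by rw [hn]; norm_num), hn]
      norm_num)
  refine ⟨dslope χ 0 z0, fun z hz => ?_⟩
  have := key (mem_ball_zero_iff.2 hz)
  rw [this]
  simp [h0]

/-- normalised Riemann chart; it is symmetric if the domain is -/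
theorem riem_normalize {φ ψ : ℂ → ℂ} {U : Set ℂ} (h : Riem φ ψ U) (hd : deriv φ 0 ≠ 0)
    (hψ : DifferentiableOn ℂ ψ U) :
    ∃ (φ' ψ' : ℂ → ℂ) (c : ℝ), Riem φ' ψ' U ∧ 0 < c ∧ HasDerivAt φ' (c : ℂ) 0 ∧ φ' 0 = φ 0 ∧
      DifferentiableOn ℂ ψ' U ∧ ((∀ w ∈ U, conj w ∈ U) → conj (φ 0) = φ 0 →
        ∀ z, ‖z‖ < 1 → φ' (conj z) = conj (φ' z)) := by
  obtain ⟨d, hdd⟩ : ∃ d, d = deriv φ 0 := ⟨_, rfl⟩
  rw [← hdd] at hd
  have hdn : 0 < ‖d‖ := norm_pos_iff.2 hd
  have hdn' : ((‖d‖ : ℝ) : ℂ) ≠ 0 := by exact_mod_cast hdn.ne'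
  obtain ⟨u, hu⟩ : ∃ u : ℂ, u = conj d / (‖d‖ : ℝ) := ⟨_, rfl⟩
  have hun : ‖u‖ = 1 := by
    rw [hu, norm_div, Complex.norm_conj, Complex.norm_real, norm_norm, div_self hdn.ne']
  have hu0 : u ≠ 0 := by
    intro h
    rw [h, norm_zero] at hun
    exact zero_ne_one hun
  have hdu : d * u = ((‖d‖ : ℝ) : ℂ) := by
    rw [hu, mul_div_assoc', Complex.mul_conj, Complex.normSq_eq_norm_sq]
    push_cast
    field_simp
  have hmu : ∀ z : ℂ, ‖z‖ < 1 → ‖u * z‖ < 1 := fun z hz => by rwa [norm_mul, hun, one_mul]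
  have hm2 : ∀ z : ℂ, ‖z‖ < 1 → ‖u⁻¹ * z‖ < 1 := fun z hz => by
    rwa [norm_mul, norm_inv, hun, inv_one, one_mul]
  have hφ0 : HasDerivAt φ d 0 := by
    rw [hdd]
    exact (h.diff.differentiableAt (Metric.ball_mem_nhds _ one_pos)).hasDerivAt
  have hR : Riem (fun z => φ (u * z)) (fun w => u⁻¹ * ψ w) U := by
    refine ⟨h.isOpen, ?_, fun z hz => h.maps _ (hmu z hz), continuousOn_const.mul h.cont,
      fun w hw => hm2 _ (h.mapsInv w hw), ?_, ?_⟩
    · refine h.diff.comp (by fun_prop) ?_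
      intro z hz
      exact mem_ball_zero_iff.2 (hmu z (mem_ball_zero_iff.1 hz))
    · intro z hz
      rw [h.left _ (hmu z hz), ← mul_assoc, inv_mul_cancel₀ hu0, one_mul]
    · intro w hw
      rw [← mul_assoc, mul_inv_cancel₀ hu0, one_mul, h.right w hw]
  have hder : HasDerivAt (fun z => φ (u * z)) ((‖d‖ : ℝ) : ℂ) 0 := by
    have h1 : HasDerivAt (fun z : ℂ => u * z) u 0 := by
      simpa using (hasDerivAt_id (0 : ℂ)).const_mul u
    have h2 : HasDerivAt φ d (u * 0) := by rwa [mul_zero]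
    have h3 := h2.comp (0 : ℂ) h1
    rw [hdu] at h3
    exact h3
  refine ⟨fun z => φ (u * z), fun w => u⁻¹ * ψ w, ‖d‖, hR, hdn, hder, by simp, by
    exact (differentiableOn_const _).mul hψ, ?_⟩
  intro hU h0
  obtain ⟨f, hf⟩ : ∃ f : ℂ → ℂ, f = fun z => φ (u * z) := ⟨_, rfl⟩
  obtain ⟨g, hg⟩ : ∃ g : ℂ → ℂ, g = fun w => u⁻¹ * ψ w := ⟨_, rfl⟩
  have hgd : DifferentiableOn ℂ g U := by
    rw [hg]
    exact (differentiableOn_const _).mul hψ
  rw [← hf, ← hg] at hR
  rw [← hf] at hder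
  have hf0 : f 0 = φ 0 := by rw [hf]; simp
  change ∀ z, ‖z‖ < 1 → (fun z => φ (u * z)) (conj z) = conj ((fun z => φ (u * z)) z)
  rw [← hf]
  -- the conjugate chart
  have hcU : ∀ w, conj w ∈ U → w ∈ U := by
    intro w hw
    have := hU _ hw
    rwa [Complex.conj_conj] at this
  have hfc : DifferentiableOn ℂ (conj ∘ f ∘ conj) (Metric.ball 0 1) := by
    intro z hz
    apply DifferentiableAt.differentiableWithinAt
    rw [differentiableAt_conj_conj_iff]
    apply hR.diff.differentiableAt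
    apply Metric.isOpen_ball.mem_nhds
    rw [mem_ball_zero_iff] at hz ⊢
    rwa [Complex.norm_conj]
  have hgc : DifferentiableOn ℂ (conj ∘ g ∘ conj) U := by
    intro w hw
    apply DifferentiableAt.differentiableWithinAt
    rw [differentiableAt_conj_conj_iff]
    exact hgd.differentiableAt (h.isOpen.mem_nhds (hU w hw))
  have hmc : ∀ z, ‖z‖ < 1 → (conj ∘ f ∘ conj) z ∈ U := by
    intro z hz
    exact hU _ (hR.maps _ (by rwa [Complex.norm_conj]))
  have hχ : DifferentiableOn ℂ (fun z => g ((conj ∘ f ∘ conj) z)) (Metric.ball 0 1) := by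
    refine hgd.comp hfc ?_
    intro z hz
    exact hmc z (mem_ball_zero_iff.1 hz)
  have hχi : DifferentiableOn ℂ (fun z => (conj ∘ g ∘ conj) (f z)) (Metric.ball 0 1) := by
    refine hgc.comp hR.diff ?_
    intro z hz
    exact hR.maps z (mem_ball_zero_iff.1 hz)
  obtain ⟨a, ha⟩ := schwarz_rot hχ hχi (fun z hz => hR.mapsInv _ (hmc z hz))
    (fun z hz => by
      simp only [Function.comp_apply]
      rw [Complex.norm_conj]
      exact hR.mapsInv _ (hU _ (hR.maps z hz)))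
    (by
      simp only [Function.comp_apply, map_zero]
      rw [hf0, h0, ← hf0]
      exact hR.left 0 (by simp))
    (fun z hz => by
      have h1 := hmc z hz
      simp only [Function.comp_apply] at h1 ⊢
      rw [hR.right _ h1, Complex.conj_conj, hR.left _ (by rwa [Complex.norm_conj]),
        Complex.conj_conj])
  have hrel : ∀ z, ‖z‖ < 1 → (conj ∘ f ∘ conj) z = f (z * a) := by
    intro z hz
    rw [← ha z hz, hR.right _ (hmc z hz)]
  have ha1 : a = 1 := by
    have h1 : HasDerivAt (conj ∘ f ∘ conj) ((‖d‖ : ℝ) : ℂ) 0 := by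
      rw [hasDerivAt_conj_conj_iff, Complex.conj_ofReal, map_zero]
      exact hder
    have h2 : HasDerivAt (fun z => f (z * a)) (((‖d‖ : ℝ) : ℂ) * a) 0 := by
      have h3 : HasDerivAt (fun z : ℂ => z * a) a 0 := by
        simpa using (hasDerivAt_id (0 : ℂ)).mul_const a
      have h4 : HasDerivAt f ((‖d‖ : ℝ) : ℂ) (0 * a) := by rwa [zero_mul]
      exact h4.comp (0 : ℂ) h3
    have h3 : (conj ∘ f ∘ conj) =ᶠ[𝓝 0] fun z => f (z * a) := by
      filter_upwards [Metric.ball_mem_nhds (0 : ℂ) one_pos] with z hz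
      exact hrel z (mem_ball_zero_iff.1 hz)
    have h4 := (h1.congr_of_eventuallyEq h3.symm).unique h2
    have h5 : ((‖d‖ : ℝ) : ℂ) * 1 = ((‖d‖ : ℝ) : ℂ) * a := by rw [mul_one]; exact h4
    exact (mul_left_cancel₀ hdn' h5).symm
  intro z hz
  have h1 := hrel (conj z) (by rwa [Complex.norm_conj])
  rw [ha1, mul_one] at h1
  simp only [Function.comp_apply, Complex.conj_conj] at h1
  exact h1.symm

/-- the decomposition `h = Φ ∘ Q` of a plane homeomorphism into a homeomorphism which is conformal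
in the unit disc and one which preserves the unit disc -/
theorem exists_straight {h hi : C(ℂ, ℂ)} (e1 : ∀ x, h (hi x) = x) (e2 : ∀ x, hi (h x) = x)
    {σ : Prop} (hσ : σ → ∀ z, h (conj z) = conj (h z)) :
    ∃ (φ ψ : ℂ → ℂ) (c : ℝ) (F Fi : ℂ → ℂ) (Q Qi Φ Φi : C(ℂ, ℂ)),
      Riem φ ψ (h '' Metric.ball 0 1) ∧ DifferentiableOn ℂ ψ (h '' Metric.ball 0 1) ∧
      0 < c ∧ HasDerivAt φ (c : ℂ) 0 ∧ φ 0 = h 0 ∧ DiscMap F ∧ DiscMap Fi ∧
      (∀ z, ‖z‖ ≤ 1 → F (Fi z) = z) ∧ (∀ z, ‖z‖ ≤ 1 → Fi (F z) = z) ∧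
      (∀ z, Q z = radial F 1 z) ∧ (∀ z, Qi z = radial Fi 1 z) ∧
      (∀ z, Q (Qi z) = z) ∧ (∀ z, Qi (Q z) = z) ∧ (∀ z, Φ (Φi z) = z) ∧ (∀ z, Φi (Φ z) = z) ∧
      (∀ z, h z = Φ (Q z)) ∧ (∀ z, ‖z‖ < 1 → Φ z = φ z) ∧
      (σ → (∀ z, Q (conj z) = conj (Q z)) ∧ (∀ z, Φ (conj z) = conj (Φ z))) := by
  obtain ⟨φ0, ψ0, hR0, hd0, h00, hψ0⟩ := exists_riem_image e1 e2
  obtain ⟨φ, ψ, c, hR, hc, hder, hφ0, hψ, hsym⟩ := riem_normalize hR0 hd0 hψ0
  rw [h00] at hφ0 hsym
  obtain ⟨F, Fi, hF, hFi, r1, r2, hFe, hFie⟩ := chart_extends_two' riem_id hR e1 e2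
    (fun x hx => ⟨x, hx, rfl⟩) (fun x hx => by
      obtain ⟨y, hy, rfl⟩ := hx
      rwa [e2])
  have hrc : ∀ {F : ℂ → ℂ}, DiscMap F → Continuous fun z : ℂ => radial F 1 z := by
    intro F hF
    have h := (continuous_radial_family hF).comp (f := fun z : ℂ => ((1 : unitInterval), z))
      (by fun_prop)
    have e : (fun z : ℂ => radial F 1 z) = (fun q : unitInterval × ℂ => radial F q.1 q.2) ∘
        (fun z : ℂ => ((1 : unitInterval), z)) := by
      ext z
      simp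
    rw [e]
    exact h
  let Q : C(ℂ, ℂ) := ⟨fun z => radial F 1 z, hrc hF⟩
  let Qi : C(ℂ, ℂ) := ⟨fun z => radial Fi 1 z, hrc hFi⟩
  have q1 : ∀ z, Q (Qi z) = z := fun z => radial_inv hFi r1 zero_le_one z
  have q2 : ∀ z, Qi (Q z) = z := fun z => radial_inv hF r2 zero_le_one z
  have hrad : ∀ (F : ℂ → ℂ) (z : ℂ), ‖z‖ < 1 → radial F 1 z = F z := by
    intro F z hz
    rw [radial, max_eq_left hz.le]
    simp
  refine ⟨φ, ψ, c, F, Fi, Q, Qi, h.comp Qi, Q.comp hi, hR, hψ, hc, hder, hφ0, hF, hFi, r1, r2,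
    fun _ => rfl, fun _ => rfl, q1, q2, ?_, ?_, ?_, ?_, ?_⟩
  · intro z
    simp only [ContinuousMap.comp_apply]
    rw [q2, e1]
  · intro z
    simp only [ContinuousMap.comp_apply]
    rw [e2, q1]
  · intro z
    simp only [ContinuousMap.comp_apply]
    rw [q2]
  · intro z hz
    change h (radial Fi 1 z) = φ z
    rw [hrad Fi z hz, hFie z hz, e1]
  · intro s
    have hhs := hσ s
    have hhi : ∀ z, hi (conj z) = conj (hi z) := by
      intro z
      have := hhs (hi z)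
      rw [e1] at this
      rw [← this, e2]
    have hUs : ∀ w ∈ h '' Metric.ball 0 1, conj w ∈ h '' Metric.ball 0 1 := by
      rintro _ ⟨z, hz, rfl⟩
      refine ⟨conj z, ?_, hhs z⟩
      rw [mem_ball_zero_iff] at hz ⊢
      rwa [Complex.norm_conj]
    have hs := hsym hUs (by rw [← hhs, map_zero])
    have hFs : ∀ z, ‖z‖ < 1 → F (conj z) = conj (F z) := by
      intro z hz
      have hz' : ‖conj z‖ < 1 := by rwa [Complex.norm_conj]
      rw [hFe z hz, hFe _ hz', hhs]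
      have h3 : h z ∈ h '' Metric.ball 0 1 := ⟨z, mem_ball_zero_iff.2 hz, rfl⟩
      have h4 : ψ (φ (conj (ψ (h z)))) = conj (ψ (h z)) :=
        hR.left _ (by rw [Complex.norm_conj]; exact hR.mapsInv _ h3)
      rw [← h4, hs _ (hR.mapsInv _ h3), hR.right _ h3]
    have hFs' : ∀ z, ‖z‖ ≤ 1 → F (conj z) = conj (F z) := by
      intro z hz
      have hcl : Metric.closedBall (0 : ℂ) 1 ⊆ closure (Metric.ball 0 1) := by
        rw [closure_ball _ one_ne_zero]
      have hzc : z ∈ closure (Metric.ball (0 : ℂ) 1) := hcl (mem_closedBall_zero_iff.2 hz)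
      have hne : (𝓝[Metric.ball (0 : ℂ) 1] z).NeBot := mem_closure_iff_nhdsWithin_neBot.1 hzc
      have c1 : ContinuousOn (fun z => F (conj z)) (Metric.closedBall 0 1) := by
        refine hF.cont.comp Complex.continuous_conj.continuousOn ?_
        intro z hz
        rw [mem_closedBall_zero_iff] at hz ⊢
        rwa [Complex.norm_conj]
      have c2 : ContinuousOn (fun z => conj (F z)) (Metric.closedBall 0 1) :=
        Complex.continuous_conj.comp_continuousOn hF.cont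
      have t1 := (c1 z (mem_closedBall_zero_iff.2 hz)).mono Metric.ball_subset_closedBall
      have t2 := (c2 z (mem_closedBall_zero_iff.2 hz)).mono Metric.ball_subset_closedBall
      refine tendsto_nhds_unique (f := fun z => F (conj z)) t1 (Tendsto.congr' ?_ t2)
      filter_upwards [self_mem_nhdsWithin] with x hx
      exact (hFs x (mem_ball_zero_iff.1 hx)).symm
    have hQs : ∀ z, Q (conj z) = conj (Q z) := by
      intro z
      change radial F 1 (conj z) = conj (radial F 1 z)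
      rw [radial, radial, Complex.norm_conj, map_mul, Complex.conj_ofReal]
      rw [← hFs' _ (norm_div_max_le zero_le_one z), map_div₀, Complex.conj_ofReal]
    refine ⟨hQs, fun z => ?_⟩
    have hQis : Qi (conj z) = conj (Qi z) := by
      have := hQs (Qi z)
      rw [q1] at this
      rw [← this, q2]
    simp only [ContinuousMap.comp_apply]
    rw [hQis, hhs]

end Pool.Agent.Helper984_CP
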