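import Pool.Agent.Helper984_CP.Dst4

/-!
# Tight discs around a continuum which does not separate the plane
-/

set_option autoImplicit false

open Set Filter Topology Complex

noncomputable section

namespace Pool.Agent.Helper984_CP

theorem infDist_lt_of_norm {K : Set ℂ} {R : ℝ} (hR : K ⊆ Metric.closedBall 0 R)
    (h0 : (0 : ℂ) ∈ K) {z : ℂ} {d : ℝ} (hz : R + d < ‖z‖) : d < Metric.infDist z K := by
  have h1 : ‖z‖ - R ≤ Metric.infDist z K := by
    rw [Metric.le_infDist ⟨0, h0⟩]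
    intro y hy
    have h2 := mem_closedBall_zero_iff.1 (hR hy)
    have h3 := norm_sub_norm_le z y
    rw [dist_eq_norm]
    linarith
  linarith

theorem compl_ball_pre {r : ℝ} (hr : 0 ≤ r) : IsPreconnected {z : ℂ | r < ‖z‖} :=
  (isPreconnected_gt_ball r hr).isPreconnected

/-- the outer component reaches any given point off the continuum -/
theorem exists_outer {K : Set ℂ} (hK : FC K) {a p : ℂ} (ha : a ∉ K) (hp : p ∉ K) :
    ∃ δ : ℝ, 0 < δ ∧ ∃ S : Set ℂ, IsPreconnected S ∧ a ∈ S ∧ p ∈ S ∧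
      ∀ z ∈ S, δ < Metric.infDist z K := by
  have hpc : IsPathConnected Kᶜ :=
    (hK.cpt.isClosed.isOpen_compl.isConnected_iff_isPathConnected).1 ⟨⟨p, hp⟩, hK.fil⟩
  obtain ⟨γ, hγ⟩ := hpc.joinedIn p hp a ha
  have hpos : ∀ t, 0 < Metric.infDist (γ t) K := fun t =>
    (hK.cpt.isClosed.notMem_iff_infDist_pos ⟨0, hK.zero⟩).1 (hγ t)
  obtain ⟨t0, -, ht0⟩ := (isCompact_univ (X := unitInterval)).exists_isMinOn ⟨0, mem_univ _⟩
    (f := fun t => Metric.infDist (γ t) K)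
    ((Metric.continuous_infDist_pt K).comp γ.continuous).continuousOn
  refine ⟨Metric.infDist (γ t0) K / 2, half_pos (hpos t0), range γ,
    isPreconnected_range γ.continuous, ⟨1, γ.target⟩, ⟨0, γ.source⟩, ?_⟩
  rintro _ ⟨t, rfl⟩
  have h1 : Metric.infDist (γ t0) K ≤ Metric.infDist (γ t) K := ht0 (mem_univ t)
  linarith [hpos t0]

/-- a compact set without holes around the continuum which misses three given points -/
theorem exists_E {K : Set ℂ} (hK : FC K) {a b c : ℂ} (ha : a ∉ K) (hb : b ∉ K) (hc : c ∉ K) :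
    ∃ E : Set ℂ, IsCompact E ∧ IsPreconnected Eᶜ ∧ K ⊆ interior E ∧ a ∉ E ∧ b ∉ E ∧ c ∉ E := by
  obtain ⟨R, hR⟩ := hK.cpt.isBounded.subset_closedBall (0 : ℂ)
  have hR0 : 0 ≤ R := by
    have := hR hK.zero
    rwa [mem_closedBall_zero_iff, norm_zero] at this
  obtain ⟨p, hp⟩ : ∃ p : ℂ, p = ((R + 2 : ℝ) : ℂ) := ⟨_, rfl⟩
  have hpn : ‖p‖ = R + 2 := by
    rw [hp, Complex.norm_real, Real.norm_eq_abs, abs_of_pos (by linarith)]
  have hpK : p ∉ K := fun h => by
    have := mem_closedBall_zero_iff.1 (hR h)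
    linarith
  obtain ⟨d1, hd1, S1, hS1, haS, hpS1, h1⟩ := exists_outer hK ha hpK
  obtain ⟨d2, hd2, S2, hS2, hbS, hpS2, h2⟩ := exists_outer hK hb hpK
  obtain ⟨d3, hd3, S3, hS3, hcS, hpS3, h3⟩ := exists_outer hK hc hpK
  obtain ⟨d, hd⟩ : ∃ d, d = min (min d1 d2) (min d3 1) := ⟨_, rfl⟩
  have hd0 : 0 < d := by rw [hd]; positivity
  have e1 : d ≤ d1 := hd ▸ (min_le_left _ _).trans (min_le_left _ _)
  have e2 : d ≤ d2 := hd ▸ (min_le_left _ _).trans (min_le_right _ _)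
  have e3 : d ≤ d3 := hd ▸ (min_le_right _ _).trans (min_le_left _ _)
  have e4 : d ≤ 1 := hd ▸ (min_le_right _ _).trans (min_le_right _ _)
  obtain ⟨O, hO⟩ : ∃ O, O = {z : ℂ | d < Metric.infDist z K} := ⟨_, rfl⟩
  have hOo : IsOpen O := by
    rw [hO]
    exact isOpen_lt continuous_const (Metric.continuous_infDist_pt K)
  obtain ⟨W, hW⟩ : ∃ W, W = connectedComponentIn O p := ⟨_, rfl⟩
  have hWo : IsOpen W := by rw [hW]; exact hOo.connectedComponentIn
  have hout : {z : ℂ | R + 1 < ‖z‖} ⊆ W := by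
    rw [hW]
    refine (compl_ball_pre (by linarith)).subset_connectedComponentIn ?_ ?_
    · change R + 1 < ‖p‖
      linarith
    · intro z hz
      rw [hO]
      exact lt_of_le_of_lt e4 (infDist_lt_of_norm hR hK.zero hz)
  have hmem : ∀ (S : Set ℂ) (d' : ℝ), d ≤ d' → IsPreconnected S → p ∈ S →
      (∀ z ∈ S, d' < Metric.infDist z K) → S ⊆ W := by
    intro S d' hdd hS hpS h
    rw [hW]
    refine hS.subset_connectedComponentIn hpS fun z hz => ?_
    rw [hO]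
    exact hdd.trans_lt (h z hz)
  refine ⟨Wᶜ, ?_, ?_, ?_, ?_, ?_, ?_⟩
  · refine (isCompact_closedBall (0 : ℂ) (R + 1)).of_isClosed_subset hWo.isClosed_compl ?_
    intro z hz
    rw [mem_closedBall_zero_iff]
    by_contra hcon
    push Not at hcon
    exact hz (hout hcon)
  · rw [compl_compl, hW]
    exact isPreconnected_connectedComponentIn
  · have hsub : {z : ℂ | Metric.infDist z K < d} ⊆ Wᶜ := by
      intro z hz hzW
      rw [hW] at hzW
      have := connectedComponentIn_subset _ _ hzW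
      rw [hO] at this
      exact lt_asymm (show Metric.infDist z K < d from hz) (show d < Metric.infDist z K from this)
    refine subset_trans ?_ (interior_maximal hsub
      (isOpen_lt (Metric.continuous_infDist_pt K) continuous_const))
    intro z hz
    change Metric.infDist z K < d
    rw [Metric.infDist_zero_of_mem hz]
    exact hd0
  · exact fun h => h (hmem S1 d1 e1 hS1 hpS1 h1 haS)
  · exact fun h => h (hmem S2 d2 e2 hS2 hpS2 h2 hbS)
  · exact fun h => h (hmem S3 d3 e3 hS3 hpS3 h3 hcS)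

/-- a disc around the continuum which misses three given points -/
theorem exists_tight {K : Set ℂ} (hK : FC K) {a b c : ℂ} (ha : a ∉ K) (hb : b ∉ K) (hc : c ∉ K) :
    ∃ Q : ℂ ≃ₜ ℂ, Q 0 = 0 ∧ IsoId (toC Q) ∧ (∀ x ∈ K, ‖(Q⁻¹ : ℂ ≃ₜ ℂ) x‖ < 1) ∧
      1 < ‖(Q⁻¹ : ℂ ≃ₜ ℂ) a‖ ∧ 1 < ‖(Q⁻¹ : ℂ ≃ₜ ℂ) b‖ ∧ 1 < ‖(Q⁻¹ : ℂ ≃ₜ ℂ) c‖ := by
  obtain ⟨E, hE, hEcc, hKE, haE, hbE, hcE⟩ := exists_E hK ha hb hc
  have h0 : (0 : ℂ) ∈ interior E := hKE hK.zero
  obtain ⟨U, hU⟩ : ∃ U, U = connectedComponentIn (interior E) 0 := ⟨_, rfl⟩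
  have hUo : IsOpen U := by rw [hU]; exact isOpen_interior.connectedComponentIn
  have hUc : IsConnected U := by rw [hU]; exact isConnected_connectedComponentIn_iff.2 h0
  have h0U : (0 : ℂ) ∈ U := by rw [hU]; exact mem_connectedComponentIn h0
  have hUE : U ⊆ E := by
    rw [hU]
    exact (connectedComponentIn_subset _ _).trans interior_subset
  have hUne : U ≠ univ := by
    intro h
    rw [h] at hUE
    exact haE (hUE (mem_univ a))
  have hKU : K ⊆ U := by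
    rw [hU]
    exact hK.pre.subset_connectedComponentIn hK.zero hKE
  obtain ⟨φ, ψ, hR, hd, hφ0, hψ⟩ := exists_riem_hull' hUo hUc hUne
    (hull_of_compl (by rw [hU]; exact sphere_compl_comp hE hEcc h0)) h0U
  obtain ⟨ρ, hρ0, hρ1, hρ⟩ : ∃ ρ : ℝ, 0 ≤ ρ ∧ ρ < 1 ∧ ∀ w ∈ K, ‖ψ w‖ ≤ ρ := by
    obtain ⟨x, hx, hmax⟩ := hK.cpt.exists_isMaxOn ⟨0, hK.zero⟩
      (f := fun w => ‖ψ w‖) ((hR.cont.mono hKU).norm)
    exact ⟨‖ψ x‖, norm_nonneg _, hR.mapsInv _ (hKU hx), fun w hw => hmax hw⟩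
  obtain ⟨R, hRdef⟩ : ∃ R, R = (1 + ρ) / (1 - ρ) := ⟨_, rfl⟩
  have hρ2 : 0 < 1 - ρ := by linarith
  have hR0 : 0 < R := by rw [hRdef]; positivity
  obtain ⟨H, hH, hHe⟩ := exists_H hR hd R
  obtain ⟨Hi, hH1, hH2⟩ := hH.isHomeo
  let Q : ℂ ≃ₜ ℂ := (scaleH R hR0.ne').trans
    ⟨⟨H, Hi, hH2, hH1⟩, H.continuous, Hi.continuous⟩
  have hQ : ∀ z, Q z = H (R * z) := fun z => rfl
  have hQd : ∀ z, ‖z‖ ≤ 1 → Q z = φ (toDisc (R * z)) := by
    intro z hz
    rw [hQ, hHe]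
    rw [norm_mul, Complex.norm_real, Real.norm_of_nonneg hR0.le]
    nlinarith
  have hfar : ∀ a, a ∉ E → 1 < ‖(Q⁻¹ : ℂ ≃ₜ ℂ) a‖ := by
    intro a ha
    by_contra hcon
    push Not at hcon
    apply ha
    rw [← apply_inv_self' Q a, hQd _ hcon]
    exact hUE (hR.maps _ (norm_toDisc_lt _))
  refine ⟨Q, ?_, ?_, fun x hx => ?_, hfar a haE, hfar b hbE, hfar c hcE⟩
  · rw [hQd 0 (by simp), mul_zero]
    have : toDisc 0 = 0 := by simp [toDisc]
    rw [this, hφ0]
  · have h1 : IsoId (⟨fun z => (R : ℂ) * z + 0, by fun_prop⟩ : C(ℂ, ℂ)) :=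
      isoId_affine (d := 0) (by exact_mod_cast hR0.ne')
    have h2 := hH.comp h1
    have e : H.comp (⟨fun z => (R : ℂ) * z + 0, by fun_prop⟩ : C(ℂ, ℂ)) = toC Q := by
      ext z
      simp [hQ]
    rwa [e] at h2
  · obtain ⟨w, hw⟩ : ∃ w, w = ψ x := ⟨_, rfl⟩
    have hwρ : ‖w‖ ≤ ρ := by rw [hw]; exact hρ _ hx
    have hw1 : ‖w‖ < 1 := by linarith
    obtain ⟨y, hy⟩ : ∃ y, y = ofDisc w / R := ⟨_, rfl⟩
    have hRne : (R : ℂ) ≠ 0 := by exact_mod_cast hR0.ne'
    have hRy : (R : ℂ) * y = ofDisc w := by rw [hy]; field_simp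
    have hyn : ‖y‖ < 1 := by
      rw [hy, norm_div, Complex.norm_real, Real.norm_of_nonneg hR0.le, div_lt_one hR0]
      have e1 : ‖ofDisc w‖ = ‖w‖ / (1 - ‖w‖) := by
        rw [ofDisc, norm_div, Complex.norm_real, Real.norm_of_nonneg (by linarith)]
      rw [e1, hRdef, div_lt_div_iff₀ (by linarith) hρ2]
      nlinarith [norm_nonneg w]
    have hQy : Q y = x := by
      rw [hQd y hyn.le, hRy, toDisc_ofDisc hw1, hw, hR.right _ (hKU hx)]
    rw [← hQy, inv_apply_self']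
    exact hyn

/-- filling the holes of a continuum -/
theorem exists_fillFC {A : Set ℂ} (hA : IsCompact A) (hAp : IsPreconnected A) (h0 : (0 : ℂ) ∈ A) :
    ∃ K : Set ℂ, FC K ∧ A ⊆ K ∧ ∀ D : Set ℂ, IsCompact D → IsPreconnected Dᶜ → A ⊆ D → K ⊆ D := by
  obtain ⟨R, hR⟩ := hA.isBounded.subset_closedBall (0 : ℂ)
  have hR0 : 0 ≤ R := by
    have := hR h0
    rwa [mem_closedBall_zero_iff, norm_zero] at this
  obtain ⟨p, hp⟩ : ∃ p : ℂ, p = ((R + 1 : ℝ) : ℂ) := ⟨_, rfl⟩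
  have hpn : ‖p‖ = R + 1 := by
    rw [hp, Complex.norm_real, Real.norm_eq_abs, abs_of_pos (by linarith)]
  have hpA : p ∉ A := fun h => by
    have := mem_closedBall_zero_iff.1 (hR h)
    linarith
  obtain ⟨W, hW⟩ : ∃ W, W = connectedComponentIn Aᶜ p := ⟨_, rfl⟩
  have hWo : IsOpen W := by rw [hW]; exact hA.isClosed.isOpen_compl.connectedComponentIn
  have hout : {z : ℂ | R < ‖z‖} ⊆ W := by
    rw [hW]
    refine (compl_ball_pre hR0).subset_connectedComponentIn ?_ ?_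
    · change R < ‖p‖
      linarith
    · intro z hz hzA
      have := mem_closedBall_zero_iff.1 (hR hzA)
      exact absurd hz (not_lt.2 this)
  have hAW : A ⊆ Wᶜ := by
    intro z hz hzW
    rw [hW] at hzW
    exact connectedComponentIn_subset _ _ hzW hz
  refine ⟨Wᶜ, ⟨?_, ?_, ?_, hAW h0⟩, hAW, fun D hD hDp hAD => ?_⟩
  · refine (isCompact_closedBall (0 : ℂ) R).of_isClosed_subset hWo.isClosed_compl ?_
    intro z hz
    rw [mem_closedBall_zero_iff]
    by_contra hcon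
    push Not at hcon
    exact hz (hout hcon)
  · rw [hW]
    exact compl_component_preconnected hAp hpA (hW ▸ hWo)
  · rw [compl_compl, hW]
    exact isPreconnected_connectedComponentIn
  · obtain ⟨R', hR'⟩ := hD.isBounded.subset_closedBall (0 : ℂ)
    obtain ⟨q, hq⟩ : ∃ q : ℂ, q = ((|R'| + R + 1 : ℝ) : ℂ) := ⟨_, rfl⟩
    have hqn : ‖q‖ = |R'| + R + 1 := by
      rw [hq, Complex.norm_real, Real.norm_eq_abs, abs_of_pos (by positivity)]
    have hqD : q ∉ D := fun h => by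
      have := mem_closedBall_zero_iff.1 (hR' h)
      linarith [le_abs_self R']
    have hqW : q ∈ W := hout (by
      change R < ‖q‖
      rw [hqn]
      linarith [abs_nonneg R'])
    have hDW : Dᶜ ⊆ W := by
      have h1 : Dᶜ ⊆ connectedComponentIn Aᶜ q :=
        hDp.subset_connectedComponentIn hqD (compl_subset_compl.2 hAD)
      rw [hW] at hqW ⊢
      rwa [connectedComponentIn_eq hqW]
    rw [compl_subset_comm]
    exact hDW

end Pool.Agent.Helper984_CP
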