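import Pool.Agent.Helper984_CP.TB1

/-!
# Branches at points on the boundary of a disc
-/

set_option autoImplicit false

open Set Filter Topology Complex

noncomputable section

namespace Pool.Agent.Helper984_CP

/-- the logarithm of difference quotients, as a total function -/
def lp (ℓ : C(Conf, ℂ)) (z w : ℂ) : ℂ := by
  classical
  exact if h : z ≠ w then ℓ ⟨(z, w), h⟩ else 0

theorem lp_eq {ℓ : C(Conf, ℂ)} {z w : ℂ} (h : z ≠ w) : lp ℓ z w = ℓ ⟨(z, w), h⟩ := by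
  unfold lp
  rw [dif_pos h]

theorem lp_rot0 (ℓ : C(Conf, ℂ)) (z : ℂ) : lp ℓ z 0 = rot0 ℓ z := by
  by_cases h : z = 0
  · rw [h]
    unfold lp rot0
    rw [dif_neg (by simp)]
  · rw [lp_eq h, rot0_eq h]

theorem lp_cont {ℓ : C(Conf, ℂ)} : ContinuousOn (fun q : ℂ × ℂ => lp ℓ q.1 q.2)
    {q | q.1 ≠ q.2} := by
  rw [continuousOn_iff_continuous_domRestrict]
  refine ℓ.continuous.congr fun x => ?_
  exact (lp_eq x.2).symm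

theorem isOpen_conf : IsOpen {q : ℂ × ℂ | q.1 ≠ q.2} :=
  isOpen_ne_fun continuous_fst continuous_snd

theorem lp_symm {f : C(ℂ, ℂ)} {ℓ : C(Conf, ℂ)} (hf : LogDiff f ℓ) (z w : ℂ) :
    lp ℓ z w = lp ℓ w z := by
  by_cases h : z = w
  · rw [h]
  · rw [lp_eq h, lp_eq (Ne.symm h)]
    exact hf.symm h

theorem lp_exp {f : ℂ → ℂ} {ℓ : C(Conf, ℂ)} (hf : LogDiff f ℓ) {z w : ℂ} (h : z ≠ w) :
    cexp (lp ℓ z w) * (z - w) = f z - f w := by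
  rw [lp_eq h]
  exact hf ⟨(z, w), h⟩

theorem re_pos_of_le {z w : ℂ} (h : ‖z‖ ≤ ‖w‖) (hne : z ≠ w) : 0 < (1 - z / w).re := by
  have hw0 : w ≠ 0 := by
    intro h0
    rw [h0, norm_zero] at h
    exact hne ((norm_le_zero_iff.1 h).trans h0.symm)
  have h1 : ‖z / w‖ ≤ 1 := by
    rw [norm_div, div_le_one (norm_pos_iff.2 hw0)]
    exact h
  rw [Complex.sub_re, Complex.one_re, sub_pos]
  refine lt_of_le_of_ne ((Complex.re_le_norm _).trans h1) fun h => ?_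
  have h2 : (z / w).im = 0 := by
    have h3 := Complex.sq_norm (z / w)
    rw [Complex.normSq_apply, h] at h3
    nlinarith [norm_nonneg (z / w)]
  have h4 : z / w = 1 := Complex.ext h h2
  rw [div_eq_one_iff_eq hw0] at h4
  exact hne h4

theorem log_half {z : ℂ} (h : 0 < z.re) : |(Complex.log z).im| < Real.pi / 2 := by
  rw [Complex.log_im]
  exact Complex.abs_arg_lt_pi_div_two_iff.2 (Or.inl h)

theorem br_ball {K : Set ℂ} (hK : FC K) {w : ℂ} (hw : w ∉ K) (h : ∀ x ∈ K, ‖x‖ ≤ ‖w‖) {z : ℂ}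
    (hz : z ∈ K) : br K w z = Complex.log (1 - z / w) := by
  have hw0 : w ≠ 0 := hK.ne hw
  have hre : ∀ x ∈ K, 0 < (1 - x / w).re := fun x hx =>
    re_pos_of_le (h x hx) fun e => hw (e ▸ hx)
  refine br_eq hK hw subset_rfl hK.pre hK.zero (φ := fun x => Complex.log (1 - x / w))
    ⟨?_, ?_, ?_⟩ hz
  · intro x hx
    refine ContinuousWithinAt.clog ?_ (Or.inl (hre x hx))
    exact continuousWithinAt_const.sub (continuousWithinAt_id.div_const w)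
  · simp
  · intro x hx
    change cexp (Complex.log (1 - x / w)) * w = w - x
    rw [Complex.exp_log (slitPlane_ne_zero (Or.inl (hre x hx)))]
    field_simp

/-- the branch of `log ((T ξ - z) / T ξ)` on the image of the round disc through `ξ` -/
def Fl (T : ℂ ≃ₜ ℂ) (ℓ : C(Conf, ℂ)) (ξ z : ℂ) : ℂ :=
  Complex.log (1 - (T⁻¹ : ℂ ≃ₜ ℂ) z / ξ) + lp ℓ ((T⁻¹ : ℂ ≃ₜ ℂ) z) ξ - lp ℓ 0 ξ

theorem br_Fl {B : Set ℂ} (hB : FC B) {T : ℂ ≃ₜ ℂ} (hT : T 0 = 0) {ℓ : C(Conf, ℂ)}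
    (hℓ : LogDiff (toC T) ℓ) {ξ : ℂ} (hξ : T ξ ∉ B)
    (hBT : ∀ x ∈ B, ‖(T⁻¹ : ℂ ≃ₜ ℂ) x‖ ≤ ‖ξ‖) {z : ℂ} (hz : z ∈ B) :
    br B (T ξ) z = Fl T ℓ ξ z := by
  have hTi : (T⁻¹ : ℂ ≃ₜ ℂ) 0 = 0 := symm_fix hT
  obtain ⟨B', hB'⟩ : ∃ B', B' = (T⁻¹ : ℂ ≃ₜ ℂ) '' B := ⟨_, rfl⟩
  have hB'F : FC B' := by rw [hB']; exact hB.image hTi
  have hTB : T '' B' = B := by
    rw [hB', image_image]
    have e : (fun x => T ((T⁻¹ : ℂ ≃ₜ ℂ) x)) = id := by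
      funext x
      exact apply_inv_self' T x
    rw [e, image_id]
  have hξB : ξ ∉ B' := by
    intro h
    rw [hB'] at h
    obtain ⟨x, hx, hxξ⟩ := h
    rw [← hxξ, apply_inv_self'] at hξ
    exact hξ hx
  have hzB : (T⁻¹ : ℂ ≃ₜ ℂ) z ∈ B' := by rw [hB']; exact mem_image_of_mem _ hz
  have hne : (T⁻¹ : ℂ ≃ₜ ℂ) z ≠ ξ := fun e => hξB (e ▸ hzB)
  have h1 := br_equi hB'F hξB hT hℓ hzB hne
  rw [hTB, apply_inv_self'] at h1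
  rw [h1, Fl, lp_eq hne, lp_eq (hB'F.ne hξB).symm, br_ball hB'F hξB (fun x hx => ?_) hzB]
  rw [hB'] at hx
  obtain ⟨y, hy, rfl⟩ := hx
  exact hBT y hy

theorem Fl_cont {T : ℂ ≃ₜ ℂ} {ℓ : C(Conf, ℂ)} {ξ z : ℂ} (hξ : ξ ≠ 0)
    (h : ‖(T⁻¹ : ℂ ≃ₜ ℂ) z‖ ≤ ‖ξ‖) (hne : (T⁻¹ : ℂ ≃ₜ ℂ) z ≠ ξ) :
    ContinuousAt (fun t : ℝ => Fl T ℓ (((1 + t : ℝ) : ℂ) * ξ) z) 0 := by
  have e0 : (((1 + (0 : ℝ) : ℝ) : ℂ) * ξ) = ξ := by simp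
  have hc : ContinuousAt (fun t : ℝ => ((1 + t : ℝ) : ℂ) * ξ) 0 := by fun_prop
  unfold Fl
  refine ContinuousAt.sub (ContinuousAt.add ?_ ?_) ?_
  · refine ContinuousAt.clog ?_ ?_
    · refine continuousAt_const.sub (continuousAt_const.div hc ?_)
      rw [e0]
      exact hξ
    · rw [e0]
      exact Or.inl (re_pos_of_le h hne)
  · have h1 : ContinuousAt (fun q : ℂ × ℂ => lp ℓ q.1 q.2) ((T⁻¹ : ℂ ≃ₜ ℂ) z, ξ) :=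
      lp_cont.continuousAt (isOpen_conf.mem_nhds hne)
    have h2 : ContinuousAt (fun t : ℝ => ((T⁻¹ : ℂ ≃ₜ ℂ) z, ((1 + t : ℝ) : ℂ) * ξ)) 0 :=
      continuousAt_const.prodMk hc
    exact ContinuousAt.comp_of_eq h1 h2 (by rw [e0])
  · have h1 : ContinuousAt (fun q : ℂ × ℂ => lp ℓ q.1 q.2) (0, ξ) :=
      lp_cont.continuousAt (isOpen_conf.mem_nhds hξ.symm)
    have h2 : ContinuousAt (fun t : ℝ => ((0 : ℂ), ((1 + t : ℝ) : ℂ) * ξ)) 0 :=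
      continuousAt_const.prodMk hc
    exact ContinuousAt.comp_of_eq h1 h2 (by rw [e0])

theorem lp_comp {T : ℂ ≃ₜ ℂ} {ℓS ℓT : C(Conf, ℂ)} (hT : LogDiff (toC T) ℓT) {z w : ℂ}
    (h : z ≠ w) : lp (ℓS.comp (Conf.map (toC T) hT.inj) + ℓT) z w =
      lp ℓS (T z) (T w) + lp ℓT z w := by
  rw [lp_eq h, lp_eq h, lp_eq (fun e => h (T.injective e))]
  rfl

/-- behaviour under a homeomorphism -/
theorem Fl_comp {S T : ℂ ≃ₜ ℂ} {ℓS ℓT : C(Conf, ℂ)} (hT : LogDiff (toC T) ℓT) (hT0 : T 0 = 0)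
    {ξ z : ℂ} (hξ : ξ ≠ 0) (hz : z ≠ T ξ) :
    Fl (S * T) (ℓS.comp (Conf.map (toC T) hT.inj) + ℓT) ξ (S z) =
      Fl T ℓT ξ z + lp ℓS z (T ξ) - lp ℓS 0 (T ξ) := by
  have e : ((S * T)⁻¹ : ℂ ≃ₜ ℂ) (S z) = (T⁻¹ : ℂ ≃ₜ ℂ) z := by
    rw [mul_inv_rev, mul_apply', inv_apply_self']
  have hne : (T⁻¹ : ℂ ≃ₜ ℂ) z ≠ ξ := by
    intro h
    apply hz
    rw [← h, apply_inv_self']
  unfold Fl
  rw [e, lp_comp hT hne, lp_comp hT hξ.symm, apply_inv_self', hT0]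
  ring

/-- moving the endpoint along a small connected set -/
theorem half_pair {Q : ℂ ≃ₜ ℂ} {ℓ : C(Conf, ℂ)} (hℓ : LogDiff (toC Q) ℓ) {y p' y' : ℂ}
    (hy0 : (Q⁻¹ : ℂ ≃ₜ ℂ) y ≠ 0) {C' : Set ℂ} (hC' : IsPreconnected C') (hpC' : p' ∈ C')
    (hyC' : y' ∈ C') (hCQ' : ∀ x ∈ C', ‖(Q⁻¹ : ℂ ≃ₜ ℂ) x‖ ≤ ‖(Q⁻¹ : ℂ ≃ₜ ℂ) y‖)
    (hδ' : ∀ x ∈ C', ‖x - p'‖ < ‖y - p'‖) :
    |(Fl Q ℓ ((Q⁻¹ : ℂ ≃ₜ ℂ) y) y' - Fl Q ℓ ((Q⁻¹ : ℂ ≃ₜ ℂ) y) p').im| < Real.pi / 2 := by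
  obtain ⟨ζ, hζ⟩ : ∃ ζ, ζ = (Q⁻¹ : ℂ ≃ₜ ℂ) y := ⟨_, rfl⟩
  have hQζ : Q ζ = y := by rw [hζ, apply_inv_self']
  rw [← hζ] at hy0 hCQ' ⊢
  have hyp : y - p' ≠ 0 := by
    intro h
    have := hδ' p' hpC'
    rw [h, norm_zero] at this
    exact absurd this (not_lt.2 (norm_nonneg _))
  have hne : ∀ x ∈ C', (Q⁻¹ : ℂ ≃ₜ ℂ) x ≠ ζ := by
    intro x hx h
    have h1 := hδ' x hx
    have : x = y := by rw [← hQζ, ← h, apply_inv_self']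
    rw [this] at h1
    exact lt_irrefl _ h1
  have hre : ∀ x ∈ C', 0 < (1 - (x - p') / (y - p')).re := by
    intro x hx
    refine re_pos_of_le (hδ' x hx).le fun h => ?_
    have := hδ' x hx
    rw [h] at this
    exact lt_irrefl _ this
  have key := exp_rigid_on hC' (u := fun x => Fl Q ℓ ζ x)
    (v := fun x => Complex.log (1 - (x - p') / (y - p')) +
      (Complex.log ((y - p') / ζ) - lp ℓ 0 ζ)) ?_ ?_ ?_ hyC' hpC'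
  · simp only [sub_self, zero_div, sub_zero, Complex.log_one, zero_add] at key
    have e : Fl Q ℓ ζ y' - Fl Q ℓ ζ p' = Complex.log (1 - (y' - p') / (y - p')) := by
      linear_combination key
    rw [e]
    exact log_half (hre y' hyC')
  · intro x hx
    have hQx : ContinuousWithinAt (fun x => (Q⁻¹ : ℂ ≃ₜ ℂ) x) C' x :=
      (Q⁻¹ : ℂ ≃ₜ ℂ).continuous.continuousWithinAt
    refine ContinuousWithinAt.sub (ContinuousWithinAt.add ?_ ?_) continuousWithinAt_const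
    · refine ContinuousWithinAt.clog ?_ (Or.inl (re_pos_of_le (hCQ' x hx) (hne x hx)))
      exact continuousWithinAt_const.sub (hQx.div_const ζ)
    · have h1 : ContinuousAt (fun q : ℂ × ℂ => lp ℓ q.1 q.2) ((Q⁻¹ : ℂ ≃ₜ ℂ) x, ζ) :=
        lp_cont.continuousAt (isOpen_conf.mem_nhds (hne x hx))
      have h2 : ContinuousWithinAt (fun x => ((Q⁻¹ : ℂ ≃ₜ ℂ) x, ζ)) C' x :=
        hQx.prodMk continuousWithinAt_const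
      exact ContinuousAt.comp_continuousWithinAt (f := fun x => ((Q⁻¹ : ℂ ≃ₜ ℂ) x, ζ)) h1 h2
  · refine ContinuousOn.add ?_ continuousOn_const
    intro x hx
    refine ContinuousWithinAt.clog ?_ (Or.inl (hre x hx))
    exact continuousWithinAt_const.sub ((continuousWithinAt_id.sub continuousWithinAt_const).div_const _)
  · intro x hx
    have h1 := lp_exp hℓ (hne x hx)
    have e1 : toC Q ((Q⁻¹ : ℂ ≃ₜ ℂ) x) = x := apply_inv_self' Q x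
    have e2 : toC Q ζ = y := hQζ
    rw [e1, e2] at h1
    simp only [Fl]
    rw [Complex.exp_sub, Complex.exp_add, Complex.exp_add, Complex.exp_sub,
      Complex.exp_log (slitPlane_ne_zero (Or.inl (re_pos_of_le (hCQ' x hx) (hne x hx)))),
      Complex.exp_log (slitPlane_ne_zero (Or.inl (hre x hx))),
      Complex.exp_log (div_ne_zero hyp hy0)]
    have h3 := Complex.exp_ne_zero (lp ℓ 0 ζ)
    have h4 : (1 - (Q⁻¹ : ℂ ≃ₜ ℂ) x / ζ) * cexp (lp ℓ ((Q⁻¹ : ℂ ≃ₜ ℂ) x) ζ) = (y - x) / ζ := by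
      field_simp
      linear_combination -h1
    rw [h4]
    field_simp
    ring

/-- the comparison for two points -/
theorem pair_bound {K : Set ℂ} (hK : FC K) {Q : ℂ ≃ₜ ℂ} (hQ : Q 0 = 0) {ℓ : C(Conf, ℂ)}
    (hℓ : LogDiff (toC Q) ℓ) (hKQ : ∀ x ∈ K, ‖(Q⁻¹ : ℂ ≃ₜ ℂ) x‖ < 1) {p y p' y' : ℂ}
    (hp : p ∈ K) (hp' : p' ∈ K) (hy : ‖(Q⁻¹ : ℂ ≃ₜ ℂ) y‖ = 1) (hy' : ‖(Q⁻¹ : ℂ ≃ₜ ℂ) y'‖ = 1)
    {C C' : Set ℂ} (hC : IsPreconnected C) (hC' : IsPreconnected C') (hpC : p ∈ C) (hyC : y ∈ C)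
    (hpC' : p' ∈ C') (hyC' : y' ∈ C') (hCQ : ∀ x ∈ C, ‖(Q⁻¹ : ℂ ≃ₜ ℂ) x‖ ≤ 1)
    (hCQ' : ∀ x ∈ C', ‖(Q⁻¹ : ℂ ≃ₜ ℂ) x‖ ≤ 1) {δ : ℝ} (hδ : ∀ x ∈ C, ‖x - p‖ < δ)
    (hδ' : ∀ x ∈ C', ‖x - p'‖ < δ) (hpp : 2 * δ ≤ ‖p - p'‖) :
    |(br K y p' - br K y' p + lp ℓ 0 ((Q⁻¹ : ℂ ≃ₜ ℂ) y) - lp ℓ 0 ((Q⁻¹ : ℂ ≃ₜ ℂ) y')).im| <
      2 * Real.pi := by
  have hne0 : ∀ {y : ℂ}, ‖(Q⁻¹ : ℂ ≃ₜ ℂ) y‖ = 1 → (Q⁻¹ : ℂ ≃ₜ ℂ) y ≠ 0 := by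
    intro y hy h
    rw [h, norm_zero] at hy
    exact zero_ne_one hy
  have hnK : ∀ {y : ℂ}, ‖(Q⁻¹ : ℂ ≃ₜ ℂ) y‖ = 1 → y ∉ K := by
    intro y hy h
    have := hKQ y h
    rw [hy] at this
    exact lt_irrefl _ this
  have hbr : ∀ {y : ℂ}, ‖(Q⁻¹ : ℂ ≃ₜ ℂ) y‖ = 1 → ∀ z ∈ K, br K y z = Fl Q ℓ ((Q⁻¹ : ℂ ≃ₜ ℂ) y) z := by
    intro y hy z hz
    have h1 := br_Fl hK hQ hℓ (ξ := (Q⁻¹ : ℂ ≃ₜ ℂ) y) (by rw [apply_inv_self']; exact hnK hy)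
      (fun x hx => by rw [hy]; exact (hKQ x hx).le) hz
    rwa [apply_inv_self'] at h1
  have d1 : δ < ‖y - p'‖ := by
    have h1 := hδ y hyC
    have h2 : ‖p - p'‖ ≤ ‖y - p'‖ + ‖y - p‖ := by
      have e : p - p' = (y - p') - (y - p) := by ring
      rw [e]
      exact norm_sub_le _ _
    linarith
  have d2 : δ < ‖y' - p‖ := by
    have h1 := hδ' y' hyC'
    have h2 : ‖p - p'‖ ≤ ‖y' - p'‖ + ‖y' - p‖ := by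
      have e : p - p' = (y' - p') - (y' - p) := by ring
      rw [e]
      exact norm_sub_le _ _
    linarith
  have hyy : (Q⁻¹ : ℂ ≃ₜ ℂ) y ≠ (Q⁻¹ : ℂ ≃ₜ ℂ) y' := by
    intro h
    have h1 : y = y' := (Q⁻¹ : ℂ ≃ₜ ℂ).injective h
    have h2 := hδ' y' hyC'
    rw [← h1] at h2
    linarith
  have a1 := half_pair hℓ (y := y) (hne0 hy) hC' hpC' hyC' (fun x hx => by rw [hy]; exact hCQ' x hx)
    (fun x hx => (hδ' x hx).trans d1)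
  have a2 := half_pair hℓ (y := y') (hne0 hy') hC hpC hyC (fun x hx => by rw [hy']; exact hCQ x hx)
    (fun x hx => (hδ x hx).trans d2)
  rw [hbr hy p' hp', hbr hy' p hp]
  have e1 : Fl Q ℓ ((Q⁻¹ : ℂ ≃ₜ ℂ) y) y' - Fl Q ℓ ((Q⁻¹ : ℂ ≃ₜ ℂ) y') y +
      lp ℓ 0 ((Q⁻¹ : ℂ ≃ₜ ℂ) y) - lp ℓ 0 ((Q⁻¹ : ℂ ≃ₜ ℂ) y') =
      Complex.log (1 - (Q⁻¹ : ℂ ≃ₜ ℂ) y' / (Q⁻¹ : ℂ ≃ₜ ℂ) y) -
        Complex.log (1 - (Q⁻¹ : ℂ ≃ₜ ℂ) y / (Q⁻¹ : ℂ ≃ₜ ℂ) y') := by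
    unfold Fl
    rw [lp_symm hℓ ((Q⁻¹ : ℂ ≃ₜ ℂ) y') ((Q⁻¹ : ℂ ≃ₜ ℂ) y)]
    ring
  have b1 := log_half (re_pos_of_le (z := (Q⁻¹ : ℂ ≃ₜ ℂ) y') (w := (Q⁻¹ : ℂ ≃ₜ ℂ) y)
    (by rw [hy, hy']) hyy.symm)
  have b2 := log_half (re_pos_of_le (z := (Q⁻¹ : ℂ ≃ₜ ℂ) y) (w := (Q⁻¹ : ℂ ≃ₜ ℂ) y')
    (by rw [hy, hy']) hyy)
  have e1' := congrArg Complex.im e1
  simp only [Complex.add_im, Complex.sub_im] at e1' a1 a2 ⊢
  rw [abs_lt] at *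
  constructor <;> linarith

end Pool.Agent.Helper984_CP
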