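import Pool.Agent.Helper984_CP.TB2

/-!
# The bound for three points on the boundaries of discs around a continuum
-/

set_option autoImplicit false

open Set Filter Topology Complex

noncomputable section

namespace Pool.Agent.Helper984_CP

/-- the point `T ξ` of `K` lies on the boundary of a disc which contains `K` -/
structure Flag (K : Set ℂ) (T : ℂ ≃ₜ ℂ) (ℓ : C(Conf, ℂ)) (ξ : ℂ) : Prop where
  zero : T 0 = 0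
  log : LogDiff (toC T) ℓ
  ne : ξ ≠ 0
  sub : ∀ x ∈ K, ‖(T⁻¹ : ℂ ≃ₜ ℂ) x‖ ≤ ‖ξ‖
  mem : T ξ ∈ K

theorem exists_first {f : ℝ → ℝ} {s : ℝ} (hs : 0 < s) (hf : ContinuousOn f (Icc 0 s))
    (h0 : f 0 < 1) (h1 : 1 < f s) : ∃ t, 0 < t ∧ t ≤ s ∧ f t = 1 ∧ ∀ u ∈ Icc 0 t, f u ≤ 1 := by
  obtain ⟨S, hS⟩ : ∃ S, S = {t ∈ Icc 0 s | f t = 1} := ⟨_, rfl⟩
  have hSne : S.Nonempty := by
    obtain ⟨t, ht, hft⟩ := intermediate_value_Icc hs.le hf ⟨h0.le, h1.le⟩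
    exact ⟨t, by rw [hS]; exact ⟨ht, hft⟩⟩
  have hSc : IsCompact S := by
    have h2 : IsClosed S := by
      rw [hS]
      exact hf.preimage_isClosed_of_isClosed isClosed_Icc isClosed_singleton
    exact isCompact_Icc.of_isClosed_subset h2 (by rw [hS]; exact sep_subset _ _)
  obtain ⟨t, htS, htl⟩ := hSc.exists_isLeast hSne
  have ht := htS
  rw [hS] at ht
  have ht0 : 0 < t := by
    refine lt_of_le_of_ne ht.1.1 fun h => ?_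
    rw [← h] at ht
    linarith [ht.2]
  refine ⟨t, ht0, ht.1.2, ht.2, fun u hu => ?_⟩
  by_contra hcon
  push Not at hcon
  obtain ⟨v, hv, hfv⟩ := intermediate_value_Icc hu.1
    (hf.mono (Icc_subset_Icc_right (hu.2.trans ht.1.2))) ⟨h0.le, hcon.le⟩
  have hvS : v ∈ S := by
    rw [hS]
    exact ⟨⟨hv.1, hv.2.trans (hu.2.trans ht.1.2)⟩, hfv⟩
  have h2 := htl hvS
  have h3 : v = t := le_antisymm (hv.2.trans hu.2) h2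
  have h4 : u = t := le_antisymm hu.2 (h3 ▸ hv.2)
  rw [h4, ht.2] at hcon
  exact lt_irrefl _ hcon

theorem Flag.data {K : Set ℂ} (hK : FC K) {T : ℂ ≃ₜ ℂ} {ℓ : C(Conf, ℂ)} {ξ : ℂ}
    (h : Flag K T ℓ ξ) {q q' : ℂ} (hq : q ∈ K) (hq' : q' ∈ K) (hne : T ξ ≠ q) (hne' : T ξ ≠ q')
    {δ : ℝ} (hδ : 0 < δ) : ∃ a, a ∉ K ∧ ∀ Q : ℂ ≃ₜ ℂ, (∀ x ∈ K, ‖(Q⁻¹ : ℂ ≃ₜ ℂ) x‖ < 1) →
      1 < ‖(Q⁻¹ : ℂ ≃ₜ ℂ) a‖ → ∃ (y : ℂ) (C : Set ℂ), ‖(Q⁻¹ : ℂ ≃ₜ ℂ) y‖ = 1 ∧ IsPreconnected C ∧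
        T ξ ∈ C ∧ y ∈ C ∧ (∀ x ∈ C, ‖(Q⁻¹ : ℂ ≃ₜ ℂ) x‖ ≤ 1) ∧ (∀ x ∈ C, ‖x - T ξ‖ < δ) ∧
        ‖br K y q - Fl T ℓ ξ q‖ < 1 / 2 ∧ ‖br K y q' - Fl T ℓ ξ q'‖ < 1 / 2 := by
  obtain ⟨c, hc⟩ : ∃ c : ℝ → ℂ, c = fun t => T (((1 + t : ℝ) : ℂ) * ξ) := ⟨_, rfl⟩
  have hcc : Continuous c := by
    rw [hc]
    exact T.continuous.comp (by fun_prop)
  have hc0 : c 0 = T ξ := by rw [hc]; simp
  have hout : ∀ t : ℝ, 0 < t → c t ∉ K := by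
    intro t ht hcK
    have h1 := h.sub _ hcK
    rw [hc] at h1
    simp only at h1
    rw [inv_apply_self', norm_mul, Complex.norm_real, Real.norm_of_nonneg (by linarith)] at h1
    have h2 : 0 < ‖ξ‖ := norm_pos_iff.2 h.ne
    nlinarith
  have hTi : ∀ {q : ℂ}, T ξ ≠ q → (T⁻¹ : ℂ ≃ₜ ℂ) q ≠ ξ := by
    intro q hne e
    rw [← e, apply_inv_self'] at hne
    exact hne rfl
  have hbr : ∀ t : ℝ, 0 < t → ∀ z ∈ K, br K (c t) z = Fl T ℓ (((1 + t : ℝ) : ℂ) * ξ) z := by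
    intro t ht z hz
    have h1 := hout t ht
    rw [hc] at h1 ⊢
    refine br_Fl hK h.zero h.log h1 (fun x hx => (h.sub x hx).trans ?_) hz
    rw [norm_mul, Complex.norm_real, Real.norm_of_nonneg (by linarith)]
    nlinarith [norm_nonneg ξ]
  have e0 : (((1 + (0 : ℝ) : ℝ) : ℂ) * ξ) = ξ := by simp
  have c1 := Fl_cont (ℓ := ℓ) h.ne (h.sub q hq) (hTi hne)
  have c2 := Fl_cont (ℓ := ℓ) h.ne (h.sub q' hq') (hTi hne')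
  have v1 := Metric.continuousAt_iff.1 c1 (1 / 2) (by norm_num)
  have v2 := Metric.continuousAt_iff.1 c2 (1 / 2) (by norm_num)
  have v3 := Metric.continuousAt_iff.1 (hcc.continuousAt (x := 0)) δ hδ
  obtain ⟨r1, hr1, w1⟩ := v1
  obtain ⟨r2, hr2, w2⟩ := v2
  obtain ⟨r3, hr3, w3⟩ := v3
  obtain ⟨s, hs⟩ : ∃ s, s = min r1 (min r2 r3) / 2 := ⟨_, rfl⟩
  have hm : 0 < min r1 (min r2 r3) := lt_min hr1 (lt_min hr2 hr3)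
  have hs0 : 0 < s := by rw [hs]; exact half_pos hm
  have hs1 : s < min r1 (min r2 r3) := by rw [hs]; exact half_lt_self hm
  have s1 : s < r1 := hs1.trans_le (min_le_left _ _)
  have s2 : s < r2 := hs1.trans_le ((min_le_right _ _).trans (min_le_left _ _))
  have s3 : s < r3 := hs1.trans_le ((min_le_right _ _).trans (min_le_right _ _))
  refine ⟨c s, hout s hs0, fun Q hQK hQa => ?_⟩
  obtain ⟨t, ht0, hts, hft, hfu⟩ := exists_first (f := fun u => ‖(Q⁻¹ : ℂ ≃ₜ ℂ) (c u)‖) hs0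
    (((Q⁻¹ : ℂ ≃ₜ ℂ).continuous.comp hcc).norm.continuousOn)
    (by
      rw [hc0]
      exact hQK _ h.mem) hQa
  have hd : ∀ {u r : ℝ}, 0 ≤ u → u ≤ s → s < r → dist u 0 < r := by
    intro u r hu hus hsr
    rw [dist_eq_norm, sub_zero, Real.norm_of_nonneg hu]
    exact hus.trans_lt hsr
  refine ⟨c t, c '' Icc 0 t, hft, isPreconnected_Icc.image _ hcc.continuousOn,
    ⟨0, ⟨le_rfl, ht0.le⟩, hc0⟩, ⟨t, ⟨ht0.le, le_rfl⟩, rfl⟩, ?_, ?_, ?_, ?_⟩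
  · rintro _ ⟨u, hu, rfl⟩
    exact hfu u hu
  · rintro _ ⟨u, hu, rfl⟩
    have := w3 (hd hu.1 (hu.2.trans hts) s3)
    rwa [dist_eq_norm, hc0] at this
  · have := w1 (hd ht0.le hts s1)
    rwa [dist_eq_norm, e0, ← hbr t ht0 q hq] at this
  · have := w2 (hd ht0.le hts s2)
    rwa [dist_eq_norm, e0, ← hbr t ht0 q' hq'] at this

/-- the triple bound -/
theorem triple {K : Set ℂ} (hK : FC K) {T1 T2 T3 : ℂ ≃ₜ ℂ} {ℓ1 ℓ2 ℓ3 : C(Conf, ℂ)}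
    {ξ1 ξ2 ξ3 : ℂ} (h1 : Flag K T1 ℓ1 ξ1) (h2 : Flag K T2 ℓ2 ξ2) (h3 : Flag K T3 ℓ3 ξ3)
    (h12 : T1 ξ1 ≠ T2 ξ2) (h23 : T2 ξ2 ≠ T3 ξ3) (h31 : T3 ξ3 ≠ T1 ξ1) :
    |((Fl T1 ℓ1 ξ1 (T2 ξ2) - Fl T2 ℓ2 ξ2 (T1 ξ1)) + (Fl T2 ℓ2 ξ2 (T3 ξ3) - Fl T3 ℓ3 ξ3 (T2 ξ2)) +
      (Fl T3 ℓ3 ξ3 (T1 ξ1) - Fl T1 ℓ1 ξ1 (T3 ξ3))).im| < 7 * Real.pi := by
  obtain ⟨p1, hp1⟩ : ∃ p, p = T1 ξ1 := ⟨_, rfl⟩
  obtain ⟨p2, hp2⟩ : ∃ p, p = T2 ξ2 := ⟨_, rfl⟩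
  obtain ⟨p3, hp3⟩ : ∃ p, p = T3 ξ3 := ⟨_, rfl⟩
  obtain ⟨δ, hδ⟩ : ∃ δ, δ = min ‖p1 - p2‖ (min ‖p2 - p3‖ ‖p3 - p1‖) / 2 := ⟨_, rfl⟩
  have m1 : p1 ∈ K := hp1 ▸ h1.mem
  have m2 : p2 ∈ K := hp2 ▸ h2.mem
  have m3 : p3 ∈ K := hp3 ▸ h3.mem
  rw [← hp1, ← hp2] at h12
  rw [← hp2, ← hp3] at h23
  rw [← hp3, ← hp1] at h31
  have hδ0 : 0 < δ := by
    rw [hδ]
    exact half_pos (lt_min (norm_pos_iff.2 (sub_ne_zero.2 h12))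
      (lt_min (norm_pos_iff.2 (sub_ne_zero.2 h23)) (norm_pos_iff.2 (sub_ne_zero.2 h31))))
  have g1 : 2 * δ ≤ ‖p1 - p2‖ := by
    have := min_le_left ‖p1 - p2‖ (min ‖p2 - p3‖ ‖p3 - p1‖)
    rw [hδ]; linarith
  have g2 : 2 * δ ≤ ‖p2 - p3‖ := by
    have := (min_le_right ‖p1 - p2‖ (min ‖p2 - p3‖ ‖p3 - p1‖)).trans (min_le_left _ _)
    rw [hδ]; linarith
  have g3 : 2 * δ ≤ ‖p3 - p1‖ := by
    have := (min_le_right ‖p1 - p2‖ (min ‖p2 - p3‖ ‖p3 - p1‖)).trans (min_le_right _ _)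
    rw [hδ]; linarith
  obtain ⟨a1, ha1, b1⟩ := h1.data hK m2 m3 (hp1 ▸ h12) (hp1 ▸ h31.symm) hδ0
  obtain ⟨a2, ha2, b2⟩ := h2.data hK m3 m1 (hp2 ▸ h23) (hp2 ▸ h12.symm) hδ0
  obtain ⟨a3, ha3, b3⟩ := h3.data hK m1 m2 (hp3 ▸ h31) (hp3 ▸ h23.symm) hδ0
  obtain ⟨Q, hQ0, hQI, hQK, q1, q2, q3⟩ := exists_tight hK ha1 ha2 ha3
  obtain ⟨ℓ, hℓ⟩ := hQI.exists_logDiff
  obtain ⟨y1, C1, hy1, hC1, hpC1, hyC1, hCQ1, hCδ1, f1, f1'⟩ := b1 Q hQK q1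
  obtain ⟨y2, C2, hy2, hC2, hpC2, hyC2, hCQ2, hCδ2, f2, f2'⟩ := b2 Q hQK q2
  obtain ⟨y3, C3, hy3, hC3, hpC3, hyC3, hCQ3, hCδ3, f3, f3'⟩ := b3 Q hQK q3
  rw [← hp1] at hpC1 hCδ1
  rw [← hp2] at hpC2 hCδ2
  rw [← hp3] at hpC3 hCδ3
  have P1 := pair_bound hK hQ0 hℓ hQK m1 m2 hy1 hy2 hC1 hC2 hpC1 hyC1 hpC2 hyC2 hCQ1 hCQ2 hCδ1
    hCδ2 g1
  have P2 := pair_bound hK hQ0 hℓ hQK m2 m3 hy2 hy3 hC2 hC3 hpC2 hyC2 hpC3 hyC3 hCQ2 hCQ3 hCδ2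
    hCδ3 g2
  have P3 := pair_bound hK hQ0 hℓ hQK m3 m1 hy3 hy1 hC3 hC1 hpC3 hyC3 hpC1 hyC1 hCQ3 hCQ1 hCδ3
    hCδ1 g3
  rw [← hp1, ← hp2, ← hp3]
  have n1 := (Complex.abs_im_le_norm _).trans_lt f1
  have n1' := (Complex.abs_im_le_norm _).trans_lt f1'
  have n2 := (Complex.abs_im_le_norm _).trans_lt f2
  have n2' := (Complex.abs_im_le_norm _).trans_lt f2'
  have n3 := (Complex.abs_im_le_norm _).trans_lt f3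
  have n3' := (Complex.abs_im_le_norm _).trans_lt f3'
  have hpi := Real.pi_gt_three
  simp only [Complex.add_im, Complex.sub_im] at P1 P2 P3 n1 n1' n2 n2' n3 n3' ⊢
  rw [abs_lt] at *
  constructor <;> linarith

end Pool.Agent.Helper984_CP
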