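import Pool.Agent.Helper984_CP.TB3

/-!
# Invariant continua on which a commuting map acts in opposite directions
-/

set_option autoImplicit false

open Set Filter Topology Complex

noncomputable section

namespace Pool.Agent.Helper984_CP

theorem Flag.mono {K K' : Set ℂ} {T : ℂ ≃ₜ ℂ} {ℓ : C(Conf, ℂ)} {ξ : ℂ} (h : Flag K T ℓ ξ)
    (hK : K' ⊆ K) (hm : T ξ ∈ K') : Flag K' T ℓ ξ :=
  ⟨h.zero, h.log, h.ne, fun x hx => h.sub x (hK hx), hm⟩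

/-- the difference quotient logarithm of a composition -/
def lc (ℓS : C(Conf, ℂ)) {T : ℂ ≃ₜ ℂ} {ℓT : C(Conf, ℂ)} (hT : LogDiff (toC T) ℓT) : C(Conf, ℂ) :=
  ℓS.comp (Conf.map (toC T) hT.inj) + ℓT

theorem Flag.image {K : Set ℂ} {T : ℂ ≃ₜ ℂ} {ℓ : C(Conf, ℂ)} {ξ : ℂ} (h : Flag K T ℓ ξ)
    {S : ℂ ≃ₜ ℂ} (hS0 : S 0 = 0) {ℓS : C(Conf, ℂ)} (hS : LogDiff (toC S) ℓS) :
    Flag (S '' K) (S * T) (lc ℓS h.log) ξ := by
  refine ⟨?_, hS.comp h.log, h.ne, ?_, ⟨_, h.mem, rfl⟩⟩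
  · rw [mul_apply', h.zero, hS0]
  · rintro _ ⟨x, hx, rfl⟩
    rw [mul_inv_rev, mul_apply', inv_apply_self']
    exact h.sub x hx

/-- filling the holes -/
theorem Flag.fill {A : Set ℂ} {K : Set ℂ} (hK : ∀ D : Set ℂ, IsCompact D → IsPreconnected Dᶜ →
    A ⊆ D → K ⊆ D) (hAK : A ⊆ K) {T : ℂ ≃ₜ ℂ} {ℓ : C(Conf, ℂ)} {ξ : ℂ} (h : Flag A T ℓ ξ) :
    Flag K T ℓ ξ := by
  refine ⟨h.zero, h.log, h.ne, fun x hx => ?_, hAK h.mem⟩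
  have h1 := hK (T '' Metric.closedBall 0 ‖ξ‖) ((isCompact_closedBall _ _).image T.continuous) (by
    rw [← image_compl_eq T.bijective]
    exact (ball_compl_pre (norm_pos_iff.2 h.ne)).image _ T.continuous.continuousOn) (by
    intro y hy
    exact ⟨(T⁻¹ : ℂ ≃ₜ ℂ) y, mem_closedBall_zero_iff.2 (h.sub y hy), apply_inv_self' T y⟩) hx
  obtain ⟨y, hy, rfl⟩ := h1
  rw [inv_apply_self']
  exact mem_closedBall_zero_iff.1 hy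

/-- the pairing of two boundary points -/
def Phi (T1 : ℂ ≃ₜ ℂ) (ℓ1 : C(Conf, ℂ)) (ξ1 : ℂ) (T2 : ℂ ≃ₜ ℂ) (ℓ2 : C(Conf, ℂ)) (ξ2 : ℂ) : ℝ := by
  classical
  exact if T1 ξ1 = T2 ξ2 then 0 else (Fl T1 ℓ1 ξ1 (T2 ξ2) - Fl T2 ℓ2 ξ2 (T1 ξ1)).im

theorem tb {A B : Set ℂ} (hA : FC A) (hB : FC B) {T1 T2 T3 : ℂ ≃ₜ ℂ} {ℓ1 ℓ2 ℓ3 : C(Conf, ℂ)}
    {ξ1 ξ2 ξ3 : ℂ} (h1 : Flag (A ∪ B) T1 ℓ1 ξ1) (h2 : Flag (A ∪ B) T2 ℓ2 ξ2)
    (h3 : Flag (A ∪ B) T3 ℓ3 ξ3) (p1A : T1 ξ1 ∈ A) (p1B : T1 ξ1 ∉ B) (p2A : T2 ξ2 ∈ A)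
    (p2B : T2 ξ2 ∉ B) (qB : T3 ξ3 ∈ B) (qA : T3 ξ3 ∉ A) :
    |(th A B (T1 ξ1) (T3 ξ3)).im - (th A B (T2 ξ2) (T3 ξ3)).im + Phi T1 ℓ1 ξ1 T2 ℓ2 ξ2| <
      7 * Real.pi := by
  have hpi := Real.pi_pos
  have e1 : th A B (T1 ξ1) (T3 ξ3) = Fl T3 ℓ3 ξ3 (T1 ξ1) - Fl T1 ℓ1 ξ1 (T3 ξ3) := by
    rw [th, br_Fl hA h3.zero h3.log qA (fun x hx => h3.sub x (Or.inl hx)) p1A,
      br_Fl hB h1.zero h1.log p1B (fun x hx => h1.sub x (Or.inr hx)) qB]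
  have e2 : th A B (T2 ξ2) (T3 ξ3) = Fl T3 ℓ3 ξ3 (T2 ξ2) - Fl T2 ℓ2 ξ2 (T3 ξ3) := by
    rw [th, br_Fl hA h3.zero h3.log qA (fun x hx => h3.sub x (Or.inl hx)) p2A,
      br_Fl hB h2.zero h2.log p2B (fun x hx => h2.sub x (Or.inr hx)) qB]
  by_cases h12 : T1 ξ1 = T2 ξ2
  · have e3 : br B (T1 ξ1) (T3 ξ3) = br B (T2 ξ2) (T3 ξ3) := by rw [h12]
    have : Phi T1 ℓ1 ξ1 T2 ℓ2 ξ2 = 0 := by
      unfold Phi
      rw [if_pos h12]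
    rw [this, h12, sub_self, add_zero, abs_zero]
    linarith
  · have hP : Phi T1 ℓ1 ξ1 T2 ℓ2 ξ2 = (Fl T1 ℓ1 ξ1 (T2 ξ2) - Fl T2 ℓ2 ξ2 (T1 ξ1)).im := by
      unfold Phi
      rw [if_neg h12]
    obtain ⟨K, hK, hABK, hKD⟩ := exists_fillFC (hA.cpt.union hB.cpt)
      (hA.pre.union 0 hA.zero hB.zero hB.pre) (Or.inl hA.zero)
    have h23 : T2 ξ2 ≠ T3 ξ3 := fun e => qA (e ▸ p2A)
    have h31 : T3 ξ3 ≠ T1 ξ1 := fun e => qA (e ▸ p1A)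
    have h4 := triple hK (h1.fill hKD hABK) (h2.fill hKD hABK) (h3.fill hKD hABK) h12 h23 h31
    rw [e1, e2, hP]
    simp only [Complex.add_im, Complex.sub_im] at h4 ⊢
    rw [abs_lt] at *
    constructor <;> linarith

theorem th_swap (A B : Set ℂ) (z w : ℂ) : th B A w z = -th A B z w := by
  rw [th, th]
  ring

theorem Phi_comp {S T T' : ℂ ≃ₜ ℂ} {ℓS ℓT ℓT' : C(Conf, ℂ)} (hS : LogDiff (toC S) ℓS)
    (hT : LogDiff (toC T) ℓT) (hT' : LogDiff (toC T') ℓT') (hT0 : T 0 = 0) (hT0' : T' 0 = 0)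
    {ξ ξ' : ℂ} (hξ : ξ ≠ 0) (hξ' : ξ' ≠ 0) :
    Phi (S * T) (lc ℓS hT) ξ (S * T') (lc ℓS hT') ξ' =
      Phi T ℓT ξ T' ℓT' ξ' + (rot0 ℓS (T' ξ')).im - (rot0 ℓS (T ξ)).im := by
  unfold Phi
  by_cases h : T ξ = T' ξ'
  · rw [if_pos h, if_pos (show (S * T) ξ = (S * T') ξ' from by rw [mul_apply', mul_apply', h]), h]
    ring
  · have h' : ¬ (S * T) ξ = (S * T') ξ' := by
      rw [mul_apply', mul_apply']
      exact fun e => h (S.injective e)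
    rw [if_neg h, if_neg h', mul_apply', mul_apply']
    have e1 := Fl_comp (S := S) (ℓS := ℓS) hT hT0 hξ (z := T' ξ') (Ne.symm h)
    have e2 := Fl_comp (S := S) (ℓS := ℓS) hT' hT0' hξ' (z := T ξ) h
    have e3 := lp_symm hS (T' ξ') (T ξ)
    have e4 := lp_symm hS 0 (T ξ)
    have e5 := lp_symm hS 0 (T' ξ')
    rw [lp_rot0] at e4 e5
    rw [lc, lc, e1, e2, e3, e4, e5]
    simp only [Complex.add_im, Complex.sub_im]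
    ring

/-- the contradiction, for points on the boundaries of discs -/
theorem opposite {κ : ℤ} {G V : ℂ ≃ₜ ℂ} (h : PK κ G V) (hκ : 14 ≤ |κ|) (hG0 : G 0 = 0)
    (hV0 : V 0 = 0) {M1 M2 : Set ℂ} (h1 : FC M1) (h2 : FC M2) (hG1 : G '' M1 = M1)
    (hG2 : G '' M2 = M2) (hV1 : MapsTo V M1 M1) (hV2 : MapsTo (V⁻¹ : ℂ ≃ₜ ℂ) M2 M2)
    {P R : ℂ ≃ₜ ℂ} {ℓP ℓR : C(Conf, ℂ)} {ξ η : ℂ} (hx : Flag (M1 ∪ M2) P ℓP ξ)
    (hy : Flag (M1 ∪ M2) R ℓR η) (x1 : P ξ ∈ M1) (x2 : P ξ ∉ M2) (y1 : R η ∉ M1)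
    (y2 : R η ∈ M2) : False := by
  have hc : Commute G V := h.comm
  obtain ⟨ℓG, hℓG⟩ := h.isoId_left.exists_logDiff
  obtain ⟨ℓV, hℓV⟩ := h.isoId_right.exists_logDiff
  obtain ⟨N, hN⟩ : ∃ N, N = V '' M1 := ⟨_, rfl⟩
  have hNF : FC N := by rw [hN]; exact h1.image hV0
  have hNM : N ⊆ M1 := by rw [hN]; exact hV1.image_subset
  have hGV : ∀ z, G (V z) = V (G z) := fun z => congrArg (fun H : ℂ ≃ₜ ℂ => H z) hc.eq
  have hGN : G '' N = N := by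
    have := image_comm hc hG1 1
    rw [pow_one, ← hN] at this
    exact this
  have hM2V : M2 ⊆ V '' M2 := fun z hz => ⟨(V⁻¹ : ℂ ≃ₜ ℂ) z, hV2 hz, apply_inv_self' V z⟩
  have hVM2 : ∀ z, z ∉ M2 → V z ∉ M2 := by
    intro z hz hVz
    apply hz
    have := hV2 hVz
    rwa [inv_apply_self'] at this
  have hGm : ∀ {M : Set ℂ}, G '' M = M → ∀ z, G z ∈ M ↔ z ∈ M := by
    intro M hM z
    constructor
    · intro hz
      rw [← hM] at hz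
      obtain ⟨w, hw, hwz⟩ := hz
      rwa [G.injective hwz] at hw
    · intro hz
      rw [← hM]
      exact mem_image_of_mem _ hz
  have hGU : G '' (M1 ∪ M2) = M1 ∪ M2 := by rw [image_union, hG1, hG2]
  -- the flags
  have fx := hx
  have fGx := hx.image hG0 hℓG
  have fy := hy
  have fGy := hy.image hG0 hℓG
  rw [hGU] at fGx fGy
  have hsub : N ∪ M2 ⊆ V '' (M1 ∪ M2) := by
    rw [image_union, ← hN]
    exact union_subset_union subset_rfl hM2V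
  have hsub' : N ∪ M2 ⊆ M1 ∪ M2 := union_subset_union hNM subset_rfl
  have X1 : V (P ξ) ∈ N := by rw [hN]; exact mem_image_of_mem _ x1
  have X1' : V (G (P ξ)) ∈ N := by rw [hN]; exact mem_image_of_mem _ ((hGm hG1 _).2 x1)
  have fVx := (hx.image hV0 hℓV).mono hsub (Or.inl X1)
  have fVGx := (fGx.image hV0 hℓV).mono hsub (Or.inl X1')
  have fy' := hy.mono hsub' (Or.inr y2)
  have fGy' := fGy.mono hsub' (Or.inr ((hGm hG2 _).2 y2))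
  -- the four comparisons
  have a1 := tb (T1 := P) (T2 := G * P) (T3 := R) h1 h2 fx fGx fy x1 x2 ((hGm hG1 _).2 x1) (fun e => x2 ((hGm hG2 _).1 e)) y2 y1
  have a2 := tb (A := M2) (B := M1) (T1 := R) (T2 := G * R) (T3 := G * P) (ξ1 := η) (ξ2 := η)
    (ξ3 := ξ) h2 h1 (by rw [union_comm]; exact fy)
    (by rw [union_comm]; exact fGy) (by rw [union_comm]; exact fGx) y2 y1 ((hGm hG2 _).2 y2)
    (fun e => y1 ((hGm hG1 _).1 e)) ((hGm hG1 _).2 x1) (fun e => x2 ((hGm hG2 _).1 e))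
  have a3 := tb (T1 := V * P) (T2 := V * (G * P)) (T3 := R) hNF h2 fVx fVGx fy' X1 (hVM2 _ x2) X1'
    (hVM2 _ fun e => x2 ((hGm hG2 _).1 e)) y2 (fun e => y1 (hNM e))
  have a4 := tb (A := M2) (B := N) (T1 := R) (T2 := G * R) (T3 := V * (G * P)) (ξ1 := η) (ξ2 := η)
    (ξ3 := ξ) h2 hNF (by rw [union_comm]; exact fy')
    (by rw [union_comm]; exact fGy') (by rw [union_comm]; exact fVGx) y2 (fun e => y1 (hNM e))
    ((hGm hG2 _).2 y2) (fun e => y1 ((hGm hG1 _).1 (hNM e))) X1'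
    (hVM2 _ fun e => x2 ((hGm hG2 _).1 e))
  -- equivariance
  have c1 := th_equi' h1 h2 hG0 hℓG x1 x2 y2 y1
  have c2 := th_equi' hNF h2 hG0 hℓG X1 (hVM2 _ x2) y2 (fun e => y1 (hNM e))
  rw [hG1, hG2] at c1
  rw [hGN, hG2, hGV] at c2
  have d1 := Phi_comp hℓV hx.log fGx.log hx.zero fGx.zero hx.ne hx.ne
  have e1 := rot0_euler' h hG0 hV0 hℓG hℓV (z := P ξ) (h2.ne x2)
  simp only [mul_apply'] at a1 a2 a3 a4 d1
  rw [th_swap M1 M2, th_swap M1 M2] at a2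
  rw [th_swap N M2, th_swap N M2] at a4
  rw [d1] at a3
  have c1' := congrArg Complex.im c1
  have c2' := congrArg Complex.im c2
  have e1' := congrArg Complex.im e1
  simp only [Complex.add_im, Complex.sub_im] at c1' c2' e1'
  have e2 : (2 * Real.pi * Complex.I * (κ : ℂ) : ℂ).im = 2 * Real.pi * κ := by simp
  rw [e2] at e1'
  simp only [Complex.neg_im] at a2 a4
  have hk : (14 : ℝ) ≤ |(κ : ℝ)| := by exact_mod_cast hκ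
  have hpi := Real.pi_pos
  have hlt : |2 * Real.pi * (κ : ℝ)| < 28 * Real.pi := by
    rw [abs_lt] at *
    constructor <;> linarith
  rw [abs_mul, abs_of_pos (by positivity)] at hlt
  nlinarith

/-- a point on the boundary of a disc -/
theorem exists_flag {A B : Set ℂ} (hA : FC A) (hB : FC B) {x0 : ℂ} (hx0 : x0 ∈ A) (hx0' : x0 ∉ B) :
    ∃ (P : ℂ ≃ₜ ℂ) (ℓ : C(Conf, ℂ)) (ξ : ℂ), Flag (A ∪ B) P ℓ ξ ∧ P ξ ∈ A ∧ P ξ ∉ B := by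
  obtain ⟨Q, hQ0, hQI, hQB, hQx, -, -⟩ := exists_tight hB hx0' hx0' hx0'
  obtain ⟨ℓ, hℓ⟩ := hQI.exists_logDiff
  obtain ⟨x, hx, hmax⟩ := hA.cpt.exists_isMaxOn ⟨x0, hx0⟩ (f := fun w => ‖(Q⁻¹ : ℂ ≃ₜ ℂ) w‖)
    (Q⁻¹ : ℂ ≃ₜ ℂ).continuous.norm.continuousOn
  have h1 : 1 < ‖(Q⁻¹ : ℂ ≃ₜ ℂ) x‖ := hQx.trans_le (hmax hx0)
  refine ⟨Q, ℓ, (Q⁻¹ : ℂ ≃ₜ ℂ) x, ⟨hQ0, hℓ, ?_, ?_, ?_⟩, ?_, ?_⟩
  · intro h
    rw [h, norm_zero] at h1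
    linarith
  · rintro z (hz | hz)
    · exact hmax hz
    · exact ((hQB z hz).trans h1).le
  · rw [apply_inv_self']
    exact Or.inl hx
  · rwa [apply_inv_self']
  · rw [apply_inv_self']
    intro h
    have := hQB x h
    linarith

/-- two invariant continua, on which the second map acts in opposite directions -/
theorem two_inv {κ : ℤ} {g V : ℂ ≃ₜ ℂ} (h : PK κ g V) (hκ : κ ≠ 0) (hg0 : g 0 = 0) (hV0 : V 0 = 0)
    {M1 M2 : Set ℂ} (h1 : FC M1) (h2 : FC M2) (hg1 : g '' M1 = M1) (hg2 : g '' M2 = M2)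
    (hV1 : MapsTo V M1 M1) (hV2 : MapsTo (V⁻¹ : ℂ ≃ₜ ℂ) M2 M2) (n1 : ∃ x ∈ M1, x ≠ 0)
    (n2 : ∃ y ∈ M2, y ≠ 0) : False := by
  have hVi0 : (V⁻¹ : ℂ ≃ₜ ℂ) 0 = 0 := symm_fix hV0
  -- the continua are not nested
  obtain ⟨x, hx, hx'⟩ : ∃ x ∈ M1, x ∉ M2 := by
    by_contra hcon
    push Not at hcon
    obtain ⟨x, hx, hx0⟩ := n1
    obtain ⟨N, hN⟩ := exists_away h.inv_right (neg_ne_zero.2 hκ) hVi0 h2 hg2 hV2
      (Y := {x}) isClosed_singleton (fun e => hx0 (mem_singleton_iff.1 e).symm)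
    refine hN N le_rfl x rfl ⟨_, hcon _ (MapsTo.pow_mem hV1 N hx), ?_⟩
    rw [inv_pow, inv_apply_self']
  obtain ⟨y, hy, hy'⟩ : ∃ y ∈ M2, y ∉ M1 := by
    by_contra hcon
    push Not at hcon
    obtain ⟨y, hy, hy0⟩ := n2
    obtain ⟨N, hN⟩ := exists_away h hκ hV0 h1 hg1 hV1
      (Y := {y}) isClosed_singleton (fun e => hy0 (mem_singleton_iff.1 e).symm)
    refine hN N le_rfl y rfl ⟨_, hcon _ (MapsTo.pow_mem hV2 N hy), ?_⟩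
    rw [inv_pow, apply_inv_self']
  obtain ⟨P, ℓP, ξ, fP, hP1, hP2⟩ := exists_flag h1 h2 hx hx'
  obtain ⟨R, ℓR, η, fR, hR1, hR2⟩ := exists_flag h2 h1 hy hy'
  rw [union_comm] at fR
  have h14 := h.zpow_left 14
  have e14 : (g ^ (14 : ℤ) : ℂ ≃ₜ ℂ) = g ^ (14 : ℕ) := by
    rw [← zpow_natCast]
    rfl
  rw [e14] at h14
  refine opposite h14 ?_ (pow_fix hg0 14) hV0 h1 h2 (image_pow_eq hg1 14) (image_pow_eq hg2 14)
    hV1 hV2 fP fR hP1 hP2 hR2 hR1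
  have := Int.one_le_abs hκ
  rw [abs_mul]
  simp only [Nat.abs_ofNat]
  omega

end Pool.Agent.Helper984_CP
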