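import Pool.Agent.Helper984_CP.Std

/-!
# The centraliser of the contraction by one half
-/

set_option autoImplicit false

open Set Filter Topology Complex ComplexConjugate

noncomputable section

namespace Pool.Agent.Helper984_CP

/-- the logarithm of the multiplier -/
def lam : ℝ := -Real.log 2

theorem lam_neg : lam < 0 := by
  rw [lam]
  have := Real.log_pos (show (1 : ℝ) < 2 by norm_num)
  linarith

theorem exp_lam : Real.exp lam = 1 / 2 := by
  rw [lam, Real.exp_neg, Real.exp_log (by norm_num)]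
  norm_num

/-- the other period -/
def muu : ℝ := 2 * Real.pi ^ 2 / Real.log 2

theorem muu_pos : 0 < muu := by
  have := Real.log_pos (show (1 : ℝ) < 2 by norm_num)
  have := Real.pi_pos
  rw [muu]
  positivity

theorem exp_muu : Real.exp (-muu) ≤ 1 / 2 := by
  rw [← exp_lam]
  apply Real.exp_le_exp.2
  have h1 := Real.log_pos (show (1 : ℝ) < 2 by norm_num)
  have h2 : Real.log 2 < 1 := by
    have := Real.log_two_lt_d9
    linarith
  have h3 := Real.pi_gt_three
  rw [lam, muu, neg_le_neg_iff, le_div_iff₀ h1]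
  nlinarith

/-- the change of coordinates -/
def cz : ℂ := Real.pi * I / lam

theorem lam_ne : ((lam : ℝ) : ℂ) ≠ 0 := by exact_mod_cast lam_neg.ne

theorem cz_ne : cz ≠ 0 := div_ne_zero piI_ne lam_ne

theorem cz_lam : cz * lam = Real.pi * I := by
  rw [cz, div_mul_cancel₀ _ lam_ne]

theorem cz_tpi : cz * tpi = muu := by
  have h1 : ((Real.log 2 : ℝ) : ℂ) ≠ 0 := by
    have := Real.log_pos (show (1 : ℝ) < 2 by norm_num)
    exact_mod_cast this.ne'
  rw [cz, tpi_eq, muu, lam]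
  push_cast
  field_simp
  rw [I_sq]
  ring

/-- homeomorphisms commuting with the contraction, the identity on the circle and without twist
can be deformed to the identity -/
theorem twistless {u M : C(ℂ, ℂ)} (hu : u ∈ GG (1 / 2) False) (hM : LiftOf u M)
    (hl : ∀ w, M (w + lam) = M w + lam) (hi : ∀ y : ℝ, M (y * I) = y * I) :
    JoinedIn (GG (1 / 2) False) u (ContinuousMap.id ℂ) := by
  have hl1 : (1 / 2 : ℝ) < 1 := by norm_num
  have hu0 := GG.zero hl1 hu
  have hMH := lift_homeo hu.1 hu0 hM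
  have hcz := cz_ne
  have hczi : cz * (cz)⁻¹ = 1 := mul_inv_cancel₀ hcz
  obtain ⟨N, hN⟩ : ∃ N : C(ℂ, ℂ), N = ⟨fun v => cz * M (v * cz⁻¹), by fun_prop⟩ := ⟨_, rfl⟩
  have hNa : ∀ v, N v = cz * M (v * cz⁻¹) := fun v => by rw [hN]; rfl
  have hmucz : (muu : ℂ) * cz⁻¹ = tpi := by
    rw [← cz_tpi, mul_comm cz, mul_assoc, hczi, mul_one]
  have hpicz : (Real.pi * I : ℂ) * cz⁻¹ = lam := by
    rw [← cz_lam, mul_comm cz, mul_assoc, hczi, mul_one]
  have hNL : N ∈ LL muu := by
    obtain ⟨Mi, m1, m2⟩ := hMH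
    refine ⟨⟨⟨fun v => cz * Mi (v * cz⁻¹), by fun_prop⟩, fun v => ?_, fun v => ?_⟩, fun v => ?_,
      fun v => ?_⟩
    · rw [hNa]
      simp only [ContinuousMap.coe_mk]
      rw [mul_comm cz (Mi _), mul_assoc, hczi, mul_one, m1, mul_comm cz, mul_assoc,
        inv_mul_cancel₀ hcz, mul_one]
    · rw [hNa]
      simp only [ContinuousMap.coe_mk]
      rw [mul_comm cz (M _), mul_assoc, hczi, mul_one, m2, mul_comm cz, mul_assoc,
        inv_mul_cancel₀ hcz, mul_one]
    · rw [hNa, hNa, add_mul, hmucz, hM.1, mul_add, cz_tpi]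
    · rw [hNa, hNa, add_mul, hpicz, hl, mul_add, cz_lam]
  have hN0 : ∀ x : ℝ, N x = x := by
    intro x
    obtain ⟨y, hy⟩ : ∃ y : ℝ, y = -(x * lam / Real.pi) := ⟨_, rfl⟩
    have e : (x : ℂ) * cz⁻¹ = y * I := by
      rw [cz, hy]
      have h1 : (Real.pi : ℂ) ≠ 0 := by exact_mod_cast Real.pi_ne_zero
      have h2 := lam_ne
      push_cast
      field_simp
      rw [I_sq]
      ring
    rw [hNa, e, hi, ← e, mul_comm cz, mul_assoc, inv_mul_cancel₀ hcz, mul_one]
  obtain ⟨P, hP, hP0, hP1⟩ := family_of_joined (ann_all muu_pos exp_muu hNL hN0)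
  let W : C(unitInterval × ℂ, ℂ) := ⟨fun q => cz⁻¹ * P (q.1, cz * q.2), by fun_prop⟩
  have hWa : ∀ s w, W (s, w) = cz⁻¹ * P (s, cz * w) := fun _ _ => rfl
  obtain ⟨G, hG, hGe⟩ := exp_family W (fun s => by
    obtain ⟨Pi, p1, p2⟩ := (hP s).1
    refine ⟨⟨fun w => cz⁻¹ * Pi (cz * w), by fun_prop⟩, fun w => ?_, fun w => ?_⟩
    · rw [slice_apply, hWa]
      simp only [ContinuousMap.coe_mk]
      rw [← mul_assoc cz, hczi, one_mul]
      have := p1 (cz * w)
      rw [slice_apply] at this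
      rw [this, ← mul_assoc, inv_mul_cancel₀ hcz, one_mul]
    · rw [slice_apply, hWa]
      simp only [ContinuousMap.coe_mk]
      rw [← mul_assoc cz, hczi, one_mul]
      have := p2 (cz * w)
      rw [slice_apply] at this
      rw [this, ← mul_assoc, inv_mul_cancel₀ hcz, one_mul]) (ρ := lam) lam_neg.ne
    (fun s w => by
      rw [hWa, hWa, mul_add, cz_tpi]
      have := (hP s).2.1 (cz * w)
      simp only [slice_apply] at this
      rw [this, mul_add, ← hmucz, mul_comm cz⁻¹ (muu : ℂ)])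
    (fun s w => by
      rw [hWa, hWa, mul_add, cz_lam]
      have := (hP s).2.2 (cz * w)
      simp only [slice_apply] at this
      rw [this, mul_add, ← hpicz, mul_comm cz⁻¹ (Real.pi * I : ℂ)])
  rw [exp_lam] at hG
  have hP0' : ∀ v, P (0, v) = N v := fun v => congrArg (fun f : C(ℂ, ℂ) => f v) hP0
  have hP1' : ∀ v, P (1, v) = v := fun v => congrArg (fun f : C(ℂ, ℂ) => f v) hP1
  refine joined_of_family' G hG (fun z => ?_) (fun z => ?_)
  · by_cases hz : z = 0
    · rw [hz, hu0]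
      exact GG.zero hl1 (hG 0)
    · obtain ⟨w, rfl⟩ : ∃ w, cexp w = z := ⟨Complex.log z, Complex.exp_log hz⟩
      rw [hGe, hWa, hP0', hNa, ← mul_assoc, inv_mul_cancel₀ hcz, one_mul, mul_comm cz w, mul_assoc,
        hczi, mul_one, hM.2]
  · by_cases hz : z = 0
    · rw [hz]
      exact GG.zero hl1 (hG 1)
    · obtain ⟨w, rfl⟩ : ∃ w, cexp w = z := ⟨Complex.log z, Complex.exp_log hz⟩
      rw [hGe, hWa, hP1', ← mul_assoc, inv_mul_cancel₀ hcz, one_mul]
      rfl

/-- the centraliser of the contraction by one half: every element which lifts is deformed to a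
standard twist -/
theorem centraliser {g M : C(ℂ, ℂ)} (hg : g ∈ GG (1 / 2) False) (hM : LiftOf g M) :
    ∃ m : ℤ, JoinedIn (GG (1 / 2) False) g (stdC 0 (2 * Real.pi * m / lam)) := by
  have hl1 : (1 / 2 : ℝ) < 1 := by norm_num
  obtain ⟨g1, j1, h1⟩ := straighten_id (by norm_num : (0 : ℝ) < 1 / 2) le_rfl hg hM
    (fun h => h.elim)
  obtain ⟨M1, hM1⟩ := joined_lift hl1 j1 hM
  have hg1 := j1.target_mem
  have hg10 := GG.zero hl1 hg1
  -- normalise the lift
  have hM10 : cexp (M1 0) = 1 := by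
    rw [hM1.2, Complex.exp_zero, h1 1 (by simp)]
  obtain ⟨n, hn⟩ := Complex.exp_eq_one_iff.1 hM10
  obtain ⟨M2, hM2d⟩ : ∃ M2 : C(ℂ, ℂ), M2 = ⟨fun w => M1 w - M1 0, by fun_prop⟩ := ⟨_, rfl⟩
  have hM2a : ∀ w, M2 w = M1 w - M1 0 := fun w => by rw [hM2d]; rfl
  have hM2 : LiftOf g1 M2 := by
    refine ⟨fun w => ?_, fun w => ?_⟩
    · rw [hM2a, hM2a, hM1.1]
      ring
    · rw [hM2a, Complex.exp_sub, hM10, div_one, hM1.2]
  have hM20 : M2 0 = 0 := by rw [hM2a, sub_self]
  have hM2i : ∀ y : ℝ, M2 (y * I) = y * I := by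
    intro y
    have h2 := exp_rigid (A := ℝ) (u := fun y : ℝ => M2 (y * I)) (v := fun y : ℝ => (y * I : ℂ))
      (by fun_prop) (by fun_prop) (fun y => by
        rw [hM2.2]
        exact h1 _ (Complex.norm_exp_ofReal_mul_I y)) y 0
    simp only [Complex.ofReal_zero, zero_mul, hM20, sub_zero] at h2
    exact sub_eq_zero.1 h2
  have hexpl : cexp ((lam : ℝ) : ℂ) = ((1 / 2 : ℝ) : ℂ) := by
    rw [← Complex.ofReal_exp, exp_lam]
  have hg1l : ∀ z, g1 (((1 / 2 : ℝ) : ℂ) * z) = ((1 / 2 : ℝ) : ℂ) * g1 z := hg1.2.1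
  -- the twist number
  obtain ⟨m, hm⟩ : ∃ m : ℤ, ∀ w, M2 (w + lam) = M2 w + lam + m * tpi := by
    have h2 : cexp (M2 (0 + lam)) = cexp (M2 0 + lam) := by
      rw [hM2.2, Complex.exp_add, Complex.exp_add, hexpl, mul_comm, hg1l, ← hM2.2, mul_comm]
    obtain ⟨m, hm⟩ := Complex.exp_eq_exp_iff_exists_int.1 h2
    refine ⟨m, fun w => ?_⟩
    have h3 := exp_rigid (A := ℂ) (u := fun w => M2 (w + lam)) (v := fun w => M2 w + lam)
      (by fun_prop) (by fun_prop) (fun w => by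
        rw [hM2.2, Complex.exp_add, Complex.exp_add, hexpl, mul_comm, hg1l, ← hM2.2, mul_comm]) w 0
    have h4 : M2 (0 + lam) = M2 0 + lam + m * tpi := hm
    linear_combination h3 + h4
  have hlam := lam_neg.ne
  obtain ⟨a, ha⟩ : ∃ a : ℝ, a = 2 * Real.pi * m / lam := ⟨_, rfl⟩
  have hal : a * lam = 2 * Real.pi * m := by rw [ha]; field_simp
  have hstdG : ∀ (a : ℝ) (m : ℤ), a * lam = 2 * Real.pi * m → stdC 0 a ∈ GG (1 / 2) False := by
    intro a m hal
    refine ⟨isHomeo_stdC _ _, fun z => ?_, fun h => h.elim⟩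
    rw [stdC_apply, stdC_apply]
    by_cases hz : z = 0
    · rw [hz, mul_zero, stdFun_zero_arg, mul_zero]
    · obtain ⟨w, rfl⟩ : ∃ w, cexp w = z := ⟨Complex.log z, Complex.exp_log hz⟩
      have e1 : ((1 / 2 : ℝ) : ℂ) * cexp w = cexp (w + lam) := by
        rw [Complex.exp_add, hexpl, mul_comm]
      rw [e1, stdFun_exp, stdFun_exp]
      have e2 : w + lam + 0 + I * ((a * (w + lam).re : ℝ) : ℂ) =
          (w + 0 + I * ((a * w.re : ℝ) : ℂ)) + lam + m * (2 * Real.pi * I) := by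
        rw [Complex.add_re, Complex.ofReal_re, mul_add, hal]
        push_cast
        ring
      rw [e2, Complex.exp_add, Complex.exp_int_mul_two_pi_mul_I, mul_one, Complex.exp_add, hexpl,
        mul_comm]
  have hsa := hstdG a m hal
  have hsna := hstdG (-a) (-m) (by push_cast; linarith)
  -- the untwisted map
  obtain ⟨u, hu⟩ : ∃ u : C(ℂ, ℂ), u = (stdC 0 (-a)).comp g1 := ⟨_, rfl⟩
  have huG : u ∈ GG (1 / 2) False := by rw [hu]; exact GG.comp hsna hg1
  obtain ⟨M3, hM3d⟩ : ∃ M3 : C(ℂ, ℂ), M3 = ⟨fun w => M2 w + 0 + I * ((-a * (M2 w).re : ℝ) : ℂ),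
    by fun_prop⟩ := ⟨_, rfl⟩
  have hM3a : ∀ w, M3 w = M2 w + 0 + I * ((-a * (M2 w).re : ℝ) : ℂ) := fun w => by rw [hM3d]; rfl
  have hM3 : LiftOf u M3 := by
    refine ⟨fun w => ?_, fun w => ?_⟩
    · rw [hM3a, hM3a, hM2.1, Complex.add_re, tpi_re, add_zero (M2 w).re]
      ring
    · rw [hM3a, ← stdFun_exp, hM2.2, hu]
      rfl
  have j2 := twistless huG hM3 (fun w => by
    rw [hM3a, hM3a, hm]
    have e1 : (M2 w + lam + m * tpi).re = (M2 w).re + lam := by
      rw [Complex.add_re, Complex.add_re, Complex.mul_re, tpi_re, Complex.intCast_im,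
        Complex.ofReal_re]
      ring
    rw [e1, mul_add, show -a * lam = -(2 * Real.pi * m) by linarith, tpi_eq]
    push_cast
    ring) (fun y => by
    rw [hM3a, hM2i]
    simp)
  refine ⟨m, ?_⟩
  rw [← ha]
  have j3 := JoinedIn.compGG (JoinedIn.refl hsa) j2
  rw [ContinuousMap.comp_id] at j3
  have e : (stdC 0 a).comp u = g1 := by
    ext z
    rw [hu]
    simp only [ContinuousMap.comp_apply, stdC_apply]
    rw [stdFun_comp]
    simp only [Complex.zero_re, mul_zero, Complex.ofReal_zero, add_zero, add_neg_cancel]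
    exact stdFun_id _
  rw [e] at j3
  exact j1.trans j3

/-- the contraction by one half -/
def Dc : C(ℂ, ℂ) := ⟨fun z => ((1 / 2 : ℝ) : ℂ) * z, by fun_prop⟩

theorem Dc_apply (z : ℂ) : Dc z = ((1 / 2 : ℝ) : ℂ) * z := rfl

theorem Dc_eq : Dc = stdC lam 0 := by
  ext z
  rw [Dc_apply, stdC_apply, stdFun]
  simp only [zero_mul, Complex.ofReal_zero, mul_zero, add_zero]
  rw [← Complex.ofReal_exp, exp_lam, mul_comm]

/-- pairs with the contraction as first element are joined to the standard pair -/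
theorem torus_joined {k : ℤ} {g : C(ℂ, ℂ)} (h : (Dc, g) ∈ HomK k) :
    JoinedIn (HomK k) (Dc, g) (Dc, stdC 0 (-(2 * Real.pi * k / lam))) := by
  obtain ⟨hc, hi1, hi2, -⟩ := mem_HomK_iff.1 h
  have hg : g ∈ GG (1 / 2) False := ⟨hi2.isHomeo, fun z => (hc z).symm, fun h => h.elim⟩
  have hg0 := GG.zero (by norm_num) hg
  obtain ⟨ℓ, hℓ⟩ := hi2.exists_logDiff
  obtain ⟨M, hM1, hM2, -⟩ := exists_lift hℓ hg0
  obtain ⟨m, j⟩ := centraliser hg (M := M) ⟨hM1, hM2⟩
  obtain ⟨P, hP, hP0, hP1⟩ := family_of_joined j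
  let D : C(unitInterval × ℂ, ℂ) := ⟨fun q => Dc q.2, by fun_prop⟩
  have hDs : ∀ s, slice D s = Dc := fun s => rfl
  have jj := HomK_joined (k := k) D P (fun s => by rw [hDs]; exact hi1.isHomeo)
    (fun s => (hP s).1) (fun s x => ((hP s).2.1 x).symm) (by rw [hDs, hP0]; exact h)
  rw [hDs, hDs, hP0, hP1] at jj
  have hm : m = -k := by
    have h1 := jj.target_mem
    rw [Dc_eq] at h1
    have h2 : (stdC lam 0, stdC 0 (2 * Real.pi * m / lam)) ∈ HomK (-m) := by
      apply std_mem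
      have := lam_neg.ne
      simp only [Complex.zero_re, mul_zero, Complex.ofReal_re]
      push_cast
      field_simp
      ring
    have := HomK_unique h1 h2
    omega
  have e : 2 * Real.pi * (m : ℝ) / lam = -(2 * Real.pi * k / lam) := by
    rw [hm]
    push_cast
    ring
  rw [e] at jj
  exact jj

end Pool.Agent.Helper984_CP
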