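import Pool.Agent.Helper984_CP.Unique

/-!
# The common fixed point depends continuously on the pair, and splits off as a factor
-/

set_option autoImplicit false

open Set Filter Topology Complex

noncomputable section

namespace Pool.Agent.Helper984_CP

/-- if `f` is close to the identity on a small ball, relative to the distance to a fixed point `w`,
then the logarithm hardly varies there -/
theorem near_small {f : C(ℂ, ℂ)} {ℓf : C(Conf, ℂ)} (hf : LogDiff f ℓf) {w c : ℂ} {ε δ : ℝ}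
    (hfw : f w = w) (hδ : δ ≤ ε / 16) (hw : ε ≤ ‖c - w‖)
    (h1 : ∀ x ∈ Metric.closedBall c δ, ‖f x - c‖ ≤ ε / 16) (hne : ∀ x ∈ Metric.closedBall c δ, x ≠ w)
    {a b : ℂ} (ha : a ∈ Metric.closedBall c δ) (hb : b ∈ Metric.closedBall c δ) :
    ‖ℓf ⟨(a, w), hne a ha⟩ - ℓf ⟨(b, w), hne b hb⟩‖ ≤ 3 / 4 := by
  let A := {x : ℂ // x ∈ Metric.closedBall c δ}
  have : PreconnectedSpace A := Subtype.preconnectedSpace (convex_closedBall c δ).isPreconnected
  let v : A → ℂ := fun x => ℓf ⟨(x.1, w), hne x.1 x.2⟩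
  have hv : Continuous v := ℓf.continuous.comp
    ((continuous_subtype_val.prodMk continuous_const).subtype_mk _)
  have hr : ∀ x : A, ‖(f x.1 - w) / (x.1 - w) - 1‖ ≤ 2 / 15 := by
    intro x
    have h2 := h1 x.1 x.2
    have h3 : ‖x.1 - c‖ ≤ δ := by
      have := x.2
      rwa [mem_closedBall_iff_norm] at this
    have h4 : x.1 - w ≠ 0 := sub_ne_zero.2 (hne x.1 x.2)
    have h5 : (f x.1 - w) / (x.1 - w) - 1 = (f x.1 - x.1) / (x.1 - w) := by
      field_simp
      ring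
    rw [h5, norm_div, div_le_iff₀ (norm_pos_iff.2 h4)]
    have h6 : ‖f x.1 - x.1‖ ≤ ε / 8 := by
      have : f x.1 - x.1 = (f x.1 - c) - (x.1 - c) := by ring
      rw [this]
      refine (norm_sub_le _ _).trans ?_
      linarith
    have h7 : 15 / 16 * ε ≤ ‖x.1 - w‖ := by
      have e : c - w = (x.1 - w) - (x.1 - c) := by ring
      have := norm_sub_le (x.1 - w) (x.1 - c)
      rw [← e] at this
      linarith
    linarith
  have hexp : ∀ x : A, cexp (v x) = (f x.1 - w) / (x.1 - w) := by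
    intro x
    have h4 : x.1 - w ≠ 0 := sub_ne_zero.2 (hne x.1 x.2)
    rw [eq_div_iff h4]
    have := hf ⟨(x.1, w), hne x.1 x.2⟩
    simp only [hfw] at this
    exact this
  have hest : ∀ x y : A, ‖cexp (v x - v y) - 1‖ ≤ 1 / 2 := by
    intro x y
    have k1 := hr x
    have k2 := hr y
    rw [← hexp] at k1 k2
    have h8 : cexp (v y) ≠ 0 := Complex.exp_ne_zero _
    have h9 : cexp (v x - v y) - 1 = ((cexp (v x) - 1) - (cexp (v y) - 1)) / cexp (v y) := by
      rw [Complex.exp_sub]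
      field_simp
      ring
    rw [h9, norm_div, div_le_iff₀ (norm_pos_iff.2 h8)]
    have h10 : 13 / 15 ≤ ‖cexp (v y)‖ := by
      have e : (1 : ℂ) = cexp (v y) - (cexp (v y) - 1) := by ring
      have := norm_sub_le (cexp (v y)) (cexp (v y) - 1)
      rw [← e, norm_one] at this
      linarith
    have h11 := norm_sub_le (cexp (v x) - 1) (cexp (v y) - 1)
    linarith
  have hfin := small_var (A := A) (S := univ) isPreconnected_univ hv.continuousOn
    (b := ⟨b, hb⟩) (mem_univ _) (fun a _ => (hest a _)) (a := ⟨a, ha⟩) (mem_univ _)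
  calc ‖ℓf ⟨(a, w), hne a ha⟩ - ℓf ⟨(b, w), hne b hb⟩‖
      ≤ 3 / 2 * ‖cexp (ℓf ⟨(a, w), hne a ha⟩ - ℓf ⟨(b, w), hne b hb⟩) - 1‖ := hfin
    _ ≤ 3 / 2 * (1 / 2) := by
        gcongr
        exact hest ⟨a, ha⟩ ⟨b, hb⟩
    _ = 3 / 4 := by norm_num

theorem not_far_fixed {k : ℤ} {f g : C(ℂ, ℂ)} {ℓf ℓg : C(Conf, ℂ)} (hf : LogDiff f ℓf)
    (hg : LogDiff g ℓg) (hE : EulerEq k f g) (hk : k ≠ 0) {w c : ℂ} {ε δ : ℝ}
    (hfw : f w = w) (hgw : g w = w) (hε : 0 < ε) (hδ0 : 0 ≤ δ) (hδ : δ ≤ ε / 16)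
    (h1 : ∀ x ∈ Metric.closedBall c δ, ‖f x - c‖ ≤ ε / 16)
    (h2 : ∀ x ∈ Metric.closedBall c δ, ‖g x - c‖ ≤ ε / 16)
    (hfc : f c ∈ Metric.closedBall c δ) (hgc : g c ∈ Metric.closedBall c δ) : ‖w - c‖ < ε := by
  by_contra hw
  push Not at hw
  rw [norm_sub_rev] at hw
  have hne : ∀ x ∈ Metric.closedBall c δ, x ≠ w := by
    intro x hx h
    rw [mem_closedBall_iff_norm, h, norm_sub_rev] at hx
    linarith
  have hcc : c ∈ Metric.closedBall c δ := Metric.mem_closedBall_self hδ0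
  have e0 := hE ℓf ℓg hf hg ⟨(c, w), hne c hcc⟩
  have e1 : Conf.map g hg.inj ⟨(c, w), hne c hcc⟩ = ⟨(g c, w), hne _ hgc⟩ := by
    apply Subtype.ext
    apply Prod.ext
    · rfl
    · exact hgw
  have e2 : Conf.map f hf.inj ⟨(c, w), hne c hcc⟩ = ⟨(f c, w), hne _ hfc⟩ := by
    apply Subtype.ext
    apply Prod.ext
    · rfl
    · exact hfw
  rw [e1, e2] at e0
  have k1 := near_small hf hfw hδ hw h1 hne hgc hcc
  have k2 := near_small hg hgw hδ hw h2 hne hfc hcc
  have k3 := norm_two_pi_I_mul hk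
  have e3 : (2 * Real.pi * Complex.I : ℂ) * k =
      (ℓf ⟨(g c, w), hne _ hgc⟩ - ℓf ⟨(c, w), hne _ hcc⟩) -
      (ℓg ⟨(f c, w), hne _ hfc⟩ - ℓg ⟨(c, w), hne _ hcc⟩) := by
    linear_combination (-1 : ℂ) * e0
  rw [e3] at k3
  have k4 := norm_sub_le (ℓf ⟨(g c, w), hne _ hgc⟩ - ℓf ⟨(c, w), hne _ hcc⟩)
    (ℓg ⟨(f c, w), hne _ hfc⟩ - ℓg ⟨(c, w), hne _ hcc⟩)
  linarith

/-- the common fixed point of a commuting pair with nonzero Euler number -/
def cfix {k : ℤ} (hk : k ≠ 0) (p : HomK k) : ℂ := (existsUnique_common_fixed hk p.2).choose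

theorem cfix_spec {k : ℤ} (hk : k ≠ 0) (p : HomK k) :
    p.1.1 (cfix hk p) = cfix hk p ∧ p.1.2 (cfix hk p) = cfix hk p :=
  (existsUnique_common_fixed hk p.2).choose_spec.1

theorem cfix_eq {k : ℤ} (hk : k ≠ 0) (p : HomK k) {z : ℂ} (h : p.1.1 z = z ∧ p.1.2 z = z) :
    z = cfix hk p :=
  (existsUnique_common_fixed hk p.2).choose_spec.2 z h

theorem continuous_cfix {k : ℤ} (hk : k ≠ 0) : Continuous (cfix hk) := by
  rw [continuous_iff_continuousAt]
  intro p
  rw [ContinuousAt, Metric.tendsto_nhds]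
  intro ε hε
  obtain ⟨c, hc⟩ : ∃ c, c = cfix hk p := ⟨_, rfl⟩
  obtain ⟨hc1, hc2⟩ := cfix_spec hk p
  rw [← hc] at hc1 hc2
  have hcont : ∀ f : C(ℂ, ℂ), f c = c → ∃ δ > 0, ∀ x ∈ Metric.closedBall c δ,
      f x ∈ Metric.ball c (ε / 16) := by
    intro f hfc
    have h1 := (Metric.continuous_iff.1 f.continuous) c (ε / 16) (by positivity)
    obtain ⟨δ, hδ, h2⟩ := h1
    refine ⟨δ / 2, by positivity, fun x hx => ?_⟩
    have := h2 x (lt_of_le_of_lt (Metric.mem_closedBall.1 hx) (by linarith))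
    rwa [hfc] at this
  obtain ⟨δ1, hδ1, h1⟩ := hcont p.1.1 hc1
  obtain ⟨δ2, hδ2, h2⟩ := hcont p.1.2 hc2
  obtain ⟨δ, hδ0, hδa, hδb, hδc⟩ : ∃ δ > 0, δ ≤ δ1 ∧ δ ≤ δ2 ∧ δ ≤ ε / 16 :=
    ⟨min δ1 (min δ2 (ε / 16)), by positivity, min_le_left _ _,
      (min_le_right _ _).trans (min_le_left _ _), (min_le_right _ _).trans (min_le_right _ _)⟩
  have hopen : ∀ {K U : Set ℂ}, IsCompact K → IsOpen U →
      IsOpen {q : HomK k | MapsTo q.1.1 K U ∧ MapsTo q.1.2 K U} := by
    intro K U hK hU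
    exact ((ContinuousMap.isOpen_setOfPred_mapsTo hK hU).preimage
      (continuous_fst.comp continuous_subtype_val)).inter
      ((ContinuousMap.isOpen_setOfPred_mapsTo hK hU).preimage
      (continuous_snd.comp continuous_subtype_val))
  have ha : ∀ᶠ q : HomK k in 𝓝 p, MapsTo q.1.1 (Metric.closedBall c δ) (Metric.ball c (ε / 16)) ∧
      MapsTo q.1.2 (Metric.closedBall c δ) (Metric.ball c (ε / 16)) :=
    (hopen (isCompact_closedBall c δ) Metric.isOpen_ball).mem_nhds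
      ⟨fun x hx => h1 x (Metric.closedBall_subset_closedBall hδa hx),
        fun x hx => h2 x (Metric.closedBall_subset_closedBall hδb hx)⟩
  have hb : ∀ᶠ q : HomK k in 𝓝 p, MapsTo q.1.1 {c} (Metric.ball c δ) ∧
      MapsTo q.1.2 {c} (Metric.ball c δ) :=
    (hopen isCompact_singleton Metric.isOpen_ball).mem_nhds
      ⟨fun x hx => by rw [mem_singleton_iff.1 hx, hc1]; exact Metric.mem_ball_self hδ0,
        fun x hx => by rw [mem_singleton_iff.1 hx, hc2]; exact Metric.mem_ball_self hδ0⟩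
  filter_upwards [ha, hb] with q hq1 hq2
  obtain ⟨-, hi1, hi2, hE⟩ := mem_HomK_iff.1 q.2
  obtain ⟨ℓf, hf⟩ := hi1.exists_logDiff
  obtain ⟨ℓg, hg⟩ := hi2.exists_logDiff
  obtain ⟨hw1, hw2⟩ := cfix_spec hk q
  rw [← hc, dist_eq_norm]
  refine not_far_fixed hf hg hE hk hw1 hw2 hε hδ0.le hδc ?_ ?_ ?_ ?_
  · intro x hx
    have := hq1.1 hx
    rw [mem_ball_iff_norm] at this
    exact this.le
  · intro x hx
    have := hq1.2 hx
    rw [mem_ball_iff_norm] at this
    exact this.le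
  · exact Metric.ball_subset_closedBall (hq2.1 (mem_singleton c))
  · exact Metric.ball_subset_closedBall (hq2.2 (mem_singleton c))

/-- conjugation by a translation -/
def tr (c : ℂ) (f : C(ℂ, ℂ)) : C(ℂ, ℂ) := ⟨fun x => f (x + c) - c, by fun_prop⟩

@[simp] theorem tr_apply (c : ℂ) (f : C(ℂ, ℂ)) (x : ℂ) : tr c f x = f (x + c) - c := rfl

theorem continuous_tr : Continuous fun q : ℂ × C(ℂ, ℂ) => tr q.1 q.2 := by
  apply ContinuousMap.continuous_of_continuous_uncurry
  change Continuous fun q : (ℂ × C(ℂ, ℂ)) × ℂ => q.1.2 (q.2 + q.1.1) - q.1.1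
  fun_prop

theorem IsoId.tr {f : C(ℂ, ℂ)} (h : IsoId f) (c : ℂ) : IsoId (tr c f) := by
  obtain ⟨F, Fi, h1, h2⟩ := h
  refine ⟨⟨fun q => F (q.1, q.2 + c) - c, by fun_prop⟩, ⟨fun q => Fi (q.1, q.2 + c) - c,
    by fun_prop⟩, fun t ht x => ⟨?_, ?_⟩, fun x => ⟨?_, ?_⟩⟩
  · simp [(h1 t ht _).1]
  · simp [(h1 t ht _).2]
  · simp [(h2 _).1]
  · simp [(h2 _).2]

/-- translation by `c` -/
def shift (c : ℂ) : C(ℂ, ℂ) := ⟨fun x => x + c, by fun_prop⟩

theorem shift_inj (c : ℂ) : Function.Injective (shift c) :=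
  fun x y h => add_right_cancel (h : x + c = y + c)

@[simp] theorem shift_apply (c x : ℂ) : shift c x = x + c := rfl

theorem LogDiff.tr {f : C(ℂ, ℂ)} {ℓ : C(Conf, ℂ)} (h : LogDiff f ℓ) (c : ℂ) :
    LogDiff (tr c f) (ℓ.comp (Conf.map (shift c) (shift_inj c))) := by
  intro a
  have := h (Conf.map (shift c) (shift_inj c) a)
  simp only [Conf.map_fst, Conf.map_snd, shift_apply, add_sub_add_right_eq_sub] at this
  simp [this]

theorem HomK_tr {k : ℤ} {p : C(ℂ, ℂ) × C(ℂ, ℂ)} (hp : p ∈ HomK k) (c : ℂ) :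
    ((tr c p.1, tr c p.2) : C(ℂ, ℂ) × C(ℂ, ℂ)) ∈ HomK k := by
  obtain ⟨hc, hi1, hi2, hE⟩ := mem_HomK_iff.1 hp
  obtain ⟨ℓf, hf⟩ := hi1.exists_logDiff
  obtain ⟨ℓg, hg⟩ := hi2.exists_logDiff
  have hc' : ∀ x, tr c p.1 (tr c p.2 x) = tr c p.2 (tr c p.1 x) := by
    intro x
    simp [hc]
  refine mem_HomK_iff.2 ⟨hc', hi1.tr c, hi2.tr c, ?_⟩
  let b : Conf := ⟨(1, 0), one_ne_zero⟩
  refine EulerEq.of_one hc' (hf.tr c) (hg.tr c) (a := b) ?_
  let b' : Conf := ⟨(1 + c, 0 + c), by simp⟩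
  have h1 := hE ℓf ℓg hf hg b'
  simp only [ContinuousMap.comp_apply]
  have e1 : ∀ (f : C(ℂ, ℂ)) (hf : Function.Injective f) (hf' : Function.Injective (tr c f)),
      Conf.map (shift c) (shift_inj c)
        (Conf.map (tr c f) hf' b) = Conf.map f hf b' := by
    intro f hf hf'
    apply Subtype.ext
    apply Prod.ext
    · change f (1 + c) - c + c = f (1 + c)
      ring
    · change f (0 + c) - c + c = f (0 + c)
      ring
  rw [e1 p.2 hg.inj, e1 p.1 hf.inj]
  exact h1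

theorem tr_tr (c d : ℂ) (f : C(ℂ, ℂ)) : tr c (tr d f) = tr (c + d) f := by
  ext x
  simp only [tr_apply]
  rw [add_assoc]
  ring

theorem tr_zero (f : C(ℂ, ℂ)) : tr 0 f = f := by
  ext x
  simp

/-- the commuting pairs of Euler number `k` which fix the origin -/
def HomK0 (k : ℤ) : Set (C(ℂ, ℂ) × C(ℂ, ℂ)) := {p | p ∈ HomK k ∧ p.1 0 = 0 ∧ p.2 0 = 0}

/-- the splitting -/
def splitHomeo {k : ℤ} (hk : k ≠ 0) : HomK k ≃ₜ ℂ × HomK0 k where
  toFun p := (cfix hk p, ⟨(tr (cfix hk p) p.1.1, tr (cfix hk p) p.1.2), HomK_tr p.2 _, by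
    simp [(cfix_spec hk p).1], by simp [(cfix_spec hk p).2]⟩)
  invFun q := ⟨(tr (-q.1) q.2.1.1, tr (-q.1) q.2.1.2), HomK_tr q.2.2.1 _⟩
  left_inv p := by
    apply Subtype.ext
    simp only [tr_tr, neg_add_cancel, tr_zero]
  right_inv q := by
    have h : cfix hk ⟨(tr (-q.1) q.2.1.1, tr (-q.1) q.2.1.2), HomK_tr q.2.2.1 _⟩ = q.1 := by
      symm
      apply cfix_eq
      simp [q.2.2.2.1, q.2.2.2.2]
    apply Prod.ext
    · exact h
    · apply Subtype.ext
      simp only [h, tr_tr, add_neg_cancel, tr_zero]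
  continuous_toFun := by
    apply (continuous_cfix hk).prodMk
    apply Continuous.subtype_mk
    apply Continuous.prodMk
    · exact continuous_tr.comp ((continuous_cfix hk).prodMk
        (continuous_fst.comp continuous_subtype_val))
    · exact continuous_tr.comp ((continuous_cfix hk).prodMk
        (continuous_snd.comp continuous_subtype_val))
  continuous_invFun := by
    apply Continuous.subtype_mk
    apply Continuous.prodMk
    · exact continuous_tr.comp (continuous_fst.neg.prodMk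
        (continuous_fst.comp (continuous_subtype_val.comp continuous_snd)))
    · exact continuous_tr.comp (continuous_fst.neg.prodMk
        (continuous_snd.comp (continuous_subtype_val.comp continuous_snd)))

theorem HomK_preconnected_iff {k : ℤ} (hk : k ≠ 0) :
    IsPreconnected (HomK k) ↔ IsPreconnected (HomK0 k) := by
  rw [isPreconnected_iff_preconnectedSpace, isPreconnected_iff_preconnectedSpace]
  constructor
  · intro h
    have h1 : Function.Surjective (fun p : HomK k => (splitHomeo hk p).2) := by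
      intro q
      refine ⟨(splitHomeo hk).symm (0, q), ?_⟩
      simp
    refine ⟨?_⟩
    rw [← h1.range_eq]
    exact isPreconnected_range (continuous_snd.comp (splitHomeo hk).continuous)
  · intro h
    refine ⟨?_⟩
    rw [← (splitHomeo hk).symm.surjective.range_eq]
    exact isPreconnected_range (splitHomeo hk).symm.continuous

end Pool.Agent.Helper984_CP
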