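import Pool.Agent.Helper984_CP.ContInv

/-!
# Boundary extension for two charts, and the decomposition of a plane homeomorphism
-/

set_option autoImplicit false

open Set Filter Topology

noncomputable section

namespace Pool.Agent.Helper984_CP

/-- a plane homeomorphism which maps one chart domain onto another extends to the prime end
circles -/
theorem chart_extends_two {φ₁ ψ₁ φ₂ ψ₂ : ℂ → ℂ} {U₁ U₂ : Set ℂ} (h₁ : Riem φ₁ ψ₁ U₁)
    (h₂ : Riem φ₂ ψ₂ U₂) {f fi : C(ℂ, ℂ)}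
    (e1 : ∀ x, f (fi x) = x) (e2 : ∀ x, fi (f x) = x) (m1 : ∀ x ∈ U₁, f x ∈ U₂)
    (m2 : ∀ x ∈ U₂, fi x ∈ U₁) :
    ∃ F : ℂ → ℂ, DiscMap F ∧ ∀ z, ‖z‖ < 1 → F z = ψ₂ (f (φ₁ z)) := by
  have c1 : ContinuousOn (fun z => ψ₂ (f (φ₁ z))) (Metric.ball 0 1) := by
    refine h₂.cont.comp (f.continuous.comp_continuousOn h₁.contOn) ?_
    intro z hz
    exact m1 _ (h₁.maps z (mem_ball_zero_iff.1 hz))
  have c2 : ContinuousOn (fun z => ψ₁ (fi (φ₂ z))) (Metric.ball 0 1) := by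
    refine h₁.cont.comp (fi.continuous.comp_continuousOn h₂.contOn) ?_
    intro z hz
    exact m2 _ (h₂.maps z (mem_ball_zero_iff.1 hz))
  have b1 : ∀ z, ‖z‖ < 1 → ‖ψ₂ (f (φ₁ z))‖ < 1 := fun z hz => h₂.mapsInv _ (m1 _ (h₁.maps z hz))
  have b2 : ∀ z, ‖z‖ < 1 → ‖ψ₁ (fi (φ₂ z))‖ < 1 := fun z hz => h₁.mapsInv _ (m2 _ (h₂.maps z hz))
  refine extend_disc (β := fun z => ψ₂ (f (φ₁ z))) (βi := fun z => ψ₁ (fi (φ₂ z))) c1 c2 b1 b2
    ?_ ?_ ?_
  · intro z hz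
    rw [h₂.right _ (m1 _ (h₁.maps z hz)), e2, h₁.left z hz]
  · intro z hz
    rw [h₁.right _ (m2 _ (h₂.maps z hz)), e1, h₂.left z hz]
  · intro δ hδ r1 hr1
    obtain ⟨ε', hε', L⟩ := lavrentiev h₂ (δ := min δ 1) (by positivity) (min_le_right _ _)
    obtain ⟨ε, hε, S⟩ := small_image (f := f) (fi := fi) e2 hε'
    obtain ⟨r0, hr0, hr01, W⟩ := wolff h₁.diff h₁.inj (R := 1 / ε) (half_pos hε) hr1
    refine ⟨r0, hr0, hr01, fun ζ hζ => ?_⟩
    obtain ⟨r, hr, hr', hW⟩ := W ζ hζ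
    refine ⟨r, hr, hr', ?_⟩
    obtain ⟨A, hA⟩ : ∃ A : Set ℂ, A = {z : ℂ | ‖z‖ < 1 ∧ ‖z - ζ‖ = r} := ⟨_, rfl⟩
    have hsm : Small ε (φ₁ '' A) := by
      rcases hW with hW | hW
      · left
        rintro _ ⟨z, hz, rfl⟩
        rw [hA] at hz
        exact hW z hz.1 hz.2
      · right
        rintro _ ⟨z, hz, rfl⟩ _ ⟨z', hz', rfl⟩
        rw [hA] at hz hz'
        have := hW z z' hz.1 hz.2 hz'.1 hz'.2
        linarith
    have hsm' := S _ hsm
    have hAp : IsPreconnected A := by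
      rw [hA]
      exact arc_preconnected hζ (hr0.trans hr)
    have hA1 : A ⊆ Metric.ball 0 1 := by
      intro z hz
      rw [hA] at hz
      exact mem_ball_zero_iff.2 hz.1
    have hE : IsPreconnected ((fun z => ψ₂ (f (φ₁ z))) '' A) := hAp.image _ (c1.mono hA1)
    have hEimg : φ₂ '' ((fun z => ψ₂ (f (φ₁ z))) '' A) = f '' (φ₁ '' A) := by
      rw [image_image, image_image]
      refine image_congr fun z hz => ?_
      exact h₂.right _ (m1 _ (h₁.maps z (mem_ball_zero_iff.1 (hA1 hz))))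
    intro z z' hz hzr hz' hzr'
    have h3 := L _ hE (by
      rintro _ ⟨x, hx, rfl⟩
      exact b1 x (mem_ball_zero_iff.1 (hA1 hx))) (by rw [hEimg]; exact hsm')
      (ψ₂ (f (φ₁ z))) ⟨z, by rw [hA]; exact ⟨hz, hzr⟩, rfl⟩ (ψ₂ (f (φ₁ z')))
      ⟨z', by rw [hA]; exact ⟨hz', hzr'⟩, rfl⟩
    exact h3.trans (min_le_left _ _)

/-- two-sided version -/
theorem chart_extends_two' {φ₁ ψ₁ φ₂ ψ₂ : ℂ → ℂ} {U₁ U₂ : Set ℂ} (h₁ : Riem φ₁ ψ₁ U₁)
    (h₂ : Riem φ₂ ψ₂ U₂) {f fi : C(ℂ, ℂ)}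
    (e1 : ∀ x, f (fi x) = x) (e2 : ∀ x, fi (f x) = x) (m1 : ∀ x ∈ U₁, f x ∈ U₂)
    (m2 : ∀ x ∈ U₂, fi x ∈ U₁) :
    ∃ F Fi : ℂ → ℂ, DiscMap F ∧ DiscMap Fi ∧ (∀ z, ‖z‖ ≤ 1 → F (Fi z) = z) ∧
      (∀ z, ‖z‖ ≤ 1 → Fi (F z) = z) ∧ (∀ z, ‖z‖ < 1 → F z = ψ₂ (f (φ₁ z))) ∧
      ∀ z, ‖z‖ < 1 → Fi z = ψ₁ (fi (φ₂ z)) := by
  obtain ⟨F, hF, hFe⟩ := chart_extends_two h₁ h₂ e1 e2 m1 m2
  obtain ⟨Fi, hFi, hFie⟩ := chart_extends_two h₂ h₁ e2 e1 m2 m1
  have key : ∀ {F G : ℂ → ℂ}, DiscMap F → DiscMap G → (∀ z, ‖z‖ < 1 → F (G z) = z) →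
      ∀ z, ‖z‖ ≤ 1 → F (G z) = z := by
    intro F G hF hG h z hz
    have hcl : Metric.closedBall (0 : ℂ) 1 ⊆ closure (Metric.ball 0 1) := by
      rw [closure_ball _ one_ne_zero]
    have hzc : z ∈ closure (Metric.ball (0 : ℂ) 1) := hcl (mem_closedBall_zero_iff.2 hz)
    have hne : (𝓝[Metric.ball (0 : ℂ) 1] z).NeBot := mem_closure_iff_nhdsWithin_neBot.1 hzc
    have hc : ContinuousOn (fun z => F (G z)) (Metric.closedBall 0 1) := by
      refine hF.cont.comp hG.cont ?_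
      intro z hz
      exact mem_closedBall_zero_iff.2 (hG.le (mem_closedBall_zero_iff.1 hz))
    have h1 := (hc z (mem_closedBall_zero_iff.2 hz)).mono Metric.ball_subset_closedBall
    have h2 : Tendsto (fun z => F (G z)) (𝓝[Metric.ball (0 : ℂ) 1] z) (𝓝 z) := by
      have h3 : Tendsto (fun z : ℂ => z) (𝓝[Metric.ball (0 : ℂ) 1] z) (𝓝 z) :=
        tendsto_id.mono_left nhdsWithin_le_nhds
      refine h3.congr' ?_
      filter_upwards [self_mem_nhdsWithin] with x hx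
      exact (h x (mem_ball_zero_iff.1 hx)).symm
    exact tendsto_nhds_unique h1 h2
  refine ⟨F, Fi, hF, hFi, key hF hFi ?_, key hFi hF ?_, hFe, hFie⟩
  · intro z hz
    rw [hFie z hz, hFe _ (h₁.mapsInv _ (m2 _ (h₂.maps z hz))), h₁.right _ (m2 _ (h₂.maps z hz)), e1,
      h₂.left z hz]
  · intro z hz
    rw [hFe z hz, hFie _ (h₂.mapsInv _ (m1 _ (h₁.maps z hz))), h₂.right _ (m1 _ (h₁.maps z hz)), e2,
      h₁.left z hz]

theorem riem_id : Riem (fun z => z) (fun z => z) (Metric.ball 0 1) where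
  isOpen := Metric.isOpen_ball
  diff := differentiableOn_id
  maps := fun _ hz => mem_ball_zero_iff.2 hz
  cont := continuousOn_id
  mapsInv := fun _ hw => mem_ball_zero_iff.1 hw
  left := fun _ _ => rfl
  right := fun _ _ => rfl

/-- Riemann chart of a domain with the hull property, with holomorphic inverse -/
theorem exists_riem_hull' {U : Set ℂ} (hU : IsOpen U) (hUc : IsConnected U) (hne : U ≠ univ)
    (hull : ∀ L ⊆ U, IsCompact L → ∃ L' ⊆ U, L ⊆ L' ∧ IsCompact L' ∧ IsConnected L'ᶜ)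
    {a : ℂ} (ha : a ∈ U) :
    ∃ φ ψ : ℂ → ℂ, Riem φ ψ U ∧ deriv φ 0 ≠ 0 ∧ φ 0 = a ∧ DifferentiableOn ℂ ψ U := by
  obtain ⟨g, φ, h1, h2, h3, h4, h5, h6, h7, h8⟩ :=
    ZFM.J_c4.riemann_inv hU hUc (fun f hf => ZFM.primitive_of_good hU hull f hf) hne ha
  exact ⟨g, φ, ⟨hU, h1, fun z hz => h2.mapsTo (mem_ball_zero_iff.2 hz), h5.continuousOn,
    fun w hw => mem_ball_zero_iff.1 (h6 hw), fun z hz => h8 z (mem_ball_zero_iff.2 hz), h7⟩,
    h3 0 (by simp), h4, h5⟩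

theorem isPreconnected_gt_ball (r : ℝ) (hr : 0 ≤ r) : IsConnected {z : ℂ | r < ‖z‖} := by
  have : {z : ℂ | r < ‖z‖} = (fun q : ℝ × ℝ => ((q.1 : ℝ) : ℂ) * Complex.exp (q.2 * Complex.I)) ''
      (Ioi r ×ˢ univ) := by
    ext z
    simp only [mem_ofPred_eq, mem_image, mem_prod, mem_Ioi, mem_univ, and_true, Prod.exists]
    constructor
    · intro hz
      exact ⟨‖z‖, z.arg, hz, Complex.norm_mul_exp_arg_mul_I z⟩
    · rintro ⟨r', t, hr', rfl⟩
      have h0 : 0 < r' := hr.trans_lt hr'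
      rw [norm_mul, Complex.norm_real, Real.norm_of_nonneg h0.le, Complex.norm_exp_ofReal_mul_I,
        mul_one]
      exact hr'
  rw [this]
  have hc : IsConnected (Ioi r ×ˢ (univ : Set ℝ)) :=
    ⟨⟨((r + 1 : ℝ), (0 : ℝ)), by simp⟩, isPreconnected_Ioi.prod isPreconnected_univ⟩
  refine hc.image _ ?_
  exact Continuous.continuousOn (by fun_prop)

/-- Riemann chart of the image of the disc -/
theorem exists_riem_image {h hi : C(ℂ, ℂ)} (e1 : ∀ x, h (hi x) = x) (e2 : ∀ x, hi (h x) = x) :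
    ∃ φ ψ : ℂ → ℂ, Riem φ ψ (h '' Metric.ball 0 1) ∧ deriv φ 0 ≠ 0 ∧ φ 0 = h 0 ∧
      DifferentiableOn ℂ ψ (h '' Metric.ball 0 1) := by
  have himg : ∀ S : Set ℂ, h '' S = hi ⁻¹' S := by
    intro S
    ext x
    constructor
    · rintro ⟨y, hy, rfl⟩
      change hi (h y) ∈ S
      rwa [e2]
    · intro hx
      exact ⟨hi x, hx, e1 x⟩
  have hopen : IsOpen (h '' Metric.ball 0 1) := by
    rw [himg]
    exact Metric.isOpen_ball.preimage hi.continuous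
  refine exists_riem_hull' hopen ?_ ?_ ?_ ⟨0, Metric.mem_ball_self one_pos, rfl⟩
  · exact (Metric.isConnected_ball one_pos).image _ h.continuous.continuousOn
  · intro hu
    have h2 : h 1 ∈ h '' Metric.ball 0 1 := by rw [hu]; exact mem_univ _
    rw [himg] at h2
    change hi (h 1) ∈ Metric.ball (0 : ℂ) 1 at h2
    rw [e2, mem_ball_zero_iff, norm_one] at h2
    exact lt_irrefl _ h2
  · intro L hL hLc
    have hK : IsCompact (hi '' L) := hLc.image hi.continuous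
    obtain ⟨r, hr0, hr1, hr⟩ : ∃ r : ℝ, 0 ≤ r ∧ r < 1 ∧ hi '' L ⊆ Metric.closedBall 0 r := by
      rcases (hi '' L).eq_empty_or_nonempty with hem | hn
      · exact ⟨0, le_rfl, one_pos, by rw [hem]; exact empty_subset _⟩
      · obtain ⟨x, hx, hmax⟩ := hK.exists_isMaxOn hn (f := fun z => ‖z‖) (by fun_prop)
        refine ⟨‖x‖, norm_nonneg _, ?_, fun y hy => mem_closedBall_zero_iff.2 (hmax hy)⟩
        obtain ⟨y, hy, rfl⟩ := hx
        obtain ⟨z, hz, rfl⟩ := hL hy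
        rw [e2]
        exact mem_ball_zero_iff.1 hz
    refine ⟨h '' Metric.closedBall 0 r, image_mono (Metric.closedBall_subset_ball hr1), ?_,
      (isCompact_closedBall _ _).image h.continuous, ?_⟩
    · intro x hx
      exact ⟨hi x, hr ⟨x, hx, rfl⟩, e1 x⟩
    · have : (h '' Metric.closedBall 0 r)ᶜ = h '' {z : ℂ | r < ‖z‖} := by
        ext x
        rw [himg, himg]
        simp
      rw [this]
      exact (isPreconnected_gt_ball r hr0).image _ h.continuous.continuousOn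

end Pool.Agent.Helper984_CP
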