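import Pool.Agent.Helper984_CP.Orbit

/-!
# Existence and uniqueness of the common fixed point when the Euler number is nonzero
-/

set_option autoImplicit false

open Set Filter Topology Complex

noncomputable section

namespace Pool.Agent.Helper984_CP

theorem eq_zero_of_exp_small {d : ℂ} (h : cexp d = 1) (h' : ‖d‖ ≤ 1) : d = 0 := by
  obtain ⟨n, hn⟩ := Complex.exp_eq_one_iff.1 h
  by_cases hn0 : n = 0
  · rw [hn, hn0]; simp
  · exfalso
    have h1 := norm_two_pi_I_mul hn0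
    have h2 : d = 2 * Real.pi * Complex.I * n := by rw [hn]; ring
    rw [← h2] at h1
    linarith

/-- the plane homeomorphism given by a pair of inverse continuous maps -/
def mkHomeo (f fi : C(ℂ, ℂ)) (h : ∀ x, f (fi x) = x) (h' : ∀ x, fi (f x) = x) : ℂ ≃ₜ ℂ where
  toFun := f
  invFun := fi
  left_inv := h'
  right_inv := h
  continuous_toFun := f.continuous
  continuous_invFun := fi.continuous

theorem tendsto_cocompact_of_inv (f fi : C(ℂ, ℂ)) (h : ∀ x, f (fi x) = x)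
    (h' : ∀ x, fi (f x) = x) : Tendsto f (cocompact ℂ) (cocompact ℂ) :=
  (mkHomeo f fi h h').isClosedEmbedding.tendsto_cocompact

theorem exists_common_fixed {k : ℤ} {f g fi gi : C(ℂ, ℂ)} (hc : ∀ x, f (g x) = g (f x))
    (hfi : ∀ x, f (fi x) = x) (hif : ∀ x, fi (f x) = x)
    (hgi : ∀ x, g (gi x) = x) (hig : ∀ x, gi (g x) = x)
    {ℓf ℓg : C(Conf, ℂ)} (hf : LogDiff f ℓf) (hg : LogDiff g ℓg) (hE : EulerEq k f g)
    (hk : k ≠ 0) : ∃ z, f z = z ∧ g z = z := by
  by_contra hcon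
  have hno : ∀ z, f z = z → g z ≠ z := fun z h h' => hcon ⟨z, h, h'⟩
  obtain ⟨x, hx⟩ := exists_fixed hc hf hg hE hk
  obtain ⟨y, hy⟩ := exists_fixed (fun x => (hc x).symm) hg hf hE.swap (neg_ne_zero.2 hk)
  have hinj : Function.Injective gi := fun x y h => by
    have := congrArg g h
    rwa [hgi, hgi] at this
  have hc' : ∀ x, f (gi x) = gi (f x) := by
    intro x
    rw [← hig (f (gi x)), ← hc, hgi]
  have hno' : ∀ z, f z = z → gi z ≠ z := by
    intro z hz h
    apply hno z hz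
    conv_lhs => rw [← h]
    rw [hgi]
  have hy' : gi y = y := by
    conv_lhs => rw [← hy]
    rw [hig]
  have hX := orbit_tendsto hc hf hg hE hk hno (tendsto_cocompact_of_inv g gi hgi hig) hx hy
  have hY := orbit_tendsto hc' hf (hg.inv hgi hinj) (hE.inv_right hc hgi hig hf hg)
    (neg_ne_zero.2 hk) hno' (tendsto_cocompact_of_inv gi g hig hgi) hx hy'
  have hfX : ∀ n, f (g^[n] x) = g^[n] x := iter_fixed hc hx
  have hfY : ∀ n, f (gi^[n] x) = gi^[n] x := iter_fixed hc' hx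
  obtain ⟨κ, hκ⟩ : ∃ κ : ℂ, κ = 2 * Real.pi * Complex.I * k := ⟨_, rfl⟩
  have hκ0 : κ ≠ 0 := by rw [hκ]; exact two_pi_I_mul_ne hk
  -- a point of an orbit tending to infinity is not periodic
  have hper : ∀ g : C(ℂ, ℂ), Tendsto (fun n => ‖g^[n] x‖) atTop atTop → ∀ n, g^[n + 1] x ≠ x := by
    intro g hX n h
    have h1 : ∀ m, g^[(n + 1) * m] x = x := by
      intro m
      rw [Function.iterate_mul]
      exact Function.iterate_fixed h m
    have h2 : Tendsto (fun m : ℕ => (n + 1) * m) atTop atTop :=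
      tendsto_atTop_mono (fun m => Nat.le_mul_of_pos_left m (Nat.succ_pos n)) tendsto_id
    have h3 := hX.comp h2
    have h4 : (fun n => ‖g^[n] x‖) ∘ (fun m : ℕ => (n + 1) * m) = fun _ => ‖x‖ := by
      ext m
      simp only [Function.comp_apply, h1]
    rw [h4] at h3
    exact not_tendsto_const_atTop _ _ h3
  have hXne := hper g hX
  have hYne := hper gi hY
  -- shifting pairs of fixed points of `f` by `g`
  have hshift : ∀ (u v : ℂ) (hu : f u = u) (hv : f v = v) (h : u ≠ v) (h' : g u ≠ g v),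
      ℓf ⟨(g u, g v), h'⟩ = ℓf ⟨(u, v), h⟩ + κ := by
    intro u v hu hv h h'
    have h1 := hE ℓf ℓg hf hg ⟨(u, v), h⟩
    have e1 : Conf.map g hg.inj ⟨(u, v), h⟩ = ⟨(g u, g v), h'⟩ := rfl
    have e2 : Conf.map f hf.inj ⟨(u, v), h⟩ = ⟨(u, v), h⟩ := by
      apply Subtype.ext
      apply Prod.ext
      · exact hu
      · exact hv
    rw [e1, e2, ← hκ] at h1
    linear_combination h1
  have hgne : ∀ (j : ℕ) {u v : ℂ}, u ≠ v → g^[j] u ≠ g^[j] v := fun j u v h h' =>
    h (hg.inj.iterate j h')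
  have hshiftn : ∀ (j : ℕ) (u v : ℂ) (hu : f u = u) (hv : f v = v) (h : u ≠ v),
      ℓf ⟨(g^[j] u, g^[j] v), hgne j h⟩ = ℓf ⟨(u, v), h⟩ + j * κ := by
    intro j u v hu hv h
    induction j with
    | zero => simp
    | succ j ih =>
      have h1 := hshift (g^[j] u) (g^[j] v) (iter_fixed hc hu j) (iter_fixed hc hv j)
        (hgne j h) (fun h' => hgne j h (hg.inj h'))
      have e1 : (⟨(g (g^[j] u), g (g^[j] v)), fun h' => hgne j h (hg.inj h')⟩ : Conf) =
          ⟨(g^[j + 1] u, g^[j + 1] v), hgne (j + 1) h⟩ := by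
        apply Subtype.ext
        apply Prod.ext
        · exact (Function.iterate_succ_apply' g j u).symm
        · exact (Function.iterate_succ_apply' g j v).symm
      rw [← e1, h1, ih]
      push_cast
      ring
  -- on pairs of fixed points the exponential of the logarithm is one
  have hexp : ∀ (u v : ℂ) (hu : f u = u) (hv : f v = v) (h : u ≠ v), cexp (ℓf ⟨(u, v), h⟩) = 1 := by
    intro u v hu hv h
    have h1 := hf ⟨(u, v), h⟩
    simp only [hu, hv] at h1
    exact (mul_eq_right₀ (sub_ne_zero.2 h)).1 h1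
  obtain ⟨R', -, hR'⟩ := far_small hf (tendsto_cocompact_of_inv f fi hfi hif)
    (max ‖x‖ ‖g x‖) (ε := 1) one_pos
  have hfar : ∀ z, f z = z → R' < ‖z‖ → ∀ (h : z ≠ x) (h' : z ≠ g x),
      ℓf ⟨(z, x), h⟩ = ℓf ⟨(z, g x), h'⟩ := by
    intro z hz hzR h h'
    have h1 := hR' z x (g x) hzR (le_max_left _ _) (le_max_right _ _) h h'
    have h2 : cexp (ℓf ⟨(z, x), h⟩ - ℓf ⟨(z, g x), h'⟩) = 1 := by
      rw [Complex.exp_sub, hexp z x hz hx h, hexp z (g x) hz (by rw [hc, hx]) h', div_one]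
    exact sub_eq_zero.1 (eq_zero_of_exp_small h2 h1)
  let A : ℕ → ℂ := fun n => ℓf ⟨(g^[n + 1] x, x), hXne n⟩
  let B : ℕ → ℂ := fun n => ℓf ⟨(gi^[n + 1] x, x), hYne n⟩
  have hA : ∀ n, R' < ‖g^[n + 2] x‖ → A (n + 1) = A n + κ := by
    intro n hn
    have hne : g^[n + 2] x ≠ g x := by
      intro h
      rw [Function.iterate_succ_apply'] at h
      exact hXne n (hg.inj h)
    have h1 := hfar (g^[n + 2] x) (hfX _) hn (hXne (n + 1)) hne
    have h2 := hshift (g^[n + 1] x) x (hfX _) hx (hXne n) (fun h => hXne n (hg.inj h))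
    have e1 : (⟨(g (g^[n + 1] x), g x), fun h => hXne n (hg.inj h)⟩ : Conf) =
        ⟨(g^[n + 2] x, g x), hne⟩ := by
      apply Subtype.ext
      apply Prod.ext
      · exact (Function.iterate_succ_apply' g (n + 1) x).symm
      · rfl
    rw [e1, ← h1] at h2
    exact h2
  have hB : ∀ n, R' < ‖gi^[n + 1] x‖ → B n = B (n + 1) + κ := by
    intro n hn
    have hne : gi^[n + 1] x ≠ g x := by
      intro h
      apply hYne (n + 1)
      rw [Function.iterate_succ_apply', h, hig]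
    have h1 := hfar (gi^[n + 1] x) (hfY _) hn (hYne n) hne
    have h2 := hshift (gi^[n + 2] x) x (hfY _) hx (hYne (n + 1))
      (fun h => hYne (n + 1) (hg.inj h))
    have e1 : (⟨(g (gi^[n + 2] x), g x), fun h => hYne (n + 1) (hg.inj h)⟩ : Conf) =
        ⟨(gi^[n + 1] x, g x), hne⟩ := by
      apply Subtype.ext
      apply Prod.ext
      · change g (gi^[n + 2] x) = gi^[n + 1] x
        rw [Function.iterate_succ_apply' gi (n + 1) x, hgi]
      · rfl
    rw [e1, ← h1] at h2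
    exact h2
  have hAB : ∀ n, A n = B n + (n + 1 : ℕ) * κ := by
    intro n
    have h1 := hshiftn (n + 1) (gi^[n + 1] x) x (hfY _) hx (hYne n)
    have e0 : g^[n + 1] (gi^[n + 1] x) = x :=
      (Function.LeftInverse.iterate (f := gi) (g := g) hgi (n + 1)) x
    have e1 : (⟨(g^[n + 1] (gi^[n + 1] x), g^[n + 1] x), hgne (n + 1) (hYne n)⟩ : Conf) =
        ⟨(x, g^[n + 1] x), (hXne n).symm⟩ := by
      apply Subtype.ext
      apply Prod.ext
      · exact e0
      · rfl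
    rw [e1, hf.symm (hXne n).symm] at h1
    exact h1
  have hX1 : ∀ᶠ n in atTop, R' < ‖g^[n + 2] x‖ :=
    (hX.comp (tendsto_add_atTop_nat 2)).eventually (eventually_gt_atTop R')
  have hY1 : ∀ᶠ n in atTop, R' < ‖gi^[n + 1] x‖ :=
    (hY.comp (tendsto_add_atTop_nat 1)).eventually (eventually_gt_atTop R')
  obtain ⟨n, hn1, hn2⟩ := (hX1.and hY1).exists
  have h1 := hA n hn1
  have h2 := hB n hn2
  have h3 := hAB n
  have h4 := hAB (n + 1)
  apply hκ0
  push_cast at h3 h4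
  linear_combination h4 - h3 - h2 - h1

theorem common_fixed_unique {k : ℤ} {f g : C(ℂ, ℂ)}
    {ℓf ℓg : C(Conf, ℂ)} (hf : LogDiff f ℓf) (hg : LogDiff g ℓg) (hE : EulerEq k f g)
    (hk : k ≠ 0) {z w : ℂ} (hfz : f z = z) (hgz : g z = z) (hfw : f w = w) (hgw : g w = w) :
    z = w := by
  by_contra hne
  have h1 := hE ℓf ℓg hf hg ⟨(z, w), hne⟩
  have e1 : Conf.map g hg.inj ⟨(z, w), hne⟩ = ⟨(z, w), hne⟩ := by
    apply Subtype.ext
    apply Prod.ext
    · exact hgz
    · exact hgw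
  have e2 : Conf.map f hf.inj ⟨(z, w), hne⟩ = ⟨(z, w), hne⟩ := by
    apply Subtype.ext
    apply Prod.ext
    · exact hfz
    · exact hfw
  rw [e1, e2] at h1
  apply two_pi_I_mul_ne hk
  linear_combination (-1 : ℂ) * h1

theorem IsoId.exists_inv {f : C(ℂ, ℂ)} (h : IsoId f) :
    ∃ fi : C(ℂ, ℂ), (∀ x, f (fi x) = x) ∧ ∀ x, fi (f x) = x := by
  obtain ⟨F, Fi, h1, h2⟩ := h
  refine ⟨⟨fun x => Fi (1, x), by fun_prop⟩, fun x => ?_, fun x => ?_⟩
  · rw [← (h2 _).2]
    exact (h1 1 (by simp) x).1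
  · rw [← (h2 _).2]
    exact (h1 1 (by simp) x).2

theorem existsUnique_common_fixed {k : ℤ} (hk : k ≠ 0) {p : C(ℂ, ℂ) × C(ℂ, ℂ)}
    (hp : p ∈ HomK k) : ∃! z, p.1 z = z ∧ p.2 z = z := by
  obtain ⟨hc, h1, h2, hE⟩ := mem_HomK_iff.1 hp
  obtain ⟨ℓf, hf⟩ := h1.exists_logDiff
  obtain ⟨ℓg, hg⟩ := h2.exists_logDiff
  obtain ⟨fi, hfi, hif⟩ := h1.exists_inv
  obtain ⟨gi, hgi, hig⟩ := h2.exists_inv
  obtain ⟨z, hz⟩ := exists_common_fixed hc hfi hif hgi hig hf hg hE hk
  refine ⟨z, hz, fun w hw => ?_⟩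
  exact common_fixed_unique hf hg hE hk hw.1 hw.2 hz.1 hz.2

end Pool.Agent.Helper984_CP
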