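import Pool.Agent.Helper984_CP.LB

/-!
# Wolff's lemma for conformal maps of the disc
-/

set_option autoImplicit false

open Set Filter Topology MeasureTheory
open scoped ENNReal

noncomputable section

namespace Pool.Agent.Helper984_CP

theorem norm_one_sub_exp_sq (s t : ℝ) :
    ‖1 - Complex.exp (s + t * Complex.I)‖ ^ 2 =
      1 - 2 * Real.exp s * Real.cos t + Real.exp s ^ 2 := by
  rw [← Complex.normSq_eq_norm_sq, Complex.normSq_apply]
  have h1 : (1 - Complex.exp (s + t * Complex.I)).re = 1 - Real.exp s * Real.cos t := by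
    simp [Complex.exp_re]
  have h2 : (1 - Complex.exp (s + t * Complex.I)).im = - (Real.exp s * Real.sin t) := by
    simp [Complex.exp_im]
  rw [h1, h2]
  nlinarith [Real.sin_sq_add_cos_sq t]

theorem norm_one_sub_exp_lt (s t : ℝ) :
    ‖1 - Complex.exp (s + t * Complex.I)‖ < 1 ↔ Real.exp s / 2 < Real.cos t := by
  have h := norm_one_sub_exp_sq s t
  have hs := Real.exp_pos s
  have h0 := norm_nonneg (1 - Complex.exp (s + t * Complex.I))
  constructor
  · intro h1
    have h2 : ‖1 - Complex.exp (s + t * Complex.I)‖ ^ 2 < 1 := by nlinarith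
    rw [h] at h2
    have h3 : Real.exp s * (Real.exp s - 2 * Real.cos t) < 0 := by nlinarith
    have h4 : Real.exp s - 2 * Real.cos t < 0 := by
      by_contra hcon
      push Not at hcon
      exact absurd h3 (not_lt.2 (mul_nonneg hs.le hcon))
    linarith
  · intro h1
    have h2 : ‖1 - Complex.exp (s + t * Complex.I)‖ ^ 2 < 1 := by
      rw [h]
      nlinarith
    by_contra hcon
    push Not at hcon
    nlinarith

theorem wolff {φ : ℂ → ℂ} (hd : DifferentiableOn ℂ φ (Metric.ball 0 1))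
    (hinj : InjOn φ (Metric.ball 0 1)) {R η r1 : ℝ} (hη : 0 < η) (hr1 : 0 < r1) :
    ∃ r0, 0 < r0 ∧ r0 < r1 ∧ ∀ ζ : ℂ, ‖ζ‖ = 1 → ∃ r, r0 < r ∧ r < r1 ∧
      ((∀ z, ‖z‖ < 1 → ‖z - ζ‖ = r → R ≤ ‖φ z‖) ∨
        (∀ z z', ‖z‖ < 1 → ‖z - ζ‖ = r → ‖z'‖ < 1 → ‖z' - ζ‖ = r → ‖φ z - φ z'‖ ≤ 2 * η)) := by
  classical
  have hpi := Real.pi_pos
  obtain ⟨M, hM⟩ : ∃ M : ℝ≥0∞, M = volume (Metric.ball (0 : ℂ) (R + η)) := ⟨_, rfl⟩
  have hMfin : M ≠ ∞ := by rw [hM]; exact measure_ball_lt_top.ne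
  obtain ⟨L, hL⟩ : ∃ L : ℝ, L = (M.toReal + 1) / (η ^ 2 / (2 * Real.pi)) := ⟨_, rfl⟩
  have hL0 : 0 < L := by rw [hL]; positivity
  refine ⟨r1 * Real.exp (-L), by positivity, ?_, ?_⟩
  · have : Real.exp (-L) < 1 := by rw [Real.exp_lt_one_iff]; linarith
    nlinarith
  intro ζ hζ
  by_contra hcon
  push Not at hcon
  have hζ0 : ζ ≠ 0 := norm_pos_iff.1 (by rw [hζ]; exact one_pos)
  let V : Set ℂ := {w : ℂ | ‖1 - Complex.exp w‖ < 1 ∧ (-Real.pi < w.im ∧ w.im < Real.pi)}
  let Φ : ℂ → ℂ := fun w => φ (ζ * (1 - Complex.exp w))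
  let Φ' : ℂ → ℂ := fun w => deriv φ (ζ * (1 - Complex.exp w)) * (-(ζ * Complex.exp w))
  have hV : IsOpen V := by
    have c1 : Continuous fun w : ℂ => ‖1 - Complex.exp w‖ := by fun_prop
    exact (isOpen_lt c1 continuous_const).inter
      ((isOpen_lt continuous_const Complex.continuous_im).inter
        (isOpen_lt Complex.continuous_im continuous_const))
  have hmem : ∀ w ∈ V, ζ * (1 - Complex.exp w) ∈ Metric.ball (0 : ℂ) 1 := by
    intro w hw
    rw [mem_ball_zero_iff, norm_mul, hζ, one_mul]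
    exact hw.1
  have hder : ∀ z ∈ V, HasDerivAt Φ (Φ' z) z := by
    intro w hw
    have e1 : HasDerivAt φ (deriv φ (ζ * (1 - Complex.exp w))) (ζ * (1 - Complex.exp w)) :=
      (hd.differentiableAt (Metric.isOpen_ball.mem_nhds (hmem w hw))).hasDerivAt
    have e2 : HasDerivAt (fun w : ℂ => ζ * (1 - Complex.exp w)) (-(ζ * Complex.exp w)) w := by
      have e3 := ((Complex.hasDerivAt_exp w).const_sub 1).const_mul ζ
      simpa using e3
    exact e1.comp w e2
  have hdc : ContinuousOn (deriv φ) (Metric.ball 0 1) :=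
    (hd.deriv Metric.isOpen_ball).continuousOn
  have hcont : ContinuousOn Φ' V := by
    apply ContinuousOn.mul
    · exact hdc.comp (by fun_prop) hmem
    · fun_prop
  have hinjV : InjOn Φ V := by
    intro w hw w' hw' h
    have h1 := hinj (hmem w hw) (hmem w' hw') h
    have h2 : Complex.exp w = Complex.exp w' := by
      have := mul_left_cancel₀ hζ0 h1
      linear_combination -this
    exact Complex.exp_inj_of_neg_pi_lt_of_le_pi hw.2.1 hw.2.2.le hw'.2.1 hw'.2.2.le h2
  let g : ℂ → ℝ := (Metric.ball (0 : ℂ) (R + η)).indicator (fun _ => (1 : ℝ))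
  have hg : Measurable g := measurable_const.indicator measurableSet_ball
  have hg0 : ∀ z, 0 ≤ g z := fun z => indicator_nonneg (fun _ _ => zero_le_one) z
  obtain ⟨S, hS⟩ : ∃ S : Set ℝ, S = Ioo (Real.log (r1 * Real.exp (-L))) (Real.log r1) := ⟨_, rfl⟩
  have hSm : MeasurableSet S := by rw [hS]; exact measurableSet_Ioo
  have hVs : ∀ s ∈ S, volume (sl V s) ≤ ENNReal.ofReal (2 * Real.pi) := by
    intro s _
    have h1 : sl V s ⊆ Ioo (-Real.pi) Real.pi := by
      intro t ht
      have h2 := ht.2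
      simpa using h2
    refine (measure_mono h1).trans ?_
    rw [Real.volume_Ioo]
    apply ENNReal.ofReal_le_ofReal
    linarith
  -- points of the arc
  have hpt : ∀ (s : ℝ) (z : ℂ), ‖z‖ < 1 → ‖z - ζ‖ = Real.exp s →
      ∃ t : ℝ, t ∈ sl V s ∧ Φ (s + t * Complex.I) = φ z := by
    intro s z hz hzs
    obtain ⟨q, hq⟩ : ∃ q, q = 1 - z / ζ := ⟨_, rfl⟩
    have hzq : z = ζ * (1 - q) := by rw [hq]; field_simp; ring
    have hqn : ‖q‖ = Real.exp s := by
      rw [← hzs, hzq]
      have : ζ * (1 - q) - ζ = -(ζ * q) := by ring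
      rw [this, norm_neg, norm_mul, hζ, one_mul]
    have h1q : ‖1 - q‖ < 1 := by
      rw [hzq, norm_mul, hζ, one_mul] at hz
      exact hz
    have hq0 : q ≠ 0 := by
      rw [← norm_pos_iff, hqn]
      exact Real.exp_pos s
    have hexp : Complex.exp (s + q.arg * Complex.I) = q := by
      rw [Complex.exp_add, ← Complex.ofReal_exp, ← hqn]
      exact Complex.norm_mul_exp_arg_mul_I q
    refine ⟨q.arg, ⟨?_, ?_⟩, ?_⟩
    · rw [hexp]; exact h1q
    · have hre : 0 < q.re := by
        have h3 : ‖1 - q‖ ^ 2 < 1 := by nlinarith [norm_nonneg (1 - q)]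
        rw [← Complex.normSq_eq_norm_sq, Complex.normSq_apply] at h3
        simp only [Complex.sub_re, Complex.one_re, Complex.sub_im, Complex.one_im] at h3
        nlinarith [mul_self_nonneg q.re, mul_self_nonneg q.im]
      have h4 : |q.arg| < Real.pi / 2 := Complex.abs_arg_lt_pi_div_two_iff.2 (Or.inl hre)
      rw [abs_lt] at h4
      have him : ((s : ℂ) + q.arg * Complex.I).im = q.arg := by simp
      rw [him]
      exact ⟨by linarith [h4.1], by linarith [h4.2]⟩
    · simp only [Φ]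
      rw [hexp, ← hzq]
  -- the slice is an interval
  have hint : ∀ s t0 t1 : ℝ, t0 ∈ sl V s → t1 ∈ sl V s → uIcc t0 t1 ⊆ sl V s := by
    intro s t0 t1 h0 h1 t ht
    have b0 : -Real.pi < t0 ∧ t0 < Real.pi := by simpa using h0.2
    have b1 : -Real.pi < t1 ∧ t1 < Real.pi := by simpa using h1.2
    have c0 := (norm_one_sub_exp_lt s t0).1 h0.1
    have c1 := (norm_one_sub_exp_lt s t1).1 h1.1
    have hbt : -Real.pi < t ∧ t < Real.pi := by
      rw [mem_uIcc] at ht
      rcases ht with ht | ht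
      · exact ⟨by linarith [ht.1], by linarith [ht.2]⟩
      · exact ⟨by linarith [ht.1], by linarith [ht.2]⟩
    refine ⟨(norm_one_sub_exp_lt s t).2 ?_, by simpa using hbt⟩
    have habs : |t| ≤ max |t0| |t1| := by
      rw [mem_uIcc] at ht
      rcases ht with ht | ht
      · have := abs_le_max_abs_abs ht.1 ht.2
        exact this
      · have := abs_le_max_abs_abs ht.1 ht.2
        rwa [max_comm] at this
    rw [← Real.cos_abs t]
    rcases le_max_iff.1 habs with h | h
    · have := Real.cos_le_cos_of_nonneg_of_le_pi (abs_nonneg t) (abs_le.2 ⟨b0.1.le, b0.2.le⟩) h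
      rw [Real.cos_abs t0] at this
      linarith
    · have := Real.cos_le_cos_of_nonneg_of_le_pi (abs_nonneg t) (abs_le.2 ⟨b1.1.le, b1.2.le⟩) h
      rw [Real.cos_abs t1] at this
      linarith
  have hLs : ∀ s ∈ S, ENNReal.ofReal η ≤ ∫⁻ t in sl V s,
      ENNReal.ofReal (‖Φ' (s + t * Complex.I)‖ * g (Φ (s + t * Complex.I))) := by
    intro s hs
    rw [hS] at hs
    have hr0 : 0 < r1 * Real.exp (-L) := by positivity
    have e1 : r1 * Real.exp (-L) < Real.exp s := by
      rw [← Real.log_lt_iff_lt_exp hr0]; exact hs.1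
    have e2 : Real.exp s < r1 := by
      rw [← Real.lt_log_iff_exp_lt hr1]; exact hs.2
    obtain ⟨⟨z, hz1, hz2, hz3⟩, y, y', hy1, hy2, hy1', hy2', hyy⟩ := hcon (Real.exp s) e1 e2
    obtain ⟨y0, hy01, hy02, hy03⟩ : ∃ y0, ‖y0‖ < 1 ∧ ‖y0 - ζ‖ = Real.exp s ∧
        η ≤ ‖φ y0 - φ z‖ := by
      by_contra hne
      push Not at hne
      have a1 := hne y hy1 hy2
      have a2 := hne y' hy1' hy2'
      have a3 : φ y - φ y' = (φ y - φ z) - (φ y' - φ z) := by ring
      rw [a3] at hyy
      have a4 := norm_sub_le (φ y - φ z) (φ y' - φ z)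
      linarith
    obtain ⟨t0, ht0, ht0'⟩ := hpt s z hz1 hz2
    obtain ⟨t1, ht1, ht1'⟩ := hpt s y0 hy01 hy02
    have key := slice_cross (V := V) (Φ := Φ) (Φ' := Φ') hder hcont (hint s t0 t1 ht0 ht1)
      (u := fun y => ‖y - φ z‖) (g := g) (lo := 0) (hi := η) (by fun_prop) hg0 hη
      (fun y h0 h1 => gauge_dist (φ z) hz3 y h0 h1) (by rw [ht0']; simp) (by rw [ht1']; exact hy03)
    rwa [sub_zero] at key
  have hfinal := length_area hV hder hcont hinjV hg hSm (by positivity : (0 : ℝ) < 2 * Real.pi) hη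
    hVs hLs
  have hle : ∫⁻ ζ' in Φ '' V, ENNReal.ofReal (g ζ' ^ 2) ≤ M := by
    calc ∫⁻ ζ' in Φ '' V, ENNReal.ofReal (g ζ' ^ 2) ≤ ∫⁻ ζ', ENNReal.ofReal (g ζ' ^ 2) :=
          setLIntegral_le_lintegral _ _
      _ = ∫⁻ ζ', (Metric.ball (0 : ℂ) (R + η)).indicator (fun _ => (1 : ℝ≥0∞)) ζ' := by
          refine lintegral_congr fun z => ?_
          by_cases hz : z ∈ Metric.ball (0 : ℂ) (R + η)
          · simp only [g]
            rw [indicator_of_mem hz, indicator_of_mem hz]
            simp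
          · simp only [g]
            rw [indicator_of_notMem hz, indicator_of_notMem hz]
            simp
      _ = M := by
          rw [lintegral_indicator measurableSet_ball, lintegral_one, Measure.restrict_apply_univ, hM]
  have hvol : volume S = ENNReal.ofReal L := by
    rw [hS, Real.volume_Ioo]
    congr 1
    rw [Real.log_mul hr1.ne' (Real.exp_pos _).ne', Real.log_exp]
    ring
  rw [hvol, ← ENNReal.ofReal_mul hL0.le] at hfinal
  have h1 : L * (η ^ 2 / (2 * Real.pi)) = M.toReal + 1 := by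
    rw [hL]
    field_simp
  rw [h1] at hfinal
  have h2 := hfinal.trans hle
  have h3 : M = ENNReal.ofReal M.toReal := (ENNReal.ofReal_toReal hMfin).symm
  rw [h3, ENNReal.toReal_ofReal ENNReal.toReal_nonneg,
    ENNReal.ofReal_le_ofReal_iff ENNReal.toReal_nonneg] at h2
  linarith

end Pool.Agent.Helper984_CP
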